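import Mathlib

-- part Cu.Stat
section

set_option autoImplicit false

open NumberField IsDedekindDomain

namespace Pool.Agent.P.MP_20768c_nt.Az.Cu

variable {K : Type} [Field K] [NumberField K]

/-- The absolute Galois group of `K`, with the Krull topology. -/
abbrev Gal (K : Type) [Field K] : Type := AlgebraicClosure K ≃ₐ[K] AlgebraicClosure K

open Classical in
/-- The group `E[2^∞]` of points of `2`-power order over the algebraic closure. -/
noncomputable def Tor (E : WeierstrassCurve K) :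
    AddSubgroup (E.baseChange (AlgebraicClosure K)).toAffine.Point where
  carrier := {P | ∃ n : ℕ, 2 ^ n • P = 0}
  zero_mem' := ⟨0, nsmul_zero _⟩
  add_mem' := by
    rintro P Q ⟨n, hP⟩ ⟨m, hQ⟩
    refine ⟨n + m, ?_⟩
    rw [nsmul_add, pow_add, mul_nsmul, hP, mul_nsmul', hQ, nsmul_zero, nsmul_zero, add_zero]
  neg_mem' := by
    rintro P ⟨n, hP⟩
    exact ⟨n, by rw [neg_nsmul, hP, neg_zero]⟩

open Classical in
/-- The Galois action on `E[2^∞]`. -/
noncomputable def act (E : WeierstrassCurve K) (g : Gal K) (P : Tor E) : Tor E :=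
  ⟨WeierstrassCurve.Affine.Point.map (W' := E.toAffine) g.toAlgHom P.1, by
    obtain ⟨n, hn⟩ := P.2
    exact ⟨n, by rw [← map_nsmul]; exact (congrArg _ hn).trans (map_zero _)⟩⟩

/-- The place `V` of the algebraic closure lies above a prime in `S`. -/
def Above (S : Set (HeightOneSpectrum (𝓞 K))) (V : ValuationSubring (AlgebraicClosure K)) : Prop :=
  ∃ p ∈ S, ∀ x ∈ p.asIdeal, V.valuation (algebraMap (𝓞 K) (AlgebraicClosure K) x) < 1

/-- `K_S`, the field fixed by the inertia groups of all places not above `S`. -/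
noncomputable def KS (S : Set (HeightOneSpectrum (𝓞 K))) :
    IntermediateField K (AlgebraicClosure K) :=
  IntermediateField.fixedField (⨆ V : {V // ¬ Above S V},
    (V.1.inertiaSubgroup K).map (V.1.decompositionSubgroup K).subtype)

open Classical in
/-- Continuous cocycles on `Gal(K̄/F)` with values in `E[2^∞]` that factor through `Gal(K_S/F)`
and are coboundaries on the decomposition group of every place above `S`. -/
noncomputable def Coc (E : WeierstrassCurve K) (S : Set (HeightOneSpectrum (𝓞 K)))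
    (F : IntermediateField K (AlgebraicClosure K)) : AddSubgroup (F.fixingSubgroup → Tor E) where
  carrier := {c | IsLocallyConstant c ∧ (∀ g h, c (g * h) = c g + act E g.1 (c h)) ∧
    (∀ g, g.1 ∈ (KS S).fixingSubgroup → c g = 0) ∧
    ∀ V, Above S V → ∃ a, ∀ g, g.1 ∈ V.decompositionSubgroup K → c g = act E g.1 a - a}
  zero_mem' := ⟨IsLocallyConstant.const 0, fun g h => Subtype.ext (by simp [act]), fun _ _ => rfl,
    fun _ _ => ⟨0, fun g _ => Subtype.ext (by simp [act])⟩⟩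
  add_mem' := by
    rintro c c' ⟨h1, h2, h3, h4⟩ ⟨k1, k2, k3, k4⟩
    refine ⟨h1.add k1, fun g h => ?_, fun g hg => ?_, fun V hV => ?_⟩
    · simp only [Pi.add_apply, h2, k2]
      exact Subtype.ext (by simp only [act, AddSubgroup.coe_add, map_add]; abel)
    · simp [h3 g hg, k3 g hg]
    · obtain ⟨a, ha⟩ := h4 V hV
      obtain ⟨b, hb⟩ := k4 V hV
      refine ⟨a + b, fun g hg => ?_⟩
      simp only [Pi.add_apply, ha g hg, hb g hg]
      exact Subtype.ext (by
        simp only [act, AddSubgroup.coe_add, AddSubgroup.coe_sub, map_add]; abel)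
  neg_mem' := by
    rintro c ⟨h1, h2, h3, h4⟩
    refine ⟨h1.neg, fun g h => ?_, fun g hg => ?_, fun V hV => ?_⟩
    · simp only [Pi.neg_apply, h2]
      exact Subtype.ext (by
        simp only [act, AddSubgroup.coe_add, AddSubgroup.coe_neg, map_neg]; abel)
    · simp [h3 g hg]
    · obtain ⟨a, ha⟩ := h4 V hV
      refine ⟨-a, fun g hg => ?_⟩
      simp only [Pi.neg_apply, ha g hg]
      exact Subtype.ext (by
        simp only [act, AddSubgroup.coe_sub, AddSubgroup.coe_neg, map_neg]; abel)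

open Classical in
/-- The fine Selmer group `R(E[2^∞]/F)`: the cocycles of `Coc` modulo the coboundaries. -/
abbrev Sel (E : WeierstrassCurve K) (S : Set (HeightOneSpectrum (𝓞 K)))
    (F : IntermediateField K (AlgebraicClosure K)) : Type :=
  Coc E S F ⧸ (AddSubgroup.closure
    (Set.range fun (a : Tor E) (g : F.fixingSubgroup) => act E g.1 a - a)).addSubgroupOf (Coc E S F)

/-- `F` is a `ℤ_2`-extension of `K` inside `K(μ_{2^∞})`. -/
def IsCyc (F : IntermediateField K (AlgebraicClosure K)) : Prop :=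
  F ≤ IntermediateField.adjoin K {x | ∃ n : ℕ, x ^ 2 ^ n = 1} ∧ IsGalois K F ∧
    Nonempty ((F ≃ₐ[K] F) ≃ₜ* Multiplicative ℤ_[2])

/-- The statement handed in. -/
def Main : Prop :=
  ∀ (K : Type) [Field K] [NumberField K] (E : WeierstrassCurve K) [E.IsElliptic]
    (D : ℤ) (_ : D < 0) (_ : D % 8 = 1) (δ : AlgebraicClosure K) (_ : δ ^ 2 = D)
    (N : IntermediateField (IntermediateField.adjoin ℚ {δ}) (AlgebraicClosure K))
    (_ : IsGalois (IntermediateField.adjoin ℚ {δ}) N)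
    (_ : Module.finrank (IntermediateField.adjoin ℚ {δ}) N = 3)
    (_ : ∀ x : K, algebraMap K (AlgebraicClosure K) x ∈ N)
    (_ : ∀ (g : Gal K) (P : Tor E), (∀ x ∈ N, g x = x) → P + P = 0 → act E g P = P)
    (F : IntermediateField K (AlgebraicClosure K)) (_ : IsCyc F)
    (S : Set (HeightOneSpectrum (𝓞 K))) (_ : S.Finite),
    Module.Finite ℤ_[2] (Sel E S F →+ ℚ_[2] ⧸ (1 : Submodule ℤ_[2] ℚ_[2]))

end Pool.Agent.P.MP_20768c_nt.Az.Cu

end

-- part 68214b_ag.HsG0
section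

/-! Ideal counting and prime sums (copied from the files UpChebA-D of another row). -/

noncomputable section

namespace Pool.Agent.P.MP_20768c_nt.AzH.Ch

section A
open NumberField

/-- the number of ideals of a given norm -/
def nI (E : Type) [Field E] [NumberField E] (n : ℕ) : ℕ :=
  Nat.card {I : Ideal (𝓞 E) // Ideal.absNorm I = n}

theorem upChebA_int {R : Type} [CommRing R] {r : ℕ} [Fact r.Prime] {Ω : Type}
    [Field Ω] [CharP Ω r] (ψ : R →+* Ω) (h : ∀ x, ψ x ^ r = ψ x) (x : R) :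
    ∃ n : ℤ, (n : Ω) = ψ x :=
  (mem_bot_iff_intCast r Ω).1 ((Subfield.mem_bot_iff_pow_eq_self Ω r).2 (h x))

theorem upChebA_card {R : Type} [CommRing R] {r : ℕ} [Fact r.Prime] {Ω : Type}
    [Field Ω] [CharP Ω r] (ψ : R →+* Ω) (h : ∀ x, ψ x ^ r = ψ x) :
    Nat.card (R ⧸ RingHom.ker ψ) = r := by
  have e1 : Nat.card (R ⧸ RingHom.ker ψ) = Nat.card ψ.range :=
    Nat.card_congr (RingHom.quotientKerEquivRange ψ).toEquiv
  have e2 : Nat.card ψ.range = Nat.card (⊥ : Subfield Ω) := by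
    refine Nat.card_congr (Equiv.subtypeEquivRight ?_)
    intro y
    constructor
    · rintro ⟨x, rfl⟩
      exact (Subfield.mem_bot_iff_pow_eq_self Ω r).2 (h x)
    · intro hy
      obtain ⟨n, hn⟩ := (mem_bot_iff_intCast r Ω).1 hy
      exact ⟨(n : R), by rw [map_intCast, hn]⟩
  rw [e1, e2, Subfield.card_bot Ω r]

/-- homomorphisms with values in the prime field give ideals of prime norm -/
theorem card_le_nI {E : Type} [Field E] [NumberField E] {r : ℕ} [Fact r.Prime] {Ω : Type}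
    [Field Ω] [CharP Ω r] (T : Finset (𝓞 E →+* Ω)) (h : ∀ ψ ∈ T, ∀ x, ψ x ^ r = ψ x) :
    T.card ≤ nI E r := by
  have hfin : Finite {I : Ideal (𝓞 E) // Ideal.absNorm I = r} :=
    (Ideal.finite_setOfPred_absNorm_eq (S := 𝓞 E) r).to_subtype
  let f : T → {I : Ideal (𝓞 E) // Ideal.absNorm I = r} := fun ψ =>
    ⟨RingHom.ker ψ.1, by
      rw [Ideal.absNorm_apply, Submodule.cardQuot_apply]
      exact upChebA_card ψ.1 (h ψ.1 ψ.2)⟩
  have hf : Function.Injective f := by
    intro ψ χ hψ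
    have hk : RingHom.ker ψ.1 = RingHom.ker χ.1 := congrArg Subtype.val hψ
    apply Subtype.ext
    ext x
    obtain ⟨n, hn⟩ := upChebA_int ψ.1 (h ψ.1 ψ.2) x
    have h1 : x - (n : 𝓞 E) ∈ RingHom.ker ψ.1 := by
      rw [RingHom.mem_ker, map_sub, map_intCast, hn, sub_self]
    rw [hk, RingHom.mem_ker, map_sub, map_intCast, sub_eq_zero] at h1
    rw [h1, hn]
  have := Nat.card_le_card_of_injective f hf
  rw [Nat.card_eq_fintype_card, Fintype.card_coe] at this
  exact this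

theorem upChebB_den {K : Type} [Field K] [NumberField K] (S : Set K) {x : K}
    (hx : x ∈ IntermediateField.adjoin ℚ S) :
    ∃ n : ℕ, n ≠ 0 ∧ (n : K) * x ∈ Subring.closure S := by
  have h1 : x ∈ Algebra.adjoin ℚ S := by
    rw [← IntermediateField.adjoin_toSubalgebra]
    exact hx
  clear hx
  induction h1 using Algebra.adjoin_induction with
  | mem x hx => exact ⟨1, one_ne_zero, by simpa using Subring.subset_closure hx⟩
  | algebraMap q =>
    refine ⟨q.den, q.den_nz, ?_⟩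
    have : (q.den : K) * algebraMap ℚ K q = (q.num : K) := by
      rw [eq_ratCast, mul_comm]
      exact_mod_cast Rat.mul_den_eq_num q
    rw [this]
    exact intCast_mem _ _
  | add x y _ _ hx hy =>
    obtain ⟨n, hn, hx⟩ := hx
    obtain ⟨m, hm, hy⟩ := hy
    refine ⟨n * m, mul_ne_zero hn hm, ?_⟩
    have := add_mem (mul_mem (natCast_mem _ m) hx) (mul_mem (natCast_mem _ n) hy)
    convert this using 1
    push_cast
    ring
  | mul x y _ _ hx hy =>
    obtain ⟨n, hn, hx⟩ := hx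
    obtain ⟨m, hm, hy⟩ := hy
    refine ⟨n * m, mul_ne_zero hn hm, ?_⟩
    have := mul_mem hx hy
    convert this using 1
    push_cast
    ring

theorem upChebB_index {K : Type} [Field K] [NumberField K] (S : Set K) :
    ∃ D : ℕ, D ≠ 0 ∧ ∀ x : 𝓞 (IntermediateField.adjoin ℚ S),
      (D : K) * ((x : IntermediateField.adjoin ℚ S) : K) ∈ Subring.closure S := by
  classical
  obtain ⟨s, hs⟩ := Module.Finite.fg_top (R := ℤ) (M := 𝓞 (IntermediateField.adjoin ℚ S))
  choose n hn0 hn using fun x : 𝓞 (IntermediateField.adjoin ℚ S) =>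
    upChebB_den S (x : IntermediateField.adjoin ℚ S).2
  refine ⟨∏ x ∈ s, n x, Finset.prod_ne_zero_iff.2 fun x _ => hn0 x, fun x => ?_⟩
  have hx : x ∈ Submodule.span ℤ (s : Set _) := hs ▸ Submodule.mem_top
  induction hx using Submodule.span_induction with
  | mem x hx =>
    obtain ⟨k, hk⟩ := Finset.dvd_prod_of_mem n hx
    rw [hk]
    have := mul_mem (natCast_mem _ k) (hn x)
    convert this using 1
    push_cast
    ring
  | zero => simp
  | add x y _ _ hx hy =>
    have := add_mem hx hy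
    convert this using 1
    push_cast
    ring
  | smul a x _ hx =>
    have := mul_mem (intCast_mem _ a) hx
    have h1 : (((a • x : 𝓞 (IntermediateField.adjoin ℚ S)) : IntermediateField.adjoin ℚ S) : K) =
        (a : K) * ((x : IntermediateField.adjoin ℚ S) : K) := by
      have := map_zsmul ((algebraMap (IntermediateField.adjoin ℚ S) K).comp
        (algebraMap (𝓞 (IntermediateField.adjoin ℚ S)) (IntermediateField.adjoin ℚ S))) a x
      exact this.trans (zsmul_eq_mul _ _)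
    rw [h1]
    convert this using 1
    ring

theorem UpChebD_left {S : Type} [CommRing S] {a b : ℕ} (h : a.Coprime b) {I J : Ideal S}
    (ha : (a : S) ∈ I) (hb : (b : S) ∈ J) : I = I * J ⊔ Ideal.span {(a : S)} := by
  apply le_antisymm
  · intro x hx
    obtain ⟨u, v, huv⟩ := (Nat.isCoprime_iff_coprime.2 h).map (Int.castRingHom S)
    simp only [eq_intCast, Int.cast_natCast] at huv
    have : x = x * (v * b) + (x * u) * a := by linear_combination (-x) * huv
    rw [this]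
    exact Submodule.add_mem_sup (Ideal.mul_mem_mul hx (J.mul_mem_left _ hb))
      (Ideal.mul_mem_left _ _ (Ideal.subset_span rfl))
  · exact sup_le Ideal.mul_le_left ((Ideal.span_singleton_le_iff_mem _).2 ha)

theorem nI_mul (E : Type) [Field E] [NumberField E] {a b : ℕ} (hab : a * b ≠ 0)
    (h : a.Coprime b) : nI E a * nI E b ≤ nI E (a * b) := by
  unfold nI
  rw [← Nat.card_prod]
  have : Finite {I : Ideal (𝓞 E) // Ideal.absNorm I = a * b} :=
    (Ideal.finite_setOfPred_absNorm_eq (a * b)).to_subtype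
  refine Nat.card_le_card_of_injective
    (fun x => ⟨x.1.1 * x.2.1, by rw [map_mul, x.1.2, x.2.2]⟩) ?_
  rintro ⟨⟨I, hI⟩, ⟨J, hJ⟩⟩ ⟨⟨I', hI'⟩, ⟨J', hJ'⟩⟩ hxy
  have e : I * J = I' * J' := congrArg Subtype.val hxy
  have m1 : (a : 𝓞 E) ∈ I := hI ▸ Ideal.absNorm_mem I
  have m2 : (b : 𝓞 E) ∈ J := hJ ▸ Ideal.absNorm_mem J
  have m3 : (a : 𝓞 E) ∈ I' := hI' ▸ Ideal.absNorm_mem I'
  have m4 : (b : 𝓞 E) ∈ J' := hJ' ▸ Ideal.absNorm_mem J'
  have e1 : I = I' := by rw [UpChebD_left h m1 m2, e, ← UpChebD_left h m3 m4]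
  have e2 : J = J' := by
    rw [UpChebD_left h.symm m2 m1, mul_comm, e, mul_comm, ← UpChebD_left h.symm m4 m3]
  subst e1 e2
  rfl

theorem UpChebD_one (E : Type) [Field E] [NumberField E] : 1 ≤ nI E 1 := by
  unfold nI
  have : Finite {I : Ideal (𝓞 E) // Ideal.absNorm I = 1} :=
    (Ideal.finite_setOfPred_absNorm_eq 1).to_subtype
  have : Nonempty {I : Ideal (𝓞 E) // Ideal.absNorm I = 1} := ⟨⟨⊤, by simp⟩⟩
  exact Nat.card_pos

theorem UpChebD_prod (E : Type) [Field E] [NumberField E] (T : Finset ℕ)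
    (hT : ∀ r ∈ T, r.Prime) : ∏ r ∈ T, nI E r ≤ nI E (∏ r ∈ T, r) := by
  induction T using Finset.induction_on with
  | empty => simpa using UpChebD_one E
  | insert a T ha ih =>
    have hT' : ∀ r ∈ T, r.Prime := fun r hr => hT r (Finset.mem_insert_of_mem hr)
    have hap := hT a (Finset.mem_insert_self _ _)
    rw [Finset.prod_insert ha, Finset.prod_insert ha]
    refine (Nat.mul_le_mul_left _ (ih hT')).trans (nI_mul E ?_ ?_)
    · exact mul_ne_zero hap.ne_zero (Finset.prod_ne_zero_iff.2 fun r hr => (hT' r hr).ne_zero)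
    · exact Nat.Coprime.prod_right fun r hr =>
        (Nat.coprime_primes hap (hT' r hr)).2 fun h => ha (h ▸ hr)

/-- upper bound from the simple pole of the zeta function -/
theorem prod_upper (E : Type) [Field E] [NumberField E] :
    ∃ C : ℝ, ∀ᶠ j : ℕ in Filter.atTop, ∀ R : Finset ℕ, (∀ r ∈ R, r.Prime) →
      ∏ r ∈ R, (1 + (nI E r : ℝ) * (r : ℝ) ^ (-(1 + (2 : ℝ)⁻¹ ^ j))) ≤ C * 2 ^ j := by
  refine ⟨dedekindZeta_residue E + 1, ?_⟩
  have h0 : Filter.Tendsto (fun j : ℕ => 1 + (2 : ℝ)⁻¹ ^ j) Filter.atTop (nhdsWithin 1 (Set.Ioi 1)) := by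
    apply tendsto_nhdsWithin_iff.2
    constructor
    · simpa using (tendsto_pow_atTop_nhds_zero_of_lt_one (r := (2 : ℝ)⁻¹) (by norm_num)
        (by norm_num)).const_add 1
    · exact Filter.Eventually.of_forall fun j => by
        have : 0 < (2 : ℝ)⁻¹ ^ j := by positivity
        simpa using this
  have h1 := (Complex.continuous_re.tendsto _).comp
    ((tendsto_sub_one_mul_dedekindZeta_nhdsGT E).comp h0)
  have hp := dedekindZeta_residue_pos E
  have h2 := h1.eventually (Ioo_mem_nhds (a := 0) (b := dedekindZeta_residue E + 1)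
    (by simpa using hp) (by simp))
  filter_upwards [h2] with j hj R hR
  set x : ℝ := 1 + (2 : ℝ)⁻¹ ^ j with hx
  let g : ℕ → ℝ := fun n => if n = 0 then 0 else (nI E n : ℝ) * (n : ℝ) ^ (-x)
  have hg : ∀ n, LSeries.term (fun n => (Nat.card {I : Ideal (𝓞 E) // Ideal.absNorm I = n} : ℂ))
      x n = (g n : ℂ) := by
    intro n
    by_cases hn : n = 0
    · subst hn; simp [g]
    · rw [LSeries.term_of_ne_zero hn]
      simp only [g, if_neg hn, nI]
      rw [Real.rpow_neg (Nat.cast_nonneg n)]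
      push_cast
      rw [Complex.ofReal_cpow (Nat.cast_nonneg n), div_eq_mul_inv]
      simp
  have hz : dedekindZeta E x = ((∑' n, g n : ℝ) : ℂ) := by
    rw [dedekindZeta, LSeries, Complex.ofReal_tsum]
    exact tsum_congr hg
  have hj' : 0 < (x - 1) * ∑' n, g n ∧ (x - 1) * ∑' n, g n < dedekindZeta_residue E + 1 := by
    have e : ((x : ℂ) - 1) * dedekindZeta E x = (((x - 1) * ∑' n, g n : ℝ) : ℂ) := by
      rw [hz]; push_cast; ring
    have hj2 : (((x : ℂ) - 1) * dedekindZeta E x).re ∈ Set.Ioo 0 (dedekindZeta_residue E + 1) := hj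
    rw [e, Complex.ofReal_re] at hj2
    exact hj2
  have hs : Summable g := by
    by_contra hn
    rw [tsum_eq_zero_of_not_summable hn] at hj'
    simp at hj'
  have g0 : ∀ n, 0 ≤ g n := fun n => by
    simp only [g]; split_ifs
    · exact le_rfl
    · positivity
  have h3 : ∑' n, g n ≤ (dedekindZeta_residue E + 1) * 2 ^ j := by
    have e : (x - 1) * 2 ^ j = 1 := by
      rw [hx, add_sub_cancel_left, ← mul_pow]; norm_num
    have : (0 : ℝ) < 2 ^ j := by positivity
    calc ∑' n, g n = ((x - 1) * ∑' n, g n) * 2 ^ j := by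
          rw [mul_right_comm, e, one_mul]
      _ ≤ _ := mul_le_mul_of_nonneg_right hj'.2.le this.le
  refine le_trans ?_ h3
  rw [Finset.prod_one_add]
  have hinj : Set.InjOn (fun T : Finset ℕ => ∏ r ∈ T, r) R.powerset := by
    intro T hT T' hT' h
    have a1 := Nat.primeFactors_prod (s := T) fun p hp => hR p (Finset.mem_powerset.1 hT hp)
    have a2 := Nat.primeFactors_prod (s := T') fun p hp => hR p (Finset.mem_powerset.1 hT' hp)
    rw [← a1, ← a2]
    exact congrArg Nat.primeFactors h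
  calc _ ≤ ∑ T ∈ R.powerset, g (∏ r ∈ T, r) := by
        apply Finset.sum_le_sum
        intro T hT
        have hT' : ∀ r ∈ T, r.Prime := fun p hp => hR p (Finset.mem_powerset.1 hT hp)
        have hne : ∏ r ∈ T, r ≠ 0 := Finset.prod_ne_zero_iff.2 fun r hr => (hT' r hr).ne_zero
        simp only [g, if_neg hne]
        rw [Finset.prod_mul_distrib, Nat.cast_prod,
          Real.finsetProd_rpow _ _ (fun r _ => Nat.cast_nonneg r)]
        apply mul_le_mul_of_nonneg_right _ (by positivity)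
        exact_mod_cast UpChebD_prod E T hT'
    _ = ∑ n ∈ R.powerset.image (fun T : Finset ℕ => ∏ r ∈ T, r), g n :=
        (Finset.sum_image hinj).symm
    _ ≤ _ := hs.sum_le_tsum _ fun n _ => g0 n

theorem UpChebD_exp {y : ℝ} (hy : 0 ≤ y) : Real.exp (y - y ^ 2) ≤ 1 + y := by
  have h1 : 0 < 1 + y := by linarith
  rw [← Real.le_log_iff_exp_le h1]
  refine le_trans ?_ (Real.one_sub_inv_le_log_of_pos h1)
  have : 1 - (1 + y)⁻¹ = y / (1 + y) := by field_simp; ring
  rw [this, le_div_iff₀ h1]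
  nlinarith [pow_nonneg hy 3]

end A

section C
open ArithmeticFunction ArithmeticFunction.vonMangoldt

/-- one step of the telescoping bound for negative powers -/
theorem upChebC_step {t : ℝ} (ht : 0 < t) (j : ℕ) :
    t ^ (-(1 + (2 : ℝ)⁻¹ ^ j)) + (2 : ℝ)⁻¹ ^ (j + 1) * (Real.log t * t ^ (-(1 + (2 : ℝ)⁻¹ ^ j)))
      ≤ t ^ (-(1 + (2 : ℝ)⁻¹ ^ (j + 1))) := by
  have h1 : -(1 + (2 : ℝ)⁻¹ ^ (j + 1)) = -(1 + (2 : ℝ)⁻¹ ^ j) + (2 : ℝ)⁻¹ ^ (j + 1) := by
    rw [pow_succ]; ring
  rw [h1, Real.rpow_add ht, Real.rpow_def_of_pos ht ((2 : ℝ)⁻¹ ^ (j + 1))]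
  have h2 := Real.add_one_le_exp (Real.log t * (2 : ℝ)⁻¹ ^ (j + 1))
  have h3 : 0 < t ^ (-(1 + (2 : ℝ)⁻¹ ^ j)) := Real.rpow_pos_of_pos ht _
  nlinarith [mul_le_mul_of_nonneg_left h2 h3.le]

/-- the telescoped bound -/
theorem upChebC_tel {t : ℝ} (ht : 0 < t) (j : ℕ) :
    ∑ i ∈ Finset.range j, (2 : ℝ)⁻¹ ^ (i + 1) * (Real.log t * t ^ (-(1 + (2 : ℝ)⁻¹ ^ i)))
      ≤ t ^ (-(1 + (2 : ℝ)⁻¹ ^ j)) := by
  induction j with
  | zero => simpa using (Real.rpow_pos_of_pos ht _).le
  | succ j ih =>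
    rw [Finset.sum_range_succ]
    have := upChebC_step ht j
    linarith

/-- the logarithmically weighted sum over the primes of the class -/
theorem upChebC_log {N : ℕ} [NeZero N] {c : ZMod N} (hc : IsUnit c) (B : ℕ) :
    ∃ C : ℝ, 0 ≤ C ∧ ∀ x : ℝ, 1 < x → x ≤ 2 →
      Summable (fun n : ℕ => if n.Prime ∧ B < n ∧ (n : ZMod N) = c then
        Real.log n * (n : ℝ) ^ (-x) else 0) ∧
      (N.totient : ℝ)⁻¹ / (x - 1) - C ≤ ∑' n : ℕ, (if n.Prime ∧ B < n ∧ (n : ZMod N) = c then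
        Real.log n * (n : ℝ) ^ (-x) else 0) := by
  obtain ⟨C0, hC0⟩ := LSeries_residueClass_lower_bound hc
  have hg1 := summable_residueClass_non_primes_div c
  have hg2 : Summable (fun n : ℕ => if n ≤ B then Real.log n else 0) := by
    refine summable_of_ne_finset_zero (s := Finset.range (B + 1)) fun n hn => ?_
    rw [Finset.mem_range] at hn
    rw [if_neg (by omega)]
  have hg := hg1.add hg2
  set g : ℕ → ℝ := fun n => (if n.Prime then 0 else residueClass c n) / n +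
    (if n ≤ B then Real.log n else 0) with hgdef
  refine ⟨|C0 + ∑' n, g n|, abs_nonneg _, fun x hx1 hx2 => ?_⟩
  have hs : Summable fun n : ℕ => residueClass c n / (n : ℝ) ^ x :=
    LSeries.summable_real_of_abscissaOfAbsConv_lt
      ((abscissaOfAbsConv_residueClass_le_one c).trans_lt (by exact_mod_cast hx1))
  have hprime : ∀ n : ℕ, n.Prime → (n : ZMod N) = c → residueClass c n = Real.log n := by
    intro n hn hnc
    have : n ∈ {n : ℕ | (n : ZMod N) = c} := hnc
    simp only [residueClass, Set.indicator_of_mem this, vonMangoldt_apply_prime hn]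
  have hS : Summable (fun n : ℕ => if n.Prime ∧ B < n ∧ (n : ZMod N) = c then
        Real.log n * (n : ℝ) ^ (-x) else 0) := by
    refine Summable.of_nonneg_of_le (fun n => ?_) (fun n => ?_) hs
    · split_ifs with h
      · exact mul_nonneg (Real.log_natCast_nonneg n) (Real.rpow_nonneg (Nat.cast_nonneg n) _)
      · exact le_rfl
    · split_ifs with h
      · rw [hprime n h.1 h.2.2, Real.rpow_neg (Nat.cast_nonneg n), div_eq_mul_inv]
      · exact div_nonneg (residueClass_nonneg c n) (Real.rpow_nonneg (Nat.cast_nonneg n) _)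
  refine ⟨hS, ?_⟩
  have h1 := hC0 (x := x) ⟨hx1, hx2⟩
  have h2 : ∑' n : ℕ, residueClass c n / (n : ℝ) ^ x ≤
      ∑' n : ℕ, ((if n.Prime ∧ B < n ∧ (n : ZMod N) = c then
        Real.log n * (n : ℝ) ^ (-x) else 0) + g n) := by
    refine Summable.tsum_le_tsum (fun n => ?_) hs (hS.add hg)
    rcases Nat.eq_zero_or_pos n with rfl | hn0
    · simp [hgdef]
    have hn1 : (1 : ℝ) ≤ n := by exact_mod_cast hn0
    have hpow : (n : ℝ) ≤ (n : ℝ) ^ x := by
      have := Real.rpow_le_rpow_of_exponent_le hn1 hx1.le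
      rwa [Real.rpow_one] at this
    have hl := Real.log_natCast_nonneg n
    have hr := residueClass_nonneg c n
    simp only [hgdef]
    by_cases hp : n.Prime
    · rw [if_pos hp, zero_div, zero_add]
      by_cases hnc : (n : ZMod N) = c
      · rw [hprime n hp hnc]
        by_cases hB : B < n
        · rw [if_pos ⟨hp, hB, hnc⟩, if_neg (by omega), add_zero,
            Real.rpow_neg (Nat.cast_nonneg n), div_eq_mul_inv]
        · rw [if_neg (fun h => hB h.2.1), if_pos (by omega), zero_add]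
          exact div_le_self hl (hn1.trans hpow)
      · have : n ∉ {n : ℕ | (n : ZMod N) = c} := hnc
        have h0 : residueClass c n = 0 := by
          simp only [residueClass, Set.indicator_of_notMem this]
        rw [h0, zero_div, if_neg (fun h => hnc h.2.2), zero_add]
        split_ifs
        · exact hl
        · exact le_rfl
    · rw [if_neg hp, if_neg (fun h => hp h.1), zero_add]
      have h3 : residueClass c n / (n : ℝ) ^ x ≤ residueClass c n / n :=
        div_le_div_of_nonneg_left hr (by linarith) hpow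
      have h4 : (0 : ℝ) ≤ if n ≤ B then Real.log n else 0 := by
        split_ifs
        · exact hl
        · exact le_rfl
      linarith
  rw [hS.tsum_add hg] at h2
  have h3 := le_abs_self (C0 + ∑' n, g n)
  linarith

/-- lower bound for the sum over the primes of a residue class -/
theorem prime_sum_lower {N : ℕ} [NeZero N] {c : ZMod N} (hc : IsUnit c) (B : ℕ) :
    ∃ C : ℝ, ∀ j : ℕ, ∃ R : Finset ℕ, (∀ r ∈ R, r.Prime ∧ B < r ∧ (r : ZMod N) = c) ∧
      (j : ℝ) / (2 * N.totient) - C ≤ ∑ r ∈ R, (r : ℝ) ^ (-(1 + (2 : ℝ)⁻¹ ^ j)) := by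
  obtain ⟨C, hC0, hC⟩ := upChebC_log hc B
  refine ⟨C + 1, fun j => ?_⟩
  have hx : ∀ i : ℕ, (1 : ℝ) < 1 + (2 : ℝ)⁻¹ ^ i ∧ 1 + (2 : ℝ)⁻¹ ^ i ≤ 2 := by
    intro i
    have h1 : (0 : ℝ) < (2 : ℝ)⁻¹ ^ i := by positivity
    have h2 : (2 : ℝ)⁻¹ ^ i ≤ 1 := pow_le_one₀ (by norm_num) (by norm_num)
    constructor <;> linarith
  set F : ℕ → ℕ → ℝ := fun i n => if n.Prime ∧ B < n ∧ (n : ZMod N) = c then
    Real.log n * (n : ℝ) ^ (-(1 + (2 : ℝ)⁻¹ ^ i)) else 0 with hF
  have hFs : ∀ i, Summable (F i) := fun i => (hC _ (hx i).1 (hx i).2).1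
  have hFl : ∀ i, (N.totient : ℝ)⁻¹ / 2 - (2 : ℝ)⁻¹ ^ (i + 1) * C ≤
      (2 : ℝ)⁻¹ ^ (i + 1) * ∑' n, F i n := by
    intro i
    have h1 := (hC _ (hx i).1 (hx i).2).2
    have h2 : (0 : ℝ) < (2 : ℝ)⁻¹ ^ i := by positivity
    have h3 := mul_le_mul_of_nonneg_left h1 (by positivity : (0 : ℝ) ≤ (2 : ℝ)⁻¹ ^ (i + 1))
    have h4 : (2 : ℝ)⁻¹ ^ (i + 1) * ((N.totient : ℝ)⁻¹ / (1 + (2 : ℝ)⁻¹ ^ i - 1)) =
        (N.totient : ℝ)⁻¹ / 2 := by
      rw [add_sub_cancel_left, pow_succ]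
      field_simp
    rw [mul_sub, h4] at h3
    exact h3
  have hsum : HasSum (fun n => ∑ i ∈ Finset.range j, (2 : ℝ)⁻¹ ^ (i + 1) * F i n)
      (∑ i ∈ Finset.range j, (2 : ℝ)⁻¹ ^ (i + 1) * ∑' n, F i n) :=
    hasSum_sum fun i _ => (hFs i).hasSum.mul_left _
  have hgeo : ∀ k : ℕ, ∑ i ∈ Finset.range k, (2 : ℝ)⁻¹ ^ (i + 1) = 1 - (2 : ℝ)⁻¹ ^ k := by
    intro k
    induction k with
    | zero => simp
    | succ k ih => rw [Finset.sum_range_succ, ih, pow_succ]; ring
  have hlow : (j : ℝ) / (2 * N.totient) - C ≤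
      ∑ i ∈ Finset.range j, (2 : ℝ)⁻¹ ^ (i + 1) * ∑' n, F i n := by
    refine le_trans ?_ (Finset.sum_le_sum fun i _ => hFl i)
    rw [Finset.sum_sub_distrib, ← Finset.sum_mul, hgeo, Finset.sum_const, Finset.card_range,
      nsmul_eq_mul]
    have h2 : (0 : ℝ) < (2 : ℝ)⁻¹ ^ j := by positivity
    have h3 : (j : ℝ) / (2 * N.totient) = j * ((N.totient : ℝ)⁻¹ / 2) := by
      rw [div_eq_mul_inv, mul_inv]; ring
    rw [h3]
    nlinarith [mul_nonneg h2.le hC0]
  have hev := (hsum.eventually (lt_mem_nhds (show (j : ℝ) / (2 * N.totient) - (C + 1) <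
    ∑ i ∈ Finset.range j, (2 : ℝ)⁻¹ ^ (i + 1) * ∑' n, F i n by linarith))).exists
  obtain ⟨s, hs⟩ := hev
  refine ⟨s.filter fun n => n.Prime ∧ B < n ∧ (n : ZMod N) = c,
    fun r hr => (Finset.mem_filter.mp hr).2, hs.le.trans ?_⟩
  rw [Finset.sum_filter]
  refine Finset.sum_le_sum fun n _ => ?_
  simp only [hF]
  split_ifs with h
  · exact upChebC_tel (by exact_mod_cast h.1.pos) j
  · simp

end C

end Pool.Agent.P.MP_20768c_nt.AzH.Ch

end

end

-- part ad7a55_nt.Defs
section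

/-! Statement layer: the j-function, discriminants of CM points, Galois orbits, the measure. -/

set_option autoImplicit false

noncomputable section

open UpperHalfPlane MeasureTheory

namespace Pool.Agent.P.MP_20768c_nt.Az.EQ

/-- Klein's modular invariant `j = E₄³ / Δ`; it identifies `Y(1) = SL₂(ℤ)\ℍ` with `ℂ`. -/
def jInv (τ : ℍ) : ℂ := ModularForm.E₄ τ ^ 3 / ModularForm.discriminant τ

/-- `τ` is a CM point of discriminant `D`: a root of a primitive integral quadratic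
`a τ² + b τ + c` with `D = b² - 4ac`. -/
def HasDisc (τ : ℍ) (D : ℤ) : Prop :=
  ∃ a b c : ℤ, 0 < a ∧ Int.gcd (Int.gcd a b) c = 1 ∧
    (a : ℂ) * (τ : ℂ) ^ 2 + b * τ + c = 0 ∧ D = b ^ 2 - 4 * a * c

/-- The orbit of a point of `ℂⁿ` under the field automorphisms of `ℂ` that fix `F` pointwise. -/
def galOrbit {n : ℕ} (F : IntermediateField ℚ ℂ) (x : Fin n → ℂ) : Set (Fin n → ℂ) :=
  {y | ∃ σ : ℂ ≃+* ℂ, (∀ a ∈ F, σ a = a) ∧ y = fun k => σ (x k)}

/-- The normalised hyperbolic measure of `Y(1)` in the coordinate `j`: the hyperbolic area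
`dx dy / y²` on the standard fundamental domain, normalised to mass one, pushed forward by `j`. -/
def mY : Measure ℂ := (ProbabilityTheory.cond (volume : Measure ℍ) ModularGroup.fd).map jInv

end Pool.Agent.P.MP_20768c_nt.Az.EQ

end

end

-- part ad7a55_nt.Base
section

/-! The groups and spaces of the dynamical part. -/

set_option autoImplicit false

noncomputable section

open MeasureTheory Topology Filter
open scoped MatrixGroups

namespace Pool.Agent.P.MP_20768c_nt.Az.EQ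

/-- Upper unipotent. -/
def uu {R : Type} [CommRing R] (x : R) : SL(2, R) := ⟨!![1, x; 0, 1], by simp [Matrix.det_fin_two]⟩

/-- Lower unipotent. -/
def ul {R : Type} [CommRing R] (x : R) : SL(2, R) := ⟨!![1, 0; x, 1], by simp [Matrix.det_fin_two]⟩

/-- Diagonal element. -/
def dg {F : Type} [Field F] (a : F) (ha : a ≠ 0) : SL(2, F) :=
  ⟨!![a, 0; 0, a⁻¹], by simp [Matrix.det_fin_two, ha]⟩

@[simp] theorem uu_val {R : Type} [CommRing R] (x : R) :
    (uu x : Matrix (Fin 2) (Fin 2) R) = !![1, x; 0, 1] := rfl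

@[simp] theorem ul_val {R : Type} [CommRing R] (x : R) :
    (ul x : Matrix (Fin 2) (Fin 2) R) = !![1, 0; x, 1] := rfl

@[simp] theorem dg_val {F : Type} [Field F] (a : F) (ha : a ≠ 0) :
    (dg a ha : Matrix (Fin 2) (Fin 2) F) = !![a, 0; 0, a⁻¹] := rfl

theorem uu_add {R : Type} [CommRing R] (x y : R) : uu (x + y) = uu x * uu y := by
  ext i j; fin_cases i <;> fin_cases j <;> simp [Matrix.mul_apply, Fin.sum_univ_two, add_comm]

theorem ul_add {R : Type} [CommRing R] (x y : R) : ul (x + y) = ul x * ul y := by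
  ext i j; fin_cases i <;> fin_cases j <;> simp [Matrix.mul_apply, Fin.sum_univ_two]

@[simp] theorem uu_zero {R : Type} [CommRing R] : uu (0 : R) = 1 := by
  ext i j; fin_cases i <;> fin_cases j <;> simp

@[simp] theorem ul_zero {R : Type} [CommRing R] : ul (0 : R) = 1 := by
  ext i j; fin_cases i <;> fin_cases j <;> simp

theorem uu_inv {R : Type} [CommRing R] (x : R) : (uu x)⁻¹ = uu (-x) :=
  inv_eq_of_mul_eq_one_right (by rw [← uu_add]; simp)

theorem ul_inv {R : Type} [CommRing R] (x : R) : (ul x)⁻¹ = ul (-x) :=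
  inv_eq_of_mul_eq_one_right (by rw [← ul_add]; simp)

theorem continuous_SL {α R : Type} [CommRing R] [TopologicalSpace R] [TopologicalSpace α]
    {f : α → SL(2, R)} (h : ∀ i j, Continuous fun a => f a i j) : Continuous f :=
  Continuous.subtype_mk (continuous_matrix h) _

theorem continuous_uu {R : Type} [CommRing R] [TopologicalSpace R] :
    Continuous (uu : R → SL(2, R)) :=
  continuous_SL fun i j => by fin_cases i <;> fin_cases j <;> simp [uu] <;> fun_prop

theorem continuous_ul {R : Type} [CommRing R] [TopologicalSpace R] :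
    Continuous (ul : R → SL(2, R)) :=
  continuous_SL fun i j => by fin_cases i <;> fin_cases j <;> simp [ul] <;> fun_prop

section inst

variable {F : Type} [NormedField F]

instance instLCSL [LocallyCompactSpace F] : LocallyCompactSpace SL(2, F) :=
  haveI : LocallyCompactSpace (Matrix (Fin 2) (Fin 2) F) :=
    inferInstanceAs (LocallyCompactSpace (Fin 2 → Fin 2 → F))
  Matrix.SpecialLinearGroup.isClosedEmbedding_val.locallyCompactSpace

instance instSCSL [SecondCountableTopology F] : SecondCountableTopology SL(2, F) :=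
  haveI : SecondCountableTopology (Matrix (Fin 2) (Fin 2) F) :=
    inferInstanceAs (SecondCountableTopology (Fin 2 → Fin 2 → F))
  Matrix.SpecialLinearGroup.isClosedEmbedding_val.isEmbedding.secondCountableTopology

instance instT2SL : T2Space SL(2, F) :=
  Matrix.SpecialLinearGroup.isClosedEmbedding_val.isEmbedding.t2Space

instance instPolishSL [SecondCountableTopology F] [CompleteSpace F] : PolishSpace SL(2, F) :=
  haveI : PolishSpace (Matrix (Fin 2) (Fin 2) F) :=
    inferInstanceAs (PolishSpace (Fin 2 → Fin 2 → F))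
  Matrix.SpecialLinearGroup.isClosedEmbedding_val.polishSpace

instance instMSSL : MeasurableSpace SL(2, F) := borel _

instance instBSSL : BorelSpace SL(2, F) := ⟨rfl⟩

end inst

/-- A locally compact second countable Hausdorff space is Polish. -/
theorem polish_of_lc (Z : Type) [TopologicalSpace Z] [T2Space Z] [LocallyCompactSpace Z]
    [SecondCountableTopology Z] : PolishSpace Z := by
  have hsc : SecondCountableTopology (OnePoint Z) := by
    obtain ⟨K⟩ : Nonempty (CompactExhaustion Z) := inferInstance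
    obtain ⟨b, hbc, -, hb⟩ := TopologicalSpace.exists_countable_basis Z
    have hB : TopologicalSpace.IsTopologicalBasis
        (((fun U : Set Z => ((↑) : Z → OnePoint Z) '' U) '' b) ∪
          Set.range fun n : ℕ => (((↑) : Z → OnePoint Z) '' K n)ᶜ) := by
      refine TopologicalSpace.isTopologicalBasis_of_isOpen_of_nhds ?_ ?_
      · rintro _ (⟨U, hU, rfl⟩ | ⟨n, rfl⟩)
        · exact OnePoint.isOpenEmbedding_coe.isOpenMap _ (hb.isOpen hU)
        · exact ((K.isCompact n).image OnePoint.continuous_coe).isClosed.isOpen_compl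
      · intro a u hau hu
        induction a using OnePoint.rec with
        | infty =>
          obtain ⟨n, hn⟩ := K.exists_superset_of_isCompact
            ((OnePoint.isOpen_iff_of_mem hau).1 hu).2
          refine ⟨_, Or.inr ⟨n, rfl⟩, by simp, ?_⟩
          intro z hz
          induction z using OnePoint.rec with
          | infty => exact hau
          | coe z =>
            by_contra h
            exact hz ⟨z, hn h, rfl⟩
        | coe a =>
          obtain ⟨U, hU, haU, hUu⟩ := hb.exists_subset_of_mem_open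
            (show a ∈ ((↑) : Z → OnePoint Z) ⁻¹' u from hau) (hu.preimage OnePoint.continuous_coe)
          exact ⟨_, Or.inl ⟨U, hU, rfl⟩, ⟨a, haU, rfl⟩, Set.image_subset_iff.2 hUu⟩
    exact hB.secondCountableTopology ((hbc.image _).union (Set.countable_range _))
  let _ := TopologicalSpace.metrizableSpaceMetric (OnePoint Z)
  have : PolishSpace (OnePoint Z) := inferInstance
  have : PolishSpace (Set.range ((↑) : Z → OnePoint Z)) :=
    OnePoint.isOpenEmbedding_coe.isOpen_range.polishSpace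
  exact OnePoint.isOpenEmbedding_coe.isEmbedding.toHomeomorph.isClosedEmbedding.polishSpace

variable (p : ℕ) [Fact p.Prime]

instance instMSQp : MeasurableSpace ℚ_[p] := borel _

instance instBSQp : BorelSpace ℚ_[p] := ⟨rfl⟩

/-- `G = SL₂(ℝ) × SL₂(ℚ_p)`. -/
abbrev GG : Type := SL(2, ℝ) × SL(2, ℚ_[p])

/-- `x ∈ ℤ[1/p]`. -/
def InZp (p : ℕ) (x : ℚ) : Prop := ∃ (a : ℕ) (m : ℤ), (p : ℚ) ^ a * x = m

theorem InZp.add {p : ℕ} {x y : ℚ} (hx : InZp p x) (hy : InZp p y) : InZp p (x + y) := by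
  obtain ⟨a, m, h⟩ := hx
  obtain ⟨b, n, h'⟩ := hy
  refine ⟨a + b, p ^ b * m + p ^ a * n, ?_⟩
  push_cast
  rw [← h, ← h']; ring

theorem InZp.mul {p : ℕ} {x y : ℚ} (hx : InZp p x) (hy : InZp p y) : InZp p (x * y) := by
  obtain ⟨a, m, h⟩ := hx
  obtain ⟨b, n, h'⟩ := hy
  refine ⟨a + b, m * n, ?_⟩
  push_cast
  rw [← h, ← h']; ring

theorem InZp.neg {p : ℕ} {x : ℚ} (hx : InZp p x) : InZp p (-x) := by
  obtain ⟨a, m, h⟩ := hx
  refine ⟨a, -m, ?_⟩
  push_cast
  rw [← h]; ring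

theorem inZp_int (p : ℕ) (m : ℤ) : InZp p m := ⟨0, m, by simp⟩

/-- `SL₂(ℤ[1/p])` inside `SL₂(ℚ)`. -/
def GamQ (p : ℕ) : Subgroup SL(2, ℚ) where
  carrier := {γ | ∀ i j, InZp p (γ i j)}
  one_mem' := fun i j => by
    fin_cases i <;> fin_cases j
    · simpa using inZp_int p 1
    · simpa using inZp_int p 0
    · simpa using inZp_int p 0
    · simpa using inZp_int p 1
  mul_mem' := fun {a b} ha hb i j => by
    simp only [Matrix.SpecialLinearGroup.coe_mul, Matrix.mul_apply, Fin.sum_univ_two]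
    exact ((ha _ _).mul (hb _ _)).add ((ha _ _).mul (hb _ _))
  inv_mem' := fun {a} ha i j => by
    rw [Matrix.SpecialLinearGroup.SL2_inv_expl]
    fin_cases i <;> fin_cases j
    · simpa using ha 1 1
    · simpa using (ha 0 1).neg
    · simpa using (ha 1 0).neg
    · simpa using ha 0 0

/-- The diagonal embedding of `SL₂(ℚ)`. -/
def emb : SL(2, ℚ) →* GG p :=
  (Matrix.SpecialLinearGroup.map (Rat.castHom ℝ)).prod
    (Matrix.SpecialLinearGroup.map (Rat.castHom ℚ_[p]))

/-- The lattice `Γ`. -/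
def Gam : Subgroup (GG p) := (GamQ p).map (emb p)

/-- `SL₂(ℤ)` inside `SL₂(ℝ)`. -/
def Gam0 : Subgroup SL(2, ℝ) := (Matrix.SpecialLinearGroup.map (Int.castRingHom ℝ)).range

/-- `K = SL₂(ℤ_p)`. -/
def Kp : Subgroup SL(2, ℚ_[p]) where
  carrier := {k | ∀ i j, ‖k i j‖ ≤ 1}
  one_mem' := fun i j => by fin_cases i <;> fin_cases j <;> simp
  mul_mem' := fun {a b} ha hb i j => by
    simp only [Matrix.SpecialLinearGroup.coe_mul, Matrix.mul_apply, Fin.sum_univ_two]
    refine (Padic.nonarchimedean _ _).trans (max_le ?_ ?_) <;> rw [norm_mul] <;>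
      exact mul_le_one₀ (ha _ _) (norm_nonneg _) (hb _ _)
  inv_mem' := fun {a} ha i j => by
    rw [Matrix.SpecialLinearGroup.SL2_inv_expl]
    fin_cases i <;> fin_cases j
    · simpa using ha 1 1
    · simpa using ha 0 1
    · simpa using ha 1 0
    · simpa using ha 0 0

/-- Elements of `(1/q) ℤ[1/p]` bounded at both places form a finite set. -/
theorem finite_bounded (q : ℕ) (hq : 0 < q) (R : ℝ) :
    {x : ℚ | InZp p (q * x) ∧ |(x : ℝ)| ≤ R ∧ ‖(x : ℚ_[p])‖ ≤ R}.Finite := by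
  have hp : (1 : ℝ) < p := by exact_mod_cast (Fact.out : p.Prime).one_lt
  obtain ⟨c, hc⟩ := pow_unbounded_of_one_lt R hp
  have hq' : (q : ℚ) ≠ 0 := by positivity
  have hp' : (p : ℚ) ≠ 0 := by exact_mod_cast (Fact.out : p.Prime).ne_zero
  have hpP : (p : ℚ_[p]) ≠ 0 := by exact_mod_cast (Fact.out : p.Prime).ne_zero
  refine ((Set.finite_Icc (-⌈(p : ℝ) ^ c * q * R⌉) ⌈(p : ℝ) ^ c * q * R⌉).image
    fun m : ℤ => (m : ℚ) / (p ^ c * q)).subset ?_
  rintro x ⟨⟨a, m, hm⟩, h1, h2⟩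
  have hn : ‖(((p : ℚ) ^ c * (q * x) : ℚ) : ℚ_[p])‖ ≤ 1 := by
    push_cast
    rw [norm_mul, norm_mul, norm_pow, Padic.norm_p, inv_pow]
    have h3 : ‖(q : ℚ_[p])‖ ≤ 1 := by simpa using Padic.norm_int_le_one (p := p) (q : ℤ)
    have h4 : ‖(q : ℚ_[p])‖ * ‖(x : ℚ_[p])‖ ≤ p ^ c :=
      (mul_le_of_le_one_left (norm_nonneg _) h3).trans (h2.trans hc.le)
    rw [inv_mul_le_iff₀ (by positivity)]
    simpa using h4
  have hint : ∃ n : ℤ, (p : ℚ) ^ c * (q * x) = n := by
    rcases le_total a c with h | h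
    · obtain ⟨e, rfl⟩ := Nat.exists_eq_add_of_le h
      exact ⟨p ^ e * m, by push_cast; rw [← hm]; ring⟩
    · obtain ⟨e, rfl⟩ := Nat.exists_eq_add_of_le h
      have h5 : (p : ℚ) ^ e * ((p : ℚ) ^ c * (q * x)) = m := by rw [← hm]; ring
      have h6 : ‖((m : ℤ) : ℚ_[p])‖ ≤ (p : ℝ) ^ (-(e : ℤ)) := by
        have : ((m : ℤ) : ℚ_[p]) = (p : ℚ_[p]) ^ e * (((p : ℚ) ^ c * (q * x) : ℚ) : ℚ_[p]) := by
          have := congrArg (fun z : ℚ => (z : ℚ_[p])) h5
          simpa using this.symm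
        rw [this, norm_mul, norm_pow, Padic.norm_p, zpow_neg, zpow_natCast, inv_pow]
        exact mul_le_of_le_one_right (by positivity) hn
      obtain ⟨n, hn'⟩ := (Padic.norm_int_le_pow_iff_dvd m e).1 h6
      refine ⟨n, mul_left_cancel₀ (pow_ne_zero e hp') ?_⟩
      rw [h5, hn']; push_cast; ring
  obtain ⟨n, hn'⟩ := hint
  refine ⟨n, ?_, ?_⟩
  · have h7 : |(n : ℝ)| ≤ (p : ℝ) ^ c * q * R := by
      have : (n : ℝ) = (p : ℝ) ^ c * q * x := by
        have := congrArg (fun z : ℚ => (z : ℝ)) hn'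
        simp only [Rat.cast_mul, Rat.cast_pow, Rat.cast_natCast, Rat.cast_intCast] at this
        rw [← this]; ring
      rw [this, abs_mul, abs_of_nonneg (by positivity : (0 : ℝ) ≤ (p : ℝ) ^ c * q)]
      exact mul_le_mul_of_nonneg_left h1 (by positivity)
    have h8 : |n| ≤ ⌈(p : ℝ) ^ c * q * R⌉ := by
      have : ((|n| : ℤ) : ℝ) ≤ (⌈(p : ℝ) ^ c * q * R⌉ : ℤ) := by
        rw [Int.cast_abs]; exact h7.trans (Int.le_ceil _)
      exact_mod_cast this
    exact abs_le.1 h8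
  · change (n : ℚ) / (p ^ c * q) = x
    rw [← hn']; field_simp

theorem norm_entry_le {F : Type} [NormedField F] (f : Fin 2 → Fin 2 → F) (i j : Fin 2) :
    ‖f i j‖ ≤ ‖f‖ := (norm_le_pi_norm (f i) j).trans (norm_le_pi_norm f i)

/-- `Γ` meets every compact set in a finite set. -/
theorem Gam_finite {C : Set (GG p)} (hC : IsCompact C) : (C ∩ Gam p).Finite := by
  have hb : ∃ R : ℝ, ∀ g ∈ C, ∀ i j, |g.1 i j| ≤ R ∧ ‖g.2 i j‖ ≤ R := by
    have hc : Continuous fun g : GG p =>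
        ((fun i j => g.1 i j : Fin 2 → Fin 2 → ℝ), (fun i j => g.2 i j : Fin 2 → Fin 2 → ℚ_[p])) :=
      (continuous_pi fun i => continuous_pi fun j =>
        (continuous_apply j).comp ((continuous_apply i).comp
          (continuous_subtype_val.comp continuous_fst))).prodMk
      (continuous_pi fun i => continuous_pi fun j =>
        (continuous_apply j).comp ((continuous_apply i).comp
          (continuous_subtype_val.comp continuous_snd)))
    obtain ⟨R, hR⟩ := (hC.image hc).isBounded.exists_norm_le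
    refine ⟨R, fun g hg i j => ?_⟩
    have := hR _ ⟨g, hg, rfl⟩
    rw [Prod.norm_def, max_le_iff] at this
    exact ⟨(norm_entry_le (fun i j => g.1 i j) i j).trans this.1,
      (norm_entry_le (fun i j => g.2 i j) i j).trans this.2⟩
  obtain ⟨R, hR⟩ := hb
  have hf := finite_bounded p 1 one_pos R
  have hfin : {γ : SL(2, ℚ) | ∀ i j, γ i j ∈
      {x : ℚ | InZp p ((1 : ℕ) * x) ∧ |(x : ℝ)| ≤ R ∧ ‖(x : ℚ_[p])‖ ≤ R}}.Finite := by
    have := Set.Finite.pi' fun _ : Fin 2 => Set.Finite.pi' fun _ : Fin 2 => hf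
    refine Set.Finite.of_finite_image (f := fun γ : SL(2, ℚ) => (fun i j => γ i j)) (this.subset ?_)
      fun a _ b _ h => Subtype.ext h
    rintro _ ⟨γ, hγ, rfl⟩ i j
    exact hγ i j
  refine (hfin.image (emb p)).subset ?_
  rintro _ ⟨hg, γ, hγ, rfl⟩
  refine ⟨γ, fun i j => ⟨by simpa using hγ i j, ?_, ?_⟩, rfl⟩
  · exact (hR _ hg i j).1
  · exact (hR _ hg i j).2

theorem Gam0_finite {C : Set SL(2, ℝ)} (hC : IsCompact C) : (C ∩ Gam0).Finite := by
  have hc : Continuous fun g : SL(2, ℝ) => (fun i j => g i j : Fin 2 → Fin 2 → ℝ) :=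
    continuous_pi fun i => continuous_pi fun j =>
      (continuous_apply j).comp ((continuous_apply i).comp continuous_subtype_val)
  obtain ⟨R, hR⟩ := (hC.image hc).isBounded.exists_norm_le
  have hfin : {γ : SL(2, ℤ) | ∀ i j, γ i j ∈ Set.Icc (-⌈R⌉) ⌈R⌉}.Finite := by
    have := Set.Finite.pi' fun _ : Fin 2 => Set.Finite.pi' fun _ : Fin 2 =>
      Set.finite_Icc (-⌈R⌉) ⌈R⌉
    refine Set.Finite.of_finite_image (f := fun γ : SL(2, ℤ) => (fun i j => γ i j)) (this.subset ?_)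
      fun a _ b _ h => Subtype.ext h
    rintro _ ⟨γ, hγ, rfl⟩ i j
    exact hγ i j
  refine (hfin.image (Matrix.SpecialLinearGroup.map (Int.castRingHom ℝ))).subset ?_
  rintro _ ⟨hg, γ, rfl⟩
  refine ⟨γ, fun i j => abs_le.1 ?_, rfl⟩
  have h1 := (norm_entry_le _ i j).trans (hR _ ⟨_, hg, rfl⟩)
  have h2 : ((|γ i j| : ℤ) : ℝ) ≤ (⌈R⌉ : ℤ) := by
    rw [Int.cast_abs]; exact le_trans h1 (Int.le_ceil _)
  exact_mod_cast h2

/-- A subgroup that meets compact sets in finite sets is closed. -/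
theorem isClosed_of_finite {H : Type} [Group H] [TopologicalSpace H] [T2Space H]
    [LocallyCompactSpace H] {Γ : Subgroup H}
    (h : ∀ C : Set H, IsCompact C → (C ∩ Γ).Finite) : IsClosed (Γ : Set H) := by
  refine isClosed_of_closure_subset fun x hx => ?_
  obtain ⟨C, hC, hxC⟩ := exists_compact_mem_nhds x
  have h2 : x ∈ closure (C ∩ Γ) := by
    rw [mem_closure_iff_nhds] at hx ⊢
    intro t ht
    obtain ⟨y, hy⟩ := hx (t ∩ C) (inter_mem ht hxC)
    exact ⟨y, hy.1.1, hy.1.2, hy.2⟩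
  rw [(h C hC).isClosed.closure_eq] at h2
  exact h2.2

instance Gam_closed : IsClosed (Gam p : Set (GG p)) := isClosed_of_finite fun _ => Gam_finite p

instance Gam0_closed : IsClosed (Gam0 : Set SL(2, ℝ)) := isClosed_of_finite fun _ => Gam0_finite

/-- `X = G / Γ`. -/
abbrev XX : Type := GG p ⧸ Gam p

/-- `Y₀ = SL₂(ℝ) / SL₂(ℤ)`. -/
abbrev YY : Type := SL(2, ℝ) ⧸ Gam0

instance instPolishXX : PolishSpace (XX p) := polish_of_lc _

instance instPolishYY : PolishSpace YY := polish_of_lc _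

instance instBSXX : BorelSpace (XX p) := inferInstance

instance instBSYY : BorelSpace YY := inferInstance

/-- The image of an integral matrix in `SL₂(ℝ)`. -/
def toR : SL(2, ℤ) →* SL(2, ℝ) := Matrix.SpecialLinearGroup.map (Int.castRingHom ℝ)

/-- The image of an integral matrix in `SL₂(ℚ_p)`. -/
def toP : SL(2, ℤ) →* SL(2, ℚ_[p]) := Matrix.SpecialLinearGroup.map (Int.castRingHom ℚ_[p])

/-- The `p`-adic unipotent `u(s)` as an element of `G`. -/
def uP (s : ℚ_[p]) : GG p := (1, uu s)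

/-- The `p`-adic diagonal element `diag(p^j, p^{-j})` as an element of `G`. -/
def aP (j : ℕ) : GG p :=
  (1, dg ((p : ℚ_[p]) ^ j) (pow_ne_zero _ (Nat.cast_ne_zero.2 (Fact.out : p.Prime).ne_zero)))

theorem uP_add (s t : ℚ_[p]) : uP p (s + t) = uP p s * uP p t := by simp [uP, uu_add]

@[simp] theorem uP_zero : uP p 0 = 1 := by simp [uP]

theorem continuous_uP : Continuous (uP p) := continuous_const.prodMk continuous_uu

/-- The unipotent flow on `X`. -/
def ufl1 : Flow ℚ_[p] (XX p) where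
  toFun s x := uP p s • x
  cont' := ((continuous_uP p).comp continuous_fst).smul continuous_snd
  map_add' s t x := by rw [uP_add, mul_smul]
  map_zero' x := by simp

/-- The unipotent flow on `X × X` with speeds `d₁, d₂`. -/
def ufl2 (d₁ d₂ : ℚ_[p]) : Flow ℚ_[p] (XX p × XX p) where
  toFun s w := (uP p (d₁ * s) • w.1, uP p (d₂ * s) • w.2)
  cont' := (((continuous_uP p).comp (continuous_const.mul continuous_fst)).smul
      continuous_snd.fst).prodMk
    (((continuous_uP p).comp (continuous_const.mul continuous_fst)).smul continuous_snd.snd)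
  map_add' s t x := by simp only [mul_add, uP_add, mul_smul]
  map_zero' x := by simp

/-- The unipotent flow on `X^κ` with speeds `d`. -/
def ufl {κ : Type} (d : κ → ℚ_[p]) : Flow ℚ_[p] (κ → XX p) where
  toFun s w := fun k => uP p (d k * s) • w k
  cont' := continuous_pi fun k =>
    ((continuous_uP p).comp (continuous_const.mul continuous_fst)).smul
      ((continuous_apply k).comp continuous_snd)
  map_add' s t x := by simp only [mul_add, uP_add, mul_smul]
  map_zero' x := by simp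

theorem ufl1_apply (s : ℚ_[p]) (x : XX p) : ufl1 p s x = uP p s • x := rfl

theorem ufl2_apply (d₁ d₂ s : ℚ_[p]) (w : XX p × XX p) :
    ufl2 p d₁ d₂ s w = (uP p (d₁ * s) • w.1, uP p (d₂ * s) • w.2) := rfl

theorem ufl_apply {κ : Type} (d : κ → ℚ_[p]) (s : ℚ_[p]) (w : κ → XX p) :
    ufl p d s w = fun k => uP p (d k * s) • w k := rfl

/-- The stabiliser of a measure. -/
def Stab (H : Type) {W : Type} [Group H] [MulAction H W] [MeasurableSpace W]
    [MeasurableConstSMul H W] (ρ : Measure W) : Subgroup H where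
  carrier := {g | ρ.map (fun w => g • w) = ρ}
  one_mem' := by simp
  mul_mem' := fun {a b} ha hb => by
    have ha' : ρ.map (fun w => a • w) = ρ := ha
    have hb' : ρ.map (fun w => b • w) = ρ := hb
    change ρ.map (fun w => (a * b) • w) = ρ
    have : (fun w : W => (a * b) • w) = (fun w => a • w) ∘ (fun w => b • w) := by
      ext w; simp [mul_smul]
    rw [this, ← Measure.map_map (measurable_const_smul a) (measurable_const_smul b), hb', ha']
  inv_mem' := fun {a} ha => by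
    have ha' : ρ.map (fun w => a • w) = ρ := ha
    change ρ.map (fun w => a⁻¹ • w) = ρ
    conv_lhs => rw [← ha']
    rw [Measure.map_map (measurable_const_smul a⁻¹) (measurable_const_smul a)]
    have : ((fun w : W => a⁻¹ • w) ∘ fun w => a • w) = id := by ext w; simp
    rw [this, Measure.map_id]

theorem mem_Stab {H W : Type} [Group H] [MulAction H W] [MeasurableSpace W]
    [MeasurableConstSMul H W] {ρ : Measure W} {g : H} :
    g ∈ Stab H ρ ↔ ρ.map (fun w => g • w) = ρ := Iff.rfl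

/-- All entries have norm at most `R`. -/
def Bd {F : Type} [NormedField F] (R : ℝ) (P : Matrix (Fin 2) (Fin 2) F) : Prop :=
  ∀ i j, ‖P i j‖ ≤ R

/-- `θ` is conjugation by an invertible real matrix. -/
def IsConjHom (θ : SL(2, ℝ) →* SL(2, ℝ)) : Prop :=
  ∃ η : Matrix (Fin 2) (Fin 2) ℝ, η.det ≠ 0 ∧
    ∀ h : SL(2, ℝ), (θ h : Matrix (Fin 2) (Fin 2) ℝ) * η = η * (h : Matrix (Fin 2) (Fin 2) ℝ)


end Pool.Agent.P.MP_20768c_nt.Az.EQ

end

end

-- part ad7a55_nt.VDef
section

/-! Modular curves of congruence level: functions, orbits, measure. -/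

set_option autoImplicit false

noncomputable section

open UpperHalfPlane MeasureTheory
open scoped MatrixGroups ENNReal

namespace Pool.Agent.P.MP_20768c_nt.Az.EQ

/-- `f` is a modular function for `Γ`, holomorphic on the upper half plane, whose expansions in
`exp (2 π i τ / N)` at all cusps have coefficients in `L`. -/
def IsMF (Γ : Subgroup SL(2, ℤ)) (N : ℕ) (L : IntermediateField ℚ ℂ) (f : ℍ → ℂ) : Prop :=
  (∀ γ ∈ Γ, ∀ τ : ℍ, f (γ • τ) = f τ) ∧ ∃ m : ℕ, ∀ γ : SL(2, ℤ), ∃ c : ℕ → ℂ, (∀ n, c n ∈ L) ∧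
    ∀ τ : ℍ, HasSum (fun n => c n * Complex.exp (2 * Real.pi * Complex.I * τ / N) ^ n)
      (ModularForm.discriminant τ ^ m * f (γ • τ))

/-- The modular curve of level `Γ`. -/
abbrev YG (Γ : Subgroup SL(2, ℤ)) : Type := Quotient (MulAction.orbitRel Γ ℍ)

/-- The Galois orbit over `F` of the point with coordinates `τ k`, for the model whose
coordinate functions on the `k`-th curve are the members of `B k`. -/
def orbG {n : ℕ} (F : IntermediateField ℚ ℂ) (Γ : Fin n → Subgroup SL(2, ℤ))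
    (B : Fin n → Set (ℍ → ℂ)) (τ : Fin n → ℍ) : Set (∀ k, YG (Γ k)) :=
  {y | ∃ (σ : ℂ ≃+* ℂ) (w : Fin n → ℍ), (∀ a ∈ F, σ a = a) ∧ (∀ k, y k = Quotient.mk _ (w k)) ∧
    ∀ k, ∀ f ∈ B k, f (w k) = σ (f (τ k))}

/-- Normalised hyperbolic area on the union of the translates of the standard fundamental domain
by coset representatives of `Γ`. -/
def mH (Γ : Subgroup SL(2, ℤ)) : Measure ℍ :=
  (Γ.index : ℝ≥0∞)⁻¹ • Measure.sum fun c : SL(2, ℤ) ⧸ Γ =>
    (ProbabilityTheory.cond (volume : Measure ℍ) ModularGroup.fd).map fun τ => c.out⁻¹ • τ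

end Pool.Agent.P.MP_20768c_nt.Az.EQ

end

end

-- part 68214b_ag.DP3a
section

/-! Dirichlet density of the primes of degree one. -/

open Filter Topology NumberField

namespace Pool.Agent.P.MP_20768c_nt.AzH.DP

open Pool.Agent.P.MP_20768c_nt.AzH.Ch

/-- a bounded sequence with Dirichlet density -/
def Dens (c : ℕ → ℝ) (δ : ℝ) : Prop :=
  (∃ M, ∀ n, |c n| ≤ M) ∧ ∃ C, ∀ᶠ s in 𝓝[>] (1 : ℝ),
    |∑' n : ℕ, c n * (n : ℝ) ^ (-s) + δ * Real.log (s - 1)| ≤ C

theorem dp3a_geo {x : ℝ} (h0 : 0 ≤ x) (h1 : x ≤ 1 / 2) (K : ℕ) :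
    ∑ j ∈ Finset.range K, x ^ j ≤ 1 + x + 2 * x ^ 2 := by
  induction K with
  | zero => rw [Finset.sum_range_zero]; positivity
  | succ K ih =>
    rw [Finset.sum_range_succ']
    simp only [pow_succ _ _, ← Finset.sum_mul, pow_zero] at ih ⊢
    nlinarith [mul_le_mul_of_nonneg_right ih h0, mul_nonneg (mul_nonneg h0 h0) (sub_nonneg.2 h1)]

/-- the finite Euler product bound -/
theorem dp3a_euler {ι α : Type} (A : Finset ι) (m : ι → Multiset α) (hm : Set.InjOn m A)
    (T : Finset α) (hT : ∀ i ∈ A, ∀ P ∈ m i, P ∈ T) (x : α → ℝ)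
    (hx : ∀ P ∈ T, 0 ≤ x P ∧ x P ≤ 1 / 2) :
    ∑ i ∈ A, ((m i).map x).prod ≤ Real.exp (∑ P ∈ T, (x P + 2 * x P ^ 2)) := by
  classical
  obtain ⟨K, hK⟩ : ∃ K, ∀ i ∈ A, (m i).card < K :=
    ⟨A.sup (fun i => (m i).card) + 1, fun i hi =>
      Nat.lt_succ_of_le (Finset.le_sup (f := fun i => (m i).card) hi)⟩
  have inj : Set.InjOn (fun i (P : T) => (m i).count P.1) A := by
    intro i hi j hj e
    refine hm hi hj (Multiset.ext.2 fun P => ?_)
    by_cases hP : P ∈ T
    · exact congrFun e ⟨P, hP⟩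
    · rw [Multiset.count_eq_zero.2 fun h => hP (hT i hi P h),
        Multiset.count_eq_zero.2 fun h => hP (hT j hj P h)]
  calc ∑ i ∈ A, ((m i).map x).prod
      = ∑ i ∈ A, ∏ P : T, x P.1 ^ (m i).count P.1 := by
        refine Finset.sum_congr rfl fun i hi => ?_
        rw [Finset.prod_multiset_map_count, Finset.prod_coe_sort T fun P => x P ^ (m i).count P]
        refine Finset.prod_subset (fun P hP => hT i hi P (Multiset.mem_toFinset.1 hP))
          fun P _ hP => ?_
        rw [Multiset.count_eq_zero.2 fun h => hP (Multiset.mem_toFinset.2 h), pow_zero]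
    _ = ∑ e ∈ A.image (fun i (P : T) => (m i).count P.1), ∏ P : T, x P.1 ^ e P :=
        (Finset.sum_image (f := fun e : T → ℕ => ∏ P : T, x P.1 ^ e P) inj).symm
    _ ≤ ∑ e ∈ Fintype.piFinset (fun _ : T => Finset.range K), ∏ P : T, x P.1 ^ e P := by
        refine Finset.sum_le_sum_of_subset_of_nonneg (fun e he => ?_) fun e _ _ =>
          Finset.prod_nonneg fun P _ => pow_nonneg (hx _ P.2).1 _
        obtain ⟨i, hi, rfl⟩ := Finset.mem_image.1 he
        exact Fintype.mem_piFinset.2 fun P =>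
          Finset.mem_range.2 ((Multiset.count_le_card _ _).trans_lt (hK i hi))
    _ = ∏ P : T, ∑ j ∈ Finset.range K, x P.1 ^ j :=
        (Finset.prod_univ_sum (fun _ : T => Finset.range K) fun P j => x P.1 ^ j).symm
    _ ≤ ∏ P : T, Real.exp (x P.1 + 2 * x P.1 ^ 2) := by
        refine Finset.prod_le_prod (fun P _ => Finset.sum_nonneg fun j _ =>
          pow_nonneg (hx _ P.2).1 _) fun P _ => (dp3a_geo (hx _ P.2).1 (hx _ P.2).2 K).trans ?_
        have := Real.add_one_le_exp (x P.1 + 2 * x P.1 ^ 2)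
        linarith
    _ = _ := by
        rw [Real.exp_sum, Finset.prod_coe_sort T fun P => Real.exp (x P + 2 * x P ^ 2)]

theorem dp3a_fib {α : Type} (T : Finset α) (φ : α → ℕ) (w b : ℕ → ℝ) (hw : ∀ n, 0 ≤ w n)
    (hb0 : ∀ n, 0 ≤ b n) (hb : ∀ P ∈ T, ((T.filter fun Q => φ Q = φ P).card : ℝ) ≤ b (φ P))
    (hs : Summable fun n => b n * w n) : ∑ P ∈ T, w (φ P) ≤ ∑' n, b n * w n := by
  rw [Finset.sum_comp w φ]
  refine le_trans (Finset.sum_le_sum fun n hn => ?_)
    (hs.sum_le_tsum (T.image φ) fun n _ => mul_nonneg (hb0 n) (hw n))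
  obtain ⟨P, hP, rfl⟩ := Finset.mem_image.1 hn
  rw [nsmul_eq_mul]
  exact mul_le_mul_of_nonneg_right (hb P hP) (hw _)

variable (F : Type) [Field F] [NumberField F]

theorem dp3a_card {p : ℕ} (hp : p.Prime) (T : Finset (Ideal (𝓞 F)))
    (h : ∀ P ∈ T, Prime P ∧ (p : 𝓞 F) ∈ P) : T.card ≤ Module.finrank ℤ (𝓞 F) := by
  have d : ∀ I : Ideal (𝓞 F), I ∣ Ideal.span {(p : 𝓞 F)} →
      I.absNorm ∣ p ^ Module.finrank ℤ (𝓞 F) := fun I hI => by
    rw [← Ideal.absNorm_span_natCast]; exact map_dvd Ideal.absNorm hI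
  have h0 : ∀ P ∈ T, P ∣ Ideal.span {(p : 𝓞 F)} := fun P hP =>
    Ideal.dvd_span_singleton.2 (h P hP).2
  have h1 := d _ (Finset.prod_primes_dvd _ (fun P hP => (h P hP).1) h0)
  rw [map_prod] at h1
  refine (pow_le_pow_iff_right₀ hp.one_lt).1 ((Finset.pow_card_le_prod T _ p fun P hP => ?_).trans
    (Nat.le_of_dvd (pow_pos hp.pos _) h1))
  obtain ⟨k, -, hk⟩ := (Nat.dvd_prime_pow hp).1 (d P (h0 P hP))
  have : k ≠ 0 := by
    rintro rfl
    exact (Ideal.isPrime_of_prime (h P hP).1).ne_top (Ideal.absNorm_eq_one_iff.1 hk)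
  rw [hk]
  exact Nat.le_self_pow this p

theorem dp3a_nI (n : ℕ) : nI F n = (Ideal.finite_setOfPred_absNorm_eq (S := 𝓞 F) n).toFinset.card :=
  Nat.subtype_card _ fun I => by simp

theorem dp3a_le {p : ℕ} (hp : p.Prime) : nI F p ≤ Module.finrank ℤ (𝓞 F) := by
  rw [dp3a_nI]
  refine dp3a_card F hp _ fun P hP => ?_
  have e : P.absNorm = p := by simpa using hP
  refine ⟨Ideal.prime_of_isPrime ?_ (Ideal.isPrime_of_irreducible_absNorm (e ▸ hp)),
    e ▸ Ideal.absNorm_mem P⟩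
  rintro rfl
  exact hp.ne_zero (by simpa using e.symm)

theorem dp3a_pow {t s : ℝ} (ht : 1 ≤ t) (hs : 1 ≤ s) : t ^ (-s) ≤ 1 / t := by
  rw [one_div, ← Real.rpow_neg_one]
  exact Real.rpow_le_rpow_of_exponent_le ht (by linarith)

theorem dp3a_upper {s : ℝ} (hs : 1 < s)
    (hY : Summable fun n : ℕ => (if n.Prime then (nI F n : ℝ) else 0) * (n : ℝ) ^ (-s)) :
    ∑' n : ℕ, (nI F n : ℝ) * (n : ℝ) ^ (-s) ≤
      Real.exp (∑' n : ℕ, (if n.Prime then (nI F n : ℝ) else 0) * (n : ℝ) ^ (-s) +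
        3 * ∑' n : ℕ, (Module.finrank ℤ (𝓞 F) : ℝ) * (1 / (n : ℝ) ^ 2)) := by
  classical
  refine Real.tsum_le_of_sum_range_le (fun n => by positivity) fun N => ?_
  obtain ⟨A, hA⟩ : ∃ A : Finset (Ideal (𝓞 F)), ∀ I, I ∈ A ↔ I ≠ ⊥ ∧ I.absNorm ≤ N :=
    ⟨(Ideal.finite_setOfPred_absNorm_le (S := 𝓞 F) N).toFinset.erase ⊥, fun I => by simp⟩
  have h1 : ∑ n ∈ Finset.range N, (nI F n : ℝ) * (n : ℝ) ^ (-s) ≤
      ∑ I ∈ A, (I.absNorm : ℝ) ^ (-s) := by
    rw [← Finset.sum_fiberwise_of_maps_to (g := fun I : Ideal (𝓞 F) => I.absNorm)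
      (t := Finset.range (N + 1)) fun I hI => Finset.mem_range.2 (Nat.lt_succ_of_le ((hA I).1 hI).2),
      Finset.sum_range_succ]
    refine le_add_of_le_of_nonneg (Finset.sum_le_sum fun n hn => ?_)
      (Finset.sum_nonneg fun _ _ => by positivity)
    rcases eq_or_ne n 0 with rfl | h0
    · rw [Nat.cast_zero, Real.zero_rpow (by linarith), mul_zero]
      exact Finset.sum_nonneg fun _ _ => by positivity
    · rw [Finset.sum_congr rfl fun I hI => by rw [(Finset.mem_filter.1 hI).2], Finset.sum_const,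
        nsmul_eq_mul, dp3a_nI]
      refine mul_le_mul_of_nonneg_right (Nat.cast_le.2 (Finset.card_le_card fun I hI => ?_))
        (by positivity)
      have e : I.absNorm = n := by simpa using hI
      refine Finset.mem_filter.2 ⟨(hA I).2 ⟨?_, e ▸ (Finset.mem_range.1 hn).le⟩, e⟩
      rintro rfl
      exact h0 (by simpa using e.symm)
  obtain ⟨T, hT, hP⟩ : ∃ T : Finset (Ideal (𝓞 F)),
      (∀ I ∈ A, ∀ P ∈ UniqueFactorizationMonoid.normalizedFactors I, P ∈ T) ∧ ∀ P ∈ T, Prime P :=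
    ⟨A.biUnion fun I => (UniqueFactorizationMonoid.normalizedFactors I).toFinset,
      fun I hI P h => Finset.mem_biUnion.2 ⟨I, hI, Multiset.mem_toFinset.2 h⟩, fun P h => by
        obtain ⟨I, -, h⟩ := Finset.mem_biUnion.1 h
        exact UniqueFactorizationMonoid.prime_of_normalized_factor _ (Multiset.mem_toFinset.1 h)⟩
  have hq : ∀ P ∈ T, ∃ p n : ℕ, 0 < n ∧ (p : 𝓞 F) ∈ P ∧ p.Prime ∧ P.absNorm = p ^ n ∧
      P.absNorm.minFac = p := fun P h => by
    have := (Ideal.isPrime_of_prime (hP P h)).isMaximal (hP P h).ne_zero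
    obtain ⟨p, n, h1, h2, h3, h4⟩ := Ideal.exists_prime_and_absNorm_eq_pow P
    exact ⟨p, n, h1, h2, h3, h4, by rw [h4, h3.pow_minFac h1.ne']⟩
  have hx : ∀ P ∈ T, (P.absNorm : ℝ) ^ (-s) ≤ 1 / P.absNorm.minFac ∧ (2 : ℝ) ≤ P.absNorm.minFac ∧
      (¬ P.absNorm.Prime → (P.absNorm : ℝ) ^ (-s) ≤ 1 / (P.absNorm.minFac : ℝ) ^ 2) := by
    intro P h
    obtain ⟨p, n, h1, -, h3, h4, h5⟩ := hq P h
    have a1 : (2 : ℝ) ≤ p := by exact_mod_cast h3.two_le
    have a2 : ∀ k, k ≤ n → (P.absNorm : ℝ) ^ (-s) ≤ 1 / (p : ℝ) ^ k := fun k hk => by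
      rw [h4, Nat.cast_pow]
      refine (dp3a_pow (one_le_pow₀ (by linarith)) hs.le).trans ?_
      exact one_div_le_one_div_of_le (by positivity) (pow_le_pow_right₀ (by linarith) hk)
    rw [h5]
    refine ⟨by simpa using a2 1 h1, a1, fun hn => a2 2 ?_⟩
    by_contra hc
    obtain rfl : n = 1 := by omega
    exact hn (by rw [h4, pow_one]; exact h3)
  have h2 := dp3a_euler A UniqueFactorizationMonoid.normalizedFactors (fun I hI J hJ e => by
      rw [← Ideal.prod_normalizedFactors_eq_self ((hA I).1 hI).1, e,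
        Ideal.prod_normalizedFactors_eq_self ((hA J).1 hJ).1]) T hT
    (fun P => (P.absNorm : ℝ) ^ (-s)) fun P h => ⟨by positivity, (hx P h).1.trans
      (one_div_le_one_div_of_le two_pos (hx P h).2.1)⟩
  have h3 : ∑ I ∈ A, (I.absNorm : ℝ) ^ (-s) = ∑ I ∈ A,
      ((UniqueFactorizationMonoid.normalizedFactors I).map
        fun P => (P.absNorm : ℝ) ^ (-s)).prod := by
    refine Finset.sum_congr rfl fun I hI => ?_
    conv_lhs => rw [← Ideal.prod_normalizedFactors_eq_self ((hA I).1 hI).1]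
    induction UniqueFactorizationMonoid.normalizedFactors I using Multiset.induction_on with
    | empty => simp
    | cons P M ih =>
      rw [Multiset.prod_cons, Multiset.map_cons, Multiset.prod_cons, map_mul, Nat.cast_mul,
        Real.mul_rpow (Nat.cast_nonneg _) (Nat.cast_nonneg _), ih]
  have h4 := dp3a_fib (T.filter fun P => P.absNorm.Prime) (fun P => P.absNorm)
    (fun n => (n : ℝ) ^ (-s)) (fun n => if n.Prime then (nI F n : ℝ) else 0)
    (fun n => by positivity) (fun n => by positivity) (fun P h => by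
      rw [if_pos (Finset.mem_filter.1 h).2, dp3a_nI]
      exact Nat.cast_le.2 (Finset.card_le_card fun Q hQ => by
        simpa using (Finset.mem_filter.1 hQ).2)) hY
  have h5 := dp3a_fib T (fun P => P.absNorm.minFac) (fun n => 1 / (n : ℝ) ^ 2)
    (fun _ => (Module.finrank ℤ (𝓞 F) : ℝ)) (fun n => by positivity) (fun n => by positivity)
    (fun P h => by
      obtain ⟨p, n, -, -, h3, -, h5⟩ := hq P h
      refine Nat.cast_le.2 (dp3a_card F h3 _ fun Q hQ => ?_)
      obtain ⟨hQ, e⟩ := Finset.mem_filter.1 hQ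
      obtain ⟨q, k, -, g2, -, -, g5⟩ := hq Q hQ
      exact ⟨hP Q hQ, by rw [← h5, ← e, g5]; exact g2⟩)
    ((Real.summable_one_div_nat_pow.2 one_lt_two).mul_left _)
  refine h1.trans (h3.trans_le (h2.trans (Real.exp_le_exp.2 (le_trans ?_
    (add_le_add h4 (mul_le_mul_of_nonneg_left h5 zero_le_three))))))
  rw [Finset.sum_filter, Finset.mul_sum, ← Finset.sum_add_distrib]
  refine Finset.sum_le_sum fun P h => ?_
  obtain ⟨a1, a2, a3⟩ := hx P h
  have a4 : ((P.absNorm : ℝ) ^ (-s)) ^ 2 ≤ 1 / (P.absNorm.minFac : ℝ) ^ 2 := by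
    rw [← one_div_pow]; gcongr
  have a5 : 0 ≤ 1 / (P.absNorm.minFac : ℝ) ^ 2 := by positivity
  split_ifs with hp
  · linarith
  · linarith [a3 hp]

theorem dp3a_lower {s : ℝ} (hs : 1 < s)
    (hZ : Summable fun n : ℕ => (nI F n : ℝ) * (n : ℝ) ^ (-s))
    (h0 : 0 < ∑' n : ℕ, (nI F n : ℝ) * (n : ℝ) ^ (-s)) :
    ∑' n : ℕ, (if n.Prime then (nI F n : ℝ) else 0) * (n : ℝ) ^ (-s) ≤
      Real.log (∑' n : ℕ, (nI F n : ℝ) * (n : ℝ) ^ (-s)) +
        ∑' n : ℕ, (Module.finrank ℤ (𝓞 F) : ℝ) ^ 2 * (1 / (n : ℝ) ^ 2) := by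
  refine Real.tsum_le_of_sum_range_le (fun n => by positivity) fun N => ?_
  simp only [ite_mul, zero_mul]
  rw [← Finset.sum_filter]
  obtain ⟨R, hR'⟩ : ∃ R, R = (Finset.range N).filter Nat.Prime := ⟨_, rfl⟩
  have hR : ∀ r ∈ R, r.Prime := fun r hr => (Finset.mem_filter.1 (hR' ▸ hr)).2
  rw [← hR']
  have h1 : ∏ r ∈ R, (1 + (nI F r : ℝ) * (r : ℝ) ^ (-s)) ≤
      ∑' n : ℕ, (nI F n : ℝ) * (n : ℝ) ^ (-s) := by
    rw [Finset.prod_one_add]
    have hinj : Set.InjOn (fun T : Finset ℕ => ∏ r ∈ T, r) R.powerset := by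
      intro T hT T' hT' h
      have a1 := Nat.primeFactors_prod (s := T) fun p hp => hR p (Finset.mem_powerset.1 hT hp)
      have a2 := Nat.primeFactors_prod (s := T') fun p hp => hR p (Finset.mem_powerset.1 hT' hp)
      rw [← a1, ← a2]
      exact congrArg Nat.primeFactors h
    refine le_trans (Finset.sum_le_sum fun T hT => ?_) ((Finset.sum_image
      (f := fun n : ℕ => (nI F n : ℝ) * (n : ℝ) ^ (-s)) hinj).symm.trans_le
        (hZ.sum_le_tsum _ fun n _ => by positivity))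
    rw [Finset.prod_mul_distrib, Nat.cast_prod,
      Real.finsetProd_rpow _ _ (fun r _ => Nat.cast_nonneg r)]
    apply mul_le_mul_of_nonneg_right _ (by positivity)
    exact_mod_cast UpChebD_prod F T fun p hp => hR p (Finset.mem_powerset.1 hT hp)
  have h2 : Real.exp (∑ r ∈ R, ((nI F r : ℝ) * (r : ℝ) ^ (-s) -
      ((nI F r : ℝ) * (r : ℝ) ^ (-s)) ^ 2)) ≤ ∏ r ∈ R, (1 + (nI F r : ℝ) * (r : ℝ) ^ (-s)) := by
    rw [Real.exp_sum]
    exact Finset.prod_le_prod (fun _ _ => (Real.exp_pos _).le) fun r _ =>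
      UpChebD_exp (by positivity)
  have h3 := (Real.le_log_iff_exp_le h0).2 (h2.trans h1)
  have h4 : ∑ r ∈ R, ((nI F r : ℝ) * (r : ℝ) ^ (-s)) ^ 2 ≤
      ∑' n : ℕ, (Module.finrank ℤ (𝓞 F) : ℝ) ^ 2 * (1 / (n : ℝ) ^ 2) := by
    refine le_trans (Finset.sum_le_sum fun r hr => ?_)
      (((Real.summable_one_div_nat_pow.2 one_lt_two).mul_left _).sum_le_tsum R
        fun n _ => by positivity)
    have a1 : (nI F r : ℝ) ≤ Module.finrank ℤ (𝓞 F) := Nat.cast_le.2 (dp3a_le F (hR r hr))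
    have a2 := dp3a_pow (t := r) (by exact_mod_cast (hR r hr).one_le) hs.le
    rw [mul_pow, ← one_div_pow]
    gcongr
  rw [Finset.sum_sub_distrib] at h3
  linarith

theorem dp3a_zeta : ∀ᶠ s in 𝓝[>] (1 : ℝ),
    (s - 1) * ∑' n : ℕ, (nI F n : ℝ) * (n : ℝ) ^ (-s) ∈
      Set.Ioo (dedekindZeta_residue F / 2) (dedekindZeta_residue F + 1) := by
  have h1 := (Complex.continuous_re.tendsto _).comp (tendsto_sub_one_mul_dedekindZeta_nhdsGT F)
  have hp := dedekindZeta_residue_pos F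
  filter_upwards [h1.eventually (Ioo_mem_nhds (a := dedekindZeta_residue F / 2)
    (b := dedekindZeta_residue F + 1) (by simpa using hp) (by simp)), self_mem_nhdsWithin]
    with x hj hx
  have hx1 : (1 : ℝ) < x := hx
  have hz : dedekindZeta F x = ((∑' n : ℕ, (nI F n : ℝ) * (n : ℝ) ^ (-x) : ℝ) : ℂ) := by
    rw [dedekindZeta, LSeries, Complex.ofReal_tsum]
    refine tsum_congr fun n => ?_
    by_cases hn : n = 0
    · subst hn
      rw [Nat.cast_zero, Real.zero_rpow (by linarith)]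
      simp
    · rw [LSeries.term_of_ne_zero hn, nI, Real.rpow_neg (Nat.cast_nonneg n)]
      push_cast
      rw [Complex.ofReal_cpow (Nat.cast_nonneg n), div_eq_mul_inv]
      simp
  have hj2 : (((x : ℂ) - 1) * dedekindZeta F x).re ∈
    Set.Ioo (dedekindZeta_residue F / 2) (dedekindZeta_residue F + 1) := hj
  rwa [hz, ← Complex.ofReal_one, ← Complex.ofReal_sub, ← Complex.ofReal_mul,
    Complex.ofReal_re] at hj2

theorem dens_nI (F : Type) [Field F] [NumberField F] :
    Dens (fun n => if n.Prime then (nI F n : ℝ) else 0) 1 := by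
  refine ⟨⟨Module.finrank ℤ (𝓞 F), fun n => ?_⟩,
    |Real.log (dedekindZeta_residue F / 2)| + |Real.log (dedekindZeta_residue F + 1)| +
    3 * ∑' n : ℕ, (Module.finrank ℤ (𝓞 F) : ℝ) * (1 / (n : ℝ) ^ 2) +
    ∑' n : ℕ, (Module.finrank ℤ (𝓞 F) : ℝ) ^ 2 * (1 / (n : ℝ) ^ 2), ?_⟩
  · dsimp only
    split_ifs with h
    · rw [Nat.abs_cast]; exact Nat.cast_le.2 (dp3a_le F h)
    · simp
  filter_upwards [dp3a_zeta F, self_mem_nhdsWithin] with s hz hs
  have hs1 : (1 : ℝ) < s := hs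
  have hp := half_pos (dedekindZeta_residue_pos F)
  have h0 : 0 < ∑' n : ℕ, (nI F n : ℝ) * (n : ℝ) ^ (-s) :=
    pos_of_mul_pos_left (hp.trans hz.1 |>.trans_eq (mul_comm _ _)) (by linarith) |> fun h => h
  have hZ : Summable fun n : ℕ => (nI F n : ℝ) * (n : ℝ) ^ (-s) := by
    by_contra hn
    exact h0.ne' (tsum_eq_zero_of_not_summable hn)
  have hY : Summable fun n : ℕ => (if n.Prime then (nI F n : ℝ) else 0) * (n : ℝ) ^ (-s) := by
    refine Summable.of_nonneg_of_le (fun n => by positivity) (fun n => ?_) hZ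
    split_ifs
    · exact le_rfl
    · rw [zero_mul]; positivity
  have h1 := (Real.log_le_iff_le_exp h0).2 (dp3a_upper F hs1 hY)
  have h2 := dp3a_lower F hs1 hZ h0
  have h3 := Real.log_le_log hp hz.1.le
  have h4 := Real.log_le_log (hp.trans hz.1) hz.2.le
  rw [Real.log_mul (by linarith) h0.ne'] at h3 h4
  have h5 : 0 ≤ ∑' n : ℕ, (Module.finrank ℤ (𝓞 F) : ℝ) * (1 / (n : ℝ) ^ 2) :=
    tsum_nonneg fun n => by positivity
  have h6 : 0 ≤ ∑' n : ℕ, (Module.finrank ℤ (𝓞 F) : ℝ) ^ 2 * (1 / (n : ℝ) ^ 2) :=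
    tsum_nonneg fun n => by positivity
  rw [abs_le]
  constructor
  · linarith [neg_abs_le (Real.log (dedekindZeta_residue F / 2)),
      abs_nonneg (Real.log (dedekindZeta_residue F + 1))]
  · linarith [le_abs_self (Real.log (dedekindZeta_residue F + 1)),
      abs_nonneg (Real.log (dedekindZeta_residue F / 2))]

end Pool.Agent.P.MP_20768c_nt.AzH.DP

end

-- part ad7a55_nt.JBas
section

/-! Basic properties of j. -/

set_option autoImplicit false

noncomputable section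

open MeasureTheory Topology Filter UpperHalfPlane
open scoped MatrixGroups ENNReal BoundedContinuousFunction ModularForm Manifold

namespace Pool.Agent.P.MP_20768c_nt.Az.EQ

theorem jbas_smul {k : ℤ} {F : Type} [FunLike F ℍ ℂ] [SlashInvariantFormClass F 𝒮ℒ k] (f : F)
    (γ : SL(2, ℤ)) (τ : ℍ) : f (γ • τ) = ((γ 1 0 : ℂ) * τ + γ 1 1) ^ k * f τ := by
  have hγ : (γ : GL (Fin 2) ℝ) ∈ 𝒮ℒ := ⟨γ, rfl⟩
  have := SlashInvariantForm.slash_action_eqn' f hγ τ
  simpa using this

theorem jbas_den (γ : SL(2, ℤ)) (τ : ℍ) : ((γ 1 0 : ℂ) * τ + γ 1 1) ≠ 0 := by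
  have := denom_ne_zero (γ : GL (Fin 2) ℝ) τ
  simpa [denom] using this

theorem jbas_disc (γ : SL(2, ℤ)) (τ : ℍ) :
    ModularForm.discriminant (γ • τ) =
      ((γ 1 0 : ℂ) * τ + γ 1 1) ^ 12 * ModularForm.discriminant τ := by
  have := jbas_smul CuspForm.discriminant γ τ
  rw [CuspForm.coe_discriminant] at this
  rw [this]
  norm_cast

theorem jInv_smul (γ : SL(2, ℤ)) (τ : ℍ) : jInv (γ • τ) = jInv τ := by
  have h1 := jbas_smul ModularForm.E₄ γ τ
  have h2 := jbas_den γ τ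
  have h3 := ModularForm.discriminant_ne_zero τ
  rw [jInv, jInv, h1, jbas_disc, zpow_ofNat]
  field_simp

theorem disc_smul (γ : SL(2, ℤ)) (τ : ℍ) :
    ModularForm.discriminant (γ • τ) =
      ((γ 1 0 : ℂ) * τ + γ 1 1) ^ 12 * ModularForm.discriminant τ :=
  jbas_disc γ τ

theorem continuous_jInv : Continuous jInv :=
  ((ModularFormClass.holo ModularForm.E₄).continuous.pow 3).div
    (ModularFormClass.holo CuspForm.discriminant).continuous ModularForm.discriminant_ne_zero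

theorem jbas_E4_tendsto : Tendsto (fun τ => ModularForm.E₄ τ) atImInfty (𝓝 1) := by
  have hanal := ModularFormClass.analyticAt_cuspFunction_zero ModularForm.E₄ one_pos
    one_mem_strictPeriods_SL
  have hper := SlashInvariantFormClass.periodic_comp_ofComplex ModularForm.E₄
    one_mem_strictPeriods_SL
  have h0 : (qExpansion 1 ModularForm.E₄).coeff 0 = 1 :=
    EisensteinSeries.E_qExpansion_coeff_zero _ ⟨2, rfl⟩
  rw [qExpansion_coeff_zero one_pos hanal hper, ← cuspFunction_apply_zero one_pos hanal hper] at h0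
  rw [← h0]
  exact (hanal.continuousAt.tendsto.comp (qParam_tendsto_atImInfty one_pos)).congr
    (fun τ ↦ SlashInvariantFormClass.eq_cuspFunction ModularForm.E₄ τ one_mem_strictPeriods_SL
      one_ne_zero)

theorem jInv_surj (z : ℂ) : ∃ τ : ℍ, jInv τ = z := by
  by_contra hne
  push Not at hne
  let P : ModularForm 𝒮ℒ 12 := ModularForm.mcast (by decide) (ModularForm.E₄.pow 3) -
    z • (CuspForm.discriminant : ModularForm 𝒮ℒ 12)
  have hP : ∀ τ, P τ = ModularForm.E₄ τ ^ 3 - z * ModularForm.discriminant τ := fun τ => rfl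
  have hP0 : ∀ τ, P τ ≠ 0 := by
    intro τ h
    apply hne τ
    rw [hP, sub_eq_zero] at h
    rw [jInv, h, mul_div_cancel_right₀ _ (ModularForm.discriminant_ne_zero τ)]
  have hlim : Tendsto (fun τ => P τ) atImInfty (𝓝 1) := by
    have := (jbas_E4_tendsto.pow 3).sub
      (Tendsto.const_mul z ModularForm.discriminant_isZeroAtImInfty)
    simpa [hP] using this
  have hs : ∀ γ : SL(2, ℤ), (fun τ => (1 : ℂ) / P τ) ∣[(0 - 12 : ℤ)] γ = fun τ => 1 / P τ := by
    intro γ
    have hγ : (γ : GL (Fin 2) ℝ) ∈ 𝒮ℒ := ⟨γ, rfl⟩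
    change (⇑(1 : ModularForm 𝒮ℒ 0) / ⇑P) ∣[(0 - 12 : ℤ)] γ = ⇑(1 : ModularForm 𝒮ℒ 0) / ⇑P
    simp_rw [ModularForm.div_slash_SL2, ModularForm.SL_slash,
      SlashInvariantForm.slash_action_eqn _ _ hγ]
  let G : ModularForm 𝒮ℒ (0 - 12) :=
    { toFun τ := 1 / P τ
      slash_action_eq' := fun _ ⟨γ, hγ⟩ ↦ hγ ▸ hs γ
      holo' := (1 : ModularForm 𝒮ℒ 0).holo'.div P.holo' hP0
      bdd_at_cusps' {c} hc := by
        rw [Subgroup.IsArithmetic.isCusp_iff_isCusp_SL2Z] at hc
        rw [OnePoint.isBoundedAt_iff_forall_SL2Z hc]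
        intro γ _
        rw [hs γ, IsBoundedAtImInfty, BoundedAtFilter]
        exact (tendsto_const_nhds.div hlim one_ne_zero).isBigO_one ℝ }
  have h0 := congrFun (ModularFormClass.levelOne_neg_weight_eq_zero (by norm_num) G) I
  exact one_div_ne_zero (hP0 I) h0

theorem jbas_volume_fd_lt_top : volume (ModularGroup.fd : Set ℍ) < ⊤ := by
  rw [volume_eq_lintegral]
  have h1 : IntegrableOn (fun q : ℝ × ℝ => (1 : ℝ) * q.2 ^ (-2 : ℝ))
      (Set.Icc (-(1 / 2) : ℝ) (1 / 2) ×ˢ Set.Ioi (1 / 2 : ℝ)) volume := by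
    rw [IntegrableOn, Measure.volume_eq_prod, ← Measure.prod_restrict]
    exact Integrable.mul_prod (f := fun _ : ℝ => (1 : ℝ)) (integrable_const _)
      (integrableOn_Ioi_rpow_of_lt (by norm_num) (by norm_num))
  have h2 := (Complex.volume_preserving_equiv_real_prod.integrableOn_comp_preimage
    Complex.measurableEquivRealProd.measurableEmbedding).2 h1
  have hs : UpperHalfPlane.coe '' ModularGroup.fd ⊆ Complex.measurableEquivRealProd ⁻¹'
      (Set.Icc (-(1 / 2) : ℝ) (1 / 2) ×ˢ Set.Ioi (1 / 2 : ℝ)) := by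
    rintro _ ⟨τ, hτ, rfl⟩
    refine ⟨abs_le.1 hτ.2, ?_⟩
    have := ModularGroup.three_le_four_mul_im_sq_of_mem_fd hτ
    have := τ.im_pos
    change 1 / 2 < τ.im
    nlinarith
  refine lt_of_le_of_lt (le_of_eq ?_) (h2.mono_set hs).2
  refine setLIntegral_congr_fun (measurableEmbedding_coe.measurableSet_image.2
    ModularGroup.isClosed_fd.measurableSet) ?_
  rintro _ ⟨τ, -, rfl⟩
  have := τ.im_pos
  simp only [Function.comp_apply, one_mul, enorm_eq_nnnorm, ENNReal.coe_inj]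
  ext
  change _ = ‖τ.im ^ (-2 : ℝ)‖
  rw [Real.norm_of_nonneg (by positivity), Real.rpow_neg this.le]
  simp [abs_of_pos this]

theorem jbas_vol_pos {U : Set ℍ} (hU : IsOpen U) (hne : U.Nonempty) : 0 < volume U := by
  rw [pos_iff_ne_zero]
  intro h
  have h1 : (volume.comap UpperHalfPlane.coe : Measure ℍ) ≪ volume := by
    refine withDensity_absolutelyContinuous' (Measurable.aemeasurable ?_)
      (Eventually.of_forall fun z => ?_)
    · have hc : Continuous fun z : ℍ => (NNReal.mk z.im z.im_pos.le : NNReal) :=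
        continuous_im.subtype_mk _
      exact measurable_coe_nnreal_ennreal.comp ((measurable_const.div hc.measurable).pow_const 2)
    · have : NNReal.mk z.im z.im_pos.le ≠ 0 := NNReal.ne_iff.mp z.im_ne_zero
      exact ENNReal.coe_ne_zero.2 (pow_ne_zero _ (one_div_ne_zero this))
  have h2 := h1 h
  rw [measurableEmbedding_coe.comap_apply] at h2
  exact ((isOpenEmbedding_coe.isOpenMap U hU).measure_pos volume (hne.image _)).ne' h2

theorem jbas_volume_fd_pos : 0 < volume (ModularGroup.fd : Set ℍ) := by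
  refine (jbas_vol_pos (U := {τ : ℍ | 1 < τ.im ∧ |τ.re| < 1 / 2}) ?_ ?_).trans_le
    (measure_mono ?_)
  · exact (isOpen_lt continuous_const continuous_im).inter
      (isOpen_lt continuous_re.abs continuous_const)
  · exact ⟨⟨2 * Complex.I, by simp⟩, by simp [UpperHalfPlane.im], by simp [UpperHalfPlane.re]⟩
  · rintro τ ⟨h1, h2⟩
    refine ⟨?_, h2.le⟩
    rw [Complex.normSq_apply]
    change 1 ≤ τ.re * τ.re + τ.im * τ.im
    nlinarith [mul_self_nonneg τ.re]

instance instProbmY : IsProbabilityMeasure mY := by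
  have := ProbabilityTheory.cond_isProbabilityMeasure_of_finite jbas_volume_fd_pos.ne'
    jbas_volume_fd_lt_top.ne
  exact Measure.isProbabilityMeasure_map continuous_jInv.measurable.aemeasurable

end Pool.Agent.P.MP_20768c_nt.Az.EQ

end

end

-- part ad7a55_nt.JBas2
section

/-! Basic properties of j. -/

set_option autoImplicit false

noncomputable section

open MeasureTheory Topology Filter UpperHalfPlane
open scoped MatrixGroups ENNReal BoundedContinuousFunction

namespace Pool.Agent.P.MP_20768c_nt.Az.EQ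

namespace JInj

open ModularForm EisensteinSeries

/-- Equal `j` gives a common scaling of `E₄` and `E₆`. -/
theorem exists_scale {τ τ' : ℍ} (h : jInv τ = jInv τ') :
    ∃ c : ℂ, c ≠ 0 ∧ E₄ τ' = c ^ 4 * E₄ τ ∧ E₆ τ' = c ^ 6 * E₆ τ := by
  have hD := discriminant_ne_zero τ
  have hD' := discriminant_ne_zero τ'
  have e := discriminant_eq_E₄_cube_sub_E₆_sq τ
  have e' := discriminant_eq_E₄_cube_sub_E₆_sq τ'
  unfold jInv at h
  rw [div_eq_div_iff hD hD'] at h
  generalize E₄ τ = a at *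
  generalize E₆ τ = b at *
  generalize E₄ τ' = a' at *
  generalize E₆ τ' = b' at *
  generalize discriminant τ = D at *
  generalize discriminant τ' = D' at *
  have h6 : b ^ 2 * D' = b' ^ 2 * D := by
    linear_combination h - (D * 1728) * e' + (D' * 1728) * e
  suffices hs : ∃ s : ℂ, s ≠ 0 ∧ a' = s ^ 2 * a ∧ b' = s ^ 3 * b by
    obtain ⟨s, hs0, h1, h2⟩ := hs
    obtain ⟨c, hc⟩ := IsAlgClosed.exists_pow_nat_eq s (n := 2) (by norm_num)
    refine ⟨c, ?_, ?_, ?_⟩
    · rintro rfl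
      exact hs0 (by rw [← hc]; norm_num)
    · rw [h1, ← hc]; ring
    · rw [h2, ← hc]; ring
  by_cases ha : a = 0
  · subst ha
    have ha' : a' = 0 := by
      have : a' ^ 3 * D = 0 := by rw [← h]; ring
      rcases mul_eq_zero.mp this with h1 | h1
      · exact pow_eq_zero_iff (by norm_num) |>.mp h1
      · exact absurd h1 hD
    have hb : b ≠ 0 := by
      rintro rfl
      exact hD (by rw [e]; norm_num)
    have hb' : b' ≠ 0 := by
      rintro rfl
      exact hD' (by rw [e', ha']; norm_num)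
    obtain ⟨s, hs⟩ := IsAlgClosed.exists_pow_nat_eq (b' / b) (n := 3) (by norm_num)
    refine ⟨s, ?_, by rw [ha']; ring, by rw [hs]; field_simp⟩
    rintro rfl
    exact div_ne_zero hb' hb (by rw [← hs]; norm_num)
  have ha' : a' ≠ 0 := by
    rintro rfl
    have : a ^ 3 * D' = 0 := by rw [h]; ring
    rcases mul_eq_zero.mp this with h1 | h1
    · exact ha (pow_eq_zero_iff (by norm_num) |>.mp h1)
    · exact hD' h1
  by_cases hb : b = 0
  · subst hb
    have hb' : b' = 0 := by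
      have : b' ^ 2 * D = 0 := by rw [← h6]; ring
      rcases mul_eq_zero.mp this with h1 | h1
      · exact pow_eq_zero_iff (by norm_num) |>.mp h1
      · exact absurd h1 hD
    obtain ⟨s, hs⟩ := IsAlgClosed.exists_pow_nat_eq (a' / a) (n := 2) (by norm_num)
    refine ⟨s, ?_, by rw [hs]; field_simp, by rw [hb']; ring⟩
    rintro rfl
    exact div_ne_zero ha' ha (by rw [← hs]; norm_num)
  have hb' : b' ≠ 0 := by
    rintro rfl
    have : b ^ 2 * D' = 0 := by rw [h6]; ring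
    rcases mul_eq_zero.mp this with h1 | h1
    · exact hb (pow_eq_zero_iff (by norm_num) |>.mp h1)
    · exact hD' h1
  have key : b' ^ 2 * a ^ 3 = a' ^ 3 * b ^ 2 := by
    apply mul_right_cancel₀ (mul_ne_zero hD hD')
    linear_combination (b ^ 2 * D') * h - (a ^ 3 * D') * h6
  refine ⟨b' * a / (b * a'), div_ne_zero (mul_ne_zero hb' ha) (mul_ne_zero hb ha'), ?_, ?_⟩
  · field_simp
    linear_combination -key
  · field_simp
    linear_combination -key

theorem exists_unit_form {τ τ' : ℍ} {c : ℂ} (h4 : E₄ τ' = c ^ 4 * E₄ τ)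
    (h6 : E₆ τ' = c ^ 6 * E₆ τ) (k : ℕ) (hk : 4 ≤ k) (he : Even k) :
    ∃ g : ModularForm 𝒮ℒ (k : ℤ), (qExpansion 1 g).coeff 0 = 1 ∧ g τ' = c ^ k * g τ := by
  obtain ⟨a, b, hab⟩ : ∃ a b : ℕ, k = 4 * a + 6 * b := by
    obtain ⟨m, rfl⟩ := he
    rcases Nat.even_or_odd' m with ⟨n, rfl | rfl⟩
    · exact ⟨n, 0, by omega⟩
    · exact ⟨n - 1, 1, by omega⟩
  refine ⟨ModularForm.mcast (by rw [hab]; push_cast; ring) ((E₄.pow a).mul (E₆.pow b)), ?_, ?_⟩
  · rw [coe_mcast, ModularForm.qExpansion_mul one_pos one_mem_strictPeriods_SL,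
      ModularForm.qExpansion_pow one_pos one_mem_strictPeriods_SL,
      ModularForm.qExpansion_pow one_pos one_mem_strictPeriods_SL]
    have e4 := E_qExpansion_coeff_zero (by norm_num : 3 ≤ 4) ⟨2, rfl⟩
    have e6 := E_qExpansion_coeff_zero (by norm_num : 3 ≤ 6) ⟨3, rfl⟩
    simp only [PowerSeries.coeff_zero_eq_constantCoeff] at e4 e6 ⊢
    rw [map_mul, map_pow, map_pow, e4, e6]
    simp
  · simp only [coe_mcast, coe_mul, coe_pow, Pi.mul_apply, Pi.pow_apply, h4, h6, hab]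
    ring

theorem scale_all {τ τ' : ℍ} {c : ℂ} (h4 : E₄ τ' = c ^ 4 * E₄ τ)
    (h6 : E₆ τ' = c ^ 6 * E₆ τ) (k : ℕ) (f : ModularForm 𝒮ℒ (k : ℤ)) :
    f τ' = c ^ k * f τ := by
  have hD : discriminant τ' = c ^ 12 * discriminant τ := by
    rw [discriminant_eq_E₄_cube_sub_E₆_sq, discriminant_eq_E₄_cube_sub_E₆_sq, h4, h6]; ring
  induction k using Nat.strong_induction_on with
  | _ k ih =>
  rcases Nat.even_or_odd k with he | ho
  swap
  · rw [ModularForm.levelOne_odd_weight_eq_zero (by exact_mod_cast ho) f]; simp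
  by_cases h0 : k = 0
  · subst h0
    obtain ⟨x, hx⟩ := ModularFormClass.levelOne_weight_zero_const (F := ModularForm 𝒮ℒ 0) f
    have e1 : f τ' = x := congrFun hx τ'
    have e2 : f τ = x := congrFun hx τ
    rw [e1, e2]; simp
  by_cases h2 : k = 2
  · subst h2
    have : f = 0 := rank_zero_iff_forall_zero.mp levelOne_weight_two_rank_zero f
    rw [this]; simp
  have hk : 4 ≤ k := by obtain ⟨m, rfl⟩ := he; omega
  obtain ⟨g, hg0, hg⟩ := exists_unit_form h4 h6 k hk he
  obtain ⟨φ, hφ⟩ := sub_smul_isCuspForm f g hg0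
  set a0 := (qExpansion 1 f).coeff 0
  have hφ' : ∀ z, φ z = f z - a0 * g z := fun z => by
    have := DFunLike.congr_fun hφ z
    simpa using this
  have hφs : φ τ' = c ^ k * φ τ := by
    rw [← discriminant_mul_discriminantEquiv_apply φ τ',
      ← discriminant_mul_discriminantEquiv_apply φ τ]
    by_cases h12 : k < 12
    · have : CuspForm.discriminantEquiv φ = 0 :=
        rank_zero_iff_forall_zero.mp (ModularForm.levelOne_neg_weight_rank_zero (by omega)) _
      rw [this]; simp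
    · obtain ⟨n, rfl⟩ : ∃ n, k = n + 12 := ⟨k - 12, by omega⟩
      have := ih n (by omega) (ModularForm.mcast (by push_cast; ring) (CuspForm.discriminantEquiv φ))
      simp only [coe_mcast] at this
      rw [this, hD]; ring
  rw [hφ', hφ', hg] at hφs
  linear_combination hφs

/-- An even summable weight with vanishing even moments and discrete support vanishes off `0`. -/
theorem moment_zero (u : ℂ → ℂ) (hs : Summable fun x => ‖u x‖) (hev : ∀ x, u (-x) = u x)
    (hbig : ∀ x, u x ≠ 0 → ‖x‖ ^ 4 ≤ ‖u x‖) (hm : ∀ m : ℕ, ∑' x, u x * x ^ (2 * m) = 0)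
    (x1 : ℂ) (hx1 : x1 ≠ 0) : u x1 = 0 := by
  by_contra hu1
  have hpos : 0 < ‖x1‖ := norm_pos_iff.mpr hx1
  have hfin : {x | u x ≠ 0 ∧ ‖x1‖ ≤ ‖x‖}.Finite := by
    have h1 := hs.tendsto_cofinite_zero
    have h2 := (h1.eventually (gt_mem_nhds (pow_pos hpos 4)))
    rw [Filter.eventually_cofinite] at h2
    refine h2.subset fun x hx => ?_
    simp only [Set.mem_ofPred_eq, not_lt]
    exact le_trans (pow_le_pow_left₀ hpos.le hx.2 4) (hbig x hx.1)
  obtain ⟨x0, hx0, hmax⟩ := hfin.exists_maximalFor (fun x : ℂ => ‖x‖) _ ⟨x1, hu1, le_rfl⟩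
  have hle : ∀ x, u x ≠ 0 → ‖x‖ ≤ ‖x0‖ := fun x hx => by
    by_contra hlt
    push Not at hlt
    exact absurd (hmax ⟨hx, hx0.2.trans hlt.le⟩ hlt.le) (not_le.mpr hlt)
  have hpos0 : 0 < ‖x0‖ := hpos.trans_le hx0.2
  have hx00 : x0 ≠ 0 := norm_pos_iff.mp hpos0
  set ρ : ℂ → ℂ := fun x => (x ^ 2 + x0 ^ 2) / (2 * x0 ^ 2) with hρ
  have hρ1 : ∀ x, u x ≠ 0 → ‖ρ x‖ ≤ 1 := fun x hx => by
    simp only [hρ, norm_div, norm_mul, norm_pow, Complex.norm_ofNat]
    rw [div_le_one (by positivity)]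
    refine (norm_add_le _ _).trans ?_
    rw [norm_pow, norm_pow]
    have := pow_le_pow_left₀ (norm_nonneg x) (hle x hx) 2
    linarith
  have hsum : ∀ m n : ℕ, Summable fun x => u x * x ^ (2 * n) * ρ x ^ m := fun m n => by
    refine Summable.of_norm_bounded (hs.mul_right (‖x0‖ ^ (2 * n))) fun x => ?_
    by_cases hx : u x = 0
    · simp [hx]
    rw [norm_mul, norm_mul, norm_pow, norm_pow]
    calc ‖u x‖ * ‖x‖ ^ (2 * n) * ‖ρ x‖ ^ m ≤ ‖u x‖ * ‖x0‖ ^ (2 * n) * 1 := by
          gcongr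
          · exact hle x hx
          · exact pow_le_one₀ (norm_nonneg _) (hρ1 x hx)
      _ = _ := mul_one _
  have hzero : ∀ m n : ℕ, ∑' x, u x * x ^ (2 * n) * ρ x ^ m = 0 := by
    intro m
    induction m with
    | zero => intro n; simpa using hm n
    | succ m ih =>
      intro n
      have e : ∀ x, u x * x ^ (2 * n) * ρ x ^ (m + 1) =
          (2 * x0 ^ 2)⁻¹ * (u x * x ^ (2 * (n + 1)) * ρ x ^ m) +
            2⁻¹ * (u x * x ^ (2 * n) * ρ x ^ m) := fun x => by
        rw [pow_succ (ρ x)]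
        generalize ρ x ^ m = t
        simp only [hρ]
        field_simp
        ring
      simp_rw [e]
      rw [Summable.tsum_add ((hsum m (n + 1)).mul_left _) ((hsum m n).mul_left _), tsum_mul_left,
        tsum_mul_left, ih, ih]
      simp
  have hlim : Tendsto (fun m : ℕ => ∑' x, u x * ρ x ^ m) atTop
      (𝓝 (∑' x, if x ^ 2 = x0 ^ 2 then u x else 0)) := by
    refine tendsto_tsum_of_dominated_convergence hs (fun x => ?_) (Eventually.of_forall fun m x => ?_)
    · by_cases hx : u x = 0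
      · simp [hx]
      split_ifs with h
      · have : ρ x = 1 := by simp only [hρ, h]; field_simp; ring
        simp [this]
      · have hlt : ‖ρ x‖ < 1 := by
          simp only [hρ, norm_div, norm_mul, norm_pow, Complex.norm_ofNat]
          rw [div_lt_one (by positivity)]
          have h1 : ‖x ^ 2‖ ≤ ‖x0‖ ^ 2 := by
            rw [norm_pow]; exact pow_le_pow_left₀ (norm_nonneg x) (hle x hx) 2
          have h2 : ‖x0 ^ 2‖ ≤ ‖x0‖ ^ 2 := by rw [norm_pow]
          have h3 := norm_combo_lt_of_ne h1 h2 h (a := (1 / 2 : ℝ)) (b := (1 / 2 : ℝ))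
            (by norm_num) (by norm_num) (by norm_num)
          rw [← smul_add, norm_smul, Real.norm_of_nonneg (by norm_num)] at h3
          linarith
        simpa using (tendsto_pow_atTop_nhds_zero_of_norm_lt_one hlt).const_mul (u x)
    · by_cases hx : u x = 0
      · simp [hx]
      rw [norm_mul, norm_pow]
      exact mul_le_of_le_one_right (norm_nonneg _) (pow_le_one₀ (norm_nonneg _) (hρ1 x hx))
  have hc : (fun m : ℕ => ∑' x, u x * ρ x ^ m) = fun _ => 0 := by
    funext m; simpa using hzero m 0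
  rw [hc] at hlim
  have h0 := tendsto_nhds_unique hlim tendsto_const_nhds
  have hne : x0 ≠ -x0 := fun h => hx00 (by linear_combination h / 2)
  rw [tsum_eq_sum (s := {x0, -x0})] at h0
  · rw [Finset.sum_pair hne, if_pos rfl, if_pos (by ring), hev] at h0
    exact hx0.1 (by linear_combination h0 / 2)
  · intro x hx
    simp only [Finset.mem_insert, Finset.mem_singleton, not_or] at hx
    rw [if_neg]
    intro h
    rcases sq_eq_sq_iff_eq_or_eq_neg.mp h with h | h
    · exact hx.1 h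
    · exact hx.2 h

/-- The inverses of the primitive vectors of the lattice `c⁻¹ ⟨τ, 1⟩`. -/
def inv (c : ℂ) (τ : ℍ) (v : gammaSet 1 1 (0 : Fin 2 → ZMod 1)) : ℂ :=
  c * ((v.1 0 : ℂ) * τ + v.1 1)⁻¹

theorem lin_indep (τ : ℍ) {p q : ℤ} (h : (p : ℂ) * τ + q = 0) : p = 0 ∧ q = 0 := by
  have h1 := congrArg Complex.im h
  simp only [Complex.add_im, Complex.mul_im, Complex.intCast_re, Complex.intCast_im, zero_mul,
    add_zero, Complex.zero_im, coe_im, mul_eq_zero, Int.cast_eq_zero, τ.im_pos.ne', or_false] at h1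
  subst h1
  simpa using h

theorem den_ne (τ : ℍ) (v : gammaSet 1 1 (0 : Fin 2 → ZMod 1)) :
    (v.1 0 : ℂ) * τ + v.1 1 ≠ 0 := fun h => by
  obtain ⟨h0, h1⟩ := lin_indep τ h
  have := (mem_gammaSet_one v.1).mp v.2
  rw [h0, h1] at this
  exact not_isCoprime_zero_zero this

theorem inv_ne {c : ℂ} (hc : c ≠ 0) (τ : ℍ) (v : gammaSet 1 1 (0 : Fin 2 → ZMod 1)) :
    inv c τ v ≠ 0 := mul_ne_zero hc (inv_ne_zero (den_ne τ v))

theorem inv_inj {c : ℂ} (hc : c ≠ 0) (τ : ℍ) : Function.Injective (inv c τ) := by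
  intro v w h
  have h1 := inv_injective (mul_left_cancel₀ hc h)
  have h2 : ((v.1 0 - w.1 0 : ℤ) : ℂ) * τ + ((v.1 1 - w.1 1 : ℤ) : ℂ) = 0 := by
    push_cast; linear_combination h1
  obtain ⟨h3, h4⟩ := lin_indep τ h2
  ext i
  fin_cases i
  · simpa using sub_eq_zero.mp h3
  · simpa using sub_eq_zero.mp h4

theorem neg_mem_range (c : ℂ) (τ : ℍ) {x : ℂ} (hx : x ∈ Set.range (inv c τ)) :
    -x ∈ Set.range (inv c τ) := by
  obtain ⟨v, rfl⟩ := hx
  refine ⟨⟨-v.1, ?_⟩, ?_⟩
  · rw [mem_gammaSet_one]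
    exact ((mem_gammaSet_one v.1).mp v.2).neg_neg
  · simp only [inv, Pi.neg_apply, Int.cast_neg, neg_mul]
    rw [← neg_add, inv_neg, mul_neg]

theorem hasSum_inv {c : ℂ} (hc : c ≠ 0) (τ : ℍ) {k : ℕ} (hk : 3 ≤ k) :
    HasSum (fun x => (Set.range (inv c τ)).indicator (fun x => x ^ k) x)
      (c ^ k * (2 * E hk τ)) := by
  rw [← (inv_inj hc τ).hasSum_iff fun x hx => Set.indicator_of_notMem hx _]
  have h1 : Summable fun v : gammaSet 1 1 (0 : Fin 2 → ZMod 1) => eisSummand k v τ :=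
    (summable_eisSummand hk τ).subtype _
  have h2 : 2 * E hk τ = ∑' v : gammaSet 1 1 (0 : Fin 2 → ZMod 1), eisSummand k v τ := by
    have : E hk τ = (1 / 2 : ℂ) * eisensteinSeries (0 : Fin 2 → ZMod 1) k τ := rfl
    rw [this, eisensteinSeries]; ring
  rw [h2]
  refine (h1.hasSum.mul_left (c ^ k)).congr_fun fun v => ?_
  rw [Function.comp, Set.indicator_of_mem (Set.mem_range_self v)]
  simp only [inv, eisSummand, mul_pow, zpow_neg, zpow_natCast, inv_pow]

theorem range_eq {τ τ' : ℍ} {c : ℂ} (hc : c ≠ 0) (h4 : E₄ τ' = c ^ 4 * E₄ τ)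
    (h6 : E₆ τ' = c ^ 6 * E₆ τ) : Set.range (inv 1 τ') = Set.range (inv c τ) := by
  classical
  set A := Set.range (inv 1 τ') with hA
  set B := Set.range (inv c τ) with hB
  set u : ℂ → ℂ := fun x => A.indicator (fun x => x ^ 4) x - B.indicator (fun x => x ^ 4) x with hu
  have hsA := fun (k : ℕ) (hk : 3 ≤ k) => hasSum_inv one_ne_zero τ' hk
  have hsB := fun (k : ℕ) (hk : 3 ≤ k) => hasSum_inv hc τ hk
  have hAn : ∀ x, -x ∈ A ↔ x ∈ A := fun x =>
    ⟨fun h => neg_neg x ▸ neg_mem_range _ _ h, neg_mem_range _ _⟩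
  have hBn : ∀ x, -x ∈ B ↔ x ∈ B := fun x =>
    ⟨fun h => neg_neg x ▸ neg_mem_range _ _ h, neg_mem_range _ _⟩
  have key : ∀ x, x ≠ 0 → u x = 0 := by
    refine moment_zero u ?_ ?_ ?_ ?_
    · exact summable_norm_iff.mpr
        ((hsA 4 (by norm_num)).summable.sub (hsB 4 (by norm_num)).summable)
    · intro x
      simp only [hu, Set.indicator_apply, hAn, hBn, Even.neg_pow (by decide : Even 4)]
    · intro x hx
      simp only [hu, Set.indicator_apply] at hx ⊢
      split_ifs at hx ⊢ <;> simp_all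
    · intro m
      have hk : 3 ≤ 4 + 2 * m := by omega
      have := (hsA _ hk).sub (hsB _ hk)
      rw [scale_all h4 h6 _ (E hk)] at this
      have e : (1 : ℂ) ^ (4 + 2 * m) * (2 * (c ^ (4 + 2 * m) * (E hk) τ)) -
          c ^ (4 + 2 * m) * (2 * (E hk) τ) = 0 := by ring
      rw [e] at this
      rw [← this.tsum_eq]
      refine tsum_congr fun x => ?_
      simp only [hu, Set.indicator_apply, ← hA, ← hB]
      split_ifs <;> ring
  ext x
  constructor
  · intro hx
    have hx0 : x ≠ 0 := by obtain ⟨v, rfl⟩ := hx; exact inv_ne one_ne_zero _ _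
    by_contra hB'
    have := key x hx0
    simp only [hu, Set.indicator_of_mem hx, Set.indicator_of_notMem hB', sub_zero] at this
    exact pow_ne_zero 4 hx0 this
  · intro hx
    have hx0 : x ≠ 0 := by obtain ⟨v, rfl⟩ := hx; exact inv_ne hc _ _
    by_contra hA'
    have := key x hx0
    simp only [hu, Set.indicator_of_mem hx, Set.indicator_of_notMem hA', zero_sub,
      neg_eq_zero] at this
    exact pow_ne_zero 4 hx0 this

end JInj

open JInj EisensteinSeries in
/-- `j` is injective on `SL₂(ℤ)\ℍ`. -/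
theorem jInv_inj {τ τ' : ℍ} (h : jInv τ = jInv τ') : ∃ γ : SL(2, ℤ), τ' = γ • τ := by
  obtain ⟨c, hc, h4, h6⟩ := exists_scale h
  have hr := range_eq hc h4 h6
  let e0 : gammaSet 1 1 (0 : Fin 2 → ZMod 1) :=
    ⟨![1, 0], (mem_gammaSet_one _).mpr (by simpa using isCoprime_one_left)⟩
  let e1 : gammaSet 1 1 (0 : Fin 2 → ZMod 1) :=
    ⟨![0, 1], (mem_gammaSet_one _).mpr (by simpa using isCoprime_one_right)⟩
  have fwd : ∀ w, ∃ p q : ℤ, (p : ℂ) * τ + q = c * (((w : gammaSet 1 1 (0 : Fin 2 → ZMod 1)).1 0 : ℂ)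
      * τ' + w.1 1) := fun w => by
    obtain ⟨v, hv⟩ : inv 1 τ' w ∈ Set.range (inv c τ) := hr ▸ Set.mem_range_self w
    refine ⟨v.1 0, v.1 1, ?_⟩
    have h1 := den_ne τ v
    have h2 := den_ne τ' w
    simp only [JInj.inv] at hv
    field_simp at hv
    linear_combination -hv
  have bwd : ∀ w, ∃ p q : ℤ, c * ((p : ℂ) * τ' + q) =
      (((w : gammaSet 1 1 (0 : Fin 2 → ZMod 1)).1 0 : ℂ) * τ + w.1 1) := fun w => by
    obtain ⟨v, hv⟩ : inv c τ w ∈ Set.range (inv 1 τ') := hr ▸ Set.mem_range_self w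
    refine ⟨v.1 0, v.1 1, ?_⟩
    have h1 := den_ne τ w
    have h2 := den_ne τ' v
    simp only [JInj.inv] at hv
    field_simp at hv
    linear_combination -hv
  obtain ⟨p, q, hpq⟩ := fwd e0
  obtain ⟨r, s, hrs⟩ := fwd e1
  obtain ⟨p', q', hpq'⟩ := bwd e0
  obtain ⟨r', s', hrs'⟩ := bwd e1
  simp only [e0, e1, Matrix.cons_val_zero, Matrix.cons_val_one, Int.cast_one, Int.cast_zero,
    one_mul, zero_mul, add_zero, zero_add, mul_one] at hpq hrs hpq' hrs'
  obtain ⟨a1, a2⟩ := lin_indep τ (p := p' * p + q' * r - 1) (q := p' * q + q' * s) (by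
    push_cast; linear_combination p' * hpq + q' * hrs + hpq')
  obtain ⟨a3, a4⟩ := lin_indep τ (p := r' * p + s' * r) (q := r' * q + s' * s - 1) (by
    push_cast; linear_combination r' * hpq + s' * hrs + hrs')
  have hdet : (p * s - q * r) * (p' * s' - q' * r') = 1 := by
    linear_combination (r' * q + s' * s) * a1 + a4 - (r' * p + s' * r) * a2
  have hτ : (τ' : ℂ) * (r * τ + s) = p * τ + q := by rw [hpq, hrs]; ring
  have hpos : 0 < p * s - q * r := by
    have h1 := congrArg Complex.re hτ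
    have h2 := congrArg Complex.im hτ
    simp only [Complex.mul_re, Complex.mul_im, Complex.add_re, Complex.add_im, Complex.intCast_re,
      Complex.intCast_im, zero_mul, sub_zero, add_zero, coe_re, coe_im] at h1 h2
    have h3 : τ'.im * ((r * τ.re + s) ^ 2 + (r * τ.im) ^ 2) = (p * s - q * r) * τ.im := by
      linear_combination (r * τ.re + s) * h2 - (r * τ.im) * h1
    have h4 : 0 ≤ ((p : ℝ) * s - q * r) * τ.im := by
      rw [← h3]; exact mul_nonneg τ'.im_pos.le (by positivity)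
    have h5 : 0 ≤ (p : ℝ) * s - q * r := nonneg_of_mul_nonneg_left h4 τ.im_pos
    have h6 : 0 ≤ p * s - q * r := by exact_mod_cast h5
    refine lt_of_le_of_ne h6 fun h7 => ?_
    rw [← h7] at hdet
    simp at hdet
  have hone : p * s - q * r = 1 := Int.eq_one_of_mul_eq_one_right hpos.le hdet
  obtain ⟨γ, hγ⟩ : ∃ γ : SL(2, ℤ), (γ : Matrix (Fin 2) (Fin 2) ℤ) = !![p, q; r, s] :=
    ⟨⟨!![p, q; r, s], by rw [Matrix.det_fin_two_of]; exact hone⟩, rfl⟩
  refine ⟨γ, ?_⟩
  apply UpperHalfPlane.ext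
  rw [coe_specialLinearGroup_apply, eq_div_iff]
  · simpa [hγ] using hτ
  · have : (r : ℂ) * τ + s ≠ 0 := by rw [hrs]; exact hc
    simpa [hγ] using this

end Pool.Agent.P.MP_20768c_nt.Az.EQ

end

end

-- part ad7a55_nt.Lat
section

/-! Lattices in ℂ. -/

set_option autoImplicit false

noncomputable section

open MeasureTheory Topology Filter UpperHalfPlane
open scoped MatrixGroups ENNReal BoundedContinuousFunction

namespace Pool.Agent.P.MP_20768c_nt.Az.EQ

/-- Subgroups of `ℂ`. -/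
abbrev Lt : Type := Submodule ℤ ℂ

/-- The subgroup generated by one element. -/
def pr (c : ℂ) : Lt := Submodule.span ℤ {c}

/-- The subgroup generated by two elements. -/
def sp (a b : ℂ) : Lt := Submodule.span ℤ {a, b}

/-- `Λ` is a lattice. -/
def IsLat (Λ : Lt) : Prop := ∃ (c : ℂ) (τ : ℍ), c ≠ 0 ∧ Λ = sp c (c * τ)

open Classical in
/-- The `j`-invariant of a lattice. -/
def jL (Λ : Lt) : ℂ := if h : IsLat Λ then jInv h.choose_spec.choose else 0

open Classical in
/-- The discriminant function of a lattice. -/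
def dL (Λ : Lt) : ℂ :=
  if h : IsLat Λ then ModularForm.discriminant h.choose_spec.choose / h.choose ^ 12 else 0

/-- `Λ'` is a sublattice of index `q`. -/
def Nb (q : ℕ) (Λ Λ' : Lt) : Prop := pr q * Λ < Λ' ∧ Λ' < Λ

/-- Chains of sublattices of prime index, with total index `n`. -/
inductive Ch : ℕ → Lt → Lt → Prop
  | refl (Λ : Lt) : Ch 1 Λ Λ
  | step {q n : ℕ} {Λ Λ₁ Λ' : Lt} : q.Prime → Nb q Λ Λ₁ → Ch n Λ₁ Λ' → Ch (q * n) Λ Λ'

/-- `a` and `b` are `j`-invariants of lattices related by an isogeny of exponent dividing `N`. -/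
def Isog (N : ℕ) (a b : ℂ) : Prop :=
  ∃ Λ₁ Λ₂ : Lt, IsLat Λ₁ ∧ IsLat Λ₂ ∧ jL Λ₁ = a ∧ jL Λ₂ = b ∧ Λ₁ ≤ Λ₂ ∧ pr N * Λ₂ ≤ Λ₁

theorem mem_sp {a b v : ℂ} : v ∈ sp a b ↔ ∃ m n : ℤ, v = m * a + n * b := by
  unfold sp
  rw [Submodule.mem_span_pair]
  constructor
  · rintro ⟨m, n, h⟩
    exact ⟨m, n, by rw [← h]; simp⟩
  · rintro ⟨m, n, h⟩
    exact ⟨m, n, by rw [h]; simp⟩

theorem mem_pr_mul {c v : ℂ} {Λ : Lt} : v ∈ pr c * Λ ↔ ∃ w ∈ Λ, c * w = v :=
  Submodule.mem_span_singleton_mul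

theorem pr_mul_le {c : ℂ} {Λ Λ' : Lt} : pr c * Λ ≤ Λ' ↔ ∀ w ∈ Λ, c * w ∈ Λ' := by
  constructor
  · intro h w hw
    exact h (mem_pr_mul.mpr ⟨w, hw, rfl⟩)
  · intro h v hv
    obtain ⟨w, hw, rfl⟩ := mem_pr_mul.mp hv
    exact h w hw

theorem pr_mul_pr (a b : ℂ) : pr a * pr b = pr (a * b) := by
  unfold pr
  rw [Submodule.span_mul_span, Set.singleton_mul_singleton]

@[simp] theorem pr_one_mul (Λ : Lt) : pr 1 * Λ = Λ := by
  ext v
  rw [mem_pr_mul]
  simp

theorem pr_mul_sp (c a b : ℂ) : pr c * sp a b = sp (c * a) (c * b) := by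
  ext v
  rw [mem_pr_mul, mem_sp]
  constructor
  · rintro ⟨w, hw, rfl⟩
    obtain ⟨m, n, rfl⟩ := mem_sp.mp hw
    exact ⟨m, n, by ring⟩
  · rintro ⟨m, n, rfl⟩
    exact ⟨m * a + n * b, mem_sp.mpr ⟨m, n, rfl⟩, by ring⟩

theorem pr_int_le (n : ℤ) (Λ : Lt) : pr n * Λ ≤ Λ := by
  rw [pr_mul_le]
  intro w hw
  simpa using Λ.smul_mem n hw

theorem pr_mul_le_iff {c : ℂ} (hc : c ≠ 0) {Λ Λ' : Lt} : pr c * Λ ≤ pr c * Λ' ↔ Λ ≤ Λ' := by
  constructor
  · intro h w hw
    obtain ⟨w', hw', e⟩ := mem_pr_mul.mp (pr_mul_le.mp h w hw)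
    rwa [← mul_left_cancel₀ hc e]
  · intro h
    exact pr_mul_le.mpr fun w hw => mem_pr_mul.mpr ⟨w, h hw, rfl⟩

theorem isLat_sp {c : ℂ} (hc : c ≠ 0) (τ : ℍ) : IsLat (sp c (c * τ)) := ⟨c, τ, hc, rfl⟩

theorem isLat_one (τ : ℍ) : IsLat (sp 1 τ) := ⟨1, τ, one_ne_zero, by rw [one_mul]⟩

theorem int_indep_lat (τ : ℍ) {p q : ℤ} (h : (p : ℂ) * τ + q = 0) : p = 0 ∧ q = 0 := by
  have h1 := congrArg Complex.im h
  simp only [Complex.add_im, Complex.mul_im, Complex.intCast_re, Complex.intCast_im, zero_mul,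
    add_zero, Complex.zero_im, coe_im, mul_eq_zero, Int.cast_eq_zero, τ.im_pos.ne', or_false] at h1
  subst h1
  simpa using h

theorem left_mem_sp_lat (a b : ℂ) : a ∈ sp a b := mem_sp.mpr ⟨1, 0, by simp⟩

theorem right_mem_sp_lat (a b : ℂ) : b ∈ sp a b := mem_sp.mpr ⟨0, 1, by simp⟩

theorem sp_le_iff_lat {a b : ℂ} {Λ : Lt} : sp a b ≤ Λ ↔ a ∈ Λ ∧ b ∈ Λ := by
  constructor
  · exact fun h => ⟨h (left_mem_sp_lat a b), h (right_mem_sp_lat a b)⟩
  · rintro ⟨ha, hb⟩ v hv
    obtain ⟨m, n, rfl⟩ := mem_sp.mp hv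
    exact Λ.add_mem (by simpa using Λ.smul_mem m ha) (by simpa using Λ.smul_mem n hb)

theorem sl_den_ne_lat (γ : SL(2, ℤ)) (τ : ℍ) : (γ 1 0 : ℂ) * τ + γ 1 1 ≠ 0 := fun h => by
  obtain ⟨h0, h1⟩ := int_indep_lat τ h
  have := γ.det_coe
  rw [Matrix.det_fin_two, h0, h1] at this
  simp at this

theorem sl_den_mul_lat (γ : SL(2, ℤ)) (τ : ℍ) :
    ((γ 1 0 : ℂ) * τ + γ 1 1) * (γ • τ : ℍ) = (γ 0 0 : ℂ) * τ + γ 0 1 := by
  have h := sl_den_ne_lat γ τ
  rw [coe_specialLinearGroup_apply]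
  simp only [algebraMap_int_eq, eq_intCast, Complex.ofReal_intCast]
  field_simp

/-- Two oriented bases of a lattice differ by `SL₂(ℤ)`. -/
theorem exists_SL_of_sp_eq {c c' : ℂ} {τ τ' : ℍ} (hc : c ≠ 0) (hc' : c' ≠ 0)
    (h : sp c (c * τ) = sp c' (c' * τ')) :
    ∃ γ : SL(2, ℤ), τ' = γ • τ ∧ c' = c * ((γ 1 0 : ℂ) * τ + γ 1 1) := by
  obtain ⟨q, p, hpq⟩ := mem_sp.mp (h ▸ right_mem_sp_lat c' (c' * τ') : c' * τ' ∈ sp c (c * τ))
  obtain ⟨s, r, hrs⟩ := mem_sp.mp (h ▸ left_mem_sp_lat c' (c' * τ') : c' ∈ sp c (c * τ))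
  obtain ⟨q', p', hpq'⟩ := mem_sp.mp (h ▸ right_mem_sp_lat c (c * τ) : c * τ ∈ sp c' (c' * τ'))
  obtain ⟨s', r', hrs'⟩ := mem_sp.mp (h ▸ left_mem_sp_lat c (c * τ) : c ∈ sp c' (c' * τ'))
  obtain ⟨a1, a2⟩ := int_indep_lat τ (p := p' * p + q' * r - 1) (q := p' * q + q' * s) (by
    apply mul_left_cancel₀ hc
    push_cast; linear_combination -p' * hpq - q' * hrs - hpq')
  obtain ⟨a3, a4⟩ := int_indep_lat τ (p := r' * p + s' * r) (q := r' * q + s' * s - 1) (by
    apply mul_left_cancel₀ hc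
    push_cast; linear_combination -r' * hpq - s' * hrs - hrs')
  have hdet : (p * s - q * r) * (p' * s' - q' * r') = 1 := by
    linear_combination (r' * q + s' * s) * a1 + a4 - (r' * p + s' * r) * a2
  have hτ : (τ' : ℂ) * (r * τ + s) = p * τ + q := by
    apply mul_left_cancel₀ hc
    linear_combination hpq - τ' * hrs
  have hpos : 0 < p * s - q * r := by
    have h1 := congrArg Complex.re hτ
    have h2 := congrArg Complex.im hτ
    simp only [Complex.mul_re, Complex.mul_im, Complex.add_re, Complex.add_im, Complex.intCast_re,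
      Complex.intCast_im, zero_mul, sub_zero, add_zero, coe_re, coe_im] at h1 h2
    have h3 : τ'.im * ((r * τ.re + s) ^ 2 + (r * τ.im) ^ 2) = (p * s - q * r) * τ.im := by
      linear_combination (r * τ.re + s) * h2 - (r * τ.im) * h1
    have h4 : 0 ≤ ((p : ℝ) * s - q * r) * τ.im := by
      rw [← h3]; exact mul_nonneg τ'.im_pos.le (by positivity)
    have h5 : 0 ≤ (p : ℝ) * s - q * r := nonneg_of_mul_nonneg_left h4 τ.im_pos
    have h6 : 0 ≤ p * s - q * r := by exact_mod_cast h5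
    refine lt_of_le_of_ne h6 fun h7 => ?_
    rw [← h7] at hdet
    simp at hdet
  have hone : p * s - q * r = 1 := Int.eq_one_of_mul_eq_one_right hpos.le hdet
  obtain ⟨γ, hγ⟩ : ∃ γ : SL(2, ℤ), (γ : Matrix (Fin 2) (Fin 2) ℤ) = !![p, q; r, s] :=
    ⟨⟨!![p, q; r, s], by rw [Matrix.det_fin_two_of]; exact hone⟩, rfl⟩
  have g00 : γ 0 0 = p := by simp [hγ]
  have g01 : γ 0 1 = q := by simp [hγ]
  have g10 : γ 1 0 = r := by simp [hγ]
  have g11 : γ 1 1 = s := by simp [hγ]
  refine ⟨γ, ?_, ?_⟩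
  · apply UpperHalfPlane.ext
    apply mul_left_cancel₀ (sl_den_ne_lat γ τ)
    rw [sl_den_mul_lat, g00, g01, g10, g11, mul_comm, hτ]
  · rw [g10, g11]
    linear_combination hrs

theorem sp_smul (c : ℂ) (γ : SL(2, ℤ)) (τ : ℍ) :
    sp (c * ((γ 1 0 : ℂ) * τ + γ 1 1)) (c * ((γ 1 0 : ℂ) * τ + γ 1 1) * (γ • τ : ℍ)) =
      sp c (c * τ) := by
  have hd : (γ 0 0 : ℂ) * γ 1 1 - γ 0 1 * γ 1 0 = 1 := by
    have := γ.det_coe
    rw [Matrix.det_fin_two] at this
    exact_mod_cast this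
  rw [mul_assoc, sl_den_mul_lat]
  apply le_antisymm
  · exact sp_le_iff_lat.mpr ⟨mem_sp.mpr ⟨γ 1 1, γ 1 0, by ring⟩, mem_sp.mpr ⟨γ 0 1, γ 0 0, by ring⟩⟩
  · refine sp_le_iff_lat.mpr ⟨mem_sp.mpr ⟨γ 0 0, -γ 1 0, ?_⟩, mem_sp.mpr ⟨-γ 0 1, γ 1 1, ?_⟩⟩
    · push_cast; linear_combination (-c) * hd
    · push_cast; linear_combination (-c * τ) * hd

theorem jL_sp {c : ℂ} (hc : c ≠ 0) (τ : ℍ) : jL (sp c (c * τ)) = jInv τ := by
  have h := isLat_sp hc τ
  unfold jL
  rw [dif_pos h]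
  obtain ⟨h1, h2⟩ := h.choose_spec.choose_spec
  obtain ⟨γ, h3, -⟩ := exists_SL_of_sp_eq hc h1 h2
  rw [h3, jInv_smul]

theorem jL_one (τ : ℍ) : jL (sp 1 τ) = jInv τ := by
  simpa using jL_sp one_ne_zero τ

theorem dL_sp {c : ℂ} (hc : c ≠ 0) (τ : ℍ) :
    dL (sp c (c * τ)) = ModularForm.discriminant τ / c ^ 12 := by
  have h := isLat_sp hc τ
  unfold dL
  rw [dif_pos h]
  obtain ⟨h1, h2⟩ := h.choose_spec.choose_spec
  obtain ⟨γ, h3, h4⟩ := exists_SL_of_sp_eq hc h1 h2
  have h5 := sl_den_ne_lat γ τ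
  rw [h3, disc_smul, h4]
  field_simp

theorem IsLat.pr_mul {Λ : Lt} (h : IsLat Λ) {c : ℂ} (hc : c ≠ 0) : IsLat (pr c * Λ) := by
  obtain ⟨a, τ, ha, rfl⟩ := h
  exact ⟨c * a, τ, mul_ne_zero hc ha, by rw [pr_mul_sp, mul_assoc]⟩

theorem jL_pr_mul {Λ : Lt} (h : IsLat Λ) {c : ℂ} (hc : c ≠ 0) : jL (pr c * Λ) = jL Λ := by
  obtain ⟨a, τ, ha, rfl⟩ := h
  rw [pr_mul_sp, ← mul_assoc, jL_sp (mul_ne_zero hc ha), jL_sp ha]

theorem dL_pr_mul {Λ : Lt} (h : IsLat Λ) {c : ℂ} (hc : c ≠ 0) :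
    dL (pr c * Λ) = dL Λ / c ^ 12 := by
  obtain ⟨a, τ, ha, rfl⟩ := h
  rw [pr_mul_sp, ← mul_assoc, dL_sp (mul_ne_zero hc ha), dL_sp ha]
  field_simp

theorem dL_ne_zero {Λ : Lt} (h : IsLat Λ) : dL Λ ≠ 0 := by
  obtain ⟨a, τ, ha, rfl⟩ := h
  rw [dL_sp ha]
  exact div_ne_zero (ModularForm.discriminant_ne_zero τ) (pow_ne_zero _ ha)

theorem jL_inj {Λ Λ' : Lt} (h : IsLat Λ) (h' : IsLat Λ') (hj : jL Λ = jL Λ') :
    ∃ c : ℂ, c ≠ 0 ∧ Λ' = pr c * Λ := by
  obtain ⟨a, τ, ha, rfl⟩ := h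
  obtain ⟨a', τ', ha', rfl⟩ := h'
  rw [jL_sp ha, jL_sp ha'] at hj
  obtain ⟨γ, rfl⟩ := jInv_inj hj
  have h5 := sl_den_ne_lat γ τ
  refine ⟨a' / (a * ((γ 1 0 : ℂ) * τ + γ 1 1)), div_ne_zero ha' (mul_ne_zero ha h5), ?_⟩
  rw [← sp_smul a γ τ, pr_mul_sp, ← mul_assoc _ (a * _), div_mul_cancel₀ _ (mul_ne_zero ha h5)]

theorem jL_surj (z : ℂ) : ∃ Λ, IsLat Λ ∧ jL Λ = z := by
  obtain ⟨τ, rfl⟩ := jInv_surj z
  exact ⟨sp 1 τ, isLat_one τ, jL_one τ⟩

end Pool.Agent.P.MP_20768c_nt.Az.EQ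

end

end
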