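import Pool.Agent.P.MP_20768c_nt.Az.Z0
import Pool.Agent.P.MP_20768c_nt.Az.Z1

-- part ad7a55_nt.Lat2
section

/-! Lattices in ℂ. -/

set_option autoImplicit false

noncomputable section

open MeasureTheory Topology Filter UpperHalfPlane
open scoped MatrixGroups ENNReal BoundedContinuousFunction

namespace Pool.Agent.P.MP_20768c_nt.Az.EQ

theorem lat2_indep {c : ℂ} (hc : c ≠ 0) (τ : ℍ) {m n m' n' : ℤ}
    (h : (m : ℂ) * c + n * (c * τ) = m' * c + n' * (c * τ)) : m = m' ∧ n = n' := by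
  have h1 : (m : ℂ) + n * τ = m' + n' * τ := mul_left_cancel₀ hc (by linear_combination h)
  have h2 := congrArg Complex.im h1
  simp only [Complex.add_im, Complex.intCast_im, Complex.mul_im, Complex.intCast_re, zero_mul,
    add_zero, zero_add, coe_im] at h2
  have h3 : n = n' := by exact_mod_cast mul_right_cancel₀ τ.im_ne_zero h2
  subst h3
  exact ⟨by exact_mod_cast add_right_cancel h1, rfl⟩

theorem lat2_ideal (I : Ideal ℤ) {N : ℕ} (hN : 0 < N) (h : (N : ℤ) ∈ I) :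
    ∃ a : ℕ, 0 < a ∧ a ∣ N ∧ ∀ m : ℤ, m ∈ I ↔ (a : ℤ) ∣ m := by
  have hm : ∀ m : ℤ, m ∈ I ↔ ((Submodule.IsPrincipal.generator I).natAbs : ℤ) ∣ m := fun m => by
    rw [Int.natAbs_dvd]; exact Submodule.IsPrincipal.mem_iff_generator_dvd I
  have hd : (Submodule.IsPrincipal.generator I).natAbs ∣ N := by exact_mod_cast (hm N).1 h
  exact ⟨_, Nat.pos_of_dvd_of_pos hd hN, hd, hm⟩

/-- The lattice with Hermite form `(a, d, b)`. -/
def lat2H (c : ℂ) (τ : ℍ) (a d b : ℤ) : Lt := sp (a * c) (c * (d * τ + b))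

theorem lat2_sp_le {a b : ℂ} {Λ : Lt} : sp a b ≤ Λ ↔ a ∈ Λ ∧ b ∈ Λ := by
  rw [sp, Submodule.span_le, Set.insert_subset_iff, Set.singleton_subset_iff]; rfl

theorem lat2_mem {c : ℂ} (hc : c ≠ 0) (τ : ℍ) {a d b x y : ℤ} :
    (x : ℂ) * c + y * (c * τ) ∈ lat2H c τ a d b ↔ ∃ m n : ℤ, x = m * a + n * b ∧ y = n * d := by
  rw [lat2H, mem_sp]
  constructor
  · rintro ⟨m, n, h⟩
    refine ⟨m, n, lat2_indep hc τ ?_⟩
    rw [h]; push_cast; ring
  · rintro ⟨m, n, rfl, rfl⟩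
    exact ⟨m, n, by push_cast; ring⟩

theorem lat2_le {c : ℂ} (hc : c ≠ 0) (τ : ℍ) {a d b a' d' b' : ℤ} (hd : d' ≠ 0) :
    lat2H c τ a d b ≤ lat2H c τ a' d' b' ↔ a' ∣ a ∧ ∃ n : ℤ, d = n * d' ∧ a' ∣ b - n * b' := by
  have e1 : (a : ℂ) * c = (a : ℂ) * c + ((0 : ℤ) : ℂ) * (c * τ) := by simp
  have e2 : c * (d * τ + b) = (b : ℂ) * c + d * (c * τ) := by ring
  conv_lhs => rw [lat2H, lat2_sp_le, e1, e2, lat2_mem hc, lat2_mem hc]
  constructor
  · rintro ⟨⟨m, n, h1, h2⟩, m', n', h3, h4⟩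
    have hn : n = 0 := (mul_eq_zero.1 h2.symm).resolve_right hd
    subst hn
    exact ⟨⟨m, by rw [h1]; ring⟩, n', h4, m', by rw [h3]; ring⟩
  · rintro ⟨⟨m, h1⟩, n, h2, m', h3⟩
    exact ⟨⟨m, 0, by rw [h1]; ring, by ring⟩, m', n, by linear_combination h3, h2⟩

theorem lat2_top (c : ℂ) (τ : ℍ) : sp c (c * τ) = lat2H c τ 1 1 0 := by simp [lat2H]

theorem lat2_bot (c : ℂ) (τ : ℍ) (q : ℕ) : pr q * sp c (c * τ) = lat2H c τ q q 0 := by
  rw [pr_mul_sp, lat2H]; congr 1; push_cast; ring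

theorem lat2_isLat {c : ℂ} (hc : c ≠ 0) (τ : ℍ) {a d : ℕ} (ha : 0 < a) (hd : 0 < d) (b : ℤ) :
    IsLat (sp (a * c) (c * (d * τ + b))) := by
  have ha' : (a : ℂ) ≠ 0 := by exact_mod_cast ha.ne'
  have him : 0 < ((d * τ + b : ℂ) / a).im := by
    rw [Complex.div_natCast_im]
    simp only [Complex.add_im, Complex.mul_im, Complex.natCast_re, coe_im, Complex.natCast_im,
      zero_mul, add_zero, Complex.intCast_im]
    exact div_pos (mul_pos (Nat.cast_pos.2 hd) τ.im_pos) (Nat.cast_pos.2 ha)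
  refine ⟨a * c, ⟨_, him⟩, mul_ne_zero ha' hc, ?_⟩
  congr 1
  change _ = _ * ((d * τ + b : ℂ) / a)
  field_simp

/-- Hermite normal form. -/
theorem hnf {c : ℂ} (hc : c ≠ 0) (τ : ℍ) {N : ℕ} (hN : 0 < N) {Λ' : Lt}
    (h1 : pr N * sp c (c * τ) ≤ Λ') (h2 : Λ' ≤ sp c (c * τ)) :
    ∃ (a d : ℕ) (b : ℤ), 0 < a ∧ 0 < d ∧ a ∣ N ∧ d ∣ N ∧ 0 ≤ b ∧ b < a ∧
      Λ' = sp (a * c) (c * (d * τ + b)) := by
  let A : Ideal ℤ :=
    { carrier := {m | (m : ℂ) * c ∈ Λ'}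
      add_mem' := fun {x y} hx hy => by
        have := Λ'.add_mem hx hy
        simpa [add_mul] using this
      zero_mem' := by simp
      smul_mem' := fun r x hx => by
        have := Λ'.smul_mem r hx
        simpa [mul_assoc] using this }
  let D : Ideal ℤ :=
    { carrier := {n | ∃ m : ℤ, (m : ℂ) * c + n * (c * τ) ∈ Λ'}
      add_mem' := fun {x y} ⟨m, hx⟩ ⟨m', hy⟩ => ⟨m + m', by
        have := Λ'.add_mem hx hy
        convert this using 1; push_cast; ring⟩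
      zero_mem' := ⟨0, by simp⟩
      smul_mem' := fun r x ⟨m, hx⟩ => ⟨r * m, by
        have := Λ'.smul_mem r hx
        convert this using 1; simp only [smul_eq_mul, zsmul_eq_mul]; push_cast; ring⟩ }
  rw [pr_mul_sp, lat2_sp_le] at h1
  obtain ⟨a, ha, haN, hA⟩ := lat2_ideal A hN (by simpa [A] using h1.1)
  obtain ⟨d, hd, hdN, hD⟩ := lat2_ideal D hN ⟨0, by simpa using h1.2⟩
  have ha' : (a : ℤ) ≠ 0 := by exact_mod_cast ha.ne'
  have hac : (a : ℂ) * c ∈ Λ' := by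
    have : ((a : ℤ) : ℂ) * c ∈ Λ' := (hA a).2 dvd_rfl
    simpa using this
  obtain ⟨m, hm⟩ := (hD d).2 dvd_rfl
  have hb : c * (d * τ + (m % a : ℤ)) ∈ Λ' := by
    have := Λ'.sub_mem hm (Λ'.smul_mem (m / a) hac)
    convert this using 1
    rw [Int.emod_def]; simp only [zsmul_eq_mul]; push_cast; ring
  refine ⟨a, d, m % a, ha, hd, haN, hdN, Int.emod_nonneg _ ha',
    Int.emod_lt_of_pos _ (by exact_mod_cast ha), le_antisymm (fun v hv => ?_)
    (lat2_sp_le.2 ⟨hac, hb⟩)⟩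
  obtain ⟨x, y, rfl⟩ := mem_sp.1 (h2 hv)
  obtain ⟨n, rfl⟩ := (hD y).1 ⟨x, hv⟩
  have h3 : x - n * (m % a) ∈ A := by
    have := Λ'.sub_mem hv (Λ'.smul_mem n hb)
    change ((x - n * (m % a) : ℤ) : ℂ) * c ∈ Λ'
    convert this using 1
    simp only [zsmul_eq_mul]; push_cast; ring
  obtain ⟨k, hk⟩ := (hA _).1 h3
  refine mem_sp.2 ⟨k, n, ?_⟩
  have hx : x = a * k + n * (m % a) := by linear_combination hk
  generalize m % (a : ℤ) = b at hx
  rw [hx]; push_cast; ring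

theorem IsLat.of_between {Λ Λ' : Lt} (h : IsLat Λ) {N : ℕ} (hN : 0 < N) (h1 : pr N * Λ ≤ Λ')
    (h2 : pr N * Λ' ≤ Λ) : IsLat Λ' := by
  obtain ⟨c, τ, hc, rfl⟩ := h
  have hN' : (N : ℂ) ≠ 0 := by exact_mod_cast hN.ne'
  have h3 : pr ((N * N : ℕ) : ℂ) * sp c (c * τ) ≤ pr N * Λ' := by
    rw [Nat.cast_mul, ← pr_mul_pr, mul_assoc]
    exact (pr_mul_le_iff hN').2 h1
  obtain ⟨a, d, b, ha, hd, -, -, -, -, h4⟩ := hnf hc τ (Nat.mul_pos hN hN) h3 h2
  have h5 : IsLat (pr N * Λ') := h4 ▸ lat2_isLat hc τ ha hd b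
  have h6 := h5.pr_mul (inv_ne_zero hN')
  rwa [← mul_assoc, pr_mul_pr, inv_mul_cancel₀ hN', pr_one_mul] at h6

/-- The point `q τ`. -/
def mulH (q : ℕ) (hq : 0 < q) (τ : ℍ) : ℍ :=
  ⟨q * τ, by simpa using mul_pos (Nat.cast_pos.2 hq : (0 : ℝ) < q) τ.im_pos⟩

/-- The point `(τ + i) / q`. -/
def divH (q : ℕ) (hq : 0 < q) (i : ℕ) (τ : ℍ) : ℍ :=
  ⟨(τ + i) / q, by
    simpa [Complex.div_natCast_im] using div_pos τ.im_pos (Nat.cast_pos.2 hq : (0 : ℝ) < q)⟩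

@[simp] theorem coe_mulH (q : ℕ) (hq : 0 < q) (τ : ℍ) : (mulH q hq τ : ℂ) = q * τ := rfl

@[simp] theorem coe_divH (q : ℕ) (hq : 0 < q) (i : ℕ) (τ : ℍ) :
    (divH q hq i τ : ℂ) = (τ + i) / q := rfl

/-- The `q + 1` sublattices of index `q`. -/
def nbs (q : ℕ) (hq : 0 < q) (c : ℂ) (τ : ℍ) : Option (Fin q) → Lt
  | none => sp c (c * mulH q hq τ)
  | some i => sp (c * q) (c * q * divH q hq i τ)

theorem lat2_none (q : ℕ) (hq : 0 < q) (c : ℂ) (τ : ℍ) :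
    nbs q hq c τ none = lat2H c τ 1 q 0 := by simp [nbs, lat2H]

theorem lat2_some (q : ℕ) (hq : 0 < q) (c : ℂ) (τ : ℍ) (i : Fin q) :
    nbs q hq c τ (some i) = lat2H c τ q 1 (i : ℕ) := by
  have hq' : (q : ℂ) ≠ 0 := by exact_mod_cast hq.ne'
  simp only [nbs, lat2H, coe_divH]
  congr 1
  · push_cast; ring
  · push_cast; field_simp

theorem lat2_nbs_le {q : ℕ} (hq : q.Prime) {c : ℂ} (hc : c ≠ 0) (τ : ℍ) {o o' : Option (Fin q)}
    (h : nbs q hq.pos c τ o ≤ nbs q hq.pos c τ o') : o = o' := by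
  have hq0 : (q : ℤ) ≠ 0 := by exact_mod_cast hq.ne_zero
  have hq1 : ¬ (q : ℤ) ∣ 1 := fun h => hq.one_lt.ne' (Nat.dvd_one.1 (by exact_mod_cast h))
  rcases o with _ | i <;> rcases o' with _ | i'
  · rfl
  · rw [lat2_none, lat2_some, lat2_le hc τ one_ne_zero] at h
    exact absurd h.1 hq1
  · rw [lat2_none, lat2_some, lat2_le hc τ hq0] at h
    obtain ⟨-, n, h, -⟩ := h
    exact absurd ⟨n, by rw [h]; ring⟩ hq1
  · rw [lat2_some, lat2_some, lat2_le hc τ one_ne_zero] at h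
    obtain ⟨-, n, h, h'⟩ := h
    have hn : n = 1 := by linear_combination -h
    subst hn
    have h1 := i.2
    have h2 := i'.2
    have h3 := Int.eq_zero_of_abs_lt_dvd h' (abs_lt.2 ⟨by omega, by omega⟩)
    exact congrArg some (Fin.ext (by omega))

theorem nb_iff {q : ℕ} (hq : q.Prime) {c : ℂ} (hc : c ≠ 0) (τ : ℍ) (Λ' : Lt) :
    Nb q (sp c (c * τ)) Λ' ↔ ∃ o, Λ' = nbs q hq.pos c τ o := by
  have hq0 : (q : ℤ) ≠ 0 := by exact_mod_cast hq.ne_zero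
  have hq1 : ¬ (q : ℤ) ∣ 1 := fun h => hq.one_lt.ne' (Nat.dvd_one.1 (by exact_mod_cast h))
  constructor
  · rintro ⟨h1, h2⟩
    obtain ⟨a, d, b, ha, hd, haq, hdq, hb0, hba, h⟩ := hnf hc τ hq.pos h1.le h2.le
    have h' : Λ' = lat2H c τ a d b := by rw [h, lat2H]; push_cast; rfl
    rcases (Nat.dvd_prime hq).1 haq with rfl | rfl <;>
      rcases (Nat.dvd_prime hq).1 hdq with hd' | hd'
    · have hb : b = 0 := by omega
      rw [h', lat2_top, hd', hb] at h2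
      exact absurd h2 (lt_irrefl _)
    · have hb : b = 0 := by omega
      exact ⟨none, by rw [h', lat2_none, hd', hb]; rfl⟩
    · refine ⟨some ⟨b.toNat, by omega⟩, ?_⟩
      rw [h', lat2_some, hd']
      congr 1
      simp only [Int.toNat_of_nonneg hb0]
    · rw [h', lat2_bot, hd'] at h1
      obtain ⟨-, n, h3, h4⟩ := (lat2_le hc τ hq0).1 h1.le
      have hn : n = 1 := mul_right_cancel₀ hq0 (by rw [← h3, one_mul])
      subst hn
      have hb := Int.eq_zero_of_abs_lt_dvd h4 (abs_lt.2 ⟨by omega, by omega⟩)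
      have hb' : b = 0 := by omega
      rw [hb'] at h1
      exact absurd h1 (lt_irrefl _)
  · rintro ⟨o, rfl⟩
    rw [Nb, lat2_bot, lat2_top, lt_iff_le_not_ge, lt_iff_le_not_ge]
    rcases o with _ | i
    · rw [lat2_none, lat2_le hc τ hq0, lat2_le hc τ hq0, lat2_le hc τ hq0,
        lat2_le hc τ one_ne_zero]
      refine ⟨⟨⟨one_dvd _, 1, by ring, one_dvd _⟩, fun h => hq1 h.1⟩,
        ⟨one_dvd _, q, by ring, one_dvd _⟩, ?_⟩
      rintro ⟨-, n, h, -⟩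
      exact hq1 ⟨n, by rw [h]; ring⟩
    · rw [lat2_some, lat2_le hc τ hq0, lat2_le hc τ one_ne_zero, lat2_le hc τ one_ne_zero,
        lat2_le hc τ one_ne_zero]
      refine ⟨⟨⟨dvd_rfl, q, by ring, ⟨-(i : ℕ), by ring⟩⟩, ?_⟩,
        ⟨one_dvd _, 1, by ring, one_dvd _⟩, fun h => hq1 h.1⟩
      rintro ⟨-, n, h, -⟩
      exact hq1 ⟨n, by rw [h]; ring⟩

theorem nbs_inj {q : ℕ} (hq : q.Prime) {c : ℂ} (hc : c ≠ 0) (τ : ℍ) :
    Function.Injective (nbs q hq.pos c τ) := by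
  exact fun o o' h => lat2_nbs_le hq hc τ h.le

theorem Nb.isLat {q : ℕ} (hq : q.Prime) {Λ Λ' : Lt} (h : IsLat Λ) (h' : Nb q Λ Λ') :
    IsLat Λ' := by
  refine h.of_between hq.pos h'.1.le (le_trans ?_ h'.2.le)
  simpa using pr_int_le (q : ℤ) Λ'

theorem Nb.eq_of_le {q : ℕ} (hq : q.Prime) {Λ Λ₁ Λ₂ : Lt} (h : IsLat Λ) (h₁ : Nb q Λ Λ₁)
    (h₂ : Nb q Λ Λ₂) (hle : Λ₁ ≤ Λ₂) : Λ₁ = Λ₂ := by
  obtain ⟨c, τ, hc, rfl⟩ := h
  obtain ⟨o, rfl⟩ := (nb_iff hq hc τ _).1 h₁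
  obtain ⟨o', rfl⟩ := (nb_iff hq hc τ _).1 h₂
  rw [lat2_nbs_le hq hc τ hle]

theorem Nb.pr_mul {q : ℕ} {Λ Λ' : Lt} (h : Nb q Λ Λ') {c : ℂ} (hc : c ≠ 0) :
    Nb q (pr c * Λ) (pr c * Λ') := by
  obtain ⟨h1, h2⟩ := h
  rw [lt_iff_le_not_ge] at h1 h2
  rw [Nb, mul_left_comm, lt_iff_le_not_ge, lt_iff_le_not_ge]
  simpa only [pr_mul_le_iff hc] using And.intro h1 h2

theorem Ch.spec {n : ℕ} {Λ Λ' : Lt} (h : Ch n Λ Λ') (hΛ : IsLat Λ) :
    0 < n ∧ IsLat Λ' ∧ Λ' ≤ Λ ∧ pr n * Λ ≤ Λ' := by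
  induction h with
  | refl Λ => exact ⟨one_pos, hΛ, le_rfl, by simp⟩
  | @step q n Λ Λ₁ Λ' hq hnb _ ih =>
    obtain ⟨h1, h2, h3, h4⟩ := ih (hnb.isLat hq hΛ)
    refine ⟨Nat.mul_pos hq.pos h1, h2, h3.trans hnb.2.le, le_trans ?_ h4⟩
    have hn : (n : ℂ) ≠ 0 := by exact_mod_cast h1.ne'
    rw [Nat.cast_mul, mul_comm (q : ℂ), ← pr_mul_pr, mul_assoc]
    exact (pr_mul_le_iff hn).2 hnb.1.le

theorem Ch.trans {m n : ℕ} {Λ Λ₁ Λ' : Lt} (h : Ch m Λ Λ₁) (h' : Ch n Λ₁ Λ') :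
    Ch (m * n) Λ Λ' := by
  induction h with
  | refl Λ => rwa [one_mul]
  | step hq hnb _ ih => rw [mul_assoc]; exact Ch.step hq hnb (ih h')

theorem lat2_ch_a (a : ℕ) : 0 < a → ∀ (c : ℂ), c ≠ 0 → ∀ (τ : ℍ) (b : ℤ),
    Ch a (sp c (c * τ)) (lat2H c τ a 1 b) := by
  induction a using induction_on_primes with
  | zero => exact fun h => absurd h (lt_irrefl _)
  | one =>
    intro _ c hc τ b
    have : lat2H c τ (1 : ℕ) 1 b = sp c (c * τ) := by
      rw [lat2_top]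
      exact le_antisymm ((lat2_le hc τ one_ne_zero).2 ⟨one_dvd _, 1, by ring, one_dvd _⟩)
        ((lat2_le hc τ one_ne_zero).2 ⟨by simp, 1, by ring, by simp⟩)
    rw [this]; exact Ch.refl _
  | prime_mul q a hq ih =>
    intro h c hc τ b
    have ha : 0 < a := Nat.pos_of_mul_pos_left h
    have hq0 : (q : ℤ) ≠ 0 := by exact_mod_cast hq.ne_zero
    have hq' : (q : ℂ) ≠ 0 := by exact_mod_cast hq.ne_zero
    have h1 := Int.emod_nonneg b hq0
    have h2 := Int.emod_lt_of_pos b (show (0 : ℤ) < q by exact_mod_cast hq.pos)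
    let i : Fin q := ⟨(b % q).toNat, by omega⟩
    have hi : (((i : ℕ) : ℤ) : ℂ) = b - q * ((b / q : ℤ) : ℂ) := by
      have : ((i : ℕ) : ℤ) = b - q * (b / q) := by
        rw [← Int.emod_def]; exact Int.toNat_of_nonneg h1
      rw [this]; push_cast; ring
    refine Ch.step hq ((nb_iff hq hc τ _).2 ⟨some i, rfl⟩) ?_
    have h3 := ih ha (c * q) (mul_ne_zero hc hq') (divH q hq.pos i τ) (b / q)
    convert h3 using 1
    · rfl
    · simp only [lat2H, coe_divH]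
      congr 1
      · push_cast; ring
      · rw [Int.cast_natCast] at hi
        rw [hi]; push_cast; field_simp; ring

theorem lat2_ch {a : ℕ} (ha : 0 < a) (d : ℕ) : 0 < d → ∀ (c : ℂ), c ≠ 0 → ∀ (τ : ℍ) (b : ℤ),
    Ch (d * a) (sp c (c * τ)) (lat2H c τ a d b) := by
  induction d using induction_on_primes with
  | zero => exact fun h => absurd h (lt_irrefl _)
  | one =>
    intro _ c hc τ b
    rw [one_mul]
    exact lat2_ch_a a ha c hc τ b
  | prime_mul q d hq ih =>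
    intro h c hc τ b
    have hd : 0 < d := Nat.pos_of_mul_pos_left h
    rw [mul_assoc]
    refine Ch.step hq ((nb_iff hq hc τ _).2 ⟨none, rfl⟩) ?_
    have h3 := ih hd c hc (mulH q hq.pos τ) b
    convert h3 using 1
    · rfl
    · simp only [lat2H, coe_mulH]
      congr 1
      push_cast; ring

theorem exists_ch {Λ Λ' : Lt} (h : IsLat Λ) {N : ℕ} (hN : 0 < N) (h1 : pr N * Λ ≤ Λ')
    (h2 : Λ' ≤ Λ) : ∃ n, n ∣ N ^ 2 ∧ Ch n Λ Λ' := by
  obtain ⟨c, τ, hc, rfl⟩ := h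
  obtain ⟨a, d, b, ha, hd, haN, hdN, -, -, h⟩ := hnf hc τ hN h1 h2
  have h' : Λ' = lat2H c τ a d b := by rw [h, lat2H]; push_cast; rfl
  exact ⟨d * a, by rw [sq]; exact mul_dvd_mul hdN haN, h' ▸ lat2_ch ha d hd c hc τ b⟩

end Pool.Agent.P.MP_20768c_nt.Az.EQ

end

end

-- part ad7a55_nt.IntQ
section

/-! Functions with integral q-expansions. -/

set_option autoImplicit false

noncomputable section

open MeasureTheory Topology Filter UpperHalfPlane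
open scoped MatrixGroups ENNReal BoundedContinuousFunction

namespace Pool.Agent.P.MP_20768c_nt.Az.EQ

/-- The parameter `e^{2πiτ}`. -/
def qq (τ : ℍ) : ℂ := Complex.exp (2 * Real.pi * Complex.I * τ)

/-- `f` has a convergent `q`-expansion with integer coefficients. -/
def IntQ (f : ℍ → ℂ) : Prop := ∃ a : ℕ → ℤ, ∀ τ, HasSum (fun n => (a n : ℂ) * qq τ ^ n) (f τ)

/-- The power series `A` converges at `x` to `y`. -/
def IntqRep (A : PowerSeries ℤ) (x y : ℂ) : Prop :=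
  HasSum (fun n => ((PowerSeries.coeff n A : ℤ) : ℂ) * x ^ n) y

theorem intq_congr {f g : ℕ → ℂ} {y : ℂ} (h : HasSum f y) (e : ∀ n, g n = f n) : HasSum g y :=
  (funext e : g = f) ▸ h

theorem intq_iff {f : ℍ → ℂ} : IntQ f ↔ ∃ A, ∀ τ, IntqRep A (qq τ) (f τ) :=
  ⟨fun ⟨a, h⟩ => ⟨PowerSeries.mk a, fun τ => by simpa [IntqRep] using h τ⟩,
    fun ⟨A, h⟩ => ⟨fun n => PowerSeries.coeff n A, h⟩⟩

theorem IntqRep.add {A B : PowerSeries ℤ} {x y z : ℂ} (h : IntqRep A x y) (h' : IntqRep B x z) :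
    IntqRep (A + B) x (y + z) := by
  have := HasSum.add h h'
  simpa [IntqRep, add_mul] using this

theorem IntqRep.sub {A B : PowerSeries ℤ} {x y z : ℂ} (h : IntqRep A x y) (h' : IntqRep B x z) :
    IntqRep (A - B) x (y - z) := by
  have := HasSum.sub h h'
  simpa [IntqRep, sub_mul] using this

theorem IntqRep.mul {A B : PowerSeries ℤ} {x y z : ℂ} (h : IntqRep A x y) (h' : IntqRep B x z) :
    IntqRep (A * B) x (y * z) := by
  have h1 := summable_norm_iff.2 (HasSum.summable h)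
  have h2 := summable_norm_iff.2 (HasSum.summable h')
  have h3 := (summable_norm_sum_mul_antidiagonal_of_summable_norm h1 h2).of_norm.hasSum
  rw [← tsum_mul_tsum_eq_tsum_sum_antidiagonal_of_summable_norm h1 h2, HasSum.tsum_eq h,
    HasSum.tsum_eq h'] at h3
  refine intq_congr h3 fun n => ?_
  rw [PowerSeries.coeff_mul]
  push_cast
  rw [Finset.sum_mul]
  refine Finset.sum_congr rfl fun kl hkl => ?_
  rw [← Finset.HasAntidiagonal.mem_antidiagonal.1 hkl]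
  ring

theorem intq_monomial (k : ℕ) (m : ℤ) (x : ℂ) :
    IntqRep (PowerSeries.monomial k m) x (m * x ^ k) := by
  have := hasSum_single (f := fun n =>
    ((PowerSeries.coeff n (PowerSeries.monomial k m) : ℤ) : ℂ) * x ^ n) k fun n hn => by
      simp [PowerSeries.coeff_monomial, hn]
  simpa [IntqRep] using this

theorem IntqRep.pow {A : PowerSeries ℤ} {x y : ℂ} (h : IntqRep A x y) (n : ℕ) :
    IntqRep (A ^ n) x (y ^ n) := by
  induction n with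
  | zero => simpa using intq_monomial 0 1 x
  | succ n ih => rw [pow_succ, pow_succ]; exact ih.mul h

theorem IntqRep.expand {A : PowerSeries ℤ} {x y : ℂ} {q : ℕ} (hq : q ≠ 0)
    (h : IntqRep A (x ^ q) y) : IntqRep (PowerSeries.expand q hq A) x y := by
  have hi : Function.Injective fun m : ℕ => q * m := mul_right_injective₀ hq
  refine (hi.hasSum_iff fun n hn => ?_).1 ?_
  · rw [PowerSeries.coeff_expand_of_not_dvd q hq A fun ⟨m, hm⟩ => hn ⟨m, hm.symm⟩]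
    simp
  · simpa [Function.comp_def, pow_mul, IntqRep] using h

theorem intq_dvd (A : PowerSeries ℤ) {q : ℕ} (hq : q.Prime) (n : ℕ) :
    (q : ℤ) ∣ PowerSeries.coeff n (A ^ q - PowerSeries.expand q hq.ne_zero A) := by
  have := Fact.mk hq
  rw [← ZMod.intCast_zmod_eq_zero_iff_dvd]
  have h1 := MvPowerSeries.map_frobenius_expand q hq.ne_zero
    (f := PowerSeries.map (Int.castRingHom (ZMod q)) A)
  rw [ZMod.frobenius_zmod, MvPowerSeries.map_id] at h1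
  have h2 : PowerSeries.map (Int.castRingHom (ZMod q))
      (A ^ q - PowerSeries.expand q hq.ne_zero A) = 0 := by
    rw [map_sub, map_pow, PowerSeries.map_expand, sub_eq_zero]
    exact h1.symm
  have h3 := congrArg (PowerSeries.coeff n) h2
  rwa [PowerSeries.coeff_map, map_zero] at h3

theorem IntQ.add {f g : ℍ → ℂ} (hf : IntQ f) (hg : IntQ g) : IntQ fun τ => f τ + g τ := by
  obtain ⟨A, hA⟩ := intq_iff.1 hf
  obtain ⟨B, hB⟩ := intq_iff.1 hg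
  exact intq_iff.2 ⟨_, fun τ => (hA τ).add (hB τ)⟩

theorem IntQ.sub {f g : ℍ → ℂ} (hf : IntQ f) (hg : IntQ g) : IntQ fun τ => f τ - g τ := by
  obtain ⟨A, hA⟩ := intq_iff.1 hf
  obtain ⟨B, hB⟩ := intq_iff.1 hg
  exact intq_iff.2 ⟨_, fun τ => (hA τ).sub (hB τ)⟩

theorem IntQ.mul {f g : ℍ → ℂ} (hf : IntQ f) (hg : IntQ g) : IntQ fun τ => f τ * g τ := by
  obtain ⟨A, hA⟩ := intq_iff.1 hf
  obtain ⟨B, hB⟩ := intq_iff.1 hg
  exact intq_iff.2 ⟨_, fun τ => (hA τ).mul (hB τ)⟩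

theorem intQ_int (m : ℤ) : IntQ fun _ => m :=
  intq_iff.2 ⟨_, fun τ => by simpa using intq_monomial 0 m (qq τ)⟩

theorem intQ_qq : IntQ qq :=
  intq_iff.2 ⟨_, fun τ => by simpa using intq_monomial 1 1 (qq τ)⟩

theorem IntQ.pow {f : ℍ → ℂ} (hf : IntQ f) (n : ℕ) : IntQ fun τ => f τ ^ n := by
  obtain ⟨A, hA⟩ := intq_iff.1 hf
  exact intq_iff.2 ⟨_, fun τ => (hA τ).pow n⟩

theorem qq_mulH (q : ℕ) (hq : 0 < q) (τ : ℍ) : qq (mulH q hq τ) = qq τ ^ q := by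
  rw [qq, qq, coe_mulH, ← Complex.exp_nat_mul]
  congr 1
  ring

theorem IntQ.mulH {f : ℍ → ℂ} (hf : IntQ f) (q : ℕ) (hq : 0 < q) :
    IntQ fun τ => f (mulH q hq τ) := by
  obtain ⟨A, hA⟩ := intq_iff.1 hf
  refine intq_iff.2 ⟨PowerSeries.expand q hq.ne' A, fun τ => IntqRep.expand hq.ne' ?_⟩
  rw [← qq_mulH q hq]
  exact hA _

theorem intq_root_sum {q : ℕ} {ζ : ℂ} (hζ : IsPrimitiveRoot ζ q) {n : ℕ} (hn : ¬ q ∣ n) :
    ∑ i : Fin q, (ζ ^ (i : ℕ)) ^ n = 0 := by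
  have h1 : ζ ^ n - 1 ≠ 0 := sub_ne_zero.2 fun h => hn ((hζ.pow_eq_one_iff_dvd n).1 h)
  have h2 := geom_sum_mul (ζ ^ n) q
  rw [← pow_mul, mul_comm n q, pow_mul, hζ.pow_eq_one, one_pow, sub_self] at h2
  rw [← (mul_eq_zero.1 h2).resolve_right h1, Finset.sum_range]
  exact Finset.sum_congr rfl fun i _ => by rw [← pow_mul, ← pow_mul, mul_comm]

theorem IntQ.trace {f : ℍ → ℂ} (hf : IntQ f) (q : ℕ) (hq : 0 < q) :
    IntQ fun τ => ∑ i : Fin q, f (divH q hq i τ) := by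
  obtain ⟨a, ha⟩ := hf
  refine ⟨fun m => q * a (q * m), fun τ => ?_⟩
  have hq0 : (q : ℂ) ≠ 0 := Nat.cast_ne_zero.2 hq.ne'
  have hζ := Complex.isPrimitiveRoot_exp q hq.ne'
  set ζ := Complex.exp (2 * Real.pi * Complex.I / q)
  set x := Complex.exp (2 * Real.pi * Complex.I * τ / q) with hx
  have h1 : ∀ i : ℕ, qq (divH q hq i τ) = x * ζ ^ i := fun i => by
    rw [qq, coe_divH, ← Complex.exp_nat_mul, ← Complex.exp_add]
    congr 1
    ring
  have h2 : x ^ q = qq τ := by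
    rw [qq, hx, ← Complex.exp_nat_mul]
    congr 1
    field_simp
  have h3 := hasSum_sum (s := Finset.univ) fun (i : Fin q) _ => ha (divH q hq i τ)
  have h4 : ∀ n, ∑ i : Fin q, (a n : ℂ) * qq (divH q hq i τ) ^ n =
      a n * x ^ n * ∑ i : Fin q, (ζ ^ (i : ℕ)) ^ n := fun n => by
    rw [Finset.mul_sum]
    exact Finset.sum_congr rfl fun i _ => by rw [h1, mul_pow, mul_assoc]
  simp only [h4] at h3
  have hi : Function.Injective fun m : ℕ => q * m := mul_right_injective₀ hq.ne'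
  have h5 := (hi.hasSum_iff fun n hn => by
    rw [intq_root_sum hζ fun ⟨m, hm⟩ => hn ⟨m, hm.symm⟩, mul_zero]).2 h3
  convert h5 using 2 with m
  have h6 : ∀ i : Fin q, (ζ ^ (i : ℕ)) ^ (q * m) = 1 := fun i => by
    rw [← pow_mul, mul_left_comm, pow_mul, hζ.pow_eq_one, one_pow]
  simp only [Function.comp_apply, h6, pow_mul x, h2, Finset.sum_const, Finset.card_univ,
    Fintype.card_fin, nsmul_eq_mul, mul_one]
  push_cast
  ring

/-- The Frobenius congruence. -/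
theorem IntQ.frob {f : ℍ → ℂ} (hf : IntQ f) {q : ℕ} (hq : q.Prime) :
    IntQ fun τ => (f τ ^ q - f (Pool.Agent.P.MP_20768c_nt.Az.EQ.mulH q hq.pos τ)) / q := by
  obtain ⟨A, hA⟩ := intq_iff.1 hf
  choose b hb using intq_dvd A hq
  refine ⟨b, fun τ => ?_⟩
  have h1 : IntqRep (PowerSeries.expand q hq.ne_zero A) (qq τ)
      (f (Pool.Agent.P.MP_20768c_nt.Az.EQ.mulH q hq.pos τ)) := by
    refine IntqRep.expand _ ?_
    rw [← qq_mulH q hq.pos]
    exact hA _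
  have h2 := HasSum.div_const (((hA τ).pow q).sub h1) (q : ℂ)
  have hq0 : (q : ℂ) ≠ 0 := Nat.cast_ne_zero.2 hq.ne_zero
  refine intq_congr h2 fun n => ?_
  rw [hb n]
  push_cast
  field_simp

theorem IntQ.periodic {f : ℍ → ℂ} (hf : IntQ f) {τ τ' : ℍ} {n : ℤ} (h : (τ' : ℂ) = τ + n) :
    f τ' = f τ := by
  obtain ⟨a, ha⟩ := hf
  have h1 : qq τ' = qq τ := by
    rw [qq, qq, h, mul_add, Complex.exp_add, mul_comm _ (n : ℂ),
      Complex.exp_int_mul_two_pi_mul_I, mul_one]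
  exact (ha τ').unique (h1 ▸ ha τ)

end Pool.Agent.P.MP_20768c_nt.Az.EQ

end

end

-- part ad7a55_nt.Ord
section

/-! Imaginary quadratic orders and their invertible modules. -/

set_option autoImplicit false

noncomputable section

open MeasureTheory Topology Filter UpperHalfPlane
open scoped MatrixGroups ENNReal BoundedContinuousFunction

namespace Pool.Agent.P.MP_20768c_nt.Az.EQ

/-- `√D` for negative `D`. -/
def th (D : ℤ) : ℂ := Complex.I * (Real.sqrt (-(D : ℝ)) : ℝ)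

/-- The order of discriminant `D`. -/
def OD (D : ℤ) : Lt := sp 1 ((D + th D) / 2)

/-- `D` is a negative discriminant. -/
def IsD (D : ℤ) : Prop := D < 0 ∧ (D % 4 = 0 ∨ D % 4 = 1)

/-- `Λ` is a lattice with complex multiplication of discriminant `D`. -/
def DiscL (Λ : Lt) (D : ℤ) : Prop := ∃ (c : ℂ) (τ : ℍ), c ≠ 0 ∧ Λ = sp c (c * τ) ∧ HasDisc τ D

/-- The complex conjugate subgroup. -/
def cj (Λ : Lt) : Lt := Λ.map (starRingEnd ℂ).toAddMonoidHom.toIntLinearMap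

theorem mem_cj {Λ : Lt} {v : ℂ} : v ∈ cj Λ ↔ starRingEnd ℂ v ∈ Λ := by
  constructor
  · rintro ⟨w, hw, rfl⟩
    simpa using hw
  · intro h
    exact ⟨_, h, by simp⟩

theorem cj_cj (Λ : Lt) : cj (cj Λ) = Λ := by
  ext v
  rw [mem_cj, mem_cj, Complex.conj_conj]

theorem cj_mul (Λ Λ' : Lt) : cj (Λ * Λ') = cj Λ * cj Λ' := by
  apply le_antisymm
  · rw [cj, Submodule.map_le_iff_le_comap, Submodule.mul_le]
    intro m hm n hn
    rw [Submodule.mem_comap]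
    change starRingEnd ℂ (m * n) ∈ _
    rw [map_mul]
    exact Submodule.mul_mem_mul (mem_cj.2 (by simpa using hm)) (mem_cj.2 (by simpa using hn))
  · rw [Submodule.mul_le]
    intro m hm n hn
    rw [mem_cj, map_mul]
    exact Submodule.mul_mem_mul (mem_cj.1 hm) (mem_cj.1 hn)

theorem cj_pr (c : ℂ) : cj (pr c) = pr (starRingEnd ℂ c) := by
  rw [cj, pr, Submodule.map_span, Set.image_singleton]
  rfl

theorem cj_sp (a b : ℂ) : cj (sp a b) = sp (starRingEnd ℂ a) (starRingEnd ℂ b) := by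
  rw [cj, sp, Submodule.map_span, Set.image_pair]
  rfl

theorem th_sq {D : ℤ} (hD : D ≤ 0) : th D ^ 2 = D := by
  have h : (0 : ℝ) ≤ -(D : ℝ) := by
    have : (D : ℝ) ≤ 0 := by exact_mod_cast hD
    linarith
  rw [th, mul_pow, Complex.I_sq, ← Complex.ofReal_pow, Real.sq_sqrt h]
  simp

theorem conj_th (D : ℤ) : starRingEnd ℂ (th D) = -th D := by
  rw [th, map_mul, Complex.conj_I, Complex.conj_ofReal, neg_mul]

theorem th_mul_sq (f : ℕ) (D : ℤ) : th (f ^ 2 * D) = f * th D := by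
  have h : -(((f : ℤ) ^ 2 * D : ℤ) : ℝ) = (f : ℝ) ^ 2 * -(D : ℝ) := by
    push_cast
    ring
  rw [th, th, h, Real.sqrt_mul (sq_nonneg _), Real.sqrt_sq (Nat.cast_nonneg f)]
  push_cast
  ring

theorem ord_parts {τ : ℍ} {a b c : ℤ} (h : (a : ℂ) * (τ : ℂ) ^ 2 + b * τ + c = 0) :
    2 * (a : ℝ) * τ.re + b = 0 ∧ -((b ^ 2 - 4 * a * c : ℤ) : ℝ) = (2 * a * τ.im) ^ 2 := by
  have h1 := congrArg Complex.im h
  have h2 := congrArg Complex.re h
  simp [pow_two] at h1 h2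
  have h3 : 2 * (a : ℝ) * τ.re + b = 0 := by
    have : (2 * (a : ℝ) * τ.re + b) * τ.im = 0 := by linarith
    exact (mul_eq_zero.1 this).resolve_right τ.im_pos.ne'
  refine ⟨h3, ?_⟩
  push_cast
  linear_combination (4 * (a : ℝ)) * h2 - (2 * (a : ℝ) * τ.re + b) * h3

theorem HasDisc.isD {τ : ℍ} {D : ℤ} (h : HasDisc τ D) : IsD D := by
  obtain ⟨a, b, c, ha, -, h, rfl⟩ := h
  constructor
  · have h1 := (ord_parts h).2
    have h2 : (0 : ℝ) < (2 * a * τ.im) ^ 2 := by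
      have : (0 : ℝ) < a := by exact_mod_cast ha
      have := τ.im_pos
      positivity
    have h3 : ((b ^ 2 - 4 * a * c : ℤ) : ℝ) < 0 := by linarith
    exact_mod_cast h3
  · rcases Int.even_or_odd' b with ⟨k, rfl | rfl⟩
    · left
      have : (2 * k) ^ 2 - 4 * a * c = 4 * (k ^ 2 - a * c) := by ring
      rw [this]
      omega
    · right
      have : (2 * k + 1) ^ 2 - 4 * a * c = 4 * (k ^ 2 + k - a * c) + 1 := by ring
      rw [this]
      omega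

/-- The formula for the root. -/
theorem HasDisc.root {τ : ℍ} {a b c : ℤ} (ha : 0 < a)
    (h : (a : ℂ) * (τ : ℂ) ^ 2 + b * τ + c = 0) : 2 * a * (τ : ℂ) + b = th (b ^ 2 - 4 * a * c) := by
  obtain ⟨h1, h2⟩ := ord_parts h
  have h3 : (0 : ℝ) ≤ 2 * a * τ.im := by
    have : (0 : ℝ) < a := by exact_mod_cast ha
    have := τ.im_pos
    positivity
  rw [th, h2, Real.sqrt_sq h3]
  apply Complex.ext
  · simpa using h1
  · simp

theorem DiscL.isLat {Λ : Lt} {D : ℤ} (h : DiscL Λ D) : IsLat Λ := by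
  obtain ⟨c, τ, hc, rfl, -⟩ := h
  exact isLat_sp hc τ

theorem DiscL.isD {Λ : Lt} {D : ℤ} (h : DiscL Λ D) : IsD D := by
  obtain ⟨c, τ, -, -, h⟩ := h
  exact h.isD

theorem discL_one {τ : ℍ} {D : ℤ} (h : HasDisc τ D) : DiscL (sp 1 τ) D :=
  ⟨1, τ, one_ne_zero, by rw [one_mul], h⟩

theorem DiscL.pr_mul {Λ : Lt} {D : ℤ} (h : DiscL Λ D) {c : ℂ} (hc : c ≠ 0) :
    DiscL (pr c * Λ) D := by
  obtain ⟨c', τ, hc', rfl, h⟩ := h
  exact ⟨c * c', τ, mul_ne_zero hc hc', by rw [pr_mul_sp, mul_assoc], h⟩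

theorem ord_left (a b : ℂ) : a ∈ sp a b := mem_sp.2 ⟨1, 0, by simp⟩

theorem ord_right (a b : ℂ) : b ∈ sp a b := mem_sp.2 ⟨0, 1, by simp⟩

theorem ord_sp_le {a b : ℂ} {Λ : Lt} : sp a b ≤ Λ ↔ a ∈ Λ ∧ b ∈ Λ := by
  rw [sp, Submodule.span_le, Set.insert_subset_iff, Set.singleton_subset_iff]
  rfl

theorem ord_sp_neg (a b : ℂ) : sp a (-b) = sp a b := by
  apply le_antisymm
  · exact ord_sp_le.2 ⟨ord_left _ _, neg_mem (ord_right _ _)⟩
  · exact ord_sp_le.2 ⟨ord_left _ _, by simpa using neg_mem (ord_right a (-b))⟩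

theorem ord_sp_add (a b : ℂ) (k : ℤ) : sp a (b + k * a) = sp a b := by
  apply le_antisymm
  · exact ord_sp_le.2 ⟨ord_left _ _, mem_sp.2 ⟨k, 1, by push_cast; ring⟩⟩
  · exact ord_sp_le.2 ⟨ord_left _ _, mem_sp.2 ⟨-k, 1, by push_cast; ring⟩⟩

theorem ord_indep (τ : ℍ) {m n : ℤ} (h : (m : ℂ) + n * τ = 0) : m = 0 ∧ n = 0 := by
  have h1 := congrArg Complex.im h
  simp at h1
  have hn : n = 0 := h1.resolve_right τ.im_pos.ne'
  subst hn
  simpa using h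

theorem ord_OD_eq {τ : ℍ} {a b c : ℤ} (ha : 0 < a)
    (h : (a : ℂ) * (τ : ℂ) ^ 2 + b * τ + c = 0) : OD (b ^ 2 - 4 * a * c) = sp 1 (a * τ) := by
  have h1 := HasDisc.root ha h
  obtain ⟨k, hk⟩ : ∃ k : ℤ, b ^ 2 - 4 * a * c + b = 2 * k := by
    obtain ⟨l, hl⟩ := Int.even_mul_succ_self b
    exact ⟨l - 2 * a * c, by linear_combination hl⟩
  have hk' : ((b ^ 2 - 4 * a * c : ℤ) : ℂ) + b = 2 * k := by exact_mod_cast hk
  rw [OD, ← h1, ← ord_sp_add 1 (a * τ) k]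
  congr 1
  linear_combination (1 / 2 : ℂ) * hk'

theorem ord_bezout {a b c : ℤ} (h : Int.gcd (Int.gcd a b) c = 1) :
    ∃ u v w : ℤ, u * a + v * b + w * c = 1 := by
  have h1 := Int.gcd_eq_gcd_ab a b
  have h2 := Int.gcd_eq_gcd_ab (Int.gcd a b) c
  rw [h] at h2
  refine ⟨Int.gcdA a b * Int.gcdA (Int.gcd a b) c, Int.gcdB a b * Int.gcdA (Int.gcd a b) c,
    Int.gcdB (Int.gcd a b) c, ?_⟩
  push_cast at h2
  linear_combination (-1 : ℤ) * h2 - Int.gcdA (Int.gcd a b) c * h1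

theorem ord_conj {τ : ℍ} {a b c : ℤ} (ha : 0 < a)
    (h : (a : ℂ) * (τ : ℂ) ^ 2 + b * τ + c = 0) :
    (a : ℂ) * starRingEnd ℂ τ = -b - a * τ := by
  have h1 := HasDisc.root ha h
  have h2 := congrArg (starRingEnd ℂ) h1
  rw [conj_th, ← h1] at h2
  simp only [map_add, map_mul, map_intCast, map_ofNat] at h2
  linear_combination (1 / 2 : ℂ) * h2

theorem DiscL.cj {Λ : Lt} {D : ℤ} (h : DiscL Λ D) : DiscL (cj Λ) D := by
  obtain ⟨c', τ, hc', rfl, a, b, c, ha, hg, h, rfl⟩ := h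
  refine ⟨starRingEnd ℂ c', ⟨-starRingEnd ℂ τ, by simpa using τ.im_pos⟩, by simpa using hc', ?_,
    a, -b, c, ha, by simpa using hg, ?_, by ring⟩
  · rw [cj_sp, map_mul, ← ord_sp_neg]
    congr 1
    change _ = starRingEnd ℂ c' * -starRingEnd ℂ τ
    ring
  · have h2 := congrArg (starRingEnd ℂ) h
    simp only [map_add, map_mul, map_intCast, map_pow, map_zero] at h2
    change (a : ℂ) * (-starRingEnd ℂ τ) ^ 2 + ((-b : ℤ) : ℂ) * -starRingEnd ℂ τ + c = 0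
    push_cast
    linear_combination h2

theorem one_mem_OD (D : ℤ) : (1 : ℂ) ∈ OD D := by
  exact ord_left _ _

theorem th_mem_OD (D : ℤ) : th D ∈ OD D := by
  exact mem_sp.2 ⟨-D, 2, by push_cast; ring⟩

theorem cj_OD (D : ℤ) : cj (OD D) = OD D := by
  rw [OD, cj_sp, map_one, ← ord_sp_neg, ← ord_sp_add 1 _ D]
  congr 1
  simp only [map_div₀, map_add, map_intCast, map_ofNat, conj_th]
  ring

theorem discL_OD {D : ℤ} (hD : IsD D) : DiscL (OD D) D := by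
  obtain ⟨h0, h4⟩ := hD
  obtain ⟨k, hk⟩ : ∃ k : ℤ, D ^ 2 - D = 4 * k := by
    rcases h4 with h4 | h4
    · obtain ⟨l, rfl⟩ : ∃ l, D = 4 * l := ⟨D / 4, by omega⟩
      exact ⟨4 * l ^ 2 - l, by ring⟩
    · obtain ⟨l, rfl⟩ : ∃ l, D = 4 * l + 1 := ⟨D / 4, by omega⟩
      exact ⟨4 * l ^ 2 + l, by ring⟩
  have hpos : 0 < (((D : ℂ) + th D) / 2).im := by
    have h1 : (0 : ℝ) < -(D : ℝ) := by
      have : (D : ℝ) < 0 := by exact_mod_cast h0
      linarith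
    have h2 := Real.sqrt_pos.2 h1
    simpa [th] using h2
  refine ⟨1, ⟨_, hpos⟩, one_ne_zero, by rw [one_mul]; rfl, 1, -D, k, one_pos, by simp, ?_,
    by linear_combination (-1 : ℤ) * hk⟩
  have hk' : (D : ℂ) ^ 2 - D = 4 * k := by exact_mod_cast hk
  have ht := th_sq h0.le
  change ((1 : ℤ) : ℂ) * (((D : ℂ) + th D) / 2) ^ 2 + ((-D : ℤ) : ℂ) * (((D : ℂ) + th D) / 2) + k = 0
  push_cast
  linear_combination (1 / 4 : ℂ) * ht - (1 / 4 : ℂ) * hk'

/-- The ring of multipliers. -/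
theorem DiscL.end_iff {Λ : Lt} {D : ℤ} (h : DiscL Λ D) (x : ℂ) : pr x * Λ ≤ Λ ↔ x ∈ OD D := by
  obtain ⟨c', τ, hc', rfl, a, b, c, ha, hg, h, rfl⟩ := h
  rw [ord_OD_eq ha h, pr_mul_sp, ord_sp_le]
  constructor
  · rintro ⟨h1, h2⟩
    obtain ⟨m, n, h1⟩ := mem_sp.1 h1
    obtain ⟨m', n', h2⟩ := mem_sp.1 h2
    have e1 : x = m + n * τ := mul_right_cancel₀ hc' (by linear_combination h1)
    have e2 : x * τ = m' + n' * τ := mul_right_cancel₀ hc' (by linear_combination h2)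
    have e3 : ((a * m' + n * c : ℤ) : ℂ) + ((a * n' - a * m + n * b : ℤ) : ℂ) * τ = 0 := by
      push_cast
      linear_combination (-(a : ℂ)) * e2 + (a : ℂ) * τ * e1 + (n : ℂ) * h
    obtain ⟨f1, f2⟩ := ord_indep τ e3
    obtain ⟨u, v, w, huv⟩ := ord_bezout hg
    have e4 : n = (u * n + v * (m - n') - w * m') * a := by
      linear_combination (-n) * huv + v * f2 + w * f1
    have e5 : (n : ℂ) = (u * n + v * (m - n') - w * m') * a := by exact_mod_cast e4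
    refine mem_sp.2 ⟨m, u * n + v * (m - n') - w * m', ?_⟩
    push_cast
    linear_combination e1 + (τ : ℂ) * e5
  · intro hx
    obtain ⟨m, n, rfl⟩ := mem_sp.1 hx
    refine ⟨mem_sp.2 ⟨m, n * a, by push_cast; ring⟩, mem_sp.2 ⟨-(n * c), m - n * b, ?_⟩⟩
    push_cast
    linear_combination (n : ℂ) * c' * h

theorem DiscL.OD_mul {Λ : Lt} {D : ℤ} (h : DiscL Λ D) : OD D * Λ = Λ := by
  apply le_antisymm
  · rw [Submodule.mul_le]
    intro m hm n hn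
    exact pr_mul_le.1 ((h.end_iff m).2 hm) n hn
  · intro v hv
    simpa using Submodule.mul_mem_mul (one_mem_OD D) hv

/-- Invertibility. -/
theorem DiscL.mul_cj {Λ : Lt} {D : ℤ} (h : DiscL Λ D) :
    ∃ c : ℂ, c ≠ 0 ∧ Λ * Pool.Agent.P.MP_20768c_nt.Az.EQ.cj Λ = pr c * OD D := by
  obtain ⟨c', τ, hc', rfl, a, b, c, ha, hg, h, rfl⟩ := h
  have ha' : (a : ℂ) ≠ 0 := by exact_mod_cast ha.ne'
  have hc'' : starRingEnd ℂ c' ≠ 0 := by simpa using hc'
  have hj := ord_conj ha h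
  obtain ⟨t, ht⟩ : ∃ t : ℂ, c' * starRingEnd ℂ c' = t * a := ⟨c' * starRingEnd ℂ c' / a, by field_simp⟩
  have ht0 : t ≠ 0 := by
    rintro rfl
    exact mul_ne_zero hc' hc'' (by simpa using ht)
  refine ⟨t, ht0, ?_⟩
  rw [ord_OD_eq ha h, pr_mul_sp, cj_sp, map_mul]
  apply le_antisymm
  · rw [Submodule.mul_le]
    intro u hu v hv
    obtain ⟨m, n, rfl⟩ := mem_sp.1 hu
    obtain ⟨m', n', rfl⟩ := mem_sp.1 hv
    refine mem_sp.2 ⟨a * m * m' - b * m * n' + c * n * n', n * m' - m * n', ?_⟩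
    push_cast
    linear_combination ((m : ℂ) + n * τ) * (m' + n' * starRingEnd ℂ τ) * ht +
      t * n' * ((m : ℂ) + n * τ) * hj - t * n * n' * h
  · have p1 := Submodule.mul_mem_mul (ord_left c' (c' * τ))
      (ord_left (starRingEnd ℂ c') (starRingEnd ℂ c' * starRingEnd ℂ τ))
    have p2 := Submodule.mul_mem_mul (ord_right c' (c' * τ))
      (ord_left (starRingEnd ℂ c') (starRingEnd ℂ c' * starRingEnd ℂ τ))
    have p3 := Submodule.mul_mem_mul (ord_left c' (c' * τ))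
      (ord_right (starRingEnd ℂ c') (starRingEnd ℂ c' * starRingEnd ℂ τ))
    have p4 := Submodule.mul_mem_mul (ord_right c' (c' * τ))
      (ord_right (starRingEnd ℂ c') (starRingEnd ℂ c' * starRingEnd ℂ τ))
    obtain ⟨u, v, w, huv⟩ := ord_bezout hg
    have huv' : (u : ℂ) * a + v * b + w * c = 1 := by exact_mod_cast huv
    refine ord_sp_le.2 ⟨?_, ?_⟩
    · have := add_mem (sub_mem (Submodule.smul_mem _ u p1) (Submodule.smul_mem _ v (add_mem p2 p3)))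
        (Submodule.smul_mem _ w p4)
      convert this using 1
      simp only [zsmul_eq_mul]
      linear_combination (-t) * huv' -
        ((u : ℂ) - v * (τ + starRingEnd ℂ τ) + w * τ * starRingEnd ℂ τ) * ht +
        t * ((v : ℂ) - w * τ) * hj + t * w * h
    · convert p2 using 1
      linear_combination (-(τ : ℂ)) * ht

end Pool.Agent.P.MP_20768c_nt.Az.EQ

end

end

-- part ad7a55_nt.IntQ2
section

/-! Functions with integral q-expansions. -/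

set_option autoImplicit false

noncomputable section

open MeasureTheory Topology Filter UpperHalfPlane
open scoped MatrixGroups ENNReal BoundedContinuousFunction

namespace Pool.Agent.P.MP_20768c_nt.Az.EQ

lemma iq2_qq_eq (τ : ℍ) : qq τ = Function.Periodic.qParam 1 τ := by
  simp [qq, Function.Periodic.qParam]

lemma iq2_congr {f g : ℕ → ℂ} {a : ℂ} (h : HasSum f a) (hfg : ∀ n, g n = f n) : HasSum g a := by
  rwa [funext hfg]

lemma iq2_qq_ne (τ : ℍ) : qq τ ≠ 0 := Complex.exp_ne_zero _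

lemma iq2_qq_lt (τ : ℍ) : ‖qq τ‖ < 1 := by
  rw [iq2_qq_eq]
  exact Function.Periodic.norm_qParam_lt_one one_pos τ.im_pos

lemma iq2_qq_surj {q : ℂ} (hq : ‖q‖ < 1) (h0 : q ≠ 0) : ∃ τ : ℍ, qq τ = q := by
  refine ⟨⟨Function.Periodic.invQParam 1 q,
    Function.Periodic.im_invQParam_pos_of_norm_lt_one one_pos hq h0⟩, ?_⟩
  rw [iq2_qq_eq]
  exact Function.Periodic.qParam_right_inv one_ne_zero h0

lemma iq2_qq_tendsto : Tendsto qq atImInfty (𝓝 0) := by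
  have := UpperHalfPlane.qParam_tendsto_atImInfty (h := 1) one_pos
  refine this.congr fun τ => (iq2_qq_eq τ).symm

/-- The sum of the series on the disc. -/
def iq2F (a : ℕ → ℂ) (q : ℂ) : ℂ := ∑' n, a n * q ^ n

lemma iq2_summable {a : ℕ → ℂ} {f : ℍ → ℂ}
    (h : ∀ τ, HasSum (fun n => a n * qq τ ^ n) (f τ)) {q : ℂ} (hq : ‖q‖ < 1) :
    Summable fun n => a n * q ^ n := by
  rcases eq_or_ne q 0 with rfl | h0
  · refine summable_of_ne_finset_zero (s := {0}) fun n hn => ?_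
    have : n ≠ 0 := by simpa using hn
    simp [this]
  · obtain ⟨τ, rfl⟩ := iq2_qq_surj hq h0
    exact (h τ).summable

lemma iq2F_qq {a : ℕ → ℂ} {f : ℍ → ℂ}
    (h : ∀ τ, HasSum (fun n => a n * qq τ ^ n) (f τ)) (τ : ℍ) : iq2F a (qq τ) = f τ :=
  (h τ).tsum_eq

lemma iq2F_zero (a : ℕ → ℂ) : iq2F a 0 = a 0 := by
  unfold iq2F
  rw [tsum_eq_single 0]
  · simp
  · intro n hn
    simp [hn]

lemma iq2_ball {a : ℕ → ℂ} (h : ∀ q : ℂ, ‖q‖ < 1 → Summable fun n => a n * q ^ n) :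
    HasFPowerSeriesOnBall (iq2F a) (.ofScalars ℂ a) 0 1 := by
  constructor
  · refine le_of_forall_lt_imp_le_of_dense fun r hr ↦ ?_
    lift r to NNReal using hr.ne_top
    apply FormalMultilinearSeries.le_radius_of_summable
    have := (h (r : ℂ) (by simpa using hr)).norm
    simpa [smul_eq_mul, norm_mul, mul_comm, mul_left_comm, mul_assoc] using this
  · simp
  · intro y hy
    rw [← ENNReal.coe_one, Metric.eball_coe, NNReal.coe_one, mem_ball_zero_iff] at hy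
    simpa [iq2F, mul_comm] using (h y hy).hasSum

lemma iq2_diff {a : ℕ → ℂ} (h : ∀ q : ℂ, ‖q‖ < 1 → Summable fun n => a n * q ^ n) :
    DifferentiableOn ℂ (iq2F a) (Metric.ball 0 1) := by
  have := (iq2_ball h).differentiableOn
  rwa [← ENNReal.coe_one, Metric.eball_coe, NNReal.coe_one] at this

lemma iq2_tendsto {a : ℕ → ℂ} {f : ℍ → ℂ}
    (h : ∀ τ, HasSum (fun n => a n * qq τ ^ n) (f τ)) : Tendsto f atImInfty (𝓝 (a 0)) := by
  have h1 := (iq2_ball fun q hq => iq2_summable h hq).hasFPowerSeriesAt.continuousAt.tendsto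
  rw [iq2F_zero] at h1
  exact (h1.comp iq2_qq_tendsto).congr fun τ => iq2F_qq h τ

lemma iq2_unique {a b : ℕ → ℂ} {f : ℍ → ℂ}
    (ha : ∀ τ, HasSum (fun n => a n * qq τ ^ n) (f τ))
    (hb : ∀ τ, HasSum (fun n => b n * qq τ ^ n) (f τ)) : a = b := by
  have h1 := (iq2_ball fun q hq => iq2_summable ha hq).hasFPowerSeriesAt
  have h2 := (iq2_ball fun q hq => iq2_summable hb hq).hasFPowerSeriesAt
  have h0 : a 0 = b 0 := tendsto_nhds_unique (iq2_tendsto ha) (iq2_tendsto hb)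
  have h3 : iq2F a =ᶠ[𝓝 0] iq2F b := by
    filter_upwards [Metric.ball_mem_nhds (0 : ℂ) one_pos] with q hq
    rcases eq_or_ne q 0 with rfl | hq0
    · rw [iq2F_zero, iq2F_zero, h0]
    · obtain ⟨τ, rfl⟩ := iq2_qq_surj (mem_ball_zero_iff.1 hq) hq0
      rw [iq2F_qq ha, iq2F_qq hb]
  have h4 := h1.eq_formalMultilinearSeries_of_eventually h2 h3
  funext m
  simpa using congr_arg (FormalMultilinearSeries.coeff · m) h4

lemma iq2_mul {a b : ℕ → ℂ} {f g : ℍ → ℂ}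
    (ha : ∀ τ, HasSum (fun n => a n * qq τ ^ n) (f τ))
    (hb : ∀ τ, HasSum (fun n => b n * qq τ ^ n) (g τ)) (τ : ℍ) :
    HasSum (fun n => (∑ p ∈ Finset.HasAntidiagonal.antidiagonal n, a p.1 * b p.2) * qq τ ^ n) (f τ * g τ) := by
  have h1 := (ha τ).summable.norm
  have h2 := (hb τ).summable.norm
  have h3 := tsum_mul_tsum_eq_tsum_sum_antidiagonal_of_summable_norm h1 h2
  have h4 := (summable_norm_sum_mul_antidiagonal_of_summable_norm h1 h2).of_norm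
  rw [(ha τ).tsum_eq, (hb τ).tsum_eq] at h3
  rw [h3]
  refine iq2_congr h4.hasSum fun n => ?_
  rw [Finset.sum_mul]
  refine Finset.sum_congr rfl fun p hp => ?_
  rw [← Finset.HasAntidiagonal.mem_antidiagonal.1 hp, pow_add]
  ring

lemma iq2_shift {a : ℕ → ℂ} {f : ℍ → ℂ}
    (ha : ∀ τ, HasSum (fun n => a n * qq τ ^ n) (f τ)) (h0 : a 0 = 0) (τ : ℍ) :
    HasSum (fun n => a (n + 1) * qq τ ^ n) (f τ / qq τ) := by
  have h1 := (hasSum_nat_add_iff' 1).2 (ha τ)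
  simp only [Finset.range_one, Finset.sum_singleton, h0, zero_mul, sub_zero] at h1
  refine iq2_congr (h1.div_const (qq τ)) fun n => ?_
  have := iq2_qq_ne τ
  rw [pow_succ]
  field_simp

lemma IntQ.iq2_shift {f : ℍ → ℂ} (hf : IntQ f) (h0 : Tendsto f atImInfty (𝓝 0)) :
    IntQ fun τ => f τ / qq τ := by
  obtain ⟨a, ha⟩ := hf
  have h1 : (a 0 : ℂ) = 0 :=
    tendsto_nhds_unique (iq2_tendsto (a := fun n => (a n : ℂ)) ha) h0
  exact ⟨fun n => a (n + 1), fun τ => Pool.Agent.P.MP_20768c_nt.Az.EQ.iq2_shift (a := fun n => (a n : ℂ)) ha h1 τ⟩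

lemma IntQ.iq2_div {f g : ℍ → ℂ} (hf : IntQ f) (hg : IntQ g) (h1 : Tendsto g atImInfty (𝓝 1))
    (h0 : ∀ τ, g τ ≠ 0) : IntQ fun τ => f τ / g τ := by
  obtain ⟨a, ha⟩ := hf
  obtain ⟨b, hb⟩ := hg
  have hb0 : (b 0 : ℂ) = 1 :=
    tendsto_nhds_unique (iq2_tendsto (a := fun n => (b n : ℂ)) hb) h1
  have hA := iq2_diff fun q hq => iq2_summable (a := fun n => (a n : ℂ)) ha hq
  have hB := iq2_diff fun q hq => iq2_summable (a := fun n => (b n : ℂ)) hb hq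
  have hne : ∀ q ∈ Metric.ball (0 : ℂ) 1, iq2F (fun n => (b n : ℂ)) q ≠ 0 := by
    intro q hq
    rcases eq_or_ne q 0 with rfl | hq0
    · rw [iq2F_zero, hb0]
      exact one_ne_zero
    · obtain ⟨τ, rfl⟩ := iq2_qq_surj (mem_ball_zero_iff.1 hq) hq0
      rw [iq2F_qq (a := fun n => (b n : ℂ)) hb]
      exact h0 τ
  have hC := hA.div hB hne
  set c : ℕ → ℂ := fun n => ((n.factorial : ℂ))⁻¹ *
    iteratedDeriv n (iq2F (fun n => (a n : ℂ)) / iq2F (fun n => (b n : ℂ))) 0 with hc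
  have hcs : ∀ τ, HasSum (fun n => c n * qq τ ^ n) (f τ / g τ) := by
    intro τ
    have h2 := Complex.hasSum_taylorSeries_on_ball hC (mem_ball_zero_iff.2 (iq2_qq_lt τ))
    rw [Pi.div_apply, iq2F_qq (a := fun n => (a n : ℂ)) ha,
      iq2F_qq (a := fun n => (b n : ℂ)) hb] at h2
    refine iq2_congr h2 fun n => ?_
    simp only [hc, sub_zero, smul_eq_mul]
    ring
  have hprod : ∀ τ, HasSum (fun n => (∑ p ∈ Finset.HasAntidiagonal.antidiagonal n, (b p.1 : ℂ) * c p.2) * qq τ ^ n)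
      (f τ) := by
    intro τ
    have := iq2_mul (a := fun n => (b n : ℂ)) hb hcs τ
    rwa [mul_div_cancel₀ _ (h0 τ)] at this
  have huniq := iq2_unique (a := fun n => (a n : ℂ)) ha hprod
  have hint : ∀ n, ∃ z : ℤ, c n = z := by
    intro n
    induction n using Nat.strong_induction_on with
    | _ n ih =>
      have h2 := congr_fun huniq n
      cases n with
      | zero =>
        refine ⟨a 0, ?_⟩
        simp [hb0] at h2
        exact h2.symm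
      | succ n =>
        rw [Finset.Nat.antidiagonal_succ, Finset.sum_cons, Finset.sum_map] at h2
        simp only [hb0, one_mul, Function.Embedding.coe_prodMap, Function.Embedding.coeFn_mk,
          Prod.map_fst, Prod.map_snd, Function.Embedding.refl_apply, Nat.succ_eq_add_one] at h2
        have h3 : ∃ z : ℤ, (∑ p ∈ Finset.HasAntidiagonal.antidiagonal n, (b (p.1 + 1) : ℂ) * c p.2) = z := by
          refine Finset.sum_induction _ (fun x : ℂ => ∃ z : ℤ, x = z) ?_ ⟨0, by simp⟩ ?_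
          · rintro x y ⟨u, rfl⟩ ⟨v, rfl⟩
            exact ⟨u + v, by push_cast; ring⟩
          · intro p hp
            have h4 : p.2 < n + 1 := by
              have := Finset.HasAntidiagonal.mem_antidiagonal.1 hp
              omega
            obtain ⟨z, hz⟩ := ih p.2 h4
            exact ⟨b (p.1 + 1) * z, by rw [hz]; push_cast; ring⟩
        obtain ⟨z, hz⟩ := h3
        refine ⟨a (n + 1) - z, ?_⟩
        push_cast
        rw [h2, hz]
        ring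
  choose z hz using hint
  exact ⟨z, fun τ => by simpa only [hz] using hcs τ⟩

/-- The divisor series. -/
def iq2S (k : ℕ) (τ : ℍ) : ℂ := ∑' n : ℕ, (ArithmeticFunction.sigma k n : ℂ) * qq τ ^ n

lemma iq2S_hasSum (k : ℕ) (τ : ℍ) :
    HasSum (fun n : ℕ => (ArithmeticFunction.sigma k n : ℂ) * qq τ ^ n) (iq2S k τ) := by
  have := EisensteinSeries.summable_sigma_mul_cexp_pow (k := k + 1) (by omega) τ
  exact this.hasSum

lemma iq2S_int (k : ℕ) : IntQ (iq2S k) :=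
  ⟨fun n => ArithmeticFunction.sigma k n, fun τ => by simpa using iq2S_hasSum k τ⟩

lemma iq2_E_eq {k : ℕ} (hk : 3 ≤ k) (hk2 : Even k) (τ : ℍ) :
    ModularForm.E hk τ = 1 - (2 * k / bernoulli k : ℂ) * iq2S (k - 1) τ := by
  have h1 := ModularForm.hasSum_qExpansion (ModularForm.E hk) one_pos one_mem_strictPeriods_SL τ
  simp only [EisensteinSeries.E_qExpansion_coeff hk hk2, ← iq2_qq_eq] at h1
  have h2 := (hasSum_ite_eq (0 : ℕ) (1 : ℂ)).sub
    ((iq2S_hasSum (k - 1) τ).mul_left (2 * k / bernoulli k : ℂ))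
  refine h1.unique (iq2_congr h2 fun n => ?_)
  split_ifs with hn
  · subst hn
    simp
  · ring

lemma iq2_E4_eq (τ : ℍ) : ModularForm.E₄ τ = 1 + 240 * iq2S 3 τ := by
  rw [iq2_E_eq (k := 4) (by norm_num) ⟨2, rfl⟩ τ]
  have : bernoulli 4 = -1 / 30 := by
    rw [bernoulli_eq_bernoulli'_of_ne_one (by norm_num), bernoulli'_four]
  rw [this]
  push_cast
  ring

lemma iq2_E6_eq (τ : ℍ) : ModularForm.E₆ τ = 1 - 504 * iq2S 5 τ := by
  rw [iq2_E_eq (k := 6) (by norm_num) ⟨3, rfl⟩ τ]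
  have : bernoulli 6 = 1 / 42 := by decide +kernel
  rw [this]
  push_cast
  ring

theorem intQ_E4 : IntQ fun τ => ModularForm.E₄ τ := by
  have := (intQ_int 1).add ((intQ_int 240).mul (iq2S_int 3))
  simpa [iq2_E4_eq] using this

lemma iq2_twelve (n : ℕ) :
    12 ∣ 5 * ArithmeticFunction.sigma 3 n + 7 * ArithmeticFunction.sigma 5 n := by
  rw [ArithmeticFunction.sigma_apply, ArithmeticFunction.sigma_apply, Finset.mul_sum,
    Finset.mul_sum, ← Finset.sum_add_distrib]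
  refine Finset.dvd_sum fun d _ => ?_
  have h : ∀ x : ZMod 12, 5 * x ^ 3 + 7 * x ^ 5 = 0 := by decide
  rw [← ZMod.natCast_eq_zero_iff]
  push_cast
  exact h d

lemma iq2_intQ_comb : IntQ fun τ => (5 * iq2S 3 τ + 7 * iq2S 5 τ) / 12 := by
  choose z hz using iq2_twelve
  refine ⟨fun n => z n, fun τ => ?_⟩
  have h := (((iq2S_hasSum 3 τ).mul_left 5).add ((iq2S_hasSum 5 τ).mul_left 7)).div_const 12
  refine iq2_congr h fun n => ?_
  have h1 : (5 * (ArithmeticFunction.sigma 3 n : ℂ) + 7 * ArithmeticFunction.sigma 5 n) =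
      12 * z n := by exact_mod_cast hz n
  push_cast
  linear_combination (-(qq τ ^ n) / 12) * h1

lemma iq2_intQ_disc : IntQ ModularForm.discriminant := by
  have h := ((iq2_intQ_comb.add ((intQ_int 100).mul ((iq2S_int 3).pow 2))).add
    ((intQ_int 8000).mul ((iq2S_int 3).pow 3))).sub ((intQ_int 147).mul ((iq2S_int 5).pow 2))
  convert h using 2 with τ
  rw [ModularForm.discriminant_eq_E₄_cube_sub_E₆_sq, iq2_E4_eq, iq2_E6_eq]
  push_cast
  ring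

theorem intQ_disc_div : IntQ fun τ => ModularForm.discriminant τ / qq τ :=
  iq2_intQ_disc.iq2_shift ModularForm.discriminant_isZeroAtImInfty

lemma iq2_disc_div_tendsto :
    Tendsto (fun τ => ModularForm.discriminant τ / qq τ) atImInfty (𝓝 1) := by
  refine ModularForm.tendsto_atImInfty_tprod_one_sub_eta_q_pow.congr fun τ => ?_
  rw [ModularForm.discriminant_eq_q_prod, ← iq2_qq_eq, mul_div_cancel_left₀ _ (iq2_qq_ne τ)]

lemma iq2_disc_div_ne (τ : ℍ) : ModularForm.discriminant τ / qq τ ≠ 0 :=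
  div_ne_zero (ModularForm.discriminant_ne_zero τ) (iq2_qq_ne τ)

theorem intQ_j : IntQ fun τ => qq τ * jInv τ := by
  have h := (intQ_E4.pow 3).iq2_div intQ_disc_div iq2_disc_div_tendsto iq2_disc_div_ne
  convert h using 2 with τ
  have h1 := iq2_qq_ne τ
  have h2 := ModularForm.discriminant_ne_zero τ
  unfold jInv
  field_simp

lemma iq2_E4_tendsto : Tendsto (fun τ => ModularForm.E₄ τ) atImInfty (𝓝 1) := by
  have h := iq2_tendsto (iq2S_hasSum 3)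
  simp only [ArithmeticFunction.map_zero, Nat.cast_zero] at h
  have h1 := (h.const_mul 240).const_add 1
  simp only [mul_zero, add_zero] at h1
  exact h1.congr fun τ => (iq2_E4_eq τ).symm

lemma iq2_const {a : ℕ → ℂ} {f : ℍ → ℂ}
    (ha : ∀ τ, HasSum (fun n => a n * qq τ ^ n) (f τ))
    (hw : ∀ (γ : SL(2, ℤ)) (τ : ℍ), f (γ • τ) = f τ) (τ : ℍ) : f τ = a 0 := by
  have hA := iq2_diff fun q hq => iq2_summable ha hq
  have h : Set.EqOn (iq2F a) (Function.const ℂ (iq2F a 0)) (Metric.ball 0 1) := by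
    refine Complex.eq_const_of_exists_le hA (Real.exp_nonneg (-Real.pi)) ?_ (fun q hq ↦ ?_)
    · simp [Real.pi_pos]
    · simp only [Metric.mem_closedBall, dist_zero_right]
      rcases eq_or_ne q 0 with rfl | hq'
      · refine ⟨0, by simpa only [norm_zero] using Real.exp_nonneg _, le_rfl⟩
      · obtain ⟨σ, rfl⟩ := iq2_qq_surj (mem_ball_zero_iff.1 hq) hq'
        obtain ⟨γ, hγ⟩ := ModularGroup.exists_one_half_le_im_smul σ
        refine ⟨qq (γ • σ), ?_, ?_⟩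
        · rw [iq2_qq_eq]
          exact Function.Periodic.norm_qParam_le_of_one_half_le_im hγ
        · rw [iq2F_qq ha, iq2F_qq ha, hw]
  have h1 := h (mem_ball_zero_iff.2 (iq2_qq_lt τ))
  rwa [iq2F_qq ha, Function.const_apply, iq2F_zero] at h1

lemma iq2_den_ne (γ : SL(2, ℤ)) (τ : ℍ) : ((γ 1 0 : ℂ) * τ + γ 1 1) ≠ 0 := by
  intro h
  have h1 := disc_smul γ τ
  rw [h] at h1
  exact ModularForm.discriminant_ne_zero (γ • τ) (by simpa using h1)

/-- A function of weight `12 m` with integral expansion is `Δ^m` times an integral polynomial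
in `j`. -/
theorem IntQ.poly (m : ℕ) {f : ℍ → ℂ} (hf : IntQ f)
    (hw : ∀ (γ : SL(2, ℤ)) (τ : ℍ), f (γ • τ) = ((γ 1 0 : ℂ) * τ + γ 1 1) ^ (12 * m) * f τ) :
    ∃ P : Polynomial ℤ, P.natDegree ≤ m ∧
      ∀ τ, f τ = ModularForm.discriminant τ ^ m * Polynomial.aeval (jInv τ) P := by
  induction m generalizing f with
  | zero =>
    obtain ⟨a, ha⟩ := hf
    refine ⟨Polynomial.C (a 0), by simp, fun τ => ?_⟩
    rw [iq2_const (a := fun n => (a n : ℂ)) ha (fun γ τ => by simpa using hw γ τ) τ]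
    simp
  | succ m ih =>
    obtain ⟨a, ha⟩ := hf
    have hE : ∀ τ, ModularForm.E₄ τ ^ 3 = ModularForm.discriminant τ * jInv τ := by
      intro τ
      have h2 := ModularForm.discriminant_ne_zero τ
      unfold jInv
      field_simp
    have hg : IntQ fun τ => f τ - ((a 0 : ℤ) : ℂ) * (ModularForm.E₄ τ ^ 3) ^ (m + 1) :=
      IntQ.sub ⟨a, ha⟩ ((intQ_int (a 0)).mul ((intQ_E4.pow 3).pow (m + 1)))
    have hg0 : Tendsto (fun τ => f τ - ((a 0 : ℤ) : ℂ) * (ModularForm.E₄ τ ^ 3) ^ (m + 1))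
        atImInfty (𝓝 0) := by
      have h1 := (iq2_tendsto (a := fun n => (a n : ℂ)) ha).sub
        (((iq2_E4_tendsto.pow 3).pow (m + 1)).const_mul ((a 0 : ℤ) : ℂ))
      simpa using h1
    have hh := (hg.iq2_shift hg0).iq2_div intQ_disc_div iq2_disc_div_tendsto iq2_disc_div_ne
    have hh' : IntQ fun τ => (f τ - ((a 0 : ℤ) : ℂ) *
        (ModularForm.discriminant τ * jInv τ) ^ (m + 1)) / ModularForm.discriminant τ := by
      convert hh using 2 with τ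
      have h1 := iq2_qq_ne τ
      have h2 := ModularForm.discriminant_ne_zero τ
      rw [hE]
      field_simp
    obtain ⟨P, hP, hPf⟩ := ih hh' (by
      intro γ τ
      have h1 := iq2_den_ne γ τ
      have h2 := ModularForm.discriminant_ne_zero τ
      rw [hw, disc_smul, jInv_smul]
      generalize ((γ 1 0 : ℂ) * τ + γ 1 1) = u at h1 ⊢
      field_simp
      ring)
    refine ⟨Polynomial.C (a 0) * Polynomial.X ^ (m + 1) + P, ?_, fun τ => ?_⟩
    · refine (Polynomial.natDegree_add_le _ _).trans (max_le ?_ (by omega))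
      exact Polynomial.natDegree_C_mul_X_pow_le _ _
    · have h1 := hPf τ
      have h2 := ModularForm.discriminant_ne_zero τ
      rw [div_eq_iff h2] at h1
      simp only [map_add, map_mul, map_pow, Polynomial.aeval_X,
        eq_intCast, map_intCast]
      linear_combination h1

end Pool.Agent.P.MP_20768c_nt.Az.EQ

end

end

-- part ad7a55_nt.Ord2
section

/-! Imaginary quadratic orders and their invertible modules. -/

set_option autoImplicit false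

noncomputable section

open MeasureTheory Topology Filter UpperHalfPlane
open scoped MatrixGroups ENNReal BoundedContinuousFunction

namespace Pool.Agent.P.MP_20768c_nt.Az.EQ

theorem ord2_prim_pos {τ : ℍ} {n m k : ℤ} (hn : 0 < n)
    (h : (n : ℂ) * (τ : ℂ) ^ 2 + m * τ + k = 0) : ∃ D, HasDisc τ D := by
  obtain ⟨g, hg⟩ : ∃ g : ℕ, g = Int.gcd (Int.gcd n m) k := ⟨_, rfl⟩
  have h1 : (g : ℤ) ∣ (Int.gcd n m : ℤ) := hg ▸ Int.gcd_dvd_left _ _
  obtain ⟨a, ha⟩ : (g : ℤ) ∣ n := h1.trans (Int.gcd_dvd_left _ _)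
  obtain ⟨b, hb⟩ : (g : ℤ) ∣ m := h1.trans (Int.gcd_dvd_right _ _)
  obtain ⟨c, hc⟩ : (g : ℤ) ∣ k := hg ▸ Int.gcd_dvd_right _ _
  have hg0 : g ≠ 0 := by
    rintro rfl
    simp at ha
    omega
  have hgp : (0 : ℤ) < g := by exact_mod_cast Nat.pos_of_ne_zero hg0
  refine ⟨_, a, b, c, (mul_pos_iff_of_pos_left hgp).1 (ha ▸ hn), ?_, ?_, rfl⟩
  · rw [ha, hb, hc, Int.gcd_mul_left, Nat.cast_mul, Int.natAbs_natCast, Int.gcd_mul_left,
      Int.natAbs_natCast] at hg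
    exact (Nat.mul_eq_left hg0).1 hg.symm
  · have hg' : (g : ℂ) ≠ 0 := Nat.cast_ne_zero.2 hg0
    apply mul_left_cancel₀ hg'
    rw [ha, hb, hc] at h
    push_cast at h
    linear_combination h

theorem ord2_prim {τ : ℍ} {n m k : ℤ} (hn : n ≠ 0)
    (h : (n : ℂ) * (τ : ℂ) ^ 2 + m * τ + k = 0) : ∃ D, HasDisc τ D := by
  rcases lt_or_gt_of_ne hn with h1 | h1
  · refine ord2_prim_pos (n := -n) (m := -m) (k := -k) (by omega) ?_
    push_cast
    linear_combination -h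
  · exact ord2_prim_pos h1 h

theorem ord2_left_mem (a b : ℂ) : a ∈ sp a b := mem_sp.2 ⟨1, 0, by simp⟩

theorem ord2_right_mem (a b : ℂ) : b ∈ sp a b := mem_sp.2 ⟨0, 1, by simp⟩

theorem ord2_sp_le {a b : ℂ} {Λ : Lt} (ha : a ∈ Λ) (hb : b ∈ Λ) : sp a b ≤ Λ := by
  intro v hv
  obtain ⟨m, n, rfl⟩ := mem_sp.1 hv
  simpa [zsmul_eq_mul] using Λ.add_mem (Λ.smul_mem m ha) (Λ.smul_mem n hb)

theorem ord2_hasDisc {c x : ℂ} {τ : ℍ} (hc : c ≠ 0) (hx : x.im ≠ 0)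
    (h : pr x * sp c (c * τ) ≤ sp c (c * τ)) : ∃ D, HasDisc τ D := by
  rw [pr_mul_le] at h
  obtain ⟨m, n, h1⟩ := mem_sp.1 (h _ (ord2_left_mem _ _))
  obtain ⟨m', n', h2⟩ := mem_sp.1 (h _ (ord2_right_mem _ _))
  have e1 : x = m + n * τ := by
    apply mul_left_cancel₀ hc
    linear_combination h1
  have e2 : x * τ = m' + n' * τ := by
    apply mul_left_cancel₀ hc
    linear_combination h2
  have hn : n ≠ 0 := by
    rintro rfl
    apply hx
    rw [e1]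
    simp
  refine ord2_prim (m := m - n') (k := -m') hn ?_
  push_cast
  linear_combination e2 - τ * e1

theorem ord2_th_im (D : ℤ) : (th D).im = Real.sqrt (-(D : ℝ)) := by simp [th]

theorem ord2_th_re (D : ℤ) : (th D).re = 0 := by simp [th]

theorem ord2_th_im_ne {D : ℤ} (hD : D < 0) : (th D).im ≠ 0 := by
  rw [ord2_th_im]
  have : (D : ℝ) < 0 := by exact_mod_cast hD
  exact (Real.sqrt_pos.2 (by linarith)).ne'

/-- Nonreal elements of an order are not small. -/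
theorem abs_le_of_mem_OD {D : ℤ} (hD : D < 0) {x : ℂ} (hx : x ∈ OD D) (hx' : x.im ≠ 0) :
    -(D : ℝ) ≤ 4 * x.im ^ 2 := by
  obtain ⟨m, n, rfl⟩ := mem_sp.1 hx
  have hD' : (D : ℝ) < 0 := by exact_mod_cast hD
  have e : ((m : ℂ) * 1 + n * ((D + th D) / 2)).im = n * (Real.sqrt (-(D : ℝ)) / 2) := by
    simp [ord2_th_im]
  rw [e] at hx' ⊢
  have hn : n ≠ 0 := by
    rintro rfl
    simp at hx'
  have hn' : (1 : ℝ) ≤ (n : ℝ) ^ 2 := by
    have : (1 : ℤ) ≤ n ^ 2 := by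
      have := Int.one_le_abs hn
      nlinarith [sq_abs n]
    exact_mod_cast this
  have hs := Real.sq_sqrt (show 0 ≤ -(D : ℝ) by linarith)
  rw [mul_pow, div_pow, hs]
  nlinarith

theorem ord2_le_of_OD_le {D D' : ℤ} (hD : D < 0) (hD' : D' < 0) (h : OD D ≤ OD D') : D ≤ D' := by
  have hm : ((D + th D) / 2 : ℂ) ∈ OD D' := h (ord2_right_mem _ _)
  have hr : (D : ℝ) < 0 := by exact_mod_cast hD
  have e : ((D + th D) / 2 : ℂ).im = Real.sqrt (-(D : ℝ)) / 2 := by simp [ord2_th_im]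
  have := abs_le_of_mem_OD hD' hm (by
    rw [e]
    exact (div_pos (Real.sqrt_pos.2 (by linarith)) two_pos).ne')
  rw [e, div_pow, Real.sq_sqrt (by linarith)] at this
  have : (D : ℝ) ≤ D' := by linarith
  exact_mod_cast this

theorem OD_inj {D D' : ℤ} (hD : D < 0) (hD' : D' < 0) (h : OD D = OD D') : D = D' :=
  le_antisymm (ord2_le_of_OD_le hD hD' h.le) (ord2_le_of_OD_le hD' hD h.ge)

theorem ord2_disc_eq {Λ : Lt} {D D' : ℤ} (h : DiscL Λ D) (hD' : D' < 0)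
    (he : ∀ x, pr x * Λ ≤ Λ ↔ x ∈ OD D') : D = D' :=
  OD_inj h.isD.1 hD' (Submodule.ext fun x => (h.end_iff x).symm.trans (he x))

theorem HasDisc.smul {τ : ℍ} {D : ℤ} (h : HasDisc τ D) (γ : SL(2, ℤ)) : HasDisc (γ • τ) D := by
  have hc : (1 : ℂ) * ((γ 1 0 : ℂ) * τ + γ 1 1) ≠ 0 := by
    rw [one_mul]
    intro h0
    have h1 := congrArg Complex.im h0
    simp [τ.im_ne_zero] at h1
    rw [h1] at h0
    simp at h0
    have := γ.det_coe
    rw [Matrix.det_fin_two, h1, h0] at this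
    simp at this
  have e := sp_smul 1 γ τ
  have hL : DiscL (sp 1 (1 * τ)) D := ⟨1, τ, one_ne_zero, rfl, h⟩
  rw [← e] at hL
  obtain ⟨D', hD'⟩ := ord2_hasDisc hc (ord2_th_im_ne h.isD.1) ((hL.end_iff _).2 (th_mem_OD D))
  have : D' = D := ord2_disc_eq ⟨_, _, hc, rfl, hD'⟩ h.isD.1 hL.end_iff
  exact this ▸ hD'

theorem ord2_sp_add (x : ℂ) (n : ℤ) : sp 1 (x + n) = sp 1 x := by
  apply le_antisymm
  · exact ord2_sp_le (ord2_left_mem _ _) (mem_sp.2 ⟨n, 1, by push_cast; ring⟩)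
  · exact ord2_sp_le (ord2_left_mem _ _) (mem_sp.2 ⟨-n, 1, by push_cast; ring⟩)

theorem OD_sq_mul {D : ℤ} (hD : IsD D) (f : ℕ) :
    OD (f ^ 2 * D) = sp 1 (f * ((D + th D) / 2)) := by
  have _ := hD
  obtain ⟨k, hk⟩ := Int.even_mul_pred_self (f : ℤ)
  have hk' : (f : ℂ) * (f - 1) = k + k := by exact_mod_cast hk
  rw [← ord2_sp_add (f * ((D + th D) / 2)) (k * D), OD, th_mul_sq]
  congr 1
  push_cast
  linear_combination (D / 2 : ℂ) * hk'

theorem OD_sq_le {D : ℤ} (hD : IsD D) (f : ℕ) : OD (f ^ 2 * D) ≤ OD D := by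
  rw [OD_sq_mul hD]
  exact ord2_sp_le (one_mem_OD D) (mem_sp.2 ⟨0, f, by simp⟩)

theorem exists_discL {Λ : Lt} (h : IsLat Λ) {x : ℂ} (hx : x.im ≠ 0) (hx' : pr x * Λ ≤ Λ) :
    ∃ D, DiscL Λ D := by
  obtain ⟨c, τ, hc, rfl⟩ := h
  obtain ⟨D, hD⟩ := ord2_hasDisc hc hx hx'
  exact ⟨D, c, τ, hc, rfl, hD⟩

theorem ord2_pr_le {c : ℂ} {Λ : Lt} (h : c ∈ Λ) : pr c ≤ Λ :=
  (Submodule.span_singleton_le_iff_mem _ _).2 h

theorem ord2_OD_mul {Λ : Lt} {D D' : ℤ} (h' : DiscL Λ D') (hle : OD D ≤ OD D') :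
    OD D * Λ = Λ := by
  apply le_antisymm
  · exact (mul_le_mul_left hle Λ).trans h'.OD_mul.le
  · exact (pr_one_mul Λ).ge.trans (mul_le_mul_left (ord2_pr_le (one_mem_OD D)) Λ)

theorem ord2_isLat_mul {𝔞 Λ : Lt} {D D' : ℤ} (h : DiscL 𝔞 D) (h' : DiscL Λ D')
    (hle : OD D ≤ OD D') : IsLat (𝔞 * Λ) := by
  obtain ⟨c, τ, hc, rfl, hτ⟩ := h
  have hτ' := hτ
  obtain ⟨a, b, k, ha, -, he, -⟩ := hτ'
  obtain ⟨N, rfl⟩ := Int.eq_ofNat_of_zero_le ha.le
  have hN : 0 < N := by exact_mod_cast ha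
  push_cast at he
  have hm : (N : ℂ) * τ ∈ OD D := by
    rw [← (discL_one hτ).end_iff, pr_mul_sp]
    refine ord2_sp_le (mem_sp.2 ⟨0, N, by simp⟩) (mem_sp.2 ⟨-k, -b, ?_⟩)
    push_cast
    linear_combination he
  refine (h'.isLat.pr_mul hc).of_between hN ?_ ?_
  · refine le_trans ?_ (mul_le_mul_left (ord2_pr_le (ord2_left_mem c (c * τ))) Λ)
    exact_mod_cast pr_int_le N (pr c * Λ)
  · have e : pr c * Λ = pr c * OD D * Λ := by rw [mul_assoc, ord2_OD_mul h' hle]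
    rw [← mul_assoc, pr_mul_sp, e]
    apply mul_le_mul_left
    apply ord2_sp_le
    · refine mem_pr_mul.2 ⟨N, ?_, mul_comm _ _⟩
      simpa using (OD D).smul_mem (N : ℤ) (one_mem_OD D)
    · exact mem_pr_mul.2 ⟨N * τ, hm, by ring⟩

theorem DiscL.mul {𝔞 Λ : Lt} {D D' : ℤ} (h : DiscL 𝔞 D) (h' : DiscL Λ D') (hle : OD D ≤ OD D') :
    DiscL (𝔞 * Λ) D' := by
  have he : ∀ x, pr x * (𝔞 * Λ) ≤ 𝔞 * Λ ↔ x ∈ OD D' := fun x => by
    rw [← h'.end_iff]
    constructor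
    · intro hx
      obtain ⟨c, hc, e⟩ := h.mul_cj
      have e' : Pool.Agent.P.MP_20768c_nt.Az.EQ.cj 𝔞 * (𝔞 * Λ) = pr c * Λ := by
        rw [← mul_assoc, mul_comm _ 𝔞, e, mul_assoc, ord2_OD_mul h' hle]
      have := mul_le_mul_right hx (Pool.Agent.P.MP_20768c_nt.Az.EQ.cj 𝔞)
      rw [mul_left_comm, e', mul_left_comm] at this
      exact (pr_mul_le_iff hc).1 this
    · intro hx
      rw [mul_left_comm]
      exact mul_le_mul_right hx 𝔞
  obtain ⟨D'', hD⟩ := exists_discL (ord2_isLat_mul h h' hle) (ord2_th_im_ne h'.isD.1)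
    ((he _).2 (th_mem_OD D'))
  exact ord2_disc_eq hD h'.isD.1 he ▸ hD

theorem discL_of_inv {𝔞 𝔟 : Lt} {D : ℤ} (hD : IsD D) (h : IsLat 𝔞) (h1 : OD D * 𝔞 ≤ 𝔞)
    (h2 : 𝔞 * 𝔟 = OD D) : DiscL 𝔞 D := by
  have he : ∀ x, pr x * 𝔞 ≤ 𝔞 ↔ x ∈ OD D := fun x => by
    constructor
    · intro hx
      have := mul_le_mul_left hx 𝔟
      rw [mul_assoc, h2, pr_mul_le] at this
      simpa using this 1 (one_mem_OD D)
    · intro hx
      exact (mul_le_mul_left (ord2_pr_le hx) 𝔞).trans h1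
  obtain ⟨D', hD'⟩ := exists_discL h (ord2_th_im_ne hD.1) ((he _).2 (th_mem_OD D))
  exact ord2_disc_eq hD' hD.1 he ▸ hD'

theorem finite_disc (D : ℤ) : {z | ∃ Λ, DiscL Λ D ∧ jL Λ = z}.Finite := by
  refine (((Set.finite_Icc (-|D|) |D|).prod (Set.finite_Icc (-|D|) |D|)).image
    (fun x : ℤ × ℤ => jInv (ofComplex ((th D - x.2) / (2 * x.1))))).subset ?_
  rintro z ⟨Λ, ⟨c, τ, hc, rfl, hτ⟩, rfl⟩
  obtain ⟨γ, hγ⟩ := ModularGroup.exists_smul_mem_fd τ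
  rw [jL_sp hc, ← jInv_smul γ τ]
  have hD := hτ.isD.1
  obtain ⟨a, b, k, ha, -, he, hd⟩ := hτ.smul γ
  generalize γ • τ = σ at hγ he
  have hr := HasDisc.root ha he
  rw [← hd] at hr
  have ha' : (1 : ℝ) ≤ a := by exact_mod_cast ha
  have hD' : (D : ℝ) < 0 := by exact_mod_cast hD
  have i1 : 2 * (a : ℝ) * σ.im = Real.sqrt (-(D : ℝ)) := by
    simpa [ord2_th_im] using congrArg Complex.im hr
  have i2 : 2 * (a : ℝ) * σ.re + b = 0 := by
    simpa [ord2_th_re] using congrArg Complex.re hr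
  have i3 := ModularGroup.three_le_four_mul_im_sq_of_mem_fd hγ
  have i4 := abs_le.1 hγ.2
  have i5 : (2 * (a : ℝ) * σ.im) ^ 2 = -(D : ℝ) := by rw [i1, Real.sq_sqrt (by linarith)]
  have i6 : (a : ℝ) ≤ -D := by
    have := mul_le_mul_of_nonneg_left i3 (sq_nonneg (a : ℝ))
    nlinarith
  have i7 : (b : ℝ) ≤ a := by nlinarith
  have i8 : -(a : ℝ) ≤ b := by nlinarith
  have j6 : a ≤ -D := by exact_mod_cast i6
  have j7 : b ≤ a := by exact_mod_cast i7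
  have j8 : -a ≤ b := by exact_mod_cast i8
  refine ⟨(a, b), ?_, ?_⟩
  · rw [abs_of_neg hD]
    simp only [Set.mem_prod, Set.mem_Icc]
    omega
  · have ha0 : (a : ℂ) ≠ 0 := by exact_mod_cast ha.ne'
    have : (th D - b) / (2 * a) = (σ : ℂ) := by
      rw [← hr]
      field_simp
      ring
    simp only [this, ofComplex_apply]

end Pool.Agent.P.MP_20768c_nt.Az.EQ

end

end

-- part ad7a55_nt.VQs
section

/-! Expansions at the cusp with coefficients in a field. -/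

set_option autoImplicit false

noncomputable section

open MeasureTheory Topology Filter UpperHalfPlane
open scoped MatrixGroups ENNReal BoundedContinuousFunction

namespace Pool.Agent.P.MP_20768c_nt.Az.EQ

def qN (N : ℕ) (τ : ℍ) : ℂ := Complex.exp (2 * Real.pi * Complex.I * τ / N)

def zt (N : ℕ) : ℂ := Complex.exp (2 * Real.pi * Complex.I / N)

/-- `h` is a power series in `qN N` with coefficients in `L`. -/
def QS (N : ℕ) (L : IntermediateField ℚ ℂ) (h : ℍ → ℂ) : Prop :=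
  ∃ c : ℕ → ℂ, (∀ n, c n ∈ L) ∧ ∀ τ : ℍ, HasSum (fun n => c n * qN N τ ^ n) (h τ)

variable {N : ℕ} {L : IntermediateField ℚ ℂ} {f g : ℍ → ℂ}

theorem vqs_mulH (hN : 0 < N) (τ : ℍ) : qN N (mulH N hN τ) = qq τ := by
  have h : (N : ℂ) ≠ 0 := Nat.cast_ne_zero.2 hN.ne'
  rw [qN, qq, coe_mulH]
  congr 1
  field_simp

theorem vqs_lt (hN : 0 < N) (τ : ℍ) : ‖qN N τ‖ < 1 := by
  have h : qN N τ = qq (divH N hN 0 τ) := by
    rw [qN, qq, coe_divH]
    congr 1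
    push_cast
    ring
  rw [h]
  exact iq2_qq_lt _

theorem vqs_tr (hN : 0 < N) {c : ℕ → ℂ} (h : ∀ τ : ℍ, HasSum (fun n => c n * qN N τ ^ n) (f τ))
    (τ : ℍ) : HasSum (fun n => c n * qq τ ^ n) (f (mulH N hN τ)) := by
  rw [← vqs_mulH hN τ]
  exact h _

theorem vqs_unique (hN : 0 < N) {a b : ℕ → ℂ}
    (ha : ∀ τ : ℍ, HasSum (fun n => a n * qN N τ ^ n) (f τ))
    (hb : ∀ τ : ℍ, HasSum (fun n => b n * qN N τ ^ n) (f τ)) : a = b :=
  iq2_unique (vqs_tr hN ha) (vqs_tr hN hb)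

theorem vqs_pow {k : ℕ} (hk : 0 < k) (N : ℕ) (τ : ℍ) : qN (N * k) τ ^ k = qN N τ := by
  have h : (k : ℂ) ≠ 0 := Nat.cast_ne_zero.2 hk.ne'
  rw [qN, qN, ← Complex.exp_nat_mul]
  congr 1
  push_cast
  rw [mul_comm (N : ℂ), ← div_div, mul_div_assoc', mul_div_cancel₀ _ h]

theorem vqs_cauchy {a b : ℕ → ℂ} {x y z : ℂ} (ha : HasSum (fun n => a n * x ^ n) y)
    (hb : HasSum (fun n => b n * x ^ n) z) :
    HasSum (fun n => (∑ p ∈ Finset.HasAntidiagonal.antidiagonal n, a p.1 * b p.2) * x ^ n)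
      (y * z) := by
  have h1 := ha.summable.norm
  have h2 := hb.summable.norm
  have h3 := tsum_mul_tsum_eq_tsum_sum_antidiagonal_of_summable_norm h1 h2
  have h4 := (summable_norm_sum_mul_antidiagonal_of_summable_norm h1 h2).of_norm
  rw [ha.tsum_eq, hb.tsum_eq] at h3
  rw [h3]
  refine iq2_congr h4.hasSum fun n => ?_
  rw [Finset.sum_mul]
  refine Finset.sum_congr rfl fun p hp => ?_
  rw [← Finset.HasAntidiagonal.mem_antidiagonal.1 hp, pow_add]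
  ring

theorem vqs_expand {c : ℕ → ℂ} {x y : ℂ} {k : ℕ} (hk : 0 < k)
    (h : HasSum (fun n => c n * (x ^ k) ^ n) y) :
    HasSum (fun n => (if k ∣ n then c (n / k) else 0) * x ^ n) y := by
  have hi : Function.Injective fun m : ℕ => k * m := mul_right_injective₀ hk.ne'
  refine (hi.hasSum_iff fun n hn => ?_).1 (iq2_congr h fun n => ?_)
  · rw [if_neg fun ⟨m, hm⟩ => hn ⟨m, hm.symm⟩, zero_mul]
  · simp [Nat.mul_div_cancel_left n hk, pow_mul]

theorem vqs_exp {k : ℕ} (hk : 0 < k) {c : ℕ → ℂ} (hc : ∀ n, c n ∈ L)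
    (h : ∀ τ : ℍ, HasSum (fun n => c n * (qN N τ ^ k) ^ n) (f τ)) : QS N L f :=
  ⟨fun n => if k ∣ n then c (n / k) else 0, fun n => by
    beta_reduce
    split_ifs
    exacts [hc _, zero_mem _], fun τ => vqs_expand hk (h τ)⟩

theorem vqs_single (m : ℕ) (c x : ℂ) :
    HasSum (fun n => (if n = m then c else 0) * x ^ n) (c * x ^ m) := by
  have h := hasSum_single (f := fun n => (if n = m then c else 0) * x ^ n) m fun n hn => by
    simp [hn]
  rwa [if_pos rfl] at h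

theorem zt_dvd {M : ℕ} (hM : 0 < M) (h : N ∣ M) (hz : zt M ∈ L) : zt N ∈ L := by
  obtain ⟨k, rfl⟩ := h
  have hk : (k : ℂ) ≠ 0 := Nat.cast_ne_zero.2 (Nat.pos_of_mul_pos_left hM).ne'
  have e : zt N = zt (N * k) ^ k := by
    rw [zt, zt, ← Complex.exp_nat_mul]
    congr 1
    push_cast
    rw [mul_comm (N : ℂ), ← div_div, mul_div_assoc', mul_div_cancel₀ _ hk]
  rw [e]
  exact pow_mem hz k

theorem exists_field (F : IntermediateField ℚ ℂ) [FiniteDimensional ℚ F]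
    (L : IntermediateField ℚ ℂ) [FiniteDimensional ℚ L] {N : ℕ} (hN : 0 < N) :
    ∃ F' : IntermediateField ℚ ℂ, FiniteDimensional ℚ F' ∧ F ≤ F' ∧ L ≤ F' ∧ zt N ∈ F' := by
  have h1 : IsIntegral ℚ (zt N) := IsIntegral.of_pow hN (by
    rw [show zt N ^ N = 1 from (Complex.isPrimitiveRoot_exp N hN.ne').pow_eq_one]
    exact isIntegral_one)
  have h2 := IntermediateField.adjoin.finiteDimensional h1
  exact ⟨F ⊔ L ⊔ IntermediateField.adjoin ℚ {zt N}, inferInstance, le_sup_left.trans le_sup_left,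
    le_sup_right.trans le_sup_left,
    SetLike.le_def.1 le_sup_right (IntermediateField.mem_adjoin_simple_self ℚ _)⟩

theorem QS.add (hf : QS N L f) (hg : QS N L g) : QS N L fun τ => f τ + g τ := by
  obtain ⟨a, ha, ha'⟩ := hf
  obtain ⟨b, hb, hb'⟩ := hg
  exact ⟨fun n => a n + b n, fun n => add_mem (ha n) (hb n),
    fun τ => iq2_congr ((ha' τ).add (hb' τ)) fun n => add_mul _ _ _⟩

theorem QS.mul (hN : 0 < N) (hf : QS N L f) (hg : QS N L g) : QS N L fun τ => f τ * g τ := by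
  obtain ⟨a, ha, ha'⟩ := hf
  obtain ⟨b, hb, hb'⟩ := hg
  exact ⟨_, fun n => sum_mem fun p _ => mul_mem (ha p.1) (hb p.2),
    fun τ => vqs_cauchy (ha' τ) (hb' τ)⟩

theorem qs_const {c : ℂ} (hc : c ∈ L) : QS N L fun _ => c := by
  refine ⟨fun n => if n = 0 then c else 0, fun n => ?_, fun τ => ?_⟩
  · beta_reduce
    split_ifs
    exacts [hc, zero_mem _]
  · simpa only [pow_zero, mul_one] using vqs_single 0 c (qN N τ)

theorem QS.pow (hN : 0 < N) (hf : QS N L f) (m : ℕ) : QS N L fun τ => f τ ^ m := by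
  induction m with
  | zero => simpa only [pow_zero] using qs_const (one_mem L)
  | succ m ih => simpa only [pow_succ] using ih.mul hN hf

theorem qs_qN (N : ℕ) (L : IntermediateField ℚ ℂ) : QS N L (qN N) := by
  refine ⟨fun n => if n = 1 then 1 else 0, fun n => ?_, fun τ => ?_⟩
  · beta_reduce
    split_ifs
    exacts [one_mem _, zero_mem _]
  · simpa only [pow_one, one_mul] using vqs_single 1 1 (qN N τ)

theorem QS.mono {L' : IntermediateField ℚ ℂ} (h : L ≤ L') (hf : QS N L f) : QS N L' f := by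
  obtain ⟨a, ha, ha'⟩ := hf
  exact ⟨a, fun n => h (ha n), ha'⟩

theorem QS.level {N' : ℕ} (hN' : 0 < N') (h : N ∣ N') (hf : QS N L f) : QS N' L f := by
  obtain ⟨a, ha, ha'⟩ := hf
  obtain ⟨k, rfl⟩ := h
  have hk := Nat.pos_of_mul_pos_left hN'
  exact vqs_exp hk ha fun τ => by
    rw [vqs_pow hk]
    exact ha' τ

theorem IntQ.qs (hN : 0 < N) (hf : IntQ f) : QS N L f := by
  obtain ⟨a, ha⟩ := hf
  refine QS.level hN (one_dvd N) ⟨fun n => a n, fun n => intCast_mem L _, fun τ => ?_⟩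
  have e : qN 1 τ = qq τ := by simp [qN, qq]
  rw [e]
  exact ha τ

theorem QS.aff (hN : 0 < N) (hf : QS N L f) {a d : ℕ} (ha : 0 < a) (hd : 0 < d) (b : ℤ)
    {L' : IntermediateField ℚ ℂ} (h : L ≤ L') (hz : zt (N * d) ∈ L') {w : ℍ → ℍ}
    (hw : ∀ τ : ℍ, (w τ : ℂ) = (a * τ + b) / d) : QS (N * d) L' fun τ => f (w τ) := by
  obtain ⟨c, hc, hc'⟩ := hf
  refine vqs_exp ha (c := fun n => c n * (zt (N * d) ^ b) ^ n)
    (fun n => mul_mem (h (hc n)) (pow_mem (zpow_mem hz b) n)) fun τ => ?_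
  have h1 : (N : ℂ) ≠ 0 := Nat.cast_ne_zero.2 hN.ne'
  have h2 : (d : ℂ) ≠ 0 := Nat.cast_ne_zero.2 hd.ne'
  have e : qN N (w τ) = zt (N * d) ^ b * qN (N * d) τ ^ a := by
    rw [qN, qN, zt, hw, ← Complex.exp_nat_mul, ← Complex.exp_int_mul, ← Complex.exp_add]
    congr 1
    push_cast
    field_simp
    ring
  refine iq2_congr (hc' (w τ)) fun n => ?_
  rw [e, mul_pow, mul_assoc]

theorem QS.one (hN : 0 < N) (hf : QS N L f) (hp : ∀ τ : ℍ, f (ModularGroup.T • τ) = f τ) :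
    QS 1 L f := by
  obtain ⟨c, hc, hc'⟩ := hf
  have e : ∀ τ : ℍ, qN N (ModularGroup.T • τ) = zt N * qN N τ := fun τ => by
    rw [qN, qN, zt, modular_T_smul, coe_vadd, ← Complex.exp_add]
    congr 1
    push_cast
    ring
  have h1 := vqs_unique hN (a := fun n => c n * zt N ^ n) (fun τ => by
    have h := hc' (ModularGroup.T • τ)
    rw [hp, e] at h
    exact iq2_congr h fun n => by rw [mul_pow, mul_assoc]) hc'
  have h2 : ∀ n, ¬ N ∣ n → c n = 0 := fun n hn => by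
    by_contra h0
    exact hn (((Complex.isPrimitiveRoot_exp N hN.ne').pow_eq_one_iff_dvd n).1
      (mul_right_eq_self₀.1 (congrFun h1 n) |>.resolve_right h0))
  have hi : Function.Injective fun m : ℕ => N * m := mul_right_injective₀ hN.ne'
  refine ⟨fun m => c (N * m), fun m => hc _, fun τ => ?_⟩
  have h3 := (hi.hasSum_iff fun n hn => by
    rw [h2 n fun ⟨m, hm⟩ => hn ⟨m, hm.symm⟩, zero_mul]).2 (hc' τ)
  refine iq2_congr h3 fun m => ?_
  have h4 := vqs_pow hN 1 τ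
  rw [one_mul] at h4
  rw [Function.comp_apply, pow_mul, h4]

theorem QS.continuous (hN : 0 < N) (hf : QS N L f) : Continuous f := by
  obtain ⟨c, -, hc'⟩ := hf
  have h1 : Continuous (qN N) := by
    unfold qN
    fun_prop
  have h2 := (iq2_diff fun q hq => iq2_summable (vqs_tr hN hc') hq).continuousOn.comp_continuous h1
    fun τ => mem_ball_zero_iff.2 (vqs_lt hN τ)
  exact h2.congr fun τ => (hc' τ).tsum_eq

theorem QS.eq_zero (hN : 0 < N) (hf : QS N L f) (hg : QS N L g) (h : ∀ τ, f τ * g τ = 0) :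
    (∀ τ, f τ = 0) ∨ ∀ τ, g τ = 0 := by
  obtain ⟨a, -, ha⟩ := hf
  obtain ⟨b, -, hb⟩ := hg
  have h1 := vqs_unique hN (f := fun τ => f τ * g τ) (b := fun _ => 0)
    (fun τ => vqs_cauchy (ha τ) (hb τ)) fun τ => by simpa [h τ] using hasSum_zero
  have h2 : PowerSeries.mk a * PowerSeries.mk b = 0 := by
    ext n
    simpa [PowerSeries.coeff_mul] using congrFun h1 n
  have h3 : ∀ {c : ℕ → ℂ} {u : ℍ → ℂ}, (∀ τ : ℍ, HasSum (fun n => c n * qN N τ ^ n) (u τ)) →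
      PowerSeries.mk c = 0 → ∀ τ, u τ = 0 := fun {c u} hc h0 τ => by
    have h4 : ∀ n, c n = 0 := fun n => by simpa using congrArg (PowerSeries.coeff n) h0
    exact (hc τ).unique (by simpa [h4] using hasSum_zero)
  exact (mul_eq_zero.1 h2).imp (h3 ha) (h3 hb)

end Pool.Agent.P.MP_20768c_nt.Az.EQ

end

end

-- part ad7a55_nt.Aut
section

/-! Automorphisms of ℂ. -/

set_option autoImplicit false

noncomputable section

open MeasureTheory Topology Filter UpperHalfPlane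
open scoped MatrixGroups ENNReal BoundedContinuousFunction

namespace Pool.Agent.P.MP_20768c_nt.Az.EQ

theorem aut_aux {R K L : Type} [CommRing R] [Nontrivial R] [Field K] [Field L] [Algebra R K]
    [Algebra R L] [IsAlgClosed K] [IsAlgClosed L] (iK : Function.Injective (algebraMap R K))
    (iL : Function.Injective (algebraMap R L)) (hR : Cardinal.mk R ≤ Cardinal.aleph0)
    (hK : Cardinal.aleph0 < Cardinal.mk K) (hKL : Cardinal.mk K = Cardinal.mk L) :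
    ∃ σ : K ≃+* L, ∀ a, σ (algebraMap R K a) = algebraMap R L a := by
  haveI : FaithfulSMul R K := (faithfulSMul_iff_algebraMap_injective R K).2 iK
  haveI : FaithfulSMul R L := (faithfulSMul_iff_algebraMap_injective R L).2 iL
  obtain ⟨s, hs⟩ := exists_isTranscendenceBasis R K
  obtain ⟨t, ht⟩ := exists_isTranscendenceBasis R L
  have h1 := IsAlgClosed.cardinal_eq_cardinal_transcendence_basis_of_aleph0_lt' _ hs hR hK
  have h2 := IsAlgClosed.cardinal_eq_cardinal_transcendence_basis_of_aleph0_lt' _ ht hR (hKL ▸ hK)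
  obtain ⟨e⟩ : Nonempty (s ≃ t) := Cardinal.eq.1 (h1.symm.trans (hKL.trans h2))
  letI := IsAlgClosed.isAlgClosure_of_transcendence_basis _ hs
  letI := IsAlgClosed.isAlgClosure_of_transcendence_basis _ ht
  let e' : Algebra.adjoin R (Set.range ((↑) : s → K)) ≃ₐ[R]
      Algebra.adjoin R (Set.range ((↑) : t → L)) :=
    hs.1.aevalEquiv.symm.trans ((MvPolynomial.renameEquiv R e).trans ht.1.aevalEquiv)
  refine ⟨IsAlgClosure.equivOfEquiv K L e'.toRingEquiv, fun a => ?_⟩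
  rw [IsScalarTower.algebraMap_apply R (Algebra.adjoin R (Set.range ((↑) : s → K))) K a,
    IsAlgClosure.equivOfEquiv_algebraMap]
  have : e'.toRingEquiv (algebraMap R _ a) = algebraMap R _ a := e'.commutes a
  rw [this, ← IsScalarTower.algebraMap_apply]

theorem aut_ring {A : Type} [CommRing A] [Nontrivial A] (hA : Cardinal.mk A ≤ Cardinal.aleph0)
    (φ ψ : A →+* ℂ) (hφ : Function.Injective φ) (hψ : Function.Injective ψ) :
    ∃ σ : ℂ ≃+* ℂ, ∀ a, σ (φ a) = ψ a := by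
  have hC : Cardinal.aleph0 < Cardinal.mk ℂ := by
    rw [Cardinal.mk_complex]; exact Cardinal.aleph0_lt_continuum
  exact @aut_aux A ℂ ℂ _ _ _ _ φ.toAlgebra ψ.toAlgebra _ _ hφ hψ hA hC rfl

/-- Two embeddings of a countable field differ by an automorphism of `ℂ`. -/
theorem exists_aut {A : Type} [Field A] [Countable A] (φ ψ : A →+* ℂ) :
    ∃ σ : ℂ ≃+* ℂ, ∀ a, σ (φ a) = ψ a :=
  aut_ring Cardinal.mk_le_aleph0 φ ψ φ.injective ψ.injective

theorem exists_aut_transc {x y : ℂ} (hx : Transcendental ℚ x) (hy : Transcendental ℚ y) :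
    ∃ σ : ℂ ≃+* ℂ, σ x = y := by
  have hA : Cardinal.mk (Polynomial ℚ) ≤ Cardinal.aleph0 := by
    refine Polynomial.cardinalMk_le_max.trans ?_
    simp
  obtain ⟨σ, hσ⟩ := aut_ring hA (Polynomial.aeval x : Polynomial ℚ →ₐ[ℚ] ℂ).toRingHom
    (Polynomial.aeval y : Polynomial ℚ →ₐ[ℚ] ℂ).toRingHom
    (transcendental_iff_injective.1 hx) (transcendental_iff_injective.1 hy)
  refine ⟨σ, ?_⟩
  simpa using hσ Polynomial.X

theorem algebraic_of_finite_orbit {x : ℂ} (h : {y | ∃ σ : ℂ ≃+* ℂ, σ x = y}.Finite) :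
    IsAlgebraic ℚ x := by
  by_contra hx
  have hx' : Transcendental ℚ x := hx
  refine h.not_infinite (Set.infinite_of_injective_forall_mem (f := fun n : ℕ => x + n) ?_ ?_)
  · intro a b hab
    simpa using hab
  · intro n
    refine exists_aut_transc hx' fun hn => hx ?_
    have h2 : IsAlgebraic ℚ ((n : ℕ) : ℂ) := isAlgebraic_natCast n
    simpa using hn.sub h2

/-- `σ` fixes all algebraic numbers of degree at most `d`. -/
def FixD (d : ℕ) (σ : ℂ ≃+* ℂ) : Prop :=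
  ∀ (x : ℂ) (P : Polynomial ℚ), P ≠ 0 → P.natDegree ≤ d → Polynomial.aeval x P = 0 → σ x = x

theorem aut_root (σ : ℂ ≃+* ℂ) {x : ℂ} {P : Polynomial ℚ} (h : Polynomial.aeval x P = 0) :
    Polynomial.aeval (σ x) P = 0 := by
  have := Polynomial.aeval_algHom_apply (σ.toRingHom.toRatAlgHom) x P
  rw [h, map_zero] at this
  exact this

theorem aut_pow_fix (σ : ℂ ≃+* ℂ) {x : ℂ} {k : ℕ} (h : (σ ^ k) x = x) (m : ℕ) :
    (σ ^ (k * m)) x = x := by
  induction m with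
  | zero => simp only [mul_zero, pow_zero]; rfl
  | succ m ih =>
    rw [mul_add, mul_one, pow_add]
    change (σ ^ (k * m)) ((σ ^ k) x) = x
    rw [h, ih]

theorem fixD_pow (d : ℕ) (σ : ℂ ≃+* ℂ) : FixD d (σ ^ d.factorial) := by
  classical
  intro x P hP hd hx
  have hmaps : ∀ k ∈ Finset.range (d + 1), (σ ^ k) x ∈ (P.aroots ℂ).toFinset := by
    intro k _
    rw [Multiset.mem_toFinset, Polynomial.mem_aroots]
    exact ⟨hP, aut_root _ hx⟩
  have hcard : (P.aroots ℂ).toFinset.card < (Finset.range (d + 1)).card := by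
    rw [Finset.card_range]
    have h1 := Multiset.toFinset_card_le (P.aroots ℂ)
    have h2 := Polynomial.card_roots' (P.map (algebraMap ℚ ℂ))
    have h3 := Polynomial.natDegree_map_le (f := algebraMap ℚ ℂ) (p := P)
    have h4 : Multiset.card (P.aroots ℂ) = Multiset.card (P.map (algebraMap ℚ ℂ)).roots := rfl
    omega
  obtain ⟨i, hi, j, hj, hij, he⟩ := Finset.exists_ne_map_eq_of_card_lt_of_maps_to hcard hmaps
  have key : ∀ i j : ℕ, i < j → j < d + 1 → (σ ^ i) x = (σ ^ j) x → (σ ^ d.factorial) x = x := by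
    intro i j hlt hj he
    obtain ⟨k, rfl⟩ := Nat.exists_eq_add_of_lt hlt
    have h1 : (σ ^ (k + 1)) x = x := by
      apply (σ ^ i).injective
      rw [he, add_assoc, pow_add σ i]
      rfl
    obtain ⟨m, hm⟩ : k + 1 ∣ d.factorial := Nat.dvd_factorial (Nat.succ_pos k) (by omega)
    rw [hm]
    exact aut_pow_fix σ h1 m
  rw [Finset.mem_range] at hi hj
  rcases lt_or_gt_of_ne hij with h | h
  · exact key i j h hj he
  · exact key j i h hi he.symm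

theorem FixD.mul {d : ℕ} {σ τ : ℂ ≃+* ℂ} (h : FixD d σ) (h' : FixD d τ) : FixD d (σ * τ) := by
  intro x P hP hd hx
  change σ (τ x) = x
  rw [h' x P hP hd hx, h x P hP hd hx]

theorem FixD.conj {d : ℕ} {σ : ℂ ≃+* ℂ} (h : FixD d σ) (τ : ℂ ≃+* ℂ) : FixD d (τ * σ * τ⁻¹) := by
  intro x P hP hd hx
  change τ (σ (τ.symm x)) = x
  rw [h (τ.symm x) P hP hd (aut_root _ hx), RingEquiv.apply_symm_apply]

theorem FixD.th {d : ℕ} (hd : 2 ≤ d) {σ : ℂ ≃+* ℂ} (h : FixD d σ) {D : ℤ} (hD : D ≤ 0) :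
    σ (th D) = th D := by
  refine h _ (Polynomial.X ^ 2 - Polynomial.C (D : ℚ)) (Polynomial.X_pow_sub_C_ne_zero (by norm_num) _)
    ?_ ?_
  · rw [Polynomial.natDegree_X_pow_sub_C]; exact hd
  · simp [th_sq hD]

theorem FixD.field {d : ℕ} {σ : ℂ ≃+* ℂ} (h : FixD d σ) (F : IntermediateField ℚ ℂ)
    [FiniteDimensional ℚ F] (hd : Module.finrank ℚ F ≤ d) : ∀ a ∈ F, σ a = a := by
  intro a ha
  have hi : IsIntegral ℚ (⟨a, ha⟩ : F) := IsIntegral.of_finite ℚ _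
  refine h a (minpoly ℚ (⟨a, ha⟩ : F)) (minpoly.ne_zero hi)
    ((minpoly.natDegree_le _).trans hd) ?_
  have := Polynomial.aeval_algebraMap_apply ℂ (⟨a, ha⟩ : F) (minpoly ℚ (⟨a, ha⟩ : F))
  rw [minpoly.aeval, map_zero] at this
  exact this

theorem aut_th (σ : ℂ ≃+* ℂ) {D : ℤ} (hD : D ≤ 0) : σ (th D) = th D ∨ σ (th D) = -th D := by
  apply sq_eq_sq_iff_eq_or_eq_neg.1
  rw [← map_pow, th_sq hD, map_intCast]

theorem aut_th_ne {D : ℤ} (hD : D < 0) : th D ≠ 0 := by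
  intro h
  have := th_sq hD.le
  rw [h] at this
  have h2 : (D : ℂ) = 0 := by rw [← this]; norm_num
  exact hD.ne (by exact_mod_cast h2)

theorem exists_tau {D D' : ℤ} (hD : D < 0) (hD' : D' < 0) (h : ¬ IsSquare (D' * D)) :
    ∃ τ : ℂ ≃+* ℂ, τ (th D) = th D ∧ τ (th D') = -th D' := by
  have hs : (th D' * th D) * (th D' * th D) = ((D' * D : ℤ) : ℂ) := by
    have h1 := th_sq hD.le
    have h2 := th_sq hD'.le
    push_cast
    rw [← h1, ← h2]; ring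
  have hs' : (-(th D' * th D)) * (-(th D' * th D)) = ((D' * D : ℤ) : ℂ) := by
    rw [neg_mul_neg, hs]
  have hn : ∀ n : ℤ, D' * D ≠ n * n := fun n hn => h ⟨n, hn⟩
  haveI : Countable (Zsqrtd (D' * D)) :=
    Function.Injective.countable (f := fun a : Zsqrtd (D' * D) => (a.re, a.im))
      fun a b hab => Zsqrtd.ext (congrArg Prod.fst hab) (congrArg Prod.snd hab)
  obtain ⟨σ, hσ⟩ := aut_ring (A := Zsqrtd (D' * D)) Cardinal.mk_le_aleph0
    (Zsqrtd.lift ⟨_, hs⟩) (Zsqrtd.lift ⟨_, hs'⟩) (Zsqrtd.lift_injective _ hn)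
    (Zsqrtd.lift_injective _ hn)
  have h0 : σ (th D') * σ (th D) = -(th D' * th D) := by
    have := hσ Zsqrtd.sqrtd
    simpa using this
  have n1 := aut_th_ne hD
  have n2 := aut_th_ne hD'
  have n3 : th D' * th D ≠ 0 := mul_ne_zero n2 n1
  rcases aut_th σ hD.le with a | a <;> rcases aut_th σ hD'.le with b | b
  · rw [a, b] at h0
    exact absurd (by linear_combination h0 / 2) n3
  · exact ⟨σ, a, b⟩
  · refine ⟨σ.trans (starRingAut : RingAut ℂ), ?_, ?_⟩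
    · change starRingEnd ℂ (σ (th D)) = th D
      rw [a, map_neg, conj_th, neg_neg]
    · change starRingEnd ℂ (σ (th D')) = -th D'
      rw [b, conj_th]
  · rw [a, b] at h0
    exact absurd (by linear_combination h0 / 2) n3

end Pool.Agent.P.MP_20768c_nt.Az.EQ

end

end

-- part ad7a55_nt.VAct
section

/-! Integer matrices of positive determinant acting on the upper half plane. -/

set_option autoImplicit false

noncomputable section

open MeasureTheory Topology Filter UpperHalfPlane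
open scoped MatrixGroups ENNReal BoundedContinuousFunction

namespace Pool.Agent.P.MP_20768c_nt.Az.EQ

abbrev MZ : Type := Matrix (Fin 2) (Fin 2) ℤ

theorem vact_den {ξ : MZ} (h : 0 < ξ.det) (τ : ℍ) : (ξ 1 0 : ℂ) * τ + ξ 1 1 ≠ 0 := fun e => by
  obtain ⟨h0, h1⟩ := int_indep_lat τ e
  rw [Matrix.det_fin_two, h0, h1] at h
  simp at h

theorem act_im {ξ : MZ} (h : 0 < ξ.det) (τ : ℍ) :
    0 < (((ξ 0 0 : ℂ) * τ + ξ 0 1) / ((ξ 1 0 : ℂ) * τ + ξ 1 1)).im := by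
  have hn := Complex.normSq_pos.2 (vact_den h τ)
  have hd : (0 : ℝ) < ξ 0 0 * ξ 1 1 - ξ 0 1 * ξ 1 0 := by
    rw [Matrix.det_fin_two] at h
    exact_mod_cast h
  rw [Complex.div_im, ← sub_div]
  refine div_pos ?_ hn
  simp only [Complex.add_im, Complex.mul_im, Complex.intCast_re, Complex.intCast_im, zero_mul,
    add_zero, coe_im, Complex.add_re, Complex.mul_re, sub_zero, coe_re]
  have := mul_pos hd τ.im_pos
  linarith

/-- The Moebius action of an integer matrix of positive determinant. -/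
def act (ξ : MZ) (τ : ℍ) : ℍ :=
  if h : 0 < ξ.det then ⟨((ξ 0 0 : ℂ) * τ + ξ 0 1) / ((ξ 1 0 : ℂ) * τ + ξ 1 1), act_im h τ⟩ else τ

theorem coe_act {ξ : MZ} (h : 0 < ξ.det) (τ : ℍ) :
    (act ξ τ : ℂ) = ((ξ 0 0 : ℂ) * τ + ξ 0 1) / ((ξ 1 0 : ℂ) * τ + ξ 1 1) := by
  simp only [act, dif_pos h]

theorem act_den {ξ : MZ} (h : 0 < ξ.det) (τ : ℍ) : (ξ 1 0 : ℂ) * τ + ξ 1 1 ≠ 0 :=
  vact_den h τ

theorem vact_den_mul {ξ : MZ} (h : 0 < ξ.det) (τ : ℍ) :
    ((ξ 1 0 : ℂ) * τ + ξ 1 1) * (act ξ τ : ℂ) = (ξ 0 0 : ℂ) * τ + ξ 0 1 := by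
  rw [coe_act h, mul_div_cancel₀ _ (act_den h τ)]

theorem vact_ext {ξ : MZ} (h : 0 < ξ.det) {τ τ' : ℍ}
    (e : ((ξ 1 0 : ℂ) * τ + ξ 1 1) * (τ' : ℂ) = (ξ 0 0 : ℂ) * τ + ξ 0 1) : act ξ τ = τ' := by
  apply UpperHalfPlane.ext
  apply mul_left_cancel₀ (act_den h τ)
  rw [vact_den_mul h, e]

theorem act_mul {ξ η : MZ} (h : 0 < ξ.det) (h' : 0 < η.det) (τ : ℍ) :
    act (ξ * η) τ = act ξ (act η τ) := by
  have h2 : 0 < (ξ * η).det := by rw [Matrix.det_mul]; exact mul_pos h h'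
  refine vact_ext h2 ?_
  have e1 := vact_den_mul h' τ
  have e2 := vact_den_mul h (act η τ)
  simp only [Matrix.mul_apply, Fin.sum_univ_two]
  push_cast
  linear_combination ((η 1 0 : ℂ) * τ + η 1 1) * e2 +
    ((ξ 0 0 : ℂ) - ξ 1 0 * (act ξ (act η τ) : ℂ)) * e1

theorem vact_SL_det (γ : SL(2, ℤ)) : 0 < (γ : MZ).det := by
  rw [γ.det_coe]; exact one_pos

theorem act_SL (γ : SL(2, ℤ)) (τ : ℍ) : act (γ : MZ) τ = γ • τ :=
  vact_ext (vact_SL_det γ) (sl_den_mul_lat γ τ)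

theorem act_one (τ : ℍ) : act 1 τ = τ :=
  vact_ext (by simp) (by simp)

theorem act_smul {ξ : MZ} (h : 0 < ξ.det) {m : ℤ} (hm : m ≠ 0) (τ : ℍ) :
    act (m • ξ) τ = act ξ τ := by
  have h2 : 0 < (m • ξ).det := by
    rw [Matrix.det_smul, Fintype.card_fin]
    exact mul_pos (by positivity) h
  refine vact_ext h2 ?_
  have e1 := vact_den_mul h τ
  simp only [Matrix.smul_apply, smul_eq_mul]
  push_cast
  linear_combination (m : ℂ) * e1

theorem continuous_act (ξ : MZ) : Continuous (act ξ) := by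
  by_cases h : 0 < ξ.det
  · rw [isEmbedding_coe.continuous_iff]
    have : ((↑) : ℍ → ℂ) ∘ act ξ =
        fun τ : ℍ => ((ξ 0 0 : ℂ) * τ + ξ 0 1) / ((ξ 1 0 : ℂ) * τ + ξ 1 1) :=
      funext fun τ => coe_act h τ
    rw [this]
    exact ((continuous_const.mul continuous_coe).add continuous_const).div
      ((continuous_const.mul continuous_coe).add continuous_const) (act_den h)
  · have : act ξ = id := funext fun τ => by simp only [act, dif_neg h, id]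
    rw [this]
    exact continuous_id

theorem act_real {ξ : MZ} {g : SL(2, ℝ)} {c : ℝ} (hc : c ≠ 0)
    (h : ∀ i j, (ξ i j : ℝ) = c * g i j) (τ : ℍ) : 0 < ξ.det ∧ act ξ τ = g • τ := by
  have hg := g.det_coe
  rw [Matrix.det_fin_two] at hg
  have hd : 0 < ξ.det := by
    have : ((ξ.det : ℤ) : ℝ) = c ^ 2 := by
      rw [Matrix.det_fin_two]
      push_cast
      rw [h, h, h, h]
      linear_combination c ^ 2 * hg
    have h2 : (0 : ℝ) < ((ξ.det : ℤ) : ℝ) := by rw [this]; positivity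
    exact_mod_cast h2
  refine ⟨hd, ?_⟩
  have hC : ∀ i j, (ξ i j : ℂ) = (c : ℂ) * (g i j : ℝ) := fun i j => by
    rw [← Complex.ofReal_intCast, h, Complex.ofReal_mul]
  apply UpperHalfPlane.ext
  have hc' : (c : ℂ) ≠ 0 := by exact_mod_cast hc
  rw [coe_act hd, coe_specialLinearGroup_apply, hC, hC, hC, hC, mul_assoc, mul_assoc, ← mul_add,
    ← mul_add, mul_div_mul_left _ _ hc']
  simp

theorem exists_real {ξ : MZ} (h : 0 < ξ.det) :
    ∃ (g : SL(2, ℝ)) (c : ℝ), c ≠ 0 ∧ ∀ i j, (ξ i j : ℝ) = c * g i j := by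
  have hd : (0 : ℝ) < (ξ.det : ℝ) := by exact_mod_cast h
  have hc : Real.sqrt (ξ.det : ℝ) ≠ 0 := (Real.sqrt_pos.2 hd).ne'
  have hs := Real.mul_self_sqrt hd.le
  generalize Real.sqrt (ξ.det : ℝ) = c at hc hs
  rw [Matrix.det_fin_two] at hs
  push_cast at hs
  refine ⟨⟨Matrix.of fun i j => (ξ i j : ℝ) / c, ?_⟩, c, hc, fun i j => ?_⟩
  · rw [Matrix.det_fin_two]
    simp only [Matrix.of_apply]
    field_simp
    linear_combination -hs
  · change _ = c * ((ξ i j : ℝ) / c)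
    field_simp

theorem act_hnf {ξ : MZ} (h : 0 < ξ.det) : ∃ (γ : SL(2, ℤ)) (a d : ℕ) (b : ℤ), 0 < a ∧ 0 < d ∧
    (a * d : ℤ) = ξ.det ∧ ξ = (γ : MZ) * !![(a : ℤ), b; 0, (d : ℤ)] := by
  have hdet := Matrix.det_fin_two ξ
  have hg : 0 < Int.gcd (ξ 0 0) (ξ 1 0) := by
    rw [Int.gcd_pos_iff]
    by_contra hc
    rw [not_or, not_not, not_not] at hc
    rw [hdet, hc.1, hc.2] at h
    simp at h
  have hb := Int.gcd_eq_gcd_ab (ξ 0 0) (ξ 1 0)
  obtain ⟨p, hp⟩ := Int.gcd_dvd_left (ξ 0 0) (ξ 1 0)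
  obtain ⟨r, hr⟩ := Int.gcd_dvd_right (ξ 0 0) (ξ 1 0)
  generalize Int.gcdA (ξ 0 0) (ξ 1 0) = x at hb
  generalize Int.gcdB (ξ 0 0) (ξ 1 0) = y at hb
  generalize Int.gcd (ξ 0 0) (ξ 1 0) = a at hg hb hp hr
  have ha : (0 : ℤ) < a := by exact_mod_cast hg
  have h1 : p * x + r * y = 1 := by
    apply mul_left_cancel₀ ha.ne'
    rw [hp, hr] at hb
    linear_combination -hb
  have h2 : (a : ℤ) * (p * ξ 1 1 - r * ξ 0 1) = ξ.det := by
    rw [hdet, hp, hr]; ring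
  have h3 : 0 < p * ξ 1 1 - r * ξ 0 1 := (mul_pos_iff_of_pos_left ha).1 (h2 ▸ h)
  obtain ⟨d, hd⟩ := Int.eq_ofNat_of_zero_le h3.le
  refine ⟨⟨!![p, -y; r, x], by rw [Matrix.det_fin_two_of]; linear_combination h1⟩, a, d,
    x * ξ 0 1 + y * ξ 1 1, hg, by omega, by rw [← hd, h2], ?_⟩
  ext i j
  fin_cases i <;> fin_cases j <;> simp [Matrix.mul_apply, Fin.sum_univ_two, ← hd]
  · rw [hp]; ring
  · linear_combination (-ξ 0 1) * h1
  · rw [hr]; ring
  · linear_combination (-ξ 1 1) * h1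

theorem act_conj {ξ : MZ} (h : 0 < ξ.det) (N : ℕ) {γ : SL(2, ℤ)}
    (hγ : γ ∈ CongruenceSubgroup.Gamma (N * ξ.det.natAbs)) :
    ∃ γ' ∈ CongruenceSubgroup.Gamma N, ξ * (γ : MZ) = (γ' : MZ) * ξ := by
  have hn : ((N * ξ.det.natAbs : ℕ) : ℤ) = N * ξ.det := by
    rw [Nat.cast_mul, Int.natAbs_of_nonneg h.le]
  rw [CongruenceSubgroup.Gamma_mem] at hγ
  obtain ⟨g0, g1, g2, g3⟩ := hγ
  have k0 : ((γ 0 0 - 1 : ℤ) : ZMod (N * ξ.det.natAbs)) = 0 := by push_cast; rw [g0, sub_self]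
  have k3 : ((γ 1 1 - 1 : ℤ) : ZMod (N * ξ.det.natAbs)) = 0 := by push_cast; rw [g3, sub_self]
  rw [ZMod.intCast_zmod_eq_zero_iff_dvd, hn] at k0 g1 g2 k3
  obtain ⟨a, ha⟩ := k0
  obtain ⟨b, hb⟩ := g1
  obtain ⟨c, hc⟩ := g2
  obtain ⟨d, hd⟩ := k3
  have hγ : (γ : MZ) = 1 + (N * ξ.det : ℤ) • !![a, b; c, d] := by
    ext i j
    fin_cases i <;> fin_cases j <;> simp
    · linear_combination ha
    · linear_combination hb
    · linear_combination hc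
    · linear_combination hd
  have he : ξ * (γ : MZ) = (1 + (N : ℤ) • (ξ * !![a, b; c, d] * ξ.adjugate)) * ξ := by
    rw [hγ, mul_add, add_mul, mul_one, one_mul, smul_mul_assoc, mul_assoc _ _ ξ,
      Matrix.adjugate_mul, mul_smul_comm, mul_smul_comm, mul_one, smul_smul]
  have hdet : (1 + (N : ℤ) • (ξ * !![a, b; c, d] * ξ.adjugate)).det = 1 := by
    have := congrArg Matrix.det he
    rw [Matrix.det_mul, Matrix.det_mul, γ.det_coe, mul_comm] at this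
    exact (mul_right_cancel₀ h.ne' this).symm
  refine ⟨⟨_, hdet⟩, ?_, he⟩
  rw [CongruenceSubgroup.Gamma_mem]
  generalize ξ * !![a, b; c, d] * ξ.adjugate = B at hdet
  simp only [Matrix.add_apply, Matrix.smul_apply, smul_eq_mul]
  simp

theorem isog_act {ξ : MZ} (h : 0 < ξ.det) (τ : ℍ) :
    Isog ξ.det.natAbs (jInv (act ξ τ)) (jInv τ) := by
  have hn : ((ξ.det.natAbs : ℕ) : ℂ) = (ξ 0 0 : ℂ) * ξ 1 1 - ξ 0 1 * ξ 1 0 := by
    rw [← Int.cast_natCast, Int.natAbs_of_nonneg h.le, Matrix.det_fin_two]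
    push_cast
    rfl
  refine ⟨_, _, isLat_sp (act_den h τ) (act ξ τ), isLat_one τ, jL_sp (act_den h τ) _, jL_one τ,
    ?_, ?_⟩
  · rw [vact_den_mul h]
    exact sp_le_iff_lat.2 ⟨mem_sp.2 ⟨ξ 1 1, ξ 1 0, by ring⟩, mem_sp.2 ⟨ξ 0 1, ξ 0 0, by ring⟩⟩
  · rw [vact_den_mul h, pr_mul_sp, hn]
    exact sp_le_iff_lat.2 ⟨mem_sp.2 ⟨ξ 0 0, -ξ 1 0, by push_cast; ring⟩,
      mem_sp.2 ⟨-ξ 0 1, ξ 1 1, by push_cast; ring⟩⟩

theorem Isog.exists_act {M : ℕ} (hM : 0 < M) {τ τ' : ℍ} (h : Isog M (jInv τ') (jInv τ)) :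
    ∃ ξ : MZ, 0 < ξ.det ∧ ξ.det ∣ (M : ℤ) ^ 2 ∧ τ' = act ξ τ := by
  obtain ⟨Λ₁, Λ₂, h1, h2, j1, j2, l1, l2⟩ := h
  obtain ⟨c, hc, rfl⟩ := jL_inj (isLat_one τ) h2 (by rw [j2, jL_one])
  rw [pr_mul_sp, mul_one] at l1 l2
  obtain ⟨a, d, b, ha, hd, haM, hdM, -, -, rfl⟩ := hnf hc τ hM l2 l1
  have hdet : (!![(d : ℤ), b; 0, (a : ℤ)] : MZ).det = d * a := by
    rw [Matrix.det_fin_two_of]; ring
  have hpos : 0 < (!![(d : ℤ), b; 0, (a : ℤ)] : MZ).det := by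
    rw [hdet]; positivity
  have ha' : (a : ℂ) ≠ 0 := by exact_mod_cast ha.ne'
  have e := vact_den_mul hpos τ
  have e2 : c * (d * τ + b) = a * c * (act !![(d : ℤ), b; 0, (a : ℤ)] τ : ℂ) := by
    simp only [Matrix.of_apply, Matrix.cons_val', Matrix.cons_val_zero, Matrix.cons_val_one,
      Matrix.cons_val_fin_one, Int.cast_zero, zero_mul, zero_add, Int.cast_natCast] at e
    linear_combination (-c) * e
  rw [e2, jL_sp (mul_ne_zero ha' hc)] at j1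
  obtain ⟨γ, rfl⟩ := jInv_inj j1
  refine ⟨(γ : MZ) * !![(d : ℤ), b; 0, (a : ℤ)], ?_, ?_, ?_⟩
  · rw [Matrix.det_mul, γ.det_coe, one_mul]; exact hpos
  · rw [Matrix.det_mul, γ.det_coe, one_mul, hdet, sq]
    exact mul_dvd_mul (by exact_mod_cast hdM) (by exact_mod_cast haM)
  · rw [act_mul (vact_SL_det γ) hpos, act_SL]

theorem vact_mono (c : ℂ) {Λ Λ' : Lt} (h : Λ ≤ Λ') : pr c * Λ ≤ pr c * Λ' :=
  pr_mul_le.mpr fun w hw => mem_pr_mul.mpr ⟨w, h hw, rfl⟩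

theorem Isog.symm {M : ℕ} (hM : 0 < M) {a b : ℂ} (h : Isog M a b) : Isog M b a := by
  obtain ⟨Λ₁, Λ₂, h1, h2, j1, j2, l1, l2⟩ := h
  have hM' : (M : ℂ) ≠ 0 := by exact_mod_cast hM.ne'
  exact ⟨pr M * Λ₂, Λ₁, h2.pr_mul hM', h1, by rw [jL_pr_mul h2 hM', j2], j1, l2, vact_mono _ l1⟩

theorem Isog.trans {M M' : ℕ} {a b c : ℂ} (h : Isog M a b) (h' : Isog M' b c) :
    Isog (M * M') a c := by
  obtain ⟨Λ₁, Λ₂, h1, h2, j1, j2, l1, l2⟩ := h
  obtain ⟨Λ₃, Λ₄, h3, h4, j3, j4, l3, l4⟩ := h'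
  obtain ⟨t, ht, rfl⟩ := jL_inj h3 h2 (by rw [j2, j3])
  refine ⟨Λ₁, pr t * Λ₄, h1, h4.pr_mul ht, j1, by rw [jL_pr_mul h4 ht, j4],
    l1.trans (vact_mono _ l3), le_trans ?_ l2⟩
  rw [Nat.cast_mul, ← pr_mul_pr, mul_assoc, mul_left_comm (pr (M' : ℂ))]
  exact vact_mono _ (vact_mono _ l4)

theorem Isog.mono {M M' : ℕ} (hM : M ∣ M') {a b : ℂ} (h : Isog M a b) : Isog M' a b := by
  obtain ⟨Λ₁, Λ₂, h1, h2, j1, j2, l1, l2⟩ := h
  obtain ⟨k, rfl⟩ := hM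
  refine ⟨Λ₁, Λ₂, h1, h2, j1, j2, l1, le_trans ?_ l2⟩
  rw [Nat.cast_mul, ← pr_mul_pr, mul_assoc]
  refine vact_mono _ ?_
  simpa using pr_int_le (k : ℤ) Λ₂

theorem isog_refl (a : ℂ) : Isog 1 a a := by
  obtain ⟨Λ, h, j⟩ := jL_surj a
  exact ⟨Λ, Λ, h, h, j, j, le_rfl, by simp⟩

/-- Only finitely many matrices of a given determinant modulo a congruence subgroup. -/
theorem finite_act (N : ℕ) (hN : 0 < N) {δ : ℤ} (hδ : δ ≠ 0) : ∃ R : Finset MZ,
    (∀ η ∈ R, 0 < η.det ∧ η.det ∣ δ) ∧ ∀ ξ : MZ, 0 < ξ.det → ξ.det ∣ δ →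
      ∃ η ∈ R, ∃ γ ∈ CongruenceSubgroup.Gamma N, ξ = (γ : MZ) * η := by
  classical
  have : NeZero N := ⟨hN.ne'⟩
  have := CongruenceSubgroup.Gamma_normal N
  have : Fintype (SL(2, ℤ) ⧸ CongruenceSubgroup.Gamma N) := Fintype.ofFinite _
  let I : Finset ℤ := Finset.Icc 0 |δ|
  let f : (SL(2, ℤ) ⧸ CongruenceSubgroup.Gamma N) × ℤ × ℤ × ℤ → MZ :=
    fun z => ((z.1.out : SL(2, ℤ)) : MZ) * !![z.2.1, z.2.2.1; 0, z.2.2.2]
  refine ⟨((Finset.univ ×ˢ I ×ˢ I ×ˢ I).image f).filter fun η => 0 < η.det ∧ η.det ∣ δ,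
    fun η hη => (Finset.mem_filter.1 hη).2, fun ξ h hd => ?_⟩
  obtain ⟨γ, a, d, b, ha, hd0, had, hξ⟩ := act_hnf h
  have ha' : (0 : ℤ) < a := by exact_mod_cast ha
  have hd' : (0 : ℤ) < d := by exact_mod_cast hd0
  have hle : (a : ℤ) * d ≤ |δ| := by
    rw [had]
    exact Int.le_of_dvd (abs_pos.2 hδ) ((dvd_abs _ _).2 hd)
  have h1 : (a : ℤ) ≤ |δ| := by nlinarith
  have h2 : (d : ℤ) ≤ |δ| := by nlinarith
  have h3 := Int.emod_nonneg b hd'.ne'
  have h4 := Int.emod_lt_of_pos b hd'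
  let T : SL(2, ℤ) := ⟨!![1, b / d; 0, 1], by rw [Matrix.det_fin_two_of]; ring⟩
  have hT : (!![(a : ℤ), b; 0, (d : ℤ)] : MZ) = (T : MZ) * !![(a : ℤ), b % d; 0, (d : ℤ)] := by
    change _ = (!![1, b / d; 0, 1] : MZ) * _
    have := Int.emod_add_ediv_mul b d
    ext i j
    fin_cases i <;> fin_cases j <;> simp [Matrix.mul_apply, Fin.sum_univ_two, this]
  let q : SL(2, ℤ) ⧸ CongruenceSubgroup.Gamma N := ((γ * T : SL(2, ℤ)) : _ ⧸ _)
  have hq : γ * T / q.out ∈ CongruenceSubgroup.Gamma N :=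
    QuotientGroup.eq_iff_div_mem.1 (QuotientGroup.out_eq' q).symm
  have he : ξ = ((γ * T / q.out : SL(2, ℤ)) : MZ) * f (q, a, b % d, d) := by
    change _ = _ * (((q.out : SL(2, ℤ)) : MZ) * !![(a : ℤ), b % d; 0, (d : ℤ)])
    rw [← mul_assoc, ← Matrix.SpecialLinearGroup.coe_mul, div_mul_cancel,
      Matrix.SpecialLinearGroup.coe_mul, mul_assoc, ← hT, ← hξ]
  have hdet : (f (q, a, b % d, d)).det = ξ.det := by
    conv_rhs => rw [he, Matrix.det_mul, Matrix.SpecialLinearGroup.det_coe, one_mul]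
  refine ⟨f (q, a, b % d, d), Finset.mem_filter.2 ⟨Finset.mem_image_of_mem f ?_, ?_⟩, _, hq, he⟩
  · simp only [Finset.mem_product, Finset.mem_univ, true_and, I, Finset.mem_Icc]
    exact ⟨⟨ha'.le, h1⟩, ⟨h3, h4.le.trans h2⟩, hd'.le, h2⟩
  · rw [hdet]; exact ⟨h, hd⟩

/-- A point of large discriminant is fixed only by plus or minus one. -/
theorem HasDisc.stab {τ : ℍ} {D : ℤ} (h : HasDisc τ D) (hD : D < -4) {γ : SL(2, ℤ)}
    (hγ : γ • τ = τ) : γ = 1 ∨ γ = -1 := by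
  obtain ⟨A, B, C, -, hg, hq, rfl⟩ := h
  obtain ⟨u, v, w, hb⟩ := ord_bezout hg
  have e := sl_den_mul_lat γ τ
  rw [hγ] at e
  have hdet := γ.det_coe
  rw [Matrix.det_fin_two] at hdet
  obtain ⟨h1, h2⟩ := int_indep_lat τ (p := A * (γ 1 1 - γ 0 0) - γ 1 0 * B)
    (q := -A * γ 0 1 - γ 1 0 * C) (by push_cast; linear_combination A * e - γ 1 0 * hq)
  obtain ⟨h3, h4⟩ := int_indep_lat τ (p := (γ 1 1 - γ 0 0) * C + γ 0 1 * B) (q := 0) (by
    have hτ : (τ : ℂ) ≠ 0 := τ.ne_zero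
    have h1' : (A : ℂ) * (γ 1 1 - γ 0 0) - γ 1 0 * B = 0 := by exact_mod_cast h1
    have h2' : -(A : ℂ) * γ 0 1 - γ 1 0 * C = 0 := by exact_mod_cast h2
    push_cast
    linear_combination C * e + γ 0 1 * hq + (τ : ℂ) ^ 2 * h2')
  obtain ⟨t, ht⟩ : ∃ t, t = u * γ 1 0 + v * (γ 1 1 - γ 0 0) - w * γ 0 1 := ⟨_, rfl⟩
  have k1 : γ 1 0 = t * A := by rw [ht]; linear_combination (-γ 1 0) * hb - v * h1 - w * h2
  have k2 : γ 1 1 - γ 0 0 = t * B := by
    rw [ht]; linear_combination (-(γ 1 1 - γ 0 0)) * hb + u * h1 + w * h3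
  have k3 : -γ 0 1 = t * C := by rw [ht]; linear_combination γ 0 1 * hb + u * h2 - v * h3
  have k4 : (γ 0 0 + γ 1 1) ^ 2 - 4 = t ^ 2 * (B ^ 2 - 4 * A * C) := by
    have k3' : γ 0 1 = -(t * C) := by linear_combination -k3
    have k2' : γ 1 1 = γ 0 0 + t * B := by linear_combination k2
    rw [k1, k3', k2'] at hdet
    rw [k2']
    linear_combination 4 * hdet
  have ht0 : t = 0 := by
    by_contra hne
    have h5 : 0 < t ^ 2 := by positivity
    nlinarith [sq_nonneg (γ 0 0 + γ 1 1)]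
  rw [ht0, zero_mul] at k1 k2 k3
  have k5 : γ 0 1 = 0 := by linear_combination -k3
  have k6 : γ 1 1 = γ 0 0 := by linear_combination k2
  rw [k1, k5, k6, mul_zero, sub_zero] at hdet
  rcases Int.eq_one_or_neg_one_of_mul_eq_one hdet with k7 | k7
  · left
    ext i j
    fin_cases i <;> fin_cases j <;> simp [k1, k5, k6, k7]
  · right
    ext i j
    fin_cases i <;> fin_cases j <;> simp [k1, k5, k6, k7]

end Pool.Agent.P.MP_20768c_nt.Az.EQ

end

end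

-- part Cu.Defs
section

set_option autoImplicit false

open Complex NumberField IsDedekindDomain
open UpperHalfPlane hiding I
open scoped ComplexConjugate Real MatrixGroups

namespace Pool.Agent.P.MP_20768c_nt.Az.Cu

open Pool.Agent.P.MP_20768c_nt.Az.EQ (Lt pr sp IsLat jL qN)

noncomputable section

/-! ### Lattice functions -/

def wp (L : Lt) (z : ℂ) : ℂ := ∑' l : L, (1 / (z - l) ^ 2 - 1 / (l : ℂ) ^ 2)

def wpd (L : Lt) (z : ℂ) : ℂ := -∑' l : L, 2 / (z - l) ^ 3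

def Gk (L : Lt) (n : ℕ) : ℂ := ∑' l : L, ((l : ℂ) ^ n)⁻¹

def g2 (L : Lt) : ℂ := 60 * Gk L 4

def g3 (L : Lt) : ℂ := 140 * Gk L 6

def dl (L : Lt) : ℂ := g2 L ^ 3 - 27 * g3 L ^ 2

def UU (L : Lt) : ℂ := -18 * g3 L / g2 L

def XX (L : Lt) (z : ℂ) : ℂ := wp L z / UU L

open Classical in
/-- area of a fundamental parallelogram -/
def ar (L : Lt) : ℝ := if h : IsLat L then ‖h.choose‖ ^ 2 * h.choose_spec.choose.im else 0

/-- `R` is a system of representatives of `L' / L` containing `0` -/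
def Reps (L L' : Lt) (R : Finset ℂ) : Prop :=
  L ≤ L' ∧ 0 ∈ R ∧ (∀ r ∈ R, r ∈ L') ∧ ∀ x ∈ L', ∃! r, r ∈ R ∧ x - r ∈ L

/-- `L'` is `L ∪ (t + L)`, of index two -/
def Two (L L' : Lt) (t : ℂ) : Prop := t ∉ L ∧ 2 * t ∈ L ∧ ∀ x, x ∈ L' ↔ x ∈ L ∨ x - t ∈ L

def hpar (L : Lt) (t : ℂ) : ℂ := 64 * (g2 L - 3 * wp L t ^ 2) / (12 * wp L t ^ 2 - g2 L)

/-- a zeta function of the lattice -/
structure IsZeta (L : Lt) (ζ : ℂ → ℂ) (a : ℂ) : Prop where
  deriv : ∀ z, z ∉ L → HasDerivAt ζ (a - wp L z) z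
  odd : ∀ z, z ∉ L → ζ (-z) = -ζ z
  per : ∀ l ∈ L, ∃ e : ℂ, ∀ z, z ∉ L → ζ (z + l) = ζ z + e
  pole : ∃ g : ℂ → ℂ, AnalyticAt ℂ g 0 ∧ ∀ z, z ∉ L → ζ z = z⁻¹ + g z

def th0 (L : Lt) (z u : ℂ) : ℂ := ∑' l : L, cexp (-u * ((z + l) * conj (z + l)))

def th1 (L : Lt) (z u : ℂ) : ℂ := ∑' l : L, conj (z + l) * cexp (-u * ((z + l) * conj (z + l)))

def pa (L : Lt) (l z : ℂ) : ℂ := cexp (π * (conj l * z - l * conj z) / ar L)

def eF (L : Lt) (z : ℂ) : ℂ := ∫ u in Set.Ioi (0 : ℝ), th1 L z u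

def eG (L : Lt) (z : ℂ) : ℝ := ∫ u in Set.Ioi (0 : ℝ), ((th0 L z u).re - π / (ar L * u)) / u

/-- the values of `wp` at the nonzero `c`-torsion points -/
def XS (L : Lt) (c : ℕ) : Set ℂ := {e | ∃ t : ℂ, c * t ∈ L ∧ t ∉ L ∧ wp L t = e}

def tht (L : Lt) (c : ℕ) (z : ℂ) : ℂ :=
  dl L ^ ((c ^ 2 - 1) / 12) / (c * ∏ᶠ e ∈ XS L c, (wp L z - e))

def ec (L : Lt) (c : ℕ) (z : ℂ) : ℂ := -∑ᶠ e ∈ XS L c, wpd L z / (wp L z - e)

def oc (L : Lt) (Q : ℂ) : ℂ := (wp L Q - wp L (2 * Q)) / wpd L Q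

/-- the theta series of a coset -/
def Th (L : Lt) (A : ℝ) (z : ℂ) (τ : ℍ) : ℂ := th1 L z (-(2 * π * I * τ) / A)

/-! ### Expansions at the cusp -/

/-- expansion in `qN N` with coefficients in a finitely generated group -/
def BQ (N : ℕ) (h : ℍ → ℂ) : Prop :=
  ∃ (a : ℕ → ℂ) (Λ : Submodule ℤ ℂ), Λ.FG ∧ (∀ n, a n ∈ Λ) ∧
    ∀ τ : ℍ, HasSum (fun n => a n * qN N τ ^ n) (h τ)

def BR : Subring (ℍ → ℂ) := Subring.closure {h | BQ 1 h}

/-- meromorphic on the upper half plane and at all cusps -/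
def Mer0 (M : ℕ) (h : ℍ → ℂ) : Prop :=
  (∀ τ : ℍ, MeromorphicAt (h ∘ ofComplex) τ) ∧
    ∀ g : SL(2, ℤ), ∃ H : ℂ → ℂ, MeromorphicAt H 0 ∧
      ∀ᶠ τ in atImInfty, h (g • τ) = H (qN M τ)

/-- a meromorphic modular function for `Γ₁(M)` -/
def Mer (M : ℕ) (h : ℍ → ℂ) : Prop :=
  Mer0 M h ∧ ∀ γ ∈ CongruenceSubgroup.Gamma1 M, ∀ τ : ℍ, h (γ • τ) = h τ

/-- a generator of the function field of `Γ₁(M)` with bounded expansion -/
def Gen (M : ℕ) (y : ℍ → ℂ) : Prop :=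
  Pool.Agent.P.MP_20768c_nt.Az.EQ.IsMF (CongruenceSubgroup.Gamma1 M) M ⊤ y ∧
    (∃ m : ℕ, BQ 1 fun τ => ModularForm.discriminant τ ^ m * y τ) ∧
    ∀ g : SL(2, ℤ), (∀ τ : ℍ, y (g • τ) = y τ) →
      g ∈ CongruenceSubgroup.Gamma1 M ∨ -g ∈ CongruenceSubgroup.Gamma1 M

/-- a valued differential field of germs that contains the bounded expansions -/
structure VD (v : Valuation ℂ NNReal) (z : ℂ) (F : Type) [Field F] where
  g : F →+* Filter.Germ (nhdsWithin z {z}ᶜ) ℂ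
  V : Valuation F NNReal
  D : F → F
  add : ∀ x y, D (x + y) = D x + D y
  mul : ∀ x y, D (x * y) = x * D y + D x * y
  le : ∀ x, V (D x) ≤ V x
  der : ∀ (x : F) (X : ℂ → ℂ), g x = (X : Filter.Germ (nhdsWithin z {z}ᶜ) ℂ) →
    g (D x) = ((fun w => deriv X w / (2 * π * I) : ℂ → ℂ) : Filter.Germ (nhdsWithin z {z}ᶜ) ℂ)
  ser : ∀ (h : ℍ → ℂ) (a : ℕ → ℂ) (Λ : Submodule ℤ ℂ), Λ.FG → (∀ n, a n ∈ Λ) →
    (∀ τ : ℍ, HasSum (fun n => a n * qN 1 τ ^ n) (h τ)) →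
    ∃ x, g x = ((h ∘ ofComplex : ℂ → ℂ) : Filter.Germ (nhdsWithin z {z}ᶜ) ℂ) ∧
      (∀ n, v (a n) ≤ V x) ∧ ∃ n, V x = v (a n)

/-- the period of a weight two form -/
def Pe (f : ℍ → ℂ) (γ : SL(2, ℤ)) : ℂ := Fv (sym f) (γ 0 0 : ℚ) (γ 1 0 : ℚ)

/-- the dimension of the span of the translates of a function on a group -/
def tk {κ G : Type} [Field κ] [Group G] (β : G → κ) : ℕ :=
  Module.finrank κ (Submodule.span κ (Set.range fun (h : G) (g : G) => β (g * h)))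

/-! ### Selmer groups of number fields -/

section
variable (F : Type) [Field F] [NumberField F]

def Vs (l C : ℕ) : Subgroup Fˣ where
  carrier := {x | ∀ Q : HeightOneSpectrum (𝓞 F), (C : 𝓞 F) ∉ Q.asIdeal →
    ∃ j : ℤ, Q.valuation F (x : F) = WithZero.exp (l * j)}
  one_mem' := fun _ _ => ⟨0, by simp⟩
  mul_mem' := fun {x y} hx hy Q hQ => by
    obtain ⟨i, hi⟩ := hx Q hQ
    obtain ⟨j, hj⟩ := hy Q hQ
    exact ⟨i + j, by rw [Units.val_mul, map_mul, hi, hj, ← WithZero.exp_add, mul_add]⟩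
  inv_mem' := fun {x} hx Q hQ => by
    obtain ⟨i, hi⟩ := hx Q hQ
    exact ⟨-i, by rw [Units.val_inv_eq_inv_val, map_inv₀, hi, ← WithZero.exp_neg, mul_neg]⟩

def Pw (l : ℕ) : Subgroup Fˣ := (powMonoidHom l : Fˣ →* Fˣ).range

def Un : Subgroup Fˣ := (Units.map (algebraMap (𝓞 F) F : 𝓞 F →* F)).range

/-- the number of primes containing `C` -/
def nP (C : ℕ) : ℕ := {Q : HeightOneSpectrum (𝓞 F) | (C : 𝓞 F) ∈ Q.asIdeal}.ncard

/-- the Euler factors at `1` of the primes containing `C` -/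
def EE (C : ℕ) : ℚ :=
  ∏ᶠ Q ∈ {Q : HeightOneSpectrum (𝓞 F) | (C : 𝓞 F) ∈ Q.asIdeal},
    (1 - ((Ideal.absNorm Q.asIdeal : ℕ) : ℚ)⁻¹)

/-- a Dirichlet series over the ideals -/
def DS (a : Ideal (𝓞 F) → ℂ) (t : ℝ) : ℂ :=
  ∑' I : Ideal (𝓞 F), a I * (((Ideal.absNorm I : ℝ) ^ (-t) : ℝ) : ℂ)

/-- a bounded completely multiplicative function on the nonzero ideals -/
def Mult (a : Ideal (𝓞 F) → ℂ) : Prop :=
  a ⊤ = 1 ∧ (∀ I J, I ≠ ⊥ → J ≠ ⊥ → a (I * J) = a I * a J) ∧ ∀ I, ‖a I‖ ≤ 1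

end

open Classical in
/-- the indicator of the ideals prime to `C` -/
def oneC (F : Type) [Field F] (C : ℕ) (J : Ideal (𝓞 F)) : ℂ :=
  if IsCoprime J (Ideal.span {(C : 𝓞 F)}) then 1 else 0

/-- the primes not containing `C` have trivial inertia group -/
def Unr (k F : Type) [Field k] [Field F] [Algebra k F] (C : ℕ) : Prop :=
  ∀ Q : Ideal (𝓞 F), Q.IsPrime → (C : 𝓞 F) ∉ Q → ∀ g : F ≃ₐ[k] F,
    (∀ x y : 𝓞 F, (y : F) = g (x : F) → y - x ∈ Q) → g = 1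

/-- `g` is a Frobenius element at `Q` -/
def FrobAt {k F : Type} [Field k] [NumberField k] [Field F] [NumberField F] [Algebra k F]
    (g : F ≃ₐ[k] F) (Q : Ideal (𝓞 F)) : Prop :=
  ∀ x y : 𝓞 F, (y : F) = g (x : F) → y - x ^ Ideal.absNorm (Q.under (𝓞 k)) ∈ Q

/-! ### Groups with an `x`-coordinate -/

structure XG (A : Type) [AddCommGroup A] (F : Type) [Field F] where
  x : A → F
  b2 : F
  b4 : F
  b6 : F
  b8 : F
  rel : 4 * b8 = b2 * b6 - b4 ^ 2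
  neg : ∀ P, x (-P) = x P
  inj : ∀ P Q, P ≠ 0 → Q ≠ 0 → x P = x Q → P = Q ∨ P = -Q
  add : ∀ P Q, P ≠ 0 → Q ≠ 0 → P + Q ≠ 0 → P - Q ≠ 0 → (x (P + Q) + x (P - Q)) * (x P - x Q) ^ 2 =
    2 * x P * x Q * (x P + x Q) + b2 * x P * x Q + b4 * (x P + x Q) + b6
  mul : ∀ P Q, P ≠ 0 → Q ≠ 0 → P + Q ≠ 0 → P - Q ≠ 0 → x (P + Q) * x (P - Q) * (x P - x Q) ^ 2 =
    x P ^ 2 * x Q ^ 2 - b4 * x P * x Q - b6 * (x P + x Q) - b8
  dbl : ∀ P, P ≠ 0 → P + P ≠ 0 → x (P + P) * (4 * x P ^ 3 + b2 * x P ^ 2 + 2 * b4 * x P + b6) =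
    x P ^ 4 - b4 * x P ^ 2 - 2 * b6 * x P - b8
  two : ∀ P, P ≠ 0 → (P + P = 0 ↔ 4 * x P ^ 3 + b2 * x P ^ 2 + 2 * b4 * x P + b6 = 0)

section
variable {A F : Type} [AddCommGroup A] [Field F] {Γ : Type} [LinearOrderedCommGroupWithZero Γ]

def XG.disc (X : XG A F) : F :=
  -X.b2 ^ 2 * X.b8 - 8 * X.b4 ^ 3 - 27 * X.b6 ^ 2 + 9 * X.b2 * X.b4 * X.b6

def XG.Good (X : XG A F) (v : Valuation F Γ) : Prop :=
  v X.b2 ≤ 1 ∧ v X.b4 ≤ 1 ∧ v X.b6 ≤ 1 ∧ v X.b8 ≤ 1 ∧ v X.disc = 1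

/-- the kernel of reduction -/
def XG.Ker (X : XG A F) (v : Valuation F Γ) (P : A) : Prop := P = 0 ∨ 1 < v (X.x P)

end

section
variable {Γ : Type} [LinearOrderedCommGroupWithZero Γ]

def xm (L : Lt) (U r z : ℂ) : ℂ := wp L z / U + r

def mb2 (r : ℂ) : ℂ := -12 * r

def mb4 (L : Lt) (U r : ℂ) : ℂ := 6 * r ^ 2 - g2 L / U ^ 2 / 2

def mb6 (L : Lt) (U r : ℂ) : ℂ := -4 * r ^ 3 + g2 L / U ^ 2 * r - g3 L / U ^ 3

def mb8 (L : Lt) (U r : ℂ) : ℂ := (mb2 r * mb6 L U r - mb4 L U r ^ 2) / 4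

/-- the model `x = wp / U + r` has good reduction at `v` -/
def Good (v : Valuation ℂ Γ) (L : Lt) (U r : ℂ) : Prop :=
  U ≠ 0 ∧ v (mb2 r) ≤ 1 ∧ v (mb4 L U r) ≤ 1 ∧ v (mb6 L U r) ≤ 1 ∧ v (mb8 L U r) ≤ 1 ∧
    v (dl L / U ^ 6) = 1

def E1 (v : Valuation ℂ Γ) (L : Lt) (U r z : ℂ) : Prop := z ∈ L ∨ 1 < v (xm L U r z)

/-- the valuations of the roots in the ordinary case -/
def Rt (v : Valuation ℂ Γ) (L : Lt) (t₁ t₂ U : ℂ) : Prop :=
  t₁ ∉ L ∧ t₂ ∉ L ∧ t₁ + t₂ ∉ L ∧ 2 * t₁ ∈ L ∧ 2 * t₂ ∈ L ∧ U ≠ 0 ∧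
    v (4 * (wp L t₁ - wp L t₂)) = v U ∧ v (wp L t₂ - wp L (t₁ + t₂)) = v 4 * v U

/-- `σ` lies in the inertia group of `v` on the algebraic numbers -/
def Inert (v : Valuation ℂ Γ) (σ : ℂ → ℂ) : Prop :=
  ∀ x, IsAlgebraic ℚ x → v x ≤ 1 → v (σ x - x) < 1

def FrobOn (v : Valuation ℂ Γ) (q : ℕ) (σ : ℂ → ℂ) (S : Set ℂ) : Prop :=
  ∀ x ∈ S, v x ≤ 1 → v (σ x - x ^ q) < 1

end

/-! ### The quadratic field -/

structure St where
  k : IntermediateField ℚ ℂ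
  nf : NumberField k
  w : 𝓞 k
  m : ℕ
  m_pos : 0 < m
  m_even : Even m
  w_sq : w ^ 2 = w - m
  w_im : 0 < (algebraMap (𝓞 k) ℂ w).im
  span : ∀ x : 𝓞 k, ∃ a b : ℤ, x = a + b * w
  ι : ℂ →+* ℂ_[2]
  ι_w : ‖ι (algebraMap (𝓞 k) ℂ w)‖ < 1

instance (s : St) : NumberField s.k := s.nf

def zt (n : ℕ) : ℂ := cexp (2 * π * I / 2 ^ n)

open Classical in
/-- the class of `1 + 2^(n-1)` -/
def tau (n : ℕ) : (ZMod (2 ^ n))ˣ :=
  if h : Nat.Coprime (2 ^ (n - 1) + 1) (2 ^ n) then ZMod.unitOfCoprime _ h else 1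

namespace St

variable (s : St)

abbrev O : Type := 𝓞 s.k

abbrev Sub : Type := Submodule s.O ℂ

abbrev Au : Type := ℂ ≃ₐ[s.k] ℂ

def c (x : s.O) : ℂ := algebraMap s.O ℂ x

/-- the absolute value of the discriminant -/
def dd : ℕ := 4 * s.m - 1

def v : Valuation ℂ NNReal := (NormedField.valuation (K := ℂ_[2])).comap s.ι

def zl (L : s.Sub) : Lt := L.restrictScalars ℤ

def idl (a : Ideal s.O) : s.Sub := Submodule.map (Algebra.linearMap s.O ℂ) a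

def sc (x : ℂ) : s.Sub := Submodule.span s.O {x}

def inv (a : Ideal s.O) : s.Sub := 1 / s.idl a

def cj (L : s.Sub) : s.Sub := Submodule.span s.O {x | conj x ∈ L}

def nL (L : s.Sub) : ℝ := ar (s.zl L) / ar (s.zl 1)

def p1 : Ideal s.O := Ideal.span {2, s.w}

def p2 : Ideal s.O := Ideal.span {2, 1 - s.w}

@[ext] structure Pair where
  L : s.Sub
  ρ : ℂ
  unit : IsUnit L
  mem : ρ ∈ L

instance : CommMonoid s.Pair where
  mul p q := ⟨p.L * q.L, p.ρ * q.ρ, p.unit.mul q.unit, Submodule.mul_mem_mul p.mem q.mem⟩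
  one := ⟨1, 1, isUnit_one, Submodule.one_le.1 le_rfl⟩
  mul_assoc p q r := Pair.ext (mul_assoc p.L q.L r.L) (mul_assoc p.ρ q.ρ r.ρ)
  one_mul p := Pair.ext (one_mul p.L) (one_mul p.ρ)
  mul_one p := Pair.ext (mul_one p.L) (mul_one p.ρ)
  mul_comm p q := Pair.ext (mul_comm p.L q.L) (mul_comm p.ρ q.ρ)

theorem mul_L (p q : s.Pair) : (p * q).L = p.L * q.L := rfl

theorem mul_ρ (p q : s.Pair) : (p * q).ρ = p.ρ * q.ρ := rfl

theorem sc_mul (x y : ℂ) : s.sc (x * y) = s.sc x * s.sc y := by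
  simp [sc, Submodule.span_mul_span]

theorem sc_one : s.sc 1 = 1 := Submodule.one_eq_span.symm

theorem mem_sc (x : ℂ) : x ∈ s.sc x := Submodule.mem_span_singleton_self x

/-- `q` is `x • p` modulo `n` -/
def Sim (n : Ideal s.O) (x : ℂ) (p q : s.Pair) : Prop :=
  x ≠ 0 ∧ q.L = s.sc x * p.L ∧ q.ρ - x * p.ρ ∈ s.idl n * q.L

theorem sc_mem {n : Ideal s.O} {x y : ℂ} {L : s.Sub} (h : y ∈ s.idl n * L) :
    x * y ∈ s.idl n * (s.sc x * L) := by
  rw [mul_left_comm]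
  exact Submodule.mul_mem_mul (s.mem_sc x) h

def rel (n : Ideal s.O) : Con s.Pair where
  r p q := ∃ x, s.Sim n x p q
  iseqv :=
    { refl := fun p => ⟨1, one_ne_zero, by rw [sc_one, one_mul], by simp⟩
      symm := by
        rintro p q ⟨x, h0, h1, h2⟩
        have e : p.L = s.sc x⁻¹ * q.L := by
          rw [h1, ← mul_assoc, ← sc_mul, inv_mul_cancel₀ h0, sc_one, one_mul]
        refine ⟨x⁻¹, inv_ne_zero h0, e, ?_⟩
        have h3 := neg_mem (s.sc_mem (x := x⁻¹) h2)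
        rw [← e] at h3
        convert h3 using 1
        field_simp
        ring
      trans := by
        rintro p q r ⟨x, h0, h1, h2⟩ ⟨y, k0, k1, k2⟩
        refine ⟨y * x, mul_ne_zero k0 h0, by rw [k1, h1, sc_mul, mul_assoc], ?_⟩
        have h3 := s.sc_mem (x := y) h2
        rw [← k1] at h3
        convert add_mem k2 h3 using 1
        ring }
  mul' := by
    rintro p q p' q' ⟨x, h0, h1, h2⟩ ⟨y, k0, k1, k2⟩
    refine ⟨x * y, mul_ne_zero h0 k0, by rw [mul_L, mul_L, h1, k1, sc_mul, mul_mul_mul_comm], ?_⟩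
    have a1 : (q.ρ - x * p.ρ) * q'.ρ ∈ s.idl n * (q.L * q'.L) := by
      rw [← mul_assoc]
      exact Submodule.mul_mem_mul h2 q'.mem
    have a2 : x * p.ρ * (q'.ρ - y * p'.ρ) ∈ s.idl n * (q.L * q'.L) := by
      rw [mul_left_comm]
      exact Submodule.mul_mem_mul (h1 ▸ Submodule.mul_mem_mul (s.mem_sc x) p.mem) k2
    rw [mul_L, mul_ρ, mul_ρ]
    convert add_mem a1 a2 using 1
    ring

/-- classes of pairs modulo `n`; the unit group is the ray class group -/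
abbrev Pr (n : Ideal s.O) : Type := (s.rel n).Quotient

def cl (n : Ideal s.O) : s.Pair →* s.Pr n := (s.rel n).mk'

def out {n : Ideal s.O} (C : s.Pr n) : s.Pair := Quotient.out C

open Classical in
def mkP (L : s.Sub) (ρ : ℂ) : s.Pair := if h : IsUnit L ∧ ρ ∈ L then ⟨L, ρ, h.1, h.2⟩ else 1

def ip (a : Ideal s.O) : s.Pair := s.mkP (s.inv a) 1

def np (β : s.O) : s.Pair := s.mkP 1 (s.c β)

/-- the ideal `ρ L⁻¹` -/
def idOf (p : s.Pair) : Ideal s.O := Submodule.comap (Algebra.linearMap s.O ℂ) (s.sc p.ρ / p.L)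

def Qn (p : s.Pair) : ℕ := Ideal.absNorm (s.idOf p)

def Inv {β : Type} (n : Ideal s.O) (Φ : s.Pair → β) : Prop := ∀ x p q, s.Sim n x p q → Φ q = Φ p

def IsWt (n : Ideal s.O) (ω : s.Pair → ℂ) : Prop :=
  (∀ x p q, s.Sim n x p q → ω q = x * ω p) ∧ ∀ p : s.Pair, p.ρ ∈ s.idl s.p2 * p.L → ω p = 0

def Prim (n : Ideal s.O) (φ : MulChar (s.Pr n) ℂ) : Prop :=
  ∀ g, n < g → ∃ β : s.O, β - 1 ∈ g ∧ IsUnit (s.cl n (s.np β)) ∧ φ (s.cl n (s.np β)) ≠ 1

def Lr (n : Ideal s.O) (φ : MulChar (s.Pr n) ℂ) (t : ℝ) : ℂ :=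
  ∑' a : Ideal s.O, φ (s.cl n (s.ip a)) * (((Ideal.absNorm a : ℝ) ^ (-t) : ℝ) : ℂ)

def gp (n : Ideal s.O) (p : s.Pair) : ℝ := eG (s.zl (s.idl n * p.L)) p.ρ

/-- the weight two theta series of a weight -/
def vth (ω : s.Pair → ℂ) (τ : ℍ) : ℂ :=
  ∑' a : Ideal s.O, ω (s.ip a) * (Ideal.absNorm a : ℂ) *
    cexp (2 * π * I * τ * (Ideal.absNorm a : ℂ))

def Sy (ω : s.Pair → ℂ) (r : ℚ) : ℂ := sym (s.vth ω) r

/-- the coefficients of the theta series -/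
def co (ω : s.Pair → ℂ) (j : ℕ) : ℂ :=
  j * ∑ᶠ a ∈ {a : Ideal s.O | Ideal.absNorm a = j}, ω (s.ip a)

/-- the eigenvalue at `2` -/
def al (ω : s.Pair → ℂ) : ℂ := 2 * ω (s.ip s.p1) / ω 1

def DD (ω : s.Pair → ℂ) (n : ℕ) (b : ℤ) : ℂ :=
  2 * s.Sy ω (b / 2 ^ n) - s.al ω * s.Sy ω (b / 2 ^ (n - 1))

/-- `f' = f p2 ^ 2` -/
def lv (f : Ideal s.O) : Ideal s.O := f * s.p2 ^ 2

/-- `m = f 2 ^ n` -/
def md (f : Ideal s.O) (n : ℕ) : Ideal s.O := f * Ideal.span {2 ^ n}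

/-- the level of the theta series -/
def lev (f : Ideal s.O) : ℕ := s.dd * (4 * Ideal.absNorm f) ^ 2

def eta (f : Ideal s.O) : ℂ := Ideal.absNorm f * s.c s.w ^ 2 / 4

open Classical in
def oms (f : Ideal s.O) (p : s.Pair) : ℂ :=
  if IsUnit (s.cl (s.lv f) p) then oc (s.zl (s.idl f * p.L)) (s.eta f * p.ρ) else 0

def thp (f : Ideal s.O) (c n : ℕ) (p : s.Pair) : ℂ := tht (s.zl (s.idl f * p.L)) c (p.ρ / 2 ^ n)

def ecp (f : Ideal s.O) (c n : ℕ) (p : s.Pair) : ℂ := ec (s.zl (s.idl f * p.L)) c (p.ρ / 2 ^ n)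

def BB (f : Ideal s.O) (c n : ℕ) (ω : s.Pair → ℂ) (b : ℤ) : ℂ :=
  (∑ᶠ C : (s.Pr (s.md f n))ˣ,
    zt n ^ (b * s.Qn (s.out C.1)) * ω (s.out C.1) * s.ecp f c n (s.out C.1)) / 2 ^ (n - 1)

/-- an odd conductor and a smoothing integer -/
def Cc (f : Ideal s.O) (c : ℕ) : Prop :=
  Odd (Ideal.absNorm f) ∧ 1 < c ∧ c % 8 = 5 ∧ c ≡ 1 [MOD 3 * Ideal.absNorm f]

/-- a point of order two that is killed neither by `w` nor by `1 - w` -/
def Gen2 (L : s.Sub) (y : ℂ) : Prop := 2 * y ∈ L ∧ s.c s.w * y ∉ L ∧ (1 - s.c s.w) * y ∉ L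

/-- `σ` acts at level `m` as the ideal `b` -/
def Art (m : ℕ) (σ : ℂ → ℂ) (b : Ideal s.O) : Prop :=
  b ≠ ⊥ ∧ IsCoprime b (Ideal.span {(m : s.O)}) ∧
    (∀ L : s.Sub, IsUnit L → σ (jL (s.zl L)) = jL (s.zl (L * s.inv b)) ∧
      ∀ z : ℂ, m * z ∈ L → z ∉ L → σ (XX (s.zl L) z) = XX (s.zl (L * s.inv b)) z) ∧
    ∀ ζ : ℂ, ζ ^ m = 1 → σ ζ = ζ ^ Ideal.absNorm b

def CM (m : ℕ) : Set ℂ :=
  {x | x ^ m = 1 ∨ ∃ L : s.Sub, IsUnit L ∧
    (x = jL (s.zl L) ∨ ∃ z : ℂ, m * z ∈ L ∧ z ∉ L ∧ x = XX (s.zl L) z)}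

/-- away from `C` the singular moduli are units and stay distinct -/
def IsC0 (C : ℕ) : Prop :=
  C ≠ 0 ∧ ∀ V : ValuationSubring ℂ, V.valuation C = 1 → V.valuation 6 = 1 ∧
    (∀ L : s.Sub, IsUnit L →
      V.valuation (jL (s.zl L)) = 1 ∧ V.valuation (jL (s.zl L) - 1728) = 1) ∧
    ∀ L M : s.Sub, IsUnit L → IsUnit M → V.valuation (jL (s.zl L) - jL (s.zl M)) < 1 →
      jL (s.zl L) = jL (s.zl M)

/-- the weight vanishes off the unit classes -/
def Supp (n : Ideal s.O) (ω : s.Pair → ℂ) : Prop := ∀ p, ¬ IsUnit (s.cl n p) → ω p = 0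

/-- a multiplicative weight of level `f'` -/
def Eig (f : Ideal s.O) (ω : s.Pair → ℂ) : Prop :=
  s.IsWt (s.lv f) ω ∧ s.Supp (s.lv f) ω ∧ ω 1 ≠ 0 ∧ ∀ p q, ω (p * q) * ω 1 = ω p * ω q

/-- `φ` is the twist of `χ` by `ψ` of the norm -/
def Tw (f : Ideal s.O) (n : ℕ) (χ : MulChar (s.Pr f) ℂ) (ψ : MulChar (ZMod (2 ^ n)) ℂ)
    (φ : MulChar (s.Pr (s.md f n)) ℂ) : Prop :=
  ∀ p, IsUnit (s.cl (s.md f n) p) → φ (s.cl (s.md f n) p) = χ (s.cl f p) * ψ (s.Qn p)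

/-- the section of the norm map given by inertia -/
def Kap (f : Ideal s.O) (n : ℕ) (κ : (ZMod (2 ^ n))ˣ →* (s.Pr (s.md f n))ˣ) : Prop :=
  (∀ b, (s.Qn (s.out (κ b).1) : ZMod (2 ^ n)) = b) ∧
    (∀ b, s.cl (f * s.p2 ^ n) (s.out (κ b).1) = 1) ∧
    ∀ (m : ℕ) (σ : s.Au) (a : Ideal s.O) (b : (ZMod (2 ^ n))ˣ), 0 < m → (m : s.O) ∈ s.md f n →
      s.Art m σ a → Inert s.v σ → σ (zt n) = zt n ^ (b : ZMod (2 ^ n)).val →
      s.cl (s.md f n) (s.ip a) = κ b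

def K3 : IntermediateField s.k ℂ := IntermediateField.adjoin s.k {cexp (2 * π * I / 3)}

instance : FiniteDimensional s.k s.K3 := by
  refine IntermediateField.adjoin.finiteDimensional (IsIntegral.of_pow (n := 3) (by norm_num) ?_)
  rw [← Complex.exp_nat_mul]
  push_cast
  rw [mul_div_cancel₀ _ three_ne_zero, Complex.exp_two_pi_mul_I]
  exact isIntegral_one

instance : NumberField s.K3 := NumberField.of_module_finite s.k s.K3

/-- continuous cubic characters unramified outside `C` -/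
def Cub (C : ℕ) : Set (s.Au →* ℂˣ) :=
  {φ | (∀ σ, φ σ ^ 3 = 1) ∧
    (∃ T : Finset ℂ, (∀ x ∈ T, IsAlgebraic ℚ x) ∧ ∀ σ : s.Au, (∀ x ∈ T, σ x = x) → φ σ = 1) ∧
    ∀ (V : ValuationSubring ℂ) (σ : s.Au), V.valuation C = 1 → Inert V.valuation σ → φ σ = 1}

/-- the product of the elliptic units in a fibre -/
def up (f : Ideal s.O) (χ : MulChar (s.Pr f) ℂ) (c n : ℕ) (a : ℂ) (b : ZMod (2 ^ n)) : ℂ :=
  ∏ᶠ C ∈ {C : (s.Pr (s.md f n))ˣ |
    χ (s.cl f (s.out C.1)) = a ∧ (s.Qn (s.out C.1) : ZMod (2 ^ n)) = b}, s.thp f c n (s.out C.1)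

def uE (f : Ideal s.O) (χ : MulChar (s.Pr f) ℂ) (c n : ℕ) (a : ℂ) (b : ZMod (2 ^ n)) : ℂ :=
  s.up ⊤ 1 c n 1 b * s.up f χ c n a b ^ 3 / ∏ᶠ a' ∈ {a' : ℂ | a' ^ 3 = 1}, s.up f χ c n a' b

/-- the weights of level `f'` that are defined over `k` -/
def Rat (f : Ideal s.O) (ω : s.Pair → ℂ) : Prop :=
  ∃ g : s.Pair → ℂ, s.Inv (s.lv f) g ∧ (∀ p, ω p = g p * s.oms f p) ∧
    ∀ (σ : s.Au) (b : Ideal s.O), s.Art (4 * Ideal.absNorm f) σ b →
      ∀ p, IsUnit (s.cl (s.lv f) p) → σ (g p) = g (p * s.ip b)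

/-! ### Inertia at the chosen place -/

/-- algebraic numbers fixed by the inertia elements that fix `zt n` -/
def Fx (n : ℕ) : Set ℂ :=
  {x | IsAlgebraic ℚ x ∧ ∀ σ : s.Au, Inert s.v σ → σ (zt n) = zt n → σ x = x}

def IsSec (n : ℕ) (sb : (ZMod (2 ^ n))ˣ → s.Au) : Prop :=
  ∀ b, Inert s.v (sb b) ∧ sb b (zt n) = zt n ^ (b : ZMod (2 ^ n)).val

abbrev κ : Type := IsLocalRing.ResidueField s.v.valuationSubring

open Classical in
def rs (x : ℂ) : s.κ :=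
  if h : x ∈ s.v.valuationSubring then IsLocalRing.residue s.v.valuationSubring ⟨x, h⟩ else 0

def tr (n : ℕ) (sb : (ZMod (2 ^ n))ˣ → s.Au) (y : ℂ) : ℂ := (∑ b, sb b y) / 2 ^ (n - 1)

def Dl (n : ℕ) (sb : (ZMod (2 ^ n))ˣ → s.Au) (x : ℂ) : ℂ := (1 - sb (tau n) x / x) / 2

def del (n : ℕ) (sb : (ZMod (2 ^ n))ˣ → s.Au) (x : ℂ) : s.κ :=
  s.rs (s.tr n sb ((zt n)⁻¹ * s.Dl n sb x))

end St

/-! ### The cubic extension and its cyclotomic tower -/

structure Cb extends St where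
  N : IntermediateField k ℂ
  fd : FiniteDimensional k N
  gal : IsGalois k N
  rk : Module.finrank k N = 3

theorem zt_pow (n : ℕ) : zt n ^ 2 ^ n = 1 := by
  rw [zt, ← Complex.exp_nat_mul]
  push_cast
  rw [mul_div_cancel₀ _ (pow_ne_zero _ two_ne_zero), Complex.exp_two_pi_mul_I]

namespace Cb

variable (s : Cb)

instance : FiniteDimensional s.k s.N := s.fd

instance : IsGalois s.k s.N := s.gal

instance : NumberField s.N := NumberField.of_module_finite s.k s.N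

def K (n : ℕ) : IntermediateField s.k ℂ := s.N ⊔ IntermediateField.adjoin s.k {zt n}

instance (n : ℕ) : FiniteDimensional s.k (s.K n) := by
  have h : IsIntegral s.k (zt n) := IsIntegral.of_pow (n := 2 ^ n) (by positivity)
    (by rw [zt_pow]; exact isIntegral_one)
  have := IntermediateField.adjoin.finiteDimensional h
  exact IntermediateField.finiteDimensional_sup _ _

instance (n : ℕ) : NumberField (s.K n) := NumberField.of_module_finite s.k (s.K n)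

/-- `χ` is the primitive cubic ray class character that cuts out `N` -/
def Cut (f : Ideal s.O) (χ : MulChar (s.Pr f) ℂ) : Prop :=
  Odd (Ideal.absNorm f) ∧ s.Prim f χ ∧ (∀ C : (s.Pr f)ˣ, χ C ^ 3 = 1) ∧
    ∀ (m : ℕ) (σ : s.Au) (b : Ideal s.O), 0 < m → (m : s.O) ∈ f → s.Art m σ b →
      (χ (s.cl f (s.ip b)) = 1 ↔ ∀ x ∈ s.N, σ x = x)

/-- the complex number underlying a unit of `K n` -/
def uc {n : ℕ} (ε : (𝓞 (s.K n))ˣ) : ℂ := (((ε : 𝓞 (s.K n)) : s.K n) : ℂ)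

/-- squares, roots of unity and units of `K (n-1)` -/
def ZZ (n : ℕ) : Subgroup (𝓞 (s.K n))ˣ :=
  Subgroup.closure {ε | IsSquare ε ∨ IsOfFinOrder ε ∨ s.uc ε ∈ s.K (n - 1)}

/-- roots of unity, units of `K (n-1)` and conjugates of `u` -/
def CC {n : ℕ} (u : (𝓞 (s.K n))ˣ) : Subgroup (𝓞 (s.K n))ˣ :=
  Subgroup.closure {ε | IsOfFinOrder ε ∨ s.uc ε ∈ s.K (n - 1) ∨ ∃ σ : s.Au, s.uc ε = σ (s.uc u)}

/-- the common kernel of the logarithmic derivatives -/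
def KD (n : ℕ) (sb : (ZMod (2 ^ n))ˣ → s.Au) : Subgroup (𝓞 (s.K n))ˣ :=
  Subgroup.closure {ε | ∀ σ : s.Au, s.del n sb (σ (s.uc ε)) = 0}

/-- the span of the translates of the logarithmic derivative of `x` -/
def rk' (n : ℕ) (sb : (ZMod (2 ^ n))ˣ → s.Au) (x : ℂ) : ℕ :=
  tk fun σ : s.Au => s.del n sb (σ x)

abbrev G (n : ℕ) : Type := s.K n ≃ₐ[s.k] s.K n

/-- the generator of the group of `K n` over `K (n-1)` -/
def IsTau (n : ℕ) (τ : s.G n) : Prop := ∀ y : s.K n, τ y = y ↔ (y : ℂ) ∈ s.K (n - 1)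

def Zs {n : ℕ} (x : s.K n) (φ : s.G n →* ℂˣ) : ℂ :=
  ∑ᶠ g : s.G n, (((φ g)⁻¹ : ℂˣ) : ℂ) * (Real.log (‖((g x : s.K n) : ℂ)‖ ^ 2) : ℂ)

/-- coordinates on the Galois group -/
def Par (f : Ideal s.O) (χ : MulChar (s.Pr f) ℂ) (n : ℕ) (η : s.G n →* ℂˣ)
    (ν : s.G n →* (ZMod (2 ^ n))ˣ) : Prop :=
  (∀ (m : ℕ) (σ : s.Au) (a : Ideal s.O) (g : s.G n), 0 < m → (m : s.O) ∈ s.md f n → s.Art m σ a →
      (∀ x : s.K n, ((g x : s.K n) : ℂ) = σ x) →
      (η g : ℂ) = χ (s.cl f (s.ip a)) ∧ (ν g : ZMod (2 ^ n)) = Ideal.absNorm a) ∧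
    (∀ g, η g ^ 3 = 1) ∧ (∀ g, η g = 1 → ν g = 1 → g = 1) ∧
    (∀ a : ℂˣ, a ^ 3 = 1 → ∀ b, ∃ g, η g = a ∧ ν g = b) ∧
    2 ≤ n ∧ ∀ τ, s.IsTau n τ → η τ = 1 ∧ ν τ = tau n

/-- a generator of the cyclotomic tower over `K 2` -/
def IsGam (γ : s.Au) : Prop := (∀ x ∈ s.N, γ x = x) ∧ ∀ n, γ (zt n) = zt n ^ 5

/-- the analytic data of a unit -/
def Ana (C R n : ℕ) (x : s.K n) : Prop :=
  ∃ Fr : Ideal s.O → s.G n,
    (∀ Q : Ideal (𝓞 (s.K n)), Q.IsPrime → Q ≠ ⊥ → (C : 𝓞 (s.K n)) ∉ Q →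
      FrobAt (Fr (Q.under s.O)) Q) ∧
    ∀ (τ : s.G n) (φ : s.G n →* ℂˣ), s.IsTau n τ → φ τ = -1 →
      ∃ (a : Ideal s.O → ℂ) (y : ℂ) (A B : ℝ), Mult s.k a ∧
        (∀ q : Ideal s.O, q.IsPrime → q ≠ ⊥ →
          ((C : s.O) ∈ q → a q = 0) ∧ ((C : s.O) ∉ q → a q = φ (Fr q))) ∧
        Filter.Tendsto (DS s.k a) (nhdsWithin 1 (Set.Ioi 1)) (nhds y) ∧
        ‖y‖ ^ 2 * A = 4 * π ^ 2 * ‖s.Zs x φ‖ ^ 2 * B ∧
        A ≠ 0 ∧ s.v A ≤ s.v 2 ^ (2 * n) ∧ s.v 2 ^ R ≤ s.v B ^ 2 ^ n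

def Kx (n : ℕ) : Subgroup ℂˣ := (Units.map (algebraMap (s.K n) ℂ : s.K n →* ℂ)).range

def Ux (n : ℕ) : Subgroup ℂˣ := (Units.map (algebraMap (𝓞 (s.K n)) ℂ : 𝓞 (s.K n) →* ℂ)).range

/-- the squares of the cyclotomic tower -/
def Sq : Subgroup ℂˣ := Subgroup.closure {x | ∃ n, ∃ y ∈ s.Kx n, x = y ^ 2}

/-- the Kummer generators that occur in the fine Selmer group -/
def Cond (C : ℕ) (r : ℂ) : Prop :=
  r ≠ 0 ∧ (∃ n, r ^ 2 ∈ s.K n) ∧
    (∀ (V : ValuationSubring ℂ) (σ : s.Au), V.valuation C = 1 → Inert V.valuation σ →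
      (∀ x ∈ s.N, σ x = x) → σ r = r) ∧
    ∀ a : s.Au, ∃ a' : s.Au, (∀ x ∈ s.N, a' x = a x) ∧ ∃ n, ∀ σ : s.Au, Inert s.v σ →
      σ (zt n) = zt n → σ (a' r) = a' r

def SS (C : ℕ) : Subgroup ℂˣ := Subgroup.closure {x | ∃ r, s.Cond C r ∧ (x : ℂ) = r ^ 2}

end Cb

/-! ### The Galois side -/

section
variable {K : Type} [Field K]

/-- the automorphisms that fix `N` and the roots of unity of `2`-power order -/
def Hs (N : Set (AlgebraicClosure K)) : Subgroup (Gal K) where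
  carrier := {g | (∀ x ∈ N, g x = x) ∧ ∀ (x : AlgebraicClosure K) (n : ℕ), x ^ 2 ^ n = 1 → g x = x}
  one_mem' := ⟨fun _ _ => rfl, fun _ _ _ => rfl⟩
  mul_mem' := fun {g h} hg hh =>
    ⟨fun x hx => by rw [AlgEquiv.mul_apply, hh.1 x hx, hg.1 x hx],
      fun x n hx => by rw [AlgEquiv.mul_apply, hh.2 x n hx, hg.2 x n hx]⟩
  inv_mem' := fun {g} hg =>
    ⟨fun x hx => by rw [AlgEquiv.aut_inv, AlgEquiv.symm_apply_eq, hg.1 x hx],
      fun x n hx => by rw [AlgEquiv.aut_inv, AlgEquiv.symm_apply_eq, hg.2 x n hx]⟩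

def InI (V : ValuationSubring (AlgebraicClosure K)) (g : Gal K) : Prop :=
  ∀ x, V.valuation x ≤ 1 → V.valuation (g x - x) < 1

/-- continuous quadratic characters unramified away from `C` and at the places in `A` -/
def HH (N : Set (AlgebraicClosure K)) (C : ℕ) (A : Set (ValuationSubring (AlgebraicClosure K))) :
    Set (Hs N →* ℤˣ) :=
  {ψ | IsLocallyConstant ψ ∧ ∀ V : ValuationSubring (AlgebraicClosure K),
    (V.valuation C = 1 ∨ V ∈ A) → ∀ g : Hs N, InI V g.1 → ψ g = 1}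

end

end

end Pool.Agent.P.MP_20768c_nt.Az.Cu

end
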