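import Pool.Agent.P.MP_20768c_nt.Az.Z1
import Pool.Agent.P.MP_20768c_nt.Az.Z2

-- part Ab.Defs
section

set_option autoImplicit false

open Complex NumberField IsDedekindDomain Filter Topology
open UpperHalfPlane hiding I
open scoped ComplexConjugate Real MatrixGroups

namespace Pool.Agent.P.MP_20768c_nt.Az.Cu

open Pool.Agent.P.MP_20768c_nt.Az.EQ (Lt pr sp IsLat jL qN)

noncomputable section

/-! ### Characters of the absolute Galois group of the quadratic field -/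

namespace St

variable (s : St)

/-- `φ` factors through the ray class group modulo `m` -/
def Lev (m : ℕ) (φ : s.Au →* ℂˣ) : Prop := ∀ σ : s.Au, s.Art m σ ⊤ → φ σ = 1

/-- the product of the elliptic units in a fibre -/
def uq (f : Ideal s.O) (X : Finset (MulChar (s.Pr f) ℂ)) (c n : ℕ) (a : s.Pr f)
    (b : ZMod (2 ^ n)) : ℂ :=
  ∏ᶠ C ∈ {C : (s.Pr (s.md f n))ˣ | (∀ χ ∈ X, χ (s.cl f (s.out C.1)) = χ a) ∧
    (s.Qn (s.out C.1) : ZMod (2 ^ n)) = b}, s.thp f c n (s.out C.1)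

/-- the character sum of the limit formula -/
def Zg (n : Ideal s.O) (φ : MulChar (s.Pr n) ℂ) : ℂ :=
  ∑ᶠ C : (s.Pr n)ˣ, (φ C)⁻¹ * (s.gp n (s.out C.1) : ℂ)

end St

/-! ### The odd abelian extension and its cyclotomic tower -/

structure Ab extends St where
  N : IntermediateField k ℂ
  fd : FiniteDimensional k N
  gal : IsGalois k N
  comm : ∀ g h : N ≃ₐ[k] N, g * h = h * g
  odd : Odd (Module.finrank k N)

namespace Ab

variable (s : Ab)

instance : FiniteDimensional s.k s.N := s.fd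

instance : IsGalois s.k s.N := s.gal

instance : NumberField s.N := NumberField.of_module_finite s.k s.N

def K (n : ℕ) : IntermediateField s.k ℂ := s.N ⊔ IntermediateField.adjoin s.k {zt n}

instance (n : ℕ) : FiniteDimensional s.k (s.K n) := by
  have h : IsIntegral s.k (zt n) := IsIntegral.of_pow (n := 2 ^ n) (by positivity)
    (by rw [zt_pow]; exact isIntegral_one)
  have := IntermediateField.adjoin.finiteDimensional h
  exact IntermediateField.finiteDimensional_sup _ _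

instance (n : ℕ) : NumberField (s.K n) := NumberField.of_module_finite s.k (s.K n)

/-- the degree of `N` over `k` -/
def g : ℕ := Module.finrank s.k s.N

/-- `X` is the group of ray class characters of odd level `f` that cuts out `N` -/
def Cut (f : Ideal s.O) (X : Finset (MulChar (s.Pr f) ℂ)) : Prop :=
  Odd (Ideal.absNorm f) ∧ X.card = s.g ∧ (∀ χ ∈ X, ∀ C : (s.Pr f)ˣ, χ C ^ s.g = 1) ∧
    (∀ χ ∈ X, ∀ χ' ∈ X, χ * χ' ∈ X) ∧
    (∀ (m : ℕ) (σ : s.Au) (b : Ideal s.O), 0 < m → (m : s.O) ∈ f → s.Art m σ b →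
      ((∀ χ ∈ X, χ (s.cl f (s.ip b)) = 1) ↔ ∀ x ∈ s.N, σ x = x)) ∧
    ∀ φ : s.Au →* ℂˣ, (∀ σ : s.Au, (∀ x ∈ s.N, σ x = x) → φ σ = 1) → ∃ χ ∈ X,
      ∀ (m : ℕ) (σ : s.Au) (b : Ideal s.O), 0 < m → (m : s.O) ∈ f → s.Art m σ b →
        χ (s.cl f (s.ip b)) = φ σ

/-- the complex number underlying a unit of `K n` -/
def uc {n : ℕ} (ε : (𝓞 (s.K n))ˣ) : ℂ := (((ε : 𝓞 (s.K n)) : s.K n) : ℂ)

/-- squares, roots of unity and units of `K (n-1)` -/
def ZZ (n : ℕ) : Subgroup (𝓞 (s.K n))ˣ :=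
  Subgroup.closure {ε | IsSquare ε ∨ IsOfFinOrder ε ∨ s.uc ε ∈ s.K (n - 1)}

/-- roots of unity, units of `K (n-1)` and conjugates of `u` -/
def CC {n : ℕ} (u : (𝓞 (s.K n))ˣ) : Subgroup (𝓞 (s.K n))ˣ :=
  Subgroup.closure {ε | IsOfFinOrder ε ∨ s.uc ε ∈ s.K (n - 1) ∨ ∃ σ : s.Au, s.uc ε = σ (s.uc u)}

/-- the common kernel of the logarithmic derivatives -/
def KD (n : ℕ) (sb : (ZMod (2 ^ n))ˣ → s.Au) : Subgroup (𝓞 (s.K n))ˣ :=
  Subgroup.closure {ε | ∀ σ : s.Au, s.del n sb (σ (s.uc ε)) = 0}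

/-- the span of the translates of the logarithmic derivative of `x` -/
def rk' (n : ℕ) (sb : (ZMod (2 ^ n))ˣ → s.Au) (x : ℂ) : ℕ :=
  tk fun σ : s.Au => s.del n sb (σ x)

abbrev G (n : ℕ) : Type := s.K n ≃ₐ[s.k] s.K n

/-- the generator of the group of `K n` over `K (n-1)` -/
def IsTau (n : ℕ) (τ : s.G n) : Prop := ∀ y : s.K n, τ y = y ↔ (y : ℂ) ∈ s.K (n - 1)

def Zs {n : ℕ} (x : s.K n) (φ : s.G n →* ℂˣ) : ℂ :=
  ∑ᶠ g : s.G n, (((φ g)⁻¹ : ℂˣ) : ℂ) * (Real.log (‖((g x : s.K n) : ℂ)‖ ^ 2) : ℂ)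

/-- the Artin map onto the group of `K n` -/
def Par (f : Ideal s.O) (X : Finset (MulChar (s.Pr f) ℂ)) (n : ℕ)
    (θ : (s.Pr (s.md f n))ˣ →* s.G n) : Prop :=
  Function.Surjective θ ∧
    (∀ (m : ℕ) (σ : s.Au) (a : Ideal s.O) (C : (s.Pr (s.md f n))ˣ), 0 < m → (m : s.O) ∈ s.md f n →
      s.Art m σ a → (C : s.Pr (s.md f n)) = s.cl _ (s.ip a) →
      ∀ x : s.K n, ((θ C x : s.K n) : ℂ) = σ x) ∧
    ∀ C D : (s.Pr (s.md f n))ˣ, θ C = θ D ↔
      (∀ χ ∈ X, χ (s.cl f (s.out C.1)) = χ (s.cl f (s.out D.1))) ∧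
        (s.Qn (s.out C.1) : ZMod (2 ^ n)) = s.Qn (s.out D.1)

/-- a generator of the cyclotomic tower over `K 2` -/
def IsGam (γ : s.Au) : Prop := (∀ x ∈ s.N, γ x = x) ∧ ∀ n, γ (zt n) = zt n ^ 5

/-- the analytic data of a unit -/
def Ana (C R n : ℕ) (x : s.K n) : Prop :=
  ∃ Fr : Ideal s.O → s.G n,
    (∀ Q : Ideal (𝓞 (s.K n)), Q.IsPrime → Q ≠ ⊥ → (C : 𝓞 (s.K n)) ∉ Q →
      FrobAt (Fr (Q.under s.O)) Q) ∧
    ∀ (τ : s.G n) (φ : s.G n →* ℂˣ), s.IsTau n τ → φ τ = -1 →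
      ∃ (a : Ideal s.O → ℂ) (y : ℂ) (A B : ℝ), Mult s.k a ∧
        (∀ q : Ideal s.O, q.IsPrime → q ≠ ⊥ →
          ((C : s.O) ∈ q → a q = 0) ∧ ((C : s.O) ∉ q → a q = φ (Fr q))) ∧
        Filter.Tendsto (DS s.k a) (nhdsWithin 1 (Set.Ioi 1)) (nhds y) ∧
        ‖y‖ ^ 2 * A = 4 * π ^ 2 * ‖s.Zs x φ‖ ^ 2 * B ∧
        A ≠ 0 ∧ s.v A ≤ s.v 2 ^ (2 * n) ∧ s.v 2 ^ R ≤ s.v B ^ 2 ^ n

def Kx (n : ℕ) : Subgroup ℂˣ := (Units.map (algebraMap (s.K n) ℂ : s.K n →* ℂ)).range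

def Ux (n : ℕ) : Subgroup ℂˣ := (Units.map (algebraMap (𝓞 (s.K n)) ℂ : 𝓞 (s.K n) →* ℂ)).range

/-- the squares of the cyclotomic tower -/
def Sq : Subgroup ℂˣ := Subgroup.closure {x | ∃ n, ∃ y ∈ s.Kx n, x = y ^ 2}

/-- the Kummer generators that occur in the fine Selmer group -/
def Cond (C : ℕ) (r : ℂ) : Prop :=
  r ≠ 0 ∧ (∃ n, r ^ 2 ∈ s.K n) ∧
    (∀ (V : ValuationSubring ℂ) (σ : s.Au), V.valuation C = 1 → Inert V.valuation σ →
      (∀ x ∈ s.N, σ x = x) → σ r = r) ∧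
    ∀ a : s.Au, ∃ a' : s.Au, (∀ x ∈ s.N, a' x = a x) ∧ ∃ n, ∀ σ : s.Au, Inert s.v σ →
      σ (zt n) = zt n → σ (a' r) = a' r

def SS (C : ℕ) : Subgroup ℂˣ := Subgroup.closure {x | ∃ r, s.Cond C r ∧ (x : ℂ) = r ^ 2}

end Ab

/-! ### The Galois side over the rationals -/

section
variable {K : Type} [Field K] [NumberField K]

abbrev GQ (K : Type) [Field K] [NumberField K] : Type :=
  AlgebraicClosure K ≃ₐ[ℚ] AlgebraicClosure K

/-- the automorphisms that fix `N` and the roots of unity of `2`-power order -/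
def Hq (N : Set (AlgebraicClosure K)) : Subgroup (GQ K) where
  carrier := {g | (∀ x ∈ N, g x = x) ∧ ∀ (x : AlgebraicClosure K) (n : ℕ), x ^ 2 ^ n = 1 → g x = x}
  one_mem' := ⟨fun _ _ => rfl, fun _ _ _ => rfl⟩
  mul_mem' := fun {g h} hg hh =>
    ⟨fun x hx => by rw [AlgEquiv.mul_apply, hh.1 x hx, hg.1 x hx],
      fun x n hx => by rw [AlgEquiv.mul_apply, hh.2 x n hx, hg.2 x n hx]⟩
  inv_mem' := fun {g} hg =>
    ⟨fun x hx => by rw [AlgEquiv.aut_inv, AlgEquiv.symm_apply_eq, hg.1 x hx],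
      fun x n hx => by rw [AlgEquiv.aut_inv, AlgEquiv.symm_apply_eq, hg.2 x n hx]⟩

def InQ (V : ValuationSubring (AlgebraicClosure K)) (g : GQ K) : Prop :=
  ∀ x, V.valuation x ≤ 1 → V.valuation (g x - x) < 1

/-- continuous quadratic characters of `H` unramified away from `C` and at the places in `A` -/
def HQ (H : Subgroup (GQ K)) (C : ℕ) (A : Set (ValuationSubring (AlgebraicClosure K))) :
    Set (H →* ℤˣ) :=
  {ψ | (∃ T : Finset (AlgebraicClosure K), ∀ g : H, (∀ x ∈ T, g.1 x = x) → ψ g = 1) ∧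
    ∀ V : ValuationSubring (AlgebraicClosure K),
      (V.valuation C = 1 ∨ V ∈ A) → ∀ g : H, InQ V g.1 → ψ g = 1}

def FinQ (H : Subgroup (GQ K)) : Prop :=
  ∀ C : ℕ, C ≠ 0 → Even C → ∃ A, A.Finite ∧ (HQ H C A).Finite

end

end

end Pool.Agent.P.MP_20768c_nt.Az.Cu

end

-- part Cu.A0_p
section

set_option autoImplicit false

open Complex NumberField IsDedekindDomain Filter Topology
open UpperHalfPlane hiding I
open scoped ComplexConjugate Real MatrixGroups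

namespace Pool.Agent.P.MP_20768c_nt.Az.Cu

open Pool.Agent.P.MP_20768c_nt.Az.EQ (Lt pr sp IsLat jL qN)

variable {L M : Lt} {z x : ℂ}

theorem exists_pp (h : IsLat L) : ∃ P : PeriodPair, P.lattice = L := by
  obtain ⟨c, τ, hc, rfl⟩ := h
  refine ⟨⟨c, c * τ, ?_⟩, rfl⟩
  rw [LinearIndependent.pair_iff]
  intro s t hst
  have h1 : c * ((s : ℂ) + (t : ℂ) * τ) = 0 := by
    rw [← hst]
    simp only [Complex.real_smul]
    ring
  have h2 : (s : ℂ) + (t : ℂ) * τ = 0 := (mul_eq_zero.1 h1).resolve_left hc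
  have h3 := congrArg Complex.im h2
  have h4 := congrArg Complex.re h2
  simp only [add_im, ofReal_im, mul_im, ofReal_re, zero_mul, add_zero, zero_add, zero_im,
    coe_im] at h3
  have ht : t = 0 := (mul_eq_zero.1 h3).resolve_right τ.im_pos.ne'
  subst ht
  simpa using h4

theorem a0p_wp (P : PeriodPair) : wp P.lattice = P.weierstrassP := rfl

theorem a0p_wpd (P : PeriodPair) : wpd P.lattice = P.derivWeierstrassP := rfl

theorem a0p_g2 (P : PeriodPair) : g2 P.lattice = P.g₂ := rfl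

theorem a0p_g3 (P : PeriodPair) : g3 P.lattice = P.g₃ := rfl

theorem wp_add (h : IsLat L) (z : ℂ) {l : ℂ} (hl : l ∈ L) : wp L (z + l) = wp L z := by
  obtain ⟨P, rfl⟩ := exists_pp h
  exact P.weierstrassP_add_coe z ⟨l, hl⟩

theorem wpd_add (h : IsLat L) (z : ℂ) {l : ℂ} (hl : l ∈ L) : wpd L (z + l) = wpd L z := by
  obtain ⟨P, rfl⟩ := exists_pp h
  exact P.derivWeierstrassP_add_coe z ⟨l, hl⟩

theorem wp_congr (h : IsLat L) {w : ℂ} (hl : z - w ∈ L) : wp L z = wp L w := by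
  rw [← wp_add h w hl, add_sub_cancel]

theorem wpd_congr (h : IsLat L) {w : ℂ} (hl : z - w ∈ L) : wpd L z = wpd L w := by
  rw [← wpd_add h w hl, add_sub_cancel]

theorem wp_neg (h : IsLat L) (z : ℂ) : wp L (-z) = wp L z := by
  obtain ⟨P, rfl⟩ := exists_pp h
  exact P.weierstrassP_neg z

theorem wpd_neg (h : IsLat L) (z : ℂ) : wpd L (-z) = -wpd L z := by
  obtain ⟨P, rfl⟩ := exists_pp h
  exact P.derivWeierstrassP_neg z

theorem analyticAt_wp (h : IsLat L) (hz : z ∉ L) : AnalyticAt ℂ (wp L) z := by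
  obtain ⟨P, rfl⟩ := exists_pp h
  exact P.analyticOnNhd_weierstrassP z hz

theorem analyticAt_wpd (h : IsLat L) (hz : z ∉ L) : AnalyticAt ℂ (wpd L) z := by
  obtain ⟨P, rfl⟩ := exists_pp h
  exact P.analyticOnNhd_derivWeierstrassP z hz

theorem hasDerivAt_wp (h : IsLat L) (hz : z ∉ L) : HasDerivAt (wp L) (wpd L z) z := by
  have h1 := (analyticAt_wp h hz).differentiableAt.hasDerivAt
  obtain ⟨P, rfl⟩ := exists_pp h
  rwa [a0p_wp, P.deriv_weierstrassP] at h1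

theorem wpd_sq (h : IsLat L) (hz : z ∉ L) :
    wpd L z ^ 2 = 4 * wp L z ^ 3 - g2 L * wp L z - g3 L := by
  obtain ⟨P, rfl⟩ := exists_pp h
  exact P.derivWeierstrassP_sq z hz

theorem meromorphic_wp (h : IsLat L) (z : ℂ) : MeromorphicAt (wp L) z := by
  obtain ⟨P, rfl⟩ := exists_pp h
  exact P.meromorphic_weierstrassP z

theorem meromorphic_wpd (h : IsLat L) (z : ℂ) : MeromorphicAt (wpd L) z := by
  obtain ⟨P, rfl⟩ := exists_pp h
  exact P.meromorphic_derivWeierstrassP z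

theorem wp_pole (h : IsLat L) : ∃ g : ℂ → ℂ, AnalyticAt ℂ g 0 ∧ ∀ᶠ z in 𝓝[≠] (0 : ℂ),
    wp L z = 1 / z ^ 2 + g2 L / 20 * z ^ 2 + g3 L / 28 * z ^ 4 + z ^ 6 * g z := by
  obtain ⟨P, rfl⟩ := exists_pp h
  obtain ⟨g, hg, he⟩ := (P.analyticAt_weierstrassPExcept 0).exists_eq_sum_add_pow_mul 6
  refine ⟨g, hg, Eventually.of_forall fun z => ?_⟩
  have h1 := P.weierstrassPExcept_add 0 z
  have h2 := he z
  simp only [P.iteratedDeriv_weierstrassPExcept_self, Finset.sum_range_succ, Finset.sum_range_zero,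
    PeriodPair.sumInvPow_zero, smul_eq_mul] at h2
  norm_num [P.G_eq_zero_of_odd 3 (by decide), P.G_eq_zero_of_odd 5 (by decide),
    P.G_eq_zero_of_odd 7 (by decide), Nat.factorial] at h2
  simp only [ZeroMemClass.coe_zero, sub_zero] at h1
  rw [a0p_wp, a0p_g2, a0p_g3, ← h1, h2, PeriodPair.g₂, PeriodPair.g₃]
  norm_num
  ring

theorem wpd_pole (h : IsLat L) : ∃ g : ℂ → ℂ, AnalyticAt ℂ g 0 ∧ ∀ᶠ z in 𝓝[≠] (0 : ℂ),
    wpd L z = -2 / z ^ 3 + z * g z := by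
  obtain ⟨P, rfl⟩ := exists_pp h
  obtain ⟨g, hg, he⟩ := (P.analyticAt_derivWeierstrassPExcept 0).exists_eq_sum_add_pow_mul 1
  refine ⟨g, hg, Eventually.of_forall fun z => ?_⟩
  have h1 := P.derivWeierstrassPExcept_sub 0 z
  have h2 := he z
  simp only [Finset.sum_range_succ, Finset.sum_range_zero, iteratedDeriv_zero,
    PeriodPair.derivWeierstrassPExcept_zero_zero, smul_eq_mul, mul_zero, add_zero, zero_add,
    pow_one] at h2
  simp only [ZeroMemClass.coe_zero, sub_zero] at h1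
  rw [a0p_wpd, ← h1, h2]
  ring

theorem a0p_nhds (h : IsLat L) (hz : z ∉ L) : ∀ᶠ w in 𝓝 z, w ∉ L := by
  obtain ⟨P, rfl⟩ := exists_pp h
  exact P.isClosed_lattice.isOpen_compl.mem_nhds hz

theorem a0p_ne (h : IsLat L) (z : ℂ) : ¬ ∀ᶠ w in 𝓝[≠] z, wpd L w = 0 := by
  rw [← meromorphicOrderAt_eq_top_iff]
  refine MeromorphicOn.meromorphicOrderAt_ne_top_of_isPreconnected (U := Set.univ) (x := 0)
    (fun w _ => meromorphic_wpd h w) isPreconnected_univ trivial trivial ?_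
  rw [Ne, meromorphicOrderAt_eq_top_iff]
  intro h0
  obtain ⟨g, hg, he⟩ := wpd_pole h
  have h1 : ∀ᶠ w in 𝓝[≠] (0 : ℂ), w ^ 4 * g w = 2 := by
    filter_upwards [h0, he, self_mem_nhdsWithin] with w a b c
    have c' : w ≠ 0 := c
    rw [a] at b
    field_simp at b
    linear_combination -b
  have h2 : Tendsto (fun w : ℂ => w ^ 4 * g w) (𝓝[≠] 0) (𝓝 (0 ^ 4 * g 0)) :=
    ((continuousAt_id.pow 4).mul hg.continuousAt).tendsto.mono_left nhdsWithin_le_nhds
  have h3 := tendsto_nhds_unique h2 (tendsto_const_nhds.congr' (h1.mono fun _ e => e.symm))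
  norm_num at h3

theorem hasDerivAt_wpd (h : IsLat L) (hz : z ∉ L) :
    HasDerivAt (wpd L) (6 * wp L z ^ 2 - g2 L / 2) z := by
  have hA := analyticAt_wpd h hz
  have hF : AnalyticAt ℂ (fun w => deriv (wpd L) w - (6 * wp L w ^ 2 - g2 L / 2)) z :=
    hA.deriv.sub ((analyticAt_const.mul ((analyticAt_wp h hz).pow 2)).sub analyticAt_const)
  have hprod : ∀ w, w ∉ L → wpd L w * (deriv (wpd L) w - (6 * wp L w ^ 2 - g2 L / 2)) = 0 := by
    intro w hw
    have d1 := (analyticAt_wpd h hw).differentiableAt.hasDerivAt.fun_pow 2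
    have d0 := hasDerivAt_wp h hw
    have d2 := (((d0.fun_pow 3).const_mul 4).fun_sub (d0.const_mul (g2 L))).sub_const (g3 L)
    have d3 := d2.congr_of_eventuallyEq ((a0p_nhds h hw).mono fun u hu => wpd_sq h hu)
    have e := d1.unique d3
    norm_num at e
    linear_combination e / 2
  have h0 : deriv (wpd L) z - (6 * wp L z ^ 2 - g2 L / 2) = 0 := by
    rcases hA.eventually_eq_zero_or_eventually_ne_zero with h1 | h1
    · exact absurd (h1.filter_mono nhdsWithin_le_nhds) (a0p_ne h z)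
    · have h2 : ∀ᶠ w in 𝓝[≠] z, deriv (wpd L) w - (6 * wp L w ^ 2 - g2 L / 2) = 0 := by
        filter_upwards [h1, (a0p_nhds h hz).filter_mono nhdsWithin_le_nhds] with w a b
        exact (mul_eq_zero.1 (hprod w b)).resolve_left a
      exact tendsto_nhds_unique (hF.continuousAt.tendsto.mono_left nhdsWithin_le_nhds)
        (tendsto_const_nhds.congr' (h2.mono fun _ e => e.symm))
  rw [← sub_eq_zero.1 h0]
  exact hA.differentiableAt.hasDerivAt

theorem summable_wp (h : IsLat L) (z : ℂ) :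
    Summable fun l : L => 1 / (z - l) ^ 2 - 1 / (l : ℂ) ^ 2 := by
  obtain ⟨P, rfl⟩ := exists_pp h
  exact (P.hasSum_weierstrassP z).summable

theorem summable_pow (h : IsLat L) (z : ℂ) {n : ℕ} (hn : 2 < n) :
    Summable fun l : L => (((l : ℂ) - z) ^ n)⁻¹ := by
  obtain ⟨P, rfl⟩ := exists_pp h
  exact (P.hasSum_sumInvPow z hn).summable

end Pool.Agent.P.MP_20768c_nt.Az.Cu

end

-- part Cu.B1_p
section

set_option autoImplicit false

open Complex NumberField IsDedekindDomain Filter Topology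
open UpperHalfPlane hiding I
open scoped ComplexConjugate Real MatrixGroups

namespace Pool.Agent.P.MP_20768c_nt.Az.Cu

open Pool.Agent.P.MP_20768c_nt.Az.EQ (Lt pr sp IsLat jL qN)

variable {A B F : Type} [AddCommGroup A] [AddCommGroup B] [Field F] {Γ : Type}
  [LinearOrderedCommGroupWithZero Γ] {X : XG A F} {v : Valuation F Γ} {P Q : A}

theorem bez0 {R : Type} [CommRing R] (b2 b4 b6 b8 x : R) (h : 4 * b8 = b2 * b6 - b4 ^ 2) :
    (b2 ^ 2 - 32 * b4 - 8 * b2 * x - 48 * x ^ 2) * (x ^ 4 - b4 * x ^ 2 - 2 * b6 * x - b8) +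
      (12 * x ^ 3 - b2 * x ^ 2 - 10 * b4 * x + b2 * b4 - 27 * b6) *
        (4 * x ^ 3 + b2 * x ^ 2 + 2 * b4 * x + b6) =
      -b2 ^ 2 * b8 - 8 * b4 ^ 3 - 27 * b6 ^ 2 + 9 * b2 * b4 * b6 := by
  linear_combination (8 * b4 + 2 * b2 * x + 12 * x ^ 2) * h

theorem XG.ker_neg (h : X.Ker v P) : X.Ker v (-P) :=
  h.imp (fun h => by rw [h, neg_zero]) fun h => by rwa [X.neg]

open Classical in
/-- the inverse of the `x`-coordinate, `0` at the origin -/
noncomputable def b1pXi (X : XG A F) (R : A) : F := if R = 0 then 0 else (X.x R)⁻¹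

def b1pE (X : XG A F) (s t : F) : F := X.b4 + X.b6 * (s + t) + X.b8 * (s * t)

def b1pN (X : XG A F) (s t : F) : F := X.b2 + X.b4 * (s + t) + X.b6 * (s * t)

theorem b1p_zero : b1pXi X 0 = 0 := if_pos rfl

theorem b1p_ne (h : P ≠ 0) : b1pXi X P = (X.x P)⁻¹ := if_neg h

theorem b1p_neg (X : XG A F) (P : A) : b1pXi X (-P) = b1pXi X P := by
  by_cases h : P = 0
  · rw [h, neg_zero]
  · rw [b1p_ne h, b1p_ne (neg_ne_zero.2 h), X.neg]

theorem b1p_x (h : X.Ker v P) (h0 : P ≠ 0) : X.x P ≠ 0 := fun e => by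
  have := h.resolve_left h0
  rw [e, map_zero] at this
  exact not_lt_of_ge zero_le_one this

theorem b1p_mul (h : X.Ker v P) (h0 : P ≠ 0) : X.x P * b1pXi X P = 1 := by
  rw [b1p_ne h0, mul_inv_cancel₀ (b1p_x h h0)]

theorem b1p_lt (h : X.Ker v P) : v (b1pXi X P) < 1 := by
  by_cases h0 : P = 0
  · rw [h0, b1p_zero, map_zero]
    exact zero_lt_one
  · rw [b1p_ne h0, map_inv₀]
    exact inv_lt_one_of_one_lt₀ (h.resolve_left h0)

theorem b1p_ker (h0 : P ≠ 0 → X.x P ≠ 0) (h : v (b1pXi X P) < 1) : X.Ker v P := by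
  by_cases e : P = 0
  · exact Or.inl e
  · rw [b1p_ne e, map_inv₀] at h
    exact Or.inr ((inv_lt_one₀ (zero_lt_iff.2 (v.ne_zero_iff.2 (h0 e)))).1 h)

theorem b1p_le3 {a b c s t : F} (ha : v a ≤ 1) (hb : v b ≤ 1) (hc : v c ≤ 1) (hs : v s < 1)
    (ht : v t < 1) : v (a + b * (s + t) + c * (s * t)) ≤ 1 := by
  refine v.map_add_le (v.map_add_le ha ?_) ?_
  · rw [map_mul]
    exact mul_le_one' hb (v.map_add_le hs.le ht.le)
  · rw [map_mul, map_mul]
    exact mul_le_one' hc (mul_le_one' hs.le ht.le)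

theorem b1p_D (hG : X.Good v) {s t : F} (hs : v s < 1) (ht : v t < 1) :
    v (1 - s * t * b1pE X s t) = 1 := by
  refine v.map_one_sub_of_lt ?_
  rw [map_mul, map_mul, mul_assoc]
  exact mul_lt_one_of_lt_of_le hs (mul_le_one' ht.le (b1p_le3 hG.2.1 hG.2.2.1 hG.2.2.2.1 hs ht))

theorem b1p_D0 (hG : X.Good v) {s t : F} (hs : v s < 1) (ht : v t < 1) :
    1 - s * t * b1pE X s t ≠ 0 :=
  v.ne_zero_iff.1 (by rw [b1p_D hG hs ht]; exact one_ne_zero)

theorem b1p_dbl (hG : X.Good v) (h : X.Ker v P) (h0 : P ≠ 0) {s : F} (hs : b1pXi X P = s) :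
    (P + P ≠ 0 → X.x (P + P) ≠ 0) ∧
      b1pXi X (P + P) * (1 - s * s * b1pE X s s) = 2 * (s + s) + s * s * b1pN X s s := by
  have h1 := b1p_mul h h0
  have hD := b1p_D0 hG (b1p_lt h) (b1p_lt h)
  rw [hs] at h1 hD
  have e1 : (4 * X.x P ^ 3 + X.b2 * X.x P ^ 2 + 2 * X.b4 * X.x P + X.b6) * s ^ 4 =
      2 * (s + s) + s * s * b1pN X s s := by
    have : (4 * X.x P ^ 3 + X.b2 * X.x P ^ 2 + 2 * X.b4 * X.x P + X.b6) * s ^ 4 =
        4 * (X.x P * s) ^ 3 * s + X.b2 * (X.x P * s) ^ 2 * s ^ 2 + 2 * X.b4 * (X.x P * s) * s ^ 3 +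
          X.b6 * s ^ 4 := by ring
    rw [this, h1, b1pN]
    ring
  have e2 : (X.x P ^ 4 - X.b4 * X.x P ^ 2 - 2 * X.b6 * X.x P - X.b8) * s ^ 4 =
      1 - s * s * b1pE X s s := by
    have : (X.x P ^ 4 - X.b4 * X.x P ^ 2 - 2 * X.b6 * X.x P - X.b8) * s ^ 4 =
        (X.x P * s) ^ 4 - X.b4 * (X.x P * s) ^ 2 * s ^ 2 - 2 * X.b6 * (X.x P * s) * s ^ 3 -
          X.b8 * s ^ 4 := by ring
    rw [this, h1, b1pE]
    ring
  by_cases h2 : P + P = 0
  · refine ⟨fun h => absurd h2 h, ?_⟩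
    rw [h2, b1p_zero, ← e1, (X.two P h0).1 h2, zero_mul, zero_mul]
  · have e3 : X.x (P + P) * (2 * (s + s) + s * s * b1pN X s s) = 1 - s * s * b1pE X s s := by
      rw [← e1, ← e2, ← mul_assoc, X.dbl P h0 h2]
    have ha : X.x (P + P) ≠ 0 := fun e => hD (by rw [← e3, e, zero_mul])
    exact ⟨fun _ => ha, by rw [b1p_ne h2, ← e3, inv_mul_cancel_left₀ ha]⟩

theorem b1p_xi (hG : X.Good v) (h : X.Ker v P) (h' : X.Ker v Q) {s t : F} (hs : b1pXi X P = s)
    (ht : b1pXi X Q = t) : (P + Q ≠ 0 → X.x (P + Q) ≠ 0) ∧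
      (b1pXi X (P + Q) + b1pXi X (P - Q)) * (1 - s * t * b1pE X s t) =
        2 * (s + t) + s * t * b1pN X s t ∧
      b1pXi X (P + Q) * b1pXi X (P - Q) * (1 - s * t * b1pE X s t) = (s - t) ^ 2 := by
  by_cases hP : P = 0
  · rw [hP, b1p_zero] at hs
    rw [hP, zero_add, zero_sub, b1p_neg, ht, ← hs]
    exact ⟨b1p_x h', by ring, by ring⟩
  by_cases hQ : Q = 0
  · rw [hQ, b1p_zero] at ht
    rw [hQ, add_zero, sub_zero, hs, ← ht]
    exact ⟨b1p_x h, by ring, by ring⟩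
  by_cases h1 : P - Q = 0
  · obtain rfl := sub_eq_zero.1 h1
    obtain rfl : s = t := hs.symm.trans ht
    obtain ⟨e1, e2⟩ := b1p_dbl hG h hP hs
    rw [h1, b1p_zero, add_zero]
    exact ⟨e1, e2, by ring⟩
  by_cases h2 : P + Q = 0
  · obtain rfl := eq_neg_of_add_eq_zero_right h2
    rw [b1p_neg] at ht
    obtain rfl : s = t := hs.symm.trans ht
    obtain ⟨-, e2⟩ := b1p_dbl hG h hP hs
    rw [h2, b1p_zero, zero_add, sub_neg_eq_add]
    exact ⟨fun h => absurd rfl h, e2, by ring⟩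
  have x1 := b1p_mul h hP
  have x2 := b1p_mul h' hQ
  have hD := b1p_D0 hG (b1p_lt h) (b1p_lt h')
  rw [hs] at x1 hD
  rw [ht] at x2 hD
  have ea := X.add P Q hP hQ h2 h1
  have em := X.mul P Q hP hQ h2 h1
  rw [b1p_ne h2, b1p_ne h1]
  generalize X.x (P + Q) = a at *
  generalize X.x (P - Q) = b at *
  generalize X.x P = x at *
  generalize X.x Q = y at *
  have e0 : (x - y) ^ 2 * (s * t) ^ 2 = (s - t) ^ 2 := by
    have : (x - y) ^ 2 * (s * t) ^ 2 = (x * s * t - y * t * s) ^ 2 := by ring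
    rw [this, x1, x2]
    ring
  have e1 : (a + b) * (s - t) ^ 2 = 2 * (s + t) + s * t * b1pN X s t := by
    have : (2 * x * y * (x + y) + X.b2 * x * y + X.b4 * (x + y) + X.b6) * (s * t) ^ 2 =
        2 * (x * s) * (y * t) * (x * s * t + y * t * s) + X.b2 * (x * s) * (y * t) * (s * t) +
          X.b4 * (x * s * t + y * t * s) * (s * t) + X.b6 * (s * t) ^ 2 := by ring
    rw [← e0, ← mul_assoc, ea, this, x1, x2, b1pN]
    ring
  have e2 : a * b * (s - t) ^ 2 = 1 - s * t * b1pE X s t := by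
    have : (x ^ 2 * y ^ 2 - X.b4 * x * y - X.b6 * (x + y) - X.b8) * (s * t) ^ 2 =
        (x * s) ^ 2 * (y * t) ^ 2 - X.b4 * (x * s) * (y * t) * (s * t) -
          X.b6 * (x * s * t + y * t * s) * (s * t) - X.b8 * (s * t) ^ 2 := by ring
    rw [← e0, ← mul_assoc, em, this, x1, x2, b1pE]
    ring
  have ha : a ≠ 0 := fun e => hD (by rw [← e2, e, zero_mul, zero_mul])
  have hb : b ≠ 0 := fun e => hD (by rw [← e2, e, mul_zero, zero_mul])
  have ia := inv_mul_cancel₀ ha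
  have ib := inv_mul_cancel₀ hb
  rw [← e1, ← e2]
  exact ⟨fun _ => ha, by linear_combination b * (s - t) ^ 2 * ia + a * (s - t) ^ 2 * ib,
    by linear_combination b⁻¹ * b * (s - t) ^ 2 * ia + (s - t) ^ 2 * ib⟩

theorem XG.ker_add (hG : X.Good v) (h : X.Ker v P) (h' : X.Ker v Q) : X.Ker v (P + Q) := by
  obtain ⟨e0, e1, e2⟩ := b1p_xi hG h h' rfl rfl
  have hs := b1p_lt h
  have ht := b1p_lt h'
  have hD := b1p_D hG hs ht
  refine b1p_ker e0 (not_le.1 fun hc => ?_)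
  generalize b1pXi X (P + Q) = a at *
  generalize b1pXi X (P - Q) = b at *
  generalize b1pXi X P = s at *
  generalize b1pXi X Q = t at *
  have f1 : v (a + b) < 1 := by
    have := congrArg v e1
    rw [map_mul, hD, mul_one] at this
    rw [this]
    refine v.map_add_lt ?_ ?_
    · rw [two_mul]
      exact v.map_add_lt (v.map_add_lt hs ht) (v.map_add_lt hs ht)
    · rw [map_mul, map_mul, mul_assoc]
      exact mul_lt_one_of_lt_of_le hs (mul_le_one' ht.le (b1p_le3 hG.1 hG.2.1 hG.2.2.1 hs ht))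
  have f2 : v a * v b < 1 := by
    have := congrArg v e2
    rw [map_mul, hD, mul_one, map_mul, map_pow] at this
    rw [this]
    exact pow_lt_one₀ zero_le (v.map_sub_lt hs ht) two_ne_zero
  have f3 : v b < 1 := lt_of_le_of_lt (le_mul_of_one_le_left' hc) f2
  have := v.map_sub_lt f1 f3
  rw [add_sub_cancel_right] at this
  exact absurd this (not_lt.2 hc)

theorem XG.ker_nsmul (hG : X.Good v) (h : X.Ker v P) (n : ℕ) : X.Ker v (n • P) := by
  induction n with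
  | zero => exact Or.inl (zero_nsmul P)
  | succ n ih =>
    rw [succ_nsmul]
    exact XG.ker_add hG ih h

theorem b1p_sq (hG : X.Good v) (h : X.Ker v P) {s : F} (hs : b1pXi X P = s) (h0 : 0 < v s)
    (k : ℕ) : v (b1pXi X (k • P) - k ^ 2 * s) < v s ∧
      v (b1pXi X ((k + 1) • P) - (k + 1) ^ 2 * s) < v s := by
  induction k with
  | zero => simpa [b1p_zero, hs] using h0
  | succ k ih =>
    refine ⟨by simpa using ih.2, ?_⟩
    have hk := XG.ker_nsmul hG h (k + 1)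
    obtain ⟨-, e1, -⟩ := b1p_xi hG hk h rfl hs
    rw [← succ_nsmul, show (k + 1) • P - P = k • P by rw [succ_nsmul, add_sub_cancel_right]] at e1
    have ha := b1p_lt (XG.ker_nsmul hG h (k + 1 + 1))
    have hb := b1p_lt (XG.ker_nsmul hG h k)
    have ht := b1p_lt hk
    have hs' := b1p_lt h
    rw [hs] at hs'
    obtain ⟨i1, i2⟩ := ih
    generalize b1pXi X ((k + 1 + 1) • P) = a at *
    generalize b1pXi X ((k + 1) • P) = t at *
    generalize b1pXi X (k • P) = b at *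
    have e : a - (((k + 1 : ℕ) : F) + 1) ^ 2 * s = t * ((a + b) * b1pE X t s + b1pN X t s) * s -
        (b - k ^ 2 * s) + ((t - (k + 1) ^ 2 * s) + (t - (k + 1) ^ 2 * s)) := by
      push_cast
      linear_combination e1
    rw [e]
    refine v.map_add_lt (v.map_sub_lt ?_ i1) (v.map_add_lt i2 i2)
    rw [map_mul, map_mul]
    refine mul_lt_of_lt_one_left h0 (mul_lt_one_of_lt_of_le ht (v.map_add_le ?_
      (b1p_le3 hG.1 hG.2.1 hG.2.2.1 ht hs')))
    rw [map_mul]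
    exact mul_le_one' (v.map_add_le ha.le hb.le) (b1p_le3 hG.2.1 hG.2.2.1 hG.2.2.2.1 ht hs')

theorem XG.ker_tors (hG : X.Good v) {n : ℕ} (hn : v n = 1) (h : X.Ker v P) (h0 : n • P = 0) :
    P = 0 := by
  by_contra hP
  have h1 : 0 < v (b1pXi X P) := zero_lt_iff.2 (v.ne_zero_iff.2 (right_ne_zero_of_mul
    (by rw [b1p_mul h hP]; exact one_ne_zero)))
  have := (b1p_sq hG h rfl h1 n).1
  rw [h0, b1p_zero, zero_sub, v.map_neg, map_mul, map_pow, hn, one_pow, one_mul] at this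
  exact lt_irrefl _ this

end Pool.Agent.P.MP_20768c_nt.Az.Cu

end

-- part Cu.B1_q
section

set_option autoImplicit false

open Complex NumberField IsDedekindDomain Filter Topology
open UpperHalfPlane hiding I
open scoped ComplexConjugate Real MatrixGroups

namespace Pool.Agent.P.MP_20768c_nt.Az.Cu

open Pool.Agent.P.MP_20768c_nt.Az.EQ (Lt pr sp IsLat jL qN)

variable {A B F : Type} [AddCommGroup A] [AddCommGroup B] [Field F] {Γ : Type}
  [LinearOrderedCommGroupWithZero Γ] {X : XG A F} {v : Valuation F Γ} {P Q : A}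

theorem b1q_eq (X : XG A F) {P P' : A} (hP : P ≠ 0) (hP' : P' ≠ 0) :
    X.x P = X.x P' ↔ P + P' = 0 ∨ P - P' = 0 := by
  refine ⟨fun h => ?_, ?_⟩
  · rcases X.inj P P' hP hP' h with e | e
    · exact Or.inr (sub_eq_zero.2 e)
    · exact Or.inl (by rw [e, neg_add_cancel])
  · rintro (e | e)
    · rw [eq_neg_of_add_eq_zero_left e, X.neg]
    · rw [sub_eq_zero.1 e]

theorem b1q_dbl (X : XG A F) (Y : XG B F) (σ : F →+* F) (h2 : Y.b2 = σ X.b2)
    (h4 : Y.b4 = σ X.b4) (h6 : Y.b6 = σ X.b6) (h8 : Y.b8 = σ X.b8) {P : A} {Q : B} (hP : P ≠ 0)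
    (hQ : Q ≠ 0) (h : Y.x Q = σ (X.x P)) :
    (P + P = 0 ↔ Q + Q = 0) ∧ (P + P ≠ 0 → Y.x (Q + Q) = σ (X.x (P + P))) := by
  have e : 4 * Y.x Q ^ 3 + Y.b2 * Y.x Q ^ 2 + 2 * Y.b4 * Y.x Q + Y.b6 =
      σ (4 * X.x P ^ 3 + X.b2 * X.x P ^ 2 + 2 * X.b4 * X.x P + X.b6) := by
    simp only [h, h2, h4, h6, map_add, map_mul, map_pow, map_ofNat]
  have k : P + P = 0 ↔ Q + Q = 0 := by rw [X.two P hP, Y.two Q hQ, e, map_eq_zero]
  refine ⟨k, fun h0 => ?_⟩
  have h1 := mt k.2 h0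
  refine mul_right_cancel₀ (mt (Y.two Q hQ).2 h1) ?_
  rw [Y.dbl Q hQ h1, e, ← map_mul, X.dbl P hP h0]
  simp only [h, h4, h6, h8, map_sub, map_mul, map_pow, map_ofNat]

theorem b1q_add (X : XG A F) (Y : XG B F) (σ : F →+* F) (h2 : Y.b2 = σ X.b2)
    (h4 : Y.b4 = σ X.b4) (h6 : Y.b6 = σ X.b6) (h8 : Y.b8 = σ X.b8) {P P' : A} {Q Q' : B}
    (hP : P ≠ 0) (hQ : Q ≠ 0) (hP' : P' ≠ 0) (hQ' : Q' ≠ 0) (h : Y.x Q = σ (X.x P))
    (h' : Y.x Q' = σ (X.x P')) (p1 : P + P' ≠ 0) (p2 : P - P' ≠ 0) (q1 : Q + Q' ≠ 0)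
    (q2 : Q - Q' ≠ 0) :
    Y.x (Q + Q') + Y.x (Q - Q') = σ (X.x (P + P')) + σ (X.x (P - P')) ∧
      Y.x (Q + Q') * Y.x (Q - Q') = σ (X.x (P + P')) * σ (X.x (P - P')) := by
  have hne : (Y.x Q - Y.x Q') ^ 2 ≠ 0 := pow_ne_zero _ (sub_ne_zero.2 fun e =>
    ((b1q_eq Y hQ hQ').1 e).elim q1 q2)
  have a1 := congrArg σ (X.add P P' hP hP' p1 p2)
  have a2 := congrArg σ (X.mul P P' hP hP' p1 p2)
  simp only [map_add, map_sub, map_mul, map_pow, map_ofNat, ← h, ← h', ← h2, ← h4, ← h6,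
    ← h8] at a1 a2
  exact ⟨mul_right_cancel₀ hne ((Y.add Q Q' hQ hQ' q1 q2).trans a1.symm),
    mul_right_cancel₀ hne ((Y.mul Q Q' hQ hQ' q1 q2).trans a2.symm)⟩

theorem XG.transport (X : XG A F) (Y : XG B F) (σ : F →+* F) (h2 : Y.b2 = σ X.b2)
    (h4 : Y.b4 = σ X.b4) (h6 : Y.b6 = σ X.b6) (h8 : Y.b8 = σ X.b8) {P : A} {Q : B} (hP : P ≠ 0)
    (hQ : Q ≠ 0) (h : Y.x Q = σ (X.x P)) (n : ℕ) :
    (n • P = 0 ↔ n • Q = 0) ∧ (n • P ≠ 0 → Y.x (n • Q) = σ (X.x (n • P))) := by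
  induction n using Nat.twoStepInduction with
  | zero => simp
  | one => simp [hP, hQ, h]
  | more n i0 i1 =>
    have eP : n • P = (n + 1) • P - P := by rw [succ_nsmul, add_sub_cancel_right]
    have eQ : n • Q = (n + 1) • Q - Q := by rw [succ_nsmul, add_sub_cancel_right]
    rw [eP, eQ] at i0
    rw [succ_nsmul P (n + 1), succ_nsmul Q (n + 1)]
    generalize (n + 1) • P = R at i0 i1
    generalize (n + 1) • Q = R' at i0 i1
    by_cases r0 : R = 0
    · rw [r0, i1.1.1 r0, zero_add, zero_add]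
      exact ⟨iff_of_false hP hQ, fun _ => h⟩
    have r1 := mt i1.1.2 r0
    have r2 := i1.2 r0
    by_cases s0 : R - P = 0
    · rw [sub_eq_zero.1 s0, sub_eq_zero.1 (i0.1.1 s0)]
      exact b1q_dbl X Y σ h2 h4 h6 h8 hP hQ h
    have s1 := mt i0.1.2 s0
    have k : R + P = 0 ↔ R' + Q = 0 := by
      rw [← or_iff_left (a := R + P = 0) s0, ← b1q_eq X r0 hP,
        ← or_iff_left (a := R' + Q = 0) s1, ← b1q_eq Y r1 hQ, r2, h, σ.injective.eq_iff]
    refine ⟨k, fun h0 => ?_⟩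
    have a := (b1q_add X Y σ h2 h4 h6 h8 r0 r1 hP hQ r2 h h0 s0 (mt k.2 h0) s1).1
    rwa [i0.2 s0, add_left_inj] at a

theorem XG.transport_add (X : XG A F) (Y : XG B F) (σ : F →+* F) (h2 : Y.b2 = σ X.b2)
    (h4 : Y.b4 = σ X.b4) (h6 : Y.b6 = σ X.b6) (h8 : Y.b8 = σ X.b8) {P P' : A} {Q Q' : B}
    (hP : P ≠ 0) (hQ : Q ≠ 0) (hP' : P' ≠ 0) (hQ' : Q' ≠ 0) (h : Y.x Q = σ (X.x P))
    (h' : Y.x Q' = σ (X.x P')) (hne : Q + Q' ≠ 0) :
    ∃ T, (T = P + P' ∨ T = P - P') ∧ T ≠ 0 ∧ Y.x (Q + Q') = σ (X.x T) := by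
  have k : P + P' = 0 ∨ P - P' = 0 ↔ Q - Q' = 0 := by
    rw [← b1q_eq X hP hP', ← or_iff_right (b := Q - Q' = 0) hne, ← b1q_eq Y hQ hQ', h, h',
      σ.injective.eq_iff]
  by_cases q2 : Q - Q' = 0
  · have d := b1q_dbl X Y σ h2 h4 h6 h8 hP hQ h
    have e := sub_eq_zero.1 q2
    subst e
    refine ⟨P + P, ?_, mt d.1.1 hne, d.2 (mt d.1.1 hne)⟩
    rcases k.2 q2 with e | e
    · exact Or.inr (by rw [eq_neg_of_add_eq_zero_right e, sub_neg_eq_add])
    · exact Or.inl (by rw [← sub_eq_zero.1 e])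
  · have p := not_or.1 (mt k.1 q2)
    obtain ⟨a1, a2⟩ := b1q_add X Y σ h2 h4 h6 h8 hP hQ hP' hQ' h h' p.1 p.2 hne q2
    have e : (Y.x (Q + Q') - σ (X.x (P + P'))) * (Y.x (Q + Q') - σ (X.x (P - P'))) = 0 := by
      linear_combination Y.x (Q + Q') * a1 - a2
    rcases mul_eq_zero.1 e with e | e
    · exact ⟨_, Or.inl rfl, p.1, sub_eq_zero.1 e⟩
    · exact ⟨_, Or.inr rfl, p.2, sub_eq_zero.1 e⟩

end Pool.Agent.P.MP_20768c_nt.Az.Cu

end

-- part Cu.J3a
section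

set_option autoImplicit false

open Complex NumberField IsDedekindDomain Filter Topology
open UpperHalfPlane hiding I
open scoped ComplexConjugate Real MatrixGroups

namespace Pool.Agent.P.MP_20768c_nt.Az.Cu

open Pool.Agent.P.MP_20768c_nt.Az.EQ (Lt pr sp IsLat jL qN)

theorem j3a_elim {V : Type} [AddCommGroup V] [Module ℂ V] {n : ℕ} (φ : V →ₗ[ℂ] ℂ)
    (l : Fin (n + 1) → ℂ) (y : Fin (n + 1) → V) (h : φ (y 0) ≠ 0) :
    ∑ i, l i • y i = (φ (∑ i, l i • y i) / φ (y 0)) • y 0 +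
      ∑ i : Fin n, l i.succ • (y i.succ + (-(φ (y i.succ) / φ (y 0))) • y 0) := by
  have e : φ (∑ i, l i • y i) / φ (y 0) =
      l 0 + ∑ i : Fin n, l i.succ * (φ (y i.succ) / φ (y 0)) := by
    rw [Fin.sum_univ_succ, map_add, map_sum, add_div, Finset.sum_div, map_smul, smul_eq_mul,
      mul_div_assoc, div_self h, mul_one]
    simp only [map_smul, smul_eq_mul, mul_div_assoc]
  rw [e, Fin.sum_univ_succ, add_smul, Finset.sum_smul, add_assoc, ← Finset.sum_add_distrib]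
  refine congrArg _ (Finset.sum_congr rfl fun i _ => ?_)
  module

section
variable {A B : Type} {k : IntermediateField ℚ ℂ} {v : Valuation ℂ NNReal}
  {W : Set ((A → ℂ) × (B → ℂ))}

theorem j3a_zero (h2 : v 2 < 1) (hsm : ∀ x ∈ W, ∀ t ∈ k, t • x ∈ W)
    (hA : ∀ x ∈ W, (∀ i, v (x.1 i) ≤ 1) → ∀ j, v (x.2 j) ≤ 1) {x : (A → ℂ) × (B → ℂ)}
    (hx : x ∈ W) (h0 : x.1 = 0) : x = 0 := by
  refine Prod.ext h0 (funext fun j => by_contra fun hj => ?_)
  have hp : 0 < v (x.2 j) := (Valuation.pos_iff v).2 hj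
  obtain ⟨n, hn⟩ := exists_pow_lt_of_lt_one hp h2
  have hk : ((2 : ℂ) ^ n)⁻¹ ∈ k := k.inv_mem (pow_mem (by exact_mod_cast natCast_mem k 2) n)
  have h1 := hA _ (hsm x hx _ hk) (fun i => by simp [h0]) j
  have h3 : 0 < v 2 ^ n := pow_pos ((Valuation.pos_iff v).2 two_ne_zero) n
  rw [Prod.smul_snd, Pi.smul_apply, smul_eq_mul, map_mul, map_inv₀, map_pow,
    inv_mul_le_iff₀ h3, mul_one] at h1
  exact absurd hn (not_lt.2 h1)

theorem j3a_one (h2 : v 2 < 1) (hadd : ∀ x ∈ W, ∀ y ∈ W, x + y ∈ W)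
    (hsm : ∀ x ∈ W, ∀ t ∈ k, t • x ∈ W) (hk : ∀ x ∈ W, ∀ i, x.1 i ∈ k)
    (hm : ∀ x ∈ W, ∃ i, ∀ i', v (x.1 i') ≤ v (x.1 i))
    (hA : ∀ x ∈ W, (∀ i, v (x.1 i) ≤ 1) → ∀ j, v (x.2 j) ≤ 1) (n : ℕ) :
    ∀ (l : Fin n → ℂ) (y : Fin n → (A → ℂ) × (B → ℂ)), (∀ i, y i ∈ W) →
      (∀ a, v ((∑ i, l i • y i).1 a) ≤ 1) →
      ∃ (m : Fin n → ℂ) (z : Fin n → (A → ℂ) × (B → ℂ)),
        (∀ i, v (m i) ≤ 1 ∧ z i ∈ W ∧ ∀ a, v ((z i).1 a) ≤ 1) ∧
          ∑ i, l i • y i = ∑ i, m i • z i := by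
  induction n with
  | zero => exact fun l y _ _ => ⟨l, y, fun i => i.elim0, rfl⟩
  | succ n ih =>
    intro l y hy h1
    obtain ⟨γ, hγ⟩ := hm _ (hy 0)
    by_cases hd : (y 0).1 γ = 0
    · have h0 : y 0 = 0 := j3a_zero h2 hsm hA (hy 0) (funext fun a => by
        have := hγ a
        rwa [hd, map_zero, nonpos_iff_eq_zero, Valuation.zero_iff] at this)
      rw [Fin.sum_univ_succ, h0, smul_zero, zero_add] at h1 ⊢
      obtain ⟨m, z, hz, e⟩ := ih _ _ (fun i => hy i.succ) h1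
      refine ⟨Fin.cons 0 m, Fin.cons 0 z, Fin.cases ⟨by simp, h0 ▸ hy 0, fun a => by simp⟩ hz, ?_⟩
      rw [Fin.sum_univ_succ, e]
      simp
    · let φ : ((A → ℂ) × (B → ℂ)) →ₗ[ℂ] ℂ := (LinearMap.proj γ).comp (LinearMap.fst ℂ _ _)
      have e0 := j3a_elim φ l y hd
      have hp : 0 < v ((y 0).1 γ) := (Valuation.pos_iff v).2 hd
      have hb : ∀ a, v ((((y 0).1 γ)⁻¹ • y 0).1 a) ≤ 1 := fun a => by
        rw [Prod.smul_fst, Pi.smul_apply, smul_eq_mul, map_mul, map_inv₀, inv_mul_le_iff₀ hp,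
          mul_one]
        exact hγ a
      rw [div_eq_mul_inv, mul_smul] at e0
      obtain ⟨m, z, hz, e⟩ := ih (fun i => l i.succ)
        (fun i => y i.succ + (-(φ (y i.succ) / φ (y 0))) • y 0)
        (fun i => hadd _ (hy _) _ (hsm _ (hy 0) _
          (neg_mem (div_mem (hk _ (hy _) γ) (hk _ (hy 0) γ))))) fun a => by
          rw [← sub_eq_iff_eq_add'.2 e0, Prod.fst_sub, Pi.sub_apply]
          refine v.map_sub_le (h1 a) ?_
          rw [Prod.smul_fst, Pi.smul_apply, smul_eq_mul, map_mul]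
          exact mul_le_one' (h1 γ) (hb a)
      refine ⟨Fin.cons (φ (∑ i, l i • y i)) m, Fin.cons (((y 0).1 γ)⁻¹ • y 0) z,
        Fin.cases ⟨h1 γ, hsm _ (hy 0) _ (inv_mem (hk _ (hy 0) γ)), hb⟩ hz, ?_⟩
      rw [Fin.sum_univ_succ (fun i => Fin.cons (α := fun _ => ℂ) _ m i • _)]
      exact e0.trans (congrArg _ e)

theorem j3a_two (hadd : ∀ x ∈ W, ∀ y ∈ W, x + y ∈ W)
    (hsm : ∀ x ∈ W, ∀ t ∈ k, t • x ∈ W) (c : A → A) (hk : ∀ x ∈ W, ∀ i, x.1 i ∈ k)
    (hA : ∀ x ∈ W, (∀ i, v (x.1 i) ≤ 1) → ∀ j, v (x.2 j) ≤ 1)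
    (hB : ∀ x ∈ W, (∀ i, v (x.1 i) ≤ 1) → (∀ i, v (x.1 i - x.1 (c i)) < 1) → ∀ j, v (x.2 j) < 1)
    (j : B) (n : ℕ) : ∀ (m : Fin n → ℂ) (z : Fin n → (A → ℂ) × (B → ℂ)),
      (∀ i, v (m i) ≤ 1 ∧ z i ∈ W ∧ ∀ a, v ((z i).1 a) ≤ 1) →
      (∀ a, v ((∑ i, m i • z i).1 a - (∑ i, m i • z i).1 (c a)) < 1) →
      v ((∑ i, m i • z i).2 j) < 1 := by
  have key : ∀ (x y w : (A → ℂ) × (B → ℂ)) (t : ℂ), x = t • y + w → ∀ a,
      v (x.1 a - x.1 (c a)) < 1 → v t * v (y.1 a - y.1 (c a)) < 1 →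
        v (w.1 a - w.1 (c a)) < 1 := by
    rintro _ y w t rfl a h h'
    have e : w.1 a - w.1 (c a) =
        ((t • y + w).1 a - (t • y + w).1 (c a)) - t * (y.1 a - y.1 (c a)) := by
      simp only [Prod.fst_add, Prod.smul_fst, Pi.add_apply, Pi.smul_apply, smul_eq_mul]
      ring
    rw [e]
    exact v.map_sub_lt h (by rwa [map_mul])
  have fin : ∀ (y w : (A → ℂ) × (B → ℂ)) (t : ℂ), v t * v (y.2 j) < 1 → v (w.2 j) < 1 →
      v ((t • y + w).2 j) < 1 := fun y w t h h' =>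
    v.map_add_lt (x := t * y.2 j) (by rwa [map_mul]) h'
  induction n with
  | zero => exact fun m z _ _ => by simp
  | succ n ih =>
    intro m z hz h1
    obtain ⟨m0, z0, b0⟩ := hz 0
    by_cases hq : ∀ a, v ((z 0).1 a - (z 0).1 (c a)) < 1
    · have e0 := Fin.sum_univ_succ fun i => m i • z i
      have h3 := ih _ _ (fun i => hz i.succ) fun a =>
        key _ _ _ _ e0 a (h1 a) (mul_lt_one_of_nonneg_of_lt_one_right m0 zero_le (hq a))
      rw [e0]
      exact fin _ _ _ (mul_lt_one_of_nonneg_of_lt_one_right m0 zero_le (hB _ z0 b0 hq j)) h3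
    · obtain ⟨γ, hγ⟩ := not_forall.1 hq
      have h4 : v ((z 0).1 γ - (z 0).1 (c γ)) = 1 :=
        le_antisymm (v.map_sub_le (b0 _) (b0 _)) (not_lt.1 hγ)
      let φ : ((A → ℂ) × (B → ℂ)) →ₗ[ℂ] ℂ :=
        (LinearMap.proj γ).comp (LinearMap.fst ℂ (A → ℂ) (B → ℂ)) -
          (LinearMap.proj (c γ)).comp (LinearMap.fst ℂ (A → ℂ) (B → ℂ))
      have h5 : v (φ (z 0)) = 1 := h4
      have hd : φ (z 0) ≠ 0 := fun e => by simp [e] at h5
      have hφ : ∀ x ∈ W, φ x ∈ k := fun x hx => sub_mem (hk x hx γ) (hk x hx (c γ))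
      have e0 := j3a_elim φ m z hd
      have h6 : v (φ (∑ i, m i • z i) / φ (z 0)) < 1 := by
        rw [map_div₀, h5, div_one]
        exact h1 γ
      have h3 := ih (fun i => m i.succ) (fun i => z i.succ + (-(φ (z i.succ) / φ (z 0))) • z 0)
        (fun i => ⟨(hz _).1, hadd _ (hz _).2.1 _ (hsm _ z0 _
          (neg_mem (div_mem (hφ _ (hz _).2.1) (hφ _ z0)))), fun a => by
            refine v.map_add_le ((hz _).2.2 a) ?_
            rw [Prod.smul_fst, Pi.smul_apply, smul_eq_mul, map_mul, Valuation.map_neg, map_div₀,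
              h5, div_one]
            exact mul_le_one' (v.map_sub_le ((hz _).2.2 _) ((hz _).2.2 _)) (b0 a)⟩)
        fun a => key _ _ _ _ e0 a (h1 a) (mul_lt_one_of_nonneg_of_lt_one_left zero_le h6
          (v.map_sub_le (b0 _) (b0 _)))
      rw [e0]
      exact fin _ _ _ (mul_lt_one_of_nonneg_of_lt_one_left zero_le h6 (hA _ z0 b0 j)) h3

end

theorem la_lemma {A B : Type} (k : IntermediateField ℚ ℂ) (v : Valuation ℂ NNReal) (h2 : v 2 < 1)
    (hr : ∀ x ∈ k, v x = 1 → v (x - 1) < 1) (W : Set ((A → ℂ) × (B → ℂ)))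
    (hadd : ∀ x ∈ W, ∀ y ∈ W, x + y ∈ W) (hsm : ∀ x ∈ W, ∀ t ∈ k, t • x ∈ W) (c : A → A)
    (hk : ∀ x ∈ W, ∀ i, x.1 i ∈ k) (hm : ∀ x ∈ W, ∃ i, ∀ i', v (x.1 i') ≤ v (x.1 i))
    (hA : ∀ x ∈ W, (∀ i, v (x.1 i) ≤ 1) → ∀ j, v (x.2 j) ≤ 1)
    (hB : ∀ x ∈ W, (∀ i, v (x.1 i) ≤ 1) → (∀ i, v (x.1 i - x.1 (c i)) < 1) → ∀ j, v (x.2 j) < 1)
    {x : (A → ℂ) × (B → ℂ)} (hx : x ∈ Submodule.span ℂ W) (h1 : ∀ i, v (x.1 i) ≤ 1)
    (h1' : ∀ i, v (x.1 i - x.1 (c i)) < 1) (j : B) : v (x.2 j) < 1 := by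
  obtain ⟨n, l, y, rfl⟩ := Submodule.mem_span_set'.1 hx
  obtain ⟨m, z, hz, e⟩ := j3a_one h2 hadd hsm hk hm hA n l (fun i => y i) (fun i => (y i).2) h1
  rw [e] at h1' ⊢
  exact j3a_two hadd hsm c hk hA hB j n m z hz h1'

end Pool.Agent.P.MP_20768c_nt.Az.Cu

end

-- part Cu.M1
section

set_option autoImplicit false

open Complex NumberField IsDedekindDomain Filter Topology
open UpperHalfPlane hiding I
open scoped ComplexConjugate Real MatrixGroups

namespace Pool.Agent.P.MP_20768c_nt.Az.Cu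

open Pool.Agent.P.MP_20768c_nt.Az.EQ (Lt pr sp IsLat jL qN)

theorem m1_mem {M : Type} [AddCommGroup M] [Module ℤ_[2] M] (n : ℕ) (x : M) :
    x ∈ (Ideal.span {(2 : ℤ_[2])} ^ n • ⊤ : Submodule ℤ_[2] M) ↔ ∃ y, (2 : ℤ_[2]) ^ n • y = x := by
  rw [Ideal.span_singleton_pow, Submodule.ideal_span_singleton_smul,
    Submodule.mem_smul_pointwise_iff_exists]
  simp

theorem m1_prec (ι : Type) : IsPrecomplete (Ideal.span {(2 : ℤ_[2])}) (ι → ℤ_[2]) := by
  have h0 : IsPrecomplete (Ideal.span {(2 : ℤ_[2])}) ℤ_[2] := by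
    have h := (inferInstance : IsPrecomplete (IsLocalRing.maximalIdeal ℤ_[2]) ℤ_[2])
    rwa [PadicInt.maximalIdeal_eq_span_p] at h
  refine ⟨fun f hf => ?_⟩
  have h1 := fun i => h0.prec (f := fun n => f n i) fun {m n} hmn => by
    obtain ⟨y, hy⟩ := (m1_mem _ _).1 (SModEq.sub_mem.1 (hf hmn))
    exact SModEq.sub_mem.2 ((m1_mem _ _).2 ⟨y i, congrFun hy i⟩)
  choose L hL using h1
  refine ⟨L, fun n => SModEq.sub_mem.2 ((m1_mem _ _).2 ?_)⟩
  choose y hy using fun i => (m1_mem _ _).1 (SModEq.sub_mem.1 (hL i n))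
  exact ⟨y, funext hy⟩

theorem m1_baer : Module.Baer ℤ (ℚ_[2] ⧸ (1 : Submodule ℤ_[2] ℚ_[2])) := by
  let _ : DivisibleBy (ℚ_[2] ⧸ (1 : Submodule ℤ_[2] ℚ_[2])) ℤ :=
    divisibleByOfSMulRightSurj _ _ fun {n} hn a => by
      obtain ⟨x, rfl⟩ := Submodule.Quotient.mk_surjective _ a
      refine ⟨Submodule.Quotient.mk (x / n), ?_⟩
      have h : (n : ℚ_[2]) ≠ 0 := by exact_mod_cast hn
      show n • (1 : Submodule ℤ_[2] ℚ_[2]).mkQ (x / n) = _
      rw [← map_zsmul, zsmul_eq_mul, mul_div_cancel₀ _ h]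
      rfl
  exact Module.Baer.of_divisible _

theorem m1_two : {d : ℚ_[2] ⧸ (1 : Submodule ℤ_[2] ℚ_[2]) | d + d = 0}.Finite := by
  refine ((Set.finite_lt_nat 2).image fun k : ℕ =>
    Submodule.Quotient.mk ((k : ℚ_[2]) / 2)).subset fun d hd => ?_
  obtain ⟨x, rfl⟩ := Submodule.Quotient.mk_surjective _ d
  rw [Set.mem_ofPred_eq, ← Submodule.Quotient.mk_add, Submodule.Quotient.mk_eq_zero,
    Submodule.mem_one] at hd
  obtain ⟨y, hy⟩ := hd
  have h1 := PadicInt.sub_zmodRepr_mem y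
  rw [PadicInt.maximalIdeal_eq_span_p, Ideal.mem_span_singleton'] at h1
  obtain ⟨z, hz⟩ := h1
  refine ⟨y.zmodRepr, y.zmodRepr_lt_p, ((Submodule.Quotient.eq _).2 ?_).symm⟩
  refine Submodule.mem_one.2 ⟨z, ?_⟩
  have h2 := congrArg (algebraMap ℤ_[2] ℚ_[2]) hz
  rw [map_mul, map_sub, map_natCast, map_natCast, hy, Nat.cast_ofNat] at h2
  linear_combination h2 / 2

theorem m1_half {A : Type} [AddCommGroup A] (f : A →+ ℚ_[2] ⧸ (1 : Submodule ℤ_[2] ℚ_[2]))
    (hf : ∀ a, a + a = 0 → f a = 0) : ∃ g : A →+ ℚ_[2] ⧸ (1 : Submodule ℤ_[2] ℚ_[2]), g + g = f := by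
  obtain ⟨g, hg⟩ := m1_baer.extension_property_addMonoidHom _
    (QuotientAddGroup.kerLift_injective (AddMonoidHom.id A + AddMonoidHom.id A))
    (QuotientAddGroup.lift _ f hf)
  refine ⟨g, AddMonoidHom.ext fun a => ?_⟩
  rw [AddMonoidHom.add_apply, ← map_add]
  exact DFunLike.congr_fun hg (a : A ⧸ _)

theorem dual_fg {A : Type} [AddCommGroup A] (ht : ∀ a : A, ∃ n : ℕ, 2 ^ n • a = 0)
    (h2 : {a : A | a + a = 0}.Finite) :
    Module.Finite ℤ_[2] (A →+ ℚ_[2] ⧸ (1 : Submodule ℤ_[2] ℚ_[2])) := by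
  have i1 := h2.to_subtype
  have i2 := m1_two.to_subtype
  let r : (A →+ ℚ_[2] ⧸ (1 : Submodule ℤ_[2] ℚ_[2])) → {a : A | a + a = 0} →
      {d : ℚ_[2] ⧸ (1 : Submodule ℤ_[2] ℚ_[2]) | d + d = 0} := fun f a =>
    ⟨f a, by rw [Set.mem_ofPred_eq, ← map_add, a.2, map_zero]⟩
  have i3 := Fintype.ofFinite (Set.range r)
  have i4 := m1_prec (Set.range r)
  have i5 : IsHausdorff (Ideal.span {(2 : ℤ_[2])}) (A →+ ℚ_[2] ⧸ (1 : Submodule ℤ_[2] ℚ_[2])) :=
    ⟨fun f hf => AddMonoidHom.ext fun a => by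
      obtain ⟨n, hn⟩ := ht a
      obtain ⟨g, rfl⟩ := (m1_mem _ _).1 (SModEq.zero.1 (hf n))
      have e : (2 : ℤ_[2]) ^ n = (2 ^ n : ℕ) := by norm_cast
      rw [AddMonoidHom.smul_apply, e, Nat.cast_smul_eq_nsmul, ← map_nsmul, hn, map_zero,
        AddMonoidHom.zero_apply]⟩
  refine Module.Finite.of_surjective (Fintype.linearCombination ℤ_[2] (Set.rangeSplitting r))
    (surjective_of_mkQ_comp_surjective (I := Ideal.span {(2 : ℤ_[2])}) fun y => ?_)
  obtain ⟨f, rfl⟩ := Submodule.Quotient.mk_surjective _ y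
  classical
  refine ⟨Pi.single ⟨r f, f, rfl⟩ 1, ?_⟩
  rw [LinearMap.comp_apply, Fintype.linearCombination_apply_single, one_smul]
  refine (Submodule.Quotient.eq _).2 ?_
  obtain ⟨g, hg⟩ := m1_half (Set.rangeSplitting r ⟨r f, f, rfl⟩ - f) fun a ha =>
    sub_eq_zero.2 (congrArg Subtype.val
      (congrFun (Set.apply_rangeSplitting r ⟨r f, f, rfl⟩) ⟨a, ha⟩))
  rw [← pow_one (Ideal.span _), m1_mem]
  exact ⟨g, by rw [pow_one, two_smul, hg]⟩

theorem quot_two_fin {A : Type} [AddCommGroup A] (ht : ∀ a : A, ∃ n : ℕ, 2 ^ n • a = 0)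
    (h2 : {a : A | a + a = 0}.Finite) : ∃ X : Finset A, ∀ a, ∃ x ∈ X, ∃ b, a = x + (b + b) := by
  classical
  have i1 := h2.to_subtype
  have key : Finite (A ⧸ (AddMonoidHom.id A + AddMonoidHom.id A).range) := by
    by_contra hinf
    rw [not_finite_iff_infinite] at hinf
    obtain ⟨s, hs⟩ := Infinite.exists_subset_card_eq
      (A ⧸ (AddMonoidHom.id A + AddMonoidHom.id A).range) (Nat.card {a : A | a + a = 0} + 1)
    let H := AddSubgroup.closure ((s.image Quotient.out : Finset A) : Set A)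
    have i2 : Finite H := AddCommGroup.finite_of_fg_isAddTorsion H fun a => by
      obtain ⟨n, hn⟩ := ht a
      exact isOfFinAddOrder_iff_nsmul_eq_zero.2 ⟨2 ^ n, by positivity, Subtype.ext hn⟩
    have h3 := AddSubgroup.index_range (f := AddMonoidHom.id H + AddMonoidHom.id H)
    have h4 : Nat.card (AddMonoidHom.id H + AddMonoidHom.id H).ker ≤
        Nat.card {a : A | a + a = 0} :=
      Nat.card_le_card_of_injective (fun a => ⟨a.1.1, congrArg Subtype.val a.2⟩)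
        fun a b e => Subtype.ext (Subtype.ext (Subtype.mk.inj e))
    have h5 : Nat.card s ≤ (AddMonoidHom.id H + AddMonoidHom.id H).range.index :=
      Nat.card_le_card_of_injective (fun q => QuotientAddGroup.mk ⟨q.1.out,
        AddSubgroup.subset_closure (Finset.mem_coe.2 (Finset.mem_image_of_mem _ q.2))⟩)
        fun q q' e => by
          obtain ⟨b, hb⟩ := QuotientAddGroup.eq.1 e
          refine Subtype.ext ?_
          rw [← Quotient.out_eq q.1, ← Quotient.out_eq q'.1]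
          exact QuotientAddGroup.eq.2 ⟨b, congrArg Subtype.val hb⟩
    rw [Nat.card_eq_fintype_card, Fintype.card_coe] at h5
    omega
  refine ⟨(Set.finite_range fun q : A ⧸ (AddMonoidHom.id A + AddMonoidHom.id A).range =>
    q.out).toFinset, fun a => ⟨_, (Set.Finite.mem_toFinset _).2 ⟨a, rfl⟩, ?_⟩⟩
  obtain ⟨b, hb⟩ := QuotientAddGroup.eq.1
    (Quotient.out_eq (a : A ⧸ (AddMonoidHom.id A + AddMonoidHom.id A).range))
  exact ⟨b, by rw [show b + b = _ from hb, add_neg_cancel_left]⟩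

end Pool.Agent.P.MP_20768c_nt.Az.Cu

end

-- part Cu.M4_p
section

set_option autoImplicit false

open Complex NumberField IsDedekindDomain Filter Topology
open UpperHalfPlane hiding I
open scoped ComplexConjugate Real MatrixGroups

namespace Pool.Agent.P.MP_20768c_nt.Az.Cu

open Pool.Agent.P.MP_20768c_nt.Az.EQ (Lt pr sp IsLat jL qN)

open Cardinal in
theorem m4p_card_le {X Y : Type} [TopologicalSpace Y] [T2Space Y] [FrechetUrysohnSpace Y]
    (f : X → Y) (hf : DenseRange f) (hX : Cardinal.mk X ≤ 𝔠) : Cardinal.mk Y ≤ 𝔠 := by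
  have h : ∀ y : Y, ∃ u : ℕ → X, Filter.Tendsto (fun n => f (u n)) Filter.atTop (nhds y) := by
    intro y
    obtain ⟨x, hx, hl⟩ := mem_closure_iff_seq_limit.1 (hf y)
    choose u hu using hx
    exact ⟨u, by simpa only [hu] using hl⟩
  choose g hg using h
  have hinj : Function.Injective g := fun y y' hy =>
    tendsto_nhds_unique (hg y) (by rw [hy]; exact hg y')
  calc Cardinal.mk Y ≤ Cardinal.mk (ℕ → X) := mk_le_of_injective hinj
    _ = Cardinal.mk X ^ ℵ₀ := by simp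
    _ ≤ 𝔠 ^ ℵ₀ := power_le_power_right hX
    _ = 𝔠 := continuum_power_aleph0

open Cardinal in
theorem m4p_card : Cardinal.mk ℂ_[2] = 𝔠 := by
  refine le_antisymm ?_ (continuum_le_cardinal_of_nontriviallyNormedField ℂ_[2])
  have h1 : Cardinal.mk ℚ_[2] ≤ 𝔠 := m4p_card_le _ (Padic.denseRange_ratCast 2)
    (mk_le_aleph0.trans aleph0_le_continuum)
  have h2 : Cardinal.mk (PadicAlgCl 2) ≤ 𝔠 :=
    (Algebra.IsAlgebraic.cardinalMk_le_max ℚ_[2] (PadicAlgCl 2)).trans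
      (max_le h1 aleph0_le_continuum)
  exact m4p_card_le _ (UniformSpace.Completion.denseRange_coe (α := PadicAlgCl 2)) h2

theorem exists_iota : Nonempty (ℂ →+* ℂ_[2]) := by
  obtain ⟨e⟩ := IsAlgClosed.ringEquiv_of_equiv_of_charZero (K := ℂ_[2]) (L := ℂ)
    (by rw [m4p_card]; exact Cardinal.aleph0_lt_continuum)
    (Cardinal.eq.1 (by rw [m4p_card, Cardinal.mk_complex]))
  exact ⟨e.symm.toRingHom⟩

theorem m4p_iota {w : ℂ} {m : ℕ} (hm : Even m) (h1 : w ^ 2 = w - m) (h2 : conj w = 1 - w) :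
    ∃ ι : ℂ →+* ℂ_[2], ‖ι w‖ < 1 := by
  obtain ⟨ι⟩ := exists_iota
  by_contra hc
  push Not at hc
  have a1 := hc ι
  have a2 := hc (ι.comp (starRingEnd ℂ))
  rw [RingHom.comp_apply, h2] at a2
  obtain ⟨r, rfl⟩ := hm
  have a3 : ι w * ι (1 - w) = ((2 : ℕ) : ℂ_[2]) * (r : ℂ_[2]) := by
    rw [← map_mul, ← map_natCast ι, ← map_natCast ι, ← map_mul]
    congr 1
    push_cast at h1 ⊢
    linear_combination -h1
  have a4 : ‖((2 : ℕ) : ℂ_[2])‖ = 2⁻¹ := by
    rw [← map_natCast (algebraMap ℚ_[2] ℂ_[2]), norm_algebraMap', Padic.norm_p]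
    norm_num
  have a5 := IsUltrametricDist.norm_natCast_le_one ℂ_[2] r
  have a6 := congrArg norm a3
  rw [norm_mul, norm_mul, a4] at a6
  nlinarith [mul_nonneg (sub_nonneg.2 a1) (sub_nonneg.2 a2)]

theorem m4p_int {q : ℚ} (h : IsIntegral ℤ (q : ℂ)) : ∃ n : ℤ, (n : ℚ) = q :=
  IsIntegrallyClosed.isIntegral_iff.1
    ((isIntegral_algebraMap_iff (algebraMap ℚ ℂ).injective).1 h)

theorem m4p_sqf {E : ℕ} (hE : Squarefree E) {q : ℚ} {c : ℤ} (h : (c : ℚ) = q ^ 2 * E) :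
    ∃ n : ℤ, (n : ℚ) = q := by
  have h1 : (c * q.den ^ 2 : ℤ) = q.num ^ 2 * E := by
    have h2 : (q.num : ℚ) = q * q.den := (Rat.mul_den_eq_num q).symm
    apply Int.cast_injective (α := ℚ)
    push_cast
    rw [h, h2]
    ring
  have h2 : q.den * q.den ∣ q.num.natAbs ^ 2 * E := by
    have h3 := congrArg Int.natAbs h1
    simp only [Int.natAbs_mul, Int.natAbs_pow, Int.natAbs_natCast] at h3
    exact ⟨c.natAbs, by rw [← h3]; ring⟩
  have h3 : Nat.Coprime (q.den * q.den) (q.num.natAbs ^ 2) := by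
    rw [← sq]
    exact Nat.Coprime.pow 2 2 q.reduced.symm
  exact ⟨q.num, (Rat.den_eq_one_iff q).1 (Nat.isUnit_iff.1 (hE _ (h3.dvd_of_dvd_mul_left h2)))⟩

theorem m4p_span {E : ℕ} (hE : Squarefree E) (ho : E % 2 = 1) {t : ℂ} (h1 : t ^ 2 = -E)
    (h2 : conj t = -t) {a b : ℚ} (hx : IsIntegral ℤ (a + b * t)) :
    ∃ u v : ℤ, a + b * t = u + v * ((1 + t) / 2) := by
  have hy : IsIntegral ℤ (a - b * t) := by
    have h3 := hx.map (starRingEnd ℂ).toIntAlgHom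
    simpa [h2, sub_eq_add_neg] using h3
  obtain ⟨T, hT⟩ := m4p_int (q := 2 * a) (by
    have h3 := hx.add hy
    rwa [show a + b * t + (a - b * t) = ((2 * a : ℚ) : ℂ) by push_cast; ring] at h3)
  obtain ⟨c, hc⟩ := m4p_int (q := (2 * b) ^ 2 * E) (by
    have h3 := ((hx.sub hy).pow 2).neg
    rwa [show -(a + b * t - (a - b * t)) ^ 2 = (((2 * b) ^ 2 * E : ℚ) : ℂ) by
      push_cast; linear_combination (-4 * (b : ℂ) ^ 2) * h1] at h3)
  obtain ⟨B, hB⟩ := m4p_sqf hE hc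
  obtain ⟨n, hn⟩ := m4p_int (q := a ^ 2 + b ^ 2 * E) (by
    have h3 := hx.mul hy
    rwa [show (a + b * t) * (a - b * t) = ((a ^ 2 + b ^ 2 * E : ℚ) : ℂ) by
      push_cast; linear_combination (-(b : ℂ) ^ 2) * h1] at h3)
  have h4 : T ^ 2 + B ^ 2 * E = 4 * n := by
    apply Int.cast_injective (α := ℚ)
    push_cast
    rw [hT, hB, hn]
    ring
  have h5 : Even (T - B) := by
    have h6 : Even (T ^ 2 + B ^ 2 * E) := ⟨2 * n, by rw [h4]; ring⟩
    have h7 : ¬ Even (E : ℤ) := by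
      rw [Int.even_iff]
      omega
    simpa [Int.even_add, Int.even_sub, Int.even_mul, Int.even_pow, h7] using h6
  obtain ⟨u, hu⟩ := h5
  have e1 : (T : ℂ) = 2 * a := by exact_mod_cast congrArg (Rat.cast : ℚ → ℂ) hT
  have e2 : (B : ℂ) = 2 * b := by exact_mod_cast congrArg (Rat.cast : ℚ → ℂ) hB
  have e3 : (T : ℂ) - B = u + u := by exact_mod_cast congrArg (Int.cast : ℤ → ℂ) hu
  exact ⟨u, B, by linear_combination (-1 / 2 : ℂ) * e1 - t / 2 * e2 + (1 / 2 : ℂ) * e3⟩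

theorem exists_st {D : ℤ} (h0 : D < 0) (h8 : D % 8 = 1) :
    ∃ (s : St) (d : ℂ), d ^ 2 = D ∧ s.k = IntermediateField.adjoin ℚ {d} := by
  obtain ⟨E, g, hg, hE⟩ := Nat.sq_mul_squarefree D.natAbs
  have hD : D = -(g ^ 2 * E : ℕ) := by omega
  have hE8 : E % 8 = 7 := by
    have h1 : g ^ 2 * E % 8 = 7 := by omega
    have h2 : g % 8 < 8 := Nat.mod_lt _ (by norm_num)
    have h3 : E % 8 < 8 := Nat.mod_lt _ (by norm_num)
    rw [Nat.mul_mod, Nat.pow_mod] at h1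
    generalize g % 8 = x at h1 h2
    generalize E % 8 = y at h1 h3 ⊢
    interval_cases x <;> omega
  have hg0 : (g : ℂ) ≠ 0 := Nat.cast_ne_zero.2 fun e => by
    rw [e] at hg
    omega
  obtain ⟨m, hm⟩ : ∃ m, E + 1 = 4 * m := ⟨(E + 1) / 4, by omega⟩
  have hm' : (E : ℂ) + 1 = 4 * m := by exact_mod_cast congrArg (Nat.cast : ℕ → ℂ) hm
  obtain ⟨t, h1, h2, h3⟩ : ∃ t : ℂ, t ^ 2 = -E ∧ conj t = -t ∧ 0 < t.im := by
    refine ⟨(√E : ℝ) * I, ?_, by simp, ?_⟩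
    · rw [mul_pow, I_sq, ← ofReal_pow, Real.sq_sqrt (Nat.cast_nonneg _)]
      simp
    · have h4 : 0 < E := by omega
      simpa using h4
  have hd : (g * t) ^ 2 = (D : ℂ) := by
    rw [hD, mul_pow, h1]
    push_cast
    ring
  have hi : IsIntegral ℚ (g * t) := IsIntegral.of_pow (n := 2) (by norm_num) (by
    rw [hd]
    exact isIntegral_intCast D)
  have hw : ((1 + t) / 2) ^ 2 = (1 + t) / 2 - m := by
    linear_combination (1 / 4 : ℂ) * h1 - (1 / 4 : ℂ) * hm'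
  have hk : (1 + t) / 2 ∈ IntermediateField.adjoin ℚ {g * t} := by
    have h4 := div_mem (IntermediateField.mem_adjoin_simple_self ℚ (g * t)) (natCast_mem _ g)
    rw [mul_div_cancel_left₀ _ hg0] at h4
    exact div_mem (add_mem (one_mem _) h4) (ofNat_mem _ 2)
  have hz : IsIntegral ℤ ((1 + t) / 2) :=
    ⟨Polynomial.X ^ 2 - (Polynomial.X - Polynomial.C (m : ℤ)), by monicity!, by simp [hw]⟩
  have hz' : IsIntegral ℤ (⟨(1 + t) / 2, hk⟩ : IntermediateField.adjoin ℚ {g * t}) :=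
    (isIntegral_algebraMap_iff (algebraMap (IntermediateField.adjoin ℚ {g * t}) ℂ).injective).1 hz
  obtain ⟨ι, hι⟩ := m4p_iota (w := (1 + t) / 2) (m := m) ⟨m / 2, by omega⟩ hw (by
    rw [map_div₀, map_add, h2, map_one, map_ofNat]
    ring)
  have hinj : Function.Injective (algebraMap (𝓞 (IntermediateField.adjoin ℚ {g * t})) ℂ) :=
    fun x y e => Subtype.ext (Subtype.ext e)
  have hfd := IntermediateField.adjoin.finiteDimensional hi
  refine ⟨⟨IntermediateField.adjoin ℚ {g * t}, ⟨⟩, ⟨_, hz'⟩, m, by omega, ⟨m / 2, by omega⟩,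
    hinj ?_, ?_, fun x => ?_, ι, hι⟩, g * t, hd, rfl⟩
  · rw [map_pow, map_sub, map_natCast]
    exact hw
  · change 0 < ((1 + t) / 2).im
    simpa using h3
  · have h4 : ∀ y ∈ Algebra.adjoin ℚ {g * t}, ∃ a b : ℚ, y = a + b * t := fun y hy => by
      induction hy using Algebra.adjoin_induction with
      | mem y hy => exact ⟨0, g, by simpa using hy⟩
      | algebraMap r => exact ⟨r, 0, by simp⟩
      | add y z _ _ hy hz =>
        obtain ⟨a, b, rfl⟩ := hy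
        obtain ⟨c, d, rfl⟩ := hz
        exact ⟨a + c, b + d, by push_cast; ring⟩
      | mul y z _ _ hy hz =>
        obtain ⟨a, b, rfl⟩ := hy
        obtain ⟨c, d, rfl⟩ := hz
        exact ⟨a * c - b * d * E, a * d + b * c, by
          push_cast
          linear_combination (b : ℂ) * d * h1⟩
    obtain ⟨a, b, hab⟩ := h4 (algebraMap _ ℂ x) (by
      rw [← IntermediateField.adjoin_simple_toSubalgebra_of_isAlgebraic hi.isAlgebraic]
      exact x.1.2)
    obtain ⟨u, v, huv⟩ := m4p_span hE (by omega) h1 h2 (a := a) (b := b) (by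
      rw [← hab]
      exact (isIntegral_algebraMap_iff
        (algebraMap (IntermediateField.adjoin ℚ {g * t}) ℂ).injective).2 x.2)
    refine ⟨u, v, hinj ?_⟩
    rw [map_add, map_mul, map_intCast, map_intCast, hab]
    exact huv

end Pool.Agent.P.MP_20768c_nt.Az.Cu

end

-- part Cu.A0
section

set_option autoImplicit false

open Complex NumberField IsDedekindDomain Filter Topology
open UpperHalfPlane hiding I
open scoped ComplexConjugate Real MatrixGroups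

namespace Pool.Agent.P.MP_20768c_nt.Az.Cu

open Pool.Agent.P.MP_20768c_nt.Az.EQ (Lt pr sp IsLat jL qN)

variable {L M : Lt} {z x : ℂ}

theorem mul_mem_sc (hx : x ≠ 0) : x * z ∈ pr x * L ↔ z ∈ L := by
  rw [Pool.Agent.P.MP_20768c_nt.Az.EQ.mem_pr_mul]
  constructor
  · rintro ⟨w, hw, e⟩
    rwa [← mul_left_cancel₀ hx e]
  · exact fun h => ⟨z, h, rfl⟩

theorem tsum_sc (L : Lt) (hx : x ≠ 0) (f : ℂ → ℂ) :
    ∑' l : (pr x * L : Lt), f l = ∑' l : L, f (x * l) := by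
  let e : L ≃ (pr x * L : Lt) :=
    { toFun := fun l => ⟨x * l, (mul_mem_sc hx).2 l.2⟩
      invFun := fun l => ⟨x⁻¹ * l, (mul_mem_sc hx).1 (by
        rw [mul_inv_cancel_left₀ hx]
        exact l.2)⟩
      left_inv := fun l => Subtype.ext (inv_mul_cancel_left₀ hx _)
      right_inv := fun l => Subtype.ext (mul_inv_cancel_left₀ hx _) }
  exact (e.tsum_eq fun l => f l).symm

theorem wp_sc (L : Lt) (hx : x ≠ 0) (z : ℂ) : wp (pr x * L) (x * z) = wp L z / x ^ 2 := by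
  rw [wp, wp, tsum_sc L hx fun l => 1 / (x * z - l) ^ 2 - 1 / l ^ 2, ← tsum_div_const]
  refine tsum_congr fun l => ?_
  rw [← mul_sub, mul_pow, mul_pow, sub_div, div_div, div_div, mul_comm (x ^ 2), mul_comm (x ^ 2)]

theorem wpd_sc (L : Lt) (hx : x ≠ 0) (z : ℂ) : wpd (pr x * L) (x * z) = wpd L z / x ^ 3 := by
  rw [wpd, wpd, tsum_sc L hx fun l => 2 / (x * z - l) ^ 3, neg_div, ← tsum_div_const]
  refine congrArg Neg.neg (tsum_congr fun l => ?_)
  rw [← mul_sub, mul_pow, div_div, mul_comm (x ^ 3)]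

theorem a0_Gk (L : Lt) (hx : x ≠ 0) (n : ℕ) : Gk (pr x * L) n = Gk L n / x ^ n := by
  rw [Gk, Gk, tsum_sc L hx fun l => (l ^ n)⁻¹, ← tsum_div_const]
  refine tsum_congr fun l => ?_
  rw [mul_pow, mul_inv, div_eq_mul_inv, mul_comm]

theorem g2_sc (L : Lt) (hx : x ≠ 0) : g2 (pr x * L) = g2 L / x ^ 4 := by
  rw [g2, g2, a0_Gk L hx, mul_div_assoc]

theorem g3_sc (L : Lt) (hx : x ≠ 0) : g3 (pr x * L) = g3 L / x ^ 6 := by
  rw [g3, g3, a0_Gk L hx, mul_div_assoc]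

theorem dl_sc (L : Lt) (hx : x ≠ 0) : dl (pr x * L) = dl L / x ^ 12 := by
  rw [dl, dl, g2_sc L hx, g3_sc L hx, div_pow, div_pow, ← pow_mul, ← pow_mul, sub_div,
    mul_div_assoc]

theorem UU_sc (L : Lt) (hx : x ≠ 0) : UU (pr x * L) = UU L / x ^ 2 := by
  rw [UU, UU, g2_sc L hx, g3_sc L hx]
  by_cases h : g2 L = 0
  · simp [h]
  · field_simp

theorem XX_sc (L : Lt) (hx : x ≠ 0) (z : ℂ) : XX (pr x * L) (x * z) = XX L z := by
  rw [XX, XX, wp_sc L hx, UU_sc L hx, div_div_div_cancel_right₀ (pow_ne_zero _ hx)]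

theorem oc_sc (L : Lt) (hx : x ≠ 0) (z : ℂ) : oc (pr x * L) (x * z) = x * oc L z := by
  rw [oc, oc, mul_left_comm, wp_sc L hx, wp_sc L hx, wpd_sc L hx]
  by_cases h : wpd L z = 0
  · simp [h]
  · field_simp

theorem oc_add (h : IsLat L) (z : ℂ) {l : ℂ} (hl : l ∈ L) : oc L (z + l) = oc L z := by
  rw [oc, oc, wp_add h z hl, wpd_add h z hl, mul_add,
    wp_add h (2 * z) (l := 2 * l) (by rw [two_mul]; exact add_mem hl hl)]

theorem hpar_sc (L : Lt) (hx : x ≠ 0) (z : ℂ) : hpar (pr x * L) (x * z) = hpar L z := by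
  rw [hpar, hpar, wp_sc L hx, g2_sc L hx, div_pow, ← pow_mul, ← mul_div_assoc, ← mul_div_assoc,
    ← sub_div, ← sub_div, ← mul_div_assoc, div_div_div_cancel_right₀ (pow_ne_zero _ hx)]

theorem isLat_conj (h : IsLat L) (hM : ∀ y, y ∈ M ↔ conj y ∈ L) : IsLat M := by
  obtain ⟨c, τ, hc, rfl⟩ := h
  refine ⟨conj c, ⟨-conj (τ : ℂ), by simpa using τ.im_pos⟩, by simpa using hc, ?_⟩
  ext y
  rw [hM, Pool.Agent.P.MP_20768c_nt.Az.EQ.mem_sp, Pool.Agent.P.MP_20768c_nt.Az.EQ.mem_sp]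
  constructor
  · rintro ⟨m, n, e⟩
    refine ⟨m, -n, ?_⟩
    have e' := congrArg conj e
    simp only [Complex.conj_conj, map_add, map_mul, map_intCast] at e'
    rw [e']
    push_cast
    ring
  · rintro ⟨m, n, e⟩
    refine ⟨m, -n, ?_⟩
    rw [e]
    simp only [Complex.conj_conj, map_add, map_mul, map_intCast, map_neg]
    push_cast
    ring

theorem a0_tsum (hM : ∀ y, y ∈ M ↔ conj y ∈ L) (f : ℂ → ℂ) :
    ∑' l : M, f l = ∑' l : L, f (conj (l : ℂ)) := by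
  let e : L ≃ M :=
    { toFun := fun l => ⟨conj (l : ℂ), (hM _).2 (by
        rw [Complex.conj_conj]
        exact l.2)⟩
      invFun := fun l => ⟨conj (l : ℂ), (hM _).1 l.2⟩
      left_inv := fun l => Subtype.ext (Complex.conj_conj _)
      right_inv := fun l => Subtype.ext (Complex.conj_conj _) }
  exact (e.tsum_eq fun l => f l).symm

theorem wp_conj (hM : ∀ y, y ∈ M ↔ conj y ∈ L) (z : ℂ) : wp M (conj z) = conj (wp L z) := by
  rw [wp, wp, Complex.conj_tsum, a0_tsum hM fun l => 1 / (conj z - l) ^ 2 - 1 / l ^ 2]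
  refine tsum_congr fun l => ?_
  simp only [map_sub, map_div₀, map_one, map_pow]

theorem wpd_conj (hM : ∀ y, y ∈ M ↔ conj y ∈ L) (z : ℂ) : wpd M (conj z) = conj (wpd L z) := by
  rw [wpd, wpd, map_neg, Complex.conj_tsum, a0_tsum hM fun l => 2 / (conj z - l) ^ 3]
  refine congrArg Neg.neg (tsum_congr fun l => ?_)
  simp only [map_sub, map_div₀, map_ofNat, map_pow]

end Pool.Agent.P.MP_20768c_nt.Az.Cu

end

-- part Ab.Y1
section

set_option autoImplicit false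

open Complex NumberField IsDedekindDomain Filter Topology
open UpperHalfPlane hiding I
open scoped ComplexConjugate Real MatrixGroups

namespace Pool.Agent.P.MP_20768c_nt.Az.Cu

open Pool.Agent.P.MP_20768c_nt.Az.EQ (Lt pr sp IsLat jL qN)

theorem aby1_dvd {F : Type} [Field F] (V : ValuationSubring F) {a b : ℕ} (h : a ∣ b)
    (hb : V.valuation b = 1) : V.valuation a = 1 := by
  obtain ⟨c, rfl⟩ := h
  have ha : V.valuation a ≤ 1 := V.valuation_le_one ⟨a, natCast_mem V a⟩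
  have hc : V.valuation c ≤ 1 := V.valuation_le_one ⟨c, natCast_mem V c⟩
  rw [Nat.cast_mul, map_mul] at hb
  exact le_antisymm ha (hb.symm.le.trans (mul_le_of_le_one_right' hc))

theorem aby1_int {F : Type} [Field F] (V : ValuationSubring F) {x : F} (h : IsIntegral ℤ x) :
    V.valuation x ≤ 1 := by
  have h1 : IsIntegral V x := h.tower_top
  obtain ⟨y, rfl⟩ := IsIntegrallyClosed.isIntegral_iff.1 h1
  exact V.valuation_le_one y

theorem aby1_nat {F : Type} [Field F] [CharZero F] {x : F} (hx : IsAlgebraic ℚ x) :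
    ∃ C : ℕ, C ≠ 0 ∧ ∀ V : ValuationSubring F, V.valuation C = 1 → x ≠ 0 → V.valuation x = 1 := by
  obtain ⟨y, y0, hy⟩ := ((IsFractionRing.isAlgebraic_iff ℤ ℚ F).2 hx).exists_integral_multiple
  obtain ⟨z, z0, hz⟩ := ((IsFractionRing.isAlgebraic_iff ℤ ℚ F).2 hx.inv).exists_integral_multiple
  have key : ∀ (V : ValuationSubring F) (n : ℤ) (a : F), IsIntegral ℤ (n • a) →
      V.valuation (n.natAbs : F) = 1 → V.valuation a ≤ 1 := by
    intro V n a ha hv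
    have h1 := aby1_int V ha
    have h2 : V.valuation (n : F) = 1 := by
      rcases Int.natAbs_eq n with e | e
      · rw [e, Int.cast_natCast, hv]
      · rw [e, Int.cast_neg, Int.cast_natCast, Valuation.map_neg, hv]
    rwa [zsmul_eq_mul, map_mul, h2, one_mul] at h1
  refine ⟨y.natAbs * z.natAbs, mul_ne_zero (Int.natAbs_ne_zero.2 y0) (Int.natAbs_ne_zero.2 z0),
    fun V hV h0 => le_antisymm (key V y x hy (aby1_dvd _ (dvd_mul_right _ _) hV)) ?_⟩
  have h1 := key V z x⁻¹ hz (aby1_dvd _ (dvd_mul_left _ _) hV)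
  rw [map_inv₀] at h1
  exact (inv_le_one₀ (zero_lt_iff.2 ((Valuation.ne_zero_iff _).2 h0))).1 h1

theorem aby1_fin {F : Type} [Field F] [CharZero F] {T : Set F} (hT : T.Finite)
    (h : ∀ x : F, IsAlgebraic ℚ x) : ∃ C : ℕ, C ≠ 0 ∧ ∀ V : ValuationSubring F,
      V.valuation C = 1 → ∀ x ∈ T, x ≠ 0 → V.valuation x = 1 := by
  induction T, hT using Set.Finite.induction_on with
  | empty => exact ⟨1, one_ne_zero, fun _ _ _ hx => absurd hx (Set.notMem_empty _)⟩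
  | @insert a T _ _ ih =>
    obtain ⟨C, h1, h2⟩ := ih
    obtain ⟨D, k1, k2⟩ := aby1_nat (h a)
    refine ⟨C * D, mul_ne_zero h1 k1, fun V hV x hx => ?_⟩
    rcases hx with rfl | hx
    · exact k2 V (aby1_dvd _ (dvd_mul_left D C) hV)
    · exact h2 V (aby1_dvd _ (dvd_mul_right C D) hV) x hx

/-- a character of a subgroup of index two that is invariant and kills `g₀ ^ 2` extends -/
theorem aby1_ext {G : Type} [Group G] {H₀ H₁ : Subgroup G} (hle : H₁ ≤ H₀)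
    (h2 : ∀ g ∈ H₀, ∀ h ∈ H₀, g ∉ H₁ → h ∉ H₁ → g * h ∈ H₁) {g₀ : G} (h0 : g₀ ∈ H₀) (h1 : g₀ ∉ H₁)
    (ψ : H₁ →* ℤˣ) (hc : ∀ a b : H₁, a.1 * g₀ = g₀ * b.1 → ψ a = ψ b)
    (hs : ∀ a : H₁, a.1 = g₀ * g₀ → ψ a = 1) : ∃ χ : H₀ →* ℤˣ,
      (∀ (a : H₀) (b : H₁), a.1 = b.1 → χ a = ψ b) ∧
        ∀ (a : H₀) (b : H₁), a.1 = b.1 * g₀ → χ a = ψ b := by
  classical
  have hi : g₀⁻¹ ∉ H₁ := fun h => h1 (inv_mem_iff.1 h)
  have hm : ∀ a : H₀, a.1 ∉ H₁ → a.1 * g₀⁻¹ ∈ H₁ := fun a ha => h2 _ a.2 _ (inv_mem h0) ha hi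
  have hcj : ∀ b : G, b ∈ H₁ → g₀ * (b * g₀⁻¹) ∈ H₁ := fun b hb =>
    h2 _ h0 _ (mul_mem (hle hb) (inv_mem h0)) h1 fun h => hi ((H₁.mul_mem_cancel_left hb).1 h)
  let e : H₀ → ℤˣ := fun a => if h : a.1 ∈ H₁ then ψ ⟨a.1, h⟩ else ψ ⟨a.1 * g₀⁻¹, hm a h⟩
  have e1 : ∀ (a : H₀) (b : H₁), a.1 = b.1 → e a = ψ b := fun a b hab => by
    have : a.1 ∈ H₁ := hab ▸ b.2
    simp only [e, dif_pos this]
    exact congrArg ψ (Subtype.ext hab)
  have e2 : ∀ (a : H₀) (b : H₁), a.1 = b.1 * g₀ → e a = ψ b := fun a b hab => by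
    have : a.1 ∉ H₁ := fun h => h1 ((H₁.mul_mem_cancel_left b.2).1 (hab ▸ h))
    simp only [e, dif_neg this]
    exact congrArg ψ (Subtype.ext (by simp [hab]))
  refine ⟨MonoidHom.mk' e fun a b => ?_, e1, e2⟩
  by_cases ha : a.1 ∈ H₁ <;> by_cases hb : b.1 ∈ H₁
  · rw [e1 a ⟨_, ha⟩ rfl, e1 b ⟨_, hb⟩ rfl, ← map_mul]
    exact e1 _ _ rfl
  · rw [e1 a ⟨_, ha⟩ rfl, e2 b ⟨_, hm b hb⟩ (by simp), ← map_mul]
    exact e2 _ _ (by simp [mul_assoc])
  · rw [e2 a ⟨_, hm a ha⟩ (by simp), e1 b ⟨_, hb⟩ rfl,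
      ← hc ⟨_, hcj _ hb⟩ ⟨_, hb⟩ (by simp [mul_assoc]), ← map_mul]
    exact e2 _ _ (by simp [mul_assoc])
  · rw [e2 a ⟨_, hm a ha⟩ (by simp), e2 b ⟨_, hm b hb⟩ (by simp),
      ← hc ⟨_, hcj _ (hm b hb)⟩ ⟨_, hm b hb⟩ (by simp [mul_assoc]), ← map_mul,
      ← mul_one (ψ _), ← hs ⟨_, h2 _ h0 _ h0 h1 h1⟩ rfl, ← map_mul]
    exact e1 _ _ (by simp [mul_assoc])

variable {K : Type} [Field K] [NumberField K]

theorem aby1_lt (V : ValuationSubring (AlgebraicClosure K)) (a : GQ K) (z : AlgebraicClosure K) :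
    (V.comap (a : AlgebraicClosure K →+* AlgebraicClosure K)).valuation z < 1 ↔
      V.valuation (a z) < 1 := by
  rw [← ValuationSubring.mem_nonunits_iff, ← ValuationSubring.mem_nonunits_iff,
    ValuationSubring.mem_nonunits_iff_or, ValuationSubring.mem_nonunits_iff_or,
    ValuationSubring.mem_comap, RingHom.coe_coe, map_inv₀, map_eq_zero]

theorem aby1_cast (V : ValuationSubring (AlgebraicClosure K)) (a : GQ K) {C : ℕ}
    (h : V.valuation C = 1) :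
    (V.comap (a : AlgebraicClosure K →+* AlgebraicClosure K)).valuation C = 1 := by
  refine le_antisymm ((ValuationSubring.valuation_le_one_iff _ _).2 (natCast_mem _ C))
    (not_lt.1 ?_)
  rw [aby1_lt, map_natCast, h]
  exact lt_irrefl _

theorem aby1_conj (V : ValuationSubring (AlgebraicClosure K)) {a g g' : GQ K}
    (e : g' * a = a * g) :
    InQ (V.comap (a : AlgebraicClosure K →+* AlgebraicClosure K)) g ↔ InQ V g' := by
  have e' : ∀ x, g' (a x) = a (g x) := fun x => by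
    rw [← AlgEquiv.mul_apply, e, AlgEquiv.mul_apply]
  refine ⟨fun h y hy => ?_, fun h x hx => ?_⟩
  · obtain ⟨x, rfl⟩ := a.surjective y
    rw [e', ← map_sub, ← aby1_lt]
    refine h x ?_
    rw [ValuationSubring.valuation_le_one_iff] at hy ⊢
    exact hy
  · rw [aby1_lt, map_sub, ← e']
    refine h _ ?_
    rw [ValuationSubring.valuation_le_one_iff] at hx ⊢
    exact hx

theorem aby1_mul {V : ValuationSubring (AlgebraicClosure K)} {a b : GQ K} (ha : InQ V a)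
    (hb : InQ V b) : InQ V (a * b) := fun x hx => by
  have h1 : V.valuation (b x) ≤ 1 := by
    rw [show b x = (b x - x) + x by ring]
    exact V.valuation.map_add_le (hb x hx).le hx
  rw [show (a * b) x - x = (a (b x) - b x) + (b x - x) by rw [AlgEquiv.mul_apply]; ring]
  exact V.valuation.map_add_lt (ha _ h1) (hb x hx)

theorem aby1_inv {V : ValuationSubring (AlgebraicClosure K)} {a : GQ K} (ha : InQ V a) :
    InQ V a⁻¹ := fun x hx => by
  obtain ⟨y, rfl⟩ := a.surjective x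
  have e : a⁻¹ (a y) = y := by rw [← AlgEquiv.mul_apply, inv_mul_cancel, AlgEquiv.one_apply]
  rw [e, Valuation.map_sub_swap]
  refine ha y (not_lt.1 fun h => ?_)
  have y0 : y ≠ 0 := fun h0 => by simp [h0] at h
  have h1 : V.valuation y⁻¹ < 1 := by
    rw [map_inv₀]
    exact inv_lt_one_of_one_lt₀ h
  have h3 : V.valuation (a y⁻¹) < 1 := by
    rw [show a y⁻¹ = (a y⁻¹ - y⁻¹) + y⁻¹ by ring]
    exact V.valuation.map_add_lt (ha _ h1.le) h1
  have h4 : V.valuation (a y) * V.valuation (a y⁻¹) = 1 := by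
    rw [← map_mul, ← map_mul, mul_inv_cancel₀ y0, map_one, map_one]
  exact ((mul_le_of_le_one_left' hx).trans_lt h3).ne h4

theorem unr_T (T : Finset (AlgebraicClosure K)) : ∃ C : ℕ, C ≠ 0 ∧
    ∀ (V : ValuationSubring (AlgebraicClosure K)) (g : GQ K), V.valuation C = 1 → InQ V g →
      ∀ x ∈ T, g x = x := by
  have halg : ∀ x : AlgebraicClosure K, IsAlgebraic ℚ x := fun x =>
    (Algebra.IsAlgebraic.trans ℚ K (AlgebraicClosure K)).isAlgebraic x
  have hS : ((T : Set (AlgebraicClosure K)) ∪ ⋃ x ∈ (T : Set (AlgebraicClosure K)),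
      (fun y => y - x) '' (minpoly ℚ x).rootSet (AlgebraicClosure K)).Finite :=
    T.finite_toSet.union (T.finite_toSet.biUnion fun x _ => (Polynomial.rootSet_finite _ _).image _)
  obtain ⟨C, h0, hC⟩ := aby1_fin hS halg
  refine ⟨C, h0, fun V g hV hg x hx => ?_⟩
  by_contra hne
  have x0 : x ≠ 0 := fun e => hne (by rw [e, map_zero])
  refine (hg x (hC V hV x (Or.inl hx) x0).le).ne (hC V hV _ (Or.inr ?_) (sub_ne_zero.2 hne))
  refine Set.mem_biUnion hx ⟨g x, ?_, rfl⟩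
  rw [Polynomial.mem_rootSet]
  exact ⟨minpoly.ne_zero (halg x).isIntegral, by
    rw [Polynomial.aeval_algHom_apply, minpoly.aeval, map_zero]⟩

theorem fin_fix {B : Type} [CommGroup B] (h2 : ∀ x : B, x * x = 1) (t : B →* B)
    (ht : ∀ x, t (t x) = x) (h : {x | t x = x}.Finite) : Finite B := by
  refine (MonoidHom.finite_iff_finite_ker_range (MonoidHom.id B * t)).2 ⟨?_, ?_⟩
  · refine (h.subset fun x hx => ?_).to_subtype
    have : x * t x = 1 := hx
    exact mul_left_cancel (this.trans (h2 x).symm)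
  · refine (h.subset ?_).to_subtype
    rintro _ ⟨x, rfl⟩
    change t (x * t x) = x * t x
    rw [map_mul, ht, mul_comm]

/-- `HQ` as a group -/
def aby1B (H : Subgroup (GQ K)) (C : ℕ) (A : Set (ValuationSubring (AlgebraicClosure K))) :
    Subgroup (H →* ℤˣ) where
  carrier := HQ H C A
  one_mem' := ⟨⟨∅, fun _ _ => rfl⟩, fun _ _ _ _ => rfl⟩
  mul_mem' := fun {ψ φ} hψ hφ => by
    classical
    obtain ⟨⟨T, h1⟩, h2⟩ := hψ
    obtain ⟨⟨S, k1⟩, k2⟩ := hφ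
    refine ⟨⟨T ∪ S, fun g hg => ?_⟩, fun V hV g hg => ?_⟩
    · rw [MonoidHom.mul_apply, h1 g fun x hx => hg x (Finset.mem_union_left _ hx),
        k1 g fun x hx => hg x (Finset.mem_union_right _ hx), mul_one]
    · rw [MonoidHom.mul_apply, h2 V hV g hg, k2 V hV g hg, mul_one]
  inv_mem' := fun {ψ} hψ => by
    obtain ⟨⟨T, h1⟩, h2⟩ := hψ
    refine ⟨⟨T, fun g hg => ?_⟩, fun V hV g hg => ?_⟩
    · rw [MonoidHom.inv_apply, h1 g hg, inv_one]
    · rw [MonoidHom.inv_apply, h2 V hV g hg, inv_one]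

theorem asc_two {H₀ H₁ : Subgroup (GQ K)} (hle : H₁ ≤ H₀)
    (h2 : ∀ g ∈ H₀, ∀ h ∈ H₀, g ∉ H₁ → h ∉ H₁ → g * h ∈ H₁) (T : Finset (AlgebraicClosure K))
    (hT : ∀ g ∈ H₀, (∀ x ∈ T, g x = x) → g ∈ H₁) (h : FinQ H₀) : FinQ H₁ := by
  classical
  by_cases hge : H₀ ≤ H₁
  · exact le_antisymm hge hle ▸ h
  obtain ⟨g₀, h0, h1⟩ := SetLike.not_le_iff_exists.1 hge
  intro C hC hE
  obtain ⟨C₁, hC₁, hu⟩ := unr_T T
  obtain ⟨A, hA, hfin⟩ := h (C * C₁) (mul_ne_zero hC hC₁) (hE.mul_right _)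
  have hi : g₀⁻¹ ∉ H₁ := fun h => h1 (inv_mem_iff.1 h)
  have hsq : g₀ * g₀ ∈ H₁ := h2 _ h0 _ h0 h1 h1
  have hcj : ∀ b : H₁, g₀⁻¹ * (b.1 * g₀) ∈ H₁ := fun b =>
    h2 _ (inv_mem h0) _ (mul_mem (hle b.2) h0) hi fun h => h1 ((H₁.mul_mem_cancel_left b.2).1 h)
  have hcj' : ∀ b : H₁, g₀ * (b.1 * g₀⁻¹) ∈ H₁ := fun b =>
    h2 _ h0 _ (mul_mem (hle b.2) (inv_mem h0)) h1 fun h => hi ((H₁.mul_mem_cancel_left b.2).1 h)
  let c : H₁ →* H₁ := MonoidHom.mk' (fun b => ⟨_, hcj b⟩) fun a b =>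
    Subtype.ext (by simp [mul_assoc])
  have hc : ∀ b : H₁, (c b).1 = g₀⁻¹ * (b.1 * g₀) := fun _ => rfl
  have hcc : ∀ (ψ : H₁ →* ℤˣ) (b : H₁), ψ (c (c b)) = ψ b := fun ψ b => by
    have : c (c b) = (⟨_, hsq⟩ : H₁)⁻¹ * b * ⟨_, hsq⟩ := Subtype.ext (by simp [hc, mul_assoc])
    rw [this, map_mul, map_mul, map_inv, mul_right_comm, inv_mul_cancel, one_mul]
  let A' := A ∪ (fun V : ValuationSubring (AlgebraicClosure K) =>
    V.comap (g₀ : AlgebraicClosure K →+* AlgebraicClosure K)) '' A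
  refine ⟨A', hA.union (hA.image _), ?_⟩
  let B := aby1B H₁ (C * C₁) A'
  have hst : ∀ ψ ∈ B, ψ.comp c ∈ B := by
    rintro ψ ⟨⟨S, k1⟩, k2⟩
    refine ⟨⟨S.image g₀, fun g hg => k1 (c g) fun x hx => ?_⟩, fun V hV g hg => ?_⟩
    · rw [hc, AlgEquiv.mul_apply, AlgEquiv.mul_apply, hg _ (Finset.mem_image_of_mem _ hx),
        ← AlgEquiv.mul_apply, inv_mul_cancel, AlgEquiv.one_apply]
    · have hW := (aby1_conj V (a := g₀) (g := (c g).1) (g' := g.1) (by simp [hc])).2 hg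
      rcases hV with hV | hV | ⟨U, hU, rfl⟩
      · exact k2 _ (Or.inl (aby1_cast V g₀ hV)) _ hW
      · exact k2 _ (Or.inr (Or.inr ⟨V, hV, rfl⟩)) _ hW
      · have h3 := k2 U (Or.inr (Or.inl hU)) ⟨_, hcj' g⟩
          ((aby1_conj U (by simp [mul_assoc])).1 hg)
        rw [← hcc] at h3
        rw [← h3, MonoidHom.comp_apply]
        exact congrArg (fun b => ψ (c b)) (Subtype.ext (by simp [hc, mul_assoc]))
  let t : B →* B := MonoidHom.mk' (fun ψ => ⟨_, hst ψ.1 ψ.2⟩) fun _ _ => rfl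
  have hB : Finite B := by
    refine fin_fix (fun ψ => Subtype.ext (MonoidHom.ext fun b => Int.units_mul_self _)) t
      (fun ψ => Subtype.ext (MonoidHom.ext fun b => hcc ψ.1 b)) ?_
    have hch : ∀ V : A, ∃ b : H₁, (∃ g ∈ H₀, g ∉ H₁ ∧ InQ V.1 g) → InQ V.1 (b.1 * g₀) := fun V => by
      by_cases hV : ∃ g ∈ H₀, g ∉ H₁ ∧ InQ V.1 g
      · obtain ⟨g, k0, k1, k2⟩ := hV
        exact ⟨⟨_, h2 _ k0 _ (inv_mem h0) k1 hi⟩, fun _ => by simpa using k2⟩
      · exact ⟨1, fun k => absurd k hV⟩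
    choose b hb using hch
    have := hA.to_subtype
    refine Set.Finite.of_finite_fibers
      (fun ψ : B => (ψ.1 ⟨_, hsq⟩, fun V : A => ψ.1 (b V))) (Set.toFinite _) ?_
    rintro _ ⟨ψ₀, hψ₀, rfl⟩
    refine Set.Finite.of_finite_image (f := fun ψ : B => ψ.1) ?_ Subtype.val_injective.injOn
    refine (hfin.image fun χ => ψ₀.1 * χ.comp (Subgroup.inclusion hle)).subset ?_
    rintro _ ⟨ψ, ⟨hψ, hv⟩, rfl⟩
    have hv1 : ψ.1 ⟨_, hsq⟩ = ψ₀.1 ⟨_, hsq⟩ := congrArg Prod.fst hv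
    have hv2 : ∀ V : A, ψ.1 (b V) = ψ₀.1 (b V) := congrFun (congrArg Prod.snd hv)
    have hf : t (ψ₀⁻¹ * ψ) = ψ₀⁻¹ * ψ := by rw [map_mul, map_inv, hψ, hψ₀]
    have hap : ∀ a : H₁, (ψ₀⁻¹ * ψ).1 a = (ψ₀.1 a)⁻¹ * ψ.1 a := fun _ => rfl
    obtain ⟨χ, e1, e2⟩ := aby1_ext hle h2 h0 h1 (ψ₀⁻¹ * ψ).1 (fun a a' e => by
      have h3 : c a = a' := Subtype.ext (by rw [hc, e, inv_mul_cancel_left])
      rw [← h3]
      exact (DFunLike.congr_fun (congrArg Subtype.val hf) a).symm) (fun a e => by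
      obtain rfl : a = ⟨_, hsq⟩ := Subtype.ext e
      rw [hap, hv1, inv_mul_cancel])
    obtain ⟨⟨S, k1⟩, k2⟩ := (ψ₀⁻¹ * ψ).2
    refine ⟨χ, ⟨⟨T ∪ S, fun g hg => ?_⟩, fun V hV g hg => ?_⟩, MonoidHom.ext fun a => ?_⟩
    · have h3 := hT g.1 g.2 fun x hx => hg x (Finset.mem_union_left _ hx)
      rw [e1 g ⟨_, h3⟩ rfl]
      exact k1 _ fun x hx => hg x (Finset.mem_union_right _ hx)
    · have hV' : V.valuation ((C * C₁ : ℕ) : AlgebraicClosure K) = 1 ∨ V ∈ A' :=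
        hV.imp id Or.inl
      by_cases h3 : g.1 ∈ H₁
      · rw [e1 g ⟨_, h3⟩ rfl]
        exact k2 V hV' _ hg
      rcases hV with hV | hV
      · exact absurd (hT g.1 g.2 (hu V g.1 (aby1_dvd V (dvd_mul_left _ _) hV) hg)) h3
      · have h4 := hb ⟨V, hV⟩ ⟨g.1, g.2, h3, hg⟩
        have h5 : g.1 * g₀⁻¹ ∈ H₁ := h2 _ g.2 _ (inv_mem h0) h3 hi
        have h6 := k2 V hV' (⟨_, h5⟩ * (b ⟨V, hV⟩)⁻¹) (by
          simpa [mul_assoc] using aby1_mul hg (aby1_inv h4))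
        rw [map_mul, map_inv, hap (b _), hv2, inv_mul_cancel, inv_one, mul_one] at h6
        rw [e2 g ⟨_, h5⟩ (by simp), h6]
    · rw [MonoidHom.mul_apply, MonoidHom.comp_apply, e1 _ a rfl, hap, mul_inv_cancel_left]
  refine (Set.toFinite (B : Set (H₁ →* ℤˣ))).subset fun ψ hψ => ⟨hψ.1, fun V hV => hψ.2 V ?_⟩
  exact hV.imp (aby1_dvd V (dvd_mul_right _ _)) id

end Pool.Agent.P.MP_20768c_nt.Az.Cu

end

-- part Ab.Y3
section

set_option autoImplicit false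

open Complex NumberField IsDedekindDomain Filter Topology
open UpperHalfPlane hiding I
open scoped ComplexConjugate Real MatrixGroups

namespace Pool.Agent.P.MP_20768c_nt.Az.Cu

open Pool.Agent.P.MP_20768c_nt.Az.EQ (Lt pr sp IsLat jL qN)

theorem exists_odd {k Ω : Type} [Field k] [Field Ω] [Algebra k Ω] (N : IntermediateField k Ω)
    [FiniteDimensional k N] [IsAbelianGalois k N] : ∃ N₀ : IntermediateField k Ω, N₀ ≤ N ∧
      IsGalois k N₀ ∧ (∀ g h : N₀ ≃ₐ[k] N₀, g * h = h * g) ∧ Odd (Module.finrank k N₀) ∧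
      ∀ g : N ≃ₐ[k] N, (∀ x : N, (x : Ω) ∈ N₀ → g x = x) → ∃ j : ℕ, g ^ 2 ^ j = 1 := by
  have hp : Fact (Nat.Prime 2) := ⟨Nat.prime_two⟩
  obtain ⟨P⟩ : Nonempty (Sylow 2 (N ≃ₐ[k] N)) := inferInstance
  let F : IntermediateField k N := IntermediateField.fixedField (P : Subgroup (N ≃ₐ[k] N))
  have hF : IsAbelianGalois k F := IsAbelianGalois.tower_bot k F N
  let e := IntermediateField.liftAlgEquiv F
  have hA : IsAbelianGalois k (IntermediateField.lift F) := IsAbelianGalois.of_algHom e.symm.toAlgHom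
  refine ⟨IntermediateField.lift F, IntermediateField.lift_le F, hA.toIsGalois,
    fun g h => hA.toIsMulCommutative.is_comm.comm g h, ?_, fun g hg => ?_⟩
  · rw [← e.toLinearEquiv.finrank_eq]
    have h1 : Module.finrank F N = Nat.card (P : Subgroup (N ≃ₐ[k] N)) :=
      IntermediateField.finrank_fixedField_eq_card _
    have h2 := Module.finrank_mul_finrank k F N
    have h3 := (P : Subgroup (N ≃ₐ[k] N)).card_mul_index
    rw [IsGalois.card_aut_eq_finrank, ← h2, h1, mul_comm] at h3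
    have h4 : (P : Subgroup (N ≃ₐ[k] N)).index = Module.finrank k F :=
      Nat.eq_of_mul_eq_mul_right Nat.card_pos h3
    rw [← h4, ← Nat.not_even_iff_odd, even_iff_two_dvd]
    exact P.not_dvd_index
  · have h1 : g ∈ (P : Subgroup (N ≃ₐ[k] N)) := by
      rw [← IntermediateField.fixingSubgroup_fixedField (P : Subgroup (N ≃ₐ[k] N)),
        IntermediateField.mem_fixingSubgroup_iff]
      exact fun x hx => hg x ((IntermediateField.mem_lift x).2 hx)
    obtain ⟨j, hj⟩ := P.isPGroup' ⟨g, h1⟩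
    exact ⟨j, congrArg Subtype.val hj⟩

theorem aby3_T {K : Type} [Field K] {H : Subgroup (Gal K)} {R : Type} [Group R] (ψ : H →* R)
    (hψ : IsLocallyConstant ψ) :
    ∃ T : Finset (AlgebraicClosure K), ∀ g : H, (∀ x ∈ T, g.1 x = x) → ψ g = 1 := by
  classical
  have h1 : ψ ⁻¹' {1} ∈ 𝓝 (1 : H) := (hψ {1}).mem_nhds (map_one ψ)
  obtain ⟨U, hU, hsub⟩ := (mem_nhds_subtype _ _ _).1 h1
  obtain ⟨E, hE, hEU⟩ := (krullTopology_mem_nhds_one_iff K (AlgebraicClosure K) U).1 hU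
  have hfr : Module.Free K E := Module.Free.of_divisionRing _ _
  let b := Module.finBasis K E
  refine ⟨Finset.univ.image fun i => ((b i : E) : AlgebraicClosure K), fun g hg => hsub (hEU ?_)⟩
  refine (IntermediateField.mem_fixingSubgroup_iff E g.1).2 fun x hx => ?_
  have h2 : x = ∑ i, b.repr ⟨x, hx⟩ i • ((b i : E) : AlgebraicClosure K) := by
    have := congrArg (fun y : E => (y : AlgebraicClosure K)) (b.sum_repr ⟨x, hx⟩)
    simp only [IntermediateField.coe_sum, IntermediateField.coe_smul] at this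
    exact this.symm
  rw [h2, map_sum]
  refine Finset.sum_congr rfl fun i _ => ?_
  rw [map_smul, hg _ (Finset.mem_image_of_mem _ (Finset.mem_univ i))]

theorem hh_down {K : Type} [Field K] [NumberField K] {L : Set (AlgebraicClosure K)}
    (hK : ∀ x : K, algebraMap K (AlgebraicClosure K) x ∈ L) (h : FinQ (Hq L)) (C : ℕ)
    (hC : C ≠ 0) (h2 : Even C) : ∃ A, A.Finite ∧ (HH L C A).Finite := by
  obtain ⟨A, hA, hf⟩ := h C hC h2
  let j : Hq L →* Hs L := MonoidHom.mk'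
    (fun g => ⟨AlgEquiv.ofRingEquiv (f := g.1.toRingEquiv) fun x => g.2.1 _ (hK x), g.2⟩)
    fun g h => Subtype.ext (AlgEquiv.ext fun x => rfl)
  have hj : Function.Surjective j := fun g =>
    ⟨⟨g.1.restrictScalars ℚ, g.2⟩, Subtype.ext (AlgEquiv.ext fun x => rfl)⟩
  refine ⟨A, hA, Set.Finite.of_finite_image (f := fun ψ => ψ.comp j) (hf.subset ?_) ?_⟩
  · rintro _ ⟨ψ, ⟨h1, h3⟩, rfl⟩
    obtain ⟨T, hT⟩ := aby3_T ψ h1
    exact ⟨⟨T, fun g hg => hT (j g) hg⟩, fun V hV g hg => h3 V hV (j g) hg⟩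
  · intro ψ _ ψ' _ e
    exact (MonoidHom.cancel_right hj).1 e

end Pool.Agent.P.MP_20768c_nt.Az.Cu

end

-- part Ab.M4
section

set_option autoImplicit false

open Complex NumberField IsDedekindDomain Filter Topology
open UpperHalfPlane hiding I
open scoped ComplexConjugate Real MatrixGroups

namespace Pool.Agent.P.MP_20768c_nt.Az.Cu

open Pool.Agent.P.MP_20768c_nt.Az.EQ (Lt pr sp IsLat jL qN)

theorem exists_ab {K : Type} [Field K] [NumberField K] {D : ℤ} (h0 : D < 0) (h8 : D % 8 = 1)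
    {δ : AlgebraicClosure K} (hδ : δ ^ 2 = D)
    (N : IntermediateField (IntermediateField.adjoin ℚ {δ}) (AlgebraicClosure K))
    (hg : IsGalois (IntermediateField.adjoin ℚ {δ}) N)
    (hc : ∀ g h : N ≃ₐ[IntermediateField.adjoin ℚ {δ}] N, g * h = h * g)
    (ho : Odd (Module.finrank (IntermediateField.adjoin ℚ {δ}) N)) :
    ∃ (s : Ab) (e : AlgebraicClosure K →+* ℂ), (∀ x, e x ∈ s.N ↔ x ∈ N) ∧
      ∀ y : ℂ, IsAlgebraic ℚ y → ∃ x, e x = y := by
  obtain ⟨s, d, hd, hk⟩ := exists_st h0 h8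
  have : Algebra.IsAlgebraic ℚ (AlgebraicClosure K) := Algebra.IsAlgebraic.trans ℚ K _
  let e : AlgebraicClosure K →ₐ[ℚ] ℂ := IsAlgClosed.lift
  have he : e δ = d ∨ e δ = -d := by
    rw [← sq_eq_sq_iff_eq_or_eq_neg, ← map_pow, hδ, map_intCast, hd]
  have hmap : (IntermediateField.adjoin ℚ {δ}).map e = s.k := by
    rw [IntermediateField.adjoin_map, Set.image_singleton, hk]
    rcases he with he | he
    · rw [he]
    · rw [he]
      apply le_antisymm <;> rw [IntermediateField.adjoin_simple_le_iff]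
      · exact neg_mem (IntermediateField.mem_adjoin_simple_self ℚ d)
      · simpa using neg_mem (IntermediateField.mem_adjoin_simple_self ℚ (-d))
  let φ : IntermediateField.adjoin ℚ {δ} ≃ₐ[ℚ] s.k :=
    (IntermediateField.equivMap _ e).trans (IntermediateField.equivOfEq hmap)
  have hφ : ∀ x, ((φ x : s.k) : ℂ) = e x := fun x => rfl
  let N' : IntermediateField s.k ℂ :=
    (N.toSubfield.map (e : AlgebraicClosure K →+* ℂ)).toIntermediateField fun x => by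
      obtain ⟨y, rfl⟩ := φ.surjective x
      exact ⟨y, N.algebraMap_mem y, (hφ y).symm⟩
  have hN' : ∀ x, e x ∈ N' ↔ x ∈ N := by
    refine fun x => ⟨?_, fun h => ⟨x, h, rfl⟩⟩
    rintro ⟨y, hy, h⟩
    rw [← (e : AlgebraicClosure K →+* ℂ).injective (a₁ := y) (a₂ := x) h]
    exact hy
  let f : N →+* N' := ((e : AlgebraicClosure K →+* ℂ).comp N.toSubfield.subtype).codRestrict N'
    fun x => (hN' x).2 x.2
  have hf : Function.Bijective f := ⟨f.injective, by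
    rintro ⟨_, y, hy, rfl⟩
    exact ⟨⟨y, hy⟩, rfl⟩⟩
  have hc' : (algebraMap s.k N').comp φ.toRingEquiv.toRingHom =
      (RingEquiv.ofBijective f hf).toRingHom.comp
        (algebraMap (IntermediateField.adjoin ℚ {δ}) N) :=
    RingHom.ext fun x => Subtype.ext (hφ x)
  have r3 : Odd (Module.finrank s.k N') :=
    Algebra.finrank_eq_of_equiv_equiv _ _ hc' ▸ ho
  have key : ∀ g : N' ≃ₐ[s.k] N', ∃ g' : N ≃ₐ[IntermediateField.adjoin ℚ {δ}] N,
      ∀ x, f (g' x) = g (f x) := fun g => by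
    let E := RingEquiv.ofBijective f hf
    refine ⟨AlgEquiv.ofRingEquiv (f := (E.trans g.toRingEquiv).trans E.symm) fun x => ?_,
      fun x => E.apply_symm_apply _⟩
    have h1 : E (algebraMap _ N x) = algebraMap s.k N' (φ x) := (RingHom.congr_fun hc' x).symm
    rw [RingEquiv.trans_apply, RingEquiv.trans_apply, h1, RingEquiv.symm_apply_eq, h1]
    exact g.commutes _
  refine ⟨⟨s, N', Module.finite_of_finrank_pos r3.pos,
    IsGalois.of_equiv_equiv (f := φ.toRingEquiv) (g := RingEquiv.ofBijective f hf) hc',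
    fun g h => AlgEquiv.ext fun y => ?_, r3⟩, e, hN', ?_⟩
  · obtain ⟨g', a1⟩ := key g
    obtain ⟨h', a2⟩ := key h
    obtain ⟨x, rfl⟩ := hf.2 y
    rw [AlgEquiv.mul_apply, AlgEquiv.mul_apply, ← a2, ← a1, ← a1, ← a2, ← AlgEquiv.mul_apply, hc,
      AlgEquiv.mul_apply]
  rintro y ⟨p, hp0, hp⟩
  refine (IsAlgClosed.splits (p.map (algebraMap ℚ (AlgebraicClosure K)))).mem_range_of_isRoot
    (Polynomial.map_ne_zero hp0) (i := (e : AlgebraicClosure K →+* ℂ)) ?_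
  rw [Polynomial.map_map, Polynomial.IsRoot.def, Polynomial.eval_map,
    Subsingleton.elim ((e : AlgebraicClosure K →+* ℂ).comp _) (algebraMap ℚ ℂ)]
  exact hp

end Pool.Agent.P.MP_20768c_nt.Az.Cu

end

-- part Cu.B1
section

set_option autoImplicit false

open Complex NumberField IsDedekindDomain Filter Topology
open UpperHalfPlane hiding I
open scoped ComplexConjugate Real MatrixGroups

namespace Pool.Agent.P.MP_20768c_nt.Az.Cu

open Pool.Agent.P.MP_20768c_nt.Az.EQ (Lt pr sp IsLat jL qN)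

variable {A B F : Type} [AddCommGroup A] [AddCommGroup B] [Field F] {Γ : Type}
  [LinearOrderedCommGroupWithZero Γ] {X : XG A F} {v : Valuation F Γ} {P Q : A}

theorem b1_small {t : F} (ht : v t < 1) (c : v.integer) :
    v (t * v.integer.subtype c) < 1 := by
  rw [map_mul]
  have hc' : v (v.integer.subtype c) ≤ 1 := c.2
  exact lt_of_le_of_lt (mul_le_of_le_one_right' hc') ht

theorem b1_not (h : ¬ X.Ker v P) : P ≠ 0 ∧ X.x P ∈ v.integer :=
  ⟨fun e => h (Or.inl e), not_lt.mp fun e => h (Or.inr e)⟩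

theorem b1_alg1 (x a b b2 b4 b6 b8 : v.integer) (y : F) (hy : 1 < v y)
    (h1 : ((a : F) + b) * (x - y) ^ 2 = 2 * x * y * (x + y) + b2 * x * y + b4 * (x + y) + b6)
    (h2 : (a : F) * b * (x - y) ^ 2 = x ^ 2 * y ^ 2 - b4 * x * y - b6 * (x + y) - b8) :
    v ((a : F) - x) < 1 := by
  have hy0 : y ≠ 0 := by
    rintro rfl
    rw [map_zero] at hy
    exact absurd hy (not_lt.mpr zero_le_one)
  have ht : v y⁻¹ < 1 := by
    rw [map_inv₀]
    exact inv_lt_one_of_one_lt₀ hy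
  let t : v.integer := ⟨y⁻¹, ht.le⟩
  have hty : (t : F) * y = 1 := inv_mul_cancel₀ hy0
  have key : ((a : F) - x) ^ 2 = (t : F) * v.integer.subtype
      (a * ((a + b) * (2 * x - x ^ 2 * t) + 2 * x ^ 2 + b2 * x + b4 * (x * t + 1) + b6 * t) -
        (a * b * (2 * x - x ^ 2 * t) - b4 * x - b6 * (x * t + 1) - b8 * t)) := by
    simp only [map_add, map_sub, map_mul, map_pow, map_ofNat, map_one, Subring.subtype_apply]
    have k1 : ((a : F) + b) * (x * t - 1) ^ 2 =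
        2 * x * (x * t + 1) + b2 * x * t + b4 * (x * t ^ 2 + t) + b6 * t ^ 2 := by
      have : ((a : F) + b) * (x * t - t * y) ^ 2 = 2 * x * (t * y) * (x * t + t * y) +
          b2 * x * t * (t * y) + b4 * (x * t ^ 2 + t * (t * y)) + b6 * t ^ 2 := by
        linear_combination (t : F) ^ 2 * h1
      simpa only [hty, mul_one] using this
    have k2 : (a : F) * b * (x * t - 1) ^ 2 =
        x ^ 2 - b4 * x * t - b6 * (x * t ^ 2 + t) - b8 * t ^ 2 := by
      have : (a : F) * b * (x * t - t * y) ^ 2 = x ^ 2 * (t * y) ^ 2 - b4 * x * t * (t * y) -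
          b6 * (x * t ^ 2 + t * (t * y)) - b8 * t ^ 2 := by
        linear_combination (t : F) ^ 2 * h2
      simpa only [hty, mul_one, one_pow] using this
    linear_combination (a : F) * k1 - k2
  have hs : v (((a : F) - x) ^ 2) < 1 := by
    rw [key]
    exact b1_small ht _
  rw [map_pow] at hs
  exact not_le.mp fun hh => absurd hs (not_lt.mpr (one_le_pow_of_one_le' hh 2))

theorem b1_alg2 (x d a b b2 b4 b6 b8 : v.integer) (hd : v (d : F) < 1)
    (hr : 4 * (b8 : F) = b2 * b6 - b4 ^ 2)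
    (h1 : ((a : F) + b) * d ^ 2 =
      2 * x * (x - d) * (x + (x - d)) + b2 * x * (x - d) + b4 * (x + (x - d)) + b6)
    (h2 : (a : F) * b * d ^ 2 =
      x ^ 2 * (x - d) ^ 2 - b4 * x * (x - d) - b6 * (x + (x - d)) - b8) :
    v (-(b2 : F) ^ 2 * b8 - 8 * b4 ^ 3 - 27 * b6 ^ 2 + 9 * b2 * b4 * b6) < 1 := by
  have key : -(b2 : F) ^ 2 * b8 - 8 * b4 ^ 3 - 27 * b6 ^ 2 + 9 * b2 * b4 * b6 = (d : F) *
      v.integer.subtype ((b2 ^ 2 - 32 * b4 - 8 * b2 * x - 48 * x ^ 2) *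
          (a * b * d + 2 * x ^ 3 - x ^ 2 * d - b4 * x - b6) +
        (12 * x ^ 3 - b2 * x ^ 2 - 10 * b4 * x + b2 * b4 - 27 * b6) *
          ((a + b) * d + 6 * x ^ 2 - 2 * x * d + b2 * x + b4)) := by
    rw [← bez0 (b2 : F) b4 b6 b8 x hr]
    simp only [map_add, map_sub, map_mul, map_pow, map_ofNat, Subring.subtype_apply]
    linear_combination -((b2 : F) ^ 2 - 32 * b4 - 8 * b2 * x - 48 * x ^ 2) * h2 -
      (12 * (x : F) ^ 3 - b2 * x ^ 2 - 10 * b4 * x + b2 * b4 - 27 * b6) * h1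
  rw [key]
  exact b1_small hd _

theorem XG.x_add_ker (hG : X.Good v) (h : ¬ X.Ker v P) (h' : X.Ker v Q) :
    v (X.x (P + Q) - X.x P) < 1 := by
  rcases eq_or_ne Q 0 with rfl | hQ
  · rw [add_zero, sub_self, map_zero]
    exact zero_lt_one
  have hy : 1 < v (X.x Q) := h'.resolve_left hQ
  have ha : ¬ X.Ker v (P + Q) := fun k => h (by
    have := XG.ker_add hG k (XG.ker_neg h')
    rwa [add_neg_cancel_right] at this)
  have hb : ¬ X.Ker v (P - Q) := fun k => h (by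
    have := XG.ker_add hG k h'
    rwa [sub_add_cancel] at this)
  obtain ⟨hP, hx⟩ := b1_not h
  obtain ⟨ha0, ha1⟩ := b1_not ha
  obtain ⟨hb0, hb1⟩ := b1_not hb
  obtain ⟨g2, g4, g6, g8, -⟩ := hG
  exact b1_alg1 ⟨_, hx⟩ ⟨_, ha1⟩ ⟨_, hb1⟩ ⟨_, g2⟩ ⟨_, g4⟩ ⟨_, g6⟩ ⟨_, g8⟩ (X.x Q) hy
    (X.add P Q hP hQ ha0 hb0) (X.mul P Q hP hQ ha0 hb0)

theorem XG.x_inj (hG : X.Good v) (h : ¬ X.Ker v P) (h' : ¬ X.Ker v Q)
    (e : v (X.x P - X.x Q) < 1) : X.Ker v (P + Q) ∨ X.Ker v (P - Q) := by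
  by_contra hc
  obtain ⟨ha, hb⟩ := not_or.mp hc
  obtain ⟨hP, hx⟩ := b1_not h
  obtain ⟨hQ, -⟩ := b1_not h'
  obtain ⟨ha0, ha1⟩ := b1_not ha
  obtain ⟨hb0, hb1⟩ := b1_not hb
  obtain ⟨g2, g4, g6, g8, gd⟩ := hG
  have e1 := X.add P Q hP hQ ha0 hb0
  have e2 := X.mul P Q hP hQ ha0 hb0
  have := b1_alg2 (v := v) ⟨_, hx⟩ ⟨X.x P - X.x Q, e.le⟩ ⟨_, ha1⟩ ⟨_, hb1⟩ ⟨_, g2⟩ ⟨_, g4⟩ ⟨_, g6⟩
    ⟨_, g8⟩ e X.rel (by simpa only [sub_sub_cancel] using e1)
    (by simpa only [sub_sub_cancel] using e2)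
  exact absurd gd (ne_of_lt this)

end Pool.Agent.P.MP_20768c_nt.Az.Cu

end

-- part Cu.M2
section

set_option autoImplicit false

open Complex NumberField IsDedekindDomain Filter Topology
open UpperHalfPlane hiding I
open scoped ComplexConjugate Real MatrixGroups

namespace Pool.Agent.P.MP_20768c_nt.Az.Cu

open Pool.Agent.P.MP_20768c_nt.Az.EQ (Lt pr sp IsLat jL qN)

variable {K : Type} [Field K] [NumberField K] (E : WeierstrassCurve K)

theorem act_one (P : Tor E) : act E 1 P = P := by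
  obtain ⟨P, hP⟩ := P
  apply Subtype.ext
  cases P <;> rfl

theorem act_mul (g h : Gal K) (P : Tor E) : act E (g * h) P = act E g (act E h P) := by
  obtain ⟨P, hP⟩ := P
  apply Subtype.ext
  cases P <;> rfl

theorem act_add (g : Gal K) (P Q : Tor E) : act E g (P + Q) = act E g P + act E g Q :=
  Subtype.ext (by simp only [act, AddSubgroup.coe_add, map_add])

theorem act_sub (g : Gal K) (P Q : Tor E) : act E g (P - Q) = act E g P - act E g Q := by
  rw [eq_sub_iff_add_eq, ← act_add, sub_add_cancel]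

omit [NumberField K] in
theorem m2_ev (x : AlgebraicClosure K) (g₀ : Gal K) : ∀ᶠ g in 𝓝 g₀, g x = g₀ x := by
  have h1 := (stabilizer_isOpen_of_isIntegral (K := K) x).preimage (continuous_const_mul g₀⁻¹)
  filter_upwards [h1.mem_nhds (x := g₀) (by simp)] with g hg
  have h2 : (g₀⁻¹ * g) x = x := hg
  rw [AlgEquiv.mul_apply, AlgEquiv.aut_inv, AlgEquiv.symm_apply_eq] at h2
  exact h2

theorem act_lc (P : Tor E) : IsLocallyConstant fun g : Gal K => act E g P := by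
  rw [IsLocallyConstant.iff_eventually_eq]
  intro g₀
  obtain ⟨P, hP⟩ := P
  cases P with
  | zero => exact Filter.Eventually.of_forall fun g => Subtype.ext rfl
  | some x y h =>
    filter_upwards [m2_ev x g₀, m2_ev y g₀] with g h1 h2
    apply Subtype.ext
    simp only [act, WeierstrassCurve.Affine.Point.map_some, WeierstrassCurve.Affine.Point.some.injEq]
    exact ⟨h1, h2⟩

theorem tor_tors (P : Tor E) : ∃ n : ℕ, 2 ^ n • P = 0 := by
  obtain ⟨n, hn⟩ := P.2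
  exact ⟨n, Subtype.ext hn⟩

section

open WeierstrassCurve WeierstrassCurve.Affine

variable {F : Type} [Field F] (W : WeierstrassCurve F)

theorem m2_sq {x y : F} (h : W.toAffine.Equation x y) :
    (y - W.toAffine.negY x y) ^ 2 = 4 * x ^ 3 + W.b₂ * x ^ 2 + 2 * W.b₄ * x + W.b₆ := by
  rw [equation_iff] at h
  simp only [negY, b₂, b₄, b₆]
  linear_combination 4 * h

theorem m2_dbl [DecidableEq F] {x y : F} (h : W.toAffine.Equation x y)
    (hy : y ≠ W.toAffine.negY x y) :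
    W.toAffine.addX x x (W.toAffine.slope x x y y) *
      (4 * x ^ 3 + W.b₂ * x ^ 2 + 2 * W.b₄ * x + W.b₆) =
      x ^ 4 - W.b₄ * x ^ 2 - 2 * W.b₆ * x - W.b₈ := by
  have h1 := m2_sq W h
  have h2 : W.toAffine.slope x x y y * (y - W.toAffine.negY x y) =
      3 * x ^ 2 + 2 * W.a₂ * x + W.a₄ - W.a₁ * y := by
    rw [slope_of_Y_ne rfl hy, div_mul_cancel₀ _ (sub_ne_zero.2 hy)]
  rw [← h1]
  rw [equation_iff] at h
  generalize W.toAffine.slope x x y y = l at h2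
  simp only [addX, negY, b₄, b₆, b₈] at h2 ⊢
  linear_combination (l * (y - (-y - W.a₁ * x - W.a₃)) + (3 * x ^ 2 + 2 * W.a₂ * x + W.a₄ - W.a₁ * y)
    + W.a₁ * (y - (-y - W.a₁ * x - W.a₃))) * h2 - (W.a₁ ^ 2 + 4 * W.a₂ + 8 * x) * h

theorem m2_div [DecidableEq F] [IsAlgClosed F] [W.IsElliptic] (P : W.toAffine.Point) :
    ∃ Q : W.toAffine.Point, Q + Q = P := by
  cases P with
  | zero => exact ⟨0, add_zero _⟩
  | some x₀ y₀ h₀ =>
    obtain ⟨x, hx⟩ := IsAlgClosed.exists_root (k := F)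
      (Polynomial.X ^ 4 - Polynomial.C (4 * x₀) * Polynomial.X ^ 3 -
        Polynomial.C (W.b₄ + W.b₂ * x₀) * Polynomial.X ^ 2 -
        Polynomial.C (2 * W.b₆ + 2 * W.b₄ * x₀) * Polynomial.X - Polynomial.C (W.b₈ + W.b₆ * x₀))
      (by
        have : (Polynomial.X ^ 4 - Polynomial.C (4 * x₀) * Polynomial.X ^ 3 -
          Polynomial.C (W.b₄ + W.b₂ * x₀) * Polynomial.X ^ 2 -
          Polynomial.C (2 * W.b₆ + 2 * W.b₄ * x₀) * Polynomial.X -
          Polynomial.C (W.b₈ + W.b₆ * x₀) : Polynomial F).degree = 4 := by compute_degree!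
        rw [this]
        decide)
    obtain ⟨y, hy⟩ := IsAlgClosed.exists_root (k := F)
      (Polynomial.X ^ 2 + Polynomial.C (W.a₁ * x + W.a₃) * Polynomial.X -
        Polynomial.C (x ^ 3 + W.a₂ * x ^ 2 + W.a₄ * x + W.a₆))
      (by
        have : (Polynomial.X ^ 2 + Polynomial.C (W.a₁ * x + W.a₃) * Polynomial.X -
          Polynomial.C (x ^ 3 + W.a₂ * x ^ 2 + W.a₄ * x + W.a₆) : Polynomial F).degree = 2 := by
          compute_degree!
        rw [this]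
        decide)
    simp only [Polynomial.IsRoot, Polynomial.eval_sub, Polynomial.eval_add, Polynomial.eval_mul,
      Polynomial.eval_pow, Polynomial.eval_X, Polynomial.eval_C] at hx hy
    have he : W.toAffine.Equation x y := by
      rw [equation_iff]
      linear_combination hy
    have hn : W.toAffine.Nonsingular x y := equation_iff_nonsingular.1 he
    have hψ : 4 * x ^ 3 + W.b₂ * x ^ 2 + 2 * W.b₄ * x + W.b₆ ≠ 0 := by
      intro h0
      have h1 := bez0 W.b₂ W.b₄ W.b₆ W.b₈ x W.b_relation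
      have h2 : x ^ 4 - W.b₄ * x ^ 2 - 2 * W.b₆ * x - W.b₈ = 0 := by
        linear_combination hx + x₀ * h0
      rw [h0, h2, mul_zero, mul_zero, add_zero] at h1
      exact W.isUnit_Δ.ne_zero h1.symm
    have hne : y ≠ W.toAffine.negY x y := by
      intro h0
      apply hψ
      rw [← m2_sq W he, ← h0, sub_self, zero_pow two_ne_zero]
    have h3 : W.toAffine.addX x x (W.toAffine.slope x x y y) = x₀ :=
      mul_right_cancel₀ hψ (by rw [m2_dbl W he hne]; linear_combination hx)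
    have h4 := Point.add_self_of_Y_ne (h₁ := hn) hne
    rcases (Point.X_eq_iff (h₁ := nonsingular_add hn hn fun hxy => hne hxy.right)
      (h₂ := h₀)).1 h3 with h5 | h5
    · exact ⟨_, h4.trans h5⟩
    · exact ⟨-Point.some x y hn, by rw [← neg_add, h4, h5, neg_neg]⟩

theorem m2_fin [DecidableEq F] [CharZero F] : {P : W.toAffine.Point | P + P = 0}.Finite := by
  set p : Polynomial F := Polynomial.C 4 * Polynomial.X ^ 3 + Polynomial.C W.b₂ * Polynomial.X ^ 2 +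
    Polynomial.C (2 * W.b₄) * Polynomial.X + Polynomial.C W.b₆ with hp
  have hp0 : p ≠ 0 := by
    have : p.degree = 3 := by rw [hp]; compute_degree!
    intro h
    rw [h] at this
    simp at this
  let f : W.toAffine.Point → Option F := fun P => match P with
    | .zero => none
    | .some x _ _ => some x
  have key : ∀ {x y : F} {h : W.toAffine.Nonsingular x y},
      Point.some x y h + Point.some x y h = 0 → y = W.toAffine.negY x y := by
    intro x y h h0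
    by_contra hne
    rw [Point.add_self_of_Y_ne hne] at h0
    exact Point.some_ne_zero _ h0
  refine Set.Finite.of_finite_image (f := f)
    (((p.finite_setOfPred_isRoot hp0).image some).insert none |>.subset ?_) ?_
  · rintro _ ⟨P, hP, rfl⟩
    cases P with
    | zero => exact Or.inl rfl
    | some x y h =>
      refine Or.inr ⟨x, ?_, rfl⟩
      have h1 := m2_sq W h.1
      rw [← key hP, sub_self, zero_pow two_ne_zero] at h1
      simp only [Set.mem_ofPred_eq, hp, Polynomial.IsRoot, Polynomial.eval_add, Polynomial.eval_mul,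
        Polynomial.eval_pow, Polynomial.eval_X, Polynomial.eval_C]
      exact h1.symm
  · intro P hP Q hQ h
    cases P with
    | zero => cases Q with
      | zero => rfl
      | some _ _ _ => simp [f] at h
    | some x y h₁ => cases Q with
      | zero => simp [f] at h
      | some x' y' h₂ =>
        rcases (Point.X_eq_iff (h₁ := h₁) (h₂ := h₂)).1 (by simpa [f] using h) with h5 | h5
        · exact h5
        · rw [h5]
          exact neg_eq_of_add_eq_zero_left hQ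

end

theorem div2 [E.IsElliptic] (P : Tor E) : ∃ Q : Tor E, Q + Q = P := by
  classical
  have : (E.baseChange (AlgebraicClosure K)).IsElliptic :=
    inferInstanceAs (E.map (algebraMap K (AlgebraicClosure K))).IsElliptic
  obtain ⟨Q, hQ⟩ := m2_div (E.baseChange (AlgebraicClosure K)) P.1
  obtain ⟨n, hn⟩ := P.2
  exact ⟨⟨Q, n + 1, by rw [pow_succ', mul_nsmul, two_nsmul, hQ]; exact hn⟩, Subtype.ext hQ⟩

theorem card2 [E.IsElliptic] : {P : Tor E | P + P = 0}.Finite := by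
  classical
  refine Set.Finite.of_finite_image (f := Subtype.val)
    ((m2_fin (E.baseChange (AlgebraicClosure K))).subset ?_) Subtype.val_injective.injOn
  rintro _ ⟨P, hP, rfl⟩
  exact congrArg Subtype.val hP

end Pool.Agent.P.MP_20768c_nt.Az.Cu

end

-- part Cu.A0b_p
section

set_option autoImplicit false

open Complex NumberField IsDedekindDomain Filter Topology
open UpperHalfPlane hiding I
open scoped ComplexConjugate Real MatrixGroups

namespace Pool.Agent.P.MP_20768c_nt.Az.Cu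

open Pool.Agent.P.MP_20768c_nt.Az.EQ (Lt pr sp IsLat jL qN)

variable {L L' M : Lt} {R : Finset ℂ} {z x : ℂ}

theorem ar_sp {c : ℂ} (hc : c ≠ 0) (τ : ℍ) : ar (sp c (c * τ)) = ‖c‖ ^ 2 * τ.im := by
  have h := Pool.Agent.P.MP_20768c_nt.Az.EQ.isLat_sp hc τ
  unfold ar
  rw [dif_pos h]
  obtain ⟨h1, h2⟩ := h.choose_spec.choose_spec
  obtain ⟨γ, h3, h4⟩ := Pool.Agent.P.MP_20768c_nt.Az.EQ.exists_SL_of_sp_eq hc h1 h2
  have h5 := Pool.Agent.P.MP_20768c_nt.Az.EQ.sl_den_ne_lat γ τ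
  have h6 : (γ • τ).im = τ.im / Complex.normSq ((γ 1 0 : ℂ) * τ + γ 1 1) := by
    rw [ModularGroup.im_smul_eq_div_normSq, ModularGroup.denom_apply]
  have h7 : ‖(γ 1 0 : ℂ) * τ + γ 1 1‖ ≠ 0 := norm_ne_zero_iff.2 h5
  rw [h3, h4, h6, norm_mul, Complex.normSq_eq_norm_sq]
  field_simp

theorem ar_pos (h : IsLat L) : 0 < ar L := by
  obtain ⟨c, τ, hc, rfl⟩ := h
  rw [ar_sp hc]
  exact mul_pos (pow_pos (norm_pos_iff.2 hc) 2) τ.im_pos

theorem ar_sc (h : IsLat L) (hx : x ≠ 0) : ar (pr x * L) = ‖x‖ ^ 2 * ar L := by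
  obtain ⟨c, τ, hc, rfl⟩ := h
  rw [Pool.Agent.P.MP_20768c_nt.Az.EQ.pr_mul_sp, ← mul_assoc, ar_sp (mul_ne_zero hx hc), ar_sp hc, norm_mul]
  ring

theorem ar_conj (h : IsLat L) (hM : ∀ y, y ∈ M ↔ conj y ∈ L) : ar M = ar L := by
  obtain ⟨c, τ, hc, rfl⟩ := h
  have him : 0 < (-conj (τ : ℂ)).im := by simpa using τ.im_pos
  have hc' : conj c ≠ 0 := by simpa using hc
  have e : M = sp (conj c) (conj c * ((⟨_, him⟩ : ℍ) : ℂ)) := by
    ext y
    rw [hM, Pool.Agent.P.MP_20768c_nt.Az.EQ.mem_sp, Pool.Agent.P.MP_20768c_nt.Az.EQ.mem_sp]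
    constructor
    · rintro ⟨m, n, h⟩
      refine ⟨m, -n, ?_⟩
      have := congrArg conj h
      simp only [conj_conj, map_add, map_mul, map_intCast] at this
      rw [this]
      push_cast
      ring
    · rintro ⟨m, n, h⟩
      refine ⟨m, -n, ?_⟩
      rw [h]
      simp only [conj_conj, map_add, map_mul, map_intCast, map_neg]
      push_cast
      ring
  have e1 : (⟨_, him⟩ : ℍ).im = τ.im := by
    change (-conj (τ : ℂ)).im = _
    simp
  rw [e, ar_sp hc', ar_sp hc, e1, Complex.norm_conj]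

theorem a0bp_int (h : IsLat L) (h' : IsLat L') (hle : L ≤ L') :
    ∃ N : ℕ, 0 < N ∧ pr N * L' ≤ L := by
  obtain ⟨c, τ, hc, rfl⟩ := h
  obtain ⟨c', τ', hc', rfl⟩ := h'
  obtain ⟨h1, h2⟩ := Pool.Agent.P.MP_20768c_nt.Az.EQ.lat2_sp_le.1 hle
  obtain ⟨p, q, h1⟩ := Pool.Agent.P.MP_20768c_nt.Az.EQ.mem_sp.1 h1
  obtain ⟨r, t, h2⟩ := Pool.Agent.P.MP_20768c_nt.Az.EQ.mem_sp.1 h2
  have e1 : ((p * t - q * r : ℤ) : ℂ) * c' = (t : ℂ) * c + ((-q : ℤ) : ℂ) * (c * τ) := by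
    push_cast; linear_combination (-(t : ℂ)) * h1 + (q : ℂ) * h2
  have e2 : ((p * t - q * r : ℤ) : ℂ) * (c' * τ') = ((-r : ℤ) : ℂ) * c + (p : ℂ) * (c * τ) := by
    push_cast; linear_combination (r : ℂ) * h1 - (p : ℂ) * h2
  have hD : p * t - q * r ≠ 0 := by
    intro h0
    rw [h0] at e1 e2
    have a1 := Pool.Agent.P.MP_20768c_nt.Az.EQ.lat2_indep hc τ (m := t) (n := -q) (m' := 0) (n' := 0)
      (by rw [← e1]; simp)
    have a2 := Pool.Agent.P.MP_20768c_nt.Az.EQ.lat2_indep hc τ (m := -r) (n := p) (m' := 0) (n' := 0)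
      (by rw [← e2]; simp)
    have hq : q = 0 := by omega
    rw [a2.2, hq] at h1
    exact hc (by simpa using h1)
  refine ⟨(p * t - q * r).natAbs, Int.natAbs_pos.2 hD, ?_⟩
  have m1 : ((p * t - q * r : ℤ) : ℂ) * c' ∈ sp c (c * τ) := Pool.Agent.P.MP_20768c_nt.Az.EQ.mem_sp.2 ⟨_, _, e1⟩
  have m2 : ((p * t - q * r : ℤ) : ℂ) * (c' * τ') ∈ sp c (c * τ) :=
    Pool.Agent.P.MP_20768c_nt.Az.EQ.mem_sp.2 ⟨_, _, e2⟩
  rw [Pool.Agent.P.MP_20768c_nt.Az.EQ.pr_mul_sp, Pool.Agent.P.MP_20768c_nt.Az.EQ.lat2_sp_le]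
  generalize p * t - q * r = D at m1 m2
  rcases Int.natAbs_eq D with e | e
  · rw [e] at m1 m2
    simpa using And.intro m1 m2
  · rw [e] at m1 m2
    have := And.intro (neg_mem m1) (neg_mem m2)
    simpa using this

theorem a0bp_hnf (h : IsLat L) (h' : IsLat L') (hle : L ≤ L') :
    ∃ R, Reps L L' R ∧ ar L = R.card * ar L' := by
  classical
  obtain ⟨N, hN, hNL⟩ := a0bp_int h h' hle
  obtain ⟨c, τ, hc, rfl⟩ := h'
  obtain ⟨a, d, b, ha, hd, -, -, -, -, hL⟩ := Pool.Agent.P.MP_20768c_nt.Az.EQ.hnf hc τ hN hNL hle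
  have ha' : (a : ℤ) ≠ 0 := by exact_mod_cast ha.ne'
  have hd' : (d : ℤ) ≠ 0 := by exact_mod_cast hd.ne'
  have hmem : ∀ x y : ℤ, (x : ℂ) * c + y * (c * τ) ∈ L ↔
      ∃ m n : ℤ, x = m * a + n * b ∧ y = n * d := by
    intro x y
    rw [hL]
    have := Pool.Agent.P.MP_20768c_nt.Az.EQ.lat2_mem hc τ (a := a) (d := d) (b := b) (x := x) (y := y)
    simpa [Pool.Agent.P.MP_20768c_nt.Az.EQ.lat2H] using this
  let φ : ℤ × ℤ → ℂ := fun p => (p.1 : ℂ) * c + p.2 * (c * τ)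
  have hφ : Function.Injective φ := by
    rintro ⟨x, y⟩ ⟨x', y'⟩ e
    obtain ⟨e1, e2⟩ := Pool.Agent.P.MP_20768c_nt.Az.EQ.lat2_indep hc τ e
    exact Prod.ext e1 e2
  refine ⟨(Finset.Ico (0 : ℤ) a ×ˢ Finset.Ico (0 : ℤ) d).image φ, ⟨hle, ?_, ?_, ?_⟩, ?_⟩
  · exact Finset.mem_image.2 ⟨(0, 0), by simp [ha, hd], by simp [φ]⟩
  · intro r hr
    obtain ⟨p, -, rfl⟩ := Finset.mem_image.1 hr
    exact Pool.Agent.P.MP_20768c_nt.Az.EQ.mem_sp.2 ⟨p.1, p.2, rfl⟩
  · intro z hz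
    obtain ⟨x, y, rfl⟩ := Pool.Agent.P.MP_20768c_nt.Az.EQ.mem_sp.1 hz
    have hsub : ∀ p : ℤ × ℤ, (x : ℂ) * c + y * (c * τ) - φ p =
        ((x - p.1 : ℤ) : ℂ) * c + ((y - p.2 : ℤ) : ℂ) * (c * τ) := by
      intro p; simp only [φ]; push_cast; ring
    refine ⟨φ ((x - y / d * b) % a, y % d), ⟨Finset.mem_image_of_mem _ ?_, ?_⟩, ?_⟩
    · simp only [Finset.mem_product, Finset.mem_Ico]
      exact ⟨⟨Int.emod_nonneg _ ha', Int.emod_lt_of_pos _ (by exact_mod_cast ha)⟩,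
        Int.emod_nonneg _ hd', Int.emod_lt_of_pos _ (by exact_mod_cast hd)⟩
    · rw [hsub, hmem]
      refine ⟨(x - y / d * b) / a, y / d, ?_, ?_⟩
      · simp only [Int.emod_def]; ring
      · simp only [Int.emod_def]; ring
    · rintro r ⟨hr, hr'⟩
      obtain ⟨⟨x', y'⟩, hp, rfl⟩ := Finset.mem_image.1 hr
      simp only [Finset.mem_product, Finset.mem_Ico] at hp
      rw [hsub, hmem] at hr'
      obtain ⟨m, n, e1, e2⟩ := hr'
      simp only at e1 e2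
      have hy : y = y' + d * n := by linear_combination e2
      have f1 : y % d = y' := by
        rw [hy, Int.add_mul_emod_self_left, Int.emod_eq_of_lt hp.2.1 hp.2.2]
      have f2 : y / d = n := by
        rw [hy, Int.add_mul_ediv_left _ _ hd', Int.ediv_eq_zero_of_lt hp.2.1 hp.2.2, zero_add]
      have hx : x - n * b = x' + a * m := by linear_combination e1
      have f3 : (x - y / d * b) % a = x' := by
        rw [f2, hx, Int.add_mul_emod_self_left, Int.emod_eq_of_lt hp.1.1 hp.1.2]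
      rw [f1, f3]
  · have hac : (a : ℂ) ≠ 0 := by exact_mod_cast ha.ne'
    have har : (a : ℝ) ≠ 0 := by exact_mod_cast ha.ne'
    have e0 : ((d * τ + b : ℂ) / a).im = d * τ.im / a := by
      rw [Complex.div_natCast_im]
      simp only [Complex.add_im, Complex.mul_im, Complex.natCast_re, coe_im, Complex.natCast_im,
        zero_mul, add_zero, Complex.intCast_im]
    have him : 0 < ((d * τ + b : ℂ) / a).im := by
      rw [e0]
      exact div_pos (mul_pos (Nat.cast_pos.2 hd) τ.im_pos) (Nat.cast_pos.2 ha)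
    have e : L = sp (a * c) (a * c * ((⟨_, him⟩ : ℍ) : ℂ)) := by
      rw [hL]
      congr 1
      change _ = _ * ((d * τ + b : ℂ) / a)
      field_simp
    have e1 : (⟨_, him⟩ : ℍ).im = d * τ.im / a := e0
    rw [e, ar_sp (mul_ne_zero hac hc), ar_sp hc, e1, Finset.card_image_of_injective _ hφ]
    simp only [Finset.card_product, Int.card_Ico, sub_zero, Int.toNat_natCast, norm_mul,
      Complex.norm_natCast]
    push_cast
    field_simp

theorem a0bp_sub (hR : Reps L L' R) {a b : ℂ} (ha : a ∈ R) (hb : b ∈ R) (h : a - b ∈ L) :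
    a = b :=
  (hR.2.2.2 a (hR.2.2.1 a ha)).unique ⟨ha, by simp⟩ ⟨hb, h⟩

theorem a0bp_rho (hR : Reps L L' R) : ∃ ρ : ℂ → ℂ, ∀ x ∈ L', ρ x ∈ R ∧ x - ρ x ∈ L := by
  have : ∀ x : ℂ, ∃ r, x ∈ L' → r ∈ R ∧ x - r ∈ L := by
    intro x
    by_cases hx : x ∈ L'
    · obtain ⟨r, hr, -⟩ := hR.2.2.2 x hx
      exact ⟨r, fun _ => hr⟩
    · exact ⟨0, fun h => (hx h).elim⟩
  choose ρ hρ using this
  exact ⟨ρ, hρ⟩

theorem a0bp_inj (hR : Reps L L' R) {ρ e : ℂ → ℂ} (hρ : ∀ x ∈ L', x - ρ x ∈ L)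
    (he : ∀ a ∈ L', e a ∈ L') (hi : ∀ a ∈ L', ∀ b ∈ L', e a - e b ∈ L ↔ a - b ∈ L) :
    Set.InjOn (fun r => ρ (e r)) R := by
  intro a ha b hb hab
  have ha' := hR.2.2.1 a ha
  have hb' := hR.2.2.1 b hb
  refine a0bp_sub hR ha hb ((hi a ha' b hb').1 ?_)
  have := L.sub_mem (hρ _ (he a ha')) (hρ _ (he b hb'))
  simp only at hab
  rw [hab] at this
  simpa using this

theorem a0bp_card_le {R' : Finset ℂ} (hR : Reps L L' R) (hR' : Reps L L' R') :
    R.card ≤ R'.card := by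
  obtain ⟨ρ, hρ⟩ := a0bp_rho hR'
  exact Finset.card_le_card_of_injOn (fun r => ρ (id r)) (fun r hr => (hρ r (hR.2.2.1 r hr)).1)
    (a0bp_inj hR (fun x hx => (hρ x hx).2) (fun _ h => h) (fun _ _ _ _ => Iff.rfl))

theorem a0bp_sum {A : Type} [AddCommMonoid A] {R' : Finset ℂ} (hR : Reps L L' R)
    (hR' : Reps L L' R') (e : ℂ → ℂ)
    (he : ∀ a ∈ L', e a ∈ L') (hi : ∀ a ∈ L', ∀ b ∈ L', e a - e b ∈ L ↔ a - b ∈ L)
    (f : ℂ → A) (hf : ∀ a ∈ L', ∀ l ∈ L, f (a + l) = f a) :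
    ∑ r ∈ R, f (e r) = ∑ r ∈ R', f r := by
  obtain ⟨ρ, hρ⟩ := a0bp_rho hR'
  have hm : Set.MapsTo (fun r => ρ (e r)) R R' := fun r hr => (hρ _ (he r (hR.2.2.1 r hr))).1
  have hinj := a0bp_inj hR (fun x hx => (hρ x hx).2) he hi
  refine Finset.sum_nbij (fun r => ρ (e r)) hm hinj
    (Finset.surjOn_of_injOn_of_card_le _ hm hinj (a0bp_card_le hR' hR)) ?_
  intro r hr
  have h1 := hρ _ (he r (hR.2.2.1 r hr))
  have := hf _ (hR'.2.2.1 _ h1.1) _ h1.2
  simpa using this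

theorem exists_reps (h : IsLat L) (h' : IsLat L') (hle : L ≤ L') : ∃ R, Reps L L' R := by
  obtain ⟨R, hR, -⟩ := a0bp_hnf h h' hle
  exact ⟨R, hR⟩

theorem Reps.card_mul (hR : Reps L L' R) (hz : z ∈ L') : (R.card : ℂ) * z ∈ L := by
  have h := a0bp_sum hR hR (fun a => a + z) (fun a ha => L'.add_mem ha hz)
    (fun a _ b _ => by rw [add_sub_add_right_eq_sub]) L.mkQ (fun a _ l hl => by
      rw [map_add, Submodule.mkQ_apply L l, (Submodule.Quotient.mk_eq_zero L).2 hl, add_zero])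
  simp only [map_add, Finset.sum_add_distrib, Finset.sum_const, add_eq_left] at h
  rw [← map_nsmul, Submodule.mkQ_apply, Submodule.Quotient.mk_eq_zero] at h
  simpa using h

theorem Reps.sub_mem (hR : Reps L L' R) {a b : ℂ} (ha : a ∈ R) (hb : b ∈ R) (h : a - b ∈ L) :
    a = b := by
  exact a0bp_sub hR ha hb h

theorem Reps.card_eq {R' : Finset ℂ} (hR : Reps L L' R) (hR' : Reps L L' R') : R.card = R'.card := by
  exact (a0bp_card_le hR hR').antisymm (a0bp_card_le hR' hR)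

theorem Reps.sum_congr {A : Type} [AddCommMonoid A] {R' : Finset ℂ} (hR : Reps L L' R)
    (hR' : Reps L L' R') (f : ℂ → A) (hf : ∀ a ∈ L', ∀ l ∈ L, f (a + l) = f a) :
    ∑ r ∈ R, f r = ∑ r ∈ R', f r := by
  exact a0bp_sum hR hR' id (fun _ h => h) (fun _ _ _ _ => Iff.rfl) f hf

theorem Reps.sum_bij {A : Type} [AddCommMonoid A] (hR : Reps L L' R) (e : ℂ → ℂ)
    (he : ∀ a ∈ L', e a ∈ L') (hi : ∀ a ∈ L', ∀ b ∈ L', e a - e b ∈ L ↔ a - b ∈ L)
    (f : ℂ → A) (hf : ∀ a ∈ L', ∀ l ∈ L, f (a + l) = f a) : ∑ r ∈ R, f (e r) = ∑ r ∈ R, f r := by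
  exact a0bp_sum hR hR e he hi f hf

theorem ar_reps (h : IsLat L) (h' : IsLat L') (hR : Reps L L' R) : ar L = R.card * ar L' := by
  obtain ⟨R', hR', e⟩ := a0bp_hnf h h' hR.1
  rw [e, hR.card_eq hR']

theorem reps_tsum (hR : Reps L L' R) {f : ℂ → ℂ} (hf : Summable fun l : L' => f l) :
    ∑' l : L', f l = ∑ r ∈ R, ∑' l : L, f (r + l) := by
  let φ : R × L → L' := fun p => ⟨p.1 + p.2, L'.add_mem (hR.2.2.1 _ p.1.2) (hR.1 p.2.2)⟩
  have hφ : Function.Bijective φ := by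
    constructor
    · rintro ⟨a, l⟩ ⟨b, m⟩ e
      have e' : (a : ℂ) + l = b + m := congrArg Subtype.val e
      have e1 : (a : ℂ) = b := by
        refine hR.sub_mem a.2 b.2 ?_
        have : (a : ℂ) - b = m - l := by linear_combination e'
        rw [this]
        exact L.sub_mem m.2 l.2
      rw [e1] at e'
      exact Prod.ext (Subtype.ext e1) (Subtype.ext (add_left_cancel e'))
    · rintro ⟨y, hy⟩
      obtain ⟨r, hr, -⟩ := hR.2.2.2 y hy
      exact ⟨(⟨r, hr.1⟩, ⟨y - r, hr.2⟩), Subtype.ext (by simp [φ])⟩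
  let E := Equiv.ofBijective φ hφ
  have h1 : Summable fun p : R × L => f (E p) := (E.summable_iff (f := fun l : L' => f l)).2 hf
  rw [← E.tsum_eq, h1.tsum_prod, ← Finset.tsum_subtype R (fun r => ∑' l : L, f (r + l))]
  rfl

theorem isLat_of_le (h : IsLat L) (hle : L ≤ L') {n : ℕ} (hn : 0 < n)
    (h' : ∀ y ∈ L', (n : ℂ) * y ∈ L) : IsLat L' := by
  refine h.of_between hn ?_ (Pool.Agent.P.MP_20768c_nt.Az.EQ.pr_mul_le.2 h')
  have := Pool.Agent.P.MP_20768c_nt.Az.EQ.pr_int_le n L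
  exact le_trans (by simpa using this) hle

theorem reps_div (h : IsLat L) {c : ℕ} (hc : 0 < c) (hR : Reps L (pr (c : ℂ)⁻¹ * L) R) :
    R.card = c ^ 2 := by
  have hc' : (c : ℂ)⁻¹ ≠ 0 := inv_ne_zero (by exact_mod_cast hc.ne')
  have h1 := ar_reps h (h.pr_mul hc') hR
  rw [ar_sc h hc', norm_inv, Complex.norm_natCast] at h1
  have h2 := (ar_pos h).ne'
  have h3 : (c : ℝ) ≠ 0 := by exact_mod_cast hc.ne'
  have h4 : (R.card : ℝ) = c ^ 2 := by
    field_simp at h1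
    exact h1.symm
  exact_mod_cast h4

theorem exists_tors (h : IsLat L) {n : ℕ} (hn : 1 < n) : ∃ a b : ℂ, (n : ℂ) * a ∈ L ∧
    (n : ℂ) * b ∈ L ∧ ∀ i j : ℤ, (i : ℂ) * a + j * b ∈ L → (n : ℤ) ∣ i ∧ (n : ℤ) ∣ j := by
  obtain ⟨c, τ, hc, rfl⟩ := h
  have hn' : (n : ℂ) ≠ 0 := by exact_mod_cast (by omega : n ≠ 0)
  refine ⟨c / n, c * τ / n, ?_, ?_, ?_⟩
  · rw [mul_div_cancel₀ _ hn']
    exact Pool.Agent.P.MP_20768c_nt.Az.EQ.left_mem_sp_lat _ _
  · rw [mul_div_cancel₀ _ hn']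
    exact Pool.Agent.P.MP_20768c_nt.Az.EQ.right_mem_sp_lat _ _
  · intro i j hij
    obtain ⟨p, q, e⟩ := Pool.Agent.P.MP_20768c_nt.Az.EQ.mem_sp.1 hij
    obtain ⟨e1, e2⟩ := Pool.Agent.P.MP_20768c_nt.Az.EQ.lat2_indep hc τ (m := i) (n := j) (m' := n * p)
      (n' := n * q) (by
        push_cast
        field_simp at e
        linear_combination c * e)
    exact ⟨⟨p, e1⟩, ⟨q, e2⟩⟩

end Pool.Agent.P.MP_20768c_nt.Az.Cu

end

-- part Cu.A1
section

set_option autoImplicit false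

open Complex NumberField IsDedekindDomain Filter Topology
open UpperHalfPlane hiding I
open scoped ComplexConjugate Real MatrixGroups

namespace Pool.Agent.P.MP_20768c_nt.Az.Cu

open Pool.Agent.P.MP_20768c_nt.Az.EQ (Lt pr sp IsLat jL qN)

variable {L M : Lt}

theorem a1_Gk {k : ℕ} (hk : 3 ≤ k) (τ : ℍ) :
    Gk (sp 1 τ) k = 2 * riemannZeta k * ModularForm.E hk τ := by
  have h1 : ModularForm.E hk τ = (1 / 2 : ℂ) * eisensteinSeries (N := 1) 0 k τ := rfl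
  let f : (Fin 2 → ℤ) → sp 1 τ := fun v => ⟨v 0 * τ + v 1, EQ.mem_sp.2 ⟨v 1, v 0, by ring⟩⟩
  have hf : Function.Bijective f := ⟨fun v w h => by
    have := EQ.int_indep_lat τ (p := v 0 - w 0) (q := v 1 - w 1) (by
      push_cast
      linear_combination (congrArg Subtype.val h : (v 0 * τ + v 1 : ℂ) = w 0 * τ + w 1))
    exact funext (Fin.forall_fin_two.2 ⟨by omega, by omega⟩), fun l => by
    obtain ⟨m, n, h⟩ := EQ.mem_sp.1 l.2
    exact ⟨![n, m], Subtype.ext (by simp [f, h, add_comm])⟩⟩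
  rw [h1, Gk, ← (Equiv.ofBijective f hf).tsum_eq]
  refine Eq.trans (tsum_congr fun v => ?_)
    ((tsum_eisSummand_eq_riemannZeta_mul_eisensteinSeries hk τ).trans (by ring))
  rw [EisensteinSeries.eisSummand, zpow_neg, zpow_natCast]
  rfl

theorem a1_sp (c : ℂ) (τ : ℍ) : sp c (c * τ) = pr c * sp 1 τ := by rw [EQ.pr_mul_sp, mul_one]

theorem a1_sub (hd : dl L ≠ 0) (hj : jL L = 1728 * g2 L ^ 3 / dl L) :
    jL L - 1728 = 46656 * g3 L ^ 2 / dl L := by
  rw [hj, div_sub' hd, dl]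
  congr 1
  ring

theorem g2_sp {c : ℂ} (hc : c ≠ 0) (τ : ℍ) :
    g2 (sp c (c * τ)) = (2 * π) ^ 4 * ModularForm.E₄ τ / 12 / c ^ 4 := by
  have h := a1_Gk (by norm_num : 3 ≤ 4) τ
  rw [Nat.cast_ofNat, riemannZeta_four] at h
  rw [a1_sp, g2_sc _ hc, g2, h]
  ring

theorem g3_sp {c : ℂ} (hc : c ≠ 0) (τ : ℍ) :
    g3 (sp c (c * τ)) = (2 * π) ^ 6 * ModularForm.E₆ τ / 216 / c ^ 6 := by
  have h := a1_Gk (by norm_num : 3 ≤ 6) τ
  have h1 := riemannZeta_two_mul_nat (k := 3) (by norm_num)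
  rw [show bernoulli (2 * 3) = 1 / 42 by decide +kernel] at h1
  rw [show ((6 : ℕ) : ℂ) = 2 * (3 : ℕ) by norm_num, h1] at h
  rw [a1_sp, g3_sc _ hc, g3, h]
  norm_num [Nat.factorial]
  ring

theorem dl_sp {c : ℂ} (hc : c ≠ 0) (τ : ℍ) :
    dl (sp c (c * τ)) = (2 * π) ^ 12 * ModularForm.discriminant τ / c ^ 12 := by
  rw [dl, g2_sp hc, g3_sp hc, ModularForm.discriminant_eq_E₄_cube_sub_E₆_sq]
  ring

theorem dl_ne (h : IsLat L) : dl L ≠ 0 := by
  obtain ⟨c, τ, hc, rfl⟩ := h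
  rw [dl_sp hc]
  exact div_ne_zero (mul_ne_zero (pow_ne_zero _ (mul_ne_zero two_ne_zero
    (ofReal_ne_zero.2 Real.pi_ne_zero))) (ModularForm.discriminant_ne_zero τ)) (pow_ne_zero _ hc)

theorem jL_eq (h : IsLat L) : jL L = 1728 * g2 L ^ 3 / dl L := by
  obtain ⟨c, τ, hc, rfl⟩ := h
  have h1 := ModularForm.discriminant_ne_zero τ
  have h2 : (π : ℂ) ≠ 0 := ofReal_ne_zero.2 Real.pi_ne_zero
  rw [EQ.jL_sp hc, dl_sp hc, g2_sp hc, EQ.jInv]
  field_simp
  ring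

theorem lat_eq (h : IsLat L) (h' : IsLat M) (e2 : g2 L = g2 M) (e3 : g3 L = g3 M)
    (h2 : g2 L ≠ 0) (h3 : g3 L ≠ 0) : L = M := by
  obtain ⟨x, hx, rfl⟩ := EQ.jL_inj h h' (by rw [jL_eq h, jL_eq h', dl, dl, e2, e3])
  rw [g2_sc _ hx, eq_div_iff (pow_ne_zero _ hx), mul_eq_left₀ h2] at e2
  rw [g3_sc _ hx, eq_div_iff (pow_ne_zero _ hx), mul_eq_left₀ h3] at e3
  have h4 : x ^ 2 = 1 := by linear_combination e3 - x ^ 2 * e2
  ext z
  rcases sq_eq_one_iff.1 h4 with rfl | rfl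
  · simp
  · simpa using (mul_mem_sc (L := L) (z := -z) hx).symm

theorem g23_iff (h : IsLat L) : (g2 L ≠ 0 ∧ g3 L ≠ 0) ↔ (jL L ≠ 0 ∧ jL L - 1728 ≠ 0) := by
  have hd := dl_ne h
  rw [a1_sub hd (jL_eq h), jL_eq h]
  simp [hd]

theorem g2_UU (h : IsLat L) (h2 : g2 L ≠ 0) (h3 : g3 L ≠ 0) :
    g2 L / UU L ^ 2 = jL L / (12 * (jL L - 1728)) := by
  have hd := dl_ne h
  rw [a1_sub hd (jL_eq h), jL_eq h, UU]
  field_simp
  ring

theorem g3_UU (h : IsLat L) (h2 : g2 L ≠ 0) (h3 : g3 L ≠ 0) :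
    g3 L / UU L ^ 3 = -(jL L / (216 * (jL L - 1728))) := by
  have hd := dl_ne h
  rw [a1_sub hd (jL_eq h), jL_eq h, UU]
  field_simp
  ring

theorem dl_UU (h : IsLat L) (h2 : g2 L ≠ 0) (h3 : g3 L ≠ 0) :
    dl L / UU L ^ 6 = jL L ^ 2 / (jL L - 1728) ^ 3 := by
  have hd := dl_ne h
  rw [a1_sub hd (jL_eq h), jL_eq h, UU]
  field_simp
  ring

end Pool.Agent.P.MP_20768c_nt.Az.Cu

end

-- part Cu.M3_p
section

set_option autoImplicit false

open Complex NumberField IsDedekindDomain Filter Topology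
open UpperHalfPlane hiding I
open scoped ComplexConjugate Real MatrixGroups

namespace Pool.Agent.P.MP_20768c_nt.Az.Cu

open Pool.Agent.P.MP_20768c_nt.Az.EQ (Lt pr sp IsLat jL qN)

variable {K : Type} [Field K] [NumberField K] (E : WeierstrassCurve K)
  (S : Set (HeightOneSpectrum (𝓞 K))) (F : IntermediateField K (AlgebraicClosure K))

theorem m3_p_half {A : Type} [AddCommGroup A] (h2 : {a : A | a + a = 0}.Finite) (x : A) :
    {a : A | a + a = x}.Finite := by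
  rcases Set.eq_empty_or_nonempty {a : A | a + a = x} with h | ⟨b, hb⟩
  · rw [h]
    exact Set.finite_empty
  · refine (h2.image (· + b)).subset fun a ha => ⟨a - b, ?_, sub_add_cancel a b⟩
    change a - b + (a - b) = 0
    rw [sub_add_sub_comm, show a + a = x from ha, show b + b = x from hb, sub_self]

theorem cob_fin [E.IsElliptic] (J : Set (Gal K)) :
    {f : J → Tor E | (∃ b, ∀ g, f g = act E g.1 b - b) ∧ ∀ g, f g + f g = 0}.Finite := by
  let T : AddSubgroup (Tor E) :=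
    { carrier := {a | ∀ g ∈ J, act E g a = a}
      zero_mem' := fun g _ => by
        have := act_sub E g 0 0
        rwa [sub_self, sub_self] at this
      add_mem' := fun {a b} ha hb g hg => by rw [act_add, ha g hg, hb g hg]
      neg_mem' := fun {a} ha g hg => by
        have h0 := act_sub E g 0 0
        rw [sub_self, sub_self] at h0
        rw [← zero_sub, act_sub, h0, ha g hg] }
  obtain ⟨X, hX⟩ := quot_two_fin (A := T) (fun a => by
      obtain ⟨n, hn⟩ := tor_tors E a.1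
      exact ⟨n, Subtype.ext hn⟩)
    (((card2 E).preimage Subtype.val_injective.injOn).subset fun a ha => congrArg Subtype.val ha)
  refine ((X.finite_toSet.biUnion fun x _ => m3_p_half (card2 E) x.1).image
    fun (b : Tor E) (g : J) => act E g.1 b - b).subset ?_
  rintro f ⟨⟨b, hb⟩, h2⟩
  have hbT : b + b ∈ T := fun g hg => by
    have := h2 ⟨g, hg⟩
    rw [hb, sub_add_sub_comm, sub_eq_zero] at this
    rw [act_add, this]
  obtain ⟨x, hx, c, hc⟩ := hX ⟨_, hbT⟩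
  have hc' : b + b = x.1 + (c.1 + c.1) := congrArg Subtype.val hc
  refine ⟨b - c.1, Set.mem_biUnion hx ?_, funext fun g => ?_⟩
  · change b - c.1 + (b - c.1) = x.1
    rw [sub_add_sub_comm, hc', add_sub_cancel_right]
  · change act E g.1 (b - c.1) - (b - c.1) = f g
    rw [hb, act_sub, c.2 g.1 g.2, sub_sub_sub_cancel_right]

theorem sel_tors (x : Sel E S F) : ∃ n : ℕ, 2 ^ n • x = 0 := by
  obtain ⟨c, rfl⟩ := QuotientAddGroup.mk_surjective x
  have : CompactSpace F.fixingSubgroup :=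
    isCompact_iff_compactSpace.mp (InfiniteGalois.fixingSubgroup_isClosed F).isCompact
  have hf := c.2.1.range_finite
  choose m hm using tor_tors E
  obtain ⟨n, hn⟩ := (hf.image m).bddAbove
  refine ⟨n, ?_⟩
  have h0 : 2 ^ n • c = 0 := Subtype.ext (funext fun g => by
    obtain ⟨d, hd⟩ := Nat.exists_eq_add_of_le (hn ⟨_, ⟨g, rfl⟩, rfl⟩)
    change 2 ^ n • c.1 g = 0
    rw [hd, pow_add, mul_nsmul, hm, nsmul_zero])
  rw [← QuotientAddGroup.mk_nsmul, h0, QuotientAddGroup.mk_zero]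

open scoped Pointwise in
theorem inI_mem {V : ValuationSubring (AlgebraicClosure K)} {g : Gal K} (h : InI V g) :
    g ∈ V.decompositionSubgroup K ∧ (¬ Above S V → g ∈ (KS S).fixingSubgroup) := by
  have h1 : ∀ x, g x ∈ V ↔ x ∈ V := fun x => by
    constructor
    · intro hx
      by_contra hn
      have h0 : x ≠ 0 := fun e => hn (e ▸ V.zero_mem)
      have h2 : V.valuation x⁻¹ < 1 := by
        rw [map_inv₀, inv_lt_one₀ ((V.valuation.pos_iff).mpr h0)]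
        exact lt_of_not_ge fun e => hn ((V.valuation_le_one_iff x).mp e)
      have h3 := V.valuation.map_add_lt (h _ h2.le) h2
      rw [sub_add_cancel, map_inv₀, map_inv₀,
        inv_lt_one₀ ((V.valuation.pos_iff).mpr ((map_ne_zero g).mpr h0))] at h3
      exact h3.not_ge ((V.valuation_le_one_iff _).mpr hx)
    · intro hx
      have h2 := (V.valuation_le_one_iff x).mpr hx
      have h3 := V.valuation.map_add_le (h _ h2).le h2
      rw [sub_add_cancel] at h3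
      exact (V.valuation_le_one_iff _).mp h3
  have hd : g ∈ V.decompositionSubgroup K := by
    refine MulAction.mem_stabilizer_iff.mpr (ValuationSubring.ext _ _ fun x => ?_)
    rw [ValuationSubring.mem_pointwise_smul_iff_inv_smul_mem, ← h1]
    exact Iff.of_eq (congrArg (· ∈ V) (smul_inv_smul g x))
  refine ⟨hd, fun hS => ?_⟩
  refine (IntermediateField.le_iff_le _ _).mp (le_refl (KS S)) ?_
  refine Subgroup.mem_iSup_of_mem ⟨V, hS⟩ ⟨⟨g, hd⟩, ?_, rfl⟩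
  refine MonoidHom.mem_ker.mpr (RingEquiv.ext fun y => ?_)
  obtain ⟨x, rfl⟩ := IsLocalRing.residue_surjective y
  change (⟨g, hd⟩ : V.decompositionSubgroup K) • IsLocalRing.residue V x = IsLocalRing.residue V x
  rw [← IsLocalRing.ResidueField.residue_smul, ← sub_eq_zero, ← map_sub,
    IsLocalRing.residue_eq_zero_iff, V.valuation_lt_one_iff]
  exact h x (V.valuation_le_one x)

theorem exists_CS (hS : S.Finite) : ∃ C : ℕ, C ≠ 0 ∧ Even C ∧
    ∀ V : ValuationSubring (AlgebraicClosure K), V.valuation C = 1 → ¬ Above S V := by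
  refine ⟨2 * ∏ p ∈ hS.toFinset, Ideal.absNorm p.asIdeal, mul_ne_zero two_ne_zero
    (Finset.prod_ne_zero_iff.mpr fun p _ => ?_), even_two_mul _, ?_⟩
  · rw [Ne, Ideal.absNorm_eq_zero_iff]
    exact p.ne_bot
  · rintro V hV ⟨p, hp, h⟩
    obtain ⟨m, hm⟩ := (Finset.dvd_prod_of_mem (fun p : HeightOneSpectrum (𝓞 K) =>
      Ideal.absNorm p.asIdeal) (hS.mem_toFinset.mpr hp)).mul_left 2
    have h1 := h _ (Ideal.absNorm_mem p.asIdeal)
    rw [map_natCast] at h1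
    rw [hm, Nat.cast_mul, map_mul] at hV
    exact (mul_lt_one_of_lt_of_le h1
      ((V.valuation_le_one_iff _).mpr (natCast_mem V m))).ne hV

end Pool.Agent.P.MP_20768c_nt.Az.Cu

end

-- part Ab.Y2
section

set_option autoImplicit false

open Complex NumberField IsDedekindDomain Filter Topology
open UpperHalfPlane hiding I
open scoped ComplexConjugate Real MatrixGroups

namespace Pool.Agent.P.MP_20768c_nt.Az.Cu

open Pool.Agent.P.MP_20768c_nt.Az.EQ (Lt pr sp IsLat jL qN)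

variable {K : Type} [Field K] [NumberField K]

theorem aby2_two {P : Type} [Group P] [Finite P] {U U' : Subgroup P} (hle : U ≤ U') {i : ℕ}
    (hU : Nat.card U = 2 ^ i) (hU' : Nat.card U' = 2 ^ (i + 1)) {a b : P} (ha : a ∈ U')
    (hb : b ∈ U') (ha' : a ∉ U) (hb' : b ∉ U) : a * b ∈ U := by
  have h1 : Nat.card (U.subgroupOf U') = 2 ^ i := by
    rw [← hU]
    exact Nat.card_congr (Subgroup.subgroupOfEquivOfLe hle).toEquiv
  have h2 := (U.subgroupOf U').card_mul_index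
  rw [h1, hU', pow_succ] at h2
  have h3 : (U.subgroupOf U').index = 2 := Nat.eq_of_mul_eq_mul_left (by positivity) h2
  have h4 := (Subgroup.mul_mem_iff_of_index_two h3 (a := ⟨a, ha⟩) (b := ⟨b, hb⟩)).2
    (iff_of_false (fun h => ha' (Subgroup.mem_subgroupOf.1 h))
      (fun h => hb' (Subgroup.mem_subgroupOf.1 h)))
  exact Subgroup.mem_subgroupOf.1 h4

theorem aby2_onto {H₀ : Subgroup (GQ K)} {P : Type} [Group P] [Finite P] (ρ : H₀ →* P) {n : ℕ}
    (hn : Nat.card P = 2 ^ n) (T : Finset (AlgebraicClosure K))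
    (hT : ∀ g : H₀, (∀ x ∈ T, g.1 x = x) → ρ g = 1) (h : FinQ H₀) (j : ℕ) :
    ∀ (i : ℕ) (U : Subgroup P), i + j = n → Nat.card U = 2 ^ i →
      FinQ ((U.comap ρ).map H₀.subtype) := by
  have hm : ∀ (U : Subgroup P) (g : GQ K),
      g ∈ (U.comap ρ).map H₀.subtype ↔ ∃ hg : g ∈ H₀, ρ ⟨g, hg⟩ ∈ U := by
    intro U g
    constructor
    · rintro ⟨x, hx, rfl⟩
      exact ⟨x.2, hx⟩
    · rintro ⟨hg, hx⟩
      exact ⟨⟨g, hg⟩, hx, rfl⟩
  induction j with
  | zero =>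
    intro i U hi hU
    have h1 : U = ⊤ := Subgroup.eq_top_of_card_eq U (by rw [hU, hn, ← hi, add_zero])
    have h2 : (U.comap ρ).map H₀.subtype = H₀ := by
      ext g
      rw [hm, h1]
      exact ⟨fun ⟨hg, _⟩ => hg, fun hg => ⟨hg, Subgroup.mem_top _⟩⟩
    rw [h2]
    exact h
  | succ j ih =>
    intro i U hi hU
    have hp : Fact (Nat.Prime 2) := ⟨Nat.prime_two⟩
    obtain ⟨U', hU', hle⟩ := Sylow.exists_subgroup_card_pow_succ (p := 2) (n := i)
      (by rw [hn]; exact pow_dvd_pow 2 (by omega)) hU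
    refine asc_two (Subgroup.map_mono (Subgroup.comap_mono hle)) ?_ T ?_
      (ih (i + 1) U' (by omega) hU')
    · intro a ha b hb ha' hb'
      obtain ⟨a0, ha⟩ := (hm _ _).1 ha
      obtain ⟨b0, hb⟩ := (hm _ _).1 hb
      refine (hm _ _).2 ⟨mul_mem a0 b0, ?_⟩
      have e : ρ ⟨a * b, mul_mem a0 b0⟩ = ρ ⟨a, a0⟩ * ρ ⟨b, b0⟩ := map_mul ρ ⟨a, a0⟩ ⟨b, b0⟩
      rw [e]
      exact aby2_two hle hU hU' ha hb (fun c => ha' ((hm _ _).2 ⟨a0, c⟩))
        (fun c => hb' ((hm _ _).2 ⟨b0, c⟩))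
    · intro g hg hx
      obtain ⟨g0, -⟩ := (hm _ _).1 hg
      refine (hm _ _).2 ⟨g0, ?_⟩
      rw [hT ⟨g, g0⟩ hx]
      exact one_mem U

theorem asc_grp {H₀ H₁ : Subgroup (GQ K)} {Q : Type} [Group Q] [Finite Q] (ρ : H₀ →* Q)
    (h2 : ∀ g, ∃ j : ℕ, ρ g ^ 2 ^ j = 1) (hle : H₁ ≤ H₀) (hk : ∀ g : H₀, g.1 ∈ H₁ ↔ ρ g = 1)
    (T : Finset (AlgebraicClosure K)) (hT : ∀ g ∈ H₀, (∀ x ∈ T, g x = x) → g ∈ H₁)
    (h : FinQ H₀) : FinQ H₁ := by
  have hp : Fact (Nat.Prime 2) := ⟨Nat.prime_two⟩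
  have hP : IsPGroup 2 ρ.range := by
    rintro ⟨_, g, rfl⟩
    obtain ⟨j, hj⟩ := h2 g
    exact ⟨j, Subtype.ext hj⟩
  obtain ⟨n, hn⟩ := IsPGroup.iff_card.1 hP
  have hk' : ∀ g : H₀, ρ.rangeRestrict g = 1 ↔ ρ g = 1 := fun g => Subtype.ext_iff
  have h3 := aby2_onto ρ.rangeRestrict hn T
    (fun g hg => (hk' g).2 ((hk g).1 (hT g.1 g.2 hg))) h n 0 ⊥ (zero_add n)
    (by rw [Subgroup.card_bot, pow_zero])
  have h4 : ((⊥ : Subgroup ρ.range).comap ρ.rangeRestrict).map H₀.subtype = H₁ := by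
    ext g
    constructor
    · rintro ⟨x, hx, rfl⟩
      exact (hk x).2 ((hk' x).1 (Subgroup.mem_bot.1 (Subgroup.mem_comap.1 hx)))
    · intro hg
      exact ⟨⟨g, hle hg⟩,
        Subgroup.mem_comap.2 (Subgroup.mem_bot.2 ((hk' _).2 ((hk ⟨g, hle hg⟩).1 hg))), rfl⟩
  rw [← h4]
  exact h3

theorem exists_T {M Ω : Type} [Field M] [Field Ω] [Algebra M Ω] (L : IntermediateField M Ω)
    [FiniteDimensional M L] : ∃ T : Finset Ω, ∀ g : Ω →+* Ω,
      (∀ x : M, g (algebraMap M Ω x) = algebraMap M Ω x) → (∀ x ∈ T, g x = x) →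
      ∀ x ∈ L, g x = x := by
  classical
  have hfr : Module.Free M L := Module.Free.of_divisionRing _ _
  let b := Module.finBasis M L
  refine ⟨Finset.univ.image fun i => ((b i : L) : Ω), fun g h hg x hx => ?_⟩
  have h2 : x = ∑ i, algebraMap M Ω (b.repr ⟨x, hx⟩ i) * ((b i : L) : Ω) := by
    have := congrArg (fun y : L => (y : Ω)) (b.sum_repr ⟨x, hx⟩)
    simp only [IntermediateField.coe_sum, Algebra.smul_def] at this
    exact this.symm
  rw [h2, map_sum]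
  refine Finset.sum_congr rfl fun i _ => ?_
  rw [map_mul, h, hg _ (Finset.mem_image_of_mem _ (Finset.mem_univ i))]

theorem asc_fld {M : Type} [Field M] [Algebra M (AlgebraicClosure K)]
    (L : IntermediateField M (AlgebraicClosure K)) [FiniteDimensional M L] [IsGalois M L]
    (M₀ : Set (AlgebraicClosure K)) (hM : ∀ x : M, algebraMap M (AlgebraicClosure K) x ∈ M₀)
    (hle : ∀ x ∈ M₀, x ∈ L) (h2 : ∀ g : L ≃ₐ[M] L,
      (∀ x : L, (x : AlgebraicClosure K) ∈ M₀ → g x = x) → ∃ j : ℕ, g ^ 2 ^ j = 1)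
    (h : FinQ (Hq M₀)) : FinQ (Hq (L : Set (AlgebraicClosure K))) := by
  let j : Hq M₀ →* (AlgebraicClosure K ≃ₐ[M] AlgebraicClosure K) :=
    MonoidHom.mk' (fun g => AlgEquiv.ofRingEquiv (f := g.1.toRingEquiv) fun x => g.2.1 _ (hM x))
      fun g h => AlgEquiv.ext fun x => rfl
  have hj : ∀ (g : Hq M₀) x, j g x = g.1 x := fun g x => rfl
  let ρ : Hq M₀ →* (L ≃ₐ[M] L) := (AlgEquiv.restrictNormalHom L).comp j
  have hρ : ∀ (g : Hq M₀) (x : L), ((ρ g x : L) : AlgebraicClosure K) = g.1 x := fun g x =>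
    AlgEquiv.restrictNormalHom_apply L (j g) x
  obtain ⟨T, hT⟩ := exists_T L
  refine asc_grp ρ (fun g => h2 _ fun x hx => Subtype.ext ((hρ g x).trans (g.2.1 _ hx)))
    (fun g hg => ⟨fun x hx => hg.1 x (hle x hx), hg.2⟩) (fun g => ⟨fun hg => ?_, fun hg => ?_⟩) T
    (fun g hg hx => ⟨hT g.toRingEquiv.toRingHom (fun x => hg.1 _ (hM x)) hx, hg.2⟩) h
  · exact AlgEquiv.ext fun x => Subtype.ext ((hρ g x).trans (hg.1 _ x.2))
  · refine ⟨fun x hx => ?_, g.2.2⟩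
    have := hρ g ⟨x, hx⟩
    rw [hg] at this
    exact this.symm

end Pool.Agent.P.MP_20768c_nt.Az.Cu

end
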