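import Pool.Agent.P.MP_20768c_nt.Az.Z2

-- part Cu.C1a_p
section

set_option autoImplicit false

open Complex NumberField IsDedekindDomain Filter Topology
open UpperHalfPlane hiding I
open scoped ComplexConjugate Real MatrixGroups

namespace Pool.Agent.P.MP_20768c_nt.Az.Cu

open Pool.Agent.P.MP_20768c_nt.Az.EQ (Lt pr sp IsLat jL qN)

namespace St

variable (s : St) {Γ : Type} [LinearOrderedCommGroupWithZero Γ]

theorem c_inj : Function.Injective s.c := by
  intro x y h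
  have h' : ((x : s.k) : ℂ) = ((y : s.k) : ℂ) := h
  exact RingOfIntegers.ext (Subtype.ext h')

theorem c_add (x y : s.O) : s.c (x + y) = s.c x + s.c y := by
  exact map_add _ x y

theorem c_sub (x y : s.O) : s.c (x - y) = s.c x - s.c y := by
  exact map_sub _ x y

theorem c_mul (x y : s.O) : s.c (x * y) = s.c x * s.c y := by
  exact map_mul _ x y

theorem c_pow (x : s.O) (n : ℕ) : s.c (x ^ n) = s.c x ^ n := by
  exact map_pow _ x n

theorem c_nat (n : ℕ) : s.c n = n := by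
  exact map_natCast _ n

theorem c_int (n : ℤ) : s.c n = n := by
  exact map_intCast _ n

theorem c_one : s.c 1 = 1 := by
  exact map_one _

theorem c_ne {x : s.O} (h : x ≠ 0) : s.c x ≠ 0 := by
  intro e
  exact h (s.c_inj (e.trans (map_zero (algebraMap s.O ℂ)).symm))

theorem smul_eq (x : s.O) (z : ℂ) : x • z = s.c x * z := by
  exact Algebra.smul_def x z

theorem c_mem (x : s.O) : s.c x ∈ s.k := by
  exact (x : s.k).2

theorem au_c (σ : s.Au) (x : s.O) : σ (s.c x) = s.c x := by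
  exact σ.commutes (x : s.k)

theorem cw_sq : s.c s.w ^ 2 = s.c s.w - s.m := by
  rw [← s.c_pow, s.w_sq, s.c_sub, s.c_nat]

theorem conj_w : conj (s.c s.w) = 1 - s.c s.w := by
  have h := s.cw_sq
  have h2 := congrArg conj h
  simp only [map_pow, map_sub, map_natCast] at h2
  have hne : s.c s.w - conj (s.c s.w) ≠ 0 := by
    intro e
    have h3 := congrArg Complex.im e
    have h4 : 0 < (s.c s.w).im := s.w_im
    simp only [Complex.sub_im, Complex.conj_im, Complex.zero_im] at h3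
    linarith
  apply mul_left_cancel₀ hne
  linear_combination (-1 : ℂ) * h2 + h

theorem c1a_p_ab (a b : ℤ) : s.c (a + b * s.w) = a + b * s.c s.w := by
  rw [s.c_add, s.c_mul, s.c_int, s.c_int]

theorem exists_conj : ∃ e : s.O ≃+* s.O, e s.w = 1 - s.w ∧ ∀ x, s.c (e x) = conj (s.c x) := by
  have ex : ∀ x : s.O, ∃ y : s.O, s.c y = conj (s.c x) := by
    intro x
    obtain ⟨a, b, rfl⟩ := s.span x
    refine ⟨a + b * (1 - s.w), ?_⟩
    rw [s.c1a_p_ab, s.c_add, s.c_mul, s.c_sub, s.c_int, s.c_int, s.c_one, map_add, map_mul,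
      map_intCast, map_intCast, s.conj_w]
  choose f hf using ex
  have inv : ∀ x, f (f x) = x := fun x => s.c_inj (by rw [hf, hf, Complex.conj_conj])
  refine ⟨⟨⟨f, f, inv, inv⟩, fun x y => s.c_inj ?_, fun x y => s.c_inj ?_⟩, s.c_inj ?_, hf⟩
  · change s.c (f (x * y)) = s.c (f x * f y)
    rw [hf, s.c_mul, s.c_mul, hf, hf, map_mul]
  · change s.c (f (x + y)) = s.c (f x + f y)
    rw [hf, s.c_add, s.c_add, hf, hf, map_add]
  · change s.c (f s.w) = s.c (1 - s.w)
    rw [hf, s.conj_w, s.c_sub, s.c_one]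

theorem indep {a b : ℤ} (h : (a : s.O) + b * s.w = 0) : a = 0 ∧ b = 0 := by
  have h1 : (a : ℂ) + b * s.c s.w = 0 := by
    rw [← s.c1a_p_ab, h]
    exact map_zero _
  have h4 : 0 < (s.c s.w).im := s.w_im
  have h2 := congrArg Complex.im h1
  simp only [Complex.add_im, Complex.mul_im, Complex.intCast_im, Complex.intCast_re, zero_mul,
    add_zero, zero_add, Complex.zero_im, mul_eq_zero] at h2
  have hb : b = 0 := by
    rcases h2 with h2 | h2
    · exact_mod_cast h2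
    · exact absurd h2 h4.ne'
  subst hb
  refine ⟨?_, rfl⟩
  simpa using h1

theorem c1a_p_uniq {a b a' b' : ℤ} (h : (a : s.O) + b * s.w = a' + b' * s.w) :
    a = a' ∧ b = b' := by
  have h1 := s.indep (a := a - a') (b := b - b') (by push_cast; linear_combination h)
  omega

theorem c1a_p_basis : ∃ B : Module.Basis (Fin 2) ℤ s.O, B 0 = 1 ∧ B 1 = s.w ∧
    ∀ a b : ℤ, B.repr (a + b * s.w) 0 = a ∧ B.repr (a + b * s.w) 1 = b := by
  have li : LinearIndependent ℤ ![(1 : s.O), s.w] := by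
    rw [LinearIndependent.pair_iff]
    intro a b h
    exact s.indep (by simpa using h)
  have sp : ⊤ ≤ Submodule.span ℤ (Set.range ![(1 : s.O), s.w]) := by
    intro x _
    obtain ⟨a, b, rfl⟩ := s.span x
    have e : (a : s.O) + b * s.w = a • (1 : s.O) + b • s.w := by simp
    rw [e]
    exact add_mem (Submodule.smul_mem _ _ (Submodule.subset_span ⟨0, rfl⟩))
      (Submodule.smul_mem _ _ (Submodule.subset_span ⟨1, rfl⟩))
  have h0 : Module.Basis.mk li sp 0 = 1 := by rw [Module.Basis.mk_apply]; rfl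
  have h1 : Module.Basis.mk li sp 1 = s.w := by rw [Module.Basis.mk_apply]; rfl
  generalize Module.Basis.mk li sp = B at h0 h1
  refine ⟨B, h0, h1, fun a b => ?_⟩
  have e : (a : s.O) + b * s.w = a • B 0 + b • B 1 := by
    rw [h0, h1]; simp
  rw [e, map_add, map_smul, map_smul, B.repr_self, B.repr_self]
  simp

theorem c1a_p_mulw (a b : ℤ) :
    ((a : s.O) + b * s.w) * s.w = ((-(s.m * b) : ℤ) : s.O) + ((a + b : ℤ) : s.O) * s.w := by
  push_cast
  linear_combination (b : s.O) * s.w_sq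

theorem c1a_p_pos (a b : ℤ) : 0 ≤ a ^ 2 + a * b + s.m * b ^ 2 := by
  have h : (1 : ℤ) ≤ s.m := by exact_mod_cast s.m_pos
  nlinarith [sq_nonneg (2 * a + b), sq_nonneg b, mul_nonneg (sub_nonneg.2 h) (sq_nonneg b)]

theorem norm_ab (a b : ℤ) :
    (Ideal.absNorm (Ideal.span {(a : s.O) + b * s.w}) : ℤ) = a ^ 2 + a * b + s.m * b ^ 2 := by
  obtain ⟨B, h0, h1, hB⟩ := s.c1a_p_basis
  have e : Algebra.norm ℤ ((a : s.O) + b * s.w) = a ^ 2 + a * b + s.m * b ^ 2 := by
    rw [Algebra.norm_eq_matrix_det B, Matrix.det_fin_two]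
    simp only [Algebra.leftMulMatrix_eq_repr_mul, h0, h1, mul_one, s.c1a_p_mulw, (hB _ _).1,
      (hB _ _).2]
    ring
  rw [Ideal.absNorm_span_singleton, e, Int.natAbs_of_nonneg (s.c1a_p_pos a b)]

theorem norm_c (x : s.O) : (Ideal.absNorm (Ideal.span {x}) : ℝ) = ‖s.c x‖ ^ 2 := by
  obtain ⟨a, b, rfl⟩ := s.span x
  have h1 : ((Ideal.absNorm (Ideal.span {(a : s.O) + b * s.w}) : ℕ) : ℂ) =
      a ^ 2 + a * b + s.m * b ^ 2 := by exact_mod_cast congrArg (Int.cast : ℤ → ℂ) (s.norm_ab a b)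
  have h2 := Complex.mul_conj' (s.c (a + b * s.w))
  apply Complex.ofReal_injective
  push_cast
  rw [h1, ← h2, s.c1a_p_ab, map_add, map_mul, map_intCast, map_intCast, s.conj_w]
  linear_combination (b : ℂ) ^ 2 * s.cw_sq

theorem mem_k {x : ℂ} (h : x ∈ s.k) : ∃ (a : s.O) (n : ℕ), 0 < n ∧ n * x = s.c a := by
  obtain ⟨a, b, hb, e⟩ := IsFractionRing.div_surjective (A := s.O) (⟨x, h⟩ : s.k)
  have hb0 : b ≠ 0 := nonZeroDivisors.ne_zero hb
  obtain ⟨cj, -, hc⟩ := s.exists_conj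
  have e1 : s.c a / s.c b = x := by
    have := congrArg (fun y : s.k => (y : ℂ)) e
    exact this
  refine ⟨a * cj b, Ideal.absNorm (Ideal.span {b}), Nat.pos_of_ne_zero ?_, ?_⟩
  · rw [Ne, Ideal.absNorm_eq_zero_iff, Ideal.span_singleton_eq_bot]
    exact hb0
  · have h1 : ((Ideal.absNorm (Ideal.span {b}) : ℕ) : ℂ) = s.c b * conj (s.c b) := by
      rw [Complex.mul_conj']
      exact_mod_cast congrArg (Complex.ofReal) (s.norm_c b)
    rw [h1, s.c_mul, hc, ← e1]
    have := s.c_ne hb0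
    field_simp

theorem conj_mem_k {x : ℂ} (h : x ∈ s.k) : conj x ∈ s.k := by
  obtain ⟨a, n, hn, e⟩ := s.mem_k h
  obtain ⟨cj, -, hc⟩ := s.exists_conj
  have hn0 : (n : ℂ) ≠ 0 := by exact_mod_cast hn.ne'
  have e1 : conj x = s.c (cj a) / n := by
    rw [hc, ← e, map_mul, map_natCast, mul_div_cancel_left₀ _ hn0]
  rw [e1]
  exact div_mem (s.c_mem _) (natCast_mem _ n)

theorem norm_nat (n : ℕ) : Ideal.absNorm (Ideal.span {(n : s.O)}) = n ^ 2 := by
  have h := s.norm_ab n 0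
  simp only [Int.cast_natCast, Int.cast_zero, zero_mul, add_zero, mul_zero, ne_eq,
    OfNat.ofNat_ne_zero, not_false_eq_true, zero_pow] at h
  exact_mod_cast h

theorem c1a_p_two : 2 ≤ s.m := by
  have h1 := s.m_pos
  obtain ⟨r, h2⟩ := s.m_even
  omega

theorem unit_pm {u : s.O} (h : IsUnit u) : u = 1 ∨ u = -1 := by
  obtain ⟨a, b, rfl⟩ := s.span u
  have h1 := s.norm_ab a b
  rw [Ideal.span_singleton_eq_top.2 h, Ideal.absNorm_top] at h1
  have h2 : (2 : ℤ) ≤ s.m := by exact_mod_cast s.c1a_p_two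
  have hb : b = 0 := by
    by_contra hb
    have : 1 ≤ b ^ 2 := by have := sq_pos_of_ne_zero hb; omega
    push_cast at h1
    nlinarith [sq_nonneg (2 * a + b), mul_nonneg (sub_nonneg.2 h2) (sq_nonneg b)]
  subst hb
  have h3 : a ^ 2 = 1 := by push_cast at h1; linarith
  rcases sq_eq_one_iff.1 h3 with rfl | rfl <;> simp

theorem finrank_k : Module.finrank ℚ s.k = 2 := by
  obtain ⟨B, -⟩ := s.c1a_p_basis
  rw [← RingOfIntegers.rank, Module.finrank_eq_card_basis B, Fintype.card_fin]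

theorem discr_k : NumberField.discr s.k = -(s.dd : ℤ) := by
  obtain ⟨B, h0, h1, hB⟩ := s.c1a_p_basis
  have tr : ∀ a b : ℤ, Algebra.trace ℤ s.O ((a : s.O) + b * s.w) = 2 * a + b := by
    intro a b
    rw [Algebra.trace_eq_matrix_trace B, Matrix.trace_fin_two]
    simp only [Algebra.leftMulMatrix_eq_repr_mul, h0, h1, mul_one, s.c1a_p_mulw, (hB _ _).1,
      (hB _ _).2]
    ring
  have t1 : Algebra.trace ℤ s.O 1 = 2 := by simpa using tr 1 0
  have t2 : Algebra.trace ℤ s.O s.w = 1 := by simpa using tr 0 1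
  have t3 : Algebra.trace ℤ s.O (s.w * s.w) = 1 - 2 * s.m := by
    have e : s.w * s.w = ((-s.m : ℤ) : s.O) + ((1 : ℤ) : s.O) * s.w := by
      push_cast
      linear_combination s.w_sq
    rw [e, tr]
    ring
  have hd : (s.dd : ℤ) = 4 * s.m - 1 := by
    have := s.m_pos
    unfold dd
    omega
  rw [← NumberField.discr_eq_discr s.k B, Algebra.discr_def, Matrix.det_fin_two, hd]
  simp only [Algebra.traceMatrix_apply, Algebra.traceForm_apply, h0, h1, one_mul, mul_one, t1, t2,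
    t3]
  ring

theorem dd_mod : s.dd % 8 = 7 := by
  have h1 := s.m_pos
  obtain ⟨r, h2⟩ := s.m_even
  unfold dd
  omega

theorem dd_cast : (s.dd : ℂ) = 4 * s.m - 1 := by
  have hd : (s.dd : ℤ) = 4 * s.m - 1 := by
    have := s.m_pos
    unfold dd
    omega
  exact_mod_cast congrArg (Int.cast : ℤ → ℂ) hd

theorem sqrt_dd : 2 * s.c s.w - 1 = I * (Real.sqrt s.dd : ℝ) := by
  have h1 : ((Real.sqrt s.dd : ℝ) : ℂ) ^ 2 = s.dd := by
    rw [← Complex.ofReal_pow, Real.sq_sqrt (Nat.cast_nonneg _), Complex.ofReal_natCast]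
  have h2 : (2 * s.c s.w - 1 - I * (Real.sqrt s.dd : ℝ)) *
      (2 * s.c s.w - 1 + I * (Real.sqrt s.dd : ℝ)) = 0 := by
    have h3 := s.dd_cast
    linear_combination 4 * s.cw_sq + h1 + h3 - ((Real.sqrt s.dd : ℝ) : ℂ) ^ 2 * Complex.I_sq
  rcases mul_eq_zero.1 h2 with h | h
  · exact sub_eq_zero.1 h
  · exfalso
    have h3 := congrArg Complex.im h
    have h4 : 0 < (s.c s.w).im := s.w_im
    have h5 := Real.sqrt_nonneg (s.dd : ℝ)
    simp only [Complex.add_im, Complex.sub_im, Complex.mul_im, Complex.re_ofNat, Complex.im_ofNat,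
      Complex.one_im, Complex.I_re, Complex.I_im, Complex.ofReal_re, Complex.ofReal_im,
      Complex.zero_im] at h3
    linarith

theorem mem_p1' (a b : ℤ) : (a : s.O) + b * s.w ∈ s.p1 ↔ Even a := by
  rw [p1, Ideal.mem_span_pair]
  constructor
  · rintro ⟨u, v, e⟩
    obtain ⟨u1, u2, rfl⟩ := s.span u
    obtain ⟨v1, v2, rfl⟩ := s.span v
    obtain ⟨r, hr⟩ := s.m_even
    have hr' : (s.m : s.O) = r + r := by exact_mod_cast congrArg (Nat.cast : ℕ → s.O) hr
    have h := s.c1a_p_uniq (a := a) (b := b) (a' := (u1 - v2 * r) + (u1 - v2 * r))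
      (b' := 2 * u2 + v1 + v2) (by
        push_cast
        linear_combination (-1 : s.O) * e + (v2 : s.O) * s.w_sq - (v2 : s.O) * hr')
    exact ⟨_, h.1⟩
  · rintro ⟨r, rfl⟩
    exact ⟨r, b, by push_cast; ring⟩

theorem mem_p2' (a b : ℤ) : (a : s.O) + b * s.w ∈ s.p2 ↔ Even (a + b) := by
  rw [p2, Ideal.mem_span_pair]
  constructor
  · rintro ⟨u, v, e⟩
    obtain ⟨u1, u2, rfl⟩ := s.span u
    obtain ⟨v1, v2, rfl⟩ := s.span v
    obtain ⟨r, hr⟩ := s.m_even
    have hr' : (s.m : s.O) = r + r := by exact_mod_cast congrArg (Nat.cast : ℕ → s.O) hr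
    have h := s.c1a_p_uniq (a := a) (b := b) (a' := 2 * u1 + v1 + 2 * (v2 * r))
      (b' := 2 * u2 - v1) (by
        push_cast
        linear_combination (-1 : s.O) * e - (v2 : s.O) * s.w_sq + (v2 : s.O) * hr')
    exact ⟨u1 + u2 + v2 * r, by rw [h.1, h.2]; ring⟩
  · rintro ⟨r, hr⟩
    have hr' : (a : s.O) + b = r + r := by exact_mod_cast congrArg (Int.cast : ℤ → s.O) hr
    exact ⟨r, -b, by linear_combination (-1 : s.O) * hr'⟩

theorem c1a_p_21 : (2 : s.O) ∈ s.p1 := Ideal.subset_span (by simp)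

theorem c1a_p_22 : (2 : s.O) ∈ s.p2 := Ideal.subset_span (by simp)

theorem c1a_p_w1 : s.w ∈ s.p1 := Ideal.subset_span (by simp)

theorem c1a_p_w2 : 1 - s.w ∈ s.p2 := Ideal.subset_span (by simp)

theorem p1_mul_p2 : s.p1 * s.p2 = Ideal.span {2} := by
  obtain ⟨r, hr⟩ := s.m_even
  have hr' : (s.m : s.O) = r + r := by exact_mod_cast congrArg (Nat.cast : ℕ → s.O) hr
  apply le_antisymm
  · rw [Ideal.mul_le]
    intro x hx y hy
    obtain ⟨a, b, rfl⟩ := Ideal.mem_span_pair.1 hx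
    obtain ⟨a', b', rfl⟩ := Ideal.mem_span_pair.1 hy
    rw [Ideal.mem_span_singleton']
    exact ⟨a * a' * 2 + a * b' * (1 - s.w) + b * s.w * a' + b * b' * r, by
      linear_combination b * b' * s.w_sq - b * b' * hr'⟩
  · rw [Ideal.span_singleton_le_iff_mem]
    have e : (2 : s.O) = 2 * (1 - s.w) + s.w * 2 := by ring
    rw [e]
    exact add_mem (Ideal.mul_mem_mul s.c1a_p_21 s.c1a_p_w2)
      (Ideal.mul_mem_mul s.c1a_p_w1 s.c1a_p_22)

theorem sub_one_p1 {x : s.O} (h : x ∉ s.p1) : x - 1 ∈ s.p1 := by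
  obtain ⟨a, b, rfl⟩ := s.span x
  rw [s.mem_p1'] at h
  have e : (a : s.O) + b * s.w - 1 = ((a - 1 : ℤ) : s.O) + b * s.w := by push_cast; ring
  rw [e, s.mem_p1']
  rw [Int.even_iff] at h ⊢
  omega

theorem sub_one_p2 {x : s.O} (h : x ∉ s.p2) : x - 1 ∈ s.p2 := by
  obtain ⟨a, b, rfl⟩ := s.span x
  rw [s.mem_p2'] at h
  have e : (a : s.O) + b * s.w - 1 = ((a - 1 : ℤ) : s.O) + b * s.w := by push_cast; ring
  rw [e, s.mem_p2']
  rw [Int.even_iff] at h ⊢
  omega

theorem p1_max : s.p1.IsMaximal := by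
  rw [Ideal.isMaximal_iff]
  refine ⟨fun h => ?_, fun J x hJ hx hxJ => ?_⟩
  · have := (s.mem_p1' 1 0).1 (by simpa using h)
    simp at this
  · simpa using sub_mem hxJ (hJ (s.sub_one_p1 hx))

theorem p2_max : s.p2.IsMaximal := by
  rw [Ideal.isMaximal_iff]
  refine ⟨fun h => ?_, fun J x hJ hx hxJ => ?_⟩
  · have := (s.mem_p2' 1 0).1 (by simpa using h)
    simp at this
  · simpa using sub_mem hxJ (hJ (s.sub_one_p2 hx))

theorem p1_ne : s.p1 ≠ ⊥ := by
  intro h
  have := s.c1a_p_21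
  rw [h, Ideal.mem_bot] at this
  exact two_ne_zero this

theorem p2_ne : s.p2 ≠ ⊥ := by
  intro h
  have := s.c1a_p_22
  rw [h, Ideal.mem_bot] at this
  exact two_ne_zero this

theorem c1a_p_norms : Ideal.absNorm s.p1 = 2 ∧ Ideal.absNorm s.p2 = 2 := by
  have h : Ideal.absNorm s.p1 * Ideal.absNorm s.p2 = 4 := by
    rw [← map_mul, s.p1_mul_p2]
    exact_mod_cast s.norm_nat 2
  have h1 : Ideal.absNorm s.p1 ≠ 1 := fun e => s.p1_max.ne_top (Ideal.absNorm_eq_one_iff.1 e)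
  have h2 : Ideal.absNorm s.p2 ≠ 1 := fun e => s.p2_max.ne_top (Ideal.absNorm_eq_one_iff.1 e)
  generalize Ideal.absNorm s.p1 = x at h h1
  generalize Ideal.absNorm s.p2 = y at h h2
  have hx : x ≤ 4 := Nat.le_of_dvd (by norm_num) ⟨y, h.symm⟩
  interval_cases x <;> omega

theorem norm_p1 : Ideal.absNorm s.p1 = 2 := by
  exact s.c1a_p_norms.1

theorem norm_p2 : Ideal.absNorm s.p2 = 2 := by
  exact s.c1a_p_norms.2

theorem cop12 : IsCoprime s.p1 s.p2 := by
  rw [Ideal.isCoprime_iff_exists]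
  exact ⟨s.w, s.c1a_p_w1, 1 - s.w, s.c1a_p_w2, by ring⟩

theorem prime_two {q : Ideal s.O} (hq : q.IsPrime) (h : (2 : s.O) ∈ q) : q = s.p1 ∨ q = s.p2 := by
  have h1 : s.p1 * s.p2 ≤ q := by rwa [s.p1_mul_p2, Ideal.span_singleton_le_iff_mem]
  rcases hq.mul_le.1 h1 with h2 | h2
  · exact Or.inl (s.p1_max.eq_of_le hq.ne_top h2).symm
  · exact Or.inr (s.p2_max.eq_of_le hq.ne_top h2).symm

theorem odd_iff {f : Ideal s.O} : Odd (Ideal.absNorm f) ↔ IsCoprime f (Ideal.span {2}) := by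
  constructor
  · rintro ⟨r, hr⟩
    rw [Ideal.isCoprime_iff_exists]
    refine ⟨_, f.absNorm_mem, -r * 2, Ideal.mem_span_singleton'.2 ⟨_, rfl⟩, ?_⟩
    rw [hr]
    push_cast
    ring
  · intro h
    by_contra ho
    obtain ⟨P, hP, h1, h2⟩ := Ideal.exists_isMaximal_dvd_of_dvd_absNorm' Nat.prime_two f
      (Nat.not_odd_iff_even.1 ho).two_dvd
    have h3 : (2 : s.O) ∈ P := by
      have : ((2 : ℕ) : ℤ) ∈ P.under ℤ := by rw [h1]; exact Ideal.mem_span_singleton_self _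
      simpa [Ideal.under_def, Ideal.mem_comap] using this
    refine hP.ne_top (top_le_iff.1 ?_)
    rw [← Ideal.isCoprime_iff_sup_eq.1 h]
    exact sup_le (Ideal.le_of_dvd h2) ((Ideal.span_singleton_le_iff_mem _).2 h3)

theorem odd_ne {f : Ideal s.O} (h : Odd (Ideal.absNorm f)) : f ≠ ⊥ := by
  rintro rfl
  simp at h

theorem norm_prime {q : Ideal s.O} (hq : q.IsPrime) (h0 : q ≠ ⊥) :
    ∃ l a : ℕ, l.Prime ∧ (l : s.O) ∈ q ∧ 0 < a ∧ Ideal.absNorm q = l ^ a := by
  have := hq.isMaximal h0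
  obtain ⟨l, a, h1, h2, h3, h4⟩ := Ideal.exists_prime_and_absNorm_eq_pow q
  exact ⟨l, a, h3, h2, h1, h4⟩

end St

end Pool.Agent.P.MP_20768c_nt.Az.Cu

end

-- part Cu.K1
section

set_option autoImplicit false

open Complex NumberField IsDedekindDomain Filter Topology
open UpperHalfPlane hiding I
open scoped ComplexConjugate Real MatrixGroups

namespace Pool.Agent.P.MP_20768c_nt.Az.Cu

open Pool.Agent.P.MP_20768c_nt.Az.EQ (Lt pr sp IsLat jL qN)

variable (F : Type) [Field F] [NumberField F] {a : Ideal (𝓞 F) → ℂ} {C : ℕ} {t : ℝ}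

theorem k1_lsum (ht : 1 < t) :
    LSeriesSummable (fun n => ((Nat.card {I : Ideal (𝓞 F) // Ideal.absNorm I = n} : ℝ) : ℂ)) t := by
  refine LSeriesSummable_of_sum_norm_bigO_and_nonneg (r := 1) ?_ (fun _ => Nat.cast_nonneg _)
    zero_le_one (by simpa using ht)
  have h : Tendsto (fun n : ℕ => (∑ k ∈ Finset.Icc 1 n,
      (Nat.card {I : Ideal (𝓞 F) // Ideal.absNorm I = k} : ℝ)) / n) atTop
      (𝓝 (dedekindZeta_residue F)) := by
    refine ((Ideal.tendsto_norm_le_div_atTop₀ F).comp tendsto_natCast_atTop_atTop).congr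
      fun n => ?_
    simp only [Function.comp_apply, Nat.cast_le, ← Nat.cast_sum]
    congr
    rw [← add_left_inj 1, ← Ideal.card_norm_le_eq_card_norm_le_add_one,
      show Finset.Icc 1 n = Finset.Ioc 0 n from Finset.Icc_succ_left_eq_Ioc _ _,
      show 1 = Nat.card {I : Ideal (𝓞 F) // Ideal.absNorm I = 0} by
        simp [Ideal.absNorm_eq_zero_iff],
      Finset.sum_Ioc_add_eq_sum_Icc (n.zero_le),
      ← Finset.card_preimage_eq_sum_card_image_eq
        (fun k _ => Ideal.finite_setOfPred_absNorm_eq k)]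
    simp [Set.coe_eq_subtype]
  simp only [Real.rpow_one]
  exact Asymptotics.isBigO_of_div_tendsto_nhds
    ((eventually_ne_atTop 0).mono fun n hn h0 => (hn (by exact_mod_cast h0)).elim) _ h

theorem k1_term (ht : 1 < t) (n : ℕ) :
    LSeries.term (fun n => ((Nat.card {I : Ideal (𝓞 F) // Ideal.absNorm I = n} : ℝ) : ℂ)) t n =
      (((Nat.card {I : Ideal (𝓞 F) // Ideal.absNorm I = n} : ℝ) * (n : ℝ) ^ (-t) : ℝ) : ℂ) := by
  by_cases hn : n = 0
  · subst hn
    rw [LSeries.term_zero, Nat.cast_zero, Real.zero_rpow (by linarith), mul_zero, ofReal_zero]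
  · rw [LSeries.term_of_ne_zero hn, Real.rpow_neg (Nat.cast_nonneg n), ofReal_mul, ofReal_inv,
      Complex.ofReal_cpow (Nat.cast_nonneg n), div_eq_mul_inv, ofReal_natCast, ofReal_natCast]

theorem k1_fib (n : ℕ) : HasSum (fun J : {I : Ideal (𝓞 F) // Ideal.absNorm I = n} =>
    (Ideal.absNorm J.1 : ℝ) ^ (-t))
    ((Nat.card {I : Ideal (𝓞 F) // Ideal.absNorm I = n} : ℝ) * (n : ℝ) ^ (-t)) := by
  have : Finite {I : Ideal (𝓞 F) // Ideal.absNorm I = n} := Ideal.finite_setOfPred_absNorm_eq n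
  have := Fintype.ofFinite {I : Ideal (𝓞 F) // Ideal.absNorm I = n}
  have e : (fun J : {I : Ideal (𝓞 F) // Ideal.absNorm I = n} => (Ideal.absNorm J.1 : ℝ) ^ (-t)) =
      fun _ => (n : ℝ) ^ (-t) := funext fun J => by rw [J.2]
  rw [e, Nat.card_eq_fintype_card, ← nsmul_eq_mul, ← Finset.card_univ, ← Finset.sum_const]
  exact hasSum_fintype _

theorem k1_sumN (ht : 1 < t) : Summable fun n : ℕ =>
    (Nat.card {I : Ideal (𝓞 F) // Ideal.absNorm I = n} : ℝ) * (n : ℝ) ^ (-t) := by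
  have h := k1_lsum F ht
  rw [LSeriesSummable, funext (k1_term F ht)] at h
  exact Complex.summable_ofReal.1 h

theorem k1_sig (ht : 1 < t) : Summable fun x : Σ n, {I : Ideal (𝓞 F) // Ideal.absNorm I = n} =>
    (Ideal.absNorm x.2.1 : ℝ) ^ (-t) := by
  refine (summable_sigma_of_nonneg fun x => by positivity).2 ⟨fun n => (k1_fib F n).summable, ?_⟩
  exact (k1_sumN F ht).congr fun n => (k1_fib F n).tsum_eq.symm

theorem summable_norm (ht : 1 < t) :
    Summable fun J : Ideal (𝓞 F) => (Ideal.absNorm J : ℝ) ^ (-t) :=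
  (Equiv.sigmaFiberEquiv (Ideal.absNorm : Ideal (𝓞 F) → ℕ)).summable_iff.1 (k1_sig F ht)

theorem k1_zeta (ht : 1 < t) : DS F (fun _ => 1) t = dedekindZeta F t := by
  have h1 : ∑' J : Ideal (𝓞 F), (Ideal.absNorm J : ℝ) ^ (-t) = ∑' n : ℕ,
      (Nat.card {I : Ideal (𝓞 F) // Ideal.absNorm I = n} : ℝ) * (n : ℝ) ^ (-t) := by
    rw [← (Equiv.sigmaFiberEquiv (Ideal.absNorm : Ideal (𝓞 F) → ℕ)).tsum_eq]
    exact ((k1_sig F ht).hasSum.sigma (k1_fib F)).tsum_eq.symm
  have h2 : dedekindZeta F t = LSeries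
      (fun n => ((Nat.card {I : Ideal (𝓞 F) // Ideal.absNorm I = n} : ℝ) : ℂ)) t := by
    simp only [dedekindZeta, ofReal_natCast]
  rw [h2, LSeries, funext (k1_term F ht), ← Complex.ofReal_tsum, ← h1, Complex.ofReal_tsum, DS]
  simp only [one_mul]

theorem fin_primes (hC : C ≠ 0) :
    {Q : HeightOneSpectrum (𝓞 F) | (C : 𝓞 F) ∈ Q.asIdeal}.Finite := by
  have h : Ideal.span {(C : 𝓞 F)} ≠ 0 := by
    rw [Ne, Ideal.zero_eq_bot, Ideal.span_singleton_eq_bot]
    exact_mod_cast hC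
  exact (Ideal.finite_factors h).subset fun Q hQ => Ideal.dvd_span_singleton.2 hQ

theorem oneC_prime {q : Ideal (𝓞 F)} (hq : q.IsPrime) (h0 : q ≠ ⊥) :
    ((C : 𝓞 F) ∈ q → oneC F C q = 0) ∧ ((C : 𝓞 F) ∉ q → oneC F C q = 1) := by
  have hm := hq.isMaximal h0
  constructor
  · intro h
    refine if_neg fun hc => hq.ne_top ?_
    rw [Ideal.isCoprime_iff_sup_eq,
      sup_eq_left.2 ((Ideal.span_singleton_le_iff_mem _).2 h)] at hc
    exact hc
  · intro h
    refine if_pos (Ideal.isCoprime_iff_sup_eq.2 ?_)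
    by_contra hc
    have := hm.eq_of_le hc le_sup_left
    exact h (this ▸ Ideal.mem_sup_right (Ideal.mem_span_singleton_self _))

theorem k1_one_mul (C : ℕ) (I J : Ideal (𝓞 F)) : oneC F C (I * J) = oneC F C I * oneC F C J := by
  unfold oneC
  rw [IsCoprime.mul_left_iff]
  by_cases h1 : IsCoprime I (Ideal.span {(C : 𝓞 F)}) <;>
    by_cases h2 : IsCoprime J (Ideal.span {(C : 𝓞 F)}) <;> simp [h1, h2]

theorem mult_oneC (ha : Mult F a) (C : ℕ) : Mult F fun J => oneC F C J * a J := by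
  refine ⟨?_, fun I J hI hJ => ?_, fun I => ?_⟩
  · have : oneC F C ⊤ = 1 := if_pos (by rw [← Ideal.one_eq_top]; exact isCoprime_one_left)
    simp only [this, ha.1, one_mul]
  · simp only [k1_one_mul, ha.2.1 I J hI hJ]
    ring
  · have := ha.2.2 I
    simp only [oneC]
    split_ifs <;> simp [this]

theorem k1_mult_one : Mult F fun _ => 1 := ⟨rfl, fun _ _ _ _ => (one_mul _).symm, fun _ => by simp⟩

theorem mult_oneC' (C : ℕ) : Mult F (oneC F C) := by
  have := mult_oneC F (k1_mult_one F) C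
  simpa only [mul_one] using this

theorem k1_bound (ha : Mult F a) (J : Ideal (𝓞 F)) :
    ‖a J * (((Ideal.absNorm J : ℝ) ^ (-t) : ℝ) : ℂ)‖ ≤ (Ideal.absNorm J : ℝ) ^ (-t) := by
  rw [norm_mul, Complex.norm_real, Real.norm_of_nonneg (by positivity)]
  exact mul_le_of_le_one_left (by positivity) (ha.2.2 J)

theorem k1_summ (ha : Mult F a) (ht : 1 < t) :
    Summable fun J : Ideal (𝓞 F) => a J * (((Ideal.absNorm J : ℝ) ^ (-t) : ℝ) : ℂ) :=
  Summable.of_norm_bounded (summable_norm F ht) (k1_bound F ha)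

open Classical in
/-- remove the ideals contained in a prime of `T` -/
noncomputable def k1_cut (T : Finset (HeightOneSpectrum (𝓞 F))) (a : Ideal (𝓞 F) → ℂ)
    (J : Ideal (𝓞 F)) : ℂ := if ∃ Q ∈ T, J ≤ Q.asIdeal then 0 else a J

theorem k1_cut_mult (ha : Mult F a) (T : Finset (HeightOneSpectrum (𝓞 F))) :
    Mult F (k1_cut F T a) := by
  refine ⟨?_, fun I J hI hJ => ?_, fun I => ?_⟩
  · rw [k1_cut, if_neg, ha.1]
    rintro ⟨Q, -, h⟩
    exact Q.isPrime.ne_top (top_le_iff.1 h)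
  · have e : (∃ Q ∈ T, I * J ≤ Q.asIdeal) ↔
        (∃ Q ∈ T, I ≤ Q.asIdeal) ∨ ∃ Q ∈ T, J ≤ Q.asIdeal := by
      simp only [fun Q : HeightOneSpectrum (𝓞 F) => Q.isPrime.mul_le (I := I) (J := J),
        and_or_left, exists_or]
    unfold k1_cut
    rw [ha.2.1 I J hI hJ]
    by_cases h1 : ∃ Q ∈ T, I ≤ Q.asIdeal
    · rw [if_pos (e.2 (Or.inl h1)), if_pos h1, zero_mul]
    · by_cases h2 : ∃ Q ∈ T, J ≤ Q.asIdeal
      · rw [if_pos (e.2 (Or.inr h2)), if_pos h2, mul_zero]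
      · rw [if_neg (fun h => (e.1 h).elim h1 h2), if_neg h1, if_neg h2]
  · unfold k1_cut
    split_ifs
    · simp
    · exact ha.2.2 I

theorem k1_sieve_one (ha : Mult F a) (ht : 1 < t) (Q : HeightOneSpectrum (𝓞 F)) :
    DS F (k1_cut F {Q} a) t =
      DS F a t * (1 - a Q.asIdeal * (((Ideal.absNorm Q.asIdeal : ℝ) ^ (-t) : ℝ) : ℂ)) := by
  have hinj : Function.Injective fun J : Ideal (𝓞 F) => Q.asIdeal * J :=
    mul_right_injective₀ Q.ne_bot
  have h1 : ∑' J : Ideal (𝓞 F), (a J - k1_cut F {Q} a J) *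
      (((Ideal.absNorm J : ℝ) ^ (-t) : ℝ) : ℂ) =
      a Q.asIdeal * (((Ideal.absNorm Q.asIdeal : ℝ) ^ (-t) : ℝ) : ℂ) * DS F a t := by
    rw [← hinj.tsum_eq, DS, ← tsum_mul_left]
    · refine tsum_congr fun J => ?_
      rw [k1_cut, if_pos ⟨Q, Finset.mem_singleton_self Q, Ideal.mul_le_left⟩, sub_zero]
      by_cases hJ : J = ⊥
      · subst hJ
        rw [Ideal.mul_bot, Ideal.absNorm_bot, Nat.cast_zero, Real.zero_rpow (by linarith)]
        simp
      · rw [ha.2.1 _ _ Q.ne_bot hJ, map_mul, Nat.cast_mul,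
          Real.mul_rpow (Nat.cast_nonneg _) (Nat.cast_nonneg _), ofReal_mul]
        ring
    · intro J hJ
      by_cases h : J ≤ Q.asIdeal
      · obtain ⟨I, hI⟩ := Ideal.dvd_iff_le.2 h
        exact ⟨I, hI.symm⟩
      · refine (hJ ?_).elim
        dsimp only
        rw [k1_cut, if_neg (by simpa using h), sub_self, zero_mul]
  simp only [sub_mul] at h1
  rw [(k1_summ F ha ht).tsum_sub (k1_summ F (k1_cut_mult F ha {Q}) ht)] at h1
  change DS F a t - DS F (k1_cut F {Q} a) t = _ at h1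
  linear_combination -h1

theorem k1_sieve (ha : Mult F a) (ht : 1 < t) (T : Finset (HeightOneSpectrum (𝓞 F))) :
    DS F (k1_cut F T a) t = DS F a t *
      ∏ Q ∈ T, (1 - a Q.asIdeal * (((Ideal.absNorm Q.asIdeal : ℝ) ^ (-t) : ℝ) : ℂ)) := by
  classical
  induction T using Finset.induction_on with
  | empty =>
    rw [Finset.prod_empty, mul_one]
    exact congrArg (fun b => DS F b t) (funext fun J => if_neg (by simp))
  | insert Q T hQ ih =>
    have e : k1_cut F (insert Q T) a = k1_cut F {Q} (k1_cut F T a) := by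
      funext J
      unfold k1_cut
      by_cases h1 : J ≤ Q.asIdeal <;> by_cases h2 : ∃ Q ∈ T, J ≤ Q.asIdeal <;> simp [h1, h2]
    have e' : k1_cut F T a Q.asIdeal = a Q.asIdeal := by
      refine if_neg ?_
      rintro ⟨Q', h1, h2⟩
      exact hQ (HeightOneSpectrum.ext (Q.isMaximal.eq_of_le Q'.isPrime.ne_top h2) ▸ h1)
    rw [e, k1_sieve_one F (k1_cut_mult F ha T) ht, ih, e', Finset.prod_insert hQ]
    ring

theorem DS_sieve (ha : Mult F a) (hC : C ≠ 0) (ht : 1 < t) :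
    DS F (fun J => oneC F C J * a J) t = DS F a t *
      ∏ᶠ Q ∈ {Q : HeightOneSpectrum (𝓞 F) | (C : 𝓞 F) ∈ Q.asIdeal},
        (1 - a Q.asIdeal * (((Ideal.absNorm Q.asIdeal : ℝ) ^ (-t) : ℝ) : ℂ)) := by
  rw [finprod_mem_eq_finite_toFinset_prod _ (fin_primes F hC), ← k1_sieve F ha ht]
  refine congrArg (fun b => DS F b t) (funext fun J => ?_)
  unfold oneC k1_cut
  by_cases h : IsCoprime J (Ideal.span {(C : 𝓞 F)})
  · rw [if_pos h, one_mul, if_neg]
    rintro ⟨Q, h1, h2⟩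
    rw [Set.Finite.mem_toFinset] at h1
    refine Q.isPrime.ne_top (top_le_iff.1 ?_)
    rw [← Ideal.isCoprime_iff_sup_eq.1 h]
    exact sup_le h2 ((Ideal.span_singleton_le_iff_mem _).2 h1)
  · rw [if_neg h, zero_mul, if_pos]
    obtain ⟨M, hM, hle⟩ := Ideal.exists_le_maximal _ (mt Ideal.isCoprime_iff_sup_eq.2 h)
    have hc : (C : 𝓞 F) ∈ M := hle (Ideal.mem_sup_right (Ideal.mem_span_singleton_self _))
    refine ⟨⟨M, hM.isPrime, fun h0 => hC ?_⟩, by rwa [Set.Finite.mem_toFinset],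
      le_sup_left.trans hle⟩
    rw [h0, Ideal.mem_bot] at hc
    exact_mod_cast hc

theorem k1_two_le (Q : HeightOneSpectrum (𝓞 F)) : 1 < Ideal.absNorm Q.asIdeal := by
  have h0 : Ideal.absNorm Q.asIdeal ≠ 0 := mt Ideal.absNorm_eq_zero_iff.1 Q.ne_bot
  have h1 : Ideal.absNorm Q.asIdeal ≠ 1 := mt Ideal.absNorm_eq_one_iff.1 Q.isPrime.ne_top
  omega

theorem DS_euler (ha : Mult F a) (ht : 1 < t) :
    HasProd (fun Q : HeightOneSpectrum (𝓞 F) =>
      (1 - a Q.asIdeal * (((Ideal.absNorm Q.asIdeal : ℝ) ^ (-t) : ℝ) : ℂ))⁻¹) (DS F a t) := by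
  classical
  have h1 : Tendsto (fun T : Finset (HeightOneSpectrum (𝓞 F)) => DS F (k1_cut F T a) t) atTop
      (𝓝 (∑' J : Ideal (𝓞 F), if J = ⊤ then (1 : ℂ) else 0)) := by
    refine tendsto_tsum_of_dominated_convergence (summable_norm F ht) (fun J => ?_)
      (Eventually.of_forall fun T J => k1_bound F (k1_cut_mult F ha T) J)
    by_cases hJ : J = ⊤
    · subst hJ
      simp only [(k1_cut_mult F ha _).1, Ideal.absNorm_top, Nat.cast_one, Real.one_rpow,
        ofReal_one, mul_one, if_true]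
      exact tendsto_const_nhds
    rw [if_neg hJ]
    by_cases h0 : J = ⊥
    · subst h0
      rw [Ideal.absNorm_bot, Nat.cast_zero, Real.zero_rpow (by linarith)]
      simp only [ofReal_zero, mul_zero]
      exact tendsto_const_nhds
    obtain ⟨M, hM, hle⟩ := Ideal.exists_le_maximal J hJ
    refine tendsto_const_nhds.congr' ?_
    filter_upwards [eventually_ge_atTop
      ({⟨M, hM.isPrime, fun h => h0 (le_bot_iff.1 (h ▸ hle))⟩} :
        Finset (HeightOneSpectrum (𝓞 F)))] with T hT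
    rw [k1_cut, if_pos ⟨_, hT (Finset.mem_singleton_self _), hle⟩, zero_mul]
  rw [tsum_ite_eq] at h1
  have h2 := (tendsto_const_nhds (x := DS F a t)).div h1 one_ne_zero
  rw [div_one] at h2
  refine h2.congr' ?_
  filter_upwards [h1.eventually_ne one_ne_zero] with T hT
  rw [k1_sieve F ha ht] at hT
  rw [Pi.div_apply, k1_sieve F ha ht, Finset.prod_inv_distrib,
    div_mul_cancel_left₀ (left_ne_zero_of_mul hT)]

theorem exists_mult (b : Ideal (𝓞 F) → ℂ) (hb : ∀ J, ‖b J‖ ≤ 1) :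
    ∃ a, Mult F a ∧ ∀ q : Ideal (𝓞 F), q.IsPrime → q ≠ ⊥ → a q = b q := by
  classical
  refine ⟨fun J => ((UniqueFactorizationMonoid.normalizedFactors J).map b).prod,
    ⟨?_, fun I J hI hJ => ?_, fun I => ?_⟩, fun q hq h0 => ?_⟩
  · simp only [← Ideal.one_eq_top, UniqueFactorizationMonoid.normalizedFactors_one,
      Multiset.map_zero, Multiset.prod_zero]
  · simp only [UniqueFactorizationMonoid.normalizedFactors_mul hI hJ, Multiset.map_add,
      Multiset.prod_add]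
  · dsimp only
    induction UniqueFactorizationMonoid.normalizedFactors I using Multiset.induction_on with
    | empty => simp
    | cons x s ih =>
      rw [Multiset.map_cons, Multiset.prod_cons, norm_mul]
      exact mul_le_one₀ (hb x) (norm_nonneg _) ih
  · simp only [UniqueFactorizationMonoid.normalizedFactors_irreducible
      (Ideal.prime_of_isPrime h0 hq).irreducible, normalize_eq, Multiset.map_singleton,
      Multiset.prod_singleton]

theorem EE_pos (hC : C ≠ 0) : 0 < EE F C := by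
  rw [EE, finprod_mem_eq_finite_toFinset_prod _ (fin_primes F hC)]
  refine Finset.prod_pos fun Q _ => sub_pos.2 (inv_lt_one_of_one_lt₀ ?_)
  exact_mod_cast k1_two_le F Q

theorem zeta_res (hC : C ≠ 0) : Tendsto (fun t : ℝ => ((t : ℂ) - 1) * DS F (oneC F C) t) (𝓝[>] 1)
    (𝓝 ((dedekindZeta_residue F * EE F C : ℝ) : ℂ)) := by
  have h1 : Tendsto (fun t : ℝ => ∏ Q ∈ (fin_primes F hC).toFinset,
      (1 - (((Ideal.absNorm Q.asIdeal : ℝ) ^ (-t) : ℝ) : ℂ))) (𝓝[>] 1)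
      (𝓝 ((EE F C : ℝ) : ℂ)) := by
    rw [EE, finprod_mem_eq_finite_toFinset_prod _ (fin_primes F hC), Rat.cast_prod,
      Complex.ofReal_prod]
    refine tendsto_finsetProd _ fun Q _ => ?_
    have hQ : (Ideal.absNorm Q.asIdeal : ℝ) ≠ 0 := by
      have := k1_two_le F Q
      positivity
    have h2 : Continuous fun t : ℝ =>
        (1 - (((Ideal.absNorm Q.asIdeal : ℝ) ^ (-t) : ℝ) : ℂ)) :=
      continuous_const.sub (Complex.continuous_ofReal.comp
        ((Real.continuous_const_rpow hQ).comp continuous_neg))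
    have h3 := (h2.tendsto 1).mono_left (nhdsWithin_le_nhds (s := Set.Ioi 1))
    rw [Real.rpow_neg_one] at h3
    push_cast at h3 ⊢
    exact h3
  have h4 := (tendsto_sub_one_mul_dedekindZeta_nhdsGT F).mul h1
  rw [← ofReal_mul] at h4
  refine h4.congr' ?_
  filter_upwards [self_mem_nhdsWithin] with t ht
  have h5 := DS_sieve F (k1_mult_one F) hC ht
  simp only [mul_one, one_mul] at h5
  rw [finprod_mem_eq_finite_toFinset_prod _ (fin_primes F hC), k1_zeta F ht] at h5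
  rw [show DS F (oneC F C) t = _ from h5, mul_assoc]

end Pool.Agent.P.MP_20768c_nt.Az.Cu

end

-- part Cu.K2_p
section

set_option autoImplicit false

open Complex NumberField IsDedekindDomain Filter Topology
open UpperHalfPlane hiding I
open scoped ComplexConjugate Real MatrixGroups

namespace Pool.Agent.P.MP_20768c_nt.Az.Cu

open Pool.Agent.P.MP_20768c_nt.Az.EQ (Lt pr sp IsLat jL qN)

theorem k2_p_fin (G : Type) [CommGroup G] [Finite G] : Finite (G →* ℂˣ) := by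
  have : NeZero (Monoid.exponent G) := ⟨Monoid.exponent_ne_zero_of_finite⟩
  exact Nat.finite_of_card_ne_zero (by
    rw [CommGroup.card_monoidHom_of_hasEnoughRootsOfUnity G ℂ]; exact Nat.card_pos.ne')

open Classical in
theorem k2_p_image {G : Type} [CommGroup G] [Finite G] [Fintype (G →* ℂˣ)] (g : G) :
    Finset.univ.image (fun φ : G →* ℂˣ => (φ g : ℂ)) =
      Polynomial.nthRootsFinset (orderOf g) (1 : ℂ) := by
  have : NeZero (Monoid.exponent G) := ⟨Monoid.exponent_ne_zero_of_finite⟩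
  have hr : 0 < orderOf g := orderOf_pos g
  let e : (G →* ℂˣ) →* ℂˣ := MonoidHom.eval g
  have hd : orderOf g ∣ Nat.card e.range := by
    rw [orderOf_dvd_iff_pow_eq_one]
    by_contra hne
    obtain ⟨φ, hφ⟩ := CommGroup.exists_apply_ne_one_of_hasEnoughRootsOfUnity G ℂ hne
    have h1 : (⟨e φ, φ, rfl⟩ : e.range) ^ Nat.card e.range = 1 := pow_card_eq_one'
    exact hφ (by rw [map_pow]; exact congrArg Subtype.val h1)
  have hc : Nat.card e.range = (Finset.univ.image fun φ : G →* ℂˣ => (φ g : ℂ)).card := by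
    rw [← Nat.card_eq_finsetCard]
    refine Nat.card_congr (Equiv.ofBijective
      (fun x => ⟨((x.1 : ℂˣ) : ℂ), by
        obtain ⟨φ, hφ⟩ := x.2
        exact Finset.mem_image.2 ⟨φ, Finset.mem_univ _, congrArg Units.val hφ⟩⟩) ⟨?_, ?_⟩)
    · intro x y h
      exact Subtype.ext (Units.ext (congrArg Subtype.val h))
    · rintro ⟨y, hy⟩
      obtain ⟨φ, -, rfl⟩ := Finset.mem_image.1 hy
      exact ⟨⟨e φ, φ, rfl⟩, rfl⟩
  refine Finset.eq_of_subset_of_card_le (fun y hy => ?_) ?_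
  · obtain ⟨φ, -, rfl⟩ := Finset.mem_image.1 hy
    rw [Polynomial.mem_nthRootsFinset hr, ← Units.val_pow_eq_pow_val, ← map_pow,
      pow_orderOf_eq_one, map_one, Units.val_one]
  · rw [(Complex.isPrimitiveRoot_exp _ hr.ne').card_nthRootsFinset, ← hc]
    exact Nat.le_of_dvd Nat.card_pos hd

open Classical in
theorem k2_p_fib {G : Type} [CommGroup G] [Finite G] [Fintype (G →* ℂˣ)] (g : G) {y : ℂ}
    (hy : y ∈ Polynomial.nthRootsFinset (orderOf g) (1 : ℂ)) :
    orderOf g * (Finset.univ.filter fun φ : G →* ℂˣ => (φ g : ℂ) = y).card = Nat.card G := by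
  have : NeZero (Monoid.exponent G) := ⟨Monoid.exponent_ne_zero_of_finite⟩
  have hr : 0 < orderOf g := orderOf_pos g
  let e : (G →* ℂˣ) →* ℂ := (Units.coeHom ℂ).comp (MonoidHom.eval g)
  have hm : ∀ z ∈ Polynomial.nthRootsFinset (orderOf g) (1 : ℂ), z ∈ Set.range e := fun z hz => by
    rw [← k2_p_image] at hz
    obtain ⟨φ, -, h⟩ := Finset.mem_image.1 hz
    exact ⟨φ, h⟩
  have hf : ∀ z ∈ Polynomial.nthRootsFinset (orderOf g) (1 : ℂ),
      (Finset.univ.filter fun φ : G →* ℂˣ => (φ g : ℂ) = z).card =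
        (Finset.univ.filter fun φ : G →* ℂˣ => (φ g : ℂ) = y).card :=
    fun z hz => MonoidHom.card_fiber_eq_of_mem_range e (hm z hz) (hm y hy)
  rw [← CommGroup.card_monoidHom_of_hasEnoughRootsOfUnity G ℂ, Nat.card_eq_fintype_card,
    ← Finset.card_univ, Finset.card_eq_sum_card_image (fun φ : G →* ℂˣ => (φ g : ℂ)) Finset.univ, k2_p_image,
    Finset.sum_congr rfl hf,
    Finset.sum_const, (Complex.isPrimitiveRoot_exp _ hr.ne').card_nthRootsFinset, smul_eq_mul]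

theorem char_prod {G : Type} [CommGroup G] [Finite G] (g : G) (x : ℂ) :
    ∏ᶠ φ : G →* ℂˣ, (1 - (φ g : ℂ) * x) = (1 - x ^ orderOf g) ^ (Nat.card G / orderOf g) := by
  classical
  have := k2_p_fin G
  have := Fintype.ofFinite (G →* ℂˣ)
  have hr : 0 < orderOf g := orderOf_pos g
  have h1 := (Complex.isPrimitiveRoot_exp _ hr.ne').pow_sub_pow_eq_prod_sub_mul 1 x hr
  rw [one_pow] at h1
  rw [finprod_eq_prod_of_fintype, Finset.prod_comp (fun y : ℂ => 1 - y * x)
    (fun φ : G →* ℂˣ => (φ g : ℂ)), k2_p_image, h1, ← Finset.prod_pow]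
  refine Finset.prod_congr rfl fun y hy => ?_
  rw [← k2_p_fib g hy, Nat.mul_div_cancel_left _ hr]

theorem card_odd {G : Type} [CommGroup G] [Finite G] {τ : G} (h1 : τ ≠ 1) (h2 : τ * τ = 1) :
    2 * {φ : G →* ℂˣ | φ τ = -1}.ncard = Nat.card G := by
  classical
  have := k2_p_fin G
  have := Fintype.ofFinite (G →* ℂˣ)
  have ho : orderOf τ = 2 := orderOf_eq_prime (by rw [sq, h2]) h1
  have h := k2_p_fib τ (y := -1) (by
    rw [Polynomial.mem_nthRootsFinset (orderOf_pos τ), ho]; norm_num)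
  rw [ho] at h
  rw [← h, ← Set.ncard_coe_finset]
  congr 2
  ext φ
  rw [Finset.mem_coe, Finset.mem_filter, Set.mem_ofPred_eq, Units.ext_iff, Units.val_neg,
    Units.val_one]
  exact ⟨fun h => ⟨Finset.mem_univ _, h⟩, fun h => h.2⟩

variable {k F : Type} [Field k] [NumberField k] [Field F] [NumberField F] [Algebra k F]
  [IsGalois k F] {C : ℕ}

end Pool.Agent.P.MP_20768c_nt.Az.Cu

end

-- part Cu.K6
section

set_option autoImplicit false

open Complex NumberField IsDedekindDomain Filter Topology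
open UpperHalfPlane hiding I
open scoped ComplexConjugate Real MatrixGroups

namespace Pool.Agent.P.MP_20768c_nt.Az.Cu

open Pool.Agent.P.MP_20768c_nt.Az.EQ (Lt pr sp IsLat jL qN)

theorem k6_pi {A : Type} [CommGroup A] (h2 : ∀ a : A, a ^ 2 = 1) (γ : A →* A) (k : ℕ) (x : A) :
    (γ / MonoidHom.id A : A →* A)^[2 ^ k] x = γ^[2 ^ k] x / x := by
  induction k generalizing x with
  | zero => simp
  | succ k ih =>
    rw [pow_succ, mul_two, Function.iterate_add_apply, Function.iterate_add_apply, ih, ih,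
      iterate_map_div, div_div_div_eq, div_eq_div_iff_mul_eq_mul, ← sq, h2, mul_one, mul_assoc, ← sq,
      h2, mul_one]

def k6K {A : Type} [Group A] (p : A →* A) (i : ℕ) : Subgroup A where
  carrier := {a | p^[i] a = 1}
  one_mem' := iterate_map_one p i
  mul_mem' := fun {a b} ha hb => by
    rw [Set.mem_ofPred_eq] at ha hb ⊢
    rw [iterate_map_mul, ha, hb, mul_one]
  inv_mem' := fun {a} ha => by
    rw [Set.mem_ofPred_eq] at ha ⊢
    rw [iterate_map_inv, ha, inv_one]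

theorem k6_up {A : Type} [Group A] (p : A →* A) {i n : ℕ} (h : i ≤ n) {x : A} (hx : p^[i] x = 1) :
    p^[n] x = 1 := by
  obtain ⟨d, rfl⟩ := Nat.exists_eq_add_of_le' h
  rw [Function.iterate_add_apply, hx, iterate_map_one]

theorem k6_ker {A : Type} [Group A] (p : A →* A) {e : ℕ} (hf : {a | p^[e] a = 1}.Finite)
    (hc : {a | p^[e] a = 1}.ncard < 2 ^ e) : ∃ i < e, ∀ n x, p^[n] x = 1 → p^[i] x = 1 := by
  by_cases h : ∃ i < e, ∀ x, p^[i + 1] x = 1 → p^[i] x = 1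
  · obtain ⟨i, hi, h⟩ := h
    refine ⟨i, hi, fun n => ?_⟩
    induction n with
    | zero => exact fun x hx => k6_up p (Nat.zero_le i) hx
    | succ n ih => exact fun x hx => h x (ih (p x) hx)
  · exfalso
    have h1 : ∀ i ≤ e, 2 ^ i ≤ Nat.card (k6K p i) := by
      intro i
      induction i with
      | zero =>
        intro h0
        have : Finite (k6K p 0) := (hf.subset fun a ha => k6_up p h0 ha).to_subtype
        exact Nat.card_pos
      | succ i ih =>
        intro h0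
        have : Finite (k6K p (i + 1)) := (hf.subset fun a ha => k6_up p h0 ha).to_subtype
        have hle : k6K p i ≤ k6K p (i + 1) := fun a ha => k6_up p (Nat.le_succ i) ha
        obtain ⟨c, hc⟩ := Subgroup.card_dvd_of_le hle
        have h3 : c ≠ 0 := by
          rintro rfl
          exact Nat.card_pos.ne' hc
        have h4 : c ≠ 1 := by
          rintro rfl
          have h5 := Subgroup.eq_of_le_of_card_ge hle (by rw [hc, mul_one])
          exact h ⟨i, h0, fun x hx => (h5.ge hx : x ∈ k6K p i)⟩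
        rw [hc, pow_succ]
        exact Nat.mul_le_mul (ih (Nat.le_of_succ_le h0)) (by omega)
    exact (h1 e le_rfl).not_gt hc

theorem two_four {Q : Type} [CommGroup Q] [Finite Q] (γ : Q →* Q) {j l : ℕ}
    (h : ∀ x, γ^[2 ^ j] x = x⁻¹) (hl : l < 2 ^ j)
    (hi : (powMonoidHom 2 : Q →* Q).range.index ≤ 2 ^ l) : padicValNat 2 (Nat.card Q) ≤ l := by
  obtain ⟨H, hH⟩ : ∃ H, H = (powMonoidHom 2 : Q →* Q).range := ⟨_, rfl⟩
  have hm : ∀ x, x ∈ H ↔ ∃ y, y ^ 2 = x := fun x => by rw [hH]; rfl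
  rw [← hH] at hi
  obtain ⟨δ, hδ⟩ : ∃ δ : Q ⧸ H →* Q ⧸ H, ∀ x : Q, δ x = γ x :=
    ⟨QuotientGroup.map H H γ fun x hx => by
      obtain ⟨y, rfl⟩ := (hm x).1 hx
      exact (hm _).2 ⟨γ y, (map_pow γ y 2).symm⟩, fun _ => rfl⟩
  have h2 : ∀ b : Q ⧸ H, b ^ 2 = 1 := fun b => by
    obtain ⟨x, rfl⟩ := QuotientGroup.mk_surjective b
    exact (QuotientGroup.eq_one_iff (x ^ 2)).2 ((hm _).2 ⟨x, rfl⟩)
  have s1 : ∀ (n : ℕ) (x : Q), ((γ^[n] x : Q) : Q ⧸ H) = δ^[n] x := fun n =>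
    Function.Semiconj.iterate_right (f := fun x : Q => (x : Q ⧸ H)) (fun x => (hδ x).symm) n
  have s2 : ∀ (n : ℕ) (x : Q), (((γ / MonoidHom.id Q : Q →* Q)^[n] x : Q) : Q ⧸ H) =
      (δ / MonoidHom.id _ : Q ⧸ H →* Q ⧸ H)^[n] x := fun n =>
    Function.Semiconj.iterate_right (f := fun x : Q => (x : Q ⧸ H)) (fun x => by
      simp [hδ]) n
  have h3 : ∀ b : Q ⧸ H, (δ / MonoidHom.id _ : Q ⧸ H →* Q ⧸ H)^[2 ^ j] b = 1 := fun b => by
    obtain ⟨x, rfl⟩ := QuotientGroup.mk_surjective b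
    rw [k6_pi h2, ← s1, h, QuotientGroup.mk_inv, div_eq_mul_inv, ← sq, h2]
  obtain ⟨i, hi1, hi2⟩ := k6_ker (δ / MonoidHom.id _ : Q ⧸ H →* Q ⧸ H) (e := 2 ^ j)
    (Set.toFinite _) (by
      rw [Set.eq_univ_of_forall (s := {a | _ = 1}) h3, Set.ncard_univ]
      exact hi.trans_lt (Nat.pow_lt_pow_right one_lt_two hl))
  have h4 : ∀ (k : ℕ) (x : Q), ∃ y : Q, γ y / y = γ^[2 ^ k] x / x ∧
      (y : Q ⧸ H) = (δ / MonoidHom.id _ : Q ⧸ H →* Q ⧸ H)^[2 ^ k - 1] x := by
    intro k x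
    induction k with
    | zero => exact ⟨x, by simp, by simp⟩
    | succ k ih =>
      obtain ⟨y, e1, e2⟩ := ih
      refine ⟨γ^[2 ^ k] y * y, ?_, ?_⟩
      · rw [map_mul, mul_div_mul_comm, ← Function.iterate_succ_apply' γ,
          Function.iterate_succ_apply, ← iterate_map_div, e1, iterate_map_div, pow_succ, mul_two,
          Function.iterate_add_apply, div_mul_div_cancel]
      · have e3 : 2 ^ (k + 1) - 1 = 2 ^ k + (2 ^ k - 1) := by
          have := Nat.one_le_two_pow (n := k)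
          omega
        rw [e3, Function.iterate_add_apply, ← e2, k6_pi h2, QuotientGroup.mk_mul, s1,
          div_eq_mul_inv, inv_eq_of_mul_eq_one_right ((sq _).symm.trans (h2 _))]
  have h5 : ∀ x : Q, ∃ z, x ^ 2 = (γ / MonoidHom.id Q : Q →* Q) z ^ 2 := fun x => by
    obtain ⟨y, e1, e2⟩ := h4 j x
    rw [k6_up _ (Nat.le_sub_one_of_lt hi1) (hi2 _ _ (h3 _)), QuotientGroup.eq_one_iff, hm] at e2
    obtain ⟨z, rfl⟩ := e2
    refine ⟨z⁻¹, ?_⟩
    rw [h, map_pow, ← div_pow] at e1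
    rw [map_inv, inv_pow, MonoidHom.div_apply, MonoidHom.id_apply, e1, div_eq_mul_inv, ← sq,
      inv_pow, inv_inv]
  have h6 : ∀ (n : ℕ) (x : Q), ∃ z, x ^ 2 = (γ / MonoidHom.id Q : Q →* Q)^[n] z ^ 2 := by
    intro n x
    induction n with
    | zero => exact ⟨x, rfl⟩
    | succ n ih =>
      obtain ⟨z, e1⟩ := ih
      obtain ⟨w, e2⟩ := h5 z
      exact ⟨w, by rw [e1, ← iterate_map_pow, e2, iterate_map_pow, Function.iterate_succ_apply]⟩
  have h7 : Function.Surjective (powMonoidHom 2 : H →* H) := by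
    rintro ⟨_, hx⟩
    obtain ⟨x, rfl⟩ := (hm _).1 hx
    obtain ⟨z, e⟩ := h6 i x
    exact ⟨⟨_, (QuotientGroup.eq_one_iff _).1 ((s2 i z).trans (hi2 _ _ (h3 _)))⟩,
      Subtype.ext e.symm⟩
  have h8 : ¬ 2 ∣ Nat.card H := fun hd => by
    obtain ⟨x, hx⟩ := exists_prime_orderOf_dvd_card' 2 hd
    have h9 : x = 1 := (Finite.injective_iff_surjective.2 h7) (by
      rw [map_one, powMonoidHom_apply, ← hx, pow_orderOf_eq_one])
    rw [h9, orderOf_one] at hx
    omega
  rw [← H.index_mul_card, padicValNat.mul H.index_ne_zero_of_finite Nat.card_pos.ne',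
    padicValNat.eq_zero_of_not_dvd h8, add_zero]
  exact (Nat.pow_le_pow_iff_right one_lt_two).1
    ((Nat.le_of_dvd (Nat.pos_of_ne_zero H.index_ne_zero_of_finite) pow_padicValNat_dvd).trans hi)

theorem growth {A : Type} [CommGroup A] (h2 : ∀ a : A, a ^ 2 = 1) (γ : A →* A) {j N : ℕ} {x : A}
    (hx : γ^[2 ^ N] x = x) (hf : {a | γ^[2 ^ j] a = a}.Finite)
    (hc : {a | γ^[2 ^ j] a = a}.ncard < 2 ^ 2 ^ j) : γ^[2 ^ j] x = x := by
  have e : {a | γ^[2 ^ j] a = a} = {a | (γ / MonoidHom.id A : A →* A)^[2 ^ j] a = 1} := by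
    ext a
    rw [Set.mem_ofPred_eq, Set.mem_ofPred_eq, k6_pi h2, div_eq_one]
  rw [e] at hf hc
  obtain ⟨i, h1, h3⟩ := k6_ker _ hf hc
  have h4 := k6_up _ h1.le (h3 (2 ^ N) x (by rw [k6_pi h2, hx, div_self']))
  rwa [k6_pi h2, div_eq_one] at h4

theorem two_pow_le {κ V : Type} [Field κ] [AddCommGroup V] [Module κ V] (T : AddSubgroup V)
    [Finite T] {S : Set V} (hS : S ⊆ T) :
    2 ^ Module.finrank κ (Submodule.span κ S) ≤ Nat.card T := by
  classical
  obtain ⟨B, h1, h2, h3⟩ := exists_linearIndependent κ S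
  have : Fintype B := ((Set.toFinite (T : Set V)).subset (h1.trans hS)).fintype
  rw [← h2, finrank_span_set_eq_card h3, Set.toFinset_card, ← Fintype.card_bool, ← Fintype.card_fun,
    ← Nat.card_eq_fintype_card]
  refine Nat.card_le_card_of_injective (fun f : B → Bool =>
    (⟨∑ b : B, (if f b then (1 : κ) else 0) • (b : V), sum_mem fun b _ => ?_⟩ : T)) fun f g e => ?_
  · split_ifs
    · rw [one_smul]
      exact hS (h1 b.2)
    · rw [zero_smul]
      exact zero_mem _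
  · funext b
    have h4 := Fintype.linearIndependent_iffₛ.1 h3 _ _ (congrArg Subtype.val e) b
    cases h5 : f b <;> cases h6 : g b <;> simp_all

end Pool.Agent.P.MP_20768c_nt.Az.Cu

end

-- part Ex.XD
section

set_option autoImplicit false

open Complex NumberField IsDedekindDomain
open scoped Real

namespace Pool.Agent.P.MP_20768c_nt.Az.Cu

noncomputable section

/-- the classes on which `δ` acts as the `a`-th power modulo `l`-th powers -/
def Xe {G : Type} [CommGroup G] (δ : G →* G) (a l : ℕ) : Subgroup G :=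
  ((powMonoidHom l : G →* G).range).comap (δ / powMonoidHom a)

/-- a prime with trivial decomposition group -/
def Fre (k : Type) {F : Type} [Field k] [Field F] [Algebra k F] (Q : Ideal (𝓞 F)) : Prop :=
  ∀ g : F ≃ₐ[k] F, (∀ x : 𝓞 F, g • x ∈ Q ↔ x ∈ Q) → g = 1

/-- a system of representatives of the left cosets -/
def Tv {G J : Type} [Group G] (H : Subgroup G) (g : J → G) : Prop :=
  ∀ σ, ∃! j, (g j)⁻¹ * σ ∈ H

def xz (l : ℕ) : ℂ := cexp (2 * π * I / l)

theorem xz_prim {l : ℕ} (hl : l ≠ 0) : IsPrimitiveRoot (xz l) l :=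
  Complex.isPrimitiveRoot_exp l hl

theorem xd_prim (l : ℕ) : ∃ n, n ≠ 0 ∧ IsPrimitiveRoot (xz l) n := by
  rcases eq_or_ne l 0 with rfl | h
  · exact ⟨1, one_ne_zero, by simp [xz]⟩
  · exact ⟨l, h, xz_prim h⟩

theorem xz_int (l : ℕ) : IsIntegral ℤ (xz l) := by
  obtain ⟨n, h0, h⟩ := xd_prim l
  exact h.isIntegral (Nat.pos_of_ne_zero h0)

namespace St

variable (s : St)

def Fz (l : ℕ) : IntermediateField s.k ℂ := IntermediateField.adjoin s.k {xz l}

instance (l : ℕ) : FiniteDimensional s.k (s.Fz l) :=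
  IntermediateField.adjoin.finiteDimensional (xz_int l).tower_top

instance (l : ℕ) : NumberField (s.Fz l) := NumberField.of_module_finite s.k (s.Fz l)

instance (l : ℕ) : IsGalois s.k (s.Fz l) := by
  obtain ⟨n, h0, h⟩ := xd_prim l
  have : NeZero n := ⟨h0⟩
  have h1 : IsCyclotomicExtension {n} s.k (IntermediateField.adjoin s.k {xz l}) := by
    change IsCyclotomicExtension {n} s.k (IntermediateField.adjoin s.k {xz l}).toSubalgebra
    rw [IntermediateField.adjoin_simple_toSubalgebra_of_isAlgebraic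
      (IsIntegral.isAlgebraic (xz_int l).tower_top)]
    exact h.adjoin_isCyclotomicExtension s.k
  exact IsCyclotomicExtension.isGalois {n} s.k (IntermediateField.adjoin s.k {xz l})

/-- the automorphisms that fix the `l`-th roots of unity -/
abbrev Hz (l : ℕ) : Subgroup s.Au := MulAction.stabilizer s.Au (xz l)

/-- a character that factors through a finite extension -/
def Cts (φ : s.Au →* ℂˣ) : Prop :=
  ∃ T : Finset ℂ, (∀ x ∈ T, IsAlgebraic ℚ x) ∧ ∀ σ : s.Au, (∀ x ∈ T, σ x = x) → φ σ = 1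

def Unram (C : ℕ) (φ : s.Au →* ℂˣ) : Prop :=
  ∀ (V : ValuationSubring ℂ) (σ : s.Au), V.valuation C = 1 → Inert V.valuation σ → φ σ = 1

/-- continuous characters of order dividing `l` unramified outside `C` -/
def Chx (l C : ℕ) : Set (s.Au →* ℂˣ) := {φ | (∀ σ, φ σ ^ l = 1) ∧ s.Cts φ ∧ s.Unram C φ}

/-- a character that factors through a ray class group -/
def Ray (φ : s.Au →* ℂˣ) : Prop := ∃ m : ℕ, 0 < m ∧ ∀ σ : s.Au, s.Art m σ ⊤ → φ σ = 1

/-- modulo `m`, `u` is a primitive `l`-th root of unity at `q` and `1` at the other primes -/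
def LocR (l m : ℕ) (q : Ideal s.O) (u : s.O) : Prop :=
  ∀ V : ValuationSubring ℂ, V.valuation m < 1 →
    ((∀ x ∈ q, V.valuation (s.c x) < 1) →
      ∃ η, IsPrimitiveRoot η l ∧ V.valuation (s.c u - η) ≤ V.valuation m) ∧
    (¬ (∀ x ∈ q, V.valuation (s.c x) < 1) → V.valuation (s.c u - 1) ≤ V.valuation m)

end St

end


end Pool.Agent.P.MP_20768c_nt.Az.Cu

end

-- part Cu.K4a
section

set_option autoImplicit false

open Complex NumberField IsDedekindDomain Filter Topology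
open UpperHalfPlane hiding I
open scoped ComplexConjugate Real MatrixGroups

namespace Pool.Agent.P.MP_20768c_nt.Az.Cu

open Pool.Agent.P.MP_20768c_nt.Az.EQ (Lt pr sp IsLat jL qN)

theorem k4a_bij {G ι : Type} [CommGroup G] {τ : G} (h : ι → G)
    (hs : ∀ g, ∃ i, g = h i ∨ g = h i * τ) (hi : ∀ i j, h i = h j → i = j)
    (hi' : ∀ i j, h i ≠ h j * τ) :
    Function.Bijective (Sum.elim h fun j => h j * τ) := by
  refine ⟨?_, fun g => ?_⟩
  · rintro (i | i) (j | j) e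
    · exact congrArg _ (hi i j e)
    · exact absurd e (hi' i j)
    · exact absurd e.symm (hi' j i)
    · exact congrArg _ (hi i j (mul_right_cancel e))
  · obtain ⟨i, rfl | rfl⟩ := hs g
    · exact ⟨.inl i, rfl⟩
    · exact ⟨.inr i, rfl⟩

theorem k4a_sum {G ι : Type} [CommGroup G] [Fintype G] [Fintype ι] {τ : G} (h : ι → G)
    (hs : ∀ g, ∃ i, g = h i ∨ g = h i * τ) (hi : ∀ i j, h i = h j → i = j)
    (hi' : ∀ i j, h i ≠ h j * τ) (F : G → ℂ) (a : G) :
    ∑ g, F g = ∑ j, (F (a * h j) + F (a * h j * τ)) := by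
  rw [← Equiv.sum_comp (Equiv.mulLeft a), ← (k4a_bij h hs hi hi').sum_comp, Fintype.sum_sum_type,
    Finset.sum_add_distrib]
  simp only [Sum.elim_inl, Sum.elim_inr, Equiv.coe_mulLeft, mul_assoc]

theorem k4a_conj {G : Type} [CommGroup G] [Finite G] (φ : G →* ℂˣ) (g : G) :
    conj (φ g : ℂ) = (φ g : ℂ)⁻¹ := by
  refine (Complex.inv_eq_conj (Complex.norm_eq_one_of_pow_eq_one (n := Nat.card G) ?_
    Nat.card_pos.ne')).symm
  rw [← Units.val_pow_eq_pow_val, ← map_pow, pow_card_eq_one', map_one, Units.val_one]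

theorem ded_det {G ι : Type} [CommGroup G] [Finite G] [Fintype ι] [DecidableEq ι] {τ : G}
    (h2 : τ * τ = 1) (h : ι → G) (hs : ∀ g, ∃ i, g = h i ∨ g = h i * τ)
    (hi : ∀ i j, h i = h j → i = j) (hi' : ∀ i j, h i ≠ h j * τ) (l : G → ℝ) :
    |(Matrix.of fun i j => l (h i * h j) - l (h i * h j * τ)).det| =
      ∏ᶠ φ ∈ {φ : G →* ℂˣ | φ τ = -1}, ‖∑ᶠ g, (((φ g)⁻¹ : ℂˣ) : ℂ) * (l g : ℂ)‖ := by
  classical
  have := Fintype.ofFinite G
  obtain ⟨i0, -⟩ := hs 1
  have h1 : τ ≠ 1 := fun e => hi' i0 i0 (by rw [e, mul_one])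
  have hc := card_odd h1 h2
  rw [← Nat.card_eq_of_bijective _ (k4a_bij h hs hi hi'), Nat.card_sum, ← two_mul,
    ← Nat.card_coe_set_eq] at hc
  have hp : 0 < Nat.card ι := Nat.card_pos_iff.2 ⟨⟨i0⟩, inferInstance⟩
  have hc' := Nat.eq_of_mul_eq_mul_left two_pos hc
  have : Finite {φ : G →* ℂˣ | φ τ = -1} := Nat.finite_of_card_ne_zero (by omega)
  obtain ⟨e⟩ := Finite.card_eq.1 hc'.symm
  have hτ : ∀ k, ((e k).1 τ : ℂ) = -1 := fun k => by
    rw [show (e k).1 τ = -1 from (e k).2, Units.val_neg, Units.val_one]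
  let P : Matrix ι ι ℂ := Matrix.of fun i k => ((e k).1 (h i) : ℂ)
  let Z : ι → ℂ := fun k => ∑ g, (((e k).1 g)⁻¹ : ℂˣ) * (l g : ℂ)
  have e1 : (Complex.ofRealHom.mapMatrix
      (Matrix.of fun i j => l (h i * h j) - l (h i * h j * τ))) * (starRingEnd ℂ).mapMatrix P =
      P * Matrix.diagonal Z := by
    ext i k
    rw [Matrix.mul_diagonal, Matrix.mul_apply]
    simp only [Z, P, RingHom.mapMatrix_apply, Matrix.map_apply, Matrix.of_apply, k4a_conj]
    rw [k4a_sum h hs hi hi' _ (h i), Finset.mul_sum]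
    refine Finset.sum_congr rfl fun j _ => ?_
    simp only [map_mul, Units.val_inv_eq_inv_val, Units.val_mul, hτ, Complex.ofRealHom_eq_coe,
      Complex.ofReal_sub]
    have := ((e k).1 (h i)).ne_zero
    have := ((e k).1 (h j)).ne_zero
    field_simp
    ring
  have e2 : P.transpose * (starRingEnd ℂ).mapMatrix P =
      Matrix.diagonal fun _ => (Fintype.card ι : ℂ) := by
    ext k k'
    rw [Matrix.mul_apply, Matrix.diagonal_apply]
    simp only [P, RingHom.mapMatrix_apply, Matrix.map_apply, Matrix.of_apply, k4a_conj,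
      Matrix.transpose_apply]
    split_ifs with hk
    · subst hk
      simp
    · have h3 := sum_hom_units_eq_zero ((Units.coeHom ℂ).comp ((e k).1 / (e k').1)) fun h4 =>
        hk (e.injective (Subtype.ext (MonoidHom.ext fun g => div_eq_one.1
          (Units.ext (DFunLike.congr_fun h4 g)))))
      rw [k4a_sum h hs hi hi' _ 1] at h3
      simp only [one_mul, map_mul, MonoidHom.comp_apply, MonoidHom.div_apply, Units.coeHom_apply,
        Units.val_div_eq_div_val, hτ, mul_one, ← two_mul,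
        ← Finset.mul_sum, div_self (neg_ne_zero.2 (one_ne_zero' ℂ))] at h3
      simp only [div_eq_mul_inv] at h3
      exact (mul_eq_zero.1 h3).resolve_left two_ne_zero
  have d1 := congrArg (fun A => ‖Matrix.det A‖) e1
  have d2 := congrArg Matrix.det e2
  simp only [Matrix.det_mul, ← RingHom.map_det, Matrix.det_diagonal, norm_mul, Complex.norm_conj,
    Complex.ofRealHom_eq_coe, Complex.norm_real, Real.norm_eq_abs, norm_prod,
    Matrix.det_transpose] at d1 d2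
  have d3 : P.det ≠ 0 := fun h0 => by
    rw [h0, zero_mul] at d2
    refine Finset.prod_ne_zero_iff.2 (fun _ _ => ?_) d2.symm
    exact Nat.cast_ne_zero.2 (Fintype.card_pos_iff.2 ⟨i0⟩).ne'
  rw [mul_comm] at d1
  rw [mul_left_cancel₀ (norm_ne_zero_iff.2 d3) d1, ← finprod_set_coe_eq_finprod_mem,
    ← finprod_comp_equiv e, finprod_eq_prod_of_fintype]
  simp only [Z, finsum_eq_sum_of_fintype]

end Pool.Agent.P.MP_20768c_nt.Az.Cu

end

-- part Cu.F0a_p
section

set_option autoImplicit false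

open Complex NumberField IsDedekindDomain Filter Topology
open UpperHalfPlane hiding I
open scoped ComplexConjugate Real MatrixGroups

namespace Pool.Agent.P.MP_20768c_nt.Az.Cu

open Pool.Agent.P.MP_20768c_nt.Az.EQ (Lt pr sp IsLat jL qN)

variable (F : Type) [Field F] [NumberField F] {l C : ℕ}

open scoped nonZeroDivisors

/-- the order of a nonzero element at a prime -/
noncomputable def f0a_p_ord (Q : HeightOneSpectrum (𝓞 F)) (x : Fˣ) : ℤ :=
  FractionalIdeal.count F Q (FractionalIdeal.spanSingleton (𝓞 F)⁰ (x : F))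

theorem f0a_p_int (Q : HeightOneSpectrum (𝓞 F)) {a : 𝓞 F} (ha : a ≠ 0) :
    Q.valuation F (algebraMap (𝓞 F) F a) = WithZero.exp
      (-FractionalIdeal.count F Q (FractionalIdeal.spanSingleton (𝓞 F)⁰ (algebraMap (𝓞 F) F a))) := by
  have h : (Ideal.span {a} : Ideal (𝓞 F)) ≠ 0 := by
    rw [Ne, Ideal.zero_eq_bot, Ideal.span_singleton_eq_bot]; exact ha
  rw [← FractionalIdeal.coeIdeal_span_singleton, FractionalIdeal.count_coe F Q h,
    ← Q.intValuation_if_neg ha]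
  exact Q.valuation_of_algebraMap a

theorem f0a_p_val (Q : HeightOneSpectrum (𝓞 F)) (x : Fˣ) :
    Q.valuation F (x : F) = WithZero.exp (-f0a_p_ord F Q x) := by
  obtain ⟨a, b, hb, hab⟩ := IsFractionRing.div_surjective (A := 𝓞 F) (x : F)
  have hb0 : b ≠ 0 := nonZeroDivisors.ne_zero hb
  have ha0 : a ≠ 0 := by
    rintro rfl
    exact x.ne_zero (by rw [← hab, map_zero, zero_div])
  have inj := IsFractionRing.injective (𝓞 F) F
  have ha' : FractionalIdeal.spanSingleton (𝓞 F)⁰ (algebraMap (𝓞 F) F a) ≠ 0 :=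
    FractionalIdeal.spanSingleton_ne_zero_iff.2 ((map_ne_zero_iff _ inj).2 ha0)
  have hb' : FractionalIdeal.spanSingleton (𝓞 F)⁰ (algebraMap (𝓞 F) F b) ≠ 0 :=
    FractionalIdeal.spanSingleton_ne_zero_iff.2 ((map_ne_zero_iff _ inj).2 hb0)
  rw [f0a_p_ord, ← hab, map_div₀, f0a_p_int F Q ha0, f0a_p_int F Q hb0, div_eq_mul_inv (algebraMap _ _ a),
    ← FractionalIdeal.spanSingleton_mul_spanSingleton, ← FractionalIdeal.spanSingleton_inv,
    FractionalIdeal.count_mul F Q ha' (inv_ne_zero hb'), FractionalIdeal.count_inv,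
    ← WithZero.exp_sub]
  congr 1
  ring

theorem f0a_p_ne (x : Fˣ) : FractionalIdeal.spanSingleton (𝓞 F)⁰ (x : F) ≠ 0 :=
  FractionalIdeal.spanSingleton_ne_zero_iff.2 x.ne_zero

theorem f0a_p_ord_mul (Q : HeightOneSpectrum (𝓞 F)) (x y : Fˣ) :
    f0a_p_ord F Q (x * y) = f0a_p_ord F Q x + f0a_p_ord F Q y := by
  rw [f0a_p_ord, Units.val_mul, ← FractionalIdeal.spanSingleton_mul_spanSingleton,
    FractionalIdeal.count_mul F Q (f0a_p_ne F x) (f0a_p_ne F y)]
  rfl

theorem f0a_p_ord_one (Q : HeightOneSpectrum (𝓞 F)) : f0a_p_ord F Q 1 = 0 := by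
  have h := f0a_p_ord_mul F Q 1 1
  rw [mul_one] at h
  omega

theorem f0a_p_mem {x : Fˣ} : x ∈ Vs F l C ↔
    ∀ Q : HeightOneSpectrum (𝓞 F), (C : 𝓞 F) ∉ Q.asIdeal → (l : ℤ) ∣ f0a_p_ord F Q x := by
  refine forall₂_congr fun Q _ => ?_
  rw [f0a_p_val]
  constructor
  · rintro ⟨j, hj⟩
    exact ⟨-j, by rw [mul_neg, ← WithZero.exp_injective hj, neg_neg]⟩
  · rintro ⟨j, hj⟩
    exact ⟨-j, by rw [hj, mul_neg]⟩

theorem f0a_p_ext {A B : FractionalIdeal (𝓞 F)⁰ F} (hA : A ≠ 0) (hB : B ≠ 0)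
    (h : ∀ Q, FractionalIdeal.count F Q A = FractionalIdeal.count F Q B) : A = B := by
  rw [← FractionalIdeal.finprod_heightOneSpectrum_factorization' F hA,
    ← FractionalIdeal.finprod_heightOneSpectrum_factorization' F hB]
  exact finprod_congr fun Q => by rw [h]

/-- a fractional ideal with prescribed orders -/
theorem f0a_p_exists (e : HeightOneSpectrum (𝓞 F) → ℤ) (he : ∀ᶠ Q in cofinite, e Q = 0) :
    ∃ A : (FractionalIdeal (𝓞 F)⁰ F)ˣ, ∀ Q, FractionalIdeal.count F Q A.1 = e Q := by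
  have h0 : ∏ᶠ Q : HeightOneSpectrum (𝓞 F), (Q.asIdeal : FractionalIdeal (𝓞 F)⁰ F) ^ e Q ≠ 0 :=
    finprod_induction (fun A : FractionalIdeal (𝓞 F)⁰ F => A ≠ 0) one_ne_zero
      (fun _ _ => mul_ne_zero) fun Q => zpow_ne_zero _ (FractionalIdeal.coeIdeal_ne_zero.2 Q.ne_bot)
  exact ⟨Units.mk0 _ h0, fun Q => FractionalIdeal.count_finprod F Q e he⟩

theorem sel_le (l C : ℕ) : Un F ⊔ Pw F l ≤ Vs F l C := by
  refine sup_le ?_ ?_
  · rintro _ ⟨u, rfl⟩ Q _
    refine ⟨0, ?_⟩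
    rw [mul_zero, WithZero.exp_zero]
    exact Q.valuation_eq_one_iff_notMem.2 fun h =>
      Q.isPrime.ne_top (Ideal.eq_top_of_isUnit_mem _ h u.isUnit)
  · rintro _ ⟨y, rfl⟩ Q _
    refine ⟨-f0a_p_ord F Q y, ?_⟩
    rw [powMonoidHom_apply, Units.val_pow_eq_pow_val, map_pow, f0a_p_val, ← WithZero.exp_nsmul,
      nsmul_eq_mul]

theorem mem_Un {x : Fˣ} :
    x ∈ Un F ↔ ∀ Q : HeightOneSpectrum (𝓞 F), Q.valuation F (x : F) = 1 := by
  constructor
  · rintro ⟨u, rfl⟩ Q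
    exact Q.valuation_eq_one_iff_notMem.2 fun h =>
      Q.isPrime.ne_top (Ideal.eq_top_of_isUnit_mem _ h u.isUnit)
  · intro h
    obtain ⟨a, ha⟩ := HeightOneSpectrum.mem_integers_of_valuation_le_one (R := 𝓞 F) F (x : F)
      fun Q => (h Q).le
    obtain ⟨b, hb⟩ := HeightOneSpectrum.mem_integers_of_valuation_le_one (R := 𝓞 F) F ((x⁻¹ : Fˣ) : F)
      fun Q => by rw [Units.val_inv_eq_inv_val, map_inv₀, h Q, inv_one]
    have hab : a * b = 1 := IsFractionRing.injective (𝓞 F) F (by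
      rw [map_mul, ha, hb, map_one, Units.mul_inv])
    exact ⟨Units.mkOfMulEqOne a b hab, Units.ext ha⟩

theorem f0a_p_un {x : Fˣ} (h : ∀ Q, f0a_p_ord F Q x = 0) : x ∈ Un F :=
  (mem_Un F).2 fun Q => by rw [f0a_p_val, h, neg_zero, WithZero.exp_zero]

theorem f0a_p_ord_pow (Q : HeightOneSpectrum (𝓞 F)) (x : Fˣ) (n : ℕ) :
    f0a_p_ord F Q (x ^ n) = n * f0a_p_ord F Q x := by
  induction n with
  | zero => rw [pow_zero, f0a_p_ord_one]; simp
  | succ n ih => rw [pow_succ, f0a_p_ord_mul, ih]; push_cast; ring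

theorem f0a_p_ord_inv (Q : HeightOneSpectrum (𝓞 F)) (x : Fˣ) :
    f0a_p_ord F Q x⁻¹ = -f0a_p_ord F Q x := by
  have h := f0a_p_ord_mul F Q x⁻¹ x
  rw [inv_mul_cancel, f0a_p_ord_one] at h
  omega

theorem f0a_p_root (x : Vs F l 1) : ∃ A : (FractionalIdeal (𝓞 F)⁰ F)ˣ,
    ∀ Q, (l : ℤ) * FractionalIdeal.count F Q A.1 = f0a_p_ord F Q x.1 := by
  obtain ⟨A, hA⟩ := f0a_p_exists F (fun Q => f0a_p_ord F Q x.1 / l)
    ((FractionalIdeal.finite_factors (FractionalIdeal.spanSingleton (𝓞 F)⁰ (x.1 : F))).mono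
      fun Q hQ => by rw [f0a_p_ord, hQ, Int.zero_ediv])
  refine ⟨A, fun Q => ?_⟩
  rw [hA]
  refine Int.mul_ediv_cancel' ((f0a_p_mem F).1 x.2 Q fun h => ?_)
  rw [Nat.cast_one] at h
  exact Q.isPrime.ne_top ((Ideal.eq_top_iff_one _).2 h)

/-- the index of a subgroup that contains the kernel of a map into a finite set of values -/
theorem f0a_p_index {G H : Type} [Group G] [Group H] (φ : G →* H) (A : Subgroup G) (T : Set H)
    (hT : T.Finite) (h1 : φ.ker ≤ A) (h2 : ∀ g, φ g ∈ T) : A.index ≠ 0 ∧ A.index ≤ Nat.card T := by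
  have hf : Finite T := hT
  have hi : Function.Injective fun y : φ.range => (⟨y.1, by
      obtain ⟨g, hg⟩ := y.2
      exact hg ▸ h2 g⟩ : T) := fun y z h => Subtype.ext (congrArg (fun t : T => t.1) h)
  have hr : Finite φ.range := Finite.of_injective _ hi
  have h3 : φ.ker.index ≠ 0 := by
    rw [Subgroup.index_ker]
    exact Nat.card_pos.ne'
  have h4 := Subgroup.index_dvd_of_le h1
  refine ⟨ne_zero_of_dvd_ne_zero h3 h4, (Nat.le_of_dvd (Nat.pos_of_ne_zero h3) h4).trans ?_⟩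
  rw [Subgroup.index_ker]
  exact Nat.card_le_card_of_injective _ hi

theorem f0a_p_zero (hl : 0 < l) : (Un F ⊔ Pw F l).relIndex (Vs F l 1) ≠ 0 ∧
    (Un F ⊔ Pw F l).relIndex (Vs F l 1) ≤ Nat.card {x : ClassGroup (𝓞 F) // x ^ l = 1} := by
  choose A hA using f0a_p_root F (l := l)
  have hl' : (l : ℤ) ≠ 0 := by exact_mod_cast hl.ne'
  have hmul : ∀ x y, A (x * y) = A x * A y := fun x y => Units.ext <|
    f0a_p_ext F (Units.ne_zero _) (Units.ne_zero _) fun Q => mul_left_cancel₀ hl' (by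
      rw [Units.val_mul, FractionalIdeal.count_mul F Q (Units.ne_zero _) (Units.ne_zero _), mul_add,
        hA, hA, hA, Subgroup.coe_mul, f0a_p_ord_mul])
  refine f0a_p_index ((ClassGroup.mk F).comp (MonoidHom.mk' A hmul)) _ {x | x ^ l = 1}
    (Set.toFinite _) (fun x hx => ?_) fun x => ?_
  · have hx' : ClassGroup.mk F (A x) = 1 := hx
    obtain ⟨y, hy⟩ := (FractionalIdeal.isPrincipal_iff _).1 (ClassGroup.mk_eq_one_iff.1 hx')
    have hy0 : y ≠ 0 := by
      rintro rfl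
      exact (A x).ne_zero (by rw [hy, FractionalIdeal.spanSingleton_zero])
    have hu : x.1 * (Units.mk0 y hy0 ^ l)⁻¹ ∈ Un F := f0a_p_un F fun Q => by
      rw [f0a_p_ord_mul, f0a_p_ord_inv, f0a_p_ord_pow, ← hA, hy]
      exact add_neg_cancel _
    rw [Subgroup.mem_subgroupOf, ← inv_mul_cancel_right x.1 (Units.mk0 y hy0 ^ l)]
    exact Subgroup.mul_mem_sup hu ⟨_, rfl⟩
  · change ClassGroup.mk F (A x) ^ l = 1
    rw [← map_pow, ClassGroup.mk_eq_one_iff, FractionalIdeal.isPrincipal_iff]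
    refine ⟨(x.1 : F), f0a_p_ext F (Units.ne_zero _) (f0a_p_ne F _) fun Q => ?_⟩
    rw [Units.val_pow_eq_pow_val, FractionalIdeal.count_pow, hA]
    rfl

theorem f0a_p_loc (hl : 0 < l) (hC : C ≠ 0) : (Vs F l 1).relIndex (Vs F l C) ≠ 0 ∧
    (Vs F l 1).relIndex (Vs F l C) ≤ l ^ nP F C := by
  have : NeZero l := ⟨hl.ne'⟩
  have hf : Finite {Q : HeightOneSpectrum (𝓞 F) | (C : 𝓞 F) ∈ Q.asIdeal} := fin_primes F hC
  let φ : Vs F l C →* Multiplicative
      ({Q : HeightOneSpectrum (𝓞 F) | (C : 𝓞 F) ∈ Q.asIdeal} → ZMod l) :=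
    MonoidHom.mk' (fun x => Multiplicative.ofAdd fun Q => (f0a_p_ord F Q.1 x.1 : ZMod l))
      fun x y => by
        rw [← ofAdd_add]
        congr 1
        funext Q
        rw [Subgroup.coe_mul, f0a_p_ord_mul, Int.cast_add, Pi.add_apply]
  have h := f0a_p_index φ ((Vs F l 1).subgroupOf (Vs F l C)) Set.univ (Set.toFinite _)
    (fun x hx => by
      rw [Subgroup.mem_subgroupOf, f0a_p_mem]
      intro Q _
      by_cases hQ : (C : 𝓞 F) ∈ Q.asIdeal
      · exact (ZMod.intCast_zmod_eq_zero_iff_dvd _ _).1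
          (congrFun (congrArg Multiplicative.toAdd (MonoidHom.mem_ker.1 hx)) ⟨Q, hQ⟩)
      · exact (f0a_p_mem F).1 x.2 Q hQ) fun _ => trivial
  rw [Nat.card_univ, Nat.card_congr Multiplicative.toAdd, Nat.card_fun, Nat.card_zmod,
    Nat.card_coe_set_eq] at h
  exact h

theorem selA (hl : 0 < l) (hC : C ≠ 0) : (Un F ⊔ Pw F l).relIndex (Vs F l C) ≠ 0 ∧
    (Un F ⊔ Pw F l).relIndex (Vs F l C) ≤
      l ^ nP F C * Nat.card {x : ClassGroup (𝓞 F) // x ^ l = 1} := by
  have h1 : Vs F l 1 ≤ Vs F l C := fun x hx Q _ => hx Q fun h => by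
    rw [Nat.cast_one] at h
    exact Q.isPrime.ne_top ((Ideal.eq_top_iff_one _).2 h)
  obtain ⟨a1, a2⟩ := f0a_p_zero F hl
  obtain ⟨b1, b2⟩ := f0a_p_loc F hl hC
  rw [← Subgroup.relIndex_mul_relIndex _ _ _ (sel_le F l 1) h1, mul_comm]
  exact ⟨mul_ne_zero b1 a1, Nat.mul_le_mul b2 a2⟩

theorem cl_two :
    Nat.card {x : ClassGroup (𝓞 F) // x ^ 2 = 1} ≤ 2 ^ padicValNat 2 (classNumber F) := by
  have : Fact (Nat.Prime 2) := ⟨Nat.prime_two⟩
  have hp : IsPGroup 2 (powMonoidHom 2 : ClassGroup (𝓞 F) →* ClassGroup (𝓞 F)).ker :=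
    fun x => ⟨1, Subtype.ext x.2⟩
  obtain ⟨n, hn⟩ := IsPGroup.iff_card.1 hp
  have hd := Subgroup.card_subgroup_dvd_card
    (powMonoidHom 2 : ClassGroup (𝓞 F) →* ClassGroup (𝓞 F)).ker
  have e : Nat.card (ClassGroup (𝓞 F)) = classNumber F := Nat.card_eq_fintype_card
  rw [hn, e] at hd
  change Nat.card (powMonoidHom 2 : ClassGroup (𝓞 F) →* ClassGroup (𝓞 F)).ker ≤ _
  rw [hn]
  exact Nat.pow_le_pow_right two_pos ((padicValNat_dvd_iff_le (classNumber_ne_zero F)).1 hd)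

end Pool.Agent.P.MP_20768c_nt.Az.Cu

end

-- part Cu.K2
section

set_option autoImplicit false

open Complex NumberField IsDedekindDomain Filter Topology
open UpperHalfPlane hiding I
open scoped ComplexConjugate Real MatrixGroups

namespace Pool.Agent.P.MP_20768c_nt.Az.Cu

open Pool.Agent.P.MP_20768c_nt.Az.EQ (Lt pr sp IsLat jL qN)

variable {k F : Type} [Field k] [NumberField k] [Field F] [NumberField F] [Algebra k F]
  [IsGalois k F] {C : ℕ}

omit [IsGalois k F] in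
theorem k2_key (hU : Unr k F C) {q : Ideal (𝓞 k)} [hq : q.IsPrime] (h0 : q ≠ ⊥)
    (hC : (C : 𝓞 k) ∉ q) {g : F ≃ₐ[k] F} {Q : Ideal (𝓞 F)} [hQ : Q.IsPrime] [Q.LiesOver q]
    (hg : FrobAt g Q) :
    Q.inertia (F ≃ₐ[k] F) = ⊥ ∧ orderOf g = Q.inertiaDeg (𝓞 k) := by
  have hC' : (C : 𝓞 F) ∉ Q := fun h => hC (by
    rw [Q.over_def q, Ideal.under_def, Ideal.mem_comap, map_natCast]; exact h)
  have hI : ∀ σ : F ≃ₐ[k] F, (∀ x : 𝓞 F, σ • x - x ∈ Q) → σ = 1 := fun σ h =>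
    hU Q hQ hC' σ fun x y e => by
      have : y = σ • x := RingOfIntegers.ext e
      rw [this]; exact h x
  refine ⟨eq_bot_iff.2 fun σ h => hI σ h, ?_⟩
  have := hq.isMaximal h0
  have := Ideal.IsMaximal.of_liesOver_isMaximal Q q
  let := Ideal.Quotient.field q
  let := Ideal.Quotient.field Q
  have : Finite (𝓞 k ⧸ q) := Ideal.finiteQuotientOfFreeOfNeBot q h0
  let := Fintype.ofFinite (𝓞 k ⧸ q)
  have : Finite (𝓞 F ⧸ Q) := Ideal.finiteQuotientOfFreeOfNeBot Q (Ideal.ne_bot_of_liesOver_of_ne_bot h0 Q)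
  rw [Ideal.inertiaDeg_eq_of_isMaximal q Q, ← FiniteField.orderOf_frobeniusAlgHom,
    orderOf_eq_orderOf_iff]
  have h1 : ∀ (n : ℕ) (x : 𝓞 F), Ideal.Quotient.mk Q (g ^ n • x) =
      (FiniteField.frobeniusAlgHom (𝓞 k ⧸ q) (𝓞 F ⧸ Q) ^ n) (Ideal.Quotient.mk Q x) := by
    intro n x
    induction n with
    | zero => simp
    | succ n ih =>
      have h2 := Ideal.Quotient.eq.2 (hg (g ^ n • x) (g • g ^ n • x) rfl)
      rw [pow_succ', pow_succ', mul_smul, AlgHom.mul_apply, ← ih, h2, map_pow, ← Q.over_def q,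
        FiniteField.coe_frobeniusAlgHom, Ideal.absNorm_apply, Submodule.cardQuot_apply,
        Nat.card_eq_fintype_card]
  intro n
  constructor
  · intro h
    refine AlgHom.ext fun x => ?_
    obtain ⟨x, rfl⟩ := Ideal.Quotient.mk_surjective x
    rw [← h1, h, one_smul, AlgHom.one_apply]
  · intro h
    exact hI _ fun x => Ideal.Quotient.eq.1 (by rw [h1, h, AlgHom.one_apply])

theorem primes_over (hU : Unr k F C) {q : Ideal (𝓞 k)} (hq : q.IsPrime) (h0 : q ≠ ⊥)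
    (hC : (C : 𝓞 k) ∉ q) {g : F ≃ₐ[k] F}
    (hg : ∀ Q : Ideal (𝓞 F), Q.IsPrime → Q.under (𝓞 k) = q → FrobAt g Q) :
    {Q : Ideal (𝓞 F) | Q.IsPrime ∧ Q.under (𝓞 k) = q}.ncard =
        Nat.card (F ≃ₐ[k] F) / orderOf g ∧
      ∀ Q : Ideal (𝓞 F), Q.IsPrime → Q.under (𝓞 k) = q →
        Ideal.absNorm Q = Ideal.absNorm q ^ orderOf g := by
  have := hq.isMaximal h0
  have : Finite (𝓞 k ⧸ q) := Ideal.finiteQuotientOfFreeOfNeBot q h0
  constructor
  · obtain ⟨Q, hQ, hl⟩ := Ideal.nonempty_primesOver (S := 𝓞 F) q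
    obtain ⟨h1, h2⟩ := k2_key hU h0 hC (hg Q hQ (Q.over_def q).symm)
    have h3 := Ideal.ncard_primesOver_mul_card_inertia_mul_finrank (G := F ≃ₐ[k] F) q Q
    rw [h1, Subgroup.card_bot, mul_one, ← h2] at h3
    rw [← h3, Nat.mul_div_cancel _ (orderOf_pos g)]
    congr 1
    ext P
    exact and_congr_right fun _ => by rw [Ideal.liesOver_iff, eq_comm]
  · intro Q hQ e
    have : Q.LiesOver q := ⟨e.symm⟩
    rw [(k2_key hU h0 hC (hg Q hQ e)).2, Ideal.absNorm_pow_inertiaDeg]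

theorem zeta_fac (hc : ∀ g h : F ≃ₐ[k] F, g * h = h * g) (hU : Unr k F C)
    (Fr : Ideal (𝓞 k) → F ≃ₐ[k] F) (hFr : ∀ Q : Ideal (𝓞 F), Q.IsPrime → Q ≠ ⊥ →
      (C : 𝓞 F) ∉ Q → FrobAt (Fr (Q.under (𝓞 k))) Q)
    (a : ((F ≃ₐ[k] F) →* ℂˣ) → Ideal (𝓞 k) → ℂ) (ha : ∀ φ, Mult k (a φ))
    (hq : ∀ φ (q : Ideal (𝓞 k)), q.IsPrime → q ≠ ⊥ →
      ((C : 𝓞 k) ∈ q → a φ q = 0) ∧ ((C : 𝓞 k) ∉ q → a φ q = φ (Fr q))) {t : ℝ} (ht : 1 < t) :
    DS F (oneC F C) t = ∏ᶠ φ, DS k (a φ) t := by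
  have : Finite ((F ≃ₐ[k] F) →* ℂˣ) := inferInstance
  let := Fintype.ofFinite ((F ≃ₐ[k] F) →* ℂˣ)
  rw [finprod_eq_prod_of_fintype]
  refine HasProd.unique (((Equiv.sigmaFiberEquiv fun Q : HeightOneSpectrum (𝓞 F) =>
    Q.under (𝓞 k)).hasProd_iff.2 (DS_euler F (mult_oneC' F C) ht)).sigma fun q => ?_)
    (hasProd_prod fun φ _ => DS_euler k (ha φ) ht)
  have hu : ∀ Q : HeightOneSpectrum (𝓞 F), Q.under (𝓞 k) = q →
      ((C : 𝓞 F) ∈ Q.asIdeal ↔ (C : 𝓞 k) ∈ q.asIdeal) := by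
    rintro Q rfl
    rw [HeightOneSpectrum.under_asIdeal, Ideal.under_def, Ideal.mem_comap, map_natCast]
  by_cases hC : (C : 𝓞 k) ∈ q.asIdeal
  · rw [Finset.prod_eq_one fun φ _ => by
      rw [(hq φ _ q.isPrime q.ne_bot).1 hC, zero_mul, sub_zero, inv_one]]
    convert hasProd_one using 2 with Q
    simp only [Function.comp_apply, Equiv.sigmaFiberEquiv_apply]
    rw [(oneC_prime F Q.1.isPrime Q.1.ne_bot).1 ((hu _ Q.2).2 hC), zero_mul, sub_zero, inv_one]
  have hn : ∀ Q : Ideal (𝓞 F), Q.under (𝓞 k) = q.asIdeal → Q ≠ ⊥ := by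
    rintro Q e rfl
    exact q.ne_bot (by rw [← e, Ideal.under_bot])
  obtain ⟨h1, h2⟩ := primes_over hU q.isPrime q.ne_bot hC (g := Fr q.asIdeal) fun Q hQ e => by
    rw [← e]
    exact hFr Q hQ (hn Q e) fun h => hC (by
      rw [← e, Ideal.under_def, Ideal.mem_comap, map_natCast]; exact h)
  have h3 : Nat.card {Q : HeightOneSpectrum (𝓞 F) // Q.under (𝓞 k) = q} =
      Nat.card (F ≃ₐ[k] F) / orderOf (Fr q.asIdeal) := by
    rw [← h1, ← Nat.card_coe_set_eq]
    exact Nat.card_congr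
      ⟨fun Q => ⟨Q.1.asIdeal, Q.1.isPrime, congrArg HeightOneSpectrum.asIdeal Q.2⟩,
        fun Q => ⟨⟨Q.1, Q.2.1, hn _ Q.2.2⟩, HeightOneSpectrum.ext Q.2.2⟩,
        fun _ => rfl, fun _ => rfl⟩
  have := Nat.finite_of_card_ne_zero (h3.trans_ne (Nat.div_pos
    (Nat.le_of_dvd Nat.card_pos (orderOf_dvd_natCard _)) (orderOf_pos _)).ne')
  let := Fintype.ofFinite {Q : HeightOneSpectrum (𝓞 F) // Q.under (𝓞 k) = q}
  have h4 := @char_prod (F ≃ₐ[k] F) { (inferInstance : Group (F ≃ₐ[k] F)) with mul_comm := hc } _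
    (Fr q.asIdeal) (((Ideal.absNorm q.asIdeal : ℝ) ^ (-t) : ℝ) : ℂ)
  rw [finprod_eq_prod_of_fintype] at h4
  convert hasProd_fintype _ using 1
  rw [Finset.prod_congr rfl fun φ _ => by rw [(hq φ _ q.isPrime q.ne_bot).2 hC],
    Finset.prod_inv_distrib, h4, ← h3, Nat.card_eq_fintype_card, ← inv_pow, ← Finset.card_univ,
    ← Finset.prod_const]
  refine Finset.prod_congr rfl fun Q _ => ?_
  simp only [Function.comp_apply, Equiv.sigmaFiberEquiv_apply]
  rw [(oneC_prime F Q.1.isPrime Q.1.ne_bot).2 (mt (hu _ Q.2).1 hC), one_mul,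
    h2 _ Q.1.isPrime (congrArg HeightOneSpectrum.asIdeal Q.2), Nat.cast_pow,
    ← Real.rpow_pow_comm (Nat.cast_nonneg _), Complex.ofReal_pow]

end Pool.Agent.P.MP_20768c_nt.Az.Cu

end

-- part Cu.C1a
section

set_option autoImplicit false

open Complex NumberField IsDedekindDomain Filter Topology
open UpperHalfPlane hiding I
open scoped ComplexConjugate Real MatrixGroups

namespace Pool.Agent.P.MP_20768c_nt.Az.Cu

open Pool.Agent.P.MP_20768c_nt.Az.EQ (Lt pr sp IsLat jL qN)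

namespace St

variable (s : St) {Γ : Type} [LinearOrderedCommGroupWithZero Γ]

theorem v_int (v : Valuation ℂ Γ) {x : ℂ} (h : IsIntegral ℤ x) : v x ≤ 1 := by
  exact (Valuation.integer.integers v).mem_of_integral (h.tower_top (A := v.integer))

theorem c1a_int (v : Valuation ℂ Γ) (n : ℤ) : v n ≤ 1 := v_int v (isIntegral_algebraMap (x := n))

theorem c1a_lt (v : Valuation ℂ Γ) {x y : ℂ} (hx : v x < 1) (hy : v y ≤ 1) : v (x * y) < 1 := by
  rw [map_mul]
  exact (mul_le_of_le_one_right' hy).trans_lt hx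

theorem v_c (v : Valuation ℂ Γ) (x : s.O) : v (s.c x) ≤ 1 := by
  exact v_int v (map_isIntegral_int (algebraMap s.O ℂ) (RingOfIntegers.isIntegral x))

theorem v_root (v : Valuation ℂ Γ) {x : ℂ} {n : ℕ} (hn : 0 < n) (h : x ^ n = 1) : v x = 1 := by
  have h1 : v x ^ n = 1 := by rw [← map_pow, h, map_one]
  exact (pow_eq_one_iff.1 h1).resolve_right hn.ne'

theorem v_odd (v : Valuation ℂ Γ) (h2 : v 2 < 1) {n : ℤ} (h : Odd n) : v n = 1 := by
  obtain ⟨k, rfl⟩ := h
  push_cast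
  rw [add_comm]
  exact v.map_one_add_of_lt (c1a_lt v h2 (c1a_int v k))

theorem c1a_par (v : Valuation ℂ Γ) (h2 : v 2 < 1) {y : ℂ} (hy : v y < 1) (a : ℤ) :
    v (a + y) < 1 ↔ Even a := by
  rcases Int.even_or_odd a with h | h
  · refine ⟨fun _ => h, fun _ => v.map_add_lt ?_ hy⟩
    obtain ⟨k, rfl⟩ := h
    push_cast
    rw [← two_mul]
    exact c1a_lt v h2 (c1a_int v k)
  · have h1 := v_odd v h2 h
    rw [v.map_add_eq_of_lt_left (h1.symm ▸ hy), h1]
    exact ⟨fun h3 => absurd h3 (lt_irrefl _), fun h3 => absurd h3 (Int.not_even_iff_odd.2 h)⟩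

theorem c1a_nat (v : Valuation ℂ Γ) (h2 : v 2 < 1) (n : ℕ) (hn : n ≠ 0) :
    v n = v 2 ^ padicValNat 2 n := by
  obtain ⟨k, m, hm, rfl⟩ := Nat.exists_eq_two_pow_mul_odd hn
  have h1 : v m = 1 := v_odd v h2 (n := m) (by exact_mod_cast hm)
  rw [padicValNat.mul (by positivity) hm.pos.ne', padicValNat.prime_pow,
    padicValNat.eq_zero_of_not_dvd hm.not_two_dvd_nat, add_zero, Nat.cast_mul, map_mul, h1, mul_one,
    Nat.cast_pow, map_pow, Nat.cast_ofNat]

theorem c1a_div (v : Valuation ℂ Γ) (h2 : v 2 < 1) : ∃ u : s.O, v (s.c u) = 1 ∧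
    ∀ a, v (s.c a) < 1 → ∃ a', s.c u * s.c a = 2 * s.c a' := by
  obtain ⟨m, hm⟩ := s.m_even
  have hw := s.cw_sq
  rw [hm] at hw
  push_cast at hw
  have hc : ∀ x y : ℤ, s.c (x + y * s.w) = x + y * s.c s.w := fun x y => by
    rw [s.c_add, s.c_mul, s.c_int, s.c_int]
  rcases (s.v_c v s.w).eq_or_lt with h | h
  · have h1 : v (1 - s.c s.w) < 1 := by
      have e : s.c s.w * (1 - s.c s.w) = 2 * (m : ℤ) := by
        push_cast
        linear_combination -hw
      have h3 := c1a_lt v h2 (c1a_int v m)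
      rwa [← e, map_mul, h, one_mul] at h3
    refine ⟨s.w, h, fun a ha => ?_⟩
    obtain ⟨x, y, rfl⟩ := s.span a
    have e : s.c (x + y * s.w) = (x + y : ℤ) + (1 - s.c s.w) * (-y : ℤ) := by
      rw [hc]
      push_cast
      ring
    obtain ⟨k, hk⟩ := (c1a_par v h2 (c1a_lt v h1 (c1a_int v (-y))) (x + y)).1 (e ▸ ha)
    have hk' : (x : ℂ) + y = k + k := by exact_mod_cast hk
    refine ⟨(-(y * m) : ℤ) + k * s.w, ?_⟩
    rw [hc, hc]
    push_cast
    linear_combination s.c s.w * hk' + y * hw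
  · refine ⟨1 - s.w, by rw [s.c_sub, s.c_one]; exact v.map_one_sub_of_lt h, fun a ha => ?_⟩
    obtain ⟨x, y, rfl⟩ := s.span a
    rw [hc, mul_comm] at ha
    obtain ⟨k, rfl⟩ := (c1a_par v h2 (c1a_lt v h (c1a_int v y)) x).1 ha
    refine ⟨(k + y * m : ℤ) + (-k : ℤ) * s.w, ?_⟩
    rw [hc, hc, s.c_sub, s.c_one]
    push_cast
    linear_combination -y * hw

theorem root_inj (v : Valuation ℂ Γ) {x y : ℂ} {n : ℕ} (hn : v n = 1) (hx : x ^ n = 1)
    (hy : y ^ n = 1) (h : v (x - y) < 1) : x = y := by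
  have h0 : n ≠ 0 := fun h1 => by
    rw [h1, Nat.cast_zero, map_zero] at hn
    exact zero_ne_one hn
  have hy0 : y ≠ 0 := fun h1 => by
    rw [h1, zero_pow h0] at hy
    exact zero_ne_one hy
  have hvy := v_root v (Nat.pos_of_ne_zero h0) hy
  have hu : (x / y) ^ n = 1 := by rw [div_pow, hx, hy, div_one]
  have hvu := v_root v (Nat.pos_of_ne_zero h0) hu
  have h1 : v (x / y - 1) < 1 := by
    rwa [div_sub_one hy0, map_div₀, hvy, div_one]
  have h2 : ∀ i : ℕ, v ((x / y) ^ i - 1) < 1 := fun i => by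
    induction i with
    | zero => rw [pow_zero, sub_self, map_zero]; exact zero_lt_one
    | succ i ih =>
      have e : (x / y) ^ (i + 1) - 1 = ((x / y) ^ i - 1) * (x / y) + (x / y - 1) := by ring
      rw [e]
      exact v.map_add_lt (by rwa [map_mul, hvu, mul_one]) h1
  by_contra hne
  have h3 : ∑ i ∈ Finset.range n, (x / y) ^ i = 0 := by
    rw [geom_sum_eq fun h4 => hne ((div_eq_one_iff_eq hy0).1 h4), hu, sub_self, zero_div]
  have h4 := v.map_sum_lt (s := Finset.range n) one_ne_zero fun i _ => h2 i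
  rw [Finset.sum_sub_distrib, h3, Finset.sum_const, Finset.card_range, nsmul_one, zero_sub,
    v.map_neg, hn] at h4
  exact lt_irrefl _ h4

theorem v_two : s.v 2 < 1 := by
  have h2 : ‖s.ι 2‖ < 1 := by
    rw [map_ofNat, ← map_ofNat (algebraMap ℚ_[2] ℂ_[2]), norm_algebraMap']
    exact Padic.norm_p_lt_one (p := 2)
  exact h2

theorem v_w : s.v (s.c s.w) < 1 := by
  exact s.ι_w

theorem v_wb : s.v (1 - s.c s.w) = 1 := by
  exact s.v.map_one_sub_of_lt s.v_w

theorem v_eq (x : ℂ) : (s.v x : ℝ) = ‖s.ι x‖ := by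
  rfl

theorem mem_p1 (x : s.O) : x ∈ s.p1 ↔ s.v (s.c x) < 1 := by
  obtain ⟨a, b, rfl⟩ := s.span x
  rw [s.mem_p1', s.c_add, s.c_mul, s.c_int, s.c_int, mul_comm]
  exact (c1a_par s.v s.v_two (c1a_lt s.v s.v_w (c1a_int s.v b)) a).symm

theorem v_k_den {x : ℂ} (hx : x ∈ s.k) (h : s.v x ≤ 1) :
    ∃ a β : s.O, s.v (s.c β) = 1 ∧ s.c β * x = s.c a := by
  obtain ⟨u, hu, hd⟩ := s.c1a_div s.v s.v_two
  have key : ∀ (k : ℕ) (a β : s.O), s.v (s.c β) = 1 → 2 ^ k * (s.c β * x) = s.c a →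
      ∃ a β : s.O, s.v (s.c β) = 1 ∧ s.c β * x = s.c a := by
    intro k
    induction k with
    | zero => exact fun a β h1 h2 => ⟨a, β, h1, by rwa [pow_zero, one_mul] at h2⟩
    | succ k ih =>
      intro a β h1 h2
      obtain ⟨a', e⟩ := hd a (by
        rw [← h2, pow_succ', mul_assoc]
        refine c1a_lt s.v s.v_two ?_
        rw [map_mul, map_mul, map_pow, h1, one_mul]
        exact mul_le_one' (pow_le_one' s.v_two.le k) h)
      refine ih a' (u * β) (by rw [s.c_mul, map_mul, hu, h1, one_mul]) ?_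
      rw [s.c_mul]
      linear_combination (s.c u / 2) * h2 + e / 2
  obtain ⟨a, n, hn, e⟩ := s.mem_k hx
  obtain ⟨k, m, hm, rfl⟩ := Nat.exists_eq_two_pow_mul_odd hn.ne'
  refine key k a m ?_ ?_
  · rw [s.c_nat]
    exact v_odd s.v s.v_two (n := m) (by exact_mod_cast hm)
  · rw [s.c_nat, ← e]
    push_cast
    ring

theorem v_k_one {x : ℂ} (hx : x ∈ s.k) (h : s.v x = 1) : s.v (x - 1) < 1 := by
  obtain ⟨a, β, h1, e⟩ := s.v_k_den hx h.le
  have h2 : s.v (s.c a) = 1 := by rw [← e, map_mul, h1, h, one_mul]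
  have h3 := (s.mem_p1 _).1 (sub_mem (s.sub_one_p1 fun h4 => ((s.mem_p1 a).1 h4).ne h2)
    (s.sub_one_p1 fun h4 => ((s.mem_p1 β).1 h4).ne h1))
  rwa [sub_sub_sub_cancel_right, s.c_sub, ← e, ← mul_sub_one, map_mul, h1, one_mul] at h3

theorem v_k_val (v : Valuation ℂ Γ) (h2 : v 2 < 1) {x : ℂ} (hx : x ∈ s.k) (h0 : x ≠ 0) :
    ∃ j : ℤ, v x = v 2 ^ j := by
  obtain ⟨u, hu, hd⟩ := s.c1a_div v h2
  have h20 : v 2 ≠ 0 := (v.ne_zero_iff).2 two_ne_zero
  have key : ∀ (k : ℕ) (a : s.O), v 2 ^ k ≤ v (s.c a) → ∃ j : ℕ, v (s.c a) = v 2 ^ j := by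
    intro k
    induction k with
    | zero => exact fun a h => ⟨0, le_antisymm (by rw [pow_zero]; exact s.v_c v a) h⟩
    | succ k ih =>
      intro a h
      rcases (s.v_c v a).eq_or_lt with h1 | h1
      · exact ⟨0, by rw [h1, pow_zero]⟩
      · obtain ⟨a', e⟩ := hd a h1
        have h3 : v (s.c a) = v 2 * v (s.c a') := by
          rw [← map_mul, ← e, map_mul, hu, one_mul]
        rw [h3, pow_succ'] at h
        obtain ⟨j, hj⟩ := ih a' (le_of_mul_le_mul_left h (zero_lt_iff.2 h20))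
        exact ⟨j + 1, by rw [h3, hj, pow_succ']⟩
  obtain ⟨a, n, hn, e⟩ := s.mem_k hx
  have ha : s.c a ≠ 0 := e ▸ mul_ne_zero (Nat.cast_ne_zero.2 hn.ne') h0
  obtain ⟨b, n', hn', e'⟩ := s.mem_k (inv_mem (s.c_mem a))
  obtain ⟨j, hj⟩ := key (padicValNat 2 n') a (by
    rw [← c1a_nat v h2 n' hn'.ne', (mul_inv_eq_iff_eq_mul₀ ha).1 e', map_mul]
    exact mul_le_of_le_one_left' (s.v_c v b))
  refine ⟨j - padicValNat 2 n, ?_⟩
  rw [zpow_sub₀ h20, zpow_natCast, zpow_natCast, ← hj, ← e, map_mul, c1a_nat v h2 n hn.ne',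
    mul_div_cancel_left₀ _ (pow_ne_zero _ h20)]

theorem v_nat (n : ℕ) (hn : n ≠ 0) : s.v n = s.v 2 ^ padicValNat 2 n := by
  exact c1a_nat s.v s.v_two n hn

end St

end Pool.Agent.P.MP_20768c_nt.Az.Cu

end
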