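import Pool.Agent.P.MP_20768c_nt.Az.Z5
import Pool.Agent.P.MP_20768c_nt.Az.Z6

-- part Cu.A0b
section

set_option autoImplicit false

open Complex NumberField IsDedekindDomain Filter Topology
open UpperHalfPlane hiding I
open scoped ComplexConjugate Real MatrixGroups

namespace Pool.Agent.P.MP_20768c_nt.Az.Cu

open Pool.Agent.P.MP_20768c_nt.Az.EQ (Lt pr sp IsLat jL qN)

variable {L L' M : Lt} {R : Finset ℂ} {z x : ℂ}

theorem pa_add (L : Lt) (l z w : ℂ) : pa L l (z + w) = pa L l z * pa L l w := by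
  rw [pa, pa, pa, ← Complex.exp_add, map_add]
  congr 1
  ring

theorem pa_add' (L : Lt) (l l' z : ℂ) : pa L (l + l') z = pa L l z * pa L l' z := by
  rw [pa, pa, pa, ← Complex.exp_add, map_add]
  congr 1
  ring

theorem norm_pa (L : Lt) (l z : ℂ) : ‖pa L l z‖ = 1 := by
  have e : conj l * z - l * conj z = ((2 * (conj l * z).im : ℝ) : ℂ) * I := by
    rw [← Complex.sub_conj, map_mul, Complex.conj_conj]
  have e2 : (π : ℂ) * (conj l * z - l * conj z) / (ar L : ℂ) =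
      ((π * (2 * (conj l * z).im) / ar L : ℝ) : ℂ) * I := by
    rw [e, Complex.ofReal_div, Complex.ofReal_mul π]
    ring
  rw [pa, e2, Complex.norm_exp_ofReal_mul_I]

theorem a0b_pa {c : ℂ} (hc : c ≠ 0) (τ : ℍ) (a b a' b' : ℝ) :
    pa (sp c (c * τ)) (a * c + b * (c * τ)) (a' * c + b' * (c * τ)) =
      cexp (((a * b' - b * a' : ℝ) : ℂ) * (2 * π * I)) := by
  have h1 : conj c * c = ((‖c‖ ^ 2 : ℝ) : ℂ) := by
    rw [Complex.conj_mul', Complex.ofReal_pow]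
  have h2 : (τ : ℂ) - conj (τ : ℂ) = 2 * ((τ.im : ℝ) : ℂ) * I := by
    rw [Complex.sub_conj, Complex.ofReal_mul, UpperHalfPlane.coe_im]
    norm_num
  have h3 : ((‖c‖ ^ 2 : ℝ) : ℂ) ≠ 0 :=
    Complex.ofReal_ne_zero.2 (pow_ne_zero _ (norm_ne_zero_iff.2 hc))
  have h4 : ((τ.im : ℝ) : ℂ) ≠ 0 := Complex.ofReal_ne_zero.2 τ.im_pos.ne'
  rw [pa, ar_sp hc τ]
  congr 1
  rw [Complex.ofReal_mul, div_eq_iff (mul_ne_zero h3 h4)]
  simp only [map_add, map_mul, Complex.conj_ofReal, Complex.ofReal_sub, Complex.ofReal_mul]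
  rw [← h1]
  linear_combination (π * (conj c * c) * ((a : ℂ) * b' - b * a')) * h2

theorem pa_int (h : IsLat L) {l : ℂ} (hl : l ∈ L) (hz : z ∈ L) : pa L l z = 1 := by
  obtain ⟨c, τ, hc, rfl⟩ := h
  obtain ⟨m, n, rfl⟩ := Pool.Agent.P.MP_20768c_nt.Az.EQ.mem_sp.1 hl
  obtain ⟨p, q, rfl⟩ := Pool.Agent.P.MP_20768c_nt.Az.EQ.mem_sp.1 hz
  have e := a0b_pa hc τ m n p q
  simp only [Complex.ofReal_intCast] at e
  rw [e, Complex.exp_eq_one_iff]
  exact ⟨m * q - n * p, by push_cast; ring⟩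

theorem a0b_coord {c : ℂ} (hc : c ≠ 0) (τ : ℍ) (z : ℂ) :
    ∃ a b : ℝ, z = a * c + b * (c * τ) := by
  have h4 : τ.im ≠ 0 := τ.im_pos.ne'
  refine ⟨(z / c).re - (z / c).im / τ.im * τ.re, (z / c).im / τ.im, ?_⟩
  have e : z / c = (((z / c).re - (z / c).im / τ.im * τ.re : ℝ) : ℂ) +
      (((z / c).im / τ.im : ℝ) : ℂ) * τ := by
    apply Complex.ext
    · simp only [Complex.add_re, Complex.mul_re, Complex.ofReal_re, Complex.ofReal_im,
        UpperHalfPlane.coe_re, UpperHalfPlane.coe_im]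
      ring
    · simp only [Complex.add_im, Complex.mul_im, Complex.ofReal_re, Complex.ofReal_im,
        UpperHalfPlane.coe_re, UpperHalfPlane.coe_im]
      field_simp
      ring
  have e2 : z = c * (z / c) := by field_simp
  linear_combination e2 + c * e

theorem a0b_int {a : ℝ} (h : cexp ((a : ℂ) * (2 * π * I)) = 1) : ∃ n : ℤ, a = n := by
  obtain ⟨n, hn⟩ := Complex.exp_eq_one_iff.1 h
  have h2 : (a : ℂ) = n := mul_right_cancel₀ Complex.two_pi_I_ne_zero hn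
  exact ⟨n, by exact_mod_cast h2⟩

theorem pa_dual (h : IsLat L) (hz : ∀ l ∈ L, pa L l z = 1) : z ∈ L := by
  obtain ⟨c, τ, hc, rfl⟩ := h
  obtain ⟨a, b, rfl⟩ := a0b_coord hc τ z
  have e1 := a0b_pa hc τ 1 0 a b
  have e2 := a0b_pa hc τ 0 1 a b
  rw [hz _ (Pool.Agent.P.MP_20768c_nt.Az.EQ.mem_sp.2 ⟨1, 0, by push_cast; rfl⟩)] at e1
  rw [hz _ (Pool.Agent.P.MP_20768c_nt.Az.EQ.mem_sp.2 ⟨0, 1, by push_cast; rfl⟩)] at e2
  obtain ⟨n, hn⟩ := a0b_int e1.symm
  obtain ⟨m, hm⟩ := a0b_int e2.symm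
  have hb : b = n := by linarith
  have ha : a = ((-m : ℤ) : ℝ) := by push_cast; linarith
  refine Pool.Agent.P.MP_20768c_nt.Az.EQ.mem_sp.2 ⟨-m, n, ?_⟩
  rw [ha, hb, Complex.ofReal_intCast, Complex.ofReal_intCast]

theorem lat_countable (h : IsLat L) : (L : Set ℂ).Countable := by
  obtain ⟨c, τ, _, rfl⟩ := h
  refine (Set.countable_range fun p : ℤ × ℤ => (p.1 : ℂ) * c + p.2 * (c * τ)).mono ?_
  intro w hw
  obtain ⟨m, n, rfl⟩ := Pool.Agent.P.MP_20768c_nt.Az.EQ.mem_sp.1 hw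
  exact ⟨(m, n), rfl⟩

theorem compl_nhds (h : IsLat L) (S : Finset ℂ) (z : ℂ) :
    ∀ᶠ w in 𝓝[≠] z, ∀ t ∈ S, w - t ∉ L := by
  obtain ⟨P, rfl⟩ := exists_pp h
  rw [Filter.eventually_all_finset]
  intro t _
  have h1 : Tendsto (fun w : ℂ => w - t) (𝓝 z) (𝓝 (z - t)) :=
    (continuous_id.sub continuous_const).tendsto z
  have h2 := h1.eventually (P.compl_lattice_sdiff_singleton_mem_nhds (z - t))
  filter_upwards [h2.filter_mono nhdsWithin_le_nhds, self_mem_nhdsWithin] with w hw hw' hl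
  exact hw ⟨hl, fun e => hw' (sub_left_injective e)⟩

theorem compl_open (h : IsLat L) (S : Finset ℂ) : IsOpen {w : ℂ | ∀ t ∈ S, w - t ∉ L} := by
  obtain ⟨P, rfl⟩ := exists_pp h
  have e : {w : ℂ | ∀ t ∈ S, w - t ∉ P.lattice} =
      ⋂ t ∈ S, (fun w : ℂ => w - t) ⁻¹' (P.lattice : Set ℂ)ᶜ := by
    ext w
    simp only [Set.mem_ofPred_eq, Set.mem_iInter, Set.mem_preimage, Set.mem_compl_iff,
      SetLike.mem_coe]
  rw [e]
  exact isOpen_biInter_finset fun t _ =>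
    P.isClosed_lattice.isOpen_compl.preimage (continuous_id.sub continuous_const)

theorem compl_preconn (h : IsLat L) (S : Finset ℂ) :
    IsPreconnected {w : ℂ | ∀ t ∈ S, w - t ∉ L} := by
  have e : {w : ℂ | ∀ t ∈ S, w - t ∉ L} =
      (⋃ t ∈ (S : Set ℂ), (fun w : ℂ => w - t) ⁻¹' (L : Set ℂ))ᶜ := by
    ext w
    simp only [Set.mem_ofPred_eq, Set.mem_compl_iff, Set.mem_iUnion, Set.mem_preimage,
      SetLike.mem_coe, not_exists]
  have hc : (⋃ t ∈ (S : Set ℂ), (fun w : ℂ => w - t) ⁻¹' (L : Set ℂ)).Countable :=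
    S.countable_toSet.biUnion fun t _ =>
      (lat_countable h).preimage_of_injOn sub_left_injective.injOn
  rw [e]
  exact (hc.isConnected_compl_of_one_lt_rank (by simp)).isPreconnected

theorem a0b_shift (z l : ℂ) : Tendsto (fun w : ℂ => w + l) (𝓝[≠] z) (𝓝[≠] (z + l)) := by
  refine tendsto_nhdsWithin_iff.2 ⟨?_, ?_⟩
  · exact ((continuous_id.add continuous_const).tendsto z).mono_left nhdsWithin_le_nhds
  · filter_upwards [self_mem_nhdsWithin] with w hw e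
    exact hw (add_right_cancel e)

theorem liou (h : IsLat L) {f : ℂ → ℂ} (S : Finset ℂ)
    (hper : ∀ l ∈ L, ∀ z, (∀ t ∈ S, z - t ∉ L) → f (z + l) = f z)
    (hd : ∀ z, (∀ t ∈ S, z - t ∉ L) → DifferentiableAt ℂ f z)
    (hb : ∀ t ∈ S, Tendsto (fun z => (z - t) * f z) (𝓝[≠] t) (𝓝 0)) :
    ∃ C, ∀ z, (∀ t ∈ S, z - t ∉ L) → f z = C := by
  -- translation of limits along the lattice
  have htr : ∀ l ∈ L, ∀ z a, Tendsto f (𝓝[≠] (z + l)) (𝓝 a) → Tendsto f (𝓝[≠] z) (𝓝 a) := by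
    intro l hl z a ha
    refine (ha.comp (a0b_shift z l)).congr' ?_
    filter_upwards [compl_nhds h S z] with w hw
    exact hper l hl w hw
  have hS : ∀ t ∈ S, ∃ a, Tendsto f (𝓝[≠] t) (𝓝 a) := by
    intro t ht
    refine ⟨_, Complex.tendsto_limUnder_of_differentiable_on_punctured_nhds_of_isLittleO
      ((compl_nhds h S t).mono hd) ?_⟩
    have h1 : Tendsto (fun w : ℂ => (w - t) * f t) (𝓝[≠] t) (𝓝 0) := by
      have h2 : Tendsto (fun w : ℂ => (w - t) * f t) (𝓝 t) (𝓝 ((t - t) * f t)) :=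
        ((continuous_id.sub continuous_const).mul continuous_const).tendsto t
      rw [sub_self, zero_mul] at h2
      exact h2.mono_left nhdsWithin_le_nhds
    have h3 := (hb t ht).sub h1
    rw [sub_zero] at h3
    refine Asymptotics.isLittleO_of_tendsto' ?_ (h3.congr fun w => ?_)
    · filter_upwards [self_mem_nhdsWithin] with w hw e
      exact absurd (sub_eq_zero.1 (inv_eq_zero.1 e)) hw
    · rw [div_inv_eq_mul]
      ring
  have hex : ∀ z, ∃ a, Tendsto f (𝓝[≠] z) (𝓝 a) := by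
    intro z
    by_cases hz : ∀ t ∈ S, z - t ∉ L
    · exact ⟨f z, (hd z hz).continuousAt.tendsto.mono_left nhdsWithin_le_nhds⟩
    · push Not at hz
      obtain ⟨t, ht, hl⟩ := hz
      obtain ⟨a, ha⟩ := hS t ht
      refine ⟨a, htr _ (neg_mem hl) z a ?_⟩
      have e : z + -(z - t) = t := by ring
      rw [e]
      exact ha
  choose g hg using hex
  have hgf : ∀ z, (∀ t ∈ S, z - t ∉ L) → g z = f z := fun z hz =>
    tendsto_nhds_unique (hg z) ((hd z hz).continuousAt.tendsto.mono_left nhdsWithin_le_nhds)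
  have hgd : ∀ z, (∀ t ∈ S, z - t ∉ L) → DifferentiableAt ℂ g z := by
    intro z hz
    refine (hd z hz).congr_of_eventuallyEq ?_
    filter_upwards [(compl_open h S).mem_nhds hz] with w hw
    exact hgf w hw
  have hD : Differentiable ℂ g := by
    intro z
    refine (Complex.analyticAt_of_differentiable_on_punctured_nhds_of_continuousAt
      ((compl_nhds h S z).mono hgd) ?_).differentiableAt
    refine continuousWithinAt_compl_self.1 ((hg z).congr' ?_)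
    filter_upwards [compl_nhds h S z] with w hw
    exact (hgf w hw).symm
  have hgp : ∀ z l, l ∈ L → g (z + l) = g z := fun z l hl =>
    tendsto_nhds_unique (htr l hl z _ (hg (z + l))) (hg z)
  obtain ⟨P, rfl⟩ := exists_pp h
  have hK := IsZLattice.isCompact_range_of_periodic P.lattice g hD.continuous hgp
  exact ⟨g 0, fun z hz => (hgf z hz).symm.trans (hD.apply_eq_apply_of_bounded hK.isBounded z 0)⟩

end Pool.Agent.P.MP_20768c_nt.Az.Cu

end

-- part Cu.C1b_p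
section

set_option autoImplicit false

open Complex NumberField IsDedekindDomain Filter Topology
open UpperHalfPlane hiding I
open scoped ComplexConjugate Real MatrixGroups

namespace Pool.Agent.P.MP_20768c_nt.Az.Cu

open Pool.Agent.P.MP_20768c_nt.Az.EQ (Lt pr sp IsLat jL qN)

namespace St

variable (s : St) {L M : s.Sub} {a b : Ideal s.O} {x y : ℂ}

theorem mem_zl : x ∈ s.zl L ↔ x ∈ L := by
  exact Iff.rfl

theorem zl_le : s.zl L ≤ s.zl M ↔ L ≤ M := by
  exact Iff.rfl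

theorem c_mul_mem (β : s.O) (h : x ∈ L) : s.c β * x ∈ L := by
  exact L.smul_mem β h

theorem mem_one : x ∈ (1 : s.Sub) ↔ ∃ β : s.O, s.c β = x := by
  exact Submodule.mem_one

theorem mem_idl : x ∈ s.idl a ↔ ∃ β ∈ a, s.c β = x := by
  exact Submodule.mem_map

theorem c_mem_idl {β : s.O} : s.c β ∈ s.idl a ↔ β ∈ a := by
  rw [mem_idl]
  exact ⟨fun ⟨γ, hγ, h⟩ => s.c_inj h ▸ hγ, fun h => ⟨β, h, rfl⟩⟩

theorem idl_mul (a b : Ideal s.O) : s.idl (a * b) = s.idl a * s.idl b := by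
  exact IsLocalization.coeSubmodule_mul ℂ a b

theorem idl_pow (a : Ideal s.O) (n : ℕ) : s.idl (a ^ n) = s.idl a ^ n := by
  induction n with
  | zero =>
    rw [pow_zero, pow_zero, Ideal.one_eq_top]
    exact IsLocalization.coeSubmodule_top ℂ
  | succ n ih => rw [pow_succ, pow_succ, idl_mul, ih]

theorem idl_top : s.idl ⊤ = 1 := by
  exact IsLocalization.coeSubmodule_top ℂ

theorem idl_le : s.idl a ≤ s.idl b ↔ a ≤ b := by
  refine ⟨fun h β hβ => s.c_mem_idl.1 (h (s.c_mem_idl.2 hβ)), fun h => Submodule.map_mono h⟩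

theorem idl_sup (a b : Ideal s.O) : s.idl (a ⊔ b) = s.idl a ⊔ s.idl b := by
  exact Submodule.map_sup _ _ _

theorem idl_span (β : s.O) : s.idl (Ideal.span {β}) = s.sc (s.c β) := by
  exact IsLocalization.coeSubmodule_span_singleton ℂ β

theorem idl_mul_le (a : Ideal s.O) (L : s.Sub) : s.idl a * L ≤ L := by
  refine Submodule.mul_le.2 fun x hx y hy => ?_
  obtain ⟨β, -, rfl⟩ := s.mem_idl.1 hx
  exact s.c_mul_mem β hy

theorem mul_mem_idl {β : s.O} (hβ : β ∈ a) (h : x ∈ L) : s.c β * x ∈ s.idl a * L := by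
  exact Submodule.mul_mem_mul (s.c_mem_idl.2 hβ) h

theorem exists_idl (h : L ≤ 1) : ∃ a, L = s.idl a := by
  refine ⟨L.comap (Algebra.linearMap s.O ℂ), le_antisymm (fun x hx => ?_)
    (Submodule.map_comap_le _ _)⟩
  obtain ⟨β, rfl⟩ := s.mem_one.1 (h hx)
  exact s.c_mem_idl.2 hx

theorem mem_sc_mul : y ∈ s.sc x * L ↔ ∃ z ∈ L, x * z = y := by
  exact Submodule.mem_span_singleton_mul

theorem mul_mem_sc' (hx : x ≠ 0) : x * y ∈ s.sc x * L ↔ y ∈ L := by
  rw [mem_sc_mul]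
  exact ⟨fun ⟨z, hz, h⟩ => mul_left_cancel₀ hx h ▸ hz, fun h => ⟨y, h, rfl⟩⟩

theorem zl_sc (x : ℂ) (L : s.Sub) : s.zl (s.sc x * L) = pr x * s.zl L := by
  ext y
  rw [mem_zl, mem_sc_mul, Pool.Agent.P.MP_20768c_nt.Az.EQ.mem_pr_mul]
  rfl

theorem isUnit_sc (hx : x ≠ 0) : IsUnit (s.sc x) := by
  exact IsUnit.of_mul_eq_one (s.sc x⁻¹) (by rw [← sc_mul, mul_inv_cancel₀ hx, sc_one])

theorem sc_eq_one (h : s.sc x = 1) : x = 1 ∨ x = -1 := by
  obtain ⟨β, rfl⟩ := s.mem_one.1 (h ▸ s.mem_sc x)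
  rw [← idl_span, ← idl_top] at h
  have h1 : Ideal.span {β} = ⊤ := top_le_iff.1 (s.idl_le.1 h.ge)
  rcases s.unit_pm (Ideal.span_singleton_eq_top.1 h1) with rfl | rfl
  · exact Or.inl s.c_one
  · exact Or.inr (by rw [c, map_neg, map_one])

theorem c1bp_inv (h : s.idl a * M = 1) : s.inv a = M := by
  refine le_antisymm ?_ (Submodule.le_div_iff_mul_le.2 (by rw [mul_comm, h]))
  have h1 : s.inv a * s.idl a ≤ 1 := Submodule.le_div_iff_mul_le.1 le_rfl
  have h2 : s.inv a * s.idl a * M ≤ 1 * M := mul_le_mul_left h1 _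
  rwa [mul_assoc, h, mul_one, one_mul] at h2

theorem c1bp_unit (ha : a ≠ ⊥) : ∃ M, s.idl a * M = 1 := by
  obtain ⟨β, hβ, h0⟩ := Submodule.exists_mem_ne_zero_of_ne_bot ha
  obtain ⟨b, hb⟩ : a ∣ Ideal.span {β} :=
    Ideal.dvd_iff_le.2 ((Ideal.span_singleton_le_iff_mem _).2 hβ)
  refine ⟨s.idl b * s.sc (s.c β)⁻¹, ?_⟩
  rw [← mul_assoc, ← idl_mul, ← hb, idl_span, ← sc_mul, mul_inv_cancel₀ (s.c_ne h0), sc_one]

theorem idl_inv (ha : a ≠ ⊥) : s.idl a * s.inv a = 1 := by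
  obtain ⟨M, hM⟩ := s.c1bp_unit ha
  rw [s.c1bp_inv hM, hM]

theorem isUnit_idl (ha : a ≠ ⊥) : IsUnit (s.idl a) := by
  exact IsUnit.of_mul_eq_one _ (s.idl_inv ha)

theorem isUnit_inv (ha : a ≠ ⊥) : IsUnit (s.inv a) := by
  exact IsUnit.of_mul_eq_one_right _ (s.idl_inv ha)

theorem inv_mul (ha : a ≠ ⊥) (hb : b ≠ ⊥) : s.inv (a * b) = s.inv a * s.inv b := by
  refine s.c1bp_inv ?_
  rw [idl_mul, mul_mul_mul_comm, s.idl_inv ha, s.idl_inv hb, one_mul]

theorem inv_top : s.inv ⊤ = 1 := by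
  exact s.c1bp_inv (by rw [idl_top, one_mul])

theorem inv_span {β : s.O} (h : β ≠ 0) : s.inv (Ideal.span {β}) = s.sc (s.c β)⁻¹ := by
  exact s.c1bp_inv (by rw [idl_span, ← sc_mul, mul_inv_cancel₀ (s.c_ne h), sc_one])

theorem mem_mul_inv (ha : a ≠ ⊥) : x ∈ L * s.inv a ↔ ∀ β ∈ a, s.c β * x ∈ L := by
  constructor
  · intro h β hβ
    have h1 := s.mul_mem_idl hβ h
    rwa [mul_left_comm, s.idl_inv ha, mul_one] at h1
  · intro h
    have h1 : s.idl a * s.sc x ≤ L := by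
      refine Submodule.mul_le.2 fun u hu v hv => ?_
      obtain ⟨β, hβ, rfl⟩ := s.mem_idl.1 hu
      obtain ⟨γ, rfl⟩ := Submodule.mem_span_singleton.1 hv
      rw [mul_smul_comm]
      exact L.smul_mem γ (h β hβ)
    have h2 : s.idl a * s.sc x * s.inv a ≤ L * s.inv a := mul_le_mul_left h1 _
    rw [mul_right_comm, s.idl_inv ha, one_mul] at h2
    exact h2 (s.mem_sc x)

theorem le_mul_inv (ha : a ≠ ⊥) (L : s.Sub) : L ≤ L * s.inv a := by
  exact fun x hx => (s.mem_mul_inv ha).2 fun β _ => s.c_mul_mem β hx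

theorem mem_of_cop (ha : a ≠ ⊥) (h : IsCoprime a b) (hx : x ∈ L * s.inv a)
    (hb : ∀ β ∈ b, s.c β * x ∈ L) : x ∈ L := by
  obtain ⟨u, hu, v, hv, huv⟩ := Ideal.isCoprime_iff_exists.1 h
  have h1 := add_mem ((s.mem_mul_inv ha).1 hx u hu) (hb v hv)
  rwa [← add_mul, ← c_add, huv, c_one, one_mul] at h1

theorem mem_mul_cop (h : IsCoprime a b) (h1 : x ∈ s.idl a * L) (h2 : x ∈ s.idl b * L) :
    x ∈ s.idl (a * b) * L := by
  obtain ⟨u, hu, v, hv, huv⟩ := Ideal.isCoprime_iff_exists.1 h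
  have e1 := s.mul_mem_idl hu h2
  have e2 := s.mul_mem_idl hv h1
  rw [← mul_assoc, ← idl_mul] at e1
  rw [← mul_assoc, ← idl_mul, mul_comm b a] at e2
  have e3 := add_mem e1 e2
  rwa [← add_mul, ← c_add, huv, c_one, one_mul] at e3

theorem prime_mem (hL : IsUnit L) {q : Ideal s.O} (hq : q.IsMaximal) {β : s.O} (hβ : β ∉ q)
    (hx : x ∈ L) (h : s.c β * x ∈ s.idl q * L) : x ∈ s.idl q * L := by
  obtain ⟨u, v, hv, huv⟩ := hq.exists_inv hβ
  have e3 := add_mem (s.c_mul_mem u h) (s.mul_mem_idl hv hx)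
  rwa [← mul_assoc, ← c_mul, ← add_mul, ← c_add, huv, c_one, one_mul] at e3

theorem mul_le_mul_unit (hL : IsUnit L) {A B : s.Sub} : A * L ≤ B * L ↔ A ≤ B := by
  obtain ⟨M, hM⟩ := hL.exists_right_inv
  refine ⟨fun h => ?_, fun h => mul_le_mul_left h _⟩
  have h2 : A * L * M ≤ B * L * M := mul_le_mul_left h _
  rwa [mul_assoc, mul_assoc, hM, mul_one, mul_one] at h2

theorem unit_eq (hL : IsUnit L) : ∃ x : ℂ, x ≠ 0 ∧ ∃ a, a ≠ ⊥ ∧ L = s.sc x * s.idl a := by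
  obtain ⟨M, hM⟩ := hL.exists_right_inv
  have h1 : (1 : s.Sub) ≠ ⊥ := fun h =>
    one_ne_zero ((Submodule.mem_bot s.O).1 (h ▸ s.mem_one.2 ⟨1, s.c_one⟩ : (1 : ℂ) ∈ (⊥ : s.Sub)))
  have hM0 : M ≠ ⊥ := by
    rintro rfl
    exact h1 (by rw [← hM, Submodule.mul_bot])
  obtain ⟨y, hy, hy0⟩ := Submodule.exists_mem_ne_zero_of_ne_bot hM0
  have h2 : s.sc y * L ≤ 1 := by
    rw [← hM, mul_comm L M]
    exact mul_le_mul_left ((Submodule.span_singleton_le_iff_mem _ _).2 hy) _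
  obtain ⟨a, ha⟩ := s.exists_idl h2
  have h3 : L = s.sc y⁻¹ * s.idl a := by
    rw [← ha, ← mul_assoc, ← sc_mul, inv_mul_cancel₀ hy0, sc_one, one_mul]
  refine ⟨y⁻¹, inv_ne_zero hy0, a, ?_, h3⟩
  rintro rfl
  apply h1
  rw [← hM, h3, idl, Submodule.map_bot, Submodule.mul_bot, Submodule.bot_mul]

end St

end Pool.Agent.P.MP_20768c_nt.Az.Cu

end

-- part Cu.A2
section

set_option autoImplicit false

open Complex NumberField IsDedekindDomain Filter Topology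
open UpperHalfPlane hiding I
open scoped ComplexConjugate Real MatrixGroups

namespace Pool.Agent.P.MP_20768c_nt.Az.Cu

open Pool.Agent.P.MP_20768c_nt.Az.EQ (Lt pr sp IsLat jL qN)

variable {L L' : Lt} {R : Finset ℂ} {z : ℂ}

theorem a2_neg (L : Lt) (f : ℂ → ℂ) : ∑' l : L, f l = ∑' l : L, f (-l) := by
  rw [← (Equiv.neg L).tsum_eq]
  rfl

theorem a2_iter (h : IsLat L) (hz : z ∉ L) (n : ℕ) (hn : Odd n) :
    iteratedDeriv n (wpd L) z = ((n + 2).factorial : ℂ) * ∑' l : L, ((z + l) ^ (n + 3))⁻¹ := by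
  obtain ⟨P, rfl⟩ := exists_pp h
  have h1 := P.iteratedDeriv_derivWeierstrassPExcept_self z (n := n)
  rw [P.derivWeierstrassPExcept_of_notMem z hz] at h1
  refine h1.trans ?_
  congr 1
  rw [a2_neg P.lattice (fun l => ((z + l) ^ (n + 3))⁻¹)]
  refine tsum_congr fun l => ?_
  have he : Even (n + 3) := hn.add_odd (by decide)
  rw [← he.neg_pow]
  congr 2
  ring

theorem a2_nhds (h : IsLat L) (hz : z ∉ L) : ∀ᶠ w in 𝓝 z, w ∉ L := by
  obtain ⟨P, rfl⟩ := exists_pp h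
  exact P.isClosed_lattice.isOpen_compl.mem_nhds hz

theorem sum_four (h : IsLat L) (hz : z ∉ L) :
    ∑' l : L, ((z + l) ^ 4)⁻¹ = wp L z ^ 2 - g2 L / 12 := by
  have h1 := a2_iter h hz 1 odd_one
  rw [iteratedDeriv_one, (hasDerivAt_wpd h hz).deriv] at h1
  norm_num [Nat.factorial] at h1
  linear_combination -h1 / 6

theorem a2_d2 (h : IsLat L) (hz : z ∉ L) :
    deriv (deriv (wpd L)) z = 12 * (wp L z * wpd L z) := by
  have d := (((hasDerivAt_wp h hz).fun_pow 2).const_mul 6).sub_const (g2 L / 2)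
  have d2 : HasDerivAt (deriv (wpd L)) _ z :=
    d.congr_of_eventuallyEq ((a2_nhds h hz).mono fun w hw => (hasDerivAt_wpd h hw).deriv)
  rw [d2.deriv]
  norm_num
  ring

theorem sum_six (h : IsLat L) (hz : z ∉ L) :
    ∑' l : L, ((z + l) ^ 6)⁻¹ = wp L z ^ 3 - 3 / 20 * g2 L * wp L z - g3 L / 10 := by
  have h1 := a2_iter h hz 3 (by decide)
  have d := ((hasDerivAt_wp h hz).fun_mul (hasDerivAt_wpd h hz)).const_mul 12
  have d2 : HasDerivAt (deriv (deriv (wpd L))) _ z :=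
    d.congr_of_eventuallyEq ((a2_nhds h hz).mono fun w hw => a2_d2 h hw)
  rw [iteratedDeriv_succ, iteratedDeriv_succ, iteratedDeriv_one, d2.deriv] at h1
  norm_num [Nat.factorial] at h1
  have h2 := wpd_sq h hz
  linear_combination -h1 / 120 + h2 / 10

theorem sum_three (L : Lt) (z : ℂ) : ∑' l : L, ((z + l) ^ 3)⁻¹ = -wpd L z / 2 := by
  rw [a2_neg L (fun l => ((z + l) ^ 3)⁻¹), wpd, neg_neg, ← tsum_div_const]
  refine tsum_congr fun l => ?_
  rw [← sub_eq_add_neg]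
  ring

theorem a2_wp_zero (L : Lt) : wp L 0 = 0 := by
  simp [wp]

theorem velu_wp (h : IsLat L) (h' : IsLat L') (hR : Reps L L' R) (z : ℂ) :
    wp L' z = wp L z + ∑ t ∈ R.erase 0, (wp L (z + t) - wp L t) := by
  have h1 := reps_tsum hR (f := fun l => 1 / (z - l) ^ 2 - 1 / l ^ 2) (summable_wp h' z)
  have h2 : ∀ r : ℂ, ∑' l : L, (1 / (z - (r + l)) ^ 2 - 1 / (r + (l : ℂ)) ^ 2) =
      wp L (z + -r) - wp L (-r) := by
    intro r
    rw [wp, wp, ← (summable_wp h _).tsum_sub (summable_wp h _)]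
    refine tsum_congr fun l => ?_
    rw [show z + -r - (l : ℂ) = z - (r + l) by ring, show -r - (l : ℂ) = -(r + l) by ring, neg_sq]
    ring
  have h3 := hR.sum_bij (fun a => -a) (fun a ha => L'.neg_mem ha)
    (fun a _ b _ => by rw [show -a - -b = -(a - b) by ring, neg_mem_iff])
    (fun r => wp L (z + r) - wp L r)
    (fun a _ l hl => by rw [← add_assoc, wp_add h _ hl, wp_add h _ hl])
  rw [wp, h1, Finset.sum_congr rfl fun r _ => h2 r, h3, ← Finset.add_sum_erase R _ hR.2.1, add_zero,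
    a2_wp_zero, sub_zero]

theorem a2_G (h' : IsLat L') (hR : Reps L L' R) {n : ℕ} (hn : 2 < n) :
    Gk L' n = Gk L n + ∑ t ∈ R.erase 0, ∑' l : L, ((t + l) ^ n)⁻¹ := by
  have h0 := summable_pow h' 0 hn
  simp only [sub_zero] at h0
  rw [Gk, reps_tsum hR (f := fun l => (l ^ n)⁻¹) h0, ← Finset.add_sum_erase R _ hR.2.1, Gk]
  simp only [zero_add]

theorem a2_not (hR : Reps L L' R) {t : ℂ} (ht : t ∈ R.erase 0) : t ∉ L := by
  obtain ⟨h0, h1⟩ := Finset.mem_erase.1 ht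
  exact fun hl => h0 (hR.sub_mem h1 hR.2.1 (by rwa [sub_zero]))

theorem velu_g2 (h : IsLat L) (h' : IsLat L') (hR : Reps L L' R) :
    g2 L' = g2 L + ∑ t ∈ R.erase 0, (60 * wp L t ^ 2 - 5 * g2 L) := by
  have h1 := a2_G h' hR (n := 4) (by norm_num)
  rw [Finset.sum_congr rfl fun t ht => sum_four h (a2_not hR ht)] at h1
  have h2 : ∑ t ∈ R.erase 0, (60 * wp L t ^ 2 - 5 * g2 L) =
      60 * ∑ t ∈ R.erase 0, (wp L t ^ 2 - g2 L / 12) := by
    rw [Finset.mul_sum]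
    exact Finset.sum_congr rfl fun t _ => by ring
  rw [h2]
  have e1 : g2 L' = 60 * Gk L' 4 := rfl
  have e2 : g2 L = 60 * Gk L 4 := rfl
  linear_combination e1 - e2 + 60 * h1

theorem velu_g3 (h : IsLat L) (h' : IsLat L') (hR : Reps L L' R) :
    g3 L' = g3 L + ∑ t ∈ R.erase 0, (140 * wp L t ^ 3 - 21 * g2 L * wp L t - 14 * g3 L) := by
  have h1 := a2_G h' hR (n := 6) (by norm_num)
  rw [Finset.sum_congr rfl fun t ht => sum_six h (a2_not hR ht)] at h1
  have h2 : ∑ t ∈ R.erase 0, (140 * wp L t ^ 3 - 21 * g2 L * wp L t - 14 * g3 L) =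
      140 * ∑ t ∈ R.erase 0, (wp L t ^ 3 - 3 / 20 * g2 L * wp L t - g3 L / 10) := by
    rw [Finset.mul_sum]
    exact Finset.sum_congr rfl fun t _ => by ring
  rw [h2]
  have e1 : g3 L' = 140 * Gk L' 6 := rfl
  have e2 : g3 L = 140 * Gk L 6 := rfl
  linear_combination e1 - e2 + 140 * h1

end Pool.Agent.P.MP_20768c_nt.Az.Cu

end

-- part Cu.G1a_p
section

set_option autoImplicit false

open Complex NumberField IsDedekindDomain Filter Topology
open UpperHalfPlane hiding I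
open scoped ComplexConjugate Real MatrixGroups

namespace Pool.Agent.P.MP_20768c_nt.Az.Cu

open Pool.Agent.P.MP_20768c_nt.Az.EQ (Lt pr sp IsLat jL qN)

variable {L : Lt}

theorem g1ap_inv (h : IsLat L) (z : ℂ) : Summable fun l : L => (‖z + l‖ ^ 3)⁻¹ := by
  refine (summable_pow h (-z) (n := 3) (by norm_num)).norm.congr fun l => ?_
  rw [norm_inv, norm_pow, sub_neg_eq_add, add_comm]

theorem g1ap_bd {a : ℝ} (ha : 0 < a) (b : ℝ) (m : ℕ) {x : ℝ} (hx : 0 ≤ x) :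
    x ^ m * Real.exp (-a * x ^ 2 + b * x) ≤ m.factorial * Real.exp ((b + 1) ^ 2 / (4 * a)) := by
  have h1 := Real.pow_div_factorial_le_exp x hx m
  rw [div_le_iff₀ (by positivity), mul_comm] at h1
  refine (mul_le_mul_of_nonneg_right h1 (Real.exp_pos _).le).trans ?_
  rw [mul_assoc, ← Real.exp_add]
  refine mul_le_mul_of_nonneg_left (Real.exp_le_exp.2 ?_) (Nat.cast_nonneg _)
  rw [le_div_iff₀ (by positivity)]
  nlinarith [sq_nonneg (2 * a * x - (b + 1))]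

theorem g1ap_sum (h : IsLat L) {a : ℝ} (ha : 0 < a) (b : ℝ) (n : ℕ) (z : ℂ) :
    Summable fun l : L => ‖z + l‖ ^ n * Real.exp (-a * ‖z + l‖ ^ 2 + b * ‖z + l‖) := by
  refine Summable.of_norm_bounded_eventually ((g1ap_inv h z).mul_left
    ((n + 3).factorial * Real.exp ((b + 1) ^ 2 / (4 * a)))) ?_
  have f : {l : L | z + l = 0}.Finite := Set.Subsingleton.finite fun x hx y hy =>
    Subtype.ext (add_left_cancel (hx.trans hy.symm))
  filter_upwards [f.compl_mem_cofinite] with l hl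
  have h0 : 0 < ‖z + l‖ := norm_pos_iff.2 hl
  rw [Real.norm_of_nonneg (by positivity), ← div_eq_mul_inv, le_div_iff₀ (by positivity),
    mul_right_comm, ← pow_add]
  exact g1ap_bd ha b _ h0.le

theorem summable_gauss (h : IsLat L) {u : ℂ} (hu : 0 < u.re) (n : ℕ) (A B : ℂ) :
    Summable fun l : L =>
      ‖(l : ℂ)‖ ^ n * ‖cexp (-u * (l * conj (l : ℂ)) + A * l + B * conj (l : ℂ))‖ := by
  refine Summable.of_nonneg_of_le (fun _ => by positivity) (fun l => ?_)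
    (g1ap_sum h hu (‖A‖ + ‖B‖) n 0)
  rw [zero_add, Complex.norm_exp]
  refine mul_le_mul_of_nonneg_left (Real.exp_le_exp.2 ?_) (by positivity)
  have h1 := Complex.re_le_norm (A * l)
  have h2 := Complex.re_le_norm (B * conj (l : ℂ))
  rw [norm_mul] at h1 h2
  rw [Complex.norm_conj] at h2
  rw [Complex.add_re, Complex.add_re, Complex.mul_conj, Complex.re_mul_ofReal, Complex.neg_re,
    Complex.normSq_eq_norm_sq]
  linarith

theorem summable_th (h : IsLat L) {u : ℂ} (hu : 0 < u.re) (n : ℕ) (z : ℂ) :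
    Summable fun l : L => ‖z + l‖ ^ n * Real.exp (-u.re * ‖z + l‖ ^ 2) := by
  simpa only [zero_mul, add_zero] using g1ap_sum h hu 0 n z

theorem gauss_decay (h : IsLat L) (n : ℕ) (z : ℂ) {a : ℝ} (ha : 0 < a) :
    ∃ C δ : ℝ, 0 < δ ∧ ∀ u : ℝ, a ≤ u →
      ∑' l : L, (if z + l = 0 then 0 else ‖z + l‖ ^ n * Real.exp (-u * ‖z + l‖ ^ 2)) ≤
        C * Real.exp (-δ * u) := by
  obtain ⟨M, hM⟩ : ∃ M, M = ∑' l : L, (‖z + l‖ ^ 3)⁻¹ + 1 := ⟨_, rfl⟩
  have M1 : 1 ≤ M := hM ▸ le_add_of_nonneg_left (tsum_nonneg fun _ => by positivity)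
  have h1 : ∀ l : L, z + l ≠ 0 → M⁻¹ ≤ ‖z + l‖ ^ 2 := fun l hl => by
    have h0 : 0 < ‖z + l‖ := norm_pos_iff.2 hl
    rcases le_total 1 ‖z + l‖ with h2 | h2
    · exact (inv_le_one_of_one_le₀ M1).trans (one_le_pow₀ h2)
    · refine le_trans (inv_le_of_inv_le₀ (by positivity) ?_) (pow_le_pow_of_le_one h0.le h2
        (show 2 ≤ 3 by norm_num))
      have := (g1ap_inv h z).le_tsum l fun _ _ => by positivity
      linarith
  have h2 := g1ap_sum h (half_pos ha) 0 n z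
  simp only [zero_mul, add_zero] at h2
  refine ⟨∑' l : L, ‖z + l‖ ^ n * Real.exp (-(a / 2) * ‖z + l‖ ^ 2), M⁻¹ / 2, by positivity,
    fun u hu => ?_⟩
  have h3 : ∀ l : L, (if z + l = 0 then 0 else ‖z + l‖ ^ n * Real.exp (-u * ‖z + l‖ ^ 2)) ≤
      ‖z + l‖ ^ n * Real.exp (-(a / 2) * ‖z + l‖ ^ 2) * Real.exp (-(M⁻¹ / 2) * u) := fun l => by
    split_ifs with hl
    · positivity
    rw [mul_assoc, ← Real.exp_add]
    refine mul_le_mul_of_nonneg_left (Real.exp_le_exp.2 ?_) (by positivity)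
    nlinarith [mul_le_mul_of_nonneg_left (h1 l hl) (ha.le.trans hu),
      mul_le_mul_of_nonneg_right hu (sq_nonneg ‖z + l‖)]
  rw [← tsum_mul_right]
  exact (Summable.of_nonneg_of_le (fun l => by positivity) h3 (h2.mul_right _)).tsum_le_tsum h3
    (h2.mul_right _)

end Pool.Agent.P.MP_20768c_nt.Az.Cu

end

-- part Cu.C1b_q
section

set_option autoImplicit false

open Complex NumberField IsDedekindDomain Filter Topology
open UpperHalfPlane hiding I
open scoped ComplexConjugate Real MatrixGroups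

namespace Pool.Agent.P.MP_20768c_nt.Az.Cu

open Pool.Agent.P.MP_20768c_nt.Az.EQ (Lt pr sp IsLat jL qN)

namespace St

variable (s : St) {L M : s.Sub} {a b : Ideal s.O} {x y : ℂ}

theorem c1bq_ab (β : s.O) : ∃ a b : ℤ, s.c β = a + b * s.c s.w := by
  obtain ⟨a, b, rfl⟩ := s.span β
  exact ⟨a, b, by rw [c_add, c_mul, c_int, c_int]⟩

theorem c1bq_one : s.zl 1 = sp 1 (1 * ((⟨s.c s.w, s.w_im⟩ : ℍ) : ℂ)) := by
  ext z
  rw [mem_zl, mem_one, Pool.Agent.P.MP_20768c_nt.Az.EQ.mem_sp]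
  constructor
  · rintro ⟨β, rfl⟩
    obtain ⟨a, b, h⟩ := s.c1bq_ab β
    exact ⟨a, b, by rw [h, mul_one, one_mul]⟩
  · rintro ⟨a, b, rfl⟩
    exact ⟨a + b * s.w, by rw [c_add, c_mul, c_int, c_int, mul_one, one_mul]⟩

theorem c1bq_lat : IsLat (s.zl 1) := ⟨1, _, one_ne_zero, s.c1bq_one⟩

theorem c1bq_le (a : Ideal s.O) : s.idl a ≤ 1 := by
  have := s.idl_mul_le a 1
  rwa [mul_one] at this

theorem c1bq_pos (ha : a ≠ ⊥) : 0 < Ideal.absNorm a :=
  Nat.pos_of_ne_zero fun h => ha (Ideal.absNorm_eq_zero_iff.1 h)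

theorem c1bq_idl (ha : a ≠ ⊥) : IsLat (s.zl (s.idl a)) := by
  refine s.c1bq_lat.of_between (s.c1bq_pos ha) (Pool.Agent.P.MP_20768c_nt.Az.EQ.pr_mul_le.2 fun z hz => ?_)
    (Pool.Agent.P.MP_20768c_nt.Az.EQ.pr_mul_le.2 fun z hz => ?_)
  · have := s.mul_mem_idl (Ideal.absNorm_mem a) (s.mem_zl.1 hz)
    rwa [mul_one, c_nat] at this
  · have := s.c_mul_mem (Ideal.absNorm a) (s.c1bq_le a (s.mem_zl.1 hz))
    rwa [c_nat] at this

theorem isLat_zl (hL : IsUnit L) : IsLat (s.zl L) := by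
  obtain ⟨x, hx, a, ha, rfl⟩ := s.unit_eq hL
  rw [zl_sc]
  exact (s.c1bq_idl ha).pr_mul hx

theorem isUnit_of_lat (h : IsLat (s.zl L)) : IsUnit L := by
  obtain ⟨c, τ, hc, e⟩ := h
  have hc1 : c ∈ L := s.mem_zl.1 (e ▸ Pool.Agent.P.MP_20768c_nt.Az.EQ.left_mem_sp_lat _ _)
  obtain ⟨m, n, h1⟩ := Pool.Agent.P.MP_20768c_nt.Az.EQ.mem_sp.1 (e ▸ s.mem_zl.2 (s.c_mul_mem s.w hc1))
  have h2 : s.c s.w = m + n * τ := mul_right_cancel₀ hc (by linear_combination h1)
  have hn : (n : ℂ) ≠ 0 := by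
    intro h0
    have h3 := congrArg Complex.im h2
    rw [h0, zero_mul, add_zero, Complex.intCast_im] at h3
    exact s.w_im.ne' h3
  have hle : s.sc (n / c) * L ≤ 1 := by
    intro y hy
    obtain ⟨z, hz, rfl⟩ := s.mem_sc_mul.1 hy
    obtain ⟨p, q, rfl⟩ := Pool.Agent.P.MP_20768c_nt.Az.EQ.mem_sp.1 (e ▸ s.mem_zl.2 hz)
    refine s.mem_one.2 ⟨p * n + q * (s.w - m), ?_⟩
    rw [c_add, c_mul, c_mul, c_sub, c_int, c_int, c_int, c_int, h2]
    field_simp
    ring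
  obtain ⟨a, ha⟩ := s.exists_idl hle
  have ha0 : a ≠ ⊥ := by
    rintro rfl
    have h4 : n / c * c ∈ s.idl ⊥ := ha ▸ s.mem_sc_mul.2 ⟨c, hc1, rfl⟩
    obtain ⟨β, hβ, h5⟩ := s.mem_idl.1 h4
    rw [(Submodule.mem_bot _).1 hβ, div_mul_cancel₀ _ hc] at h5
    exact hn (h5.symm.trans (map_zero _))
  exact isUnit_of_mul_isUnit_right (ha ▸ s.isUnit_idl ha0)

theorem exists_sub {Λ : Lt} (h : ∀ z ∈ Λ, s.c s.w * z ∈ Λ) : ∃ L, s.zl L = Λ := by
  refine ⟨{ carrier := Λ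
            add_mem' := Λ.add_mem
            zero_mem' := Λ.zero_mem
            smul_mem' := fun β z hz => ?_ }, rfl⟩
  obtain ⟨a, b, e⟩ := s.c1bq_ab β
  have : β • z = a • z + b • (s.c s.w * z) := by
    rw [smul_eq, e, zsmul_eq_mul, zsmul_eq_mul]
    ring
  rw [this]
  exact Λ.add_mem (Λ.smul_mem a hz) (Λ.smul_mem b (h z hz))

theorem ar_one : ar (s.zl 1) = Real.sqrt s.dd / 2 := by
  rw [c1bq_one, ar_sp one_ne_zero, norm_one, one_pow, one_mul]
  have := congrArg Complex.im s.sqrt_dd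
  simp only [Complex.sub_im, Complex.mul_im, Complex.re_ofNat, Complex.im_ofNat, zero_mul,
    add_zero, Complex.one_im, sub_zero, Complex.I_re, Complex.ofReal_im, Complex.I_im,
    Complex.ofReal_re, one_mul, zero_add, mul_zero] at this
  show (s.c s.w).im = _
  linarith

theorem c1bq_card {R : Finset ℂ} (hR : Reps (s.zl (s.idl a)) (s.zl 1) R) :
    R.card = Ideal.absNorm a := by
  have h0 : ∀ r : R, ∃ β : s.O, s.c β = r := fun r => s.mem_one.1 (s.mem_zl.1 (hR.2.2.1 r r.2))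
  choose β hβ using h0
  rw [Ideal.absNorm_apply, Submodule.cardQuot_apply, ← Nat.card_eq_finsetCard]
  refine Nat.card_eq_of_bijective (fun r => Ideal.Quotient.mk a (β r)) ⟨fun r r' h => ?_, fun q => ?_⟩
  · refine Subtype.ext (hR.sub_mem r.2 r'.2 (s.mem_zl.2 ?_))
    rw [← hβ, ← hβ, ← c_sub, c_mem_idl]
    exact Ideal.Quotient.eq.1 h
  · obtain ⟨γ, rfl⟩ := Ideal.Quotient.mk_surjective q
    obtain ⟨r, ⟨hr, h⟩, -⟩ := hR.2.2.2 (s.c γ) (s.mem_zl.2 (s.mem_one.2 ⟨γ, rfl⟩))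
    refine ⟨⟨r, hr⟩, (Ideal.Quotient.eq.2 ?_).symm⟩
    rw [← c_mem_idl, c_sub, hβ]
    exact s.mem_zl.1 h

theorem c1bq_ar1 (ha : a ≠ ⊥) : ar (s.zl (s.idl a)) = Ideal.absNorm a * ar (s.zl 1) := by
  obtain ⟨R, hR⟩ := exists_reps (s.c1bq_idl ha) s.c1bq_lat (s.zl_le.2 (s.c1bq_le a))
  rw [ar_reps (s.c1bq_idl ha) s.c1bq_lat hR, s.c1bq_card hR]

theorem c1bq_ar (hL : IsUnit L) (ha : a ≠ ⊥) :
    ar (s.zl (s.idl a * L)) = Ideal.absNorm a * ar (s.zl L) := by
  obtain ⟨x, hx, b, hb, rfl⟩ := s.unit_eq hL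
  have hab : a * b ≠ ⊥ := mul_ne_zero ha hb
  rw [mul_left_comm, ← idl_mul, zl_sc, zl_sc, ar_sc (s.c1bq_idl hab) hx, ar_sc (s.c1bq_idl hb) hx,
    s.c1bq_ar1 hab, s.c1bq_ar1 hb, map_mul, Nat.cast_mul]
  ring

theorem reps_card (hL : IsUnit L) (ha : a ≠ ⊥) {R : Finset ℂ}
    (hR : Reps (s.zl (s.idl a * L)) (s.zl L) R) : R.card = Ideal.absNorm a := by
  have h1 := ar_reps (s.isLat_zl ((s.isUnit_idl ha).mul hL)) (s.isLat_zl hL) hR
  rw [s.c1bq_ar hL ha] at h1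
  exact_mod_cast (mul_right_cancel₀ (ar_pos (s.isLat_zl hL)).ne' h1).symm

theorem reps_card' (hL : IsUnit L) (ha : a ≠ ⊥) {R : Finset ℂ}
    (hR : Reps (s.zl L) (s.zl (L * s.inv a)) R) : R.card = Ideal.absNorm a := by
  refine s.reps_card (hL.mul (s.isUnit_inv ha)) ha ?_
  rwa [mul_left_comm, s.idl_inv ha, mul_one]

theorem nL_pos (hL : IsUnit L) : 0 < s.nL L := by
  exact div_pos (ar_pos (s.isLat_zl hL)) (ar_pos s.c1bq_lat)

theorem nL_one : s.nL 1 = 1 := by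
  exact div_self (ar_pos s.c1bq_lat).ne'

theorem nL_sc (hL : IsUnit L) (hx : x ≠ 0) : s.nL (s.sc x * L) = ‖x‖ ^ 2 * s.nL L := by
  rw [nL, nL, zl_sc, ar_sc (s.isLat_zl hL) hx, mul_div_assoc]

theorem nL_idl (hL : IsUnit L) (ha : a ≠ ⊥) : s.nL (s.idl a * L) = Ideal.absNorm a * s.nL L := by
  rw [nL, nL, s.c1bq_ar hL ha, mul_div_assoc]

theorem nL_mul (hL : IsUnit L) (hM : IsUnit M) : s.nL (L * M) = s.nL L * s.nL M := by
  obtain ⟨x, hx, a, ha, rfl⟩ := s.unit_eq hL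
  have h1 := s.nL_idl isUnit_one ha
  rw [mul_one, nL_one, mul_one] at h1
  rw [mul_assoc, s.nL_sc ((s.isUnit_idl ha).mul hM) hx, s.nL_sc (s.isUnit_idl ha) hx,
    s.nL_idl hM ha, h1, mul_assoc]

theorem mem_cj : x ∈ s.cj L ↔ conj x ∈ L := by
  refine ⟨fun h => ?_, fun h => Submodule.subset_span h⟩
  obtain ⟨e, -, he⟩ := s.exists_conj
  induction h using Submodule.span_induction with
  | mem y hy => exact hy
  | zero => rw [map_zero]; exact L.zero_mem
  | add y z _ _ hy hz => rw [map_add]; exact L.add_mem hy hz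
  | smul β y _ hy => rw [smul_eq, map_mul, ← he]; exact s.c_mul_mem _ hy

theorem cj_cj (L : s.Sub) : s.cj (s.cj L) = L := by
  ext x
  rw [mem_cj, mem_cj, Complex.conj_conj]

theorem cj_mul (L M : s.Sub) : s.cj (L * M) = s.cj L * s.cj M := by
  refine le_antisymm (fun x hx => ?_) (Submodule.mul_le.2 fun x hx y hy => ?_)
  · have h : ∀ y ∈ L * M, conj y ∈ s.cj L * s.cj M := fun y hy => by
      refine Submodule.mul_induction_on hy (fun p hp q hq => ?_) fun p q hp hq => ?_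
      · rw [map_mul]
        exact Submodule.mul_mem_mul (s.mem_cj.2 (by rwa [Complex.conj_conj]))
          (s.mem_cj.2 (by rwa [Complex.conj_conj]))
      · rw [map_add]
        exact add_mem hp hq
    have := h _ (s.mem_cj.1 hx)
    rwa [Complex.conj_conj] at this
  · rw [mem_cj, map_mul]
    exact Submodule.mul_mem_mul (s.mem_cj.1 hx) (s.mem_cj.1 hy)

theorem cj_sc (x : ℂ) : s.cj (s.sc x) = s.sc (conj x) := by
  obtain ⟨e, -, he⟩ := s.exists_conj
  ext y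
  rw [mem_cj, sc, sc, Submodule.mem_span_singleton, Submodule.mem_span_singleton]
  constructor
  · rintro ⟨β, h⟩
    refine ⟨e β, ?_⟩
    rw [smul_eq, he, ← map_mul, ← smul_eq, h, Complex.conj_conj]
  · rintro ⟨β, rfl⟩
    refine ⟨e β, ?_⟩
    rw [smul_eq, smul_eq, he, map_mul, Complex.conj_conj]

theorem cj_one : s.cj 1 = 1 := by
  rw [← sc_one, cj_sc, map_one]

theorem c1bq_cj {e : s.O ≃+* s.O} (he : ∀ x, s.c (e x) = conj (s.c x)) (a : Ideal s.O) :
    s.cj (s.idl a) = s.idl (a.map e) := by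
  ext y
  rw [mem_cj, mem_idl, mem_idl]
  constructor
  · rintro ⟨β, hβ, h⟩
    exact ⟨e β, Ideal.mem_map_of_mem _ hβ, by rw [he, h, Complex.conj_conj]⟩
  · rintro ⟨β, hβ, rfl⟩
    obtain ⟨γ, hγ, rfl⟩ := (Ideal.mem_map_iff_of_surjective e e.surjective).1 hβ
    exact ⟨γ, hγ, by rw [he, Complex.conj_conj]⟩

theorem cj_p1 : s.cj (s.idl s.p1) = s.idl s.p2 := by
  obtain ⟨e, hw, he⟩ := s.exists_conj
  rw [s.c1bq_cj he, p1, p2, Ideal.map_span, Set.image_pair, hw, map_ofNat]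

theorem isUnit_cj (hL : IsUnit L) : IsUnit (s.cj L) := by
  obtain ⟨L', h⟩ := hL.exists_right_inv
  exact IsUnit.of_mul_eq_one (s.cj L') (by rw [← cj_mul, h, cj_one])

theorem c1bq_norm {e : s.O ≃+* s.O} (he : ∀ x, s.c (e x) = conj (s.c x)) (ha : a ≠ ⊥) :
    a * a.map e = Ideal.span {(Ideal.absNorm a : s.O)} := by
  have ha' : a ∈ nonZeroDivisors (Ideal s.O) := mem_nonZeroDivisors_iff_ne_zero.2 ha
  have h1 : ClassGroup.mk0 (⟨a, ha'⟩ ^ Fintype.card (ClassGroup s.O)) = 1 := by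
    rw [map_pow, pow_card_eq_one]
  obtain ⟨β, hβ⟩ := (ClassGroup.mk0_eq_one_iff (pow_mem ha' _)).1 h1
  have hβ' : a ^ Fintype.card (ClassGroup s.O) = Ideal.span {β} := hβ
  refine pow_left_injective (n := Fintype.card (ClassGroup s.O)) Fintype.card_ne_zero ?_
  show (a * a.map e) ^ _ = Ideal.span {(Ideal.absNorm a : s.O)} ^ _
  rw [mul_pow, ← Ideal.map_pow, hβ', Ideal.map_span, Set.image_singleton,
    Ideal.span_singleton_mul_span_singleton, Ideal.span_singleton_pow, ← Nat.cast_pow, ← map_pow,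
    hβ']
  congr 2
  refine s.c_inj ?_
  rw [c_mul, he, c_nat, Complex.mul_conj, Complex.normSq_eq_norm_sq, ← norm_c]
  rfl

theorem mul_cj (hL : IsUnit L) : L * s.cj L = s.sc (s.nL L) := by
  obtain ⟨e, -, he⟩ := s.exists_conj
  obtain ⟨x, hx, a, ha, rfl⟩ := s.unit_eq hL
  have h1 := s.nL_idl isUnit_one ha
  rw [mul_one, nL_one, mul_one] at h1
  rw [cj_mul, cj_sc, s.c1bq_cj he, mul_mul_mul_comm, ← idl_mul, s.c1bq_norm he ha, idl_span, c_nat,
    ← sc_mul, ← sc_mul, s.nL_sc (s.isUnit_idl ha) hx, h1, Complex.mul_conj, Complex.normSq_eq_norm_sq]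
  push_cast
  rfl

theorem mul_conj_mem (hL : IsUnit L) (hx : x ∈ L) (hy : y ∈ L) :
    ∃ β : s.O, x * conj y = s.nL L * s.c β := by
  have h : x * conj y ∈ L * s.cj L :=
    Submodule.mul_mem_mul hx (s.mem_cj.2 (by rwa [Complex.conj_conj]))
  rw [s.mul_cj hL, sc, Submodule.mem_span_singleton] at h
  obtain ⟨β, h⟩ := h
  exact ⟨β, by rw [← h, smul_eq, mul_comm]⟩

end St

end Pool.Agent.P.MP_20768c_nt.Az.Cu

end

-- part Cu.G1a
section

set_option autoImplicit false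

open Complex NumberField IsDedekindDomain Filter Topology
open UpperHalfPlane hiding I
open scoped ComplexConjugate Real MatrixGroups

namespace Pool.Agent.P.MP_20768c_nt.Az.Cu

open Pool.Agent.P.MP_20768c_nt.Az.EQ (Lt pr sp IsLat jL qN)

variable {L : Lt}

theorem g1a_one {a : ℂ} (ha : 0 < a.re) (b : ℂ) :
    Summable fun n : ℤ => ‖cexp (-π * a * n ^ 2 + 2 * π * b * n)‖ := by
  rw [summable_norm_iff]
  have h := (summable_jacobiTheta₂_term_iff (-I * b) (I * a)).2 (by simpa using ha)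
  refine h.congr fun n => ?_
  rw [jacobiTheta₂_term]
  congr 1
  linear_combination (π * n ^ 2 * a - 2 * π * n * b) * I_mul_I

theorem g1a_sum0 (h : IsLat L) {v : ℂ} (hv : 0 < v.re) (A B : ℂ) :
    Summable fun l : L => cexp (-v * (l * conj (l : ℂ)) + A * l + B * conj (l : ℂ)) :=
  Summable.of_norm (by simpa only [pow_zero, one_mul] using summable_gauss h hv 0 A B)

theorem g1a_sum1 (h : IsLat L) {v : ℂ} (hv : 0 < v.re) (A B : ℂ) :
    Summable fun l : L =>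
      conj (l : ℂ) * cexp (-v * (l * conj (l : ℂ)) + A * l + B * conj (l : ℂ)) :=
  Summable.of_norm (by
    simpa only [pow_one, norm_mul, Complex.norm_conj] using summable_gauss h hv 1 A B)

theorem g1a_deriv (h : IsLat L) {v : ℂ} (hv : 0 < v.re) (A B : ℂ) :
    HasDerivAt (fun s => ∑' l : L, cexp (-v * (l * conj (l : ℂ)) + A * l + s * conj (l : ℂ)))
      (∑' l : L, conj (l : ℂ) * cexp (-v * (l * conj (l : ℂ)) + A * l + B * conj (l : ℂ))) B := by
  have hv' : 0 < (v - ((v.re / 2 : ℝ) : ℂ)).re := by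
    rw [sub_re, ofReal_re]
    linarith
  have hs := (summable_gauss h hv' 1 A B).mul_left (Real.exp (1 / (2 * v.re)))
  refine hasDerivAt_tsum_of_isPreconnected
    (g := fun (l : L) s => cexp (-v * (l * conj (l : ℂ)) + A * l + s * conj (l : ℂ)))
    (g' := fun (l : L) s =>
      conj (l : ℂ) * cexp (-v * (l * conj (l : ℂ)) + A * l + s * conj (l : ℂ)))
    hs (Metric.isOpen_ball (x := B) (ε := 1)) (convex_ball B 1).isPreconnected
    (fun l s _ => ?_) (fun l s hs => ?_) (Metric.mem_ball_self one_pos) (g1a_sum0 h hv A B)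
    (Metric.mem_ball_self one_pos)
  · have h1 := (((hasDerivAt_id s).mul_const (conj (l : ℂ))).const_add
      (-v * (l * conj (l : ℂ)) + A * l)).cexp
    simpa only [id, one_mul, mul_comm] using h1
  · have h1 : -v * (l * conj (l : ℂ)) + A * l + s * conj (l : ℂ) =
        (-(v - ((v.re / 2 : ℝ) : ℂ)) * (l * conj (l : ℂ)) + A * l + B * conj (l : ℂ)) +
          ((s - B) * conj (l : ℂ) - ((v.re / 2 * ‖(l : ℂ)‖ ^ 2 : ℝ) : ℂ)) := by
      rw [ofReal_mul, ofReal_pow, ← Complex.mul_conj']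
      ring
    have h2 : ((s - B) * conj (l : ℂ)).re ≤ ‖(l : ℂ)‖ := by
      refine (re_le_norm _).trans ?_
      rw [norm_mul, Complex.norm_conj]
      exact mul_le_of_le_one_left (norm_nonneg _) (by
        rw [← dist_eq_norm]; exact (Metric.mem_ball.1 hs).le)
    have h3 : ‖(l : ℂ)‖ - v.re / 2 * ‖(l : ℂ)‖ ^ 2 ≤ 1 / (2 * v.re) := by
      rw [le_div_iff₀ (by linarith)]
      nlinarith [sq_nonneg (v.re * ‖(l : ℂ)‖ - 1)]
    rw [h1, Complex.exp_add, norm_mul, norm_mul, Complex.norm_conj, pow_one, ← mul_assoc, mul_comm,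
      Complex.norm_exp, sub_re, ofReal_re]
    exact mul_le_mul_of_nonneg_right (Real.exp_le_exp.2 (by linarith)) (by positivity)

theorem g1a_equiv {c : ℂ} (hc : c ≠ 0) (τ : ℍ) :
    ∃ e : ℤ × ℤ ≃ sp c (c * τ), ∀ p, (e p : ℂ) = p.2 * c + p.1 * (c * τ) := by
  refine ⟨Equiv.ofBijective (fun p => ⟨p.2 * c + p.1 * (c * τ),
    Pool.Agent.P.MP_20768c_nt.Az.EQ.mem_sp.2 ⟨_, _, rfl⟩⟩) ⟨?_, ?_⟩, fun _ => rfl⟩
  · rintro ⟨n, m⟩ ⟨n', m'⟩ h
    have h1 : (m : ℂ) * c + n * (c * τ) = m' * c + n' * (c * τ) := congrArg Subtype.val h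
    have h2 : ((n - n' : ℤ) : ℂ) * τ + ((m - m' : ℤ) : ℂ) = 0 := by
      apply mul_left_cancel₀ hc
      push_cast
      linear_combination h1
    obtain ⟨h3, h4⟩ := Pool.Agent.P.MP_20768c_nt.Az.EQ.int_indep_lat τ h2
    rw [sub_eq_zero.1 h3, sub_eq_zero.1 h4]
  · rintro ⟨v, hv⟩
    obtain ⟨m, n, rfl⟩ := Pool.Agent.P.MP_20768c_nt.Az.EQ.mem_sp.1 hv
    exact ⟨(n, m), rfl⟩

theorem g1a_sqrt {u : ℂ} (hu : u ≠ 0) {r s : ℝ} (hr : 0 < r) (hs : 0 < s) :
    ((r : ℂ) * u) ^ (1 / 2 : ℂ) * (((r * s ^ 2 : ℝ) : ℂ) * u) ^ (1 / 2 : ℂ) = r * s * u := by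
  have h0 : (r : ℂ) * u ≠ 0 := mul_ne_zero (ofReal_ne_zero.2 hr.ne') hu
  have h1 : ((r * s ^ 2 : ℝ) : ℂ) * u = ((s ^ 2 : ℝ) : ℂ) * (r * u) := by
    push_cast
    ring
  have h2 : ((s ^ 2 : ℝ) : ℂ) ^ (1 / 2 : ℂ) = s := by
    have h3 := ofReal_cpow (sq_nonneg s) (1 / 2)
    rw [← Real.sqrt_eq_rpow, Real.sqrt_sq hs.le] at h3
    rw [h3]
    norm_num
  have h4 : (((s ^ 2 : ℝ) : ℂ) * (r * u)) ^ (1 / 2 : ℂ) =
      ((s ^ 2 : ℝ) : ℂ) ^ (1 / 2 : ℂ) * ((r : ℂ) * u) ^ (1 / 2 : ℂ) := by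
    have h5 : ((s ^ 2 : ℝ) : ℂ) ≠ 0 := ofReal_ne_zero.2 (by positivity)
    rw [cpow_def_of_ne_zero (mul_ne_zero h5 h0), cpow_def_of_ne_zero h5, cpow_def_of_ne_zero h0,
      log_ofReal_mul (by positivity) h0, ← ofReal_log (sq_nonneg s), add_mul, Complex.exp_add]
  rw [h1, h4, h2, mul_left_comm, ← cpow_add _ _ h0, add_halves, cpow_one]
  ring

theorem g1a_two {a a' : ℂ} (ha : 0 < a.re) (ha' : 0 < a'.re) (x : ℝ) (b b' : ℂ) :
    ∑' n : ℤ, ∑' m : ℤ, cexp (-π * a * (m + x * n) ^ 2 + 2 * π * b * (m + x * n) +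
      (-π * a' * n ^ 2 + 2 * π * b' * n)) =
    1 / (a ^ (1 / 2 : ℂ) * a' ^ (1 / 2 : ℂ)) * ∑' p : ℤ, ∑' q : ℤ,
      cexp (-π / a * (-p + I * b) ^ 2 + -π / a' * (q + x * p + I * b') ^ 2) := by
  have ha0 : a ≠ 0 := fun h => by simp [h] at ha
  have h1 : ∀ n : ℤ, ∑' m : ℤ, cexp (-π * a * (m + x * n) ^ 2 + 2 * π * b * (m + x * n) +
      (-π * a' * n ^ 2 + 2 * π * b' * n)) = 1 / a ^ (1 / 2 : ℂ) * ∑' p : ℤ,
        cexp (-π / a * (-p + I * b) ^ 2) *
          cexp (-π * a' * n ^ 2 + 2 * π * (b' - I * x * p) * n) := by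
    intro n
    have h2 := Complex.tsum_exp_neg_quadratic ha (b - a * x * n)
    rw [← (Equiv.neg ℤ).tsum_eq fun p : ℤ => cexp (-π / a * (p + I * (b - a * x * n)) ^ 2)] at h2
    calc _ = (∑' m : ℤ, cexp (-π * a * m ^ 2 + 2 * π * (b - a * x * n) * m)) *
          cexp (-π * a * (x * n) ^ 2 + 2 * π * b * (x * n) +
            (-π * a' * n ^ 2 + 2 * π * b' * n)) := by
          rw [← tsum_mul_right]
          refine tsum_congr fun m => ?_
          rw [← Complex.exp_add]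
          congr 1
          ring
      _ = _ := by
          rw [h2, mul_assoc, ← tsum_mul_right]
          congr 1
          refine tsum_congr fun p => ?_
          rw [← Complex.exp_add, ← Complex.exp_add, Equiv.neg_apply, Int.cast_neg]
          congr 1
          have h3 : -π / a * a = -π := div_mul_cancel₀ _ ha0
          generalize -(π : ℂ) / a = k at h3
          linear_combination (2 * I * p * x * n + 2 * b * x * n - a * x ^ 2 * n ^ 2) * h3 +
            (k * (a * x * n) ^ 2 - 2 * k * b * a * x * n) * I_mul_I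
  have hinv : 0 < (a⁻¹).re := by
    rw [inv_re]
    exact div_pos ha (normSq_pos.2 ha0)
  have hs : Summable (Function.uncurry fun (n p : ℤ) => cexp (-π / a * (-p + I * b) ^ 2) *
      cexp (-π * a' * n ^ 2 + 2 * π * (b' - I * x * p) * n)) := by
    refine Summable.of_norm ?_
    have h2 := (summable_mul_of_summable_norm (g1a_one ha' b').norm
      (g1a_one hinv (I * b / a)).norm).mul_left ‖cexp (π / a * b ^ 2)‖
    refine h2.congr fun ⟨n, p⟩ => ?_
    have h3 : -π / a * (-p + I * b) ^ 2 =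
        π / a * b ^ 2 + (-π * a⁻¹ * p ^ 2 + 2 * π * (I * b / a) * p) := by
      linear_combination (-π / a * b ^ 2) * I_mul_I
    have h4 : -π * a' * n ^ 2 + 2 * π * (b' - I * x * p) * n =
        (-π * a' * n ^ 2 + 2 * π * b' * n) + ((-(2 * π * x * p * n) : ℝ) : ℂ) * I := by
      push_cast
      ring
    simp only [Function.uncurry]
    rw [h3, h4, Complex.exp_add (π / a * b ^ 2), Complex.exp_add (_ + 2 * π * b' * n), norm_mul,
      norm_mul, norm_mul, norm_exp_ofReal_mul_I]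
    ring
  simp_rw [h1]
  rw [tsum_mul_left, ← hs.tsum_comm, ← one_div_mul_one_div, mul_assoc]
  congr 1
  rw [← tsum_mul_left]
  refine tsum_congr fun p => ?_
  rw [tsum_mul_left, Complex.tsum_exp_neg_quadratic ha', mul_left_comm, ← tsum_mul_left]
  congr 1
  refine tsum_congr fun q => ?_
  rw [← Complex.exp_add, show (q : ℂ) + I * (b' - I * x * p) = q + x * p + I * b' by
    linear_combination (-(x : ℂ) * p) * I_mul_I]

theorem g1a_pos {A : ℝ} (hA : 0 < A) {u : ℂ} (hu : 0 < u.re) :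
    0 < ((π : ℂ) ^ 2 / (A ^ 2 * u)).re := by
  have hu0 : u ≠ 0 := fun h => by simp [h] at hu
  have h : (π : ℂ) ^ 2 / (A ^ 2 * u) = ((π ^ 2 / A ^ 2 : ℝ) : ℂ) * u⁻¹ := by
    push_cast
    rw [← div_div, div_eq_mul_inv]
  rw [h, re_ofReal_mul, inv_re]
  exact mul_pos (by positivity) (div_pos hu (normSq_pos.2 hu0))

theorem g1a_core (h : IsLat L) (z w : ℂ) {u : ℂ} (hu : 0 < u.re) :
    cexp (-u * z * w) *
      ∑' l : L, cexp (-u * (l * conj (l : ℂ)) + -u * w * l + -u * z * conj (l : ℂ)) =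
    π / (ar L * u) * ∑' l : L, cexp (-(π ^ 2 / (ar L ^ 2 * u)) * (l * conj (l : ℂ)) +
      -(π / ar L) * w * l + π / ar L * z * conj (l : ℂ)) := by
  have hs1 := g1a_sum0 h hu (-u * w) (-u * z)
  have hs2 := g1a_sum0 h (g1a_pos (ar_pos h) hu) (-(π / ar L) * w) (π / ar L * z)
  obtain ⟨c, τ, hc, rfl⟩ := h
  obtain ⟨e, he⟩ := g1a_equiv hc τ
  have hu0 : u ≠ 0 := fun h => by simp [h] at hu
  have hN : 0 < ‖c‖ ^ 2 := by positivity
  have hy := τ.im_pos
  have hτ : (τ : ℂ) = τ.re + τ.im * I := (re_add_im (τ : ℂ)).symm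
  have hcc : c * conj c = ((‖c‖ ^ 2 : ℝ) : ℂ) := by rw [Complex.mul_conj', ofReal_pow]
  rw [← e.summable_iff, Function.comp_def] at hs1 hs2
  rw [← e.tsum_eq, ← e.tsum_eq, hs1.tsum_prod, hs2.tsum_prod]
  simp only [he]
  rw [ar_sp hc τ, hτ]
  generalize ‖c‖ ^ 2 = N at hN hcc
  generalize τ.re = x
  generalize τ.im = y at hy
  have hN0 : (N : ℂ) ≠ 0 := ofReal_ne_zero.2 hN.ne'
  have hy0 : (y : ℂ) ≠ 0 := ofReal_ne_zero.2 hy.ne'
  have hπ : (π : ℂ) ≠ 0 := ofReal_ne_zero.2 Real.pi_ne_zero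
  have hr : 0 < N / π := div_pos hN Real.pi_pos
  have h1 := g1a_two (a := ((N / π : ℝ) : ℂ) * u) (a' := ((N / π * y ^ 2 : ℝ) : ℂ) * u)
    (by rw [re_ofReal_mul]; positivity) (by rw [re_ofReal_mul]; positivity) x
    (-u * (w * c + z * conj c) / (2 * π)) (-u * I * y * (w * c - z * conj c) / (2 * π))
  rw [g1a_sqrt hu0 hr hy] at h1
  simp only [map_add, map_mul, map_intCast, conj_ofReal, conj_I]
  generalize conj c = d at hcc h1
  have h2 : ∀ n m : ℤ, -u * ((m * c + n * (c * (x + y * I))) * (m * d + n * (d * (x + y * -I)))) +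
      -u * w * (m * c + n * (c * (x + y * I))) + -u * z * (m * d + n * (d * (x + y * -I))) =
      -π * (((N / π : ℝ) : ℂ) * u) * (m + x * n) ^ 2 +
        2 * π * (-u * (w * c + z * d) / (2 * π)) * (m + x * n) +
      (-π * (((N / π * y ^ 2 : ℝ) : ℂ) * u) * n ^ 2 +
        2 * π * (-u * I * y * (w * c - z * d) / (2 * π)) * n) := by
    intro n m
    rw [ofReal_mul, ofReal_div, ofReal_pow, mul_div_cancel₀ _ (mul_ne_zero two_ne_zero hπ),
      mul_div_cancel₀ _ (mul_ne_zero two_ne_zero hπ)]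
    have h3 : (π : ℂ) * (N / π) = N := mul_div_cancel₀ _ hπ
    generalize (N : ℂ) / π = k at h3
    linear_combination (u * (m + x * n) ^ 2 + u * y ^ 2 * n ^ 2) * h3 -
      (u * (m + x * n) ^ 2 + u * y ^ 2 * n ^ 2) * hcc + (u * c * d * y ^ 2 * n ^ 2) * I_mul_I
  have h4 : ∀ p q : ℤ, -u * z * w + (-π / (((N / π : ℝ) : ℂ) * u) *
      (-p + I * (-u * (w * c + z * d) / (2 * π))) ^ 2 + -π / (((N / π * y ^ 2 : ℝ) : ℂ) * u) *
      (q + x * p + I * (-u * I * y * (w * c - z * d) / (2 * π))) ^ 2) =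
      -(π ^ 2 / (((N * y : ℝ) : ℂ) ^ 2 * u)) *
        ((q * c + p * (c * (x + y * I))) * (q * d + p * (d * (x + y * -I)))) +
      -(π / ((N * y : ℝ) : ℂ)) * w * (q * c + p * (c * (x + y * I))) +
        π / ((N * y : ℝ) : ℂ) * z * (q * d + p * (d * (x + y * -I))) := by
    intro p q
    have h5 : (q * c + p * (c * (x + y * I))) * (q * d + p * (d * (x + y * -I))) =
        N * ((q + x * p) ^ 2 + y ^ 2 * p ^ 2) := by
      linear_combination ((q + x * p) ^ 2 + y ^ 2 * p ^ 2) * hcc -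
        (c * d * y ^ 2 * p ^ 2) * I_mul_I
    have h6 : (-p + I * (-u * (w * c + z * d) / (2 * π))) ^ 2 =
        p ^ 2 + I * p * u * (w * c + z * d) / π - u ^ 2 * (w * c + z * d) ^ 2 / (4 * π ^ 2) := by
      have h7 : -u * (w * c + z * d) / (2 * π) = -(u * (w * c + z * d) / π) / 2 := by ring
      have h8 : u ^ 2 * (w * c + z * d) ^ 2 / (4 * π ^ 2) = (u * (w * c + z * d) / π) ^ 2 / 4 := by
        ring
      rw [h7, h8, mul_assoc (I * p), mul_div_assoc (I * p)]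
      generalize u * (w * c + z * d) / π = k
      linear_combination (k ^ 2 / 4) * I_mul_I
    have h9 : I * (-u * I * y * (w * c - z * d) / (2 * π)) = u * y * (w * c - z * d) / (2 * π) := by
      linear_combination (-u * y * (w * c - z * d) / (2 * π)) * I_mul_I
    rw [h5, h6, h9]
    push_cast
    field_simp
    linear_combination (16 * u ^ 2 * y ^ 2 * z * w) * hcc
  simp_rw [h2]
  rw [h1, mul_left_comm, ← tsum_mul_left]
  congr 1
  · push_cast
    field_simp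
  · refine tsum_congr fun p => ?_
    rw [← tsum_mul_left]
    refine tsum_congr fun q => ?_
    rw [← Complex.exp_add, h4]

theorem poissonP (h : IsLat L) (z w : ℂ) {u : ℂ} (hu : 0 < u.re) :
    ∑' l : L, cexp (-u * ((z + l) * (w + conj (l : ℂ)))) = π / (ar L * u) *
      ∑' l : L, cexp (π * (conj (l : ℂ) * z - l * w) / ar L -
        π ^ 2 * (l * conj (l : ℂ)) / (ar L ^ 2 * u)) := by
  have h1 := g1a_core h z w hu
  rw [← tsum_mul_left] at h1
  refine Eq.trans (tsum_congr fun l => ?_) (h1.trans (congrArg _ (tsum_congr fun l => ?_)))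
  · rw [← Complex.exp_add]
    congr 1
    ring
  · congr 1
    ring

theorem poissonP1 (h : IsLat L) (z w : ℂ) {u : ℂ} (hu : 0 < u.re) :
    ∑' l : L, (w + conj (l : ℂ)) * cexp (-u * ((z + l) * (w + conj (l : ℂ)))) =
      -(π ^ 2 / (ar L ^ 2 * u ^ 2)) * ∑' l : L, conj (l : ℂ) *
        cexp (π * (conj (l : ℂ) * z - l * w) / ar L - π ^ 2 * (l * conj (l : ℂ)) / (ar L ^ 2 * u)) := by
  have hu0 : u ≠ 0 := fun h => by simp [h] at hu
  have d1 := ((((hasDerivAt_id z).const_mul (-u)).mul_const w).cexp).mul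
    ((g1a_deriv h hu (-u * w) (-u * z)).comp z ((hasDerivAt_id z).const_mul (-u)))
  have d2 := ((g1a_deriv h (g1a_pos (ar_pos h) hu) (-(π / ar L) * w) (π / ar L * z)).comp z
    ((hasDerivAt_id z).const_mul (π / ar L : ℂ))).const_mul (π / (ar L * u))
  have h1 := d1.unique (d2.congr_of_eventuallyEq
    (Eventually.of_forall fun s => g1a_core h s w hu))
  simp only [id, mul_one, Function.comp] at h1
  have h2 : ∑' l : L, (w + conj (l : ℂ)) * cexp (-u * ((z + l) * (w + conj (l : ℂ)))) =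
      cexp (-u * z * w) * (w * ∑' l : L, cexp (-u * (l * conj (l : ℂ)) + -u * w * l +
        -u * z * conj (l : ℂ)) + ∑' l : L, conj (l : ℂ) * cexp (-u * (l * conj (l : ℂ)) +
        -u * w * l + -u * z * conj (l : ℂ))) := by
    rw [← tsum_mul_left, ← ((g1a_sum0 h hu _ _).mul_left w).tsum_add (g1a_sum1 h hu _ _),
      ← tsum_mul_left]
    refine tsum_congr fun l => ?_
    rw [← add_mul, mul_left_comm (cexp _), ← Complex.exp_add]
    congr 2
    ring
  have h3 : ∑' l : L, conj (l : ℂ) * cexp (π * (conj (l : ℂ) * z - l * w) / ar L -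
      π ^ 2 * (l * conj (l : ℂ)) / (ar L ^ 2 * u)) =
      ∑' l : L, conj (l : ℂ) * cexp (-(π ^ 2 / (ar L ^ 2 * u)) * (l * conj (l : ℂ)) +
        -(π / ar L) * w * l + π / ar L * z * conj (l : ℂ)) := by
    refine tsum_congr fun l => ?_
    congr 2
    ring
  rw [h2, h3]
  apply mul_left_cancel₀ (neg_ne_zero.2 hu0)
  have h5 : -u * -((π : ℂ) ^ 2 / (ar L ^ 2 * u ^ 2)) = π / (ar L * u) * (π / ar L) := by
    field_simp
  rw [← mul_assoc (-u) (-_), h5]
  linear_combination h1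

theorem poisson0 (h : IsLat L) (z : ℂ) {u : ℂ} (hu : 0 < u.re) :
    th0 L z u = π / (ar L * u) *
      ∑' l : L, pa L l z * cexp (-(π ^ 2 / (ar L ^ 2 * u)) * (l * conj (l : ℂ))) := by
  have h1 := poissonP h z (conj z) hu
  simp only [th0, pa, map_add]
  rw [h1]
  congr 1
  refine tsum_congr fun l => ?_
  rw [← Complex.exp_add]
  congr 1
  ring

theorem poisson1 (h : IsLat L) (z : ℂ) {u : ℂ} (hu : 0 < u.re) :
    th1 L z u = -(π ^ 2 / (ar L ^ 2 * u ^ 2)) *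
      ∑' l : L, conj (l : ℂ) * pa L l z * cexp (-(π ^ 2 / (ar L ^ 2 * u)) * (l * conj (l : ℂ))) := by
  have h1 := poissonP1 h z (conj z) hu
  simp only [th1, pa, map_add]
  rw [h1]
  congr 1
  refine tsum_congr fun l => ?_
  rw [mul_assoc, ← Complex.exp_add]
  congr 2
  ring

end Pool.Agent.P.MP_20768c_nt.Az.Cu

end

-- part Cu.C1b
section

set_option autoImplicit false

open Complex NumberField IsDedekindDomain Filter Topology
open UpperHalfPlane hiding I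
open scoped ComplexConjugate Real MatrixGroups

namespace Pool.Agent.P.MP_20768c_nt.Az.Cu

open Pool.Agent.P.MP_20768c_nt.Az.EQ (Lt pr sp IsLat jL qN)

namespace St

variable (s : St) {L M : s.Sub} {a b : Ideal s.O} {x y : ℂ}

theorem c1b_sc_pow (x : ℂ) (n : ℕ) : s.sc x ^ n = s.sc (x ^ n) := by
  induction n with
  | zero => rw [pow_zero, pow_zero, sc_one]
  | succ n ih => rw [pow_succ, pow_succ, ih, sc_mul]

theorem c1b_c_two : s.c 2 = 2 := by
  have := s.c_nat 2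
  exact_mod_cast this

theorem exists_pow : ∃ r : ℕ, 0 < r ∧ ∀ L : s.Sub, IsUnit L → ∃ x : ℂ, x ≠ 0 ∧ L ^ r = s.sc x := by
  refine ⟨Fintype.card (ClassGroup s.O), Fintype.card_pos, fun L hL => ?_⟩
  obtain ⟨x, hx, a, ha, rfl⟩ := s.unit_eq hL
  set r := Fintype.card (ClassGroup s.O)
  have h1 : ClassGroup.mk0 (⟨a, mem_nonZeroDivisors_of_ne_zero ha⟩ ^ r) = 1 := by
    rw [map_pow, pow_card_eq_one]
  obtain ⟨β, hβ⟩ := (ClassGroup.mk0_eq_one_iff
    (mem_nonZeroDivisors_of_ne_zero (pow_ne_zero r ha))).1 h1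
  have hβ' : a ^ r = Ideal.span {β} := hβ
  have h0 : β ≠ 0 := fun h => pow_ne_zero r ha (by rw [hβ', h]; simp)
  refine ⟨x ^ r * s.c β, mul_ne_zero (pow_ne_zero r hx) (s.c_ne h0), ?_⟩
  rw [mul_pow, c1b_sc_pow, ← idl_pow, hβ', idl_span, sc_mul]

theorem exists_fin : ∃ T : Finset s.Sub, (∀ M ∈ T, IsUnit M) ∧
    ∀ L : s.Sub, IsUnit L → ∃ M ∈ T, ∃ x : ℂ, x ≠ 0 ∧ L = s.sc x * M := by
  classical
  choose g hg using ClassGroup.mk0_surjective (R := s.O)
  refine ⟨Finset.univ.image fun C => s.idl (g C), fun M hM => ?_, fun L hL => ?_⟩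
  · obtain ⟨C, -, rfl⟩ := Finset.mem_image.1 hM
    exact s.isUnit_idl (nonZeroDivisors.coe_ne_zero _)
  · obtain ⟨x, hx, a, ha, rfl⟩ := s.unit_eq hL
    obtain ⟨β, γ, hβ, hγ, h⟩ := ClassGroup.mk0_eq_mk0_iff.1
      (hg (ClassGroup.mk0 ⟨a, mem_nonZeroDivisors_of_ne_zero ha⟩)).symm
    refine ⟨_, Finset.mem_image_of_mem _ (Finset.mem_univ
      (ClassGroup.mk0 ⟨a, mem_nonZeroDivisors_of_ne_zero ha⟩)), x * (s.c β)⁻¹ * s.c γ,
      mul_ne_zero (mul_ne_zero hx (inv_ne_zero (s.c_ne hβ))) (s.c_ne hγ), ?_⟩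
    have h2 := congrArg s.idl h
    rw [idl_mul, idl_mul, idl_span, idl_span] at h2
    rw [sc_mul, mul_assoc, ← h2, ← mul_assoc, ← sc_mul, inv_mul_cancel_right₀ (s.c_ne hβ)]

theorem exists_loc (hL : IsUnit L) : ∃ (x : ℂ) (β β' : s.O), x ≠ 0 ∧
    s.v (s.c β) = 1 ∧ s.v (s.c β') = 1 ∧ s.sc (s.c β) * L ≤ s.sc x ∧ s.sc (s.c β') * s.sc x ≤ L := by
  obtain ⟨x, hx, a, ha, rfl⟩ := s.unit_eq hL
  have h1 : ¬ a ≤ a * s.p1 := fun h => by
    have h2 : a * s.p1 = a * ⊤ := by rw [Ideal.mul_top]; exact le_antisymm Ideal.mul_le_left h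
    exact s.p1_max.ne_top (mul_left_cancel₀ ha h2)
  obtain ⟨γ, hγ, hγ'⟩ := SetLike.not_le_iff_exists.1 h1
  obtain ⟨b, hb⟩ := Ideal.dvd_iff_le.2 ((Ideal.span_singleton_le_iff_mem a).2 hγ)
  have h3 : ¬ b ≤ s.p1 := fun h => hγ' (by
    have : Ideal.span {γ} ≤ a * s.p1 := by rw [hb]; exact Ideal.mul_mono_right h
    exact this (Ideal.mem_span_singleton_self γ))
  obtain ⟨β, hβ, hβ'⟩ := SetLike.not_le_iff_exists.1 h3
  have h0 : γ ≠ 0 := fun h => hγ' (h ▸ zero_mem _)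
  refine ⟨x * s.c γ, β, 1, mul_ne_zero hx (s.c_ne h0),
    le_antisymm (s.v_c _ _) (not_lt.1 fun h => hβ' ((s.mem_p1 β).2 h)),
    by rw [c_one, map_one], ?_, ?_⟩
  · rw [sc_mul, mul_left_comm, ← idl_span, ← idl_span, ← idl_mul]
    refine mul_le_mul_right (s.idl_le.2 ?_) _
    rw [hb, mul_comm]
    exact Ideal.mul_mono_right ((Ideal.span_singleton_le_iff_mem b).2 hβ)
  · rw [c_one, sc_one, one_mul, sc_mul, ← idl_span]
    exact mul_le_mul_right (s.idl_le.2 ((Ideal.span_singleton_le_iff_mem a).2 hγ)) _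

theorem cyc_sub (hL : IsUnit L) {q : Ideal s.O} (hq : q.IsMaximal) (h0 : q ≠ ⊥) {t : ℂ}
    (ht : t ∈ L * s.inv q) (ht' : t ∉ L) (hy : y ∈ L * s.inv q) : ∃ β : s.O, y - s.c β * t ∈ L := by
  obtain ⟨L', hL'⟩ := hL.exists_right_inv
  have hU : IsUnit (s.idl q * L') :=
    (s.isUnit_idl h0).mul (IsUnit.of_mul_eq_one_right L hL')
  have e1 : L * s.inv q * (s.idl q * L') = 1 := by
    rw [mul_mul_mul_comm, mul_comm (s.inv q), mul_mul_mul_comm, hL', s.idl_inv h0, one_mul]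
  have e2 : L * (s.idl q * L') = s.idl q := by rw [mul_left_comm, hL', mul_one]
  have hJ : L ⊔ s.sc t ≤ L * s.inv q :=
    sup_le (s.le_mul_inv h0 L) ((Submodule.span_singleton_le_iff_mem _ _).2 ht)
  obtain ⟨a, ha⟩ := s.exists_idl (L := (L ⊔ s.sc t) * (s.idl q * L'))
    (by rw [← e1]; exact mul_le_mul_left hJ _)
  have h1 : q ≤ a := by
    have h6 : L * (s.idl q * L') ≤ (L ⊔ s.sc t) * (s.idl q * L') :=
      mul_le_mul_left (le_sup_left : L ≤ L ⊔ s.sc t) _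
    rw [ha, e2] at h6
    exact s.idl_le.1 h6
  have h2 : a = ⊤ := by
    by_contra hc
    have h3 := hq.eq_of_le hc h1
    have h4 : (L ⊔ s.sc t) * (s.idl q * L') ≤ L * (s.idl q * L') := by rw [ha, e2, h3]
    exact ht' ((s.mul_le_mul_unit hU).1 h4 (Submodule.mem_sup_right (s.mem_sc t)))
  have h5 : L * s.inv q ≤ L ⊔ s.sc t := by
    rw [← s.mul_le_mul_unit hU, ha, h2, idl_top, e1]
  obtain ⟨l, hl, z, hz, rfl⟩ := Submodule.mem_sup.1 (h5 hy)
  obtain ⟨β, rfl⟩ := Submodule.mem_span_singleton.1 hz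
  exact ⟨β, by rw [smul_eq, add_sub_cancel_right]; exact hl⟩

theorem c1b_max {q : Ideal s.O} (hq : q = s.p1 ∨ q = s.p2) :
    q.IsMaximal ∧ q ≠ ⊥ ∧ (2 : s.O) ∈ q ∧ ∀ β, β ∉ q → β - 1 ∈ q := by
  rcases hq with rfl | rfl
  · exact ⟨s.p1_max, s.p1_ne, Ideal.subset_span (by simp), fun _ => s.sub_one_p1⟩
  · exact ⟨s.p2_max, s.p2_ne, Ideal.subset_span (by simp), fun _ => s.sub_one_p2⟩

theorem exists_two (hL : IsUnit L) {q : Ideal s.O} (hq : q = s.p1 ∨ q = s.p2) :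
    ∃ t, t ∈ L * s.inv q ∧ t ∉ L := by
  obtain ⟨h1, h0, -, -⟩ := s.c1b_max hq
  refine SetLike.not_le_iff_exists.1 fun h => h1.ne_top ?_
  have h2 : s.inv q ≤ 1 := by
    rw [← s.mul_le_mul_unit hL, one_mul, mul_comm]; exact h
  rw [eq_top_iff, ← s.idl_le, idl_top, ← s.idl_inv h0]
  exact (mul_le_mul_right h2 _).trans (mul_one _).le

theorem two_of_mem (hL : IsUnit L) {q : Ideal s.O} (hq : q = s.p1 ∨ q = s.p2) {t : ℂ}
    (ht : t ∈ L * s.inv q) (ht' : t ∉ L) : Two (s.zl L) (s.zl (L * s.inv q)) t := by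
  obtain ⟨h1, h0, h2, h3⟩ := s.c1b_max hq
  have h4 := (s.mem_mul_inv h0).1 ht
  refine ⟨by rwa [mem_zl], by rw [mem_zl, ← c1b_c_two]; exact h4 _ h2, fun z => ?_⟩
  simp only [mem_zl]
  constructor
  · intro hz
    obtain ⟨β, hβ⟩ := s.cyc_sub hL h1 h0 ht ht' hz
    by_cases hb : β ∈ q
    · left
      have := add_mem hβ (h4 β hb)
      rwa [sub_add_cancel] at this
    · right
      have := add_mem hβ (h4 _ (h3 β hb))
      rw [c_sub, c_one] at this
      convert this using 1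
      ring
  · rintro (hz | hz)
    · exact s.le_mul_inv h0 L hz
    · have := add_mem (s.le_mul_inv h0 L hz) ht
      rwa [sub_add_cancel] at this

theorem c1b_pair {β γ : s.O} (h : Ideal.span {β, γ} ≠ ⊥) :
    x ∈ L * s.inv (Ideal.span {β, γ}) ↔ s.c β * x ∈ L ∧ s.c γ * x ∈ L := by
  rw [s.mem_mul_inv h]
  constructor
  · intro H
    exact ⟨H _ (Ideal.subset_span (by simp)), H _ (Ideal.subset_span (by simp))⟩
  · rintro ⟨h1, h2⟩ δ hδ
    obtain ⟨u, u', rfl⟩ := Ideal.mem_span_pair.1 hδ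
    rw [c_add, c_mul, c_mul, add_mul, mul_assoc, mul_assoc]
    exact add_mem (s.c_mul_mem _ h1) (s.c_mul_mem _ h2)

theorem mem_inv_p1 : x ∈ L * s.inv s.p1 ↔ 2 * x ∈ L ∧ s.c s.w * x ∈ L := by
  rw [← c1b_c_two]
  exact s.c1b_pair s.p1_ne

theorem mem_inv_p2 : x ∈ L * s.inv s.p2 ↔ 2 * x ∈ L ∧ (1 - s.c s.w) * x ∈ L := by
  rw [← c1b_c_two, ← c_one, ← c_sub]
  exact s.c1b_pair s.p2_ne

theorem gen2_add {t₁ t₂ : ℂ} (h1 : t₁ ∈ L * s.inv s.p1) (k1 : t₁ ∉ L)
    (h2 : t₂ ∈ L * s.inv s.p2) (k2 : t₂ ∉ L) : s.Gen2 L (t₁ + t₂) := by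
  obtain ⟨a1, a2⟩ := s.mem_inv_p1.1 h1
  obtain ⟨b1, b2⟩ := s.mem_inv_p2.1 h2
  refine ⟨by rw [mul_add]; exact add_mem a1 b1, fun h => k2 ?_, fun h => k1 ?_⟩
  · convert add_mem (sub_mem h a2) b2 using 1
    ring
  · convert add_mem (sub_mem h b2) a2 using 1
    ring

end St

end Pool.Agent.P.MP_20768c_nt.Az.Cu

end

-- part Cu.G1b_p
section

set_option autoImplicit false

open Complex NumberField IsDedekindDomain Filter Topology
open UpperHalfPlane hiding I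
open scoped ComplexConjugate Real MatrixGroups

namespace Pool.Agent.P.MP_20768c_nt.Az.Cu

open Pool.Agent.P.MP_20768c_nt.Az.EQ (Lt pr sp IsLat jL qN)

variable {L L' : Lt} {R : Finset ℂ} {z x : ℂ}

theorem g1bp_norm (w u : ℂ) :
    ‖conj w * cexp (-u * (w * conj w))‖ = ‖w‖ ^ 1 * Real.exp (-u.re * ‖w‖ ^ 2) := by
  rw [norm_mul, Complex.norm_conj, pow_one, Complex.norm_exp, Complex.mul_conj,
    Complex.normSq_eq_norm_sq, Complex.mul_re, Complex.ofReal_re, Complex.ofReal_im, mul_zero,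
    sub_zero, Complex.neg_re]

theorem g1bp_if (L : Lt) (z : ℂ) (u : ℝ) :
    ∑' l : L, (if z + l = 0 then 0 else ‖z + l‖ ^ 1 * Real.exp (-u * ‖z + l‖ ^ 2)) =
      ∑' l : L, ‖z + l‖ ^ 1 * Real.exp (-(u : ℂ).re * ‖z + l‖ ^ 2) := by
  refine tsum_congr fun l => ?_
  rw [Complex.ofReal_re]
  split_ifs with h
  · rw [h, norm_zero, pow_one, zero_mul]
  · rfl

theorem th1_add (L : Lt) (z u : ℂ) {l : ℂ} (hl : l ∈ L) : th1 L (z + l) u = th1 L z u := by
  unfold th1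
  rw [← (Equiv.addLeft (⟨l, hl⟩ : L)).tsum_eq fun m : L =>
    conj (z + m) * cexp (-u * ((z + m) * conj (z + m)))]
  refine tsum_congr fun m => ?_
  rw [Equiv.coe_addLeft, Submodule.coe_add, add_assoc]

theorem th1_neg (L : Lt) (z u : ℂ) : th1 L (-z) u = -th1 L z u := by
  unfold th1
  rw [← tsum_neg, ← (Equiv.neg L).tsum_eq]
  refine tsum_congr fun m => ?_
  rw [Equiv.neg_apply, Submodule.coe_neg, ← neg_add, map_neg, neg_mul_neg, neg_mul]

theorem th1_sc (L : Lt) (hx : x ≠ 0) (z u : ℂ) :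
    th1 (pr x * L) (x * z) u = conj x * th1 L z (x * conj x * u) := by
  unfold th1
  rw [tsum_sc L hx fun l => conj (x * z + l) * cexp (-u * ((x * z + l) * conj (x * z + l))),
    ← tsum_mul_left]
  refine tsum_congr fun m => ?_
  rw [← mul_add, map_mul, mul_assoc]
  congr 3
  ring

theorem th1_reps (h' : IsLat L') (hR : Reps L L' R) (z : ℂ) {u : ℂ} (hu : 0 < u.re) :
    th1 L' z u = ∑ r ∈ R, th1 L (z + r) u := by
  unfold th1
  rw [reps_tsum hR (f := fun l => conj (z + l) * cexp (-u * ((z + l) * conj (z + l))))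
    (Summable.of_norm ((summable_th h' hu 1 z).congr fun l => (g1bp_norm _ u).symm))]
  simp only [add_assoc]

theorem int_th1 (h : IsLat L) (z : ℂ) :
    MeasureTheory.IntegrableOn (fun u : ℝ => th1 L z u) (Set.Ioi 0) := by
  have hc : Countable L := (lat_countable h).to_subtype
  have hm : Measurable fun u : ℝ => th1 L z u := by
    unfold th1
    exact Measurable.tsum fun l => Continuous.measurable (by fun_prop)
  rw [← Set.Ioc_union_Ioi_eq_Ioi zero_le_one]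
  refine MeasureTheory.IntegrableOn.union ?_ ?_
  · have hA := ar_pos h
    obtain ⟨B, hB⟩ : ∃ B : ℝ, B = π ^ 2 / ar L ^ 2 := ⟨_, rfl⟩
    have hB0 : 0 < B := by rw [hB]; positivity
    obtain ⟨C, δ, hδ, hC⟩ := gauss_decay h 1 0 hB0
    refine MeasureTheory.Measure.integrableOn_of_bounded (M := 2 * |C| / (B * δ ^ 2))
      (by simp) hm.aestronglyMeasurable ?_
    filter_upwards [MeasureTheory.ae_restrict_mem measurableSet_Ioc] with u hu
    have hu0 : 0 < u := hu.1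
    have hv : B ≤ B / u := le_div_self hB0.le hu0 hu.2
    have hv0 : 0 < B / u := hB0.trans_le hv
    have e1 : (π ^ 2 / (ar L ^ 2 * u) : ℂ) = ((B / u : ℝ) : ℂ) := by
      rw [hB, div_div]
      push_cast
      rfl
    have e2 : (π ^ 2 / (ar L ^ 2 * u ^ 2) : ℂ) = (((B / u) ^ 2 / B : ℝ) : ℂ) := by
      have : (B / u) ^ 2 / B = π ^ 2 / (ar L ^ 2 * u ^ 2) := by
        rw [← div_div, ← hB]
        field_simp
      rw [this]
      push_cast
      rfl
    rw [poisson1 h z (by simpa using hu0), e1, e2, norm_mul, norm_neg, Complex.norm_real,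
      Real.norm_of_nonneg (by positivity)]
    generalize B / u = v at hv hv0
    have h1 : ‖∑' l : L, conj (l : ℂ) * pa L l z * cexp (-(v : ℂ) * (l * conj (l : ℂ)))‖ ≤
        |C| * Real.exp (-δ * v) := by
      refine le_trans ?_ ((hC v hv).trans (mul_le_mul_of_nonneg_right (le_abs_self C)
        (Real.exp_pos _).le))
      rw [g1bp_if]
      refine tsum_of_norm_bounded (summable_th h (u := v) (by simpa using hv0) 1 0).hasSum
        fun l => le_of_eq ?_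
      rw [mul_right_comm, norm_mul, norm_pa, mul_one, g1bp_norm, zero_add]
    have h2 : (δ * v) ^ 2 / 2 ≤ Real.exp (δ * v) := by
      have := Real.quadratic_le_exp_of_nonneg (mul_pos hδ hv0).le
      linarith [mul_pos hδ hv0]
    have h3 : v ^ 2 * Real.exp (-δ * v) ≤ 2 / δ ^ 2 := by
      rw [neg_mul, Real.exp_neg, ← div_eq_mul_inv, div_le_div_iff₀ (Real.exp_pos _) (by positivity)]
      linarith [mul_pow δ v 2]
    calc v ^ 2 / B * _ ≤ v ^ 2 / B * (|C| * Real.exp (-δ * v)) :=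
          mul_le_mul_of_nonneg_left h1 (by positivity)
      _ = |C| / B * (v ^ 2 * Real.exp (-δ * v)) := by ring
      _ ≤ |C| / B * (2 / δ ^ 2) := mul_le_mul_of_nonneg_left h3 (by positivity)
      _ = _ := by
        rw [div_mul_div_comm, mul_comm]
  · obtain ⟨C, δ, hδ, hC⟩ := gauss_decay h 1 z one_pos
    refine MeasureTheory.Integrable.mono' ((exp_neg_integrableOn_Ioi 1 hδ).const_mul C)
      hm.aestronglyMeasurable ?_
    filter_upwards [MeasureTheory.ae_restrict_mem measurableSet_Ioi] with u hu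
    have hu1 : 1 < u := hu
    refine le_trans ?_ (hC u hu1.le)
    rw [g1bp_if]
    exact tsum_of_norm_bounded
      (summable_th h (u := u) (by simpa using one_pos.trans hu1) 1 z).hasSum
      fun l => le_of_eq (g1bp_norm _ _)

theorem eF_add (L : Lt) (z : ℂ) {l : ℂ} (hl : l ∈ L) : eF L (z + l) = eF L z := by
  simp only [eF, th1_add L z _ hl]

theorem eF_neg (L : Lt) (z : ℂ) : eF L (-z) = -eF L z := by
  simp only [eF, th1_neg, MeasureTheory.integral_neg]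

theorem eF_sc (L : Lt) (hx : x ≠ 0) (z : ℂ) : eF (pr x * L) (x * z) = eF L z / x := by
  have hb : 0 < Complex.normSq x := Complex.normSq_pos.2 hx
  have h1 := MeasureTheory.integral_comp_mul_left_Ioi (fun u : ℝ => th1 L z u) 0 hb
  simp only [Complex.ofReal_mul, mul_zero] at h1
  simp only [eF, th1_sc L hx, MeasureTheory.integral_const_mul, Complex.mul_conj]
  have h2 : conj x ≠ 0 := by simpa using hx
  rw [h1, Complex.real_smul, Complex.ofReal_inv, ← Complex.mul_conj]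
  field_simp

end Pool.Agent.P.MP_20768c_nt.Az.Cu

end

-- part Cu.G2c
section

set_option autoImplicit false

open Complex NumberField IsDedekindDomain Filter Topology
open UpperHalfPlane hiding I
open scoped ComplexConjugate Real MatrixGroups

namespace Pool.Agent.P.MP_20768c_nt.Az.Cu

open Pool.Agent.P.MP_20768c_nt.Az.EQ (Lt pr sp IsLat jL qN)

variable {L : Lt} {z : ℂ}

theorem summable_rpow (h : IsLat L) {t : ℝ} (ht : 1 < t) :
    Summable fun l : L => (‖(l : ℂ)‖ ^ 2) ^ (-t) := by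
  obtain ⟨P, rfl⟩ := exists_pp h
  refine (ZLattice.summable_norm_rpow P.lattice (-(2 * t)) ?_).congr fun l => ?_
  · rw [P.finrank_lattice]
    push_cast
    linarith
  · rw [← Real.rpow_two, ← Real.rpow_mul (norm_nonneg _), mul_neg]
    rfl

open Classical in
/-- the coefficients of the theta series without its constant term -/
noncomputable def g2cA (L : Lt) (z : ℂ) (l : L) : ℂ := if (l : ℂ) = 0 then 0 else pa L l z

/-- the exponents -/
noncomputable def g2cP (L : Lt) (l : L) : ℝ := π ^ 2 / ar L ^ 2 * ‖(l : ℂ)‖ ^ 2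

/-- the theta series without its constant term -/
noncomputable def g2cT (L : Lt) (z : ℂ) (s : ℝ) : ℂ :=
  ∑' l : L, g2cA L z l * (Real.exp (-g2cP L l * s) : ℝ)

theorem g2c_k (h : IsLat L) : 0 < π ^ 2 / ar L ^ 2 := by
  have := ar_pos h
  positivity

theorem g2c_norm (s : ℝ) (l : L) : ‖g2cA L z l * (Real.exp (-g2cP L l * s) : ℝ)‖ =
    if (0 : ℂ) + l = 0 then 0 else
      ‖(0 : ℂ) + l‖ ^ 0 * Real.exp (-(π ^ 2 / ar L ^ 2 * s) * ‖(0 : ℂ) + l‖ ^ 2) := by
  rw [zero_add, g2cA, g2cP]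
  split_ifs with h
  · simp
  · rw [norm_mul, norm_pa, Complex.norm_real, Real.norm_of_nonneg (Real.exp_pos _).le, pow_zero]
    congr 2
    ring

theorem g2c_sum (h : IsLat L) {s : ℝ} (hs : 0 < s) :
    Summable fun l : L => Real.exp (-g2cP L l * s) := by
  have := summable_th h (u := ((π ^ 2 / ar L ^ 2 * s : ℝ) : ℂ))
    (by rw [ofReal_re]; exact mul_pos (g2c_k h) hs) 0 0
  refine this.congr fun l => ?_
  rw [ofReal_re, pow_zero, one_mul, zero_add, g2cP]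
  congr 1
  ring

theorem g2c_le {s s' : ℝ} (h : IsLat L) (hs : s' ≤ s) (l : L) :
    ‖g2cA L z l * (Real.exp (-g2cP L l * s) : ℝ)‖ ≤ Real.exp (-g2cP L l * s') := by
  have h1 : ‖g2cA L z l‖ ≤ 1 := by
    rw [g2cA]
    split_ifs
    · simp
    · exact (norm_pa _ _ _).le
  have h2 : 0 ≤ g2cP L l := mul_nonneg (g2c_k h).le (by positivity)
  rw [norm_mul, Complex.norm_real, Real.norm_of_nonneg (Real.exp_pos _).le]
  refine (mul_le_of_le_one_left (Real.exp_pos _).le h1).trans (Real.exp_le_exp.2 ?_)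
  rw [neg_mul, neg_mul]
  exact neg_le_neg (mul_le_mul_of_nonneg_left hs h2)

theorem g2c_sn (h : IsLat L) {s : ℝ} (hs : 0 < s) :
    Summable fun l : L => ‖g2cA L z l * (Real.exp (-g2cP L l * s) : ℝ)‖ :=
  (g2c_sum h hs).of_nonneg_of_le (fun _ => norm_nonneg _) (g2c_le h le_rfl)

theorem g2c_cont (h : IsLat L) : ContinuousOn (g2cT L z) (Set.Ioi 0) := by
  intro s hs
  have hs' : 0 < s := hs
  have := continuousOn_tsum (s := Set.Ici (s / 2))
    (f := fun (l : L) (s : ℝ) => g2cA L z l * (Real.exp (-g2cP L l * s) : ℝ))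
    (fun l => by fun_prop) (g2c_sum h (half_pos hs')) fun l x hx => g2c_le h hx l
  exact (this.continuousAt (Ici_mem_nhds (half_lt_self hs'))).continuousWithinAt

theorem g2c_top (h : IsLat L) :
    ∃ δ, 0 < δ ∧ g2cT L z =O[atTop] fun s => Real.exp (-δ * s) := by
  obtain ⟨C, δ, hδ, hC⟩ := gauss_decay h 0 0 (g2c_k h)
  refine ⟨δ * (π ^ 2 / ar L ^ 2), mul_pos hδ (g2c_k h), Asymptotics.IsBigO.of_bound C ?_⟩
  filter_upwards [eventually_ge_atTop 1] with s hs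
  refine (norm_tsum_le_tsum_norm (g2c_sn h (one_pos.trans_le hs))).trans ?_
  simp only [g2c_norm]
  refine (hC _ (le_mul_of_one_le_right (g2c_k h).le hs)).trans (le_of_eq ?_)
  rw [Real.norm_of_nonneg (Real.exp_pos _).le]
  congr 2
  ring

theorem g2c_th (L : Lt) (z : ℂ) (u : ℝ) :
    th0 L z u = ((∑' l : L, Real.exp (-u * ‖z + l‖ ^ 2) : ℝ) : ℂ) := by
  rw [th0, ofReal_tsum]
  refine tsum_congr fun l => ?_
  rw [mul_conj']
  push_cast
  rfl

theorem g2c_poi (h : IsLat L) {u : ℝ} (hu : 0 < u) :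
    th0 L z u = π / (ar L * u) * (1 + g2cT L z u⁻¹) := by
  classical
  have e : ∀ l : L, cexp (-(π ^ 2 / (ar L ^ 2 * u)) * (l * conj (l : ℂ))) =
      (Real.exp (-g2cP L l * u⁻¹) : ℝ) := fun l => by
    rw [mul_conj', g2cP]
    push_cast
    congr 1
    ring
  rw [poisson0 h z (by rwa [ofReal_re])]
  congr 1
  simp only [e]
  have h1 := (hasSum_ite_eq (0 : L) (1 : ℂ)).add (g2c_sn (z := z) h (inv_pos.2 hu)).of_norm.hasSum
  refine (tsum_congr fun l => ?_).trans h1.tsum_eq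
  by_cases hl : l = 0
  · simp [hl, g2cA, g2cP, pa]
  · have hl' : (l : ℂ) ≠ 0 := fun e => hl (Subtype.ext e)
    rw [if_neg hl, zero_add, g2cA, if_neg hl']

theorem g2c_bot (h : IsLat L) (hz : z ∉ L) :
    g2cT L z =O[𝓝[>] 0] fun s : ℝ => s ^ (-(0 : ℝ)) := by
  obtain ⟨C, δ, hδ, hC⟩ := gauss_decay h 0 z one_pos
  have ha := ar_pos h
  have hne : ∀ l : L, z + l ≠ 0 := fun l e =>
    hz (by rw [eq_neg_of_add_eq_zero_left e]; exact neg_mem l.2)
  simp only [if_neg (hne _), pow_zero, one_mul] at hC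
  refine Asymptotics.IsBigO.of_bound (ar L / π * (|C| / δ) + 1) ?_
  filter_upwards [Ioc_mem_nhdsGT one_pos] with s hs
  have hu : 0 < s⁻¹ := inv_pos.2 hs.1
  have h1 := g2c_poi (z := z) h hu
  have h2 := hC s⁻¹ (one_le_inv₀ hs.1 |>.2 hs.2)
  rw [inv_inv, g2c_th] at h1
  generalize s⁻¹ = u at h1 h2 hu
  have h0 : 0 ≤ ∑' l : L, Real.exp (-u * ‖z + l‖ ^ 2) := tsum_nonneg fun _ => (Real.exp_pos _).le
  generalize ∑' l : L, Real.exp (-u * ‖z + l‖ ^ 2) = θ at h1 h2 h0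
  have h3 : g2cT L z s = ((ar L / π * (u * θ) : ℝ) : ℂ) - 1 := by
    have : (π : ℂ) ≠ 0 := ofReal_ne_zero.2 Real.pi_ne_zero
    have : (ar L : ℂ) ≠ 0 := ofReal_ne_zero.2 ha.ne'
    have : (u : ℂ) ≠ 0 := ofReal_ne_zero.2 hu.ne'
    push_cast
    rw [h1]
    field_simp
    ring
  have h4 : u * Real.exp (-δ * u) ≤ 1 / δ := by
    rw [le_div_iff₀ hδ, neg_mul, Real.exp_neg, mul_right_comm, ← div_eq_mul_inv,
      div_le_one (Real.exp_pos _), mul_comm]
    linarith [Real.add_one_le_exp (δ * u)]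
  have h5 : u * θ ≤ |C| / δ :=
    calc u * θ ≤ u * (|C| * Real.exp (-δ * u)) := mul_le_mul_of_nonneg_left
          (h2.trans (mul_le_mul_of_nonneg_right (le_abs_self C) (Real.exp_pos _).le)) hu.le
      _ = |C| * (u * Real.exp (-δ * u)) := mul_left_comm _ _ _
      _ ≤ |C| * (1 / δ) := mul_le_mul_of_nonneg_left h4 (abs_nonneg C)
      _ = |C| / δ := mul_one_div _ _
  rw [neg_zero, Real.rpow_zero, norm_one, mul_one, h3]
  refine (norm_sub_le _ _).trans ?_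
  rw [norm_one, Complex.norm_real, Real.norm_of_nonneg (by positivity)]
  exact add_le_add_left (mul_le_mul_of_nonneg_left h5 (by positivity)) _

theorem g2c_eG (h : IsLat L) : (eG L z : ℂ) = π / ar L * mellin (g2cT L z) 1 := by
  have ha := ar_pos h
  rw [mellin, eG, ← integral_complex_ofReal]
  simp only [sub_self, cpow_zero, one_smul]
  rw [← MeasureTheory.integral_comp_rpow_Ioi (g2cT L z) (p := -1) (by norm_num),
    ← MeasureTheory.integral_const_mul]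
  refine MeasureTheory.setIntegral_congr_fun measurableSet_Ioi fun u hu => ?_
  have hu' : 0 < u := hu
  have e : ((th0 L z u).re : ℂ) = th0 L z u := by rw [g2c_th, ofReal_re]
  have e2 : |(-1 : ℝ)| * u ^ (-1 - 1 : ℝ) = (u ^ 2)⁻¹ := by
    rw [abs_neg, abs_one, one_mul, ← Real.rpow_two, ← Real.rpow_neg hu'.le]
    norm_num
  have : (ar L : ℂ) ≠ 0 := ofReal_ne_zero.2 ha.ne'
  have : (u : ℂ) ≠ 0 := ofReal_ne_zero.2 hu'.ne'
  simp only [e2, Real.rpow_neg_one, real_smul]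
  push_cast
  rw [e, g2c_poi h hu']
  field_simp
  ring

theorem g2c_mel (h : IsLat L) {t : ℝ} (ht : 1 < t) :
    ∑' l : L, pa L l z * (((‖(l : ℂ)‖ ^ 2) ^ (-t) : ℝ) : ℂ) =
      ((π ^ 2 / ar L ^ 2 : ℝ) : ℂ) ^ (t : ℂ) / Gamma t * mellin (g2cT L z) t := by
  have ht0 : 0 < t := one_pos.trans ht
  have hk := g2c_k h
  have hp : ∀ l : L, 0 ≤ g2cP L l := fun l => mul_nonneg hk.le (by positivity)
  have := (lat_countable h).to_subtype
  have : Countable L := this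
  have e : ∀ l : L, g2cA L z l / (g2cP L l : ℂ) ^ (t : ℂ) =
      (((π ^ 2 / ar L ^ 2) ^ (-t) : ℝ) : ℂ) *
        (pa L l z * (((‖(l : ℂ)‖ ^ 2) ^ (-t) : ℝ) : ℂ)) := fun l => by
    rw [g2cA]
    split_ifs with hl
    · simp [hl, Real.zero_rpow (neg_ne_zero.2 ht0.ne')]
    · rw [mul_left_comm, ← ofReal_mul, ← Real.mul_rpow hk.le (by positivity), ← g2cP,
        Real.rpow_neg (hp l), ofReal_inv, ofReal_cpow (hp l), div_eq_mul_inv]
  have h1 := hasSum_mellin (a := g2cA L z) (p := g2cP L) (F := g2cT L z) (s := t)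
    (fun l => ?_) (by rwa [ofReal_re]) (fun s hs => (g2c_sn h hs).of_norm.hasSum) ?_
  · rw [← h1.tsum_eq]
    simp only [mul_div_assoc, e]
    rw [tsum_mul_left, tsum_mul_left, Real.rpow_neg hk.le, ofReal_inv, ofReal_cpow hk.le]
    have : Gamma t ≠ 0 := Gamma_ne_zero_of_re_pos (by rwa [ofReal_re])
    have : ((π ^ 2 / ar L ^ 2 : ℝ) : ℂ) ^ (t : ℂ) ≠ 0 :=
      cpow_ne_zero_iff.2 (Or.inl (ofReal_ne_zero.2 hk.ne'))
    field_simp
  · by_cases hl : (l : ℂ) = 0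
    · exact Or.inl (if_pos hl)
    · exact Or.inr (mul_pos hk (pow_pos (norm_pos_iff.2 hl) 2))
  · refine ((summable_rpow h ht).mul_left ((π ^ 2 / ar L ^ 2) ^ (-t))).congr fun l => ?_
    have := congrArg norm (e l)
    rw [norm_div, ← ofReal_cpow (hp l), norm_mul, norm_mul, norm_pa,
      one_mul, Complex.norm_real, Complex.norm_real, Complex.norm_real,
      Real.norm_of_nonneg (Real.rpow_nonneg (hp l) _), Real.norm_of_nonneg (by positivity),
      Real.norm_of_nonneg (by positivity)] at this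
    exact this.symm

theorem eG_lim (h : IsLat L) (hz : z ∉ L) :
    Tendsto (fun t : ℝ => ∑' l : L, pa L l z * (((‖(l : ℂ)‖ ^ 2) ^ (-t) : ℝ) : ℂ))
      (𝓝[>] 1) (𝓝 (π / ar L * eG L z)) := by
  obtain ⟨δ, hδ, htop⟩ := g2c_top (z := z) h
  have ha := ar_pos h
  have h1 := (mellin_differentiableAt_of_isBigO_rpow_exp (s := 1) hδ
    ((g2c_cont h).locallyIntegrableOn measurableSet_Ioi) htop (g2c_bot h hz)
    (by norm_num)).continuousAt
  have h2 : ContinuousAt Gamma 1 := (differentiableAt_Gamma 1 fun m e => by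
    have := congrArg Complex.re e
    simp at this
    linarith [Nat.cast_nonneg (α := ℝ) m]).continuousAt
  have h3 : ContinuousAt (fun s : ℂ => ((π ^ 2 / ar L ^ 2 : ℝ) : ℂ) ^ s) 1 :=
    continuousAt_const_cpow (ofReal_ne_zero.2 (g2c_k h).ne')
  have h4 := ((h3.div h2 (by simp)).mul h1).tendsto
  have h5 : Tendsto (fun t : ℝ => (t : ℂ)) (𝓝[>] 1) (𝓝 1) :=
    (continuous_ofReal.tendsto' 1 1 ofReal_one).mono_left nhdsWithin_le_nhds
  have h6 : (π / ar L * eG L z : ℂ) =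
      ((π ^ 2 / ar L ^ 2 : ℝ) : ℂ) ^ (1 : ℂ) / Gamma 1 * mellin (g2cT L z) 1 := by
    rw [g2c_eG h, cpow_one, Gamma_one]
    push_cast
    ring
  rw [h6]
  refine (h4.comp h5).congr' ?_
  filter_upwards [self_mem_nhdsWithin] with t ht
  exact (g2c_mel h ht).symm

end Pool.Agent.P.MP_20768c_nt.Az.Cu

end

-- part Cu.C2_p
section

set_option autoImplicit false

open Complex NumberField IsDedekindDomain Filter Topology
open UpperHalfPlane hiding I
open scoped ComplexConjugate Real MatrixGroups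

namespace Pool.Agent.P.MP_20768c_nt.Az.Cu

open Pool.Agent.P.MP_20768c_nt.Az.EQ (Lt pr sp IsLat jL qN)

namespace St

variable (s : St) {L : s.Sub} {a b n g : Ideal s.O} {p q : s.Pair} {x ρ : ℂ}

theorem mkP_L (hL : IsUnit L) (h : ρ ∈ L) : (s.mkP L ρ).L = L := by
  unfold mkP
  rw [dif_pos ⟨hL, h⟩]

theorem mkP_ρ (hL : IsUnit L) (h : ρ ∈ L) : (s.mkP L ρ).ρ = ρ := by
  unfold mkP
  rw [dif_pos ⟨hL, h⟩]

theorem mkP_self (p : s.Pair) : s.mkP p.L p.ρ = p := by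
  unfold mkP
  rw [dif_pos ⟨p.unit, p.mem⟩]

theorem one_L : (1 : s.Pair).L = 1 := by
  rfl

theorem one_ρ : (1 : s.Pair).ρ = 1 := by
  rfl

theorem ip_L (ha : a ≠ ⊥) : (s.ip a).L = s.inv a := by
  refine s.mkP_L (s.isUnit_inv ha) ?_
  have h := s.le_mul_inv ha 1 (Submodule.one_le.1 le_rfl)
  rwa [one_mul] at h

theorem ip_ρ (a : Ideal s.O) : (s.ip a).ρ = 1 := by
  unfold ip mkP
  split_ifs <;> rfl

theorem np_L (β : s.O) : (s.np β).L = 1 := by
  exact s.mkP_L isUnit_one (s.mem_one.2 ⟨β, rfl⟩)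

theorem np_ρ (β : s.O) : (s.np β).ρ = s.c β := by
  exact s.mkP_ρ isUnit_one (s.mem_one.2 ⟨β, rfl⟩)

theorem ip_mul (ha : a ≠ ⊥) (hb : b ≠ ⊥) : s.ip (a * b) = s.ip a * s.ip b := by
  refine Pair.ext ?_ ?_
  · rw [mul_L, s.ip_L ha, s.ip_L hb, s.ip_L (mul_ne_zero ha hb), s.inv_mul ha hb]
  · rw [mul_ρ, ip_ρ, ip_ρ, ip_ρ, mul_one]

theorem ip_top : s.ip ⊤ = 1 := by
  refine Pair.ext ?_ ?_
  · rw [s.ip_L top_ne_bot, inv_top, one_L]
  · rw [ip_ρ, one_ρ]

theorem ip_pow (ha : a ≠ ⊥) (j : ℕ) : s.ip (a ^ j) = s.ip a ^ j := by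
  induction j with
  | zero => rw [pow_zero, pow_zero, Ideal.one_eq_top, ip_top]
  | succ j ih => rw [pow_succ, pow_succ, s.ip_mul (pow_ne_zero j ha) ha, ih]

theorem np_mul (β β' : s.O) : s.np (β * β') = s.np β * s.np β' := by
  refine Pair.ext ?_ ?_
  · rw [mul_L, np_L, np_L, np_L, mul_one]
  · rw [mul_ρ, np_ρ, np_ρ, np_ρ, c_mul]

theorem np_one : s.np 1 = 1 := by
  refine Pair.ext ?_ ?_
  · rw [np_L, one_L]
  · rw [np_ρ, one_ρ, c_one]

theorem cl_eq : s.cl n p = s.cl n q ↔ ∃ x, s.Sim n x p q := by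
  exact (s.rel n).eq

theorem cl_out (C : s.Pr n) : s.cl n (s.out C) = C := by
  exact Quotient.out_eq C

theorem Sim.mono {s : St} {n g : Ideal s.O} {x : ℂ} {p q : s.Pair} (h : s.Sim n x p q)
    (hle : n ≤ g) : s.Sim g x p q := by
  exact ⟨h.1, h.2.1, (s.mul_le_mul_unit q.unit).2 (s.idl_le.2 hle) h.2.2⟩

theorem Sim.mul {s : St} {n : Ideal s.O} {x : ℂ} {p q : s.Pair} (h : s.Sim n x p q)
    (r : s.Pair) : s.Sim n x (p * r) (q * r) := by
  refine ⟨h.1, by rw [mul_L, mul_L, h.2.1, mul_assoc], ?_⟩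
  rw [mul_L, mul_ρ, mul_ρ, ← mul_assoc, ← mul_assoc, ← sub_mul]
  exact Submodule.mul_mem_mul h.2.2 r.mem

theorem sim_add (p : s.Pair) {l : ℂ} (hl : l ∈ s.idl n * p.L) :
    s.Sim n 1 p (s.mkP p.L (p.ρ + l)) := by
  have hm : p.ρ + l ∈ p.L := add_mem p.mem (s.idl_mul_le n p.L hl)
  refine ⟨one_ne_zero, by rw [s.mkP_L p.unit hm, sc_one, one_mul], ?_⟩
  rw [s.mkP_L p.unit hm, s.mkP_ρ p.unit hm, one_mul, add_sub_cancel_left]
  exact hl

theorem sim_np {β β' : s.O} (h : β - β' ∈ n) (p : s.Pair) : s.Sim n 1 (p * s.np β') (p * s.np β) := by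
  refine ⟨one_ne_zero, by rw [mul_L, mul_L, np_L, np_L, sc_one, one_mul], ?_⟩
  rw [mul_L, mul_ρ, mul_ρ, np_L, np_ρ, np_ρ, one_mul, mul_one, ← mul_sub, ← c_sub, mul_comm p.ρ]
  exact s.mul_mem_idl h p.mem

theorem cl_mono (hle : n ≤ g) (h : s.cl n p = s.cl n q) : s.cl g p = s.cl g q := by
  obtain ⟨x, hx⟩ := s.cl_eq.1 h
  exact s.cl_eq.2 ⟨x, hx.mono hle⟩

theorem Inv.of_cl {β : Type} {s : St} {n : Ideal s.O} {Φ : s.Pair → β} (h : s.Inv n Φ)
    {p q : s.Pair} (e : s.cl n p = s.cl n q) : Φ p = Φ q := by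
  obtain ⟨x, hx⟩ := s.cl_eq.1 e
  exact (h x p q hx).symm

theorem Inv.mono {β : Type} {s : St} {n g : Ideal s.O} {Φ : s.Pair → β} (h : s.Inv g Φ)
    (hle : n ≤ g) : s.Inv n Φ := by
  exact fun x p q h' => h x p q (h'.mono hle)

theorem IsWt.mono {s : St} {n g : Ideal s.O} {ω : s.Pair → ℂ} (h : s.IsWt g ω) (hle : n ≤ g) :
    s.IsWt n ω := by
  exact ⟨fun x p q h' => h.1 x p q (h'.mono hle), h.2⟩

theorem idOf_spec (p : s.Pair) : s.idl (s.idOf p) * p.L = s.sc p.ρ := by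
  obtain ⟨M, hM⟩ := p.unit.exists_right_inv
  have e : s.sc p.ρ * M * p.L = s.sc p.ρ := by rw [mul_assoc, mul_comm M, hM, mul_one]
  have e1 : s.sc p.ρ / p.L = s.sc p.ρ * M := by
    refine eq_of_forall_le_iff fun J => ?_
    rw [Submodule.le_div_iff_mul_le, ← s.mul_le_mul_unit p.unit (B := s.sc p.ρ * M), e]
  have e2 : s.sc p.ρ * M ≤ 1 := by
    rw [← s.mul_le_mul_unit p.unit, e, one_mul]
    exact (Submodule.span_singleton_le_iff_mem _ _).2 p.mem
  obtain ⟨a, ha⟩ := s.exists_idl e2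
  have e3 : s.idOf p = a := by
    unfold idOf
    rw [e1, ha]
    exact Submodule.comap_map_eq_of_injective s.c_inj a
  rw [e3, ← ha, e]

theorem idOf_le : s.idOf p ≤ a ↔ p.ρ ∈ s.idl a * p.L := by
  rw [← s.idl_le, ← s.mul_le_mul_unit p.unit, idOf_spec]
  exact Submodule.span_singleton_le_iff_mem _ _

theorem c2_p_idOf_eq (h : s.idl a * p.L = s.sc p.ρ) : s.idOf p = a := by
  rw [← s.idOf_spec p] at h
  exact le_antisymm (s.idl_le.1 ((s.mul_le_mul_unit p.unit).1 h.ge))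
    (s.idl_le.1 ((s.mul_le_mul_unit p.unit).1 h.le))

theorem idOf_ip (ha : a ≠ ⊥) : s.idOf (s.ip a) = a := by
  refine s.c2_p_idOf_eq ?_
  rw [s.ip_L ha, ip_ρ, s.idl_inv ha, sc_one]

theorem idOf_np (β : s.O) : s.idOf (s.np β) = Ideal.span {β} := by
  refine s.c2_p_idOf_eq ?_
  rw [np_L, np_ρ, idl_span, mul_one]

theorem idOf_mul (p q : s.Pair) : s.idOf (p * q) = s.idOf p * s.idOf q := by
  refine s.c2_p_idOf_eq ?_
  rw [mul_L, mul_ρ, idl_mul, mul_mul_mul_comm, idOf_spec, idOf_spec, sc_mul]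

theorem idOf_eq_bot : s.idOf p = ⊥ ↔ p.ρ = 0 := by
  rw [← le_bot_iff, idOf_le]
  unfold idl
  rw [Submodule.map_bot, Submodule.bot_mul, Submodule.mem_bot]

theorem sim_ip (n : Ideal s.O) (h : p.ρ ≠ 0) : s.Sim n p.ρ (s.ip (s.idOf p)) p := by
  have ha : s.idOf p ≠ ⊥ := fun e => h (s.idOf_eq_bot.1 e)
  refine ⟨h, ?_, ?_⟩
  · rw [s.ip_L ha, ← s.idOf_spec p, mul_right_comm, s.idl_inv ha, one_mul]
  · rw [ip_ρ, mul_one, sub_self]
    exact zero_mem _

theorem cl_ip_idOf (n : Ideal s.O) (h : p.ρ ≠ 0) : s.cl n (s.ip (s.idOf p)) = s.cl n p := by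
  exact s.cl_eq.2 ⟨_, s.sim_ip n h⟩

theorem cl_ip_span (n : Ideal s.O) {β : s.O} (h : β ≠ 0) :
    s.cl n (s.ip (Ideal.span {β})) = s.cl n (s.np β) := by
  have e := s.cl_ip_idOf n (p := s.np β) (by rw [np_ρ]; exact s.c_ne h)
  rwa [idOf_np] at e

theorem c2_p_unit_iff : IsUnit (s.cl n p) ↔ s.idOf p ⊔ n = ⊤ := by
  constructor
  · intro h
    obtain ⟨C, hC⟩ := h.exists_right_inv
    rw [← s.cl_out C, ← map_mul, ← map_one (s.cl n)] at hC
    obtain ⟨x, -, h1, h2⟩ := s.cl_eq.1 hC.symm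
    set r := p * s.out C with hr
    rw [one_L, mul_one] at h1
    rw [one_ρ, mul_one] at h2
    have a1 : r.ρ ∈ s.idl (s.idOf r ⊔ n) * r.L := s.idOf_le.1 le_sup_left
    have a2 : r.ρ - x ∈ s.idl (s.idOf r ⊔ n) * r.L :=
      (s.mul_le_mul_unit r.unit).2 (s.idl_le.2 le_sup_right) h2
    have a3 := sub_mem a1 a2
    rw [sub_sub_cancel] at a3
    have a4 : s.idl ⊤ * r.L ≤ s.idl (s.idOf r ⊔ n) * r.L := by
      rw [idl_top, one_mul]
      exact h1.le.trans ((Submodule.span_singleton_le_iff_mem _ _).2 a3)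
    have a5 := s.idl_le.1 ((s.mul_le_mul_unit r.unit).1 a4)
    refine top_le_iff.1 (a5.trans (sup_le_sup_right ?_ n))
    rw [hr, idOf_mul]
    exact Ideal.mul_le_left
  · intro h
    obtain ⟨β, hβ, γ, hγ, e⟩ := Submodule.mem_sup.1 ((Ideal.eq_top_iff_one _).1 h)
    obtain ⟨M, hM⟩ := p.unit.exists_right_inv
    have hu : IsUnit M := IsUnit.of_mul_eq_one_right _ hM
    have e1 : s.idl (s.idOf p) = s.sc p.ρ * M := by
      rw [← s.idOf_spec p, mul_assoc, hM, mul_one]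
    obtain ⟨z, hz, e2⟩ := s.mem_sc_mul.1 (e1 ▸ s.c_mem_idl.2 hβ)
    have e3 : p * s.mkP M z = s.np β := by
      refine Pair.ext ?_ ?_
      · rw [mul_L, s.mkP_L hu hz, hM, np_L]
      · rw [mul_ρ, s.mkP_ρ hu hz, e2, np_ρ]
    have e4 : s.cl n (1 * s.np β) = s.cl n (1 * s.np 1) :=
      s.cl_eq.2 ⟨1, s.sim_np (by rw [← e, add_sub_cancel_left]; exact hγ) 1⟩
    rw [one_mul, one_mul, np_one, map_one, ← e3, map_mul] at e4
    exact IsUnit.of_mul_eq_one _ e4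

theorem unit_cl (hn : n ≠ ⊥) : IsUnit (s.cl n p) ↔ IsCoprime (s.idOf p) n := by
  rw [c2_p_unit_iff, Ideal.isCoprime_iff_sup_eq]

theorem unit_mono (hle : n ≤ g) (h : IsUnit (s.cl n p)) : IsUnit (s.cl g p) := by
  rw [c2_p_unit_iff] at h ⊢
  exact top_le_iff.1 (h ▸ sup_le_sup_left hle _)

theorem unit_not_mem (h : IsUnit (s.cl n p)) (hle : n ≤ g) (hg : g ≠ ⊤) :
    p.ρ ∉ s.idl g * p.L := by
  intro hm
  rw [c2_p_unit_iff] at h
  exact hg (top_le_iff.1 (h ▸ sup_le (s.idOf_le.2 hm) hle))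

theorem unit_out (C : (s.Pr n)ˣ) : IsUnit (s.cl n (s.out C.1)) := by
  rw [cl_out]
  exact C.isUnit

end St

end Pool.Agent.P.MP_20768c_nt.Az.Cu

end

-- part Cu.G1b
section

set_option autoImplicit false

open Complex NumberField IsDedekindDomain Filter Topology
open UpperHalfPlane hiding I
open scoped ComplexConjugate Real MatrixGroups

namespace Pool.Agent.P.MP_20768c_nt.Az.Cu

open Pool.Agent.P.MP_20768c_nt.Az.EQ (Lt pr sp IsLat jL qN)

variable {L L' : Lt} {R : Finset ℂ} {z x : ℂ}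

theorem g1b_sum (h : IsLat L) {u : ℝ} (hu : 0 < u) (z : ℂ) :
    Summable fun l : L => Real.exp (-u * ‖z + l‖ ^ 2) := by
  simpa using summable_th h (u := (u : ℂ)) (by simpa using hu) 0 z

theorem g1b_bd (h : IsLat L) (z : ℂ) : ∃ M : ℝ, 0 < M ∧ ∀ l : L, ‖z + l‖⁻¹ ≤ M := by
  have h1 := (g1b_sum h one_pos z).tendsto_cofinite_zero
  have h2 : ∀ᶠ l : L in cofinite, ‖z + l‖⁻¹ ≤ 1 := by
    filter_upwards [h1.eventually (gt_mem_nhds (Real.exp_pos (-1)))] with l hl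
    have h3 := Real.exp_lt_exp.1 hl
    have h4 : 1 < ‖z + l‖ := by
      by_contra hc
      push Not at hc
      nlinarith [norm_nonneg (z + l)]
    exact inv_le_one_of_one_le₀ h4.le
  obtain ⟨M, hM⟩ := ((Filter.eventually_cofinite.1 h2).image fun l : L => ‖z + l‖⁻¹).bddAbove
  refine ⟨max M 1, lt_max_of_lt_right one_pos, fun l => ?_⟩
  by_cases hl : ‖z + l‖⁻¹ ≤ 1
  · exact le_max_of_le_right hl
  · exact le_max_of_le_left (hM ⟨l, hl, rfl⟩)

theorem g1b_term {ι : Type} [Countable ι] (μ : MeasureTheory.Measure ℝ) (K : ι → ℂ)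
    (r : ι → ℝ → ℝ) (ρ : ι → ℝ)
    (h : ∀ i, K i = 0 ∨ (MeasureTheory.Integrable (r i) μ ∧ ∫ u, r i u ∂μ = ρ i))
    (hr : ∀ i u, 0 ≤ r i u) (hs : Summable fun i => ‖K i‖ * ρ i) :
    ∫ u, ∑' i, K i * (r i u : ℂ) ∂μ = ∑' i, K i * ρ i := by
  rw [← MeasureTheory.integral_tsum_of_summable_integral_norm]
  · refine tsum_congr fun i => ?_
    rcases h i with h0 | ⟨-, h1⟩
    · simp [h0]
    · rw [MeasureTheory.integral_const_mul, integral_complex_ofReal, h1]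
  · intro i
    rcases h i with h0 | ⟨h1, -⟩
    · simp [h0]
    · exact h1.ofReal.const_mul _
  · refine hs.congr fun i => ?_
    rcases h i with h0 | ⟨-, h1⟩
    · simp [h0]
    · rw [← h1, ← MeasureTheory.integral_const_mul]
      refine congrArg _ (funext fun u => ?_)
      rw [norm_mul, Complex.norm_real, Real.norm_of_nonneg (hr i u)]

theorem g1b_int {c b : ℝ} (hc : 0 < c) (hb : 0 < b) :
    MeasureTheory.IntegrableOn (fun u : ℝ => c / u ^ 2 * Real.exp (-c / u)) (Set.Ioc 0 b) ∧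
      ∫ u in Set.Ioc 0 b, c / u ^ 2 * Real.exp (-c / u) = Real.exp (-c / b) := by
  have he : ∀ u : ℝ, 0 < u → expNegInvGlue (u / c) = Real.exp (-c / u) := fun u hu => by
    rw [expNegInvGlue, if_neg (not_le.2 (div_pos hu hc)), inv_div, neg_div]
  have hcont : ContinuousOn (fun u : ℝ => expNegInvGlue (u / c)) (Set.Icc 0 b) :=
    ((expNegInvGlue.contDiff (n := 0)).continuous.comp (continuous_id.div_const c)).continuousOn
  have hd : ∀ u ∈ Set.Ioo 0 b, HasDerivAt (fun u : ℝ => expNegInvGlue (u / c))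
      (c / u ^ 2 * Real.exp (-c / u)) u := fun u hu => by
    have h1 : HasDerivAt (fun u : ℝ => Real.exp (-c * u⁻¹))
        (Real.exp (-c * u⁻¹) * (-c * -(u ^ 2)⁻¹)) u :=
      ((hasDerivAt_inv hu.1.ne').const_mul (-c)).exp
    refine (h1.congr_deriv ?_).congr_of_eventuallyEq ?_
    · rw [← div_eq_mul_inv]; ring
    · filter_upwards [lt_mem_nhds hu.1] with v hv
      rw [he v hv, div_eq_mul_inv]
  have hi := intervalIntegral.integrableOn_deriv_of_nonneg hcont hd fun u _ => by positivity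
  refine ⟨hi, ?_⟩
  rw [← intervalIntegral.integral_of_le hb.le,
    intervalIntegral.integral_eq_sub_of_hasDerivAt_of_le hb.le hcont hd
      ((intervalIntegrable_iff_integrableOn_Ioc_of_le hb.le).2 hi), he b hb]
  simp

theorem g1b_hi (h : IsLat L) (z : ℂ) {b : ℝ} (hb : 0 < b) : ∫ u in Set.Ioi b, th1 L z u =
    ∑' l : L, cexp (-(b : ℂ) * ((z + l) * conj (z + l))) / (z + l) := by
  have := (lat_countable h).to_subtype
  have : Countable L := this
  obtain ⟨M, -, hM⟩ := g1b_bd h z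
  have h1 := g1b_term (ι := L) (MeasureTheory.volume.restrict (Set.Ioi b))
    (fun l => conj (z + l)) (fun l u => Real.exp (-‖z + l‖ ^ 2 * u))
    (fun l => Real.exp (-b * ‖z + l‖ ^ 2) / ‖z + l‖ ^ 2) (fun l => ?_)
    (fun _ _ => (Real.exp_pos _).le) ?_
  · refine Eq.trans ?_ (h1.trans (tsum_congr fun l => ?_))
    · refine congrArg _ (funext fun u => tsum_congr fun l => ?_)
      rw [Complex.mul_conj']
      push_cast
      ring_nf
    · by_cases h0 : z + l = 0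
      · simp [h0]
      · have h2 : conj (z + l) ≠ 0 := by simpa only [map_ne_zero] using h0
        push_cast
        rw [← Complex.mul_conj']
        field_simp
  · by_cases h0 : z + l = 0
    · left; simp only [h0, map_zero]
    · right
      have h2 : -‖z + l‖ ^ 2 < 0 := neg_lt_zero.2 (by positivity)
      refine ⟨integrableOn_exp_mul_Ioi h2 b, ?_⟩
      rw [integral_exp_mul_Ioi h2, neg_div_neg_eq]
      ring_nf
  · refine Summable.of_nonneg_of_le (fun l => by positivity) (fun l => ?_)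
      ((g1b_sum h hb z).mul_left M)
    rw [Complex.norm_conj]
    by_cases h0 : ‖z + l‖ = 0
    · have := hM l
      rw [h0] at this ⊢
      simpa using this
    · calc _ = ‖z + l‖⁻¹ * Real.exp (-b * ‖z + l‖ ^ 2) := by field_simp
        _ ≤ _ := mul_le_mul_of_nonneg_right (hM l) (Real.exp_pos _).le

theorem g1b_lo (h : IsLat L) (z : ℂ) : ∫ u in Set.Ioc 0 (π / ar L), th1 L z u =
    -∑' l : L, pa L l z * cexp (-(π / ar L) * (l * conj (l : ℂ))) / l := by
  have := (lat_countable h).to_subtype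
  have : Countable L := this
  have ha := ar_pos h
  have hb : 0 < π / ar L := div_pos Real.pi_pos ha
  obtain ⟨M, -, hM⟩ := g1b_bd h 0
  have h1 := g1b_term (ι := L) (MeasureTheory.volume.restrict (Set.Ioc 0 (π / ar L)))
    (fun l => -(pa L l z / l))
    (fun l u => (π / ar L * ‖(l : ℂ)‖) ^ 2 / u ^ 2 * Real.exp (-(π / ar L * ‖(l : ℂ)‖) ^ 2 / u))
    (fun l => Real.exp (-(π / ar L) * ‖(l : ℂ)‖ ^ 2)) (fun l => ?_)
    (fun _ _ => by positivity) ?_
  · rw [← tsum_neg]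
    refine Eq.trans ?_ (h1.trans (tsum_congr fun l => ?_))
    · refine MeasureTheory.setIntegral_congr_fun measurableSet_Ioc fun u hu => ?_
      have hu0 : (u : ℂ) ≠ 0 := by exact_mod_cast hu.1.ne'
      rw [poisson1 h z (by simpa using hu.1), ← tsum_mul_left]
      refine tsum_congr fun l => ?_
      by_cases h0 : (l : ℂ) = 0
      · simp [h0]
      · push_cast
        rw [mul_pow, ← Complex.mul_conj']
        have e : -(((π : ℂ) / ar L) ^ 2 * (l * conj (l : ℂ))) / u =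
            -(π ^ 2 / (ar L ^ 2 * u)) * (l * conj (l : ℂ)) := by ring
        rw [e]
        field_simp
    · push_cast
      rw [← Complex.mul_conj']
      ring
  · by_cases h0 : (l : ℂ) = 0
    · left; simp [h0]
    · right
      have h2 : 0 < ‖(l : ℂ)‖ := norm_pos_iff.2 h0
      obtain ⟨h3, h4⟩ := g1b_int (c := (π / ar L * ‖(l : ℂ)‖) ^ 2) (by positivity) hb
      refine ⟨h3, h4.trans (congrArg _ ?_)⟩
      field_simp
  · refine Summable.of_nonneg_of_le (fun l => by positivity) (fun l => ?_)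
      ((g1b_sum h hb 0).mul_left M)
    have := hM l
    rw [zero_add] at this ⊢
    rw [norm_neg, norm_div, norm_pa, one_div]
    exact mul_le_mul_of_nonneg_right this (Real.exp_pos _).le

theorem eF_split (h : IsLat L) (z : ℂ) : eF L z =
    ∑' l : L, cexp (-(π / ar L) * ((z + l) * conj (z + l))) / (z + l) -
      ∑' l : L, pa L l z * cexp (-(π / ar L) * (l * conj (l : ℂ))) / l := by
  have hb : 0 < π / ar L := div_pos Real.pi_pos (ar_pos h)
  have hi := int_th1 h z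
  rw [eF, ← Set.Ioc_union_Ioi_eq_Ioi hb.le, MeasureTheory.setIntegral_union
    (Set.Ioc_disjoint_Ioi le_rfl) measurableSet_Ioi (hi.mono_set Set.Ioc_subset_Ioi_self)
    (hi.mono_set (Set.Ioi_subset_Ioi hb.le)), g1b_lo h, g1b_hi h z hb]
  push_cast
  ring

theorem g1b_maj (h : IsLat L) {b : ℝ} (hb : 0 < b) {A B D : ℂ → ℂ} (hA : Continuous A)
    (hB : Continuous B) (hD : Continuous D) (w₀ : ℂ) : ∃ m : L → ℝ, Summable m ∧ ∀ l : L,
      ∀ w ∈ Metric.ball w₀ 1,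
        ‖cexp (-b * (l * conj (l : ℂ)) + A w * l + B w * conj (l : ℂ) + D w)‖ ≤ m l := by
  obtain ⟨α, hα⟩ := (isCompact_closedBall w₀ 1).exists_bound_of_continuousOn hA.continuousOn
  obtain ⟨β, hβ⟩ := (isCompact_closedBall w₀ 1).exists_bound_of_continuousOn hB.continuousOn
  obtain ⟨γ, hγ⟩ := (isCompact_closedBall w₀ 1).exists_bound_of_continuousOn hD.continuousOn
  refine ⟨_, (g1b_sum h (half_pos hb) 0).mul_left (Real.exp ((α + β) ^ 2 / (2 * b) + γ)),
    fun l w hw => ?_⟩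
  have hw' := Metric.ball_subset_closedBall hw
  rw [Complex.norm_exp, ← Real.exp_add, Real.exp_le_exp, zero_add, Complex.mul_conj']
  have h1 : (A w * l).re ≤ α * ‖(l : ℂ)‖ := (Complex.re_le_norm _).trans <| by
    rw [norm_mul]; exact mul_le_mul_of_nonneg_right (hα w hw') (norm_nonneg _)
  have h2 : (B w * conj (l : ℂ)).re ≤ β * ‖(l : ℂ)‖ := (Complex.re_le_norm _).trans <| by
    rw [norm_mul, Complex.norm_conj]; exact mul_le_mul_of_nonneg_right (hβ w hw') (norm_nonneg _)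
  have h3 : (D w).re ≤ γ := (Complex.re_le_norm _).trans (hγ w hw')
  have h4 : (-(b : ℂ) * (‖(l : ℂ)‖ : ℂ) ^ 2).re = -b * ‖(l : ℂ)‖ ^ 2 := by norm_cast
  have h5 : (α + β) * ‖(l : ℂ)‖ ≤ (α + β) ^ 2 / (2 * b) + b / 2 * ‖(l : ℂ)‖ ^ 2 := by
    rw [← sub_nonneg]
    have : (α + β) ^ 2 / (2 * b) + b / 2 * ‖(l : ℂ)‖ ^ 2 - (α + β) * ‖(l : ℂ)‖ =
      (α + β - b * ‖(l : ℂ)‖) ^ 2 / (2 * b) := by field_simp; ring
    rw [this]; positivity
  rw [Complex.add_re, Complex.add_re, Complex.add_re, h4]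
  linarith

theorem g1b_der {ι : Type} {F F' : ι → ℂ → ℂ} {w₀ : ℂ} {r : ℝ} (hr : 0 < r) {m : ι → ℝ}
    (hm : Summable m) (hd : ∀ i, ∀ w ∈ Metric.ball w₀ r, HasDerivAt (F i) (F' i w) w)
    (hb : ∀ i, ∀ w ∈ Metric.ball w₀ r, ‖F i w‖ ≤ m i) :
    HasDerivAt (fun w => ∑' i, F i w) (∑' i, F' i w₀) w₀ ∧
      AnalyticAt ℂ (fun w => ∑' i, F i w) w₀ := by
  have h1 : ∀ i, DifferentiableOn ℂ (F i) (Metric.ball w₀ r) := fun i w hw =>
    (hd i w hw).differentiableAt.differentiableWithinAt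
  have h2 := (Complex.differentiableOn_tsum_of_summable_norm hm h1 Metric.isOpen_ball
    hb).analyticAt (Metric.ball_mem_nhds w₀ hr)
  have h3 := (Complex.hasSum_deriv_of_summable_norm hm h1 Metric.isOpen_ball hb
    (Metric.mem_ball_self hr)).tsum_eq
  refine ⟨h2.differentiableAt.hasDerivAt.congr_deriv ?_, h2⟩
  rw [← h3]
  exact tsum_congr fun i => (hd i w₀ (Metric.mem_ball_self hr)).deriv

/-- the first kernel -/
noncomputable def g1bE (b : ℝ) (l z w : ℂ) : ℂ :=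
  cexp (-b * (l * conj l) + -b * w * l + -b * z * conj l + -b * z * w)

/-- the second kernel -/
noncomputable def g1bF (b : ℝ) (l z w : ℂ) : ℂ :=
  cexp (-b * (l * conj l) + -b * w * l + b * z * conj l + 0)

theorem g1b_P (h : IsLat L) (z w : ℂ) :
    ∑' l : L, g1bE (π / ar L) l z w = ∑' l : L, g1bF (π / ar L) l z w := by
  have ha := ar_pos h
  have ha' : (ar L : ℂ) ≠ 0 := by exact_mod_cast ha.ne'
  have hp : (π : ℂ) ≠ 0 := by exact_mod_cast Real.pi_ne_zero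
  have h1 := poissonP h z w (u := ((π / ar L : ℝ) : ℂ))
    (by rw [Complex.ofReal_re]; exact div_pos Real.pi_pos ha)
  have h2 : (π : ℂ) / (ar L * ((π / ar L : ℝ) : ℂ)) = 1 := by push_cast; field_simp
  rw [h2, one_mul] at h1
  refine Eq.trans (tsum_congr fun l => congrArg cexp (by ring)) (h1.trans
    (tsum_congr fun l => congrArg cexp ?_))
  push_cast
  field_simp
  ring

theorem g1b_const (h : IsLat L) (hz : z ∉ L) (w : ℂ) :
    ∑' l : L, g1bE (π / ar L) l z w / (z + l) - ∑' l : L, g1bF (π / ar L) l z w / l +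
      (π / ar L : ℝ) * w =
    ∑' l : L, g1bE (π / ar L) l z 0 / (z + l) - ∑' l : L, g1bF (π / ar L) l z 0 / l := by
  classical
  have hP := g1b_P h z
  have hb : 0 < π / ar L := div_pos Real.pi_pos (ar_pos h)
  generalize π / ar L = b at hP hb ⊢
  have hzl : ∀ l : L, z + l ≠ 0 := fun l h0 => hz (by
    rw [eq_neg_of_add_eq_zero_left h0]; exact L.neg_mem l.2)
  obtain ⟨M, -, hM⟩ := g1b_bd h z
  obtain ⟨N, -, hN⟩ := g1b_bd h 0
  have hd : ∀ w₀, HasDerivAt (fun w => ∑' l : L, g1bE b l z w / (z + l) -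
      ∑' l : L, g1bF b l z w / l + (b : ℂ) * w) 0 w₀ := fun w₀ => by
    obtain ⟨m, hm, hm'⟩ := g1b_maj h hb (A := fun w => -b * w) (B := fun _ => -b * z)
      (D := fun w => -b * z * w) (by fun_prop) (by fun_prop) (by fun_prop) w₀
    obtain ⟨n, hn, hn'⟩ := g1b_maj h hb (A := fun w => -b * w) (B := fun _ => b * z)
      (D := fun _ => 0) (by fun_prop) (by fun_prop) (by fun_prop) w₀
    have h1 := (g1b_der (F := fun (l : L) w => g1bE b l z w / (z + l)) (w₀ := w₀)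
      (F' := fun l w => -b * g1bE b l z w) one_pos (hm.mul_left M) (fun l w _ => ?_)
      (fun l w hw => ?_)).1
    have h2 := (g1b_der (F := fun (l : L) w => g1bF b l z w / l) (w₀ := w₀)
      (F' := fun l w => -b * if l = 0 then 0 else g1bF b l z w) one_pos (hn.mul_left N)
      (fun l w _ => ?_) (fun l w hw => ?_)).1
    · refine ((h1.sub h2).add ((hasDerivAt_id w₀).const_mul (b : ℂ))).congr_deriv ?_
      have h3 : Summable fun l : L => g1bF b l z w₀ :=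
        .of_norm_bounded hn fun l => hn' l w₀ (Metric.mem_ball_self one_pos)
      have h4 := h3.tsum_eq_add_tsum_ite 0
      have h5 : g1bF b ((0 : L) : ℂ) z w₀ = 1 := by simp [g1bF]
      rw [tsum_mul_left, tsum_mul_left, hP w₀, h4, h5]
      ring
    · have h3 : HasDerivAt (fun w : ℂ => -(b : ℂ) * (l * conj (l : ℂ)) + -b * w * l +
          b * z * conj (l : ℂ) + 0) (-b * 1 * l) w :=
        (((((hasDerivAt_id w).const_mul (-(b : ℂ))).mul_const _).const_add _).add_const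
          _).add_const _
      refine (h3.cexp.div_const (l : ℂ)).congr_deriv ?_
      split_ifs with h0
      · simp [h0]
      · have : (l : ℂ) ≠ 0 := by simpa using h0
        rw [g1bF]
        field_simp
    · have := hN l
      rw [zero_add] at this
      rw [norm_div, div_eq_inv_mul]
      exact mul_le_mul this (hn' l w hw) (norm_nonneg _) ((inv_nonneg.2 (norm_nonneg _)).trans this)
    · have h3 : HasDerivAt (fun w : ℂ => -(b : ℂ) * (l * conj (l : ℂ)) + -b * w * l +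
          -b * z * conj (l : ℂ) + -b * z * w) (-b * 1 * l + -b * z * 1) w :=
        (((((hasDerivAt_id w).const_mul (-(b : ℂ))).mul_const _).const_add _).add_const
          _).add ((hasDerivAt_id w).const_mul _)
      refine (h3.cexp.div_const (z + l)).congr_deriv ?_
      have := hzl l
      rw [g1bE]
      field_simp
      ring
    · rw [norm_div, div_eq_inv_mul]
      exact mul_le_mul (hM l) (hm' l w hw) (norm_nonneg _)
        ((inv_nonneg.2 (norm_nonneg _)).trans (hM l))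
  have := is_const_of_deriv_eq_zero (fun w => (hd w).differentiableAt) (fun w => (hd w).deriv) w 0
  simpa using this

open Classical in
/-- the regular part at the origin -/
noncomputable def g1bG (L : Lt) (b : ℝ) (z : ℂ) : ℂ :=
  ∑' l : L, (if l = 0 then 0 else g1bE b l z 0 / (z + l)) - ∑' l : L, g1bF b l z 0 / l

theorem g1b_eq (h : IsLat L) (hz : z ∉ L) :
    eF L z + π / ar L * conj z = z⁻¹ + g1bG L (π / ar L) z := by
  classical
  have hb : 0 < π / ar L := div_pos Real.pi_pos (ar_pos h)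
  have h1 := g1b_const h hz (conj z)
  obtain ⟨M, -, hM⟩ := g1b_bd h z
  obtain ⟨m, hm, hm'⟩ := g1b_maj h hb (A := fun _ => -(π / ar L : ℝ) * 0)
    (B := fun z => -(π / ar L : ℝ) * z) (D := fun z => -(π / ar L : ℝ) * z * 0)
    (by fun_prop) (by fun_prop) (by fun_prop) z
  have h2 : Summable fun l : L => g1bE (π / ar L) l z 0 / (z + l) :=
    .of_norm_bounded (hm.mul_left M) fun l => by
      rw [norm_div, div_eq_inv_mul]
      exact mul_le_mul (hM l) (hm' l z (Metric.mem_ball_self one_pos)) (norm_nonneg _)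
        ((inv_nonneg.2 (norm_nonneg _)).trans (hM l))
  have h3 : g1bE (π / ar L) ((0 : L) : ℂ) z 0 / (z + ((0 : L) : ℂ)) = z⁻¹ := by simp [g1bE]
  rw [h2.tsum_eq_add_tsum_ite 0, h3, add_sub_assoc] at h1
  refine Eq.trans ?_ h1
  rw [eF_split h]
  congr 2
  · refine tsum_congr fun l => ?_
    rw [g1bE, map_add]
    push_cast
    ring_nf
  · refine tsum_congr fun l => ?_
    rw [g1bF, pa, ← Complex.exp_add]
    push_cast
    ring_nf
  · push_cast
    rfl

theorem g1b_an (h : IsLat L) {b : ℝ} (hb : 0 < b) (hz : z ∉ L ∨ z = 0) :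
    AnalyticAt ℂ (g1bG L b) z := by
  classical
  obtain ⟨M, hM0, hM⟩ := g1b_bd h z
  obtain ⟨N, -, hN⟩ := g1b_bd h 0
  obtain ⟨m, hm, hm'⟩ := g1b_maj h hb (A := fun _ => -b * 0) (B := fun z => -b * z)
    (D := fun z => -b * z * 0) (by fun_prop) (by fun_prop) (by fun_prop) z
  obtain ⟨n, hn, hn'⟩ := g1b_maj h hb (A := fun _ => -b * 0) (B := fun z => b * z)
    (D := fun _ => 0) (by fun_prop) (by fun_prop) (by fun_prop) z
  have hr : 0 < min 1 (2 * M)⁻¹ := lt_min one_pos (by positivity)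
  have hk : ∀ l : L, l ≠ 0 → ∀ w ∈ Metric.ball z (min 1 (2 * M)⁻¹), (2 * M)⁻¹ ≤ ‖w + l‖ := by
    intro l hl w hw
    have h0 : z + l ≠ 0 := fun h0 => by
      rcases hz with hz | rfl
      · exact hz (by rw [eq_neg_of_add_eq_zero_left h0]; exact L.neg_mem l.2)
      · exact hl (by simpa using h0)
    have h1 : M⁻¹ ≤ ‖z + l‖ := inv_le_of_inv_le₀ (norm_pos_iff.2 h0) (hM l)
    have h2 : ‖w - z‖ < (2 * M)⁻¹ := (mem_ball_iff_norm.1 hw).trans_le (min_le_right _ _)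
    have h3 : ‖z + l‖ ≤ ‖w + l‖ + ‖w - z‖ := by
      simpa [add_comm] using norm_sub_le (w + l) (w - z)
    have h4 : M⁻¹ = 2 * (2 * M)⁻¹ := by field_simp
    linarith
  refine AnalyticAt.sub (g1b_der (F := fun (l : L) w => if l = 0 then 0 else g1bE b l w 0 / (w + l))
    hr (hm.mul_left (2 * M)) (fun l w hw => DifferentiableAt.hasDerivAt ?_) (fun l w hw => ?_)).2
    (g1b_der (F := fun (l : L) w => g1bF b l w 0 / l) one_pos (hn.mul_left N)
      (fun l w _ => DifferentiableAt.hasDerivAt ?_) (fun l w hw => ?_)).2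
  · split_ifs with h0
    · fun_prop
    · have : w + l ≠ 0 := norm_pos_iff.1 (lt_of_lt_of_le (by positivity) (hk l h0 w hw))
      unfold g1bE
      fun_prop (disch := exact this)
  · have h1 := hm' l w (Metric.ball_subset_ball (min_le_left _ _) hw)
    split_ifs with h0
    · rw [norm_zero]
      exact mul_nonneg (by positivity) ((norm_nonneg _).trans h1)
    · rw [norm_div, div_eq_inv_mul]
      exact mul_le_mul (inv_le_of_inv_le₀ (by positivity) (hk l h0 w hw)) h1 (norm_nonneg _)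
        (by positivity)
  · unfold g1bF
    fun_prop
  · have := hN l
    rw [zero_add] at this
    rw [norm_div, div_eq_inv_mul]
    exact mul_le_mul this (hn' l w hw) (norm_nonneg _) ((inv_nonneg.2 (norm_nonneg _)).trans this)

theorem isZeta_eF (h : IsLat L) : ∃ a, IsZeta L (fun z => eF L z + π / ar L * conj z) a := by
  have hb : 0 < π / ar L := div_pos Real.pi_pos (ar_pos h)
  set ζ : ℂ → ℂ := fun z => eF L z + π / ar L * conj z with hζ
  have hper : ∀ l ∈ L, ∀ z, ζ (z + l) = ζ z + π / ar L * conj l := fun l hl z => by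
    simp only [hζ, eF_add L z hl, map_add]; ring
  have hev : ∀ z, z ∉ L → ζ =ᶠ[𝓝 z] fun z => z⁻¹ + g1bG L (π / ar L) z := fun z hz => by
    filter_upwards [(compl_open h {0}).mem_nhds (show z ∈ _ by simpa using hz)] with w hw
    exact g1b_eq h (by simpa using hw)
  have h0 : ∀ z, z ∉ L → z ≠ 0 := fun z hz h0 => hz (h0 ▸ L.zero_mem)
  have han : ∀ z, z ∉ L → AnalyticAt ℂ ζ z := fun z hz =>
    ((analyticAt_id.inv (h0 z hz)).add (g1b_an h hb (.inl hz))).congr (hev z hz).symm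
  have key := liou h (f := fun z => deriv ζ z + wp L z) {0} (fun l hl z _ => ?_)
    (fun z hz => ?_) (fun t ht => ?_)
  · obtain ⟨C, hC⟩ := key
    refine ⟨C, fun z hz => ?_, fun z _ => ?_, fun l hl => ⟨_, fun z _ => hper l hl z⟩,
      _, g1b_an h hb (.inr rfl), fun z hz => g1b_eq h hz⟩
    · refine (han z hz).differentiableAt.hasDerivAt.congr_deriv ?_
      rw [← hC z (by simpa using hz)]
      ring
    · simp only [hζ, eF_neg, map_neg]; ring
  · rw [wp_add h z hl, ← deriv_comp_add_const, funext (hper l hl), deriv_add_const]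
  · have hz' : z ∉ L := by simpa using hz
    exact ((han z hz').deriv.add (analyticAt_wp h hz')).differentiableAt
  · rw [Finset.mem_singleton.1 ht]
    obtain ⟨g, hg, hg'⟩ := wp_pole h
    have h1 := (g1b_an h hb (z := 0) (.inr rfl)).deriv.continuousAt
    have h2 := hg.continuousAt
    have h3 : ContinuousAt (fun z => (z - 0) * (deriv (g1bG L (π / ar L)) z +
        (g2 L / 20 * z ^ 2 + g3 L / 28 * z ^ 4 + z ^ 6 * g z))) 0 := by fun_prop
    have h4 := h3.tendsto.mono_left (nhdsWithin_le_nhds (s := {0}ᶜ))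
    rw [sub_zero, zero_mul] at h4
    refine h4.congr' ?_
    filter_upwards [hg', compl_nhds h {0} 0] with z e1 e2
    have hz : z ∉ L := by simpa using e2
    rw [e1, (hev z hz).deriv_eq, ((hasDerivAt_inv (h0 z hz)).fun_add
      (g1b_an h hb (.inl hz)).differentiableAt.hasDerivAt).deriv]
    ring

end Pool.Agent.P.MP_20768c_nt.Az.Cu

end

-- part Cu.C2_q
section

set_option autoImplicit false

open Complex NumberField IsDedekindDomain Filter Topology
open UpperHalfPlane hiding I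
open scoped ComplexConjugate Real MatrixGroups

namespace Pool.Agent.P.MP_20768c_nt.Az.Cu

open Pool.Agent.P.MP_20768c_nt.Az.EQ (Lt pr sp IsLat jL qN)

namespace St

variable (s : St) {L : s.Sub} {a b n g : Ideal s.O} {p q : s.Pair} {x ρ : ℂ}

theorem c2q_two (j : ℕ) : Ideal.span {(2 : s.O) ^ j} = s.p1 ^ j * s.p2 ^ j := by
  rw [← mul_pow, s.p1_mul_p2, Ideal.span_singleton_pow]

theorem c2q_cop {f : Ideal s.O} {c : ℕ} (h : Nat.Coprime c (Ideal.absNorm f)) :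
    IsCoprime (Ideal.span {(c : s.O)}) f := by
  obtain ⟨u, w, e⟩ := Nat.isCoprime_iff_coprime.2 h
  rw [Ideal.isCoprime_iff_exists]
  refine ⟨u * c, Ideal.mul_mem_left _ _ (Ideal.mem_span_singleton_self _),
    w * Ideal.absNorm f, Ideal.mul_mem_left _ _ (Ideal.absNorm_mem f), ?_⟩
  exact_mod_cast congrArg (Int.cast : ℤ → s.O) e

theorem lv_ne {f : Ideal s.O} (h : f ≠ ⊥) : s.lv f ≠ ⊥ := by
  exact mul_ne_zero h (pow_ne_zero 2 s.p2_ne)

theorem md_ne {f : Ideal s.O} (h : f ≠ ⊥) (j : ℕ) : s.md f j ≠ ⊥ := by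
  rw [md, c2q_two]
  exact mul_ne_zero h (mul_ne_zero (pow_ne_zero j s.p1_ne) (pow_ne_zero j s.p2_ne))

theorem lv_le (f : Ideal s.O) : s.lv f ≤ f ∧ s.lv f ≤ s.p2 ^ 2 := by
  exact ⟨Ideal.mul_le_left, Ideal.mul_le_right⟩

theorem md_le (f : Ideal s.O) (j : ℕ) :
    s.md f j ≤ f ∧ s.md f j ≤ Ideal.span {((2 ^ j : ℕ) : s.O)} ∧ s.md f j ≤ f * s.p2 ^ j := by
  refine ⟨Ideal.mul_le_left, ?_, ?_⟩
  · push_cast
    exact Ideal.mul_le_right
  · rw [md, c2q_two]
    exact Ideal.mul_mono_right Ideal.mul_le_right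

theorem md_le_lv (f : Ideal s.O) {j : ℕ} (hj : 2 ≤ j) : s.md f j ≤ s.lv f := by
  exact (s.md_le f j).2.2.trans (Ideal.mul_mono_right (Ideal.pow_le_pow_right hj))

theorem four_mem (f : Ideal s.O) : ((4 * Ideal.absNorm f : ℕ) : s.O) ∈ s.lv f := by
  refine s.md_le_lv f le_rfl ?_
  rw [mul_comm]
  push_cast
  exact Ideal.mul_mem_mul (Ideal.absNorm_mem f)
    (by rw [show (4 : s.O) = 2 ^ 2 by norm_num]; exact Ideal.mem_span_singleton_self _)

theorem mm_mem (f : Ideal s.O) (c j : ℕ) :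
    ((c * Ideal.absNorm f * 2 ^ j : ℕ) : s.O) ∈ s.md f j := by
  push_cast
  exact Ideal.mul_mem_mul (Ideal.mul_mem_left _ _ (Ideal.absNorm_mem f))
    (Ideal.mem_span_singleton_self _)

theorem norm_md (f : Ideal s.O) (j : ℕ) : Ideal.absNorm (s.md f j) = Ideal.absNorm f * 4 ^ j := by
  rw [md, c2q_two, map_mul, map_mul, map_pow, map_pow, s.norm_p1, s.norm_p2, ← mul_pow]
  rfl

theorem unit_md {f : Ideal s.O} (h : f ≠ ⊥) {j : ℕ} (hj : 1 ≤ j) :
    IsUnit (s.cl (s.md f j) p) ↔ IsUnit (s.cl (s.lv f) p) ∧ p.ρ ∉ s.idl s.p1 * p.L := by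
  rw [s.unit_cl (s.md_ne h j), s.unit_cl (s.lv_ne h), md, lv, c2q_two, ← s.idOf_le,
    IsCoprime.mul_right_iff, IsCoprime.mul_right_iff, IsCoprime.mul_right_iff,
    IsCoprime.pow_right_iff hj, IsCoprime.pow_right_iff hj, IsCoprime.pow_right_iff two_pos]
  have e : IsCoprime (s.idOf p) s.p1 ↔ ¬ s.idOf p ≤ s.p1 := by
    rw [Ideal.isCoprime_iff_sup_eq]
    refine ⟨fun a b => s.p1_max.ne_top (by rwa [sup_eq_right.2 b] at a), fun a => ?_⟩
    exact s.p1_max.1.2 _ (right_lt_sup.2 a)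
  rw [e]
  tauto

theorem Cc.spec {s : St} {f : Ideal s.O} {c : ℕ} (h : s.Cc f c) : Odd c ∧ c % 3 = 1 ∧
    (c : s.O) - 1 ∈ s.lv f ∧ s.Cc ⊤ c ∧ ∀ j, IsUnit (s.cl (s.md f j) (s.np c)) := by
  obtain ⟨h1, h2, h3, h4⟩ := h
  have o : Odd c := Nat.odd_iff.2 (by omega)
  have m : c ≡ 1 [MOD Ideal.absNorm f] := h4.of_mul_left 3
  have t : c % 3 = 1 := h4.of_mul_right _
  refine ⟨o, t, ?_, ⟨by simp, h2, h3, by simpa using h4.of_mul_right _⟩, fun j => ?_⟩
  · have d : 4 * Ideal.absNorm f ∣ c - 1 := Nat.Coprime.mul_dvd_of_dvd_of_dvd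
      (Nat.Coprime.pow_left 2 (Nat.coprime_two_left.2 h1)) (by omega)
      ((Nat.modEq_iff_dvd' h2.le).1 m.symm)
    obtain ⟨k, hk⟩ := d
    have e : (c : s.O) - 1 = ((4 * Ideal.absNorm f : ℕ) : s.O) * k := by
      rw [← Nat.cast_mul, ← hk, Nat.cast_sub h2.le, Nat.cast_one]
    rw [e]
    exact Ideal.mul_mem_right _ _ (s.four_mem f)
  · rw [s.unit_cl (s.md_ne (s.odd_ne h1) j), idOf_np]
    refine s.c2q_cop ?_
    rw [norm_md]
    refine Nat.Coprime.mul_right ?_ (Nat.Coprime.pow_right j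
      (Nat.Coprime.pow_right 2 (Nat.coprime_two_right.2 o)))
    exact Nat.coprime_of_mul_modEq_one 1 (by simpa using m)

theorem exists_Cc {f : Ideal s.O} (h : Odd (Ideal.absNorm f)) : ∃ c, s.Cc f c := by
  obtain ⟨k, hk⟩ := h
  refine ⟨1 + 4 * (3 * Ideal.absNorm f), ⟨k, hk⟩, by omega, by omega, ?_⟩
  simp [Nat.ModEq]

end St

end Pool.Agent.P.MP_20768c_nt.Az.Cu

end

-- part Cu.C2
section

set_option autoImplicit false

open Complex NumberField IsDedekindDomain Filter Topology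
open UpperHalfPlane hiding I
open scoped ComplexConjugate Real MatrixGroups

namespace Pool.Agent.P.MP_20768c_nt.Az.Cu

open Pool.Agent.P.MP_20768c_nt.Az.EQ (Lt pr sp IsLat jL qN)

namespace St

variable (s : St) {L : s.Sub} {a b n g : Ideal s.O} {p q : s.Pair} {x ρ : ℂ}

theorem finite_Pr (hn : n ≠ ⊥) : Finite (s.Pr n) := by
  classical
  obtain ⟨T, hT, hT'⟩ := s.exists_fin
  have hR : ∀ M : s.Sub, ∃ R : Finset ℂ,
      IsUnit M → Reps (s.zl (s.idl n * M)) (s.zl M) R := by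
    intro M
    by_cases hM : IsUnit M
    · obtain ⟨R, hR⟩ := exists_reps (s.isLat_zl ((s.isUnit_idl hn).mul hM)) (s.isLat_zl hM)
        (s.zl_le.2 (s.idl_mul_le n M))
      exact ⟨R, fun _ => hR⟩
    · exact ⟨∅, fun h => absurd h hM⟩
  choose R hR using hR
  rw [← Set.finite_univ_iff]
  refine Set.Finite.subset
    (T.biUnion fun M => (R M).image fun r => s.cl n (s.mkP M r)).finite_toSet ?_
  intro C _
  obtain ⟨M, hM, y, hy, e⟩ := hT' (s.out C).L (s.out C).unit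
  have hu := hT M hM
  obtain ⟨z, hz, ez⟩ := s.mem_sc_mul.1 (e ▸ (s.out C).mem)
  obtain ⟨r, ⟨hr, hr'⟩, -⟩ := (hR M hu).2.2.2 z (s.mem_zl.2 hz)
  have hrM : r ∈ M := s.mem_zl.1 ((hR M hu).2.2.1 r hr)
  simp only [Finset.coe_biUnion, Finset.coe_image, Set.mem_iUnion, Set.mem_image, Finset.mem_coe]
  refine ⟨M, hM, r, hr, ?_⟩
  rw [← s.cl_out C, s.cl_eq]
  refine ⟨y, hy, by rw [s.mkP_L hu hrM, e], ?_⟩
  rw [s.mkP_ρ hu hrM, e, ← ez, ← mul_sub]
  exact s.sc_mem (s.mem_zl.1 hr')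

theorem Qn_eq (p : s.Pair) : (s.Qn p : ℝ) = ‖p.ρ‖ ^ 2 / s.nL p.L := by
  by_cases h : p.ρ = 0
  · rw [Qn, s.idOf_eq_bot.2 h, h]
    simp
  · have h0 : s.idOf p ≠ ⊥ := fun e => h (s.idOf_eq_bot.1 e)
    have h1 := s.nL_idl p.unit h0
    have h2 := s.nL_sc (L := 1) isUnit_one h
    rw [s.idOf_spec, ← mul_one (s.sc p.ρ), h2, s.nL_one, mul_one] at h1
    rw [Qn, eq_div_iff (s.nL_pos p.unit).ne', h1]

theorem Qn_mul (p q : s.Pair) : s.Qn (p * q) = s.Qn p * s.Qn q := by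
  rw [Qn, s.idOf_mul, map_mul, Qn, Qn]

theorem Qn_one : s.Qn 1 = 1 := by
  rw [← s.ip_top, Qn, s.idOf_ip top_ne_bot, Ideal.absNorm_top]

theorem Qn_ip (ha : a ≠ ⊥) : s.Qn (s.ip a) = Ideal.absNorm a := by
  rw [Qn, s.idOf_ip ha]

theorem Qn_np (β : s.O) : s.Qn (s.np β) = Ideal.absNorm (Ideal.span {β}) := by
  rw [Qn, s.idOf_np]

theorem c2_Qn (p : s.Pair) : (s.Qn p : ℂ) * s.nL p.L = p.ρ * conj p.ρ := by
  have h := s.Qn_eq p
  rw [eq_div_iff (s.nL_pos p.unit).ne'] at h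
  rw [Complex.mul_conj, Complex.normSq_eq_norm_sq, ← h]
  push_cast
  rfl

theorem Qn_mod {N : ℕ} (hN : n ≤ Ideal.span {(N : s.O)}) (h : s.cl n p = s.cl n q) :
    s.Qn p ≡ s.Qn q [MOD N] := by
  obtain ⟨y, hy, e, hm⟩ := (s.cl_eq.1 (s.cl_mono hN h))
  rw [s.idl_span, s.mem_sc_mul] at hm
  obtain ⟨l, hl, el⟩ := hm
  rw [s.c_nat] at el
  have hu : y * p.ρ ∈ q.L := e ▸ Submodule.mul_mem_mul (s.mem_sc y) p.mem
  obtain ⟨β₁, h1⟩ := s.mul_conj_mem q.unit hu hl
  obtain ⟨β₂, h2⟩ := s.mul_conj_mem q.unit hl hu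
  obtain ⟨β₃, h3⟩ := s.mul_conj_mem q.unit hl hl
  have k1 := s.c2_Qn p
  have k2 := s.c2_Qn q
  have k3 : (s.nL q.L : ℂ) = y * conj y * s.nL p.L := by
    rw [e, s.nL_sc p.unit hy, Complex.mul_conj, Complex.normSq_eq_norm_sq]
    push_cast
    rfl
  have k4 : q.ρ = y * p.ρ + N * l := by rw [el]; ring
  have k0 : (s.nL q.L : ℂ) ≠ 0 := by exact_mod_cast (s.nL_pos q.unit).ne'
  have k5 : (s.Qn q : ℂ) - s.Qn p = N * s.c (β₁ + β₂ + N * β₃) := by
    apply mul_right_cancel₀ k0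
    rw [s.c_add, s.c_add, s.c_mul, s.c_nat]
    rw [k4, map_add, map_mul (starRingEnd ℂ) (N : ℂ), Complex.conj_natCast] at k2
    rw [map_mul] at k2 h2
    linear_combination k2 - y * conj y * k1 - (s.Qn p : ℂ) * k3 + N * h1 + N * h2 + N ^ 2 * h3
  obtain ⟨i, j, hij⟩ := s.span (β₁ + β₂ + N * β₃)
  have k6 : (((s.Qn q : ℤ) - s.Qn p - N * i : ℤ) : s.O) + ((-(N * j) : ℤ) : s.O) * s.w = 0 := by
    apply s.c_inj
    have z0 : s.c 0 = 0 := by simpa using s.c_nat 0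
    rw [hij, s.c_add, s.c_mul, s.c_int, s.c_int] at k5
    rw [s.c_add, s.c_mul, s.c_int, s.c_int, z0]
    push_cast
    linear_combination k5
  rw [Nat.modEq_iff_dvd]
  exact ⟨i, by linear_combination (s.indep k6).1⟩

theorem Qn_cop {N : ℕ} (hN : n ≤ Ideal.span {(N : s.O)}) (h : IsUnit (s.cl n p)) :
    Nat.Coprime (s.Qn p) N := by
  obtain ⟨C, hC⟩ := h.exists_right_inv
  rw [← s.cl_out C, ← map_mul, ← map_one (s.cl n)] at hC
  have h1 := s.Qn_mod hN hC
  rw [s.Qn_mul, s.Qn_one] at h1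
  exact Nat.coprime_of_mul_modEq_one _ h1

/-- a generator of `L` at the primes dividing `a` -/
theorem c2_gen (hL : IsUnit L) (ha : a ≠ ⊥) :
    ∃ r ∈ L, ∀ g : Ideal s.O, a ≤ g → g ≠ ⊤ → r ∉ s.idl g * L := by
  obtain ⟨y, hy, b, hb, rfl⟩ := s.unit_eq hL
  obtain ⟨β, hβ⟩ := IsDedekindDomain.exists_sup_span_eq (I := a * b) (J := b) Ideal.mul_le_right
    (mul_ne_zero ha hb)
  have hβb : β ∈ b := (Ideal.span_singleton_le_iff_mem b).1 (le_sup_right.trans hβ.le)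
  refine ⟨y * s.c β, (s.mul_mem_sc' hy).2 (s.c_mem_idl.2 hβb), fun g hg hg' hm => hg' ?_⟩
  rw [mul_left_comm, s.mul_mem_sc' hy, ← s.idl_mul, s.c_mem_idl] at hm
  have h1 : b ≤ g * b := by
    refine hβ.ge.trans (sup_le (Ideal.mul_mono_left hg) ?_)
    exact (Ideal.span_singleton_le_iff_mem _).2 hm
  have h2 : g * b = ⊤ * b := by
    rw [Ideal.top_mul]
    exact le_antisymm Ideal.mul_le_right h1
  exact mul_right_cancel₀ hb h2

theorem c2_rep (hn : n ≠ ⊥) (h : IsUnit (s.cl n p)) (ha : a ≠ ⊥) :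
    ∃ q, s.cl n q = s.cl n p ∧ IsCoprime (s.idOf q) (n * a) := by
  classical
  obtain ⟨r, hr, hr'⟩ := s.c2_gen p.unit ha
  let P : Finset (HeightOneSpectrum s.O) :=
    (Ideal.finite_factors (I := a) ha).toFinset.filter fun v => ¬n ≤ v.asIdeal
  have hc : IsCoprime n (∏ v ∈ P, v.asIdeal) := by
    refine IsCoprime.prod_right fun v hv => ?_
    rw [Ideal.isCoprime_iff_sup_eq]
    by_contra hne
    exact (Finset.mem_filter.1 hv).2
      (le_sup_left.trans (v.isMaximal.eq_of_le hne le_sup_right).ge)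
  obtain ⟨ν, hν, μ, hμ, e⟩ := Ideal.isCoprime_iff_exists.1 hc
  have hl : s.c ν * (r - p.ρ) ∈ s.idl n * p.L := s.mul_mem_idl hν (sub_mem hr p.mem)
  have hm : p.ρ + s.c ν * (r - p.ρ) ∈ p.L := add_mem p.mem (s.idl_mul_le n p.L hl)
  have hcl : s.cl n p = s.cl n (s.mkP p.L (p.ρ + s.c ν * (r - p.ρ))) :=
    s.cl_eq.2 ⟨1, s.sim_add p hl⟩
  refine ⟨_, hcl.symm, IsCoprime.mul_right ((s.unit_cl hn).1 (hcl ▸ h)) ?_⟩
  rw [Ideal.isCoprime_iff_sup_eq]
  by_contra hne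
  obtain ⟨Q, hQ, hle⟩ := Ideal.exists_le_maximal _ hne
  have haQ : a ≤ Q := le_sup_right.trans hle
  have h1 := s.idOf_le.1 (le_sup_left.trans hle)
  by_cases hnQ : n ≤ Q
  · exact s.unit_not_mem (hcl ▸ h) hnQ hQ.ne_top h1
  · rw [s.mkP_L p.unit hm, s.mkP_ρ p.unit hm] at h1
    have hQ0 : Q ≠ ⊥ := fun e0 => ha (le_bot_iff.1 (e0 ▸ haQ))
    let v : HeightOneSpectrum s.O := ⟨Q, hQ.isPrime, hQ0⟩
    have hv : v ∈ P := Finset.mem_filter.2
      ⟨(Set.Finite.mem_toFinset _).2 (Ideal.dvd_iff_le.2 haQ), hnQ⟩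
    have hμQ : μ ∈ Q := Ideal.le_of_dvd (Finset.dvd_prod_of_mem (fun v => v.asIdeal) hv) hμ
    have h2 : s.c μ * (r - p.ρ) ∈ s.idl Q * p.L := s.mul_mem_idl hμQ (sub_mem hr p.mem)
    have e' : s.c ν + s.c μ = 1 := by rw [← s.c_add, e, s.c_one]
    have e2 : r = p.ρ + s.c ν * (r - p.ρ) + s.c μ * (r - p.ρ) := by
      linear_combination (p.ρ - r) * e'
    exact hr' Q haQ hQ.ne_top (e2 ▸ add_mem h1 h2)

theorem exists_rep (hn : n ≠ ⊥) (h : IsUnit (s.cl n p)) (ha : a ≠ ⊥) :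
    ∃ b, b ≠ ⊥ ∧ IsCoprime b (n * a) ∧ s.cl n (s.ip b) = s.cl n p := by
  obtain ⟨q, hq, hc⟩ := s.c2_rep (a := a * s.p1) hn h (mul_ne_zero ha s.p1_ne)
  rw [← mul_assoc] at hc
  have h0 : s.idOf q ≠ ⊥ := by
    intro e
    have h1 := Ideal.isCoprime_iff_sup_eq.1 hc.of_mul_right_right
    rw [e, bot_sup_eq] at h1
    exact s.p1_max.ne_top h1
  exact ⟨_, h0, hc.of_mul_right_left,
    (s.cl_ip_idOf n fun e => h0 (s.idOf_eq_bot.2 e)).trans hq⟩

theorem cl_np_eq_one {β : s.O} : s.cl n (s.np β) = 1 ↔ β - 1 ∈ n ∨ β + 1 ∈ n := by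
  rw [← map_one (s.cl n), eq_comm, s.cl_eq]
  simp only [Sim, s.np_L, s.np_ρ, s.one_L, s.one_ρ, mul_one]
  constructor
  · rintro ⟨y, -, h1, h2⟩
    rcases s.sc_eq_one h1.symm with rfl | rfl
    · left
      rw [← s.c_mem_idl, s.c_sub, s.c_one]
      exact h2
    · right
      rw [← s.c_mem_idl, s.c_add, s.c_one, ← sub_neg_eq_add]
      exact h2
  · rintro (h | h)
    · refine ⟨1, one_ne_zero, s.sc_one.symm, ?_⟩
      rw [← s.c_mem_idl, s.c_sub, s.c_one] at h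
      exact h
    · refine ⟨-1, by simp, ?_, ?_⟩
      · rw [← s.sc_one, sc, sc, ← Set.neg_singleton, Submodule.span_neg]
      · rw [← s.c_mem_idl, s.c_add, s.c_one, ← sub_neg_eq_add] at h
        exact h

theorem exists_proj (hle : n ≤ g) : ∃ π' : s.Pr n →* s.Pr g, ∀ p, π' (s.cl n p) = s.cl g p :=
  ⟨(s.rel n).lift (s.cl g) fun _ _ h => s.cl_mono hle (s.cl_eq.2 h), fun _ => rfl⟩

theorem exists_nm {N : ℕ} (hN : n ≤ Ideal.span {(N : s.O)}) :
    ∃ ν : s.Pr n →* ZMod N, ∀ p, ν (s.cl n p) = s.Qn p := by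
  let f : s.Pair →* ZMod N :=
    { toFun := fun p => s.Qn p
      map_one' := by rw [s.Qn_one, Nat.cast_one]
      map_mul' := fun p q => by rw [s.Qn_mul, Nat.cast_mul] }
  exact ⟨(s.rel n).lift f fun _ _ h =>
    (ZMod.natCast_eq_natCast_iff _ _ _).2 (s.Qn_mod hN (s.cl_eq.2 h)), fun _ => rfl⟩

theorem ker_proj (n : Ideal s.O) (h : s.cl g p = 1) :
    ∃ β : s.O, β - 1 ∈ g ∧ s.cl n p = s.cl n (s.np β) := by
  rw [← map_one (s.cl g), eq_comm, s.cl_eq] at h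
  obtain ⟨y, hy, h1, h2⟩ := h
  rw [s.one_L] at h1
  rw [s.one_ρ, h1, mul_one, mul_one, mul_comm, s.mem_sc_mul] at h2
  obtain ⟨z, hz, ez⟩ := h2
  obtain ⟨γ, hγ, rfl⟩ := s.mem_idl.1 hz
  refine ⟨γ + 1, by simpa using hγ, (s.cl_eq.2 ⟨y, hy, by rw [s.np_L, h1], ?_⟩).symm⟩
  have e : p.ρ - y * (s.np (γ + 1)).ρ = 0 := by
    rw [s.np_ρ, s.c_add, s.c_one]
    linear_combination -ez
  rw [e]
  exact zero_mem _

theorem lift_unit (hn : n ≠ ⊥) (hg : g ≠ ⊥) (h : IsUnit (s.cl g p)) :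
    ∃ q, IsUnit (s.cl n q) ∧ s.cl g q = s.cl g p := by
  obtain ⟨b, hb, hc, e⟩ := s.exists_rep hg h hn
  refine ⟨s.ip b, (s.unit_cl hn).2 ?_, e⟩
  rw [s.idOf_ip hb]
  exact hc.of_mul_right_right

end St

end Pool.Agent.P.MP_20768c_nt.Az.Cu

end
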