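import Pool.Agent.P.MP_20768c_nt.Az.Z4
import Pool.Agent.P.MP_20768c_nt.Az.Z5
import Pool.Agent.P.MP_20768c_nt.Az.Z7

-- part Cu.A3a_p
section

set_option autoImplicit false

open Complex NumberField IsDedekindDomain Filter Topology
open UpperHalfPlane hiding I
open scoped ComplexConjugate Real MatrixGroups

namespace Pool.Agent.P.MP_20768c_nt.Az.Cu

open Pool.Agent.P.MP_20768c_nt.Az.EQ (Lt pr sp IsLat jL qN)

variable {L : Lt} {z w t : ℂ}

theorem a3a_p_sub (t : ℂ) : Tendsto (fun z : ℂ => z - t) (𝓝[≠] t) (𝓝 0) := by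
  have h1 : Tendsto (fun z : ℂ => z - t) (𝓝 t) (𝓝 (t - t)) :=
    (continuous_id.sub continuous_const).tendsto t
  rw [sub_self] at h1
  exact h1.mono_left nhdsWithin_le_nhds

theorem a3a_p_lim0 {ζ : ℂ → ℂ} {a : ℂ} (hζ : IsZeta L ζ a) {s : ℂ} (hs : t + s ∉ L) :
    Tendsto (fun z => (z - t) * ζ (z + s)) (𝓝[≠] t) (𝓝 0) := by
  have h1 : Tendsto (fun z => ζ (z + s)) (𝓝 t) (𝓝 (ζ (t + s))) :=
    (hζ.deriv _ hs).continuousAt.tendsto.comp ((continuous_id.add continuous_const).tendsto t)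
  simpa using (a3a_p_sub t).mul (h1.mono_left nhdsWithin_le_nhds)

theorem a3a_p_lim1 {ζ : ℂ → ℂ} {a : ℂ} (hζ : IsZeta L ζ a) (h : IsLat L) {s : ℂ}
    (hs : t + s ∈ L) : Tendsto (fun z => (z - t) * ζ (z + s)) (𝓝[≠] t) (𝓝 1) := by
  obtain ⟨g, hg, hp⟩ := hζ.pole
  obtain ⟨e, he⟩ := hζ.per _ hs
  have h1 : Tendsto (fun z => 1 + (z - t) * (g (z - t) + e)) (𝓝[≠] t)
      (𝓝 (1 + 0 * (g 0 + e))) :=
    ((a3a_p_sub t).mul ((hg.continuousAt.tendsto.comp (a3a_p_sub t)).add_const e)).const_add 1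
  rw [zero_mul, add_zero] at h1
  refine h1.congr' ?_
  filter_upwards [compl_nhds h {t} t, self_mem_nhdsWithin] with z hz hz'
  have h2 : z - t ∉ L := hz t (Finset.mem_singleton_self t)
  have h3 : z - t ≠ 0 := sub_ne_zero.2 hz'
  have h4 : z + s = z - t + (t + s) := by ring
  rw [h4, he _ h2, hp _ h2]
  linear_combination (-1 : ℂ) * mul_inv_cancel₀ h3

theorem a3a_p_lim {ζ : ℂ → ℂ} {a : ℂ} (hζ : IsZeta L ζ a) (h : IsLat L) (t s : ℂ) :
    ∃ c, Tendsto (fun z => (z - t) * ζ (z + s)) (𝓝[≠] t) (𝓝 c) := by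
  by_cases hs : t + s ∈ L
  · exact ⟨1, a3a_p_lim1 hζ h hs⟩
  · exact ⟨0, a3a_p_lim0 hζ hs⟩

theorem a3a_p_pole (h : IsLat L) : Tendsto (fun z => z ^ 2 * wp L z) (𝓝[≠] 0) (𝓝 1) := by
  obtain ⟨g, hg, hp⟩ := wp_pole h
  have h0 : ContinuousAt (fun z : ℂ =>
      1 + z ^ 2 * (g2 L / 20 * z ^ 2 + g3 L / 28 * z ^ 4 + z ^ 6 * g z)) 0 := by
    have := hg.continuousAt
    fun_prop
  have h1 := h0.tendsto.mono_left (nhdsWithin_le_nhds (s := {0}ᶜ))
  rw [zero_pow two_ne_zero, zero_mul, add_zero] at h1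
  refine h1.congr' ?_
  filter_upwards [hp, self_mem_nhdsWithin] with z hz hz'
  have h3 : z ^ 2 ≠ 0 := pow_ne_zero 2 hz'
  rw [hz]
  linear_combination (-1 : ℂ) * mul_one_div_cancel h3

theorem a3a_p_sq : Tendsto (fun z : ℂ => z ^ 2) (𝓝[≠] 0) (𝓝 0) := by
  have h1 : Tendsto (fun z : ℂ => z ^ 2) (𝓝 0) (𝓝 (0 ^ 2)) := (continuous_pow 2).tendsto 0
  rw [zero_pow two_ne_zero] at h1
  exact h1.mono_left nhdsWithin_le_nhds

theorem a3a_p_quad {b b1 : ℂ → ℂ} {c : ℂ} (hb : ∀ᶠ z in 𝓝 (0 : ℂ), HasDerivAt b (b1 z) z)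
    (h0 : b 0 = 0) (h1 : b1 0 = 0) (h2 : HasDerivAt b1 (2 * c) 0) :
    Tendsto (fun z => b z / z ^ 2) (𝓝[≠] 0) (𝓝 c) := by
  have ha : AnalyticAt ℂ b 0 :=
    Complex.analyticAt_iff_eventually_differentiableAt.2 (hb.mono fun z hz => hz.differentiableAt)
  have hd : deriv b =ᶠ[𝓝 0] b1 := hb.mono fun z hz => hz.deriv
  have e1 : deriv b 0 = 0 := hd.self_of_nhds.trans h1
  have e2 : deriv (deriv b) 0 = 2 * c := hd.deriv_eq.trans h2.deriv
  obtain ⟨F, hF, hF'⟩ := ha.exists_eq_sum_add_pow_mul 3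
  have h3 : ContinuousAt (fun z : ℂ => c + z * F z) 0 := by
    have := hF.continuousAt
    fun_prop
  have h4 := h3.tendsto.mono_left (nhdsWithin_le_nhds (s := {0}ᶜ))
  rw [zero_mul, add_zero] at h4
  refine h4.congr' ?_
  filter_upwards [self_mem_nhdsWithin] with z hz
  have h5 : z ^ 2 ≠ 0 := pow_ne_zero 2 hz
  rw [eq_div_iff h5, hF' z]
  simp only [Finset.sum_range_succ, Finset.range_zero, Finset.sum_empty, iteratedDeriv_succ,
    iteratedDeriv_zero, e1, e2, h0, smul_eq_mul, Nat.factorial]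
  push_cast
  ring

theorem a3a_p_dom (z w : ℂ) : (∀ t ∈ ({0, w, -w} : Finset ℂ), z - t ∉ L) ↔
    z ∉ L ∧ z - w ∉ L ∧ z + w ∉ L := by
  simp

theorem a3a_p_zero {ζ : ℂ → ℂ} {a : ℂ} (hζ : IsZeta L ζ a) (h : IsLat L) (hw : w ∉ L) :
    Tendsto (fun z => (wp L z - wp L w) * (ζ (z - w) - ζ (z + w) + 2 * ζ w)) (𝓝[≠] 0)
      (𝓝 (wpd L w)) := by
  have hw' : -w ∉ L := fun k => hw (neg_mem_iff.1 k)
  have h1 : Tendsto (fun z => (ζ (z - w) - ζ (z + w) + 2 * ζ w) / z ^ 2) (𝓝[≠] 0)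
      (𝓝 (wpd L w)) := by
    refine a3a_p_quad (b1 := fun z => (a - wp L (z - w)) - (a - wp L (z + w))) ?_ ?_ ?_ ?_
    · have h2 : ∀ᶠ z in 𝓝 (0 : ℂ), ∀ t ∈ ({w, -w} : Finset ℂ), z - t ∉ L :=
        (compl_open h _).mem_nhds (by simp [hw])
      filter_upwards [h2] with z hz
      have k1 : z - w ∉ L := hz w (by simp)
      have k2 : z + w ∉ L := by simpa using hz (-w) (by simp)
      exact (((hζ.deriv _ k1).comp_sub_const z w).sub
        ((hζ.deriv _ k2).comp_add_const z w)).add_const _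
    · simp only [zero_sub, zero_add, hζ.odd w hw]
      ring
    · simp only [zero_sub, zero_add, wp_neg h, sub_self]
    · have k1 : HasDerivAt (fun z => wp L (z - w)) (wpd L (0 - w)) 0 :=
        (hasDerivAt_wp h (by simpa using hw)).comp_sub_const 0 w
      have k2 : HasDerivAt (fun z => wp L (z + w)) (wpd L (0 + w)) 0 :=
        (hasDerivAt_wp h (by simpa using hw)).comp_add_const 0 w
      rw [zero_sub, wpd_neg h] at k1
      rw [zero_add] at k2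
      exact ((k1.const_sub a).sub (k2.const_sub a)).congr_deriv (by ring)
  have h2 := ((a3a_p_pole h).sub (a3a_p_sq.mul_const (wp L w))).mul h1
  rw [zero_mul, sub_zero, one_mul] at h2
  refine h2.congr' ?_
  filter_upwards [self_mem_nhdsWithin] with z hz
  have h5 : z ^ 2 ≠ 0 := pow_ne_zero 2 hz
  rw [← mul_sub, mul_comm (z ^ 2), mul_assoc, mul_div_cancel₀ _ h5]

theorem a3a_p_side {ζ : ℂ → ℂ} {a : ℂ} (hζ : IsZeta L ζ a) (h : IsLat L) (ht : t ∉ L)
    (e : wp L t = wp L w) : Tendsto (fun z => (z - t) *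
      ((wp L z - wp L w) * (ζ (z - w) - ζ (z + w) + 2 * ζ w))) (𝓝[≠] t) (𝓝 0) := by
  obtain ⟨c, hc⟩ := a3a_p_lim hζ h t (-w)
  obtain ⟨d, hd⟩ := a3a_p_lim hζ h t w
  have h1 : Tendsto (fun z => wp L z - wp L w) (𝓝[≠] t) (𝓝 (wp L t - wp L w)) :=
    (((hasDerivAt_wp h ht).continuousAt.tendsto).sub_const _).mono_left nhdsWithin_le_nhds
  have h2 := h1.mul ((hc.sub hd).add ((a3a_p_sub t).mul_const (2 * ζ w)))
  rw [e, sub_self, zero_mul] at h2
  refine h2.congr fun z => ?_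
  rw [← sub_eq_add_neg]
  ring

theorem IsZeta.ident {ζ : ℂ → ℂ} {a : ℂ} (hζ : IsZeta L ζ a) (h : IsLat L) (hz : z ∉ L)
    (hw : w ∉ L) (hp : z + w ∉ L) (hm : z - w ∉ L) :
    (wp L z - wp L w) * (ζ (z - w) - ζ (z + w) + 2 * ζ w) = wpd L w := by
  have hw' : -w ∉ L := fun k => hw (neg_mem_iff.1 k)
  obtain ⟨C, hC⟩ := liou h (f := fun z => (wp L z - wp L w) * (ζ (z - w) - ζ (z + w) + 2 * ζ w))
    {0, w, -w} (fun l hl u hu => by
      obtain ⟨-, k1, k2⟩ := (a3a_p_dom u w).1 hu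
      obtain ⟨e, he⟩ := hζ.per l hl
      rw [wp_add h u hl, add_sub_right_comm, add_right_comm u l w, he _ k1, he _ k2]
      ring)
    (fun u hu => by
      obtain ⟨k0, k1, k2⟩ := (a3a_p_dom u w).1 hu
      exact ((hasDerivAt_wp h k0).sub_const _).differentiableAt.mul
        ((((hζ.deriv _ k1).comp_sub_const u w).sub
          ((hζ.deriv _ k2).comp_add_const u w)).add_const _).differentiableAt)
    (fun t ht => by
      simp only [Finset.mem_insert, Finset.mem_singleton] at ht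
      rcases ht with rfl | rfl | rfl
      · simpa using (a3a_p_sub 0).mul (a3a_p_zero hζ h hw)
      · exact a3a_p_side hζ h hw rfl
      · exact a3a_p_side hζ h hw' (wp_neg h w))
  have h1 : Tendsto (fun _ : ℂ => C) (𝓝[≠] 0) (𝓝 (wpd L w)) :=
    (a3a_p_zero hζ h hw).congr' ((compl_nhds h {0, w, -w} 0).mono hC)
  rw [← tendsto_nhds_unique tendsto_const_nhds h1]
  exact hC z ((a3a_p_dom z w).2 ⟨hz, hm, hp⟩)

theorem IsZeta.add {ζ : ℂ → ℂ} {a : ℂ} (hζ : IsZeta L ζ a) (h : IsLat L) (hz : z ∉ L)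
    (hw : w ∉ L) (hp : z + w ∉ L) (hm : z - w ∉ L) :
    2 * (wp L z - wp L w) * (ζ (z + w) - ζ z - ζ w) = wpd L z - wpd L w := by
  have h1 := hζ.ident h hz hw hp hm
  have h2 := hζ.ident h hw hz (by rwa [add_comm]) (by rwa [← neg_sub, neg_mem_iff])
  rw [← neg_sub z w, hζ.odd _ hm, add_comm w z] at h2
  linear_combination h2 - h1

theorem a3a_p_inj (h : IsLat L) (hz : z ∉ L) (hw : w ∉ L) (hp : z + w ∉ L) (hm : z - w ∉ L) :
    wp L z ≠ wp L w := by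
  intro e
  obtain ⟨a, hζ⟩ := isZeta_eF h
  generalize (fun z => eF L z + π / ar L * conj z) = ζ at hζ
  have h0 : wpd L w = 0 := by rw [← hζ.ident h hz hw hp hm, e, sub_self, zero_mul]
  have h1 : ∀ᶠ u in 𝓝 w, ∀ t ∈ ({0, z, -z} : Finset ℂ), u - t ∉ L :=
    (compl_open h _).mem_nhds ((a3a_p_dom w z).2
      ⟨hw, by rwa [← neg_sub, neg_mem_iff], by rwa [add_comm]⟩)
  have h2 : wpd L =ᶠ[𝓝 w] fun u => (wp L z - wp L u) * (ζ (z - u) - ζ (z + u) + 2 * ζ u) := by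
    filter_upwards [h1] with u hu
    obtain ⟨k0, k1, k2⟩ := (a3a_p_dom u z).1 hu
    exact (hζ.ident h hz k0 (by rwa [add_comm]) (by rwa [← neg_sub, neg_mem_iff])).symm
  have h3 := ((hasDerivAt_wp h hw).const_sub (wp L z)).mul
    ((((hζ.deriv _ hm).comp_const_sub z w).sub ((hζ.deriv _ hp).comp_const_add z w)).add
      ((hζ.deriv _ hw).const_mul 2))
  have h4 := (hasDerivAt_wpd h hw).unique (h3.congr_of_eventuallyEq h2)
  rw [h0, e, sub_self, neg_zero, zero_mul, zero_mul, add_zero] at h4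
  have h5 := wpd_sq h hw
  rw [h0] at h5
  have h6 : g2 L = 12 * wp L w ^ 2 := by linear_combination (-2 : ℂ) * h4
  have h7 : g3 L = -8 * wp L w ^ 3 := by linear_combination h5 - wp L w * h6
  refine dl_ne h ?_
  rw [dl, h6, h7]
  ring

theorem wpd_eq_zero (h : IsLat L) (hz : z ∉ L) : wpd L z = 0 ↔ 2 * z ∈ L := by
  refine ⟨fun e => ?_, fun e => ?_⟩
  · by_contra k
    obtain ⟨a, hζ⟩ := isZeta_eF h
    generalize (fun z => eF L z + π / ar L * conj z) = ζ at hζ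
    have h1 := ((a3a_p_lim1 hζ h (t := z) (s := -z) (by simp)).sub
      (a3a_p_lim0 hζ (t := z) (s := z) (by rwa [← two_mul]))).add
      ((a3a_p_sub z).mul_const (2 * ζ z))
    rw [zero_mul, sub_zero, add_zero] at h1
    have h2 : Tendsto (fun _ : ℂ => (0 : ℂ)) (𝓝[≠] z) (𝓝 1) := by
      refine h1.congr' ?_
      filter_upwards [compl_nhds h {0, z, -z} z] with u hu
      obtain ⟨k0, k1, k2⟩ := (a3a_p_dom u z).1 hu
      have h3 := hζ.ident h k0 hz k2 k1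
      rw [e] at h3
      have h4 := (mul_eq_zero.1 h3).resolve_left (sub_ne_zero.2 (a3a_p_inj h k0 hz k2 k1))
      rw [← sub_eq_add_neg]
      linear_combination (u - z) * h4
    exact zero_ne_one (tendsto_nhds_unique tendsto_const_nhds h2)
  · have h1 : wpd L z = wpd L (-z) := wpd_congr h (by rwa [sub_neg_eq_add, ← two_mul])
    rw [wpd_neg h] at h1
    linear_combination h1 / 2

theorem wp_inj (h : IsLat L) (hz : z ∉ L) (hw : w ∉ L) (e : wp L z = wp L w) :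
    z - w ∈ L ∨ z + w ∈ L := by
  by_contra k
  exact a3a_p_inj h hz hw (fun k' => k (Or.inr k')) (fun k' => k (Or.inl k')) e

theorem wp_surj (h : IsLat L) (x : ℂ) : ∃ z, z ∉ L ∧ wp L z = x := by
  by_contra k
  have k1 : ∀ u, (∀ t ∈ ({0} : Finset ℂ), u - t ∉ L) → u ∉ L ∧ wp L u - x ≠ 0 := fun u hu => by
    have k2 : u ∉ L := by simpa using hu
    exact ⟨k2, sub_ne_zero.2 fun e => k ⟨u, k2, e⟩⟩
  have h1 : Tendsto (fun u => (wp L u - x)⁻¹) (𝓝[≠] 0) (𝓝 0) := by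
    have h2 := a3a_p_sq.div ((a3a_p_pole h).sub (a3a_p_sq.mul_const x)) (by simp)
    rw [zero_div] at h2
    refine h2.congr' ?_
    filter_upwards [self_mem_nhdsWithin] with u hu
    have h5 : u ^ 2 ≠ 0 := pow_ne_zero 2 hu
    rw [Pi.div_apply, ← mul_sub, div_mul_cancel_left₀ h5]
  obtain ⟨C, hC⟩ := liou h (f := fun u => (wp L u - x)⁻¹) {0}
    (fun l hl u _ => by rw [wp_add h u hl])
    (fun u hu => ((hasDerivAt_wp h (k1 u hu).1).sub_const x).differentiableAt.inv (k1 u hu).2)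
    (fun t ht => by
      rw [Finset.mem_singleton.1 ht]
      simpa using (a3a_p_sub 0).mul h1)
  have h3 : Tendsto (fun _ : ℂ => C) (𝓝[≠] 0) (𝓝 0) :=
    h1.congr' ((compl_nhds h {0} 0).mono hC)
  obtain ⟨u, hu⟩ := (compl_nhds h {0} 0).exists
  exact inv_ne_zero (k1 u hu).2 ((hC u hu).trans (tendsto_nhds_unique tendsto_const_nhds h3))

end Pool.Agent.P.MP_20768c_nt.Az.Cu

end

-- part Cu.A3a
section

set_option autoImplicit false

open Complex NumberField IsDedekindDomain Filter Topology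
open UpperHalfPlane hiding I
open scoped ComplexConjugate Real MatrixGroups

namespace Pool.Agent.P.MP_20768c_nt.Az.Cu

open Pool.Agent.P.MP_20768c_nt.Az.EQ (Lt pr sp IsLat jL qN)

variable {L : Lt} {z w t : ℂ}

theorem a3a_half (h : IsLat L) (hz : z ∉ L) (hw : w ∉ L) (hp : z + w ∉ L) (hm : z - w ∉ L) :
    wpd L z * (wpd L z - wpd L w) + 2 * (wp L z - wp L w) ^ 2 * (wp L z - wp L (z + w)) =
      (wp L z - wp L w) * (6 * wp L z ^ 2 - g2 L / 2) := by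
  obtain ⟨a, hζ⟩ := isZeta_eF h
  generalize (fun z => eF L z + π / ar L * conj z) = ζ at hζ
  have hS : ∀ᶠ y in 𝓝 z, ∀ t ∈ ({0, w, -w} : Finset ℂ), y - t ∉ L := by
    refine (compl_open h {0, w, -w}).mem_nhds ?_
    intro t ht
    simp only [Finset.mem_insert, Finset.mem_singleton] at ht
    rcases ht with rfl | rfl | rfl
    · rwa [sub_zero]
    · exact hm
    · rwa [sub_neg_eq_add]
  have hE : (fun y => 2 * (wp L y - wp L w) * (ζ (y + w) - ζ y - ζ w)) =ᶠ[𝓝 z]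
      fun y => wpd L y - wpd L w := by
    filter_upwards [hS] with y hy
    refine hζ.add h ?_ hw ?_ (hy w (by simp))
    · simpa using hy 0 (by simp)
    · simpa using hy (-w) (by simp)
  have d1 : HasDerivAt (fun y => 2 * (wp L y - wp L w) * (ζ (y + w) - ζ y - ζ w))
      (2 * wpd L z * (ζ (z + w) - ζ z - ζ w) +
        2 * (wp L z - wp L w) * ((a - wp L (z + w)) - (a - wp L z))) z :=
    (((hasDerivAt_wp h hz).sub_const (wp L w)).const_mul 2).mul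
      ((((hζ.deriv _ hp).comp_add_const z w).sub (hζ.deriv z hz)).sub_const (ζ w))
  have d2 : HasDerivAt (fun y => wpd L y - wpd L w) (6 * wp L z ^ 2 - g2 L / 2) z :=
    (hasDerivAt_wpd h hz).sub_const _
  have e1 := (d2.congr_of_eventuallyEq hE).unique d1
  have e2 := hζ.add h hz hw hp hm
  linear_combination (-(wp L z - wp L w)) * e1 - wpd L z * e2

theorem wp_add_eq (h : IsLat L) (hz : z ∉ L) (hw : w ∉ L) (hp : z + w ∉ L) (hm : z - w ∉ L) :
    4 * (wp L (z + w) + wp L z + wp L w) * (wp L z - wp L w) ^ 2 = (wpd L z - wpd L w) ^ 2 := by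
  have e1 := a3a_half h hz hw hp hm
  have e2 := a3a_half h hw hz (by rwa [add_comm]) (fun k => hm (by simpa using neg_mem k))
  rw [add_comm w z] at e2
  linear_combination -e1 - e2

theorem wp_sub_wp (h : IsLat L) (hz : z ∉ L) (hw : w ∉ L) (hp : z + w ∉ L) (hm : z - w ∉ L) :
    (wp L (z + w) - wp L (z - w)) * (wp L z - wp L w) ^ 2 = -(wpd L z * wpd L w) := by
  have e1 := wp_add_eq h hz hw hp hm
  have e2 := wp_add_eq (w := -w) h hz (fun k => hw (by simpa using neg_mem k))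
    (by rwa [← sub_eq_add_neg]) (by rwa [sub_neg_eq_add])
  rw [← sub_eq_add_neg, wp_neg h, wpd_neg h] at e2
  linear_combination (1 / 4 : ℂ) * e1 - (1 / 4 : ℂ) * e2

theorem wp_dbl (h : IsLat L) (hz : 2 * z ∉ L) :
    4 * (wp L (2 * z) + 2 * wp L z) * wpd L z ^ 2 = (6 * wp L z ^ 2 - g2 L / 2) ^ 2 := by
  have hz1 : z ∉ L := fun k => hz (by rw [two_mul]; exact add_mem k k)
  have t1 := hasDerivAt_iff_tendsto_slope.1 (hasDerivAt_wp h hz1)
  have t2 := hasDerivAt_iff_tendsto_slope.1 (hasDerivAt_wpd h hz1)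
  have c1 : Tendsto (wp L) (𝓝[≠] z) (𝓝 (wp L z)) :=
    (hasDerivAt_wp h hz1).continuousAt.tendsto.mono_left nhdsWithin_le_nhds
  have c2 : Tendsto (fun y => wp L (y + z)) (𝓝[≠] z) (𝓝 (wp L (2 * z))) := by
    have hzz : z + z ∉ L := by rwa [← two_mul]
    rw [two_mul]
    exact ((hasDerivAt_wp h hzz).comp_add_const z z).continuousAt.tendsto.mono_left
      nhdsWithin_le_nhds
  have l1 := (((c2.add c1).add_const (wp L z)).const_mul 4).mul (t1.pow 2)
  have l2 := t2.pow 2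
  have hE : (fun y => 4 * (wp L (y + z) + wp L y + wp L z) * slope (wp L) z y ^ 2) =ᶠ[𝓝[≠] z]
      fun y => slope (wpd L) z y ^ 2 := by
    filter_upwards [compl_nhds h {0, z, -z} z] with y hy
    have e := wp_add_eq (z := y) (w := z) h (by simpa using hy 0 (by simp)) hz1
      (by simpa using hy (-z) (by simp)) (hy z (by simp))
    rw [slope_def_field, slope_def_field, div_pow, div_pow, ← e, mul_div_assoc]
  have e := tendsto_nhds_unique (l1.congr' hE) l2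
  linear_combination e

theorem two_tr (h : IsLat L) (ht : t ∉ L) (h2 : 2 * t ∈ L) (hz : z ∉ L) (hzt : z + t ∉ L) :
    (wp L (z + t) - wp L t) * (wp L z - wp L t) = 3 * wp L t ^ 2 - g2 L / 4 := by
  have hm : z - t ∉ L := fun k => hzt (by
    have := add_mem k h2
    rwa [show z - t + 2 * t = z + t by ring] at this)
  have h0 : wpd L t = 0 := (wpd_eq_zero h ht).2 h2
  have e1 := wp_add_eq h hz ht hzt hm
  have e2 := wpd_sq h hz
  have e3 := wpd_sq h ht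
  rw [h0] at e1 e3
  have hne : wp L z - wp L t ≠ 0 := fun k =>
    (wp_inj h hz ht (sub_eq_zero.1 k)).elim hm hzt
  apply mul_left_cancel₀ hne
  linear_combination (1 / 4 : ℂ) * e1 + (1 / 4 : ℂ) * e2 - (1 / 4 : ℂ) * e3

end Pool.Agent.P.MP_20768c_nt.Az.Cu

end

-- part Cu.A3b
section

set_option autoImplicit false

open Complex NumberField IsDedekindDomain Filter Topology
open UpperHalfPlane hiding I
open scoped ComplexConjugate Real MatrixGroups

namespace Pool.Agent.P.MP_20768c_nt.Az.Cu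

open Pool.Agent.P.MP_20768c_nt.Az.EQ (Lt pr sp IsLat jL qN)

variable {L : Lt} {R : Finset ℂ} {c : ℕ}

theorem psi_xm (h : IsLat L) {U z : ℂ} (hU : U ≠ 0) (r : ℂ) (hz : z ∉ L) :
    4 * xm L U r z ^ 3 + mb2 r * xm L U r z ^ 2 + 2 * mb4 L U r * xm L U r z + mb6 L U r =
      wpd L z ^ 2 / U ^ 3 := by
  rw [wpd_sq h hz]
  unfold xm mb2 mb4 mb6
  field_simp
  ring

theorem a3b_sum (h : IsLat L) {z w : ℂ} (hz : z ∉ L) (hw : w ∉ L) (hp : z + w ∉ L)
    (hm : z - w ∉ L) :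
    (wp L (z + w) + wp L (z - w)) * (wp L z - wp L w) ^ 2 =
      2 * wp L z * wp L w * (wp L z + wp L w) - g2 L / 2 * (wp L z + wp L w) - g3 L ∧
    wp L (z + w) * wp L (z - w) * (wp L z - wp L w) ^ 2 = wp L z ^ 2 * wp L w ^ 2 +
      g2 L / 2 * wp L z * wp L w + g3 L * (wp L z + wp L w) + g2 L ^ 2 / 16 := by
  have e1 := wp_add_eq h hz hw hp hm
  have e2 := wp_add_eq h hz (w := -w) (fun k => hw (neg_mem_iff.1 k))
    (by rwa [← sub_eq_add_neg]) (by rwa [sub_neg_eq_add])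
  rw [← sub_eq_add_neg, wp_neg h, wpd_neg h] at e2
  have s1 := wpd_sq h hz
  have s2 := wpd_sq h hw
  have hne : wp L z - wp L w ≠ 0 := fun k =>
    (wp_inj h hz hw (sub_eq_zero.1 k)).elim hm hp
  generalize wp L (z + w) = S at *
  generalize wp L (z - w) = T at *
  generalize wp L z = p at *
  generalize wp L w = q at *
  generalize wpd L z = a at *
  generalize wpd L w = b at *
  generalize g2 L = A at *
  generalize g3 L = B at *
  refine ⟨by linear_combination (1 / 4) * e1 + (1 / 4) * e2 + (1 / 2) * s1 + (1 / 2) * s2, ?_⟩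
  refine mul_right_cancel₀ (pow_ne_zero 2 hne) ?_
  have f1 : 4 * S * (p - q) ^ 2 = (a - b) ^ 2 - 4 * (p + q) * (p - q) ^ 2 := by
    linear_combination e1
  have f2 : 4 * T * (p - q) ^ 2 = (a + b) ^ 2 - 4 * (p + q) * (p - q) ^ 2 := by
    linear_combination e2
  have f3 : 16 * (S * T * (p - q) ^ 2 * (p - q) ^ 2) = (a ^ 2 - b ^ 2) ^ 2 -
      8 * (p + q) * (p - q) ^ 2 * (a ^ 2 + b ^ 2) + 16 * (p + q) ^ 2 * (p - q) ^ 4 := by
    calc _ = (4 * S * (p - q) ^ 2) * (4 * T * (p - q) ^ 2) := by ring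
      _ = _ := by rw [f1, f2]; ring
  rw [s1, s2] at f3
  linear_combination (1 / 16) * f3

theorem exists_xg (h : IsLat L) {U : ℂ} (hU : U ≠ 0) (r : ℂ) :
    ∃ X : XG (ℂ ⧸ L.toAddSubgroup) ℂ, (∀ z : ℂ, X.x (QuotientAddGroup.mk z) = xm L U r z) ∧
      X.b2 = mb2 r ∧ X.b4 = mb4 L U r ∧ X.b6 = mb6 L U r ∧ X.b8 = mb8 L U r ∧
      X.disc = dl L / U ^ 6 := by
  have hz : ∀ z : ℂ, (QuotientAddGroup.mk z : ℂ ⧸ L.toAddSubgroup) ≠ 0 → z ∉ L := fun z k m =>
    k ((QuotientAddGroup.eq_zero_iff z).2 m)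
  have hq : ∀ z w : ℂ, z - w ∈ L →
      (QuotientAddGroup.mk z : ℂ ⧸ L.toAddSubgroup) = QuotientAddGroup.mk w := fun z w m =>
    QuotientAddGroup.eq_iff_sub_mem.2 m
  let x : ℂ ⧸ L.toAddSubgroup → ℂ := fun P => Quotient.liftOn' P (xm L U r) fun a b e => by
    have : a - b ∈ L := QuotientAddGroup.eq_iff_sub_mem.1 (Quotient.sound' e)
    unfold xm
    rw [wp_congr h this]
  have hx : ∀ z : ℂ, x (QuotientAddGroup.mk z) = wp L z / U + r := fun _ => rfl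
  refine ⟨⟨x, mb2 r, mb4 L U r, mb6 L U r, mb8 L U r, ?_, ?_, ?_, ?_, ?_, ?_, ?_⟩,
    fun _ => rfl, rfl, rfl, rfl, rfl, ?_⟩
  · unfold mb8
    ring
  · intro P
    obtain ⟨z, rfl⟩ := QuotientAddGroup.mk_surjective P
    rw [← QuotientAddGroup.mk_neg, hx, hx, wp_neg h]
  · intro P Q hP hQ e
    obtain ⟨z, rfl⟩ := QuotientAddGroup.mk_surjective P
    obtain ⟨w, rfl⟩ := QuotientAddGroup.mk_surjective Q
    rw [hx, hx, add_left_inj, div_left_inj' hU] at e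
    rcases wp_inj h (hz z hP) (hz w hQ) e with k | k
    · exact Or.inl (hq z w k)
    · exact Or.inr (hq z (-w) (by rwa [sub_neg_eq_add]))
  · intro P Q hP hQ hp hm
    obtain ⟨z, rfl⟩ := QuotientAddGroup.mk_surjective P
    obtain ⟨w, rfl⟩ := QuotientAddGroup.mk_surjective Q
    have e := (a3b_sum h (hz z hP) (hz w hQ) (hz (z + w) hp) (hz (z - w) hm)).1
    rw [← QuotientAddGroup.mk_add, ← QuotientAddGroup.mk_sub, hx, hx, hx, hx]
    unfold mb2 mb4 mb6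
    linear_combination (1 / U) ^ 3 * e
  · intro P Q hP hQ hp hm
    obtain ⟨z, rfl⟩ := QuotientAddGroup.mk_surjective P
    obtain ⟨w, rfl⟩ := QuotientAddGroup.mk_surjective Q
    obtain ⟨e, e'⟩ := a3b_sum h (hz z hP) (hz w hQ) (hz (z + w) hp) (hz (z - w) hm)
    rw [← QuotientAddGroup.mk_add, ← QuotientAddGroup.mk_sub, hx, hx, hx, hx]
    unfold mb8 mb2 mb4 mb6
    linear_combination (1 / U) ^ 4 * e' + r * (1 / U) ^ 3 * e
  · intro P hP hp
    obtain ⟨z, rfl⟩ := QuotientAddGroup.mk_surjective P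
    have e := wp_dbl h (z := z) (by rw [two_mul]; exact hz (z + z) hp)
    rw [wpd_sq h (hz z hP)] at e
    rw [← QuotientAddGroup.mk_add, hx, hx, ← two_mul]
    unfold mb8 mb2 mb4 mb6
    linear_combination (1 / U) ^ 4 / 4 * e
  · intro P hP
    obtain ⟨z, rfl⟩ := QuotientAddGroup.mk_surjective P
    have e := psi_xm h hU r (hz z hP)
    unfold xm at e
    rw [← QuotientAddGroup.mk_add, QuotientAddGroup.eq_zero_iff, hx, e, div_eq_zero_iff,
      or_iff_left (pow_ne_zero _ hU), pow_eq_zero_iff two_ne_zero, wpd_eq_zero h (hz z hP), two_mul]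
    rfl
  · unfold XG.disc dl
    simp only
    unfold mb8 mb2 mb4 mb6
    ring

theorem a3b_vieta (h : IsLat L) {t₁ t₂ : ℂ} (h1 : t₁ ∉ L) (h2 : t₂ ∉ L) (h3 : t₁ + t₂ ∉ L)
    (k1 : 2 * t₁ ∈ L) (k2 : 2 * t₂ ∈ L) : (wp L t₁ + wp L t₂ + wp L (t₁ + t₂) = 0 ∧
      g2 L = -4 * (wp L t₁ * wp L t₂ + wp L t₁ * wp L (t₁ + t₂) + wp L t₂ * wp L (t₁ + t₂)) ∧
      g3 L = 4 * wp L t₁ * wp L t₂ * wp L (t₁ + t₂)) ∧
      wp L t₁ ≠ wp L t₂ ∧ wp L t₁ ≠ wp L (t₁ + t₂) ∧ wp L t₂ ≠ wp L (t₁ + t₂) := by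
  have k3 : 2 * (t₁ + t₂) ∈ L := by rw [mul_add]; exact add_mem k1 k2
  have n12 : wp L t₁ ≠ wp L t₂ := fun e => (wp_inj h h1 h2 e).elim (fun m => h3 (by
    have := add_mem m k2
    rwa [show t₁ - t₂ + 2 * t₂ = t₁ + t₂ by ring] at this)) h3
  have n13 : wp L t₁ ≠ wp L (t₁ + t₂) := fun e => (wp_inj h h1 h3 e).elim (fun m => h2 (by
    have := neg_mem m
    rwa [show -(t₁ - (t₁ + t₂)) = t₂ by ring] at this)) fun m => h2 (by
    have := sub_mem m k1
    rwa [show t₁ + (t₁ + t₂) - 2 * t₁ = t₂ by ring] at this)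
  have n23 : wp L t₂ ≠ wp L (t₁ + t₂) := fun e => (wp_inj h h2 h3 e).elim (fun m => h1 (by
    have := neg_mem m
    rwa [show -(t₂ - (t₁ + t₂)) = t₁ by ring] at this)) fun m => h1 (by
    have := sub_mem m k2
    rwa [show t₂ + (t₁ + t₂) - 2 * t₂ = t₁ by ring] at this)
  refine ⟨?_, n12, n13, n23⟩
  have s1 := wpd_sq h h1
  have s2 := wpd_sq h h2
  have s3 := wpd_sq h h3
  rw [(wpd_eq_zero h h1).2 k1] at s1
  rw [(wpd_eq_zero h h2).2 k2] at s2
  rw [(wpd_eq_zero h h3).2 k3] at s3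
  generalize wp L (t₁ + t₂) = e at *
  generalize wp L t₁ = a at *
  generalize wp L t₂ = b at *
  generalize g2 L = A at *
  generalize g3 L = B at *
  have q1 : 4 * (a ^ 2 + a * b + b ^ 2) = A :=
    mul_left_cancel₀ (sub_ne_zero.2 n12) (by linear_combination s2 - s1)
  have q2 : 4 * (a ^ 2 + a * e + e ^ 2) = A :=
    mul_left_cancel₀ (sub_ne_zero.2 n13) (by linear_combination s3 - s1)
  have q3 : a + b + e = 0 :=
    mul_left_cancel₀ (sub_ne_zero.2 n23) (by linear_combination (1 / 4) * q1 - (1 / 4) * q2)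
  exact ⟨q3, by linear_combination 4 * (a + b) * q3 - q1,
    by linear_combination s1 + a * q1 - 4 * a * b * q3⟩

theorem vieta (h : IsLat L) {t₁ t₂ : ℂ} (h1 : t₁ ∉ L) (h2 : t₂ ∉ L) (h3 : t₁ + t₂ ∉ L)
    (k1 : 2 * t₁ ∈ L) (k2 : 2 * t₂ ∈ L) (x : ℂ) : 4 * x ^ 3 - g2 L * x - g3 L =
      4 * (x - wp L t₁) * (x - wp L t₂) * (x - wp L (t₁ + t₂)) := by
  obtain ⟨e1, e2, e3⟩ := (a3b_vieta h h1 h2 h3 k1 k2).1
  rw [e2, e3]
  linear_combination 4 * x ^ 2 * e1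

theorem vieta' (h : IsLat L) {t₁ t₂ : ℂ} (h1 : t₁ ∉ L) (h2 : t₂ ∉ L) (h3 : t₁ + t₂ ∉ L)
    (k1 : 2 * t₁ ∈ L) (k2 : 2 * t₂ ∈ L) : wp L t₁ + wp L t₂ + wp L (t₁ + t₂) = 0 ∧
      g2 L = -4 * (wp L t₁ * wp L t₂ + wp L t₁ * wp L (t₁ + t₂) + wp L t₂ * wp L (t₁ + t₂)) ∧
      g3 L = 4 * wp L t₁ * wp L t₂ * wp L (t₁ + t₂) ∧
      wp L t₁ ≠ wp L t₂ ∧ wp L t₁ ≠ wp L (t₁ + t₂) ∧ wp L t₂ ≠ wp L (t₁ + t₂) := by
  obtain ⟨⟨e1, e2, e3⟩, e4⟩ := a3b_vieta h h1 h2 h3 k1 k2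
  exact ⟨e1, e2, e3, e4⟩

theorem two_cases (h : IsLat L) {t₁ t₂ : ℂ} (h1 : t₁ ∉ L) (h2 : t₂ ∉ L) (h3 : t₁ + t₂ ∉ L)
    (k1 : 2 * t₁ ∈ L) (k2 : 2 * t₂ ∈ L) {t : ℂ} (ht : 2 * t ∈ L) :
    t ∈ L ∨ t - t₁ ∈ L ∨ t - t₂ ∈ L ∨ t - (t₁ + t₂) ∈ L := by
  by_cases h0 : t ∈ L
  · exact Or.inl h0
  have e := wpd_sq h h0
  rw [(wpd_eq_zero h h0).2 ht, vieta h h1 h2 h3 k1 k2] at e
  have key : ∀ u, u ∉ L → wp L t - wp L u = 0 → t - u ∈ L := fun u hu k => by
    rcases wp_inj h h0 hu (sub_eq_zero.1 k) with m | m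
    · exact m
    · have := sub_mem ht m
      rwa [show 2 * t - (t + u) = t - u by ring] at this
  have e' : (wp L t - wp L t₁) * (wp L t - wp L t₂) * (wp L t - wp L (t₁ + t₂)) = 0 := by
    linear_combination (-1 / 4) * e
  rcases mul_eq_zero.1 e' with k | k
  · rcases mul_eq_zero.1 k with k | k
    · exact Or.inr (Or.inl (key _ h1 k))
    · exact Or.inr (Or.inr (Or.inl (key _ h2 k)))
  · exact Or.inr (Or.inr (Or.inr (key _ h3 k)))

theorem exists_other (h : IsLat L) {t₁ : ℂ} (h1 : t₁ ∉ L) (k1 : 2 * t₁ ∈ L) :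
    ∃ t₂, t₂ ∉ L ∧ t₁ + t₂ ∉ L ∧ 2 * t₂ ∈ L := by
  obtain ⟨a, b, ha, hb, hab⟩ := exists_tors h (n := 2) one_lt_two
  have ha' : 2 * a ∈ L := by exact_mod_cast ha
  have hb' : 2 * b ∈ L := by exact_mod_cast hb
  have na : a ∉ L := fun k => by
    have := (hab 1 0 (by simpa using k)).1
    norm_num at this
  have nb : b ∉ L := fun k => by
    have := (hab 0 1 (by simpa using k)).2
    norm_num at this
  by_cases k : t₁ + a ∈ L
  · refine ⟨b, nb, fun m => ?_, hb'⟩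
    have := (hab 1 (-1) (by
      have := sub_mem k m
      rwa [show t₁ + a - (t₁ + b) = ((1 : ℤ) : ℂ) * a + ((-1 : ℤ) : ℂ) * b by
        push_cast; ring] at this)).1
    norm_num at this
  · exact ⟨a, na, k, ha'⟩

theorem a3b_mem (hc : 0 < c) {t : ℂ} : t ∈ pr (c : ℂ)⁻¹ * L ↔ (c : ℂ) * t ∈ L := by
  have h0 : (c : ℂ) ≠ 0 := Nat.cast_ne_zero.2 hc.ne'
  rw [← mul_mem_sc (L := L) (z := c * t) (inv_ne_zero h0), inv_mul_cancel_left₀ h0]

theorem a3b_reps (h : IsLat L) (hc : 0 < c) : ∃ R, Reps L (pr (c : ℂ)⁻¹ * L) R :=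
  exists_reps h (h.pr_mul (inv_ne_zero (Nat.cast_ne_zero.2 hc.ne'))) fun y hy =>
    (a3b_mem hc).2 (by simpa using L.smul_mem (c : ℤ) hy)

theorem xs_finite (h : IsLat L) (hc : 0 < c) : (XS L c).Finite := by
  obtain ⟨R, hR⟩ := a3b_reps h hc
  refine (R.finite_toSet.image (wp L)).subset ?_
  rintro e ⟨t, h1, _, rfl⟩
  obtain ⟨r, ⟨hr, k⟩, _⟩ := hR.2.2.2 t ((a3b_mem hc).2 h1)
  exact ⟨r, hr, (wp_congr h k).symm⟩

theorem a3b_maps (h : IsLat L) (hc : Odd c) (hR : Reps L (pr (c : ℂ)⁻¹ * L) R) :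
    ∀ t ∈ R.erase 0, wp L t ∈ (xs_finite h hc.pos).toFinset := fun t ht => by
  obtain ⟨h0, ht⟩ := Finset.mem_erase.1 ht
  rw [Set.Finite.mem_toFinset]
  exact ⟨t, (a3b_mem hc.pos).1 (hR.2.2.1 t ht),
    fun m => h0 (hR.sub_mem ht hR.2.1 (by rwa [sub_zero])), rfl⟩

open Classical in
theorem a3b_fib (h : IsLat L) (hc : Odd c) (hR : Reps L (pr (c : ℂ)⁻¹ * L) R) {e : ℂ}
    (he : e ∈ XS L c) : ((R.erase 0).filter fun t => wp L t = e).card = 2 := by
  obtain ⟨t, h1, h2, rfl⟩ := he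
  have m1 := (a3b_mem hc.pos).2 h1
  obtain ⟨a, ⟨ha, ka⟩, _⟩ := hR.2.2.2 t m1
  obtain ⟨b, ⟨hb, kb⟩, _⟩ := hR.2.2.2 (-t) (neg_mem m1)
  have hab : a ≠ b := by
    rintro rfl
    obtain ⟨j, rfl⟩ := hc
    have k2 := L.smul_mem (j : ℤ) (sub_mem ka kb)
    have := sub_mem h1 k2
    refine h2 ?_
    rwa [show ((2 * j + 1 : ℕ) : ℂ) * t - (j : ℤ) • (t - a - (-t - a)) = t by
      rw [zsmul_eq_mul]; push_cast; ring] at this
  rw [Finset.card_eq_two]
  refine ⟨a, b, hab, ?_⟩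
  ext u
  rw [Finset.mem_filter, Finset.mem_erase, Finset.mem_insert, Finset.mem_singleton]
  constructor
  · rintro ⟨⟨h0, hu⟩, k⟩
    rcases wp_inj h (fun m => h0 (hR.sub_mem hu hR.2.1 (by rwa [sub_zero]))) h2 k with m | m
    · refine Or.inl (hR.sub_mem hu ha ?_)
      have := add_mem m ka
      rwa [show u - t + (t - a) = u - a by ring] at this
    · refine Or.inr (hR.sub_mem hu hb ?_)
      have := add_mem m kb
      rwa [show u + t + (-t - b) = u - b by ring] at this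
  · rintro (rfl | rfl)
    · refine ⟨⟨?_, ha⟩, (wp_congr h ka).symm⟩
      rintro rfl
      exact h2 (by rwa [sub_zero] at ka)
    · refine ⟨⟨?_, hb⟩, by rw [← wp_congr h kb, wp_neg h]⟩
      rintro rfl
      exact h2 (neg_mem_iff.1 (by rwa [sub_zero] at kb))

theorem xs_prod {A : Type} [CommMonoid A] (h : IsLat L) (hc : Odd c)
    (hR : Reps L (pr (c : ℂ)⁻¹ * L) R) (f : ℂ → A) :
    ∏ t ∈ R.erase 0, f (wp L t) = (∏ᶠ e ∈ XS L c, f e) ^ 2 := by
  classical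
  have hf := xs_finite h hc.pos
  rw [finprod_mem_eq_finite_toFinset_prod _ hf, ← Finset.prod_pow,
    ← Finset.prod_fiberwise_of_maps_to (a3b_maps h hc hR)]
  refine Finset.prod_congr rfl fun e he => ?_
  rw [Finset.prod_congr rfl (g := fun _ => f e) fun t ht => by rw [(Finset.mem_filter.1 ht).2],
    Finset.prod_const, a3b_fib h hc hR (hf.mem_toFinset.1 he)]

theorem xs_card (h : IsLat L) (hc : Odd c) : 2 * (XS L c).ncard + 1 = c ^ 2 := by
  classical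
  have hf := xs_finite h hc.pos
  obtain ⟨R, hR⟩ := a3b_reps h hc.pos
  have e := Finset.card_eq_sum_card_fiberwise (s := R.erase 0) (f := wp L) (t := hf.toFinset)
    fun t ht => a3b_maps h hc hR t ht
  rw [Finset.sum_congr rfl fun e he => a3b_fib h hc hR (hf.mem_toFinset.1 he), Finset.sum_const,
    smul_eq_mul] at e
  rw [Set.ncard_eq_toFinset_card _ hf, ← reps_div h hc.pos hR, ← Finset.card_erase_add_one hR.2.1, e,
    mul_comm]

theorem xs_sc (L : Lt) {x : ℂ} (hx : x ≠ 0) (c : ℕ) :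
    XS (pr x * L) c = (fun e => e / x ^ 2) '' XS L c := by
  ext e
  constructor
  · rintro ⟨t, h1, h2, rfl⟩
    obtain ⟨u, rfl⟩ : ∃ u, t = x * u := ⟨t / x, by field_simp⟩
    rw [mul_left_comm, mul_mem_sc hx] at h1
    rw [mul_mem_sc hx] at h2
    exact ⟨wp L u, ⟨u, h1, h2, rfl⟩, (wp_sc L hx u).symm⟩
  · rintro ⟨_, ⟨u, h1, h2, rfl⟩, rfl⟩
    exact ⟨x * u, by rwa [mul_left_comm, mul_mem_sc hx], by rwa [mul_mem_sc hx], wp_sc L hx u⟩

theorem xs_ne (h : IsLat L) {z e : ℂ} (hz : c * z ∉ L) (he : e ∈ XS L c) : wp L z ≠ e := by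
  obtain ⟨t, h1, h2, rfl⟩ := he
  intro k
  have hc : ∀ y ∈ L, (c : ℂ) * y ∈ L := fun y hy => by simpa using L.smul_mem (c : ℤ) hy
  rcases wp_inj h (fun m => hz (hc z m)) h2 k with m | m
  · have := add_mem (hc _ m) h1
    exact hz (by rwa [show (c : ℂ) * (z - t) + c * t = c * z by ring] at this)
  · have := sub_mem (hc _ m) h1
    exact hz (by rwa [show (c : ℂ) * (z + t) - c * t = c * z by ring] at this)

end Pool.Agent.P.MP_20768c_nt.Az.Cu

end

-- part Cu.I4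
section

set_option autoImplicit false

open Complex NumberField IsDedekindDomain Filter Topology
open UpperHalfPlane hiding I
open scoped ComplexConjugate Real MatrixGroups

namespace Pool.Agent.P.MP_20768c_nt.Az.Cu

open Pool.Agent.P.MP_20768c_nt.Az.EQ (Lt pr sp IsLat jL qN)

/-- the Weber type function at the point `1 / M` -/
noncomputable def i4_y (M : ℕ) (τ : ℍ) : ℂ :=
  g2 (sp 1 τ) * g3 (sp 1 τ) * wp (sp 1 τ) (1 / M) / dl (sp 1 τ)

theorem i4_lat (g : SL(2, ℤ)) (τ : ℍ) :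
    sp 1 (τ : ℂ) = pr ((g 1 0 : ℂ) * τ + g 1 1) * sp 1 ((g • τ : ℍ) : ℂ) := by
  have h := Pool.Agent.P.MP_20768c_nt.Az.EQ.sp_smul 1 g τ
  rw [one_mul, one_mul] at h
  rw [Pool.Agent.P.MP_20768c_nt.Az.EQ.pr_mul_sp, mul_one, h]

theorem i4_smul (M : ℕ) (g : SL(2, ℤ)) (τ : ℍ) :
    i4_y M (g • τ) = g2 (sp 1 τ) * g3 (sp 1 τ) *
      wp (sp 1 τ) (((g 1 0 : ℂ) * τ + g 1 1) / M) / dl (sp 1 τ) := by
  have hj := Pool.Agent.P.MP_20768c_nt.Az.EQ.sl_den_ne_lat g τ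
  have hd := dl_ne (Pool.Agent.P.MP_20768c_nt.Az.EQ.isLat_one (g • τ))
  have e : ((g 1 0 : ℂ) * τ + g 1 1) / M = ((g 1 0 : ℂ) * τ + g 1 1) * (1 / M) := by ring
  rw [i4_lat g τ, e, wp_sc _ hj, g2_sc _ hj, g3_sc _ hj, dl_sc _ hj, i4_y]
  generalize ((g 1 0 : ℂ) * τ + g 1 1) = j at hj
  field_simp

theorem i4_mem {M : ℕ} (hM : 0 < M) (τ : ℍ) (c d : ℤ) :
    ((c : ℂ) * τ + d) / M ∈ sp 1 (τ : ℂ) ↔ (M : ℤ) ∣ c ∧ (M : ℤ) ∣ d := by
  have h0 : (M : ℂ) ≠ 0 := Nat.cast_ne_zero.2 hM.ne'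
  rw [Pool.Agent.P.MP_20768c_nt.Az.EQ.mem_sp]
  constructor
  · rintro ⟨m, n, h⟩
    rw [div_eq_iff h0] at h
    have h1 := Pool.Agent.P.MP_20768c_nt.Az.EQ.int_indep_lat τ (p := c - M * n) (q := d - M * m)
      (by push_cast; linear_combination h)
    exact ⟨⟨n, by linarith [h1.1]⟩, ⟨m, by linarith [h1.2]⟩⟩
  · rintro ⟨⟨n, rfl⟩, ⟨m, rfl⟩⟩
    refine ⟨m, n, ?_⟩
    rw [div_eq_iff h0]
    push_cast
    ring

theorem i4_det (g : SL(2, ℤ)) : g 0 0 * g 1 1 - g 0 1 * g 1 0 = 1 := by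
  have := g.det_coe
  rwa [Matrix.det_fin_two] at this

theorem i4_not_mem {M : ℕ} (hM : 3 ≤ M) (g : SL(2, ℤ)) (τ : ℍ) :
    ((g 1 0 : ℂ) * τ + g 1 1) / M ∉ sp 1 (τ : ℂ) := by
  rw [i4_mem (by omega)]
  rintro ⟨h1, h2⟩
  have h3 : (M : ℤ) ∣ 1 := i4_det g ▸ dvd_sub (h2.mul_left _) (h1.mul_left _)
  have := Int.le_of_dvd one_pos h3
  omega

theorem i4_one_not_mem {M : ℕ} (hM : 3 ≤ M) (τ : ℍ) : (1 / M : ℂ) ∉ sp 1 (τ : ℂ) := by
  have := i4_not_mem hM 1 τ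
  simpa using this

theorem i4_inv {M : ℕ} (hM : 0 < M) {γ : SL(2, ℤ)} (hγ : γ ∈ CongruenceSubgroup.Gamma1 M) (τ : ℍ) :
    i4_y M (γ • τ) = i4_y M τ := by
  rw [CongruenceSubgroup.Gamma1_mem] at hγ
  obtain ⟨-, h1, h2⟩ := hγ
  have h3 : (M : ℤ) ∣ γ 1 1 - 1 := by
    rw [← ZMod.intCast_zmod_eq_zero_iff_dvd]
    push_cast
    rw [h1, sub_self]
  have h4 := (i4_mem hM τ (γ 1 0) (γ 1 1 - 1)).2
    ⟨(ZMod.intCast_zmod_eq_zero_iff_dvd _ _).1 h2, h3⟩
  have e : ((γ 1 0 : ℂ) * τ + γ 1 1) / M - 1 / M =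
      ((γ 1 0 : ℂ) * τ + ((γ 1 1 - 1 : ℤ) : ℂ)) / M := by
    push_cast
    ring
  rw [i4_smul, i4_y, wp_congr (Pool.Agent.P.MP_20768c_nt.Az.EQ.isLat_one τ) (w := 1 / M) (e ▸ h4)]

theorem i4_g3 {M : ℕ} (hM : 0 < M) : BQ M fun τ => g3 (sp 1 (τ : ℂ)) := by
  have h := (eis_exp hM (k := 6) (by norm_num) 0 0).smul 140
  simpa [g3, Gk] using h

theorem i4_congr {M : ℕ} {f g : ℍ → ℂ} (h : BQ M f) (e : ∀ τ, f τ = g τ) : BQ M g :=
  (funext e : f = g) ▸ h

theorem i4_bq {M : ℕ} (hM : 3 ≤ M) (g : SL(2, ℤ)) :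
    BQ M fun τ => ModularForm.discriminant τ ^ 1 * i4_y M (g • τ) := by
  have h0 : 0 < M := by omega
  have h3 := eis_exp h0 (k := 3) le_rfl (g 1 0) (g 1 1)
  have h6 := eis_exp h0 (k := 6) (by norm_num) (g 1 0) (g 1 1)
  have h := (((i4_g3 h0).mul h0 (((h6.smul 10).add ((h3.pow h0 2).smul (-10))).add
    ((i4_g3 h0).smul (-3 / 2))))).smul (((2 * π : ℂ) ^ 12)⁻¹)
  refine i4_congr h fun τ => ?_
  have hL := Pool.Agent.P.MP_20768c_nt.Az.EQ.isLat_one τ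
  have hz := i4_not_mem hM g τ
  have hd := dl_sp one_ne_zero τ
  rw [one_mul] at hd
  have hD := ModularForm.discriminant_ne_zero τ
  have hp : (2 * π : ℂ) ≠ 0 := mul_ne_zero two_ne_zero (ofReal_ne_zero.2 Real.pi_ne_zero)
  have e := wpd_sq hL hz
  rw [sum_six hL hz, sum_three, i4_smul, hd]
  generalize (2 * π : ℂ) = p at hp
  have e' : 10 * (wp (sp 1 ↑τ) ((↑(g 1 0) * ↑τ + ↑(g 1 1)) / ↑M) ^ 3 -
      3 / 20 * g2 (sp 1 ↑τ) * wp (sp 1 ↑τ) ((↑(g 1 0) * ↑τ + ↑(g 1 1)) / ↑M) - g3 (sp 1 ↑τ) / 10) +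
      -10 * (-wpd (sp 1 ↑τ) ((↑(g 1 0) * ↑τ + ↑(g 1 1)) / ↑M) / 2) ^ 2 + -3 / 2 * g3 (sp 1 ↑τ) =
      g2 (sp 1 ↑τ) * wp (sp 1 ↑τ) ((↑(g 1 0) * ↑τ + ↑(g 1 1)) / ↑M) := by
    linear_combination (-5 / 2) * e
  rw [e']
  field_simp

theorem i4_T (M : ℕ) : ModularGroup.T ∈ CongruenceSubgroup.Gamma1 M := by
  rw [CongruenceSubgroup.Gamma1_mem]
  simp [ModularGroup.T]

theorem i4_sep {M : ℕ} (hM : 3 ≤ M) (g : SL(2, ℤ)) (h : ∀ τ : ℍ, i4_y M (g • τ) = i4_y M τ) :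
    g ∈ CongruenceSubgroup.Gamma1 M ∨ -g ∈ CongruenceSubgroup.Gamma1 M := by
  have h0 : 0 < M := by omega
  obtain ⟨τ, hτ⟩ := Pool.Agent.P.MP_20768c_nt.Az.EQ.jInv_surj 1
  have hL := Pool.Agent.P.MP_20768c_nt.Az.EQ.isLat_one τ
  obtain ⟨h2, h3⟩ := (g23_iff hL).2 (by rw [Pool.Agent.P.MP_20768c_nt.Az.EQ.jL_one, hτ]; norm_num)
  have h1 := h τ
  rw [i4_smul, i4_y, div_left_inj' (dl_ne hL)] at h1
  have hdet : ((g 0 0 : ℤ) : ZMod M) * (g 1 1 : ℤ) - (g 0 1 : ℤ) * (g 1 0 : ℤ) = 1 := by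
    exact_mod_cast congrArg (Int.cast : ℤ → ZMod M) (i4_det g)
  rcases wp_inj hL (i4_not_mem hM g τ) (i4_one_not_mem hM τ)
    (mul_left_cancel₀ (mul_ne_zero h2 h3) h1) with k | k
  · have e : ((g 1 0 : ℂ) * τ + g 1 1) / M - 1 / M =
        ((g 1 0 : ℂ) * τ + ((g 1 1 - 1 : ℤ) : ℂ)) / M := by
      push_cast
      ring
    rw [e, i4_mem h0, ← ZMod.intCast_zmod_eq_zero_iff_dvd,
      ← ZMod.intCast_zmod_eq_zero_iff_dvd] at k
    obtain ⟨k1, k2⟩ := k
    push_cast at k2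
    left
    rw [CongruenceSubgroup.Gamma1_mem]
    exact ⟨by linear_combination hdet - (g 0 0 : ℤ) * k2 + (g 0 1 : ℤ) * k1,
      by linear_combination k2, k1⟩
  · have e : ((g 1 0 : ℂ) * τ + g 1 1) / M + 1 / M =
        ((g 1 0 : ℂ) * τ + ((g 1 1 + 1 : ℤ) : ℂ)) / M := by
      push_cast
      ring
    rw [e, i4_mem h0, ← ZMod.intCast_zmod_eq_zero_iff_dvd,
      ← ZMod.intCast_zmod_eq_zero_iff_dvd] at k
    obtain ⟨k1, k2⟩ := k
    push_cast at k2
    right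
    rw [CongruenceSubgroup.Gamma1_mem]
    simp only [Matrix.SpecialLinearGroup.coe_neg, Matrix.neg_apply, Int.cast_neg]
    exact ⟨by linear_combination hdet - (g 0 0 : ℤ) * k2 + (g 0 1 : ℤ) * k1,
      by linear_combination -k2, by rw [k1, neg_zero]⟩

theorem exists_gen {M : ℕ} (hM : 3 ≤ M) : ∃ y, Gen M y := by
  have h0 : 0 < M := by omega
  refine ⟨i4_y M, Pool.Agent.P.MP_20768c_nt.Az.EQ.isMF_iff.2 ⟨fun γ hγ τ => i4_inv h0 hγ τ, 1,
    fun γ => (i4_bq hM γ).qs⟩, ⟨1, ?_⟩, i4_sep hM⟩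
  have h := i4_bq hM 1
  simp only [one_smul] at h
  refine h.one h0 fun τ => ?_
  rw [i4_inv h0 (i4_T M), Pool.Agent.P.MP_20768c_nt.Az.EQ.disc_smul]
  simp [ModularGroup.T]

end Pool.Agent.P.MP_20768c_nt.Az.Cu

end

-- part Cu.I3b
section

set_option autoImplicit false

open Complex NumberField IsDedekindDomain Filter Topology
open UpperHalfPlane hiding I
open scoped ComplexConjugate Real MatrixGroups

namespace Pool.Agent.P.MP_20768c_nt.Az.Cu

open Pool.Agent.P.MP_20768c_nt.Az.EQ (Lt pr sp IsLat jL qN)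

/-- quotients of bounded expansions -/
def i3bFr (h : ℍ → ℂ) : Prop := ∃ p q : ℍ → ℂ, BQ 1 p ∧ BQ 1 q ∧
    q ≠ 0 ∧ ∀ τ : ℍ, ∀ᶠ w in 𝓝[≠] (τ : ℂ), q (ofComplex w) * h (ofComplex w) = p (ofComplex w)

theorem i3b_ne {p q : ℍ → ℂ} (a : BQ 1 p) (b : BQ 1 q) (hp : p ≠ 0) (hq : q ≠ 0) :
    (fun τ => p τ * q τ) ≠ 0 := fun e =>
  (Pool.Agent.P.MP_20768c_nt.Az.EQ.QS.eq_zero one_pos a.qs b.qs (congrFun e)).elim (fun h => hp (funext h))
    fun h => hq (funext h)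

theorem i3b_of {h q : ℍ → ℂ} (b : BQ 1 q) (hq : q ≠ 0) (a : BQ 1 fun τ => q τ * h τ) : i3bFr h :=
  ⟨_, q, a, b, hq, fun _ => Eventually.of_forall fun _ => rfl⟩

theorem i3b_const (c : ℂ) : i3bFr fun _ => c :=
  i3b_of (bq_const 1 1) (fun e => one_ne_zero (congrFun e UpperHalfPlane.I)) (bq_const 1 (1 * c))

theorem i3b_mul {h k : ℍ → ℂ} (a : i3bFr h) (b : i3bFr k) : i3bFr (h * k) := by
  obtain ⟨p, q, hp, hq, h0, e⟩ := a
  obtain ⟨p', q', hp', hq', h0', e'⟩ := b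
  refine ⟨_, _, hp.mul one_pos hp', hq.mul one_pos hq', i3b_ne hq hq' h0 h0', fun τ => ?_⟩
  filter_upwards [e τ, e' τ] with w h1 h2
  rw [← h1, ← h2, Pi.mul_apply]
  ring

theorem i3b_add {h k : ℍ → ℂ} (a : i3bFr h) (b : i3bFr k) : i3bFr (h + k) := by
  obtain ⟨p, q, hp, hq, h0, e⟩ := a
  obtain ⟨p', q', hp', hq', h0', e'⟩ := b
  refine ⟨_, _, (hp.mul one_pos hq').add (hq.mul one_pos hp'), hq.mul one_pos hq',
    i3b_ne hq hq' h0 h0', fun τ => ?_⟩
  filter_upwards [e τ, e' τ] with w h1 h2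
  rw [← h1, ← h2, Pi.add_apply]
  ring

def i3bFR : Subring (ℍ → ℂ) where
  carrier := {h | i3bFr h}
  mul_mem' := i3b_mul
  one_mem' := i3b_const 1
  add_mem' := i3b_add
  zero_mem' := i3b_const 0
  neg_mem' := fun {h} a => by
    have e : -h = (fun _ => (-1 : ℂ)) * h := by
      funext τ
      simp
    rw [e]
    exact i3b_mul (i3b_const _) a

def i3bMR (M : ℕ) : Subring (ℍ → ℂ) where
  carrier := {h | Mer0 M h}
  mul_mem' := Mer0.mul
  one_mem' := mer0_const M 1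
  add_mem' := Mer0.add
  zero_mem' := mer0_const M 0
  neg_mem' := fun {h} a => by
    have e : -h = fun τ => (-1 : ℂ) * h τ := by
      funext τ
      simp
    rw [e]
    exact Mer0.mul (mer0_const M _) a

theorem i3b_disc (m : ℕ) : BQ 1 fun τ => ModularForm.discriminant τ ^ m :=
  bq_of_intQ (Pool.Agent.P.MP_20768c_nt.Az.EQ.iq2_intQ_disc.pow m)

theorem i3b_disc_ne (m : ℕ) : (fun τ : ℍ => ModularForm.discriminant τ ^ m) ≠ 0 := fun e =>
  pow_ne_zero m (ModularForm.discriminant_ne_zero UpperHalfPlane.I) (congrFun e UpperHalfPlane.I)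

theorem i3b_j : i3bFr Pool.Agent.P.MP_20768c_nt.Az.EQ.jInv := by
  refine i3b_of (i3b_disc 1) (i3b_disc_ne 1) ?_
  have e : (fun τ : ℍ => ModularForm.discriminant τ ^ 1 * Pool.Agent.P.MP_20768c_nt.Az.EQ.jInv τ) =
      fun τ => ModularForm.E₄ τ ^ 3 := by
    funext τ
    rw [pow_one, Pool.Agent.P.MP_20768c_nt.Az.EQ.vmf_E4]
  rw [e]
  exact bq_of_intQ (Pool.Agent.P.MP_20768c_nt.Az.EQ.intQ_E4.pow 3)

theorem i3b_zero {G : ℍ → ℂ} (hG : Continuous G) (τ : ℍ)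
    (h : ∀ᶠ w in 𝓝[≠] (τ : ℂ), G (ofComplex w) = 0) : G τ = 0 := by
  have h1 : ContinuousAt (fun w => G (ofComplex w)) (τ : ℂ) :=
    hG.continuousAt.comp (mdifferentiableAt_ofComplex τ.im_pos).continuousAt
  have h2 : Tendsto (fun w => G (ofComplex w)) (𝓝[≠] (τ : ℂ)) (𝓝 (G (ofComplex τ))) :=
    h1.tendsto.mono_left nhdsWithin_le_nhds
  have h3 : Tendsto (fun w => G (ofComplex w)) (𝓝[≠] (τ : ℂ)) (𝓝 0) :=
    tendsto_const_nhds.congr' (h.mono fun _ e => e.symm)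
  have h4 := tendsto_nhds_unique h2 h3
  rwa [ofComplex_apply] at h4

theorem i3b_div {M : ℕ} (hM : 0 < M) {h u v : ℍ → ℂ} (hv : v ∈ Pool.Agent.P.MP_20768c_nt.Az.EQ.MF M ⊤) (h0 : v ≠ 0)
    (a : i3bFr u) (b : i3bFr v)
    (e : ∀ τ : ℍ, ∀ᶠ w in 𝓝[≠] (τ : ℂ), v (ofComplex w) * h (ofComplex w) = u (ofComplex w)) :
    i3bFr h := by
  obtain ⟨p, q, hp, hq, n, e1⟩ := a
  obtain ⟨p', q', hp', hq', n', e2⟩ := b
  have hn : p' ≠ 0 := by
    rintro rfl
    obtain ⟨-, m, hm⟩ := Pool.Agent.P.MP_20768c_nt.Az.EQ.isMF_iff.1 hv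
    have h1 := hm 1
    have h2 := (hq'.level hM).qs
    refine (Pool.Agent.P.MP_20768c_nt.Az.EQ.QS.eq_zero hM h2 h1 fun τ => ?_).elim (fun h => n' (funext h))
      fun h => h0 (funext fun τ => ?_)
    · refine i3b_zero ((h2.mul hM h1).continuous hM) τ ?_
      filter_upwards [e2 τ] with w hw
      rw [one_smul, mul_left_comm, hw, Pi.zero_apply, mul_zero]
    · have h3 := h τ
      rw [one_smul] at h3
      exact (mul_eq_zero.1 h3).resolve_left (pow_ne_zero _ (ModularForm.discriminant_ne_zero τ))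
  refine ⟨_, _, hq'.mul one_pos hp, hq.mul one_pos hp', i3b_ne hq hp' n hn, fun τ => ?_⟩
  filter_upwards [e τ, e1 τ, e2 τ] with w h1 h2 h3
  rw [← h2, ← h3, ← h1]
  ring

theorem i3b_poly (P : Polynomial ℂ) : i3bFr fun τ => P.eval (Pool.Agent.P.MP_20768c_nt.Az.EQ.jInv τ) := by
  have e : (fun τ => P.eval (Pool.Agent.P.MP_20768c_nt.Az.EQ.jInv τ)) = ∑ i ∈ Finset.range (P.natDegree + 1),
      (fun _ => P.coeff i) * Pool.Agent.P.MP_20768c_nt.Az.EQ.jInv ^ i := by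
    funext τ
    rw [Polynomial.eval_eq_sum_range, Finset.sum_apply]
    rfl
  rw [e]
  exact sum_mem (S := i3bFR) fun i _ => mul_mem (S := Subring _) (s := i3bFR) (i3b_const _)
    (pow_mem (S := i3bFR) i3b_j i)

theorem i3b_inv {M : ℕ} (hM : 0 < M) {h : ℍ → ℂ} (a : Mer0 M h)
    (hi : ∀ (γ : SL(2, ℤ)) (τ : ℍ), h (γ • τ) = h τ) : i3bFr h := by
  obtain ⟨P, Q, hQ, e⟩ := mer_level hM a hi
  refine i3b_div hM (v := fun τ => Q.eval (Pool.Agent.P.MP_20768c_nt.Az.EQ.jInv τ)) ?_ (fun h0 => hQ ?_) (i3b_poly P)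
    (i3b_poly Q) e
  · simp only [Polynomial.eval_eq_sum_range]
    exact Pool.Agent.P.MP_20768c_nt.Az.EQ.MF.sum hM _ fun i _ => Pool.Agent.P.MP_20768c_nt.Az.EQ.MF.mul hM
      (Pool.Agent.P.MP_20768c_nt.Az.EQ.MF.const IntermediateField.mem_top)
      (Pool.Agent.P.MP_20768c_nt.Az.EQ.MF.pow hM (Pool.Agent.P.MP_20768c_nt.Az.EQ.MF.j hM) i)
  · refine Polynomial.funext fun z => ?_
    obtain ⟨τ, rfl⟩ := Pool.Agent.P.MP_20768c_nt.Az.EQ.jInv_surj z
    rw [Polynomial.eval_zero]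
    exact congrFun h0 τ

/-- translation of functions -/
noncomputable def i3bT (γ : SL(2, ℤ)) : (ℍ → ℂ) →+* (ℍ → ℂ) :=
  RingHom.pi fun τ => Pi.evalRingHom _ (γ • τ)

theorem i3bT_inj (γ : SL(2, ℤ)) : Function.Injective (i3bT γ) := fun f g e => by
  funext τ
  have h : f (γ • γ⁻¹ • τ) = g (γ • γ⁻¹ • τ) := congrFun e (γ⁻¹ • τ)
  rwa [smul_inv_smul] at h

theorem i3bT_mul (γ δ : SL(2, ℤ)) (f : ℍ → ℂ) : i3bT δ (i3bT γ f) = i3bT (γ * δ) f := by
  funext τ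
  exact congrArg f (mul_smul γ δ τ).symm

theorem i3bT_one (f : ℍ → ℂ) : i3bT 1 f = f := by
  funext τ
  exact congrArg f (one_smul _ τ)

theorem i3b_fin {M : ℕ} (hM : 0 < M) {y : ℍ → ℂ}
    (hy : ∀ γ ∈ CongruenceSubgroup.Gamma1 M, ∀ τ : ℍ, y (γ • τ) = y τ) :
    (Set.range fun g => i3bT g y).Finite := by
  have : NeZero M := ⟨hM.ne'⟩
  refine (Set.finite_range fun c : SL(2, ℤ) ⧸ CongruenceSubgroup.Gamma1 M =>
    i3bT (c.out)⁻¹ y).subset ?_
  rintro _ ⟨g, rfl⟩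
  obtain ⟨γ, e⟩ := QuotientGroup.mk_out_eq_mul (CongruenceSubgroup.Gamma1 M) g⁻¹
  refine ⟨QuotientGroup.mk g⁻¹, funext fun τ => ?_⟩
  change y ((QuotientGroup.mk g⁻¹ : SL(2, ℤ) ⧸ CongruenceSubgroup.Gamma1 M).out⁻¹ • τ) = y (g • τ)
  rw [e, mul_inv_rev, inv_inv, mul_smul, hy _ (inv_mem γ.2)]

theorem i3b_main {M : ℕ} (hM : 0 < M) {y h : ℍ → ℂ} (hy : Gen M y) (a : Mer M h)
    (Y : Finset (ℍ → ℂ)) [DecidableEq (ℍ → ℂ)] (hY : ∀ z, z ∈ Y ↔ ∃ g, i3bT g y = z) :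
    i3bFr ((∏ z ∈ Y.erase y, (y - z)) * h) := by
  have hf : Function.FactorsThrough (fun g => i3bT g h) fun g => i3bT g y := by
    intro g g' e
    have e1 : i3bT (g * g'⁻¹) y = y := by
      rw [← i3bT_mul, show i3bT g y = i3bT g' y from e, i3bT_mul, mul_inv_cancel, i3bT_one]
    have e2 : i3bT (g * g'⁻¹) h = h := by
      funext τ
      rcases hy.2.2 _ (congrFun e1) with h1 | h1
      · exact a.2 _ h1 τ
      · exact (congrArg h (ModularGroup.SL_neg_smul _ τ).symm).trans (a.2 _ h1 τ)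
    change i3bT g h = i3bT g' h
    conv_rhs => rw [← e2, i3bT_mul, inv_mul_cancel_right]
  obtain ⟨U, hU⟩ : ∃ U : (ℍ → ℂ) → ℍ → ℂ, ∀ g, U (i3bT g y) = i3bT g h :=
    ⟨_, fun g => hf.extend_apply 0 g⟩
  have hm : y ∈ Pool.Agent.P.MP_20768c_nt.Az.EQ.MF M ⊤ := hy.1.mf (fun γ hγ => by
    rw [CongruenceSubgroup.Gamma_mem] at hγ
    exact (CongruenceSubgroup.Gamma1_mem _ _).2 ⟨hγ.1, hγ.2.2.2, hγ.2.2.1⟩) le_rfl
  obtain ⟨A, hA⟩ : ∃ A : Polynomial (ℍ → ℂ), A = ∑ z ∈ Y, Polynomial.C (U z) *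
    ∏ z' ∈ Y.erase z, (Polynomial.X - Polynomial.C z') := ⟨_, rfl⟩
  have hC : ∀ f : ℍ → ℂ, Mer0 M f → Polynomial.C f ∈ Polynomial.liftsRing (i3bMR M).subtype :=
    fun f hf => (Polynomial.lifts_iff_liftsRing _ _).1
      (Polynomial.C_mem_lifts (i3bMR M).subtype ⟨f, hf⟩)
  have h1 : A ∈ Polynomial.liftsRing (i3bMR M).subtype := by
    rw [hA]
    refine sum_mem fun z hz => mul_mem (hC _ ?_) (prod_mem fun z' hz' => sub_mem
      ((Polynomial.lifts_iff_liftsRing _ _).1 (Polynomial.X_mem_lifts _)) (hC _ ?_))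
    · obtain ⟨g, rfl⟩ := (hY z).1 hz
      rw [hU]
      exact a.1.smul g
    · obtain ⟨g, rfl⟩ := (hY z').1 (Finset.mem_of_mem_erase hz')
      exact (mer0_of_MF hM hm).smul g
  have h2 : ∀ γ, A.map (i3bT γ) = A := fun γ => by
    have hi : Y.image (i3bT γ) = Y := by
      refine Finset.eq_of_subset_of_card_le (fun z hz => ?_)
        (Finset.card_image_of_injective Y (i3bT_inj γ)).ge
      obtain ⟨z', hz', rfl⟩ := Finset.mem_image.1 hz
      obtain ⟨g, rfl⟩ := (hY z').1 hz'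
      exact (hY _).2 ⟨_, (i3bT_mul g γ y).symm⟩
    conv_rhs => rw [hA, ← hi, Finset.sum_image (i3bT_inj γ).injOn]
    rw [hA, Polynomial.map_sum]
    refine Finset.sum_congr rfl fun z hz => ?_
    obtain ⟨g, rfl⟩ := (hY z).1 hz
    rw [← Finset.image_erase (i3bT_inj γ), Finset.prod_image (i3bT_inj γ).injOn, Polynomial.map_mul,
      Polynomial.map_C, Polynomial.map_prod, hU, i3bT_mul, i3bT_mul, hU]
    simp only [Polynomial.map_sub, Polynomial.map_X, Polynomial.map_C]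
  have hyY : y ∈ Y := (hY y).2 ⟨1, i3bT_one y⟩
  have h3 : A.eval y = (∏ z ∈ Y.erase y, (y - z)) * h := by
    have e : U y = h := by simpa only [i3bT_one] using hU 1
    rw [hA, Polynomial.eval_finsetSum, Finset.sum_eq_single_of_mem y hyY fun z _ hz => ?_]
    · simp only [Polynomial.eval_mul, Polynomial.eval_C, Polynomial.eval_prod, Polynomial.eval_sub,
        Polynomial.eval_X, e, mul_comm]
    · rw [Polynomial.eval_mul, Polynomial.eval_prod,
        Finset.prod_eq_zero (Finset.mem_erase.2 ⟨hz.symm, hyY⟩) (by simp), mul_zero]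
  obtain ⟨m, hb⟩ := hy.2.1
  rw [← h3, Polynomial.eval_eq_sum_range]
  refine sum_mem (S := i3bFR) fun i _ => mul_mem (S := Subring _) (s := i3bFR) ?_
    (pow_mem (S := i3bFR) (i3b_of (i3b_disc m) (i3b_disc_ne m) hb) i)
  obtain ⟨⟨f, hf⟩, e⟩ := (Polynomial.lifts_iff_coeff_lifts _).1
    ((Polynomial.lifts_iff_liftsRing _ _).2 h1) i
  have e' : f = A.coeff i := e
  refine i3b_inv hM (e' ▸ hf) fun γ τ => ?_
  have h4 := congrArg (fun P => Polynomial.coeff P i) (h2 γ)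
  simp only [Polynomial.coeff_map] at h4
  exact congrFun h4 τ

theorem mer_frac {M : ℕ} (hM : 3 ≤ M) {h : ℍ → ℂ} (a : Mer M h) : ∃ p q : ℍ → ℂ, BQ 1 p ∧ BQ 1 q ∧
    q ≠ 0 ∧ ∀ τ : ℍ, ∀ᶠ w in 𝓝[≠] (τ : ℂ), q (ofComplex w) * h (ofComplex w) = p (ofComplex w) := by
  classical
  have h0 : 0 < M := by omega
  obtain ⟨y, hy⟩ := exists_gen hM
  obtain ⟨Y, hY⟩ : ∃ Y : Finset (ℍ → ℂ), ∀ z, z ∈ Y ↔ ∃ g, i3bT g y = z :=
    ⟨(i3b_fin h0 hy.1.1).toFinset, fun z => Set.Finite.mem_toFinset _⟩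
  have hm : y ∈ Pool.Agent.P.MP_20768c_nt.Az.EQ.MF M ⊤ := hy.1.mf (fun γ hγ => by
    rw [CongruenceSubgroup.Gamma_mem] at hγ
    exact (CongruenceSubgroup.Gamma1_mem _ _).2 ⟨hγ.1, hγ.2.2.2, hγ.2.2.1⟩) le_rfl
  have h1 : ∀ s : Finset (ℍ → ℂ), s ⊆ Y.erase y →
      (∏ z ∈ s, (y - z)) ∈ Pool.Agent.P.MP_20768c_nt.Az.EQ.MF M ⊤ ∧ (∏ z ∈ s, (y - z)) ≠ 0 := by
    intro s
    induction s using Finset.induction_on with
    | empty =>
      exact fun _ => ⟨Pool.Agent.P.MP_20768c_nt.Az.EQ.MF.const (one_mem _), by simp⟩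
    | insert z s hz ih =>
      intro hs
      obtain ⟨i1, i2⟩ := ih ((Finset.subset_insert z s).trans hs)
      obtain ⟨n, hz'⟩ := Finset.mem_erase.1 (hs (Finset.mem_insert_self z s))
      obtain ⟨g, rfl⟩ := (hY z).1 hz'
      have i3 := Pool.Agent.P.MP_20768c_nt.Az.EQ.MF.sub h0 hm (Pool.Agent.P.MP_20768c_nt.Az.EQ.MF.smul hm g)
      rw [Finset.prod_insert hz]
      refine ⟨Pool.Agent.P.MP_20768c_nt.Az.EQ.MF.mul h0 i3 i1, fun e => ?_⟩
      exact (Pool.Agent.P.MP_20768c_nt.Az.EQ.MF.eq_zero h0 i3 i1 (congrFun e)).elim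
        (fun h => n (sub_eq_zero.1 (funext h : y - i3bT g y = 0)).symm) fun h => i2 (funext h)
  obtain ⟨h2, h3⟩ := h1 _ le_rfl
  have h4 := i3b_main h0 hy (h := 1) ⟨mer0_const M 1, fun _ _ _ => rfl⟩ Y hY
  rw [mul_one] at h4
  exact i3b_div h0 h2 h3 (i3b_main h0 hy a Y hY) h4 fun _ => Eventually.of_forall fun _ => rfl

theorem VD.const {v : Valuation ℂ NNReal} {z : ℂ} {F : Type} [Field F] (W : VD v z F) :
    ∃ e : ℂ →+* F, (∀ c, W.g (e c) = ((fun _ => c : ℂ → ℂ) : Filter.Germ (𝓝[≠] z) ℂ)) ∧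
      (∀ c, W.V (e c) = v c) ∧ ∀ c, W.D (e c) = 0 := by
  have hi : Function.Injective W.g := W.g.injective
  have h : ∀ c : ℂ, ∃ x, W.g x = ((fun _ => c : ℂ → ℂ) : Filter.Germ (𝓝[≠] z) ℂ) ∧ W.V x = v c := by
    intro c
    obtain ⟨x, h1, h2, n, h3⟩ := W.ser (fun _ => c) (fun n => if n = 0 then c else 0)
      (Submodule.span ℤ {c}) (Submodule.fg_span_singleton c) (fun n => by
        split_ifs
        exacts [Submodule.mem_span_singleton_self c, zero_mem _]) fun τ => by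
      simpa only [pow_zero, mul_one] using Pool.Agent.P.MP_20768c_nt.Az.EQ.vqs_single 0 c (qN 1 τ)
    refine ⟨x, h1, le_antisymm ?_ (by simpa only [if_true] using h2 0)⟩
    rw [h3]
    split_ifs
    exacts [le_rfl, by simp]
  choose e h1 h2 using h
  refine ⟨{ toFun := e
            map_one' := hi (by rw [h1, map_one]; rfl)
            map_mul' := fun c d => hi (by rw [map_mul, h1, h1, h1]; rfl)
            map_zero' := hi (by rw [h1, map_zero]; rfl)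
            map_add' := fun c d => hi (by rw [map_add, h1, h1, h1]; rfl) }, h1, h2, fun c => hi ?_⟩
  change W.g (W.D (e c)) = _
  rw [W.der _ _ (h1 c), map_zero]
  simp only [deriv_const', zero_div]
  rfl

theorem VD.mer {v : Valuation ℂ NNReal} {τ : ℍ} {F : Type} [Field F] (W : VD v τ F) {M : ℕ}
    (hM : 3 ≤ M) {h : ℍ → ℂ} (a : Mer M h) :
    ∃ x, W.g x = ((h ∘ ofComplex : ℂ → ℂ) : Filter.Germ (𝓝[≠] (τ : ℂ)) ℂ) := by
  obtain ⟨p, q, ⟨b, Λ, b1, b2, b3⟩, ⟨c, Λ', c1, c2, c3⟩, h0, e⟩ := mer_frac hM a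
  obtain ⟨x, hx, -⟩ := W.ser p b Λ b1 b2 b3
  obtain ⟨y, hy, h1, -⟩ := W.ser q c Λ' c1 c2 c3
  have h2 : y ≠ 0 := by
    rintro rfl
    refine h0 (funext fun w => (c3 w).unique ?_)
    have h3 : ∀ n, c n = 0 := fun n => v.zero_iff.1 (le_zero_iff.1 (W.V.map_zero ▸ h1 n))
    simpa only [h3, zero_mul, Pi.zero_apply] using hasSum_zero
  have h4 : W.g y * ((h ∘ ofComplex : ℂ → ℂ) : Filter.Germ (𝓝[≠] (τ : ℂ)) ℂ) = W.g x := by
    rw [hx, hy]
    exact Filter.Germ.coe_eq.2 (e τ)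
  refine ⟨y⁻¹ * x, ?_⟩
  rw [map_mul, ← h4, ← mul_assoc, ← map_mul, inv_mul_cancel₀ h2, map_one, one_mul]

end Pool.Agent.P.MP_20768c_nt.Az.Cu

end

-- part Cu.A4
section

set_option autoImplicit false

open Complex NumberField IsDedekindDomain Filter Topology
open UpperHalfPlane hiding I
open scoped ComplexConjugate Real MatrixGroups

namespace Pool.Agent.P.MP_20768c_nt.Az.Cu

open Pool.Agent.P.MP_20768c_nt.Az.EQ (Lt pr sp IsLat jL qN)

variable {L L' : Lt} {t t' z : ℂ}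

theorem a4_g3 (h : IsLat L) (ht : t ∉ L) (h2 : 2 * t ∈ L) :
    g3 L = 4 * wp L t ^ 3 - g2 L * wp L t := by
  have e := wpd_sq h ht
  rw [(wpd_eq_zero h ht).2 h2] at e
  linear_combination e

theorem a4_dl (h : IsLat L) (ht : t ∉ L) (h2 : 2 * t ∈ L) :
    dl L = 16 * (g2 L - 3 * wp L t ^ 2) * (3 * wp L t ^ 2 - g2 L / 4) ^ 2 := by
  rw [dl, a4_g3 h ht h2]
  ring

theorem hB_ne (h : IsLat L) (ht : t ∉ L) (h2 : 2 * t ∈ L) : 3 * wp L t ^ 2 - g2 L / 4 ≠ 0 := by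
  intro e
  apply dl_ne h
  rw [a4_dl h ht h2, e]
  ring

theorem a4_h (h : IsLat L) (ht : t ∉ L) (h2 : 2 * t ∈ L) :
    hpar L t * (3 * wp L t ^ 2 - g2 L / 4) = 16 * (g2 L - 3 * wp L t ^ 2) := by
  have e : 12 * wp L t ^ 2 - g2 L = 4 * (3 * wp L t ^ 2 - g2 L / 4) := by ring
  rw [hpar, e, div_mul_eq_mul_div, div_eq_iff (mul_ne_zero (by norm_num) (hB_ne h ht h2))]
  ring

theorem h_B (h : IsLat L) (ht : t ∉ L) (h2 : 2 * t ∈ L) :
    hpar L t * (3 * wp L t ^ 2 - g2 L / 4) ^ 3 = dl L := by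
  rw [a4_dl h ht h2, ← a4_h h ht h2]
  ring

theorem h_b2 (h : IsLat L) (ht : t ∉ L) (h2 : 2 * t ∈ L) :
    (hpar L t + 64) * (3 * wp L t ^ 2 - g2 L / 4) = 144 * wp L t ^ 2 := by
  linear_combination a4_h h ht h2

theorem h_one (h : IsLat L) (ht : t ∉ L) (h2 : 2 * t ∈ L) :
    jL L * hpar L t = (hpar L t + 16) ^ 3 := by
  have e : jL L * dl L = 1728 * g2 L ^ 3 := by rw [jL_eq h, div_mul_cancel₀ _ (dl_ne h)]
  have e2 : (hpar L t + 16) * (3 * wp L t ^ 2 - g2 L / 4) = 12 * g2 L := by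
    linear_combination a4_h h ht h2
  refine mul_right_cancel₀ (pow_ne_zero 3 (hB_ne h ht h2)) ?_
  rw [mul_assoc, h_B h ht h2, e, ← mul_pow, e2]
  ring

theorem h_rel (h : IsLat L) {t₁ t₂ : ℂ} (h1 : t₁ ∉ L) (h2 : t₂ ∉ L) (h3 : t₁ + t₂ ∉ L)
    (k1 : 2 * t₁ ∈ L) (k2 : 2 * t₂ ∈ L) : hpar L t₁ + hpar L t₂ + hpar L (t₁ + t₂) = -48 ∧
      hpar L t₁ * hpar L t₂ * hpar L (t₁ + t₂) = -4096 := by
  obtain ⟨v1, v2, -, n1, n2, n3⟩ := vieta' h h1 h2 h3 k1 k2
  have a1 := a4_h h h1 k1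
  have a2 := a4_h h h2 k2
  have a3 := a4_h h h3 (by rw [mul_add]; exact add_mem k1 k2)
  rw [v2] at a1 a2 a3
  generalize wp L t₁ = a at *
  generalize wp L t₂ = b at *
  generalize wp L (t₁ + t₂) = c at *
  have m1 := sub_ne_zero.2 n1
  have m2 := sub_ne_zero.2 n2
  have m3 := sub_ne_zero.2 n3
  obtain rfl : c = -a - b := by linear_combination v1
  have b1 : hpar L t₁ = 16 * (b - (-a - b)) ^ 2 / ((a - b) * (a - (-a - b))) := by
    rw [eq_div_iff (mul_ne_zero m1 m2)]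
    linear_combination a1
  have b2 : hpar L t₂ = -16 * (a - (-a - b)) ^ 2 / ((a - b) * (b - (-a - b))) := by
    rw [eq_div_iff (mul_ne_zero m1 m3)]
    linear_combination -a2
  have b3 : hpar L (t₁ + t₂) = 16 * (a - b) ^ 2 / ((a - (-a - b)) * (b - (-a - b))) := by
    rw [eq_div_iff (mul_ne_zero m2 m3)]
    linear_combination a3
  have e : b - (-a - b) = (a - (-a - b)) - (a - b) := by ring
  rw [b1, b2, b3]
  rw [e] at m3 ⊢
  generalize a - (-a - b) = y at *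
  generalize a - b = x at *
  constructor
  · field_simp
    ring
  · field_simp
    ring

theorem hpar_congr (h : IsLat L) (e : t - t' ∈ L) : hpar L t = hpar L t' := by
  rw [hpar, hpar, wp_congr h e]

theorem Two.le (hT : Two L L' t) : L ≤ L' := by
  exact fun x hx => (hT.2.2 x).2 (Or.inl hx)

theorem Two.isLat (hT : Two L L' t) (h : IsLat L) : IsLat L' := by
  refine isLat_of_le h hT.le two_pos fun y hy => ?_
  rcases (hT.2.2 y).1 hy with e | e
  · rw [Nat.cast_ofNat, two_mul]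
    exact add_mem e e
  · have := add_mem (add_mem e e) hT.2.1
    convert this using 1
    push_cast
    ring

theorem Two.reps (hT : Two L L' t) : Reps L L' {0, t} := by
  refine ⟨hT.le, by simp, fun r hr => ?_, fun x hx => ?_⟩
  · rcases Finset.mem_insert.1 hr with rfl | hr
    · exact zero_mem _
    · rw [Finset.mem_singleton.1 hr]
      exact (hT.2.2 t).2 (Or.inr (by simp))
  · have key : x ∈ L → x - t ∈ L → False := fun a b => hT.1 (by simpa using sub_mem a b)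
    rcases (hT.2.2 x).1 hx with e | e
    · refine ⟨0, ⟨by simp, by simpa using e⟩, fun r hr => ?_⟩
      rcases Finset.mem_insert.1 hr.1 with e' | e'
      · exact e'
      · exact (key e (Finset.mem_singleton.1 e' ▸ hr.2)).elim
    · refine ⟨t, ⟨by simp, e⟩, fun r hr => ?_⟩
      rcases Finset.mem_insert.1 hr.1 with e' | e'
      · exact (key (by simpa [e'] using hr.2) e).elim
      · exact Finset.mem_singleton.1 e'

theorem a4_erase (hT : Two L L' t) : ({0, t} : Finset ℂ).erase 0 = {t} :=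
  Finset.erase_insert (Finset.notMem_singleton.2 fun e => hT.1 (e ▸ zero_mem L))

theorem a4_g2 (h : IsLat L) (hT : Two L L' t) : g2 L' = 60 * wp L t ^ 2 - 4 * g2 L := by
  rw [velu_g2 h (hT.isLat h) hT.reps, a4_erase hT, Finset.sum_singleton]
  ring

theorem a4_wp (h : IsLat L) (hT : Two L L' t) (z : ℂ) :
    wp L' z = wp L z + (wp L (z + t) - wp L t) := by
  rw [velu_wp h (hT.isLat h) hT.reps, a4_erase hT, Finset.sum_singleton]

theorem a4_not (hT : Two L L' t) (hz : z ∉ L') : z ∉ L ∧ z + t ∉ L :=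
  ⟨fun e => hz (hT.le e), fun e => hz ((hT.2.2 z).2 (Or.inr (by
    convert sub_mem e hT.2.1 using 1
    ring)))⟩

theorem a4_two (h : IsLat L) (hT : Two L L' t) (h2 : 2 * t' ∈ L) (ht : t' ∉ L') :
    wp L' t' = -2 * wp L t := by
  obtain ⟨n1, n2⟩ := a4_not hT ht
  rw [a4_wp h hT]
  linear_combination (vieta' h n1 hT.1 n2 h2 hT.2.1).1

theorem h_two (h : IsLat L) (hT : Two L L' t) :
    jL L' * hpar L t ^ 2 = (hpar L t + 256) ^ 3 := by
  have h' := hT.isLat h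
  have a := a4_h h hT.1 hT.2.1
  have e : jL L' * dl L' = 1728 * g2 L' ^ 3 := by rw [jL_eq h', div_mul_cancel₀ _ (dl_ne h')]
  have e2 : (hpar L t + 256) * (3 * wp L t ^ 2 - g2 L / 4) = 12 * g2 L' := by
    rw [a4_g2 h hT]
    linear_combination a
  have e3 : dl L' = (hpar L t * (3 * wp L t ^ 2 - g2 L / 4)) ^ 2 *
      (3 * wp L t ^ 2 - g2 L / 4) := by
    rw [a, dl, a4_g2 h hT, velu_g3 h h' hT.reps, a4_erase hT, Finset.sum_singleton,
      a4_g3 h hT.1 hT.2.1]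
    ring
  refine mul_right_cancel₀ (pow_ne_zero 3 (hB_ne h hT.1 hT.2.1)) ?_
  rw [← mul_pow, e2]
  linear_combination e - jL L' * e3

theorem h_dual (h : IsLat L) (hT : Two L L' t) (h2 : 2 * t' ∈ L) (ht : t' ∉ L') :
    hpar L t * hpar L' t' = 4096 := by
  have a := a4_h h hT.1 hT.2.1
  have b := a4_h (hT.isLat h) ht (hT.le h2)
  have nb := hB_ne (hT.isLat h) ht (hT.le h2)
  rw [a4_two h hT h2 ht, a4_g2 h hT] at b nb
  refine mul_right_cancel₀ (mul_ne_zero (hB_ne h hT.1 hT.2.1) nb) ?_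
  rw [mul_mul_mul_comm, a, b]
  ring

theorem two_wp (h : IsLat L) (hT : Two L L' t) (h2 : 2 * t' ∈ L) (ht : t' ∉ L') (hz : z ∉ L') :
    wp L' z - wp L' t' = (wpd L z / (2 * (wp L z - wp L t))) ^ 2 := by
  obtain ⟨n1, n2⟩ := a4_not hT hz
  have e := two_tr h hT.1 hT.2.1 n1 n2
  have n : wp L z - wp L t ≠ 0 := right_ne_zero_of_mul (e ▸ hB_ne h hT.1 hT.2.1)
  rw [a4_two h hT h2 ht, a4_wp h hT, div_pow, wpd_sq h n1, a4_g3 h hT.1 hT.2.1,
    eq_div_iff (pow_ne_zero 2 (mul_ne_zero two_ne_zero n))]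
  linear_combination 4 * (wp L z - wp L t) * e

theorem two_sign (h : IsLat L) (hT : Two L L' t) (hz : z ∉ L') :
    wpd L (z + t) / (2 * (wp L (z + t) - wp L t)) = -(wpd L z / (2 * (wp L z - wp L t))) := by
  obtain ⟨n1, n2⟩ := a4_not hT hz
  have e := two_tr h hT.1 hT.2.1 n1 n2
  have n := mul_ne_zero_iff.1 (e ▸ hB_ne h hT.1 hT.2.1)
  have d1 := (((hasDerivAt_wp h n2).comp_add_const z t).sub_const (wp L t)).mul
    ((hasDerivAt_wp h n1).sub_const (wp L t))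
  have ev : ∀ᶠ w in 𝓝 z, w ∉ L' := by
    filter_upwards [(compl_open (hT.isLat h) {0}).mem_nhds (x := z) (by simpa using hz)] with w hw
    simpa using hw
  have d2 := (hasDerivAt_const z (3 * wp L t ^ 2 - g2 L / 4)).congr_of_eventuallyEq
    (ev.mono fun w hw => two_tr h hT.1 hT.2.1 (a4_not hT hw).1 (a4_not hT hw).2)
  have d3 := d1.unique d2
  rw [← neg_div, div_eq_div_iff (mul_ne_zero two_ne_zero n.1) (mul_ne_zero two_ne_zero n.2)]
  linear_combination 2 * d3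

end Pool.Agent.P.MP_20768c_nt.Az.Cu

end

-- part Cu.B2
section

set_option autoImplicit false

open Complex NumberField IsDedekindDomain Filter Topology
open UpperHalfPlane hiding I
open scoped ComplexConjugate Real MatrixGroups

namespace Pool.Agent.P.MP_20768c_nt.Az.Cu

open Pool.Agent.P.MP_20768c_nt.Az.EQ (Lt pr sp IsLat jL qN)

variable {L L' : Lt} {R : Finset ℂ} {z s : ℂ}

theorem b2_ne (h : IsLat L) {t : ℂ} (hz : z ∉ L) (ht : t ∉ L) (hp : z + t ∉ L)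
    (hm : z - t ∉ L) : wp L z - wp L t ≠ 0 := fun e =>
  (wp_inj h hz ht (sub_eq_zero.1 e)).elim hm hp

theorem wp_add_sub (h : IsLat L) {t : ℂ} (hz : z ∉ L) (ht : t ∉ L) (hp : z + t ∉ L)
    (hm : z - t ∉ L) : wp L (z + t) + wp L (z - t) = 2 * wp L t +
      (6 * wp L t ^ 2 - g2 L / 2) / (wp L z - wp L t) + wpd L t ^ 2 / (wp L z - wp L t) ^ 2 := by
  have hne := b2_ne h hz ht hp hm
  have e1 := wp_add_eq h hz ht hp hm
  have e2 := wp_add_eq h hz (w := -t) (fun a => ht (by simpa using neg_mem a))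
    (by rwa [← sub_eq_add_neg]) (by rwa [sub_neg_eq_add])
  rw [wp_neg h, wpd_neg h, ← sub_eq_add_neg] at e2
  have e3 := wpd_sq h hz
  have e4 := wpd_sq h ht
  have e5 : (wp L (z + t) + wp L (z - t)) * (wp L z - wp L t) ^ 2 =
      2 * wp L t * (wp L z - wp L t) ^ 2 + (6 * wp L t ^ 2 - g2 L / 2) * (wp L z - wp L t) +
        wpd L t ^ 2 := by
    linear_combination (1 / 4) * e1 + (1 / 4) * e2 + (1 / 2) * e3 - (1 / 2) * e4
  rw [← mul_left_inj' (pow_ne_zero 2 hne), e5, add_mul, add_mul, div_mul_cancel₀ _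
    (pow_ne_zero 2 hne), sq (wp L z - wp L t), ← mul_assoc (_ / _), div_mul_cancel₀ _ hne]

theorem b2_notMem (hR : Reps L L' R) {t : ℂ} (ht : t ∈ R.erase 0) : t ∉ L := fun a =>
  (Finset.mem_erase.1 ht).1
    (hR.sub_mem (Finset.mem_erase.1 ht).2 hR.2.1 (by rwa [sub_zero]))

theorem b2_add (hR : Reps L L' R) (hz : z ∉ L') {t : ℂ} (ht : t ∈ R) : z + t ∉ L' := fun a =>
  hz (by simpa using sub_mem a (hR.2.2.1 t ht))

theorem b2_sub (hR : Reps L L' R) (hz : z ∉ L') {t : ℂ} (ht : t ∈ R) : z - t ∉ L' := fun a =>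
  hz (by simpa using add_mem a (hR.2.2.1 t ht))

theorem b2_velu (h : IsLat L) (h' : IsLat L') (hR : Reps L L' R) (hz : z ∉ L') :
    wp L' z = wp L z + ∑ t ∈ R.erase 0, ((6 * wp L t ^ 2 - g2 L / 2) / (wp L z - wp L t) +
      wpd L t ^ 2 / (wp L z - wp L t) ^ 2) / 2 := by
  have e1 := hR.sum_bij (fun a => -a) (fun a ha => neg_mem ha) (fun a _ b _ => by
    rw [show -a - -b = -(a - b) by ring, neg_mem_iff]) (fun a => wp L (z + a))
    (fun a _ l hl => by rw [← add_assoc, wp_add h _ hl])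
  rw [← Finset.add_sum_erase _ _ hR.2.1, ← Finset.add_sum_erase _ _ hR.2.1, neg_zero,
    add_right_inj] at e1
  rw [velu_wp h h' hR z, add_right_inj, Finset.sum_sub_distrib]
  have e2 : ∑ t ∈ R.erase 0, wp L (z + t) =
      ∑ t ∈ R.erase 0, (wp L (z + t) + wp L (z + -t)) / 2 := by
    rw [← Finset.sum_div, Finset.sum_add_distrib, e1]
    ring
  rw [e2, ← Finset.sum_sub_distrib]
  refine Finset.sum_congr rfl fun t ht => ?_
  have htR := (Finset.mem_erase.1 ht).2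
  rw [← sub_eq_add_neg, wp_add_sub h (fun a => hz (hR.1 a)) (b2_notMem hR ht)
    (fun a => b2_add hR hz htR (hR.1 a)) (fun a => b2_sub hR hz htR (hR.1 a))]
  ring

open Polynomial in
theorem b2_term (h : IsLat L) (hR : Reps L L' R) {t : ℂ} (ht : t ∈ R.erase 0) :
    ∃ N : ℂ[X], N.natDegree ≤ (R.erase 0).card ∧ ∀ x, x - wp L t ≠ 0 →
      N.eval x = ((6 * wp L t ^ 2 - g2 L / 2) / (x - wp L t) +
        wpd L t ^ 2 / (x - wp L t) ^ 2) / 2 * ∏ u ∈ R.erase 0, (x - wp L u) := by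
  have hdeg : ∀ S : Finset ℂ, (∏ u ∈ S, (X - C (wp L u)) : ℂ[X]).natDegree = S.card :=
    fun S => natDegree_finsetProd_X_sub_C_eq_card S _
  have hev : ∀ (S : Finset ℂ) (x : ℂ),
      (∏ u ∈ S, (X - C (wp L u)) : ℂ[X]).eval x = ∏ u ∈ S, (x - wp L u) := fun S x => by
    simp [eval_prod]
  by_cases h2 : 2 * t ∈ L
  · refine ⟨C ((6 * wp L t ^ 2 - g2 L / 2) / 2) * ∏ u ∈ (R.erase 0).erase t, (X - C (wp L u)),
      (natDegree_C_mul_le _ _).trans (by rw [hdeg]; exact Finset.card_erase_le), fun x hx => ?_⟩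
    rw [eval_mul, eval_C, hev, ← Finset.mul_prod_erase _ _ ht,
      (wpd_eq_zero h (b2_notMem hR ht)).2 h2]
    field_simp
    ring
  · obtain ⟨r, ⟨hr1, hr2⟩, _⟩ := hR.2.2.2 (-t) (neg_mem (hR.2.2.1 t (Finset.mem_erase.1 ht).2))
    have hr0 : r ≠ 0 := by
      rintro rfl
      exact b2_notMem hR ht (by simpa using neg_mem hr2)
    have hrt : r ≠ t := by
      rintro rfl
      exact h2 (by rw [show 2 * r = -(-r - r) by ring]; exact neg_mem hr2)
    have hr : r ∈ (R.erase 0).erase t := Finset.mem_erase.2 ⟨hrt, Finset.mem_erase.2 ⟨hr0, hr1⟩⟩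
    have he : wp L r = wp L t := by rw [← wp_congr h hr2, wp_neg h]
    refine ⟨C ((6 * wp L t ^ 2 - g2 L / 2) / 2) * ∏ u ∈ (R.erase 0).erase t, (X - C (wp L u)) +
      C (wpd L t ^ 2 / 2) * ∏ u ∈ ((R.erase 0).erase t).erase r, (X - C (wp L u)),
      natDegree_add_le_of_degree_le
        ((natDegree_C_mul_le _ _).trans (by rw [hdeg]; exact Finset.card_erase_le))
        ((natDegree_C_mul_le _ _).trans (by
          rw [hdeg]; exact Finset.card_erase_le.trans Finset.card_erase_le)), fun x hx => ?_⟩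
    rw [eval_add, eval_mul, eval_mul, eval_C, eval_C, hev, hev, ← Finset.mul_prod_erase _ _ ht,
      ← Finset.mul_prod_erase _ _ hr, he]
    field_simp

open Polynomial in
theorem b2_poly (h : IsLat L) (h' : IsLat L') (hR : Reps L L' R) :
    ∃ N : ℂ[X], N.natDegree ≤ (R.erase 0).card ∧ ∀ w, w ∉ L' →
      N.eval (wp L w) = (wp L' w - wp L w) * ∏ u ∈ R.erase 0, (wp L w - wp L u) := by
  choose! N h1 h2 using fun t (ht : t ∈ R.erase 0) => b2_term h hR ht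
  refine ⟨∑ t ∈ R.erase 0, N t, natDegree_sum_le_of_forall_le _ _ h1, fun w hw => ?_⟩
  rw [eval_finsetSum, b2_velu h h' hR hw, add_sub_cancel_left, Finset.sum_mul]
  refine Finset.sum_congr rfl fun t ht => h2 t ht _ ?_
  have htR := (Finset.mem_erase.1 ht).2
  exact b2_ne h (fun a => hw (hR.1 a)) (b2_notMem hR ht)
    (fun a => b2_add hR hw htR (hR.1 a)) (fun a => b2_sub hR hw htR (hR.1 a))

open Polynomial in
theorem b2_generic (h : IsLat L) (h' : IsLat L') (hR : Reps L L' R) (hz : z ∉ L') (hs : s ∉ L')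
    (h2 : 2 * s ∉ L') :
    (wp L' z - wp L' s) * ∏ t ∈ R.erase 0, (wp L z - wp L t) = ∏ t ∈ R, (wp L z - wp L (s + t)) := by
  obtain ⟨N, hN1, hN2⟩ := b2_poly h h' hR
  have hcard : (R.erase 0).card + 1 = R.card := Finset.card_erase_add_one hR.2.1
  obtain ⟨D, hD⟩ : ∃ D : ℂ[X], D = ∏ u ∈ R.erase 0, (X - C (wp L u)) := ⟨_, rfl⟩
  obtain ⟨Q, hQ⟩ : ∃ Q : ℂ[X], Q = ∏ u ∈ R, (X - C (wp L (s + u))) := ⟨_, rfl⟩
  have mD : D.Monic := hD ▸ monic_prod_X_sub_C _ _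
  have mQ : Q.Monic := hQ ▸ monic_prod_X_sub_C _ _
  have dD : D.natDegree = (R.erase 0).card := hD ▸ natDegree_finsetProd_X_sub_C_eq_card _ _
  have dQ : Q.natDegree = R.card := hQ ▸ natDegree_finsetProd_X_sub_C_eq_card _ _
  have mP : ((X - C (wp L' s)) * D).Monic := (monic_X_sub_C _).mul mD
  have dP : ((X - C (wp L' s)) * D).natDegree = R.card := by
    rw [(monic_X_sub_C _).natDegree_mul mD, natDegree_X_sub_C, dD, add_comm, hcard]
  have hev : ∀ w, w ∉ L' → (N + ((X - C (wp L' s)) * D - Q)).eval (wp L w) =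
      (wp L' w - wp L' s) * ∏ t ∈ R.erase 0, (wp L w - wp L t) -
        ∏ t ∈ R, (wp L w - wp L (s + t)) := fun w hw => by
    rw [eval_add, hN2 w hw, hD, hQ]
    simp only [eval_sub, eval_mul, eval_prod, eval_X, eval_C]
    ring
  have h0 : N + ((X - C (wp L' s)) * D - Q) = 0 := by
    refine eq_zero_of_degree_lt_of_eval_index_eq_zero R (v := fun t => wp L (s + t)) ?_ ?_ ?_
    · intro a ha b hb e
      rcases wp_inj h (fun k => b2_add hR hs ha (hR.1 k)) (fun k => b2_add hR hs hb (hR.1 k)) e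
        with k | k
      · exact hR.sub_mem ha hb (by rwa [add_sub_add_left_eq_sub] at k)
      · refine absurd ?_ h2
        rw [show 2 * s = s + a + (s + b) - a - b by ring]
        exact sub_mem (sub_mem (hR.1 k) (hR.2.2.1 a ha)) (hR.2.2.1 b hb)
    · refine (degree_add_le _ _).trans_lt (max_lt ?_ ?_)
      · refine degree_le_natDegree.trans_lt ?_
        exact_mod_cast (by omega : N.natDegree < R.card)
      · have := degree_sub_lt_left (p := (X - C (wp L' s)) * D) (q := Q)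
          (by rw [degree_eq_natDegree mP.ne_zero, degree_eq_natDegree mQ.ne_zero, dP, dQ])
          mP.ne_zero (by rw [mP.leadingCoeff, mQ.leadingCoeff])
        rwa [degree_eq_natDegree mP.ne_zero, dP] at this
    · intro t ht
      rw [hev _ (b2_add hR hs ht), wp_add h' s (hR.2.2.1 t ht), sub_self, zero_mul,
        Finset.prod_eq_zero ht (sub_self (wp L (s + t))), sub_self]
  have := hev z hz
  rw [h0, eval_zero] at this
  exact (sub_eq_zero.1 this.symm)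

theorem velu_prod (h : IsLat L) (h' : IsLat L') (hR : Reps L L' R) (hz : z ∉ L') (hs : s ∉ L') :
    (wp L' z - wp L' s) * ∏ t ∈ R.erase 0, (wp L z - wp L t) = ∏ t ∈ R, (wp L z - wp L (s + t)) := by
  have c1 : ContinuousAt (fun w => (wp L' z - wp L' w) * ∏ t ∈ R.erase 0, (wp L z - wp L t)) s :=
    (continuousAt_const.sub (analyticAt_wp h' hs).continuousAt).mul continuousAt_const
  have c2 : ContinuousAt (fun w => ∏ t ∈ R, (wp L z - wp L (w + t))) s := by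
    refine tendsto_finsetProd R fun t ht => ContinuousAt.tendsto (continuousAt_const.sub ?_)
    exact ContinuousAt.comp (f := fun w => w + t)
      (analyticAt_wp h (fun k => b2_add hR hs ht (hR.1 k))).continuousAt
      (continuousAt_id.add continuousAt_const)
  have t2 : Tendsto (fun w : ℂ => 2 * w) (𝓝[≠] s) (𝓝[≠] (2 * s)) := by
    refine tendsto_nhdsWithin_iff.2 ⟨?_, ?_⟩
    · exact ((continuous_const.mul continuous_id).tendsto s).mono_left nhdsWithin_le_nhds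
    · filter_upwards [self_mem_nhdsWithin] with w hw
      exact fun e => hw (mul_left_cancel₀ two_ne_zero e)
  refine tendsto_nhds_unique_of_eventuallyEq (l := 𝓝[≠] s) (c1.tendsto.mono_left nhdsWithin_le_nhds)
    (c2.tendsto.mono_left nhdsWithin_le_nhds) ?_
  filter_upwards [compl_nhds h' {0} s, t2.eventually (compl_nhds h' {0} (2 * s))] with w a b
  exact b2_generic h h' hR hz (by simpa using a) (by simpa using b)

end Pool.Agent.P.MP_20768c_nt.Az.Cu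

end

-- part Cu.G2a
section

set_option autoImplicit false

open Complex NumberField IsDedekindDomain Filter Topology
open UpperHalfPlane hiding I
open scoped ComplexConjugate Real MatrixGroups

namespace Pool.Agent.P.MP_20768c_nt.Az.Cu

open Pool.Agent.P.MP_20768c_nt.Az.EQ (Lt pr sp IsLat jL qN)

variable {L : Lt} {c : ℕ} {z x : ℂ}

theorem g2a_nat (c : ℕ) (hz : z ∈ L) : (c : ℂ) * z ∈ L := by
  have := L.smul_mem (c : ℤ) hz
  rwa [zsmul_eq_mul, Int.cast_natCast] at this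

theorem g2a_reps {L' : Lt} {R : Finset ℂ} (h : IsLat L) (h' : IsLat L') (hR : Reps L L' R)
    (z : ℂ) : eF L' z = ∑ r ∈ R, eF L (z + r) := by
  simp only [eF]
  rw [← MeasureTheory.integral_finsetSum _ fun r _ => int_th1 h (z + r)]
  refine MeasureTheory.setIntegral_congr_fun measurableSet_Ioi fun u hu => ?_
  exact th1_reps h' hR z (by simpa using hu)

theorem g2a_prod (h : IsLat L) (hc : 0 < c) (y U : ℂ) :
    ∏ᶠ e ∈ XS L c, (y / U - e / U) = (∏ᶠ e ∈ XS L c, (y - e)) / U ^ (XS L c).ncard := by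
  rw [finprod_mem_eq_finite_toFinset_prod _ (xs_finite h hc),
    finprod_mem_eq_finite_toFinset_prod _ (xs_finite h hc),
    Set.ncard_eq_toFinset_card _ (xs_finite h hc), ← Finset.prod_const, ← Finset.prod_div_distrib]
  exact Finset.prod_congr rfl fun e _ => (sub_div _ _ _).symm

theorem g2a_eq (h : IsLat L) (hc : Odd c) (h3 : c % 3 = 1) {U : ℂ} (hU : U ≠ 0) (z : ℂ) :
    tht L c z = (dl L / U ^ 6) ^ ((c ^ 2 - 1) / 12) /
      (c * ∏ᶠ e ∈ XS L c, (wp L z / U - e / U)) := by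
  have e1 := xs_card h hc
  have e2 : c ^ 2 % 12 = 1 := by
    obtain ⟨j, rfl⟩ := hc
    have : j % 6 = 0 ∨ j % 6 = 3 := by omega
    rw [Nat.pow_mod]
    rcases this with e | e
    · rw [show (2 * j + 1) % 12 = 1 by omega]
    · rw [show (2 * j + 1) % 12 = 7 by omega]
  have e3 : 6 * ((c ^ 2 - 1) / 12) = (XS L c).ncard := by omega
  rw [g2a_prod h hc.pos, div_pow, ← pow_mul, e3, tht, ← mul_div_assoc,
    div_div_div_cancel_right₀ (pow_ne_zero _ hU)]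

theorem g2a_inj (hx : x ≠ 0) (S : Set ℂ) : Set.InjOn (fun e : ℂ => e / x ^ 2) S :=
  fun _ _ _ _ e => (div_left_inj' (pow_ne_zero 2 hx)).1 e

theorem g2a_der {f : ℂ → ℂ} {d : ℂ} (hf : HasDerivAt f d z) (S : Finset ℂ)
    (hS : ∀ e ∈ S, f z - e ≠ 0) : HasDerivAt (fun w => ∏ e ∈ S, (f w - e))
      ((∑ e ∈ S, d / (f z - e)) * ∏ e ∈ S, (f z - e)) z := by
  classical
  induction S using Finset.induction_on with
  | empty => simpa using hasDerivAt_const z (1 : ℂ)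
  | insert a S ha ih =>
    simp only [Finset.prod_insert ha, Finset.sum_insert ha]
    have h1 := hS a (Finset.mem_insert_self _ _)
    refine ((hf.sub_const a).fun_mul (ih fun e he => hS e (Finset.mem_insert_of_mem he))).congr_deriv ?_
    rw [add_mul, ← mul_assoc (d / (f z - a)), div_mul_cancel₀ _ h1]
    ring

theorem ec_eq (h : IsLat L) (hc : Odd c) (hz : c * z ∉ L) :
    ec L c z = c ^ 2 * eF L z - c * eF L (c * z) := by
  classical
  have hc0 : 0 < c := hc.pos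
  have hc' : (c : ℂ) ≠ 0 := Nat.cast_ne_zero.2 hc0.ne'
  have h' : IsLat (pr (c : ℂ)⁻¹ * L) := h.pr_mul (inv_ne_zero hc')
  have hm : ∀ r ∈ pr (c : ℂ)⁻¹ * L, c * r ∈ L := fun r hr => by
    obtain ⟨w, hw, rfl⟩ := Pool.Agent.P.MP_20768c_nt.Az.EQ.mem_pr_mul.1 hr
    rwa [mul_inv_cancel_left₀ hc']
  obtain ⟨R, hR⟩ := exists_reps h h' fun l hl => Pool.Agent.P.MP_20768c_nt.Az.EQ.mem_pr_mul.2
    ⟨c * l, g2a_nat c hl, inv_mul_cancel_left₀ hc' l⟩
  obtain ⟨a, hζ⟩ := isZeta_eF h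
  have e1 : c * eF L (c * z) = ∑ r ∈ R, eF L (z + r) := by
    have := eF_sc L (inv_ne_zero hc') (c * z)
    rw [inv_mul_cancel_left₀ hc', div_inv_eq_mul] at this
    rw [mul_comm, ← this, g2a_reps h h' hR]
  have e2 : ∑ r ∈ R, eF L (z + -r) = ∑ r ∈ R, eF L (z + r) :=
    hR.sum_bij (fun r => -r) (fun _ ha => neg_mem ha)
      (fun p _ q _ => by rw [← neg_mem_iff, neg_sub, neg_sub_neg]) (fun r => eF L (z + r))
      fun p _ l hl => by rw [← add_assoc, eF_add L _ hl]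
  have hz0 : z ∉ L := fun h0 => hz (g2a_nat c h0)
  have e3 : ∀ r ∈ R.erase 0, 2 * eF L z - eF L (z + r) - eF L (z + -r) =
      -(wpd L z / (wp L z - wp L r)) := by
    intro r hr
    obtain ⟨hr0, hr⟩ := Finset.mem_erase.1 hr
    have hrL : r ∉ L := fun h0 => hr0 (hR.sub_mem hr hR.2.1 (by rwa [sub_zero]))
    have hcr := hm r (hR.2.2.1 r hr)
    have hp : r + z ∉ L := fun h0 => hz (by
      have := sub_mem (g2a_nat c h0) hcr
      rwa [mul_add, add_sub_cancel_left] at this)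
    have hn : z - r ∉ L := fun h0 => hz (by
      have := add_mem (g2a_nat c h0) hcr
      rwa [mul_sub, sub_add_cancel] at this)
    have hn' : r - z ∉ L := fun h0 => hn (by
      have := neg_mem h0
      rwa [neg_sub] at this)
    have e := hζ.ident h hrL hz0 hp hn'
    have hne : wp L z - wp L r ≠ 0 := sub_ne_zero.2 (xs_ne h hz ⟨r, hcr, hrL, rfl⟩)
    have e' : eF L (r - z) = -eF L (z + -r) := by
      rw [← eF_neg]
      congr 1
      ring
    simp only [e', map_sub, map_add, add_comm r z] at e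
    rw [← neg_div, eq_div_iff hne]
    linear_combination -e
  have e4 := congrArg Multiplicative.toAdd (xs_prod h hc hR
    fun e => Multiplicative.ofAdd (wpd L z / (wp L z - e)))
  rw [finprod_mem_eq_finite_toFinset_prod _ (xs_finite h hc0), toAdd_pow, toAdd_prod,
    toAdd_prod] at e4
  simp only [toAdd_ofAdd] at e4
  have e5 : ∑ r ∈ R, (2 * eF L z - eF L (z + r) - eF L (z + -r)) =
      -∑ r ∈ R.erase 0, wpd L z / (wp L z - wp L r) := by
    rw [← Finset.sum_neg_distrib, ← Finset.sum_congr rfl e3, Finset.sum_erase]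
    rw [neg_zero, add_zero]
    ring
  rw [Finset.sum_sub_distrib, Finset.sum_sub_distrib, e2, ← e1, e4, Finset.sum_const,
    reps_div h hc0 hR, nsmul_eq_mul, nsmul_eq_mul] at e5
  rw [ec, finsum_mem_eq_finite_toFinset_sum _ (xs_finite h hc0)]
  push_cast at e5
  linear_combination (-1 / 2 : ℂ) * e5

theorem tht_add (h : IsLat L) (c : ℕ) (z : ℂ) {l : ℂ} (hl : l ∈ L) :
    tht L c (z + l) = tht L c z := by
  rw [tht, tht, wp_add h z hl]

theorem ec_add (h : IsLat L) (c : ℕ) (z : ℂ) {l : ℂ} (hl : l ∈ L) : ec L c (z + l) = ec L c z := by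
  rw [ec, ec, wp_add h z hl, wpd_add h z hl]

theorem tht_sc (h : IsLat L) (hx : x ≠ 0) (hc : Odd c) (h3 : c % 3 = 1) (z : ℂ) :
    tht (pr x * L) c (x * z) = tht L c z := by
  rw [g2a_eq h hc h3 (pow_ne_zero 2 hx) z, tht, xs_sc L hx, finprod_mem_image (g2a_inj hx _),
    dl_sc L hx, wp_sc L hx, ← pow_mul]

theorem ec_sc (h : IsLat L) (hx : x ≠ 0) (hc : 0 < c) (z : ℂ) :
    ec (pr x * L) c (x * z) = ec L c z / x := by
  rw [ec, ec, xs_sc L hx, finsum_mem_image (g2a_inj hx _), wp_sc L hx, wpd_sc L hx,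
    finsum_mem_eq_finite_toFinset_sum _ (xs_finite h hc),
    finsum_mem_eq_finite_toFinset_sum _ (xs_finite h hc), neg_div, Finset.sum_div]
  refine congrArg Neg.neg (Finset.sum_congr rfl fun e _ => ?_)
  rw [← sub_div, pow_succ' x 2, ← div_div, div_div_div_cancel_right₀ (pow_ne_zero 2 hx),
    div_right_comm]

theorem tht_ne (h : IsLat L) (hc : 0 < c) (hz : c * z ∉ L) : tht L c z ≠ 0 := by
  rw [tht, finprod_mem_eq_finite_toFinset_prod _ (xs_finite h hc)]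
  refine div_ne_zero (pow_ne_zero _ (dl_ne h)) (mul_ne_zero (Nat.cast_ne_zero.2 hc.ne')
    (Finset.prod_ne_zero_iff.2 fun e he => sub_ne_zero.2 (xs_ne h hz ?_)))
  exact (Set.Finite.mem_toFinset _).1 he

theorem hasDerivAt_tht (h : IsLat L) (hc : 0 < c) (hz : c * z ∉ L) :
    HasDerivAt (tht L c) (ec L c z * tht L c z) z := by
  have hS : ∀ e ∈ (xs_finite h hc).toFinset, wp L z - e ≠ 0 := fun e he =>
    sub_ne_zero.2 (xs_ne h hz ((Set.Finite.mem_toFinset _).1 he))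
  have hc' : (c : ℂ) ≠ 0 := Nat.cast_ne_zero.2 hc.ne'
  have hP := Finset.prod_ne_zero_iff.2 hS
  have h1 := (hasDerivAt_const z (dl L ^ ((c ^ 2 - 1) / 12))).fun_div
    ((g2a_der (hasDerivAt_wp h fun h0 => hz (g2a_nat c h0)) _ hS).const_mul (c : ℂ))
    (mul_ne_zero hc' hP)
  have e : tht L c = fun w => dl L ^ ((c ^ 2 - 1) / 12) /
      (c * ∏ e ∈ (xs_finite h hc).toFinset, (wp L w - e)) := funext fun w => by
    rw [tht, finprod_mem_eq_finite_toFinset_prod _ (xs_finite h hc)]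
  rw [e, ec, finsum_mem_eq_finite_toFinset_sum _ (xs_finite h hc)]
  refine h1.congr_deriv ?_
  beta_reduce
  generalize ∏ e ∈ (xs_finite h hc).toFinset, (wp L z - e) = P at hP ⊢
  generalize ∑ e ∈ (xs_finite h hc).toFinset, wpd L z / (wp L z - e) = Q
  generalize dl L ^ ((c ^ 2 - 1) / 12) = K
  field_simp
  ring

theorem tht_eq (h : IsLat L) (hc : Odd c) (h3 : c % 3 = 1) {U : ℂ} (hU : U ≠ 0) (z : ℂ) :
    tht L c z = (dl L / U ^ 6) ^ ((c ^ 2 - 1) / 12) /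
      (c * ∏ᶠ e ∈ XS L c, (wp L z / U - e / U)) := by
  exact g2a_eq h hc h3 hU z

end Pool.Agent.P.MP_20768c_nt.Az.Cu

end

-- part Cu.B3
section

set_option autoImplicit false

open Complex NumberField IsDedekindDomain Filter Topology
open UpperHalfPlane hiding I
open scoped ComplexConjugate Real MatrixGroups

namespace Pool.Agent.P.MP_20768c_nt.Az.Cu

open Pool.Agent.P.MP_20768c_nt.Az.EQ (Lt pr sp IsLat jL qN)

variable {Γ : Type} [LinearOrderedCommGroupWithZero Γ] {v : Valuation ℂ Γ} {L L' : Lt}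
  {R : Finset ℂ} {U r U' r' z w x : ℂ}

theorem good_xg (h : IsLat L) (hG : Good v L U r) :
    ∃ X : XG (ℂ ⧸ L.toAddSubgroup) ℂ, X.Good v ∧
      (∀ z : ℂ, X.x (QuotientAddGroup.mk z) = xm L U r z) ∧
      ∀ z : ℂ, X.Ker v (QuotientAddGroup.mk z) ↔ E1 v L U r z := by
  obtain ⟨X, hx, e2, e4, e6, e8, ed⟩ := exists_xg h hG.1 r
  refine ⟨X, ⟨e2 ▸ hG.2.1, e4 ▸ hG.2.2.1, e6 ▸ hG.2.2.2.1, e8 ▸ hG.2.2.2.2.1, ed ▸ hG.2.2.2.2.2⟩,
    hx, fun z => ?_⟩
  rw [XG.Ker, E1, hx, QuotientAddGroup.eq_zero_iff]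
  rfl

theorem E1_add (h : IsLat L) (hG : Good v L U r) (hz : E1 v L U r z) (hw : E1 v L U r w) :
    E1 v L U r (z + w) := by
  obtain ⟨X, g, -, k⟩ := good_xg h hG
  rw [← k] at hz hw ⊢
  exact XG.ker_add g hz hw

theorem E1_neg (h : IsLat L) (hz : E1 v L U r z) : E1 v L U r (-z) := by
  rw [E1, xm, wp_neg h]
  exact hz.imp_left neg_mem

theorem E1_sub (h : IsLat L) (hG : Good v L U r) (hz : E1 v L U r z) (hw : E1 v L U r w) :
    E1 v L U r (z - w) := by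
  rw [sub_eq_add_neg]
  exact E1_add h hG hz (E1_neg h hw)

theorem E1_congr (h : IsLat L) (e : z - w ∈ L) : E1 v L U r z ↔ E1 v L U r w := by
  rw [E1, E1, xm, xm, wp_congr h e]
  refine or_congr_left ⟨fun a => ?_, fun a => ?_⟩
  · simpa using sub_mem a e
  · simpa using add_mem e a

theorem E1_int (h : IsLat L) (hG : Good v L U r) (hz : E1 v L U r z) (n : ℤ) :
    E1 v L U r (n * z) := by
  obtain ⟨X, g, -, k⟩ := good_xg h hG
  have key : ∀ m : ℕ, E1 v L U r (m * z) := fun m => by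
    have := XG.ker_nsmul g ((k z).2 hz) m
    rwa [← QuotientAddGroup.mk_nsmul, k, nsmul_eq_mul] at this
  obtain ⟨m, rfl | rfl⟩ := n.eq_nat_or_neg
  · exact_mod_cast key m
  · simpa using E1_neg h (key m)

theorem E1_tors (h : IsLat L) (hG : Good v L U r) {n : ℕ} (hn : v n = 1) (hz : E1 v L U r z)
    (h0 : n * z ∈ L) : z ∈ L := by
  obtain ⟨X, g, -, k⟩ := good_xg h hG
  refine (QuotientAddGroup.eq_zero_iff (N := L.toAddSubgroup) z).1
    (XG.ker_tors g hn ((k z).2 hz) ?_)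
  rw [← QuotientAddGroup.mk_nsmul, QuotientAddGroup.eq_zero_iff, nsmul_eq_mul]
  exact h0

theorem xm_le (hz : ¬ E1 v L U r z) : z ∉ L ∧ v (xm L U r z) ≤ 1 := by
  exact ⟨fun e => hz (Or.inl e), not_lt.1 fun e => hz (Or.inr e)⟩

theorem xm_add_E1 (h : IsLat L) (hG : Good v L U r) (hz : ¬ E1 v L U r z) (hw : E1 v L U r w) :
    ¬ E1 v L U r (z + w) ∧ v (xm L U r (z + w) - xm L U r z) < 1 := by
  obtain ⟨X, g, hx, k⟩ := good_xg h hG
  refine ⟨fun e => hz (by simpa using E1_sub h hG e hw), ?_⟩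
  have := XG.x_add_ker g (mt (k z).1 hz) ((k w).2 hw)
  rwa [← QuotientAddGroup.mk_add, hx, hx] at this

theorem xm_inj (h : IsLat L) (hG : Good v L U r) (hz : ¬ E1 v L U r z) (hw : ¬ E1 v L U r w)
    (e : v (xm L U r z - xm L U r w) < 1) : E1 v L U r (z + w) ∨ E1 v L U r (z - w) := by
  obtain ⟨X, g, hx, k⟩ := good_xg h hG
  have := XG.x_inj g (mt (k z).1 hz) (mt (k w).1 hw) (by rwa [hx, hx])
  rwa [← QuotientAddGroup.mk_add, ← QuotientAddGroup.mk_sub, k, k] at this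

theorem xm_unit (h : IsLat L) (hG : Good v L U r) (hz : ¬ E1 v L U r z) (hw : w ∉ L)
    (hp : ¬ E1 v L U r (z + w)) (hm : ¬ E1 v L U r (z - w)) :
    v (xm L U r z - xm L U r w) = max 1 (v (xm L U r w)) := by
  have a := (xm_le hz).2
  by_cases e : E1 v L U r w
  · have b := e.resolve_left hw
    rw [max_eq_right b.le, v.map_sub_eq_of_lt_right (a.trans_lt b)]
  · have b := (xm_le e).2
    rw [max_eq_left b]
    exact le_antisymm (v.map_sub_le a b) (not_lt.1 fun c => (xm_inj h hG hz e c).elim hp hm)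

theorem xm_sc (L : Lt) (hx : x ≠ 0) (U r z : ℂ) :
    xm (pr x * L) (U / x ^ 2) r (x * z) = xm L U r z := by
  rw [xm, xm, wp_sc L hx, div_div_div_cancel_right₀ (pow_ne_zero 2 hx)]

theorem good_sc (hx : x ≠ 0) (hG : Good v L U r) : Good v (pr x * L) (U / x ^ 2) r := by
  have a : g2 (pr x * L) / (U / x ^ 2) ^ 2 = g2 L / U ^ 2 := by
    rw [g2_sc L hx, div_pow, ← pow_mul, div_div_div_cancel_right₀ (pow_ne_zero _ hx)]
  have b : g3 (pr x * L) / (U / x ^ 2) ^ 3 = g3 L / U ^ 3 := by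
    rw [g3_sc L hx, div_pow, ← pow_mul, div_div_div_cancel_right₀ (pow_ne_zero _ hx)]
  have c : dl (pr x * L) / (U / x ^ 2) ^ 6 = dl L / U ^ 6 := by
    rw [dl_sc L hx, div_pow, ← pow_mul, div_div_div_cancel_right₀ (pow_ne_zero _ hx)]
  simp only [Good, mb8, mb4, mb6, a, b, c] at hG ⊢
  exact ⟨div_ne_zero hG.1 (pow_ne_zero 2 hx), hG.2⟩

theorem E1_sc (hx : x ≠ 0) : E1 v (pr x * L) (U / x ^ 2) r (x * z) ↔ E1 v L U r z := by
  rw [E1, E1, xm_sc L hx, mul_mem_sc hx]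

theorem b3_pts (h : IsLat L) (h' : IsLat L') (hR : Reps L L' R) (hG : Good v L U r)
    (hG' : Good v L' U' r') : ∃ a b : ℂ, ∀ i j : ℤ, i = 1 ∨ j = 1 →
      (∀ t ∈ L', ¬ E1 v L U r (i * a + j * b + t)) ∧ ¬ E1 v L' U' r' (i * a + j * b) := by
  have n0 : 0 < R.card := Finset.card_pos.2 ⟨0, hR.2.1⟩
  have le1 : ∀ n : ℕ, v n ≤ 1 := fun n => by
    induction n with
    | zero => simp
    | succ n ih =>
      rw [Nat.cast_succ]
      exact v.map_add_le ih v.map_one.le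
  obtain ⟨l, hl, hv⟩ : ∃ l : ℕ, R.card < l ∧ v l = 1 := by
    rcases (le1 (R.card + 1)).eq_or_lt with e | e
    · exact ⟨_, Nat.lt_succ_self _, e⟩
    · refine ⟨R.card + 1 + 1, by omega, ?_⟩
      rw [Nat.cast_succ, v.map_add_eq_of_lt_right (by rwa [v.map_one]), v.map_one]
  obtain ⟨a, b, ha, hb, hab⟩ := exists_tors h (n := l) (by omega)
  refine ⟨a, b, fun i j hij => ?_⟩
  have tors : (l : ℂ) * (i * a + j * b) ∈ L := by
    have := add_mem (L.smul_mem i ha) (L.smul_mem j hb)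
    rw [zsmul_eq_mul, zsmul_eq_mul] at this
    rwa [show (l : ℂ) * (i * a + j * b) = i * (l * a) + j * (l * b) by ring]
  have no : (R.card : ℂ) * (i * a + j * b) ∉ L := fun e => by
    obtain ⟨c, d⟩ := hab (R.card * i) (R.card * j) (by
      push_cast
      rwa [show (R.card : ℂ) * i * a + R.card * j * b = R.card * (i * a + j * b) by ring])
    rcases hij with rfl | rfl
    · have := Int.le_of_dvd (by omega) c
      omega
    · have := Int.le_of_dvd (by omega) d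
      omega
  refine ⟨fun t ht e => no ?_, fun e => no (hR.card_mul (E1_tors h' hG' hv e (hR.1 tors)))⟩
  have c := hR.card_mul ht
  have d := E1_int h hG e R.card
  rw [Int.cast_natCast] at d
  have f := E1_tors h hG hv d (by
    have := add_mem (L.smul_mem (R.card : ℤ) tors) (L.smul_mem (l : ℤ) c)
    rw [zsmul_eq_mul, zsmul_eq_mul, Int.cast_natCast, Int.cast_natCast] at this
    rwa [show (l : ℂ) * (R.card * (i * a + j * b + t)) =
      R.card * (l * (i * a + j * b)) + l * (R.card * t) by ring])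
  simpa [mul_add] using sub_mem f c

theorem b3_val (h : IsLat L) (h' : IsLat L') (hR : Reps L L' R) (hU : U ≠ 0) (hU' : U' ≠ 0)
    (r r' : ℂ) (hz : z ∉ L') (hw : w ∉ L') :
    v U' * v (xm L' U' r' z - xm L' U' r' w) * ∏ t ∈ R.erase 0, v (xm L U r z - xm L U r t) =
      v U * ∏ t ∈ R, v (xm L U r z - xm L U r (w + t)) := by
  have d : ∀ (L : Lt) {U : ℂ} (r a b : ℂ), U ≠ 0 →
      wp L a - wp L b = U * (xm L U r a - xm L U r b) := fun L U r a b hU => by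
    rw [xm, xm]
    field_simp
    ring
  have e := congrArg v (velu_prod h h' hR hz hw)
  simp only [d L r _ _ hU, d L' r' _ _ hU', map_mul, map_prod, Finset.prod_mul_distrib,
    Finset.prod_const, map_pow] at e
  rw [← Finset.card_erase_add_one hR.2.1, pow_succ] at e
  refine mul_left_cancel₀ (pow_ne_zero (R.erase 0).card (v.ne_zero_iff.2 hU)) ?_
  rw [← mul_assoc _ (v U), ← e, mul_left_comm]

theorem b3_not (hR : Reps L L' R) {t : ℂ} (ht : t ∈ R.erase 0) : t ∉ L := fun e =>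
  (Finset.mem_erase.1 ht).1 (hR.sub_mem (Finset.mem_erase.1 ht).2 hR.2.1 (by simpa using e))

theorem iso_val (h : IsLat L) (h' : IsLat L') (hR : Reps L L' R) (hG : Good v L U r)
    (hG' : Good v L' U' r') : v U' * ∏ t ∈ R.erase 0, max 1 (v (xm L U r t)) = v U := by
  obtain ⟨a, b, hab⟩ := b3_pts h h' hR hG hG'
  have A := hab 1 0 (Or.inl rfl)
  have B := hab 0 1 (Or.inr rfl)
  have P := hab 1 1 (Or.inl rfl)
  have M := hab 1 (-1) (Or.inl rfl)
  simp only [Int.cast_one, Int.cast_zero, Int.cast_neg, one_mul, zero_mul, add_zero, zero_add,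
    neg_mul, ← sub_eq_add_neg] at A B P M
  have A0 : ¬ E1 v L U r a := by simpa using A.1 0 (zero_mem _)
  have e := b3_val (v := v) h h' hR hG.1 hG'.1 r r' (xm_le A.2).1 (xm_le B.2).1
  rw [xm_unit h' hG' A.2 (xm_le B.2).1 P.2 M.2, max_eq_left (xm_le B.2).2, mul_one,
    Finset.prod_eq_one (s := R) fun t ht => ?_, mul_one] at e
  · rw [← e]
    congr 1
    refine Finset.prod_congr rfl fun t ht => (xm_unit h hG A0 (b3_not hR ht) ?_ ?_).symm
    · exact A.1 t (hR.2.2.1 t (Finset.mem_of_mem_erase ht))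
    · rw [sub_eq_add_neg]
      exact A.1 _ (neg_mem (hR.2.2.1 t (Finset.mem_of_mem_erase ht)))
  · have c := xm_le (B.1 t (hR.2.2.1 t ht))
    rw [xm_unit h hG A0 c.1 (by rw [← add_assoc]; exact P.1 t (hR.2.2.1 t ht)) (by
      rw [← sub_sub, sub_eq_add_neg]; exact M.1 _ (neg_mem (hR.2.2.1 t ht))), max_eq_left c.2]

theorem iso_E1 (h : IsLat L) (h' : IsLat L') (hle : L ≤ L') (hG : Good v L U r)
    (hG' : Good v L' U' r') (hz : E1 v L U r z) : E1 v L' U' r' z := by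
  by_contra hc
  obtain ⟨n, le⟩ := xm_le hc
  have ξ := hz.resolve_left fun e => n (hle e)
  obtain ⟨R, hR⟩ := exists_reps h h' hle
  obtain ⟨a, b, hab⟩ := b3_pts h h' hR hG hG'
  have B := hab 0 1 (Or.inr rfl)
  simp only [Int.cast_one, Int.cast_zero, one_mul, zero_mul, zero_add] at B
  have e := b3_val (v := v) h h' hR hG.1 hG'.1 r r' n (xm_le B.2).1
  rw [Finset.prod_congr (s₁ := R) rfl fun t ht =>
      v.map_sub_eq_of_lt_left ((xm_le (B.1 t (hR.2.2.1 t ht))).2.trans_lt ξ),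
    Finset.prod_const, ← Finset.card_erase_add_one hR.2.1, pow_succ] at e
  have p : ∏ t ∈ R.erase 0, v (xm L U r z - xm L U r t) ≤
      (∏ t ∈ R.erase 0, max 1 (v (xm L U r t))) * v (xm L U r z) ^ (R.erase 0).card := by
    rw [← Finset.prod_const, ← Finset.prod_mul_distrib]
    exact Finset.prod_le_prod' fun t _ => v.map_sub_le (le_mul_of_one_le_left' (le_max_left _ _))
      ((le_max_right _ _).trans (le_mul_of_one_le_right' ξ.le))
  have q := e.ge.trans (mul_le_mul' (mul_le_of_le_one_right'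
    (v.map_sub_le le (xm_le B.2).2)) p)
  rw [← mul_assoc (v U'), iso_val h h' hR hG hG', ← mul_assoc] at q
  refine q.not_gt (lt_mul_of_one_lt_right ?_ ξ)
  exact mul_pos (zero_lt_iff.2 (v.ne_zero_iff.2 hG.1)) (pow_pos (zero_lt_one.trans ξ) _)

end Pool.Agent.P.MP_20768c_nt.Az.Cu

end

-- part Cu.G2b
section

set_option autoImplicit false

open Complex NumberField IsDedekindDomain Filter Topology
open UpperHalfPlane hiding I
open scoped ComplexConjugate Real MatrixGroups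

namespace Pool.Agent.P.MP_20768c_nt.Az.Cu

open Pool.Agent.P.MP_20768c_nt.Az.EQ (Lt pr sp IsLat jL qN)

variable {L M : Lt} {c : ℕ} {z x : ℂ}

theorem g2b_exp (u : ℝ) (w : ℂ) :
    cexp (-(u : ℂ) * (w * conj w)) = (Real.exp (-u * ‖w‖ ^ 2) : ℝ) := by
  rw [mul_conj, normSq_eq_norm_sq]
  push_cast
  rfl

theorem g2b_th0 (L : Lt) (z : ℂ) (u : ℝ) :
    (th0 L z u).re = ∑' l : L, Real.exp (-u * ‖z + l‖ ^ 2) := by
  simp only [th0, g2b_exp]
  rw [← ofReal_tsum, ofReal_re]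

theorem g2b_bd {k u : ℝ} (hk : 0 < k) (hu : 0 < u) :
    1 / u ^ 2 * Real.exp (-(k / u)) ≤ 2 / k ^ 2 := by
  have h1 := Real.quadratic_le_exp_of_nonneg (div_pos hk hu).le
  have h2 : (k / u) ^ 2 / 2 ≤ Real.exp (k / u) := by linarith [div_pos hk hu]
  rw [Real.exp_neg, ← div_eq_mul_inv, div_le_div_iff₀ (Real.exp_pos _) (by positivity)]
  calc 1 / u ^ 2 * k ^ 2 = 2 * ((k / u) ^ 2 / 2) := by ring
    _ ≤ _ := by linarith

/-- the dual side near zero -/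
theorem g2b_dual (h : IsLat L) (n : ℕ) : ∃ C : ℝ, ∀ u : ℝ, 0 < u → u ≤ 1 → ∀ f : L → ℂ,
    (∀ l : L, ‖f l‖ ≤ if (l : ℂ) = 0 then 0 else ‖(l : ℂ)‖ ^ n) →
    1 / u ^ 2 * ‖∑' l : L, f l * cexp (-(π ^ 2 / (ar L ^ 2 * u)) * (l * conj (l : ℂ)))‖ ≤ C := by
  have ha := ar_pos h
  have hk : 0 < π ^ 2 / ar L ^ 2 := by positivity
  obtain ⟨C, δ, hδ, hC⟩ := gauss_decay h n 0 hk
  refine ⟨|C| * (2 / (δ * (π ^ 2 / ar L ^ 2)) ^ 2), fun u hu hu1 f hf => ?_⟩
  have hs : 0 < π ^ 2 / (ar L ^ 2 * u) := by positivity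
  have e : ∀ l : L, cexp (-(π ^ 2 / (ar L ^ 2 * u)) * (l * conj (l : ℂ))) =
      (Real.exp (-(π ^ 2 / (ar L ^ 2 * u)) * ‖(l : ℂ)‖ ^ 2) : ℝ) := by
    intro l
    rw [← g2b_exp]
    push_cast
    rfl
  have h1 := hC (π ^ 2 / (ar L ^ 2 * u)) (by
    rw [← div_div]
    exact (le_div_iff₀ hu).2 (mul_le_of_le_one_right hk.le hu1))
  have h2 := summable_th h (u := (π ^ 2 / (ar L ^ 2 * u) : ℝ)) (by rwa [ofReal_re]) n 0
  simp only [zero_add, ofReal_re] at h1 h2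
  have h3 : Summable fun l : L => if (l : ℂ) = 0 then (0 : ℝ) else
      ‖(l : ℂ)‖ ^ n * Real.exp (-(π ^ 2 / (ar L ^ 2 * u)) * ‖(l : ℂ)‖ ^ 2) := by
    refine Summable.of_nonneg_of_le (fun l => ?_) (fun l => ?_) h2 <;> split_ifs <;>
      first | positivity | exact le_rfl
  have h4 : ‖∑' l : L, f l * cexp (-(π ^ 2 / (ar L ^ 2 * u)) * (l * conj (l : ℂ)))‖ ≤
      |C| * Real.exp (-(δ * (π ^ 2 / ar L ^ 2) / u)) := by
    refine (tsum_of_norm_bounded h3.hasSum fun l => ?_).trans (h1.trans ?_)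
    · rw [e, norm_mul, norm_real, Real.norm_of_nonneg (Real.exp_pos _).le]
      refine (mul_le_mul_of_nonneg_right (hf l) (Real.exp_pos _).le).trans ?_
      split_ifs
      · rw [zero_mul]
      · exact le_rfl
    · rw [show -δ * (π ^ 2 / (ar L ^ 2 * u)) = -(δ * (π ^ 2 / ar L ^ 2) / u) by
        rw [← div_div]; ring]
      exact mul_le_mul_of_nonneg_right (le_abs_self C) (Real.exp_pos _).le
  calc _ ≤ 1 / u ^ 2 * (|C| * Real.exp (-(δ * (π ^ 2 / ar L ^ 2) / u))) :=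
        mul_le_mul_of_nonneg_left h4 (by positivity)
    _ = |C| * (1 / u ^ 2 * Real.exp (-(δ * (π ^ 2 / ar L ^ 2) / u))) := by ring
    _ ≤ _ := mul_le_mul_of_nonneg_left (g2b_bd (by positivity) hu) (abs_nonneg C)

theorem g2b_meas (h : IsLat L) (z : ℂ) :
    Measurable fun u : ℝ => ((th0 L z u).re - π / (ar L * u)) / u := by
  have := (lat_countable h).to_subtype
  have : Countable L := this
  simp only [g2b_th0]
  have : Measurable fun u : ℝ => ∑' l : L, Real.exp (-u * ‖z + l‖ ^ 2) :=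
    Measurable.tsum fun l => by fun_prop
  fun_prop

theorem g2b_int {f : ℝ → ℝ} {C : ℝ} (hf : MeasureTheory.IntegrableOn f (Set.Ioi 1)) :
    MeasureTheory.IntegrableOn (fun u => if u ≤ 1 then C else f u) (Set.Ioi 0) := by
  rw [← Set.Ioc_union_Ioi_eq_Ioi zero_le_one]
  refine MeasureTheory.IntegrableOn.union ?_ ?_
  · refine (MeasureTheory.integrableOn_const (C := C) (by simp)).congr_fun
      (fun u hu => (if_pos hu.2).symm) measurableSet_Ioc
  · exact hf.congr_fun (fun u hu => (if_neg (not_le.2 hu)).symm) measurableSet_Ioi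

theorem int_th0 (h : IsLat L) (hz : z ∉ L) : MeasureTheory.IntegrableOn
    (fun u : ℝ => ((th0 L z u).re - π / (ar L * u)) / u) (Set.Ioi 0) := by
  classical
  have ha := ar_pos h
  obtain ⟨C0, hC0⟩ := g2b_dual h 0
  obtain ⟨C, δ, hδ, hC⟩ := gauss_decay h 0 z one_pos
  have hi : MeasureTheory.IntegrableOn
      (fun u : ℝ => C * Real.exp (-δ * u) + π / ar L * u ^ (-2 : ℝ)) (Set.Ioi 1) :=
    ((exp_neg_integrableOn_Ioi 1 hδ).const_mul C).add
      ((integrableOn_Ioi_rpow_of_lt (by norm_num) one_pos).const_mul _)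
  refine MeasureTheory.Integrable.mono' (g2b_int (C := π / ar L * C0) hi)
    (g2b_meas h z).aestronglyMeasurable ?_
  refine (MeasureTheory.ae_restrict_iff' measurableSet_Ioi).2 (.of_forall fun u hu => ?_)
  have hu : 0 < u := hu
  split_ifs with h1
  · have hs : Summable fun l : L =>
        pa L l z * cexp (-(π ^ 2 / (ar L ^ 2 * u)) * (l * conj (l : ℂ))) := by
      have := summable_gauss h (u := (π ^ 2 / (ar L ^ 2 * u) : ℝ))
        (by rw [ofReal_re]; positivity) 0 0 0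
      refine Summable.of_norm (this.congr fun l => ?_)
      rw [norm_mul, norm_pa]
      simp
    have e : th0 L z u - π / (ar L * u) = π / (ar L * u) * ∑' l : L,
        (if l = 0 then 0 else pa L l z) *
          cexp (-(π ^ 2 / (ar L ^ 2 * u)) * (l * conj (l : ℂ))) := by
      rw [poisson0 h z (by rwa [ofReal_re]), hs.tsum_eq_add_tsum_ite 0]
      simp [pa, mul_add]
    have h2 := hC0 u hu h1 (fun l => if l = 0 then 0 else pa L l z) fun l => by
      by_cases hl : l = 0 <;> simp [hl, norm_pa]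
    have h3 : (th0 L z u).re - π / (ar L * u) = (th0 L z u - π / (ar L * u)).re := by
      rw [sub_re, ← ofReal_mul, ← ofReal_div, ofReal_re]
    rw [h3, Real.norm_eq_abs, abs_div, abs_of_pos hu]
    refine (div_le_div_of_nonneg_right (abs_re_le_norm _) hu.le).trans ?_
    rw [e, norm_mul, ← ofReal_mul, ← ofReal_div, norm_real, Real.norm_of_nonneg (by positivity)]
    refine le_trans (le_of_eq ?_) (mul_le_mul_of_nonneg_left h2 (by positivity))
    field_simp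
  · have h1 : 1 ≤ u := (not_le.1 h1).le
    have h2 := hC u h1
    have h3 : ∀ l : L, z + l ≠ 0 := fun l e =>
      hz (by rw [eq_neg_of_add_eq_zero_left e]; exact neg_mem l.2)
    simp only [h3, if_false, pow_zero, one_mul] at h2
    have h4 : 0 ≤ ∑' l : L, Real.exp (-u * ‖z + l‖ ^ 2) := tsum_nonneg fun l => (Real.exp_pos _).le
    rw [g2b_th0, sub_div, Real.norm_eq_abs]
    refine (abs_sub _ _).trans (add_le_add ?_ (le_of_eq ?_))
    · rw [abs_of_nonneg (by positivity)]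
      exact (div_le_self h4 h1).trans h2
    · rw [abs_of_nonneg (by positivity), Real.rpow_neg hu.le, Real.rpow_two]
      field_simp

theorem eG_add (L : Lt) (z : ℂ) {l : ℂ} (hl : l ∈ L) : eG L (z + l) = eG L z := by
  have : ∀ u, th0 L (z + l) u = th0 L z u := fun u => by
    rw [th0, th0, ← (Equiv.addLeft (⟨l, hl⟩ : L)).tsum_eq
      fun m : L => cexp (-u * ((z + m) * conj (z + m)))]
    simp only [Equiv.coe_addLeft, Submodule.coe_add, add_assoc]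
  simp only [eG, this]

theorem eG_sc (h : IsLat L) (hx : x ≠ 0) (z : ℂ) : eG (pr x * L) (x * z) = eG L z := by
  have hs : 0 < ‖x‖ ^ 2 := by positivity
  have e : ∀ u : ℝ, th0 (pr x * L) (x * z) u = th0 L z (‖x‖ ^ 2 * u : ℝ) := fun u => by
    rw [th0, tsum_sc L hx fun m => cexp (-u * ((x * z + m) * conj (x * z + m))), th0]
    refine tsum_congr fun l => congrArg cexp ?_
    rw [← mul_add, map_mul, ← normSq_eq_norm_sq, ofReal_mul, ← mul_conj]
    ring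
  have i := MeasureTheory.integral_comp_mul_left_Ioi'
    (fun u : ℝ => ((th0 L z u).re - π / (ar L * u)) / u) 0 hs
  rw [mul_zero] at i
  rw [eG, eG, ← i, ← MeasureTheory.integral_smul]
  refine MeasureTheory.setIntegral_congr_fun measurableSet_Ioi fun u hu => ?_
  have hu : 0 < u := hu
  simp only [e, ar_sc h hx, smul_eq_mul]
  rw [show ‖x‖ ^ 2 * ar L * u = ar L * (‖x‖ ^ 2 * u) by ring]
  field_simp

theorem eG_conj (h : IsLat L) (hM : ∀ y, y ∈ M ↔ conj y ∈ L) (z : ℂ) : eG M (conj z) = eG L z := by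
  let e : L ≃ M :=
    { toFun := fun l => ⟨conj (l : ℂ), (hM _).2 (by rw [conj_conj]; exact l.2)⟩
      invFun := fun m => ⟨conj (m : ℂ), (hM _).1 m.2⟩
      left_inv := fun l => Subtype.ext (conj_conj _)
      right_inv := fun l => Subtype.ext (conj_conj _) }
  have : ∀ u, th0 M (conj z) u = th0 L z u := fun u => by
    rw [th0, th0, ← e.tsum_eq]
    refine tsum_congr fun l => congrArg cexp ?_
    change -u * ((conj z + conj (l : ℂ)) * conj (conj z + conj (l : ℂ))) = _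
    rw [← map_add, conj_conj, mul_comm (conj _)]
  simp only [eG, this, ar_conj h hM]

theorem g2b_term (p v : ℂ) (u t : ℝ) :
    HasDerivAt (fun t : ℝ => Real.exp (-u * ‖p + t * v‖ ^ 2))
      (u * (-2 * (v * (conj (p + t * v) *
        cexp (-(u : ℂ) * ((p + t * v) * conj (p + t * v))))).re)) t := by
  have h1 : HasDerivAt (fun t : ℝ => p + t * v) v t := by
    simpa using ((hasDerivAt_id t).ofReal_comp.mul_const v).const_add p
  refine ((h1.norm_sq.const_mul (-u)).exp).congr_deriv ?_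
  rw [g2b_exp, ← mul_assoc v, re_mul_ofReal, Complex.inner]
  ring

theorem g2b_cmp {p w : ℂ} {u : ℝ} (hu : 0 < u) (hw : 2 * ‖w‖ ≤ ‖p‖) :
    ‖conj (p + w) * cexp (-(u : ℂ) * ((p + w) * conj (p + w)))‖ ≤
      2 * (‖p‖ ^ 1 * Real.exp (-(u / 4) * ‖p‖ ^ 2)) := by
  have h1 := norm_add_le p w
  have h2 := norm_sub_le (p + w) w
  rw [add_sub_cancel_right] at h2
  have h0 := norm_nonneg p
  rw [g2b_exp, norm_mul, norm_conj, norm_real, Real.norm_of_nonneg (Real.exp_pos _).le, pow_one,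
    ← mul_assoc]
  refine mul_le_mul (by linarith) (Real.exp_le_exp.2 ?_) (Real.exp_pos _).le (by positivity)
  have h3 : (‖p‖ / 2) ^ 2 ≤ ‖p + w‖ ^ 2 := pow_le_pow_left₀ (by positivity) (by linarith) 2
  have := mul_le_mul_of_nonneg_left h3 hu.le
  linarith

theorem hasDerivAt_eG (h : IsLat L) (hz : z ∉ L) (v : ℂ) :
    HasDerivAt (fun t : ℝ => eG L (z + t * v)) (-2 * (v * eF L z).re) 0 := by
  have ha := ar_pos h
  obtain ⟨d, hd, hb⟩ := Metric.isOpen_iff.1 (compl_open h {0}) z (by simpa using hz)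
  have gap : ∀ l : L, d ≤ ‖z + l‖ := fun l => not_lt.1 fun hl =>
    hb (a := -l) (by rwa [Metric.mem_ball', dist_eq_norm, sub_neg_eq_add]) 0 (by simp)
      (by simp)
  have hε : 0 < d / (2 * (‖v‖ + 1)) := by positivity
  have sm : ∀ t ∈ Metric.ball (0 : ℝ) (d / (2 * (‖v‖ + 1))), ∀ l : L,
      2 * ‖(t : ℂ) * v‖ ≤ ‖z + l‖ := by
    intro t ht l
    rw [mem_ball_zero_iff, lt_div_iff₀ (by positivity)] at ht
    rw [norm_mul, norm_real]
    have := mul_nonneg (norm_nonneg t) (norm_nonneg v)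
    linarith [gap l, norm_nonneg t]
  have ac : ∀ (t : ℝ) (l : L), z + t * v + l = z + l + t * v := fun t l => add_right_comm _ _ _
  have su : ∀ u : ℝ, 0 < u → Summable fun l : L =>
      ‖z + l‖ ^ 1 * Real.exp (-(u / 4) * ‖z + l‖ ^ 2) := fun u hu => by
    simpa only [ofReal_re] using
      summable_th h (u := (u / 4 : ℝ)) (by rw [ofReal_re]; positivity) 1 z
  obtain ⟨C0, hC0⟩ := g2b_dual h 1
  obtain ⟨C, δ, hδ, hC⟩ := gauss_decay h 1 z (a := 1 / 4) (by norm_num)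
  have h3 : ∀ l : L, z + l ≠ 0 := fun l => norm_pos_iff.1 (hd.trans_le (gap l))
  simp only [h3, if_false] at hC
  have hi : MeasureTheory.IntegrableOn
      (fun u : ℝ => 2 * ‖v‖ * (2 * (C * Real.exp (-(δ / 4) * u)))) (Set.Ioi 1) :=
    (((exp_neg_integrableOn_Ioi 1 (by positivity)).const_mul C).const_mul 2).const_mul _
  have i1 : MeasureTheory.IntegrableOn (fun u : ℝ => v * th1 L z u) (Set.Ioi 0) :=
    (int_th1 h z).const_mul v
  have key := hasDerivAt_integral_of_dominated_loc_of_deriv_le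
    (μ := MeasureTheory.volume.restrict (Set.Ioi 0))
    (F := fun (t u : ℝ) => ((th0 L (z + t * v) u).re - π / (ar L * u)) / u)
    (F' := fun (t u : ℝ) => -2 * (v * th1 L (z + t * v) u).re) (Metric.ball_mem_nhds 0 hε)
    (.of_forall fun t => (g2b_meas h _).aestronglyMeasurable) (by simpa using (int_th0 h hz).integrable)
    (by simpa using (i1.re.const_mul (-2)).aestronglyMeasurable) ?_
    (g2b_int (C := 2 * ‖v‖ * (π ^ 2 / ar L ^ 2 * C0)) hi) ?_
  · refine key.2.congr_deriv ?_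
    simp only [ofReal_zero, zero_mul, add_zero]
    rw [eF, ← MeasureTheory.integral_const_mul v, MeasureTheory.integral_const_mul (-2 : ℝ)]
    exact congrArg (-2 * ·) (integral_re i1)
  · refine (MeasureTheory.ae_restrict_iff' measurableSet_Ioi).2 (.of_forall fun u hu t ht => ?_)
    have hu : 0 < u := hu
    have b1 : ‖-2 * (v * th1 L (z + t * v) u).re‖ ≤ 2 * ‖v‖ * ‖th1 L (z + t * v) u‖ := by
      rw [norm_mul, mul_assoc, ← norm_mul v, norm_neg, Real.norm_two]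
      exact mul_le_mul_of_nonneg_left (abs_re_le_norm _) zero_le_two
    refine b1.trans ?_
    split_ifs with h1 <;> refine mul_le_mul_of_nonneg_left ?_ (by positivity)
    · have h2 := hC0 u hu h1 (fun l => conj (l : ℂ) * pa L l (z + t * v)) fun l => by
        split_ifs with hl <;> simp [hl, norm_pa]
      rw [poisson1 h _ (by rwa [ofReal_re]), norm_mul, norm_neg, ← ofReal_pow, ← ofReal_pow,
        ← ofReal_pow, ← ofReal_mul, ← ofReal_div, norm_real, Real.norm_of_nonneg (by positivity)]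
      refine le_trans (le_of_eq ?_) (mul_le_mul_of_nonneg_left h2 (by positivity))
      push_cast
      rw [← mul_assoc, ← div_div, mul_one_div]
    · refine (tsum_of_norm_bounded ((su u hu).hasSum.mul_left 2) fun l => ?_).trans ?_
      · rw [ac]
        exact g2b_cmp hu (sm t ht l)
      · refine mul_le_mul_of_nonneg_left ((hC (u / 4) (by linarith)).trans (le_of_eq ?_))
          zero_le_two
        rw [show -δ * (u / 4) = -(δ / 4) * u by ring]
  · refine (MeasureTheory.ae_restrict_iff' measurableSet_Ioi).2 (.of_forall fun u hu t ht => ?_)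
    have hu : 0 < u := hu
    have d1 := hasDerivAt_tsum_of_isPreconnected
      (g := fun (l : L) (t : ℝ) => Real.exp (-u * ‖z + l + t * v‖ ^ 2))
      ((su u hu).mul_left (u * (2 * (‖v‖ * 2)))) Metric.isOpen_ball
      (convex_ball (0 : ℝ) _).isPreconnected (fun l t _ => g2b_term (z + l) v u t)
      (fun l t ht => by
        rw [norm_mul, norm_mul, norm_neg, Real.norm_two, Real.norm_of_nonneg hu.le, mul_assoc,
          mul_assoc, mul_assoc]
        refine mul_le_mul_of_nonneg_left (mul_le_mul_of_nonneg_left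
          ((abs_re_le_norm _).trans ?_) zero_le_two) hu.le
        rw [norm_mul]
        exact mul_le_mul_of_nonneg_left (g2b_cmp hu (sm t ht l)) (norm_nonneg v))
      (Metric.mem_ball_self hε)
      (by simpa using summable_th h (u := u) (by rwa [ofReal_re]) 0 z) ht
    have s1 : Summable fun l : L => conj (z + l + t * v) *
        cexp (-(u : ℂ) * ((z + l + t * v) * conj (z + l + t * v))) :=
      Summable.of_norm_bounded ((su u hu).mul_left 2) fun l => g2b_cmp hu (sm t ht l)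
    simp only [g2b_th0, ac]
    refine ((d1.sub_const _).div_const u).congr_deriv ?_
    rw [tsum_mul_left, tsum_mul_left, ← re_tsum (s1.mul_left v), tsum_mul_left, th1,
      mul_div_cancel_left₀ _ hu.ne']
    simp only [ac]

theorem kron (h : IsLat L) (hc : Odd c) : ∃ K : ℝ, ∀ z : ℂ, c * z ∉ L →
    c ^ 2 * eG L z - eG L (c * z) + Real.log (‖tht L c z‖ ^ 2) = K := by
  have hc0 : (c : ℂ)⁻¹ ≠ 0 := inv_ne_zero (Nat.cast_ne_zero.2 hc.pos.ne')
  have hL := h.pr_mul hc0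
  have hΩ : {w : ℂ | ∀ t ∈ ({0} : Finset ℂ), w - t ∉ pr (c : ℂ)⁻¹ * L} = {w : ℂ | c * w ∉ L} := by
    ext w
    rw [Set.mem_ofPred_eq, Set.mem_ofPred_eq, ← mul_mem_sc (L := L) hc0, ← mul_assoc,
      inv_mul_cancel₀ (Nat.cast_ne_zero.2 hc.pos.ne'), one_mul]
    simp
  have ho := compl_open hL {0}
  have hp := compl_preconn hL {0}
  rw [hΩ] at ho hp
  obtain ⟨φ, hφ⟩ : ∃ φ : ℂ → ℝ, φ = fun z =>
    c ^ 2 * eG L z - eG L (c * z) + Real.log (‖tht L c z‖ ^ 2) := ⟨_, rfl⟩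
  have d0 : ∀ w v : ℂ, c * w ∉ L → HasDerivAt (fun t : ℝ => φ (w + t * v)) 0 0 := by
    intro w v hw
    have hw' : w ∉ L := fun h' => hw (by
      rw [← nsmul_eq_mul]
      exact nsmul_mem h' c)
    have h1 : HasDerivAt (fun t : ℝ => w + t * v) v 0 := by
      simpa using ((hasDerivAt_id (0 : ℝ)).ofReal_comp.mul_const v).const_add w
    have h2 : HasDerivAt (fun t : ℝ => tht L c (w + t * v)) (v * (ec L c w * tht L c w)) 0 := by
      have := HasDerivAt.scomp_of_eq (0 : ℝ) (hasDerivAt_tht h hc.pos hw) h1 (by simp)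
      simpa only [smul_eq_mul] using! this
    have hn : ‖tht L c w‖ ^ 2 ≠ 0 := pow_ne_zero _ (norm_ne_zero_iff.2 (tht_ne h hc.pos hw))
    have h3 := h2.norm_sq.log (by simpa using tht_ne h hc.pos hw)
    have h4 := hasDerivAt_eG h hw (c * v)
    have h5 := (((hasDerivAt_eG h hw' v).const_mul ((c : ℝ) ^ 2)).sub h4).add h3
    rw [hφ]
    refine (h5.congr_deriv ?_).congr_of_eventuallyEq (.of_forall fun t => ?_)
    · simp only [ofReal_zero, zero_mul, add_zero]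
      rw [Complex.inner, ← mul_assoc v, mul_assoc (v * _), mul_conj, re_mul_ofReal,
        normSq_eq_norm_sq, ← mul_assoc 2, mul_div_cancel_right₀ _ hn, ec_eq h hc hw, mul_sub, sub_re,
        mul_left_comm v, mul_left_comm v, mul_assoc (c : ℂ) v, ← ofReal_natCast, ← ofReal_pow,
        re_ofReal_mul ((c : ℝ) ^ 2)]
      ring
    · simp only [Pi.add_apply, Pi.sub_apply, mul_add, mul_left_comm (c : ℂ)]
  have loc : ∀ w ∈ {w : ℂ | c * w ∉ L}, ∀ᶠ y in 𝓝[{w : ℂ | c * w ∉ L}] w, φ w = φ y := by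
    intro w hw
    obtain ⟨r, hr, hb⟩ := Metric.isOpen_iff.1 ho w hw
    refine mem_nhdsWithin_of_mem_nhds (mem_of_superset (Metric.ball_mem_nhds w hr) fun y hy => ?_)
    have d1 : ∀ s ∈ Set.Icc (0 : ℝ) 1, HasDerivAt (fun t : ℝ => φ (w + t * (y - w))) 0 s := by
      intro s hs
      have hm : w + s * (y - w) ∈ Metric.ball w r := by
        rw [mem_ball_iff_norm] at hy ⊢
        rw [add_sub_cancel_left, norm_mul, norm_real, Real.norm_of_nonneg hs.1]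
        exact (mul_le_of_le_one_left (norm_nonneg _) hs.2).trans_lt hy
      have := HasDerivAt.comp_sub_const s s (by rw [sub_self]; exact d0 _ (y - w) (hb hm))
      refine this.congr_of_eventuallyEq (.of_forall fun t => congrArg φ ?_)
      push_cast
      ring
    have := constant_of_has_deriv_right_zero
      (fun s hs => (d1 s hs).continuousAt.continuousWithinAt)
      (fun s hs => (d1 s (Set.Ico_subset_Icc_self hs)).hasDerivWithinAt) 1 (by simp)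
    simpa using this.symm
  rcases Set.eq_empty_or_nonempty {w : ℂ | c * w ∉ L} with he | ⟨w, hw⟩
  · exact ⟨0, fun z hz => absurd (he ▸ hz : z ∈ (∅ : Set ℂ)) (Set.notMem_empty z)⟩
  · refine ⟨φ w, fun z hz => ?_⟩
    have := hp.induction₂ (fun a b => φ a = φ b) loc (fun _ _ _ _ _ _ => Eq.trans)
      (fun _ _ _ _ => Eq.symm) hz hw
    rw [← this, hφ]

end Pool.Agent.P.MP_20768c_nt.Az.Cu

end

-- part Cu.I5b
section

set_option autoImplicit false

open Complex NumberField IsDedekindDomain Filter Topology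
open UpperHalfPlane hiding I
open scoped ComplexConjugate Real MatrixGroups

namespace Pool.Agent.P.MP_20768c_nt.Az.Cu

open Pool.Agent.P.MP_20768c_nt.Az.EQ (Lt pr sp IsLat jL qN)

open CongruenceSubgroup

variable {M : ℕ} [NeZero M]

theorem i5b_wpd {L : Lt} (h : IsLat L) {z : ℂ} (hz : 2 * z ∈ L) : wpd L z = 0 := by
  have e : wpd L z = wpd L (-z) := wpd_congr h (by rwa [sub_neg_eq_add, ← two_mul])
  rw [wpd_neg h] at e
  linear_combination e / 2

theorem two_sign' {L L' : Lt} {t : ℂ} (h : IsLat L) (hT : Two L L' t) (z : ℂ) :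
    wpd L (z + t) / (2 * (wp L (z + t) - wp L t)) = -(wpd L z / (2 * (wp L z - wp L t))) := by
  by_cases hz : z ∈ L'
  · have h2 : 2 * z ∈ L := by
      rcases (hT.2.2 z).1 hz with a | a
      · rw [two_mul]; exact add_mem a a
      · have := add_mem (add_mem a a) hT.2.1
        convert this using 1
        ring
    have h3 : 2 * (z + t) ∈ L := by
      rw [mul_add]; exact add_mem h2 hT.2.1
    rw [i5b_wpd h h2, i5b_wpd h h3, zero_div, zero_div, neg_zero]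
  · exact two_sign h hT hz

theorem i5b_im (τ : ℍ) : ∀ᶠ w in 𝓝 (τ : ℂ), 0 < w.im :=
  (isOpen_lt continuous_const Complex.continuous_im).mem_nhds τ.im_pos

theorem i5b_of (τ : ℍ) : ∀ᶠ w in 𝓝[≠] (τ : ℂ), ((ofComplex w : ℍ) : ℂ) = w := by
  filter_upwards [nhdsWithin_le_nhds (i5b_im τ)] with w hw
  rw [ofComplex_apply_of_im_pos hw]

theorem i5b_der {F : ℍ → ℂ} {E : ℂ → ℂ} (hE : IsEich F E) {w : ℂ} (hw : 0 < w.im) :
    HasDerivAt E (F (ofComplex w)) w := by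
  rw [ofComplex_apply_of_im_pos hw]
  exact hE.1 ⟨w, hw⟩

omit [NeZero M] in
theorem i5b_tend (F : CuspForm (Gamma1 M) 2) (hF : F ≠ 0) {E : ℂ → ℂ} (hE : IsEich F E) (τ : ℍ) :
    Tendsto (fun w => 2 * π * I * E w) (𝓝[≠] (τ : ℂ)) (𝓝[≠] (2 * π * I * E τ)) := by
  have ho : IsOpen {z : ℂ | 0 < z.im} := isOpen_lt continuous_const Complex.continuous_im
  have hd : DifferentiableOn ℂ E {z : ℂ | 0 < z.im} := fun z hz =>
    (i5b_der hE hz).differentiableAt.differentiableWithinAt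
  have ha : AnalyticAt ℂ E τ := hd.analyticAt (ho.mem_nhds τ.im_pos)
  have h2 : (2 * π * I : ℂ) ≠ 0 := two_pi_I_ne_zero
  refine tendsto_nhdsWithin_iff.2 ⟨?_, ?_⟩
  · exact (ha.continuousAt.tendsto.const_mul _).mono_left nhdsWithin_le_nhds
  · rcases ha.eventually_eq_or_eventually_ne (g := fun _ => E τ) analyticAt_const with h | h
    · exfalso
      apply hF
      have h3 : ∀ᶠ w in 𝓝 (τ : ℂ), F (ofComplex w) = 0 := by
        filter_upwards [h.eventually_nhds, i5b_im τ] with w hw hi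
        have e : HasDerivAt E 0 w := (hasDerivAt_const w (E τ)).congr_of_eventuallyEq hw
        exact (i5b_der hE hi).unique e
      have h4 : ∀ᶠ z in 𝓝 τ, F z = 0 := by
        have := continuous_coe.continuousAt.tendsto.eventually h3
        simpa only [ofComplex_apply] using this
      have h5 : (⇑F : ℍ → ℂ) = 0 := eq_zero_of_frequently (CuspFormClass.holo F) (τ := τ)
        (Eventually.frequently (nhdsWithin_le_nhds h4))
      exact DFunLike.coe_injective h5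
    · filter_upwards [h] with w hw
      exact fun e => hw (mul_left_cancel₀ h2 e)

theorem i5b_inj {v : Valuation ℂ NNReal} {z : ℂ} {K : Type} [Field K] (W : VD v z K) :
    Function.Injective W.g := W.g.injective

theorem manin_core (hM : 3 ≤ M) {v : Valuation ℂ NNReal} (h0 : v 2 ≠ 0) (h2 : v 2 < 1) {τ : ℍ}
    {K : Type} [Field K] (W : VD v τ K) (F : CuspForm (Gamma1 M) 2) (hF : F ≠ 0) {E : ℂ → ℂ}
    (hE : IsEich F E) {f : K}
    (hf : W.g f = ((⇑F ∘ ofComplex : ℂ → ℂ) : Filter.Germ (𝓝[≠] (τ : ℂ)) ℂ)) {L : Lt}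
    (hL : IsLat L) (hP : ∀ γ ∈ Gamma1 M, Pe F γ ∈ L) {t₁ t₂ U : ℂ} (hR : Rt v L t₁ t₂ U) :
    ∃ x y : K, x ≠ 0 ∧ y ≠ 0 ∧
      W.g x = ((fun w => wp L (2 * π * I * E w) - wp L t₁ : ℂ → ℂ) : Filter.Germ _ ℂ) ∧
      W.g y = ((fun w => wp L (2 * π * I * E w) - wp L t₂ : ℂ → ℂ) : Filter.Germ _ ℂ) ∧
      v U * W.V f ^ 2 ≤ 1 ∧ (W.V (W.D y) < W.V y → v U * W.V f ^ 2 < 1) ∧ W.V (W.D x) < W.V x ∧
      ∀ᶠ w in 𝓝[≠] (τ : ℂ), 2 * π * I * E w ∉ L := by
  classical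
  obtain ⟨r1, r2, r3, k1, k2, hU, v12, v23⟩ := hR
  have k3 : 2 * (t₁ + t₂) ∈ L := by rw [mul_add]; exact add_mem k1 k2
  obtain ⟨e, eg, ev, ed⟩ := W.const
  have hev : ∀ t : ℂ, ∀ᶠ w in 𝓝[≠] (τ : ℂ), 2 * π * I * E w - t ∉ L := fun t => by
    have := (i5b_tend F hF hE τ).eventually (compl_nhds hL {t} (2 * π * I * E τ))
    simpa only [Finset.mem_singleton, forall_eq] using this
  have hev0 : ∀ᶠ w in 𝓝[≠] (τ : ℂ), 2 * π * I * E w ∉ L := by simpa only [sub_zero] using hev 0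
  have hmer : Mer M fun τ => wp L (2 * π * I * E τ) := by
    refine ⟨mer0_comp F hE (meromorphic_wp hL), fun γ hγ z => ?_⟩
    simp only
    rw [pe_eich F hE hγ, add_comm, wp_add hL _ (hP γ hγ)]
  obtain ⟨p, hp⟩ := W.mer hM hmer
  have hp' : W.g p = ((fun w => wp L (2 * π * I * E w) : ℂ → ℂ) : Filter.Germ _ ℂ) := by
    rw [hp, Germ.coe_eq]
    filter_upwards [i5b_of τ] with w hw
    simp only [Function.comp_apply, hw]
  have hg : ∀ c : ℂ, W.g (p - e c) =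
      ((fun w => wp L (2 * π * I * E w) - c : ℂ → ℂ) : Filter.Germ _ ℂ) := fun c => by
    rw [map_sub, hp', eg]
    rfl
  have hne : ∀ t, t ∉ L → 2 * t ∈ L → p - e (wp L t) ≠ 0 := fun t a b h => by
    have h1 := hg (wp L t)
    rw [h, map_zero, ← Germ.coe_zero, Germ.coe_eq] at h1
    obtain ⟨w, w1, w2, w3⟩ := (h1.and ((hev t).and hev0)).exists
    rcases wp_inj hL w3 a (sub_eq_zero.1 w1.symm) with c | c
    · exact w2 c
    · refine w2 ?_
      convert sub_mem c b using 1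
      ring
  have hD : ∀ c : ℂ, W.D (p - e c) = W.D p := fun c => by
    have := W.add (p - e c) (e c)
    rw [sub_add_cancel, ed, add_zero] at this
    exact this.symm
  have hsq : W.D p ^ 2 = f ^ 2 * (4 * (p - e (wp L t₁)) * (p - e (wp L t₂)) *
      (p - e (wp L (t₁ + t₂)))) := by
    apply i5b_inj W
    have e4 : (4 : K) = e 4 := (map_ofNat e 4).symm
    rw [map_pow, map_mul, map_pow, map_mul, map_mul, map_mul, W.der p _ hp', hf, hg, hg, hg, e4,
      eg, ← Germ.coe_pow, ← Germ.coe_pow, ← Germ.coe_mul, ← Germ.coe_mul, ← Germ.coe_mul,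
      ← Germ.coe_mul, Germ.coe_eq]
    filter_upwards [hev0, nhdsWithin_le_nhds (i5b_im τ)] with w w1 w2
    have d := (hasDerivAt_wp hL w1).comp w ((i5b_der hE w2).const_mul (2 * π * I))
    have d' : deriv (fun w => wp L (2 * π * I * E w)) w = _ := d.deriv
    simp only [Pi.pow_apply, Pi.mul_apply, Function.comp_apply]
    rw [d', ← vieta hL r1 r2 r3 k1 k2, ← wpd_sq hL w1]
    have := two_pi_I_ne_zero
    field_simp
  obtain ⟨s, hs⟩ := IsAlgClosed.exists_pow_nat_eq U (n := 2) (by norm_num)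
  have vU : v U ≠ 0 := (Valuation.ne_zero_iff v).2 hU
  have eU : e U ≠ 0 := (map_ne_zero e).2 hU
  have eU' : e U⁻¹ ≠ 0 := (map_ne_zero e).2 (inv_ne_zero hU)
  have vU' : 0 < W.V (e U⁻¹) := pos_iff_ne_zero.2 ((Valuation.ne_zero_iff _).2 eU')
  have e2 : W.V 2 = v 2 := by rw [← ev, map_ofNat e]
  have e4 : W.V 4 = v 4 := by rw [← ev, map_ofNat e]
  have hX : W.D (e U⁻¹ * p) = e U⁻¹ * W.D p := by rw [W.mul, ed, zero_mul, add_zero]
  have hs' : ∀ c : ℂ, e U⁻¹ * p - e (U⁻¹ * c) = e U⁻¹ * (p - e c) := fun c => by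
    rw [map_mul, mul_sub]
  have hn : ∀ t, t ∉ L → 2 * t ∈ L → e U⁻¹ * p ≠ e (U⁻¹ * wp L t) := fun t a b =>
    sub_ne_zero.1 (by rw [hs']; exact mul_ne_zero eU' (hne t a b))
  have key := vdf W.V W.D W.add W.mul W.le (e2 ▸ h0) (e2 ▸ h2) (e₁ := e (U⁻¹ * wp L t₁))
    (e₂ := e (U⁻¹ * wp L t₂)) (e₃ := e (U⁻¹ * wp L (t₁ + t₂))) (X := e U⁻¹ * p) (φ := e s * f)
    (ed _) (ed _) (ed _)
    (by
      rw [← map_sub, ← map_ofNat e 4, ← map_mul, ev, ← mul_sub, mul_left_comm, map_mul, v12,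
        map_inv₀, inv_mul_cancel₀ vU])
    (by
      rw [← map_sub, ev, ← mul_sub, map_mul, v23, e4, map_inv₀, mul_left_comm,
        inv_mul_cancel₀ vU, mul_one])
    (hn _ r1 k1) (hn _ r2 k2) (hn _ r3 k3)
    (by
      rw [hX, hs', hs', hs', mul_pow, hsq, mul_pow, ← map_pow e s, hs, map_inv₀]
      field_simp)
  have hφ : W.V (e s * f) ^ 2 = v U * W.V f ^ 2 := by
    rw [map_mul, mul_pow, ev, ← map_pow, hs]
  rw [hX, hs', hs', map_mul W.V (e U⁻¹), map_mul W.V (e U⁻¹), map_mul W.V (e U⁻¹),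
    mul_lt_mul_iff_right₀ vU', mul_lt_mul_iff_right₀ vU'] at key
  refine ⟨p - e (wp L t₁), p - e (wp L t₂), hne _ r1 k1, hne _ r2 k2, hg _, hg _, ?_, ?_, ?_, hev0⟩
  · rw [← hφ]
    exact pow_le_one₀ zero_le key.1
  · rw [← hφ, hD]
    exact fun h => pow_lt_one₀ zero_le (key.2.1 h) two_ne_zero
  · rw [hD]
    exact key.2.2

theorem i5b_two (ι : ℂ →+* ℂ_[2]) : ((NormedField.valuation (K := ℂ_[2])).comap ι) 2 < 1 := by
  have h : ‖((2 : ℕ) : ℂ_[2])‖ < 1 := by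
    rw [← map_natCast (algebraMap ℚ_[2] ℂ_[2]), norm_algebraMap']
    exact Padic.norm_p_lt_one
  rw [Valuation.comap_apply, map_ofNat, NormedField.valuation_apply]
  exact h

omit [NeZero M] in
theorem i5b_zero {F : CuspForm (Gamma1 M) 2} (hF : F = 0) {a : ℕ → ℂ}
    (hs : ∀ τ : ℍ, HasSum (fun n => a n * qN 1 τ ^ n) (F τ)) (n : ℕ) : a n = 0 := by
  have := Pool.Agent.P.MP_20768c_nt.Az.EQ.vqs_unique (N := 1) (f := ⇑F) one_pos (b := fun _ => 0) hs (fun τ => by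
    simp [hF])
  exact congrFun this n

theorem i5b_eich (F : CuspForm (Gamma1 M) 2) : ∃ E, IsEich F E := by
  simpa [IsEich] using slash_prim F 1

theorem manin_a (hM : 3 ≤ M) (ι : ℂ →+* ℂ_[2]) (F : CuspForm (Gamma1 M) 2) {a : ℕ → ℂ}
    {Λ : Submodule ℤ ℂ} (hΛ : Λ.FG) (ha : ∀ n, a n ∈ Λ)
    (hs : ∀ τ : ℍ, HasSum (fun n => a n * qN 1 τ ^ n) (F τ)) {L : Lt} (hL : IsLat L)
    (hP : ∀ γ ∈ Gamma1 M, Pe F γ ∈ L) {t₁ t₂ U : ℂ}
    (hR : Rt ((NormedField.valuation (K := ℂ_[2])).comap ι) L t₁ t₂ U) (n : ℕ) :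
    ((NormedField.valuation (K := ℂ_[2])).comap ι) (U * a n ^ 2) ≤ 1 := by
  by_cases hF : F = 0
  · rw [i5b_zero hF hs n]
    simp
  obtain ⟨K, _, ⟨W⟩⟩ := exists_vd ι UpperHalfPlane.I
  obtain ⟨f, hf, hv, -⟩ := W.ser F a Λ hΛ ha hs
  obtain ⟨E, hE⟩ := i5b_eich F
  obtain ⟨x, y, -, -, -, -, h1, -⟩ := manin_core hM
    ((Valuation.ne_zero_iff _).2 two_ne_zero) (i5b_two ι) W F hF hE hf hL hP hR
  rw [map_mul, map_pow]
  exact (mul_le_mul_right (pow_le_pow_left₀ zero_le (hv n) 2) _).trans h1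

/-- the square root of `wp L' z - wp L' t'` -/
noncomputable def i5b_s (L : Lt) (t z : ℂ) : ℂ := wpd L z / (2 * (wp L z - wp L t))

theorem i5b_s_mer {L : Lt} (h : IsLat L) (t z : ℂ) : MeromorphicAt (i5b_s L t) z :=
  (meromorphic_wpd h z).div
    ((MeromorphicAt.const 2 z).mul ((meromorphic_wp h z).sub (MeromorphicAt.const (wp L t) z)))

theorem i5b_s_add {L : Lt} (h : IsLat L) (t z : ℂ) {l : ℂ} (hl : l ∈ L) :
    i5b_s L t (l + z) = i5b_s L t z := by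
  rw [i5b_s, add_comm, wp_add h z hl, wpd_add h z hl, i5b_s]

theorem i5b_s_neg {L L' : Lt} {t : ℂ} (h : IsLat L) (hT : Two L L' t) (z : ℂ) {l : ℂ}
    (hl : l - t ∈ L) : i5b_s L t (l + z) = -i5b_s L t z := by
  have e : l + z = (l - t) + (z + t) := by ring
  rw [e, i5b_s_add h t _ hl]
  exact two_sign' h hT z

theorem manin_b (hM : 3 ≤ M) (ι : ℂ →+* ℂ_[2]) (F : CuspForm (Gamma1 M) 2) {a : ℕ → ℂ}
    {Λ : Submodule ℤ ℂ} (hΛ : Λ.FG) (ha : ∀ n, a n ∈ Λ)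
    (hs : ∀ τ : ℍ, HasSum (fun n => a n * qN 1 τ ^ n) (F τ)) {L L₀ Lc : Lt} (hL : IsLat L₀)
    {t t₁ t₂ U U' : ℂ} (hT : Two L₀ L t) (h2 : 2 * t₂ ∈ L₀) (hc : ∀ y, y ∈ Lc ↔ conj y ∈ L)
    (hP : ∀ γ ∈ Gamma1 M, Pe F γ ∈ L ∧ Pe F γ - Pe F (posC γ) ∈ L₀)
    (hR : Rt ((NormedField.valuation (K := ℂ_[2])).comap ι) L t₁ t₂ U)
    (hR' : Rt ((NormedField.valuation (K := ℂ_[2])).comap ι) Lc (conj t₂) (conj t₁) U') (n : ℕ) :
    ((NormedField.valuation (K := ℂ_[2])).comap ι) (U * a n ^ 2) < 1 := by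
  by_cases hF : F = 0
  · rw [i5b_zero hF hs n]
    simp
  obtain ⟨F', hF'⟩ := exists_conjF F
  have n' : F' ≠ 0 := fun h => hF (by
    ext z
    have := hF' (posJ z)
    have e : posJ (posJ z) = z := by
      apply UpperHalfPlane.ext
      simp [posJ]
    rw [h, e] at this
    simpa using this.symm)
  let cj : ℂ →ₗ[ℤ] ℂ := (starRingEnd ℂ).toAddMonoidHom.toIntLinearMap
  let L₁ : Lt := L₀.comap cj
  have c1 : ∀ y, y ∈ L₁ ↔ conj y ∈ L₀ := fun y => Iff.rfl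
  have l1 : IsLat L₁ := isLat_conj hL c1
  have l2 : IsLat L := hT.isLat hL
  have l3 : IsLat Lc := isLat_conj l2 hc
  have hT' : Two L₁ Lc (conj t) := by
    refine ⟨?_, ?_, fun x => ?_⟩
    · rw [c1, conj_conj]; exact hT.1
    · rw [c1, map_mul, conj_conj, map_ofNat]; exact hT.2.1
    · rw [hc, c1, c1, map_sub, conj_conj]; exact hT.2.2 _
  have h2' : 2 * conj t₂ ∈ L₁ := by rw [c1, map_mul, conj_conj, map_ofNat]; exact h2
  obtain ⟨K, _, ⟨W⟩⟩ := exists_vd ι UpperHalfPlane.I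
  obtain ⟨f, hf, hv, -⟩ := W.ser F a Λ hΛ ha hs
  obtain ⟨f', hf', -, -⟩ := W.ser F' (fun n => conj (a n)) (Λ.map cj) (hΛ.map cj)
    (fun n => Submodule.mem_map_of_mem (f := cj) (ha n)) (exp_conj hF' hs)
  obtain ⟨E, hE⟩ := i5b_eich F
  obtain ⟨E', hE'⟩ := i5b_eich F'
  have v0 : ((NormedField.valuation (K := ℂ_[2])).comap ι) 2 ≠ 0 :=
    (Valuation.ne_zero_iff _).2 two_ne_zero
  obtain ⟨-, y, -, y0, -, gy, -, h1, -, ev⟩ := manin_core hM v0 (i5b_two ι) W F hF hE hf l2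
    (fun γ h => (hP γ h).1) hR
  obtain ⟨x, -, x0, -, gx, -, -, -, h3, ev'⟩ := manin_core hM v0 (i5b_two ι) W F' n' hE' hf' l3
    (fun γ h => by
      rw [pe_conj hF', hc, conj_conj]
      exact (hP _ (posC_mem h)).1) hR'
  have hmer : Mer M fun τ => i5b_s L₀ t (2 * π * I * E τ) * i5b_s L₁ (conj t) (2 * π * I * E' τ) := by
    refine ⟨(mer0_comp F hE (i5b_s_mer hL t)).mul (mer0_comp F' hE' (i5b_s_mer l1 _)),
      fun γ hγ z => ?_⟩
    simp only
    rw [pe_eich F hE hγ, pe_eich F' hE' hγ, pe_conj hF']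
    obtain ⟨p1, p2⟩ := hP γ hγ
    rcases (hT.2.2 _).1 p1 with c | c
    · rw [i5b_s_add hL _ _ c, i5b_s_add l1]
      rw [c1, conj_conj]
      convert sub_mem c p2 using 1
      ring
    · rw [i5b_s_neg hL hT _ c, i5b_s_neg l1 hT', neg_mul_neg]
      rw [c1, map_sub, conj_conj, conj_conj]
      convert sub_mem c p2 using 1
      ring
  obtain ⟨H, hH⟩ := W.mer hM hmer
  have hsq : H ^ 2 = y * x := by
    apply i5b_inj W
    rw [map_pow, map_mul, hH, gx, gy, ← Germ.coe_pow, ← Germ.coe_mul, Germ.coe_eq]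
    filter_upwards [ev, ev', i5b_of UpperHalfPlane.I] with w w1 w2 w3
    simp only [Pi.pow_apply, Pi.mul_apply, Function.comp_apply, w3]
    rw [two_wp hL hT h2 hR.2.1 w1, two_wp l1 hT' h2' hR'.1 w2, mul_pow, i5b_s, i5b_s]
  obtain ⟨e, -, ve, -⟩ := W.const
  have e2 : W.V 2 < 1 := by
    rw [← map_ofNat e 2, ve]
    exact i5b_two ι
  have h4 := h1 (vdf_log W.V W.D W.add W.mul W.le e2 y0 x0 hsq h3)
  rw [map_mul, map_pow]
  exact (mul_le_mul_right (pow_le_pow_left₀ zero_le (hv n) 2) _).trans_lt h4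

end Pool.Agent.P.MP_20768c_nt.Az.Cu

end

-- part Cu.B5
section

set_option autoImplicit false

open Complex NumberField IsDedekindDomain Filter Topology
open UpperHalfPlane hiding I
open scoped ComplexConjugate Real MatrixGroups

namespace Pool.Agent.P.MP_20768c_nt.Az.Cu

open Pool.Agent.P.MP_20768c_nt.Az.EQ (Lt pr sp IsLat jL qN)

variable {Γ : Type} [LinearOrderedCommGroupWithZero Γ] {v : Valuation ℂ Γ} {L L' : Lt}
  {R : Finset ℂ}

theorem b5_nat (v : Valuation ℂ Γ) (n : ℕ) [n.AtLeastTwo] : v (ofNat(n) : ℂ) ≤ 1 :=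
  ofNat_mem v.valuationSubring n

theorem b5_ne {x : ℂ} (h : v x = 1) : x ≠ 0 := by
  rintro rfl
  simp at h

theorem b5_g23 (h : IsLat L) (hj : v (jL L) = 1) (hj' : v (jL L - 1728) = 1) :
    g2 L ≠ 0 ∧ g3 L ≠ 0 := (g23_iff h).2 ⟨b5_ne hj, b5_ne hj'⟩

theorem b5_23 (h6 : v 6 = 1) : v 2 = 1 ∧ v 3 = 1 := by
  have e : v 2 * v 3 = 1 := by rw [← map_mul, ← h6]; norm_num
  have h2 := b5_nat v 2
  have h3 := b5_nat v 3
  refine ⟨le_antisymm h2 ?_, le_antisymm h3 ?_⟩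
  · calc 1 = v 2 * v 3 := e.symm
      _ ≤ v 2 * 1 := mul_le_mul' le_rfl h3
      _ = v 2 := mul_one _
  · calc 1 = v 2 * v 3 := e.symm
      _ ≤ 1 * v 3 := mul_le_mul' h2 le_rfl
      _ = v 3 := one_mul _

theorem b5_UU (h2 : g2 L ≠ 0) (h3 : g3 L ≠ 0) : UU L ≠ 0 :=
  div_ne_zero (mul_ne_zero (by norm_num) h3) h2

theorem good_can (h : IsLat L) (hj : v (jL L) = 1) (hj' : v (jL L - 1728) = 1) :
    Good v L (UU L) (-1 / 12) := by
  obtain ⟨h2, h3⟩ := b5_g23 h hj hj'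
  have hk := b5_ne hj'
  have e2 : mb2 (-1 / 12) = 1 := by rw [mb2]; norm_num
  have e4 : mb4 L (UU L) (-1 / 12) = -(72 / (jL L - 1728)) := by
    rw [mb4, g2_UU h h2 h3]; field_simp; ring
  have e6 : mb6 L (UU L) (-1 / 12) = -(4 / (jL L - 1728)) := by
    rw [mb6, g2_UU h h2 h3, g3_UU h h2 h3]; field_simp; ring
  have e8 : mb8 L (UU L) (-1 / 12) = -(1 / (jL L - 1728)) - 1296 / (jL L - 1728) ^ 2 := by
    rw [mb8, e2, e4, e6]; field_simp; ring
  refine ⟨b5_UU h2 h3, by rw [e2, map_one], ?_, ?_, ?_, ?_⟩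
  · rw [e4, Valuation.map_neg, map_div₀, hj', div_one]; exact b5_nat v 72
  · rw [e6, Valuation.map_neg, map_div₀, hj', div_one]; exact b5_nat v 4
  · rw [e8]
    refine v.map_sub_le ?_ ?_
    · rw [Valuation.map_neg, map_div₀, hj', div_one, map_one]
    · rw [map_div₀, map_pow, hj', one_pow, div_one]; exact b5_nat v 1296
  · rw [dl_UU h h2 h3, map_div₀, map_pow, map_pow, hj, hj']; simp

theorem b5_A (h6 : v 6 = 1) (h : IsLat L) (hj : v (jL L) = 1) (hj' : v (jL L - 1728) = 1) :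
    v (g2 L / UU L ^ 2) = 1 ∧ g2 L / UU L ^ 2 = -18 * (g3 L / UU L ^ 3) ∧
      v (12 * (g2 L / UU L ^ 2) - 1) = 1 ∧
      jL L * (12 * (g2 L / UU L ^ 2) - 1) = 20736 * (g2 L / UU L ^ 2) := by
  obtain ⟨h2, h3⟩ := b5_g23 h hj hj'
  obtain ⟨v2, v3⟩ := b5_23 h6
  have hk := b5_ne hj'
  have e : 12 * (jL L / (12 * (jL L - 1728))) - 1 = 2 ^ 6 * 3 ^ 3 / (jL L - 1728) := by
    field_simp; ring
  rw [g2_UU h h2 h3, g3_UU h h2 h3]
  refine ⟨?_, by field_simp; ring, ?_, by field_simp; ring⟩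
  · rw [show (12 : ℂ) = 2 ^ 2 * 3 by norm_num]
    simp only [map_div₀, map_mul, map_pow, hj, hj', v2, v3]; simp
  · rw [e]
    simp only [map_div₀, map_mul, map_pow, hj', v2, v3]; simp

theorem good_zero (h6 : v 6 = 1) (h : IsLat L) (hj : v (jL L) = 1) (hj' : v (jL L - 1728) = 1) :
    Good v L (UU L) 0 := by
  obtain ⟨h2, h3⟩ := b5_g23 h hj hj'
  obtain ⟨v2, v3⟩ := b5_23 h6
  obtain ⟨a1, a2, -, -⟩ := b5_A h6 h hj hj'
  have e4 : mb4 L (UU L) 0 = -(g2 L / UU L ^ 2 / 2) := by rw [mb4]; ring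
  have e6 : mb6 L (UU L) 0 = g2 L / UU L ^ 2 / (2 * 3 ^ 2) := by rw [mb6, a2]; ring
  have e8 : mb8 L (UU L) 0 = -((g2 L / UU L ^ 2) ^ 2 / 2 ^ 4) := by rw [mb8, e4, mb2]; ring
  refine ⟨b5_UU h2 h3, by simp [mb2], ?_, ?_, ?_, ?_⟩
  · rw [e4, Valuation.map_neg, map_div₀, a1, v2, div_one]
  · rw [e6, map_div₀, a1, map_mul, map_pow, v2, v3]; simp
  · rw [e8, Valuation.map_neg, map_div₀, map_pow, map_pow, a1, v2]; simp
  · rw [dl_UU h h2 h3, map_div₀, map_pow, map_pow, hj, hj']; simp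

theorem b5_res {l : ℕ} (hl : l.Prime) (hv : v l < 1) (a : ℕ) :
    ∃ (κ : Type) (_ : Field κ) (φ : v.valuationSubring →+* κ) (F : κ →+* κ),
      (∀ x : v.valuationSubring, φ x = 0 ↔ v x < 1) ∧ ∀ y, y ^ l ^ a = F y := by
  have h0 : ∀ x : v.valuationSubring, IsLocalRing.residue v.valuationSubring x = 0 ↔ v x < 1 :=
    fun x => by rw [IsLocalRing.residue_eq_zero_iff, Valuation.mem_maximalIdeal_iff]
  have : Fact l.Prime := ⟨hl⟩
  have : CharP (IsLocalRing.ResidueField v.valuationSubring) l := by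
    rw [CharP.charP_iff_prime_eq_zero hl]
    simpa using (h0 (l : v.valuationSubring)).2 (by simpa using hv)
  exact ⟨_, inferInstance, IsLocalRing.residue _, iterateFrobenius _ l a, h0, fun _ => rfl⟩

theorem b5_lift {x : ℂ} (h : v x ≤ 1) : ∃ y : v.valuationSubring, (y : ℂ) = x := ⟨⟨x, h⟩, rfl⟩

theorem pow_char {l a : ℕ} (hl : l.Prime) (hv : v l < 1) {x y : ℂ} (hx : v x ≤ 1) (hy : v y ≤ 1) :
    v ((x + y) ^ l ^ a - (x ^ l ^ a + y ^ l ^ a)) < 1 := by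
  obtain ⟨κ, _, φ, F, h0, hF⟩ := b5_res hl hv a
  obtain ⟨x, rfl⟩ := b5_lift hx
  obtain ⟨y, rfl⟩ := b5_lift hy
  have := (h0 ((x + y) ^ l ^ a - (x ^ l ^ a + y ^ l ^ a))).1 (by simp [hF])
  exact_mod_cast this

theorem pow_int {l a : ℕ} (hl : l.Prime) (hv : v l < 1) (m : ℤ) :
    v ((m : ℂ) ^ l ^ a - m) < 1 := by
  obtain ⟨κ, _, φ, F, h0, hF⟩ := b5_res hl hv a
  have := (h0 ((m : v.valuationSubring) ^ l ^ a - m)).1 (by simp [hF])
  exact_mod_cast this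

theorem b5_sum {l a : ℕ} (hl : l.Prime) (hv : v l < 1) (h3 : v 3 = 1) {x y μ e₁ e₂ e₃ f₁ f₂ f₃ : ℂ}
    (hx : v x ≤ 1) (hy : v y ≤ 1) (hμ : v μ ≤ 1) (a₁ : v e₁ ≤ 1) (a₂ : v e₂ ≤ 1) (a₃ : v e₃ ≤ 1)
    (b₁ : v f₁ ≤ 1) (b₂ : v f₂ ≤ 1) (b₃ : v f₃ ≤ 1) (he : e₁ + e₂ + e₃ = 0) (hf : f₁ + f₂ + f₃ = 0)
    (c₁ : v ((y - f₁) * μ - (x - e₁) ^ l ^ a) < 1) (c₂ : v ((y - f₂) * μ - (x - e₂) ^ l ^ a) < 1)
    (c₃ : v ((y - f₃) * μ - (x - e₃) ^ l ^ a) < 1) : v (y * μ - x ^ l ^ a) < 1 := by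
  obtain ⟨κ, _, φ, F, h0, hF⟩ := b5_res hl hv a
  obtain ⟨x, rfl⟩ := b5_lift hx
  obtain ⟨y, rfl⟩ := b5_lift hy
  obtain ⟨μ, rfl⟩ := b5_lift hμ
  obtain ⟨e₁, rfl⟩ := b5_lift a₁
  obtain ⟨e₂, rfl⟩ := b5_lift a₂
  obtain ⟨e₃, rfl⟩ := b5_lift a₃
  obtain ⟨f₁, rfl⟩ := b5_lift b₁
  obtain ⟨f₂, rfl⟩ := b5_lift b₂
  obtain ⟨f₃, rfl⟩ := b5_lift b₃
  have d₁ := (h0 ((y - f₁) * μ - (x - e₁) ^ l ^ a)).2 (by exact_mod_cast c₁)
  have d₂ := (h0 ((y - f₂) * μ - (x - e₂) ^ l ^ a)).2 (by exact_mod_cast c₂)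
  have d₃ := (h0 ((y - f₃) * μ - (x - e₃) ^ l ^ a)).2 (by exact_mod_cast c₃)
  have he' := congrArg (fun t => F (φ t)) (show e₁ + e₂ + e₃ = 0 by exact_mod_cast he)
  have hf' := congrArg φ (show f₁ + f₂ + f₃ = 0 by exact_mod_cast hf)
  have n3 : (3 : κ) ≠ 0 := fun e => by
    have := (h0 3).1 (by rw [map_ofNat, e])
    exact absurd (this : v 3 < 1) h3.not_lt
  simp only [map_sub, map_mul, map_pow, hF, map_add, map_zero] at d₁ d₂ d₃ he' hf'
  have := (h0 (y * μ - x ^ l ^ a)).1 (by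
    simp only [map_sub, map_mul, map_pow, hF]
    apply mul_left_cancel₀ n3
    linear_combination d₁ + d₂ + d₃ + φ μ * hf' - he')
  exact_mod_cast this

theorem b5_alg {l a : ℕ} (hl : l.Prime) (hv : v l < 1) {μ e₁ e₂ e₃ f₁ f₂ f₃ A B j k : ℂ}
    (hμ : v μ = 1) (a₁ : v e₁ ≤ 1) (a₂ : v e₂ ≤ 1) (a₃ : v e₃ ≤ 1)
    (b₁ : v f₁ ≤ 1) (b₂ : v f₂ ≤ 1) (b₃ : v f₃ ≤ 1) (hA : v A = 1) (hB : v B = 1) (hj : v j = 1)
    (hk : v k = 1) (hB' : v (12 * B - 1) = 1) (A2 : A = -4 * (e₁ * e₂ + e₁ * e₃ + e₂ * e₃))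
    (A3 : A = -72 * (e₁ * e₂ * e₃)) (B2 : B = -4 * (f₁ * f₂ + f₁ * f₃ + f₂ * f₃))
    (B3 : B = -72 * (f₁ * f₂ * f₃)) (ej : j * (12 * A - 1) = 20736 * A)
    (ek : k * (12 * B - 1) = 20736 * B) (c₁ : v (f₁ * μ - e₁ ^ l ^ a) < 1)
    (c₂ : v (f₂ * μ - e₂ ^ l ^ a) < 1) (c₃ : v (f₃ * μ - e₃ ^ l ^ a) < 1) :
    v (μ - 1) < 1 ∧ v (k - j ^ l ^ a) < 1 := by
  obtain ⟨κ, _, φ, F, h0, hF⟩ := b5_res hl hv a
  obtain ⟨μ, rfl⟩ := b5_lift hμ.le
  obtain ⟨e₁, rfl⟩ := b5_lift a₁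
  obtain ⟨e₂, rfl⟩ := b5_lift a₂
  obtain ⟨e₃, rfl⟩ := b5_lift a₃
  obtain ⟨f₁, rfl⟩ := b5_lift b₁
  obtain ⟨f₂, rfl⟩ := b5_lift b₂
  obtain ⟨f₃, rfl⟩ := b5_lift b₃
  obtain ⟨A, rfl⟩ := b5_lift hA.le
  obtain ⟨B, rfl⟩ := b5_lift hB.le
  obtain ⟨j, rfl⟩ := b5_lift hj.le
  obtain ⟨k, rfl⟩ := b5_lift hk.le
  have d₁ := (h0 (f₁ * μ - e₁ ^ l ^ a)).2 (by exact_mod_cast c₁)
  have d₂ := (h0 (f₂ * μ - e₂ ^ l ^ a)).2 (by exact_mod_cast c₂)
  have d₃ := (h0 (f₃ * μ - e₃ ^ l ^ a)).2 (by exact_mod_cast c₃)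
  have p2 := congrArg (fun t => F (φ t))
    (show A = -4 * (e₁ * e₂ + e₁ * e₃ + e₂ * e₃) from Subtype.ext A2)
  have p3 := congrArg (fun t => F (φ t)) (show A = -72 * (e₁ * e₂ * e₃) from Subtype.ext A3)
  have q2 := congrArg φ (show B = -4 * (f₁ * f₂ + f₁ * f₃ + f₂ * f₃) from Subtype.ext B2)
  have q3 := congrArg φ (show B = -72 * (f₁ * f₂ * f₃) from Subtype.ext B3)
  have rj := congrArg (fun t => F (φ t)) (show j * (12 * A - 1) = 20736 * A from Subtype.ext ej)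
  have rk := congrArg φ (show k * (12 * B - 1) = 20736 * B from Subtype.ext ek)
  have nμ : φ μ ≠ 0 := fun e => hμ.not_lt ((h0 _).1 e)
  have nB : φ B ≠ 0 := fun e => hB.not_lt ((h0 _).1 e)
  have nB' : φ (12 * B - 1) ≠ 0 := fun e => hB'.not_lt ((h0 _).1 e)
  simp only [map_sub, map_mul, map_pow, hF, map_add, map_neg, map_ofNat, map_one, sub_eq_zero]
    at d₁ d₂ d₃ p2 p3 q2 q3 rj rk
  simp only [map_sub, map_mul, map_ofNat, map_one] at nB'
  rw [← d₁, ← d₂, ← d₃] at p2 p3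
  have s2 : F (φ A) = φ B * φ μ ^ 2 := by rw [p2, q2]; ring
  have s3 : F (φ A) = φ B * φ μ ^ 3 := by rw [p3, q3]; ring
  have m1 : φ μ = 1 := by
    apply mul_left_cancel₀ (mul_ne_zero nB (pow_ne_zero 2 nμ))
    linear_combination s2 - s3
  rw [m1, one_pow, mul_one] at s2
  rw [s2] at rj
  have t1 := (h0 (μ - 1)).1 (by rw [map_sub, m1, map_one, sub_self])
  have t2 := (h0 (k - j ^ l ^ a)).1 (by
    simp only [map_sub, map_pow, hF]
    apply mul_right_cancel₀ nB'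
    linear_combination rk - rj)
  exact ⟨by exact_mod_cast t1, by exact_mod_cast t2⟩

theorem b5_prod (S : Finset ℂ) {f : ℂ → ℂ} {c : ℂ} (hc : v c ≤ 1) (h : ∀ t ∈ S, v (f t - c) < 1) :
    v (∏ t ∈ S, f t - c ^ S.card) < 1 := by
  induction S using Finset.cons_induction with
  | empty => simp
  | cons a S ha ih =>
    have h1 := h a (Finset.mem_cons_self a S)
    have h2 := ih fun t ht => h t (Finset.mem_cons_of_mem ht)
    have h3 : v (f a) ≤ 1 := by simpa using v.map_add_le h1.le hc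
    have h4 : v (c ^ S.card) ≤ 1 := by rw [map_pow]; exact pow_le_one' hc _
    rw [Finset.prod_cons, Finset.card_cons, show f a * ∏ t ∈ S, f t - c ^ (S.card + 1) =
      f a * (∏ t ∈ S, f t - c ^ S.card) + (f a - c) * c ^ S.card by ring]
    refine v.map_add_lt ?_ ?_ <;> rw [map_mul]
    · exact (mul_le_of_le_one_left' h3).trans_lt h2
    · exact (mul_le_of_le_one_right' h4).trans_lt h1

theorem b5_xm (L : Lt) (z : ℂ) : xm L (UU L) 0 z = XX L z := add_zero _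

theorem b5_out (h : IsLat L) (hR : Reps L L' R) (hE : ∀ t ∈ R, E1 v L (UU L) 0 t) {z : ℂ}
    (hz : ¬ E1 v L (UU L) 0 z) : z ∉ L' := fun hz' => by
  obtain ⟨r, ⟨h1, h2⟩, -⟩ := hR.2.2.2 z hz'
  exact hz ((E1_congr h h2).2 (hE r h1))

theorem b5_big (hR : Reps L L' R) (hE : ∀ t ∈ R, E1 v L (UU L) 0 t) {t : ℂ}
    (ht : t ∈ R.erase 0) : 1 < v (XX L t) := by
  obtain ⟨h0, h1⟩ := Finset.mem_erase.1 ht
  rcases hE t h1 with h2 | h2
  · exact absurd (hR.sub_mem h1 hR.2.1 (by rwa [sub_zero])) h0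
  · rwa [b5_xm] at h2

theorem b5_key (h : IsLat L) (h' : IsLat L') (hR : Reps L L' R) (hG : Good v L (UU L) 0)
    (hG' : Good v L' (UU L') 0) (hE : ∀ t ∈ R, E1 v L (UU L) 0 t) : ∃ μ : ℂ, v μ = 1 ∧
      ∀ z s, ¬ E1 v L (UU L) 0 z → ¬ E1 v L (UU L) 0 s →
        v ((XX L' z - XX L' s) * μ - (XX L z - XX L s) ^ R.card) < 1 := by
  have hU := hG.1
  have hU' := hG'.1
  have hb := fun t (ht : t ∈ R.erase 0) => b5_big hR hE ht
  refine ⟨UU L' / UU L * ∏ t ∈ R.erase 0, -XX L t, ?_, fun z s hz hs => ?_⟩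
  · have e := iso_val h h' hR hG hG'
    rw [Finset.prod_congr rfl fun t ht => show max 1 (v (xm L (UU L) 0 t)) = v (-XX L t) by
      rw [b5_xm, Valuation.map_neg, max_eq_right (hb t ht).le], ← map_prod] at e
    rw [map_mul, map_div₀, div_mul_eq_mul_div, e, div_self ((map_ne_zero v).2 hU)]
  have hz1 : v (XX L z) ≤ 1 := b5_xm L z ▸ (xm_le hz).2
  have hs1 : v (XX L s) ≤ 1 := b5_xm L s ▸ (xm_le hs).2
  have hc := v.map_sub_le hz1 hs1
  have p1 : v (∏ t ∈ R, (XX L z - XX L (s + t)) - (XX L z - XX L s) ^ R.card) < 1 :=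
    b5_prod R hc fun t ht => by
      have := (xm_add_E1 h hG hs (hE t ht)).2
      rwa [b5_xm, b5_xm, ← Valuation.map_neg, show -(XX L (s + t) - XX L s) =
        XX L z - XX L (s + t) - (XX L z - XX L s) by ring] at this
  have p2 : v (∏ t ∈ R.erase 0, (1 - XX L z / XX L t) - 1 ^ (R.erase 0).card) < 1 :=
    b5_prod (R.erase 0) (map_one v).le fun t ht => by
      rw [sub_sub_cancel_left, Valuation.map_neg, map_div₀]
      exact (div_lt_one₀ (zero_lt_one.trans (hb t ht))).2 (hz1.trans_lt (hb t ht))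
  rw [one_pow] at p2
  have w : ∀ (M : Lt) (y : ℂ), UU M ≠ 0 → wp M y = UU M * XX M y := fun M y hM => by
    rw [XX, mul_div_cancel₀ _ hM]
  have e := velu_prod h h' hR (b5_out h hR hE hz) (b5_out h hR hE hs)
  have e1 : ∏ t ∈ R.erase 0, (wp L z - wp L t) = UU L ^ (R.erase 0).card *
      ((∏ t ∈ R.erase 0, -XX L t) * ∏ t ∈ R.erase 0, (1 - XX L z / XX L t)) := by
    rw [← Finset.prod_mul_distrib, Finset.pow_card_mul_prod]
    refine Finset.prod_congr rfl fun t ht => ?_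
    have : XX L t ≠ 0 := (map_ne_zero v).1 (zero_lt_one.trans (hb t ht)).ne'
    rw [w L z hU, w L t hU]
    field_simp
    ring
  have e2 : ∏ t ∈ R, (wp L z - wp L (s + t)) = UU L ^ ((R.erase 0).card + 1) *
      ∏ t ∈ R, (XX L z - XX L (s + t)) := by
    rw [Finset.card_erase_add_one hR.2.1, Finset.pow_card_mul_prod]
    exact Finset.prod_congr rfl fun t _ => by rw [w L z hU, w L _ hU, mul_sub]
  rw [e1, e2, w L' z hU', w L' s hU'] at e
  generalize ∏ t ∈ R.erase 0, (1 - XX L z / XX L t) = u at p2 e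
  generalize ∏ t ∈ R, (XX L z - XX L (s + t)) = P at p1 e
  generalize (∏ t ∈ R.erase 0, -XX L t) = Q at e ⊢
  have e3 : (XX L' z - XX L' s) * (UU L' / UU L * Q) * u = P := by
    apply mul_left_cancel₀ (pow_ne_zero ((R.erase 0).card + 1) hU)
    rw [← e]
    field_simp
    ring
  generalize (XX L' z - XX L' s) * (UU L' / UU L * Q) = D at e3 ⊢
  have hu : v u = 1 := by simpa using v.map_one_add_of_lt p2
  have hP : v P ≤ 1 := by
    simpa using v.map_add_le p1.le (show v ((XX L z - XX L s) ^ R.card) ≤ 1 by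
      rw [map_pow]; exact pow_le_one' hc _)
  have hD : v D ≤ 1 := by rwa [← e3, map_mul, hu, mul_one] at hP
  rw [show D - (XX L z - XX L s) ^ R.card = P - (XX L z - XX L s) ^ R.card - D * (u - 1) by
    rw [← e3]; ring]
  refine v.map_sub_lt p1 ?_
  rw [map_mul]
  exact (mul_le_of_le_one_left' hD).trans_lt p2

theorem b5_vieta (h : IsLat L) (hU : UU L ≠ 0) {s t : ℂ} (h1 : s ∉ L) (h2 : t ∉ L)
    (h3 : s + t ∉ L) (k1 : 2 * s ∈ L) (k2 : 2 * t ∈ L) :
    XX L s + XX L t + XX L (s + t) = 0 ∧ g2 L / UU L ^ 2 =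
      -4 * (XX L s * XX L t + XX L s * XX L (s + t) + XX L t * XX L (s + t)) ∧
      -18 * (g3 L / UU L ^ 3) = -72 * (XX L s * XX L t * XX L (s + t)) := by
  obtain ⟨a, b, c, -⟩ := vieta' h h1 h2 h3 k1 k2
  rw [b, c, XX, XX, XX, ← add_div, ← add_div, a]
  exact ⟨zero_div _, by field_simp, by field_simp; ring⟩

theorem frob_cong (h6 : v 6 = 1) (h : IsLat L) (h' : IsLat L') (hR : Reps L L' R)
    (hj : v (jL L) = 1) (hk : v (jL L - 1728) = 1) (hj' : v (jL L') = 1)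
    (hk' : v (jL L' - 1728) = 1) {l a : ℕ} (hl : l.Prime) (hv : v l < 1) (hc : R.card = l ^ a)
    (hE : ∀ t ∈ R, E1 v L (UU L) 0 t) : v (jL L' - jL L ^ R.card) < 1 ∧
      ∀ z, ¬ E1 v L (UU L) 0 z → v (XX L' z - XX L z ^ R.card) < 1 := by
  have hG := good_zero h6 h hj hk
  have hG' := good_zero h6 h' hj' hk'
  obtain ⟨v2, v3⟩ := b5_23 h6
  obtain ⟨μ, hμ, key⟩ := b5_key h h' hR hG hG' hE
  rw [hc] at key ⊢
  obtain ⟨s, t, ks, kt, hi⟩ := exists_tors h one_lt_two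
  have n1 : s ∉ L := fun e => by simpa using (hi 1 0 (by simpa using e)).1
  have n2 : t ∉ L := fun e => by simpa using (hi 0 1 (by simpa using e)).2
  have n3 : s + t ∉ L := fun e => by simpa using (hi 1 1 (by simpa using e)).2
  have k3 : ((2 : ℕ) : ℂ) * (s + t) ∈ L := by rw [mul_add]; exact add_mem ks kt
  have o : ∀ y, y ∉ L → ((2 : ℕ) : ℂ) * y ∈ L → ¬ E1 v L (UU L) 0 y ∧ y ∉ L' ∧ v (XX L y) ≤ 1 ∧
      v (XX L' y) ≤ 1 := fun y hy ky => by
    have a1 : ¬ E1 v L (UU L) 0 y := fun e => hy (E1_tors h hG (n := 2) v2 e ky)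
    have a2 := b5_out h hR hE a1
    have a3 : ¬ E1 v L' (UU L') 0 y := fun e => a2 (E1_tors h' hG' (n := 2) v2 e (hR.1 ky))
    exact ⟨a1, a2, b5_xm L y ▸ (xm_le a1).2, b5_xm L' y ▸ (xm_le a3).2⟩
  obtain ⟨a1, b1, c1, d1⟩ := o s n1 ks
  obtain ⟨a2, b2, c2, d2⟩ := o t n2 kt
  obtain ⟨a3, b3, c3, d3⟩ := o _ n3 k3
  obtain ⟨p0, p2, p3⟩ := b5_vieta h hG.1 n1 n2 n3 ks kt
  obtain ⟨q0, q2, q3⟩ := b5_vieta h' hG'.1 b1 b2 b3 (hR.1 ks) (hR.1 kt)
  have main : ∀ z, ¬ E1 v L (UU L) 0 z → v (XX L' z) ≤ 1 ∧ v (XX L' z * μ - XX L z ^ l ^ a) < 1 :=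
    fun z hz => by
      have z1 : v (XX L z) ≤ 1 := b5_xm L z ▸ (xm_le hz).2
      have z2 : v (XX L' z) ≤ 1 := by
        have e := v.map_add_le (key z s hz a1).le (show v ((XX L z - XX L s) ^ l ^ a) ≤ 1 by
          rw [map_pow]; exact pow_le_one' (v.map_sub_le z1 c1) _)
        rw [sub_add_cancel, map_mul, hμ, mul_one] at e
        simpa using v.map_add_le e d1
      exact ⟨z2, b5_sum hl hv v3 z1 z2 hμ.le c1 c2 c3 d1 d2 d3 p0 q0 (key z s hz a1)
        (key z t hz a2) (key z _ hz a3)⟩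
  obtain ⟨A1, A2, -, A4⟩ := b5_A h6 h hj hk
  obtain ⟨B1, B2, B3, B4⟩ := b5_A h6 h' hj' hk'
  obtain ⟨r1, r2⟩ := b5_alg hl hv hμ c1 c2 c3 d1 d2 d3 A1 B1 hj hj' B3 p2 (A2.trans p3) q2
    (B2.trans q3) A4 B4 (main s a1).2 (main t a2).2 (main _ a3).2
  refine ⟨r2, fun z hz => ?_⟩
  obtain ⟨z1, z2⟩ := main z hz
  rw [show XX L' z - XX L z ^ l ^ a = XX L' z * μ - XX L z ^ l ^ a - XX L' z * (μ - 1) by ring]
  refine v.map_sub_lt z2 ?_
  rw [map_mul]
  exact (mul_le_of_le_one_left' z1).trans_lt r1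

end Pool.Agent.P.MP_20768c_nt.Az.Cu

end

-- part Cu.B6_p
section

set_option autoImplicit false

open Complex NumberField IsDedekindDomain Filter Topology
open UpperHalfPlane hiding I
open scoped ComplexConjugate Real MatrixGroups

namespace Pool.Agent.P.MP_20768c_nt.Az.Cu

open Pool.Agent.P.MP_20768c_nt.Az.EQ (Lt pr sp IsLat jL qN)

variable {Γ : Type} [LinearOrderedCommGroupWithZero Γ] {v : Valuation ℂ Γ} {L L' : Lt}
  {U r Q t z : ℂ} {c : ℕ}

theorem sq_cong {A B : ℂ} (hB : v B ≤ 1) (h : v (A ^ 2 - B ^ 2) ≤ v 4) : v (A - B) ≤ v 2 := by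
  by_contra hc
  rw [not_le] at hc
  have h1 : v (2 * B) < v (A - B) := by
    rw [map_mul]
    exact lt_of_le_of_lt (mul_le_of_le_one_right' hB) hc
  have h2 : v (A + B) = v (A - B) := by
    rw [show A + B = (A - B) + 2 * B by ring]
    exact v.map_add_eq_of_lt_left h1
  rw [show A ^ 2 - B ^ 2 = (A + B) * (A - B) by ring, show (4 : ℂ) = 2 * 2 by norm_num, map_mul,
    map_mul, h2] at h
  exact absurd h (not_le.2 (mul_lt_mul'' hc hc zero_le zero_le))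

theorem sq_one (h2 : v 2 < 1) {A : ℂ} (h : v (A ^ 2 - 1) < 1) : v (A - 1) < 1 := by
  by_contra hc
  rw [not_lt] at hc
  have h1 : v (A + 1) = v (A - 1) := by
    rw [show A + 1 = (A - 1) + 2 by ring]
    exact v.map_add_eq_of_lt_left (lt_of_lt_of_le h2 hc)
  rw [show A ^ 2 - 1 = (A + 1) * (A - 1) by ring, map_mul, h1] at h
  exact absurd h (not_lt.2 (one_le_mul hc hc))

theorem b6p_le {a y : ℂ} (hy : y ∈ v.integer) : v (a * y) ≤ v a := by
  rw [map_mul]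
  exact mul_le_of_le_one_right' hy

theorem b6p_ex {a x : ℂ} (ha : a ≠ 0) (h : v x ≤ v a) : ∃ y ∈ v.integer, x = a * y := by
  refine ⟨x / a, ?_, by field_simp⟩
  rw [Valuation.mem_integer_iff, map_div₀]
  exact div_le_one_of_le₀ h zero_le

theorem b6p_inv {x : ℂ} (h : 1 ≤ v x) : x⁻¹ ∈ v.integer := by
  rw [Valuation.mem_integer_iff, map_inv₀]
  exact inv_le_one_of_one_le₀ h

theorem b6p_ne {x : ℂ} (h : 1 ≤ v x) : x ≠ 0 := by
  rintro rfl
  rw [map_zero] at h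
  exact absurd h (not_le.2 zero_lt_one)

theorem b6p_two (h2 : v 2 < 1) {y : ℂ} (hy : y ∈ v.integer) : v (2 * y) < 1 :=
  lt_of_le_of_lt (b6p_le hy) h2

theorem b6p_root {b2 b4 b6 b8 x : ℂ} (i2 : b2 ∈ v.integer) (i8 : b8 ∈ v.integer)
    (ix : x ∈ v.integer) (rel : 4 * b8 = b2 * b6 - b4 ^ 2)
    (h : 4 * x ^ 3 + b2 * x ^ 2 + 2 * b4 * x + b6 = 0) :
    ∃ y ∈ v.integer, b2 * x + b4 = 2 * y := by
  apply b6p_ex two_ne_zero
  have := sq_cong (v := v) (A := b2 * x + b4) (B := 0) (by simp) (by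
    rw [show (b2 * x + b4) ^ 2 - 0 ^ 2 = 4 * (-(b2 * x ^ 3) - b8) by
      linear_combination b2 * h + rel]
    exact b6p_le (sub_mem (neg_mem (mul_mem i2 (pow_mem ix 3))) i8))
  rwa [sub_zero] at this

theorem b6p_rel (L : Lt) (U r : ℂ) :
    4 * mb8 L U r = mb2 r * mb6 L U r - mb4 L U r ^ 2 := by
  rw [mb8]
  ring

theorem b6p_sub (L : Lt) (hU : U ≠ 0) (r z w : ℂ) :
    wp L z - wp L w = U * (xm L U r z - xm L U r w) := by
  rw [xm, xm]
  field_simp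
  ring

theorem b6p_oc {b2 b4 x y ψ m : ℂ} (h2 : v 2 < 1) (hb : v b2 = 1) (ix : x ∈ v.integer)
    (iy : y ∈ v.integer) (im : m ∈ v.integer) (hm : b2 * y + b4 = 2 * m) (hxy : v (x - y) = 1)
    (hψ : ψ = 4 * (x ^ 3 - y ^ 3) + b2 * (x ^ 2 - y ^ 2) + 2 * b4 * (x - y)) :
    v ((x - y) ^ 2 / ψ * b2 - 1) ≤ v 4 := by
  have e : ψ = b2 * (x - y) ^ 2 + 4 * ((x - y) * m + (x ^ 3 - y ^ 3)) := by
    linear_combination hψ + 2 * (x - y) * hm
  have iN : (x - y) * m + (x ^ 3 - y ^ 3) ∈ v.integer :=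
    add_mem (mul_mem (sub_mem ix iy) im) (sub_mem (pow_mem ix 3) (pow_mem iy 3))
  have h1 : v (b2 * (x - y) ^ 2) = 1 := by rw [map_mul, map_pow, hb, hxy, one_pow, one_mul]
  have hv : v ψ = 1 := by
    rw [e, v.map_add_eq_of_lt_left, h1]
    rw [h1, show (4 : ℂ) * ((x - y) * m + (x ^ 3 - y ^ 3)) =
      2 * (2 * ((x - y) * m + (x ^ 3 - y ^ 3))) by ring]
    exact b6p_two h2 (mul_mem (ofNat_mem _ 2) iN)
  have h0 : ψ ≠ 0 := b6p_ne hv.ge
  have : (x - y) ^ 2 / ψ * b2 - 1 = 4 * (-((x - y) * m + (x ^ 3 - y ^ 3)) * ψ⁻¹) := by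
    field_simp
    linear_combination -e
  rw [this]
  exact b6p_le (mul_mem (neg_mem iN) (b6p_inv hv.ge))

theorem oc_cong (h : IsLat L) (hG : Good v L U r) (h2 : v 2 < 1) (hb : v (mb2 r) = 1)
    (h4 : 4 * Q ∈ L) (hQ : ¬ E1 v L U r (2 * Q)) : v (oc L Q ^ 2 * U * mb2 r - 1) ≤ v 4 := by
  have hU := hG.1
  have hQ1 : ¬ E1 v L U r Q := fun e => hQ (by simpa using E1_int h hG e 2)
  have hQn : ¬ E1 v L U r (-Q) := fun e => hQ1 (by simpa using E1_neg h e)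
  obtain ⟨n1, l1⟩ := xm_le hQ1
  obtain ⟨n2, l2⟩ := xm_le hQ
  have hu : v (xm L U r Q - xm L U r (2 * Q)) = 1 := by
    rw [xm_unit h hG hQ1 n2 ?_ ?_, max_eq_left l2]
    · rw [E1_congr h (w := -Q) (by convert h4 using 1; ring)]
      exact hQn
    · rw [show Q - 2 * Q = -Q by ring]
      exact hQn
  have p2 := psi_xm h hU r n2
  rw [(wpd_eq_zero h n2).2 (by convert h4 using 1; ring), zero_pow two_ne_zero, zero_div] at p2
  have p1 := psi_xm h hU r n1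
  obtain ⟨m, im, hm⟩ := b6p_root (v := v) hb.le hG.2.2.2.2.1 l2 (b6p_rel L U r) p2
  have := b6p_oc (ψ := wpd L Q ^ 2 / U ^ 3) h2 hb l1 l2 im hm hu (by linear_combination p2 - p1)
  convert this using 3
  rw [oc, b6p_sub L hU r]
  by_cases h0 : wpd L Q = 0
  · simp [h0]
  · field_simp

theorem b6p_eps {b2 b4 b6 e : ℂ} (hb : v b2 = 1) (i4 : b4 ∈ v.integer)
    (i6 : b6 ∈ v.integer) (he : 1 < v e) (h : 4 * e ^ 3 + b2 * e ^ 2 + 2 * b4 * e + b6 = 0) :
    v (4 * e) = 1 := by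
  have h0 : e ≠ 0 := b6p_ne he.le
  have ie : e⁻¹ ∈ v.integer := b6p_inv he.le
  have hi : v e⁻¹ < 1 := by
    rw [map_inv₀]
    exact inv_lt_one_of_one_lt₀ he
  have e1 : 4 * e = -b2 + e⁻¹ * (-(2 * b4) - b6 * e⁻¹) := by
    field_simp
    linear_combination h
  have h1 : v (e⁻¹ * (-(2 * b4) - b6 * e⁻¹)) < v (-b2) := by
    rw [Valuation.map_neg, hb]
    exact lt_of_le_of_lt (b6p_le (sub_mem (neg_mem (mul_mem (ofNat_mem _ 2) i4)) (mul_mem i6 ie))) hi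
  rw [e1, v.map_add_eq_of_lt_left h1, Valuation.map_neg, hb]

theorem b6p_tr {b2 b4 b6 e x x' : ℂ} (h2 : v 2 < 1) (hb : v b2 = 1) (i4 : b4 ∈ v.integer)
    (i6 : b6 ∈ v.integer) (ix : x ∈ v.integer) (he : 1 < v e)
    (h : 4 * e ^ 3 + b2 * e ^ 2 + 2 * b4 * e + b6 = 0)
    (ht : (x' - e) * (x - e) = 3 * e ^ 2 + b2 * e / 2 + b4 / 2) :
    ∃ y ∈ v.integer, (x' - x) / 2 + (b2 * x + b4) * b2⁻¹ = 2 * y := by
  have hε := b6p_eps hb i4 i6 he h
  have i2 : b2 ∈ v.integer := hb.le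
  have hd : v (4 * x - 4 * e) = 1 := by
    rw [sub_eq_add_neg, v.map_add_eq_of_lt_right, Valuation.map_neg, hε]
    rw [Valuation.map_neg, hε, show (4 : ℂ) * x = 2 * (2 * x) by ring]
    exact b6p_two h2 (mul_mem (ofNat_mem _ 2) ix)
  have ii := b6p_inv hε.ge
  have ij := b6p_inv hd.ge
  have ik := b6p_inv hb.ge
  have n1 := b6p_ne hε.ge
  have n2 := b6p_ne hd.ge
  have n3 := b6p_ne hb.ge
  have c1 : 4 * e * (4 * e)⁻¹ = 1 := mul_inv_cancel₀ n1
  have c2 : (4 * x - 4 * e) * (4 * x - 4 * e)⁻¹ = 1 := mul_inv_cancel₀ n2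
  have c3 : b2 * b2⁻¹ = 1 := mul_inv_cancel₀ n3
  generalize (4 * e)⁻¹ = i at ii c1
  generalize (4 * x - 4 * e)⁻¹ = j at ij c2
  generalize b2⁻¹ = k at ik c3 ⊢
  have a1 : 4 * e * (4 * e + b2) = -8 * b4 - 16 * b6 * i := by
    apply mul_left_cancel₀ n1
    linear_combination 16 * h + 16 * b6 * c1
  have a2 : 4 * e + b2 = 8 * (-(b4 * i) - 2 * b6 * i ^ 2) := by
    linear_combination i * a1 - (4 * e + b2) * c1
  have a3 : (x' - x) / 2 * (4 * x - 4 * e) = x * (4 * e) - b4 - 2 * x ^ 2 - 4 * b6 * i := by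
    linear_combination 2 * ht + a1 / 4
  refine ⟨(-(4 * b4 * (-(b4 * i) - 2 * b6 * i ^ 2)) - b2 * x ^ 2 - 2 * b2 * b6 * i +
    2 * x * (b2 * x + b4)) * j * k, ?_, ?_⟩
  · have t2 : (2 : ℂ) ∈ v.integer := ofNat_mem _ 2
    have t4 : (4 : ℂ) ∈ v.integer := ofNat_mem _ 4
    apply_rules (transparency := .reducible) [pow_mem, add_mem, sub_mem, mul_mem, neg_mem]
  · apply mul_left_cancel₀ n2
    apply mul_left_cancel₀ n3
    have a4 : b2 * ((4 * x - 4 * e) * ((x' - x) / 2 + (b2 * x + b4) * k)) =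
        -(b4 * (4 * e + b2)) - 2 * b2 * x ^ 2 - 4 * b2 * b6 * i + 4 * x * (b2 * x + b4) := by
      linear_combination b2 * a3 + (4 * x - 4 * e) * (b2 * x + b4) * c3
    rw [a4, a2]
    generalize -(b4 * i) - 2 * b6 * i ^ 2 = η
    generalize hN : -(4 * b4 * η) - b2 * x ^ 2 - 2 * b2 * b6 * i + 2 * x * (b2 * x + b4) = N
    linear_combination 2 * hN - 2 * N * c3 - 2 * N * (b2 * k) * c2

theorem tr_cong (h : IsLat L) (hG : Good v L U r) (h2 : v 2 < 1) (hb : v (mb2 r) = 1)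
    (h4 : 4 * Q ∈ L) (hQ : ¬ E1 v L U r (2 * Q)) (ht : t ∉ L) (ht2 : 2 * t ∈ L)
    (htE : E1 v L U r t) (hz : ¬ E1 v L U r z) :
    v ((xm L U r (z + t) - xm L U r z) / 2 - oc L Q * wpd L z / U) ≤ v 2 ∧
      v (oc L Q * wpd L z / U) ≤ 1 := by
  have hU := hG.1
  have i2 : mb2 r ∈ v.integer := hb.le
  have i4 : mb4 L U r ∈ v.integer := hG.2.2.1
  have i6 : mb6 L U r ∈ v.integer := hG.2.2.2.1
  have i8 : mb8 L U r ∈ v.integer := hG.2.2.2.2.1
  have t2 : (2 : ℂ) ∈ v.integer := ofNat_mem _ 2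
  have t4 : (4 : ℂ) ∈ v.integer := ofNat_mem _ 4
  obtain ⟨n1, l1⟩ := xm_le hz
  have ix : xm L U r z ∈ v.integer := l1
  have n2 := (xm_le (xm_add_E1 h hG hz htE).1).1
  have he : 1 < v (xm L U r t) := htE.resolve_left ht
  have p2 := psi_xm h hU r ht
  rw [(wpd_eq_zero h ht).2 ht2, zero_pow two_ne_zero, zero_div] at p2
  have p1 := psi_xm h hU r n1
  have tt : (xm L U r (z + t) - xm L U r t) * (xm L U r z - xm L U r t) =
      3 * xm L U r t ^ 2 + mb2 r * xm L U r t / 2 + mb4 L U r / 2 := by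
    have := two_tr h ht ht2 n1 n2
    rw [xm, xm, xm, mb2, mb4]
    field_simp
    linear_combination 4 * this
  obtain ⟨y, iy, hy⟩ := b6p_tr h2 hb i4 i6 ix he p2 tt
  obtain ⟨o, io, ho⟩ := b6p_ex (by norm_num) (oc_cong h hG h2 hb h4 hQ)
  have ik := b6p_inv hb.ge
  have c3 : mb2 r * (mb2 r)⁻¹ = 1 := mul_inv_cancel₀ (b6p_ne hb.ge)
  have rel := b6p_rel L U r
  have hW : (oc L Q * wpd L z / U) ^ 2 = oc L Q ^ 2 * U * (wpd L z ^ 2 / U ^ 3) := by
    field_simp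
  rw [← p1] at hW
  generalize oc L Q * wpd L z / U = W at hW ⊢
  generalize oc L Q ^ 2 * U = w at hW ho
  generalize xm L U r (z + t) = x' at hy ⊢
  generalize xm L U r z = x at hy hW ix ⊢
  generalize (mb2 r)⁻¹ = k at hy ik c3
  generalize mb2 r = b2 at hy hW ho i2 c3 rel
  generalize mb4 L U r = b4 at hy hW i4 rel
  generalize mb6 L U r = b6 at hW i6 rel
  generalize mb8 L U r = b8 at i8 rel
  have iA : (b2 * x + b4) * k ∈ v.integer := mul_mem (add_mem (mul_mem i2 ix) i4) ik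
  have hw : w = (1 + 4 * o) * k := by linear_combination k * ho - w * c3
  have key : W ^ 2 - ((b2 * x + b4) * k) ^ 2 =
      4 * (o * k * (4 * x ^ 3 + b2 * x ^ 2 + 2 * b4 * x + b6) + (b2 * x ^ 3 + b8) * k ^ 2) := by
    rw [hW, hw]
    linear_combination (-k ^ 2) * rel - k * (4 * x ^ 3 + b2 * x ^ 2 + 2 * b4 * x + b6) * c3
  obtain ⟨u, iu, hu⟩ := b6p_ex two_ne_zero (sq_cong (v := v) iA (by
    rw [key]
    apply b6p_le
    apply_rules (transparency := .reducible) [pow_mem, add_mem, sub_mem, mul_mem, neg_mem]))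
  constructor
  · rw [show (x' - x) / 2 - W = 2 * (y - (b2 * x + b4) * k - u) by linear_combination hy - hu]
    exact b6p_le (sub_mem (sub_mem iy iA) iu)
  · rw [show W = (b2 * x + b4) * k + 2 * u by linear_combination hu]
    exact add_mem iA (mul_mem t2 iu)

theorem b6p_prod (S : Finset ℂ) (δ : ℂ → ℂ) (hδ : ∀ e ∈ S, δ e ∈ v.integer) :
    ∃ y ∈ v.integer, ∏ e ∈ S, (1 + 2 * δ e) = 1 + 2 * ∑ e ∈ S, δ e + 4 * y := by
  classical
  induction S using Finset.induction_on with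
  | empty => exact ⟨0, zero_mem _, by simp⟩
  | insert a S ha ih =>
    obtain ⟨y, iy, hy⟩ := ih fun e he => hδ e (Finset.mem_insert_of_mem he)
    have ia := hδ a (Finset.mem_insert_self a S)
    have iS : ∑ e ∈ S, δ e ∈ v.integer :=
      sum_mem fun e he => hδ e (Finset.mem_insert_of_mem he)
    refine ⟨y + δ a * ∑ e ∈ S, δ e + 2 * δ a * y,
      add_mem (add_mem iy (mul_mem ia iS)) (mul_mem (mul_mem (ofNat_mem _ 2) ia) iy), ?_⟩
    rw [Finset.prod_insert ha, Finset.sum_insert ha, hy]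
    ring

theorem b6p_log (h2 : v 2 < 1) (S : Finset ℂ) (δ : ℂ → ℂ) (hδ : ∀ e ∈ S, δ e ∈ v.integer) :
    ∃ y ∈ v.integer, (1 - (∏ e ∈ S, (1 + 2 * δ e))⁻¹) / 2 = ∑ e ∈ S, δ e + 2 * y := by
  obtain ⟨y, iy, hy⟩ := b6p_prod S δ hδ
  have iS : ∑ e ∈ S, δ e ∈ v.integer := sum_mem hδ
  have t2 : (2 : ℂ) ∈ v.integer := ofNat_mem _ 2
  rw [hy]
  generalize ∑ e ∈ S, δ e = σ at iS
  have hv : v (1 + 2 * σ + 4 * y) = 1 := by
    rw [show 1 + 2 * σ + 4 * y = 1 + 2 * (σ + 2 * y) by ring]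
    exact v.map_one_add_of_lt (b6p_two h2 (add_mem iS (mul_mem t2 iy)))
  have n := b6p_ne hv.ge
  refine ⟨(y - σ ^ 2 - 2 * σ * y) * (1 + 2 * σ + 4 * y)⁻¹,
    mul_mem (sub_mem (sub_mem iy (pow_mem iS 2)) (mul_mem (mul_mem t2 iS) iy)) (b6p_inv hv.ge), ?_⟩
  field_simp
  ring

theorem dlog (h : IsLat L) (hG : Good v L U r) (h2 : v 2 < 1) (hb : v (mb2 r) = 1)
    (h4 : 4 * Q ∈ L) (hQ : ¬ E1 v L U r (2 * Q)) (ht : t ∉ L) (ht2 : 2 * t ∈ L)
    (htE : E1 v L U r t) (hc : Odd c) (hz : ¬ E1 v L U r (c * z)) :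
    v ((1 - tht L c (z + t) / tht L c z) / 2 - oc L Q * ec L c z) ≤ v 2 ∧
      v (oc L Q * ec L c z) ≤ 1 := by
  have hU := hG.1
  have c0 : 0 < c := hc.pos
  have c1 : (c : ℂ) ≠ 0 := Nat.cast_ne_zero.2 c0.ne'
  have hf := xs_finite h c0
  have nz : ∀ w : ℂ, c * w - c * z ∈ L → ¬ E1 v L U r w := fun w hw e =>
    hz ((E1_congr h hw).1 (by simpa using E1_int h hG e c))
  have hz1 : ¬ E1 v L U r z := nz z (by simp)
  obtain ⟨a1, a2⟩ := tr_cong h hG h2 hb h4 hQ ht ht2 htE hz1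
  obtain ⟨m, im, hm⟩ := b6p_ex two_ne_zero a1
  have iW : oc L Q * wpd L z / U ∈ v.integer := a2
  have t2 : (2 : ℂ) ∈ v.integer := ofNat_mem _ 2
  have key : ∀ e ∈ hf.toFinset, wp L z - e ≠ 0 ∧ U / (wp L z - e) ∈ v.integer := by
    intro e he
    obtain ⟨s, s1, s2, rfl⟩ := hf.mem_toFinset.1 he
    have hu := xm_unit h hG hz1 s2 (nz _ (by convert s1 using 1; ring))
      (nz _ (by convert neg_mem s1 using 1; ring))
    have h1 : 1 ≤ v (xm L U r z - xm L U r s) := hu ▸ le_max_left _ _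
    rw [b6p_sub L hU r, ← div_div, div_self hU, one_div]
    exact ⟨mul_ne_zero hU (b6p_ne h1), b6p_inv h1⟩
  have e1 : oc L Q * ec L c z =
      -∑ e ∈ hf.toFinset, oc L Q * wpd L z / U * (U / (wp L z - e)) := by
    rw [ec, finsum_mem_eq_finite_toFinset_sum _ hf, mul_neg, Finset.mul_sum]
    congr 1
    refine Finset.sum_congr rfl fun e _ => ?_
    field_simp
  have hD : wp L (z + t) - wp L z = U * (2 * (oc L Q * wpd L z / U + 2 * m)) := by
    rw [b6p_sub L hU r]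
    linear_combination 2 * U * hm
  generalize oc L Q * wpd L z / U = W at e1 hD iW
  have e2 : tht L c (z + t) / tht L c z =
      (∏ e ∈ hf.toFinset, (1 + 2 * ((W + 2 * m) * (U / (wp L z - e)))))⁻¹ := by
    have hp : ∏ e ∈ hf.toFinset, (wp L (z + t) - e) = (∏ e ∈ hf.toFinset, (wp L z - e)) *
        ∏ e ∈ hf.toFinset, (1 + 2 * ((W + 2 * m) * (U / (wp L z - e)))) := by
      rw [← Finset.prod_mul_distrib]
      refine Finset.prod_congr rfl fun e he => ?_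
      have := (key e he).1
      field_simp
      linear_combination hD
    have n1 : ∏ e ∈ hf.toFinset, (wp L z - e) ≠ 0 :=
      Finset.prod_ne_zero_iff.2 fun e he => (key e he).1
    have n2 := pow_ne_zero ((c ^ 2 - 1) / 12) (dl_ne h)
    rw [tht, tht, finprod_mem_eq_finite_toFinset_prod _ hf,
      finprod_mem_eq_finite_toFinset_prod _ hf, hp]
    field_simp
  obtain ⟨y, iy, hy⟩ := b6p_log h2 hf.toFinset (fun e => (W + 2 * m) * (U / (wp L z - e)))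
    fun e he => mul_mem (add_mem iW (mul_mem t2 im)) (key e he).2
  have iT : ∑ e ∈ hf.toFinset, U / (wp L z - e) ∈ v.integer := sum_mem fun e he => (key e he).2
  rw [e2, hy, e1, ← Finset.mul_sum, ← Finset.mul_sum]
  generalize ∑ e ∈ hf.toFinset, U / (wp L z - e) = T at iT
  constructor
  · rw [show (W + 2 * m) * T + 2 * y - -(W * T) = 2 * ((W + m) * T + y) by ring]
    exact b6p_le (add_mem (mul_mem (add_mem iW im) iT) iy)
  · exact neg_mem (mul_mem iW iT)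

end Pool.Agent.P.MP_20768c_nt.Az.Cu

end

-- part Cu.G3_p
section

set_option autoImplicit false

open Complex NumberField IsDedekindDomain Filter Topology
open UpperHalfPlane hiding I
open scoped ComplexConjugate Real MatrixGroups

namespace Pool.Agent.P.MP_20768c_nt.Az.Cu

open Pool.Agent.P.MP_20768c_nt.Az.EQ (Lt pr sp IsLat jL qN)

noncomputable section

def g3pE (A u : ℂ) : ℂ := cexp (π * (conj u - u) / A)

theorem g3p_pa (Λ : Lt) (α y : ℂ) : pa Λ α (conj y) = g3pE (ar Λ) (α * y) := by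
  rw [pa, g3pE, map_mul, Complex.conj_conj]

theorem g3p_add (A u v : ℂ) : g3pE A (u + v) = g3pE A u * g3pE A v := by
  rw [g3pE, g3pE, g3pE, ← Complex.exp_add, map_add]
  congr 1
  ring

theorem g3p_image {A A' B B' : Lt} {R : Finset ℂ} (hR : Reps A A' R) (hB : B ≤ B') (x : ℂ)
    (h1 : ∀ a ∈ A', x * a ∈ B') (h2 : ∀ a ∈ A', x * a ∈ B ↔ a ∈ A)
    (h3 : ∀ b ∈ B', ∃ a ∈ A', b - x * a ∈ B) :
    Reps B B' (R.image (x * ·)) ∧ Set.InjOn (x * ·) (R : Set ℂ) := by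
  have hi : ∀ a ∈ R, ∀ b ∈ R, x * a - x * b ∈ B → a = b := fun a ha b hb h =>
    hR.sub_mem ha hb ((h2 _ (sub_mem (hR.2.2.1 a ha) (hR.2.2.1 b hb))).1 (by rwa [mul_sub]))
  refine ⟨⟨hB, Finset.mem_image.2 ⟨0, hR.2.1, mul_zero x⟩, fun r hr => ?_, fun b hb => ?_⟩,
    fun a ha b hb h => hi a ha b hb (by rw [show x * a = x * b from h, sub_self]; exact zero_mem _)⟩
  · obtain ⟨a, ha, rfl⟩ := Finset.mem_image.1 hr
    exact h1 a (hR.2.2.1 a ha)
  · obtain ⟨a, ha, hab⟩ := h3 b hb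
    obtain ⟨r, ⟨hr, har⟩, -⟩ := hR.2.2.2 a ha
    have h4 : b - x * r ∈ B := by
      have := add_mem hab ((h2 _ (sub_mem ha (hR.2.2.1 r hr))).2 har)
      rwa [show b - x * a + x * (a - r) = b - x * r by ring] at this
    refine ⟨x * r, ⟨Finset.mem_image.2 ⟨r, hr, rfl⟩, h4⟩, ?_⟩
    rintro _ ⟨h5, h6⟩
    obtain ⟨r', hr', rfl⟩ := Finset.mem_image.1 h5
    have := sub_mem h4 h6
    rw [show b - x * r - (b - x * r') = x * r' - x * r by ring] at this
    rw [hi r' hr' r hr this]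

namespace St

variable (s : St) {n : Ideal s.O} {L : s.Sub} {R R' : Finset ℂ}

theorem g3p_one (hL : IsUnit L) {u : ℂ} (hu : u ∈ L * s.cj L) : g3pE (ar (s.zl L)) u = 1 := by
  refine Submodule.mul_induction_on hu (fun a ha b hb => ?_) fun a b ha hb => ?_
  · rw [← g3p_pa]
    exact pa_int (s.isLat_zl hL) (s.mem_zl.2 ha) (s.mem_zl.2 (s.mem_cj.1 hb))
  · rw [g3p_add, ha, hb, mul_one]

theorem g3p_mul (hn : n ≠ ⊥) (L M : s.Sub) : s.idl n * L * (M * s.inv n) = L * M := by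
  rw [mul_comm M, mul_mul_mul_comm, s.idl_inv hn, one_mul]

theorem g3p_cop {a : Ideal s.O} (h : IsCoprime a n) : ∃ u ∈ a, ∃ v ∈ n, s.c u + s.c v = 1 := by
  obtain ⟨u, hu, v, hv, e⟩ := Ideal.isCoprime_iff_exists.1 h
  exact ⟨u, hu, v, hv, by rw [← s.c_add, e, s.c_one]⟩

theorem g3p_per (hL : IsUnit L) {a l : ℂ} (ha : a ∈ L) (hl : l ∈ s.idl n * L) :
    s.cl n (s.mkP L (a + l)) = s.cl n (s.mkP L a) := by
  have := s.sim_add (n := n) (s.mkP L a) (l := l) (by rwa [s.mkP_L hL ha])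
  rw [s.mkP_L hL ha, s.mkP_ρ hL ha] at this
  exact (s.cl_eq.2 ⟨1, this⟩).symm

theorem gp_inv (n : Ideal s.O) (hn : n ≠ ⊥) : s.Inv n (s.gp n) := by
  rintro x p q ⟨h0, h1, h2⟩
  have := eG_add (s.zl (s.idl n * q.L)) (x * p.ρ) (s.mem_zl.2 h2)
  rw [add_sub_cancel] at this
  rw [gp, gp, this, h1, mul_left_comm, s.zl_sc,
    eG_sc (s.isLat_zl ((s.isUnit_idl hn).mul p.unit)) h0]

theorem orth (hn : n ≠ ⊥) (hL : IsUnit L)
    (hR : Reps (s.zl (s.cj L)) (s.zl (s.cj L * s.inv n)) R') {α : ℂ} (hα : α ∈ L) :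
    (α ∈ s.idl n * L → ∑ y ∈ R', pa (s.zl L) α (conj y) = Ideal.absNorm n) ∧
      (α ∉ s.idl n * L → ∑ y ∈ R', pa (s.zl L) α (conj y) = 0) := by
  simp only [g3p_pa]
  refine ⟨fun h => ?_, fun h => ?_⟩
  · rw [Finset.sum_congr rfl fun y hy => s.g3p_one hL (s.g3p_mul hn L (s.cj L) ▸
      Submodule.mul_mem_mul h (s.mem_zl.1 (hR.2.2.1 y hy))), Finset.sum_const,
      s.reps_card' (s.isUnit_cj hL) hn hR, nsmul_eq_mul, mul_one]
  · obtain ⟨y₀, hy₀, h1⟩ : ∃ y₀ ∈ s.cj L * s.inv n, g3pE (ar (s.zl L)) (α * y₀) ≠ 1 := by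
      by_contra hc
      push Not at hc
      have h2 : s.sc α * s.inv n ≤ L := Submodule.mul_le.2 fun a ha μ hμ => by
        obtain ⟨β, rfl⟩ := Submodule.mem_span_singleton.1 ha
        rw [smul_mul_assoc]
        refine Submodule.smul_mem _ _ (s.mem_zl.1 (pa_dual (s.isLat_zl hL) fun l hl => ?_))
        have h3 := hc (conj l * μ) (Submodule.mul_mem_mul
          (s.mem_cj.2 (by rw [Complex.conj_conj]; exact s.mem_zl.1 hl)) hμ)
        rw [← inv_eq_one, g3pE, ← Complex.exp_neg] at h3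
        rw [pa, ← h3]
        congr 1
        simp only [map_mul, Complex.conj_conj]
        ring
      refine h (mul_le_mul_right h2 (s.idl n) ?_)
      rw [mul_left_comm, s.idl_inv hn, mul_one]
      exact s.mem_sc α
    have h2 := hR.sum_bij (· + y₀) (fun a ha => add_mem ha (s.mem_zl.2 hy₀))
      (fun a _ b _ => by rw [add_sub_add_right_eq_sub]) (fun y => g3pE (ar (s.zl L)) (α * y))
      fun a _ l hl => by
        rw [mul_add, g3p_add, s.g3p_one hL (Submodule.mul_mem_mul hα (s.mem_zl.1 hl)), mul_one]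
    simp only [mul_add, g3p_add, ← Finset.sum_mul] at h2
    exact (mul_eq_left₀ · |>.1 h2 |> h1) |> not_not.1

theorem gauss_zero (hn : n ≠ ⊥) {φ : MulChar (s.Pr n) ℂ} (hφ : s.Prim n φ) (hL : IsUnit L)
    (hR : Reps (s.zl (s.idl n * L)) (s.zl L) R) {y : ℂ} (hy : y ∈ s.cj L * s.inv n)
    (hu : ¬ IsUnit (s.cl n (s.mkP (s.cj L * s.inv n) y))) :
    ∑ α ∈ R, φ (s.cl n (s.mkP L α)) * (pa (s.zl L) α (conj y))⁻¹ = 0 := by
  simp only [g3p_pa]
  have hM := (s.isUnit_cj hL).mul (s.isUnit_inv hn)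
  set q := s.mkP (s.cj L * s.inv n) y with hq
  rw [s.unit_cl hn, Ideal.isCoprime_iff_sup_eq] at hu
  obtain ⟨g, hg⟩ : s.idOf q ⊔ n ∣ n := Ideal.dvd_iff_le.2 le_sup_right
  have hlt : n < g := lt_of_le_of_ne (hg.trans_le Ideal.mul_le_right) fun e => hu (by
    rw [← e] at hg
    exact ((mul_eq_right₀ hn).1 hg.symm).trans Ideal.one_eq_top)
  obtain ⟨β, hβ, hβu, hβ1⟩ := hφ g hlt
  have h1 : (s.c β - 1) * y ∈ s.cj L := by
    have h2 : y ∈ s.idl (s.idOf q ⊔ n) * (s.cj L * s.inv n) := by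
      have := s.idOf_le.1 (le_sup_left : s.idOf q ≤ s.idOf q ⊔ n)
      rwa [hq, s.mkP_L hM hy, s.mkP_ρ hM hy, ← hq] at this
    have h3 := s.mul_mem_idl hβ h2
    rw [← mul_assoc, ← s.idl_mul, mul_comm g, ← hg, mul_left_comm, s.idl_inv hn, mul_one, s.c_sub,
      s.c_one] at h3
    exact h3
  have hc := hβu
  rw [s.unit_cl hn, s.idOf_np] at hc
  obtain ⟨u, hu', v, hv, huv⟩ := s.g3p_cop hc
  obtain ⟨r, rfl⟩ := Ideal.mem_span_singleton'.1 hu'
  have h2 := hR.sum_bij (s.c β * ·) (fun a ha => s.mem_zl.2 (s.c_mul_mem β (s.mem_zl.1 ha)))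
    (fun a ha b hb => by
      rw [← mul_sub, s.mem_zl, s.mem_zl]
      refine ⟨fun h => ?_, s.c_mul_mem β⟩
      have := add_mem (s.c_mul_mem r h) (s.mul_mem_idl hv (s.mem_zl.1 (sub_mem ha hb)))
      rwa [← mul_assoc, ← s.c_mul, ← add_mul, huv, one_mul] at this)
    (fun α => φ (s.cl n (s.mkP L α)) * (g3pE (ar (s.zl L)) (α * y))⁻¹) fun a ha l hl => by
      rw [s.g3p_per hL (s.mem_zl.1 ha) (s.mem_zl.1 hl), add_mul, g3p_add, s.g3p_one hL (u := l * y)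
        (s.g3p_mul hn L (s.cj L) ▸ Submodule.mul_mem_mul (s.mem_zl.1 hl) hy), mul_one]
  have h3 : ∀ α ∈ R, φ (s.cl n (s.mkP L (s.c β * α))) * (g3pE (ar (s.zl L)) (s.c β * α * y))⁻¹ =
      φ (s.cl n (s.np β)) * (φ (s.cl n (s.mkP L α)) * (g3pE (ar (s.zl L)) (α * y))⁻¹) := by
    intro α hα
    have hα' := s.mem_zl.1 (hR.2.2.1 α hα)
    have e1 : s.mkP L (s.c β * α) = s.np β * s.mkP L α := Pair.ext
      (by rw [s.mkP_L hL (s.c_mul_mem β hα'), s.mul_L, s.np_L, s.mkP_L hL hα', one_mul])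
      (by rw [s.mkP_ρ hL (s.c_mul_mem β hα'), s.mul_ρ, s.np_ρ, s.mkP_ρ hL hα'])
    rw [e1, map_mul, map_mul, show s.c β * α * y = α * y + α * ((s.c β - 1) * y) by ring, g3p_add,
      s.g3p_one hL (Submodule.mul_mem_mul hα' h1), mul_one, mul_assoc]
  rw [Finset.sum_congr rfl h3, ← Finset.mul_sum] at h2
  exact (mul_eq_right₀ · |>.1 h2 |> hβ1) |> not_not.1

theorem gauss_unit (hn : n ≠ ⊥) (φ : MulChar (s.Pr n) ℂ) : ∃ T : ℂ, ∀ (L : s.Sub) (R : Finset ℂ)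
    (y : ℂ), IsUnit L → Reps (s.zl (s.idl n * L)) (s.zl L) R → y ∈ s.cj L * s.inv n →
    IsUnit (s.cl n (s.mkP (s.cj L * s.inv n) y)) →
    ∑ α ∈ R, φ (s.cl n (s.mkP L α)) * (pa (s.zl L) α (conj y))⁻¹ =
      (φ (s.cl n (s.mkP (s.cj L * s.inv n) y)))⁻¹ * T := by
  have hI := s.isUnit_inv hn
  have hle : s.zl 1 ≤ s.zl (s.inv n) := s.zl_le.2 (by simpa using s.le_mul_inv hn 1)
  obtain ⟨R₀, hR₀⟩ := exists_reps (s.isLat_zl isUnit_one) (s.isLat_zl hI) hle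
  refine ⟨∑ β ∈ R₀, φ (s.cl n (s.mkP (s.inv n) β)) * (g3pE (ar (s.zl 1)) β)⁻¹,
    fun L R y hL hR hy hu => ?_⟩
  simp only [g3p_pa]
  have hM := (s.isUnit_cj hL).mul hI
  have hN : (s.nL L : ℂ) ≠ 0 := by exact_mod_cast (s.nL_pos hL).ne'
  set q := s.mkP (s.cj L * s.inv n) y with hq
  have hqL : q.L = s.cj L * s.inv n := s.mkP_L hM hy
  have hqρ : q.ρ = y := s.mkP_ρ hM hy
  obtain ⟨u, hu', v, hv, huv⟩ := s.g3p_cop ((s.unit_cl hn).1 hu)
  have hsp := s.idOf_spec q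
  rw [hqL, hqρ] at hsp
  have key : ∀ (a : ℂ) (K : s.Sub), y / s.nL L * a ∈ K ↔ a * y ∈ L * s.cj L * K := fun a K => by
    rw [s.mul_cj hL, ← s.mul_mem_sc' hN]
    congr! 1
    field_simp
  have h1 : ∀ a ∈ L, y / s.nL L * a ∈ s.inv n := fun a ha => by
    rw [key, mul_assoc]
    exact Submodule.mul_mem_mul ha hy
  obtain ⟨h4, h5⟩ := g3p_image hR hle (y / s.nL L)
    (fun a ha => s.mem_zl.2 (h1 a (s.mem_zl.1 ha)))
    (fun a ha => by
      rw [s.mem_zl, s.mem_zl, key, mul_one, ← s.g3p_mul hn]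
      refine ⟨fun h => ?_, fun h => Submodule.mul_mem_mul h hy⟩
      have h2 : s.sc a * s.idl (s.idOf q) ≤ s.idl n * L := by
        rw [← s.mul_le_mul_unit hM, mul_assoc, hsp, ← s.sc_mul]
        exact (Submodule.span_singleton_le_iff_mem _ _).2 h
      have := add_mem (h2 (Submodule.mul_mem_mul (s.mem_sc a) (s.c_mem_idl.2 hu')))
        (s.mul_mem_idl hv (s.mem_zl.1 ha))
      rwa [mul_comm a, ← add_mul, huv, one_mul] at this)
    (fun b hb => by
      have h2 : s.nL L * (s.c u * b) ∈ s.sc y * L := by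
        rw [← hsp, mul_assoc, mul_assoc, mul_comm (s.inv n), ← mul_assoc (s.cj L), mul_comm (s.cj L),
          s.mul_cj hL, mul_left_comm]
        exact (s.mul_mem_sc' hN).2 (s.mul_mem_idl hu' (s.mem_zl.1 hb))
      obtain ⟨a, ha, e⟩ := s.mem_sc_mul.1 h2
      refine ⟨a, s.mem_zl.2 ha, s.mem_zl.2 ?_⟩
      have h3 := s.mul_mem_idl hv (s.mem_zl.1 hb)
      rw [s.idl_inv hn] at h3
      have e2 : b - y / s.nL L * a = s.c v * b := by
        rw [div_mul_eq_mul_div, e, mul_div_cancel_left₀ _ hN]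
        linear_combination (-b) * huv
      rwa [e2])
  rw [hR₀.sum_congr h4 _ fun a ha l hl => by
    rw [s.g3p_per hI (s.mem_zl.1 ha) (by rw [s.idl_inv hn]; exact s.mem_zl.1 hl), g3p_add,
      s.g3p_one isUnit_one (u := l) (by rw [s.cj_one, one_mul]; exact s.mem_zl.1 hl), mul_one],
    Finset.sum_image h5, Finset.mul_sum]
  refine Finset.sum_congr rfl fun α hα => ?_
  have hα' := s.mem_zl.1 (hR.2.2.1 α hα)
  have e1 : s.cl n (s.mkP (s.inv n) (y / s.nL L * α)) = s.cl n (s.mkP L α * q) :=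
    s.cl_eq.2 ⟨s.nL L, hN, by
      rw [s.mul_L, s.mkP_L hL hα', hqL, s.mkP_L hI (h1 α hα'), ← mul_assoc, s.mul_cj hL], by
      rw [s.mul_ρ, s.mkP_ρ hL hα', hqρ, s.mkP_ρ hI (h1 α hα'),
        show α * y - s.nL L * (y / s.nL L * α) = 0 by field_simp; ring]
      exact zero_mem _⟩
  have e2 : g3pE (ar (s.zl 1)) (y / s.nL L * α) = g3pE (ar (s.zl L)) (α * y) := by
    have h6 : (ar (s.zl 1) : ℂ) ≠ 0 := by exact_mod_cast (ar_pos (s.isLat_zl isUnit_one)).ne'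
    have h7 : (ar (s.zl L) : ℂ) = s.nL L * ar (s.zl 1) := by
      rw [nL, Complex.ofReal_div, div_mul_cancel₀ _ h6]
    rw [g3pE, g3pE, h7, map_mul, map_mul, map_div₀, Complex.conj_ofReal]
    congr 1
    field_simp
  have h8 : φ (s.cl n q) ≠ 0 := (hu.map φ).ne_zero
  rw [e1, e2, map_mul, map_mul]
  field_simp

end St

end

end Pool.Agent.P.MP_20768c_nt.Az.Cu

end
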