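import Pool.Agent.P.MP_20768c_nt.Az.Z0
import Pool.Agent.P.MP_20768c_nt.Az.Z1
import Pool.Agent.P.MP_20768c_nt.Az.Z2

-- part ad7a55_nt.VMf
section

/-! The ring of modular functions of level N. -/

set_option autoImplicit false

noncomputable section

open MeasureTheory Topology Filter UpperHalfPlane
open scoped MatrixGroups ENNReal BoundedContinuousFunction

namespace Pool.Agent.P.MP_20768c_nt.Az.EQ

def MF (N : ℕ) (L : IntermediateField ℚ ℂ) : Set (ℍ → ℂ) :=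
  {f | IsMF (CongruenceSubgroup.Gamma N) N L f}

variable {N : ℕ} {L : IntermediateField ℚ ℂ} {f g : ℍ → ℂ}

theorem isMF_iff {Γ : Subgroup SL(2, ℤ)} : IsMF Γ N L f ↔ (∀ γ ∈ Γ, ∀ τ : ℍ, f (γ • τ) = f τ) ∧
    ∃ m : ℕ, ∀ γ : SL(2, ℤ), QS N L fun τ => ModularForm.discriminant τ ^ m * f (γ • τ) :=
  Iff.rfl

theorem vmf_congr {f g : ℍ → ℂ} (h : QS N L f) (e : ∀ τ, g τ = f τ) : QS N L g :=
  (funext e : g = f) ▸ h

theorem vmf_disc (hN : 0 < N) (k : ℕ) : QS N L fun τ => ModularForm.discriminant τ ^ k :=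
  (iq2_intQ_disc.pow k).qs hN

theorem vmf_gamma {N' : ℕ} (h : N ∣ N') :
    CongruenceSubgroup.Gamma N' ≤ CongruenceSubgroup.Gamma N := by
  intro γ hγ
  rw [CongruenceSubgroup.Gamma_mem] at hγ ⊢
  obtain ⟨h1, h2, h3, h4⟩ := hγ
  have e : ∀ x : ℤ, ZMod.castHom h (ZMod N) (x : ZMod N') = (x : ZMod N) := fun x =>
    map_intCast _ x
  refine ⟨?_, ?_, ?_, ?_⟩
  · rw [← e, h1, map_one]
  · rw [← e, h2, map_zero]
  · rw [← e, h3, map_zero]
  · rw [← e, h4, map_one]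

theorem vmf_mk {f : ℍ → ℂ} (h1 : ∀ γ ∈ CongruenceSubgroup.Gamma N, ∀ τ : ℍ, f (γ • τ) = f τ) (m : ℕ)
    (h2 : ∀ γ : SL(2, ℤ), QS N L fun τ => ModularForm.discriminant τ ^ m * f (γ • τ)) :
    f ∈ MF N L := ⟨h1, m, h2⟩

theorem IsMF.mf {Γ : Subgroup SL(2, ℤ)} (hΓ : CongruenceSubgroup.Gamma N ≤ Γ)
    {L' : IntermediateField ℚ ℂ} (hL : L ≤ L') (h : IsMF Γ N L f) : f ∈ MF N L' := by
  obtain ⟨h1, m, h2⟩ := isMF_iff.1 h
  exact isMF_iff.2 ⟨fun γ hγ => h1 γ (hΓ hγ), m, fun γ => (h2 γ).mono hL⟩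

theorem MF.inv (hf : f ∈ MF N L) {γ : SL(2, ℤ)} (hγ : γ ∈ CongruenceSubgroup.Gamma N) (τ : ℍ) :
    f (γ • τ) = f τ := hf.1 γ hγ τ

theorem MF.add (hN : 0 < N) (hf : f ∈ MF N L) (hg : g ∈ MF N L) :
    (fun τ => f τ + g τ) ∈ MF N L := by
  obtain ⟨h1, m, h2⟩ := isMF_iff.1 hf
  obtain ⟨h3, k, h4⟩ := isMF_iff.1 hg
  refine vmf_mk (fun γ hγ τ => by rw [h1 γ hγ, h3 γ hγ]) (m + k) fun γ => ?_
  refine vmf_congr (((vmf_disc hN k).mul hN (h2 γ)).add ((vmf_disc hN m).mul hN (h4 γ))) fun τ => ?_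
  ring

theorem MF.mul (hN : 0 < N) (hf : f ∈ MF N L) (hg : g ∈ MF N L) :
    (fun τ => f τ * g τ) ∈ MF N L := by
  obtain ⟨h1, m, h2⟩ := isMF_iff.1 hf
  obtain ⟨h3, k, h4⟩ := isMF_iff.1 hg
  refine vmf_mk (fun γ hγ τ => by rw [h1 γ hγ, h3 γ hγ]) (m + k) fun γ => ?_
  refine vmf_congr ((h2 γ).mul hN (h4 γ)) fun τ => ?_
  ring

theorem MF.const {c : ℂ} (hc : c ∈ L) : (fun _ : ℍ => c) ∈ MF N L := by
  refine vmf_mk (fun _ _ _ => rfl) 0 fun γ => vmf_congr (qs_const hc) fun τ => ?_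
  simp

theorem MF.sub (hN : 0 < N) (hf : f ∈ MF N L) (hg : g ∈ MF N L) :
    (fun τ => f τ - g τ) ∈ MF N L := by
  have h := MF.add hN hf (MF.mul hN (MF.const (c := -1) (neg_mem (one_mem L))) hg)
  have e : (fun τ => f τ - g τ) = fun τ => f τ + -1 * g τ := by
    funext τ
    ring
  rw [e]
  exact h

theorem MF.pow (hN : 0 < N) (hf : f ∈ MF N L) (m : ℕ) : (fun τ => f τ ^ m) ∈ MF N L := by
  induction m with
  | zero => simpa using MF.const (N := N) (one_mem L)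
  | succ m ih => simpa only [pow_succ] using MF.mul hN ih hf

theorem MF.sum (hN : 0 < N) {ι : Type} (s : Finset ι) {f : ι → ℍ → ℂ}
    (hf : ∀ i ∈ s, f i ∈ MF N L) : (fun τ => ∑ i ∈ s, f i τ) ∈ MF N L := by
  classical
  induction s using Finset.induction_on with
  | empty => simpa using MF.const (N := N) (zero_mem L)
  | insert i s hi ih =>
    simp only [Finset.sum_insert hi]
    exact MF.add hN (hf i (Finset.mem_insert_self i s))
      (ih fun k hk => hf k (Finset.mem_insert_of_mem hk))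

theorem MF.prod (hN : 0 < N) {ι : Type} (s : Finset ι) {f : ι → ℍ → ℂ}
    (hf : ∀ i ∈ s, f i ∈ MF N L) : (fun τ => ∏ i ∈ s, f i τ) ∈ MF N L := by
  classical
  induction s using Finset.induction_on with
  | empty => simpa using MF.const (N := N) (one_mem L)
  | insert i s hi ih =>
    simp only [Finset.prod_insert hi]
    exact MF.mul hN (hf i (Finset.mem_insert_self i s))
      (ih fun k hk => hf k (Finset.mem_insert_of_mem hk))

theorem MF.smul (hf : f ∈ MF N L) (γ : SL(2, ℤ)) : (fun τ => f (γ • τ)) ∈ MF N L := by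
  obtain ⟨h1, m, h2⟩ := isMF_iff.1 hf
  refine vmf_mk (fun δ hδ τ => ?_) m fun δ => vmf_congr (h2 (γ * δ)) fun τ => ?_
  · have h3 := h1 _ ((CongruenceSubgroup.Gamma_normal N).conj_mem δ hδ γ) (γ • τ)
    rwa [← mul_smul, inv_mul_cancel_right, mul_smul] at h3
  · rw [mul_smul]

theorem vmf_E4 (τ : ℍ) : ModularForm.E₄ τ ^ 3 = ModularForm.discriminant τ * jInv τ := by
  have h2 := ModularForm.discriminant_ne_zero τ
  unfold jInv
  field_simp

theorem MF.j (hN : 0 < N) : jInv ∈ MF N L := by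
  refine isMF_iff.2 ⟨fun γ _ τ => jInv_smul γ τ, 1, fun γ =>
    vmf_congr ((intQ_E4.pow 3).qs hN) fun τ => ?_⟩
  rw [jInv_smul, pow_one, vmf_E4]

theorem MF.mono {N' : ℕ} {L' : IntermediateField ℚ ℂ} (hN' : 0 < N') (h : N ∣ N') (hL : L ≤ L')
    (hf : f ∈ MF N L) : f ∈ MF N' L' := by
  obtain ⟨h1, m, h2⟩ := isMF_iff.1 hf
  exact isMF_iff.2 ⟨fun γ hγ => h1 γ (vmf_gamma h hγ), m, fun γ => ((h2 γ).mono hL).level hN' h⟩

theorem vmf_ratio {a d : ℕ} (ha : 0 < a) (hd : 0 < d) (b : ℤ) (hz : zt d ∈ L) {w : ℍ → ℍ}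
    (hw : ∀ τ : ℍ, (w τ : ℂ) = (a * τ + b) / d) :
    QS d L fun τ => ModularForm.discriminant τ ^ (a * d) / ModularForm.discriminant (w τ) := by
  have h1 : IntQ fun τ => ((1 : ℤ) : ℂ) / (ModularForm.discriminant τ / qq τ) :=
    (intQ_int 1).iq2_div intQ_disc_div iq2_disc_div_tendsto iq2_disc_div_ne
  have h2 := QS.aff one_pos (h1.qs (L := L) one_pos) ha hd b le_rfl (by rwa [one_mul]) hw
  rw [one_mul] at h2
  obtain ⟨k, hk⟩ : ∃ k, a * d * d = a + k :=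
    Nat.exists_eq_add_of_le (by rw [mul_assoc]; exact Nat.le_mul_of_pos_right a (Nat.mul_pos hd hd))
  have h3 : QS d L fun τ => zt d ^ (-b) * qN d τ ^ k :=
    (qs_const (zpow_mem hz _)).mul hd ((qs_qN d L).pow hd k)
  refine vmf_congr ((h3.mul hd ((intQ_disc_div.pow (a * d)).qs hd)).mul hd h2) fun τ => ?_
  have hd0 : (d : ℂ) ≠ 0 := Nat.cast_ne_zero.2 hd.ne'
  have h4 : qq τ ^ (a * d) = zt d ^ (-b) * qN d τ ^ k * qq (w τ) := by
    have h5 : (a * d * d : ℂ) = a + k := by exact_mod_cast hk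
    rw [qq, qq, zt, qN, hw, ← Complex.exp_nat_mul, ← Complex.exp_nat_mul, ← Complex.exp_int_mul,
      ← Complex.exp_add, ← Complex.exp_add]
    refine congrArg Complex.exp ?_
    push_cast
    field_simp
    linear_combination (τ : ℂ) * h5
  have h6 := iq2_qq_ne τ
  have h7 := ModularForm.discriminant_ne_zero (w τ)
  have h8 : ModularForm.discriminant τ ^ (a * d) =
      (ModularForm.discriminant τ / qq τ) ^ (a * d) * qq τ ^ (a * d) := by
    rw [← mul_pow, div_mul_cancel₀ _ h6]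
  rw [h8, h4, Int.cast_one, one_div_div]
  ring

theorem MF.act (hN : 0 < N) (hf : f ∈ MF N L) {ξ : MZ} (hξ : 0 < ξ.det) {N' : ℕ} (hN' : 0 < N')
    (h : N * ξ.det.natAbs ∣ N') {L' : IntermediateField ℚ ℂ} (hL : L ≤ L') (hz : zt N' ∈ L') :
    (fun τ => f (act ξ τ)) ∈ MF N' L' := by
  obtain ⟨h1, m, h2⟩ := isMF_iff.1 hf
  have hdet : ∀ γ : SL(2, ℤ), (γ : MZ).det = 1 := fun γ => γ.det_coe
  have hpos : ∀ γ : SL(2, ℤ), 0 < (γ : MZ).det := fun γ => by rw [hdet]; exact one_pos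
  refine vmf_mk (fun γ hγ τ => ?_) (ξ.det.natAbs * m) fun γ => ?_
  · obtain ⟨γ', hγ', e⟩ := act_conj hξ N (vmf_gamma h hγ)
    rw [← act_SL γ τ, ← act_mul hξ (hpos γ), e, act_mul (hpos γ') hξ, act_SL, h1 γ' hγ']
  · have h3 : (ξ * (γ : MZ)).det = ξ.det := by rw [Matrix.det_mul, hdet, mul_one]
    obtain ⟨γ', a, d, b, ha, hd, had, e⟩ := act_hnf (ξ := ξ * (γ : MZ)) (h3 ▸ hξ)
    rw [h3] at had
    have h4 : ξ.det.natAbs = a * d := by
      rw [← had, Int.natAbs_mul, Int.natAbs_natCast, Int.natAbs_natCast]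
    have h5 : 0 < (!![(a : ℤ), b; 0, (d : ℤ)] : MZ).det := by
      rw [Matrix.det_fin_two_of, mul_zero, sub_zero, had]
      exact hξ
    have hw : ∀ τ : ℍ, (Pool.Agent.P.MP_20768c_nt.Az.EQ.act !![(a : ℤ), b; 0, (d : ℤ)] τ : ℂ) = (a * τ + b) / d :=
      fun τ => by simp [coe_act h5]
    have h6 : N * d ∣ N' := (Nat.mul_dvd_mul_left N (h4 ▸ Dvd.intro_left a rfl)).trans h
    have h7 : d ∣ N' := (Dvd.intro_left N rfl).trans h6
    have h8 := (QS.aff hN (h2 γ') ha hd b hL (zt_dvd hN' h6 hz) hw).level hN' h6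
    have h9 := ((vmf_ratio ha hd b (zt_dvd hN' h7 hz) hw).level hN' h7).pow hN' m
    refine vmf_congr (h9.mul hN' h8) fun τ => ?_
    have h10 := ModularForm.discriminant_ne_zero (Pool.Agent.P.MP_20768c_nt.Az.EQ.act !![(a : ℤ), b; 0, (d : ℤ)] τ)
    rw [← act_SL γ τ, ← act_mul hξ (hpos γ), e, act_mul (hpos γ') h5, act_SL, h4, ← mul_assoc,
      ← mul_pow, div_mul_cancel₀ _ h10, pow_mul]

theorem MF.eq_zero (hN : 0 < N) (hf : f ∈ MF N L) (hg : g ∈ MF N L) (h : ∀ τ, f τ * g τ = 0) :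
    (∀ τ, f τ = 0) ∨ ∀ τ, g τ = 0 := by
  obtain ⟨_, m, h2⟩ := isMF_iff.1 hf
  obtain ⟨_, k, h4⟩ := isMF_iff.1 hg
  have h5 := QS.eq_zero hN (h2 1) (h4 1) fun τ => by
    rw [one_smul, mul_mul_mul_comm, h, mul_zero]
  simp only [one_smul] at h5
  refine h5.imp (fun h6 τ => ?_) fun h6 τ => ?_
  · exact (mul_eq_zero.1 (h6 τ)).resolve_left (pow_ne_zero _ (ModularForm.discriminant_ne_zero τ))
  · exact (mul_eq_zero.1 (h6 τ)).resolve_left (pow_ne_zero _ (ModularForm.discriminant_ne_zero τ))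

theorem vmf_one : QS 1 L f ↔
    ∃ c : ℕ → ℂ, (∀ n, c n ∈ L) ∧ ∀ τ : ℍ, HasSum (fun n => c n * qq τ ^ n) (f τ) := by
  have e : ∀ τ, qN 1 τ = qq τ := fun τ => by rw [qN, qq, Nat.cast_one, div_one]
  simp only [QS, e]

theorem vmf_poly (m : ℕ) {f : ℍ → ℂ} (hf : QS 1 L f)
    (hw : ∀ (γ : SL(2, ℤ)) (τ : ℍ), f (γ • τ) = ((γ 1 0 : ℂ) * τ + γ 1 1) ^ (12 * m) * f τ) :
    ∃ P : Polynomial ℂ, (∀ n, P.coeff n ∈ L) ∧
      ∀ τ, f τ = ModularForm.discriminant τ ^ m * P.eval (jInv τ) := by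
  induction m generalizing f with
  | zero =>
    obtain ⟨a, haL, ha⟩ := vmf_one.1 hf
    refine ⟨Polynomial.C (a 0), fun n => ?_, fun τ => ?_⟩
    · rw [Polynomial.coeff_C]
      split_ifs
      · exact haL 0
      · exact zero_mem L
    · rw [iq2_const ha (fun γ τ => by simpa using hw γ τ) τ]
      simp
  | succ m ih =>
    obtain ⟨a, haL, ha⟩ := vmf_one.1 hf
    have hg : QS 1 L fun τ => f τ + -a 0 * (ModularForm.E₄ τ ^ 3) ^ (m + 1) :=
      hf.add ((qs_const (neg_mem (haL 0))).mul one_pos (((intQ_E4.pow 3).pow (m + 1)).qs one_pos))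
    have hg0 : Tendsto (fun τ => f τ + -a 0 * (ModularForm.E₄ τ ^ 3) ^ (m + 1))
        atImInfty (𝓝 0) := by
      have h1 := (iq2_tendsto ha).add (((iq2_E4_tendsto.pow 3).pow (m + 1)).const_mul (-a 0))
      simpa using h1
    obtain ⟨c, hcL, hc⟩ := vmf_one.1 hg
    have hc0 : c 0 = 0 := tendsto_nhds_unique (iq2_tendsto hc) hg0
    have hs : QS 1 L fun τ => (f τ + -a 0 * (ModularForm.E₄ τ ^ 3) ^ (m + 1)) / qq τ :=
      vmf_one.2 ⟨fun n => c (n + 1), fun n => hcL _, iq2_shift hc hc0⟩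
    have h1 : IntQ fun τ => ((1 : ℤ) : ℂ) / (ModularForm.discriminant τ / qq τ) :=
      (intQ_int 1).iq2_div intQ_disc_div iq2_disc_div_tendsto iq2_disc_div_ne
    have hh : QS 1 L fun τ => (f τ - a 0 *
        (ModularForm.discriminant τ * jInv τ) ^ (m + 1)) / ModularForm.discriminant τ := by
      refine vmf_congr (hs.mul one_pos (h1.qs one_pos)) fun τ => ?_
      have h1 := iq2_qq_ne τ
      have h2 := ModularForm.discriminant_ne_zero τ
      rw [vmf_E4, Int.cast_one]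
      field_simp
      ring
    obtain ⟨P, hP, hPf⟩ := ih hh (by
      intro γ τ
      have h1 := iq2_den_ne γ τ
      have h2 := ModularForm.discriminant_ne_zero τ
      rw [hw, disc_smul, jInv_smul]
      generalize ((γ 1 0 : ℂ) * τ + γ 1 1) = u at h1 ⊢
      field_simp
      ring)
    refine ⟨Polynomial.C (a 0) * Polynomial.X ^ (m + 1) + P, fun n => ?_, fun τ => ?_⟩
    · rw [Polynomial.coeff_add, Polynomial.coeff_C_mul_X_pow]
      refine add_mem ?_ (hP n)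
      split_ifs
      · exact haL 0
      · exact zero_mem L
    · have h1 := hPf τ
      have h2 := ModularForm.discriminant_ne_zero τ
      rw [div_eq_iff h2] at h1
      simp only [Polynomial.eval_add, Polynomial.eval_mul, Polynomial.eval_pow, Polynomial.eval_X,
        Polynomial.eval_C]
      linear_combination h1

/-- A function of level one is a polynomial in `j` with coefficients in the same field. -/
theorem MF.poly (hN : 0 < N) (hf : f ∈ MF N L) (h : ∀ (γ : SL(2, ℤ)) (τ : ℍ), f (γ • τ) = f τ) :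
    ∃ P : Polynomial ℂ, (∀ n, P.coeff n ∈ L) ∧ ∀ τ, f τ = P.eval (jInv τ) := by
  obtain ⟨_, m, h2⟩ := isMF_iff.1 hf
  have h3 : QS N L fun τ => ModularForm.discriminant τ ^ m * f τ :=
    vmf_congr (h2 1) fun τ => by rw [one_smul]
  have h4 : ∀ (γ : SL(2, ℤ)) (τ : ℍ), ModularForm.discriminant (γ • τ) ^ m * f (γ • τ) =
      ((γ 1 0 : ℂ) * τ + γ 1 1) ^ (12 * m) * (ModularForm.discriminant τ ^ m * f τ) := by
    intro γ τ
    rw [h, disc_smul, mul_pow, pow_mul, mul_assoc]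
  have h5 := h3.one hN fun τ => by
    rw [h4]
    simp [ModularGroup.T]
  obtain ⟨P, hP, hPf⟩ := vmf_poly m h5 h4
  exact ⟨P, hP, fun τ =>
    mul_left_cancel₀ (pow_ne_zero m (ModularForm.discriminant_ne_zero τ)) (hPf τ)⟩

end Pool.Agent.P.MP_20768c_nt.Az.EQ

end

end

-- part Cu.E3
section

set_option autoImplicit false

open Complex NumberField IsDedekindDomain Filter Topology
open UpperHalfPlane hiding I
open scoped ComplexConjugate Real MatrixGroups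

namespace Pool.Agent.P.MP_20768c_nt.Az.Cu

open Pool.Agent.P.MP_20768c_nt.Az.EQ (Lt pr sp IsLat jL qN)

theorem e3_an {a b : ℕ → ℝ} (ha : Pool.Agent.P.MP_20768c_nt.AzH.DP.Dens a 1)
    (hb : Pool.Agent.P.MP_20768c_nt.AzH.DP.Dens b 1) (hb0 : ∀ n, 0 ≤ b n) {M : ℕ}
    (h : ∀ n, M ≤ n → 2 * a n ≤ b n) : False := by
  obtain ⟨⟨A, hA⟩, Ca, ha⟩ := ha
  obtain ⟨⟨B, hB⟩, Cb, hb⟩ := hb
  have hA0 : 0 ≤ A := (abs_nonneg _).trans (hA 0)
  have hl : Tendsto (fun s : ℝ => Real.log (s - 1)) (𝓝[>] 1) atBot := by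
    refine Real.tendsto_log_nhdsGT_zero.comp ?_
    refine tendsto_nhdsWithin_iff.2 ⟨?_, ?_⟩
    · have : Tendsto (fun s : ℝ => s - 1) (𝓝 1) (𝓝 (1 - 1)) :=
        (continuous_id.sub continuous_const).tendsto 1
      rw [sub_self] at this
      exact this.mono_left nhdsWithin_le_nhds
    · filter_upwards [self_mem_nhdsWithin] with s hs
      exact sub_pos.2 (show (1 : ℝ) < s from hs)
  obtain ⟨s, h1, h2, h3, h4⟩ := (ha.and (hb.and ((hl.eventually
    (eventually_lt_atBot (-(Cb + 2 * Ca + M * (2 * A))))).and self_mem_nhdsWithin))).exists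
  have hs : (1 : ℝ) < s := h4
  have hz : Summable fun n : ℕ => (n : ℝ) ^ (-s) := Real.summable_nat_rpow.2 (by linarith)
  have sm : ∀ (c : ℕ → ℝ) (K : ℝ), (∀ n, |c n| ≤ K) →
      Summable fun n : ℕ => c n * (n : ℝ) ^ (-s) := fun c K hc =>
    Summable.of_norm_bounded (hz.mul_left K) fun n => by
      rw [Real.norm_eq_abs, abs_mul, abs_of_nonneg (by positivity : (0 : ℝ) ≤ (n : ℝ) ^ (-s))]
      exact mul_le_mul_of_nonneg_right (hc n) (by positivity)
  have hf : HasSum (fun n : ℕ => if n ∈ Finset.range M then 2 * A else 0) (M * (2 * A)) := by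
    have := hasSum_sum_of_ne_finset_zero (L := SummationFilter.unconditional ℕ)
      (f := fun n : ℕ => if n ∈ Finset.range M then 2 * A else 0) (s := Finset.range M)
      fun n hn => if_neg hn
    rwa [Finset.sum_congr rfl fun n hn => if_pos hn, Finset.sum_const, Finset.card_range,
      nsmul_eq_mul] at this
  have key := hasSum_le (fun n => ?_) ((sm a A hA).hasSum.mul_left 2) ((sm b B hB).hasSum.add hf)
  · rw [abs_le] at h1 h2
    linarith [h1.1, h2.2]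
  · have p0 : (0 : ℝ) ≤ (n : ℝ) ^ (-s) := by positivity
    split_ifs with hn
    · have p1 : (n : ℝ) ^ (-s) ≤ 1 := by
        rcases eq_or_ne n 0 with rfl | h0
        · rw [Nat.cast_zero, Real.zero_rpow (by linarith)]; exact zero_le_one
        · exact Real.rpow_le_one_of_one_le_of_nonpos
            (by exact_mod_cast Nat.one_le_iff_ne_zero.2 h0) (by linarith)
      have p2 : a n ≤ A := (le_abs_self _).trans (hA n)
      nlinarith [mul_nonneg (hb0 n) p0, mul_le_mul_of_nonneg_right p2 p0,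
        mul_le_mul_of_nonneg_left p1 hA0]
    · have := mul_le_mul_of_nonneg_right (h n (by simpa using hn)) p0
      linarith

/-- a ring map into a quotient on which the prime power map is trivial -/
theorem e3_res {E F : Type} [Field E] [NumberField E] [Field F] [NumberField F] {l : ℕ}
    (hl : l.Prime) (ι : 𝓞 E →+* 𝓞 F) (Q : Ideal (𝓞 F)) (hQ : Q.IsPrime) (hm : (l : 𝓞 F) ∈ Q)
    (h : ∀ x, ι x - ι x ^ l ∈ Q) :
    Ideal.absNorm (Q.comap ι) = l ∧ ∀ x, ∃ n : ℤ, ι x - n ∈ Q := by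
  have h0 : Q ≠ ⊥ := by
    rintro rfl
    exact hl.ne_zero (by simpa using hm)
  have := hQ.isMaximal h0
  let := Ideal.Quotient.field Q
  have := Fact.mk hl
  have : CharP (𝓞 F ⧸ Q) l := (CharP.charP_iff_prime_eq_zero hl).2 (by
    rw [← map_natCast (Ideal.Quotient.mk Q)]
    exact Ideal.Quotient.eq_zero_iff_mem.2 hm)
  have hx : ∀ x, ((Ideal.Quotient.mk Q).comp ι) x ^ l = ((Ideal.Quotient.mk Q).comp ι) x :=
    fun x => by
      rw [RingHom.comp_apply, ← map_pow]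
      exact (Ideal.Quotient.eq.2 (h x)).symm
  refine ⟨?_, fun x => ?_⟩
  · have e := Pool.Agent.P.MP_20768c_nt.AzH.Ch.upChebA_card _ hx
    rw [← RingHom.comap_ker, Ideal.mk_ker] at e
    rw [Ideal.absNorm_apply, Submodule.cardQuot_apply]
    exact e
  · obtain ⟨n, hn⟩ := Pool.Agent.P.MP_20768c_nt.AzH.Ch.upChebA_int _ hx x
    refine ⟨n, Ideal.Quotient.eq.1 ?_⟩
    rw [map_intCast]
    exact hn.symm

theorem dens {k F : Type} [Field k] [NumberField k] [Field F] [NumberField F] [Algebra k F]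
    [IsGalois k F] (H : Subgroup (F ≃ₐ[k] F)) {C : ℕ} (hC : C ≠ 0)
    (h : ∀ Q : Ideal (𝓞 F), Q.IsPrime → Q ≠ ⊥ → (C : 𝓞 F) ∉ Q → ∃ g ∈ H, FrobAt g Q) : H = ⊤ := by
  by_contra hH
  obtain ⟨g, hg⟩ : ∃ g, g ∉ H := by
    by_contra hc
    exact hH ((Subgroup.eq_top_iff' H).2 fun g => by_contra fun e => hc ⟨g, e⟩)
  obtain ⟨T, hT⟩ : ∃ T, T = IntermediateField.fixedField H := ⟨_, rfl⟩
  have hfix : ∀ x : T, ∀ u ∈ H, u (x : F) = x := fun x u hu =>
    (IntermediateField.mem_fixedField_iff H _).1 (hT ▸ x.2) u hu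
  let ι : 𝓞 T →+* 𝓞 F := algebraMap _ _
  let κ : 𝓞 k →+* 𝓞 T := algebraMap _ _
  let σ : 𝓞 F →+* 𝓞 F := RingOfIntegers.mapRingHom (g : F →+* F)
  have hι : ∀ x, ((ι x : 𝓞 F) : F) = ((x : T) : F) := fun x => rfl
  have hσ : ∀ x, ((σ x : 𝓞 F) : F) = g (x : F) := fun x => rfl
  have hκ : ι.comp κ = algebraMap (𝓞 k) (𝓞 F) := (IsScalarTower.algebraMap_eq _ _ _).symm
  have hσκ : σ.comp (algebraMap (𝓞 k) (𝓞 F)) = algebraMap (𝓞 k) (𝓞 F) := by
    ext x
    exact g.commutes (x : k)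
  obtain ⟨θ, hθ⟩ : ∃ θ : 𝓞 T, σ (ι θ) - ι θ ≠ 0 := by
    by_contra hc
    refine hg ?_
    rw [← IntermediateField.fixingSubgroup_fixedField H, ← hT,
      IntermediateField.mem_fixingSubgroup_iff]
    intro x hx
    have e : ∀ y : 𝓞 T, g ((y : T) : F) = ((y : T) : F) := fun y => by
      have : σ (ι y) - ι y = 0 := by_contra fun e => hc ⟨y, e⟩
      rw [← hι, ← hσ, sub_eq_zero.1 this]
    obtain ⟨a, b, -, hab⟩ := IsFractionRing.div_surjective (A := 𝓞 T) (⟨x, hx⟩ : T)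
    have e2 : x = ((a : T) : F) / ((b : T) : F) := by
      have := congrArg (fun y : T => (y : F)) hab
      simpa using this.symm
    rw [e2, map_div₀, e, e]
  obtain ⟨N, hN0, hN⟩ : ∃ N : ℕ, N ≠ 0 ∧ (N : 𝓞 F) ∈ Ideal.span {σ (ι θ) - ι θ} :=
    ⟨_, by rw [Ne, Ideal.absNorm_eq_zero_iff, Ideal.span_singleton_eq_bot]; exact hθ,
      Ideal.absNorm_mem _⟩
  refine e3_an (Pool.Agent.P.MP_20768c_nt.AzH.DP.dens_nI k) (Pool.Agent.P.MP_20768c_nt.AzH.DP.dens_nI T)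
    (fun n => by positivity) (M := C * N + 1) fun l hM => ?_
  split_ifs with hl
  swap
  · simp
  have hcop : ∀ (m : ℕ) (Q : Ideal (𝓞 F)), m ∣ C * N → Q.IsPrime → (l : 𝓞 F) ∈ Q →
      (m : 𝓞 F) ∉ Q := fun m Q hm hQ h1 h2 => by
    have c : Nat.Coprime l m := (Nat.Prime.coprime_iff_not_dvd hl).2 fun e => by
      have := Nat.le_of_dvd (Nat.pos_of_ne_zero (mul_ne_zero hC hN0)) (e.trans hm)
      omega
    obtain ⟨u, v, huv⟩ := (Nat.Coprime.cast (R := 𝓞 F) c)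
    exact hQ.ne_top ((Ideal.eq_top_iff_one _).2
      (huv ▸ add_mem (Q.mul_mem_left u h1) (Q.mul_mem_left v h2)))
  have res : ∀ Q : Ideal (𝓞 F), Q.IsPrime →
      Ideal.absNorm (Q.comap (algebraMap (𝓞 k) (𝓞 F))) = l →
      (l : 𝓞 F) ∈ Q ∧ Ideal.absNorm (Q.comap ι) = l ∧ ∀ x, ∃ n : ℤ, ι x - n ∈ Q :=
    fun Q hQ e => by
    have hm : (l : 𝓞 F) ∈ Q := by
      have := Ideal.absNorm_mem (Q.comap (algebraMap (𝓞 k) (𝓞 F)))
      rwa [e, Ideal.mem_comap, map_natCast] at this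
    have h0 : Q ≠ ⊥ := by
      rintro rfl
      exact hl.ne_zero (by simpa using hm)
    obtain ⟨u, hu, hF⟩ := h Q hQ h0 (hcop C Q (dvd_mul_right _ _) hQ hm)
    refine ⟨hm, e3_res hl ι Q hQ hm fun x => ?_⟩
    have := hF (ι x) (ι x) (hfix (x : T) u hu).symm
    rwa [Ideal.under, e] at this
  have ex : ∀ q : {I : Ideal (𝓞 k) // Ideal.absNorm I = l}, ∃ Q : Ideal (𝓞 F), Q.IsPrime ∧
      Q.comap (algebraMap (𝓞 k) (𝓞 F)) = q.1 := fun q => by
    have : q.1.IsPrime := Ideal.isPrime_of_irreducible_absNorm (q.2.symm ▸ hl)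
    exact Ideal.exists_ideal_over_prime_of_isIntegral_of_isDomain q.1 (by
      rw [(RingHom.injective_iff_ker_eq_bot (algebraMap (𝓞 k) (𝓞 F))).1
        (FaithfulSMul.algebraMap_injective _ _)]
      exact bot_le)
  choose Q hQ hq using ex
  have hq' : ∀ q, ((Q q).comap σ).comap (algebraMap (𝓞 k) (𝓞 F)) = q.1 := fun q => by
    rw [Ideal.comap_comap, hσκ, hq]
  have r1 := fun q => res (Q q) (hQ q) (by rw [hq]; exact q.2)
  have r2 := fun q => res ((Q q).comap σ) (Ideal.comap_isPrime σ (Q q) (H := hQ q))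
    (by rw [hq']; exact q.2)
  let f : {I : Ideal (𝓞 k) // Ideal.absNorm I = l} ⊕ {I : Ideal (𝓞 k) // Ideal.absNorm I = l} →
      {I : Ideal (𝓞 T) // Ideal.absNorm I = l} :=
    Sum.elim (fun q => ⟨(Q q).comap ι, (r1 q).2.1⟩) fun q => ⟨((Q q).comap σ).comap ι, (r2 q).2.1⟩
  have c1 : ∀ q, ((Q q).comap ι).comap κ = q.1 := fun q => by rw [Ideal.comap_comap, hκ, hq]
  have c2 : ∀ q, (((Q q).comap σ).comap ι).comap κ = q.1 := fun q => by
    rw [Ideal.comap_comap, hκ, hq']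
  have ne : ∀ q q', (Q q).comap ι ≠ ((Q q').comap σ).comap ι := fun q q' e => by
    obtain rfl : q = q' := Subtype.ext (by rw [← c1, e, c2])
    obtain ⟨n, hn⟩ := (r1 q).2.2 θ
    have a1 : θ - n ∈ (Q q).comap ι := by rwa [Ideal.mem_comap, map_sub, map_intCast]
    rw [e, Ideal.mem_comap, Ideal.mem_comap, map_sub, map_sub, map_intCast, map_intCast] at a1
    have a2 : σ (ι θ) - ι θ ∈ Q q := by
      have := sub_mem a1 hn
      rwa [sub_sub_sub_cancel_right] at this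
    exact hcop N (Q q) (dvd_mul_left _ _) (hQ q) (r1 q).1
      ((Ideal.span_singleton_le_iff_mem _).2 a2 hN)
  have inj : Function.Injective f := by
    rintro (q | q) (q' | q') e
    · exact congrArg _ (Subtype.ext (by rw [← c1, ← c1 q']; exact congrArg (·.1.comap κ) e))
    · exact absurd (congrArg Subtype.val e) (ne q q')
    · exact absurd (congrArg Subtype.val e).symm (ne q' q)
    · exact congrArg _ (Subtype.ext (by rw [← c2, ← c2 q']; exact congrArg (·.1.comap κ) e))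
  have f1 : Finite {I : Ideal (𝓞 T) // Ideal.absNorm I = l} :=
    (Ideal.finite_setOfPred_absNorm_eq (S := 𝓞 T) l).to_subtype
  have f2 : Finite {I : Ideal (𝓞 k) // Ideal.absNorm I = l} :=
    (Ideal.finite_setOfPred_absNorm_eq (S := 𝓞 k) l).to_subtype
  have := Nat.card_le_card_of_injective f inj
  rw [Nat.card_sum, ← two_mul] at this
  exact_mod_cast this

end Pool.Agent.P.MP_20768c_nt.Az.Cu

end

-- part Cu.I1
section

set_option autoImplicit false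

open Complex NumberField IsDedekindDomain Filter Topology
open UpperHalfPlane hiding I
open scoped ComplexConjugate Real MatrixGroups

namespace Pool.Agent.P.MP_20768c_nt.Az.Cu

open Pool.Agent.P.MP_20768c_nt.Az.EQ (Lt pr sp IsLat jL qN)

theorem i1_sub {F : Type} [Field F] (D : F → F) (hadd : ∀ x y, D (x + y) = D x + D y)
    (x y : F) : D (x - y) = D x - D y := by
  have := hadd (x - y) y
  rw [sub_add_cancel] at this
  linear_combination -this

theorem i1_four {F : Type} [Field F] (D : F → F) (hadd : ∀ x y, D (x + y) = D x + D y)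
    (x : F) : D (4 * x) = 4 * D x := by
  have e : 4 * x = x + x + (x + x) := by ring
  rw [e, hadd, hadd]
  ring

theorem i1_eq {F : Type} [Field F] (v : Valuation F NNReal) {x y : F} (h : v y < v x) :
    v (x - y) = v x := Valuation.map_sub_eq_of_lt_left v h

theorem i1_real {t V a₁ a₂ a₃ d p : ℝ} (ht : 0 < t) (hV : t * V = 1) (d0 : 0 ≤ d)
    (h1 : 0 < a₁) (h2 : 0 < a₂) (h3 : 0 < a₃) (d1 : d ≤ a₁) (d2 : d ≤ a₂) (d3 : d ≤ a₃)
    (h : d ^ 2 = p ^ 2 * (t * a₁ * a₂ * a₃)) (c1 : a₁ < V → a₂ = V ∧ a₃ = V)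
    (c2 : V < a₁ → a₂ = a₁ ∧ a₃ = a₁) : p ≤ 1 ∧ (d < a₂ → p < 1) := by
  have hV0 : 0 < V := (pos_iff_pos_of_mul_pos (hV ▸ one_pos)).mp ht
  have key : ∀ {c : ℝ}, 0 < c → p ^ 2 * c < c → p < 1 := by
    intro c hc hp
    by_contra hn
    have h4 : 1 ≤ p ^ 2 := one_le_pow₀ (not_lt.mp hn)
    have := mul_le_mul_of_nonneg_right h4 hc.le
    linarith
  have hd : d ^ 2 ≤ a₁ ^ 2 := pow_le_pow_left₀ d0 d1 2
  rcases lt_trichotomy a₁ V with hc | hc | hc
  · obtain ⟨e2, e3⟩ := c1 hc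
    have e : p ^ 2 * (a₁ * V) = d ^ 2 := by
      rw [h, e2, e3]; linear_combination (-(p ^ 2 * a₁ * V)) * hV
    have : p < 1 := key (mul_pos h1 hV0) (by
      have := mul_lt_mul_of_pos_left hc h1
      rw [e]; linarith [sq a₁])
    exact ⟨this.le, fun _ => this⟩
  · have e : p ^ 2 * (a₂ * a₃) = d ^ 2 := by
      rw [h, hc]; linear_combination (-(p ^ 2 * a₂ * a₃)) * hV
    have e1 : d ^ 2 ≤ d * a₃ := by rw [sq]; exact mul_le_mul_of_nonneg_left d3 d0
    constructor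
    · by_contra hn
      have h4 : 1 < p ^ 2 := one_lt_pow₀ (not_le.mp hn) two_ne_zero
      have h5 := mul_lt_mul_of_pos_right h4 (mul_pos h2 h3)
      have h6 := mul_le_mul_of_nonneg_right d2 h3.le
      linarith
    · intro hlt
      refine key (mul_pos h2 h3) ?_
      have := mul_lt_mul_of_pos_right hlt h3
      linarith
  · obtain ⟨e2, e3⟩ := c2 hc
    have : p < 1 := key (c := t * a₁ * a₁ ^ 2) (by positivity) (by
      have e : p ^ 2 * (t * a₁ * a₁ ^ 2) = d ^ 2 := by rw [h, e2, e3]; ring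
      have h4 : 1 < t * a₁ := hV ▸ mul_lt_mul_of_pos_left hc ht
      have := mul_lt_mul_of_pos_right h4 (pow_pos h1 2)
      rw [e]; linarith)
    exact ⟨this.le, fun _ => this⟩

theorem vdf {F : Type} [Field F] (v : Valuation F NNReal) (D : F → F)
    (hadd : ∀ x y, D (x + y) = D x + D y) (hmul : ∀ x y, D (x * y) = x * D y + D x * y)
    (hle : ∀ x, v (D x) ≤ v x) (h0 : v 2 ≠ 0) (h2 : v 2 < 1) {e₁ e₂ e₃ X φ : F} (d1 : D e₁ = 0)
    (d2 : D e₂ = 0) (d3 : D e₃ = 0) (h12 : v (4 * (e₁ - e₂)) = 1) (h23 : v (e₂ - e₃) = v 4)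
    (n1 : X ≠ e₁) (n2 : X ≠ e₂) (n3 : X ≠ e₃)
    (h : D X ^ 2 = φ ^ 2 * (4 * (X - e₁) * (X - e₂) * (X - e₃))) :
    v φ ≤ 1 ∧ (v (D X) < v (X - e₂) → v φ < 1) ∧ v (D X) < v (X - e₁) := by
  have p2 : 0 < v 2 := pos_iff_ne_zero.mpr h0
  have e4 : v 4 = v 2 ^ 2 := by rw [← map_pow]; norm_num
  have p4 : 0 < v 4 := e4 ▸ pow_pos p2 2
  have l4 : v 4 < 1 := e4 ▸ pow_lt_one₀ p2.le h2 two_ne_zero
  rw [map_mul] at h12
  have hV : 1 < v (e₁ - e₂) := by
    by_contra hn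
    exact absurd h12 (lt_of_le_of_lt (mul_le_of_le_one_right' (not_lt.mp hn)) l4).ne
  have h13 : v (e₁ - e₃) = v (e₁ - e₂) := by
    have e : e₁ - e₃ = e₁ - e₂ - (e₃ - e₂) := by ring
    rw [e]
    exact i1_eq v (by rw [Valuation.map_sub_swap v e₃, h23]; exact l4.trans hV)
  have pos : ∀ {e : F}, X ≠ e → 0 < v (X - e) := fun hn =>
    pos_iff_ne_zero.mpr ((Valuation.ne_zero_iff v).mpr (sub_ne_zero.mpr hn))
  have dle : ∀ {e : F}, D e = 0 → v (D X) ≤ v (X - e) := fun {e} he => by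
    have := hle (X - e)
    rwa [i1_sub D hadd, he, sub_zero] at this
  have hv := congrArg v h
  simp only [map_mul, map_pow] at hv
  have x2 : X - e₂ = X - e₁ - (e₂ - e₁) := by ring
  have x3 : X - e₃ = X - e₁ - (e₃ - e₁) := by ring
  have hA := i1_real (t := v 4) (V := v (e₁ - e₂)) (a₁ := v (X - e₁)) (a₂ := v (X - e₂))
    (a₃ := v (X - e₃)) (d := v (D X)) (p := v φ) p4 (by exact_mod_cast h12) (v (D X)).2
    (pos n1) (pos n2) (pos n3) (dle d1) (dle d2) (dle d3) (by exact_mod_cast hv)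
    (fun hc => by
      have hc' : v (X - e₁) < v (e₁ - e₂) := hc
      have y2 : X - e₂ = e₁ - e₂ - (e₁ - X) := by ring
      have y3 : X - e₃ = e₁ - e₃ - (e₁ - X) := by ring
      rw [Valuation.map_sub_swap] at hc'
      have k2 := i1_eq v hc'
      have k3 := i1_eq v (hc'.trans_eq h13.symm)
      rw [← y2] at k2
      rw [← y3, h13] at k3
      exact ⟨congrArg _ k2, congrArg _ k3⟩)
    (fun hc => by
      have hc' : v (e₁ - e₂) < v (X - e₁) := hc
      have k2 := i1_eq v ((Valuation.map_sub_swap v e₂ e₁).trans_lt hc')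
      have k3 := i1_eq v (((Valuation.map_sub_swap v e₃ e₁).trans h13).trans_lt hc')
      rw [← x2] at k2
      rw [← x3] at k3
      exact ⟨congrArg _ k2, congrArg _ k3⟩)
  refine ⟨hA.1, hA.2, ?_⟩
  rcases lt_or_ge (v (X - e₂)) (v (e₁ - e₂)) with hc | hc
  · have y1 : X - e₁ = e₂ - e₁ - (e₂ - X) := by ring
    have hc' : v (e₂ - X) < v (e₂ - e₁) := by
      rwa [Valuation.map_sub_swap, Valuation.map_sub_swap v e₂ e₁]
    rw [y1, i1_eq v hc', Valuation.map_sub_swap]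
    exact (dle d2).trans_lt hc
  by_cases hW : D X = 0
  · rw [hW, map_zero]
    exact pos n1
  have hφ : φ ≠ 0 := by
    rintro rfl
    exact hW (pow_eq_zero_iff two_ne_zero |>.mp (by rw [h]; ring))
  have hZ : X - e₂ ≠ 0 := sub_ne_zero.mpr n2
  have h20 : (2 : F) ≠ 0 := fun e => h0 (by rw [e, map_zero])
  obtain ⟨R, hR⟩ : ∃ R, D X = R * (φ * (X - e₂)) :=
    ⟨D X / (φ * (X - e₂)), (div_mul_cancel₀ _ (mul_ne_zero hφ hZ)).symm⟩
  have hR0 : R ≠ 0 := fun e => hW (by rw [hR, e, zero_mul])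
  have q1 : R * R * (X - e₂) = 4 * ((X - e₁) * (X - e₃)) := by
    refine mul_left_cancel₀ (mul_ne_zero (pow_ne_zero 2 hφ) hZ) ?_
    rw [hR] at h
    linear_combination h
  have q2 := congrArg D q1
  rw [i1_four D hadd, hmul, hmul, hmul, i1_sub D hadd, i1_sub D hadd, i1_sub D hadd, d1, d2, d3,
    hR] at q2
  have q3 : D R * (X - e₂) = 2 * φ * ((X - e₂) ^ 2 - (e₁ - e₂) * (e₃ - e₂)) := by
    refine mul_left_cancel₀ (mul_ne_zero h20 hR0) ?_
    linear_combination q2 - R * φ * q1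
  have hAB : v ((e₁ - e₂) * (e₃ - e₂)) < v ((X - e₂) ^ 2) := by
    rw [map_mul, Valuation.map_sub_swap v e₃, h23, mul_comm, h12, map_pow]
    exact one_lt_pow₀ (hV.trans_le hc) two_ne_zero
  have h32 : v (X - e₃) = v (X - e₂) := by
    have e : X - e₃ = X - e₂ - (e₃ - e₂) := by ring
    rw [e]
    exact i1_eq v (by rw [Valuation.map_sub_swap v e₃, h23]; exact (l4.trans hV).trans_le hc)
  have w1 := congrArg v q1
  have w3 := congrArg v q3
  rw [map_mul, map_mul, i1_eq v hAB, map_mul, map_pow, sq, ← mul_assoc] at w3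
  simp only [map_mul, h32] at w1
  rw [← mul_assoc] at w1
  have w4 := mul_right_cancel₀ (pos n2).ne' w1
  have w5 := mul_right_cancel₀ (pos n2).ne' w3
  have w6 : v 2 * (v φ * v (X - e₂)) ≤ v R := by rw [← mul_assoc, ← w5]; exact hle R
  have w7 : v 2 * v (D X) ≤ v 2 * (v 2 * v (X - e₁)) := by
    rw [← mul_assoc, ← sq, ← e4, ← w4, hR, map_mul, map_mul, mul_left_comm]
    exact mul_le_mul_right w6 _
  exact (le_of_mul_le_mul_left w7 p2).trans_lt (mul_lt_of_lt_one_left (pos n1) h2)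

theorem vdf_log {F : Type} [Field F] (v : Valuation F NNReal) (D : F → F)
    (hadd : ∀ x y, D (x + y) = D x + D y) (hmul : ∀ x y, D (x * y) = x * D y + D x * y)
    (hle : ∀ x, v (D x) ≤ v x) (h2 : v 2 < 1) {x y H : F} (hx : x ≠ 0) (hy : y ≠ 0)
    (h : H ^ 2 = x * y) (h1 : v (D y) < v y) : v (D x) < v x := by
  have px : 0 < v x := pos_iff_ne_zero.mpr ((Valuation.ne_zero_iff v).mpr hx)
  have py : 0 < v y := pos_iff_ne_zero.mpr ((Valuation.ne_zero_iff v).mpr hy)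
  have q := congrArg D h
  rw [sq, hmul, hmul] at q
  have e : D x * y = 2 * (H * D H) - x * D y := by linear_combination -q
  have hH : v H * v H = v x * v y := by rw [← map_mul, ← sq, h, map_mul]
  have h3 : v (D x * y) < v x * v y := by
    rw [e]
    refine Valuation.map_sub_lt v ?_ ?_
    · rw [map_mul, map_mul]
      refine lt_of_le_of_lt (mul_le_mul_right (mul_le_mul_right (hle H) _) _) ?_
      rw [hH]
      exact mul_lt_of_lt_one_left (mul_pos px py) h2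
    · rw [map_mul]
      exact mul_lt_mul_of_pos_left h1 px
  rw [map_mul] at h3
  exact lt_of_mul_lt_mul_right h3 py.le

end Pool.Agent.P.MP_20768c_nt.Az.Cu

end

-- part Cu.I2_p
section

set_option autoImplicit false

open Complex NumberField IsDedekindDomain Filter Topology
open UpperHalfPlane hiding I
open scoped ComplexConjugate Real MatrixGroups

namespace Pool.Agent.P.MP_20768c_nt.Az.Cu

open Pool.Agent.P.MP_20768c_nt.Az.EQ (Lt pr sp IsLat jL qN)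

variable {N : ℕ} {h h' : ℍ → ℂ}

theorem BQ.add (a : BQ N h) (b : BQ N h') : BQ N fun τ => h τ + h' τ := by
  obtain ⟨c, Λ, h1, h2, h3⟩ := a
  obtain ⟨d, Λ', k1, k2, k3⟩ := b
  exact ⟨fun n => c n + d n, Λ ⊔ Λ', h1.sup k1, fun n => Submodule.add_mem_sup (h2 n) (k2 n),
    fun τ => Pool.Agent.P.MP_20768c_nt.Az.EQ.iq2_congr ((h3 τ).add (k3 τ)) fun n => add_mul _ _ _⟩

theorem BQ.mul (hN : 0 < N) (a : BQ N h) (b : BQ N h') : BQ N fun τ => h τ * h' τ := by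
  obtain ⟨c, Λ, h1, h2, h3⟩ := a
  obtain ⟨d, Λ', k1, k2, k3⟩ := b
  exact ⟨_, Λ * Λ', h1.mul k1,
    fun n => sum_mem fun p _ => Submodule.mul_mem_mul (h2 p.1) (k2 p.2),
    fun τ => Pool.Agent.P.MP_20768c_nt.Az.EQ.vqs_cauchy (h3 τ) (k3 τ)⟩

theorem bq_const (N : ℕ) (c : ℂ) : BQ N fun _ => c := by
  refine ⟨fun n => if n = 0 then c else 0, Submodule.span ℤ {c}, Submodule.fg_span_singleton c,
    fun n => ?_, fun τ => ?_⟩
  · beta_reduce
    split_ifs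
    exacts [Submodule.mem_span_singleton_self c, zero_mem _]
  · simpa only [pow_zero, mul_one] using Pool.Agent.P.MP_20768c_nt.Az.EQ.vqs_single 0 c (qN N τ)

theorem BQ.smul (a : BQ N h) (c : ℂ) : BQ N fun τ => c * h τ := by
  obtain ⟨d, Λ, k1, k2, k3⟩ := a
  exact ⟨fun n => c * d n, Submodule.span ℤ {c} * Λ, (Submodule.fg_span_singleton c).mul k1,
    fun n => Submodule.mul_mem_mul (Submodule.mem_span_singleton_self c) (k2 n),
    fun τ => Pool.Agent.P.MP_20768c_nt.Az.EQ.iq2_congr ((k3 τ).mul_left c) fun n => mul_assoc _ _ _⟩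

theorem BQ.pow (hN : 0 < N) (a : BQ N h) (j : ℕ) : BQ N fun τ => h τ ^ j := by
  induction j with
  | zero => simpa only [pow_zero] using bq_const N 1
  | succ m ih => simpa only [pow_succ] using ih.mul hN a

theorem BQ.sum {ι : Type} (T : Finset ι) {g : ι → ℍ → ℂ} (a : ∀ i ∈ T, BQ N (g i)) :
    BQ N fun τ => ∑ i ∈ T, g i τ := by
  classical
  induction T using Finset.induction_on with
  | empty => simpa only [Finset.sum_empty] using bq_const N 0
  | insert i T hi ih =>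
    simpa only [Finset.sum_insert hi] using (a i (Finset.mem_insert_self _ _)).add
      (ih fun j hj => a j (Finset.mem_insert_of_mem hj))

theorem BQ.qs (a : BQ N h) : Pool.Agent.P.MP_20768c_nt.Az.EQ.QS N ⊤ h := by
  obtain ⟨c, -, -, -, h3⟩ := a
  exact ⟨c, fun _ => trivial, h3⟩

theorem BQ.level (hN : 0 < N) (a : BQ 1 h) : BQ N h := by
  obtain ⟨c, Λ, h1, h2, h3⟩ := a
  refine ⟨fun n => if N ∣ n then c (n / N) else 0, Λ, h1, fun n => ?_, fun τ =>
    Pool.Agent.P.MP_20768c_nt.Az.EQ.vqs_expand hN ?_⟩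
  · beta_reduce
    split_ifs
    exacts [h2 _, zero_mem _]
  · have h4 := Pool.Agent.P.MP_20768c_nt.Az.EQ.vqs_pow hN 1 τ
    rw [one_mul] at h4
    rw [h4]
    exact h3 τ

theorem BQ.one (hN : 0 < N) (a : BQ N h) (hp : ∀ τ : ℍ, h (ModularGroup.T • τ) = h τ) : BQ 1 h := by
  obtain ⟨c, Λ, hΛ, hc, hc'⟩ := a
  have e : ∀ τ : ℍ, qN N (ModularGroup.T • τ) = Pool.Agent.P.MP_20768c_nt.Az.EQ.zt N * qN N τ := fun τ => by
    rw [qN, qN, Pool.Agent.P.MP_20768c_nt.Az.EQ.zt, modular_T_smul, coe_vadd, ← Complex.exp_add]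
    congr 1
    push_cast
    ring
  have h1 := Pool.Agent.P.MP_20768c_nt.Az.EQ.vqs_unique hN (a := fun n => c n * Pool.Agent.P.MP_20768c_nt.Az.EQ.zt N ^ n) (fun τ => by
    have h := hc' (ModularGroup.T • τ)
    rw [hp, e] at h
    exact Pool.Agent.P.MP_20768c_nt.Az.EQ.iq2_congr h fun n => by rw [mul_pow, mul_assoc]) hc'
  have h2 : ∀ n, ¬ N ∣ n → c n = 0 := fun n hn => by
    by_contra h0
    exact hn (((Complex.isPrimitiveRoot_exp N hN.ne').pow_eq_one_iff_dvd n).1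
      (mul_right_eq_self₀.1 (congrFun h1 n) |>.resolve_right h0))
  have hi : Function.Injective fun m : ℕ => N * m := mul_right_injective₀ hN.ne'
  refine ⟨fun m => c (N * m), Λ, hΛ, fun m => hc _, fun τ => ?_⟩
  have h3 := (hi.hasSum_iff fun n hn => by
    rw [h2 n fun ⟨m, hm⟩ => hn ⟨m, hm.symm⟩, zero_mul]).2 (hc' τ)
  refine Pool.Agent.P.MP_20768c_nt.Az.EQ.iq2_congr h3 fun m => ?_
  have h4 := Pool.Agent.P.MP_20768c_nt.Az.EQ.vqs_pow hN 1 τ
  rw [one_mul] at h4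
  rw [Function.comp_apply, pow_mul, h4]

theorem bq_of_intQ (a : Pool.Agent.P.MP_20768c_nt.Az.EQ.IntQ h) : BQ 1 h := by
  obtain ⟨c, hc⟩ := a
  refine ⟨fun n => c n, Submodule.span ℤ {1}, Submodule.fg_span_singleton 1,
    fun n => Submodule.mem_span_singleton.2 ⟨c n, by simp⟩, fun τ => ?_⟩
  have e : qN 1 τ = Pool.Agent.P.MP_20768c_nt.Az.EQ.qq τ := by simp [qN, Pool.Agent.P.MP_20768c_nt.Az.EQ.qq]
  rw [e]
  exact hc τ

theorem BQ.analytic (hN : 0 < N) (a : BQ N h) (τ : ℍ) : AnalyticAt ℂ (h ∘ ofComplex) τ := by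
  obtain ⟨c, -, -, -, hc⟩ := a
  have h1 := (Pool.Agent.P.MP_20768c_nt.Az.EQ.iq2_diff fun q hq =>
    Pool.Agent.P.MP_20768c_nt.Az.EQ.iq2_summable (Pool.Agent.P.MP_20768c_nt.Az.EQ.vqs_tr hN hc) hq).analyticAt
    (Metric.isOpen_ball.mem_nhds (mem_ball_zero_iff.2 (Pool.Agent.P.MP_20768c_nt.Az.EQ.vqs_lt hN τ)))
  have h2 : AnalyticAt ℂ (fun z : ℂ => cexp (2 * π * I * z / N)) τ := by fun_prop
  refine (h1.comp (f := fun z : ℂ => cexp (2 * π * I * z / N)) h2).congr ?_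
  filter_upwards [isOpen_upperHalfPlaneSet.mem_nhds τ.im_pos] with z hz
  rw [Function.comp_apply, Function.comp_apply, ofComplex_apply_of_im_pos hz]
  exact (hc ⟨z, hz⟩).tsum_eq

theorem mem_BR : h ∈ BR ↔ BQ 1 h := by
  refine ⟨fun a => ?_, fun a => Subring.subset_closure a⟩
  induction a using Subring.closure_induction with
  | mem _ a => exact a
  | zero => exact bq_const 1 0
  | one => exact bq_const 1 1
  | add _ _ _ _ a b => exact a.add b
  | neg _ _ a =>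
    have := a.smul (-1)
    simp only [neg_one_mul] at this
    exact this
  | mul _ _ _ _ a b => exact a.mul one_pos b

end Pool.Agent.P.MP_20768c_nt.Az.Cu

end

-- part Cu.J4_p
section

set_option autoImplicit false

open Complex NumberField IsDedekindDomain Filter Topology
open UpperHalfPlane hiding I
open scoped ComplexConjugate Real MatrixGroups

namespace Pool.Agent.P.MP_20768c_nt.Az.Cu

open Pool.Agent.P.MP_20768c_nt.Az.EQ (Lt pr sp IsLat jL qN)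

variable {κ G H : Type} [Field κ]

theorem j4p_map {σ : G → H} (hσ : Function.Surjective σ) {A : Set (G → κ)} {B : Set (H → κ)}
    (h : A = (fun f => f ∘ σ) '' B) :
    Module.finrank κ (Submodule.span κ A) = Module.finrank κ (Submodule.span κ B) := by
  have e : Submodule.span κ A = (Submodule.span κ B).map (LinearMap.funLeft κ κ σ) := by
    rw [h, Submodule.map_span]
    rfl
  rw [e]
  exact (Submodule.equivMapOfInjective _ (LinearMap.funLeft_injective_of_surjective κ κ σ hσ)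
    _).finrank_eq.symm

theorem tk_comp [Group G] [Group H] (π' : G →* H) (hπ : Function.Surjective π') (β : H → κ) :
    tk (fun g => β (π' g)) = tk β := by
  refine j4p_map hπ (Set.ext fun f => ⟨?_, ?_⟩)
  · rintro ⟨h, rfl⟩
    exact ⟨_, ⟨π' h, rfl⟩, funext fun g => by simp⟩
  · rintro ⟨_, ⟨h, rfl⟩, rfl⟩
    obtain ⟨h, rfl⟩ := hπ h
    exact ⟨h, funext fun g => by simp⟩

theorem tk_inv [CommGroup H] (β : H → κ) (h₀ : H) : tk (fun b => β (h₀ * b⁻¹)) = tk β := by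
  refine j4p_map (σ := fun b => h₀ * b⁻¹) (fun b => ⟨b⁻¹ * h₀, by simp⟩)
    (Set.ext fun f => ⟨?_, ?_⟩)
  · rintro ⟨h, rfl⟩
    exact ⟨_, ⟨h⁻¹, rfl⟩, funext fun g => by simp only [Function.comp_apply, mul_inv, mul_assoc]⟩
  · rintro ⟨_, ⟨h, rfl⟩, rfl⟩
    exact ⟨h⁻¹, funext fun g => by simp only [Function.comp_apply, mul_inv, mul_assoc, inv_inv]⟩

/-- inflation twisted by a power of a character -/
def j4p_P [Group G] [Group H] (η : G →* κˣ) (π' : G →* H) (k : ℕ) : (H → κ) →ₗ[κ] (G → κ) where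
  toFun a g := (η g : κ) ^ k * a (π' g)
  map_add' a b := funext fun g => by simp only [Pi.add_apply, mul_add]
  map_smul' c a := funext fun g => by
    simp only [Pi.smul_apply, smul_eq_mul, RingHom.id_apply, mul_left_comm]

theorem tk_three [Group G] [Group H] [Finite H] (h2 : (2 : κ) = 0) (η : G →* κˣ) (π' : G →* H)
    (hπ : Function.Surjective π') (h3 : ∀ g, η g ^ 3 = 1) {g₀ : G} (h0 : π' g₀ = 1)
    (h1 : η g₀ ≠ 1) (β₀ β₁ β₂ : H → κ) : tk β₀ + tk β₁ + tk β₂ ≤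
      tk fun g => β₀ (π' g) + (η g : κ) ^ 2 * β₁ (π' g) + η g * β₂ (π' g) := by
  have c3 : ∀ g, (η g : κ) ^ 3 = 1 := fun g => by
    rw [← Units.val_pow_eq_pow_val, h3, Units.val_one]
  obtain ⟨ω, hω⟩ : ∃ ω : κ, ω = η g₀ := ⟨_, rfl⟩
  have w3 : ω ^ 3 = 1 := hω ▸ c3 g₀
  have w1 : ω - 1 ≠ 0 := sub_ne_zero.2 fun h => h1 (Units.ext (hω ▸ h))
  have w2 : ω ^ 2 + ω + 1 = 0 := mul_left_cancel₀ w1 (by linear_combination w3)
  let Ψ : (H → κ) × (H → κ) × (H → κ) →ₗ[κ] (G → κ) :=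
    (j4p_P η π' 0).coprod ((j4p_P η π' 2).coprod (j4p_P η π' 1))
  have hΨ : ∀ a b c g, Ψ (a, b, c) g = a (π' g) + (η g : κ) ^ 2 * b (π' g) + η g * c (π' g) := by
    intro a b c g
    change (η g : κ) ^ 0 * a (π' g) + ((η g : κ) ^ 2 * b (π' g) + (η g : κ) ^ 1 * c (π' g)) = _
    ring
  have inj : Function.Injective Ψ := by
    rw [injective_iff_map_eq_zero]
    rintro ⟨a, b, c⟩ h
    have key : ∀ x, a x = 0 ∧ b x = 0 ∧ c x = 0 := fun x => by
      obtain ⟨g, rfl⟩ := hπ x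
      have e0 := congrFun h g
      have e1 := congrFun h (g * g₀)
      have e2 := congrFun h (g * g₀ * g₀)
      simp only [hΨ, map_mul, h0, mul_one, Units.val_mul, ← hω, Pi.zero_apply] at e0 e1 e2
      have n : (η g : κ) ≠ 0 := Units.ne_zero _
      refine ⟨?_, mul_left_cancel₀ (pow_ne_zero 2 n) ?_, mul_left_cancel₀ n ?_⟩
      · linear_combination e0 + e1 + e2 - a (π' g) * h2 -
          ((η g : κ) ^ 2 * b (π' g) + η g * c (π' g)) * w2 - (η g : κ) ^ 2 * b (π' g) * ω * w3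
      · linear_combination e0 + ω * e1 + ω ^ 2 * e2 - (η g : κ) ^ 2 * b (π' g) * h2 -
          (a (π' g) + η g * c (π' g)) * w2 -
          ((η g : κ) ^ 2 * b (π' g) * (ω ^ 3 + 2) + η g * c (π' g) * ω) * w3
      · linear_combination e0 + ω ^ 2 * e1 + ω * e2 - η g * c (π' g) * h2 -
          (a (π' g) + (η g : κ) ^ 2 * b (π' g)) * w2 -
          ((η g : κ) ^ 2 * b (π' g) * (ω + ω ^ 2) + 2 * η g * c (π' g)) * w3
    exact Prod.ext (funext fun x => (key x).1)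
      (Prod.ext (funext fun x => (key x).2.1) (funext fun x => (key x).2.2))
  unfold tk
  set V := Submodule.span κ (Set.range fun (h g : G) =>
    β₀ (π' (g * h)) + (η (g * h) : κ) ^ 2 * β₁ (π' (g * h)) + η (g * h) * β₂ (π' (g * h))) with hV
  have hle : V ≤ LinearMap.range Ψ := by
    refine Submodule.span_le.2 ?_
    rintro _ ⟨h, rfl⟩
    refine ⟨(fun x => β₀ (x * π' h), fun x => (η h : κ) ^ 2 * β₁ (x * π' h),
      fun x => η h * β₂ (x * π' h)), funext fun g => ?_⟩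
    simp only [hΨ, map_mul, Units.val_mul]
    ring
  have fd : FiniteDimensional κ V := Submodule.finiteDimensional_of_le hle
  have mem : ∀ (h : G) (x y z : κ) (f : G → κ), (∀ g, f g = x * (β₀ (π' g * π' h) +
      (η g * η h : κ) ^ 2 * β₁ (π' g * π' h) + η g * η h * β₂ (π' g * π' h)) +
      y * (β₀ (π' g * π' h) + (η g * (η h * ω) : κ) ^ 2 * β₁ (π' g * π' h) +
        η g * (η h * ω) * β₂ (π' g * π' h)) +
      z * (β₀ (π' g * π' h) + (η g * (η h * ω * ω) : κ) ^ 2 * β₁ (π' g * π' h) +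
        η g * (η h * ω * ω) * β₂ (π' g * π' h))) → f ∈ V := by
    intro h x y z f hf
    have m : ∀ h : G, _ ∈ V := fun h => Submodule.subset_span ⟨h, rfl⟩
    convert add_mem (add_mem (V.smul_mem x (m h)) (V.smul_mem y (m (h * g₀))))
      (V.smul_mem z (m (h * g₀ * g₀))) using 1
    funext g
    simp only [hf, Pi.add_apply, Pi.smul_apply, smul_eq_mul, map_mul, h0, mul_one, Units.val_mul,
      ← hω]
  have m0 : Submodule.span κ (Set.range fun h g : H => β₀ (g * h)) ≤ V.comap (j4p_P η π' 0) := by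
    refine Submodule.span_le.2 ?_
    rintro _ ⟨h, rfl⟩
    obtain ⟨h, rfl⟩ := hπ h
    refine mem h 1 1 1 _ fun g => ?_
    change (η g : κ) ^ 0 * β₀ (π' g * π' h) = _
    linear_combination (-β₀ (π' g * π' h)) * h2 - ((η g * η h : κ) ^ 2 * β₁ (π' g * π' h) +
      η g * η h * β₂ (π' g * π' h)) * w2 - (η g * η h : κ) ^ 2 * β₁ (π' g * π' h) * ω * w3
  have m1 : Submodule.span κ (Set.range fun h g : H => β₁ (g * h)) ≤ V.comap (j4p_P η π' 2) := by
    refine Submodule.span_le.2 ?_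
    rintro _ ⟨h, rfl⟩
    obtain ⟨h, rfl⟩ := hπ h
    refine mem h (η h) (η h * ω) (η h * ω ^ 2) _ fun g => ?_
    change (η g : κ) ^ 2 * β₁ (π' g * π' h) = _
    linear_combination (-(η g : κ) ^ 2 * β₁ (π' g * π' h)) * h2 -
      η h * (β₀ (π' g * π' h) + η g * η h * β₂ (π' g * π' h)) * w2 -
      η h * ((η g * η h : κ) ^ 2 * β₁ (π' g * π' h) * (ω ^ 3 + 2) +
        η g * η h * β₂ (π' g * π' h) * ω) * w3 - 3 * (η g : κ) ^ 2 * β₁ (π' g * π' h) * c3 h
  have m2 : Submodule.span κ (Set.range fun h g : H => β₂ (g * h)) ≤ V.comap (j4p_P η π' 1) := by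
    refine Submodule.span_le.2 ?_
    rintro _ ⟨h, rfl⟩
    obtain ⟨h, rfl⟩ := hπ h
    refine mem h (η h ^ 2) (η h ^ 2 * ω ^ 2) (η h ^ 2 * ω) _ fun g => ?_
    change (η g : κ) ^ 1 * β₂ (π' g * π' h) = _
    linear_combination (-(η g : κ) * β₂ (π' g * π' h)) * h2 -
      (η h : κ) ^ 2 * (β₀ (π' g * π' h) + (η g * η h : κ) ^ 2 * β₁ (π' g * π' h)) * w2 -
      (η h : κ) ^ 2 * ((η g * η h : κ) ^ 2 * β₁ (π' g * π' h) * (ω + ω ^ 2) +
        2 * (η g * η h) * β₂ (π' g * π' h)) * w3 - 3 * (η g : κ) * β₂ (π' g * π' h) * c3 h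
  rw [add_assoc, ← Module.finrank_prod, ← Module.finrank_prod]
  refine LinearMap.finrank_le_finrank_of_injective (f := LinearMap.codRestrict V
    (Ψ ∘ₗ (Submodule.subtype _).prodMap ((Submodule.subtype _).prodMap (Submodule.subtype _)))
    fun x => add_mem (m0 x.1.2) (add_mem (m1 x.2.1.2) (m2 x.2.2.2))) ?_
  intro x y h
  have h' := inj (congrArg Subtype.val h)
  exact Prod.ext (Subtype.ext (congrArg Prod.fst h'))
    (Prod.ext (Subtype.ext (congrArg (fun p => p.2.1) h'))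
      (Subtype.ext (congrArg (fun p => p.2.2) h')))

end Pool.Agent.P.MP_20768c_nt.Az.Cu

end

-- part Cu.N0
section

set_option autoImplicit false

open Complex NumberField IsDedekindDomain Filter Topology
open UpperHalfPlane hiding I
open scoped ComplexConjugate Real MatrixGroups

namespace Pool.Agent.P.MP_20768c_nt.Az.Cu

open Pool.Agent.P.MP_20768c_nt.Az.EQ (Lt pr sp IsLat jL qN)

variable {n : ℕ}

theorem zt_prim (n : ℕ) : IsPrimitiveRoot (zt n) (2 ^ n) := by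
  have := Complex.isPrimitiveRoot_exp (2 ^ n) (by positivity)
  push_cast at this
  exact this

theorem zt_ne (n : ℕ) : zt n ≠ 0 := by
  exact Complex.exp_ne_zero _

theorem zt_sq (n : ℕ) : zt (n + 1) ^ 2 = zt n := by
  rw [zt, zt, ← Complex.exp_nat_mul]
  congr 1
  push_cast
  field_simp
  ring

theorem zt_pow_two (n j : ℕ) : zt (n + j) ^ 2 ^ j = zt n := by
  induction j with
  | zero => simp
  | succ j ih => rw [pow_succ', pow_mul, ← add_assoc, zt_sq, ih]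

theorem n0_one : zt 1 = -1 := by
  rw [zt, ← Complex.exp_pi_mul_I]
  congr 1
  ring

theorem zt_half (hn : 1 ≤ n) : zt n ^ 2 ^ (n - 1) = -1 := by
  obtain ⟨j, rfl⟩ := Nat.exists_eq_add_of_le hn
  rw [Nat.add_sub_cancel_left, zt_pow_two, n0_one]

theorem zt_one : zt 1 = -1 := by
  exact n0_one

theorem zt_int (n : ℕ) : IsIntegral ℤ (zt n) := by
  exact (zt_prim n).isIntegral (by positivity)

theorem zt_alg (n : ℕ) : IsAlgebraic ℚ (zt n) := by
  exact ((zt_int n).tower_top (A := ℚ)).isAlgebraic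

theorem zt_zpow (n : ℕ) (a : ℤ) : zt n ^ a = cexp (2 * π * I * a / 2 ^ n) := by
  rw [zt, ← Complex.exp_int_mul]
  congr 1
  ring

theorem zt_congr {a b : ℤ} : zt n ^ a = zt n ^ b ↔ (a : ZMod (2 ^ n)) = b := by
  rw [ZMod.intCast_eq_intCast_iff_dvd_sub, ← (zt_prim n).zpow_eq_one_iff_dvd,
    zpow_sub₀ (zt_ne n), div_eq_one_iff_eq (zpow_ne_zero _ (zt_ne n)), eq_comm]

theorem zt_val {a : ℤ} {b : ZMod (2 ^ n)} (h : (a : ZMod (2 ^ n)) = b) : zt n ^ b.val = zt n ^ a := by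
  rw [← zpow_natCast, zt_congr, h, Int.cast_natCast, ZMod.natCast_zmod_val]

theorem root_zt {x : ℂ} (h : x ^ 2 ^ n = 1) : ∃ a : ℕ, x = zt n ^ a := by
  obtain ⟨a, -, e⟩ := (zt_prim n).eq_pow_of_pow_eq_one h
  exact ⟨a, e.symm⟩

theorem hom_zt (σ : ℂ →+* ℂ) (n : ℕ) :
    ∃ b : (ZMod (2 ^ n))ˣ, σ (zt n) = zt n ^ (b : ZMod (2 ^ n)).val := by
  have h := (zt_prim n).map_of_injective σ.injective
  obtain ⟨a, e⟩ := root_zt h.pow_eq_one
  rw [e, (zt_prim n).pow_iff_coprime (by positivity)] at h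
  refine ⟨ZMod.unitOfCoprime a h, ?_⟩
  rw [e, zt_val (a := a) (by simp), zpow_natCast]

theorem tau_val (hn : 2 ≤ n) : (tau n : ZMod (2 ^ n)) = 2 ^ (n - 1) + 1 := by
  have h : Nat.Coprime (2 ^ (n - 1) + 1) (2 ^ n) := by
    refine Nat.Coprime.pow_right _ (Nat.coprime_two_right.2 (Even.add_one ?_))
    exact (Nat.even_pow.2 ⟨even_two, by omega⟩)
  rw [tau, dif_pos h, ZMod.coe_unitOfCoprime]
  push_cast
  rfl

theorem zt_tau (hn : 2 ≤ n) : zt n ^ (tau n : ZMod (2 ^ n)).val = -zt n := by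
  rw [zt_val (a := ((2 ^ (n - 1) + 1 : ℕ) : ℤ)) (by rw [tau_val hn]; push_cast; rfl), zpow_natCast,
    pow_succ, zt_half (by omega), neg_one_mul]

theorem card_units (hn : 1 ≤ n) : Nat.card (ZMod (2 ^ n))ˣ = 2 ^ (n - 1) := by
  rw [Nat.card_eq_fintype_card, ZMod.card_units_eq_totient,
    Nat.totient_prime_pow Nat.prime_two hn]
  exact mul_one _

theorem unit_odd (hn : 1 ≤ n) {a : ℤ} : IsUnit (a : ZMod (2 ^ n)) ↔ Odd a := by
  rw [ZMod.coe_int_isUnit_iff_isCoprime]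
  push_cast
  rw [IsCoprime.pow_left_iff hn, Int.isCoprime_two_left]

theorem n0_odd (hn : 1 ≤ n) {c : ZMod (2 ^ n)} : IsUnit c ↔ Odd c.val := by
  rw [← Int.odd_coe_nat, ← unit_odd hn, Int.cast_natCast, ZMod.natCast_zmod_val]

theorem n0_shift (hn : 1 ≤ n) {x : ℂ} (h : x ^ 2 ^ n = 1) (h2 : x ^ 2 ≠ 1) :
    ∑ b : (ZMod (2 ^ n))ˣ, x ^ (b : ZMod (2 ^ n)).val = 0 := by
  classical
  have e1 : ∑ b : (ZMod (2 ^ n))ˣ, x ^ (b : ZMod (2 ^ n)).val =
      ∑ c ∈ Finset.univ.filter IsUnit, x ^ (c : ZMod (2 ^ n)).val :=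
    Finset.sum_bij (fun b _ => b.1) (fun b _ => by simp) (fun _ _ _ _ e => Units.ext e)
      (fun c hc => by
        obtain ⟨b, rfl⟩ := (Finset.mem_filter.1 hc).2
        exact ⟨b, Finset.mem_univ _, rfl⟩) fun _ _ => rfl
  have e0 : ∀ c : ZMod (2 ^ n), c + 2 = ((c.val + 2 : ℕ) : ZMod (2 ^ n)) := fun c => by
    push_cast
    rw [ZMod.natCast_zmod_val]
  have e2 : ∑ c ∈ Finset.univ.filter IsUnit, x ^ (c : ZMod (2 ^ n)).val * x ^ 2 =
      ∑ c ∈ Finset.univ.filter IsUnit, x ^ (c : ZMod (2 ^ n)).val := by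
    refine Finset.sum_equiv (Equiv.addRight 2) (fun c => ?_) fun c _ => ?_
    · simp only [Finset.mem_filter, Finset.mem_univ, true_and, Equiv.coe_addRight]
      rw [e0, ← Int.cast_natCast, unit_odd hn, n0_odd hn, Int.odd_coe_nat, Nat.odd_add]
      simp
    · change _ = x ^ (c + 2).val
      rw [e0, ZMod.val_natCast, ← pow_eq_pow_mod _ h, pow_add]
  rw [← Finset.sum_mul, ← e1] at e2
  by_contra h0
  exact h2 (mul_left_cancel₀ h0 (e2.trans (mul_one _).symm))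

theorem sum_zt (hn : 1 ≤ n) (a : ℤ) : ∃ e : ℤ,
    ∑ b : (ZMod (2 ^ n))ˣ, (zt n ^ (b : ZMod (2 ^ n)).val) ^ a = 2 ^ (n - 1) * e := by
  have e : ∀ m : ℕ, (zt n ^ m) ^ a = (zt n ^ a) ^ m := fun m => by
    rw [← zpow_natCast, ← zpow_natCast, ← zpow_mul, ← zpow_mul, mul_comm]
  simp only [e]
  have h1 : (zt n ^ a) ^ 2 ^ n = 1 := by rw [← e, zt_pow, one_zpow]
  generalize zt n ^ a = x at *
  have hc := card_units hn
  rw [Nat.card_eq_fintype_card] at hc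
  by_cases h : x ^ 2 = 1
  · rcases sq_eq_one_iff.1 h with rfl | rfl
    · exact ⟨1, by simp [hc]⟩
    · refine ⟨-1, ?_⟩
      rw [Finset.sum_congr rfl fun b _ => ((n0_odd hn).1 b.isUnit).neg_one_pow]
      simp [hc]
  · exact ⟨0, by rw [n0_shift hn h1 h]; simp⟩

theorem sum_zt_zero (hn : 2 ≤ n) : ∑ b : (ZMod (2 ^ n))ˣ, (zt n ^ (b : ZMod (2 ^ n)).val)⁻¹ = 0 := by
  simp only [← inv_pow]
  refine n0_shift (by omega) (by rw [inv_pow, zt_pow, inv_one]) fun h => ?_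
  rw [inv_pow, inv_eq_one, (zt_prim n).pow_eq_one_iff_dvd] at h
  have h1 := Nat.le_of_dvd two_pos h
  have h2 := Nat.pow_le_pow_right two_pos hn
  omega

theorem sq_step {u : ℤ} {e : ℕ} (he : 2 ≤ e) (hu : u ≡ 1 + 2 ^ e [ZMOD 2 ^ (e + 1)]) (i : ℕ) :
    u ^ 2 ^ i ≡ 1 + 2 ^ (e + i) [ZMOD 2 ^ (e + i + 1)] := by
  induction i with
  | zero => simpa using hu
  | succ i ih =>
    obtain ⟨g, rfl⟩ := Nat.exists_eq_add_of_le he
    obtain ⟨k, hk⟩ := ih.symm.dvd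
    refine (Int.modEq_iff_dvd.2 ⟨k + 2 ^ (g + i) * (1 + 2 * k) ^ 2, ?_⟩).symm
    rw [pow_succ 2 i, pow_mul, sub_eq_iff_eq_add.1 hk]
    ring

theorem gen_pow {u a : ℤ} {e : ℕ} (he : 2 ≤ e) (hu : u ≡ 1 + 2 ^ e [ZMOD 2 ^ (e + 1)])
    (ha : a ≡ 1 [ZMOD 2 ^ e]) (j : ℕ) : ∃ i : ℕ, i < 2 ^ j ∧ a ≡ u ^ i [ZMOD 2 ^ (e + j)] := by
  induction j with
  | zero => exact ⟨0, by simp, by simpa using ha⟩
  | succ j ih =>
    obtain ⟨i, hi, h⟩ := ih
    obtain ⟨k, hk⟩ := h.dvd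
    rcases Int.even_or_odd' k with ⟨m, rfl | rfl⟩
    · exact ⟨i, by rw [pow_succ]; omega, Int.modEq_iff_dvd.2 ⟨m, by rw [hk]; ring⟩⟩
    · obtain ⟨l, hl⟩ := (sq_step he hu j).symm.dvd
      have ho : Odd u := by
        obtain ⟨g, rfl⟩ := Nat.exists_eq_add_of_le he
        obtain ⟨l, hl⟩ := hu.symm.dvd
        exact ⟨2 ^ (g + 1) + 2 ^ (g + 2) * l, by rw [sub_eq_iff_eq_add.1 hl]; ring⟩
      obtain ⟨w, hw⟩ := ho.pow (n := i)
      refine ⟨i + 2 ^ j, by rw [pow_succ]; omega,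
        Int.modEq_iff_dvd.2 ⟨m + w + 1 + l * (2 * w + 1), ?_⟩⟩
      rw [pow_add, sub_eq_iff_eq_add.1 hl]
      rw [hw] at hk ⊢
      linear_combination hk

theorem exists_exp {u : ℤ} (h : u ≡ 1 [ZMOD 4]) (h1 : u ≠ 1) :
    ∃ e : ℕ, 2 ≤ e ∧ u ≡ 1 + 2 ^ e [ZMOD 2 ^ (e + 1)] := by
  obtain ⟨k, hk⟩ := h.symm.dvd
  have h0 : k ≠ 0 := fun e => h1 (by rw [e] at hk; omega)
  obtain ⟨e, a, ha, rfl⟩ := WfDvdMonoid.max_power_factor h0 Int.prime_two.irreducible
  obtain ⟨m, rfl⟩ : Odd a := Int.not_even_iff_odd.1 fun h => ha h.two_dvd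
  exact ⟨e + 2, by omega, (Int.modEq_iff_dvd.2 ⟨m, by linear_combination hk⟩).symm⟩

theorem n0_two {F Γ : Type} [Field F] [LinearOrderedCommGroupWithZero Γ] (v : Valuation F Γ) :
    v 2 ≤ 1 := by
  rw [← one_add_one_eq_two]
  exact v.map_add_le v.map_one.le v.map_one.le

theorem n0_root {Γ : Type} [LinearOrderedCommGroupWithZero Γ] (v : Valuation ℂ Γ) (j : ℕ) :
    ∀ y : ℂ, y ^ 2 ^ j = -1 → v (1 - y) ^ 2 ^ j = v 2 := by
  induction j with
  | zero =>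
    intro y h
    rw [pow_zero, pow_one] at h ⊢
    rw [h]
    norm_num
  | succ j ih =>
    intro y h
    have h1 := ih (y ^ 2) (by rw [← pow_mul, ← pow_succ', h])
    have e : 1 - y ^ 2 = (1 - y) * (1 + y) := by ring
    rw [e, map_mul] at h1
    have h2 : v (1 - y) * v (1 + y) ≤ 1 :=
      (pow_le_one_iff (pow_ne_zero j two_ne_zero)).1 (h1 ▸ n0_two v)
    have h3 : v 2 ≤ v (1 - y) * v (1 + y) :=
      h1 ▸ pow_le_of_le_one zero_le h2 (pow_ne_zero j two_ne_zero)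
    have h4 : v (1 - y) = v (1 + y) := by
      by_contra h5
      have h6 := v.map_add_of_distinct_val h5
      rw [show 1 - y + (1 + y) = 2 by ring] at h6
      rcases lt_or_gt_of_ne h5 with h7 | h7
      · rw [max_eq_right h7.le] at h6
        rw [← h6] at h3 h7
        exact absurd ((h3.trans (mul_le_of_le_one_right' (n0_two v))).trans_lt h7) (lt_irrefl _)
      · rw [max_eq_left h7.le] at h6
        rw [← h6] at h3 h7
        exact absurd ((h3.trans (mul_le_of_le_one_left' (n0_two v))).trans_lt h7) (lt_irrefl _)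
    rw [← h1, ← h4, pow_succ', pow_mul, pow_two]

theorem v_one_sub {Γ : Type} [LinearOrderedCommGroupWithZero Γ] (v : Valuation ℂ Γ) (hn : 1 ≤ n)
    {b : ℕ} (hb : Odd b) : v (1 - zt n ^ b) ^ 2 ^ (n - 1) = v 2 := by
  refine n0_root v _ _ ?_
  rw [← pow_mul, mul_comm, pow_mul, zt_half hn, hb.neg_one_pow]

theorem val_root {F Γ : Type} [Field F] [LinearOrderedCommGroupWithZero Γ] (v : Valuation F Γ)
    (h0 : v 2 ≠ 0) {a b : F} (ha : v a ≤ 1) (hb : v b ≤ 1) (j : ℕ)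
    (h : v (a ^ 2 ^ j - b ^ 2 ^ j) = v 2) : v 2 ≤ v (a - b) ^ 2 ^ j := by
  induction j generalizing a b with
  | zero => simpa using h.ge
  | succ j ih =>
    have h1 := ih (a := a ^ 2) (b := b ^ 2) (by rw [map_pow]; exact pow_le_one' ha 2)
      (by rw [map_pow]; exact pow_le_one' hb 2) (by rwa [← pow_mul, ← pow_mul, ← pow_succ'])
    have e : a ^ 2 - b ^ 2 = (a - b) * (a + b) := by ring
    rw [e, map_mul] at h1
    rcases le_or_gt (v (a + b)) (v (a - b)) with h2 | h2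
    · rw [pow_succ', pow_mul, pow_two]
      exact h1.trans (pow_le_pow_left' (mul_le_mul' le_rfl h2) _)
    · have h3 := v.map_sub_eq_of_lt_left h2
      rw [show a + b - (a - b) = 2 * b by ring, map_mul] at h3
      have h4 : v (a + b) ≤ v 2 := h3 ▸ mul_le_of_le_one_right' hb
      have h5 := v.map_add_le ha hb
      have h6 := mul_le_of_le_one_right' (a := v (a - b)) h5
      have h7 := h1.trans (pow_le_of_le_one zero_le (h6.trans (h2.le.trans h5))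
        (pow_ne_zero j two_ne_zero))
      exact absurd ((h7.trans h6).trans_lt (h2.trans_le h4)) (lt_irrefl _)

end Pool.Agent.P.MP_20768c_nt.Az.Cu

end

-- part Cu.I2
section

set_option autoImplicit false

open Complex NumberField IsDedekindDomain Filter Topology
open UpperHalfPlane hiding I
open scoped ComplexConjugate Real MatrixGroups

namespace Pool.Agent.P.MP_20768c_nt.Az.Cu

open Pool.Agent.P.MP_20768c_nt.Az.EQ (Lt pr sp IsLat jL qN)

variable {N : ℕ} {h h' : ℍ → ℂ}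

/-- `w` is the largest value of `v` on the sequence `a` -/
def i2_Mx (v : Valuation ℂ NNReal) (a : ℕ → ℂ) (w : NNReal) : Prop :=
  (∀ n, v (a n) ≤ w) ∧ ∃ n, w = v (a n)

theorem i2_Mx.unique {v : Valuation ℂ NNReal} {a : ℕ → ℂ} {w w' : NNReal} (p : i2_Mx v a w)
    (q : i2_Mx v a w') : w = w' := by
  obtain ⟨p1, n, p2⟩ := p
  obtain ⟨q1, m, q2⟩ := q
  exact le_antisymm (p2 ▸ q1 n) (q2 ▸ p1 m)

theorem i2_Mx.least {v : Valuation ℂ NNReal} {a : ℕ → ℂ} {w : NNReal} (p : i2_Mx v a w) :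
    ∃ i, v (a i) = w ∧ ∀ n < i, v (a n) < w := by
  classical
  exact ⟨Nat.find p.2, (Nat.find_spec p.2).symm, fun n hn =>
    lt_of_le_of_ne (p.1 n) fun e => Nat.find_min p.2 hn e.symm⟩

theorem i2_Mx.mul {v : Valuation ℂ NNReal} {a b : ℕ → ℂ} {w w' : NNReal} (p : i2_Mx v a w)
    (q : i2_Mx v b w') :
    i2_Mx v (fun n => ∑ x ∈ Finset.HasAntidiagonal.antidiagonal n, a x.1 * b x.2) (w * w') := by
  have hle : ∀ n, v (∑ x ∈ Finset.HasAntidiagonal.antidiagonal n, a x.1 * b x.2) ≤ w * w' :=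
    fun n => v.map_sum_le fun x _ => by
      rw [map_mul]
      exact mul_le_mul' (p.1 _) (q.1 _)
  refine ⟨hle, ?_⟩
  rcases eq_or_ne (w * w') 0 with h0 | h0
  · exact ⟨0, le_antisymm (h0 ▸ zero_le) (hle 0)⟩
  obtain ⟨i, hi, hi'⟩ := p.least
  obtain ⟨j, hj, hj'⟩ := q.least
  have hw : 0 < w := pos_iff_ne_zero.2 (left_ne_zero_of_mul h0)
  have hw' : 0 < w' := pos_iff_ne_zero.2 (right_ne_zero_of_mul h0)
  refine ⟨i + j, ?_⟩
  have e := v.map_sum_eq_of_lt (s := Finset.HasAntidiagonal.antidiagonal (i + j))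
    (f := fun x : ℕ × ℕ => a x.1 * b x.2) (j := (i, j)) (by simp) fun x hx => by
      rw [Finset.mem_sdiff, Finset.HasAntidiagonal.mem_antidiagonal, Finset.mem_singleton] at hx
      rw [map_mul, map_mul, hi, hj]
      rcases lt_or_ge x.1 i with h1 | h1
      · exact mul_lt_mul_of_lt_of_le_of_nonneg_of_pos (hi' _ h1) (q.1 _) zero_le hw'
      · have h2 : x.2 < j := by
          by_contra h3
          exact hx.2 (Prod.ext (by omega) (by omega))
        exact mul_lt_mul_of_le_of_lt_of_nonneg_of_pos (p.1 _) (hj' _ h2) zero_le hw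
  rw [e, map_mul, hi, hj]

theorem i2_mx (ι : ℂ →+* ℂ_[2]) {a : ℕ → ℂ} {Λ : Submodule ℤ ℂ} (hΛ : Λ.FG) (ha : ∀ n, a n ∈ Λ) :
    ∃ w, i2_Mx ((NormedField.valuation (K := ℂ_[2])).comap ι) a w := by
  obtain ⟨_, ⟨n, rfl⟩, hn⟩ := fg_max (hΛ.map ι.toAddMonoidHom.toIntLinearMap)
    (T := Set.range fun n => ι (a n)) (by
      rintro _ ⟨n, rfl⟩
      exact ⟨a n, ha n, rfl⟩) (Set.range_nonempty _)
  exact ⟨_, fun m => hn _ ⟨m, rfl⟩, n, rfl⟩

noncomputable section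

def i2_co (x : BR) : ℕ → ℂ := (mem_BR.1 x.2).choose

theorem i2_sum (x : BR) (τ : ℍ) : HasSum (fun n => i2_co x n * qN 1 τ ^ n) (x.1 τ) :=
  (mem_BR.1 x.2).choose_spec.choose_spec.2.2 τ

theorem i2_fg (x : BR) : ∃ Λ : Submodule ℤ ℂ, Λ.FG ∧ ∀ n, i2_co x n ∈ Λ :=
  ⟨_, (mem_BR.1 x.2).choose_spec.choose_spec.1, (mem_BR.1 x.2).choose_spec.choose_spec.2.1⟩

theorem i2_eq (x : BR) {a : ℕ → ℂ} (ha : ∀ τ : ℍ, HasSum (fun n => a n * qN 1 τ ^ n) (x.1 τ)) :
    i2_co x = a :=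
  Pool.Agent.P.MP_20768c_nt.Az.EQ.vqs_unique one_pos (i2_sum x) ha

theorem i2_add (x y : BR) : i2_co (x + y) = fun n => i2_co x n + i2_co y n :=
  i2_eq _ fun τ => by simpa only [add_mul] using! (i2_sum x τ).add (i2_sum y τ)

theorem i2_mul (x y : BR) : i2_co (x * y) =
    fun n => ∑ p ∈ Finset.HasAntidiagonal.antidiagonal n, i2_co x p.1 * i2_co y p.2 :=
  i2_eq _ fun τ => Pool.Agent.P.MP_20768c_nt.Az.EQ.vqs_cauchy (i2_sum x τ) (i2_sum y τ)

theorem i2_zero : i2_co 0 = fun _ => 0 :=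
  i2_eq _ fun τ => by simp

theorem i2_one : i2_co 1 = fun n => if n = 0 then 1 else 0 :=
  i2_eq _ fun τ => by simpa using Pool.Agent.P.MP_20768c_nt.Az.EQ.vqs_single 0 1 (qN 1 τ)

def i2_w (ι : ℂ →+* ℂ_[2]) (x : BR) : NNReal :=
  (i2_mx ι (i2_fg x).choose_spec.1 (i2_fg x).choose_spec.2).choose

theorem i2_w_spec (ι : ℂ →+* ℂ_[2]) (x : BR) :
    i2_Mx ((NormedField.valuation (K := ℂ_[2])).comap ι) (i2_co x) (i2_w ι x) :=
  (i2_mx ι (i2_fg x).choose_spec.1 (i2_fg x).choose_spec.2).choose_spec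

/-- the Gauss valuation -/
def i2_W (ι : ℂ →+* ℂ_[2]) : Valuation BR NNReal where
  toFun := i2_w ι
  map_zero' := (i2_w_spec ι 0).unique (by
    rw [i2_zero]
    exact ⟨fun _ => (map_zero _).le, 0, (map_zero _).symm⟩)
  map_one' := (i2_w_spec ι 1).unique (by
    rw [i2_one]
    refine ⟨fun n => ?_, 0, by simp⟩
    beta_reduce
    split_ifs <;> simp)
  map_mul' x y := (i2_w_spec ι (x * y)).unique (by
    rw [i2_mul]
    exact (i2_w_spec ι x).mul (i2_w_spec ι y))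
  map_add_le_max' x y := by
    obtain ⟨n, hn⟩ := (i2_w_spec ι (x + y)).2
    refine hn.le.trans ?_
    rw [i2_add]
    exact (Valuation.map_add _ _ _).trans
      (max_le_max ((i2_w_spec ι x).1 n) ((i2_w_spec ι y).1 n))

theorem i2_W_eq (ι : ℂ →+* ℂ_[2]) {x : BR} (hx : i2_W ι x = 0) : x = 0 := by
  have h1 : ∀ n, i2_co x n = 0 := fun n => by
    have h2 := ((i2_w_spec ι x).1 n).trans (le_of_eq hx)
    exact (Valuation.zero_iff _).1 (le_antisymm h2 zero_le)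
  refine Subtype.ext (funext fun τ => (i2_sum x τ).unique ?_)
  simp [h1]

theorem i2_dom (ι : ℂ →+* ℂ_[2]) : IsDomain BR := by
  have : Nontrivial BR := ⟨0, 1, fun e => by simpa using congrArg (i2_W ι) e⟩
  have : NoZeroDivisors BR := ⟨fun {x y} e => by
    have h1 := congrArg (i2_W ι) e
    rw [map_mul, map_zero, mul_eq_zero] at h1
    exact h1.imp (i2_W_eq ι) (i2_W_eq ι)⟩
  exact NoZeroDivisors.to_isDomain _

theorem i2_der (x : BR) (τ : ℍ) : HasSum (fun n : ℕ => (n * i2_co x n) * qN 1 τ ^ n)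
    (deriv (x.1 ∘ ofComplex) τ / (2 * π * I)) := by
  have hq : ∀ σ : ℍ, qN 1 σ = cexp (2 * π * I * σ) := fun σ => by simp [qN]
  have hn : ∀ w : ℂ, ‖cexp (2 * π * I * w)‖ = Real.exp (-(2 * π * w.im)) := fun w => by
    rw [Complex.norm_exp]
    simp
  have hp : 0 < (τ : ℂ).im := τ.im_pos
  let σ : ℍ := ⟨τ / 2, by simpa using hp⟩
  have hσ : (σ : ℂ).im = (τ : ℂ).im / 2 := by simp [σ]
  have hU : IsOpen {w : ℂ | (τ : ℂ).im / 2 < w.im} := isOpen_lt continuous_const Complex.continuous_im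
  have hτ : (τ : ℂ) ∈ {w : ℂ | (τ : ℂ).im / 2 < w.im} := half_lt_self hp
  have h1 := Complex.hasSum_deriv_of_summable_norm
    (F := fun n w => i2_co x n * cexp (2 * π * I * w) ^ n) (i2_sum x σ).summable.norm
    (fun n => by fun_prop) hU (fun n w hw => by
      rw [norm_mul, norm_mul, norm_pow, norm_pow, hq, hn, hn, hσ]
      have hw' : (τ : ℂ).im / 2 < w.im := hw
      gcongr) hτ
  have h2 : (fun w : ℂ => ∑' n, i2_co x n * cexp (2 * π * I * w) ^ n) =ᶠ[𝓝 (τ : ℂ)]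
      x.1 ∘ ofComplex := by
    filter_upwards [hU.mem_nhds hτ] with w hw
    have hw' : 0 < w.im := (half_pos hp).trans hw
    rw [Function.comp_apply, ofComplex_apply_of_im_pos hw', ← (i2_sum x ⟨w, hw'⟩).tsum_eq, hq]
  rw [h2.deriv_eq] at h1
  refine Pool.Agent.P.MP_20768c_nt.Az.EQ.iq2_congr (h1.div_const (2 * π * I)) fun n => ?_
  have h3 : HasDerivAt (fun w : ℂ => i2_co x n * cexp (n * (2 * π * I * w)))
      (i2_co x n * (cexp (n * (2 * π * I * τ)) * (n * (2 * π * I * 1)))) τ :=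
    ((((hasDerivAt_id (τ : ℂ)).const_mul _).const_mul _).cexp).const_mul _
  simp only [Complex.exp_nat_mul] at h3
  rw [h3.deriv, hq, eq_div_iff Complex.two_pi_I_ne_zero]
  ring

def i2_d (x : BR) : BR :=
  ⟨fun τ => deriv (x.1 ∘ ofComplex) τ / (2 * π * I), mem_BR.2 ⟨fun n => n * i2_co x n, _,
    (i2_fg x).choose_spec.1, fun n => by
      beta_reduce
      rw [← nsmul_eq_mul]
      exact nsmul_mem ((i2_fg x).choose_spec.2 n) n, i2_der x⟩⟩

theorem i2_d_le (ι : ℂ →+* ℂ_[2]) (x : BR) : i2_W ι (i2_d x) ≤ i2_W ι x := by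
  obtain ⟨n, hn⟩ := (i2_w_spec ι (i2_d x)).2
  refine hn.le.trans ?_
  rw [i2_eq (i2_d x) (i2_der x), map_mul]
  refine mul_le_of_le_one_left' ?_ |>.trans ((i2_w_spec ι x).1 n)
  rw [Valuation.comap_apply, map_natCast]
  exact IsUltrametricDist.nnnorm_natCast_le_one _ n

def i2_g (z : ℂ) : BR →+* Filter.Germ (𝓝[≠] z) ℂ :=
  (Filter.Germ.coeRingHom _).comp
    ((RingHom.pi fun w : ℂ => Pi.evalRingHom (fun _ : ℍ => ℂ) (ofComplex w)).comp BR.subtype)

theorem i2_g_apply (z : ℂ) (x : BR) :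
    i2_g z x = ((x.1 ∘ ofComplex : ℂ → ℂ) : Filter.Germ (𝓝[≠] z) ℂ) := rfl

theorem i2_an (x : BR) {w : ℂ} (hw : 0 < w.im) : AnalyticAt ℂ (x.1 ∘ ofComplex) w :=
  (mem_BR.1 x.2).analytic one_pos ⟨w, hw⟩

theorem i2_ne (τ : ℍ) {x : BR} (hx : x ≠ 0) :
    ∀ᶠ w in 𝓝[≠] (τ : ℂ), (x.1 ∘ ofComplex) w ≠ 0 := by
  refine (i2_an x τ.im_pos).eventually_eq_zero_or_eventually_ne_zero.resolve_left fun h0 => hx ?_
  have h1 := AnalyticOnNhd.eqOn_zero_of_preconnected_of_eventuallyEq_zero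
    (U := {w : ℂ | 0 < w.im}) (fun w hw => i2_an x hw) (convex_halfSpace_im_gt 0).isPreconnected
    τ.im_pos h0
  refine Subtype.ext (funext fun σ => ?_)
  simpa using h1 σ.im_pos

theorem i2_unit (τ : ℍ) {x : BR} (hx : x ≠ 0) : IsUnit (i2_g τ x) := by
  refine IsUnit.of_mul_eq_one ((fun w => ((x.1 ∘ ofComplex) w)⁻¹ : ℂ → ℂ) :
    Filter.Germ (𝓝[≠] (τ : ℂ)) ℂ) ?_
  rw [i2_g_apply, ← Filter.Germ.coe_mul, ← Filter.Germ.coe_one, Filter.Germ.coe_eq]
  filter_upwards [i2_ne τ hx] with w hw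
  exact mul_inv_cancel₀ hw

theorem i2_ev {z : ℂ} {p : ℂ → Prop} (hp : ∀ᶠ w in 𝓝[≠] z, p w) :
    ∀ᶠ w in 𝓝[≠] z, ∀ᶠ u in 𝓝 w, p u := by
  filter_upwards [eventually_eventually_nhdsWithin.2 hp, self_mem_nhdsWithin] with w h1 h2
  rwa [isOpen_compl_singleton.nhdsWithin_eq h2] at h1

theorem i2_quo (τ : ℍ) {a b : BR} (hb : b ≠ 0) {X : ℂ → ℂ}
    (hX : (X : Filter.Germ (𝓝[≠] (τ : ℂ)) ℂ) * i2_g τ b = i2_g τ a) :
    (∀ᶠ w in 𝓝[≠] (τ : ℂ), DifferentiableAt ℂ X w) ∧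
      ((fun w => deriv X w / (2 * π * I) : ℂ → ℂ) : Filter.Germ (𝓝[≠] (τ : ℂ)) ℂ) *
        i2_g τ (b * b) = i2_g τ (i2_d a * b - a * i2_d b) := by
  rw [i2_g_apply, i2_g_apply, ← Filter.Germ.coe_mul, Filter.Germ.coe_eq] at hX
  have h0 : ∀ᶠ w in 𝓝[≠] (τ : ℂ), 0 < w.im :=
    nhdsWithin_le_nhds ((isOpen_lt continuous_const Complex.continuous_im).mem_nhds τ.im_pos)
  have h1 : ∀ᶠ w in 𝓝[≠] (τ : ℂ), X w = (a.1 ∘ ofComplex / b.1 ∘ ofComplex) w := by
    filter_upwards [hX, i2_ne τ hb] with w h2 h3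
    exact eq_div_of_mul_eq h3 h2
  have h2 : ∀ᶠ w in 𝓝[≠] (τ : ℂ), HasDerivAt X ((deriv (a.1 ∘ ofComplex) w * (b.1 ∘ ofComplex) w -
      (a.1 ∘ ofComplex) w * deriv (b.1 ∘ ofComplex) w) / (b.1 ∘ ofComplex) w ^ 2) w := by
    filter_upwards [i2_ev h1, i2_ne τ hb, h0] with w h3 h4 h5
    exact ((i2_an a h5).differentiableAt.hasDerivAt.div (i2_an b h5).differentiableAt.hasDerivAt
      h4).congr_of_eventuallyEq h3
  refine ⟨h2.mono fun w hw => hw.differentiableAt, ?_⟩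
  rw [i2_g_apply, i2_g_apply, ← Filter.Germ.coe_mul, Filter.Germ.coe_eq]
  filter_upwards [h2, i2_ne τ hb, h0] with w h3 h4 h5
  have h6 : ((ofComplex w : ℍ) : ℂ) = w := by rw [ofComplex_apply_of_im_pos h5]
  change deriv X w / (2 * π * I) * ((b.1 ∘ ofComplex) w * (b.1 ∘ ofComplex) w) =
    deriv (a.1 ∘ ofComplex) (ofComplex w : ℍ) / (2 * π * I) * (b.1 ∘ ofComplex) w -
      (a.1 ∘ ofComplex) w * (deriv (b.1 ∘ ofComplex) (ofComplex w : ℍ) / (2 * π * I))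
  rw [h3.deriv, h6, ← sq, div_mul_eq_mul_div, div_mul_cancel₀ _ (pow_ne_zero 2 h4)]
  ring

end

theorem exists_vd (ι : ℂ →+* ℂ_[2]) (τ : ℍ) : ∃ (F : Type) (_ : Field F),
    Nonempty (VD ((NormedField.valuation (K := ℂ_[2])).comap ι) τ F) := by
  have := i2_dom ι
  have hS : nonZeroDivisors BR ≤ (i2_W ι).supp.primeCompl := fun x hx h0 =>
    nonZeroDivisors.ne_zero hx (i2_W_eq ι h0)
  have hu : ∀ y : nonZeroDivisors BR, IsUnit (i2_g τ y) := fun y =>
    i2_unit τ (nonZeroDivisors.ne_zero y.2)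
  obtain ⟨g, hg⟩ : ∃ g : FractionRing BR →+* Filter.Germ (𝓝[≠] (τ : ℂ)) ℂ,
      ∀ x, g (algebraMap BR _ x) = i2_g τ x := ⟨IsLocalization.lift hu, IsLocalization.lift_eq hu⟩
  obtain ⟨V, hV⟩ : ∃ V : Valuation (FractionRing BR) NNReal,
      ∀ x, V (algebraMap BR _ x) = i2_W ι x :=
    ⟨(i2_W ι).extendToLocalization hS _, Valuation.extendToLocalization_apply_map_apply _ hS _⟩
  have key : ∀ x : FractionRing BR, ∃ y, V y ≤ V x ∧ ∀ X : ℂ → ℂ, g x = X →
      (∀ᶠ w in 𝓝[≠] (τ : ℂ), DifferentiableAt ℂ X w) ∧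
        g y = ((fun w => deriv X w / (2 * π * I) : ℂ → ℂ) : Filter.Germ (𝓝[≠] (τ : ℂ)) ℂ) := by
    intro x
    obtain ⟨a, b, hb, rfl⟩ := IsFractionRing.div_surjective BR x
    have hb0 : b ≠ 0 := nonZeroDivisors.ne_zero hb
    have hb1 : algebraMap BR (FractionRing BR) b ≠ 0 := by simpa using hb0
    have hb2 : 0 < i2_W ι b := pos_iff_ne_zero.2 fun e => hb0 (i2_W_eq ι e)
    refine ⟨algebraMap BR _ (i2_d a * b - a * i2_d b) / algebraMap BR _ (b * b), ?_,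
      fun X hX => ?_⟩
    · rw [map_div₀, map_div₀, hV, hV, hV, hV, map_mul, ← div_div, div_le_div_iff_of_pos_right hb2,
        div_le_iff₀ hb2]
      refine (Valuation.map_sub _ _ _).trans (max_le ?_ ?_) <;> rw [map_mul]
      exacts [mul_le_mul' (i2_d_le ι a) le_rfl, mul_le_mul' le_rfl (i2_d_le ι b)]
    · obtain ⟨h1, h2⟩ := i2_quo τ (a := a) hb0 (X := X)
        (by rw [← hX, ← hg, ← hg, ← map_mul, div_mul_cancel₀ _ hb1])
      refine ⟨h1, (i2_unit τ (mul_ne_zero hb0 hb0)).mul_right_cancel ?_⟩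
      rw [h2, ← hg, ← hg, ← map_mul, div_mul_cancel₀]
      rw [map_mul]
      exact mul_ne_zero hb1 hb1
  choose D hD1 hD2 using key
  have hrep : ∀ x, ∃ X : ℂ → ℂ, g x = X := fun x =>
    Filter.Germ.inductionOn (g x) fun X => ⟨X, rfl⟩
  refine ⟨FractionRing BR, inferInstance, ⟨⟨g, V, D, fun x y => g.injective ?_,
    fun x y => g.injective ?_, hD1, fun x X hX => (hD2 x X hX).2, fun u a Λ h1 h2 h3 => ?_⟩⟩⟩
  · obtain ⟨X, hX⟩ := hrep x
    obtain ⟨Y, hY⟩ := hrep y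
    rw [map_add, (hD2 x X hX).2, (hD2 y Y hY).2,
      (hD2 (x + y) (X + Y) (by rw [map_add, hX, hY, Filter.Germ.coe_add])).2,
      ← Filter.Germ.coe_add, Filter.Germ.coe_eq]
    filter_upwards [(hD2 x X hX).1, (hD2 y Y hY).1] with w h1 h2
    rw [deriv_add h1 h2, add_div, Pi.add_apply]
  · obtain ⟨X, hX⟩ := hrep x
    obtain ⟨Y, hY⟩ := hrep y
    rw [map_add, map_mul, map_mul, (hD2 x X hX).2, (hD2 y Y hY).2,
      (hD2 (x * y) (X * Y) (by rw [map_mul, hX, hY, Filter.Germ.coe_mul])).2, hX, hY,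
      ← Filter.Germ.coe_mul, ← Filter.Germ.coe_mul, ← Filter.Germ.coe_add, Filter.Germ.coe_eq]
    filter_upwards [(hD2 x X hX).1, (hD2 y Y hY).1] with w h1 h2
    rw [deriv_mul h1 h2, Pi.add_apply, Pi.mul_apply, Pi.mul_apply]
    ring
  · have hu' : u ∈ BR := mem_BR.2 ⟨a, Λ, h1, h2, h3⟩
    refine ⟨algebraMap BR _ ⟨u, hu'⟩, hg _, ?_⟩
    rw [hV, ← i2_eq ⟨u, hu'⟩ h3]
    exact i2_w_spec ι _

end Pool.Agent.P.MP_20768c_nt.Az.Cu

end

-- part Cu.I3a_p
section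

set_option autoImplicit false

open Complex NumberField IsDedekindDomain Filter Topology
open UpperHalfPlane hiding I
open scoped ComplexConjugate Real MatrixGroups

namespace Pool.Agent.P.MP_20768c_nt.Az.Cu

open Pool.Agent.P.MP_20768c_nt.Az.EQ (Lt pr sp IsLat jL qN)

variable {M : ℕ} {h h' : ℍ → ℂ}

theorem Mer0.add (a : Mer0 M h) (b : Mer0 M h') : Mer0 M fun τ => h τ + h' τ := by
  refine ⟨fun τ => (a.1 τ).add (b.1 τ), fun g => ?_⟩
  obtain ⟨H, h1, h2⟩ := a.2 g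
  obtain ⟨K, k1, k2⟩ := b.2 g
  refine ⟨H + K, h1.add k1, ?_⟩
  filter_upwards [h2, k2] with τ e1 e2
  rw [e1, e2, Pi.add_apply]

theorem Mer0.mul (a : Mer0 M h) (b : Mer0 M h') : Mer0 M fun τ => h τ * h' τ := by
  refine ⟨fun τ => (a.1 τ).mul (b.1 τ), fun g => ?_⟩
  obtain ⟨H, h1, h2⟩ := a.2 g
  obtain ⟨K, k1, k2⟩ := b.2 g
  refine ⟨H * K, h1.mul k1, ?_⟩
  filter_upwards [h2, k2] with τ e1 e2
  rw [e1, e2, Pi.mul_apply]

theorem mer0_const (M : ℕ) (c : ℂ) : Mer0 M fun _ => c :=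
  ⟨fun τ => MeromorphicAt.const c (τ : ℂ), fun _ => ⟨fun _ => c, MeromorphicAt.const c 0,
    Eventually.of_forall fun _ => rfl⟩⟩

theorem Mer0.smul (a : Mer0 M h) (g : SL(2, ℤ)) : Mer0 M fun τ => h (g • τ) := by
  refine ⟨fun τ => ?_, fun g' => ?_⟩
  · have h1 : AnalyticAt ℂ (fun z : ℂ => ((g • ofComplex z : ℍ) : ℂ)) τ :=
      analyticAt_smul (g := (g : GL (Fin 2) ℝ)) (by
        have h0 : 0 < (g : GL (Fin 2) ℝ).det.val := by simp
        simpa only [Matrix.GeneralLinearGroup.val_det_apply] using h0) τ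
    have h2 : MeromorphicAt (h ∘ ofComplex) ((fun z : ℂ => ((g • ofComplex z : ℍ) : ℂ)) τ) := by
      simpa only [ofComplex_apply] using a.1 (g • τ)
    have h3 := MeromorphicAt.comp_analyticAt
      (g := fun z : ℂ => ((g • ofComplex z : ℍ) : ℂ)) h2 h1
    refine h3.congr (Eventually.of_forall fun w => ?_)
    simp only [Function.comp_apply, ofComplex_apply]
  · obtain ⟨H, h1, h2⟩ := a.2 (g * g')
    refine ⟨H, h1, ?_⟩
    simpa only [mul_smul] using h2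

theorem i3a_p_fun (hM : 0 < M) (a : Pool.Agent.P.MP_20768c_nt.Az.EQ.QS M ⊤ h) :
    ∃ H : ℂ → ℂ, AnalyticOnNhd ℂ H (Metric.ball 0 1) ∧ ∀ τ : ℍ, h τ = H (qN M τ) := by
  obtain ⟨c, -, hc⟩ := a
  have h1 := Pool.Agent.P.MP_20768c_nt.Az.EQ.iq2_diff fun q hq =>
    Pool.Agent.P.MP_20768c_nt.Az.EQ.iq2_summable (Pool.Agent.P.MP_20768c_nt.Az.EQ.vqs_tr hM hc) hq
  exact ⟨_, h1.analyticOnNhd Metric.isOpen_ball, fun τ => (hc τ).tsum_eq.symm⟩

theorem i3a_p_quot (hM : 0 < M) {m : ℕ}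
    (a : Pool.Agent.P.MP_20768c_nt.Az.EQ.QS M ⊤ fun τ => ModularForm.discriminant τ ^ m * h τ) :
    ∃ H : ℂ → ℂ, MeromorphicOn H (Metric.ball 0 1) ∧ ∀ τ : ℍ, h τ = H (qN M τ) := by
  obtain ⟨H, h1, h2⟩ := i3a_p_fun hM a
  obtain ⟨K, k1, k2⟩ := i3a_p_fun hM (Pool.Agent.P.MP_20768c_nt.Az.EQ.vmf_disc (L := ⊤) hM m)
  refine ⟨H / K, h1.meromorphicOn.div k1.meromorphicOn, fun τ => ?_⟩
  rw [Pi.div_apply, ← h2, ← k2,
    mul_div_cancel_left₀ _ (pow_ne_zero _ (ModularForm.discriminant_ne_zero _))]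

theorem mer0_of_MF (hM : 0 < M) (a : h ∈ Pool.Agent.P.MP_20768c_nt.Az.EQ.MF M ⊤) : Mer0 M h := by
  obtain ⟨-, m, hm⟩ := Pool.Agent.P.MP_20768c_nt.Az.EQ.isMF_iff.1 a
  refine ⟨fun τ => ?_, fun g => ?_⟩
  · obtain ⟨H, h1, h2⟩ := i3a_p_quot hM (hm 1)
    have h3 : AnalyticAt ℂ (fun w : ℂ => cexp (2 * π * I * w / M)) τ := by fun_prop
    have h4 : MeromorphicAt H ((fun w : ℂ => cexp (2 * π * I * w / M)) τ) :=
      h1 _ (mem_ball_zero_iff.2 (Pool.Agent.P.MP_20768c_nt.Az.EQ.vqs_lt hM τ))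
    refine (MeromorphicAt.comp_analyticAt (g := fun w : ℂ => cexp (2 * π * I * w / M)) h4 h3).congr
      (eventually_nhdsWithin_of_eventually_nhds ?_)
    filter_upwards [isOpen_upperHalfPlaneSet.mem_nhds τ.im_pos] with w hw
    have h5 := h2 ⟨w, hw⟩
    rw [one_smul] at h5
    rw [Function.comp_apply, Function.comp_apply, ofComplex_apply_of_im_pos hw, h5]
    rfl
  · obtain ⟨H, h1, h2⟩ := i3a_p_quot hM (hm g)
    exact ⟨H, h1 0 (Metric.mem_ball_self one_pos), Eventually.of_forall h2⟩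

end Pool.Agent.P.MP_20768c_nt.Az.Cu

end

-- part Cu.I4_p
section

set_option autoImplicit false

open Complex NumberField IsDedekindDomain Filter Topology
open UpperHalfPlane hiding I
open scoped ComplexConjugate Real MatrixGroups

namespace Pool.Agent.P.MP_20768c_nt.Az.Cu

open Pool.Agent.P.MP_20768c_nt.Az.EQ (Lt pr sp IsLat jL qN)

theorem i4p_fib (n : ℕ) : Finite ((fun p : ℕ+ × ℕ+ => (p.1 * p.2 : ℕ)) ⁻¹' {n}) := by
  refine Set.Finite.to_subtype (Set.Finite.of_injOn (f := fun p : ℕ+ × ℕ+ => ((p.1 : ℕ), (p.2 : ℕ)))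
    (t := Set.Iic n ×ˢ Set.Iic n) (fun p hp => ?_) (fun p _ q _ e => ?_)
    ((Set.finite_Iic n).prod (Set.finite_Iic n)))
  · have e : (p.1 * p.2 : ℕ) = n := hp
    exact ⟨e ▸ Nat.le_mul_of_pos_right _ p.2.2, e ▸ Nat.le_mul_of_pos_left _ p.1.2⟩
  · exact Prod.ext (PNat.eq (congrArg Prod.fst e)) (PNat.eq (congrArg Prod.snd e))

theorem i4p_sum {k : ℕ} {w : ℕ+ × ℕ+ → ℂ} (hw : ∀ p, ‖w p‖ ≤ (p.2 : ℝ) ^ k) {q : ℂ}
    (hq : ‖q‖ < 1) : Summable fun p : ℕ+ × ℕ+ => w p * q ^ (p.1 * p.2 : ℕ) := by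
  refine Summable.of_norm_bounded (summable_prod_mul_pow k (r := ‖q‖) (by simpa using hq))
    fun p => ?_
  rw [norm_mul, norm_pow]
  exact mul_le_mul_of_nonneg_right (hw p) (by positivity)

theorem i4p_bq {M k : ℕ} (hM : 0 < M) {w : ℕ+ × ℕ+ → ℂ} (hw : ∀ p, ‖w p‖ ≤ (p.2 : ℝ) ^ k)
    (Λ : Submodule ℤ ℂ) (hΛ : Λ.FG) (hm : ∀ p, w p ∈ Λ) :
    BQ M fun τ => ∑' p : ℕ+ × ℕ+, w p * qN M τ ^ (p.1 * p.2 : ℕ) := by
  refine ⟨fun n => ∑' p : (fun p : ℕ+ × ℕ+ => (p.1 * p.2 : ℕ)) ⁻¹' {n}, w p, Λ, hΛ,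
    fun n => ?_, fun τ => ?_⟩
  · have := i4p_fib n
    have := Fintype.ofFinite ((fun p : ℕ+ × ℕ+ => (p.1 * p.2 : ℕ)) ⁻¹' {n})
    simp only [tsum_fintype]
    exact Λ.sum_mem fun p _ => hm p
  · have h := (i4p_sum hw (Pool.Agent.P.MP_20768c_nt.Az.EQ.vqs_lt hM τ)).hasSum.tsum_fiberwise
      fun p : ℕ+ × ℕ+ => (p.1 * p.2 : ℕ)
    refine (congrArg (fun f => HasSum f _) (funext fun n => ?_)).mp h
    rw [← tsum_mul_right]
    refine tsum_congr fun p => ?_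
    rw [show (p.1.1 * p.1.2 : ℕ) = n from p.2]

/-- One row of the double sum. -/
noncomputable def i4pR (M k : ℕ) (d : ℤ) (τ : ℍ) (u : ℤ) : ℂ :=
  ∑' n : ℤ, ((((u : ℂ) * τ + d) / M + n) ^ k)⁻¹

theorem i4p_row {M k : ℕ} (hM : 0 < M) (hk : 1 ≤ k) (d : ℤ) (τ : ℍ) (u : ℕ+) :
    i4pR M (k + 1) d τ u = (-2 * π * I) ^ (k + 1) / (k.factorial : ℂ) *
      ∑' j : ℕ+, ((j : ℕ) : ℂ) ^ k * cexp (2 * π * I * d / M) ^ (j : ℕ) *
        qN M τ ^ (u * j : ℕ) := by
  have hz : 0 < ((((u : ℤ) : ℂ) * τ + d) / M).im := by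
    have h1 : (0 : ℝ) < M := by exact_mod_cast hM
    have h2 : (0 : ℝ) < (u : ℕ) := by exact_mod_cast u.2
    rw [div_natCast_im]
    simpa using div_pos (mul_pos h2 τ.im_pos) h1
  have h := EisensteinSeries.qExpansion_identity_pnat hk ⟨_, hz⟩
  simp only [one_div] at h
  refine h.trans (congrArg _ (tsum_congr fun j => ?_))
  rw [mul_assoc _ (_ ^ _) (_ ^ _), qN, pow_mul, ← mul_pow, ← Complex.exp_nat_mul _ (u : ℕ),
    ← Complex.exp_add]
  congr 3
  push_cast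
  ring

theorem i4p_neg (M k : ℕ) (d : ℤ) (τ : ℍ) (u : ℤ) :
    i4pR M k d τ (-u) = (-1) ^ k * i4pR M k (-d) τ u := by
  rw [i4pR, i4pR, ← tsum_mul_left, ← (Equiv.neg ℤ).tsum_eq]
  refine tsum_congr fun n => ?_
  have e : (((-u : ℤ) : ℂ) * τ + d) / M + ((Equiv.neg ℤ n : ℤ) : ℂ) =
      -1 * ((((u : ℂ) * τ + (-d : ℤ)) / M + n)) := by
    rw [Equiv.neg_apply]
    push_cast
    ring
  rw [e, mul_pow, mul_inv, ← inv_pow, inv_neg_one]

theorem i4p_half {M k : ℕ} (hM : 0 < M) (hk : 1 ≤ k) (d : ℤ) (P : ℕ+ → Prop) [DecidablePred P] :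
    BQ M fun τ => ∑' u : ℕ+, (if P u then 1 else 0) * i4pR M (k + 1) d τ u := by
  set ζ := cexp (2 * π * I * d / M) with hζ
  have hζ1 : ζ ^ M = 1 := by
    have : (M : ℂ) ≠ 0 := by exact_mod_cast hM.ne'
    rw [hζ, ← Complex.exp_nat_mul, ← Complex.exp_int_mul_two_pi_mul_I d]
    congr 1
    field_simp
  have hn : ‖ζ‖ = 1 := norm_eq_one_of_pow_eq_one hζ1 hM.ne'
  have hi : IsIntegral ℤ ζ := IsIntegral.of_pow hM (by rw [hζ1]; exact isIntegral_one)
  let w : ℕ+ × ℕ+ → ℂ := fun p => (if P p.1 then 1 else 0) * (((p.2 : ℕ) : ℂ) ^ k * ζ ^ (p.2 : ℕ))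
  have hw : ∀ p, ‖w p‖ ≤ (p.2 : ℝ) ^ k := fun p => by
    simp only [w]
    split_ifs
    · simp [hn]
    · simp
  have hm : ∀ p, w p ∈ Algebra.adjoin ℤ {ζ} := fun p => by
    have h1 : ζ ∈ Algebra.adjoin ℤ {ζ} := Algebra.subset_adjoin rfl
    have h2 : ((p.2 : ℕ) : ℂ) ∈ Algebra.adjoin ℤ {ζ} := natCast_mem _ _
    have h3 := mul_mem (pow_mem h2 k) (pow_mem h1 (p.2 : ℕ))
    simp only [w]
    split_ifs
    · rwa [one_mul]
    · rw [zero_mul]
      exact zero_mem _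
  have h := (i4p_bq hM hw _ hi.fg_adjoin_singleton hm).smul
    ((-2 * π * I) ^ (k + 1) / (k.factorial : ℂ))
  refine (congrArg (BQ M) (funext fun τ => ?_)).mp h
  rw [(i4p_sum hw (Pool.Agent.P.MP_20768c_nt.Az.EQ.vqs_lt hM τ)).tsum_prod, ← tsum_mul_left]
  refine tsum_congr fun u => ?_
  rw [i4p_row hM hk, mul_left_comm, ← tsum_mul_left (a := if P u then 1 else 0)]
  exact congrArg _ (tsum_congr fun j => mul_assoc _ _ _)

theorem i4p_summable {M k : ℕ} (hM : 0 < M) (hk : 3 ≤ k) (d : ℤ) (τ : ℍ) :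
    Summable fun p : ℤ × ℤ => ((((p.1 : ℂ) * τ + d) / M + p.2) ^ k)⁻¹ := by
  have hM' : (M : ℂ) ≠ 0 := by exact_mod_cast hM.ne'
  have hi : Function.Injective fun p : ℤ × ℤ => (p.1, d + M * p.2) := fun p q e =>
    Prod.ext (Prod.mk.inj e).1 (mul_left_cancel₀ (by exact_mod_cast hM.ne' : (M : ℤ) ≠ 0)
      (add_left_cancel (Prod.mk.inj e).2))
  refine (((summable_prod_eisSummand hk τ).comp_injective hi).mul_left ((M : ℂ) ^ k)).congr
    fun p => ?_
  have e : ((p.1 : ℂ) * τ + d) / M + p.2 = ((p.1 : ℂ) * τ + (d + M * p.2 : ℤ)) / M := by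
    push_cast
    field_simp
    ring
  rw [e, div_pow, inv_div, div_eq_mul_inv]
  simp [EisensteinSeries.eisSummand]

/-- The lattice as pairs of integers. -/
noncomputable def i4pE (τ : ℍ) : ℤ × ℤ ≃ sp 1 (τ : ℂ) :=
  Equiv.ofBijective
    (fun p => ⟨p.1 * τ + p.2, Pool.Agent.P.MP_20768c_nt.Az.EQ.mem_sp.2 ⟨p.2, p.1, by ring⟩⟩) (by
    constructor
    · intro p q e
      have e' : (p.1 : ℂ) * τ + p.2 = q.1 * τ + q.2 := congrArg Subtype.val e
      obtain ⟨h1, h2⟩ := Pool.Agent.P.MP_20768c_nt.Az.EQ.int_indep_lat τ (p := p.1 - q.1) (q := p.2 - q.2)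
        (by push_cast; linear_combination e')
      exact Prod.ext (sub_eq_zero.1 h1) (sub_eq_zero.1 h2)
    · rintro ⟨v, hv⟩
      obtain ⟨m, n, rfl⟩ := Pool.Agent.P.MP_20768c_nt.Az.EQ.mem_sp.1 hv
      exact ⟨(n, m), Subtype.ext (by simp only; ring)⟩)

open Classical in
theorem i4p_split {M k : ℕ} (hM : 0 < M) (hk : 3 ≤ k) (c d : ℤ) (τ : ℍ) :
    ∑' l : sp 1 (τ : ℂ), ((((c : ℂ) * τ + d) / M + l) ^ k)⁻¹ =
      ∑' u : ℤ, (if ∃ a : ℤ, c + M * a = u then 1 else 0) * i4pR M k d τ u := by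
  have hM' : (M : ℂ) ≠ 0 := by exact_mod_cast hM.ne'
  have hj : Function.Injective fun a : ℤ => c + M * a := fun a b e =>
    mul_left_cancel₀ (by exact_mod_cast hM.ne' : (M : ℤ) ≠ 0) (add_left_cancel e)
  have hi : Function.Injective fun p : ℤ × ℤ => (c + M * p.1, p.2) := fun p q e =>
    Prod.ext (hj (Prod.mk.inj e).1) (Prod.mk.inj e).2
  have hs := (i4p_summable hM hk d τ).comp_injective hi
  rw [← (i4pE τ).tsum_eq, ← hj.tsum_eq (f := fun u =>
    (if ∃ a : ℤ, c + M * a = u then 1 else 0) * i4pR M k d τ u) fun u hu => by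
      by_contra h
      have h' : ¬ ∃ a : ℤ, c + M * a = u := h
      exact hu (by simp only; rw [if_neg h', zero_mul])]
  refine (tsum_congr fun p => ?_).trans (hs.tsum_prod.trans (tsum_congr fun a => ?_))
  · have e : ((c : ℂ) * τ + d) / M + (p.1 * τ + p.2) =
        (((c + M * p.1 : ℤ) : ℂ) * τ + d) / M + p.2 := by
      push_cast
      field_simp
      ring
    exact congrArg (fun x : ℂ => (x ^ k)⁻¹) e
  · rw [if_pos ⟨a, rfl⟩, one_mul]
    rfl

theorem eis_exp {M k : ℕ} (hM : 0 < M) (hk : 3 ≤ k) (c d : ℤ) :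
    BQ M fun τ => ∑' l : sp 1 (τ : ℂ), ((((c : ℂ) * τ + d) / M + l) ^ k)⁻¹ := by
  classical
  obtain ⟨k, rfl⟩ : ∃ j, k = j + 1 := ⟨k - 1, by omega⟩
  have h := ((bq_const M ((if ∃ a : ℤ, c + M * a = 0 then 1 else 0) *
    ∑' n : ℤ, (((d : ℂ) / M + n) ^ (k + 1))⁻¹)).add
    (i4p_half hM (by omega : 1 ≤ k) d fun u => ∃ a : ℤ, c + M * a = u)).add
    ((i4p_half hM (by omega : 1 ≤ k) (-d) fun u => ∃ a : ℤ, c + M * a = -u).smul ((-1) ^ (k + 1)))
  refine (congrArg (BQ M) (funext fun τ => ?_)).mp h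
  have hs : Summable fun u : ℤ =>
      (if ∃ a : ℤ, c + M * a = u then 1 else 0) * i4pR M (k + 1) d τ u := by
    refine Summable.of_norm_bounded (i4p_summable hM hk d τ).prod.norm fun u => ?_
    split_ifs
    · rw [one_mul]
      rfl
    · rw [zero_mul, norm_zero]
      exact norm_nonneg _
  have e0 : i4pR M (k + 1) d τ 0 = ∑' n : ℤ, (((d : ℂ) / M + n) ^ (k + 1))⁻¹ := by
    simp only [i4pR, Int.cast_zero, zero_mul, zero_add]
  rw [i4p_split hM hk, tsum_int_eq_zero_add_tsum_pnat hs, e0,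
    ← tsum_mul_left (a := (-1 : ℂ) ^ (k + 1))]
  congr 1
  refine tsum_congr fun u => ?_
  rw [i4p_neg, mul_left_comm]

end Pool.Agent.P.MP_20768c_nt.Az.Cu

end

-- part Ab.J6
section

set_option autoImplicit false

open Complex NumberField IsDedekindDomain Filter Topology
open UpperHalfPlane hiding I
open scoped ComplexConjugate Real MatrixGroups

namespace Pool.Agent.P.MP_20768c_nt.Az.Cu

open Pool.Agent.P.MP_20768c_nt.Az.EQ (Lt pr sp IsLat jL qN)

theorem abj6_P {κ G H : Type} [Field κ] [Group G] [Group H] (η : G →* κˣ) (π' : G →* H)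
    (a : H → κ) (g : G) : j4p_P η π' 1 a g = η g * a (π' g) := by
  change (η g : κ) ^ 1 * a (π' g) = _
  rw [pow_one]

/-- a translation invariant space contains the eigencomponents of its members -/
theorem abj6_proj {κ G H ι : Type} [Field κ] [Group G] [Group H] (η : ι → G →* κˣ) (π' : G →* H)
    (V : Submodule κ (G → κ)) (hV : ∀ f ∈ V, ∀ h : G, (fun g => f (g * h)) ∈ V) (T : Finset ι)
    (hd : ∀ i ∈ T, ∀ j ∈ T, i ≠ j → ∃ g, π' g = 1 ∧ η i g ≠ η j g) (a : ι → H → κ)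
    (h : ∑ i ∈ T, j4p_P (η i) π' 1 (a i) ∈ V) : ∀ i ∈ T, j4p_P (η i) π' 1 (a i) ∈ V := by
  classical
  induction T using Finset.induction_on generalizing a with
  | empty => exact fun i hi => absurd hi (Finset.notMem_empty _)
  | @insert j T hj ih =>
    rw [Finset.sum_insert hj] at h
    have key : ∀ i ∈ T, j4p_P (η i) π' 1 (a i) ∈ V := fun i hi => by
      obtain ⟨g₀, h0, h1⟩ := hd i (Finset.mem_insert_of_mem hi) j (Finset.mem_insert_self _ _)
        fun e => hj (e ▸ hi)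
      have h2 := ih (fun i hi j hj =>
        hd i (Finset.mem_insert_of_mem hi) j (Finset.mem_insert_of_mem hj))
        (fun i => ((η i g₀ : κ) - η j g₀) • a i) (by
          convert sub_mem (hV _ h g₀) (V.smul_mem (η j g₀ : κ) h) using 1
          funext g
          simp only [Pi.sub_apply, Pi.add_apply, Pi.smul_apply, Finset.sum_apply, abj6_P,
            smul_eq_mul, map_mul, h0, mul_one, Units.val_mul, mul_add, Finset.mul_sum]
          rw [add_sub_add_comm, ← Finset.sum_sub_distrib,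
            show (η j g : κ) * η j g₀ * a j (π' g) - η j g₀ * (η j g * a j (π' g)) = 0 by ring,
            zero_add]
          exact Finset.sum_congr rfl fun i _ => by ring) i hi
      rw [map_smul] at h2
      exact (V.smul_mem_iff (sub_ne_zero.2 fun e => h1 (Units.ext e))).1 h2
    intro i hi
    rcases Finset.mem_insert.1 hi with rfl | hi
    · exact (V.add_mem_iff_left (V.sum_mem key)).1 h
    · exact key i hi

theorem abj6_span {κ G : Type} [Field κ] [Group G] (F : G → κ) :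
    ∀ f ∈ Submodule.span κ (Set.range fun h g : G => F (g * h)), ∀ k : G,
      (fun g => f (g * k)) ∈ Submodule.span κ (Set.range fun h g : G => F (g * h)) := by
  intro f hf k
  induction hf using Submodule.span_induction with
  | mem x hx =>
    obtain ⟨h, rfl⟩ := hx
    exact Submodule.subset_span ⟨k * h, funext fun g => by simp only [mul_assoc]⟩
  | zero => exact zero_mem _
  | add x y _ _ hx hy => exact add_mem hx hy
  | smul c x _ hx => exact Submodule.smul_mem _ c hx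

theorem tk_many {κ G H ι : Type} [Field κ] [Group G] [Group H] [Finite H] (T : Finset ι)
    (η : ι → G →* κˣ) (π' : G →* H) (hπ : Function.Surjective π')
    (hd : ∀ i ∈ T, ∀ j ∈ T, i ≠ j → ∃ g, π' g = 1 ∧ η i g ≠ η j g) (β : ι → H → κ) :
    ∑ i ∈ T, tk (β i) ≤ tk fun g => ∑ i ∈ T, (η i g : κ) * β i (π' g) := by
  classical
  unfold tk
  set F : G → κ := fun g => ∑ i ∈ T, (η i g : κ) * β i (π' g) with hF
  set V := Submodule.span κ (Set.range fun h g : G => F (g * h)) with hV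
  have hst := abj6_span F
  have hFs : F = ∑ i ∈ T, j4p_P (η i) π' 1 (β i) := funext fun g => by
    simp only [hF, Finset.sum_apply, abj6_P]
  have hFV : F ∈ V := Submodule.subset_span ⟨1, funext fun g => by simp only [mul_one]⟩
  have h1 := abj6_proj η π' V hst T hd β (hFs ▸ hFV)
  have hle : V ≤ T.sup fun i => LinearMap.range (j4p_P (η i) π' 1) := by
    refine Submodule.span_le.2 ?_
    rintro _ ⟨h, rfl⟩
    have : (fun g => F (g * h)) =
        ∑ i ∈ T, j4p_P (η i) π' 1 fun x => η i h * β i (x * π' h) := funext fun g => by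
      simp only [hF, Finset.sum_apply, abj6_P, map_mul, Units.val_mul, mul_assoc]
    change (fun g => F (g * h)) ∈ _
    rw [this]
    exact Submodule.sum_mem _ fun i hi =>
      Finset.le_sup (f := fun i => LinearMap.range (j4p_P (η i) π' 1)) hi ⟨_, rfl⟩
  have fd : FiniteDimensional κ V := Submodule.finiteDimensional_of_le hle
  let W : ι → Submodule κ (H → κ) := fun i =>
    Submodule.span κ (Set.range fun h g : H => β i (g * h))
  have hW : ∀ i ∈ T, W i ≤ V.comap (j4p_P (η i) π' 1) := fun i hi => by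
    refine Submodule.span_le.2 ?_
    rintro _ ⟨h, rfl⟩
    obtain ⟨h, rfl⟩ := hπ h
    refine (V.smul_mem_iff (η i h).ne_zero).1 ?_
    convert hst _ (h1 i hi) h using 1
    funext g
    simp only [Pi.smul_apply, abj6_P, smul_eq_mul, map_mul, Units.val_mul]
    ring
  let Ψ : (∀ i : T, W i) →ₗ[κ] (G → κ) :=
    ∑ i : T, j4p_P (η i) π' 1 ∘ₗ (W i).subtype ∘ₗ LinearMap.proj i
  have hΨ : ∀ x, Ψ x = ∑ i : T, j4p_P (η i) π' 1 (x i) := fun x => by
    simp only [Ψ, LinearMap.sum_apply, LinearMap.comp_apply, LinearMap.proj_apply,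
      Submodule.subtype_apply]
  rw [← Finset.sum_coe_sort T, ← Module.finrank_pi_fintype κ (M := fun i : T => W i)]
  refine LinearMap.finrank_le_finrank_of_injective (f := LinearMap.codRestrict V Ψ fun x => by
    rw [hΨ]
    exact V.sum_mem fun i _ => hW i i.2 (x i).2) ((injective_iff_map_eq_zero _).2 fun x hx => ?_)
  have h2 : Ψ x = 0 := congrArg Subtype.val hx
  rw [hΨ] at h2
  have h3 := abj6_proj (fun i : T => η i) π' ⊥ (fun f hf h => by
      rw [Submodule.mem_bot] at hf ⊢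
      rw [hf]
      rfl) Finset.univ
    (fun i _ j _ e => hd i i.2 j j.2 fun e' => e (Subtype.ext e')) (fun i => x i) ((Submodule.mem_bot κ).2 h2)
  funext i
  refine Subtype.ext (funext fun y => ?_)
  obtain ⟨g, rfl⟩ := hπ y
  have h4 := congrFun ((Submodule.mem_bot κ).1 (h3 i (Finset.mem_univ _))) g
  rw [abj6_P] at h4
  exact (mul_eq_zero.1 h4).resolve_left (Units.ne_zero _)

end Pool.Agent.P.MP_20768c_nt.Az.Cu

end

-- part Cu.I3a
section

set_option autoImplicit false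

open Complex NumberField IsDedekindDomain Filter Topology
open UpperHalfPlane hiding I
open scoped ComplexConjugate Real MatrixGroups Manifold

namespace Pool.Agent.P.MP_20768c_nt.Az.Cu

open Pool.Agent.P.MP_20768c_nt.Az.EQ (Lt pr sp IsLat jL qN)

variable {M : ℕ} {h h' : ℍ → ℂ}

theorem i3a_an {f : ℍ → ℂ} (hf : MDifferentiable 𝓘(ℂ) 𝓘(ℂ) f) (τ : ℍ) :
    AnalyticAt ℂ (f ∘ ofComplex) τ :=
  (UpperHalfPlane.mdifferentiable_iff.1 hf).analyticAt (isOpen_upperHalfPlaneSet.mem_nhds τ.im_pos)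

theorem i3a_disc : MDifferentiable 𝓘(ℂ) 𝓘(ℂ) ModularForm.discriminant :=
  ModularFormClass.holo CuspForm.discriminant

theorem i3a_j (τ : ℍ) : AnalyticAt ℂ (Pool.Agent.P.MP_20768c_nt.Az.EQ.jInv ∘ ofComplex) τ := by
  have h1 := i3a_an (ModularFormClass.holo ModularForm.E₄) τ
  have h2 := i3a_an i3a_disc τ
  exact (h1.pow 3).div h2 (ModularForm.discriminant_ne_zero _)

theorem i3a_poly (Q : Polynomial ℂ) (τ : ℍ) :
    AnalyticAt ℂ (fun w => Q.eval (Pool.Agent.P.MP_20768c_nt.Az.EQ.jInv (ofComplex w))) τ := by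
  have h1 : AnalyticAt ℂ (fun x : ℂ => Q.eval x) ((Pool.Agent.P.MP_20768c_nt.Az.EQ.jInv ∘ ofComplex) τ) :=
    Q.differentiable.analyticAt _
  exact h1.comp (i3a_j τ)

theorem i3a_loc {τ : ℍ} (a : MeromorphicAt (h ∘ ofComplex) τ) : ∃ Q : Polynomial ℂ, Q ≠ 0 ∧
    AnalyticAt ℂ (fun w => Q.eval (Pool.Agent.P.MP_20768c_nt.Az.EQ.jInv (ofComplex w)) * h (ofComplex w)) τ := by
  obtain ⟨n, hn⟩ := a
  obtain ⟨p, hp⟩ := i3a_j τ
  have h1 : AnalyticAt ℂ (dslope (Pool.Agent.P.MP_20768c_nt.Az.EQ.jInv ∘ ofComplex) τ) τ :=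
    ⟨_, hp.has_fpower_series_dslope_fslope⟩
  refine ⟨(Polynomial.X - Polynomial.C (Pool.Agent.P.MP_20768c_nt.Az.EQ.jInv τ)) ^ n,
    pow_ne_zero _ (Polynomial.X_sub_C_ne_zero _), ?_⟩
  have h2 := (h1.pow n).mul hn
  refine h2.congr (Eventually.of_forall fun w => ?_)
  have h3 := sub_smul_dslope (Pool.Agent.P.MP_20768c_nt.Az.EQ.jInv ∘ ofComplex) (τ : ℂ) w
  simp only [Function.comp_apply, ofComplex_apply, smul_eq_mul] at h3
  simp only [Pi.mul_apply, Pi.pow_apply, Function.comp_apply, smul_eq_mul, Polynomial.eval_pow,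
    Polynomial.eval_sub, Polynomial.eval_X, Polynomial.eval_C]
  rw [← h3, mul_pow]
  ring

theorem i3a_cpt (a : ∀ τ : ℍ, MeromorphicAt (h ∘ ofComplex) τ) {K : Set ℍ} (hK : IsCompact K) :
    ∃ Q : Polynomial ℂ, Q ≠ 0 ∧ ∀ τ ∈ K,
      AnalyticAt ℂ (fun w => Q.eval (Pool.Agent.P.MP_20768c_nt.Az.EQ.jInv (ofComplex w)) * h (ofComplex w)) τ := by
  refine hK.induction_on (p := fun S => ∃ Q : Polynomial ℂ, Q ≠ 0 ∧ ∀ τ ∈ S,
      AnalyticAt ℂ (fun w => Q.eval (Pool.Agent.P.MP_20768c_nt.Az.EQ.jInv (ofComplex w)) * h (ofComplex w)) τ)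
    ⟨1, one_ne_zero, fun τ hτ => hτ.elim⟩ ?_ ?_ ?_
  · rintro S T hST ⟨Q, h0, hQ⟩
    exact ⟨Q, h0, fun τ hτ => hQ τ (hST hτ)⟩
  · rintro S T ⟨Q, h0, hQ⟩ ⟨R, k0, hR⟩
    refine ⟨Q * R, mul_ne_zero h0 k0, fun τ hτ => ?_⟩
    rcases hτ with hτ | hτ
    · refine ((i3a_poly R τ).mul (hQ τ hτ)).congr (Eventually.of_forall fun w => ?_)
      simp only [Pi.mul_apply, Polynomial.eval_mul]
      ring
    · refine ((i3a_poly Q τ).mul (hR τ hτ)).congr (Eventually.of_forall fun w => ?_)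
      simp only [Pi.mul_apply, Polynomial.eval_mul]
      ring
  · intro τ _
    obtain ⟨Q, h0, hQ⟩ := i3a_loc (a τ)
    have h1 := UpperHalfPlane.continuous_coe.continuousAt.eventually hQ.eventually_analyticAt
    exact ⟨_, nhdsWithin_le_nhds h1, Q, h0, fun σ hσ => hσ⟩

theorem i3a_qN (hM : 0 < M) : Tendsto (qN M) atImInfty (𝓝[≠] 0) := by
  refine tendsto_nhdsWithin_iff.2 ⟨?_, Eventually.of_forall fun τ => Complex.exp_ne_zero _⟩
  have h1 := qParam_tendsto_atImInfty (h := (M : ℝ)) (Nat.cast_pos.2 hM)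
  refine h1.congr fun τ => ?_
  simp [Function.Periodic.qParam, qN]

theorem i3a_high (hM : 0 < M) {H : ℂ → ℂ} (hH : MeromorphicAt H 0)
    (e : ∀ᶠ τ in atImInfty, h τ = H (qN M τ)) :
    ∃ Y : ℝ, ∀ τ : ℍ, Y < τ.im → AnalyticAt ℂ (h ∘ ofComplex) τ := by
  have h1 := (i3a_qN hM).eventually hH.eventually_analyticAt
  obtain ⟨Y, hY⟩ := (atImInfty_mem _).1 (e.and h1)
  refine ⟨Y, fun τ hτ => ?_⟩
  have h2 : AnalyticAt ℂ (fun w : ℂ => cexp (2 * π * I * w / M)) τ := by fun_prop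
  have h3 : AnalyticAt ℂ (H ∘ fun w : ℂ => cexp (2 * π * I * w / M)) τ :=
    AnalyticAt.comp (hY τ hτ.le).2 h2
  refine h3.congr ?_
  have h4 : ∀ᶠ w in 𝓝 (τ : ℂ), Y < w.im :=
    (isOpen_lt continuous_const Complex.continuous_im).mem_nhds hτ
  filter_upwards [h4, isOpen_upperHalfPlaneSet.mem_nhds τ.im_pos] with w hw hw0
  have h5 := (hY ⟨w, hw0⟩ hw.le).1
  rw [Function.comp_apply, Function.comp_apply, ofComplex_apply_of_im_pos hw0, h5]
  rfl

theorem i3a_bd (hM : 0 < M) {H : ℂ → ℂ} (hH : MeromorphicAt H 0)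
    (e : ∀ᶠ τ in atImInfty, h τ = H (qN M τ)) :
    ∃ (n : ℕ) (c : ℂ), Tendsto (fun τ => ModularForm.discriminant τ ^ n * h τ) atImInfty (𝓝 c) := by
  obtain ⟨n, hn⟩ := hH
  obtain ⟨M', rfl⟩ : ∃ M', M = M' + 1 := ⟨M - 1, by omega⟩
  have h1 : Tendsto (qN (M' + 1)) atImInfty (𝓝 0) := (i3a_qN hM).mono_right nhdsWithin_le_nhds
  have h2 := hn.continuousAt.tendsto.comp h1
  have h3 := ((Pool.Agent.P.MP_20768c_nt.Az.EQ.iq2_disc_div_tendsto.pow n).mul ((h1.pow M').pow n)).mul h2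
  refine ⟨n, _, h3.congr' ?_⟩
  filter_upwards [e] with τ hτ
  have h4 : Pool.Agent.P.MP_20768c_nt.Az.EQ.qq τ = qN (M' + 1) τ ^ (M' + 1) := by
    have h5 := Pool.Agent.P.MP_20768c_nt.Az.EQ.vqs_pow hM 1 τ
    rw [one_mul] at h5
    rw [h5, qN, Pool.Agent.P.MP_20768c_nt.Az.EQ.qq, Nat.cast_one, div_one]
  have h6 : ModularForm.discriminant τ = ModularForm.discriminant τ / Pool.Agent.P.MP_20768c_nt.Az.EQ.qq τ *
      (qN (M' + 1) τ ^ M' * qN (M' + 1) τ) := by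
    rw [← pow_succ, ← h4, div_mul_cancel₀ _ (Pool.Agent.P.MP_20768c_nt.Az.EQ.iq2_qq_ne τ)]
  rw [hτ, Function.comp_apply, sub_zero, smul_eq_mul]
  generalize ModularForm.discriminant τ / Pool.Agent.P.MP_20768c_nt.Az.EQ.qq τ = u at h6
  rw [h6]
  ring

theorem i3a_pbd (Q : Polynomial ℂ) : ∃ (n : ℕ) (c : ℂ), Tendsto
    (fun τ => ModularForm.discriminant τ ^ n * Q.eval (Pool.Agent.P.MP_20768c_nt.Az.EQ.jInv τ)) atImInfty (𝓝 c) := by
  have h0 : Tendsto ModularForm.discriminant atImInfty (𝓝 0) :=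
    ModularForm.discriminant_isZeroAtImInfty
  induction Q using Polynomial.induction_on with
  | C a => exact ⟨0, a, by simp⟩
  | add P R hP hR =>
    obtain ⟨n, c, hn⟩ := hP
    obtain ⟨m, d, hm⟩ := hR
    refine ⟨n + m, _, (((h0.pow m).mul hn).add ((h0.pow n).mul hm)).congr fun τ => ?_⟩
    rw [Polynomial.eval_add]
    ring
  | monomial k a hk =>
    obtain ⟨n, c, hn⟩ := hk
    refine ⟨n + 1, _, (hn.mul (Pool.Agent.P.MP_20768c_nt.Az.EQ.iq2_E4_tendsto.pow 3)).congr fun τ => ?_⟩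
    rw [Pool.Agent.P.MP_20768c_nt.Az.EQ.vmf_E4]
    simp only [Polynomial.eval_mul, Polynomial.eval_pow, Polynomial.eval_X, Polynomial.eval_C]
    ring

theorem mer_level (hM : 0 < M) (a : Mer0 M h) (hi : ∀ (γ : SL(2, ℤ)) (τ : ℍ), h (γ • τ) = h τ) :
    ∃ P Q : Polynomial ℂ, Q ≠ 0 ∧ ∀ τ : ℍ, ∀ᶠ w in 𝓝[≠] (τ : ℂ),
      Q.eval (Pool.Agent.P.MP_20768c_nt.Az.EQ.jInv (ofComplex w)) * h (ofComplex w) =
        P.eval (Pool.Agent.P.MP_20768c_nt.Az.EQ.jInv (ofComplex w)) := by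
  obtain ⟨H, hH, e⟩ := a.2 1
  simp only [one_smul] at e
  obtain ⟨Y, hY⟩ := i3a_high hM hH e
  obtain ⟨Q, h0, hQ⟩ := i3a_cpt a.1 (ModularGroup.isCompact_truncatedFundamentalDomain Y)
  obtain ⟨n, c, hn⟩ := i3a_bd hM hH e
  obtain ⟨m, d, hm⟩ := i3a_pbd Q
  set ψ : ℍ → ℂ := fun τ => Q.eval (Pool.Agent.P.MP_20768c_nt.Az.EQ.jInv τ) * h τ with hψ
  have hinv : ∀ (γ : SL(2, ℤ)) (τ : ℍ), ψ (γ • τ) = ψ τ := fun γ τ => by
    simp only [hψ, hi, Pool.Agent.P.MP_20768c_nt.Az.EQ.jInv_smul]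
  have hd : MDifferentiable 𝓘(ℂ) 𝓘(ℂ) ψ := by
    intro τ
    obtain ⟨γ, hγ⟩ := ModularGroup.exists_smul_mem_fd τ
    have h1 : MDifferentiableAt 𝓘(ℂ) 𝓘(ℂ) ψ (γ • τ) := by
      refine UpperHalfPlane.mdifferentiableAt_iff.2 ?_
      rcases le_or_gt (γ • τ).im Y with h2 | h2
      · exact (hQ _ ⟨hγ, h2⟩).differentiableAt
      · exact ((i3a_poly Q _).mul (hY _ h2)).differentiableAt
    have h3 : MDifferentiable 𝓘(ℂ) 𝓘(ℂ) fun σ : ℍ => γ • σ :=
      mdifferentiable_smul (g := (γ : GL (Fin 2) ℝ)) (by simp)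
    have h4 := h1.comp τ (h3 τ)
    have h5 : (ψ ∘ fun σ : ℍ => γ • σ) = ψ := funext fun σ => hinv γ σ
    rwa [h5] at h4
  set F : ℍ → ℂ := fun τ => ModularForm.discriminant τ ^ (m + n) * ψ τ with hF
  have hw : ∀ (γ : SL(2, ℤ)) (τ : ℍ),
      F (γ • τ) = ((γ 1 0 : ℂ) * τ + γ 1 1) ^ (12 * (m + n)) * F τ := fun γ τ => by
    simp only [hF]
    rw [hinv, Pool.Agent.P.MP_20768c_nt.Az.EQ.disc_smul, mul_pow, pow_mul, mul_assoc]
  have hFd : MDifferentiable 𝓘(ℂ) 𝓘(ℂ) F := (i3a_disc.pow (m + n)).mul hd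
  have hFb : IsBoundedAtImInfty F := by
    have h1 : Tendsto F atImInfty (𝓝 (d * c)) := (hm.mul hn).congr fun τ => by
      simp only [hF, hψ]
      ring
    exact h1.isBigO_one ℝ
  have hFp : Function.Periodic (F ∘ ofComplex) (1 : ℝ) := by
    intro w
    by_cases hw0 : 0 < w.im
    · have h1 : 0 < (w + (1 : ℝ)).im := by simpa using hw0
      have h2 : (⟨w + (1 : ℝ), h1⟩ : ℍ) = ModularGroup.T • (⟨w, hw0⟩ : ℍ) := by
        rw [modular_T_smul]
        ext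
        simp [add_comm]
      rw [Function.comp_apply, Function.comp_apply, ofComplex_apply_of_im_pos hw0,
        ofComplex_apply_of_im_pos h1, h2, hw]
      simp [ModularGroup.T]
    · have h1 : (w + (1 : ℝ)).im ≤ 0 := by simpa using hw0
      rw [Function.comp_apply, Function.comp_apply,
        ofComplex_apply_eq_of_im_nonpos h1 (not_lt.1 hw0)]
  have hq : Pool.Agent.P.MP_20768c_nt.Az.EQ.QS 1 ⊤ F := by
    refine Pool.Agent.P.MP_20768c_nt.Az.EQ.vmf_one.2 ⟨fun k => (qExpansion 1 F).coeff k, fun _ => trivial, fun τ => ?_⟩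
    have h1 := UpperHalfPlane.hasSum_qExpansion one_pos hFp hFd hFb τ
    rw [Pool.Agent.P.MP_20768c_nt.Az.EQ.iq2_qq_eq]
    simpa only [smul_eq_mul] using h1
  obtain ⟨P, -, hP⟩ := Pool.Agent.P.MP_20768c_nt.Az.EQ.vmf_poly (m + n) hq hw
  refine ⟨P, Q, h0, fun τ => Eventually.of_forall fun w => ?_⟩
  exact mul_left_cancel₀ (pow_ne_zero _ (ModularForm.discriminant_ne_zero _)) (hP (ofComplex w))

end Pool.Agent.P.MP_20768c_nt.Az.Cu

end

-- part Cu.I5a
section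

set_option autoImplicit false

open Complex NumberField IsDedekindDomain Filter Topology
open UpperHalfPlane hiding I
open scoped ComplexConjugate Real MatrixGroups

namespace Pool.Agent.P.MP_20768c_nt.Az.Cu

open Pool.Agent.P.MP_20768c_nt.Az.EQ (Lt pr sp IsLat jL qN)

open CongruenceSubgroup

variable {M : ℕ} [NeZero M]

theorem pe_eich (F : CuspForm (Gamma1 M) 2) {E : ℂ → ℂ} (hE : IsEich F E) {γ : SL(2, ℤ)}
    (hγ : γ ∈ Gamma1 M) (τ : ℍ) :
    2 * π * I * E ((γ • τ : ℍ) : ℂ) = Pe F γ + 2 * π * I * E τ := by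
  obtain ⟨κ, h1, h2⟩ := pos_kappa F hE hγ
  rw [h2, Pe, h1]
  ring

theorem per_fg (F : CuspForm (Gamma1 M) 2) :
    ∃ Λ : Submodule ℤ ℂ, Λ.FG ∧ ∀ γ ∈ Gamma1 M, Pe F γ ∈ Λ := by
  classical
  obtain ⟨E, hE⟩ : ∃ E, IsEich F E := by
    simpa [IsEich] using slash_prim F 1
  have : Group.FG SL(2, ℤ) := Group.fg_iff.2 ⟨_, SpecialLinearGroup.SL2Z_generators, by simp⟩
  obtain ⟨S, hS⟩ := (Group.fg_iff_subgroup_fg _).1 (Subgroup.fg_of_index_ne_zero (Gamma1 M))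
  have hmul : ∀ γ ∈ Gamma1 M, ∀ δ ∈ Gamma1 M, Pe F (γ * δ) = Pe F γ + Pe F δ := by
    intro γ hγ δ hδ
    have h1 := pe_eich F hE (mul_mem hγ hδ) UpperHalfPlane.I
    have h2 := pe_eich F hE hγ (δ • UpperHalfPlane.I)
    have h3 := pe_eich F hE hδ UpperHalfPlane.I
    rw [mul_smul] at h1
    linear_combination h2 + h3 - h1
  have hone : Pe F 1 = 0 := by
    have := hmul 1 (one_mem _) 1 (one_mem _)
    rw [one_mul] at this
    linear_combination -this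
  refine ⟨Submodule.span ℤ ↑(S.image (Pe F)), Submodule.fg_span (Finset.finite_toSet _),
    fun γ hγ => ?_⟩
  have hγ' : γ ∈ Subgroup.closure (S : Set SL(2, ℤ)) := hS ▸ hγ
  clear hγ
  induction hγ' using Subgroup.closure_induction with
  | mem x hx => exact Submodule.subset_span (Finset.mem_coe.2 (Finset.mem_image_of_mem _ hx))
  | one => rw [hone]; exact zero_mem _
  | mul x y hx hy ix iy => rw [hmul x (hS ▸ hx) y (hS ▸ hy)]; exact add_mem ix iy
  | inv x hx ix =>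
    have h1 := hmul x (hS ▸ hx) x⁻¹ (inv_mem (hS ▸ hx))
    rw [mul_inv_cancel, hone] at h1
    rw [show Pe F x⁻¹ = -Pe F x by linear_combination -h1]
    exact neg_mem ix

theorem i5a_ana {E : ℂ → ℂ} {g : ℍ → ℂ} (hd : ∀ z : ℍ, HasDerivAt E (g z) z) (τ : ℍ) :
    AnalyticAt ℂ E τ := by
  have ho : IsOpen {z : ℂ | 0 < z.im} := isOpen_lt continuous_const Complex.continuous_im
  have h1 : DifferentiableOn ℂ E {z : ℂ | 0 < z.im} := fun z hz =>
    (hd ⟨z, hz⟩).differentiableAt.differentiableWithinAt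
  exact h1.analyticAt (ho.mem_nhds τ.im_pos)

theorem i5a_cusp (F : CuspForm (Gamma1 M) 2) {E : ℂ → ℂ} (hE : IsEich F E) (σ : SL(2, ℤ)) :
    ∃ H : ℂ → ℂ, AnalyticAt ℂ H 0 ∧ ∀ τ : ℍ, E ((σ • τ : ℍ) : ℂ) = H (qN M τ) := by
  have hM : (0 : ℝ) < M := by exact_mod_cast Nat.pos_of_ne_zero (NeZero.ne M)
  obtain ⟨κ, hκ⟩ := an4_lim F hE σ
  have hm : σ * ModularGroup.T ^ (M : ℤ) * σ⁻¹ ∈ Gamma1 M := by
    have h1 : ModularGroup.T ^ (M : ℤ) ∈ CongruenceSubgroup.Gamma M := by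
      simpa using ModularGroup_T_pow_mem_Gamma M M dvd_rfl
    have h2 := (Gamma_normal M).conj_mem _ h1 σ
    rw [Gamma_mem] at h2
    exact (Gamma1_mem _ _).2 ⟨h2.1, h2.2.2.2, h2.2.2.1⟩
  obtain ⟨c, -, hc⟩ := pos_kappa F hE hm
  have h3 : ∀ z : ℍ, E ((σ • ((M : ℝ) +ᵥ z) : ℍ) : ℂ) = c + E ((σ • z : ℍ) : ℂ) := by
    intro z
    have := hc (σ • z)
    rw [mul_smul, mul_smul, inv_smul_smul, UpperHalfPlane.modular_T_zpow_smul] at this
    simpa using this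
  have h4 : Tendsto (fun z : ℍ => (M : ℝ) +ᵥ z) atImInfty atImInfty := by
    simp only [atImInfty, tendsto_comap_iff, Function.comp_def, vadd_im]
    exact tendsto_comap
  have h5 := tendsto_nhds_unique (hκ.comp h4) ((hκ.const_add c).congr fun z => (h3 z).symm)
  have h6 : c = 0 := by linear_combination -h5
  let G : ℍ → ℂ := fun z => E ((σ • z : ℍ) : ℂ)
  have hp : Function.Periodic (G ∘ ofComplex) (M : ℝ) := by
    intro w
    by_cases hw : 0 < w.im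
    · have hw' : 0 < (w + (M : ℝ)).im := by simpa using hw
      have : ofComplex (w + (M : ℝ)) = (M : ℝ) +ᵥ ofComplex w := by
        ext
        rw [ofComplex_apply_of_im_pos hw', ofComplex_apply_of_im_pos hw]
        simp [add_comm]
      simp only [Function.comp, G, this, h3, h6, zero_add]
    · have hw' : (w + (M : ℝ)).im ≤ 0 := by simpa using hw
      simp only [Function.comp, ofComplex_apply_eq_of_im_nonpos hw' (not_lt.1 hw)]
  refine ⟨cuspFunction M G, analyticAt_cuspFunction_zero hM hp ?_ (hκ.isBigO_one ℝ), fun τ => ?_⟩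
  · rw [UpperHalfPlane.mdifferentiable_iff]
    intro w hw
    exact (prim_comp hE.1 σ ⟨w, hw⟩).differentiableAt.differentiableWithinAt
  · have := UpperHalfPlane.eq_cuspFunction τ hM.ne' hp
    simpa [Function.Periodic.qParam, qN, G] using this.symm

theorem mer0_comp (F : CuspForm (Gamma1 M) 2) {E : ℂ → ℂ} (hE : IsEich F E) {Φ : ℂ → ℂ}
    (hΦ : ∀ z, MeromorphicAt Φ z) : Mer0 M fun τ => Φ (2 * π * I * E τ) := by
  refine ⟨fun τ => ?_, fun g => ?_⟩
  · have h1 : AnalyticAt ℂ (fun w => 2 * π * I * E w) τ := analyticAt_const.mul (i5a_ana hE.1 τ)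
    refine ((hΦ _).comp_analyticAt h1).congr (Filter.EventuallyEq.filter_mono ?_ nhdsWithin_le_nhds)
    filter_upwards [(isOpen_lt continuous_const Complex.continuous_im).mem_nhds τ.im_pos] with w hw
    simp only [Function.comp, ofComplex_apply_of_im_pos hw]
  · obtain ⟨H, h1, h2⟩ := i5a_cusp F hE g
    have h3 : AnalyticAt ℂ (fun w => 2 * π * I * H w) 0 := analyticAt_const.mul h1
    exact ⟨_, (hΦ _).comp_analyticAt h3, Filter.Eventually.of_forall fun τ => by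
      simp only [Function.comp, h2]⟩

theorem posC_mem {γ : SL(2, ℤ)} (h : γ ∈ Gamma1 M) : posC γ ∈ Gamma1 M := by
  have hm := (Gamma1_mem _ _).1 h
  rw [Gamma1_mem]
  simpa [posC] using hm

open scoped ModularForm in
theorem i5a_slash (f : ℍ → ℂ) (σ : SL(2, ℤ)) (τ : ℍ) :
    ((fun τ => conj (f (posJ τ))) ∣[(2 : ℤ)] σ) τ = conj ((f ∣[(2 : ℤ)] posC σ) (posJ τ)) := by
  rw [ModularForm.SL_slash_apply, ModularForm.SL_slash_apply, pos_J_smul, map_mul, map_zpow₀,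
    ModularGroup.denom_apply, ModularGroup.denom_apply]
  simp [posC, posJ]

open scoped ModularForm in
theorem exists_conjF (F : CuspForm (Gamma1 M) 2) :
    ∃ F' : CuspForm (Gamma1 M) 2, ∀ τ, F' τ = conj (F (posJ τ)) := by
  refine ⟨⟨⟨fun τ => conj (F (posJ τ)), ?_⟩, ?_, ?_⟩, fun _ => rfl⟩
  · rintro _ ⟨γ, hγ, rfl⟩
    have h1 : ⇑F ∣[(2 : ℤ)] posC γ = F :=
      SlashInvariantForm.slash_action_eqn F _ ⟨_, posC_mem hγ, rfl⟩
    funext τ
    have := i5a_slash F γ τ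
    rw [h1] at this
    exact this
  · rw [UpperHalfPlane.mdifferentiable_iff]
    intro w hw
    have ho : IsOpen {z : ℂ | 0 < z.im} := isOpen_lt continuous_const Complex.continuous_im
    have h1 : DifferentiableOn ℂ (⇑F ∘ ofComplex) {z | 0 < z.im} :=
      UpperHalfPlane.mdifferentiable_iff.1 F.holo'
    have hw' : 0 < (-conj w).im := by simpa using hw
    have h2 := (h1.differentiableAt (ho.mem_nhds hw')).hasDerivAt
    have k1 : HasDerivAt (fun w => (⇑F ∘ ofComplex) (-w)) (_ * -1) (conj w) :=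
      HasDerivAt.comp_of_eq _ h2 (hasDerivAt_neg _) rfl
    have k2 := k1.star_conj
    rw [conj_conj] at k2
    refine (k2.differentiableAt.congr_of_eventuallyEq ?_).differentiableWithinAt
    filter_upwards [ho.mem_nhds hw] with z hz
    have hz' : 0 < (-conj z).im := by simpa using hz
    simp only [Function.comp, ofComplex_apply_of_im_pos hz, ofComplex_apply_of_im_pos hz']
    rfl
  · intro c hc
    rw [Subgroup.IsArithmetic.isCusp_iff_isCusp_SL2Z] at hc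
    rw [OnePoint.isZeroAt_iff_forall_SL2Z hc]
    intro γ _
    have h1 := CuspFormClass.zero_at_infty_slash F (posC γ)
    have h2 := (continuous_conj.tendsto 0).comp (Tendsto.comp h1 pos_J_tendsto)
    rw [map_zero] at h2
    exact h2.congr fun τ => (i5a_slash F γ τ).symm

theorem i5a_sym {f f' : ℍ → ℂ} (h : ∀ τ, f' τ = conj (f (posJ τ))) (r : ℚ) :
    sym f' r = conj (sym f (-r)) := by
  unfold sym
  rw [map_mul, ← integral_conj]
  congr 1
  · simp [map_ofNat]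
  · refine MeasureTheory.setIntegral_congr_fun measurableSet_Ioi fun y hy => ?_
    have hy : 0 < y := hy
    simp only [h]
    congr 2
    ext
    rw [an3_coe _ hy]
    simp only [posJ]
    rw [an3_coe _ hy]
    simp [add_comm]

theorem pe_conj {f f' : ℍ → ℂ} (h : ∀ τ, f' τ = conj (f (posJ τ))) (γ : SL(2, ℤ)) :
    Pe f' γ = conj (Pe f (posC γ)) := by
  unfold Pe Fv
  by_cases hc : γ 1 0 = 0
  · simp [posC, hc]
  · simp [posC, hc, i5a_sym h, div_neg]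

theorem exp_conj {f f' : ℍ → ℂ} (h : ∀ τ, f' τ = conj (f (posJ τ))) {a : ℕ → ℂ}
    (hs : ∀ τ : ℍ, HasSum (fun n => a n * qN 1 τ ^ n) (f τ)) (τ : ℍ) :
    HasSum (fun n => conj (a n) * qN 1 τ ^ n) (f' τ) := by
  have h1 := (Complex.hasSum_conj' (f := fun n => a n * qN 1 (posJ τ) ^ n)).2 (hs (posJ τ))
  have h2 : conj (qN 1 (posJ τ)) = qN 1 τ := by
    simp [qN, posJ, ← Complex.exp_conj, map_ofNat]
  rw [h]
  simpa only [map_mul, map_pow, h2] using h1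

end Pool.Agent.P.MP_20768c_nt.Az.Cu

end

-- part Cu.J2
section

set_option autoImplicit false

open Complex NumberField IsDedekindDomain Filter Topology
open UpperHalfPlane hiding I
open scoped ComplexConjugate Real MatrixGroups

namespace Pool.Agent.P.MP_20768c_nt.Az.Cu

open Pool.Agent.P.MP_20768c_nt.Az.EQ (Lt pr sp IsLat jL qN)

theorem j2_two : ‖(2 : ℂ_[2])‖ < 1 := by
  have h : (2 : ℂ_[2]) = algebraMap ℚ_[2] ℂ_[2] ((2 : ℕ) : ℚ_[2]) := by
    rw [map_natCast]; norm_num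
  rw [h, norm_algebraMap', Padic.norm_p]
  norm_num

theorem j2_add {K : Type} [NormedField K] [IsUltrametricDist K] {s : ℝ} {x y : K} (hx : ‖x‖ < s)
    (hy : ‖y‖ < s) : ‖x + y‖ < s :=
  (IsUltrametricDist.norm_add_le_max x y).trans_lt (max_lt hx hy)

theorem j2_even {K : Type} [NormedField K] [IsUltrametricDist K] (h2 : ‖(2 : K)‖ < 1) {s : ℝ}
    (hs : 0 < s) (k : ℤ) {x : K} (hx : ‖x‖ ≤ s) : ‖2 * k * x‖ < s := by
  rw [mul_assoc, norm_mul, ← zsmul_eq_mul]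
  calc ‖(2 : K)‖ * ‖k • x‖ ≤ ‖(2 : K)‖ * s :=
        mul_le_mul_of_nonneg_left ((IsUltrametricDist.norm_zsmul_le x k).trans hx) (norm_nonneg _)
    _ < 1 * s := mul_lt_mul_of_pos_right h2 hs
    _ = s := one_mul s

theorem j2_main {K : Type} [NormedField K] [IsUltrametricDist K] (h2 : ‖(2 : K)‖ < 1) (T : ℚ → K)
    (hp : ∀ (r : ℚ) (z : ℤ), T (r + z) = T r) {α : K} (hα : ‖α‖ = 1)
    (hH : ∀ r, α * T r = T (r / 2) + T ((r + 1) / 2)) {c : ℤ} (hc : c % 8 = 5)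
    (hB : ∀ (m : ℕ) (b : ℤ),
      ‖c ^ 2 * (2 * T ((b * c ^ 2 : ℤ) / 2 ^ (m + 2)) - α * T ((b * c ^ 2 : ℤ) / 2 ^ (m + 1))) -
        c * (2 * T (b / 2 ^ (m + 2)) - α * T (b / 2 ^ (m + 1)))‖ ≤ 1) {s : ℝ} (hs : 1 < s)
    (hT : ∀ (n : ℕ) (a : ℤ), Odd a → ‖T (a / 2 ^ (n + 1))‖ ≤ s) (n : ℕ) (a : ℤ) (ha : Odd a) :
    ‖T (a / 2 ^ (n + 1))‖ < s := by
  have hs0 : 0 < s := one_pos.trans hs
  obtain ⟨k, hk⟩ : ∃ k : ℤ, c = 8 * k + 5 := ⟨c / 8, by omega⟩
  have hco : Odd c := ⟨4 * k + 2, by omega⟩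
  have hal : ∀ x : K, ‖α * x‖ = ‖x‖ := fun x => by rw [norm_mul, hα, one_mul]
  have hA : ∀ (m : ℕ) (b : ℤ), Odd b →
      ‖T ((b * c ^ 2 : ℤ) / 2 ^ (m + 1)) - T (b / 2 ^ (m + 1))‖ < s := by
    intro m b hb
    have hb' : Odd (b * c ^ 2) := hb.mul hco.pow
    have h1 := (hB m b).trans_lt hs
    have a1 := j2_even h2 hs0 (-c ^ 2) (hT (m + 1) _ hb')
    have a2 := j2_even h2 hs0 ((4 * k + 2) * (c + 1)) ((hal _).trans_le (hT m _ hb'))
    have a3 := j2_even h2 hs0 c (hT (m + 1) _ hb)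
    have a4 := j2_even h2 hs0 (-(4 * k + 2)) ((hal _).trans_le (hT m _ hb))
    have h3 := j2_add (j2_add (j2_add (j2_add h1 a1) a2) a3) a4
    rw [← norm_neg, ← hal]
    refine lt_of_eq_of_lt (congrArg norm ?_) h3
    generalize T ((b * c ^ 2 : ℤ) / 2 ^ (m + 1 + 1)) = x1
    generalize T ((b * c ^ 2 : ℤ) / 2 ^ (m + 1)) = x2
    generalize T (b / 2 ^ (m + 1 + 1)) = y1
    generalize T (b / 2 ^ (m + 1)) = y2
    rw [hk]
    push_cast
    ring
  have hA' : ∀ (m i : ℕ) (b : ℤ), Odd b →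
      ‖T ((b * (c ^ 2) ^ i : ℤ) / 2 ^ (m + 1)) - T (b / 2 ^ (m + 1))‖ < s := by
    intro m i b hb
    induction i with
    | zero => rw [pow_zero, mul_one, sub_self, norm_zero]; exact hs0
    | succ i ih =>
      have h1 := j2_add (hA m _ (hb.mul ((hco.pow (n := 2)).pow (n := i)))) ih
      rwa [sub_add_sub_cancel, mul_assoc, ← pow_succ] at h1
  have hH' : ∀ (j : ℕ) (b : ℤ), α * T (b / 2 ^ j) =
      T (b / 2 ^ (j + 1)) + T ((b + 2 ^ j : ℤ) / 2 ^ (j + 1)) := by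
    intro j b
    rw [hH]
    congr 2
    · rw [pow_succ, div_div]
    · push_cast
      field_simp
      ring
  have h3 : ∀ (i : ℕ) (b : ℤ), Odd b → ‖T (b / 2 ^ (3 + i))‖ < s := by
    intro i b hb
    have hu : c ^ 2 ≡ 1 + 2 ^ 3 [ZMOD 2 ^ (3 + 1)] :=
      (Int.modEq_iff_dvd.2 ⟨4 * k ^ 2 + 5 * k + 1, by rw [hk]; ring⟩).symm
    obtain ⟨t, ht⟩ := (sq_step (by norm_num) hu i).symm.dvd
    obtain ⟨d, hd⟩ := hb
    have e : T ((b * (c ^ 2) ^ 2 ^ i : ℤ) / 2 ^ (3 + i + 1)) =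
        T ((b + 2 ^ (3 + i) : ℤ) / 2 ^ (3 + i + 1)) := by
      rw [← hp (((b + 2 ^ (3 + i) : ℤ) : ℚ) / 2 ^ (3 + i + 1)) (d + b * t)]
      congr 1
      have h4 : b * (c ^ 2) ^ 2 ^ i = b + 2 ^ (3 + i) + (d + b * t) * 2 ^ (3 + i + 1) := by
        rw [sub_eq_iff_eq_add.1 ht, hd]
        ring
      rw [h4]
      push_cast
      field_simp
    have h5 := hA' (3 + i) (2 ^ i) b ⟨d, hd⟩
    have h6 := j2_add h5 (j2_even h2 hs0 1 (hT (3 + i) b ⟨d, hd⟩))
    rw [← hal, hH', ← e]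
    refine lt_of_eq_of_lt (congrArg norm ?_) h6
    push_cast
    ring
  have h2' : ∀ b : ℤ, Odd b → ‖T (b / 2 ^ 2)‖ < s := by
    intro b hb
    rw [← hal, hH']
    exact j2_add (h3 0 b hb) (h3 0 _ (hb.add_even (by decide)))
  match n with
  | 0 =>
    rw [← hal, hH']
    exact j2_add (h2' a ha) (h2' _ (ha.add_even (by decide)))
  | 1 => exact h2' a ha
  | n + 2 =>
    have h7 := h3 n a ha
    rwa [add_comm 3 n] at h7

theorem int_abs (ι : ℂ →+* ℂ_[2]) (S : ℚ → ℂ) {Λ : Submodule ℤ ℂ} (hΛ : Λ.FG) (hS : ∀ r, S r ∈ Λ)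
    (hp : ∀ (r : ℚ) (z : ℤ), S (r + z) = S r) {α : ℂ} (hα : ‖ι α‖ = 1)
    (hH : ∀ r, α * S r = S (r / 2) + S ((r + 1) / 2)) {c : ℕ} (hc : c % 8 = 5)
    (hB : ∀ (n : ℕ) (b b' : ℤ), 2 ≤ n → b' * c ^ 2 ≡ b [ZMOD 2 ^ n] →
      ‖ι (c ^ 2 * (2 * S (b / 2 ^ n) - α * S (b / 2 ^ (n - 1))) -
        c * (2 * S (b' / 2 ^ n) - α * S (b' / 2 ^ (n - 1))))‖ ≤ 1) (n : ℕ) {a : ℤ} (ha : Odd a) :
    ‖ι (S (a / 2 ^ (n + 1)))‖ ≤ 1 := by
  obtain ⟨_, ⟨m, b, hb, rfl⟩, hx⟩ := fg_max (hΛ.map ι.toAddMonoidHom.toIntLinearMap)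
    (T := {x | ∃ (n : ℕ) (a : ℤ), Odd a ∧ x = ι (S (a / 2 ^ (n + 1)))})
    (by rintro _ ⟨n, a, -, rfl⟩; exact ⟨_, hS _, rfl⟩) ⟨_, n, a, ha, rfl⟩
  refine (hx _ ⟨n, a, ha, rfl⟩).trans (le_of_not_gt fun hs => lt_irrefl _
    (j2_main j2_two (fun r => ι (S r)) (fun r z => by rw [hp]) hα
      (fun r => by rw [← map_mul, hH, map_add]) (c := c) (by omega) (fun j d => ?_) hs
      (fun n a ha => hx _ ⟨n, a, ha, rfl⟩) m b hb))
  have h := hB (j + 2) (d * c ^ 2) d (by omega) (Int.ModEq.refl _)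
  simpa only [map_sub, map_mul, map_pow, map_natCast, map_ofNat, Int.cast_natCast,
    show j + 2 - 1 = j + 1 from rfl] using h

end Pool.Agent.P.MP_20768c_nt.Az.Cu

end

-- part Cu.J4
section

set_option autoImplicit false

open Complex NumberField IsDedekindDomain Filter Topology
open UpperHalfPlane hiding I
open scoped ComplexConjugate Real MatrixGroups

namespace Pool.Agent.P.MP_20768c_nt.Az.Cu

open Pool.Agent.P.MP_20768c_nt.Az.EQ (Lt pr sp IsLat jL qN)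

variable {κ G H : Type} [Field κ]

theorem j4_fin {V : Type} [AddCommGroup V] [Module κ V] [FiniteDimensional κ V]
    (t ε : Module.End κ V) (hc : t * ε = ε * t) (hε : ε * ε = 0) {x : V} {N j : ℕ}
    (hN : (t ^ N) x = 0) (hj : ε ((t ^ j) x) ≠ 0) : 2 * (j + 1) ≤ Module.finrank κ V := by
  have hp : ∀ i : ℕ, (t ^ i) (ε x) = ε ((t ^ i) x) := fun i =>
    LinearMap.congr_fun (Commute.pow_left hc i).eq x
  have hU : ∀ y ∈ LinearMap.range ε, t y ∈ LinearMap.range ε := by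
    rintro _ ⟨y, rfl⟩
    exact ⟨t y, (LinearMap.congr_fun hc y).symm⟩
  have h1 := Module.End.ker_pow_le_ker_pow_finrank (t.restrict hU) N
    (x := ⟨ε x, x, rfl⟩) (by
      rw [LinearMap.mem_ker, Module.End.pow_restrict]
      exact Subtype.ext ((hp N).trans (by rw [hN, map_zero]; rfl)))
  rw [LinearMap.mem_ker, Module.End.pow_restrict] at h1
  have h2 : (t ^ Module.finrank κ (LinearMap.range ε)) (ε x) = 0 := congrArg Subtype.val h1
  have h3 : j < Module.finrank κ (LinearMap.range ε) := by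
    by_contra h
    obtain ⟨d, rfl⟩ := Nat.exists_eq_add_of_le' (not_lt.1 h)
    exact hj (by rw [← hp, pow_add, Module.End.mul_apply, h2, map_zero])
  have h4 := Submodule.finrank_mono (LinearMap.range_le_ker_iff.2 hε)
  have h5 := LinearMap.finrank_range_add_finrank_ker ε
  omega

theorem indep_nil {V : Type} [AddCommGroup V] [Module κ V] (t ε : Module.End κ V)
    (hc : t * ε = ε * t) (hε : ε * ε = 0) {x : V} {N j : ℕ} (hN : (t ^ N) x = 0)
    (hj : ε ((t ^ j) x) ≠ 0) (W : Submodule κ V) [FiniteDimensional κ W] (hx : x ∈ W)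
    (ht : ∀ y ∈ W, t y ∈ W) (he : ∀ y ∈ W, ε y ∈ W) : 2 * (j + 1) ≤ Module.finrank κ W := by
  refine j4_fin (t.restrict ht) (ε.restrict he) (x := ⟨x, hx⟩) (N := N) ?_ ?_ ?_ ?_
  · exact LinearMap.ext fun y => Subtype.ext (LinearMap.congr_fun hc y)
  · exact LinearMap.ext fun y => Subtype.ext (LinearMap.congr_fun hε y)
  · rw [Module.End.pow_restrict]
    exact Subtype.ext hN
  · rw [Module.End.pow_restrict]
    exact fun h => hj (congrArg Subtype.val h)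

/-- one plus a translation -/
def j4T [CommGroup H] (κ : Type) [Field κ] (h : H) : Module.End κ (H → κ) :=
  1 + LinearMap.funLeft κ κ (· * h)

theorem j4_apply [CommGroup H] (h : H) (φ : H → κ) (b : H) : j4T κ h φ b = φ b + φ (b * h) := rfl

theorem j4_pow [CommGroup H] (h2 : (2 : κ) = 0) (h : H) (i : ℕ) :
    j4T κ h ^ 2 ^ i = j4T κ (h ^ 2 ^ i) := by
  induction i with
  | zero => simp
  | succ i ih =>
    rw [pow_succ, pow_mul, pow_mul, ih, sq, sq]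
    refine LinearMap.ext fun φ => funext fun b => ?_
    simp only [Module.End.mul_apply, j4_apply, mul_assoc]
    linear_combination φ (b * h ^ 2 ^ i) * h2

theorem j4_comm [CommGroup H] (g h : H) : j4T κ g * j4T κ h = j4T κ h * j4T κ g := by
  refine LinearMap.ext fun φ => funext fun b => ?_
  simp only [Module.End.mul_apply, j4_apply, mul_assoc, mul_comm g h]
  ring

theorem j4_mem [CommGroup H] (β : H → κ) (h : H) :
    ∀ y ∈ Submodule.span κ (Set.range fun (k : H) (g : H) => β (g * k)),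
      j4T κ h y ∈ Submodule.span κ (Set.range fun (k : H) (g : H) => β (g * k)) := by
  intro y hy
  refine Submodule.mem_comap.1 (Submodule.span_le.2 ?_ hy)
  rintro _ ⟨k, rfl⟩
  refine Submodule.mem_comap.2 (Submodule.add_mem _ (Submodule.subset_span ⟨k, rfl⟩)
    (Submodule.subset_span ⟨h * k, ?_⟩))
  exact funext fun g => congrArg β (mul_assoc g h k).symm

theorem tk_meas (h2 : (2 : κ) = 0) (μ : ℕ → ℤ → κ) {α : κ} (hα : α ≠ 0)
    (hp : ∀ (n : ℕ) (a b : ℤ), a ≡ b [ZMOD 2 ^ n] → μ n a = μ n b)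
    (hd : ∀ (n : ℕ) (a : ℤ), 1 ≤ n → Odd a → α * μ n a = μ (n + 1) a + μ (n + 1) (a + 2 ^ n))
    {n₀ : ℕ} {a₀ : ℤ} (hn : 1 ≤ n₀) (ha : Odd a₀) (h0 : μ n₀ a₀ + μ n₀ (-a₀) ≠ 0) {c : ℕ}
    (hc : c % 8 = 5) : ∃ l : ℕ, ∀ n, 3 ≤ n → ∀ β : (ZMod (2 ^ n))ˣ → κ,
      (∀ (b : (ZMod (2 ^ n))ˣ) (a a' : ℤ), (a : ZMod (2 ^ n)) = b →
        a' * c ^ 2 ≡ a [ZMOD 2 ^ n] → β b = α * (μ (n - 1) a + μ (n - 1) a')) →
      2 ^ (n - 2) ≤ l + tk β := by
  obtain ⟨r, rfl⟩ := Nat.exists_eq_add_of_le' hn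
  obtain ⟨a₁, o₁, h₁⟩ : ∃ a : ℤ, Odd a ∧ μ (r + 2) a + μ (r + 2) (-a) ≠ 0 := by
    by_contra h
    push Not at h
    have e1 := h _ ha
    have e2 := h (a₀ + 2 ^ (r + 1)) (ha.add_even (by simp [Int.even_pow]))
    rw [hp _ (-(a₀ + 2 ^ (r + 1))) (-a₀ + 2 ^ (r + 1)) (Int.modEq_iff_dvd.2 ⟨1, by ring⟩)] at e2
    refine mul_ne_zero hα h0 ?_
    rw [mul_add, hd _ _ hn ha, hd _ _ hn ha.neg]
    linear_combination e1 + e2
  refine ⟨2 ^ (r + 1) + 2, fun n h3 β hβ => ?_⟩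
  obtain ⟨n, rfl⟩ := Nat.exists_eq_add_of_le' h3
  rw [show n + 3 - 2 = n + 1 from rfl]
  rcases lt_or_ge n r with hr | hr
  · have := Nat.pow_le_pow_right two_pos (show n + 1 ≤ r + 1 by omega)
    omega
  have hu : ∀ a : ℤ, Odd a → ∃ b : (ZMod (2 ^ (n + 3)))ˣ, (a : ZMod (2 ^ (n + 3))) = b :=
    fun a h => ((unit_odd (by omega)).2 h).imp fun _ e => e.symm
  obtain ⟨u, hcu⟩ := hu c (by rw [Int.odd_iff]; omega)
  have hl : ∀ b : (ZMod (2 ^ (n + 3)))ˣ, ∃ a : ℤ, Odd a ∧ (a : ZMod (2 ^ (n + 3))) = b := fun b => by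
    obtain ⟨a, e⟩ := ZMod.intCast_surjective (b : ZMod (2 ^ (n + 3)))
    exact ⟨a, (unit_odd (by omega)).1 (e ▸ b.isUnit), e⟩
  choose A oA hA using hl
  have hm : ∀ j, j ≤ n + 3 → ∀ (b : (ZMod (2 ^ (n + 3)))ˣ) (a : ℤ),
      (a : ZMod (2 ^ (n + 3))) = b → μ j (A b) = μ j a := fun j hj b a e => by
    have := (ZMod.intCast_eq_intCast_iff _ _ _).1 ((hA b).trans e.symm)
    exact hp _ _ _ (this.of_dvd (by exact_mod_cast pow_dvd_pow 2 hj))
  have hs : ∀ i : ℕ, (c : ℤ) ^ 2 ^ i ≡ 1 + 2 ^ (2 + i) [ZMOD 2 ^ (2 + i + 1)] :=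
    sq_step le_rfl (by unfold Int.ModEq; omega)
  have hT : ∀ j, j ≤ n + 3 → ∀ i b, (j4T κ u ^ 2 ^ i) (fun b => μ j (A b)) b =
      μ j (A b) + μ j (A b * c ^ 2 ^ i) := fun j hj i b => by
    rw [j4_pow h2, j4_apply, hm j hj (b * u ^ 2 ^ i) (A b * c ^ 2 ^ i) (by
      rw [Int.cast_mul, Int.cast_pow, hA, hcu]; simp)]
  have k1 : ∀ i, i ≤ n → (j4T κ u ^ 2 ^ i) (fun b => μ (i + 3) (A b)) =
      α • fun b => μ (i + 2) (A b) := fun i hi => funext fun b => by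
    rw [hT _ (by omega), Pi.smul_apply, smul_eq_mul, hd _ _ (by omega) (oA b)]
    congr 1
    refine hp _ _ _ ?_
    obtain ⟨k, hk⟩ := oA b
    have := (hs i).mul_left (A b)
    rw [show 2 + i + 1 = i + 3 by ring] at this
    exact this.trans (Int.modEq_iff_dvd.2 ⟨-k, by rw [hk]; ring⟩)
  have k2 : (j4T κ u ^ 2 ^ n) (fun b => μ (n + 2) (A b)) = 0 := funext fun b => by
    rw [hT _ (by omega), hp (n + 2) (A b * c ^ 2 ^ n) (A b), Pi.zero_apply]
    · linear_combination μ (n + 2) (A b) * h2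
    · have := ((hs n).of_dvd (⟨2, by ring⟩ : (2 : ℤ) ^ (n + 2) ∣ _)).mul_left (A b)
      exact this.trans (Int.modEq_iff_dvd.2 ⟨-A b, by ring⟩)
  have k3 : ∀ d, r + d ≤ n → ∃ e, e + 2 ^ r = 2 ^ (r + d) ∧
      (j4T κ u ^ e) (fun b => μ (r + d + 2) (A b)) = α ^ d • fun b => μ (r + 2) (A b) := by
    intro d hd
    induction d with
    | zero => exact ⟨0, by simp, by simp⟩
    | succ d ih =>
      obtain ⟨e, e1, e2⟩ := ih (by omega)
      refine ⟨e + 2 ^ (r + d), by rw [← add_assoc, pow_succ]; omega, ?_⟩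
      rw [pow_add (j4T κ u), Module.End.mul_apply, show r + (d + 1) + 2 = r + d + 3 from rfl,
        k1 _ (by omega), map_smul, e2, smul_smul, pow_succ' α]
  obtain ⟨d, rfl⟩ := Nat.exists_eq_add_of_le hr
  obtain ⟨e, e1, e2⟩ := k3 d le_rfl
  rw [pow_succ, pow_succ]
  rcases lt_or_ge e 2 with he | he
  · omega
  obtain ⟨e, rfl⟩ := Nat.exists_eq_add_of_le' he
  have hx : (fun g => β (g * u ^ 2)) = α • (j4T κ u ^ 2) fun b => μ (r + d + 2) (A b) :=
    funext fun b => by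
      have := hT (r + d + 2) (by omega) 1 b
      rw [pow_one] at this
      rw [Pi.smul_apply, this, smul_eq_mul, add_comm (μ _ (A b))]
      exact hβ _ _ _ (by rw [Int.cast_mul, Int.cast_pow, hA, hcu]; simp) Int.ModEq.rfl
  have := indep_nil (j4T κ u) (j4T κ (-1)) (j4_comm _ _) (by
      have := j4_pow h2 (-1 : (ZMod (2 ^ (r + d + 3)))ˣ) 1
      rw [pow_one, sq, neg_one_sq] at this
      refine this.trans (LinearMap.ext fun φ => funext fun b => ?_)
      rw [j4_apply, mul_one]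
      exact (two_mul _).symm.trans (by rw [h2, zero_mul]; rfl))
    (x := fun g => β (g * u ^ 2)) (N := 2 ^ (r + d)) (j := e) (by
      rw [hx, map_smul, ← Module.End.mul_apply, pow_mul_comm, Module.End.mul_apply, k2, map_zero,
        smul_zero]) (by
      obtain ⟨b, hb⟩ := hu a₁ o₁
      rw [hx, map_smul, ← Module.End.mul_apply (j4T κ u ^ e), ← pow_add, e2, smul_smul, map_smul]
      intro h
      have := congrFun h b
      rw [Pi.smul_apply, j4_apply, hm _ (by omega) b a₁ hb,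
        hm _ (by omega) (b * -1) (-a₁) (by simp [hb])] at this
      exact mul_ne_zero (mul_ne_zero hα (pow_ne_zero d hα)) h₁ this)
    (Submodule.span κ (Set.range fun k g => β (g * k))) (Submodule.subset_span ⟨u ^ 2, rfl⟩)
    (j4_mem β _) (j4_mem β _)
  unfold tk
  omega

end Pool.Agent.P.MP_20768c_nt.Az.Cu

end

-- part Cu.M6
section

set_option autoImplicit false

open Complex NumberField IsDedekindDomain Filter Topology
open UpperHalfPlane hiding I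
open scoped ComplexConjugate Real MatrixGroups

namespace Pool.Agent.P.MP_20768c_nt.Az.Cu

open Pool.Agent.P.MP_20768c_nt.Az.EQ (Lt pr sp IsLat jL qN)

variable {K : Type} [Field K] [NumberField K] {F : IntermediateField K (AlgebraicClosure K)}

theorem m6_mono {L : Type} [Field L] {y : L} {a b : ℕ} (h : a ≤ b) (hy : y ^ 2 ^ a = 1) :
    y ^ 2 ^ b = 1 := by
  obtain ⟨c, rfl⟩ := Nat.exists_eq_add_of_le h
  rw [pow_add, pow_mul, hy, one_pow]

omit [NumberField K] in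
theorem m6_level {x : AlgebraicClosure K}
    (hx : x ∈ IntermediateField.adjoin K {x : AlgebraicClosure K | ∃ n : ℕ, x ^ 2 ^ n = 1}) :
    ∃ m : ℕ, ∀ σ : Gal K, (∀ y : AlgebraicClosure K, y ^ 2 ^ m = 1 → σ y = y) → σ x = x := by
  induction hx using IntermediateField.adjoin_induction with
  | mem x hx =>
    obtain ⟨n, hn⟩ := hx
    exact ⟨n, fun σ h => h x hn⟩
  | algebraMap x => exact ⟨0, fun σ _ => σ.commutes x⟩
  | add x y _ _ h1 h2 =>
    obtain ⟨a, ha⟩ := h1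
    obtain ⟨b, hb⟩ := h2
    refine ⟨max a b, fun σ h => ?_⟩
    rw [map_add, ha σ fun y hy => h y (m6_mono (le_max_left _ _) hy),
      hb σ fun y hy => h y (m6_mono (le_max_right _ _) hy)]
  | inv x _ h1 =>
    obtain ⟨a, ha⟩ := h1
    exact ⟨a, fun σ h => by rw [map_inv₀, ha σ h]⟩
  | mul x y _ _ h1 h2 =>
    obtain ⟨a, ha⟩ := h1
    obtain ⟨b, hb⟩ := h2
    refine ⟨max a b, fun σ h => ?_⟩
    rw [map_mul, ha σ fun y hy => h y (m6_mono (le_max_left _ _) hy),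
      hb σ fun y hy => h y (m6_mono (le_max_right _ _) hy)]

omit [NumberField K] in
theorem m6_iter {σ : Gal K} {ζ : AlgebraicClosure K} {u : ℕ} (h : σ ζ = ζ ^ u) (i : ℕ) :
    (σ ^ i) ζ = ζ ^ u ^ i := by
  induction i with
  | zero => simp
  | succ i ih => rw [pow_succ' σ, AlgEquiv.mul_apply, ih, map_pow, h, ← pow_mul, ← pow_succ']

theorem m6_key {g : Gal K} {e : ℕ} (he : 2 ≤ e)
    (h1 : ∀ y : AlgebraicClosure K, y ^ 2 ^ e = 1 → g y = y)
    (h2 : ¬ ∀ y : AlgebraicClosure K, y ^ 2 ^ (e + 1) = 1 → g y = y) (h : Gal K) (j : ℕ) :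
    ∃ i : ℕ, ∀ y : AlgebraicClosure K, y ^ 2 ^ (e + (j + 1)) = 1 →
      (h ^ 2 ^ e) y = (g ^ i) y := by
  obtain ⟨ζ, hζ⟩ := HasEnoughRootsOfUnity.exists_primitiveRoot (AlgebraicClosure K)
    (2 ^ (e + (j + 1)))
  have hfin : IsOfFinOrder ζ := hζ.isOfFinOrder (by positivity)
  have hmod : ∀ a b : ℕ, ζ ^ a = ζ ^ b ↔ a ≡ b [MOD 2 ^ (e + (j + 1))] := fun a b => by
    rw [hfin.pow_eq_pow_iff_modEq, ← hζ.eq_orderOf]
  obtain ⟨u, -, hu⟩ := hζ.eq_pow_of_pow_eq_one (ξ := g ζ) (by rw [← map_pow, hζ.pow_eq_one, map_one])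
  obtain ⟨b, -, hb⟩ := hζ.eq_pow_of_pow_eq_one (ξ := h ζ) (by rw [← map_pow, hζ.pow_eq_one, map_one])
  have hb2 : b.Coprime (2 ^ (e + (j + 1))) := by
    rw [← hζ.pow_iff_coprime (by positivity), hb]
    exact hζ.map_of_injective h.injective
  have hb3 : b.Coprime (2 ^ e) := hb2.coprime_dvd_right (pow_dvd_pow 2 (Nat.le_add_right _ _))
  have ha : b ^ 2 ^ e ≡ 1 [MOD 2 ^ e] := by
    have e1 := Nat.ModEq.pow_totient hb3
    rw [Nat.totient_prime_pow Nat.prime_two (by omega)] at e1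
    have e2 := e1.pow 2
    rw [one_pow, ← pow_mul, show 2 ^ (e - 1) * (2 - 1) * 2 = 2 ^ e by
      rw [show 2 - 1 = 1 from rfl, mul_one, ← pow_succ, Nat.sub_add_cancel (by omega)]] at e2
    exact e2
  have u1 : u ≡ 1 [MOD 2 ^ e] := by
    have e1 := h1 (ζ ^ 2 ^ (j + 1)) (by rw [← pow_mul, ← pow_add, add_comm, hζ.pow_eq_one])
    rw [map_pow, ← hu, ← pow_mul, hmod, pow_add] at e1
    refine Nat.ModEq.mul_right_cancel' (c := 2 ^ (j + 1)) (by positivity) ?_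
    rwa [one_mul]
  have u2 : ¬ u ≡ 1 [MOD 2 ^ (e + 1)] := by
    intro hh
    apply h2
    intro y hy
    have p1 : IsPrimitiveRoot (ζ ^ 2 ^ j) (2 ^ (e + 1)) :=
      hζ.pow (by positivity) (by rw [← pow_add]; congr 1; omega)
    obtain ⟨i, -, rfl⟩ := p1.eq_pow_of_pow_eq_one hy
    have e1 : g (ζ ^ 2 ^ j) = ζ ^ 2 ^ j := by
      rw [map_pow, ← hu, ← pow_mul, hmod]
      have e2 := hh.mul_right' (2 ^ j)
      rwa [one_mul, ← pow_add, show e + 1 + j = e + (j + 1) by omega] at e2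
    rw [map_pow, e1]
  have u3 : (u : ℤ) ≡ 1 + 2 ^ e [ZMOD 2 ^ (e + 1)] := by
    have a1 : (2 : ℤ) ^ e ∣ 1 - u := by exact_mod_cast u1.dvd
    have a2 : ¬ (2 : ℤ) ^ (e + 1) ∣ 1 - u := fun hh =>
      u2 ((Nat.modEq_iff_dvd).2 (by exact_mod_cast hh))
    obtain ⟨c, hc⟩ := a1
    rcases Int.even_or_odd' c with ⟨d, rfl | rfl⟩
    · exact absurd ⟨d, by rw [hc]; ring⟩ a2
    · exact (Int.modEq_iff_dvd).2 ⟨d + 1, by linear_combination hc⟩
  have ha' : ((b ^ 2 ^ e : ℕ) : ℤ) ≡ 1 [ZMOD 2 ^ e] := by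
    exact_mod_cast Int.natCast_modEq_iff.2 ha
  obtain ⟨i, -, hi⟩ := gen_pow he u3 ha' (j + 1)
  refine ⟨i, fun y hy => ?_⟩
  obtain ⟨r, -, rfl⟩ := hζ.eq_pow_of_pow_eq_one hy
  rw [map_pow, map_pow, m6_iter hu.symm, m6_iter hb.symm, (hmod _ (u ^ i)).2]
  exact Int.natCast_modEq_iff.1 (by exact_mod_cast hi)

theorem cyc_fix (hF : IsCyc F) {g : Gal K} (hg : g ∈ F.fixingSubgroup)
    (h4 : ∀ x : AlgebraicClosure K, x ^ 4 = 1 → g x = x) (x : AlgebraicClosure K) (n : ℕ)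
    (hx : x ^ 2 ^ n = 1) : g x = x := by
  classical
  by_contra hne
  have hex : ∃ m : ℕ, ¬ ∀ y : AlgebraicClosure K, y ^ 2 ^ (m + 2) = 1 → g y = y :=
    ⟨n, fun h => hne (h x (m6_mono (Nat.le_add_right _ _) hx))⟩
  have h0 : Nat.find hex ≠ 0 := fun h => by
    have := Nat.find_spec hex
    rw [h] at this
    exact this h4
  obtain ⟨d, hd⟩ := Nat.exists_eq_succ_of_ne_zero h0
  have h1 : ∀ y : AlgebraicClosure K, y ^ 2 ^ (d + 2) = 1 → g y = y :=
    not_not.1 (Nat.find_min hex (m := d) (by omega))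
  have h2 : ¬ ∀ y : AlgebraicClosure K, y ^ 2 ^ (d + 2 + 1) = 1 → g y = y := by
    have := Nat.find_spec hex
    rwa [hd] at this
  obtain ⟨hle, hgal, ⟨φ⟩⟩ := hF
  have key : ∀ h : Gal K, ∀ z ∈ F, (h ^ 2 ^ (d + 2)) z = z := by
    intro h z hz
    obtain ⟨m, hm⟩ := m6_level (hle hz)
    obtain ⟨i, hi⟩ := m6_key (by omega) h1 h2 h m
    have e1 := hm ((g ^ i)⁻¹ * h ^ 2 ^ (d + 2)) fun y hy => by
      rw [AlgEquiv.mul_apply, hi y (m6_mono (by omega) hy), ← AlgEquiv.mul_apply, inv_mul_cancel,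
        AlgEquiv.one_apply]
    have e2 : (g ^ i) z = z := (pow_mem hg i) ⟨z, hz⟩
    rw [AlgEquiv.mul_apply, AlgEquiv.aut_inv, AlgEquiv.symm_apply_eq, e2] at e1
    exact e1
  obtain ⟨h, hh⟩ := AlgEquiv.restrictNormalHom_surjective (F := K) (K₁ := F) (AlgebraicClosure K)
    (φ.symm (Multiplicative.ofAdd 1))
  have e1 : (φ.symm (Multiplicative.ofAdd 1)) ^ 2 ^ (d + 2) = 1 := by
    rw [← hh, ← map_pow]
    ext z
    rw [AlgEquiv.restrictNormalHom_apply, key h z z.2, AlgEquiv.one_apply]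
  have e2 := congrArg φ e1
  rw [map_pow, φ.apply_symm_apply, map_one φ, ← ofAdd_nsmul, ofAdd_eq_one] at e2
  simp at e2

theorem hs_index (hF : IsCyc F) (N : Set (AlgebraicClosure K)) (T : Finset (AlgebraicClosure K))
    (hT : ∀ g : Gal K, (∀ x ∈ T, g x = x) → ∀ x ∈ N, g x = x) :
    Hs N ≤ F.fixingSubgroup ∧ (Hs N).relIndex F.fixingSubgroup ≠ 0 := by
  classical
  constructor
  · intro g hg z
    obtain ⟨m, hm⟩ := m6_level (hF.1 z.2)
    exact hm g fun y hy => hg.2 y m hy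
  · let S : Finset (AlgebraicClosure K) := T ∪ Polynomial.nthRootsFinset 4 1
    let L := IntermediateField.adjoin K (S : Set (AlgebraicClosure K))
    have hfd : FiniteDimensional K L :=
      IntermediateField.finiteDimensional_adjoin fun x _ => Algebra.IsIntegral.isIntegral x
    have hi : L.fixingSubgroup.FiniteIndex := ⟨by
      rw [← IntermediateField.finrank_eq_fixingSubgroup_index]
      exact Module.finrank_pos.ne'⟩
    have hle : L.fixingSubgroup.subgroupOf F.fixingSubgroup ≤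
        (Hs N).subgroupOf F.fixingSubgroup := by
      intro g hg
      have e1 : ∀ x ∈ S, g.1 x = x := fun x hx =>
        hg ⟨x, IntermediateField.subset_adjoin _ _ hx⟩
      exact ⟨hT g.1 fun x hx => e1 x (Finset.mem_union_left _ hx),
        cyc_fix hF g.2 fun x hx => e1 x (Finset.mem_union_right _
          ((Polynomial.mem_nthRootsFinset (by norm_num) 1).2 hx))⟩
    exact (Subgroup.finiteIndex_of_le hle).index_ne_zero

end Pool.Agent.P.MP_20768c_nt.Az.Cu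

end
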