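import Pool.Agent.P.MP_20768c_nt.Az.Z2
import Pool.Agent.P.MP_20768c_nt.Az.Z4
import Pool.Agent.P.MP_20768c_nt.Az.Z6

-- part Cu.F0a
section

set_option autoImplicit false

open Complex NumberField IsDedekindDomain Filter Topology
open UpperHalfPlane hiding I
open scoped ComplexConjugate Real MatrixGroups

namespace Pool.Agent.P.MP_20768c_nt.Az.Cu

open Pool.Agent.P.MP_20768c_nt.Az.EQ (Lt pr sp IsLat jL qN)

variable (F : Type) [Field F] [NumberField F] {l C : ℕ}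

open scoped nonZeroDivisors

theorem f0a_mem {x : Fˣ} : x ∈ Vs F 0 C ↔
    ∀ Q : HeightOneSpectrum (𝓞 F), (C : 𝓞 F) ∉ Q.asIdeal → f0a_p_ord F Q x = 0 := by
  rw [f0a_p_mem]
  simp only [Nat.cast_zero, zero_dvd_iff]

/-- the lattice of orders of the units away from `C` -/
def f0a_lam (C : ℕ) :
    Submodule ℤ ({Q : HeightOneSpectrum (𝓞 F) | (C : 𝓞 F) ∈ Q.asIdeal} → ℤ) :=
  AddSubgroup.toIntSubmodule
    { carrier := {e | ∃ x ∈ Vs F 0 C, ∀ Q, e Q = f0a_p_ord F Q.1 x}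
      zero_mem' := ⟨1, one_mem _, fun Q => (f0a_p_ord_one F Q.1).symm⟩
      add_mem' := by
        rintro e e' ⟨x, hx, h⟩ ⟨y, hy, h'⟩
        exact ⟨x * y, mul_mem hx hy, fun Q => by rw [f0a_p_ord_mul, Pi.add_apply, h, h']⟩
      neg_mem' := by
        rintro e ⟨x, hx, h⟩
        exact ⟨x⁻¹, inv_mem hx, fun Q => by rw [f0a_p_ord_inv, Pi.neg_apply, h]⟩ }

theorem f0a_units (hl : 0 < l) (hC : C ≠ 0) :
    (Un F ⊔ Pw F l).relIndex (Vs F 0 C) ≤ l ^ nP F C := by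
  have : NeZero l := ⟨hl.ne'⟩
  have hf : Finite {Q : HeightOneSpectrum (𝓞 F) | (C : 𝓞 F) ∈ Q.asIdeal} := fin_primes F hC
  let b := Module.finBasis ℤ (f0a_lam F C)
  let o : Vs F 0 C → f0a_lam F C := fun x => ⟨fun Q => f0a_p_ord F Q.1 x.1, x.1, x.2, fun _ => rfl⟩
  have ho : ∀ x y, o (x * y) = o x + o y := fun x y =>
    Subtype.ext (funext fun Q => f0a_p_ord_mul F Q.1 x.1 y.1)
  let φ : Vs F 0 C →* Multiplicative (Fin (Module.finrank ℤ (f0a_lam F C)) → ZMod l) :=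
    MonoidHom.mk' (fun x => Multiplicative.ofAdd fun i => (b.repr (o x) i : ZMod l))
      fun x y => by
        rw [← ofAdd_add]
        congr 1
        funext i
        rw [ho, map_add, Finsupp.add_apply, Int.cast_add, Pi.add_apply]
  have h := (f0a_p_index φ ((Un F ⊔ Pw F l).subgroupOf (Vs F 0 C)) Set.univ (Set.toFinite _)
    (fun x hx => by
      have h1 : ∀ i, ∃ j : ℤ, b.repr (o x) i = l * j := fun i =>
        (ZMod.intCast_zmod_eq_zero_iff_dvd _ _).1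
          (congrFun (congrArg Multiplicative.toAdd (MonoidHom.mem_ker.1 hx)) i)
      choose j hj using h1
      have h2 : o x = (l : ℤ) • b.equivFun.symm j := b.equivFun.injective (by
        rw [map_smul, LinearEquiv.apply_symm_apply]
        funext i
        exact hj i)
      obtain ⟨y, hy, hy'⟩ := (b.equivFun.symm j).2
      have hu : x.1 * (y ^ l)⁻¹ ∈ Un F := f0a_p_un F fun Q => by
        rw [f0a_p_ord_mul, f0a_p_ord_inv, f0a_p_ord_pow]
        by_cases hQ : (C : 𝓞 F) ∈ Q.asIdeal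
        · have h3 : f0a_p_ord F Q x.1 = l * (b.equivFun.symm j).1 ⟨Q, hQ⟩ :=
            congrFun (congrArg Subtype.val h2) ⟨Q, hQ⟩
          rw [h3, hy']
          exact add_neg_cancel _
        · rw [(f0a_mem F).1 x.2 Q hQ, (f0a_mem F).1 hy Q hQ, mul_zero, neg_zero, add_zero]
      rw [Subgroup.mem_subgroupOf, ← inv_mul_cancel_right x.1 (y ^ l)]
      exact Subgroup.mul_mem_sup hu ⟨_, rfl⟩) fun _ => trivial).2
  rw [Nat.card_univ, Nat.card_congr Multiplicative.toAdd, Nat.card_fun, Nat.card_zmod,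
    Nat.card_eq_fintype_card, Fintype.card_fin] at h
  refine h.trans (Nat.pow_le_pow_right hl ((Submodule.finrank_le _).trans ?_))
  have := Fintype.ofFinite {Q : HeightOneSpectrum (𝓞 F) | (C : 𝓞 F) ∈ Q.asIdeal}
  rw [Module.finrank_fintype_fun_eq_card, ← Nat.card_eq_fintype_card, Nat.card_coe_set_eq]
  exact le_rfl

theorem f0a_count {J : Ideal (𝓞 F)} (hJ : J ≠ 0) (Q : HeightOneSpectrum (𝓞 F))
    (h : ((Ideal.absNorm J : ℕ) : 𝓞 F) ∉ Q.asIdeal) :
    FractionalIdeal.count F Q (J : FractionalIdeal (𝓞 F)⁰ F) = 0 := by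
  rw [FractionalIdeal.count_coe F Q hJ, Nat.cast_eq_zero]
  by_contra h0
  exact h (Ideal.le_of_dvd ((Associates.count_ne_zero_iff_dvd hJ Q.irreducible).1 h0)
    (Ideal.absNorm_mem J))

theorem selB (hC : C ≠ 0) : ∃ C' : ℕ, C' ≠ 0 ∧ C ∣ C' ∧ ∀ l, 0 < l →
    (Un F ⊔ Pw F l).relIndex (Vs F l C') ≤ l ^ nP F C' := by
  classical
  choose J hJ using ClassGroup.mk0_surjective (R := 𝓞 F)
  have h0 : C * ∏ c, Ideal.absNorm (J c).1 ≠ 0 := mul_ne_zero hC (Finset.prod_ne_zero_iff.2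
    fun c _ => Ideal.absNorm_eq_zero_iff.not.2 (nonZeroDivisors.ne_zero (J c).2))
  refine ⟨_, h0, dvd_mul_right _ _, fun l hl => ?_⟩
  have hd : ∀ c, Ideal.absNorm (J c).1 ∣ C * ∏ c, Ideal.absNorm (J c).1 := fun c =>
    (Finset.dvd_prod_of_mem (fun c => Ideal.absNorm (J c).1) (Finset.mem_univ c)).mul_left C
  generalize C * ∏ c, Ideal.absNorm (J c).1 = D at h0 hd
  have e : Vs F l D = Vs F 0 D ⊔ (Un F ⊔ Pw F l) := by
    refine le_antisymm (fun x hx => ?_) (sup_le (fun x hx => (f0a_p_mem F).2 fun Q hQ => by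
      rw [(f0a_mem F).1 hx Q hQ]; exact dvd_zero _) (sel_le F l D))
    obtain ⟨A, hA⟩ := f0a_p_exists F (fun Q => f0a_p_ord F Q x / l)
      ((FractionalIdeal.finite_factors (FractionalIdeal.spanSingleton (𝓞 F)⁰ (x : F))).mono
        fun Q hQ => by rw [f0a_p_ord, hQ, Int.zero_ediv])
    have h1 : ClassGroup.mk F (A * (FractionalIdeal.mk0 F (J (ClassGroup.mk F A)))⁻¹) = 1 := by
      rw [map_mul, map_inv, ClassGroup.mk_mk0, hJ, mul_inv_cancel]
    obtain ⟨y, hy⟩ := (FractionalIdeal.isPrincipal_iff _).1 (ClassGroup.mk_eq_one_iff.1 h1)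
    have hy0 : y ≠ 0 := by
      rintro rfl
      exact Units.ne_zero _ (hy.trans FractionalIdeal.spanSingleton_zero)
    have hu : x * (Units.mk0 y hy0 ^ l)⁻¹ ∈ Vs F 0 D := (f0a_mem F).2 fun Q hQ => by
      have h2 : f0a_p_ord F Q (Units.mk0 y hy0) = f0a_p_ord F Q x / l := by
        rw [f0a_p_ord, Units.val_mk0, ← hy, Units.val_mul, FractionalIdeal.count_mul F Q
          (Units.ne_zero _) (Units.ne_zero _), hA, Units.val_inv_eq_inv_val,
          FractionalIdeal.count_inv, FractionalIdeal.coe_mk0,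
          f0a_count F (nonZeroDivisors.ne_zero (J _).2) Q fun h => hQ ?_, neg_zero, add_zero]
        obtain ⟨k, hk⟩ := hd (ClassGroup.mk F A)
        rw [hk, Nat.cast_mul]
        exact Ideal.mul_mem_right _ _ h
      rw [f0a_p_ord_mul, f0a_p_ord_inv, f0a_p_ord_pow, h2,
        Int.mul_ediv_cancel' ((f0a_p_mem F).1 hx Q hQ), add_neg_cancel]
    rw [← inv_mul_cancel_right x (Units.mk0 y hy0 ^ l)]
    exact Subgroup.mul_mem_sup hu (Subgroup.mem_sup_right ⟨_, rfl⟩)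
  rw [e, Subgroup.relIndex_sup_right]
  exact f0a_units F hl h0

end Pool.Agent.P.MP_20768c_nt.Az.Cu

end

-- part Cu.E1_p
section

set_option autoImplicit false

open Complex NumberField IsDedekindDomain Filter Topology
open UpperHalfPlane hiding I
open scoped ComplexConjugate Real MatrixGroups

namespace Pool.Agent.P.MP_20768c_nt.Az.Cu

open Pool.Agent.P.MP_20768c_nt.Az.EQ (Lt pr sp IsLat jL qN)

variable {Γ : Type} [LinearOrderedCommGroupWithZero Γ]

theorem v_nat_dvd {F : Type} [Field F] (v : Valuation F Γ) {a b : ℕ} (h : a ∣ b) (hb : v b = 1) :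
    v a = 1 := by
  obtain ⟨c, rfl⟩ := h
  have ha : v a ≤ 1 := natCast_mem v.integer a
  have hc : v c ≤ 1 := natCast_mem v.integer c
  rw [Nat.cast_mul, map_mul] at hb
  exact le_antisymm ha (hb.symm.le.trans (mul_le_of_le_one_right' hc))

theorem exists_nat_mul {x : ℂ} (hx : IsAlgebraic ℚ x) (h0 : x ≠ 0) :
    ∃ C : ℕ, C ≠ 0 ∧ ∀ V : ValuationSubring ℂ, V.valuation C = 1 → V.valuation x = 1 := by
  obtain ⟨y, y0, hy⟩ := ((IsFractionRing.isAlgebraic_iff ℤ ℚ ℂ).2 hx).exists_integral_multiple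
  obtain ⟨z, z0, hz⟩ := ((IsFractionRing.isAlgebraic_iff ℤ ℚ ℂ).2 hx.inv).exists_integral_multiple
  have key : ∀ (V : ValuationSubring ℂ) (n : ℤ) (a : ℂ), IsIntegral ℤ (n • a) →
      V.valuation (n.natAbs : ℂ) = 1 → V.valuation a ≤ 1 := by
    intro V n a ha hv
    have h1 := St.v_int V.valuation ha
    have h2 : V.valuation (n : ℂ) = 1 := by
      rcases Int.natAbs_eq n with e | e
      · rw [e, Int.cast_natCast, hv]
      · rw [e, Int.cast_neg, Int.cast_natCast, Valuation.map_neg, hv]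
    rwa [zsmul_eq_mul, map_mul, h2, one_mul] at h1
  refine ⟨y.natAbs * z.natAbs, mul_ne_zero (Int.natAbs_ne_zero.2 y0) (Int.natAbs_ne_zero.2 z0),
    fun V hV => le_antisymm (key V y x hy (v_nat_dvd _ (dvd_mul_right _ _) hV)) ?_⟩
  have h1 := key V z x⁻¹ hz (v_nat_dvd _ (dvd_mul_left _ _) hV)
  rw [map_inv₀] at h1
  exact (inv_le_one₀ (zero_lt_iff.2 ((Valuation.ne_zero_iff _).2 h0))).1 h1

theorem e1p_card (E : Type) [Field E] [NumberField E] : Cardinal.mk E ≤ Cardinal.aleph0 := by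
  refine (Algebra.IsAlgebraic.cardinalMk_le_max ℚ E).trans ?_
  simp

theorem e1p_ext {E A : Type} [Field E] [Algebra E ℂ] [CommRing A] [Nontrivial A] [Algebra E A]
    (hA : Cardinal.mk A ≤ Cardinal.aleph0) (φ ψ : A →ₐ[E] ℂ) (hφ : Function.Injective φ)
    (hψ : Function.Injective ψ) : ∃ σ : ℂ ≃ₐ[E] ℂ, ∀ a, σ (φ a) = ψ a := by
  obtain ⟨σ, hσ⟩ := Pool.Agent.P.MP_20768c_nt.Az.EQ.aut_ring hA φ.toRingHom ψ.toRingHom hφ hψ
  refine ⟨AlgEquiv.ofRingEquiv (f := σ) fun x => ?_, hσ⟩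
  have := hσ (algebraMap E A x)
  simpa using this

theorem e1p_conj {E : Type} [Field E] [Algebra E ℂ] (hE : Cardinal.mk E ≤ Cardinal.aleph0)
    {x y : ℂ} (h : ∀ P : Polynomial E, Polynomial.aeval x P = 0 ↔ Polynomial.aeval y P = 0) :
    ∃ σ : ℂ ≃ₐ[E] ℂ, σ x = y := by
  let J : Ideal (Polynomial E) := RingHom.ker (Polynomial.aeval x : Polynomial E →ₐ[E] ℂ)
  have hx : ∀ P ∈ J, Polynomial.aeval x P = 0 := fun P hP => hP
  have hy : ∀ P ∈ J, Polynomial.aeval y P = 0 := fun P hP => (h P).1 hP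
  have : Nontrivial (Polynomial E ⧸ J) := Ideal.Quotient.nontrivial_iff.2 (RingHom.ker_ne_top _)
  have hA : Cardinal.mk (Polynomial E ⧸ J) ≤ Cardinal.aleph0 :=
    (Cardinal.mk_le_of_surjective Ideal.Quotient.mk_surjective).trans
      (Polynomial.cardinalMk_le_max.trans (max_le hE le_rfl))
  obtain ⟨σ, hσ⟩ := e1p_ext hA (Ideal.Quotient.liftₐ J (Polynomial.aeval x) hx)
    (Ideal.Quotient.liftₐ J (Polynomial.aeval y) hy)
    ((injective_iff_map_eq_zero _).2 fun a ha => by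
      obtain ⟨P, rfl⟩ := Ideal.Quotient.mk_surjective a
      exact Ideal.Quotient.eq_zero_iff_mem.2 ha)
    ((injective_iff_map_eq_zero _).2 fun a ha => by
      obtain ⟨P, rfl⟩ := Ideal.Quotient.mk_surjective a
      exact Ideal.Quotient.eq_zero_iff_mem.2 ((h P).2 ha))
  refine ⟨σ, ?_⟩
  simpa using hσ (Ideal.Quotient.mk J Polynomial.X)

theorem e1p_trans {E : Type} [Field E] [Algebra E ℂ] (hE : Cardinal.mk E ≤ Cardinal.aleph0)
    {x : ℂ} (hx : ¬ IsAlgebraic E x) (n : ℕ) : ∃ σ : ℂ ≃ₐ[E] ℂ, σ x = x + n := by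
  have hy : ¬ IsAlgebraic E (x + n) := fun hn => hx (by
    have h2 : IsAlgebraic E ((n : ℕ) : ℂ) := isAlgebraic_natCast n
    simpa using hn.sub h2)
  refine e1p_conj hE fun P => ⟨fun h => ?_, fun h => ?_⟩
  · by_cases h0 : P = 0
    · simp [h0]
    · exact absurd ⟨P, h0, h⟩ hx
  · by_cases h0 : P = 0
    · simp [h0]
    · exact absurd ⟨P, h0, h⟩ hy

theorem e1p_fixed {E : Type} [Field E] [CharZero E] [Algebra E ℂ]
    (hE : Cardinal.mk E ≤ Cardinal.aleph0) {x : ℂ} (h : ∀ σ : ℂ ≃ₐ[E] ℂ, σ x = x) :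
    x ∈ (algebraMap E ℂ).range := by
  by_cases hx : IsAlgebraic E x
  · have hi := hx.isIntegral
    have hp := minpoly.irreducible hi
    have h1 : ∀ y ∈ (minpoly E x).rootSet ℂ, y = x := by
      intro y hy
      have hy0 := Polynomial.aeval_eq_zero_of_mem_rootSet hy
      have e := minpoly.eq_of_irreducible_of_monic hp hy0 (minpoly.monic hi)
      obtain ⟨σ, hσ⟩ := e1p_conj hE (x := x) (y := y) fun P => by
        rw [← minpoly.dvd_iff, ← minpoly.dvd_iff, ← e]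
      rw [← hσ, h]
    have h2 := Polynomial.card_rootSet_eq_natDegree (K := ℂ) hp.separable (IsAlgClosed.splits _)
    have h3 : Fintype.card ((minpoly E x).rootSet ℂ) ≤ 1 :=
      Fintype.card_le_one_iff.2 fun a b => Subtype.ext ((h1 a a.2).trans (h1 b b.2).symm)
    exact minpoly.natDegree_eq_one_iff.1 (le_antisymm (h2 ▸ h3) (minpoly.natDegree_pos hi))
  · obtain ⟨σ, hσ⟩ := e1p_trans hE hx 1
    rw [h] at hσ
    simp at hσ

namespace St

variable (s : St) (F : IntermediateField s.k ℂ)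

theorem alg_of_mem [FiniteDimensional s.k F] {x : ℂ} (h : x ∈ F) : IsAlgebraic ℚ x := by
  have h1 : IsAlgebraic s.k (⟨x, h⟩ : F) := Algebra.IsAlgebraic.isAlgebraic _
  exact (IntermediateField.isAlgebraic_iff.1 h1).restrictScalars ℚ

theorem au_alg (σ : s.Au) {x : ℂ} (h : IsAlgebraic ℚ x) : IsAlgebraic ℚ (σ x) :=
  h.algHom (σ.toRingEquiv.toRingHom.toRatAlgHom)

theorem ext_aut [FiniteDimensional s.k F] (φ : F →ₐ[s.k] ℂ) : ∃ σ : s.Au, ∀ x : F, σ x = φ x := by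
  have : NumberField F := NumberField.of_module_finite s.k F
  exact e1p_ext (e1p_card F) F.val φ F.val.injective φ.injective

theorem mem_of_fixed [FiniteDimensional s.k F] {x : ℂ}
    (h : ∀ σ : s.Au, (∀ y ∈ F, σ y = y) → σ x = x) : x ∈ F := by
  have : NumberField F := NumberField.of_module_finite s.k F
  obtain ⟨y, rfl⟩ := e1p_fixed (E := F) (e1p_card F) (x := x) fun σ =>
    h (σ.restrictScalars s.k) fun y hy => σ.commutes ⟨y, hy⟩
  exact y.2

theorem mem_k_of_fixed {x : ℂ} (h : ∀ σ : s.Au, σ x = x) : x ∈ s.k := by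
  obtain ⟨y, rfl⟩ := e1p_fixed (E := s.k) (e1p_card s.k) h
  exact y.2

theorem alg_of_finite {x : ℂ} (h : (Set.range fun σ : s.Au => σ x).Finite) : IsAlgebraic ℚ x := by
  by_contra hx
  have hx' : ¬ IsAlgebraic s.k x := fun e => hx (e.restrictScalars ℚ)
  refine h.not_infinite (Set.infinite_of_injective_forall_mem (f := fun n : ℕ => x + n) ?_ ?_)
  · intro a b hab
    simpa using hab
  · exact fun n => e1p_trans (e1p_card s.k) hx' n

theorem exists_gal {T : Set ℂ} (hT : T.Finite) (h : ∀ x ∈ T, IsAlgebraic ℚ x) :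
    ∃ F : IntermediateField s.k ℂ, FiniteDimensional s.k F ∧ IsGalois s.k F ∧ ∀ x ∈ T, x ∈ F := by
  have hi : ∀ x ∈ hT.toFinset, IsIntegral s.k x := fun x hx =>
    (h x (hT.mem_toFinset.1 hx)).isIntegral.tower_top
  let P : Polynomial s.k := ∏ x ∈ hT.toFinset, minpoly s.k x
  have h0 : P ≠ 0 := Finset.prod_ne_zero_iff.2 fun x hx => minpoly.ne_zero (hi x hx)
  have := IntermediateField.adjoin_rootSet_isSplittingField (p := P) (L := ℂ)
    (IsAlgClosed.splits _)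
  have := Polynomial.IsSplittingField.finiteDimensional
    (IntermediateField.adjoin s.k (P.rootSet ℂ)) P
  have := Normal.of_isSplittingField (E := IntermediateField.adjoin s.k (P.rootSet ℂ)) P
  refine ⟨IntermediateField.adjoin s.k (P.rootSet ℂ), inferInstance, ⟨⟩, fun x hx => ?_⟩
  refine IntermediateField.subset_adjoin _ _ ((Polynomial.mem_rootSet_of_ne h0).2 ?_)
  rw [map_prod]
  exact Finset.prod_eq_zero (hT.mem_toFinset.2 hx) (minpoly.aeval _ _)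

theorem exists_res [FiniteDimensional s.k F] [IsGalois s.k F] :
    ∃ ρ : s.Au →* (F ≃ₐ[s.k] F), Function.Surjective ρ ∧ ∀ σ (x : F), ((ρ σ x : F) : ℂ) = σ x := by
  refine ⟨AlgEquiv.restrictNormalHom F, fun g => ?_, AlgEquiv.restrictNormalHom_apply F⟩
  obtain ⟨σ, hσ⟩ := s.ext_aut F (F.val.comp g.toAlgHom)
  exact ⟨σ, AlgEquiv.ext fun x =>
    Subtype.ext ((AlgEquiv.restrictNormalHom_apply F σ x).trans (hσ x))⟩

theorem au_mem [FiniteDimensional s.k F] [IsGalois s.k F] (σ : s.Au) {x : ℂ} (h : x ∈ F) :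
    σ x ∈ F := by
  obtain ⟨ρ, -, hρ⟩ := s.exists_res F
  rw [← hρ σ ⟨x, h⟩]
  exact (ρ σ ⟨x, h⟩).2

end St

end Pool.Agent.P.MP_20768c_nt.Az.Cu

end

-- part Cu.F0b
section

set_option autoImplicit false

open Complex NumberField IsDedekindDomain Filter Topology
open UpperHalfPlane hiding I
open scoped ComplexConjugate Real MatrixGroups

namespace Pool.Agent.P.MP_20768c_nt.Az.Cu

open Pool.Agent.P.MP_20768c_nt.Az.EQ (Lt pr sp IsLat jL qN)

variable (F : Type) [Field F] [NumberField F] {l C : ℕ}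

theorem f0b_red {A : Type} [Group A] {q : A} (hl : 0 < l) (h : q ^ l = 1) (e : ℤ) :
    ∃ j : Fin l, q ^ e = q ^ (j : ℕ) := by
  have h0 : (0 : ℤ) < l := Int.natCast_pos.2 hl
  have h1 := Int.emod_nonneg e h0.ne'
  have h2 := Int.emod_lt_of_pos e h0
  refine ⟨⟨(e % l).toNat, by omega⟩, ?_⟩
  rw [zpow_eq_zpow_emod' e h, ← zpow_natCast, Int.toNat_of_nonneg h1]

theorem selC (hl : 0 < l) : (Pw F l).relIndex (Un F ⊔ Pw F l) ≠ 0 ∧
    (Pw F l).relIndex (Un F ⊔ Pw F l) ≤ l ^ (Units.rank F + 1) := by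
  let pj := QuotientGroup.mk' (Pw F l)
  let u : (𝓞 F)ˣ →* Fˣ := Units.map (algebraMap (𝓞 F) F : 𝓞 F →* F)
  have hq : ∀ q : Fˣ, ∀ e : ℤ, ∃ j : Fin l, pj q ^ e = pj q ^ (j : ℕ) := fun q =>
    f0b_red hl (by
      rw [← map_pow]
      exact (QuotientGroup.eq_one_iff _).2 ⟨q, rfl⟩)
  obtain ⟨ζ, hζ⟩ := IsCyclic.exists_generator (α := Units.torsion F)
  let Φ : Fin l × (Fin (Units.rank F) → Fin l) → Fˣ ⧸ Pw F l := fun p =>
    pj (u ζ) ^ (p.1 : ℕ) * ∏ i, pj (u (Units.fundSystem F i)) ^ (p.2 i : ℕ)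
  have hs : ((Un F).map pj : Set (Fˣ ⧸ Pw F l)) ⊆ Set.range Φ := by
    rintro _ ⟨_, ⟨x, rfl⟩, rfl⟩
    obtain ⟨⟨t, e⟩, rfl, -⟩ := Units.exist_unique_eq_mul_prod F x
    obtain ⟨a, rfl⟩ := hζ t
    obtain ⟨j, hj⟩ := hq (u ζ) a
    choose k hk using fun i => hq (u (Units.fundSystem F i)) (e i)
    refine ⟨(j, k), ?_⟩
    change _ = pj (u _)
    simp only [Φ, map_mul, map_prod, map_zpow, SubgroupClass.coe_zpow, hj, hk]
  have e1 : (Pw F l).relIndex (Un F ⊔ Pw F l) = Nat.card ((Un F).map pj) := by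
    rw [Subgroup.relIndex_sup_right, ← Subgroup.relIndex_ker, QuotientGroup.ker_mk']
  have hf := Set.finite_range Φ
  have : Finite ((Un F).map pj) := hf.subset hs
  rw [e1]
  refine ⟨Nat.card_pos.ne', (Nat.card_mono hf hs).trans ((Finite.card_range_le Φ).trans ?_)⟩
  simp [pow_succ']

theorem sel_mul (l C : ℕ) : (Pw F l).relIndex (Vs F l C) =
    (Pw F l).relIndex (Un F ⊔ Pw F l) * (Un F ⊔ Pw F l).relIndex (Vs F l C) := by
  exact (Subgroup.relIndex_mul_relIndex _ _ _ le_sup_right (sel_le F l C)).symm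

theorem f0b_idx {S : Type} [Fintype S] [DecidableEq S] (Λ : AddSubgroup (S → ℤ))
    (h : ∀ Q, ∃ m : ℤ, m ≠ 0 ∧ Pi.single Q m ∈ Λ) (l : ℕ) :
    (Λ.map (nsmulAddMonoidHom l)).relIndex Λ = l ^ Nat.card S := by
  choose m m0 hm using h
  have hN : (∏ Q, (m Q).natAbs) ≠ 0 :=
    Finset.prod_ne_zero_iff.2 fun Q _ => Int.natAbs_ne_zero.2 (m0 Q)
  have hle : (nsmulAddMonoidHom (α := S → ℤ) (∏ Q, (m Q).natAbs)).range ≤ Λ := by
    rintro _ ⟨y, rfl⟩
    rw [← Finset.univ_sum_single y, map_sum]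
    refine sum_mem fun Q _ => ?_
    obtain ⟨c, hc⟩ : m Q ∣ (∏ Q, (m Q).natAbs : ℕ) :=
      Int.natAbs_dvd.1 (Int.natCast_dvd_natCast.2 (Finset.dvd_prod_of_mem _ (Finset.mem_univ Q)))
    have := zsmul_mem (hm Q) (c * y Q)
    rw [← Pi.single_smul, smul_eq_mul, mul_comm, ← mul_assoc, ← hc] at this
    rwa [nsmulAddMonoidHom_apply, ← Pi.single_smul, nsmul_eq_mul]
  have : (nsmulAddMonoidHom (α := S → ℤ) (∏ Q, (m Q).natAbs)).range.FiniteIndex :=
    ⟨by rw [AddSubgroup.index_range_nsmul]; exact pow_ne_zero _ hN⟩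
  have := AddSubgroup.finiteIndex_of_le hle
  rw [AddSubgroup.relIndex_map_nsmul, AddSubgroup.finrank_eq_of_finiteIndex, Module.finrank_pi,
    Nat.card_eq_fintype_card]

theorem f0b_el (Q : HeightOneSpectrum (𝓞 F)) : ∃ x : Fˣ, Q.valuation F (x : F) ≠ 1 ∧
    ∀ R : HeightOneSpectrum (𝓞 F), R ≠ Q → R.valuation F (x : F) = 1 := by
  have h0 : Q.asIdeal ∈ nonZeroDivisors (Ideal (𝓞 F)) := mem_nonZeroDivisors_of_ne_zero Q.ne_bot
  have h1 := pow_card_eq_one' (x := ClassGroup.mk0 ⟨Q.asIdeal, h0⟩)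
  rw [← map_pow] at h1
  obtain ⟨a, ha⟩ := (ClassGroup.mk0_eq_one_iff (pow_mem h0 _)).1 h1
  have hm : a ∈ Q.asIdeal ^ Nat.card (ClassGroup (𝓞 F)) := ha ▸ Submodule.mem_span_singleton_self a
  have a0 : a ≠ 0 := by
    rintro rfl
    exact pow_ne_zero _ Q.ne_bot (ha.trans (Submodule.span_zero_singleton _))
  refine ⟨Units.mk0 (a : F) (RingOfIntegers.coe_ne_zero_iff.2 a0), fun e => ?_, fun R hR => ?_⟩
  · exact (Q.valuation_eq_one_iff_notMem (K := F)).1 e (Ideal.pow_le_self Nat.card_pos.ne' hm)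
  · refine (R.valuation_eq_one_iff_notMem (K := F)).2 fun e => hR ?_
    have : Q.asIdeal ^ Nat.card (ClassGroup (𝓞 F)) ≤ R.asIdeal :=
      ha.trans_le ((Submodule.span_singleton_le_iff_mem _ _).2 e)
    exact HeightOneSpectrum.ext
      (Q.isMaximal.eq_of_le R.isPrime.ne_top (R.isPrime.le_of_pow_le this)).symm

theorem selD (hl : 0 < l) (hC : C ≠ 0) : l ^ nP F C ≤ (Pw F l).relIndex (Vs F l C) := by
  classical
  let S := {Q : HeightOneSpectrum (𝓞 F) | (C : 𝓞 F) ∈ Q.asIdeal}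
  have : Fintype S := (fin_primes F hC).fintype
  have hv : ∀ (Q : HeightOneSpectrum (𝓞 F)) (x : Fˣ), Q.valuation F (x : F) ≠ 0 := fun Q x =>
    (map_ne_zero _).2 x.ne_zero
  let φ : Additive Fˣ →+ (S → ℤ) := AddMonoidHom.mk'
    (fun x Q => WithZero.log (Q.1.valuation F (x.toMul : Fˣ))) fun x y => funext fun Q => by
      rw [toMul_add, Units.val_mul, map_mul, WithZero.log_mul (hv _ _) (hv _ _), Pi.add_apply]
  let U : Subgroup Fˣ :=
    { carrier := {x | ∀ Q : HeightOneSpectrum (𝓞 F), Q ∉ S → Q.valuation F (x : F) = 1}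
      one_mem' := fun _ _ => by simp
      mul_mem' := fun hx hy Q hQ => by rw [Units.val_mul, map_mul, hx Q hQ, hy Q hQ, mul_one]
      inv_mem' := fun hx Q hQ => by rw [Units.val_inv_eq_inv_val, map_inv₀, hx Q hQ, inv_one] }
  let Λ := U.toAddSubgroup.map φ
  have h1 : ∀ Q : S, ∃ m : ℤ, m ≠ 0 ∧ Pi.single Q m ∈ Λ := fun Q => by
    obtain ⟨x, k1, k2⟩ := f0b_el F Q.1
    refine ⟨φ (Additive.ofMul x) Q, fun e => k1 ?_, Additive.ofMul x,
      fun R hR => k2 R fun e => hR (e ▸ Q.2), funext fun R => ?_⟩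
    · rw [← WithZero.exp_log (hv Q.1 x)]
      exact congrArg WithZero.exp e
    · rcases eq_or_ne R Q with rfl | e
      · rw [Pi.single_eq_same]
      · rw [Pi.single_eq_of_ne e]
        exact (congrArg WithZero.log (k2 R.1 fun e' => e (Subtype.ext e'))).trans WithZero.log_one
  have h2 := f0b_idx Λ h1 l
  have hfin : (Pw F l).relIndex (Vs F l C) ≠ 0 := by
    rw [sel_mul]
    exact mul_ne_zero (selC F hl).1 (selA F hl hC).1
  have hUV : U ≤ Vs F l C := fun x hx Q hQ => ⟨0, by simpa using hx Q hQ⟩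
  have h3 : (Pw F l).relIndex U ≠ 0 := fun e =>
    hfin (Subgroup.relIndex_eq_zero_of_le_right hUV e)
  refine le_trans ?_ (Subgroup.relIndex_le_of_le_right hUV hfin)
  rw [nP, ← Nat.card_coe_set_eq, ← h2, ← AddSubgroup.relIndex_comap,
    ← Subgroup.inf_relIndex_right (Pw F l) U, ← Subgroup.relIndex_toAddSubgroup]
  refine AddSubgroup.relIndex_le_of_le_left ?_
    (by rwa [Subgroup.relIndex_toAddSubgroup, Subgroup.inf_relIndex_right])
  rintro x ⟨⟨y, hy⟩, hx⟩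
  have e : x = l • Additive.ofMul y := congrArg Additive.ofMul hy.symm
  refine ⟨φ (Additive.ofMul y), ⟨Additive.ofMul y, fun Q hQ => ?_, rfl⟩, by rw [e, map_nsmul]; rfl⟩
  have := hx Q hQ
  rw [e, toMul_nsmul, Units.val_pow_eq_pow_val, map_pow] at this
  exact (pow_eq_one_iff_left hl.ne').1 this

end Pool.Agent.P.MP_20768c_nt.Az.Cu

end

-- part Cu.E1
section

set_option autoImplicit false

open Complex NumberField IsDedekindDomain Filter Topology
open UpperHalfPlane hiding I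
open scoped ComplexConjugate Real MatrixGroups

namespace Pool.Agent.P.MP_20768c_nt.Az.Cu

open Pool.Agent.P.MP_20768c_nt.Az.EQ (Lt pr sp IsLat jL qN)

variable {Γ : Type} [LinearOrderedCommGroupWithZero Γ]

section e1
variable {K : Type} [Field K]

theorem e1_int (j : K →+* ℂ) (v : Valuation ℂ Γ) (x : 𝓞 K) : v (j x) ≤ 1 :=
  St.v_int v (map_isIntegral_int j x.isIntegral_coe)

theorem e1_ideal (j : K →+* ℂ) (v : Valuation ℂ Γ) :
    ∃ Q : Ideal (𝓞 K), Q.IsPrime ∧ ∀ x : 𝓞 K, v (j x) < 1 ↔ x ∈ Q := by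
  let Q : Ideal (𝓞 K) :=
    { carrier := {x | v (j x) < 1}
      add_mem' := fun {a b} ha hb => by
        change v (j (algebraMap _ K (a + b))) < 1
        rw [map_add, map_add]
        exact v.map_add_lt ha hb
      zero_mem' := by
        change v (j (algebraMap _ K 0)) < 1
        rw [map_zero, map_zero, map_zero]
        exact zero_lt_one
      smul_mem' := fun c a ha => by
        change v (j (algebraMap _ K (c * a))) < 1
        rw [map_mul, map_mul, map_mul]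
        exact (mul_le_of_le_one_left' (e1_int j v c)).trans_lt ha }
  refine ⟨Q, ⟨fun h => ?_, fun {a b} h => ?_⟩, fun _ => Iff.rfl⟩
  · have h1 : v (j (algebraMap _ K (1 : 𝓞 K))) < 1 := (Ideal.eq_top_iff_one Q).1 h
    rw [map_one, map_one, map_one] at h1
    exact lt_irrefl _ h1
  · have h1 : v (j (algebraMap _ K (a * b))) < 1 := h
    rw [map_mul, map_mul, map_mul] at h1
    by_contra h2
    rw [not_or] at h2
    exact absurd h1 (not_lt.2 (one_le_mul (not_lt.1 h2.1) (not_lt.1 h2.2)))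

theorem e1_val (j : K →+* ℂ) (Q : Ideal (𝓞 K)) (hQ : Q.IsMaximal) :
    ∃ V : ValuationSubring ℂ, ∀ x : 𝓞 K, V.valuation (j x) < 1 ↔ x ∈ Q := by
  let f : 𝓞 K →+* ℂ := j.comp (algebraMap _ K)
  have hf : Function.Injective f := j.injective.comp (RingOfIntegers.coe_injective)
  have hb : Function.Bijective f.rangeRestrict :=
    ⟨fun a b h => hf (congrArg Subtype.val h), f.rangeRestrict_surjective⟩
  have hI : Q.map f.rangeRestrict ≠ ⊤ := fun h => hQ.ne_top (by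
    rw [← Ideal.comap_map_of_bijective f.rangeRestrict hb (I := Q), h, Ideal.comap_top])
  obtain ⟨V, -, hV⟩ := Ideal.image_subset_nonunits_valuationSubring _ hI
  obtain ⟨Q', hQ', h⟩ := e1_ideal j V.valuation
  have hle : Q ≤ Q' := fun x hx => (h x).1 (hV ⟨_, Ideal.mem_map_of_mem _ hx, rfl⟩)
  exact ⟨V, fun x => (h x).trans (by rw [hQ.eq_of_le hQ'.ne_top hle])⟩

theorem e1_one {a b : Γ} (ha : a ≤ 1) (hb : b ≤ 1) (h : a * b = 1) : b = 1 :=
  le_antisymm hb (h ▸ mul_le_of_le_one_left' ha)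

variable [NumberField K]

theorem e1_loc (j : K →+* ℂ) (v : Valuation ℂ Γ) {x : K} (hx : v (j x) ≤ 1) :
    ∃ a b : 𝓞 K, v (j b) = 1 ∧ (b : K) * x = a := by
  obtain ⟨Q, hQ, h⟩ := e1_ideal j v
  have h1 : ∀ b : 𝓞 K, b ∉ Q → v (j b) = 1 := fun b hb =>
    le_antisymm (e1_int j v b) (not_lt.1 fun h2 => hb ((h b).1 h2))
  by_cases h0 : Q = ⊥
  · obtain ⟨a, b, hb, rfl⟩ := IsFractionRing.div_surjective (A := 𝓞 K) x
    have hb0 : b ≠ 0 := nonZeroDivisors.ne_zero hb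
    refine ⟨a, b, h1 b (by rwa [h0, Ideal.mem_bot]), mul_div_cancel₀ _ ?_⟩
    exact fun h2 => hb0 (RingOfIntegers.coe_injective (h2.trans (map_zero _).symm))
  · obtain ⟨n, d, h2 | h2⟩ := HeightOneSpectrum.exists_primeCompl_mul_eq_or_mul_eq (K := K)
      ⟨Q, hQ, h0⟩ x
    · exact ⟨n, d, h1 d d.2, (mul_comm _ _).trans h2⟩
    · refine ⟨d, n, e1_one hx (e1_int j v n) ?_, (mul_comm _ _).trans h2⟩
      rw [← map_mul, ← map_mul]
      exact (congrArg (fun z => v (j z)) h2).trans (h1 d d.2)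

theorem e1_equiv (j : K →+* ℂ) (v : Valuation ℂ Γ) (Q : HeightOneSpectrum (𝓞 K))
    (hQ : ∀ x : 𝓞 K, v (j x) < 1 ↔ x ∈ Q.asIdeal) : (v.comap j).IsEquiv (Q.valuation K) := by
  refine Valuation.isEquiv_iff_val_le_one.2 fun {x} => ⟨fun hx => ?_, fun hx => ?_⟩
  · obtain ⟨a, b, hb, e⟩ := e1_loc j v hx
    have h1 : Q.valuation K (algebraMap _ K b) = 1 :=
      (Q.valuation_eq_one_iff_notMem (K := K)).2 fun h => ((hQ b).2 h).ne hb
    have h2 : Q.valuation K (algebraMap _ K b * x) ≤ 1 := e ▸ Q.valuation_le_one a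
    rwa [map_mul, h1, one_mul] at h2
  · obtain ⟨n, d, e⟩ := Q.exists_primeCompl_mul_eq_of_integer x hx
    have h1 : v (j (algebraMap _ K d.1)) = 1 :=
      le_antisymm (e1_int j v d.1) (not_lt.1 fun h2 => d.2 ((hQ d.1).1 h2))
    have h2 : v (j (x * algebraMap _ K d.1)) ≤ 1 := e ▸ e1_int j v n
    rwa [map_mul, map_mul, h1, mul_one] at h2

theorem e1_frob {k : Type} [Field k] [NumberField k] [Algebra k K] [IsGalois k K] (j : K →+* ℂ)
    (v : Valuation ℂ Γ) {q : Ideal (𝓞 k)} (h0 : q ≠ ⊥)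
    (hq : ∀ x : 𝓞 k, v (j (algebraMap (𝓞 k) (𝓞 K) x)) < 1 ↔ x ∈ q) :
    ∃ g : K ≃ₐ[k] K, ∀ x, v (j x) ≤ 1 → v (j (g x) - j x ^ Ideal.absNorm q) < 1 := by
  obtain ⟨Q, hQ, h⟩ := e1_ideal j v
  have hu : Q.under (𝓞 k) = q := Ideal.ext fun x => (h _).symm.trans (hq x)
  have hG : IsGaloisGroup (K ≃ₐ[k] K) (𝓞 k) (𝓞 K) :=
    IsGaloisGroup.of_isFractionRing (K ≃ₐ[k] K) (𝓞 k) (𝓞 K) k K
  have hne : Q ≠ ⊥ := fun h1 => h0 (by rw [← hu, h1, Ideal.under_bot])
  have : Finite (𝓞 K ⧸ Q) := Ideal.finiteQuotientOfFreeOfNeBot Q hne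
  obtain ⟨g, hg⟩ := IsArithFrobAt.exists_of_isInvariant (𝓞 k) (K ≃ₐ[k] K) Q
  have h1 : ∀ a : 𝓞 K, v (j (g a) - j a ^ Ideal.absNorm q) < 1 := fun a => by
    have h2 := (h _).2 (hg a)
    rw [hu, ← Submodule.cardQuot_apply, ← Ideal.absNorm_apply] at h2
    rw [← map_pow, ← map_sub]
    exact h2
  refine ⟨g, fun x hx => ?_⟩
  obtain ⟨a, b, hb, e⟩ := e1_loc j v hx
  have h2 : v (j (g b)) = 1 := by
    have h3 : v (j b ^ Ideal.absNorm q) = 1 := by rw [map_pow, hb, one_pow]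
    exact (v.map_eq_of_sub_lt (h3.symm ▸ h1 b)).trans h3
  have h3 : j (g b) * (j (g x) - j x ^ Ideal.absNorm q) = (j (g a) - j a ^ Ideal.absNorm q) -
      (j (g b) - j b ^ Ideal.absNorm q) * j x ^ Ideal.absNorm q := by
    rw [← e, map_mul, map_mul, map_mul, mul_pow]
    ring
  have h4 : v ((j (g b) - j b ^ Ideal.absNorm q) * j x ^ Ideal.absNorm q) < 1 := by
    rw [map_mul, map_pow]
    exact mul_lt_one_of_lt_of_le (h1 b) (pow_le_one' hx _)
  have h5 := v.map_sub_lt (h1 a) h4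
  rwa [← h3, map_mul, h2, one_mul] at h5

end e1

theorem e1_integral {x : ℂ} (h : ∀ V : ValuationSubring ℂ, V.valuation x ≤ 1) :
    IsIntegral ℤ x := by
  by_contra hx
  obtain ⟨V, -, hV⟩ := Subring.exists_le_valuationSubring_of_isIntegrallyClosedIn
    (R := (integralClosure ℤ ℂ).toSubring) (x := x) hx
  exact hV ((V.valuation_le_one_iff x).1 (h V))

namespace St

variable (s : St) (F : IntermediateField s.k ℂ)

theorem exists_val [FiniteDimensional s.k F] (Q : Ideal (𝓞 F)) (hQ : Q.IsPrime) (h0 : Q ≠ ⊥) :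
    ∃ V : ValuationSubring ℂ, ∀ x : 𝓞 F, V.valuation ((x : F) : ℂ) < 1 ↔ x ∈ Q := by
  have : NumberField F := NumberField.of_module_finite s.k F
  exact e1_val (algebraMap F ℂ) Q (hQ.isMaximal h0)

theorem exists_ideal (v : Valuation ℂ Γ) :
    ∃ Q : Ideal (𝓞 F), Q.IsPrime ∧ ∀ x : 𝓞 F, v ((x : F) : ℂ) < 1 ↔ x ∈ Q := by
  exact e1_ideal (algebraMap F ℂ) v

theorem loc [FiniteDimensional s.k F] (v : Valuation ℂ Γ) {x : F} (hx : v (x : ℂ) ≤ 1) :
    ∃ a b : 𝓞 F, v ((b : F) : ℂ) = 1 ∧ (b : F) * x = a := by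
  have : NumberField F := NumberField.of_module_finite s.k F
  exact e1_loc (algebraMap F ℂ) v hx

theorem val_equiv [NumberField F] (v : Valuation ℂ Γ) (Q : HeightOneSpectrum (𝓞 F))
    (hQ : ∀ x : 𝓞 F, v ((x : F) : ℂ) < 1 ↔ x ∈ Q.asIdeal) (x y : F) :
    v (x : ℂ) ≤ v (y : ℂ) ↔ Q.valuation F x ≤ Q.valuation F y := by
  exact e1_equiv (algebraMap F ℂ) v Q hQ x y

theorem under_mem (Q : Ideal (𝓞 F)) (x : s.O) :
    x ∈ Q.under s.O ↔ ∃ y ∈ Q, ((y : F) : ℂ) = s.c x := by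
  refine ⟨fun h => ⟨_, h, rfl⟩, ?_⟩
  rintro ⟨y, hy, e⟩
  have h1 : y = algebraMap s.O (𝓞 F) x := RingOfIntegers.ext (Subtype.ext e)
  rw [h1] at hy
  exact hy

theorem frobOn [FiniteDimensional s.k F] [IsGalois s.k F] (v : Valuation ℂ Γ) {q : Ideal s.O}
    (h0 : q ≠ ⊥) (hq : ∀ x, v (s.c x) < 1 ↔ x ∈ q) :
    ∃ σ : s.Au, FrobOn v (Ideal.absNorm q) σ F := by
  have : NumberField F := NumberField.of_module_finite s.k F
  obtain ⟨g, hg⟩ := e1_frob (k := s.k) (algebraMap F ℂ) v h0 hq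
  obtain ⟨ρ, hρ, h⟩ := s.exists_res F
  obtain ⟨σ, rfl⟩ := hρ g
  refine ⟨σ, fun x hx hv => ?_⟩
  rw [← h σ ⟨x, hx⟩]
  exact hg ⟨x, hx⟩ hv

theorem unit_of_val [FiniteDimensional s.k F] {x : ℂ} (hx : x ∈ F)
    (h : ∀ V : ValuationSubring ℂ, V.valuation x = 1) :
    ∃ u : (𝓞 F)ˣ, (((u : 𝓞 F) : F) : ℂ) = x := by
  have h0 : x ≠ 0 := fun h1 => by
    have h2 := h ⊤
    rw [h1, map_zero] at h2
    exact zero_ne_one h2
  have hi : ∀ y : F, IsIntegral ℤ (y : ℂ) → IsIntegral ℤ y := fun y hy =>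
    (isIntegral_algHom_iff (algebraMap F ℂ).toIntAlgHom (algebraMap F ℂ).injective).1 hy
  have h1 := hi ⟨x, hx⟩ (e1_integral fun V => (h V).le)
  have h2 := hi ⟨x⁻¹, F.inv_mem hx⟩ (e1_integral fun V => by rw [map_inv₀, h V, inv_one])
  exact ⟨⟨⟨_, h1⟩, ⟨_, h2⟩, RingOfIntegers.ext (Subtype.ext (mul_inv_cancel₀ h0)),
    RingOfIntegers.ext (Subtype.ext (inv_mul_cancel₀ h0))⟩, rfl⟩

theorem exists_unram [FiniteDimensional s.k F] [IsGalois s.k F] : ∃ C : ℕ, C ≠ 0 ∧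
    ∀ (V : ValuationSubring ℂ) (σ : s.Au), V.valuation C = 1 →
      (∀ x : 𝓞 F, V.valuation (σ ((x : F) : ℂ) - ((x : F) : ℂ)) < 1) → ∀ x ∈ F, σ x = x := by
  have : NumberField F := NumberField.of_module_finite s.k F
  have h1 : ∀ g : F ≃ₐ[s.k] F, ∃ C : ℕ, C ≠ 0 ∧ ∀ V : ValuationSubring ℂ, V.valuation C = 1 →
      (∀ x : 𝓞 F, V.valuation (((g x : F) : ℂ) - ((x : F) : ℂ)) < 1) → ∀ x, g x = x := by
    intro g
    by_cases h : ∀ x : 𝓞 F, g x = x
    · refine ⟨1, one_ne_zero, fun _ _ _ x => ?_⟩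
      obtain ⟨a, b, -, rfl⟩ := IsFractionRing.div_surjective (A := 𝓞 F) x
      rw [map_div₀]
      exact congrArg₂ _ (h a) (h b)
    · obtain ⟨x, hx⟩ := not_forall.1 h
      obtain ⟨C, hC, h2⟩ := exists_nat_mul (s.alg_of_mem F (F.sub_mem (g x).2 (x : F).2))
        fun h3 => hx (Subtype.ext (sub_eq_zero.1 h3))
      exact ⟨C, hC, fun V hV h3 => absurd (h2 V hV) (h3 x).ne⟩
  choose C hC h2 using h1
  obtain ⟨ρ, -, h⟩ := s.exists_res F
  refine ⟨∏ g, C g, Finset.prod_ne_zero_iff.2 fun g _ => hC g, fun V σ hV h3 x hx => ?_⟩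
  have h4 := h2 (ρ σ) V (v_nat_dvd _ (Finset.dvd_prod_of_mem C (Finset.mem_univ _)) hV)
    (fun y => by rw [h]; exact h3 y) ⟨x, hx⟩
  exact (h σ ⟨x, hx⟩).symm.trans (congrArg Subtype.val h4)

end St

end Pool.Agent.P.MP_20768c_nt.Az.Cu

end

-- part Cu.E2_p
section

set_option autoImplicit false

open Complex NumberField IsDedekindDomain Filter Topology
open UpperHalfPlane hiding I
open scoped ComplexConjugate Real MatrixGroups

namespace Pool.Agent.P.MP_20768c_nt.Az.Cu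

open Pool.Agent.P.MP_20768c_nt.Az.EQ (Lt pr sp IsLat jL qN)

open scoped Pointwise in
theorem e2p_abs {F Ω : Type} [Field F] [Field Ω] [Algebra F Ω] [IsGalois F Ω]
    (P : Ideal (𝓞 Ω)) [hP : P.IsPrime] (τ : 𝓞 Ω ≃+* 𝓞 Ω)
    (hτ : ∀ a : 𝓞 F, τ (algebraMap (𝓞 F) (𝓞 Ω) a) - algebraMap (𝓞 F) (𝓞 Ω) a ∈ P) :
    ∃ h : Ω ≃ₐ[F] Ω, ∀ b : 𝓞 Ω, τ (h • b) - b ∈ P := by
  let : TopologicalSpace (𝓞 Ω) := ⊥
  have : DiscreteTopology (𝓞 Ω) := ⟨rfl⟩
  have hs : ∀ (h : Ω ≃ₐ[F] Ω) (b : 𝓞 Ω), ((h • b : 𝓞 Ω) : Ω) = h (b : Ω) := fun _ _ => rfl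
  have ha : ∀ a : 𝓞 F, ((algebraMap (𝓞 F) (𝓞 Ω) a : 𝓞 Ω) : Ω) = algebraMap F Ω (a : F) :=
    fun _ => rfl
  have hfix : ∀ (h : Ω ≃ₐ[F] Ω) (a : 𝓞 F),
      h • algebraMap (𝓞 F) (𝓞 Ω) a = algebraMap (𝓞 F) (𝓞 Ω) a := fun h a =>
    RingOfIntegers.ext (by rw [hs, ha, AlgEquiv.commutes])
  have : ContinuousSMul (Ω ≃ₐ[F] Ω) (𝓞 Ω) := by
    refine continuousSMul_iff_stabilizer_isOpen.2 fun b => ?_
    have e : MulAction.stabilizer (Ω ≃ₐ[F] Ω) b = MulAction.stabilizer (Ω ≃ₐ[F] Ω) (b : Ω) := by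
      ext h
      rw [MulAction.mem_stabilizer_iff, MulAction.mem_stabilizer_iff]
      exact ⟨fun k => congrArg (fun y : 𝓞 Ω => (y : Ω)) k, fun k => RingOfIntegers.ext k⟩
    rw [e]
    exact stabilizer_isOpen_of_isIntegral _
  have : SMulCommClass (Ω ≃ₐ[F] Ω) (𝓞 F) (𝓞 Ω) := ⟨fun h a b => by
    rw [Algebra.smul_def, Algebra.smul_def, smul_mul', hfix]⟩
  have : Algebra.IsInvariant (𝓞 F) (𝓞 Ω) (Ω ≃ₐ[F] Ω) := ⟨fun b hb => by
    obtain ⟨y, hy⟩ := (InfiniteGalois.mem_range_algebraMap_iff_fixed (k := F) (b : Ω)).2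
      fun h => congrArg (fun y : 𝓞 Ω => (y : Ω)) (hb h)
    have hi : IsIntegral ℤ y := by
      rw [← isIntegral_algebraMap_iff (algebraMap F Ω).injective, hy]
      exact b.isIntegral_coe
    exact ⟨⟨y, hi⟩, RingOfIntegers.ext hy⟩⟩
  obtain ⟨h₁, e₁⟩ := Algebra.IsInvariant.exists_smul_of_under_eq_of_profinite (A := 𝓞 F)
    (G := Ω ≃ₐ[F] Ω) P (P.comap τ) (by
      ext a
      rw [Ideal.under_def, Ideal.under_def, Ideal.mem_comap, Ideal.mem_comap, Ideal.mem_comap]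
      constructor
      · intro k
        simpa using add_mem (hτ a) k
      · intro k
        simpa using sub_mem k (hτ a))
  let τ₁ : 𝓞 Ω ≃+* 𝓞 Ω := (MulSemiringAction.toRingEquiv (Ω ≃ₐ[F] Ω) (𝓞 Ω) h₁).trans τ
  have t1 : ∀ b, τ₁ b = τ (h₁ • b) := fun _ => rfl
  have hst : ∀ b, τ₁ b ∈ P ↔ b ∈ P := fun b => by
    rw [t1, ← Ideal.mem_comap, e₁, Ideal.smul_mem_pointwise_smul_iff]
  have hmap : P = P.map (τ₁ : 𝓞 Ω →+* 𝓞 Ω) := by
    rw [Ideal.map_comap_of_equiv]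
    ext b
    rw [Ideal.mem_comap, ← hst (τ₁.symm b), RingEquiv.apply_symm_apply]
  let σ : (𝓞 Ω ⧸ P) ≃ₐ[𝓞 F ⧸ P.under (𝓞 F)] 𝓞 Ω ⧸ P :=
    AlgEquiv.ofRingEquiv (f := Ideal.quotientEquiv P P τ₁ hmap) fun a => by
      obtain ⟨a, rfl⟩ := Ideal.Quotient.mk_surjective a
      change Ideal.Quotient.mk P (τ₁ (algebraMap (𝓞 F) (𝓞 Ω) a)) =
        Ideal.Quotient.mk P (algebraMap (𝓞 F) (𝓞 Ω) a)
      rw [Ideal.Quotient.eq, t1, hfix]
      exact hτ a
  obtain ⟨h₂, e₂⟩ := Ideal.Quotient.stabilizerHom_surjective_of_profinite (G := Ω ≃ₐ[F] Ω)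
    (P.under (𝓞 F)) P σ
  refine ⟨h₁ * h₂.1⁻¹, fun b => ?_⟩
  have k := DFunLike.congr_fun e₂ (Ideal.Quotient.mk P (h₂.1⁻¹ • b))
  change Ideal.Quotient.mk P (h₂.1 • h₂.1⁻¹ • b) = Ideal.Quotient.mk P (τ₁ (h₂.1⁻¹ • b)) at k
  rw [smul_inv_smul] at k
  rw [mul_smul, ← t1]
  exact Ideal.Quotient.eq.1 k.symm

theorem e2p_int {Γ : Type} [LinearOrderedCommGroupWithZero Γ] (v : Valuation ℂ Γ) {y : ℂ}
    (hy : IsIntegral ℤ y) : v y ≤ 1 :=
  (Valuation.integer.integers v).mem_of_integral hy.tower_top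

namespace St

variable (s : St) (F : IntermediateField s.k ℂ) {Γ : Type} [LinearOrderedCommGroupWithZero Γ]

theorem e2p_inert (v : Valuation ℂ Γ) (σ : s.Au)
    (h : ∀ y : ℂ, IsIntegral ℤ y → v (σ y - y) < 1) : Inert v σ := by
  intro x hx hv
  obtain ⟨E, hE, _, hm⟩ := s.exists_gal (Set.finite_singleton x) (by rintro _ rfl; exact hx)
  obtain ⟨a, b, hb, hab⟩ := s.loc E v (x := ⟨x, hm x rfl⟩) hv
  have ia : IsIntegral ℤ ((a : E) : ℂ) := a.isIntegral_coe.map E.val.toRingHom.toIntAlgHom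
  have ib : IsIntegral ℤ ((b : E) : ℂ) := b.isIntegral_coe.map E.val.toRingHom.toIntAlgHom
  have e : ((b : E) : ℂ) * x = ((a : E) : ℂ) := congrArg Subtype.val hab
  have e' : σ ((b : E) : ℂ) * σ x = σ ((a : E) : ℂ) := by rw [← map_mul, e]
  have hσb : v (σ ((b : E) : ℂ)) = 1 := by
    have := v.map_add_eq_of_lt_left (x := ((b : E) : ℂ)) (y := σ ((b : E) : ℂ) - ((b : E) : ℂ))
      (by rw [hb]; exact h _ ib)
    rwa [add_sub_cancel, hb] at this
  have k : σ ((b : E) : ℂ) * (σ x - x) =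
      (σ ((a : E) : ℂ) - ((a : E) : ℂ)) - (σ ((b : E) : ℂ) - ((b : E) : ℂ)) * x := by
    linear_combination e' - e
  have k2 := congrArg v k
  rw [map_mul, hσb, one_mul] at k2
  rw [k2]
  refine v.map_sub_lt (h _ ia) ?_
  rw [map_mul]
  exact mul_lt_one_of_lt_of_le (h _ ib) hv

theorem lift_inert [FiniteDimensional s.k F] [IsGalois s.k F] (v : Valuation ℂ Γ)
    (g : F ≃ₐ[s.k] F) (hg : ∀ x : 𝓞 F, v (((g x : F) : ℂ) - ((x : F) : ℂ)) < 1) :
    ∃ σ : s.Au, Inert v σ ∧ ∀ x : F, σ x = ((g x : F) : ℂ) := by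
  obtain ⟨σ₀, h₀⟩ := s.ext_aut F (F.val.comp g.toAlgHom)
  have h₀' : ∀ x : F, σ₀ x = ((g x : F) : ℂ) := h₀
  have : NumberField F := NumberField.of_module_finite s.k F
  let Ω : IntermediateField F ℂ := algebraicClosure F ℂ
  have hΩ : ∀ x : ℂ, x ∈ Ω ↔ IsAlgebraic ℚ x := fun x => by
    rw [mem_algebraicClosure_iff]
    exact ⟨fun k => k.restrictScalars ℚ, fun k => k.tower_top F⟩
  have : IsGalois F Ω := inferInstance
  have : Countable Ω :=
    ((Algebraic.countable ℚ ℂ).mono fun x hx => (hΩ x).1 hx).to_subtype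
  let τ₀ : Ω ≃+* Ω :=
    { toFun := fun x => ⟨σ₀ x, (hΩ _).2 (s.au_alg σ₀ ((hΩ _).1 x.2))⟩
      invFun := fun x => ⟨σ₀.symm x, (hΩ _).2 (s.au_alg σ₀.symm ((hΩ _).1 x.2))⟩
      left_inv := fun x => Subtype.ext (σ₀.symm_apply_apply x)
      right_inv := fun x => Subtype.ext (σ₀.apply_symm_apply x)
      map_mul' := fun x y => Subtype.ext (map_mul σ₀ (x : ℂ) y)
      map_add' := fun x y => Subtype.ext (map_add σ₀ (x : ℂ) y) }
  obtain ⟨P, hP, hmem⟩ : ∃ P : Ideal (𝓞 Ω), P.IsPrime ∧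
      ∀ x : 𝓞 Ω, v ((x : Ω) : ℂ) < 1 ↔ x ∈ P := s.exists_ideal (Ω.restrictScalars s.k) v
  obtain ⟨h, hh⟩ := e2p_abs (F := F) P (RingOfIntegers.mapRingEquiv τ₀) fun a => by
    rw [← hmem]
    have := hg a
    rw [← h₀'] at this
    exact this
  obtain ⟨σ, hσ⟩ := Pool.Agent.P.MP_20768c_nt.Az.EQ.exists_aut (A := Ω) Ω.val.toRingHom
    (σ₀.toRingEquiv.toRingHom.comp (Ω.val.toRingHom.comp h.toRingEquiv.toRingHom))
  have hσ' : ∀ x : Ω, σ (x : ℂ) = σ₀ ((h x : Ω) : ℂ) := hσ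
  have hF : ∀ x : F, σ x = ((g x : F) : ℂ) := fun x => by
    have := hσ' (algebraMap F Ω x)
    rw [AlgEquiv.commutes] at this
    exact this.trans (h₀' x)
  let σ' : s.Au := AlgEquiv.ofRingEquiv (f := σ) fun a => by
    have := hF (algebraMap s.k F a)
    rw [AlgEquiv.commutes] at this
    exact this
  refine ⟨σ', s.e2p_inert v σ' fun y hy => ?_, hF⟩
  have hy' : y ∈ Ω := (hΩ y).2 (hy.tower_top (A := ℚ)).isAlgebraic
  have hi : IsIntegral ℤ (⟨y, hy'⟩ : Ω) :=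
    (isIntegral_algebraMap_iff (R := ℤ) (algebraMap Ω ℂ).injective).1 hy
  have k := (hmem _).2 (hh ⟨⟨y, hy'⟩, hi⟩)
  have e : σ' y = σ₀ ((h ⟨y, hy'⟩ : Ω) : ℂ) := hσ' ⟨y, hy'⟩
  rw [e]
  exact k

end St

end Pool.Agent.P.MP_20768c_nt.Az.Cu

end

-- part Ex.X1
section

set_option autoImplicit false

open Complex NumberField IsDedekindDomain
open scoped Real

namespace Pool.Agent.P.MP_20768c_nt.Az.Cu

theorem x1_place {l : ℕ} (hl : l.Prime) : ∃ V : ValuationSubring ℂ, V.valuation l < 1 := by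
  by_contra h
  push Not at h
  have h1 : IsIntegral ℤ ((l : ℂ)⁻¹) := e1_integral fun V => by
    rw [map_inv₀]
    exact inv_le_one_of_one_le₀ (h V)
  have h2 : IsIntegral ℤ ((l : ℚ)⁻¹) := by
    rw [← isIntegral_algebraMap_iff (B := ℂ) (algebraMap ℚ ℂ).injective]
    simpa using h1
  obtain ⟨n, hn⟩ := IsIntegrallyClosed.isIntegral_iff.1 h2
  have h3 : (l : ℚ) * n = 1 := by
    rw [show (n : ℚ) = (l : ℚ)⁻¹ from hn]
    exact mul_inv_cancel₀ (Nat.cast_ne_zero.2 hl.ne_zero)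
  have h4 : (l : ℤ) * n = 1 := by exact_mod_cast h3
  exact hl.not_dvd_one (Int.natCast_dvd_natCast.1 (Dvd.intro _ h4))

section
variable {Γ : Type} [LinearOrderedCommGroupWithZero Γ] (v : Valuation ℂ Γ)

theorem x1_int {l : ℕ} (hl : l.Prime) (h : v l < 1) {n : ℤ} (hn : v n < 1) : (l : ℤ) ∣ n := by
  by_contra hd
  obtain ⟨a, b, hab⟩ := (Nat.prime_iff_prime_int.1 hl).irreducible.coprime_iff_not_dvd.2 hd
  have e : (l : ℂ) * a + n * b = 1 := by
    rw [mul_comm, mul_comm (n : ℂ)]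
    exact_mod_cast hab
  have h1 := v.map_add_lt (St.c1a_lt v h (St.c1a_int v a)) (St.c1a_lt v hn (St.c1a_int v b))
  rw [e, map_one] at h1
  exact lt_irrefl _ h1

theorem x1_pow {x y : ℂ} (hx : v x ≤ 1) (hy : v y ≤ 1) (h : v (x - y) < 1) (j : ℕ) :
    v (x ^ j - y ^ j) < 1 := by
  induction j with
  | zero => simp
  | succ j ih =>
    rw [show x ^ (j + 1) - y ^ (j + 1) = (x ^ j - y ^ j) * x + (x - y) * y ^ j by ring]
    exact v.map_add_lt (St.c1a_lt v ih hx)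
      (St.c1a_lt v h (by rw [map_pow]; exact pow_le_one₀ zero_le hy))

theorem x1_eta {l d a : ℕ} (hl : l.Prime) (hd : 0 < d) (ha : ∀ j : ℕ, a ^ j ≡ 1 [MOD l] ↔ d ∣ j)
    (h : v l < 1) : ∃ η, IsPrimitiveRoot η d ∧ v (∑ t ∈ Finset.range d, η⁻¹ ^ t * a ^ t) = 1 := by
  have va : v a ≤ 1 := by exact_mod_cast St.c1a_int v a
  have h1 : v ((a : ℂ) ^ d - 1) < 1 := by
    obtain ⟨n, hn⟩ := (Nat.modEq_iff_dvd.1 ((ha d).2 dvd_rfl).symm)
    have e : (a : ℂ) ^ d - 1 = l * n := by exact_mod_cast hn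
    rw [e]
    exact St.c1a_lt v h (St.c1a_int v n)
  have h2 := congrArg (Polynomial.eval (a : ℂ))
    (Polynomial.X_pow_sub_one_eq_prod hd (Complex.isPrimitiveRoot_exp d hd.ne'))
  simp only [Polynomial.eval_sub, Polynomial.eval_pow, Polynomial.eval_X, Polynomial.eval_one,
    Polynomial.eval_prod, Polynomial.eval_C] at h2
  obtain ⟨η, hη, h3⟩ : ∃ η ∈ Polynomial.nthRootsFinset d (1 : ℂ), v (a - η) < 1 := by
    by_contra hc
    push Not at hc
    rw [h2, map_prod] at h1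
    exact absurd (Finset.one_le_prod' hc) (not_le.2 h1)
  rw [Polynomial.mem_nthRootsFinset hd] at hη
  have vη := St.v_root v hd hη
  have η0 : η ≠ 0 := fun e => by simp [e] at vη
  have vd : v d = 1 := by
    refine le_antisymm (by exact_mod_cast St.c1a_int v d) (not_lt.1 fun hc => ?_)
    have h4 : l ∣ d := Int.natCast_dvd_natCast.1 (x1_int v hl h (by exact_mod_cast hc))
    have h5 : a.Coprime l := Nat.Coprime.coprime_dvd_left (dvd_pow_self a hd.ne')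
      (Nat.coprime_of_mul_modEq_one 1 (by rw [mul_one]; exact (ha d).2 dvd_rfl))
    have h6 := (ha _).1 (Nat.ModEq.pow_totient h5)
    rw [Nat.totient_prime hl] at h6
    have := Nat.le_of_dvd (Nat.sub_pos_of_lt hl.one_lt) (h4.trans h6)
    have := hl.pos
    omega
  refine ⟨η, ⟨hη, fun j hj => (ha j).1 ?_⟩, ?_⟩
  · have h4 := x1_pow v va vη.le h3 j
    rw [hj] at h4
    exact (Nat.modEq_iff_dvd.2 (x1_int v hl h (by exact_mod_cast h4))).symm
  · have h4 : v (∑ t ∈ Finset.range d, (η⁻¹ ^ t * a ^ t - 1)) < 1 := by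
      refine v.map_sum_lt one_ne_zero fun t _ => ?_
      rw [show η⁻¹ ^ t * a ^ t - 1 = (a ^ t - η ^ t) * η⁻¹ ^ t by
        rw [sub_mul, ← mul_pow η, mul_inv_cancel₀ η0, one_pow, mul_comm]]
      exact St.c1a_lt v (x1_pow v va vη.le h3 t) (by rw [map_pow, map_inv₀, vη]; simp)
    rw [Finset.sum_sub_distrib, Finset.sum_const, Finset.card_range, nsmul_eq_mul, mul_one,
      ← vd] at h4
    rw [← vd]
    exact v.map_eq_of_sub_lt h4

end

theorem x1_ev {ι K : Type} [Fintype K] [DecidableEq K] {l d a : ℕ} (hl : l.Prime) (hd : 0 < d)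
    (ha : ∀ j : ℕ, a ^ j ≡ 1 [MOD l] ↔ d ∣ j) (p : ι → ι) (hp : p^[d] = id) (R : Finset ι)
    (hR : ∀ (η : ℂ) (f : ι → ℂ), IsPrimitiveRoot η d → (∀ i, f (p i) = η * f i) →
      (∀ i ∈ R, f i = 0) → f = 0)
    (M : Submodule ℤ (ι → ℂ)) (hM : ∀ f ∈ M, f ∘ p ∈ M) (x : K → ι → ℂ)
    (he : ∀ j, ∃ z ∈ M, x j ∘ p = (a : ℂ) • x j + (l : ℂ) • z) (P : K → (ι → ℂ) →ₗ[ℂ] ℂ)
    (hP : ∀ j, ∀ f ∈ M, ∃ n : ℤ, P j f = n)
    (hP' : ∀ j j', ∃ n : ℤ, P j (x j') = (if j = j' then 1 else 0) + l * n) :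
    Fintype.card K ≤ R.card := by
  obtain ⟨V, hV⟩ := x1_place hl
  generalize V.valuation = v at hV
  obtain ⟨η, hη, hs⟩ := x1_eta v hl hd ha hV
  have η0 := hη.ne_zero hd.ne'
  have vη := St.v_root v hd hη.pow_eq_one
  have hit : ∀ j t, ∃ z ∈ M, x j ∘ p^[t] = (a : ℂ) ^ t • x j + (l : ℂ) • z := fun j t => by
    induction t with
    | zero => exact ⟨0, zero_mem _, by simp⟩
    | succ t ih =>
      obtain ⟨z, hz, e⟩ := ih
      obtain ⟨z', hz', e'⟩ := he j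
      refine ⟨(a ^ t) • z' + z ∘ p, add_mem (nsmul_mem hz' _) (hM z hz), funext fun i => ?_⟩
      have e1 := congrFun e (p i)
      have e2 := congrFun e' i
      simp only [Function.comp, Pi.add_apply, Pi.smul_apply, smul_eq_mul, nsmul_eq_mul,
        Function.iterate_succ, Nat.cast_pow, Pi.mul_apply, Pi.pow_apply, Pi.natCast_apply] at e1 e2 ⊢
      rw [e1, e2]
      ring
  choose z hz hz' using hit
  let Y : K → ι → ℂ := fun j => ∑ t ∈ Finset.range d, η⁻¹ ^ t • (x j ∘ p^[t])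
  have hY : ∀ j i, Y j (p i) = η * Y j i := fun j i => by
    have e1 := Finset.sum_range_succ' (fun t => η⁻¹ ^ t * x j (p^[t] i)) d
    rw [Finset.sum_range_succ, hp, inv_pow, hη.pow_eq_one, inv_one, pow_zero] at e1
    simp only [Y, Finset.sum_apply, Pi.smul_apply, smul_eq_mul, Function.comp]
    rw [add_right_cancel e1, Finset.mul_sum]
    refine Finset.sum_congr rfl fun t _ => ?_
    rw [Function.iterate_succ_apply, pow_succ', ← mul_assoc, ← mul_assoc, mul_inv_cancel₀ η0,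
      one_mul]
  generalize hσ : ∑ t ∈ Finset.range d, η⁻¹ ^ t * (a : ℂ) ^ t = σ at hs
  have hPY : ∀ j j', ∃ w, v w ≤ 1 ∧ P j (Y j') = (if j = j' then σ else 0) + l * w := fun j j' => by
    obtain ⟨n, hn⟩ := hP' j j'
    refine ⟨σ * n + ∑ t ∈ Finset.range d, η⁻¹ ^ t * P j (z j' t), v.map_add_le ?_ ?_, ?_⟩
    · rw [map_mul, hs, one_mul]
      exact St.c1a_int v n
    · refine v.map_sum_le fun t _ => ?_
      obtain ⟨n', hn'⟩ := hP j _ (hz j' t)
      rw [map_mul, map_pow, map_inv₀, vη, inv_one, one_pow, one_mul, hn']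
      exact St.c1a_int v n'
    · have e : P j (Y j') = σ * P j (x j') +
          l * ∑ t ∈ Finset.range d, η⁻¹ ^ t * P j (z j' t) := by
        rw [← hσ, Finset.sum_mul, Finset.mul_sum, ← Finset.sum_add_distrib, map_sum]
        refine Finset.sum_congr rfl fun t _ => ?_
        rw [hz', map_smul, map_add, map_smul, map_smul]
        simp only [smul_eq_mul]
        ring
      rw [e, hn]
      split_ifs <;> ring
  choose w hw hw' using hPY
  have hli : LinearIndependent ℂ fun (j : K) (r : R) => Y j r := by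
    refine Fintype.linearIndependent_iff.2 fun g hg j1 => ?_
    have h0 : ∑ j, g j • Y j = 0 := by
      refine hR η _ hη (fun i => ?_) fun i hi => ?_
      · simp only [Finset.sum_apply, Pi.smul_apply, smul_eq_mul, hY, Finset.mul_sum, mul_left_comm]
      · simpa only [Finset.sum_apply, Pi.smul_apply, Pi.zero_apply] using congrFun hg ⟨i, hi⟩
    obtain ⟨j, -, hj⟩ := Finset.exists_max_image Finset.univ (fun j => v (g j)) ⟨j1, Finset.mem_univ _⟩
    have h1 := congrArg (P j) h0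
    simp only [map_sum, map_smul, hw', smul_eq_mul, mul_add, Finset.sum_add_distrib, mul_ite,
      mul_zero, Finset.sum_ite_eq, Finset.mem_univ, if_true, map_zero] at h1
    have h2 : v (g j) ≤ v (g j) * v l := by
      conv_lhs => rw [← mul_one (v (g j)), ← hs, ← map_mul, eq_neg_of_add_eq_zero_left h1, v.map_neg]
      refine v.map_sum_le fun j' _ => ?_
      rw [map_mul, map_mul]
      exact mul_le_mul' (hj j' (Finset.mem_univ _)) (mul_le_of_le_one_right' (hw j j'))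
    by_contra h3
    have h4 : 0 < v (g j) := (v.pos_iff.2 h3).trans_le (hj j1 (Finset.mem_univ _))
    exact absurd h2 (not_le.2 (mul_lt_of_lt_one_right h4 hV))
  simpa using hli.fintype_card_le_finrank

theorem x1_evg {G ι J : Type} [CommGroup G] [Fintype J] {l d a : ℕ} (hl : l.Prime) (hd : 0 < d)
    (ha : ∀ j : ℕ, a ^ j ≡ 1 [MOD l] ↔ d ∣ j) (p : ι → ι) (hp : p^[d] = id) (R : Finset ι)
    (hR : ∀ (η : ℂ) (f : ι → ℂ), IsPrimitiveRoot η d → (∀ i, f (p i) = η * f i) →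
      (∀ i ∈ R, f i = 0) → f = 0)
    (L : G → ι → ℂ) (hL : ∀ x y, L (x * y) = L x + L y) (δ : G →* G)
    (hδ : ∀ x i, L (δ x) i = L x (p i)) (B Z : Subgroup G) (hB : ∀ x ∈ B, δ x ∈ B)
    (hsat : ∀ y, y ^ l ∈ B → y ∈ B) (hZ : ∀ x ∈ B, L x = 0 → x ∈ Z) (b : J → G)
    (hb : ∀ i, b i ∈ B) (hi : LinearIndependent ℂ fun i => L (b i))
    (hs : ∀ x ∈ B, L x ∈ Submodule.span ℤ (Set.range fun i => L (b i))) :
    (Z ⊔ (powMonoidHom l : G →* G).range).relIndex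
        ((B ⊔ (powMonoidHom l : G →* G).range) ⊓ Xe δ a l) ≠ 0 ∧
      (Z ⊔ (powMonoidHom l : G →* G).range).relIndex
        ((B ⊔ (powMonoidHom l : G →* G).range) ⊓ Xe δ a l) ≤ l ^ R.card := by
  classical
  have : Fact l.Prime := ⟨hl⟩
  let Lh : G →* Multiplicative (ι → ℂ) :=
    MonoidHom.mk' (fun x => Multiplicative.ofAdd (L x)) fun x y => congrArg _ (hL x y)
  have Lp : ∀ x (n : ℕ), L (x ^ n) = n • L x := fun x n => map_pow Lh x n
  have Lz : ∀ x (n : ℤ), L (x ^ n) = n • L x := fun x n => map_zpow Lh x n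
  have Ld : ∀ x y, L (x / y) = L x - L y := fun x y => map_div Lh x y
  have Lq : ∀ f : J → G, L (∏ i, f i) = ∑ i, L (f i) := fun f => map_prod Lh f _
  have h1 : ∀ x : (B ⊓ Xe δ a l : Subgroup G), ∃ c : J → ℤ, ∑ i, c i • L (b i) = L x := fun x =>
    (Submodule.mem_span_range_iff_exists_fun ℤ).1 (hs x x.2.1)
  choose c hc using h1
  have hu := (hi.restrict_scalars' ℤ).fintypeLinearCombination_injective
  let φ : (B ⊓ Xe δ a l : Subgroup G) →* Multiplicative (J → ZMod l) :=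
    MonoidHom.mk' (fun x => Multiplicative.ofAdd fun i => (c x i : ZMod l)) fun x y => by
      have e : c (x * y) = c x + c y := hu (by
        rw [map_add]
        simp only [Fintype.linearCombination_apply, hc]
        exact hL x y)
      rw [← ofAdd_add, e]
      congr 1
      funext i
      exact Int.cast_add _ _
  let S : Submodule (ZMod l) (J → ZMod l) :=
    AddSubgroup.toZModSubmodule l (Subgroup.toAddSubgroup' φ.range)
  have h2 := f0a_p_index φ ((Z ⊔ (powMonoidHom l : G →* G).range).subgroupOf _) φ.range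
    (Set.toFinite _) (fun x hx => by
      have h3 : ∀ i, ∃ j : ℤ, c x i = l * j := fun i =>
        (ZMod.intCast_zmod_eq_zero_iff_dvd _ _).1
          (congrFun (congrArg Multiplicative.toAdd (MonoidHom.mem_ker.1 hx)) i)
      choose j hj using h3
      have h4 : x.1 / (∏ i, b i ^ j i) ^ l ∈ Z := by
        refine hZ _ (div_mem x.2.1 (pow_mem (prod_mem fun i _ => zpow_mem (hb i) _) _)) ?_
        rw [Ld, Lp, Lq, ← hc, Finset.smul_sum, sub_eq_zero]
        exact Finset.sum_congr rfl fun i _ => by rw [hj, Lz, mul_smul, natCast_zsmul]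
      rw [Subgroup.mem_subgroupOf, ← div_mul_cancel x.1 ((∏ i, b i ^ j i) ^ l)]
      exact Subgroup.mul_mem_sup h4 ⟨_, rfl⟩) fun g => ⟨g, rfl⟩
  have h3 : Module.finrank (ZMod l) S ≤ R.card := by
    let e := Module.finBasis (ZMod l) S
    have h4 : ∀ j, ∃ x, (fun i => (c x i : ZMod l)) = (e j).1 := fun j => (e j).2
    choose x hx using h4
    choose g hg using fun j => (e.coord j).exists_extend
    choose P hP using fun j => ((Module.Basis.span hi).constr ℂ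
      fun i => (((g j (Pi.single i 1)).val : ℤ) : ℂ)).exists_extend
    have hP1 : ∀ j (t : J → ℤ), P j (∑ i, t i • L (b i)) =
        ((∑ i, t i * (g j (Pi.single i 1)).val : ℤ) : ℂ) := fun j t => by
      rw [map_sum, Int.cast_sum]
      refine Finset.sum_congr rfl fun i _ => ?_
      have e1 := LinearMap.congr_fun (hP j) (Module.Basis.span hi i)
      rw [Module.Basis.constr_basis, LinearMap.comp_apply, Submodule.subtype_apply,
        Module.Basis.span_apply] at e1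
      rw [map_zsmul, e1, zsmul_eq_mul, Int.cast_mul]
    rw [← Fintype.card_fin (Module.finrank (ZMod l) S)]
    refine x1_ev hl hd ha p hp R hR (Submodule.span ℤ (Set.range fun i => L (b i)))
      (fun f hf => ?_) (fun j => L (x j)) (fun j => ?_) P (fun j f hf => ?_) fun j j' => ?_
    · obtain ⟨t, rfl⟩ := (Submodule.mem_span_range_iff_exists_fun ℤ).1 hf
      have e1 : (∑ i, t i • L (b i)) ∘ p = ∑ i, t i • L (δ (b i)) := funext fun i => by
        simp only [Function.comp, Finset.sum_apply, Pi.smul_apply, hδ]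
      rw [e1]
      exact Submodule.sum_mem _ fun i _ => Submodule.smul_mem _ _ (hs _ (hB _ (hb i)))
    · obtain ⟨y, hy⟩ := (x j).2.2
      have e1 : y ^ l = δ (x j) / (x j).1 ^ a := hy
      refine ⟨L y, hs y (hsat y (e1 ▸ div_mem (hB _ (x j).2.1) (pow_mem (x j).2.1 _))), ?_⟩
      rw [Nat.cast_smul_eq_nsmul, Nat.cast_smul_eq_nsmul, ← Lp y, e1, Ld, Lp, add_sub_cancel]
      exact funext fun i => (hδ _ i).symm
    · obtain ⟨t, rfl⟩ := (Submodule.mem_span_range_iff_exists_fun ℤ).1 hf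
      exact ⟨_, hP1 j t⟩
    · have e1 := LinearMap.congr_fun (hg j) (e j')
      rw [LinearMap.comp_apply, Submodule.subtype_apply, ← hx, Module.Basis.coord_apply,
        Module.Basis.repr_self, LinearMap.pi_apply_eq_sum_univ] at e1
      have e2 : (((∑ i, c (x j') i * (g j (Pi.single i 1)).val : ℤ) -
          (if j = j' then 1 else 0) : ℤ) : ZMod l) = 0 := by
        push_cast
        simp only [ZMod.natCast_val, ZMod.cast_id', id]
        rw [sub_eq_zero]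
        refine Eq.trans (Finset.sum_congr rfl fun i _ => ?_) (e1.trans ?_)
        · rw [smul_eq_mul]
          congr 2
          funext i'
          rw [Pi.single_apply]
          simp only [eq_comm]
        · rw [Finsupp.single_apply]
          simp only [eq_comm]
      obtain ⟨n, hn⟩ := (ZMod.intCast_zmod_eq_zero_iff_dvd _ _).1 e2
      refine ⟨n, ?_⟩
      rw [← hc, hP1, eq_add_of_sub_eq' hn]
      push_cast
      rfl
  have h4 : Nat.card φ.range ≤ l ^ R.card := by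
    have e : Nat.card φ.range = Nat.card S := rfl
    rw [e, Module.natCard_eq_pow_finrank (K := ZMod l), Nat.card_zmod]
    exact Nat.pow_le_pow_right hl.pos h3
  have h5 : (B ⊔ (powMonoidHom l : G →* G).range) ⊓ Xe δ a l ≤
      (B ⊓ Xe δ a l) ⊔ (Z ⊔ (powMonoidHom l : G →* G).range) := fun x hx => by
    obtain ⟨y, hy, _, ⟨z, rfl⟩, rfl⟩ := Subgroup.mem_sup.1 hx.1
    have e : powMonoidHom l z ∈ Xe δ a l := ⟨δ z / z ^ a, by
      simp only [powMonoidHom_apply, MonoidHom.div_apply, map_pow, div_pow, ← pow_mul, mul_comm]⟩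
    exact Subgroup.mul_mem_sup ⟨hy, (Subgroup.mul_mem_cancel_right _ e).1 hx.2⟩
      (Subgroup.mem_sup_right ⟨z, rfl⟩)
  have h6 : (Z ⊔ (powMonoidHom l : G →* G).range).relIndex
      ((B ⊓ Xe δ a l) ⊔ (Z ⊔ (powMonoidHom l : G →* G).range)) ≠ 0 := by
    rw [Subgroup.relIndex_sup_right]
    exact h2.1
  refine ⟨fun h => h6 (Subgroup.relIndex_eq_zero_of_le_right h5 h),
    (Subgroup.relIndex_le_of_le_right h5 h6).trans ?_⟩
  rw [Subgroup.relIndex_sup_right]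
  exact h2.2.trans h4

end Pool.Agent.P.MP_20768c_nt.Az.Cu

end

-- part Cu.E2
section

set_option autoImplicit false

open Complex NumberField IsDedekindDomain Filter Topology
open UpperHalfPlane hiding I
open scoped ComplexConjugate Real MatrixGroups

namespace Pool.Agent.P.MP_20768c_nt.Az.Cu

open Pool.Agent.P.MP_20768c_nt.Az.EQ (Lt pr sp IsLat jL qN)

theorem e2_pow {k L : Type} [Field k] [Field L] [NumberField k] [NumberField L] [Algebra k L]
    [IsGalois k L] (w : HeightOneSpectrum (𝓞 L)) (E : IntermediateField k L) :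
    ∃ u : Valuation E (WithZero (Multiplicative ℤ)), Function.Surjective u ∧ ∀ x : E,
      u x ^ Nat.card ((w.asIdeal.inertia (L ≃ₐ[k] L) ⊓ fixingSubgroup (L ≃ₐ[k] L) (E : Set L) :
        Subgroup (L ≃ₐ[k] L))) = w.valuation L (x : L) := by
  have hb : w.asIdeal.under (𝓞 E) ≠ ⊥ := Ideal.under_ne_bot (𝓞 E) w.ne_bot
  have := w.isPrime
  let u : HeightOneSpectrum (𝓞 E) := ⟨w.asIdeal.under (𝓞 E), inferInstance, hb⟩
  have hl : w.asIdeal.LiesOver u.asIdeal := ⟨rfl⟩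
  have := u.isPrime
  have := u.isMaximal
  refine ⟨u.valuation E, u.valuation_surjective E, fun x => ?_⟩
  have : FiniteDimensional k L := Module.Finite.of_restrictScalars_finite ℚ k L
  have : IsGaloisGroup (fixingSubgroup (L ≃ₐ[k] L) (E : Set L)) (𝓞 E) (𝓞 L) :=
    IsGaloisGroup.of_isFractionRing _ _ _ E L
  have h1 := HeightOneSpectrum.valuation_liesOver L u w x
  have h2 := Ideal.card_inertia_eq_ramificationIdxIn
    (G := fixingSubgroup (L ≃ₐ[k] L) (E : Set L)) u.asIdeal w.asIdeal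
  rw [Ideal.ramificationIdxIn_eq_ramificationIdx u.asIdeal w.asIdeal
    (fixingSubgroup (L ≃ₐ[k] L) (E : Set L)),
    ← Ideal.ramificationIdx'_eq_ramificationIdx u.asIdeal w.asIdeal hb] at h2
  rw [← h2] at h1
  have h3 : Nat.card (w.asIdeal.inertia (fixingSubgroup (L ≃ₐ[k] L) (E : Set L))) =
      Nat.card ((w.asIdeal.inertia (L ≃ₐ[k] L) ⊓ fixingSubgroup (L ≃ₐ[k] L) (E : Set L) :
        Subgroup (L ≃ₐ[k] L))) := by
    rw [← Nat.card_congr (Subgroup.subgroupOfEquivOfLe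
      (inf_le_right (a := w.asIdeal.inertia (L ≃ₐ[k] L)))).toEquiv, Subgroup.inf_subgroupOf_right]
    rfl
  rw [← h3]
  exact h1

theorem e2_abs {k L : Type} [Field k] [Field L] [NumberField k] [NumberField L] [Algebra k L]
    [IsGalois k L] (w : HeightOneSpectrum (𝓞 L)) (K : IntermediateField k L) (r : L)
    (h : ∀ g : L ≃ₐ[k] L, g ∈ w.asIdeal.inertia (L ≃ₐ[k] L) → (∀ x ∈ K, g x = x) → g r = r) :
    ∃ y ∈ K, w.valuation L r = w.valuation L y := by
  obtain ⟨u, hu, h1⟩ := e2_pow w K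
  obtain ⟨u', -, h2⟩ := e2_pow w (K ⊔ IntermediateField.adjoin k {r})
  have hr : r ∈ K ⊔ IntermediateField.adjoin k {r} :=
    (le_sup_right : IntermediateField.adjoin k {r} ≤ _)
      (IntermediateField.mem_adjoin_simple_self k r)
  have e : w.asIdeal.inertia (L ≃ₐ[k] L) ⊓ fixingSubgroup (L ≃ₐ[k] L)
      ((K ⊔ IntermediateField.adjoin k {r} : IntermediateField k L) : Set L) =
      w.asIdeal.inertia (L ≃ₐ[k] L) ⊓ fixingSubgroup (L ≃ₐ[k] L) (K : Set L) := by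
    ext g
    simp only [Subgroup.mem_inf, mem_fixingSubgroup_iff, SetLike.mem_coe, AlgEquiv.smul_def]
    refine and_congr_right fun hg => ⟨fun a y hy => a y ((le_sup_left : K ≤ _) hy), fun a => ?_⟩
    have hle : K ⊔ IntermediateField.adjoin k {r} ≤
        IntermediateField.fixedField (Subgroup.zpowers g) := by
      have hm : ∀ y : L, g y = y → y ∈ IntermediateField.fixedField (Subgroup.zpowers g) := by
        intro y hy
        rw [IntermediateField.mem_fixedField_iff]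
        intro f hf
        have : Subgroup.zpowers g ≤ MulAction.stabilizer (L ≃ₐ[k] L) y := by
          rw [Subgroup.zpowers_le]
          exact hy
        exact this hf
      refine sup_le (fun y hy => hm y (a y hy)) ?_
      rw [IntermediateField.adjoin_simple_le_iff]
      exact hm r (h g hg a)
    intro y hy
    exact (IntermediateField.mem_fixedField_iff _ _).1 (hle hy) g (Subgroup.mem_zpowers g)
  obtain ⟨y, hy⟩ := hu (u' ⟨r, hr⟩)
  refine ⟨y, y.2, ?_⟩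
  rw [← h1 y, hy, ← e, h2]

namespace St

variable (s : St) (F : IntermediateField s.k ℂ) {Γ : Type} [LinearOrderedCommGroupWithZero Γ]

theorem e2_triv [FiniteDimensional s.k F] (v : Valuation ℂ Γ)
    (hv : ∀ x : 𝓞 F, v ((x : F) : ℂ) < 1 → x = 0) {x : F} (h0 : x ≠ 0) : v (x : ℂ) = 1 := by
  have key : ∀ y : F, y ≠ 0 → v (y : ℂ) ≤ 1 → v (y : ℂ) = 1 := by
    intro y hy h1
    obtain ⟨a, b, hb, hab⟩ := s.loc F v h1
    have e : v ((a : F) : ℂ) = v (y : ℂ) := by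
      rw [← hab, IntermediateField.coe_mul, map_mul, hb, one_mul]
    refine le_antisymm h1 (not_lt.1 fun hlt => ?_)
    have ha : a = 0 := hv a (e ▸ hlt)
    have hy0 : v (y : ℂ) = 0 := by rw [← e, ha]; simp
    exact hy (by simpa using hy0)
  rcases le_total (v (x : ℂ)) 1 with h1 | h1
  · exact key x h0 h1
  · have h2 : v ((x⁻¹ : F) : ℂ) ≤ 1 := by
      rw [IntermediateField.coe_inv, map_inv₀]
      exact inv_le_one_of_one_le₀ h1
    have h3 := key x⁻¹ (inv_ne_zero h0) h2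
    rw [IntermediateField.coe_inv, map_inv₀] at h3
    exact inv_eq_one.1 h3

theorem val_fixed [FiniteDimensional s.k F] (v : Valuation ℂ Γ) {r : ℂ} (hr : IsAlgebraic ℚ r)
    (h : ∀ σ : s.Au, Inert v σ → (∀ x ∈ F, σ x = x) → σ r = r) : ∃ y ∈ F, v r = v y := by
  classical
  obtain ⟨S, hS⟩ : F.toSubmodule.FG := Module.Finite.iff_fg.1 ‹FiniteDimensional s.k F›
  have hSF : ∀ x ∈ S, x ∈ F := fun x hx => by
    have : x ∈ F.toSubmodule := hS ▸ Submodule.subset_span hx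
    exact this
  obtain ⟨L, hf, hg, hL⟩ := s.exists_gal (T := insert r (S : Set ℂ))
    (S.finite_toSet.insert r) (by
      rintro x (rfl | hx)
      · exact hr
      · exact s.alg_of_mem F (hSF x hx))
  have hrL : r ∈ L := hL r (Set.mem_insert _ _)
  have hFL : ∀ x ∈ F, x ∈ L := by
    have : F.toSubmodule ≤ L.toSubmodule := by
      rw [← hS, Submodule.span_le]
      exact fun x hx => hL x (Set.mem_insert_of_mem _ hx)
    exact fun x hx => this hx
  have : NumberField L := NumberField.of_module_finite s.k L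
  obtain ⟨Q, hQ, hv⟩ := s.exists_ideal L v
  by_cases hb : Q = ⊥
  · by_cases h0 : r = 0
    · exact ⟨0, zero_mem _, by rw [h0]⟩
    · refine ⟨1, one_mem _, ?_⟩
      rw [map_one]
      refine s.e2_triv L v (x := ⟨r, hrL⟩) (fun x hx => ?_) fun e => h0 (congrArg Subtype.val e)
      have := (hv x).1 hx
      rwa [hb, Ideal.mem_bot] at this
  · obtain ⟨y, hy, e⟩ := e2_abs (k := s.k) ⟨Q, hQ, hb⟩ (F.comap L.val) ⟨r, hrL⟩ (by
      intro g hg hK
      obtain ⟨σ, h1, h2⟩ := s.lift_inert L v g fun x => (hv (g • x - x)).2 (hg x)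
      refine Subtype.ext ?_
      rw [← h2]
      refine h σ h1 fun x hx => ?_
      have := h2 ⟨x, hFL x hx⟩
      rw [hK ⟨x, hFL x hx⟩ hx] at this
      exact this)
    exact ⟨y, hy, le_antisymm ((s.val_equiv L v ⟨Q, hQ, hb⟩ hv ⟨r, hrL⟩ y).2 e.le)
      ((s.val_equiv L v ⟨Q, hQ, hb⟩ hv y ⟨r, hrL⟩).2 e.ge)⟩

theorem vs_of_fixed [NumberField F] {l C : ℕ} (hl : 0 < l) {x : Fˣ} {r : ℂ}
    (hr : r ^ l = ((x : F) : ℂ)) (h : ∀ (V : ValuationSubring ℂ) (σ : s.Au), V.valuation C = 1 →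
      Inert V.valuation σ → (∀ y ∈ F, σ y = y) → σ r = r) : x ∈ Vs F l C := by
  have : FiniteDimensional s.k F := Module.Finite.of_restrictScalars_finite ℚ s.k F
  intro Q hQ
  obtain ⟨V, hV⟩ := s.exists_val F Q.asIdeal Q.isPrime Q.ne_bot
  have hC : V.valuation (C : ℂ) = 1 := by
    refine le_antisymm ((V.valuation_le_one_iff _).2 (natCast_mem V C)) (not_lt.1 fun hlt => hQ ?_)
    exact (hV C).1 (by simpa using hlt)
  have ha : IsAlgebraic ℚ r := IsAlgebraic.of_pow hl (hr ▸ s.alg_of_mem F (x : F).2)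
  obtain ⟨y, hy, e⟩ := s.val_fixed F V.valuation ha fun σ => h V σ hC
  have e2 : V.valuation ((x : F) : ℂ) = V.valuation (((⟨y, hy⟩ : F) ^ l : F) : ℂ) := by
    rw [← hr, map_pow, e, IntermediateField.coe_pow, map_pow]
  have e3 : Q.valuation F (x : F) = Q.valuation F (⟨y, hy⟩ : F) ^ l := by
    rw [← map_pow]
    exact le_antisymm ((s.val_equiv F V.valuation Q hV _ _).1 e2.le)
      ((s.val_equiv F V.valuation Q hV _ _).1 e2.ge)
  have h0 : Q.valuation F (⟨y, hy⟩ : F) ≠ 0 := by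
    intro h0
    rw [h0, zero_pow hl.ne'] at e3
    exact x.ne_zero ((map_eq_zero _).1 e3)
  refine ⟨WithZero.log (Q.valuation F (⟨y, hy⟩ : F)), ?_⟩
  rw [e3, ← nsmul_eq_mul, WithZero.exp_nsmul, WithZero.exp_log h0]

end St

end Pool.Agent.P.MP_20768c_nt.Az.Cu

end

-- part Ex.X2
section

set_option autoImplicit false

open Complex NumberField IsDedekindDomain
open scoped Real

namespace Pool.Agent.P.MP_20768c_nt.Az.Cu

open scoped nonZeroDivisors in
theorem x2_selB (F : Type) [Field F] [NumberField F] : ∃ C : ℕ, C ≠ 0 ∧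
    ∀ D l : ℕ, C ∣ D → Vs F l D ≤ Vs F 0 D ⊔ Pw F l := by
  classical
  choose J hJ using ClassGroup.mk0_surjective (R := 𝓞 F)
  refine ⟨∏ c, Ideal.absNorm (J c).1, Finset.prod_ne_zero_iff.2 fun c _ =>
    Ideal.absNorm_eq_zero_iff.not.2 (nonZeroDivisors.ne_zero (J c).2), fun D l hD x hx => ?_⟩
  have hd : ∀ c, Ideal.absNorm (J c).1 ∣ D := fun c =>
    (Finset.dvd_prod_of_mem (fun c => Ideal.absNorm (J c).1) (Finset.mem_univ c)).trans hD
  obtain ⟨A, hA⟩ := f0a_p_exists F (fun Q => f0a_p_ord F Q x / l)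
    ((FractionalIdeal.finite_factors (FractionalIdeal.spanSingleton (𝓞 F)⁰ (x : F))).mono
      fun Q hQ => by rw [f0a_p_ord, hQ, Int.zero_ediv])
  have h1 : ClassGroup.mk F (A * (FractionalIdeal.mk0 F (J (ClassGroup.mk F A)))⁻¹) = 1 := by
    rw [map_mul, map_inv, ClassGroup.mk_mk0, hJ, mul_inv_cancel]
  obtain ⟨y, hy⟩ := (FractionalIdeal.isPrincipal_iff _).1 (ClassGroup.mk_eq_one_iff.1 h1)
  have hy0 : y ≠ 0 := by
    rintro rfl
    exact Units.ne_zero _ (hy.trans FractionalIdeal.spanSingleton_zero)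
  have hu : x * (Units.mk0 y hy0 ^ l)⁻¹ ∈ Vs F 0 D := (f0a_mem F).2 fun Q hQ => by
    have h2 : f0a_p_ord F Q (Units.mk0 y hy0) = f0a_p_ord F Q x / l := by
      rw [f0a_p_ord, Units.val_mk0, ← hy, Units.val_mul, FractionalIdeal.count_mul F Q
        (Units.ne_zero _) (Units.ne_zero _), hA, Units.val_inv_eq_inv_val,
        FractionalIdeal.count_inv, FractionalIdeal.coe_mk0,
        f0a_count F (nonZeroDivisors.ne_zero (J _).2) Q fun h => hQ ?_, neg_zero, add_zero]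
      obtain ⟨k, hk⟩ := hd (ClassGroup.mk F A)
      rw [hk, Nat.cast_mul]
      exact Ideal.mul_mem_right _ _ h
    rw [f0a_p_ord_mul, f0a_p_ord_inv, f0a_p_ord_pow, h2,
      Int.mul_ediv_cancel' ((f0a_p_mem F).1 hx Q hQ), add_neg_cancel]
  rw [← inv_mul_cancel_right x (Units.mk0 y hy0 ^ l)]
  exact Subgroup.mul_mem_sup hu ⟨_, rfl⟩

variable {k F : Type} [Field k] [NumberField k] [Field F] [NumberField F] [Algebra k F]
  [IsGalois k F] {l d a C : ℕ}

theorem x2_trans (P Q : Ideal (𝓞 F)) [P.IsPrime] [Q.IsPrime] (h : P.under (𝓞 k) = Q.under (𝓞 k)) :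
    ∃ g : F ≃ₐ[k] F, ∀ x : 𝓞 F, g • x ∈ Q ↔ x ∈ P := by
  obtain ⟨g, hg⟩ := Algebra.IsInvariant.exists_smul_of_under_eq (𝓞 k) (𝓞 F) (F ≃ₐ[k] F) P Q h
  exact ⟨g, fun x => by rw [hg, Ideal.smul_mem_pointwise_smul_iff]⟩

omit [NumberField k] [IsGalois k F] in
theorem x2_ord (g : F ≃ₐ[k] F) {P Q : HeightOneSpectrum (𝓞 F)}
    (h : ∀ x : 𝓞 F, x ∈ P.asIdeal ↔ g • x ∈ Q.asIdeal) (x : Fˣ) :
    f0a_p_ord F Q (Units.map (g : F →* F) x) = f0a_p_ord F P x := by
  let e := MulSemiringAction.toRingEquiv (F ≃ₐ[k] F) (𝓞 F) g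
  have h1 : P.asIdeal = Q.asIdeal.map e.symm := by
    rw [Ideal.map_symm]
    exact Ideal.ext h
  have h2 : ∀ (y : 𝓞 F) (n : ℕ), P.intValuation y ≤ WithZero.exp (-(n : ℤ)) ↔
      Q.intValuation (g • y) ≤ WithZero.exp (-(n : ℤ)) := fun y n => by
    rw [HeightOneSpectrum.intValuation_le_pow_iff_mem, HeightOneSpectrum.intValuation_le_pow_iff_mem,
      h1, ← Ideal.map_pow, Ideal.map_symm]
    rfl
  have h3 : ∀ y : 𝓞 F, Q.valuation F (g y) = P.valuation F y := fun y => by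
    rw [show g y = ((g • y : 𝓞 F) : F) from rfl, HeightOneSpectrum.valuation_of_algebraMap,
      HeightOneSpectrum.valuation_of_algebraMap]
    rcases eq_or_ne y 0 with rfl | h0
    · rw [smul_zero, map_zero, map_zero]
    · have h4 := Q.intValuation_if_neg ((smul_ne_zero_iff_ne g).2 h0)
      have h5 := P.intValuation_if_neg h0
      exact le_antisymm (((h2 y _).1 h5.le).trans h5.ge) (((h2 y _).2 h4.le).trans h4.ge)
  have h4 : Q.valuation F (g x) = P.valuation F x := by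
    obtain ⟨y, z, -, e⟩ := IsFractionRing.div_surjective (A := 𝓞 F) (x : F)
    rw [← e, map_div₀, map_div₀, map_div₀]
    exact congrArg₂ _ (h3 y) (h3 z)
  rw [f0a_p_val] at h4
  exact neg_injective (WithZero.exp_injective ((f0a_p_val F Q _).symm.trans h4))

theorem x2_fin (hl : l.Prime) (hd : 0 < d) (ha : ∀ j : ℕ, a ^ j ≡ 1 [MOD l] ↔ d ∣ j)
    (δ : F ≃ₐ[k] F) (hg : ∀ g, ∃ j : ℕ, g = δ ^ j) (ho : ∀ j : ℕ, δ ^ j = 1 ↔ d ∣ j) (hC : C ≠ 0)
    (R : Finset (HeightOneSpectrum (𝓞 F)))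
    (hR : ∀ Q : HeightOneSpectrum (𝓞 F), (C : 𝓞 F) ∈ Q.asIdeal → Fre k Q.asIdeal →
      ∃ Q' ∈ R, Q'.asIdeal.under (𝓞 k) = Q.asIdeal.under (𝓞 k)) :
    (Un F ⊔ Pw F l).relIndex ((Vs F 0 C ⊔ Pw F l) ⊓ Xe (Units.map (δ : F →* F)) a l) ≠ 0 ∧
      (Un F ⊔ Pw F l).relIndex ((Vs F 0 C ⊔ Pw F l) ⊓ Xe (Units.map (δ : F →* F)) a l) ≤
        l ^ R.card := by
  classical
  let S := {Q : HeightOneSpectrum (𝓞 F) | (C : 𝓞 F) ∈ Q.asIdeal}
  have hf : Finite S := fin_primes F hC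
  let e := MulSemiringAction.toRingEquiv (F ≃ₐ[k] F) (𝓞 F) δ
  let p0 : HeightOneSpectrum (𝓞 F) → HeightOneSpectrum (𝓞 F) :=
    HeightOneSpectrum.comap (e : 𝓞 F →+* 𝓞 F) e.surjective
  have h0 : ∀ Q x, x ∈ (p0 Q).asIdeal ↔ δ • x ∈ Q.asIdeal := fun _ _ => Iff.rfl
  have hC0 : ∀ Q, (C : 𝓞 F) ∈ (p0 Q).asIdeal ↔ (C : 𝓞 F) ∈ Q.asIdeal := fun Q => by
    rw [h0, show δ • (C : 𝓞 F) = C from map_natCast e C]
  let p : S → S := fun Q => ⟨p0 Q, (hC0 Q).2 Q.2⟩
  have h1 : ∀ (j : ℕ) (Q : S) x, x ∈ (p^[j] Q).1.asIdeal ↔ δ ^ j • x ∈ Q.1.asIdeal := fun j Q => by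
    induction j with
    | zero => simp
    | succ j ih => exact fun x => by rw [Function.iterate_succ_apply', pow_succ, mul_smul, ← ih, h0]
  have h2 : ∀ (η : ℂ) (f : S → ℂ), (∀ i, f (p i) = η * f i) → ∀ j i, f (p^[j] i) = η ^ j * f i :=
    fun η f h j i => by
      induction j with
      | zero => simp
      | succ j ih => rw [Function.iterate_succ_apply', h, ih, pow_succ', mul_assoc]
  let b := Module.finBasis ℤ (f0a_lam F C)
  have h3 : ∀ i, ∃ x ∈ Vs F 0 C, ∀ Q, (b i).1 Q = f0a_p_ord F Q.1 x := fun i => (b i).2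
  choose u hu hu' using h3
  have h4 : (fun i => fun Q : S => (f0a_p_ord F Q.1 (u i) : ℂ)) =
      fun i => algebraMap ℤ ℂ ∘ (b i).1 := funext fun i => funext fun Q => by
    rw [← hu']
    rfl
  have h5 := x1_evg hl hd ha p (funext fun Q => Subtype.ext (HeightOneSpectrum.ext (Ideal.ext
      fun x => by rw [h1, (ho d).2 dvd_rfl, one_smul]; rfl)))
    (R.subtype (· ∈ S)) (fun η f hη h h' => funext fun Q => by
      by_cases hF : Fre k Q.1.asIdeal
      · obtain ⟨Q', hQ', e'⟩ := hR Q.1 Q.2 hF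
        obtain ⟨g, hg'⟩ := x2_trans (k := k) Q.1.asIdeal Q'.asIdeal e'.symm
        obtain ⟨j, rfl⟩ := hg g
        have hS : Q' ∈ S := by
          have := (hg' C).2 Q.2
          rwa [show δ ^ j • (C : 𝓞 F) = C from
            map_natCast (MulSemiringAction.toRingEquiv (F ≃ₐ[k] F) (𝓞 F) (δ ^ j)) C] at this
        have e2 : Q = p^[j] ⟨Q', hS⟩ :=
          Subtype.ext (HeightOneSpectrum.ext (Ideal.ext fun x => by rw [h1, hg']))
        rw [e2, h2 η f h, h' _ (Finset.mem_subtype.2 hQ'), mul_zero, Pi.zero_apply]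
      · obtain ⟨g, hg'⟩ := not_forall.1 hF
        obtain ⟨j, rfl⟩ := hg g
        obtain ⟨k1, k2⟩ := Classical.not_imp.1 hg'
        have e2 : p^[j] Q = Q :=
          Subtype.ext (HeightOneSpectrum.ext (Ideal.ext fun x => by rw [h1, k1]))
        have e3 := h2 η f h j Q
        rw [e2] at e3
        by_contra h6
        exact k2 ((ho j).2 (hη.dvd_of_pow_eq_one j (mul_right_cancel₀ h6
          (e3.symm.trans (one_mul _).symm)))))
    (fun x Q => (f0a_p_ord F Q.1 x : ℂ))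
    (fun x y => funext fun Q => by rw [f0a_p_ord_mul, Int.cast_add, Pi.add_apply])
    (Units.map (δ : F →* F)) (fun x Q => by rw [x2_ord δ (h0 Q.1)]) (Vs F 0 C) (Un F)
    (fun x hx => (f0a_mem F).2 fun Q hQ => by
      rw [x2_ord δ (h0 Q)]
      exact (f0a_mem F).1 hx _ fun h => hQ ((hC0 Q).1 h))
    (fun y hy => (f0a_mem F).2 fun Q hQ => by
      have := (f0a_mem F).1 hy Q hQ
      rw [f0a_p_ord_pow] at this
      exact (mul_eq_zero.1 this).resolve_left (Nat.cast_ne_zero.2 hl.ne_zero))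
    (fun x hx h => f0a_p_un F fun Q => by
      by_cases hQ : (C : 𝓞 F) ∈ Q.asIdeal
      · exact Int.cast_eq_zero.1 (congrFun h ⟨Q, hQ⟩ :)
      · exact (f0a_mem F).1 hx Q hQ)
    u hu (by
      rw [h4, linearIndependent_algebraMap_comp_iff]
      exact b.linearIndependent.map' (f0a_lam F C).subtype (Submodule.ker_subtype _))
    (fun x hx => by
      rw [h4]
      let o : f0a_lam F C := ⟨fun Q => f0a_p_ord F Q.1 x, x, hx, fun _ => rfl⟩
      refine (Submodule.mem_span_range_iff_exists_fun ℤ).2 ⟨b.repr o, funext fun Q => ?_⟩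
      refine Eq.trans ?_ (congrArg (fun z : f0a_lam F C => (z.1 Q : ℂ)) (b.sum_repr o))
      simp [-Module.Basis.sum_repr])
  refine ⟨h5.1, h5.2.trans (Nat.pow_le_pow_right hl.pos ?_)⟩
  rw [Finset.card_subtype]
  exact Finset.card_filter_le _ _

end Pool.Agent.P.MP_20768c_nt.Az.Cu

end

-- part Ex.X3
section

set_option autoImplicit false

open Complex NumberField IsDedekindDomain
open scoped Real

namespace Pool.Agent.P.MP_20768c_nt.Az.Cu

theorem x3_mem (F : Type) [Field F] [NumberField F] (x : Fˣ) :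
    x ∈ Un F ↔ IsIntegral ℤ (x : F) ∧ IsIntegral ℤ ((x⁻¹ : Fˣ) : F) := by
  constructor
  · rintro ⟨u, rfl⟩
    exact ⟨u.1.2, u.2.2⟩
  · rintro ⟨h1, h2⟩
    exact ⟨⟨⟨x, h1⟩, ⟨(x⁻¹ : Fˣ), h2⟩, Subtype.ext x.mul_inv, Subtype.ext x.inv_mul⟩,
      Units.ext rfl⟩

theorem x3_sat (F : Type) [Field F] [NumberField F] {n : ℕ} (hn : 0 < n) (y : Fˣ)
    (h : y ^ n ∈ Un F) : y ∈ Un F := by
  rw [x3_mem] at h ⊢
  refine ⟨IsIntegral.of_pow hn ?_, IsIntegral.of_pow hn ?_⟩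
  · rw [← Units.val_pow_eq_pow_val]
    exact h.1
  · rw [← Units.val_pow_eq_pow_val, inv_pow]
    exact h.2

variable {k F : Type} [Field k] [NumberField k] [Field F] [NumberField F] [Algebra k F]
  [IsGalois k F] {l d a C : ℕ}

theorem x3_unit (hl : l.Prime) (hd : 0 < d) (ha : ∀ j : ℕ, a ^ j ≡ 1 [MOD l] ↔ d ∣ j)
    (δ : F ≃ₐ[k] F) (hg : ∀ g, ∃ j : ℕ, g = δ ^ j) (ho : δ ^ d = 1)
    (hk : Subsingleton (InfinitePlace k)) :
    (CommGroup.torsion Fˣ ⊔ Pw F l).relIndex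
        ((Un F ⊔ Pw F l) ⊓ Xe (Units.map (δ : F →* F)) a l) ≠ 0 ∧
      (CommGroup.torsion Fˣ ⊔ Pw F l).relIndex
        ((Un F ⊔ Pw F l) ⊓ Xe (Units.map (δ : F →* F)) a l) ≤ l := by
  classical
  obtain ⟨w0⟩ : Nonempty (InfinitePlace F) := inferInstance
  let u : (𝓞 F)ˣ →* Fˣ := Units.map (algebraMap (𝓞 F) F : 𝓞 F →* F)
  let p : InfinitePlace F → InfinitePlace F := fun w => w.comap (δ : F →+* F)
  have hp : ∀ (j : ℕ) (w : InfinitePlace F), p^[j] w = w.comap ((δ ^ j : F ≃ₐ[k] F) : F →+* F) :=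
    fun j w => by
      induction j with
      | zero => rfl
      | succ j ih =>
        rw [Function.iterate_succ_apply', ih, pow_succ]
        rfl
  let L0 : Fˣ → InfinitePlace F → ℝ := fun x w => Real.log (w (x : F))
  have w0' : ∀ (w : InfinitePlace F) (x : Fˣ), 0 < w (x : F) := fun w x =>
    InfinitePlace.pos_iff.2 x.ne_zero
  let Lh : Fˣ →* Multiplicative (InfinitePlace F → ℂ) :=
    MonoidHom.mk' (fun x => Multiplicative.ofAdd (algebraMap ℝ ℂ ∘ L0 x)) fun x y => by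
      rw [← ofAdd_add]
      congr 1
      funext w
      simp only [L0, Function.comp, Pi.add_apply, Units.val_mul, map_mul]
      rw [Real.log_mul (w0' w x).ne' (w0' w y).ne', map_add]
  have h := x1_evg (G := Fˣ) hl hd ha p (funext fun w => by rw [hp, ho]; rfl) {w0}
    (fun η f _ hf h0 => funext fun w => by
      obtain ⟨σ, rfl⟩ := InfinitePlace.exists_smul_eq_of_comap_eq (k := k) (w := w0) (w' := w)
        (Subsingleton.elim _ _)
      obtain ⟨j, hj⟩ := hg σ⁻¹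
      have e : σ • w0 = p^[j] w0 := by
        rw [hp, ← hj]
        rfl
      rw [e, Pi.zero_apply]
      clear e hj
      induction j with
      | zero => exact h0 _ (Finset.mem_singleton_self _)
      | succ j ih => rw [Function.iterate_succ_apply', hf, ih, mul_zero])
    (fun x => algebraMap ℝ ℂ ∘ L0 x) (fun x y => map_mul Lh x y) (Units.map (δ : F →* F))
    (fun _ _ => rfl) (Un F) (CommGroup.torsion Fˣ)
    (fun x hx => by
      rw [x3_mem] at hx ⊢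
      exact ⟨hx.1.map (δ : F →+* F).toIntAlgHom, hx.2.map (δ : F →+* F).toIntAlgHom⟩)
    (x3_sat F hl.pos)
    (fun x hx h0 => by
      obtain ⟨v, rfl⟩ := hx
      refine u.isOfFinOrder ((Units.mem_torsion F).2 fun w => ?_)
      have h1 : L0 (u v) w = 0 := (algebraMap ℝ ℂ).injective ((congrFun h0 w).trans (map_zero _).symm)
      exact Real.eq_one_of_pos_of_log_eq_zero (w0' w (u v)) h1)
    (fun i => u (Units.fundSystem F i)) (fun _ => ⟨_, rfl⟩)
    (by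
      rw [linearIndependent_algebraMap_comp_iff]
      let T : (InfinitePlace F → ℝ) →ₗ[ℝ] Units.dirichletUnitTheorem.logSpace F :=
        LinearMap.pi fun w => (w.1.mult : ℝ) • LinearMap.proj w.1
      refine LinearIndependent.of_comp T ?_
      have e : (T ∘ fun i => L0 (u (Units.fundSystem F i))) =
          (Units.basisUnitLattice F).ofZLatticeBasis ℝ (Units.unitLattice F) := funext fun i => by
        rw [Module.Basis.ofZLatticeBasis_apply, ← Units.logEmbedding_fundSystem]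
        rfl
      rw [e]
      exact Module.Basis.linearIndependent _)
    (fun x hx => by
      obtain ⟨v, rfl⟩ := hx
      obtain ⟨⟨t, e⟩, rfl, -⟩ := Units.exist_unique_eq_mul_prod F v
      have h1 : Lh (u t) = 1 := by
        refine congrArg Multiplicative.ofAdd (funext fun w => ?_)
        have h2 : w ((u t : Fˣ) : F) = 1 := (Units.mem_torsion F).1 t.2 w
        simp only [L0, Function.comp, h2, Real.log_one, map_zero, Pi.zero_apply]
      have h2 : Lh (u (t * ∏ i, Units.fundSystem F i ^ e i)) =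
          ∏ i, Lh (u (Units.fundSystem F i)) ^ e i := by
        simp only [map_mul, map_prod, map_zpow, h1, one_mul]
      refine (Submodule.mem_span_range_iff_exists_fun ℤ).2 ⟨e, ?_⟩
      have h3 := congrArg Multiplicative.toAdd h2
      rw [toAdd_prod] at h3
      exact h3.symm)
  rwa [Finset.card_singleton, pow_one] at h

theorem x3_tor (F : Type) [Field F] [NumberField F] {l : ℕ} (hl : 0 < l) :
    (Pw F l).relIndex (CommGroup.torsion Fˣ ⊔ Pw F l) ≠ 0 ∧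
      (Pw F l).relIndex (CommGroup.torsion Fˣ ⊔ Pw F l) ≤ l := by
  let pj := QuotientGroup.mk' (Pw F l)
  let u : (𝓞 F)ˣ →* Fˣ := Units.map (algebraMap (𝓞 F) F : 𝓞 F →* F)
  obtain ⟨ζ, hζ⟩ := IsCyclic.exists_generator (α := Units.torsion F)
  let Φ : Fin l → Fˣ ⧸ Pw F l := fun j => pj (u ζ) ^ (j : ℕ)
  have hs : ((CommGroup.torsion Fˣ).map pj : Set (Fˣ ⧸ Pw F l)) ⊆ Set.range Φ := by
    rintro _ ⟨x, hx, rfl⟩
    obtain ⟨n, hn, e⟩ := isOfFinOrder_iff_pow_eq_one.1 hx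
    obtain ⟨v, rfl⟩ := x3_sat F hn x (e ▸ one_mem _)
    have hu : Function.Injective u := Units.map_injective RingOfIntegers.coe_injective
    obtain ⟨a, ha⟩ := hζ ⟨v, hu.isOfFinOrder_iff.1 hx⟩
    obtain ⟨j, hj⟩ := f0b_red (q := pj (u ζ)) hl (by
      rw [← map_pow]
      exact (QuotientGroup.eq_one_iff _).2 ⟨_, rfl⟩) a
    refine ⟨j, ?_⟩
    have h1 : v = ζ.1 ^ a := (congrArg Subtype.val ha).symm
    change _ = pj (u v)
    rw [h1, map_zpow, map_zpow, hj]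
  have e1 : (Pw F l).relIndex (CommGroup.torsion Fˣ ⊔ Pw F l) =
      Nat.card ((CommGroup.torsion Fˣ).map pj) := by
    rw [Subgroup.relIndex_sup_right, ← Subgroup.relIndex_ker, QuotientGroup.ker_mk']
  have hf := Set.finite_range Φ
  have : Finite ((CommGroup.torsion Fˣ).map pj) := hf.subset hs
  rw [e1]
  refine ⟨Nat.card_pos.ne', (Nat.card_mono hf hs).trans ((Finite.card_range_le Φ).trans ?_)⟩
  simp

theorem x3_tower {G : Type} [CommGroup G] {P A B W E : Subgroup G} (h1 : P ≤ A) (h2 : A ≤ B)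
    (h3 : B ≤ W) {x y z : ℕ} (hx : P.relIndex A ≠ 0 ∧ P.relIndex A ≤ x)
    (hy : A.relIndex (B ⊓ E) ≠ 0 ∧ A.relIndex (B ⊓ E) ≤ y)
    (hz : B.relIndex (W ⊓ E) ≠ 0 ∧ B.relIndex (W ⊓ E) ≤ z) :
    P.relIndex (W ⊓ E) ≠ 0 ∧ P.relIndex (W ⊓ E) ≤ x * y * z := by
  have e1 := Subgroup.relIndex_inf_mul_relIndex P B (W ⊓ E)
  have e2 := Subgroup.relIndex_inf_mul_relIndex P A (B ⊓ E)
  rw [inf_of_le_left (h1.trans h2), ← inf_assoc, inf_of_le_left h3] at e1
  rw [inf_of_le_left h1] at e2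
  have k1 : P.relIndex (A ⊓ (B ⊓ E)) ≠ 0 := fun h =>
    hx.1 (Subgroup.relIndex_eq_zero_of_le_right inf_le_left h)
  have k2 := (Subgroup.relIndex_le_of_le_right (L := A) (K := A ⊓ (B ⊓ E)) inf_le_left hx.1).trans
    hx.2
  rw [← e1, ← e2]
  exact ⟨mul_ne_zero (mul_ne_zero k1 hy.1) hz.1, Nat.mul_le_mul (Nat.mul_le_mul k2 hy.2) hz.2⟩


end Pool.Agent.P.MP_20768c_nt.Az.Cu

end

-- part Cu.E4a_p
section

set_option autoImplicit false

open Complex NumberField IsDedekindDomain Filter Topology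
open UpperHalfPlane hiding I
open scoped ComplexConjugate Real MatrixGroups

namespace Pool.Agent.P.MP_20768c_nt.Az.Cu

open Pool.Agent.P.MP_20768c_nt.Az.EQ (Lt pr sp IsLat jL qN)

variable {Γ : Type} [LinearOrderedCommGroupWithZero Γ]

theorem inert_iff {v : Valuation ℂ Γ} {σ : ℂ → ℂ} :
    Inert v.valuationSubring.valuation σ ↔ Inert v σ := by
  have h := v.isEquiv_valuation_valuationSubring
  simp only [Inert, ← h.le_one_iff_le_one, ← h.lt_one_iff_lt_one]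

namespace St

variable {s : St} {v : Valuation ℂ Γ} {σ τ : s.Au} {n : ℕ} {x y : ℂ}
  {sb : (ZMod (2 ^ n))ˣ → s.Au}

theorem inert_val (h : Inert v σ) (hx : IsAlgebraic ℚ x) : v (σ x) = v x := by
  have h1 : ∀ a b, IsAlgebraic ℚ a → IsAlgebraic ℚ b → b ≠ 0 → v a < v b →
      v (σ a) < v (σ b) := fun a b ha hb h0 hab => by
    have hb' : σ b ≠ 0 := (map_ne_zero σ).2 h0
    have h2 : v (a / b) < 1 := by rwa [map_div₀, div_lt_one₀ ((v.pos_iff).2 h0)]
    have h3 := v.map_add_lt (h _ (by rw [div_eq_mul_inv]; exact ha.mul hb.inv) h2.le) h2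
    rwa [sub_add_cancel, map_div₀, map_div₀, div_lt_one₀ ((v.pos_iff).2 hb')] at h3
  rcases eq_or_ne x 0 with rfl | h0
  · rw [map_zero]
  obtain ⟨F, _, _, hF⟩ := s.exists_gal (Set.finite_singleton x) fun _ h => h ▸ hx
  obtain ⟨ρ, -, hρ⟩ := s.exists_res F
  have h2 : (σ ^ orderOf (ρ σ)) x = x := by
    rw [← hρ _ ⟨x, hF x rfl⟩, map_pow, pow_orderOf_eq_one]
    rfl
  have h3 := orderOf_pos (ρ σ)
  have h4 : ∀ j : ℕ, (σ ^ (j + 1)) x = σ ((σ ^ j) x) := fun j => by rw [pow_succ']; rfl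
  have h5 : ∀ τ : s.Au, τ x ≠ 0 := fun τ => (map_ne_zero τ).2 h0
  rcases lt_trichotomy (v (σ x)) (v x) with h6 | h6 | h6
  · have : StrictAnti fun j : ℕ => v ((σ ^ j) x) := strictAnti_nat_of_succ_lt fun j => by
      induction j with
      | zero => simpa using h6
      | succ j ih =>
        rw [h4 (j + 1), h4 j]
        exact h1 _ _ (h4 j ▸ s.au_alg _ hx) (s.au_alg _ hx) (h5 _) (h4 j ▸ ih)
    simpa [h2] using this h3
  · exact h6
  · have : StrictMono fun j : ℕ => v ((σ ^ j) x) := strictMono_nat_of_lt_succ fun j => by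
      induction j with
      | zero => simpa using h6
      | succ j ih =>
        rw [h4 (j + 1), h4 j]
        exact h1 _ _ (s.au_alg _ hx) (h4 j ▸ s.au_alg _ hx) (h4 j ▸ h5 _) (h4 j ▸ ih)
    simpa [h2] using this h3

theorem inert_one (s : St) (v : Valuation ℂ Γ) : Inert v (1 : s.Au) := by
  intro x _ _
  simp

theorem inert_mul (h : Inert v σ) (h' : Inert v τ) : Inert v (σ * τ : s.Au) := by
  intro x hx h1
  have := v.map_add_lt (h _ (s.au_alg τ hx) ((inert_val h' hx).trans_le h1)) (h' x hx h1)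
  rwa [sub_add_sub_cancel] at this

theorem inert_inv (h : Inert v σ) : Inert v (σ⁻¹ : s.Au) := by
  intro x hx h1
  have h2 := s.au_alg σ⁻¹ hx
  have h3 : σ (σ⁻¹ x) = x := σ.apply_symm_apply x
  have := h _ h2 ((inert_val h h2).symm.trans_le (h3.symm ▸ h1))
  rwa [h3, v.map_sub_swap] at this

theorem inert_pow (h : Inert v σ) (j : ℕ) : Inert v (σ ^ j : s.Au) := by
  induction j with
  | zero => rw [pow_zero]; exact inert_one s v
  | succ j ih => rw [pow_succ]; exact inert_mul ih h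

theorem inert_conj (V : ValuationSubring ℂ) {C : ℕ} (hV : V.valuation C = 1)
    (h : Inert V.valuation τ) (σ : s.Au) : ∃ V' : ValuationSubring ℂ, V'.valuation C = 1 ∧
      Inert V'.valuation (σ⁻¹ * τ * σ : s.Au) := by
  let w := V.valuation.comap (σ : ℂ →+* ℂ)
  refine ⟨w.valuationSubring, w.isEquiv_valuation_valuationSubring.eq_one_iff_eq_one.1 ?_,
    inert_iff.2 fun x hx h1 => ?_⟩
  · rwa [Valuation.comap_apply, map_natCast]
  · have h2 : σ ((σ⁻¹ * τ * σ) x) = τ (σ x) := σ.apply_symm_apply _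
    have := h _ (s.au_alg σ hx) h1
    rwa [← h2, ← map_sub] at this

theorem inert_root {m : ℕ} (h : Inert v σ) (hm : v m = 1) (hx : x ^ m = 1) : σ x = x := by
  have h0 : 0 < m := Nat.pos_of_ne_zero fun e => by simp [e] at hm
  exact root_inj v hm (by rw [← map_pow, hx, map_one]) hx (h x
    (IsIntegral.of_pow h0 (hx ▸ isIntegral_one)).isAlgebraic (v_root v h0 hx).le)

theorem exists_inert (s : St) (n : ℕ) (b : (ZMod (2 ^ n))ˣ) :
    ∃ σ : s.Au, Inert s.v σ ∧ σ (zt n) = zt n ^ (b : ZMod (2 ^ n)).val := by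
  classical
  have e1 : ∀ b c : (ZMod (2 ^ n))ˣ, (zt n ^ (b : ZMod (2 ^ n)).val) ^ (c : ZMod (2 ^ n)).val =
      zt n ^ ((b * c : (ZMod (2 ^ n))ˣ) : ZMod (2 ^ n)).val := fun b c => by
    rw [← pow_mul, Units.val_mul, ZMod.val_mul, ← pow_eq_pow_mod _ (zt_pow n)]
  have e2 : zt n ^ ((1 : (ZMod (2 ^ n))ˣ) : ZMod (2 ^ n)).val = zt n := by
    rw [Units.val_one, ZMod.val_one_eq_one_mod, ← pow_eq_pow_mod _ (zt_pow n), pow_one]
  let J : Subgroup (ZMod (2 ^ n))ˣ :=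
    { carrier := {b | ∃ σ : s.Au, Inert s.v σ ∧ σ (zt n) = zt n ^ (b : ZMod (2 ^ n)).val}
      one_mem' := ⟨1, inert_one s _, e2.symm⟩
      mul_mem' := fun ⟨σ, h1, h2⟩ ⟨τ, h3, h4⟩ => ⟨σ * τ, inert_mul h1 h3, by
        rw [AlgEquiv.mul_apply, h4, map_pow, h2, e1]⟩
      inv_mem' := fun ⟨σ, h1, h2⟩ => ⟨σ⁻¹, inert_inv h1, by
        rw [AlgEquiv.aut_inv, AlgEquiv.symm_apply_eq, map_pow, h2, e1, mul_inv_cancel, e2]⟩ }
  rcases Nat.eq_zero_or_pos n with rfl | hn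
  · exact Subsingleton.elim (α := (ZMod 1)ˣ) 1 b ▸ J.one_mem
  have h2 : 0 < s.v 2 := (s.v.pos_iff).2 two_ne_zero
  have h3 : s.v (∏ b : J, (1 - zt n ^ (b.1 : ZMod (2 ^ n)).val)) ^ 2 ^ (n - 1) =
      s.v 2 ^ Nat.card J := by
    rw [map_prod, ← Finset.prod_pow, Finset.prod_congr rfl fun b _ => v_one_sub s.v hn ?_,
      Finset.prod_const, Finset.card_univ, Nat.card_eq_fintype_card]
    exact Int.odd_coe_nat _ |>.1 ((unit_odd hn).1 (by simp))
  obtain ⟨y, hy, h4⟩ := s.val_fixed ⊥ s.v (r := ∏ b : J, (1 - zt n ^ (b.1 : ZMod (2 ^ n)).val))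
    (IsIntegral.prod _ fun b _ => isIntegral_one.sub ((zt_alg n).isIntegral.pow _)).isAlgebraic
    fun σ h _ => by
      obtain ⟨c, hc⟩ := hom_zt (σ : ℂ →+* ℂ) n
      rw [map_prod, ← Equiv.prod_comp (Equiv.mulLeft (⟨c, σ, h, hc⟩ : J))
        fun b : J => 1 - zt n ^ (b.1 : ZMod (2 ^ n)).val]
      exact Finset.prod_congr rfl fun b _ => by
        rw [map_sub, map_one, map_pow]
        exact congrArg (1 - ·) ((congrArg (· ^ _) hc).trans (e1 c b))
  obtain ⟨y, rfl⟩ := IntermediateField.mem_bot.1 hy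
  rw [h4] at h3
  obtain ⟨j, hj⟩ := s.v_k_val s.v s.v_two (x := algebraMap s.k ℂ y) y.2 fun e => by
    rw [e, map_zero, zero_pow (by positivity)] at h3
    exact (pow_pos h2 _).ne h3
  rw [hj, ← zpow_natCast, ← zpow_mul, ← zpow_natCast] at h3
  have h5 : 2 ^ (n - 1) ∣ Nat.card J :=
    Int.natCast_dvd_natCast.1 (Dvd.intro_left _ (zpow_right_injective₀ h2 s.v_two.ne h3))
  exact (J.eq_top_of_le_card ((card_units hn).trans_le (Nat.le_of_dvd Nat.card_pos h5))).ge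
    (Subgroup.mem_top b)

theorem exists_sec (s : St) (n : ℕ) : ∃ sb, s.IsSec n sb := by
  choose sb h using s.exists_inert n
  exact ⟨sb, h⟩

end St

end Pool.Agent.P.MP_20768c_nt.Az.Cu

end

-- part Ex.X4
section

set_option autoImplicit false

open Complex NumberField IsDedekindDomain
open scoped Real

namespace Pool.Agent.P.MP_20768c_nt.Az.Cu

theorem Tv.perm {G J : Type} [Group G] [Finite J] {H : Subgroup G} {g : J → G} (h : Tv H g)
    (σ : G) : ∃ e : Equiv.Perm J, ∀ j, ∃ t ∈ H, σ * g j = g (e j) * t := by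
  choose f hf using fun j => (h (σ * g j)).exists
  have hi : Function.Injective f := fun j j' e => by
    have h1 := H.mul_mem (H.inv_mem (hf j')) (e ▸ hf j)
    have h2 : (g j')⁻¹ * g j ∈ H := by
      have h3 : ((g (f j'))⁻¹ * (σ * g j'))⁻¹ * ((g (f j'))⁻¹ * (σ * g j)) = (g j')⁻¹ * g j := by
        group
      rwa [h3] at h1
    exact (h (g j)).unique (by rw [inv_mul_cancel]; exact H.one_mem) h2
  exact ⟨Equiv.ofBijective f (Finite.injective_iff_bijective.1 hi), fun j =>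
    ⟨_, hf j, (mul_inv_cancel_left _ _).symm⟩⟩

namespace St

variable (s : St) {l : ℕ}

theorem x4_norm {J : Type} [Fintype J] {H : Subgroup s.Au} {g : J → s.Au} (h : Tv H g) {y : ℂ}
    (hy : ∀ σ ∈ H, σ y = y) : ∏ j, g j y ∈ s.k := by
  refine s.mem_k_of_fixed fun σ => ?_
  obtain ⟨e, he⟩ := h.perm σ
  rw [map_prod, ← Equiv.prod_comp e fun j => g j y]
  refine Finset.prod_congr rfl fun j _ => ?_
  obtain ⟨t, ht, e1⟩ := he j
  rw [← AlgEquiv.mul_apply, e1, AlgEquiv.mul_apply, hy t ht]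

theorem x4_res (H : Subgroup s.Au) {φ : s.Au →* ℂˣ} (hφ : s.Cts φ)
    (hH : ∀ σ ∈ H, ∀ τ ∈ H, σ (φ τ : ℂ) = φ τ) :
    ∃ r : ℂ, r ≠ 0 ∧ ∀ σ ∈ H, σ r = φ σ * r := by
  classical
  obtain ⟨T, hT, hTφ⟩ := hφ
  obtain ⟨F, hfd, hgal, hF⟩ := s.exists_gal (T := (T : Set ℂ)) T.finite_toSet hT
  obtain ⟨ρ, hρ, hρ'⟩ := s.exists_res F
  have hker : ρ.ker ≤ φ.ker := by
    intro σ hσ
    refine hTφ σ fun x hx => ?_
    have := hρ' σ ⟨x, hF x hx⟩
    rw [MonoidHom.mem_ker.1 hσ] at this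
    exact this.symm
  obtain ⟨φ', hφ'⟩ : ∃ φ' : (F ≃ₐ[s.k] F) →* ℂˣ, ∀ σ, φ' (ρ σ) = φ σ :=
    ⟨ρ.liftOfSurjective hρ ⟨φ, hker⟩, fun σ => ρ.liftOfRightInverse_comp_apply _ _ _ σ⟩
  let K : Finset (F ≃ₐ[s.k] F) := Finset.univ.filter fun g => g ∈ H.map ρ
  have hK : ∀ g, g ∈ K ↔ g ∈ H.map ρ := fun g => by
    simp only [K, Finset.mem_filter, Finset.mem_univ, true_and]
  let ch : (F ≃ₐ[s.k] F) → (F →* ℂ) := fun g =>
    ((algebraMap F ℂ : F →+* ℂ) : F →* ℂ).comp (g : F →* F)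
  have hch : Function.Injective ch := by
    intro g g' hg
    ext x
    exact DFunLike.congr_fun hg x
  have hli := (linearIndependent_monoidHom F ℂ).comp ch hch
  have hne : ∃ x : F, ∑ g ∈ K, (((φ' g)⁻¹ : ℂˣ) : ℂ) * ((g x : F) : ℂ) ≠ 0 := by
    by_contra hcon
    push Not at hcon
    have := linearIndependent_iff'.1 hli K (fun g => (((φ' g)⁻¹ : ℂˣ) : ℂ)) (by
      funext x
      rw [Finset.sum_apply]
      exact hcon x) 1 ((hK 1).2 (Subgroup.one_mem _))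
    exact Units.ne_zero _ this
  obtain ⟨x, hx⟩ := hne
  refine ⟨_, hx, fun σ hσ => ?_⟩
  have ho : ρ σ ∈ H.map ρ := Subgroup.mem_map_of_mem ρ hσ
  rw [map_sum, Finset.mul_sum]
  refine Finset.sum_bijective (fun g => ρ σ * g) (Group.mulLeft_bijective _) (fun g => ?_)
    (fun g hg => ?_)
  · rw [hK, hK, Subgroup.mul_mem_cancel_left _ ho]
  · have hc : σ (((φ' g)⁻¹ : ℂˣ) : ℂ) = (((φ' g)⁻¹ : ℂˣ) : ℂ) := by
      obtain ⟨τ, hτ, rfl⟩ := (hK g).1 hg
      rw [hφ', Units.val_inv_eq_inv_val, map_inv₀, hH σ hσ τ hτ]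
    rw [map_mul, hc, AlgEquiv.mul_apply, hρ', map_mul, hφ', mul_inv,
      Units.val_mul, ← mul_assoc, ← mul_assoc, Units.mul_inv, one_mul]

theorem x4_mem (l : ℕ) : xz l ∈ s.Fz l :=
  IntermediateField.mem_adjoin_simple_self _ _

theorem x4_fix {σ : s.Au} (h : σ ∈ s.Hz l) {y : ℂ} (hy : y ∈ s.Fz l) : σ y = y := by
  refine IntermediateField.adjoin_induction s.k (p := fun y _ => σ y = y) ?_ ?_ ?_ ?_ ?_ hy
  · rintro x rfl
    exact h
  · exact fun x => σ.commutes x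
  · intro a b _ _ ha hb
    rw [map_add, ha, hb]
  · intro a _ ha
    rw [map_inv₀, ha]
  · intro a b _ _ ha hb
    rw [map_mul, ha, hb]

theorem x4_root (hl : l ≠ 0) {η : ℂ} (h : η ^ l = 1) : η ∈ s.Fz l := by
  have : NeZero l := ⟨hl⟩
  obtain ⟨i, -, rfl⟩ := (xz_prim hl).eq_pow_of_pow_eq_one h
  exact pow_mem (s.x4_mem l) i

theorem x4_cy (hl : l.Prime) : ∃ ν : s.Au →* (ZMod l)ˣ, ν.ker = s.Hz l ∧
    ∀ (σ : s.Au) (η : ℂ), η ^ l = 1 → σ η = η ^ (ν σ : ZMod l).val := by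
  have : NeZero l := ⟨hl.ne_zero⟩
  have : Fact (1 < l) := ⟨hl.one_lt⟩
  have hp := xz_prim hl.ne_zero
  have hs : ∀ σ : s.Au, xz l ^ ((hp.autToPow s.k σ : (ZMod l)ˣ) : ZMod l).val = σ (xz l) :=
    fun σ => hp.autToPow_spec s.k σ
  refine ⟨hp.autToPow s.k, Subgroup.ext fun σ => ⟨fun h => ?_, fun h => ?_⟩, fun σ η h => ?_⟩
  · have h1 := hs σ
    rw [MonoidHom.mem_ker.1 h, Units.val_one, ZMod.val_one, pow_one] at h1
    exact h1.symm
  · have h1 : σ (xz l) = xz l := h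
    have h2 := hp.pow_inj (ZMod.val_lt _) hl.one_lt ((hs σ).trans (h1.trans (pow_one _).symm))
    exact Units.ext (ZMod.val_injective l (h2.trans (ZMod.val_one l).symm))
  · obtain ⟨i, -, rfl⟩ := hp.eq_pow_of_pow_eq_one h
    rw [map_pow, ← hs, pow_right_comm]

theorem x4_pow (hl : l.Prime) (σ : s.Au) : σ ^ (l - 1) ∈ s.Hz l := by
  have : Fact l.Prime := ⟨hl⟩
  obtain ⟨ν, hν, -⟩ := s.x4_cy hl
  rw [← hν, MonoidHom.mem_ker, map_pow]
  exact ZMod.units_pow_card_sub_one_eq_one l _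

theorem x4_gen (hl : l.Prime) (r : ℕ) : ∃ (δ : s.Au) (a d : ℕ), 0 < d ∧
    (∀ j : ℕ, a ^ j ≡ 1 [MOD l] ↔ d ∣ j) ∧ (∀ j : ℕ, (δ ^ l ^ r) ^ j ∈ s.Hz l ↔ d ∣ j) ∧
    (∀ η : ℂ, η ^ l = 1 → (δ ^ l ^ r) η = η ^ a) ∧
    Tv (s.Hz l) fun j : Fin d => (δ ^ l ^ r) ^ j.1 := by
  classical
  have : Fact l.Prime := ⟨hl⟩
  obtain ⟨ν, hν, hη⟩ := s.x4_cy hl
  obtain ⟨⟨_, δ, rfl⟩, hg⟩ := IsCyclic.exists_generator (α := ν.range)
  have h1 : ∀ x : (ZMod l)ˣ, x ^ l = x := fun x => Units.ext (by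
    rw [Units.val_pow_eq_pow_val, ZMod.pow_card])
  have h2 : ν (δ ^ l ^ r) = ν δ := by
    rw [map_pow]
    induction r with
    | zero => rw [pow_zero, pow_one]
    | succ r ih => rw [pow_succ, pow_mul, ih, h1]
  have h3 : ∀ (j : ℕ) (σ : s.Au), ((δ ^ l ^ r) ^ j)⁻¹ * σ ∈ s.Hz l ↔ ν δ ^ j = ν σ := fun j σ => by
    rw [← hν, MonoidHom.mem_ker, map_mul, map_inv, map_pow, h2, inv_mul_eq_one]
  refine ⟨δ, (ν δ : ZMod l).val, orderOf (ν δ), orderOf_pos _, fun j => ?_, fun j => ?_,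
    fun η h => by rw [hη _ η h, h2], fun σ => ?_⟩
  · rw [orderOf_dvd_iff_pow_eq_one, ← ZMod.natCast_eq_natCast_iff, Nat.cast_pow,
      ZMod.natCast_zmod_val, Nat.cast_one, ← Units.val_pow_eq_pow_val, Units.val_eq_one]
  · rw [orderOf_dvd_iff_pow_eq_one, ← hν, MonoidHom.mem_ker, map_pow, h2]
  · have h4 : ν σ ∈ Subgroup.zpowers (ν δ) := by
      obtain ⟨n, hn⟩ := hg ⟨ν σ, σ, rfl⟩
      exact ⟨n, congrArg Subtype.val hn⟩
    obtain ⟨j, hj, e⟩ := Finset.mem_image.1 (mem_zpowers_iff_mem_range_orderOf.1 h4)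
    refine ⟨⟨j, Finset.mem_range.1 hj⟩, (h3 j σ).2 e, fun i hi => Fin.ext ?_⟩
    exact pow_injOn_Iio_orderOf i.2 (Finset.mem_range.1 hj) (((h3 i.1 σ).1 hi).trans e.symm)

theorem x4_int {x : ℂ} (hx : x ∈ s.k) (h : ∀ V : ValuationSubring ℂ, V.valuation x ≤ 1) :
    ∃ a : s.O, s.c a = x :=
  ⟨⟨⟨x, hx⟩, (isIntegral_algHom_iff (algebraMap s.k ℂ).toIntAlgHom
    (algebraMap s.k ℂ).injective).1 (e1_integral h)⟩, rfl⟩

theorem x4_dvd {m : ℕ} (hm : 0 < m) {x : s.O}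
    (h : ∀ V : ValuationSubring ℂ, V.valuation m < 1 → V.valuation (s.c x) ≤ V.valuation m) :
    x ∈ Ideal.span {(m : s.O)} := by
  have h0 : (m : ℂ) ≠ 0 := Nat.cast_ne_zero.2 hm.ne'
  obtain ⟨a, ha⟩ := s.x4_int (x := s.c x / m) (div_mem (x : s.k).2 (natCast_mem _ m)) fun V => by
    rw [map_div₀, div_le_one₀ (zero_lt_iff.2 ((Valuation.ne_zero_iff _).2 h0))]
    rcases lt_or_ge (V.valuation (m : ℂ)) 1 with h1 | h1
    · exact h V h1
    · exact (e1_int (algebraMap s.k ℂ) V.valuation x).trans h1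
  refine Ideal.mem_span_singleton'.2 ⟨a, RingOfIntegers.ext (Subtype.ext ?_)⟩
  have h1 : s.c (a * m) = s.c x := by
    rw [c, map_mul, map_natCast]
    exact (eq_div_iff h0).1 ha
  exact h1

theorem x4_val {q : Ideal s.O} (hq : q.IsMaximal) :
    ∃ V : ValuationSubring ℂ, ∀ x, V.valuation (s.c x) < 1 ↔ x ∈ q :=
  e1_val (algebraMap s.k ℂ) q hq

theorem x4_unr {φ : s.Au →* ℂˣ} (hφ : s.Cts φ) : ∃ C, C ≠ 0 ∧ s.Unram C φ := by
  obtain ⟨T, hT, hTφ⟩ := hφ
  obtain ⟨F, hfd, hgal, hF⟩ := s.exists_gal (T := (T : Set ℂ)) T.finite_toSet hT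
  obtain ⟨C, hC, hu⟩ := s.exists_unram F
  exact ⟨C, hC, fun V σ hV hi => hTφ σ fun x hx => hu V σ hV (fun y =>
    hi _ (s.alg_of_mem F (y : F).2) (e1_int (algebraMap F ℂ) V.valuation y)) x (hF x hx)⟩

end St


end Pool.Agent.P.MP_20768c_nt.Az.Cu

end

-- part Cu.E4a
section

set_option autoImplicit false

open Complex NumberField IsDedekindDomain Filter Topology
open UpperHalfPlane hiding I
open scoped ComplexConjugate Real MatrixGroups

namespace Pool.Agent.P.MP_20768c_nt.Az.Cu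

open Pool.Agent.P.MP_20768c_nt.Az.EQ (Lt pr sp IsLat jL qN)

variable {Γ : Type} [LinearOrderedCommGroupWithZero Γ]

namespace St

variable {s : St} {v : Valuation ℂ Γ} {σ τ : s.Au} {n : ℕ} {x y : ℂ}
  {sb : (ZMod (2 ^ n))ˣ → s.Au}

theorem exists_fx (s : St) (n : ℕ) : ∃ T : IntermediateField s.k ℂ, ∀ x, x ∈ T ↔ x ∈ s.Fx n := by
  refine ⟨{ carrier := s.Fx n
            mul_mem' := fun {a b} ha hb => ⟨ha.1.mul hb.1, fun σ h1 h2 => ?_⟩
            one_mem' := ⟨isAlgebraic_one, fun σ _ _ => map_one σ⟩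
            add_mem' := fun {a b} ha hb => ⟨ha.1.add hb.1, fun σ h1 h2 => ?_⟩
            zero_mem' := ⟨isAlgebraic_zero, fun σ _ _ => map_zero σ⟩
            algebraMap_mem' := fun r => ⟨?_, fun σ _ _ => σ.commutes r⟩
            inv_mem' := fun a ha => ⟨ha.1.inv, fun σ h1 h2 => ?_⟩ }, fun _ => Iff.rfl⟩
  · rw [map_mul, ha.2 σ h1 h2, hb.2 σ h1 h2]
  · rw [map_add, ha.2 σ h1 h2, hb.2 σ h1 h2]
  · exact s.alg_of_mem ⊥ (IntermediateField.algebraMap_mem ⊥ r)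
  · rw [map_inv₀, ha.2 σ h1 h2]

theorem fx_zt (s : St) (n : ℕ) : zt n ∈ s.Fx n := by
  exact ⟨zt_alg n, fun _ _ h => h⟩

theorem fx_mono {n' : ℕ} (h : n ≤ n') (hx : x ∈ s.Fx n) : x ∈ s.Fx n' := by
  obtain ⟨j, rfl⟩ := Nat.exists_eq_add_of_le h
  refine ⟨hx.1, fun σ h1 h2 => hx.2 σ h1 ?_⟩
  rw [← zt_pow_two n j, map_pow, h2]

theorem fx_aut (h : Inert s.v τ) (hx : x ∈ s.Fx n) : τ x ∈ s.Fx n := by
  refine ⟨s.au_alg τ hx.1, fun σ h1 h2 => ?_⟩
  obtain ⟨b, hb⟩ := hom_zt (τ : ℂ →+* ℂ) n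
  have hb' : τ (zt n) = zt n ^ (b : ZMod (2 ^ n)).val := hb
  have e := hx.2 (τ⁻¹ * (σ * τ)) (inert_mul (inert_inv h) (inert_mul h1 h)) (by
    rw [AlgEquiv.mul_apply, AlgEquiv.mul_apply, AlgEquiv.aut_inv, AlgEquiv.symm_apply_eq, hb',
      map_pow, h2])
  rw [AlgEquiv.mul_apply, AlgEquiv.mul_apply, AlgEquiv.aut_inv, AlgEquiv.symm_apply_eq] at e
  exact e

theorem fx_eq (h : Inert s.v σ) (h' : Inert s.v τ) (e : σ (zt n) = τ (zt n)) (hx : x ∈ s.Fx n) :
    σ x = τ x := by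
  have e' := hx.2 (τ⁻¹ * σ) (inert_mul (inert_inv h') h) (by
    rw [AlgEquiv.mul_apply, AlgEquiv.aut_inv, AlgEquiv.symm_apply_eq, e])
  rw [AlgEquiv.mul_apply, AlgEquiv.aut_inv, AlgEquiv.symm_apply_eq] at e'
  exact e'

theorem fx_zero (hx : x ∈ s.Fx 0) (h : Inert s.v σ) : σ x = x := by
  refine hx.2 σ h ?_
  have e : zt 0 = 1 := by simpa using zt_pow 0
  rw [e, map_one]

theorem fx_val (hx : x ∈ s.Fx 0) (h0 : x ≠ 0) : ∃ j : ℤ, s.v x = s.v 2 ^ j := by
  obtain ⟨y, hy, e⟩ := s.val_fixed ⊥ s.v hx.1 fun σ h _ => fx_zero hx h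
  obtain ⟨r, rfl⟩ := IntermediateField.mem_bot.1 hy
  have h1 : algebraMap s.k ℂ r ≠ 0 := by
    intro h
    rw [h, map_zero] at e
    exact h0 ((Valuation.zero_iff _).1 e)
  rw [e]
  exact s.v_k_val s.v s.v_two r.2 h1

theorem e4a_val (v : Valuation ℂ NNReal) (h0 : v 2 ≠ 0) (h2 : v 2 < 1) {π' : ℂ} {N : ℕ}
    (ht : v π' ^ N = v 2) {a : ℕ → ℂ} (ha : ∀ i, a i ≠ 0 → ∃ j : ℤ, v (a i) = v 2 ^ j)
    (hs : v (∑ i ∈ Finset.range N, a i * π' ^ i) ≤ 1) {i : ℕ} (hi : i < N) : v (a i) ≤ 1 := by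
  have t0 : v π' ≠ 0 := by
    intro h
    rw [h, zero_pow (by omega)] at ht
    exact h0 ht.symm
  have t0' : 0 < v π' := pos_iff_ne_zero.2 t0
  have t1 : v π' < 1 := by
    by_contra h
    have := one_le_pow₀ (n := N) (not_lt.1 h)
    rw [ht] at this
    exact absurd h2 (not_lt.2 this)
  have key : ∀ i, a i ≠ 0 → ∃ j : ℤ, v (a i) = v 2 ^ j ∧ v (a i * π' ^ i) = v π' ^ (N * j + i) := by
    intro i h
    obtain ⟨j, hj⟩ := ha i h
    refine ⟨j, hj, ?_⟩
    rw [map_mul, map_pow, hj, ← ht, zpow_add₀ t0, zpow_mul, zpow_natCast, zpow_natCast]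
  obtain ⟨i₀, h₀, hm⟩ := Finset.exists_max_image (Finset.range N) (fun i => v (a i * π' ^ i))
    ⟨i, Finset.mem_range.2 hi⟩
  by_cases hz : a i = 0
  · rw [hz, map_zero]
    exact zero_le
  obtain ⟨j, hj, hj'⟩ := key i hz
  have hpos : 0 < v (a i₀ * π' ^ i₀) :=
    lt_of_lt_of_le (by rw [hj']; exact zpow_pos t0' _) (hm i (Finset.mem_range.2 hi))
  have hz₀ : a i₀ ≠ 0 := by
    intro h
    rw [h, zero_mul, map_zero] at hpos
    exact lt_irrefl _ hpos
  obtain ⟨j₀, -, hj₀⟩ := key i₀ hz₀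
  have hsum : v (∑ i ∈ Finset.range N, a i * π' ^ i) = v (a i₀ * π' ^ i₀) := by
    refine v.map_sum_eq_of_lt h₀ fun l hl => ?_
    rw [Finset.mem_sdiff, Finset.mem_singleton] at hl
    refine lt_of_le_of_ne (hm l hl.1) fun e => ?_
    by_cases hl0 : a l = 0
    · rw [← e, hl0, zero_mul, map_zero] at hpos
      exact lt_irrefl _ hpos
    obtain ⟨j', -, hj''⟩ := key l hl0
    rw [hj'', hj₀] at e
    have e' := zpow_right_injective₀ t0' t1.ne e
    have a1 : (l : ℤ) < N := by exact_mod_cast Finset.mem_range.1 hl.1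
    have a2 : (i₀ : ℤ) < N := by exact_mod_cast Finset.mem_range.1 h₀
    have a3 : j' = j₀ := by
      rcases lt_trichotomy j' j₀ with h | h | h
      · have : (N : ℤ) * (j' + 1) ≤ N * j₀ := mul_le_mul_of_nonneg_left h (by positivity)
        rw [mul_add, mul_one] at this
        omega
      · exact h
      · have : (N : ℤ) * (j₀ + 1) ≤ N * j' := mul_le_mul_of_nonneg_left h (by positivity)
        rw [mul_add, mul_one] at this
        omega
    rw [a3] at e'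
    exact hl.2 (by omega)
  have hle : v π' ^ (N * j + i) ≤ 1 := by
    rw [← hj']
    exact (hm i (Finset.mem_range.2 hi)).trans (hsum ▸ hs)
  have hge : 0 ≤ (N : ℤ) * j + i := (zpow_le_one_iff_right_of_lt_one₀ t0' t1).1 hle
  have hj0 : 0 ≤ j := by
    by_contra h
    have a1 : (i : ℤ) < N := by exact_mod_cast hi
    have : (N : ℤ) * (j + 1) ≤ N * 0 := mul_le_mul_of_nonneg_left (by omega) (by positivity)
    rw [mul_add, mul_one, mul_zero] at this
    omega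
  rw [hj]
  exact zpow_le_one₀ (pos_iff_ne_zero.2 h0) h2.le hj0

theorem e4a_poly (hn : 1 ≤ n) (hy : y ∈ s.Fx n) : ∃ P : Polynomial ℂ,
    P.natDegree < 2 ^ (n - 1) ∧ (∀ i, P.coeff i ∈ s.Fx 0) ∧ P.eval (1 - zt n) = y := by
  classical
  obtain ⟨T, hT⟩ := s.exists_fx n
  obtain ⟨sb, hs⟩ := s.exists_sec n
  have hz : zt n ∈ T := (hT _).2 (s.fx_zt n)
  let u : (ZMod (2 ^ n))ˣ → T := fun b =>
    ⟨1 - zt n ^ (b : ZMod (2 ^ n)).val, sub_mem (one_mem T) (pow_mem hz _)⟩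
  let r : (ZMod (2 ^ n))ˣ → T := fun b => ⟨sb b y, (hT _).2 (fx_aut (hs b).1 hy)⟩
  have hu' : Function.Injective fun b : (ZMod (2 ^ n))ˣ => 1 - zt n ^ (b : ZMod (2 ^ n)).val := by
    intro b b' h
    have h1 : zt n ^ (((b : ZMod (2 ^ n)).val : ℕ) : ℤ) = zt n ^ (((b' : ZMod (2 ^ n)).val : ℕ) : ℤ) := by
      rw [zpow_natCast, zpow_natCast]
      exact sub_right_injective h
    have h2 := zt_congr.1 h1
    rw [Int.cast_natCast, Int.cast_natCast, ZMod.natCast_zmod_val, ZMod.natCast_zmod_val] at h2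
    exact Units.ext h2
  have hu : Function.Injective u := fun b b' h => hu' (congrArg Subtype.val h)
  let P₀ : Polynomial T := Lagrange.interpolate Finset.univ u r
  let P : Polynomial ℂ := P₀.map (algebraMap T ℂ)
  have hcard : (Finset.univ : Finset (ZMod (2 ^ n))ˣ).card = 2 ^ (n - 1) := by
    rw [Finset.card_univ, ← Nat.card_eq_fintype_card, card_units hn]
  have hdeg : P.degree < (Finset.univ : Finset (ZMod (2 ^ n))ˣ).card :=
    lt_of_le_of_lt Polynomial.degree_map_le (Lagrange.degree_interpolate_lt r hu.injOn)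
  have hev : ∀ b : (ZMod (2 ^ n))ˣ, P.eval (1 - zt n ^ (b : ZMod (2 ^ n)).val) = sb b y := by
    intro b
    have e := Lagrange.eval_interpolate_at_node r hu.injOn (Finset.mem_univ b)
    have e' : P.eval (algebraMap T ℂ (u b)) = algebraMap T ℂ (r b) := by
      rw [Polynomial.eval_map, Polynomial.eval₂_at_apply, e]
    exact e'
  have hmul : ∀ b c : (ZMod (2 ^ n))ˣ, (zt n ^ (c : ZMod (2 ^ n)).val) ^ (b : ZMod (2 ^ n)).val =
      zt n ^ ((b * c : (ZMod (2 ^ n))ˣ) : ZMod (2 ^ n)).val := by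
    intro b c
    rw [← pow_mul, ← zpow_natCast]
    refine (zt_val ?_).symm
    rw [Int.cast_natCast, Nat.cast_mul, ZMod.natCast_zmod_val, ZMod.natCast_zmod_val, Units.val_mul,
      mul_comm]
  refine ⟨P, ?_, fun i => ⟨?_, fun τ hτ _ => ?_⟩, ?_⟩
  · by_cases h0 : P = 0
    · rw [h0, Polynomial.natDegree_zero]
      positivity
    · rw [Polynomial.natDegree_lt_iff_degree_lt h0, ← hcard]
      exact hdeg
  · rw [Polynomial.coeff_map]
    exact ((hT _).1 (P₀.coeff i).2).1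
  · obtain ⟨c, hc⟩ := hom_zt (τ : ℂ →+* ℂ) n
    have hc' : τ (zt n) = zt n ^ (c : ZMod (2 ^ n)).val := hc
    have e : P.map (τ : ℂ →+* ℂ) = P := by
      refine Polynomial.eq_of_degrees_lt_of_eval_index_eq Finset.univ hu'.injOn
        (lt_of_le_of_lt Polynomial.degree_map_le hdeg) hdeg fun b' _ => ?_
      obtain ⟨b, rfl⟩ : ∃ b, b' = b * c := ⟨b' * c⁻¹, by rw [inv_mul_cancel_right]⟩
      have e1 : 1 - zt n ^ ((b * c : (ZMod (2 ^ n))ˣ) : ZMod (2 ^ n)).val =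
          (τ : ℂ →+* ℂ) (1 - zt n ^ (b : ZMod (2 ^ n)).val) := by
        rw [map_sub, map_one, map_pow, hc, hmul]
      rw [hev, e1, Polynomial.eval_map, Polynomial.eval₂_at_apply, hev]
      refine fx_eq (σ := τ * sb b) (inert_mul hτ (hs b).1) (hs _).1 ?_ hy
      rw [AlgEquiv.mul_apply, (hs b).2, map_pow, hc', hmul, (hs _).2]
    have e' := congrArg (fun Q => Q.coeff i) e
    simp only [Polynomial.coeff_map] at e'
    exact e'
  · have e1 : zt n ^ (((1 : (ZMod (2 ^ n))ˣ) : ZMod (2 ^ n))).val = zt n := by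
      rw [zt_val (a := 1) (by simp), zpow_one]
    have e := hev 1
    rw [e1] at e
    rw [e]
    exact hy.2 _ (hs 1).1 (by rw [(hs 1).2, e1])

theorem fx_exp (hn : 1 ≤ n) (hy : y ∈ s.Fx n) (hv : s.v y ≤ 1) : ∃ a : ℕ → ℂ,
    (∀ i, a i ∈ s.Fx 0 ∧ s.v (a i) ≤ 1) ∧
      y = ∑ i ∈ Finset.range (2 ^ (n - 1)), a i * (1 - zt n) ^ i := by
  obtain ⟨P, hd, hc, he⟩ := e4a_poly hn hy
  have hN : 0 < 2 ^ (n - 1) := by positivity
  have hy' : y = ∑ i ∈ Finset.range (2 ^ (n - 1)), P.coeff i * (1 - zt n) ^ i := by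
    rw [← he, Polynomial.eval_eq_sum_range' hd]
  refine ⟨fun i => P.coeff i, fun i => ⟨hc i, ?_⟩, hy'⟩
  by_cases hi : i < 2 ^ (n - 1)
  · have ht : s.v (1 - zt n) ^ 2 ^ (n - 1) = s.v 2 := by
      simpa using v_one_sub s.v hn (b := 1) odd_one
    have h20 : s.v 2 ≠ 0 := (Valuation.ne_zero_iff _).2 two_ne_zero
    refine e4a_val s.v h20 s.v_two ht (fun i h => fx_val (hc i) h) ?_ hi
    rw [← hy']
    exact hv
  · have e : P.coeff i = 0 := Polynomial.coeff_eq_zero_of_natDegree_lt (by omega)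
    rw [show (fun i => P.coeff i) i = 0 from e, map_zero]
    exact zero_le

theorem sq_mem (hn : 2 ≤ n) {n' : ℕ} (h : x ^ 2 ∈ s.Fx n) (h' : x ∈ s.Fx n') :
    x ∈ s.Fx n ∨ zt (n + 1) * x ∈ s.Fx n := by
  obtain ⟨T, hT⟩ := s.exists_fx (n + (n' + 1))
  have hodd : Odd (1 + 2 ^ n : ℤ) := by
    refine odd_one.add_even ?_
    exact (Int.even_pow.2 ⟨even_two, by omega⟩)
  obtain ⟨b, hb⟩ := (unit_odd (n := n + (n' + 1)) (by omega)).2 hodd
  obtain ⟨σ₀, h0, h1⟩ := s.exists_inert (n + (n' + 1)) b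
  rw [zt_val hb.symm] at h1
  have hlev : ∀ (σ : s.Au) (a : ℤ), σ (zt (n + (n' + 1))) = zt (n + (n' + 1)) ^ a →
      σ (zt n) = zt n ^ a := by
    intro σ a e
    rw [← zt_pow_two n (n' + 1), map_pow, e, ← zpow_natCast, ← zpow_natCast, ← zpow_mul,
      ← zpow_mul, mul_comm]
  have h2 : σ₀ (zt n) = zt n := by
    rw [hlev σ₀ _ h1, zpow_add₀ (zt_ne n), zpow_one]
    have : zt n ^ (2 ^ n : ℤ) = 1 := by exact_mod_cast zt_pow n
    rw [this, mul_one]
  have h3 : σ₀ (zt (n + 1)) = -zt (n + 1) := by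
    have e : zt (n + (n' + 1)) ^ 2 ^ n' = zt (n + 1) := by
      rw [← zt_pow_two (n + 1) n', show n + 1 + n' = n + (n' + 1) by ring]
    have e2 : zt (n + 1) ^ (2 ^ n : ℤ) = -1 := by
      exact_mod_cast zt_half (n := n + 1) (by omega)
    rw [← e, map_pow, h1, ← zpow_natCast, ← zpow_mul, mul_comm, zpow_mul, zpow_natCast, e,
      zpow_add₀ (zt_ne _), zpow_one, e2, mul_neg_one]
  have hpow : ∀ i : ℕ, (σ₀ ^ i) (zt (n + (n' + 1))) = zt (n + (n' + 1)) ^ (1 + 2 ^ n : ℤ) ^ i := by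
    intro i
    induction i with
    | zero => simp
    | succ i ih => rw [pow_succ', AlgEquiv.mul_apply, ih, map_zpow₀, h1, ← zpow_mul, pow_succ']
  have main : ∀ z ∈ s.Fx (n + (n' + 1)), σ₀ z = z → z ∈ s.Fx n := by
    intro z hz e
    refine ⟨hz.1, fun σ k1 k2 => ?_⟩
    obtain ⟨c, hc⟩ := hom_zt (σ : ℂ →+* ℂ) (n + (n' + 1))
    have hc' : σ (zt (n + (n' + 1))) =
        zt (n + (n' + 1)) ^ (((c : ZMod (2 ^ (n + (n' + 1)))).val : ℕ) : ℤ) := by
      rw [zpow_natCast]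
      exact hc
    have k3 := hlev σ _ hc'
    rw [k2] at k3
    have k4 := zt_congr.1 (k3.symm.trans (zpow_one _).symm)
    have k5 : (((c : ZMod (2 ^ (n + (n' + 1)))).val : ℕ) : ℤ) ≡ 1 [ZMOD 2 ^ n] := by
      have := (ZMod.intCast_eq_intCast_iff _ _ _).1 k4
      exact_mod_cast this
    obtain ⟨i, -, hi⟩ := gen_pow (u := 1 + 2 ^ n) hn (Int.ModEq.refl _) k5 (n' + 1)
    have k6 : σ (zt (n + (n' + 1))) = (σ₀ ^ i) (zt (n + (n' + 1))) := by
      rw [hc', hpow]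
      refine zt_congr.2 ((ZMod.intCast_eq_intCast_iff _ _ _).2 ?_)
      exact_mod_cast hi
    rw [fx_eq k1 (inert_pow h0 i) k6 hz]
    clear k6 hi
    induction i with
    | zero => rfl
    | succ i ih => rw [pow_succ, AlgEquiv.mul_apply, e, ih]
  have hx : x ∈ s.Fx (n + (n' + 1)) := fx_mono (by omega) h'
  have e : σ₀ x ^ 2 = x ^ 2 := by rw [← map_pow, h.2 σ₀ h0 h2]
  rcases sq_eq_sq_iff_eq_or_eq_neg.1 e with e | e
  · exact Or.inl (main x hx e)
  · refine Or.inr (main _ ((hT _).1 (mul_mem ((hT _).2 ?_) ((hT _).2 hx))) ?_)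
    · exact fx_mono (by omega) (s.fx_zt (n + 1))
    · rw [map_mul, h3, e, neg_mul_neg]

end St

end Pool.Agent.P.MP_20768c_nt.Az.Cu

end

-- part Ex.X5
section

set_option autoImplicit false

open Complex NumberField IsDedekindDomain
open scoped Real

namespace Pool.Agent.P.MP_20768c_nt.Az.Cu

theorem x5_tor (F : Type) [Field F] [NumberField F] : CommGroup.torsion Fˣ ≤ Un F := by
  have key : ∀ x : Fˣ, IsOfFinOrder x → IsIntegral ℤ (x : F) := fun x hx => by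
    obtain ⟨n, hn, e⟩ := isOfFinOrder_iff_pow_eq_one.1 hx
    refine IsIntegral.of_pow hn ?_
    rw [← Units.val_pow_eq_pow_val, e, Units.val_one]
    exact isIntegral_one
  intro x hx
  have h1 := key x hx
  have h2 := key x⁻¹ (inv_mem hx : x⁻¹ ∈ CommGroup.torsion Fˣ)
  refine ⟨⟨⟨x, h1⟩, ⟨(x⁻¹ : Fˣ), h2⟩, ?_, ?_⟩, Units.ext rfl⟩
  · exact RingOfIntegers.ext (x.mul_inv)
  · exact RingOfIntegers.ext (x.inv_mul)

theorem x5_one (F : Type) [Field F] [NumberField F] (h : Subsingleton (InfinitePlace F)) :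
    Un F ≤ CommGroup.torsion Fˣ := by
  rintro _ ⟨u, rfl⟩
  have h1 : u ∈ Units.torsion F := by
    refine (Units.mem_torsion F).2 fun w => ?_
    have h2 := Units.sum_mult_mul_log u
    rw [Fintype.sum_subsingleton _ w] at h2
    have h3 : (w.mult : ℝ) ≠ 0 := Nat.cast_ne_zero.2 InfinitePlace.mult_pos.ne'
    exact Real.eq_one_of_pos_of_log_eq_zero (Units.pos_at_place u w)
      ((mul_eq_zero.1 h2).resolve_left h3)
  exact MonoidHom.isOfFinOrder _ h1

namespace St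

variable (s : St) {l C : ℕ}

theorem x5_gen (hl : l.Prime) {a : ℕ} {δ : s.Au} (hδ : ∀ η : ℂ, η ^ l = 1 → δ η = η ^ a)
    (g : s.Fz l ≃ₐ[s.k] s.Fz l) (hg : ∀ x : s.Fz l, ((g x : s.Fz l) : ℂ) = δ x)
    {φ : s.Au →* ℂˣ} (h : φ ∈ s.Chx l C) :
    ∃ (r : ℂ) (x : (s.Fz l)ˣ),
      x ∈ Vs (s.Fz l) l C ⊓ Xe (Units.map (g : s.Fz l →* s.Fz l)) a l ∧
      r ^ l = ((x : s.Fz l) : ℂ) ∧ ∀ σ ∈ s.Hz l, σ r = φ σ * r := by
  have hp : ∀ σ, (φ σ : ℂ) ^ l = 1 := fun σ => by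
    rw [← Units.val_pow_eq_pow_val, h.1, Units.val_one]
  obtain ⟨r, hr0, hr⟩ := s.x4_res (s.Hz l) h.2.1 fun σ hσ τ _ =>
    s.x4_fix hσ (s.x4_root hl.ne_zero (hp τ))
  have hH : ∀ σ : s.Au, (∀ y ∈ s.Fz l, σ y = y) → σ ∈ s.Hz l := fun σ hσ => hσ _ (s.x4_mem l)
  have hm : r ^ l ∈ s.Fz l := s.mem_of_fixed (s.Fz l) fun σ hσ => by
    rw [map_pow, hr σ (hH σ hσ), mul_pow, hp, one_mul]
  have h0 : (⟨r ^ l, hm⟩ : s.Fz l) ≠ 0 := fun e => pow_ne_zero l hr0 (congrArg Subtype.val e)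
  have hz : xz l ^ l = 1 := (xz_prim hl.ne_zero).pow_eq_one
  have hδ0 : δ r ≠ 0 := (map_ne_zero δ).2 hr0
  have ht : δ r / r ^ a ∈ s.Fz l := s.mem_of_fixed (s.Fz l) fun σ hσ => by
    have h1 := hH σ hσ
    have h2 : δ⁻¹ * σ * δ ∈ s.Hz l := by
      change (δ⁻¹ * σ * δ) (xz l) = xz l
      have e : σ (δ (xz l)) = δ (xz l) := by
        rw [hδ _ hz, map_pow, show σ (xz l) = xz l from h1]
      rw [AlgEquiv.mul_apply, AlgEquiv.mul_apply, e, ← AlgEquiv.mul_apply, inv_mul_cancel,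
        AlgEquiv.one_apply]
    have h3 : φ (δ⁻¹ * σ * δ) = φ σ := by
      rw [map_mul, map_mul, map_inv, mul_right_comm, inv_mul_cancel, one_mul]
    have h4 := congrArg δ (hr _ h2)
    rw [h3, map_mul, hδ _ (hp σ), ← AlgEquiv.mul_apply, ← mul_assoc, ← mul_assoc, mul_inv_cancel,
      one_mul, AlgEquiv.mul_apply] at h4
    rw [map_div₀, h4, map_pow, hr σ h1, mul_pow,
      mul_div_mul_left _ _ (pow_ne_zero a (Units.ne_zero _))]
  have ht0 : (⟨δ r / r ^ a, ht⟩ : s.Fz l) ≠ 0 := fun e =>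
    div_ne_zero hδ0 (pow_ne_zero a hr0) (congrArg Subtype.val e)
  refine ⟨r, Units.mk0 _ h0, ⟨?_, Units.mk0 _ ht0, ?_⟩, rfl, hr⟩
  · refine s.vs_of_fixed (s.Fz l) (r := r) hl.pos rfl fun V σ hV hI hσ => ?_
    rw [hr σ (hH σ hσ), h.2.2 V σ hV hI, Units.val_one, one_mul]
  · refine Units.ext (Subtype.ext ?_)
    rw [MonoidHom.div_apply, powMonoidHom_apply, powMonoidHom_apply, Units.val_div_eq_div_val,
      Units.val_pow_eq_pow_val, Units.val_pow_eq_pow_val, Units.coe_map]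
    change (δ r / r ^ a) ^ l = ((g ⟨r ^ l, hm⟩ : s.Fz l) : ℂ) / (r ^ l) ^ a
    rw [hg, div_pow, ← pow_mul, ← pow_mul, mul_comm a l, ← map_pow]

theorem x5_kum (hl : l.Prime) {a : ℕ} {δ : s.Au} (hδ : ∀ η : ℂ, η ^ l = 1 → δ η = η ^ a)
    (g : s.Fz l ≃ₐ[s.k] s.Fz l) (hg : ∀ x : s.Fz l, ((g x : s.Fz l) : ℂ) = δ x)
    (h0 : (Pw (s.Fz l) l).relIndex
      (Vs (s.Fz l) l C ⊓ Xe (Units.map (g : s.Fz l →* s.Fz l)) a l) ≠ 0) :
    (s.Chx l C).Finite ∧ (s.Chx l C).ncard ≤ (Pw (s.Fz l) l).relIndex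
      (Vs (s.Fz l) l C ⊓ Xe (Units.map (g : s.Fz l →* s.Fz l)) a l) := by
  generalize hW : Vs (s.Fz l) l C ⊓ Xe (Units.map (g : s.Fz l →* s.Fz l)) a l = W at h0 ⊢
  have : Finite (W ⧸ (Pw (s.Fz l) l).subgroupOf W) := Nat.finite_of_card_ne_zero h0
  choose r x hx hr hσ using fun φ : s.Chx l C => s.x5_gen hl hδ g hg φ.2
  rw [hW] at hx
  let f : s.Chx l C → W ⧸ (Pw (s.Fz l) l).subgroupOf W := fun φ => QuotientGroup.mk ⟨x φ, hx φ⟩
  have hr0 : ∀ φ, r φ ≠ 0 := fun φ e => by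
    have := hr φ
    rw [e, zero_pow hl.ne_zero] at this
    exact Units.ne_zero (x φ) (Subtype.ext this.symm)
  have hf : Function.Injective f := by
    intro φ φ' e
    obtain ⟨t, ht⟩ := Subgroup.mem_subgroupOf.1 (QuotientGroup.eq.1 e)
    have ht1 : x φ * t ^ l = x φ' := mul_eq_of_eq_inv_mul ht
    have ht2 : r φ ^ l * ((t : s.Fz l) : ℂ) ^ l = r φ' ^ l := by
      rw [hr, hr]
      exact congrArg (fun u : (s.Fz l)ˣ => algebraMap (s.Fz l) ℂ (u : s.Fz l)) ht1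
    have ht0 : ((t : s.Fz l) : ℂ) ≠ 0 := fun e => Units.ne_zero t (Subtype.ext e)
    have hz : r φ * (t : s.Fz l) / r φ' ∈ s.Fz l := s.x4_root hl.ne_zero (by
      rw [div_pow, mul_pow, ht2, div_self (pow_ne_zero l (hr0 φ'))])
    have hH : ∀ σ ∈ s.Hz l, φ.1 σ = φ'.1 σ := fun σ h => by
      have e1 := s.x4_fix h hz
      rw [map_div₀, map_mul, hσ φ σ h, hσ φ' σ h, s.x4_fix h (t : s.Fz l).2,
        div_eq_div_iff (mul_ne_zero (Units.ne_zero _) (hr0 φ')) (hr0 φ')] at e1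
      refine Units.ext (mul_right_cancel₀
        (mul_ne_zero (mul_ne_zero (hr0 φ) ht0) (hr0 φ')) ?_)
      linear_combination e1
    refine Subtype.ext (MonoidHom.ext fun σ => ?_)
    have e1 := hH _ (s.x4_pow hl σ)
    have e2 := (φ.2.1 σ).trans (φ'.2.1 σ).symm
    rw [map_pow, map_pow] at e1
    rw [← pow_sub_one_mul hl.ne_zero, ← pow_sub_one_mul hl.ne_zero (φ'.1 σ), e1] at e2
    exact mul_left_cancel e2
  have hfin : Finite (s.Chx l C) := Finite.of_injective f hf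
  exact ⟨Set.toFinite _, Nat.card_le_card_of_injective f hf⟩

theorem x5_place : Subsingleton (InfinitePlace s.k) := by
  have h0 : 0 < InfinitePlace.nrComplexPlaces s.k := by
    classical
    refine Fintype.card_pos_iff.2 ⟨⟨InfinitePlace.mk (algebraMap s.k ℂ),
      InfinitePlace.not_isReal_iff_isComplex.1 fun h => s.w_im.ne' ?_⟩⟩
    exact Complex.conj_eq_iff_im.1 (RingHom.congr_fun
      (ComplexEmbedding.isReal_iff.1 (InfinitePlace.isReal_mk_iff.1 h)) (s.w : s.k))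
  have h1 := InfinitePlace.card_add_two_mul_card_eq_rank s.k
  have h2 := InfinitePlace.card_eq_nrRealPlaces_add_nrComplexPlaces s.k
  rw [s.finrank_k] at h1
  exact Fintype.card_le_one_iff_subsingleton.1 (by omega)

theorem x5_two : Un (s.Fz 2) ≤ CommGroup.torsion (s.Fz 2)ˣ := by
  refine x5_one _ ⟨fun w w' => ?_⟩
  have := s.x5_place
  obtain ⟨g, hg⟩ := InfinitePlace.exists_smul_eq_of_comap_eq (k := s.k)
    (Subsingleton.elim (w.comap (algebraMap s.k (s.Fz 2))) (w'.comap (algebraMap s.k (s.Fz 2))))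
  obtain ⟨ρ, hρ, hρ'⟩ := s.exists_res (s.Fz 2)
  obtain ⟨σ, rfl⟩ := hρ g
  have h1 : σ ∈ s.Hz 2 := by simpa using s.x4_pow Nat.prime_two σ
  have h2 : ρ σ = 1 := AlgEquiv.ext fun x => Subtype.ext ((hρ' σ x).trans (s.x4_fix h1 x.2))
  rw [← hg, h2, one_smul]

theorem x5_up (hl : l.Prime) (hC : C ≠ 0)
    (hB : Vs (s.Fz l) l C ≤ Vs (s.Fz l) 0 C ⊔ Pw (s.Fz l) l)
    (R : Finset (HeightOneSpectrum (𝓞 (s.Fz l))))
    (hR : ∀ Q : HeightOneSpectrum (𝓞 (s.Fz l)), (C : 𝓞 (s.Fz l)) ∈ Q.asIdeal → Fre s.k Q.asIdeal →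
      ∃ Q' ∈ R, Q'.asIdeal.under s.O = Q.asIdeal.under s.O) :
    (s.Chx l C).Finite ∧ (if l = 2 then 2 else 1) * (s.Chx l C).ncard ≤ l ^ (2 + R.card) := by
  obtain ⟨δ, a, d, hd, ha, hH, hδ, hT⟩ := s.x4_gen hl 0
  rw [pow_zero, pow_one] at hH hδ hT
  obtain ⟨ρ, hρ, hρ'⟩ := s.exists_res (s.Fz l)
  have hk : ∀ σ, ρ σ = 1 ↔ σ ∈ s.Hz l := fun σ =>
    ⟨fun e => by
      have := hρ' σ ⟨_, s.x4_mem l⟩
      rw [e] at this
      exact this.symm,
    fun e => AlgEquiv.ext fun x => Subtype.ext ((hρ' σ x).trans (s.x4_fix e x.2))⟩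
  have hg : ∀ g, ∃ j : ℕ, g = ρ δ ^ j := fun g => by
    obtain ⟨σ, rfl⟩ := hρ g
    obtain ⟨j, hj, -⟩ := hT σ
    have := (hk _).2 hj
    rw [map_mul, map_inv, map_pow, inv_mul_eq_one] at this
    exact ⟨j, this.symm⟩
  have ho : ∀ j : ℕ, ρ δ ^ j = 1 ↔ d ∣ j := fun j => by rw [← map_pow, hk, hH]
  have h1 : Pw (s.Fz l) l ≤ CommGroup.torsion (s.Fz l)ˣ ⊔ Pw (s.Fz l) l := le_sup_right
  have h2 : CommGroup.torsion (s.Fz l)ˣ ⊔ Pw (s.Fz l) l ≤ Un (s.Fz l) ⊔ Pw (s.Fz l) l :=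
    sup_le_sup_right (x5_tor _) _
  have h3 : Un (s.Fz l) ⊔ Pw (s.Fz l) l ≤ Vs (s.Fz l) 0 C ⊔ Pw (s.Fz l) l := by
    refine sup_le_sup_right ?_ _
    rintro _ ⟨u, rfl⟩ Q _
    refine ⟨0, ?_⟩
    rw [mul_zero, WithZero.exp_zero, Units.coe_map]
    change Q.valuation (s.Fz l) (algebraMap (𝓞 (s.Fz l)) (s.Fz l) u) = 1
    rw [HeightOneSpectrum.valuation_of_algebraMap, HeightOneSpectrum.intValuation_eq_one_iff]
    exact fun e => Q.isPrime.ne_top (Ideal.eq_top_of_isUnit_mem _ e u.isUnit)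
  have hx := x3_tor (s.Fz l) hl.pos
  have hz := x2_fin hl hd ha (ρ δ) hg ho hC R hR
  have hle := inf_le_inf_right (Xe (Units.map (ρ δ : s.Fz l →* s.Fz l)) a l) hB
  have fin : ∀ y : ℕ, (CommGroup.torsion (s.Fz l)ˣ ⊔ Pw (s.Fz l) l).relIndex
      ((Un (s.Fz l) ⊔ Pw (s.Fz l) l) ⊓ Xe (Units.map (ρ δ : s.Fz l →* s.Fz l)) a l) ≠ 0 ∧
      (CommGroup.torsion (s.Fz l)ˣ ⊔ Pw (s.Fz l) l).relIndex
      ((Un (s.Fz l) ⊔ Pw (s.Fz l) l) ⊓ Xe (Units.map (ρ δ : s.Fz l →* s.Fz l)) a l) ≤ y →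
      (s.Chx l C).Finite ∧ (s.Chx l C).ncard ≤ l * y * l ^ R.card := fun y hy => by
    obtain ⟨t1, t2⟩ := x3_tower h1 h2 h3 hx hy hz
    obtain ⟨k1, k2⟩ := s.x5_kum (C := C) hl hδ (ρ δ) (hρ' δ) fun e =>
      t1 (Subgroup.relIndex_eq_zero_of_le_right hle e)
    exact ⟨k1, k2.trans ((Subgroup.relIndex_le_of_le_right hle t1).trans t2)⟩
  split_ifs with h
  · subst h
    have e : (CommGroup.torsion (s.Fz 2)ˣ ⊔ Pw (s.Fz 2) 2).relIndex
        ((Un (s.Fz 2) ⊔ Pw (s.Fz 2) 2) ⊓ Xe (Units.map (ρ δ : s.Fz 2 →* s.Fz 2)) a 2) = 1 :=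
      Subgroup.relIndex_eq_one.2 (inf_le_left.trans (sup_le_sup_right s.x5_two _))
    obtain ⟨k1, k2⟩ := fin 1 ⟨by rw [e]; exact one_ne_zero, e.le⟩
    refine ⟨k1, (Nat.mul_le_mul_left 2 k2).trans (le_of_eq ?_)⟩
    ring
  · obtain ⟨k1, k2⟩ := fin l (x3_unit hl hd ha (ρ δ) hg ((ho d).2 dvd_rfl) s.x5_place)
    refine ⟨k1, (one_mul _).trans_le (k2.trans (le_of_eq ?_))⟩
    ring

end St


end Pool.Agent.P.MP_20768c_nt.Az.Cu

end

-- part Ex.X6
section

set_option autoImplicit false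

open Complex NumberField IsDedekindDomain
open scoped Real

namespace Pool.Agent.P.MP_20768c_nt.Az.Cu

theorem x6_cp {K Γ J : Type} [Field K] [LinearOrderedCommGroupWithZero Γ] (v : Valuation K Γ)
    (T : Finset J) {a b : J → K} {c : Γ} (hc : c ≤ 1) (hb : ∀ i ∈ T, v (b i) ≤ 1)
    (h : ∀ i ∈ T, v (a i - b i) ≤ c) : v (∏ i ∈ T, a i - ∏ i ∈ T, b i) ≤ c := by
  classical
  induction T using Finset.induction_on with
  | empty => simp
  | insert i T hi ih =>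
    have ih := ih (fun j hj => hb j (Finset.mem_insert_of_mem hj))
      (fun j hj => h j (Finset.mem_insert_of_mem hj))
    have h1 := h i (Finset.mem_insert_self i T)
    have h2 := hb i (Finset.mem_insert_self i T)
    have hB : v (∏ j ∈ T, b j) ≤ 1 := by
      rw [map_prod]
      exact Finset.prod_le_one' fun j hj => hb j (Finset.mem_insert_of_mem hj)
    have hA : v (∏ j ∈ T, a j) ≤ 1 := by
      rw [← sub_add_cancel (∏ j ∈ T, a j) (∏ j ∈ T, b j)]
      exact v.map_add_le (ih.trans hc) hB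
    rw [Finset.prod_insert hi, Finset.prod_insert hi,
      show a i * ∏ j ∈ T, a j - b i * ∏ j ∈ T, b j =
        (a i - b i) * ∏ j ∈ T, a j + b i * (∏ j ∈ T, a j - ∏ j ∈ T, b j) by ring]
    refine v.map_add_le ?_ ?_
    · rw [map_mul]
      exact (mul_le_of_le_one_right' hA).trans h1
    · rw [map_mul]
      exact (mul_le_of_le_one_left' h2).trans ih

/-- the local estimate where `ε` is close to `1` -/
theorem x6_near {Γ : Type} [LinearOrderedCommGroupWithZero Γ] (v : Valuation ℂ Γ) {n : ℕ}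
    {D ε m : ℂ} (hD0 : D ≠ 0) (hD : v D ≤ 1) (hm : v m ≤ 1) {y : Fin n → ℂ}
    (hy : ∀ i, v (D * y i) ≤ 1) (hε : v (ε - 1) ≤ v (m * D ^ (n + 1))) :
    v (∏ i, (1 + ε * (y i - 1)) - ∏ i, y i) ≤ v m := by
  have hM : v (m * D ^ (n + 1)) ≤ v m * v D ^ n := by
    rw [map_mul, map_pow, pow_succ, ← mul_assoc]
    exact mul_le_of_le_one_right' hD
  have h1 := x6_cp v Finset.univ (a := fun i => D * (1 + ε * (y i - 1))) (b := fun i => D * y i)
    (c := v m * v D ^ n) (mul_le_one' hm (pow_le_one' hD _)) (fun i _ => hy i) (fun i _ => by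
      rw [show D * (1 + ε * (y i - 1)) - D * y i = (ε - 1) * (D * y i - D) by ring, map_mul]
      exact (mul_le_of_le_one_right' (v.map_sub_le (hy i) hD)).trans (hε.trans hM))
  rw [Finset.prod_mul_distrib, Finset.prod_mul_distrib, Finset.prod_const, Finset.card_univ,
    Fintype.card_fin, ← mul_sub, map_mul, map_pow, mul_comm] at h1
  exact le_of_mul_le_mul_right h1
    (pow_pos (zero_lt_iff.2 ((Valuation.ne_zero_iff v).2 hD0)) n)

/-- the local estimate where `ε` is close to `0` -/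
theorem x6_far {Γ : Type} [LinearOrderedCommGroupWithZero Γ] (v : Valuation ℂ Γ) {n : ℕ}
    {D ε m : ℂ} (hD : v D ≤ 1) (hm : v m ≤ 1) {y : Fin n → ℂ}
    (hy : ∀ i, v (D * y i) ≤ 1) (hε : v ε ≤ v (m * D ^ (n + 1))) :
    v (∏ i, (1 + ε * (y i - 1)) - 1) ≤ v m := by
  have h1 := x6_cp v Finset.univ (a := fun i => 1 + ε * (y i - 1)) (b := fun _ => 1)
    (c := v m) hm (fun i _ => by simp) (fun i _ => by
      rw [add_sub_cancel_left, map_mul]
      refine (mul_le_mul_left hε _).trans ?_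
      rw [← map_mul, show m * D ^ (n + 1) * (y i - 1) = m * (D ^ n * (D * y i - D)) by ring,
        map_mul, map_mul, map_pow]
      exact mul_le_of_le_one_right' (mul_le_one' (pow_le_one' hD _) (v.map_sub_le (hy i) hD)))
  simpa using h1

namespace St

variable (s : St) {l : ℕ}

theorem x6_eps (F : IntermediateField s.k ℂ) [NumberField F] (Q : HeightOneSpectrum (𝓞 F))
    {M : ℕ} (hM : M ≠ 0) (hQ : (M : 𝓞 F) ∈ Q.asIdeal) : ∃ ε : 𝓞 F,
    ∀ (Γ : Type) [LinearOrderedCommGroupWithZero Γ] (v : Valuation ℂ Γ), v M < 1 →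
      ((∀ x : 𝓞 F, v ((x : F) : ℂ) < 1 ↔ x ∈ Q.asIdeal) → v (((ε : F) : ℂ) - 1) ≤ v M) ∧
      (¬ (∀ x : 𝓞 F, v ((x : F) : ℂ) < 1 ↔ x ∈ Q.asIdeal) → v ((ε : F) : ℂ) ≤ v M) := by
  classical
  have hmax := Q.isMaximal
  obtain ⟨J, hJ, hI⟩ := Ideal.eq_prime_pow_mul_coprime (I := Ideal.span {(M : 𝓞 F)})
    (by simpa [Ideal.span_singleton_eq_bot] using hM) Q.asIdeal
  generalize Multiset.count Q.asIdeal _ = e at hI
  have he : e ≠ 0 := by
    rintro rfl
    rw [pow_zero, one_mul] at hI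
    rw [← hI, sup_eq_left.2 ((Ideal.span_singleton_le_iff_mem _).2 hQ)] at hJ
    exact hmax.ne_top hJ
  have hco : IsCoprime (Q.asIdeal ^ e) J := (Ideal.isCoprime_iff_sup_eq.2 hJ).pow_left
  obtain ⟨a, ha, ε, hε, hs⟩ := Ideal.isCoprime_iff_exists.1 hco
  obtain ⟨t, ht⟩ := Ideal.mem_span_singleton'.1 (hI ▸ Ideal.mul_mem_mul ha hε)
  refine ⟨ε, fun Γ _ v hv => ?_⟩
  let f : 𝓞 F →+* ℂ := (algebraMap F ℂ).comp (algebraMap (𝓞 F) F)
  have h1 : f a + f ε = 1 := by rw [← map_add, hs, map_one]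
  have h2 : v (f a) * v (f ε) ≤ v M := by
    rw [← map_mul, ← map_mul, ← ht, map_mul, map_natCast, map_mul]
    exact mul_le_of_le_one_left' (e1_int (algebraMap F ℂ) v t)
  refine ⟨fun h => ?_, fun h => ?_⟩
  · have h3 : v (f a) < 1 := (h a).2 (Ideal.pow_le_self he ha)
    have h4 : v (f ε) = 1 := by
      rw [eq_sub_of_add_eq' h1]
      exact v.map_one_sub_of_lt h3
    change v (f ε - 1) ≤ _
    rw [← h1, show f ε - (f a + f ε) = -f a by ring, v.map_neg]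
    rwa [h4, mul_one] at h2
  · obtain ⟨Q', hQ', h'⟩ := e1_ideal (algebraMap F ℂ) v
    have hM' : Q.asIdeal ^ e * J ≤ Q' := by
      rw [← hI, Ideal.span_singleton_le_iff_mem, ← h']
      simpa using hv
    rcases hQ'.mul_le.1 hM' with h3 | h3
    · have := hmax.eq_of_le hQ'.ne_top (hQ'.le_of_pow_le h3)
      exact absurd (fun x => this ▸ h' x) h
    · have h3 : v (f ε) < 1 := (h' ε).2 (h3 hε)
      have h4 : v (f a) = 1 := by
        rw [eq_sub_of_add_eq h1]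
        exact v.map_one_sub_of_lt h3
      change v (f ε) ≤ _
      rwa [h4, one_mul] at h2

/-- exactly one of the translates of a valuation over `q` lies over `Q` -/
theorem x6_one (Q : HeightOneSpectrum (𝓞 (s.Fz l))) (hF : Fre s.k Q.asIdeal) {J : Type}
    {g : J → s.Au} (hg : Tv (s.Hz l) g) (V : ValuationSubring ℂ)
    (hV : ∀ x ∈ Q.asIdeal.under s.O, V.valuation (s.c x) < 1) :
    ∃! j, ∀ x : 𝓞 (s.Fz l), V.valuation (g j ((x : s.Fz l) : ℂ)) < 1 ↔ x ∈ Q.asIdeal := by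
  obtain ⟨ρ, hρ, hρ'⟩ := s.exists_res (F := s.Fz l)
  obtain ⟨Q', hQ', h'⟩ := e1_ideal (algebraMap (s.Fz l) ℂ) V.valuation
  have hmax := Q.isMaximal
  have hP := Q.isPrime
  have hu : Q.asIdeal.under s.O = Q'.under s.O :=
    (Ideal.IsMaximal.under s.O Q.asIdeal).eq_of_le (Ideal.IsPrime.under s.O Q').ne_top
      fun x hx => (h' _).1 (hV x hx)
  have hG : IsGaloisGroup (s.Fz l ≃ₐ[s.k] s.Fz l) s.O (𝓞 (s.Fz l)) :=
    IsGaloisGroup.of_isFractionRing (s.Fz l ≃ₐ[s.k] s.Fz l) s.O (𝓞 (s.Fz l)) s.k (s.Fz l)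
  obtain ⟨γ, hγ⟩ := Algebra.IsInvariant.exists_smul_of_under_eq s.O (𝓞 (s.Fz l))
    (s.Fz l ≃ₐ[s.k] s.Fz l) Q.asIdeal Q' hu
  obtain ⟨σ, rfl⟩ := hρ γ
  have hs : ∀ (τ : s.Au) (x : 𝓞 (s.Fz l)),
      (((ρ τ • x : 𝓞 (s.Fz l)) : s.Fz l) : ℂ) = τ ((x : s.Fz l) : ℂ) := fun τ x => hρ' τ x
  obtain ⟨j, hj, -⟩ := hg σ
  have key : ∀ i i', (∀ x : 𝓞 (s.Fz l), V.valuation (g i ((x : s.Fz l) : ℂ)) < 1 ↔ x ∈ Q.asIdeal) →
      (∀ x : 𝓞 (s.Fz l), V.valuation (g i' ((x : s.Fz l) : ℂ)) < 1 ↔ x ∈ Q.asIdeal) → i = i' := by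
    intro i i' h1 h2
    have h3 : ρ ((g i)⁻¹ * g i') = 1 := hF _ fun x => by
      rw [← h1, ← h2, hs, ← AlgEquiv.mul_apply, mul_inv_cancel_left]
    have h4 : (g i)⁻¹ * g i' ∈ s.Hz l := by
      have := hρ' ((g i)⁻¹ * g i') ⟨xz l, s.x4_mem l⟩
      rw [h3] at this
      exact this.symm
    exact (hg (g i')).unique h4 (by simp)
  have hjQ : ∀ x : 𝓞 (s.Fz l), V.valuation (g j ((x : s.Fz l) : ℂ)) < 1 ↔ x ∈ Q.asIdeal := by
    intro x
    have h1 : σ ((x : s.Fz l) : ℂ) = g j ((x : s.Fz l) : ℂ) := by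
      conv_rhs => rw [← s.x4_fix hj (x : s.Fz l).2, ← AlgEquiv.mul_apply, mul_inv_cancel_left]
    rw [← h1, ← hs]
    refine (h' _).trans ?_
    rw [hγ]
    exact Ideal.smul_mem_pointwise_smul_iff
  exact ⟨j, hjQ, fun i hi => key i j hi hjQ⟩

theorem x6_apx (hl : l.Prime) {m : ℕ} (hm : 0 < m) (Q : HeightOneSpectrum (𝓞 (s.Fz l)))
    (hQ : (m : 𝓞 (s.Fz l)) ∈ Q.asIdeal) (hF : Fre s.k Q.asIdeal) {δ τ : s.Au} {d n : ℕ}
    (hδ : Tv (s.Hz l) fun j : Fin d => δ ^ j.1) (hτ : τ ∈ s.Hz l) {y η : ℂ}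
    (hy : IsAlgebraic ℚ y) (hη : IsPrimitiveRoot η l) (hN : ∏ i : Fin n, (τ ^ i.1) y = η) :
    ∃ ε ∈ s.Fz l, ∃ u : s.O, s.LocR l m (Q.asIdeal.under s.O) u ∧
      ∀ V : ValuationSubring ℂ, V.valuation m < 1 →
        V.valuation (∏ p : Fin d × Fin n, (δ ^ p.1.1 * τ ^ p.2.1) (1 + ε * (y - 1)) - s.c u) ≤
          V.valuation m := by
  classical
  obtain ⟨z, hz0, hz⟩ := ((IsFractionRing.isAlgebraic_iff ℤ ℚ ℂ).2 hy).exists_integral_multiple
  have hD0 : z.natAbs ≠ 0 := Int.natAbs_ne_zero.2 hz0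
  have hDy : IsIntegral ℤ ((z.natAbs : ℂ) * y) := by
    rw [zsmul_eq_mul] at hz
    rcases Int.natAbs_eq z with h | h
    · rwa [h, Int.cast_natCast] at hz
    · rw [h, Int.cast_neg, Int.cast_natCast, neg_mul] at hz
      simpa using hz.neg
  generalize z.natAbs = D at hD0 hDy
  obtain ⟨ε, hε⟩ := s.x6_eps (s.Fz l) Q (M := m * D ^ (n + 1))
    (mul_ne_zero hm.ne' (pow_ne_zero _ hD0))
    (by rw [Nat.cast_mul]; exact Ideal.mul_mem_right _ _ hQ)
  have hηi : IsIntegral ℤ η := hη.isIntegral hl.pos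
  have hεi : IsIntegral ℤ ((ε : s.Fz l) : ℂ) :=
    map_isIntegral_int (algebraMap (s.Fz l) ℂ) ε.isIntegral_coe
  have hεF : ((ε : s.Fz l) : ℂ) ∈ s.Fz l := (ε : s.Fz l).2
  generalize ((ε : s.Fz l) : ℂ) = e at hε hεi hεF
  have h0i : IsIntegral ℤ (1 + e * (η - 1)) :=
    isIntegral_one.add (hεi.mul (hηi.sub isIntegral_one))
  have h0F : 1 + e * (η - 1) ∈ s.Fz l :=
    add_mem (one_mem _) (mul_mem hεF (sub_mem (s.x4_root hl.ne_zero hη.pow_eq_one) (one_mem _)))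
  have loc : ∀ (Γ : Type) [LinearOrderedCommGroupWithZero Γ] (v : Valuation ℂ Γ), v m < 1 →
      ((∀ x : 𝓞 (s.Fz l), v ((x : s.Fz l) : ℂ) < 1 ↔ x ∈ Q.asIdeal) →
        v (∏ i : Fin n, (1 + e * ((τ ^ i.1) y - 1)) - η) ≤ v m ∧
          v (1 + e * (η - 1) - η) ≤ v m) ∧
      (¬ (∀ x : 𝓞 (s.Fz l), v ((x : s.Fz l) : ℂ) < 1 ↔ x ∈ Q.asIdeal) →
        v (∏ i : Fin n, (1 + e * ((τ ^ i.1) y - 1)) - 1) ≤ v m ∧
          v (1 + e * (η - 1) - 1) ≤ v m) := by
    intro Γ _ v hv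
    have hD : v D ≤ 1 := v_int v (isIntegral_natCast D)
    have hM : v ((m * D ^ (n + 1) : ℕ) : ℂ) ≤ v m := by
      rw [Nat.cast_mul, Nat.cast_pow, map_mul, map_pow]
      exact mul_le_of_le_one_right' (pow_le_one' hD _)
    have hyi : ∀ i : Fin n, v (D * (τ ^ i.1) y) ≤ 1 := fun i => by
      have := map_isIntegral_int (τ ^ i.1 : s.Au) hDy
      rw [map_mul, map_natCast] at this
      exact v_int v this
    have hη1 : v (η - 1) ≤ 1 := v_int v (hηi.sub isIntegral_one)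
    obtain ⟨h1, h2⟩ := hε Γ v (hM.trans_lt hv)
    refine ⟨fun h => ⟨?_, ?_⟩, fun h => ⟨?_, ?_⟩⟩
    · rw [← hN]
      exact x6_near v (Nat.cast_ne_zero.2 hD0) hD hv.le hyi (by simpa using h1 h)
    · rw [show 1 + e * (η - 1) - η = (e - 1) * (η - 1) by ring, map_mul]
      exact (mul_le_of_le_one_right' hη1).trans ((h1 h).trans hM)
    · exact x6_far v hD hv.le hyi (by simpa using h2 h)
    · rw [add_sub_cancel_left, map_mul]
      exact (mul_le_of_le_one_right' hη1).trans ((h2 h).trans hM)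
  have locσ := fun (V : ValuationSubring ℂ) (hV : V.valuation m < 1) (σ : s.Au) =>
    loc _ (V.valuation.comap (σ : ℂ →+* ℂ)) (by simpa using hV)
  simp only [Valuation.comap_apply, RingHom.coe_coe, map_natCast] at locσ
  obtain ⟨u, hu⟩ := s.x4_int (s.x4_norm hδ fun σ hσ => s.x4_fix hσ h0F) fun V =>
    v_int _ (IsIntegral.prod _ fun j _ => map_isIntegral_int (δ ^ j.1 : s.Au) h0i)
  refine ⟨e, hεF, u, fun V hV => ⟨fun hq => ?_, fun hq => ?_⟩, fun V hV => ?_⟩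
  · obtain ⟨j0, hj0, hj1⟩ := s.x6_one Q hF hδ V hq
    refine ⟨(δ ^ j0.1) η, hη.map_of_injective (δ ^ j0.1 : s.Au).injective, ?_⟩
    have := x6_cp V.valuation Finset.univ (a := fun j : Fin d => (δ ^ j.1) (1 + e * (η - 1)))
      (b := fun j => if j = j0 then (δ ^ j0.1) η else 1) hV.le
      (fun j _ => by
        split_ifs
        · exact v_int _ (map_isIntegral_int (δ ^ j0.1 : s.Au) hηi)
        · simp)
      (fun j _ => by
        split_ifs with h
        · subst h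
          rw [← map_sub]
          exact ((locσ V hV _).1 hj0).2
        · have := ((locσ V hV _).2 fun h' => h (hj1 j h')).2
          rwa [map_sub, map_one] at this)
    rw [Finset.prod_ite_eq' Finset.univ j0, if_pos (Finset.mem_univ _)] at this
    rw [hu]
    exact this
  · have := x6_cp V.valuation Finset.univ (a := fun j : Fin d => (δ ^ j.1) (1 + e * (η - 1)))
      (b := fun _ => 1) hV.le (fun j _ => by simp)
      (fun j _ => by
        have := ((locσ V hV (δ ^ j.1)).2 fun h' => hq fun x hx => by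
          have h1 := (h' _).2 hx
          have h2 : (δ ^ j.1) (s.c x) = s.c x := (δ ^ j.1 : s.Au).commutes (x : s.k)
          exact h2 ▸ h1).2
        rwa [map_sub, map_one] at this)
    rw [Finset.prod_const_one] at this
    rw [hu]
    exact this
  · rw [hu, Fintype.prod_prod_type]
    refine x6_cp V.valuation Finset.univ hV.le
      (fun j _ => v_int _ (map_isIntegral_int (δ ^ j.1 : s.Au) h0i)) fun j _ => ?_
    have h1 : ∏ i : Fin n, (δ ^ j.1 * τ ^ i.1) (1 + e * (y - 1)) =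
        (δ ^ j.1) (∏ i : Fin n, (1 + e * ((τ ^ i.1) y - 1))) := by
      rw [map_prod]
      refine Finset.prod_congr rfl fun i _ => ?_
      rw [AlgEquiv.mul_apply, map_add (τ ^ i.1), map_mul (τ ^ i.1), map_sub (τ ^ i.1), map_one,
        s.x4_fix (pow_mem hτ _) hεF]
    rw [h1]
    have key : ∀ b : ℂ, V.valuation ((δ ^ j.1) (∏ i : Fin n, (1 + e * ((τ ^ i.1) y - 1)) - b)) ≤
        V.valuation m ∧ V.valuation ((δ ^ j.1) (1 + e * (η - 1) - b)) ≤ V.valuation m →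
        V.valuation ((δ ^ j.1) (∏ i : Fin n, (1 + e * ((τ ^ i.1) y - 1))) -
          (δ ^ j.1) (1 + e * (η - 1))) ≤ V.valuation m := fun b h => by
      have := V.valuation.map_sub_le h.1 h.2
      rwa [← map_sub, sub_sub_sub_cancel_right, map_sub] at this
    by_cases h : ∀ x : 𝓞 (s.Fz l),
        V.valuation ((δ ^ j.1) ((x : s.Fz l) : ℂ)) < 1 ↔ x ∈ Q.asIdeal
    · exact key _ ((locσ V hV _).1 h)
    · exact key _ ((locσ V hV _).2 h)

end St


end Pool.Agent.P.MP_20768c_nt.Az.Cu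

end
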