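import Pool.Agent.P.MP_20768c_nt.Az.Z5
import Pool.Agent.P.MP_20768c_nt.Az.Z6
import Pool.Agent.P.MP_20768c_nt.Az.Z8

-- part Ab.E5_p
section

set_option autoImplicit false

open Complex NumberField IsDedekindDomain Filter Topology
open UpperHalfPlane hiding I
open scoped ComplexConjugate Real MatrixGroups

namespace Pool.Agent.P.MP_20768c_nt.Az.Cu

open Pool.Agent.P.MP_20768c_nt.Az.EQ (Lt pr sp IsLat jL qN)

theorem St.val_dec (s : St) {Γ : Type} [LinearOrderedCommGroupWithZero Γ]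
    (F : IntermediateField s.k ℂ) [FiniteDimensional s.k F] [IsGalois s.k F]
    (v : Valuation ℂ Γ) {σ : s.Au} (h : ∀ x ∈ F, v x < 1 → v (σ x) < 1) {x : ℂ} (hx : x ∈ F) :
    v (σ x) = v x := by
  rcases eq_or_ne x 0 with rfl | x0
  · rw [map_zero]
  have h1 : ∀ a b, a ∈ F → b ∈ F → v a < v b → v (σ a) < v (σ b) := fun a b ha hb hab => by
    have h0 : b ≠ 0 := fun e => by simp [e] at hab
    have hb' : σ b ≠ 0 := (map_ne_zero σ).2 h0
    have h3 := h _ (div_mem ha hb) (by rwa [map_div₀, div_lt_one₀ ((v.pos_iff).2 h0)])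
    rwa [map_div₀, map_div₀, div_lt_one₀ ((v.pos_iff).2 hb')] at h3
  obtain ⟨ρ, -, hρ⟩ := s.exists_res F
  have h2 : (σ ^ Nat.card (F ≃ₐ[s.k] F)) x = (σ ^ 0) x := by
    have := hρ (σ ^ Nat.card (F ≃ₐ[s.k] F)) ⟨x, hx⟩
    rw [map_pow, pow_card_eq_one'] at this
    exact this.symm
  have h3 : 0 < Nat.card (F ≃ₐ[s.k] F) := Nat.card_pos
  have h4 : ∀ j : ℕ, (σ ^ (j + 1)) x = σ ((σ ^ j) x) := fun j => by
    rw [pow_succ', AlgEquiv.mul_apply]
  rcases lt_trichotomy (v (σ x)) (v x) with e | e | e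
  · have : StrictAnti fun j : ℕ => v ((σ ^ j) x) := strictAnti_nat_of_succ_lt fun j => by
      induction j with
      | zero => simpa using e
      | succ j ih => rw [h4 (j + 1), h4 j]; exact h1 _ _ (h4 j ▸ s.au_mem F _ hx) (s.au_mem F _ hx) (h4 j ▸ ih)
    exact absurd (congrArg v h2) (this h3).ne
  · exact e
  · have : StrictMono fun j : ℕ => v ((σ ^ j) x) := strictMono_nat_of_lt_succ fun j => by
      induction j with
      | zero => simpa using e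
      | succ j ih => rw [h4 (j + 1), h4 j]; exact h1 _ _ (s.au_mem F _ hx) (h4 j ▸ s.au_mem F _ hx) (h4 j ▸ ih)
    exact absurd (congrArg v h2) (this h3).ne'

namespace Ab

variable {s : Ab} {Γ : Type} [LinearOrderedCommGroupWithZero Γ] {σ : s.Au} {n : ℕ} {x : ℂ}

theorem e5p_card (s : Ab) : Nat.card (s.N ≃ₐ[s.k] s.N) = s.g :=
  IsGalois.card_aut_eq_finrank _ _

theorem g_odd (s : Ab) : Odd s.g := s.odd

theorem g_pos (s : Ab) : 0 < s.g := s.g_odd.pos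

theorem inert_fix_N {v : Valuation ℂ Γ} (h2 : v 2 < 1) (h : Inert v σ) (hx : x ∈ s.N) : σ x = x := by
  by_contra hne
  obtain ⟨ρ, -, hρ⟩ := s.exists_res s.N
  have hc : ∀ (a b : s.Au) (y : ℂ), y ∈ s.N → a (b y) = b (a y) := fun a b y hy => by
    change (a * b) y = (b * a) y
    rw [← hρ _ ⟨y, hy⟩, ← hρ _ ⟨y, hy⟩, map_mul, map_mul, s.comm]
  have h3 : (σ ^ s.g) x = x := by
    have := hρ (σ ^ s.g) ⟨x, hx⟩
    rw [map_pow, ← e5p_card s, pow_card_eq_one', e5p_card] at this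
    exact this.symm
  obtain ⟨y, hy⟩ : ∃ y, y = σ x - x := ⟨_, rfl⟩
  have y0 : y ≠ 0 := hy ▸ sub_ne_zero.2 hne
  have vy : v y ≠ 0 := (map_ne_zero v).2 y0
  have yN : y ∈ s.N := hy ▸ sub_mem (s.au_mem _ σ hx) hx
  obtain ⟨u, hu⟩ : ∃ u, u = σ y / y := ⟨_, rfl⟩
  have uN : u ∈ s.N := hu ▸ div_mem (s.au_mem _ σ yN) yN
  have u1 : v u = 1 := by
    rw [hu, map_div₀, St.inert_val h (s.alg_of_mem _ yN), div_self vy]
  obtain ⟨Q, hQ, hQ'⟩ := s.exists_ideal s.N v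
  have hq : ∀ a, v (s.c a) < 1 ↔ a ∈ Q.under s.O := fun a =>
    hQ' (algebraMap s.O (𝓞 s.N) a)
  have hn : Q.under s.O ≠ ⊥ ∧ Ideal.absNorm (Q.under s.O) = 2 := by
    have h2' : (2 : s.O) ∈ Q.under s.O := (hq 2).1 (by
      have := s.c_nat 2
      rw [Nat.cast_ofNat, Nat.cast_ofNat] at this
      rwa [this])
    rcases s.prime_two inferInstance h2' with e | e <;> rw [e]
    exacts [⟨s.p1_ne, s.norm_p1⟩, ⟨s.p2_ne, s.norm_p2⟩]
  obtain ⟨τ, hτ⟩ := s.frobOn s.N v hn.1 hq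
  rw [hn.2] at hτ
  have t1 : v (τ y) = v y := s.val_dec s.N v (fun z hz hz' => by
    have := v.map_add_lt (hτ z hz hz'.le) (show v (z ^ 2) < 1 by
      rw [map_pow]; exact pow_lt_one₀ zero_le hz' two_ne_zero)
    rwa [sub_add_cancel] at this) yN
  obtain ⟨w, hw⟩ : ∃ w, w = τ y / y := ⟨_, rfl⟩
  have wN : w ∈ s.N := hw ▸ div_mem (s.au_mem _ τ yN) yN
  have w1 : v w = 1 := by rw [hw, map_div₀, t1, div_self vy]
  have a1 := hτ u uN u1.le
  have a2 := h w (s.alg_of_mem _ wN) w1.le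
  have s0 : σ y ≠ 0 := (map_ne_zero σ).2 y0
  have t0 : τ y ≠ 0 := (map_ne_zero τ).2 y0
  have e1 : τ u * w = u * σ w := by
    rw [hu, hw, map_div₀, map_div₀, hc τ σ y yN]
    field_simp
  have a4 : v (u - 1) < 1 := by
    have b1 : v (u * (σ w - w)) < 1 := by rwa [map_mul, u1, one_mul]
    have b2 : v ((τ u - u ^ 2) * w) < 1 := by rwa [map_mul, w1, mul_one]
    have := v.map_sub_lt b1 b2
    rwa [show u * (σ w - w) - (τ u - u ^ 2) * w = u * w * (u - 1) by linear_combination -e1,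
      map_mul, map_mul, u1, w1, one_mul, one_mul] at this
  have a5 : v (σ y - y) < v y := by
    rw [show σ y - y = (u - 1) * y by rw [hu]; field_simp, map_mul]
    exact mul_lt_of_lt_one_left (zero_lt_iff.2 vy) a4
  have a6 : ∀ i : ℕ, v (y - (σ ^ i) y) < v y := fun i => by
    induction i with
    | zero => simpa using zero_lt_iff.2 vy
    | succ i ih =>
      rw [← St.inert_val h (s.alg_of_mem _ (sub_mem yN (s.au_mem _ _ yN)))] at ih
      have := v.map_sub_lt ih a5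
      rwa [map_sub σ, sub_sub_sub_cancel_left, ← AlgEquiv.mul_apply, ← pow_succ'] at this
  have a7 : ∑ i ∈ Finset.range s.g, (y - (σ ^ i) y) = ((s.g : ℤ) : ℂ) * y := by
    have := Finset.sum_range_sub (fun i => (σ ^ i) x) s.g
    simp only [h3, pow_zero, AlgEquiv.one_apply, sub_self] at this
    rw [Finset.sum_sub_distrib, Finset.sum_congr rfl fun i _ => show (σ ^ i) y =
      (σ ^ (i + 1)) x - (σ ^ i) x by rw [hy, map_sub, pow_succ, AlgEquiv.mul_apply], this]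
    simp
  have a8 := v.map_sum_lt vy (s := Finset.range s.g) fun i _ => a6 i
  rw [a7, map_mul, St.v_odd v h2 (Int.odd_coe_nat _ |>.2 s.g_odd), one_mul] at a8
  exact lt_irrefl _ a8

theorem N_le (s : Ab) (n : ℕ) : s.N ≤ s.K n := by
  exact le_sup_left

theorem zt_mem (s : Ab) (n : ℕ) : zt n ∈ s.K n := by
  exact (le_sup_right : _ ≤ s.K n) (IntermediateField.mem_adjoin_simple_self _ _)

theorem K_mono (s : Ab) {n' : ℕ} (h : n ≤ n') : s.K n ≤ s.K n' := by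
  obtain ⟨j, rfl⟩ := Nat.exists_eq_add_of_le h
  exact sup_le (s.N_le _) (IntermediateField.adjoin_simple_le_iff.2
    (zt_pow_two n j ▸ pow_mem (s.zt_mem _) _))

theorem K_one (s : Ab) : s.K 1 = s.N := by
  exact le_antisymm (sup_le le_rfl (IntermediateField.adjoin_simple_le_iff.2
    (zt_one ▸ neg_mem (one_mem _)))) (s.N_le 1)

theorem e5p_eq {τ : s.Au} (h : ∀ x ∈ s.N, σ x = τ x) (h' : σ (zt n) = τ (zt n))
    (hx : x ∈ s.K n) : σ x = τ x := by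
  let T : IntermediateField s.k ℂ :=
    (AlgHom.equalizer (σ : ℂ →ₐ[s.k] ℂ) (τ : ℂ →ₐ[s.k] ℂ)).toIntermediateField fun x hx => by
      rw [AlgHom.mem_equalizer] at hx ⊢
      rw [map_inv₀, map_inv₀, hx]
  exact (sup_le h (IntermediateField.adjoin_simple_le_iff.2 h') : s.K n ≤ T) hx

theorem fix_K : (∀ x ∈ s.K n, σ x = x) ↔ (∀ x ∈ s.N, σ x = x) ∧ σ (zt n) = zt n := by
  exact ⟨fun h => ⟨fun x hx => h x (s.N_le n hx), h _ (s.zt_mem n)⟩,
    fun h x hx => e5p_eq (τ := 1) h.1 h.2 hx⟩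

theorem eq_on_K {τ : s.Au} (h : ∀ x ∈ s.N, σ x = τ x) (h' : σ (zt n) = τ (zt n))
    (hx : x ∈ s.K n) : σ x = τ x := by
  exact e5p_eq h h' hx

theorem K_fx (hx : x ∈ s.K n) : x ∈ s.Fx n := by
  exact ⟨s.alg_of_mem _ hx, fun σ h h' =>
    fix_K.2 ⟨fun y hy => inert_fix_N s.v_two h hy, h'⟩ x hx⟩

instance isGalois_K (s : Ab) (n : ℕ) : IsGalois s.k (s.K n) := by
  have h : IsCyclotomicExtension {2 ^ n} s.k (IntermediateField.adjoin s.k {zt n}) := by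
    change IsCyclotomicExtension {2 ^ n} s.k (IntermediateField.adjoin s.k {zt n}).toSubalgebra
    rw [IntermediateField.adjoin_simple_toSubalgebra_of_isAlgebraic ((zt_alg n).tower_top _)]
    exact (zt_prim n).adjoin_isCyclotomicExtension s.k
  have := IsCyclotomicExtension.isGalois {2 ^ n} s.k (IntermediateField.adjoin s.k {zt n})
  have : Normal s.k (s.K n) := IntermediateField.normal_sup _ _ _ _
  exact ⟨⟩

theorem K_aut (σ : s.Au) (hx : x ∈ s.K n) : σ x ∈ s.K n := by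
  exact s.au_mem _ σ hx

theorem e5p_comm (σ τ : s.Au) (hx : x ∈ s.K n) : σ (τ x) = τ (σ x) := by
  refine eq_on_K (σ := σ * τ) (τ := τ * σ) (fun y hy => ?_) ?_ hx
  · obtain ⟨ρ, -, hρ⟩ := s.exists_res s.N
    rw [← hρ _ ⟨y, hy⟩, ← hρ _ ⟨y, hy⟩, map_mul, map_mul, s.comm]
  · obtain ⟨a, ha⟩ := hom_zt (σ : ℂ →+* ℂ) n
    obtain ⟨b, hb⟩ := hom_zt (τ : ℂ →+* ℂ) n
    rw [RingHom.coe_coe] at ha hb
    rw [AlgEquiv.mul_apply, AlgEquiv.mul_apply, ha, hb, map_pow, map_pow, ha, hb, ← pow_mul,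
      ← pow_mul, mul_comm]

theorem comm_K (g h : s.G n) : g * h = h * g := by
  obtain ⟨ρ, h1, h2⟩ := s.exists_res (s.K n)
  obtain ⟨σ, rfl⟩ := h1 g
  obtain ⟨τ, rfl⟩ := h1 h
  ext x
  rw [← map_mul, ← map_mul, h2, h2]
  exact e5p_comm σ τ x.2

theorem comm_au (σ τ : s.Au) (hx : x ∈ s.K n) : σ (τ x) = τ (σ x) := by
  exact e5p_comm σ τ hx

theorem e5p_equi {X A B : Type} {a : X → A} {b : X → B} (ha : Function.Surjective a)
    (hb : Function.Surjective b) (h : ∀ x y, a x = a y ↔ b x = b y) : Nat.card A = Nat.card B := by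
  refine Nat.card_eq_of_bijective (fun y => b (Function.surjInv ha y)) ⟨fun y z e => ?_, fun y => ?_⟩
  · rw [← Function.surjInv_eq ha y, ← Function.surjInv_eq ha z]
    exact (h _ _).2 e
  · obtain ⟨x, rfl⟩ := hb y
    exact ⟨a x, (h _ _).1 (Function.surjInv_eq ha _)⟩

theorem e5p_inj {a b : ZMod (2 ^ n)} (h : zt n ^ a.val = zt n ^ b.val) : a = b := by
  rw [← zpow_natCast, ← zpow_natCast, zt_congr] at h
  simpa using h

theorem e5p_cardG (s : Ab) (hn : 1 ≤ n) : Nat.card (s.G n) = s.g * 2 ^ (n - 1) := by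
  obtain ⟨ρ, h1, h2⟩ := s.exists_res (s.K n)
  obtain ⟨ρ', h3, h4⟩ := s.exists_res s.N
  choose ν hν using fun σ : s.Au => hom_zt (σ : ℂ →+* ℂ) n
  simp only [RingHom.coe_coe] at hν
  rw [← e5p_card s, ← card_units hn, ← Nat.card_prod]
  refine e5p_equi (b := fun σ => (ρ' σ, ν σ)) h1 (fun ⟨g, b⟩ => ?_) fun σ τ => ⟨fun e => ?_, fun e => ?_⟩
  · obtain ⟨σ, rfl⟩ := h3 g
    obtain ⟨τ, k1, k2⟩ := s.exists_inert n ((ν σ)⁻¹ * b)
    refine ⟨σ * τ, Prod.ext (AlgEquiv.ext fun y => Subtype.ext ?_) (Units.ext (e5p_inj ?_))⟩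
    · rw [h4, h4, AlgEquiv.mul_apply, inert_fix_N s.v_two k1 y.2]
    · rw [← hν, AlgEquiv.mul_apply, k2, map_pow, hν, ← pow_mul, ← zpow_natCast]
      refine (zt_val ?_).symm
      simp
  · have : ∀ y ∈ s.K n, σ y = τ y := fun y hy => by rw [← h2 σ ⟨y, hy⟩, e, h2]
    refine Prod.ext (AlgEquiv.ext fun y => Subtype.ext ?_) (Units.ext (e5p_inj ?_))
    · rw [h4, h4, this _ (s.N_le n y.2)]
    · rw [← hν, ← hν, this _ (s.zt_mem n)]
  · refine AlgEquiv.ext fun y => Subtype.ext ?_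
    rw [h2, h2]
    refine eq_on_K (fun z hz => ?_) ?_ y.2
    · rw [← h4 σ ⟨z, hz⟩, (Prod.mk.inj e).1, h4]
    · rw [hν, hν, (Prod.mk.inj e).2]

theorem finrank_K (s : Ab) (hn : 1 ≤ n) : Module.finrank s.k (s.K n) = s.g * 2 ^ (n - 1) := by
  exact (IsGalois.card_aut_eq_finrank _ _).symm.trans (e5p_cardG s hn)

theorem finrank_K' (s : Ab) (hn : 1 ≤ n) : Module.finrank ℚ (s.K n) = 2 * s.g * 2 ^ (n - 1) := by
  rw [← Module.finrank_mul_finrank ℚ s.k (s.K n), s.finrank_k, s.finrank_K hn]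
  ring

theorem card_G (s : Ab) (hn : 1 ≤ n) : Nat.card (s.G n) = s.g * 2 ^ (n - 1) := by
  exact e5p_cardG s hn

theorem places_K (s : Ab) (hn : 1 ≤ n) : InfinitePlace.nrRealPlaces (s.K n) = 0 ∧
    InfinitePlace.nrComplexPlaces (s.K n) = s.g * 2 ^ (n - 1) ∧
    Units.rank (s.K n) + 1 = s.g * 2 ^ (n - 1) := by
  have h0 : InfinitePlace.nrRealPlaces (s.K n) = 0 := by
    refine nrRealPlaces_eq_zero_iff.2 ⟨fun w => InfinitePlace.not_isReal_iff_isComplex.1 fun hw => ?_⟩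
    let φ := (InfinitePlace.embedding_of_isReal hw).comp (algebraMap s.O (s.K n))
    have h1 := congrArg φ s.w_sq
    rw [map_pow, map_sub, map_natCast] at h1
    have h2 : (1 : ℝ) ≤ s.m := Nat.one_le_cast.2 s.m_pos
    nlinarith [sq_nonneg (2 * φ s.w - 1)]
  have h1 := InfinitePlace.card_add_two_mul_card_eq_rank (s.K n)
  have h2 := InfinitePlace.card_eq_nrRealPlaces_add_nrComplexPlaces (s.K n)
  have h3 := s.finrank_K' hn
  have h4 : 0 < s.g * 2 ^ (n - 1) := Nat.mul_pos s.g_pos (by positivity)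
  rw [mul_assoc] at h3
  refine ⟨h0, by omega, ?_⟩
  unfold Units.rank
  omega

theorem zt_not_mem (s : Ab) (hn : 1 ≤ n) : zt (n + 1) ∉ s.K n := by
  intro h
  obtain ⟨σ, k1, k2⟩ := s.exists_inert (n + 1) (tau (n + 1))
  rw [zt_tau (by omega)] at k2
  have := (K_fx h).2 σ k1 (by rw [← zt_sq, map_pow, k2, neg_sq])
  exact zt_ne (n + 1) (by linear_combination (k2 - this) / 2)

theorem tors_K (hn : 1 ≤ n) (hx : x ∈ s.K n) {j : ℕ} (h : x ^ 2 ^ j = 1) :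
    ∃ b : ℕ, x = zt n ^ b := by
  refine root_zt ?_
  induction j generalizing x with
  | zero => rw [pow_zero, pow_one] at h; rw [h, one_pow]
  | succ j ih =>
    have h1 := ih (pow_mem hx 2) (by rwa [← pow_mul, ← pow_succ'])
    rw [← pow_mul, ← pow_succ'] at h1
    obtain ⟨a, ha⟩ := root_zt h1
    obtain ⟨b, rfl | rfl⟩ := Nat.even_or_odd' a
    · rw [ha, pow_mul, zt_sq, ← pow_mul, mul_comm, pow_mul, zt_pow, one_pow]
    · rw [pow_succ, pow_mul, zt_sq] at ha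
      refine absurd ?_ (s.zt_not_mem hn)
      rw [eq_div_of_mul_eq (pow_ne_zero b (zt_ne n)) ((mul_comm _ _).trans ha.symm)]
      exact div_mem hx (pow_mem (s.zt_mem n) b)

end Ab

end Pool.Agent.P.MP_20768c_nt.Az.Cu

end

-- part Cu.E4b
section

set_option autoImplicit false

open Complex NumberField IsDedekindDomain Filter Topology
open UpperHalfPlane hiding I
open scoped ComplexConjugate Real MatrixGroups

namespace Pool.Agent.P.MP_20768c_nt.Az.Cu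

open Pool.Agent.P.MP_20768c_nt.Az.EQ (Lt pr sp IsLat jL qN)

namespace St

variable {s : St} {n : ℕ} {x y : ℂ} {sb : (ZMod (2 ^ n))ˣ → s.Au}

theorem e4b_rs (hx : s.v x ≤ 1) :
    s.rs x = IsLocalRing.residue s.v.valuationSubring ⟨x, hx⟩ := dif_pos hx

theorem e4b_zero (hx : s.v x ≤ 1) : s.rs x = 0 ↔ s.v x < 1 := by
  rw [e4b_rs hx, IsLocalRing.residue_eq_zero_iff, Valuation.mem_maximalIdeal_iff]

theorem e4b_sub (hx : s.v x ≤ 1) (hy : s.v y ≤ 1) : s.rs (x - y) = s.rs x - s.rs y := by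
  rw [e4b_rs hx, e4b_rs hy, e4b_rs (s.v.map_sub_le hx hy), ← map_sub]
  rfl

theorem e4b_mul_le (hx : s.v x ≤ 1) (hy : s.v y ≤ 1) : s.v (x * y) ≤ 1 := by
  rw [map_mul]
  exact mul_le_one' hx hy

theorem e4b_int (s : St) (a : ℤ) : s.v a ≤ 1 := by
  rw [← s.c_int]
  exact s.v_c s.v _

theorem e4b_two_ne (s : St) : s.v 2 ≠ 0 := (map_ne_zero s.v).2 two_ne_zero

theorem e4b_two_mul (hx : s.v x ≤ 1) : s.v (2 * x) ≤ s.v 2 := by
  rw [map_mul]
  exact mul_le_of_le_one_right' hx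

theorem e4b_half (hx : s.v x ≤ s.v 2) : s.v (x / 2) ≤ 1 := by
  rw [map_div₀]
  exact div_le_one_of_le₀ hx zero_le

theorem two_κ (s : St) : (2 : s.κ) = 0 := by
  have h : (2 : ℂ) ∈ s.v.valuationSubring := s.v_two.le
  have h1 := (e4b_zero (x := 2) h).2 s.v_two
  rw [e4b_rs h] at h1
  rw [← h1, ← map_ofNat (IsLocalRing.residue s.v.valuationSubring) 2]
  rfl

theorem rs_add (hx : s.v x ≤ 1) (hy : s.v y ≤ 1) : s.rs (x + y) = s.rs x + s.rs y := by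
  rw [e4b_rs hx, e4b_rs hy, e4b_rs (s.v.map_add_le hx hy), ← map_add]
  rfl

theorem rs_sub (hx : s.v x ≤ 1) (hy : s.v y ≤ 1) : s.rs (x - y) = s.rs x + s.rs y := by
  rw [e4b_sub hx hy]
  linear_combination (-s.rs y) * s.two_κ

theorem rs_mul (hx : s.v x ≤ 1) (hy : s.v y ≤ 1) : s.rs (x * y) = s.rs x * s.rs y := by
  rw [e4b_rs hx, e4b_rs hy, e4b_rs (e4b_mul_le hx hy), ← map_mul]
  rfl

theorem rs_one (s : St) : s.rs 1 = 1 := by
  rw [e4b_rs (map_one s.v).le]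
  exact map_one _

theorem rs_eq_zero (hx : s.v x ≤ 1) : s.rs x = 0 ↔ s.v x < 1 := by
  exact e4b_zero hx

theorem rs_congr (hx : s.v x ≤ 1) (h : s.v (x - y) < 1) : s.rs x = s.rs y := by
  have hy : s.v y ≤ 1 := by
    have := s.v.map_sub_le hx h.le
    rwa [sub_sub_cancel] at this
  rw [← sub_eq_zero, ← e4b_sub hx hy]
  exact (e4b_zero h.le).2 h

theorem rs_odd {a : ℤ} (h : Odd a) : s.rs a = 1 := by
  obtain ⟨j, rfl⟩ := h
  rw [← s.rs_one]
  refine rs_congr (s.e4b_int _) ?_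
  push_cast
  rw [add_sub_cancel_right]
  exact (e4b_two_mul (s.e4b_int j)).trans_lt s.v_two

theorem rs_sum {ι : Type} (T : Finset ι) {g : ι → ℂ} (h : ∀ i ∈ T, s.v (g i) ≤ 1) :
    s.rs (∑ i ∈ T, g i) = ∑ i ∈ T, s.rs (g i) := by
  classical
  induction T using Finset.induction_on with
  | empty =>
    rw [Finset.sum_empty, Finset.sum_empty]
    exact (e4b_zero (by simp)).2 (by simp)
  | insert a T ha ih =>
    have h' : ∀ i ∈ T, s.v (g i) ≤ 1 := fun i hi => h i (Finset.mem_insert_of_mem hi)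
    rw [Finset.sum_insert ha, Finset.sum_insert ha,
      rs_add (h a (Finset.mem_insert_self _ _)) (s.v.map_sum_le h'), ih h']

theorem tr_add (x y : ℂ) : s.tr n sb (x + y) = s.tr n sb x + s.tr n sb y := by
  simp only [tr, map_add, Finset.sum_add_distrib, add_div]

theorem e4b_sum_poly (hn : 1 ≤ n) (p : Polynomial ℤ) : ∃ e : ℤ,
    ∑ b : (ZMod (2 ^ n))ˣ, Polynomial.aeval (zt n ^ (b : ZMod (2 ^ n)).val) p =
      2 ^ (n - 1) * (e : ℂ) := by
  induction p using Polynomial.induction_on' with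
  | add p q hp hq =>
    obtain ⟨a, ha⟩ := hp
    obtain ⟨b, hb⟩ := hq
    refine ⟨a + b, ?_⟩
    simp only [map_add, Finset.sum_add_distrib]
    rw [ha, hb, Int.cast_add, mul_add]
  | monomial j a =>
    obtain ⟨e, he⟩ := sum_zt hn j
    refine ⟨a * e, ?_⟩
    simp only [Polynomial.aeval_monomial, zpow_natCast] at he ⊢
    rw [← Finset.mul_sum, he, Int.cast_mul, eq_intCast]
    ring

theorem e4b_add (hx : x ∈ s.Fx n) (hy : y ∈ s.Fx n) : x + y ∈ s.Fx n := by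
  obtain ⟨T, hT⟩ := s.exists_fx n
  exact (hT _).1 (add_mem ((hT _).2 hx) ((hT _).2 hy))

theorem e4b_fsub (hx : x ∈ s.Fx n) (hy : y ∈ s.Fx n) : x - y ∈ s.Fx n := by
  obtain ⟨T, hT⟩ := s.exists_fx n
  exact (hT _).1 (sub_mem ((hT _).2 hx) ((hT _).2 hy))

theorem e4b_mul (hx : x ∈ s.Fx n) (hy : y ∈ s.Fx n) : x * y ∈ s.Fx n := by
  obtain ⟨T, hT⟩ := s.exists_fx n
  exact (hT _).1 (mul_mem ((hT _).2 hx) ((hT _).2 hy))

theorem e4b_div (hx : x ∈ s.Fx n) (hy : y ∈ s.Fx n) : x / y ∈ s.Fx n := by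
  obtain ⟨T, hT⟩ := s.exists_fx n
  exact (hT _).1 (div_mem ((hT _).2 hx) ((hT _).2 hy))

theorem e4b_inv (hx : x ∈ s.Fx n) : x⁻¹ ∈ s.Fx n := by
  obtain ⟨T, hT⟩ := s.exists_fx n
  exact (hT _).1 (inv_mem ((hT _).2 hx))

theorem e4b_pow (hx : x ∈ s.Fx n) (j : ℕ) : x ^ j ∈ s.Fx n := by
  obtain ⟨T, hT⟩ := s.exists_fx n
  exact (hT _).1 (pow_mem ((hT _).2 hx) j)

theorem e4b_one (s : St) (n : ℕ) : (1 : ℂ) ∈ s.Fx n := by
  obtain ⟨T, hT⟩ := s.exists_fx n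
  exact (hT _).1 (one_mem T)

theorem e4b_two (s : St) (n : ℕ) : (2 : ℂ) ∈ s.Fx n := by
  rw [← one_add_one_eq_two]
  exact e4b_add (s.e4b_one n) (s.e4b_one n)

theorem e4b_vzt (s : St) (n : ℕ) : s.v (zt n) = 1 := v_root s.v (by positivity) (zt_pow n)

theorem tr_int (hn : 1 ≤ n) (hs : s.IsSec n sb) (hy : y ∈ s.Fx n) (hv : s.v y ≤ 1) :
    s.v (s.tr n sb y) ≤ 1 := by
  obtain ⟨a, ha, rfl⟩ := fx_exp hn hy hv
  choose e he using fun i => e4b_sum_poly hn ((1 - Polynomial.X) ^ i)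
  have h1 : s.tr n sb (∑ i ∈ Finset.range (2 ^ (n - 1)), a i * (1 - zt n) ^ i) =
      ∑ i ∈ Finset.range (2 ^ (n - 1)), a i * e i := by
    rw [tr, div_eq_iff (pow_ne_zero _ two_ne_zero), Finset.sum_mul]
    simp only [map_sum]
    rw [Finset.sum_comm]
    refine Finset.sum_congr rfl fun i _ => ?_
    rw [mul_assoc, mul_comm (e i : ℂ), ← he, Finset.mul_sum]
    refine Finset.sum_congr rfl fun b _ => ?_
    rw [map_mul, fx_zero (ha i).1 (hs b).1, map_pow, map_sub, map_one, (hs b).2, map_pow, map_sub,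
      map_one, Polynomial.aeval_X]
  rw [h1]
  exact s.v.map_sum_le fun i _ => e4b_mul_le (ha i).2 (s.e4b_int _)

theorem tr_cong (hn : 1 ≤ n) (hs : s.IsSec n sb) (hx : x ∈ s.Fx n) (hy : y ∈ s.Fx n)
    (hv : s.v y ≤ 1) (h : s.v (x - y) ≤ s.v 2) : s.rs (s.tr n sb x) = s.rs (s.tr n sb y) := by
  have hz : (x - y) / 2 ∈ s.Fx n := e4b_div (e4b_fsub hx hy) (s.e4b_two n)
  have h1 := tr_int hn hs hz (e4b_half h)
  have e : x = y + ((x - y) / 2 + (x - y) / 2) := by ring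
  refine (rs_congr (tr_int hn hs hy hv) ?_).symm
  rw [e, tr_add, tr_add, sub_add_cancel_left, Valuation.map_neg, ← two_mul]
  exact (e4b_two_mul h1).trans_lt s.v_two

theorem e4b_Dl (hs : s.IsSec n sb) (hx : x ∈ s.Fx n) : s.Dl n sb x ∈ s.Fx n :=
  e4b_div (e4b_fsub (s.e4b_one n) (e4b_div (fx_aut (hs _).1 hx) hx)) (s.e4b_two n)

theorem e4b_pow_sub (hx : s.v x ≤ 1) (hy : s.v y ≤ 1) (i : ℕ) :
    s.v (x ^ i - y ^ i) ≤ s.v (x - y) := by
  induction i with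
  | zero => simp
  | succ i ih =>
    rw [show x ^ (i + 1) - y ^ (i + 1) = x * (x ^ i - y ^ i) + y ^ i * (x - y) by ring]
    refine s.v.map_add_le ?_ ?_
    · rw [map_mul]
      exact (mul_le_of_le_one_left' hx).trans ih
    · rw [map_mul, map_pow]
      exact mul_le_of_le_one_left' (pow_le_one' hy i)

theorem e4b_vinv (x : ℂ) : s.v ((zt n)⁻¹ * x) = s.v x := by
  rw [map_mul, map_inv₀, s.e4b_vzt n, inv_one, one_mul]

theorem Dl_int (hn : 2 ≤ n) (hs : s.IsSec n sb) (hx : x ∈ s.Fx n) (hv : s.v x = 1) :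
    s.Dl n sb x ∈ s.Fx n ∧ s.v (s.Dl n sb x) ≤ 1 := by
  refine ⟨e4b_Dl hs hx, ?_⟩
  have h0 : x ≠ 0 := fun e => by
    rw [e, map_zero] at hv
    exact zero_ne_one hv
  have h1 : s.v (x - sb (tau n) x) ≤ s.v 2 := by
    obtain ⟨a, ha, e⟩ := fx_exp (by omega) hx hv.le
    rw [e, map_sum, ← Finset.sum_sub_distrib]
    refine s.v.map_sum_le fun i _ => ?_
    rw [map_mul (sb (tau n)), fx_zero (ha i).1 (hs _).1, map_pow, map_sub (sb (tau n)),
      map_one, (hs _).2,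
      zt_tau hn, ← mul_sub, map_mul]
    refine (mul_le_of_le_one_left' (ha i).2).trans ((e4b_pow_sub ?_ ?_ i).trans ?_)
    · exact s.v.map_sub_le (map_one _).le (s.e4b_vzt n).le
    · exact s.v.map_sub_le (map_one _).le (by rw [Valuation.map_neg, s.e4b_vzt n])
    · rw [show 1 - zt n - (1 - -zt n) = -(2 * zt n) by ring, Valuation.map_neg]
      exact e4b_two_mul (s.e4b_vzt n).le
  refine e4b_half ?_
  rwa [one_sub_div h0, map_div₀, hv, div_one]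

theorem del_cong (hn : 2 ≤ n) (hs : s.IsSec n sb) (hx : x ∈ s.Fx n) (hy : y ∈ s.Fx n)
    (hv : s.v y ≤ 1) (h : s.v (s.Dl n sb x - y) ≤ s.v 2) :
    s.del n sb x = s.rs (s.tr n sb ((zt n)⁻¹ * y)) := by
  refine tr_cong (by omega) hs (e4b_mul (e4b_inv (s.fx_zt n)) (e4b_Dl hs hx))
    (e4b_mul (e4b_inv (s.fx_zt n)) hy) ?_ ?_
  · rwa [e4b_vinv]
  · rwa [← mul_sub, e4b_vinv]

theorem del_mul (hn : 2 ≤ n) (hs : s.IsSec n sb) (hx : x ∈ s.Fx n) (hy : y ∈ s.Fx n)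
    (h : s.v x = 1) (h' : s.v y = 1) : s.del n sb (x * y) = s.del n sb x + s.del n sb y := by
  obtain ⟨a1, a2⟩ := Dl_int hn hs hx h
  obtain ⟨b1, b2⟩ := Dl_int hn hs hy h'
  have e : s.Dl n sb (x * y) - (s.Dl n sb x + s.Dl n sb y) =
      -(2 * (s.Dl n sb x * s.Dl n sb y)) := by
    simp only [Dl]
    rw [map_mul, mul_div_mul_comm]
    ring
  rw [del_cong hn hs (e4b_mul hx hy) (e4b_add a1 b1) (s.v.map_add_le a2 b2) (by
    rw [e, Valuation.map_neg]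
    exact e4b_two_mul (e4b_mul_le a2 b2)), mul_add, tr_add]
  exact rs_add (tr_int (by omega) hs (e4b_mul (e4b_inv (s.fx_zt n)) a1) (by rwa [e4b_vinv]))
    (tr_int (by omega) hs (e4b_mul (e4b_inv (s.fx_zt n)) b1) (by rwa [e4b_vinv]))

theorem del_div (hn : 2 ≤ n) (hs : s.IsSec n sb) (hx : x ∈ s.Fx n) (hy : y ∈ s.Fx n)
    (h : s.v x = 1) (h' : s.v y = 1) : s.del n sb (x / y) = s.del n sb x + s.del n sb y := by
  have h0 : y ≠ 0 := fun e => by
    rw [e, map_zero] at h'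
    exact zero_ne_one h'
  have h1 := del_mul hn hs (e4b_div hx hy) hy (by rw [map_div₀, h, h', div_one]) h'
  rw [div_mul_cancel₀ _ h0] at h1
  linear_combination -h1 - s.del n sb y * s.two_κ

theorem e4b_rs_zero (s : St) : s.rs 0 = 0 := (e4b_zero (by simp)).2 (by simp)

theorem e4b_fix (h0 : x ≠ 0) (h : sb (tau n) x = x) : s.del n sb x = 0 := by
  rw [del, Dl, h, div_self h0, sub_self, zero_div, mul_zero, tr]
  simp only [map_zero, Finset.sum_const_zero, zero_div]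
  exact s.e4b_rs_zero

theorem del_prod (hn : 2 ≤ n) (hs : s.IsSec n sb) {ι : Type} (T : Finset ι) {g : ι → ℂ}
    (h : ∀ i ∈ T, g i ∈ s.Fx n ∧ s.v (g i) = 1) :
    s.del n sb (∏ i ∈ T, g i) = ∑ i ∈ T, s.del n sb (g i) := by
  classical
  induction T using Finset.induction_on with
  | empty =>
    rw [Finset.prod_empty, Finset.sum_empty]
    exact e4b_fix one_ne_zero (map_one _)
  | insert a T ha ih =>
    have h' : ∀ i ∈ T, g i ∈ s.Fx n ∧ s.v (g i) = 1 := fun i hi => h i (Finset.mem_insert_of_mem hi)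
    have h1 : ∏ i ∈ T, g i ∈ s.Fx n := by
      obtain ⟨F, hF⟩ := s.exists_fx n
      exact (hF _).1 (prod_mem fun i hi => (hF _).2 (h' i hi).1)
    have h2 : s.v (∏ i ∈ T, g i) = 1 := by
      rw [map_prod]
      exact Finset.prod_eq_one fun i hi => (h' i hi).2
    rw [Finset.prod_insert ha, Finset.sum_insert ha,
      del_mul hn hs (h a (Finset.mem_insert_self _ _)).1 h1 (h a (Finset.mem_insert_self _ _)).2 h2,
      ih h']

theorem del_fix (h0 : x ≠ 0) (h : sb (tau n) x = x) : s.del n sb x = 0 := by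
  exact e4b_fix h0 h

theorem del_root (hn : 2 ≤ n) (hs : s.IsSec n sb) (b : ℕ) : s.del n sb (zt n ^ b) = 0 := by
  have h1 : s.del n sb (zt n) = 0 := by
    rw [del, Dl, (hs _).2, zt_tau hn, neg_div, div_self (zt_ne n), sub_neg_eq_add,
      add_self_div_two, mul_one, tr]
    have : ∑ b, sb b (zt n)⁻¹ = 0 := by
      rw [← sum_zt_zero hn]
      exact Finset.sum_congr rfl fun b _ => by rw [map_inv₀, (hs b).2]
    rw [this, zero_div]
    exact s.e4b_rs_zero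
  induction b with
  | zero => exact e4b_fix (pow_ne_zero _ (zt_ne n)) (by rw [pow_zero, map_one])
  | succ b ih =>
    rw [pow_succ, del_mul hn hs (e4b_pow (s.fx_zt n) b) (s.fx_zt n)
      (by rw [map_pow, s.e4b_vzt, one_pow]) (s.e4b_vzt n), ih, h1, add_zero]

theorem del_sq (hn : 2 ≤ n) (hs : s.IsSec n sb) {n' : ℕ} (h : x ^ 2 ∈ s.Fx n) (h' : x ∈ s.Fx n')
    (hv : s.v x = 1) : s.del n sb (x ^ 2) = 0 := by
  have key : ∀ u : ℂ, u ∈ s.Fx n → s.v u = 1 → s.del n sb (u ^ 2) = 0 := fun u hu hv => by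
    rw [sq, del_mul hn hs hu hu hv hv, ← two_mul, s.two_κ, zero_mul]
  rcases sq_mem hn h h' with h1 | h1
  · exact key x h1 hv
  · have h2 := key _ h1 (by rw [map_mul, s.e4b_vzt, hv, one_mul])
    have h3 := del_root hn hs 1
    rw [pow_one] at h3
    rwa [mul_pow, zt_sq, del_mul hn hs (s.fx_zt n) h (s.e4b_vzt n) (by rw [map_pow, hv, one_pow]),
      h3, zero_add] at h2

end St

end Pool.Agent.P.MP_20768c_nt.Az.Cu

end

-- part Ab.E5
section

set_option autoImplicit false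

open Complex NumberField IsDedekindDomain Filter Topology
open UpperHalfPlane hiding I
open scoped ComplexConjugate Real MatrixGroups

namespace Pool.Agent.P.MP_20768c_nt.Az.Cu

open Pool.Agent.P.MP_20768c_nt.Az.EQ (Lt pr sp IsLat jL qN)

namespace Ab

variable {s : Ab} {Γ : Type} [LinearOrderedCommGroupWithZero Γ] {σ : s.Au} {n : ℕ} {x : ℂ}

theorem e5_sq (hn : 2 ≤ n) : zt n ^ 2 = zt (n - 1) := by
  have := zt_sq (n - 1)
  rwa [Nat.sub_add_cancel (by omega)] at this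

theorem e5_pm (hn : 2 ≤ n) (h : ∀ y ∈ s.K (n - 1), σ y = y) :
    (∀ y ∈ s.N, σ y = y) ∧ (σ (zt n) = zt n ∨ σ (zt n) = -zt n) := by
  obtain ⟨h1, h2⟩ := fix_K.1 h
  refine ⟨h1, sq_eq_sq_iff_eq_or_eq_neg.1 ?_⟩
  rw [← map_pow, e5_sq hn, h2]

theorem e5_neg (s : Ab) (hn : 2 ≤ n) :
    ∃ σ : s.Au, (∀ x ∈ s.N, σ x = x) ∧ σ (zt n) = -zt n := by
  obtain ⟨σ, h1, h2⟩ := s.exists_inert n (tau n)
  exact ⟨σ, fun x hx => inert_fix_N s.v_two h1 hx, h2.trans (zt_tau hn)⟩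

theorem e5_int {F : IntermediateField s.k ℂ} (hx : x ∈ F) (h : IsIntegral ℤ x) :
    ∃ y : 𝓞 F, ((y : F) : ℂ) = x :=
  ⟨⟨⟨x, hx⟩, (isIntegral_algebraMap_iff (algebraMap F ℂ).injective).1 h⟩, rfl⟩

theorem e5_int' {F : IntermediateField s.k ℂ} (y : 𝓞 F) : IsIntegral ℤ ((y : F) : ℂ) :=
  (RingOfIntegers.isIntegral_coe y).algebraMap (B := ℂ)

theorem K_tau (hn : 2 ≤ n) (h : ∀ x ∈ s.N, σ x = x) (h' : σ (zt n) = -zt n) (hx : x ∈ s.K n) :
    σ x = x ↔ x ∈ s.K (n - 1) := by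
  have hs := e5_sq hn
  refine ⟨fun e => St.mem_of_fixed _ _ fun ρ hρ => ?_, fun hx' => (fix_K.2 ⟨h, ?_⟩) x hx'⟩
  · obtain ⟨h1, h2 | h2⟩ := e5_pm hn hρ
    · exact fix_K.2 ⟨h1, h2⟩ x hx
    · rw [eq_on_K (fun y hy => (h1 y hy).trans (h y hy).symm) (h2.trans h'.symm) hx, e]
  · rw [← hs, map_pow, h', neg_sq]

theorem exists_tau (s : Ab) (hn : 2 ≤ n) : ∃ τ, s.IsTau n τ := by
  obtain ⟨σ, h1, h2⟩ := s.e5_neg hn
  obtain ⟨ρ, -, hρ⟩ := s.exists_res (s.K n)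
  exact ⟨ρ σ, fun y => by rw [Subtype.ext_iff, hρ, K_tau hn h1 h2 y.2]⟩

theorem IsTau.spec (hn : 2 ≤ n) {τ : s.G n} (h : s.IsTau n τ) : τ ≠ 1 ∧ τ * τ = 1 ∧
    (∀ y : s.K n, (y : ℂ) = zt n → τ y = -y) ∧
    ∀ g : s.G n, (∀ y : s.K n, (y : ℂ) ∈ s.K (n - 1) → g y = y) → g = 1 ∨ g = τ := by
  obtain ⟨σ, h1, h2⟩ := s.e5_neg hn
  obtain ⟨ρ, hs, hρ⟩ := s.exists_res (s.K n)
  have a : ∀ g : s.G n, (∀ y : s.K n, (y : ℂ) ∈ s.K (n - 1) → g y = y) → g = 1 ∨ g = ρ σ := by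
    intro g hg
    obtain ⟨σ', rfl⟩ := hs g
    obtain ⟨k1, k2 | k2⟩ := e5_pm (σ := σ') hn fun y hy => by
      have := congrArg Subtype.val (hg ⟨y, s.K_mono (Nat.sub_le n 1) hy⟩ hy)
      rwa [hρ] at this
    · exact Or.inl (AlgEquiv.ext fun y => Subtype.ext (by
        rw [hρ]; exact fix_K.2 ⟨k1, k2⟩ _ y.2))
    · exact Or.inr (AlgEquiv.ext fun y => Subtype.ext (by
        rw [hρ, hρ]
        exact eq_on_K (fun y hy => (k1 y hy).trans (h1 y hy).symm) (k2.trans h2.symm) y.2))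
  have b : τ ≠ 1 := by
    rintro rfl
    have := s.zt_not_mem (n := n - 1) (by omega)
    rw [Nat.sub_add_cancel (by omega)] at this
    exact this ((h ⟨zt n, s.zt_mem n⟩).1 rfl)
  have c : τ = ρ σ := (a τ fun y hy => (h y).2 hy).resolve_left b
  refine ⟨b, ?_, fun y hy => Subtype.ext ?_, fun g hg => c ▸ a g hg⟩
  · refine (a (τ * τ) fun y hy => ?_).resolve_right fun e => b ?_
    · rw [AlgEquiv.mul_apply, (h y).2 hy, (h y).2 hy]
    · rw [← c] at e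
      exact mul_eq_left.1 e
  · rw [c, hρ, hy, h2, ← hy]; rfl

theorem exists_gam (s : Ab) : ∃ γ, s.IsGam γ := by
  have a : ∀ n, ∃ g : s.Au, (∀ x ∈ s.N, g x = x) ∧ g (zt n) = zt n ^ 5 := fun n => by
    obtain ⟨g, h1, h2⟩ := s.exists_inert n
      (ZMod.unitOfCoprime 5 (Nat.Coprime.pow_right n (by norm_num)))
    refine ⟨g, fun x hx => inert_fix_N s.v_two h1 hx, h2.trans ?_⟩
    rw [zt_val (a := 5) (by simp)]
    exact zpow_ofNat _ 5
  choose g g1 g2 using a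
  have b : ∀ n j x, x ∈ s.K n → g (n + j) x = g n x := fun n j x hx => by
    refine eq_on_K (fun y hy => (g1 _ y hy).trans (g1 _ y hy).symm) ?_ hx
    rw [g2, ← zt_pow_two n j, map_pow, g2, ← pow_mul, ← pow_mul, mul_comm]
  have c : ∀ n n' x, x ∈ s.K n → x ∈ s.K n' → g n x = g n' x := fun n n' x h h' => by
    rw [← b n n' x h, add_comm, b n' n x h']
  have l : ∀ {n n' x}, x ∈ s.K n → x ∈ s.K (n + n') := fun h => s.K_mono (Nat.le_add_right _ _) h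
  have r : ∀ {n n' x}, x ∈ s.K n' → x ∈ s.K (n + n') := fun h => s.K_mono (Nat.le_add_left _ _) h
  let A : Subring ℂ :=
    { carrier := {x | ∃ n, x ∈ s.K n}
      mul_mem' := fun ⟨_, h⟩ ⟨_, h'⟩ => ⟨_, mul_mem (l h) (r h')⟩
      one_mem' := ⟨0, one_mem _⟩
      add_mem' := fun ⟨_, h⟩ ⟨_, h'⟩ => ⟨_, add_mem (l h) (r h')⟩
      zero_mem' := ⟨0, zero_mem _⟩
      neg_mem' := fun ⟨_, h⟩ => ⟨_, neg_mem h⟩ }
  have e : ∀ (x : A) (n : ℕ), (x : ℂ) ∈ s.K n → g x.2.choose x = g n x := fun x n h =>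
    c _ _ _ x.2.choose_spec h
  let ψ : A →+* ℂ :=
    { toFun := fun x => g x.2.choose x
      map_one' := map_one _
      map_zero' := map_zero _
      map_mul' := fun x y => by
        obtain ⟨n, h⟩ := id x.2
        obtain ⟨n', h'⟩ := id y.2
        rw [e x _ (l (n' := n') h), e y _ (r (n := n) h'), ← map_mul]
        exact e (x * y) _ (mul_mem (l h) (r h'))
      map_add' := fun x y => by
        obtain ⟨n, h⟩ := id x.2
        obtain ⟨n', h'⟩ := id y.2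
        rw [e x _ (l (n' := n') h), e y _ (r (n := n) h'), ← map_add]
        exact e (x + y) _ (add_mem (l h) (r h')) }
  have hc : Countable A := ((Algebraic.countable ℚ ℂ).mono
    (show (A : Set ℂ) ⊆ _ from fun x ⟨n, h⟩ => s.alg_of_mem (s.K n) h)).to_subtype
  obtain ⟨σ, hσ⟩ := Pool.Agent.P.MP_20768c_nt.Az.EQ.aut_ring Cardinal.mk_le_aleph0 A.subtype ψ Subtype.val_injective
    ((injective_iff_map_eq_zero ψ).2 fun x hx => Subtype.ext ((map_eq_zero (g x.2.choose)).1 hx))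
  have f : ∀ n x, x ∈ s.K n → σ x = g n x := fun n x h => (hσ ⟨x, n, h⟩).trans (e ⟨x, n, h⟩ n h)
  have f1 : ∀ x ∈ s.N, σ x = x := fun x h => (f 0 x (s.N_le 0 h)).trans (g1 0 x h)
  exact ⟨AlgEquiv.ofRingEquiv (f := σ) fun x => f1 _ (s.N.algebraMap_mem x), f1,
    fun n => (f n _ (s.zt_mem n)).trans (g2 n)⟩

theorem gam_zt {γ : s.Au} (h : s.IsGam γ) (j n : ℕ) : (γ ^ j) (zt n) = zt n ^ 5 ^ j := by
  induction j with
  | zero => simp
  | succ j ih => rw [pow_succ γ, AlgEquiv.mul_apply, h.2, map_pow, ih, ← pow_mul, ← pow_succ]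

theorem e5_pow (h : σ x = x) (j : ℕ) : (σ ^ j) x = x := by
  induction j with
  | zero => rfl
  | succ j ih => rw [pow_succ, AlgEquiv.mul_apply, h, ih]

theorem e5_congr {a b : ℕ} : zt n ^ a = zt n ^ b ↔ (a : ℤ) ≡ b [ZMOD 2 ^ n] := by
  rw [← zpow_natCast, ← zpow_natCast, zt_congr, ZMod.intCast_eq_intCast_iff]
  push_cast
  rfl

theorem gam_fix {γ : s.Au} (h : s.IsGam γ) (hn : 2 ≤ n) {n' : ℕ} (hx : x ∈ s.K n') :
    (γ ^ 2 ^ (n - 2)) x = x ↔ x ∈ s.K n := by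
  have hu := sq_step (u := 5) le_rfl (by decide) (n - 2)
  rw [Nat.add_sub_cancel' hn] at hu
  have hN : ∀ j, ∀ y ∈ s.N, (γ ^ j) y = y := fun j y hy => e5_pow (h.1 y hy) j
  refine ⟨fun e => St.mem_of_fixed _ _ fun ρ hρ => ?_, fun hx' => fix_K.2 ⟨hN _, ?_⟩ x hx'⟩
  · obtain ⟨h1, h2⟩ := fix_K.1 hρ
    obtain ⟨b, hb⟩ := hom_zt (ρ : ℂ →+* ℂ) (n + n')
    replace hb : ρ (zt (n + n')) = zt (n + n') ^ (b : ZMod (2 ^ (n + n'))).val := hb
    generalize (b : ZMod (2 ^ (n + n'))).val = a at hb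
    have ha : zt n ^ a = zt n ^ 1 := by
      rw [pow_one]
      nth_rewrite 2 [← h2]
      rw [← zt_pow_two n n', map_pow, hb, ← pow_mul, ← pow_mul, mul_comm]
    obtain ⟨i, -, hi⟩ := gen_pow hn hu (e5_congr.1 ha) n'
    refine (eq_on_K (τ := (γ ^ 2 ^ (n - 2)) ^ i) (n := n + n') (fun y hy => ?_) ?_
      (s.K_mono (Nat.le_add_left _ _) hx)).trans (e5_pow e i)
    · rw [← pow_mul, hN _ y hy, h1 y hy]
    · rw [← pow_mul, gam_zt h, hb, e5_congr]
      push_cast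
      rwa [pow_mul]
  · rw [gam_zt h]
    nth_rewrite 2 [← pow_one (zt n)]
    rw [e5_congr]
    push_cast
    exact (hu.of_dvd (pow_dvd_pow _ (Nat.le_succ n))).trans Int.add_modEq_right

theorem gam_tau {γ : s.Au} (h : s.IsGam γ) (hn : 3 ≤ n) : (γ ^ 2 ^ (n - 3)) (zt n) = -zt n := by
  have hu := sq_step (u := 5) le_rfl (by decide) (n - 3)
  rw [show 2 + (n - 3) + 1 = n by omega, show 2 + (n - 3) = n - 1 by omega] at hu
  rw [gam_zt h, (e5_congr (b := 1 + 2 ^ (n - 1))).2 (by push_cast; exact hu), pow_add,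
    zt_half (by omega), pow_one, mul_neg_one]

theorem exists_unr (s : Ab) : ∃ C : ℕ, C ≠ 0 ∧ ∀ n, Unr s.k (s.K n) C := by
  obtain ⟨C, hC, h⟩ := s.exists_unram s.N
  refine ⟨2 * C, by positivity, fun n Q hQ hm g hg => ?_⟩
  have hy : ∀ x : 𝓞 (s.K n), ∃ y : 𝓞 (s.K n), (y : s.K n) = g x := fun x =>
    ⟨⟨g x, (RingOfIntegers.isIntegral_coe x).map (g.toAlgHom.toRingHom.toIntAlgHom)⟩, rfl⟩
  by_cases h0 : Q = ⊥
  · have a : ∀ x : 𝓞 (s.K n), g x = x := fun x => by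
      obtain ⟨y, e⟩ := hy x
      have := hg x y e
      rw [h0, Ideal.mem_bot, sub_eq_zero] at this
      rw [← e, this]
    refine AlgEquiv.ext fun z => ?_
    obtain ⟨p, q, -, rfl⟩ := IsFractionRing.div_surjective (A := 𝓞 (s.K n)) z
    rw [map_div₀]
    exact congrArg₂ (· / ·) (a p) (a q)
  obtain ⟨V, hV⟩ := s.exists_val (s.K n) Q hQ h0
  obtain ⟨ρ, hs, hρ⟩ := s.exists_res (s.K n)
  obtain ⟨σ, rfl⟩ := hs g
  have v1 : V.valuation ((2 * C : ℕ) : ℂ) = 1 := by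
    refine le_antisymm (St.v_int _ (isIntegral_natCast _)) (not_lt.1 fun hl => hm ((hV _).1 ?_))
    rwa [RingOfIntegers.coe_eq_algebraMap, map_natCast, SubringClass.coe_natCast]
  have a : ∀ x ∈ s.K n, IsIntegral ℤ x → V.valuation (σ x - x) < 1 := fun x hx hi => by
    obtain ⟨x, rfl⟩ := e5_int hx hi
    obtain ⟨y, e⟩ := hy x
    have := (hV _).2 (hg x y e)
    rw [← hρ, ← e]
    simpa using this
  have b := h V σ (v_nat_dvd _ (dvd_mul_left _ _) v1) fun x => a _ (s.N_le n x.1.2) (e5_int' x)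
  have c : σ (zt n) = zt n := by
    refine St.root_inj V.valuation (n := 2 ^ n) ?_ (by rw [← map_pow, zt_pow, map_one]) (zt_pow n)
      (a _ (s.zt_mem n) (zt_int n))
    rw [Nat.cast_pow, map_pow, v_nat_dvd _ (dvd_mul_right _ _) v1, one_pow]
  exact AlgEquiv.ext fun y => Subtype.ext (by rw [hρ]; exact fix_K.2 ⟨b, c⟩ _ y.2)

theorem e5_mul (ε ε' : (𝓞 (s.K n))ˣ) : s.uc (ε * ε') = s.uc ε * s.uc ε' := by
  simp [uc]

theorem v_uc (v : Valuation ℂ Γ) (ε : (𝓞 (s.K n))ˣ) : v (s.uc ε) = 1 := by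
  have a : ∀ ε : (𝓞 (s.K n))ˣ, v (s.uc ε) ≤ 1 := fun ε => St.v_int v (e5_int' _)
  have b : v (s.uc ε) * v (s.uc ε⁻¹) = 1 := by
    rw [← map_mul, ← e5_mul, mul_inv_cancel]
    simp [uc]
  refine le_antisymm (a ε) ?_
  rw [← b]
  exact mul_le_of_le_one_right' (a _)

theorem uc_mem (ε : (𝓞 (s.K n))ˣ) : s.uc ε ∈ s.K n := by
  exact Subtype.property _

theorem uc_mul (ε ε' : (𝓞 (s.K n))ˣ) : s.uc (ε * ε') = s.uc ε * s.uc ε' := by
  exact e5_mul ε ε'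

theorem uc_inj {ε ε' : (𝓞 (s.K n))ˣ} (h : s.uc ε = s.uc ε') : ε = ε' := by
  exact Units.ext (RingOfIntegers.ext (Subtype.ext h))

theorem unit_aut (σ : s.Au) (n : ℕ) :
    ∃ e : (𝓞 (s.K n))ˣ →* (𝓞 (s.K n))ˣ, ∀ ε, s.uc (e ε) = σ (s.uc ε) := by
  obtain ⟨ρ, -, hρ⟩ := s.exists_res (s.K n)
  exact ⟨Units.map (RingOfIntegers.mapRingHom (ρ σ).toAlgHom.toRingHom).toMonoidHom,
    fun ε => hρ σ _⟩

theorem unit_down {n' : ℕ} (ε : (𝓞 (s.K n))ˣ) (h : s.uc ε ∈ s.K n') :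
    ∃ ε' : (𝓞 (s.K n'))ˣ, s.uc ε' = s.uc ε := by
  exact s.unit_of_val (s.K n') h fun V => v_uc _ ε

end Ab

end Pool.Agent.P.MP_20768c_nt.Az.Cu

end

-- part Ab.K3
section

set_option autoImplicit false

open Complex NumberField IsDedekindDomain Filter Topology
open UpperHalfPlane hiding I
open scoped ComplexConjugate Real MatrixGroups

namespace Pool.Agent.P.MP_20768c_nt.Az.Cu

open Pool.Agent.P.MP_20768c_nt.Az.EQ (Lt pr sp IsLat jL qN)

section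
variable {k F F' : Type} [Field k] [NumberField k] [Field F] [NumberField F] [Field F']
  [NumberField F'] [Algebra k F] [Algebra k F'] [Algebra F' F] [IsScalarTower k F' F]
  [IsGalois k F] [IsGalois k F'] {C : ℕ}

omit [IsGalois k F] in
theorem k3_frob (Fr : Ideal (𝓞 k) → F ≃ₐ[k] F)
    (hFr : ∀ Q : Ideal (𝓞 F), Q.IsPrime → Q ≠ ⊥ → (C : 𝓞 F) ∉ Q → FrobAt (Fr (Q.under (𝓞 k))) Q)
    (P : Ideal (𝓞 F')) (hP : P.IsPrime) (h0 : P ≠ ⊥) (hC : (C : 𝓞 F') ∉ P) :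
    FrobAt (AlgEquiv.restrictNormalHom F' (Fr (P.under (𝓞 k)))) P := by
  have hM : P.IsMaximal := hP.isMaximal h0
  obtain ⟨Q, hQ, hQP⟩ := Ideal.exists_maximal_ideal_liesOver_of_isIntegral (S := 𝓞 F) P
  have e : P = Q.under (𝓞 F') := hQP.over
  have e2 : Q.under (𝓞 k) = P.under (𝓞 k) := by rw [e, Ideal.under_under]
  have h1 := hFr Q hQ.isPrime (Ideal.ne_bot_of_liesOver_of_ne_bot h0 Q) (fun h => hC (by
    rw [e, Ideal.under_def, Ideal.mem_comap, map_natCast]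
    exact h))
  intro x y hxy
  have h2 := h1 (algebraMap _ _ x) (algebraMap _ _ y) (by
    have h3 := AlgEquiv.restrictNormal_commutes (Fr (P.under (𝓞 k))) F' (x : F')
    rw [e2]
    refine Eq.trans ?_ h3
    exact congrArg (algebraMap F' F) hxy)
  rw [e2] at h2
  conv_lhs => rw [e]
  rw [Ideal.under_def (A := 𝓞 F'), Ideal.mem_comap, map_sub, map_pow]
  exact h2

theorem k3_split (hc : ∀ g h : F ≃ₐ[k] F, g * h = h * g) (hc' : ∀ g h : F' ≃ₐ[k] F', g * h = h * g)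
    (hU : Unr k F C) (hU' : Unr k F' C) (Fr : Ideal (𝓞 k) → F ≃ₐ[k] F)
    (hFr : ∀ Q : Ideal (𝓞 F), Q.IsPrime → Q ≠ ⊥ → (C : 𝓞 F) ∉ Q → FrobAt (Fr (Q.under (𝓞 k))) Q)
    {τ : F ≃ₐ[k] F} (h2 : τ * τ = 1) (h3 : ∀ y : F', τ (algebraMap F' F y) = algebraMap F' F y)
    (h4 : ∀ g : F ≃ₐ[k] F, (∀ y : F', g (algebraMap F' F y) = algebraMap F' F y) → g = 1 ∨ g = τ)
    (a : ((F ≃ₐ[k] F) →* ℂˣ) → Ideal (𝓞 k) → ℂ) (ha : ∀ φ, Mult k (a φ))
    (hq : ∀ φ (q : Ideal (𝓞 k)), q.IsPrime → q ≠ ⊥ →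
      ((C : 𝓞 k) ∈ q → a φ q = 0) ∧ ((C : 𝓞 k) ∉ q → a φ q = φ (Fr q))) {t : ℝ} (ht : 1 < t) :
    DS F (oneC F C) t = DS F' (oneC F' C) t *
      ∏ᶠ φ ∈ {φ : (F ≃ₐ[k] F) →* ℂˣ | φ τ = -1}, DS k (a φ) t := by
  obtain ⟨r, hr⟩ : ∃ r : (F ≃ₐ[k] F) →* (F' ≃ₐ[k] F'), r = AlgEquiv.restrictNormalHom F' :=
    ⟨_, rfl⟩
  have hs : Function.Surjective r := hr ▸ AlgEquiv.restrictNormalHom_surjective F
  have hk : ∀ g, r g = 1 ↔ ∀ y : F', g (algebraMap F' F y) = algebraMap F' F y := by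
    intro g
    have e : ∀ y, algebraMap F' F (r g y) = g (algebraMap F' F y) := fun y =>
      hr ▸ AlgEquiv.restrictNormal_commutes g F' y
    refine ⟨fun h y => by rw [← e, h, AlgEquiv.one_apply], fun h => AlgEquiv.ext fun y => ?_⟩
    exact (algebraMap F' F).injective ((e y).trans (h y))
  have hrange : Set.range (fun ψ : (F' ≃ₐ[k] F') →* ℂˣ => ψ.comp r) = {φ | φ τ = 1} := by
    ext φ
    constructor
    · rintro ⟨ψ, rfl⟩
      show ψ (r τ) = 1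
      rw [(hk τ).2 h3, map_one]
    · intro h
      refine ⟨r.liftOfSurjective hs ⟨φ, fun g hg => ?_⟩, r.liftOfRightInverse_comp _ _ _⟩
      rcases h4 g ((hk g).1 hg) with rfl | rfl
      · exact map_one φ
      · exact h
  have hun : {φ : (F ≃ₐ[k] F) →* ℂˣ | φ τ = 1} ∪ {φ | φ τ = -1} = Set.univ := by
    refine Set.eq_univ_of_forall fun φ => ?_
    have e : ((φ τ : ℂˣ) : ℂ) * φ τ = 1 := by rw [← Units.val_mul, ← map_mul, h2, map_one, Units.val_one]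
    rcases mul_self_eq_one_iff.1 e with e | e
    · exact Or.inl (Units.ext e)
    · exact Or.inr (Units.ext e)
  have hdis : Disjoint {φ : (F ≃ₐ[k] F) →* ℂˣ | φ τ = 1} {φ | φ τ = -1} := by
    refine Set.disjoint_left.2 fun φ e1 e2 => ?_
    have e := congrArg (fun u : ℂˣ => (u : ℂ)) (e1.symm.trans e2)
    norm_num at e
  rw [zeta_fac hc hU Fr hFr a ha hq ht, zeta_fac hc' hU' (fun q => r (Fr q))
    (hr ▸ k3_frob Fr hFr) (fun ψ => a (ψ.comp r)) (fun ψ => ha _) (fun ψ => hq _) ht,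
    ← finprod_mem_univ, ← hun, finprod_mem_union hdis (Set.toFinite _) (Set.toFinite _), ← hrange,
    finprod_mem_range (f := fun φ => DS k (a φ) t) fun _ _ h => (MonoidHom.cancel_right hs).1 h]

end

theorem k3_lim {ι : Type} (S : Finset ι) {f g : ℝ → ℂ} {h : ι → ℝ → ℂ} {x y : ℝ} {z : ι → ℂ}
    (hf : Tendsto (fun t : ℝ => ((t : ℂ) - 1) * f t) (𝓝[>] 1) (𝓝 (x : ℂ)))
    (hg : Tendsto (fun t : ℝ => ((t : ℂ) - 1) * g t) (𝓝[>] 1) (𝓝 (y : ℂ)))
    (hh : ∀ i ∈ S, Tendsto (h i) (𝓝[>] 1) (𝓝 (z i)))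
    (e : ∀ t, 1 < t → f t = g t * ∏ i ∈ S, h i t) : x ^ 2 = y ^ 2 * ∏ i ∈ S, ‖z i‖ ^ 2 := by
  have h1 := tendsto_nhds_unique_of_eventuallyEq hf (hg.mul (tendsto_finsetProd S hh)) (by
    filter_upwards [self_mem_nhdsWithin] with t ht
    rw [e t ht, mul_assoc])
  have h2 := congrArg (fun w : ℂ => ‖w‖ ^ 2) h1
  simpa only [norm_mul, norm_prod, Complex.norm_real, Real.norm_eq_abs, mul_pow, sq_abs,
    Finset.prod_pow] using h2

theorem k3_card {s : Ab} {n : ℕ} (hn : 2 ≤ n) {τ : s.G n} (t1 : τ ≠ 1) (t2 : τ * τ = 1) :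
    {φ : s.G n →* ℂˣ | φ τ = -1}.ncard = s.g * 2 ^ (n - 2) := by
  have e := @card_odd (s.G n) { (inferInstance : Group (s.G n)) with mul_comm := Ab.comm_K } _ τ
    t1 t2
  have e2 : 2 * {φ : s.G n →* ℂˣ | φ τ = -1}.ncard = Nat.card (s.G n) := e
  rw [s.card_G (by omega), show n - 1 = n - 2 + 1 by omega, pow_succ, ← mul_assoc] at e2
  omega

theorem k3_split' {k : Type} [Field k] [NumberField k] [Algebra k ℂ] {F F' : IntermediateField k ℂ}
    [NumberField F] [NumberField F'] [IsGalois k F] [IsGalois k F'] {C : ℕ} (hle : F' ≤ F)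
    (hc : ∀ g h : F ≃ₐ[k] F, g * h = h * g) (hc' : ∀ g h : F' ≃ₐ[k] F', g * h = h * g)
    (hU : Unr k F C) (hU' : Unr k F' C) (Fr : Ideal (𝓞 k) → F ≃ₐ[k] F)
    (hFr : ∀ Q : Ideal (𝓞 F), Q.IsPrime → Q ≠ ⊥ → (C : 𝓞 F) ∉ Q → FrobAt (Fr (Q.under (𝓞 k))) Q)
    {τ : F ≃ₐ[k] F} (h2 : τ * τ = 1) (h3 : ∀ y : F, τ y = y ↔ (y : ℂ) ∈ F')
    (h4 : ∀ g : F ≃ₐ[k] F, (∀ y : F, (y : ℂ) ∈ F' → g y = y) → g = 1 ∨ g = τ)
    (a : ((F ≃ₐ[k] F) →* ℂˣ) → Ideal (𝓞 k) → ℂ) (ha : ∀ φ, Mult k (a φ))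
    (hq : ∀ φ (q : Ideal (𝓞 k)), q.IsPrime → q ≠ ⊥ →
      ((C : 𝓞 k) ∈ q → a φ q = 0) ∧ ((C : 𝓞 k) ∉ q → a φ q = φ (Fr q))) {t : ℝ} (ht : 1 < t) :
    DS F (oneC F C) t = DS F' (oneC F' C) t *
      ∏ᶠ φ ∈ {φ : (F ≃ₐ[k] F) →* ℂˣ | φ τ = -1}, DS k (a φ) t := by
  let _ : Algebra F' F := (IntermediateField.inclusion hle).toRingHom.toAlgebra
  have : IsScalarTower k F' F := IsScalarTower.of_algebraMap_eq fun _ => rfl
  exact k3_split hc hc' hU hU' Fr hFr h2 (fun y => (h3 _).2 y.2)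
    (fun g hg => h4 g fun y hy => hg ⟨y, hy⟩) a ha hq ht

theorem k3_ex {s : Ab} {C n : ℕ} {τ : s.G n} (Fr : Ideal s.O → s.G n)
    (φ : s.G n →* ℂˣ) (P : (Ideal s.O → ℂ) → ℂ → ℝ → ℝ → Prop)
    (hA : φ τ = -1 → ∃ (a : Ideal s.O → ℂ) (y : ℂ) (A B : ℝ), Mult s.k a ∧
      (∀ q : Ideal s.O, q.IsPrime → q ≠ ⊥ →
        ((C : s.O) ∈ q → a q = 0) ∧ ((C : s.O) ∉ q → a q = φ (Fr q))) ∧ P a y A B) :
    ∃ (a : Ideal s.O → ℂ) (y : ℂ) (A B : ℝ), Mult s.k a ∧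
      (∀ q : Ideal s.O, q.IsPrime → q ≠ ⊥ →
        ((C : s.O) ∈ q → a q = 0) ∧ ((C : s.O) ∉ q → a q = φ (Fr q))) ∧
      (φ τ = -1 → P a y A B) := by
  by_cases h : φ τ = -1
  · obtain ⟨a, y, A, B, h1, h2, h3⟩ := hA h
    exact ⟨a, y, A, B, h1, h2, fun _ => h3⟩
  · obtain ⟨a, h1, h2⟩ := exists_mult s.k (fun q => (φ (Fr q) : ℂ)) fun q => by
      refine (Complex.norm_eq_one_of_pow_eq_one (n := orderOf (Fr q)) ?_ (orderOf_pos _).ne').le
      rw [← Units.val_pow_eq_pow_val, ← map_pow, pow_orderOf_eq_one, map_one, Units.val_one]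
    refine ⟨_, 0, 0, 0, mult_oneC s.k h1 C, fun q hq h0 => ⟨fun h3 => ?_, fun h3 => ?_⟩,
      fun h3 => absurd h3 h⟩
    · rw [(oneC_prime s.k hq h0).1 h3, zero_mul]
    · rw [(oneC_prime s.k hq h0).2 h3, one_mul, h2 q hq h0]

theorem k3_fin {ι : Type} (S : Finset ι) (v : Valuation ℂ NNReal) {x x' : ℝ} {y Z : ι → ℂ}
    {A B : ι → ℝ} {a b c m : ℕ} (hm : S.card = m) (hlim : x ^ 2 = x' ^ 2 * ∏ i ∈ S, ‖y i‖ ^ 2)
    (h : ∀ i ∈ S, ‖y i‖ ^ 2 * A i = 4 * π ^ 2 * ‖Z i‖ ^ 2 * B i ∧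
      A i ≠ 0 ∧ v (A i) ≤ v 2 ^ a ∧ v 2 ^ b ≤ v (B i) ^ c) :
    ∃ A B : ℝ, A ≠ 0 ∧ v A ≤ v 2 ^ (a * m) ∧ v 2 ^ (b * m) ≤ v B ^ c ∧
      x ^ 2 * A = x' ^ 2 * (4 * π ^ 2) ^ m * (∏ i ∈ S, ‖Z i‖) ^ 2 * B := by
  subst hm
  refine ⟨∏ φ ∈ S, A φ, ∏ φ ∈ S, B φ,
    Finset.prod_ne_zero_iff.2 fun φ k => (h φ k).2.1, ?_, ?_, ?_⟩
  · rw [Complex.ofReal_prod, map_prod, pow_mul]
    exact Finset.prod_le_pow_card _ _ _ fun φ k => (h φ k).2.2.1
  · rw [Complex.ofReal_prod, map_prod, pow_mul, ← Finset.prod_pow]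
    exact Finset.pow_card_le_prod _ _ _ fun φ k => (h φ k).2.2.2
  · rw [hlim, mul_assoc, ← Finset.prod_mul_distrib,
      Finset.prod_congr rfl fun φ k => (h φ k).1, Finset.prod_mul_distrib,
      Finset.prod_mul_distrib, Finset.prod_const, Finset.prod_pow]
    ring

theorem Ab.res_rel {s : Ab} {C R n : ℕ} (hC : C ≠ 0) (hn : 2 ≤ n) (hU : ∀ j, Unr s.k (s.K j) C)
    {x : s.K n} (hA : s.Ana C R n x) {τ : s.G n} (hτ : s.IsTau n τ) : ∃ A B : ℝ, A ≠ 0 ∧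
      s.v A ≤ s.v 2 ^ (2 * n * (s.g * 2 ^ (n - 2))) ∧
      s.v 2 ^ (R * (s.g * 2 ^ (n - 2))) ≤ s.v B ^ 2 ^ n ∧
      (dedekindZeta_residue (s.K n) * EE (s.K n) C) ^ 2 * A =
        (dedekindZeta_residue (s.K (n - 1)) * EE (s.K (n - 1)) C) ^ 2 *
          (4 * π ^ 2) ^ (s.g * 2 ^ (n - 2)) *
          (∏ᶠ φ ∈ {φ : s.G n →* ℂˣ | φ τ = -1}, ‖s.Zs x φ‖) ^ 2 * B := by
  obtain ⟨Fr, hFr, hA⟩ := hA
  obtain ⟨t1, t2, _, t4⟩ := Ab.IsTau.spec hn hτ
  choose a y A B h1 h2 h3 using fun φ => k3_ex Fr φ _ (hA τ φ hτ)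
  obtain ⟨S, hS⟩ : ∃ S : Finset (s.G n →* ℂˣ), (S : Set (s.G n →* ℂˣ)) = {φ | φ τ = -1} :=
    ⟨(Set.toFinite _).toFinset, Set.Finite.coe_toFinset _⟩
  have hm : ∀ φ ∈ S, φ τ = -1 := fun φ h => by
    rw [← Finset.mem_coe, hS] at h
    exact h
  have hcard : S.card = s.g * 2 ^ (n - 2) := by
    rw [← k3_card hn t1 t2, ← hS, Set.ncard_coe_finset]
  have hlim := k3_lim S (zeta_res (s.K n) hC) (zeta_res (s.K (n - 1)) hC)
    (fun φ h => (h3 φ (hm φ h)).1) (fun t ht => by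
      rw [← finprod_mem_coe_finset, hS]
      exact k3_split' (k := s.k) (F := s.K n) (F' := s.K (n - 1)) (C := C)
        (s.K_mono (Nat.sub_le n 1)) Ab.comm_K Ab.comm_K (hU n) (hU (n - 1)) Fr hFr
        t2 hτ t4 a h1 h2 ht)
  rw [← hS, finprod_mem_coe_finset]
  exact k3_fin S s.v hcard hlim fun φ h => (h3 φ (hm φ h)).2

end Pool.Agent.P.MP_20768c_nt.Az.Cu

end

-- part Ab.K4b
section

set_option autoImplicit false

open Complex NumberField IsDedekindDomain Filter Topology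
open UpperHalfPlane hiding I
open scoped ComplexConjugate Real MatrixGroups

namespace Pool.Agent.P.MP_20768c_nt.Az.Cu

open Pool.Agent.P.MP_20768c_nt.Az.EQ (Lt pr sp IsLat jL qN)

theorem k4b_equiv (K : Type) [Field K] [NumberField K] (w : InfinitePlace K) :
    Nonempty ({v // v ≠ w} ≃ Fin (Units.rank K)) := by
  classical
  refine ⟨Fintype.equivOfCardEq ?_⟩
  rw [Fintype.card_subtype_compl, Fintype.card_subtype_eq, Fintype.card_fin, Units.rank]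

theorem k4b_reg {K ι : Type} [Field K] [NumberField K] [IsTotallyComplex K] [Fintype ι]
    [DecidableEq ι] (c : ι ≃ InfinitePlace K) (i₀ : ι) (U : ι → (𝓞 K)ˣ) :
    (Module.finrank ℚ K : ℝ) *
      ((Subgroup.closure (U '' {i | i ≠ i₀}) ⊔ Units.torsion K).index * Units.regulator K) =
      |(Matrix.of fun i j : ι => if i = i₀ then (2 : ℝ) else
        2 * Real.log (c j ((U i : 𝓞 K) : K))).det| := by
  classical
  obtain ⟨e⟩ := k4b_equiv K (c i₀)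
  have h1 := Units.regOfFamily_div_regulator fun k => U (c.symm (e.symm k).1)
  have h2 := Units.finrank_mul_regOfFamily_eq_det (fun k => U (c.symm (e.symm k).1)) (c i₀) e
  have h3 : (Set.range fun k => U (c.symm (e.symm k).1)) = U '' {i | i ≠ i₀} := by
    ext x
    constructor
    · rintro ⟨k, rfl⟩
      exact ⟨_, fun h => (e.symm k).2 (c.symm_apply_eq.1 h), rfl⟩
    · rintro ⟨i, hi, rfl⟩
      exact ⟨e ⟨c i, fun h => hi (c.injective h)⟩, by simp⟩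
  rw [h3, div_eq_iff (Units.regulator_ne_zero K)] at h1
  rw [← h1, h2, ← Matrix.det_submatrix_equiv_self c]
  congr 2
  ext i j
  simp [IsTotallyComplex.mult_eq]

theorem k4b_fund (K : Type) [Field K] [NumberField K] (w : InfinitePlace K) :
    ∃ U : InfinitePlace K → (𝓞 K)ˣ, Subgroup.closure (U '' {i | i ≠ w}) ⊔ Units.torsion K = ⊤ := by
  classical
  obtain ⟨e⟩ := k4b_equiv K w
  refine ⟨fun i => if h : i = w then 1 else Units.fundSystem K (e ⟨i, h⟩), top_le_iff.1 ?_⟩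
  rw [← Units.closure_fundSystem_sup_torsion_eq_top]
  refine sup_le_sup_right (Subgroup.closure_mono ?_) _
  rintro _ ⟨k, rfl⟩
  exact ⟨(e.symm k).1, (e.symm k).2, by simp [dif_neg (e.symm k).2]⟩

theorem k4b_det {ι : Type} [Fintype ι] [DecidableEq ι] (A C D : Matrix ι ι ℝ) :
    |(Matrix.fromBlocks A A C D).det| = |A.det| * |(C - D).det| := by
  have h : Matrix.fromBlocks A A C D =
      Matrix.fromBlocks A 0 C (C - D) * Matrix.fromBlocks 1 1 0 (-1) := by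
    simp [Matrix.fromBlocks_multiply]
  rw [h, Matrix.det_mul, Matrix.det_fromBlocks_zero₁₂, Matrix.det_fromBlocks_zero₂₁,
    Matrix.det_neg]
  simp [abs_mul]

namespace Ab

variable {s : Ab} {n : ℕ}

theorem k4b_card (s : Ab) (n : ℕ) : Nat.card (InfinitePlace (s.K n)) = Nat.card (s.G n) := by
  have h : ∀ n, 1 ≤ n → Nat.card (InfinitePlace (s.K n)) = Nat.card (s.G n) := fun n hn => by
    rw [Nat.card_eq_fintype_card, InfinitePlace.card_eq_nrRealPlaces_add_nrComplexPlaces,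
      (s.places_K hn).1, (s.places_K hn).2.1, s.card_G hn, zero_add]
  rcases n with _ | n
  · have e : s.K 0 = s.K 1 := le_antisymm (s.K_mono zero_le_one) (s.K_one ▸ s.N_le 0)
    change (fun F : IntermediateField s.k ℂ =>
      Nat.card (InfinitePlace F) = Nat.card (F ≃ₐ[s.k] F)) (s.K 0)
    rw [e]
    exact h 1 le_rfl
  · exact h _ (by omega)

theorem places (s : Ab) (n : ℕ) :
    ∃ e : s.G n ≃ InfinitePlace (s.K n), ∀ g (x : s.K n), e g x = ‖((g x : s.K n) : ℂ)‖ := by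
  let f : s.G n → InfinitePlace (s.K n) := fun g =>
    InfinitePlace.mk ((algebraMap (s.K n) ℂ).comp (g : s.K n →+* s.K n))
  have hf : Function.Injective f := fun g g' h => by
    rcases InfinitePlace.mk_eq_iff.1 h with h | h
    · exact AlgEquiv.ext fun x => Subtype.ext (RingHom.congr_fun h x)
    · have h1 : conj ((g (algebraMap s.k (s.K n) s.w) : s.K n) : ℂ) =
          ((g' (algebraMap s.k (s.K n) s.w) : s.K n) : ℂ) := RingHom.congr_fun h _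
      rw [g.commutes, g'.commutes] at h1
      exact absurd (Complex.conj_eq_iff_im.1 h1) s.w_im.ne'
  exact ⟨Equiv.ofBijective f (hf.bijective_of_nat_card_le (s.k4b_card n).le), fun _ _ => rfl⟩

theorem k4b_cc (hn : 2 ≤ n) {τ : s.G n} (hτ : s.IsTau n τ) (u : (𝓞 (s.K n))ˣ) {ι : Type}
    (i₀ : ι) (U : ι → (𝓞 (s.K (n - 1)))ˣ)
    (hU : Subgroup.closure (U '' {i | i ≠ i₀}) ⊔ Units.torsion (s.K (n - 1)) = ⊤)
    (up : (𝓞 (s.K (n - 1)))ˣ →* (𝓞 (s.K n))ˣ) (hup : ∀ ε, s.uc (up ε) = s.uc ε)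
    (h : ι → s.G n) (hs : ∀ g, ∃ i, g = h i ∨ g = h i * τ) (W : ι → (𝓞 (s.K n))ˣ)
    (hW : ∀ i, ((W i : 𝓞 (s.K n)) : s.K n) = h i ((u : 𝓞 (s.K n)) : s.K n)) :
    Subgroup.closure (Sum.elim (fun i => up (U i)) W '' {x | x ≠ Sum.inl i₀}) ⊔
      Units.torsion (s.K n) = s.CC u := by
  obtain ⟨ρ, hρ, hρ'⟩ := St.exists_res s.toSt (s.K n)
  refine le_antisymm (sup_le ((Subgroup.closure_le _).2 ?_) fun ε hε =>
    Subgroup.subset_closure (Or.inl hε)) ((Subgroup.closure_le _).2 ?_)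
  · rintro _ ⟨i | i, -, rfl⟩
    · exact Subgroup.subset_closure (Or.inr (Or.inl (hup (U i) ▸ uc_mem _)))
    · obtain ⟨σ, hσ⟩ := hρ (h i)
      refine Subgroup.subset_closure (Or.inr (Or.inr ⟨σ, ?_⟩))
      rw [uc, uc, Sum.elim_inr, hW, ← hσ, hρ']
  have h1 : ∀ ε, s.uc ε ∈ s.K (n - 1) → ε ∈ Subgroup.closure
      (Sum.elim (fun i => up (U i)) W '' {x | x ≠ Sum.inl i₀}) ⊔ Units.torsion (s.K n) := by
    intro ε hε
    obtain ⟨ε', hε'⟩ := unit_down ε hε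
    obtain rfl : up ε' = ε := uc_inj ((hup ε').trans hε')
    have h2 : ε' ∈ Subgroup.closure (U '' {i | i ≠ i₀}) ⊔ Units.torsion (s.K (n - 1)) :=
      hU ▸ Subgroup.mem_top _
    refine Subgroup.mem_comap.1 (sup_le ((Subgroup.closure_le _).2 ?_) (fun y hy => ?_) h2)
    · rintro _ ⟨i, hi, rfl⟩
      exact Subgroup.mem_sup_left (Subgroup.subset_closure
        ⟨Sum.inl i, fun e => hi (Sum.inl_injective e), rfl⟩)
    · exact Subgroup.mem_sup_right (up.isOfFinOrder hy)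
  rintro ε (hε | hε | ⟨σ, hε⟩)
  · exact Subgroup.mem_sup_right hε
  · exact h1 ε hε
  have h2 : ((ε : 𝓞 (s.K n)) : s.K n) = ρ σ ((u : 𝓞 (s.K n)) : s.K n) :=
    Subtype.ext (hε.trans (hρ' σ _).symm)
  obtain ⟨i, hi⟩ := hs (ρ σ)
  have h3 : W i ∈ Subgroup.closure (Sum.elim (fun i => up (U i)) W '' {x | x ≠ Sum.inl i₀}) ⊔
      Units.torsion (s.K n) :=
    Subgroup.mem_sup_left (Subgroup.subset_closure ⟨Sum.inr i, Sum.inr_ne_inl, rfl⟩)
  rcases hi with hi | hi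
  · obtain rfl : ε = W i := uc_inj (by rw [uc, uc, h2, hW, hi])
    exact h3
  · refine (Subgroup.mul_mem_cancel_right _ h3).1 (h1 _ ((hτ _).1 ?_))
    change τ (((ε : 𝓞 (s.K n)) : s.K n) * ((W i : 𝓞 (s.K n)) : s.K n)) =
      ((ε : 𝓞 (s.K n)) : s.K n) * ((W i : 𝓞 (s.K n)) : s.K n)
    rw [map_mul, h2, hW, hi, ← AlgEquiv.mul_apply, ← AlgEquiv.mul_apply,
      comm_K τ, comm_K τ, mul_assoc, (hτ.spec hn).2.1, mul_one, mul_comm]

theorem reg_index (hn : 2 ≤ n) {τ : s.G n} (hτ : s.IsTau n τ) (u : (𝓞 (s.K n))ˣ) :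
    2 * ((s.CC u).index : ℝ) * Units.regulator (s.K n) = Units.regulator (s.K (n - 1)) *
      ∏ᶠ φ ∈ {φ : s.G n →* ℂˣ | φ τ = -1}, ‖s.Zs ((u : 𝓞 (s.K n)) : s.K n) φ‖ := by
  classical
  have hle : s.K (n - 1) ≤ s.K n := s.K_mono (Nat.sub_le n 1)
  have t1 := nrRealPlaces_eq_zero_iff.1 (s.places_K (n := n) (by omega)).1
  have t2 := nrRealPlaces_eq_zero_iff.1 (s.places_K (n := n - 1) (by omega)).1
  obtain ⟨e, he⟩ := s.places n
  obtain ⟨e', he'⟩ := s.places (n - 1)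
  obtain ⟨ρ, hρ, hρ'⟩ := St.exists_res s.toSt (s.K n)
  obtain ⟨ρ₁, hρ₁, hρ₁'⟩ := St.exists_res s.toSt (s.K (n - 1))
  obtain ⟨σ, hσ⟩ : ∃ σ : InfinitePlace (s.K (n - 1)) → s.Au, ∀ i, ρ₁ (σ i) = e'.symm i :=
    ⟨fun i => (hρ₁ _).choose, fun i => (hρ₁ _).choose_spec⟩
  have hv : ∀ i (x : s.K (n - 1)), ‖((ρ (σ i) ⟨x, hle x.2⟩ : s.K n) : ℂ)‖ = i x := fun i x => by
    rw [hρ', ← hρ₁', hσ, ← he', e'.apply_symm_apply]
  have hfix : ∀ x : s.K (n - 1), τ ⟨x, hle x.2⟩ = ⟨x, hle x.2⟩ := fun x => (hτ _).2 x.2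
  have hi : ∀ i j, ρ (σ i) = ρ (σ j) → i = j := fun i j h =>
    DFunLike.ext _ _ fun x => by rw [← hv, ← hv, h]
  have hi' : ∀ i j, ρ (σ i) ≠ ρ (σ j) * τ := fun i j h => by
    obtain rfl : i = j := DFunLike.ext _ _ fun x => by
      rw [← hv, ← hv, h, AlgEquiv.mul_apply, hfix]
    exact (hτ.spec hn).1 (left_eq_mul.1 h)
  have hs : ∀ g, ∃ i, g = ρ (σ i) ∨ g = ρ (σ i) * τ := fun g => by
    obtain ⟨a, rfl⟩ := hρ g
    refine ⟨e' (ρ₁ a), ?_⟩
    have h1 := (hτ.spec hn).2.2.2 ((ρ (σ (e' (ρ₁ a))))⁻¹ * ρ a) fun y hy => by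
      rw [AlgEquiv.mul_apply, AlgEquiv.aut_inv, AlgEquiv.symm_apply_eq]
      refine Subtype.ext ?_
      rw [hρ', hρ', ← hρ₁' a ⟨y, hy⟩, ← hρ₁' _ ⟨y, hy⟩, hσ, e'.symm_apply_apply]
    rwa [inv_mul_eq_iff_eq_mul, inv_mul_eq_iff_eq_mul, mul_one] at h1
  have hb : Function.Bijective (Sum.elim (fun i => ρ (σ i)) fun i => ρ (σ i) * τ) := by
    refine ⟨?_, fun g => ?_⟩
    · rintro (i | i) (j | j) h
      · rw [hi i j h]
      · exact absurd h (hi' i j)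
      · exact absurd h.symm (hi' j i)
      · rw [hi i j (mul_right_cancel h)]
    · obtain ⟨i, h | h⟩ := hs g
      exacts [⟨Sum.inl i, h.symm⟩, ⟨Sum.inr i, h.symm⟩]
  obtain ⟨i₀⟩ : Nonempty (InfinitePlace (s.K (n - 1))) := inferInstance
  obtain ⟨U, hU⟩ := k4b_fund (s.K (n - 1)) i₀
  obtain ⟨up, hup⟩ : ∃ up : (𝓞 (s.K (n - 1)))ˣ →* (𝓞 (s.K n))ˣ, ∀ ε,
      ((up ε : 𝓞 (s.K n)) : s.K n) = ⟨_, hle ((ε : 𝓞 (s.K (n - 1))) : s.K (n - 1)).2⟩ :=
    ⟨Units.map (RingOfIntegers.mapRingHom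
      (IntermediateField.inclusion hle).toRingHom).toMonoidHom, fun _ => rfl⟩
  obtain ⟨W, hW⟩ : ∃ W : InfinitePlace (s.K (n - 1)) → (𝓞 (s.K n))ˣ, ∀ i,
      ((W i : 𝓞 (s.K n)) : s.K n) = ρ (σ i) ((u : 𝓞 (s.K n)) : s.K n) :=
    ⟨fun i => Units.map (RingOfIntegers.mapRingHom
      (ρ (σ i) : s.K n →+* s.K n)).toMonoidHom u, fun _ => rfl⟩
  have h1 := k4b_reg ((Equiv.ofBijective _ hb).trans e) (Sum.inl i₀)
    (Sum.elim (fun i => up (U i)) W)
  have h2 := k4b_reg (Equiv.refl _) i₀ U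
  rw [k4b_cc hn hτ u i₀ U hU up (fun ε => congrArg Subtype.val (hup ε)) _ hs W hW,
    s.finrank_K' (by omega)] at h1
  rw [hU, Subgroup.index_top, s.finrank_K' (by omega)] at h2
  let : CommGroup (s.G n) := { (inferInstance : Group (s.G n)) with mul_comm := comm_K }
  let l : s.G n → ℝ := fun g => Real.log (‖((g ((u : 𝓞 (s.K n)) : s.K n) : s.K n) : ℂ)‖ ^ 2)
  have h3 := ded_det (hτ.spec hn).2.1 (fun i => ρ (σ i)) hs hi hi' l
  have h4 := k4b_det (Matrix.of fun i j => if i = i₀ then (2 : ℝ) else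
      2 * Real.log ((Equiv.refl (InfinitePlace (s.K (n - 1)))) j
          ((U i : 𝓞 (s.K (n - 1))) : s.K (n - 1))))
    (Matrix.of fun i j => l (ρ (σ i) * ρ (σ j))) (Matrix.of fun i j => l (ρ (σ i) * ρ (σ j) * τ))
  have h5 : ∀ g i, 2 * Real.log (e g ((W i : 𝓞 (s.K n)) : s.K n)) = l (ρ (σ i) * g) := by
    intro g i
    rw [he, hW, ← AlgEquiv.mul_apply, comm_K g]
    simp only [l, Real.log_pow, Nat.cast_ofNat]
  have h6 : (Matrix.of fun i j => if i = Sum.inl i₀ then (2 : ℝ) else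
      2 * Real.log (((Equiv.ofBijective _ hb).trans e) j
        (((Sum.elim (fun i => up (U i)) W i : (𝓞 (s.K n))ˣ) : 𝓞 (s.K n)) : s.K n))) =
      Matrix.fromBlocks (Matrix.of fun i j => if i = i₀ then (2 : ℝ) else
        2 * Real.log ((Equiv.refl (InfinitePlace (s.K (n - 1)))) j
          ((U i : 𝓞 (s.K (n - 1))) : s.K (n - 1))))
      (Matrix.of fun i j => if i = i₀ then (2 : ℝ) else
        2 * Real.log ((Equiv.refl (InfinitePlace (s.K (n - 1)))) j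
          ((U i : 𝓞 (s.K (n - 1))) : s.K (n - 1))))
      (Matrix.of fun i j => l (ρ (σ i) * ρ (σ j)))
      (Matrix.of fun i j => l (ρ (σ i) * ρ (σ j) * τ)) := by
    ext (i | i) (j | j)
    · simp only [Matrix.of_apply, Matrix.fromBlocks_apply₁₁, Sum.inl.injEq, Equiv.trans_apply,
        Equiv.ofBijective_apply, Sum.elim_inl, Equiv.refl_apply, he, hup, hv]
    · simp only [Matrix.of_apply, Matrix.fromBlocks_apply₁₂, Sum.inl.injEq, Equiv.trans_apply,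
        Equiv.ofBijective_apply, Sum.elim_inl, Sum.elim_inr, Equiv.refl_apply, he, hup,
        AlgEquiv.mul_apply, hfix, hv]
    · simp only [Matrix.of_apply, Matrix.fromBlocks_apply₂₁, Equiv.trans_apply,
        Equiv.ofBijective_apply, Sum.elim_inl, Sum.elim_inr, if_neg Sum.inr_ne_inl, h5]
    · simp only [Matrix.of_apply, Matrix.fromBlocks_apply₂₂, Equiv.trans_apply,
        Equiv.ofBijective_apply, Sum.elim_inr, if_neg Sum.inr_ne_inl, h5, mul_assoc]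
  rw [h6, h4, ← h2] at h1
  have h7 : |(Matrix.of (fun i j => l (ρ (σ i) * ρ (σ j))) -
      Matrix.of fun i j => l (ρ (σ i) * ρ (σ j) * τ)).det| =
      ∏ᶠ φ ∈ {φ : s.G n →* ℂˣ | φ τ = -1}, ‖s.Zs ((u : 𝓞 (s.K n)) : s.K n) φ‖ := h3
  rw [h7] at h1
  obtain ⟨m, rfl⟩ : ∃ m, n = m + 2 := ⟨n - 2, by omega⟩
  have := s.g_pos
  refine mul_left_cancel₀ (show (2 * s.g * 2 ^ m : ℝ) ≠ 0 by positivity) ?_
  simp only [show m + 2 - 1 = m + 1 from rfl, show m + 1 - 1 = m from rfl] at h1 ⊢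
  push_cast at h1
  linear_combination h1

end Ab

end Pool.Agent.P.MP_20768c_nt.Az.Cu

end

-- part Ab.K5
section

set_option autoImplicit false

open Complex NumberField IsDedekindDomain Filter Topology
open UpperHalfPlane hiding I
open scoped ComplexConjugate Real MatrixGroups

namespace Pool.Agent.P.MP_20768c_nt.Az.Cu

open Pool.Agent.P.MP_20768c_nt.Az.EQ (Lt pr sp IsLat jL qN)

open Polynomial in
theorem k5_step {K L : Type} [Field K] [NumberField K] [Field L] [NumberField L] [Algebra K L]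
    (z : L) (b : K) {m : ℕ} (hm : m ≠ 0) (hz : z ^ m = 1) (hb : b ^ m = 1)
    (hzb : z ^ 2 = algebraMap K L b)
    (h2 : Module.finrank K L = 2) (hn : ∀ y : K, algebraMap K L y ≠ z) :
    padicValInt 2 (discr L) ≤ 2 * padicValInt 2 (discr K) + Module.finrank ℚ L := by
  obtain ⟨ζ, rfl⟩ : ∃ ζ : 𝓞 L, algebraMap (𝓞 L) L ζ = z :=
    ⟨⟨z, IsIntegral.of_pow (Nat.pos_of_ne_zero hm) (by rw [hz]; exact isIntegral_one)⟩, rfl⟩
  obtain ⟨a, rfl⟩ : ∃ a : 𝓞 K, algebraMap (𝓞 K) K a = b :=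
    ⟨⟨b, IsIntegral.of_pow (Nat.pos_of_ne_zero hm) (by rw [hb]; exact isIntegral_one)⟩, rfl⟩
  have hu : IsUnit ζ := IsUnit.of_pow_eq_one (n := m)
    (RingOfIntegers.coe_injective (by rw [map_pow, map_one, hz])) hm
  have hζ : ζ ^ 2 = algebraMap (𝓞 K) (𝓞 L) a := RingOfIntegers.coe_injective (by
    rw [map_pow, hzb, ← IsScalarTower.algebraMap_apply, ← IsScalarTower.algebraMap_apply])
  have hadj : Algebra.adjoin K {algebraMap (𝓞 L) L ζ} = ⊤ := by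
    refine ((Subalgebra.isSimpleOrder_of_finrank h2).eq_bot_or_eq_top _).resolve_left fun h => ?_
    obtain ⟨y, hy⟩ := Algebra.mem_bot.1 (h ▸ Algebra.self_mem_adjoin_singleton K _)
    exact hn y hy
  have h1 := aeval_derivative_mem_differentIdeal (𝓞 K) K L ζ hadj
  have hi : IsIntegral (𝓞 K) ζ := Algebra.IsIntegral.isIntegral _
  obtain ⟨q, hq⟩ := minpoly.isIntegrallyClosed_dvd hi (p := X ^ 2 - C a) (by simp [hζ])
  have h3 : (2 : 𝓞 L) * ζ ∈ differentIdeal (𝓞 K) (𝓞 L) := by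
    have e := congrArg (fun p => aeval ζ (derivative p)) hq
    simp only [derivative_mul, map_add, map_mul, minpoly.aeval, zero_mul, add_zero] at e
    have e2 : aeval ζ (derivative (X ^ 2 - C a : (𝓞 K)[X])) = 2 * ζ := by
      simp [two_mul, add_mul]
    rw [← e2, e]
    exact Ideal.mul_mem_right _ _ h1
  have h4 : ((2 : ℕ) : 𝓞 L) ∈ differentIdeal (𝓞 K) (𝓞 L) := by
    simpa using (Ideal.mul_unit_mem_iff_mem _ hu).1 h3
  have h5 := Ideal.absNorm_dvd_absNorm_of_le ((Ideal.span_singleton_le_iff_mem _).2 h4)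
  rw [Ideal.absNorm_span_natCast, RingOfIntegers.rank] at h5
  obtain ⟨j, hj, h6⟩ := (Nat.dvd_prime_pow Nat.prime_two).1 h5
  have h7 := natAbs_discr_eq_absNorm_differentIdeal_mul_natAbs_discr_pow K (𝓞 K) L (𝓞 L)
  have h8 : (discr K).natAbs ≠ 0 := Int.natAbs_ne_zero.2 (discr_ne_zero K)
  rw [padicValInt, padicValInt, h7, h6, h2, padicValNat.mul (by positivity) (pow_ne_zero _ h8),
    padicValNat.prime_pow, padicValNat.pow]
  omega

theorem k5_gen {k : Type} [Field k] [Algebra k ℂ] (F F' : IntermediateField k ℂ) [NumberField F]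
    [NumberField F'] (hle : F ≤ F') {z : ℂ} (hz : z ∈ F') (hn : z ∉ F) (hb : z ^ 2 ∈ F) {m : ℕ}
    (hm : m ≠ 0) (h1 : z ^ m = 1) (hr : Module.finrank ℚ F' = Module.finrank ℚ F * 2) :
    padicValInt 2 (discr F') ≤ 2 * padicValInt 2 (discr F) + Module.finrank ℚ F' := by
  let _ : Algebra F F' := (IntermediateField.inclusion hle).toRingHom.toAlgebra
  have h2 : Module.finrank F F' = 2 :=
    Nat.eq_of_mul_eq_mul_left Module.finrank_pos ((Module.finrank_mul_finrank ℚ F F').trans hr)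
  refine k5_step (⟨z, hz⟩ : F') (⟨z ^ 2, hb⟩ : F) hm (Subtype.ext h1) (Subtype.ext ?_) rfl h2
    fun y hy => hn ?_
  · change (z ^ 2) ^ m = 1
    rw [← pow_mul, mul_comm, pow_mul, h1, one_pow]
  · have e : (y : ℂ) = z := congrArg Subtype.val hy
    exact e ▸ y.2

theorem k5_unram {K : Type} [Field K] [NumberField K] (P : Ideal (𝓞 K)) [P.IsPrime]
    (h : (2 : 𝓞 K) ∈ P) (h2 : (2 : 𝓞 K) ∉ P ^ 2) : Algebra.IsUnramifiedAt ℤ P := by
  have hp : Prime (2 : ℤ) := Int.prime_two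
  have : P.LiesOver (Ideal.span {(2 : ℤ)}) :=
    (Ideal.liesOver_span_iff (Ideal.IsPrime.ne_top inferInstance) hp).2 (by simpa using h)
  have h0 : Ideal.span {(2 : ℤ)} ≠ ⊥ := by simp
  have hb : P ≠ ⊥ := Ideal.ne_bot_of_liesOver_of_ne_bot h0 P
  have hu : P.under ℤ ≠ ⊥ := Ideal.under_ne_bot ℤ hb
  have : Finite (P.under ℤ).ResidueField := by
    have := Ideal.finiteQuotientOfFreeOfNeBot _ hu
    infer_instance
  rw [← Ideal.ramificationIdx_eq_one_iff,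
    ← Ideal.ramificationIdx'_eq_ramificationIdx (Ideal.span {(2 : ℤ)}) P h0, ← not_ne_iff,
    Ideal.ramificationIdx'_ne_one_iff (by simpa [Ideal.map_span] using h)]
  simpa [Ideal.map_span] using h2

namespace Ab

variable (s : Ab) {n : ℕ}

theorem disc_N : ¬ (2 : ℤ) ∣ discr s.N := by
  rw [not_dvd_discr_iff_forall_mem s.N (𝓞 s.N) Int.prime_two]
  intro P hP h
  have h' : (2 : 𝓞 s.N) ∈ P := by simpa using h
  refine k5_unram P h' fun h2 => ?_
  have hb : P ≠ ⊥ := by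
    rintro rfl
    exact two_ne_zero (Ideal.mem_bot.1 h')
  let Q : HeightOneSpectrum (𝓞 s.N) := ⟨P, hP, hb⟩
  obtain ⟨V, hV⟩ := s.toSt.exists_val s.N P hP hb
  have e2 : (((2 : 𝓞 s.N) : s.N) : ℂ) = 2 := by
    rw [show ((2 : 𝓞 s.N) : s.N) = 2 from map_ofNat (algebraMap (𝓞 s.N) s.N) 2]
    exact map_ofNat (algebraMap s.N ℂ) 2
  have v2 : V.valuation 2 < 1 := by rw [← e2]; exact (hV 2).2 h'
  obtain ⟨ϖ, hϖ⟩ := Q.intValuation_exists_uniformizer
  have vϖ : V.valuation ((ϖ : s.N) : ℂ) < 1 := (hV ϖ).2 (by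
    refine (Q.intValuation_lt_one_iff_mem ϖ).1 ?_
    rw [hϖ, ← WithZero.exp_zero, WithZero.exp_lt_exp]; norm_num)
  have h0 : ϖ ≠ 0 := by
    rintro rfl
    rw [map_zero] at hϖ
    exact WithZero.exp_ne_zero hϖ.symm
  obtain ⟨y, hy, e⟩ := s.toSt.val_fixed ⊥ V.valuation (s.toSt.alg_of_mem s.N (ϖ : s.N).2)
    fun σ hσ _ => inert_fix_N v2 hσ (ϖ : s.N).2
  have hy0 : y ≠ 0 := by
    rintro rfl
    rw [map_zero, map_eq_zero] at e
    exact h0 (by simpa using e)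
  obtain ⟨z, rfl⟩ := IntermediateField.mem_bot.1 hy
  obtain ⟨j, hj⟩ := s.toSt.v_k_val V.valuation v2 z.2 hy0
  have e3 : V.valuation ((ϖ : s.N) : ℂ) = V.valuation 2 ^ j := e.trans hj
  have p2 : 0 < V.valuation 2 := (Valuation.pos_iff _).2 two_ne_zero
  have hj1 : 1 ≤ j := by
    rw [e3] at vϖ
    exact (zpow_lt_one_iff_right_of_lt_one₀ p2 v2).1 vϖ
  have h3 : V.valuation ((ϖ : s.N) : ℂ) ≤ V.valuation (((2 : 𝓞 s.N) : s.N) : ℂ) := by
    rw [e3, e2]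
    simpa using zpow_le_zpow_right_of_le_one₀ p2 v2.le hj1
  have h4 := (s.toSt.val_equiv s.N V.valuation Q hV _ _).1 h3
  have h5 := (Q.intValuation_le_pow_iff_mem 2 2).2 h2
  erw [Q.valuation_of_algebraMap, Q.valuation_of_algebraMap] at h4
  have h6 := h4.trans h5
  rw [hϖ, WithZero.exp_le_exp] at h6
  norm_num at h6

theorem disc_step (hn : 1 ≤ n) :
    padicValInt 2 (discr (s.K (n + 1))) ≤ 2 * padicValInt 2 (discr (s.K n)) + 2 * s.g * 2 ^ n := by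
  have h := k5_gen (s.K n) (s.K (n + 1)) (s.K_mono (Nat.le_succ n)) (s.zt_mem (n + 1))
    (s.zt_not_mem hn) (by rw [zt_sq]; exact s.zt_mem n) (m := 2 ^ (n + 1)) (by positivity)
    (zt_pow _) (by
      rw [s.finrank_K' hn, s.finrank_K' (Nat.le_add_left 1 n), Nat.add_sub_cancel]
      obtain ⟨m, rfl⟩ : ∃ m, n = m + 1 := ⟨n - 1, by omega⟩
      rw [Nat.add_sub_cancel, pow_succ, ← mul_assoc])
  rwa [s.finrank_K' (Nat.le_add_left 1 n), Nat.add_sub_cancel] at h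

theorem k5_bound (m : ℕ) : padicValInt 2 (discr (s.K (m + 1))) ≤ 2 * s.g * m * 2 ^ m := by
  induction m with
  | zero =>
    have h : ¬ (2 : ℤ) ∣ discr (s.K 1) := by
      rw [discr_eq_discr_of_ringEquiv _ (IntermediateField.equivOfEq s.K_one).toRingEquiv]
      exact s.disc_N
    exact (padicValInt.eq_zero_of_not_dvd h).le.trans (Nat.zero_le _)
  | succ m ih =>
    refine (s.disc_step (Nat.le_add_left 1 m)).trans ?_
    calc _ ≤ 2 * (2 * s.g * m * 2 ^ m) + 2 * s.g * 2 ^ (m + 1) := by omega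
      _ = _ := by ring

theorem disc_val (hn : 2 ≤ n) : padicValInt 2 (discr (s.K n)) ≤
    padicValInt 2 (discr (s.K (n - 1))) + 2 * n * (s.g * 2 ^ (n - 2)) := by
  obtain ⟨m, rfl⟩ : ∃ m, n = m + 2 := ⟨n - 2, by omega⟩
  have h1 := s.disc_step (n := m + 1) (Nat.le_add_left 1 m)
  have h2 := s.k5_bound m
  have e : 2 * (m + 2) * (s.g * 2 ^ m) = 2 * s.g * m * 2 ^ m + 2 * s.g * 2 ^ (m + 1) := by ring
  change padicValInt 2 (discr (s.K (m + 1 + 1))) ≤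
    padicValInt 2 (discr (s.K (m + 1))) + 2 * (m + 2) * (s.g * 2 ^ m)
  omega

end Ab

end Pool.Agent.P.MP_20768c_nt.Az.Cu

end

-- part Ab.K7_p
section

set_option autoImplicit false

open Complex NumberField IsDedekindDomain Filter Topology
open UpperHalfPlane hiding I
open scoped ComplexConjugate Real MatrixGroups

namespace Pool.Agent.P.MP_20768c_nt.Az.Cu

open Pool.Agent.P.MP_20768c_nt.Az.EQ (Lt pr sp IsLat jL qN)

theorem k7_p_sq (F : Type) [Field F] [NumberField F] : ∃ P : Subgroup (𝓞 F)ˣ,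
    P.index = 2 ^ Units.rank F ∧ ∀ ε, ε ∈ P ↔ ∃ η ζ, IsOfFinOrder ζ ∧ ε = η ^ 2 * ζ := by
  refine ⟨((powMonoidHom (α := (𝓞 F)ˣ ⧸ Units.torsion F) 2).range).comap
    (QuotientGroup.mk' (Units.torsion F)), ?_, fun ε => ?_⟩
  · rw [Subgroup.index_comap_of_surjective _ (QuotientGroup.mk'_surjective _),
      ← Units.finrank_modTorsion, ← Subgroup.index_toAddSubgroup]
    exact (congrArg AddSubgroup.index (by ext x; exact Iff.rfl)).trans
      (AddSubgroup.index_range_nsmul (Additive ((𝓞 F)ˣ ⧸ Units.torsion F)) 2)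
  · constructor
    · rintro ⟨q, hq⟩
      obtain ⟨η, rfl⟩ := QuotientGroup.mk'_surjective (Units.torsion F) q
      refine ⟨η, (η ^ 2)⁻¹ * ε, ?_, by rw [mul_inv_cancel_left]⟩
      rw [powMonoidHom_apply, ← map_pow] at hq
      exact QuotientGroup.eq.1 hq
    · rintro ⟨η, ζ, hζ, rfl⟩
      refine ⟨QuotientGroup.mk' _ η, ?_⟩
      rw [powMonoidHom_apply, ← map_pow]
      exact QuotientGroup.eq.2 (by rw [inv_mul_cancel_left]; exact hζ)

namespace Ab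

variable {s : Ab} {n : ℕ} {sb : (ZMod (2 ^ n))ˣ → s.Au}

theorem k7_p_one : s.uc (1 : (𝓞 (s.K n))ˣ) = 1 := rfl

theorem k7_p_pow (ε : (𝓞 (s.K n))ˣ) (j : ℕ) : s.uc (ε ^ j) = s.uc ε ^ j := by
  induction j with
  | zero => rw [pow_zero, pow_zero, k7_p_one]
  | succ j ih => rw [pow_succ, pow_succ, uc_mul, ih]

theorem k7_p_ne (ε : (𝓞 (s.K n))ˣ) : s.uc ε ≠ 0 :=
  left_ne_zero_of_mul_eq_one (b := s.uc ε⁻¹) (by rw [← uc_mul, mul_inv_cancel, k7_p_one])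

theorem k7_p_fin {ε : (𝓞 (s.K n))ˣ} {j : ℕ} (hj : 0 < j) (h : s.uc ε ^ j = 1) : IsOfFinOrder ε :=
  isOfFinOrder_iff_pow_eq_one.2 ⟨j, hj, uc_inj (by rw [k7_p_pow, h, k7_p_one])⟩

theorem k7_p_up (s : Ab) {n' : ℕ} (h : n' ≤ n) :
    ∃ ι : (𝓞 (s.K n'))ˣ →* (𝓞 (s.K n))ˣ, ∀ ε, s.uc (ι ε) = s.uc ε := by
  choose f hf using fun ε : (𝓞 (s.K n'))ˣ => unit_down ε (s.K_mono h (uc_mem ε))
  exact ⟨MonoidHom.mk' f fun a b => uc_inj (by rw [uc_mul, hf, hf, hf, uc_mul]), hf⟩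

theorem k7_p_zt (s : Ab) (n : ℕ) : ∃ Z : (𝓞 (s.K n))ˣ, s.uc Z = zt n := by
  have h : IsIntegral ℤ (⟨zt n, s.zt_mem n⟩ : s.K n) :=
    IsIntegral.of_pow (n := 2 ^ n) (by positivity)
      (by rw [show (⟨zt n, s.zt_mem n⟩ : s.K n) ^ 2 ^ n = 1 from Subtype.ext (zt_pow n)]
          exact isIntegral_one)
  exact ⟨Units.ofPowEqOne (⟨_, h⟩ : 𝓞 (s.K n)) (2 ^ n)
    (Subtype.ext (Subtype.ext (zt_pow n))) (by positivity), rfl⟩

theorem k7_p_fix {γ : s.Au} (h : s.IsGam γ) (j : ℕ) : ∀ x ∈ s.N, (γ ^ j) x = x := by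
  intro x hx
  induction j with
  | zero => rfl
  | succ j ih => rw [pow_succ, AlgEquiv.mul_apply, h.1 x hx, ih]

theorem k7_p_two {σ : s.Au} (h : ∀ x ∈ s.N, σ x = x) (h' : σ (zt n) = -zt n) {x : ℂ}
    (hx : x ∈ s.K n) : σ (σ x) = x :=
  (fix_K (σ := σ * σ)).2 ⟨fun y hy => by rw [AlgEquiv.mul_apply, h y hy, h y hy],
    by rw [AlgEquiv.mul_apply, h', map_neg, h', neg_neg]⟩ x hx

theorem k7_p_key (hn : 3 ≤ n) (ε : (𝓞 (s.K (n - 1)))ˣ) (η : (𝓞 (s.K n))ˣ) {b : ℕ}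
    (e : s.uc ε = s.uc η ^ 2 * zt n ^ b) : ∃ η' ζ, IsOfFinOrder ζ ∧ ε = η' ^ 2 * ζ := by
  obtain ⟨γ, hγ⟩ := s.exists_gam
  have h1 := k7_p_fix hγ (2 ^ (n - 3))
  have h2 := gam_tau hγ hn
  generalize γ ^ 2 ^ (n - 3) = σ at h1 h2
  have ht : ∀ {x : ℂ}, x ∈ s.K n → (σ x = x ↔ x ∈ s.K (n - 1)) := fun hx =>
    K_tau (by omega) h1 h2 hx
  have hz := zt_ne n
  have fin : ∀ (η₁ : (𝓞 (s.K n))ˣ) (c : ℂ), σ (s.uc η₁) = s.uc η₁ → c ^ 2 ^ n = 1 →
      s.uc ε = s.uc η₁ ^ 2 * c → ∃ η' ζ, IsOfFinOrder ζ ∧ ε = η' ^ 2 * ζ := by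
    intro η₁ c a1 a2 a3
    obtain ⟨η', a4⟩ := unit_down η₁ ((ht (uc_mem η₁)).1 a1)
    refine ⟨η', (η' ^ 2)⁻¹ * ε, k7_p_fin (j := 2 ^ n) (by positivity) ?_,
      by rw [mul_inv_cancel_left]⟩
    have a5 : s.uc η₁ ^ 2 * s.uc ((η' ^ 2)⁻¹ * ε) = s.uc η₁ ^ 2 * c := by
      rw [← a3, ← a4, ← k7_p_pow, ← uc_mul, mul_inv_cancel_left]
    rw [mul_left_cancel₀ (pow_ne_zero 2 (k7_p_ne η₁)) a5, a2]
  have hb : (zt n ^ b) ^ 2 ^ n = 1 := by rw [pow_right_comm, zt_pow, one_pow]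
  have e1 : σ (s.uc ε) = s.uc ε := (ht (s.K_mono (by omega) (uc_mem ε))).2 (uc_mem ε)
  rw [e, map_mul, map_pow, map_pow, h2, neg_pow (zt n), ← mul_assoc] at e1
  have e2 := mul_right_cancel₀ (pow_ne_zero b hz) e1
  have hy := k7_p_ne η
  rcases Nat.even_or_odd b with hb' | hb'
  · rw [hb'.neg_one_pow, mul_one] at e2
    rcases sq_eq_sq_iff_eq_or_eq_neg.1 e2 with e3 | e3
    · exact fin η _ e3 hb e
    · obtain ⟨Z, hZ⟩ := k7_p_zt s n
      refine fin (η * Z) (zt n ^ b / zt n ^ 2) ?_ ?_ ?_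
      · rw [uc_mul, hZ, map_mul, e3, h2, neg_mul_neg]
      · rw [div_pow, hb, pow_right_comm, zt_pow, one_pow, div_one]
      · rw [e, uc_mul, hZ]
        field_simp
  · exfalso
    rw [hb'.neg_one_pow] at e2
    have e3 : (σ (s.uc η) / s.uc η) ^ 2 = -1 := by
      rw [div_pow, div_eq_iff (pow_ne_zero 2 hy)]
      linear_combination -e2
    obtain ⟨a, ha⟩ := root_zt (n := 2) (x := σ (s.uc η) / s.uc η)
      (by rw [show 2 ^ 2 = 2 * 2 from rfl, pow_mul, e3]; norm_num)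
    have m1 : σ (s.uc η) / s.uc η ∈ s.K 2 := ha ▸ pow_mem (s.zt_mem 2) a
    have e4 := (ht (s.K_mono (by omega) m1)).2 (s.K_mono (by omega) m1)
    rw [map_div₀, k7_p_two h1 h2 (uc_mem η),
      div_eq_div_iff ((map_ne_zero σ).2 hy) hy] at e4
    apply pow_ne_zero 2 hy
    linear_combination (1 / 2 : ℂ) * e4 - (1 / 2 : ℂ) * e2

theorem ZZ_index (s : Ab) (hn : 3 ≤ n) :
    (s.ZZ n).index ≠ 0 ∧ (s.ZZ n).index ≤ 2 ^ (s.g * 2 ^ (n - 2) + 1) := by
  obtain ⟨P, hP, mP⟩ := k7_p_sq (s.K n)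
  obtain ⟨P', hP', mP'⟩ := k7_p_sq (s.K (n - 1))
  obtain ⟨ι, hι⟩ := k7_p_up s (Nat.sub_le n 1)
  have l1 : P ⊔ ι.range ≤ s.ZZ n := by
    refine sup_le (fun ε hε => ?_) ?_
    · obtain ⟨η, ζ, hζ, rfl⟩ := (mP ε).1 hε
      exact mul_mem (Subgroup.subset_closure (Or.inl ⟨η, sq η⟩))
        (Subgroup.subset_closure (Or.inr (Or.inl hζ)))
    · rintro _ ⟨ε, rfl⟩
      exact Subgroup.subset_closure (Or.inr (Or.inr (by rw [hι]; exact uc_mem ε)))
  have l2 : P.comap ι ≤ P' := by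
    intro ε hε
    obtain ⟨η, ζ, hζ, e⟩ := (mP _).1 hε
    obtain ⟨j, m, hm, ho⟩ := Nat.exists_eq_two_pow_mul_odd hζ.orderOf_pos.ne'
    obtain ⟨b, hb⟩ := tors_K (by omega) (uc_mem (ζ ^ m)) (j := j) (by
      rw [← k7_p_pow, ← pow_mul, mul_comm, ← ho, pow_orderOf_eq_one, k7_p_one])
    obtain ⟨η', ζ', a1, a2⟩ := k7_p_key hn (ε ^ m) (η ^ m) (b := b) (by
      rw [← hι, map_pow, e, mul_pow, uc_mul, hb, pow_right_comm, k7_p_pow])
    obtain ⟨c, rfl⟩ := hm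
    refine (mP' ε).2 ⟨η' / ε ^ c, ζ', a1, ?_⟩
    rw [div_pow, div_mul_eq_mul_div, ← a2, ← pow_mul, mul_comm c, pow_succ, mul_div_cancel_left]
  have e1 : (P.comap ι).index * (P ⊔ ι.range).index = 2 ^ Units.rank (s.K n) := by
    rw [Subgroup.index_comap, ← Subgroup.relIndex_sup_left, Subgroup.relIndex_mul_index le_sup_left,
      hP]
  have p1 := mul_ne_zero_iff.1 (e1 ▸ pow_ne_zero _ two_ne_zero)
  have d1 := Subgroup.index_dvd_of_le l1
  refine ⟨ne_zero_of_dvd_ne_zero p1.2 d1, (Nat.le_of_dvd (Nat.pos_of_ne_zero p1.2) d1).trans ?_⟩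
  have d2 := Nat.le_of_dvd (Nat.pos_of_ne_zero p1.1) (Subgroup.index_dvd_of_le l2)
  have r1 := (s.places_K (n := n) (by omega)).2.2
  have r2 := (s.places_K (n := n - 1) (by omega)).2.2
  rw [show n - 1 = n - 2 + 1 by omega, pow_succ, ← mul_assoc] at r1
  rw [show n - 1 - 1 = n - 2 by omega] at r2
  refine Nat.le_of_mul_le_mul_left (c := 2 ^ Units.rank (s.K (n - 1))) ?_ (by positivity)
  calc _ ≤ (P.comap ι).index * (P ⊔ ι.range).index := Nat.mul_le_mul_right _ (hP' ▸ d2)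
    _ ≤ _ := by
      rw [e1, ← pow_add]
      exact Nat.pow_le_pow_right two_pos (by omega)

theorem CC_val (hn : 3 ≤ n) (u : (𝓞 (s.K n))ˣ) (h0 : (s.CC u).index ≠ 0) {l : ℕ}
    (hl : l < 2 ^ (n - 3)) (hi : (s.CC u ⊔ s.ZZ n).index ≤ 2 ^ l) :
    padicValNat 2 (s.CC u).index ≤ l := by
  obtain ⟨γ, hγ⟩ := s.exists_gam
  obtain ⟨e, he⟩ := unit_aut γ n
  have l1 : s.CC u ≤ (s.CC u).comap e := by
    refine (Subgroup.closure_le _).2 ?_
    rintro ε (h | h | ⟨σ, h⟩)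
    · exact Subgroup.subset_closure (Or.inl (e.isOfFinOrder h))
    · exact Subgroup.subset_closure (Or.inr (Or.inl (by rw [he]; exact K_aut γ h)))
    · exact Subgroup.subset_closure (Or.inr (Or.inr ⟨γ * σ, by rw [he, h, AlgEquiv.mul_apply]⟩))
  have it : ∀ (j : ℕ) (ε : (𝓞 (s.K n))ˣ), s.uc (e^[j] ε) = (γ ^ j) (s.uc ε) ∧
      (QuotientGroup.map _ _ e l1)^[j] (QuotientGroup.mk ε) = QuotientGroup.mk (e^[j] ε) := by
    intro j ε
    induction j with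
    | zero => exact ⟨rfl, rfl⟩
    | succ j ih =>
      rw [Function.iterate_succ_apply', Function.iterate_succ_apply', ih.2, he, ih.1, pow_succ']
      exact ⟨rfl, rfl⟩
  have : Finite ((𝓞 (s.K n))ˣ ⧸ s.CC u) := Nat.finite_of_card_ne_zero h0
  refine two_four (QuotientGroup.map _ _ e l1) (j := n - 3) (fun x => ?_) hl ?_
  · obtain ⟨ε, rfl⟩ := QuotientGroup.mk_surjective x
    rw [(it _ ε).2, eq_inv_iff_mul_eq_one, ← QuotientGroup.mk_mul, QuotientGroup.eq_one_iff]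
    refine Subgroup.subset_closure (Or.inr (Or.inl ?_))
    have h1 := k7_p_fix hγ (2 ^ (n - 3))
    have h2 := gam_tau hγ hn
    refine (K_tau (by omega) h1 h2 (uc_mem _)).1 ?_
    rw [uc_mul, (it _ ε).1, map_mul, k7_p_two h1 h2 (uc_mem ε), mul_comm]
  · rw [← Subgroup.index_comap_of_surjective _ (QuotientGroup.mk'_surjective (s.CC u))]
    have c1 : ∀ ε ∈ s.CC u, ε ∈ ((powMonoidHom (α := (𝓞 (s.K n))ˣ ⧸ s.CC u) 2).range).comap
        (QuotientGroup.mk' (s.CC u)) := fun ε hε =>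
      ⟨1, by rw [map_one]; exact ((QuotientGroup.eq_one_iff ε).2 hε).symm⟩
    refine le_trans (Nat.le_of_dvd (Nat.pos_of_ne_zero (ne_zero_of_dvd_ne_zero h0
      (Subgroup.index_dvd_of_le le_sup_left))) (Subgroup.index_dvd_of_le (sup_le c1 ?_))) hi
    refine (Subgroup.closure_le _).2 ?_
    rintro ε (⟨η, rfl⟩ | h | h)
    · exact ⟨QuotientGroup.mk η, by rw [powMonoidHom_apply, sq]; rfl⟩
    · exact c1 ε (Subgroup.subset_closure (Or.inl h))
    · exact c1 ε (Subgroup.subset_closure (Or.inr (Or.inl h)))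

end Ab

end Pool.Agent.P.MP_20768c_nt.Az.Cu

end

-- part Ab.K8_p
section

set_option autoImplicit false

open Complex NumberField IsDedekindDomain Filter Topology
open UpperHalfPlane hiding I
open scoped ComplexConjugate Real MatrixGroups

namespace Pool.Agent.P.MP_20768c_nt.Az.Cu

open Pool.Agent.P.MP_20768c_nt.Az.EQ (Lt pr sp IsLat jL qN)

theorem k8p_count (F : Type) [Field F] [NumberField F] {l m a : ℕ} (hl : 1 < l)
    (h : ∀ Q : HeightOneSpectrum (𝓞 F), (l : 𝓞 F) ∈ Q.asIdeal →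
      (l : 𝓞 F) ∈ Q.asIdeal ^ a ∧ l ^ m ≤ Ideal.absNorm Q.asIdeal ^ a) :
    m * nP F l ≤ Module.finrank ℚ F := by
  classical
  have hf := fin_primes F (C := l) (by omega)
  have h1 : ∏ Q ∈ hf.toFinset, Q.asIdeal ^ a ∣ Ideal.span {(l : 𝓞 F)} := by
    refine Finset.prod_dvd_of_coprime (fun P _ Q _ hne => P.isCoprime_pow_of_ne Q hne a a) ?_
    intro Q hQ
    exact Ideal.dvd_span_singleton.2 (h Q (hf.mem_toFinset.1 hQ)).1
  have h2 := map_dvd Ideal.absNorm h1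
  rw [Ideal.absNorm_span_natCast, RingOfIntegers.rank, map_prod] at h2
  have h3 := Nat.le_of_dvd (by positivity) h2
  have h4 : ∏ _Q ∈ hf.toFinset, l ^ m ≤ ∏ Q ∈ hf.toFinset, Ideal.absNorm (Q.asIdeal ^ a) :=
    Finset.prod_le_prod' fun Q hQ => by
      rw [map_pow]
      exact (h Q (hf.mem_toFinset.1 hQ)).2
  rw [Finset.prod_const, ← pow_mul] at h4
  rw [nP, Set.ncard_eq_toFinset_card _ hf]
  exact (Nat.pow_le_pow_iff_right hl).1 (h4.trans h3)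

theorem k8p_ram {R : Type} [CommRing R] (Q : Ideal R) (h2 : (2 : R) ∈ Q) (j : ℕ) :
    ∀ ζ x y : R, ζ ^ 2 ^ j = -1 → ζ - 1 ∈ Q → x - y ∈ Q → x ^ 2 ^ j + y ^ 2 ^ j ∈ Q ^ 2 ^ j := by
  induction j with
  | zero =>
    intro ζ x y _ _ h
    rw [pow_zero, pow_one, pow_one, pow_one, show x + y = x - y + y * 2 by ring]
    exact Q.add_mem h (Q.mul_mem_left y h2)
  | succ j ih =>
    intro ζ x y h0 h1 h
    have e0 : (ζ ^ 2) ^ 2 ^ j = -1 := by rw [← pow_mul, ← pow_succ', h0]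
    have e1 : ζ ^ 2 - 1 ∈ Q := by
      rw [show ζ ^ 2 - 1 = (ζ + 1) * (ζ - 1) by ring]
      exact Q.mul_mem_left _ h1
    have a1 := ih (ζ ^ 2) x (ζ * y) e0 e1 (by
      rw [show x - ζ * y = x - y - y * (ζ - 1) by ring]
      exact Q.sub_mem h (Q.mul_mem_left _ h1))
    have a2 := ih (ζ ^ 2) x (ζ ^ 2 * ζ * y) e0 e1 (by
      rw [show x - ζ ^ 2 * ζ * y = x - y - y * (ζ ^ 2 + ζ + 1) * (ζ - 1) by ring]
      exact Q.sub_mem h (Q.mul_mem_left _ h1))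
    have a3 := Ideal.mul_mem_mul a1 a2
    rw [← pow_add, ← mul_two, ← pow_succ, mul_pow, mul_pow, mul_pow, e0] at a3
    rw [pow_succ, pow_mul] at h0
    rw [pow_succ 2 j, pow_mul x, pow_mul y, ← pow_succ 2 j]
    have e : (x ^ 2 ^ j) ^ 2 + (y ^ 2 ^ j) ^ 2 = (x ^ 2 ^ j + ζ ^ 2 ^ j * y ^ 2 ^ j) *
        (x ^ 2 ^ j + -1 * ζ ^ 2 ^ j * y ^ 2 ^ j) := by
      linear_combination (y ^ 2 ^ j) ^ 2 * h0
    rw [e]
    exact a3

theorem k8p_one {R : Type} [CommRing R] (Q : Ideal R) (hQ : Q.IsPrime) (h2 : (2 : R) ∈ Q) (j : ℕ) :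
    ∀ ζ : R, ζ ^ 2 ^ j - 1 ∈ Q → ζ - 1 ∈ Q := by
  induction j with
  | zero => intro ζ h; simpa using h
  | succ j ih =>
    intro ζ h
    refine ih ζ (hQ.mem_of_pow_mem 2 ?_)
    rw [pow_succ, pow_mul] at h
    rw [show (ζ ^ 2 ^ j - 1) ^ 2 = (ζ ^ 2 ^ j) ^ 2 - 1 - (ζ ^ 2 ^ j - 1) * 2 by ring]
    exact Q.sub_mem h (Q.mul_mem_left _ h2)

theorem k8p_lte {l : ℕ} (hl : 1 < l) (ho : Odd l) :
    ∃ e, ∀ n f : ℕ, f ≠ 0 → 2 ^ n ∣ l ^ f - 1 → 2 ^ (n - e) ≤ f := by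
  refine ⟨padicValNat 2 (l + 1) + padicValNat 2 (l - 1), fun n f hf h => ?_⟩
  have h1 := padicValNat.pow_two_sub_pow hl (Nat.Odd.sub_odd ho odd_one).two_dvd
    (by rw [← even_iff_two_dvd]; exact Nat.not_even_iff_odd.2 ho) (n := 2 * f) (by omega)
    (even_two_mul f)
  have h2 : 2 ^ n ∣ l ^ (2 * f) - 1 ^ (2 * f) := by
    rw [one_pow, mul_comm, pow_mul]
    exact h.trans (Nat.sub_one_dvd_pow_sub_one _ 2)
  have h0 : l ^ (2 * f) - 1 ^ (2 * f) ≠ 0 := by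
    have := Nat.one_lt_pow (n := 2 * f) (by omega) hl
    rw [one_pow]
    omega
  have h3 := (padicValNat_dvd_iff_le h0).1 h2
  rw [padicValNat.mul two_ne_zero hf, padicValNat_self] at h1
  exact Nat.le_of_dvd (Nat.pos_of_ne_zero hf) ((padicValNat_dvd_iff_le hf).2 (by omega))

theorem k8p_prime (g : ℕ) {l : ℕ} (hl : l.Prime) : ∃ B, ∀ (F : Type) [Field F] [NumberField F] (j : ℕ)
    (ζ : 𝓞 F), ζ ^ 2 ^ j = -1 → Module.finrank ℚ F = g * 2 ^ j → nP F l ≤ B := by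
  rcases hl.eq_two_or_odd' with rfl | ho
  · refine ⟨g, fun F _ _ j ζ hζ hd => ?_⟩
    have h := k8p_count F (m := 2 ^ j) (a := 2 ^ j) one_lt_two fun Q hQ => by
      rw [Nat.cast_ofNat] at hQ ⊢
      have h1 : ζ - 1 ∈ Q.asIdeal := k8p_one _ Q.isPrime hQ j ζ (by
        rw [hζ, show (-1 - 1 : 𝓞 F) = -2 by ring]
        exact Q.asIdeal.neg_mem hQ)
      have h2 := k8p_ram _ hQ j ζ 1 1 hζ h1 (by rw [sub_self]; exact Q.asIdeal.zero_mem)
      rw [one_pow, one_add_one_eq_two] at h2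
      refine ⟨h2, Nat.pow_le_pow_left ?_ _⟩
      have a0 : Ideal.absNorm Q.asIdeal ≠ 0 := fun e => Q.ne_bot (Ideal.absNorm_eq_zero_iff.1 e)
      have a1 : Ideal.absNorm Q.asIdeal ≠ 1 := fun e =>
        Q.isPrime.ne_top (Ideal.absNorm_eq_one_iff.1 e)
      omega
    rw [hd, mul_comm] at h
    exact Nat.le_of_mul_le_mul_right h (by positivity)
  · obtain ⟨e, he⟩ := k8p_lte hl.one_lt ho
    refine ⟨g * 2 ^ e, fun F _ _ j ζ hζ hd => ?_⟩
    have h := k8p_count F (m := 2 ^ (j + 1 - e)) (a := 1) hl.one_lt fun Q hQ => by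
      rw [pow_one, pow_one]
      refine ⟨hQ, ?_⟩
      have h1 := map_dvd Ideal.absNorm (Ideal.dvd_span_singleton.2 hQ)
      rw [Ideal.absNorm_span_natCast] at h1
      obtain ⟨f, -, hf⟩ := (Nat.dvd_prime_pow hl).1 h1
      have f0 : f ≠ 0 := by
        rintro rfl
        exact Q.isPrime.ne_top (Ideal.absNorm_eq_one_iff.1 hf)
      rw [hf]
      refine Nat.pow_le_pow_right hl.pos (he _ f f0 ?_)
      have := Q.isMaximal
      let _ := Ideal.Quotient.field Q.asIdeal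
      have : Finite (𝓞 F ⧸ Q.asIdeal) := Ideal.finiteQuotientOfFreeOfNeBot _ Q.ne_bot
      let _ := Fintype.ofFinite (𝓞 F ⧸ Q.asIdeal)
      have z1 : Ideal.Quotient.mk Q.asIdeal ζ ^ 2 ^ j = -1 := by
        rw [← map_pow, hζ, map_neg, map_one]
      have z2 : ¬ Ideal.Quotient.mk Q.asIdeal ζ ^ 2 ^ j = 1 := by
        intro e1
        obtain ⟨k, hk⟩ := ho
        have l0 : ((l : ℕ) : 𝓞 F ⧸ Q.asIdeal) = 0 := by
          rw [← map_natCast (Ideal.Quotient.mk Q.asIdeal)]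
          exact Ideal.Quotient.eq_zero_iff_mem.2 hQ
        rw [hk] at l0
        push_cast at l0
        rw [z1] at e1
        exact one_ne_zero (α := 𝓞 F ⧸ Q.asIdeal) (by linear_combination l0 + k * e1)
      have z3 : Ideal.Quotient.mk Q.asIdeal ζ ^ 2 ^ (j + 1) = 1 := by
        rw [pow_succ, pow_mul, z1, neg_one_sq]
      have z0 : Ideal.Quotient.mk Q.asIdeal ζ ≠ 0 := by
        intro e0
        rw [e0, zero_pow (by positivity)] at z3
        exact zero_ne_one z3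
      rw [← orderOf_eq_prime_pow z2 z3, orderOf_dvd_iff_pow_eq_one, ← hf, Ideal.absNorm_apply,
        Submodule.cardQuot_apply, Nat.card_eq_fintype_card]
      exact FiniteField.pow_card_sub_one_eq_one _ z0
    have h5 : g * 2 ^ j ≤ 2 ^ (j + 1 - e) * (g * 2 ^ e) := by
      rw [mul_left_comm, ← pow_add]
      exact Nat.mul_le_mul_left g (Nat.pow_le_pow_right two_pos (by omega))
    rw [hd] at h
    exact Nat.le_of_mul_le_mul_left (h.trans h5) (by positivity)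

theorem k8p_mul (F : Type) [Field F] [NumberField F] (a b : ℕ) :
    nP F (a * b) ≤ nP F a + nP F b := by
  refine le_trans (le_of_eq ?_) (Set.ncard_union_le _ _)
  rw [nP]
  congr 1
  ext Q
  rw [Set.mem_union, Set.mem_ofPred_eq, Set.mem_ofPred_eq, Set.mem_ofPred_eq, Nat.cast_mul]
  exact Q.isPrime.mul_mem_iff_mem_or_mem

theorem k8p_all (g : ℕ) {C : ℕ} (hC : C ≠ 0) : ∃ B, ∀ (F : Type) [Field F] [NumberField F] (j : ℕ)
    (ζ : 𝓞 F), ζ ^ 2 ^ j = -1 → Module.finrank ℚ F = g * 2 ^ j → nP F C ≤ B := by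
  induction C using induction_on_primes with
  | zero => exact absurd rfl hC
  | one =>
    refine ⟨0, fun F _ _ j ζ _ _ => le_of_eq ?_⟩
    rw [nP, Set.eq_empty_of_forall_notMem (s := {Q : HeightOneSpectrum (𝓞 F) |
      ((1 : ℕ) : 𝓞 F) ∈ Q.asIdeal}), Set.ncard_empty]
    intro Q hQ
    rw [Set.mem_ofPred_eq, Nat.cast_one] at hQ
    exact Q.isPrime.ne_top ((Ideal.eq_top_iff_one _).2 hQ)
  | prime_mul p a hp ih =>
    obtain ⟨B, hB⟩ := ih (right_ne_zero_of_mul hC)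
    obtain ⟨B', hB'⟩ := k8p_prime g hp
    exact ⟨B' + B, fun F _ _ j ζ h1 h2 =>
      (k8p_mul F p a).trans (Nat.add_le_add (hB' F j ζ h1 h2) (hB F j ζ h1 h2))⟩

namespace Ab

variable (s : Ab) {n C : ℕ}

theorem nP_bdd (hC : C ≠ 0) : ∃ B, ∀ n, nP (s.K n) C ≤ B := by
  obtain ⟨B, hB⟩ := k8p_all (2 * s.g) hC
  refine ⟨max B (nP (s.K 0) C), fun n => ?_⟩
  rcases Nat.eq_zero_or_pos n with rfl | hn
  · exact le_max_right _ _
  · refine le_trans ?_ (le_max_left _ _)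
    have e : (⟨zt n, s.zt_mem n⟩ : s.K n) ^ 2 ^ (n - 1) = -1 := Subtype.ext (zt_half hn)
    have hi : IsIntegral ℤ (⟨zt n, s.zt_mem n⟩ : s.K n) :=
      IsIntegral.of_pow (n := 2 ^ (n - 1)) (by positivity) (by rw [e]; exact isIntegral_one.neg)
    exact hB (s.K n) (n - 1) ⟨_, hi⟩ (Subtype.ext e) (s.finrank_K' hn)

end Ab

end Pool.Agent.P.MP_20768c_nt.Az.Cu

end

-- part Ab.L2
section

set_option autoImplicit false

open Complex NumberField IsDedekindDomain Filter Topology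
open UpperHalfPlane hiding I
open scoped ComplexConjugate Real MatrixGroups

namespace Pool.Agent.P.MP_20768c_nt.Az.Cu

open Pool.Agent.P.MP_20768c_nt.Az.EQ (Lt pr sp IsLat jL qN)

namespace Ab

variable {s : Ab} {C n : ℕ} {r r' : ℂ} {x : ℂˣ}

theorem mem_Kx : x ∈ s.Kx n ↔ (x : ℂ) ∈ s.K n := by
  constructor
  · rintro ⟨y, rfl⟩
    exact (y : s.K n).2
  · intro h
    exact ⟨Units.mk0 (⟨x, h⟩ : s.K n) fun e => x.ne_zero (congrArg Subtype.val e), Units.ext rfl⟩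

theorem mem_Ux : x ∈ s.Ux n ↔ ∃ ε : (𝓞 (s.K n))ˣ, s.uc ε = x := by
  constructor
  · rintro ⟨y, rfl⟩
    exact ⟨y, rfl⟩
  · rintro ⟨y, h⟩
    exact ⟨y, Units.ext h⟩

theorem mem_Sq : x ∈ s.Sq ↔ ∃ n, ∃ y ∈ s.K n, (x : ℂ) = y ^ 2 := by
  constructor
  · intro h
    induction h using Subgroup.closure_induction with
    | mem x hx =>
      obtain ⟨n, y, hy, rfl⟩ := hx
      exact ⟨n, y, mem_Kx.mp hy, Units.val_pow_eq_pow_val _ _⟩
    | one => exact ⟨0, 1, one_mem _, by simp⟩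
    | mul x x' _ _ ih ih' =>
      obtain ⟨n, y, hy, e⟩ := ih
      obtain ⟨n', y', hy', e'⟩ := ih'
      exact ⟨max n n', y * y', mul_mem (s.K_mono (le_max_left _ _) hy)
        (s.K_mono (le_max_right _ _) hy'), by rw [Units.val_mul, e, e', mul_pow]⟩
    | inv x _ ih =>
      obtain ⟨n, y, hy, e⟩ := ih
      exact ⟨n, y⁻¹, inv_mem hy, by rw [Units.val_inv_eq_inv_val, e, inv_pow]⟩
  · rintro ⟨n, y, hy, e⟩
    have h0 : y ≠ 0 := fun h => x.ne_zero (by rw [e, h]; simp)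
    exact Subgroup.subset_closure ⟨n, Units.mk0 y h0, mem_Kx.mpr hy, Units.ext (by simpa using e)⟩

theorem l2_fix (a a' : s.Au) (h : ∀ x ∈ s.N, a' x = a x) {y : ℂ} (hy : y ∈ s.N) :
    (a * a'⁻¹) y = y := by
  rw [AlgEquiv.mul_apply, ← h _ (s.toSt.au_mem s.N a'⁻¹ hy), ← AlgEquiv.mul_apply, mul_inv_cancel,
    AlgEquiv.one_apply]

theorem Cond.all (h : s.Cond C r) (a : s.Au) : ∃ n, a r ∈ s.Fx n := by
  obtain ⟨_, ⟨n₂, h2⟩, _, h4⟩ := h
  obtain ⟨a', ha', n₁, h1⟩ := h4 a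
  have hK : a' r ^ 2 ∈ s.K n₂ := by
    rw [← map_pow]
    exact K_aut a' h2
  have hF : a' r ∈ s.Fx n₁ :=
    ⟨IsAlgebraic.of_pow two_pos (s.toSt.alg_of_mem (s.K n₂) hK), h1⟩
  obtain ⟨b, hb⟩ := hom_zt ((a * a'⁻¹ : s.Au) : ℂ →+* ℂ) n₂
  obtain ⟨i, hi, hi'⟩ := s.toSt.exists_inert n₂ b
  have e : (a * a'⁻¹) (a' r ^ 2) = i (a' r ^ 2) :=
    eq_on_K (fun y hy => by rw [l2_fix a a' ha' hy, inert_fix_N s.toSt.v_two hi hy])
      (hb.trans hi'.symm) hK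
  rw [map_pow, map_pow, ← AlgEquiv.mul_apply, inv_mul_cancel_right] at e
  have hi2 : i (a' r) ∈ s.Fx n₁ := St.fx_aut hi hF
  refine ⟨n₁, ?_⟩
  rcases sq_eq_sq_iff_eq_or_eq_neg.mp e with e | e
  · rw [e]
    exact hi2
  · rw [e]
    exact ⟨hi2.1.neg, fun σ hσ hz => by rw [map_neg, hi2.2 σ hσ hz]⟩

theorem Cond.mul (h : s.Cond C r) (h' : s.Cond C r') : s.Cond C (r * r') := by
  refine ⟨mul_ne_zero h.1 h'.1, ?_, fun V σ hV hσ hN => ?_, fun a => ?_⟩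
  · obtain ⟨n, hn⟩ := h.2.1
    obtain ⟨n', hn'⟩ := h'.2.1
    refine ⟨max n n', ?_⟩
    rw [mul_pow]
    exact mul_mem (s.K_mono (le_max_left _ _) hn) (s.K_mono (le_max_right _ _) hn')
  · rw [map_mul, h.2.2.1 V σ hV hσ hN, h'.2.2.1 V σ hV hσ hN]
  · obtain ⟨n, hn⟩ := h.all a
    obtain ⟨n', hn'⟩ := h'.all a
    refine ⟨a, fun _ _ => rfl, max n n', fun σ hσ hz => ?_⟩
    rw [map_mul, map_mul, (St.fx_mono (le_max_left n n') hn).2 σ hσ hz,
      (St.fx_mono (le_max_right n n') hn').2 σ hσ hz]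

theorem Cond.inv (h : s.Cond C r) : s.Cond C r⁻¹ := by
  refine ⟨inv_ne_zero h.1, ?_, fun V σ hV hσ hN => ?_, fun a => ?_⟩
  · obtain ⟨n, hn⟩ := h.2.1
    refine ⟨n, ?_⟩
    rw [inv_pow]
    exact inv_mem hn
  · rw [map_inv₀, h.2.2.1 V σ hV hσ hN]
  · obtain ⟨a', ha', n, hn⟩ := h.2.2.2 a
    exact ⟨a', ha', n, fun σ hσ hz => by rw [map_inv₀, map_inv₀, hn σ hσ hz]⟩

theorem Cond.aut (h : s.Cond C r) (σ : s.Au) : s.Cond C (σ r) := by
  refine ⟨(map_ne_zero σ).mpr h.1, ?_, fun V τ hV hτ hN => ?_, fun a => ?_⟩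
  · obtain ⟨n, hn⟩ := h.2.1
    refine ⟨n, ?_⟩
    rw [← map_pow]
    exact K_aut σ hn
  · obtain ⟨V', hV', hi⟩ := St.inert_conj V hV hτ σ
    have e := h.2.2.1 V' _ hV' hi fun y hy => by
      rw [AlgEquiv.mul_apply, AlgEquiv.mul_apply, hN _ (s.toSt.au_mem s.N σ hy),
        ← AlgEquiv.mul_apply, inv_mul_cancel, AlgEquiv.one_apply]
    have e' := congrArg σ e
    rwa [← AlgEquiv.mul_apply, ← mul_assoc, mul_inv_cancel_left, AlgEquiv.mul_apply] at e'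
  · obtain ⟨n, hn⟩ := h.all (a * σ)
    exact ⟨a, fun _ _ => rfl, n, hn.2⟩

theorem cond_K (h2 : Even C) (h0 : r ≠ 0) (h : r ∈ s.K n) : s.Cond C r := by
  refine ⟨h0, ⟨n, pow_mem h 2⟩, fun V σ hV hσ hN => ?_, fun a => ?_⟩
  · have hv : V.valuation ((2 ^ n : ℕ) : ℂ) = 1 := by
      rw [Nat.cast_pow, map_pow, v_nat_dvd V.valuation h2.two_dvd hV, one_pow]
    exact fix_K.mpr ⟨hN, St.inert_root hσ hv (zt_pow n)⟩ r h
  · exact ⟨a, fun _ _ => rfl, n, (K_fx (K_aut a h)).2⟩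

theorem mem_SS (h2 : Even C) : x ∈ s.SS C ↔ ∃ r, s.Cond C r ∧ (x : ℂ) = r ^ 2 := by
  refine ⟨fun h => ?_, fun h => Subgroup.subset_closure h⟩
  induction h using Subgroup.closure_induction with
  | mem x hx => exact hx
  | one => exact ⟨1, cond_K (n := 0) h2 one_ne_zero (one_mem _), by simp⟩
  | mul x x' _ _ ih ih' =>
    obtain ⟨y, hy, e⟩ := ih
    obtain ⟨y', hy', e'⟩ := ih'
    exact ⟨y * y', hy.mul hy', by rw [Units.val_mul, e, e', mul_pow]⟩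
  | inv x _ ih =>
    obtain ⟨y, hy, e⟩ := ih
    exact ⟨y⁻¹, hy.inv, by rw [Units.val_inv_eq_inv_val, e, inv_pow]⟩

theorem Sq_le_SS (h2 : Even C) : s.Sq ≤ s.SS C := by
  intro x hx
  obtain ⟨n, y, hy, e⟩ := mem_Sq.mp hx
  have h0 : y ≠ 0 := fun h => x.ne_zero (by rw [e, h]; simp)
  exact (mem_SS h2).mpr ⟨y, cond_K h2 h0 hy, e⟩

/-- Hilbert 90 for an automorphism of known order on `K m` -/
theorem l2_h90 {m d : ℕ} (hd : 0 < d) (g : s.Au)
    (ho : ∀ i, (∀ x ∈ s.K m, (g ^ i) x = x) ↔ d ∣ i) {y : ℂ} (hy : y ∈ s.K m) (h0 : y ≠ 0)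
    (hN : ∏ j ∈ Finset.range d, (g ^ j) y = 1) : ∃ z ∈ s.K m, z ≠ 0 ∧ g z = y * z := by
  obtain ⟨c, hc⟩ : ∃ c : ℕ → ℂ, c = fun i => ∏ j ∈ Finset.range i, (g ^ j) y := ⟨_, rfl⟩
  have hcs : ∀ i, c (i + 1) = y * g (c i) := fun i => by
    simp only [hc, Finset.prod_range_succ', map_prod, pow_zero, AlgEquiv.one_apply, pow_succ',
      AlgEquiv.mul_apply, mul_comm]
  have hcK : ∀ i, c i ∈ s.K m := fun i => by
    rw [hc]
    exact prod_mem fun j _ => K_aut _ hy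
  obtain ⟨φ, hφ⟩ : ∃ φ : Fin d → (s.K m →* ℂ), ∀ i θ, φ i θ = (g ^ (i : ℕ)) θ :=
    ⟨fun i => ((g ^ (i : ℕ) : s.Au) : ℂ →* ℂ).comp (algebraMap (s.K m) ℂ : s.K m →* ℂ),
      fun _ _ => rfl⟩
  have aux : ∀ i j : Fin d, (i : ℕ) ≤ j → φ i = φ j → i = j := fun i j hij e => by
    have : d ∣ (j : ℕ) - i := (ho _).mp fun x hx => by
      apply (g ^ (i : ℕ)).injective
      rw [← AlgEquiv.mul_apply, ← pow_add, Nat.add_sub_cancel' hij]
      exact ((hφ j ⟨x, hx⟩).symm.trans (by rw [← e])).trans (hφ i ⟨x, hx⟩)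
    have h1 := Nat.eq_zero_of_dvd_of_lt this (lt_of_le_of_lt (Nat.sub_le _ _) j.2)
    exact Fin.ext (by omega)
  have hinj : Function.Injective φ := fun i j e => by
    rcases le_total (i : ℕ) j with hij | hij
    · exact aux i j hij e
    · exact (aux j i hij e.symm).symm
  have hli := (linearIndependent_monoidHom (s.K m) ℂ).comp φ hinj
  have hex : ∃ θ : s.K m, ∑ i ∈ Finset.range d, (c i)⁻¹ * (g ^ i) θ ≠ 0 := by
    by_contra hne
    have hz : ∑ i : Fin d, (c i)⁻¹ • ((fun f : s.K m →* ℂ => (f : s.K m → ℂ)) ∘ φ) i = 0 := by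
      funext θ
      have := not_not.mp (not_exists.mp hne θ)
      rw [Finset.sum_range] at this
      simpa only [Finset.sum_apply, Pi.smul_apply, Function.comp, smul_eq_mul, hφ,
        Pi.zero_apply] using this
    have := Fintype.linearIndependent_iff.mp hli _ hz ⟨0, hd⟩
    simp [hc] at this
  obtain ⟨θ, hθ⟩ := hex
  refine ⟨_, sum_mem fun i _ => mul_mem (inv_mem (hcK i)) (K_aut _ θ.2), hθ, ?_⟩
  have e1 : ∑ i ∈ Finset.range d, (c (i + 1))⁻¹ * (g ^ (i + 1)) θ =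
      ∑ i ∈ Finset.range d, (c i)⁻¹ * (g ^ i) θ := by
    have a1 := Finset.sum_range_succ' (fun i => (c i)⁻¹ * (g ^ i) (θ : ℂ)) d
    have a2 := Finset.sum_range_succ (fun i => (c i)⁻¹ * (g ^ i) (θ : ℂ)) d
    have a3 : c d = c 0 := by simp only [hc, hN, Finset.prod_range_zero]
    rw [a2, a3, (ho d).mpr dvd_rfl _ θ.2, pow_zero, AlgEquiv.one_apply] at a1
    exact (add_right_cancel a1).symm
  rw [← e1, Finset.mul_sum, e1, map_sum]
  refine Finset.sum_congr rfl fun i _ => ?_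
  rw [map_mul, map_inv₀, hcs, pow_succ', AlgEquiv.mul_apply, mul_inv, ← mul_assoc, ← mul_assoc,
    mul_inv_cancel₀ h0, one_mul]

theorem h90 {γ : s.Au} (hγ : s.IsGam γ) (hn : 2 ≤ n) {n' : ℕ} {a y : ℂ} (ha : a ∈ s.K n')
    (h0 : a ≠ 0) (hy : y ∈ s.K n') (h : (γ ^ 2 ^ (n - 2)) a = a * y ^ 2) :
    ∃ z ∈ s.K (n + n' + 1), z ≠ 0 ∧ a / z ^ 2 ∈ s.K n := by
  obtain ⟨g, hg⟩ : ∃ g : s.Au, g = γ ^ 2 ^ (n - 2) := ⟨_, rfl⟩
  have hp : ∀ j, g ^ 2 ^ j = γ ^ 2 ^ (n + j - 2) := fun j => by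
    rw [hg, ← pow_mul, ← pow_add]
    congr 2
    omega
  have ha' : a ∈ s.K (n + n') := s.K_mono (Nat.le_add_left _ _) ha
  have hy' : y ∈ s.K (n + n') := s.K_mono (Nat.le_add_left _ _) hy
  have hfix : ∀ j, ∀ x ∈ s.K (n + j), (g ^ 2 ^ j) x = x := fun j x hx => by
    rw [hp]
    exact (gam_fix hγ (by omega) hx).mpr hx
  rw [← hg] at h
  have hy0 : y ≠ 0 := fun e => (map_ne_zero g).mpr h0 (by rw [h, e]; simp)
  obtain ⟨ρ, -, hρ⟩ := s.toSt.exists_res (s.K (n + n' + 1))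
  have hρ1 : ∀ σ : s.Au, ρ σ = 1 ↔ ∀ x ∈ s.K (n + n' + 1), σ x = x := fun σ =>
    ⟨fun e x hx => by rw [← hρ σ ⟨x, hx⟩, e]; rfl,
      fun e => AlgEquiv.ext fun x => Subtype.ext ((hρ σ x).trans (e x x.2))⟩
  have hord : orderOf (ρ g) = 2 ^ (n' + 1) := by
    refine orderOf_eq_prime_pow (fun e => ?_) ?_
    · rw [← map_pow, hρ1, hp] at e
      exact s.zt_not_mem (by omega)
        ((gam_fix hγ (by omega) (s.zt_mem _)).mp (e _ (s.zt_mem (n + n' + 1))))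
    · rw [← map_pow, hρ1]
      exact hfix (n' + 1)
  have hpow : ∀ i, (g ^ i) a = a * (∏ j ∈ Finset.range i, (g ^ j) y) ^ 2 := fun i => by
    induction i with
    | zero => simp
    | succ i ih =>
      rw [pow_succ, AlgEquiv.mul_apply, h, map_mul, map_pow, ih, Finset.prod_range_succ]
      ring
  have hN : ∏ j ∈ Finset.range (2 ^ (n' + 1)), (g ^ j) y = 1 := by
    have e := hpow (2 ^ n')
    rw [hfix n' a ha'] at e
    have e2 : ∀ j ∈ Finset.range (2 ^ n'), (g ^ (2 ^ n' + j)) y = (g ^ j) y := fun j _ => by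
      rw [add_comm, pow_add, AlgEquiv.mul_apply, hfix n' y hy']
    rw [pow_succ, mul_two, Finset.prod_range_add, Finset.prod_congr rfl e2, ← sq]
    exact mul_left_cancel₀ h0 (by rw [← e, mul_one])
  obtain ⟨z, hz, hz0, e⟩ := l2_h90 (m := n + n' + 1) (by positivity) g
    (fun i => by rw [← hρ1, map_pow, ← hord, orderOf_dvd_iff_pow_eq_one])
    (s.K_mono (Nat.le_succ _) hy') hy0 hN
  refine ⟨z, hz, hz0, (gam_fix hγ hn
    (div_mem (s.K_mono (Nat.le_succ _) ha') (pow_mem hz 2))).mp ?_⟩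
  rw [← hg, map_div₀, map_pow, h, e]
  field_simp

end Ab

end Pool.Agent.P.MP_20768c_nt.Az.Cu

end

-- part Ab.M5_p
section

set_option autoImplicit false

open Complex NumberField IsDedekindDomain Filter Topology
open UpperHalfPlane hiding I
open scoped ComplexConjugate Real MatrixGroups

namespace Pool.Agent.P.MP_20768c_nt.Az.Cu

open Pool.Agent.P.MP_20768c_nt.Az.EQ (Lt pr sp IsLat jL qN)

variable {K : Type} [Field K] [NumberField K] {s : Ab} {e : AlgebraicClosure K →+* ℂ}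
  {N : Set (AlgebraicClosure K)}

theorem m5p_alg (e : AlgebraicClosure K →+* ℂ) (x : AlgebraicClosure K) : IsAlgebraic ℚ (e x) := by
  have h : Algebra.IsAlgebraic ℚ (AlgebraicClosure K) :=
    Algebra.IsAlgebraic.trans ℚ K (AlgebraicClosure K)
  exact (h.isAlgebraic x).algHom e.toRatAlgHom

theorem m5p_aa : Algebra.IsAlgebraic ℚ (AlgebraicClosure K) :=
  Algebra.IsAlgebraic.trans ℚ K (AlgebraicClosure K)

theorem m5p_gal : IsGalois ℚ (AlgebraicClosure K) := by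
  have := m5p_aa (K := K)
  have : IsAlgClosure ℚ (AlgebraicClosure K) := ⟨inferInstance, inferInstance⟩
  infer_instance

theorem pull {s : St} (he : ∀ y : ℂ, IsAlgebraic ℚ y → ∃ x, e x = y) (σ : s.Au) :
    ∃ g : GQ K, ∀ x, e (g x) = σ (e x) := by
  choose f hf using fun x => he (σ (e x)) (s.au_alg σ (m5p_alg e x))
  have := m5p_aa (K := K)
  let φ : AlgebraicClosure K →ₐ[ℚ] AlgebraicClosure K :=
    { toFun := f
      map_one' := e.injective (by rw [hf, map_one, map_one])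
      map_mul' := fun x y => e.injective (by rw [hf, map_mul, map_mul, map_mul, hf, hf])
      map_zero' := e.injective (by rw [hf, map_zero, map_zero])
      map_add' := fun x y => e.injective (by rw [hf, map_add, map_add, map_add, hf, hf])
      commutes' := fun x => e.injective (by
        rw [hf, eq_ratCast, map_ratCast, map_ratCast]) }
  exact ⟨AlgEquiv.ofBijective φ (Algebra.IsAlgebraic.algHom_bijective φ), hf⟩

theorem push (hN : ∀ x, e x ∈ s.N ↔ x ∈ N) (he : ∀ y : ℂ, IsAlgebraic ℚ y → ∃ x, e x = y)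
    {g : GQ K} (h : ∀ x ∈ N, g x = x) : ∃ σ : s.Au, ∀ x, e (g x) = σ (e x) := by
  have ha : Algebra.IsAlgebraic ℚ (AlgebraicClosure K) :=
    Algebra.IsAlgebraic.trans ℚ K (AlgebraicClosure K)
  have hc : Cardinal.mk (AlgebraicClosure K) ≤ Cardinal.aleph0 :=
    (Algebra.IsAlgebraic.cardinalMk_le_max ℚ (AlgebraicClosure K)).trans (by simp)
  obtain ⟨σ, hσ⟩ := Pool.Agent.P.MP_20768c_nt.Az.EQ.aut_ring hc e (e.comp g.toRingEquiv.toRingHom) e.injective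
    (RingHom.injective _)
  refine ⟨AlgEquiv.ofRingEquiv (f := σ) fun y => ?_, fun x => (hσ x).symm⟩
  have hy : algebraMap s.k ℂ y ∈ s.N := s.N.algebraMap_mem y
  obtain ⟨x, hx⟩ := he _ (s.toSt.alg_of_mem _ hy)
  rw [← hx] at hy ⊢
  rw [hσ]
  exact congrArg e (h x ((hN x).1 hy))

theorem fixed_Hq (hN : ∀ x, e x ∈ s.N ↔ x ∈ N) (he : ∀ y : ℂ, IsAlgebraic ℚ y → ∃ x, e x = y)
    {x : AlgebraicClosure K} : (∀ g ∈ Hq N, g x = x) ↔ ∃ n, e x ∈ s.K n := by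
  have := m5p_gal (K := K)
  constructor
  · intro h
    let T : IntermediateField ℚ (AlgebraicClosure K) :=
      { carrier := {y | ∃ n, e y ∈ s.K n}
        mul_mem' := by
          rintro a b ⟨n, ha⟩ ⟨m, hb⟩
          refine ⟨max n m, ?_⟩
          rw [map_mul]
          exact mul_mem (s.K_mono (le_max_left _ _) ha) (s.K_mono (le_max_right _ _) hb)
        add_mem' := by
          rintro a b ⟨n, ha⟩ ⟨m, hb⟩
          refine ⟨max n m, ?_⟩
          rw [map_add]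
          exact add_mem (s.K_mono (le_max_left _ _) ha) (s.K_mono (le_max_right _ _) hb)
        algebraMap_mem' := fun y => ⟨0, by
          rw [eq_ratCast, map_ratCast]
          exact SubfieldClass.ratCast_mem _ y⟩
        inv_mem' := by
          rintro a ⟨n, ha⟩
          refine ⟨n, ?_⟩
          rw [map_inv₀]
          exact inv_mem ha }
    have hT : x ∈ T := by
      rw [← InfiniteGalois.fixedField_fixingSubgroup T, IntermediateField.mem_fixedField_iff]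
      intro g hg
      rw [IntermediateField.mem_fixingSubgroup_iff] at hg
      refine h g ⟨fun y hy => hg y ⟨0, s.N_le 0 ((hN y).2 hy)⟩, fun y n hy => hg y ⟨n, ?_⟩⟩
      obtain ⟨a, ha⟩ := root_zt (n := n) (x := e y) (by rw [← map_pow, hy, map_one])
      rw [ha]
      exact pow_mem (s.zt_mem n) a
    exact hT
  · rintro ⟨n, hn⟩ g hg
    obtain ⟨σ, hσ⟩ := push hN he hg.1
    apply e.injective
    rw [hσ]
    refine Ab.fix_K.2 ⟨fun y hy => ?_, ?_⟩ _ hn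
    · obtain ⟨z, rfl⟩ := he y (s.toSt.alg_of_mem _ hy)
      rw [← hσ, hg.1 z ((hN z).1 hy)]
    · obtain ⟨z, hz⟩ := he (zt n) (s.toSt.alg_of_mem _ (s.zt_mem n))
      rw [← hz, ← hσ, hg.2 z n (e.injective (by rw [map_pow, hz, zt_pow, map_one]))]

theorem m5p_open (x : AlgebraicClosure K) : IsOpen {g : GQ K | g x = x} := by
  have := m5p_aa (K := K)
  exact stabilizer_isOpen_of_isIntegral (K := ℚ) x

theorem m5p_closed (x : AlgebraicClosure K) : IsClosed {g : GQ K | g x = x} :=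
  Subgroup.isClosed_of_isOpen (MulAction.stabilizer (GQ K) x) (m5p_open x)

theorem isClosed_Hq (N : Set (AlgebraicClosure K)) : IsClosed (Hq N : Set (GQ K)) := by
  have h : (Hq N : Set (GQ K)) = (⋂ x ∈ N, {g : GQ K | g x = x}) ∩
      ⋂ x, ⋂ n : ℕ, ⋂ _ : x ^ 2 ^ n = 1, {g : GQ K | g x = x} := by
    ext g
    simp only [Set.mem_inter_iff, Set.mem_iInter]
    rfl
  rw [h]
  exact (isClosed_biInter fun x _ => m5p_closed x).inter
    (isClosed_iInter fun x => isClosed_iInter fun _ => isClosed_iInter fun _ => m5p_closed x)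

theorem kummerQ (ψ : Hq N →* ℤˣ) (T : Finset (AlgebraicClosure K))
    (hψ : ∀ g : Hq N, (∀ x ∈ T, g.1 x = x) → ψ g = 1) : ∃ r : AlgebraicClosure K, r ≠ 0 ∧
      ∀ g : Hq N, g.1 r = ((ψ g : ℤ) : AlgebraicClosure K) * r := by
  have := m5p_gal (K := K)
  have hk : IsClosed (ψ.ker : Set (Hq N)) := by
    refine Subgroup.isClosed_of_isOpen _ (Subgroup.isOpen_of_mem_nhds _ (g := 1) ?_)
    have h0 : IsOpen (Subtype.val ⁻¹' (⋂ x ∈ T, {g : GQ K | g x = x}) : Set (Hq N)) :=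
      (isOpen_biInter_finset fun x _ => m5p_open x).preimage continuous_subtype_val
    exact Filter.mem_of_superset (h0.mem_nhds (by simp)) fun g hg => hψ g (by simpa using hg)
  by_cases h1 : ∀ g, ψ g = 1
  · exact ⟨1, one_ne_zero, fun g => by rw [h1, map_one]; simp⟩
  obtain ⟨g0, hg0⟩ := not_forall.1 h1
  have hcl : IsClosed ((ψ.ker.map (Hq N).subtype : Subgroup (GQ K)) : Set (GQ K)) :=
    (isClosed_Hq N).isClosedEmbedding_subtypeVal.isClosedMap _ hk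
  have hmem : ∀ g : Hq N, g.1 ∈ ψ.ker.map (Hq N).subtype ↔ ψ g = 1 := fun g =>
    Subgroup.mem_map_iff_mem (Hq N).subtype_injective
  have h2 := InfiniteGalois.fixingSubgroup_fixedField (k := ℚ) (K := AlgebraicClosure K)
    ⟨ψ.ker.map (Hq N).subtype, hcl⟩
  obtain ⟨y, hy, hy'⟩ : ∃ y, (∀ g : Hq N, ψ g = 1 → g.1 y = y) ∧ g0.1 y ≠ y := by
    by_contra hcon
    apply hg0
    rw [← hmem]
    refine h2.le ?_
    rw [IntermediateField.mem_fixingSubgroup_iff]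
    intro y hy
    by_contra hne
    rw [IntermediateField.mem_fixedField_iff] at hy
    exact hcon ⟨y, fun g hg => hy g.1 ((hmem g).2 hg), hne⟩
  have hm : ψ g0 = -1 := (Int.units_eq_one_or _).resolve_left hg0
  refine ⟨y - g0.1 y, sub_ne_zero.2 hy'.symm, fun g => ?_⟩
  rcases Int.units_eq_one_or (ψ g) with h | h
  · have e1 : g.1 (g0.1 y) = g0.1 y := by
      have := hy (g0⁻¹ * (g * g0)) (by rw [map_mul, map_mul, map_inv, h, one_mul, inv_mul_cancel])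
      have e2 := congrArg g0.1 this
      rwa [← AlgEquiv.mul_apply, ← Subgroup.coe_mul, mul_inv_cancel_left] at e2
    rw [map_sub, hy g h, e1, h]
    simp
  · have e1 : g.1 (g0.1 y) = y := hy (g * g0) (by rw [map_mul, h, hm]; simp)
    have e3 : g.1 y = g0.1 y := by
      have := hy (g0⁻¹ * g) (by rw [map_mul, map_inv, h, hm, inv_mul_cancel])
      have e2 := congrArg g0.1 this
      rwa [← AlgEquiv.mul_apply, ← Subgroup.coe_mul, mul_inv_cancel_left] at e2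
    rw [map_sub, e1, e3, h]
    simp

end Pool.Agent.P.MP_20768c_nt.Az.Cu

end

-- part Ab.K8
section

set_option autoImplicit false

open Complex NumberField IsDedekindDomain Filter Topology
open UpperHalfPlane hiding I
open scoped ComplexConjugate Real MatrixGroups

namespace Pool.Agent.P.MP_20768c_nt.Az.Cu

open Pool.Agent.P.MP_20768c_nt.Az.EQ (Lt pr sp IsLat jL qN)

theorem k8_lt {F : Type} [Field F] [NumberField F] (Q : HeightOneSpectrum (𝓞 F)) :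
    1 < Ideal.absNorm Q.asIdeal := by
  have := Q.isMaximal
  obtain ⟨p, n, hn, -, hp, e⟩ := Ideal.exists_prime_and_absNorm_eq_pow Q.asIdeal
  rw [e]
  exact Nat.one_lt_pow hn.ne' hp.one_lt

theorem k8_odd {F : Type} [Field F] [NumberField F] (Q : HeightOneSpectrum (𝓞 F))
    (h : ((2 : ℕ) : 𝓞 F) ∉ Q.asIdeal) : padicValNat 2 (Ideal.absNorm Q.asIdeal) = 0 := by
  have := Q.isMaximal
  obtain ⟨p, n, hn, hm, hp, e⟩ := Ideal.exists_prime_and_absNorm_eq_pow Q.asIdeal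
  refine padicValNat.eq_zero_of_not_dvd fun hd => h ?_
  rw [e] at hd
  rwa [(Nat.prime_dvd_prime_iff_eq Nat.prime_two hp).1 (Nat.prime_two.dvd_of_dvd_pow hd)]

theorem k8_rat {ι : Type} (T : Finset ι) (f : ι → ℚ) (h : ∀ i ∈ T, f i ≠ 0) :
    padicValRat 2 (∏ i ∈ T, f i) = ∑ i ∈ T, padicValRat 2 (f i) := by
  classical
  induction T using Finset.induction_on with
  | empty => simp
  | insert a T ha ih =>
    have h' : ∀ i ∈ T, f i ≠ 0 := fun i hi => h i (Finset.mem_insert_of_mem hi)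
    rw [Finset.prod_insert ha, Finset.sum_insert ha,
      padicValRat.mul (h a (Finset.mem_insert_self _ _)) (Finset.prod_ne_zero_iff.2 h'), ih h']

theorem k8_nat {ι : Type} (T : Finset ι) (f : ι → ℕ) (h : ∀ i ∈ T, f i ≠ 0) :
    padicValNat 2 (∏ i ∈ T, f i) = ∑ i ∈ T, padicValNat 2 (f i) := by
  have := k8_rat T (fun i => (f i : ℚ)) fun i hi => by exact_mod_cast h i hi
  rw [← Nat.cast_prod] at this
  simp only [padicValRat.of_nat] at this
  exact_mod_cast this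

theorem k8_EE (F : Type) [Field F] [NumberField F] {C : ℕ} (hC : C ≠ 0) :
    padicValRat 2 (EE F C) =
      (∑ Q ∈ (fin_primes F hC).toFinset, padicValNat 2 (Ideal.absNorm Q.asIdeal - 1) : ℕ) -
        (∑ Q ∈ (fin_primes F hC).toFinset, padicValNat 2 (Ideal.absNorm Q.asIdeal) : ℕ) := by
  have e : ∀ Q : HeightOneSpectrum (𝓞 F), (1 - ((Ideal.absNorm Q.asIdeal : ℕ) : ℚ)⁻¹) =
      ((Ideal.absNorm Q.asIdeal - 1 : ℕ) : ℚ) / (Ideal.absNorm Q.asIdeal : ℕ) := fun Q => by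
    have := k8_lt Q
    have h0 : ((Ideal.absNorm Q.asIdeal : ℕ) : ℚ) ≠ 0 := by exact_mod_cast (by omega)
    rw [Nat.cast_sub this.le, sub_div, div_self h0, Nat.cast_one, one_div]
  have n1 : ∀ Q : HeightOneSpectrum (𝓞 F), ((Ideal.absNorm Q.asIdeal - 1 : ℕ) : ℚ) ≠ 0 :=
    fun Q => by
      have := k8_lt Q
      exact_mod_cast (by omega)
  have n2 : ∀ Q : HeightOneSpectrum (𝓞 F), ((Ideal.absNorm Q.asIdeal : ℕ) : ℚ) ≠ 0 :=
    fun Q => by
      have := k8_lt Q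
      exact_mod_cast (by omega)
  rw [EE, finprod_mem_eq_finite_toFinset_prod _ (fin_primes F hC),
    k8_rat _ _ fun Q _ => by rw [e]; exact div_ne_zero (n1 Q) (n2 Q), Nat.cast_sum, Nat.cast_sum,
    ← Finset.sum_sub_distrib]
  refine Finset.sum_congr rfl fun Q _ => ?_
  rw [e, padicValRat.div (n1 Q) (n2 Q), padicValRat.of_nat, padicValRat.of_nat]

theorem k8_up (E F : Type) [Field E] [NumberField E] [Field F] [NumberField F] [Algebra E F]
    {C : ℕ} (hC : C ≠ 0) :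
    ∑ Q ∈ (fin_primes E hC).toFinset, padicValNat 2 (Ideal.absNorm Q.asIdeal - 1) ≤
      ∑ Q ∈ (fin_primes F hC).toFinset, padicValNat 2 (Ideal.absNorm Q.asIdeal - 1) := by
  classical
  have h : ∀ P : HeightOneSpectrum (𝓞 E), ∃ Q : HeightOneSpectrum (𝓞 F),
      Q.asIdeal.LiesOver P.asIdeal := fun P => by
    have := P.isMaximal
    obtain ⟨Q, hQ, h⟩ := Ideal.exists_maximal_ideal_liesOver_of_isIntegral (S := 𝓞 F) P.asIdeal
    exact ⟨⟨Q, hQ.isPrime, Ideal.ne_bot_of_liesOver_of_ne_bot P.ne_bot Q⟩, h⟩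
  choose g hg using h
  have inj : Function.Injective g := fun P P' e => HeightOneSpectrum.ext
    ((hg P).over.trans (e ▸ (hg P').over.symm))
  refine (Finset.sum_le_sum (g := fun P => padicValNat 2 (Ideal.absNorm (g P).asIdeal - 1))
    fun P _ => ?_).trans ?_
  · have := hg P
    have h1 := k8_lt (g P)
    refine (padicValNat_dvd_iff_le (by omega)).1 (pow_padicValNat_dvd.trans ?_)
    rw [Ideal.absNorm_eq_pow_inertiaDeg'_of_liesOver (g P).asIdeal P.asIdeal P.isPrime P.ne_bot]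
    exact Nat.sub_one_dvd_pow_sub_one _ _
  · rw [← Finset.sum_image (f := fun Q : HeightOneSpectrum (𝓞 F) =>
      padicValNat 2 (Ideal.absNorm Q.asIdeal - 1)) fun P _ P' _ e => inj e]
    refine Finset.sum_le_sum_of_subset fun Q hQ => ?_
    obtain ⟨P, hP, rfl⟩ := Finset.mem_image.1 hQ
    have := hg P
    have h2 := (Ideal.mem_of_liesOver (g P).asIdeal P.asIdeal _).1
      ((fin_primes E hC).mem_toFinset.1 hP)
    rw [map_natCast] at h2
    exact (fin_primes F hC).mem_toFinset.2 h2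

namespace Ab

variable (s : Ab) {n C : ℕ}

theorem w_val (hn : 1 ≤ n) : padicValNat 2 (Units.torsionOrder (s.K n)) = n := by
  have w0 := Units.torsionOrder_ne_zero (s.K n)
  have hz : IsPrimitiveRoot (⟨zt n, s.zt_mem n⟩ : s.K n) (2 ^ n) :=
    IsPrimitiveRoot.coe_submonoidClass_iff.1 (zt_prim n)
  refine le_antisymm (Nat.lt_succ_iff.1 (not_le.1 fun h => ?_))
    ((padicValNat_dvd_iff_le w0).1 (Units.dvd_torsionOrder_of_isPrimitiveRoot hz))
  obtain ⟨d, hd⟩ := (padicValNat_dvd_iff_le w0).2 h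
  obtain ⟨μ, hμ⟩ : ∃ μ : Units.torsion (s.K n), orderOf μ = Units.torsionOrder (s.K n) :=
    IsCyclic.exists_ofOrder_eq_natCard
  rw [← IsPrimitiveRoot.iff_orderOf, ← IsPrimitiveRoot.coe_submonoidClass_iff,
    ← IsPrimitiveRoot.coe_units_iff] at hμ
  have h1 := IsPrimitiveRoot.coe_submonoidClass_iff.2
    ((hμ.map_of_injective (FaithfulSMul.algebraMap_injective (𝓞 (s.K n)) (s.K n))).pow
      (Nat.pos_of_ne_zero w0) (hd.trans (mul_comm _ _)))
  obtain ⟨b, hb⟩ := tors_K hn (Subtype.property _) h1.pow_eq_one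
  have h2 := h1.dvd_of_pow_eq_one (2 ^ n) (by
    rw [hb, ← pow_mul, mul_comm, pow_mul, zt_pow, one_pow])
  exact absurd ((Nat.pow_dvd_pow_iff_le_right one_lt_two).1 h2) (Nat.not_succ_le_self n)

theorem two_norm (hn : 1 ≤ n) :
    ∏ᶠ Q ∈ {Q : HeightOneSpectrum (𝓞 (s.K n)) | ((2 : ℕ) : 𝓞 (s.K n)) ∈ Q.asIdeal},
      Ideal.absNorm Q.asIdeal ∣ 2 ^ (2 * s.g) := by
  let ζ : 𝓞 (s.K n) := ⟨⟨zt n, s.zt_mem n⟩, (isIntegral_algHom_iff
    ((s.K n).val.restrictScalars ℤ) (s.K n).val.injective).1 (zt_int n)⟩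
  obtain ⟨u, hu⟩ := s.unit_of_val (s.K n) (x := (1 - zt n) ^ 2 ^ (n - 1) / 2)
    (div_mem (pow_mem (sub_mem (one_mem _) (s.zt_mem n)) _) (ofNat_mem _ 2)) fun V => by
      have := v_one_sub V.valuation hn odd_one
      rw [pow_one] at this
      rw [map_div₀, map_pow, this, div_self ((map_ne_zero _).2 two_ne_zero)]
  have e : (1 - ζ) ^ 2 ^ (n - 1) = u * (2 : ℕ) := by
    refine RingOfIntegers.ext (Subtype.ext ?_)
    have e1 : (((((1 - ζ) ^ 2 ^ (n - 1) : 𝓞 (s.K n)) : s.K n)) : ℂ) = (1 - zt n) ^ 2 ^ (n - 1) := by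
      simp [ζ]
    have e2 : ((((u * (2 : ℕ) : 𝓞 (s.K n)) : s.K n)) : ℂ) = (((u : 𝓞 (s.K n)) : s.K n) : ℂ) * 2 := by
      rw [RingOfIntegers.coe_eq_algebraMap, map_mul, map_natCast]
      rfl
    rw [e1, e2, hu, div_mul_cancel₀ _ two_ne_zero]
  have e3 : Ideal.absNorm (Ideal.span {1 - ζ}) = 2 ^ (2 * s.g) := by
    refine Nat.pow_left_injective (n := 2 ^ (n - 1)) (by positivity) ?_
    simp only
    rw [← map_pow, Ideal.span_singleton_pow, e, Ideal.span_singleton_mul_left_unit u.isUnit,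
      Ideal.absNorm_span_natCast, RingOfIntegers.rank, s.finrank_K' hn, pow_mul]
  rw [finprod_mem_eq_finite_toFinset_prod _ (fin_primes (s.K n) two_ne_zero), ← e3, ← map_prod]
  refine map_dvd _ (Finset.prod_dvd_of_coprime
    (fun P _ Q _ h => HeightOneSpectrum.isCoprime_of_ne P Q h) fun Q hQ => ?_)
  rw [Ideal.dvd_span_singleton]
  refine Q.isPrime.mem_of_pow_mem (2 ^ (n - 1)) ?_
  rw [e]
  exact Q.asIdeal.mul_mem_left _ ((fin_primes (s.K n) two_ne_zero).mem_toFinset.1 hQ)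

theorem EE_val (hn : 2 ≤ n) (hC : C ≠ 0) :
    padicValRat 2 (EE (s.K (n - 1)) C) ≤ padicValRat 2 (EE (s.K n) C) + 2 * s.g := by
  classical
  let _ : Algebra (s.K (n - 1)) (s.K n) :=
    (IntermediateField.inclusion (s.K_mono (Nat.sub_le n 1))).toRingHom.toAlgebra
  have h1 := k8_up (s.K (n - 1)) (s.K n) hC
  have h2 := s.two_norm (n := n) (by omega)
  rw [finprod_mem_eq_finite_toFinset_prod _ (fin_primes (s.K n) two_ne_zero)] at h2
  have h3 := (padicValNat_dvd_iff_le (p := 2) (by norm_num)).1 (pow_padicValNat_dvd.trans h2)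
  rw [padicValNat.prime_pow, k8_nat _ _ fun Q _ => by have := k8_lt Q; omega] at h3
  have h4 : ∑ Q ∈ (fin_primes (s.K n) hC).toFinset, padicValNat 2 (Ideal.absNorm Q.asIdeal) ≤
      ∑ Q ∈ (fin_primes (s.K n) two_ne_zero).toFinset, padicValNat 2 (Ideal.absNorm Q.asIdeal) :=
    Finset.sum_le_sum_of_ne_zero fun Q _ h => (fin_primes (s.K n) two_ne_zero).mem_toFinset.2
      (by_contra fun h' => h (k8_odd Q h'))
  rw [k8_EE _ hC, k8_EE _ hC]
  omega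

end Ab

end Pool.Agent.P.MP_20768c_nt.Az.Cu

end

-- part Ab.K7
section

set_option autoImplicit false

open Complex NumberField IsDedekindDomain Filter Topology
open UpperHalfPlane hiding I
open scoped ComplexConjugate Real MatrixGroups

namespace Pool.Agent.P.MP_20768c_nt.Az.Cu

open Pool.Agent.P.MP_20768c_nt.Az.EQ (Lt pr sp IsLat jL qN)

namespace Ab

variable {s : Ab} {n : ℕ} {sb : (ZMod (2 ^ n))ˣ → s.Au}

theorem k7_uc_pow (ε : (𝓞 (s.K n))ˣ) (j : ℕ) : s.uc (ε ^ j) = s.uc ε ^ j := by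
  induction j with
  | zero => rfl
  | succ j ih => rw [pow_succ, uc_mul, ih, pow_succ]

theorem k7_v (σ : s.Au) (ε : (𝓞 (s.K n))ˣ) : s.v (σ (s.uc ε)) = 1 := by
  obtain ⟨e, he⟩ := unit_aut σ n
  rw [← he, v_uc]

theorem k7_fx (σ : s.Au) (ε : (𝓞 (s.K n))ˣ) : σ (s.uc ε) ∈ s.Fx n :=
  K_fx (K_aut σ (uc_mem ε))

theorem exists_Phi (hn : 2 ≤ n) (hs : s.IsSec n sb) :
    ∃ Φ : (𝓞 (s.K n))ˣ →* Multiplicative (s.Au → s.κ),
      (∀ ε σ, (Φ ε).toAdd σ = s.del n sb (σ (s.uc ε))) ∧ Φ.ker = s.KD n sb ∧ s.ZZ n ≤ s.KD n sb := by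
  let Φ : (𝓞 (s.K n))ˣ →* Multiplicative (s.Au → s.κ) := MonoidHom.mk'
    (fun ε => Multiplicative.ofAdd (fun σ : s.Au => s.del n sb (σ (s.uc ε)))) (fun ε ε' => by
      rw [← ofAdd_add]
      refine congrArg Multiplicative.ofAdd (funext fun σ => ?_)
      rw [uc_mul, map_mul]
      exact St.del_mul hn hs (k7_fx σ ε) (k7_fx σ ε') (k7_v σ ε) (k7_v σ ε'))
  have hk : ∀ ε, ε ∈ Φ.ker ↔ ∀ σ : s.Au, s.del n sb (σ (s.uc ε)) = 0 := fun ε =>
    ⟨fun h σ => congrFun (congrArg Multiplicative.toAdd h) σ,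
      fun h => congrArg Multiplicative.ofAdd (funext h)⟩
  have hker : Φ.ker = s.KD n sb := by
    rw [KD, ← Subgroup.closure_eq Φ.ker]
    exact congrArg Subgroup.closure (Set.ext hk)
  have hsq : ∀ η, η * η ∈ Φ.ker := fun η => (hk _).2 fun σ => by
    rw [uc_mul, map_mul, St.del_mul hn hs (k7_fx σ η) (k7_fx σ η) (k7_v σ η) (k7_v σ η),
      ← two_mul, St.two_κ, zero_mul]
  refine ⟨Φ, fun _ _ => rfl, hker, ?_⟩
  rw [← hker, ZZ, Subgroup.closure_le]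
  rintro ε (⟨η, rfl⟩ | h | h)
  · exact hsq η
  · obtain ⟨m, hm, h1⟩ := isOfFinOrder_iff_pow_eq_one.1 h
    obtain ⟨j, o, ⟨i, rfl⟩, rfl⟩ := Nat.exists_eq_two_pow_mul_odd hm.ne'
    have h2 : ε ^ (2 * i + 1) ∈ Φ.ker := (hk _).2 fun σ => by
      obtain ⟨b, hb⟩ := tors_K (j := j) (by omega) (K_aut σ (uc_mem (ε ^ (2 * i + 1)))) (by
        rw [← map_pow, ← k7_uc_pow, ← pow_mul, mul_comm, h1]
        exact map_one σ)
      rw [hb]
      exact St.del_root hn hs b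
    rw [pow_succ, two_mul, pow_add] at h2
    exact (Subgroup.mul_mem_cancel_left _ (hsq _)).1 h2
  · refine (hk _).2 fun σ => St.del_fix (fun h0 => ?_) ?_
    · have := k7_v σ ε
      rw [h0, map_zero] at this
      exact zero_ne_one this
    · refine (K_tau hn (fun x hx => inert_fix_N s.v_two (hs _).1 hx) ?_
        (K_aut σ (uc_mem ε))).2 (K_aut σ h)
      rw [(hs _).2, zt_tau hn]

theorem rk_le (hn : 3 ≤ n) (hs : s.IsSec n sb) (u : (𝓞 (s.K n))ˣ) {H : Subgroup (𝓞 (s.K n))ˣ}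
    (hH : s.CC u ≤ H) : 2 ^ s.rk' n sb (s.uc u) ≤ (s.KD n sb).relIndex H := by
  obtain ⟨Φ, h1, h2, h3⟩ := exists_Phi (by omega) hs
  have h0 : Φ.ker.index ≠ 0 := fun h => (s.ZZ_index hn).1
    (Nat.eq_zero_of_zero_dvd (h ▸ Subgroup.index_dvd_of_le (h2 ▸ h3)))
  have h4 : Φ.ker.relIndex H ≠ 0 := fun h => h0
    (Nat.eq_zero_of_zero_dvd (h ▸ Subgroup.relIndex_dvd_index_of_normal _ _))
  rw [← h2]
  rw [Subgroup.relIndex_ker] at h4 ⊢
  have : Finite (H.map Φ) := Nat.finite_of_card_ne_zero h4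
  have : Finite (AddSubgroup.toSubgroup.symm (H.map Φ)) := this
  refine two_pow_le (AddSubgroup.toSubgroup.symm (H.map Φ)) ?_
  rintro _ ⟨h, rfl⟩
  obtain ⟨e, he⟩ := unit_aut h n
  refine ⟨e u, hH (Subgroup.subset_closure (Or.inr (Or.inr ⟨h, he u⟩))), ?_⟩
  refine Multiplicative.toAdd.injective (funext fun g => ?_)
  rw [h1, he]
  rfl

theorem kd_of_sq (hn : 2 ≤ n) (hs : s.IsSec n sb) {ε : (𝓞 (s.K n))ˣ} {r : ℂ}
    (hr : r ^ 2 = s.uc ε) (h : ∀ σ : s.Au, ∃ n', σ r ∈ s.Fx n') : ε ∈ s.KD n sb := by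
  refine Subgroup.subset_closure fun σ => ?_
  obtain ⟨n', h'⟩ := h σ
  have e : σ (s.uc ε) = σ r ^ 2 := by rw [← hr, map_pow]
  have hv := k7_v σ ε
  have hx := k7_fx σ ε
  rw [e] at hx hv ⊢
  rw [map_pow] at hv
  exact St.del_sq hn hs hx h' ((pow_eq_one_iff_left two_ne_zero).1 hv)

end Ab

end Pool.Agent.P.MP_20768c_nt.Az.Cu

end

-- part Ab.M5
section

set_option autoImplicit false

open Complex NumberField IsDedekindDomain Filter Topology
open UpperHalfPlane hiding I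
open scoped ComplexConjugate Real MatrixGroups

namespace Pool.Agent.P.MP_20768c_nt.Az.Cu

open Pool.Agent.P.MP_20768c_nt.Az.EQ (Lt pr sp IsLat jL qN)

variable {K : Type} [Field K] [NumberField K] {s : Ab} {e : AlgebraicClosure K →+* ℂ}
  {N : Set (AlgebraicClosure K)}

theorem m5_lc (x : AlgebraicClosure K) : IsLocallyConstant fun g : GQ K => g x := by
  refine (IsLocallyConstant.iff_exists_open _).2 fun g => ?_
  refine ⟨(fun h => g⁻¹ * h) ⁻¹' (MulAction.stabilizer (GQ K) x : Set (GQ K)),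
    (m5p_open x).preimage (by fun_prop), by simp, fun h hh => ?_⟩
  have h1 : (g⁻¹ * h) x = x := hh
  rw [AlgEquiv.mul_apply, AlgEquiv.aut_inv, AlgEquiv.symm_apply_eq] at h1
  exact h1

theorem m5_closed (x : AlgebraicClosure K) (P : AlgebraicClosure K → Prop) :
    IsClosed {g : GQ K | P (g x)} :=
  ⟨m5_lc x {y | ¬ P y}⟩

theorem m5_alg (f : AlgebraicClosure K →+* ℂ) (x : AlgebraicClosure K) : IsAlgebraic ℚ (f x) := by
  have h1 : IsAlgebraic ℚ x :=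
    (Algebra.IsAlgebraic.trans ℚ K (AlgebraicClosure K)).isAlgebraic x
  exact h1.algHom f.toRatAlgHom

theorem m5_inI {Γ : Type} [LinearOrderedCommGroupWithZero Γ] {v : Valuation ℂ Γ} {σ : ℂ → ℂ}
    (f : AlgebraicClosure K →+* ℂ) {g : GQ K} (h : Inert v σ) (hg : ∀ x, f (g x) = σ (f x)) :
    InQ (v.comap f).valuationSubring g := by
  intro x hx
  have E := Valuation.isEquiv_valuation_valuationSubring (v.comap f)
  rw [← E.lt_one_iff_lt_one, Valuation.comap_apply, map_sub, hg]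
  exact h _ (m5_alg f x) (E.le_one_iff_le_one.2 hx)

theorem m5_unr (hN : ∀ x, e x ∈ s.N ↔ x ∈ N) (he : ∀ y : ℂ, IsAlgebraic ℚ y → ∃ x, e x = y)
    {C : ℕ} (h2 : Even C)
    {r : AlgebraicClosure K}
    (h : ∀ V : ValuationSubring (AlgebraicClosure K), V.valuation C = 1 →
      ∀ g ∈ Hq N, InQ V g → g r = r)
    (V : ValuationSubring ℂ) (σ : s.Au) (hV : V.valuation C = 1) (hσ : Inert V.valuation σ)
    (hf : ∀ x ∈ s.N, σ x = x) : σ (e r) = e r := by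
  obtain ⟨g, hg⟩ := pull he σ
  have v2 : V.valuation ((2 : ℕ) : ℂ) = 1 := v_nat_dvd V.valuation h2.two_dvd hV
  have hs : g ∈ Hq N := by
    refine ⟨fun x hx => e.injective ?_, fun x n hx => e.injective ?_⟩
    · rw [hg, hf _ ((hN x).2 hx)]
    · rw [hg]
      refine St.inert_root (m := 2 ^ n) hσ ?_ ?_
      · rw [Nat.cast_pow, map_pow, v2, one_pow]
      · rw [← map_pow, hx, map_one]
  have E := Valuation.isEquiv_valuation_valuationSubring (V.valuation.comap e)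
  have hW : (V.valuation.comap e).valuationSubring.valuation C = 1 := by
    rw [← E.eq_one_iff_eq_one, Valuation.comap_apply, map_natCast, hV]
  rw [← hg, h _ hW g hs (m5_inI e hσ hg)]

theorem m5_loc (hN : ∀ x, e x ∈ s.N ↔ x ∈ N) (he : ∀ y : ℂ, IsAlgebraic ℚ y → ∃ x, e x = y)
    {r : AlgebraicClosure K} (a : s.Au)
    (h : ∀ g ∈ Hq N, InQ (s.v.comap ((a : ℂ →+* ℂ).comp e)).valuationSubring g → g r = r) :
    ∃ n, ∀ σ : s.Au, Inert s.v σ → σ (zt n) = zt n → σ (a (e r)) = a (e r) := by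
  have := m5p_gal (K := K)
  by_contra hc
  push Not at hc
  set W := (s.v.comap ((a : ℂ →+* ℂ).comp e)).valuationSubring with hW
  let S : ℕ → Set (GQ K) := fun n => {g | InQ W g ∧ (∀ x ∈ N, g x = x) ∧
    (∀ x : AlgebraicClosure K, x ^ 2 ^ n = 1 → g x = x) ∧ g r ≠ r}
  have hcl : ∀ n, IsClosed (S n) := by
    intro n
    have e1 : S n = (⋂ x, {g : GQ K | W.valuation x ≤ 1 → W.valuation (g x - x) < 1}) ∩
        ((⋂ x, {g : GQ K | x ∈ N → g x = x}) ∩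
          ((⋂ x, {g : GQ K | x ^ 2 ^ n = 1 → g x = x}) ∩ {g : GQ K | g r ≠ r})) := by
      ext g
      simp only [S, InQ, Set.mem_inter_iff, Set.mem_iInter, Set.mem_ofPred_eq]
    rw [e1]
    exact (isClosed_iInter fun x =>
        m5_closed x fun y => W.valuation x ≤ 1 → W.valuation (y - x) < 1).inter
      ((isClosed_iInter fun x => m5_closed x fun y => x ∈ N → y = x).inter
        ((isClosed_iInter fun x => m5_closed x fun y => x ^ 2 ^ n = 1 → y = x).inter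
          (m5_closed r fun y => y ≠ r)))
  have hne : ∀ n, (S n).Nonempty := by
    intro n
    obtain ⟨σ, h1, h2, h3⟩ := hc n
    have hf : ∀ y ∈ s.N, (a⁻¹ * σ * a : s.Au) y = y := by
      intro y hy
      rw [AlgEquiv.mul_apply, AlgEquiv.mul_apply,
        Ab.inert_fix_N s.v_two h1 (St.au_mem s.toSt s.N a hy), AlgEquiv.aut_inv,
        AlgEquiv.symm_apply_apply]
    obtain ⟨g, hg⟩ := pull he (a⁻¹ * σ * a)
    have hg' : ∀ x, a (e (g x)) = σ (a (e x)) := by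
      intro x
      rw [hg, AlgEquiv.mul_apply, AlgEquiv.mul_apply, AlgEquiv.aut_inv, AlgEquiv.apply_symm_apply]
    refine ⟨g, m5_inI ((a : ℂ →+* ℂ).comp e) h1 hg', fun x hx => e.injective ?_,
      fun x hx => e.injective (a.injective ?_), fun h4 => h3 ?_⟩
    · rw [hg, hf _ ((hN x).2 hx)]
    · obtain ⟨b, hb⟩ := root_zt (n := n) (x := a (e x))
        (by rw [← map_pow, ← map_pow, hx, map_one, map_one])
      rw [hg', hb, map_pow, h2]
    · rw [← hg', h4]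
  obtain ⟨g, hg⟩ := IsCompact.nonempty_iInter_of_sequence_nonempty_isCompact_isClosed S
    (fun n g hg => ⟨hg.1, hg.2.1, fun x hx => hg.2.2.1 x (by rw [pow_succ, pow_mul, hx, one_pow]),
      hg.2.2.2⟩) hne (hcl 0).isCompact hcl
  rw [Set.mem_iInter] at hg
  exact (hg 0).2.2.2 (h g ⟨(hg 0).2.1, fun x n hx => (hg n).2.2.1 x hx⟩ (hg 0).1)

theorem finite_HQ (hN : ∀ x, e x ∈ s.N ↔ x ∈ N) (he : ∀ y : ℂ, IsAlgebraic ℚ y → ∃ x, e x = y)
    {C : ℕ} (h2 : Even C) {X : Finset ℂ}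
    (hX : ∀ r ∈ X, s.Cond C r) (hX' : ∀ r, s.Cond C r → ∃ r₀ ∈ X, ∃ n, r / r₀ ∈ s.K n) :
    ∃ A, A.Finite ∧ (HQ (Hq N) C A).Finite := by
  obtain ⟨ρ, hρ, hρ'⟩ := St.exists_res s.toSt s.N
  choose sec hsec using hρ
  refine ⟨Set.range fun g => (s.v.comap ((sec g : ℂ →+* ℂ).comp e)).valuationSubring,
    Set.finite_range _, ?_⟩
  let T : ℂ → Set (Hq N →* ℤˣ) := fun r₀ => {ψ | ∃ r : AlgebraicClosure K, r ≠ 0 ∧
    (∀ g : Hq N, g.1 r = ((ψ g : ℤ) : AlgebraicClosure K) * r) ∧ ∃ n, e r / r₀ ∈ s.K n}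
  refine (X.finite_toSet.biUnion (t := T) fun r₀ h0 => Set.Subsingleton.finite ?_).subset ?_
  · rintro ψ ⟨r, hr, h1, n, hn⟩ ψ' ⟨r', hr', h1', n', hn'⟩
    have hm : e (r / r') ∈ s.K (max n n') := by
      rw [map_div₀, ← div_div_div_cancel_right₀ (hX r₀ h0).1]
      exact div_mem (Ab.K_mono s (le_max_left _ _) hn) (Ab.K_mono s (le_max_right _ _) hn')
    have hf := (fixed_Hq hN he).2 ⟨_, hm⟩
    ext g
    have h3 := hf g.1 g.2
    have h4 : ((ψ' g : ℤ) : AlgebraicClosure K) ≠ 0 := Int.cast_ne_zero.2 (Units.ne_zero _)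
    rw [map_div₀, h1, h1', div_eq_div_iff (mul_ne_zero h4 hr') hr'] at h3
    have h5 : ((ψ g : ℤ) : AlgebraicClosure K) = ((ψ' g : ℤ) : AlgebraicClosure K) :=
      mul_right_cancel₀ (mul_ne_zero hr hr') (by linear_combination h3)
    exact Int.cast_injective h5
  · rintro ψ ⟨⟨T₀, hl⟩, hψ⟩
    obtain ⟨r, hr, h1⟩ := kummerQ ψ T₀ hl
    have hfix : ∀ V : ValuationSubring (AlgebraicClosure K), (V.valuation C = 1 ∨
        V ∈ Set.range fun g => (s.v.comap ((sec g : ℂ →+* ℂ).comp e)).valuationSubring) →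
        ∀ g ∈ Hq N, InQ V g → g r = r := by
      intro V hV g hg hi
      have h3 := h1 ⟨g, hg⟩
      rw [hψ V hV ⟨g, hg⟩ hi] at h3
      simpa using h3
    have hc : s.Cond C (e r) := by
      refine ⟨(map_ne_zero e).2 hr, ?_,
        fun V σ => m5_unr hN he h2 (fun V hV => hfix V (Or.inl hV)) V σ, fun a => ?_⟩
      · rw [← map_pow]
        refine (fixed_Hq hN he).1 fun g hg => ?_
        have h3 := h1 ⟨g, hg⟩
        have h4 : ((ψ ⟨g, hg⟩ : ℤ) : AlgebraicClosure K) ^ 2 = 1 := by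
          rw [← Int.cast_pow, ← Units.val_pow_eq_pow_val, Int.units_sq, Units.val_one, Int.cast_one]
        rw [map_pow, h3, mul_pow, h4, one_mul]
      · refine ⟨sec (ρ a), fun x hx => ?_,
          m5_loc hN he _ (hfix _ (Or.inr ⟨ρ a, rfl⟩))⟩
        exact (hρ' _ ⟨x, hx⟩).symm.trans (by rw [hsec]; exact hρ' a ⟨x, hx⟩)
    obtain ⟨r₀, h0, hn⟩ := hX' _ hc
    exact Set.mem_biUnion h0 ⟨r, hr, h1, hn⟩

end Pool.Agent.P.MP_20768c_nt.Az.Cu

end
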