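import Pool.Agent.P.MP_20768c_nt.Az.Z0
import Pool.Agent.P.MP_20768c_nt.Az.Z6
import Pool.Agent.P.MP_20768c_nt.Az.Z7
import Pool.Agent.P.MP_20768c_nt.Az.Z8

-- part Cu.H1a_p
section

set_option autoImplicit false

open Complex NumberField IsDedekindDomain Filter Topology
open UpperHalfPlane hiding I
open scoped ComplexConjugate Real MatrixGroups

namespace Pool.Agent.P.MP_20768c_nt.Az.Cu

open Pool.Agent.P.MP_20768c_nt.Az.EQ (Lt pr sp IsLat jL qN)

theorem h1ap_sq {F : Type} [Field F] [Fintype F] [DecidableEq F] (hF : ringChar F ≠ 2)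
    {ψ : AddChar F ℂ} (hψ : ψ.IsPrimitive) {a : F} (ha : a ≠ 0) :
    ∑ x : F, ψ (a * x ^ 2) = (quadraticChar F a : ℂ) *
      gaussSum ((quadraticChar F).ringHomComp (Int.castRingHom ℂ)) ψ := by
  have h1 : ∑ x : F, ψ (a * x ^ 2) = ∑ t : F, ((quadraticChar F t : ℂ) + 1) * ψ (a * t) := by
    rw [← Finset.sum_fiberwise (s := Finset.univ) (g := fun x : F => x ^ 2)]
    refine Finset.sum_congr rfl fun t _ => ?_
    rw [Finset.sum_congr rfl (g := fun _ => ψ (a * t)) fun x hx => by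
      rw [(Finset.mem_filter.1 hx).2], Finset.sum_const, nsmul_eq_mul]
    have h2 := quadraticChar_card_sqrts hF t
    rw [Set.toFinset_ofPred] at h2
    congr 1
    exact_mod_cast h2
  have h3 : ∑ t : F, ψ (a * t) = 0 := by
    have h4 := AddChar.sum_mulShift a hψ
    rw [if_neg ha] at h4
    simpa only [mul_comm a, Nat.cast_zero] using h4
  have h5 := gaussSum_mulShift ((quadraticChar F).ringHomComp (Int.castRingHom ℂ)) ψ
    (Units.mk0 a ha)
  have h6 : (quadraticChar F a : ℂ) ^ 2 = 1 := by exact_mod_cast quadraticChar_sq_one ha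
  rw [h1, ← h5]
  simp only [add_mul, one_mul, Finset.sum_add_distrib, h3, add_zero, Units.val_mk0,
    MulChar.ringHomComp_apply, eq_intCast, gaussSum, AddChar.mulShift_apply]
  rw [← mul_assoc, ← sq, h6, one_mul]

theorem h1ap_bin {F : Type} [Field F] [Fintype F] [DecidableEq F] (hF : ringChar F ≠ 2)
    {ψ : AddChar F ℂ} (hψ : ψ.IsPrimitive) {α β γ b : F} (hα : α ≠ 0) (hb : b ≠ 0)
    (hD : β ^ 2 - 4 * α * γ ≠ 0) :
    ∑ x : F, ∑ y : F, ψ (b * (α * x ^ 2 + β * x * y + γ * y ^ 2)) =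
      Fintype.card F * (quadraticChar F (β ^ 2 - 4 * α * γ) : ℂ) := by
  have h2 : (2 : F) ≠ 0 := Ring.two_ne_zero hF
  have h4 : (4 : F) ≠ 0 := by
    have : (4 : F) = 2 * 2 := by norm_num
    rw [this]
    exact mul_ne_zero h2 h2
  set c : F := -(b * (β ^ 2 - 4 * α * γ) / (4 * α)) with hc
  have hc0 : c ≠ 0 := neg_ne_zero.2 (div_ne_zero (mul_ne_zero hb hD) (mul_ne_zero h4 hα))
  have h1 : ∀ y : F, ∑ x : F, ψ (b * (α * x ^ 2 + β * x * y + γ * y ^ 2)) =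
      (∑ x : F, ψ (b * α * x ^ 2)) * ψ (c * y ^ 2) := fun y => by
    rw [Finset.sum_mul]
    refine Fintype.sum_equiv (Equiv.addRight (β * y / (2 * α))) _ _ fun x => ?_
    rw [← AddChar.map_add_eq_mul, Equiv.coe_addRight, hc]
    congr 1
    have : (4 : F) = 2 * 2 := by norm_num
    rw [this]
    field_simp
    ring
  rw [Finset.sum_comm, Finset.sum_congr rfl fun y _ => h1 y, ← Finset.mul_sum,
    h1ap_sq hF hψ (mul_ne_zero hb hα), h1ap_sq hF hψ hc0]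
  have h5 := gaussSum_sq ((MulChar.ringHomComp_ne_one_iff (f := Int.castRingHom ℂ)
    (RingHom.injective_int _)).2 (quadraticChar_ne_one hF))
    ((quadraticChar_isQuadratic F).comp _) hψ
  have h6 : quadraticChar F (b * α) * quadraticChar F c * quadraticChar F (-1) =
      quadraticChar F (β ^ 2 - 4 * α * γ) := by
    have h7 : b * α * c * -1 = (b / 2) ^ 2 * (β ^ 2 - 4 * α * γ) := by
      rw [hc]
      have : (4 : F) = 2 * 2 := by norm_num
      rw [this]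
      field_simp
    rw [← map_mul, ← map_mul, h7, map_mul, quadraticChar_sq_one' (div_ne_zero hb h2), one_mul]
  have h8 : (quadraticChar F (b * α) : ℂ) * quadraticChar F c * quadraticChar F (-1) =
      quadraticChar F (β ^ 2 - 4 * α * γ) := by exact_mod_cast h6
  rw [MulChar.ringHomComp_apply, eq_intCast] at h5
  rw [← h8]
  linear_combination (quadraticChar F (b * α) : ℂ) * quadraticChar F c * h5

theorem h1ap_range {d : ℕ} [NeZero d] (f : ZMod d → ℂ) :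
    ∑ x ∈ Finset.range d, f x = ∑ x : ZMod d, f x :=
  Finset.sum_nbij' (fun x => (x : ZMod d)) ZMod.val (fun _ _ => Finset.mem_univ _)
    (fun x _ => Finset.mem_range.2 (ZMod.val_lt x))
    (fun _ hx => ZMod.val_cast_of_lt (Finset.mem_range.1 hx))
    (fun x _ => ZMod.natCast_zmod_val x) fun _ _ => rfl

theorem gauss_bin {d : ℕ} (hd : d.Prime) (h2 : d ≠ 2) {α β γ b : ℤ} (hα : ¬ (d : ℤ) ∣ α)
    (hb : ¬ (d : ℤ) ∣ b) (hD : ¬ (d : ℤ) ∣ β ^ 2 - 4 * α * γ) :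
    ∑ x ∈ Finset.range d, ∑ y ∈ Finset.range d,
      cexp (2 * π * I * (b * (α * x ^ 2 + β * x * y + γ * y ^ 2)) / d) =
        d * (jacobiSym (β ^ 2 - 4 * α * γ) d : ℂ) := by
  have : Fact d.Prime := ⟨hd⟩
  have hF : ringChar (ZMod d) ≠ 2 := by rwa [ZMod.ringChar_zmod_n]
  have e : ∀ {t : ℤ}, ¬ (d : ℤ) ∣ t → (t : ZMod d) ≠ 0 := fun ht h0 =>
    ht ((ZMod.intCast_zmod_eq_zero_iff_dvd _ _).1 h0)
  have hD' := e hD
  have e2 : ((β ^ 2 - 4 * α * γ : ℤ) : ZMod d) = (β : ZMod d) ^ 2 - 4 * α * γ := by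
    push_cast
    ring
  rw [e2] at hD'
  have h1 := h1ap_bin hF (ZMod.isPrimitive_stdAddChar d) (e hα) (e hb) hD'
  rw [ZMod.card, ← e2] at h1
  rw [← jacobiSym.legendreSym.to_jacobiSym, legendreSym, ← h1, ← h1ap_range]
  refine Finset.sum_congr rfl fun x _ => ?_
  rw [← h1ap_range]
  refine Finset.sum_congr rfl fun y _ => ?_
  have h3 := ZMod.stdAddChar_coe (N := d) (b * (α * x ^ 2 + β * x * y + γ * y ^ 2))
  push_cast at h3
  exact h3.symm

theorem Th_shift (L : Lt) (A : ℝ) (z e r : ℂ) {τ τ' : ℍ} (h : (τ' : ℂ) = τ + r)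
    (he : ∀ l ∈ L, cexp (2 * π * I * r * ((z + l) * conj (z + l)) / A) = e) :
    Th L A z τ' = e * Th L A z τ := by
  unfold Th th1
  rw [← tsum_mul_left]
  refine tsum_congr fun l => ?_
  rw [← he l l.2, h, mul_left_comm (cexp _), ← Complex.exp_add]
  congr 2
  ring

namespace St

variable (s : St) {L : s.Sub} {N : ℕ} {ρ : ℂ}

theorem h1ap_ab (β : s.O) : ∃ a b : ℤ, s.c β = a + b * s.c s.w := by
  obtain ⟨a, b, rfl⟩ := s.span β
  exact ⟨a, b, by rw [s.c_add, s.c_mul, s.c_int, s.c_int]⟩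

theorem h1ap_real (hL : IsUnit L) {x : ℂ} (hx : x ∈ L) : ∃ a : ℤ, x * conj x = s.nL L * a := by
  obtain ⟨β, hβ⟩ := s.mul_conj_mem hL hx hx
  obtain ⟨a, b, hab⟩ := s.h1ap_ab β
  have h1 := congrArg Complex.im hβ
  have h2 : 0 < (s.c s.w).im := s.w_im
  rw [hab, Complex.mul_conj] at h1
  have h3 : b = 0 := by
    have h4 := (s.nL_pos hL).ne'
    simpa [h4, h2.ne'] using h1
  exact ⟨a, by rw [hβ, hab, h3, Int.cast_zero, zero_mul, add_zero]⟩

theorem exists_form (hL : IsUnit L) : ∃ (ω₁ ω₂ : ℂ) (α β γ : ℤ), 0 < α ∧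
    β ^ 2 - 4 * α * γ = -s.dd ∧ (∀ x y : ℤ, (x : ℂ) * ω₁ + y * ω₂ ∈ L ∧
      (x * ω₁ + y * ω₂) * conj ((x : ℂ) * ω₁ + y * ω₂) =
        s.nL L * (α * x ^ 2 + β * x * y + γ * y ^ 2)) ∧
    (∀ z ∈ L, ∃ x y : ℤ, z = x * ω₁ + y * ω₂) ∧
    ∀ x y : ℤ, (x : ℂ) * ω₁ + y * ω₂ = 0 → x = 0 ∧ y = 0 := by
  obtain ⟨c, τ, hc, e⟩ := s.isLat_zl hL
  have hm : ∀ z, z ∈ L ↔ ∃ x y : ℤ, z = x * c + y * (c * τ) := fun z => by
    rw [← s.mem_zl, e, Pool.Agent.P.MP_20768c_nt.Az.EQ.mem_sp]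
  have m1 : c ∈ L := (hm _).2 ⟨1, 0, by simp⟩
  have m2 : c * τ ∈ L := (hm _).2 ⟨0, 1, by simp⟩
  obtain ⟨α, hα⟩ := s.h1ap_real hL m1
  obtain ⟨γ, hγ⟩ := s.h1ap_real hL m2
  obtain ⟨δ, hδ⟩ := s.mul_conj_mem hL m1 m2
  obtain ⟨a, b, hab⟩ := s.h1ap_ab δ
  have hn := s.nL_pos hL
  have hn' : (s.nL L : ℂ) ≠ 0 := Complex.ofReal_ne_zero.2 hn.ne'
  have hδ' : conj c * (c * τ) = s.nL L * (a + b * (1 - s.c s.w)) := by
    have h1 := congrArg conj hδ
    rw [hab, map_mul, Complex.conj_conj] at h1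
    rw [h1, map_mul, map_add, map_mul, s.conj_w, Complex.conj_ofReal, map_intCast, map_intCast]
  rw [hab] at hδ
  refine ⟨c, c * τ, α, 2 * a + b, γ, ?_, ?_, fun x y => ⟨(hm _).2 ⟨x, y, rfl⟩, ?_⟩,
    fun z hz => (hm z).1 hz, fun x y h => ?_⟩
  · rw [Complex.mul_conj] at hα
    have h1 : Complex.normSq c = s.nL L * α := by exact_mod_cast hα
    have h2 := Complex.normSq_pos.2 hc
    rw [h1] at h2
    exact_mod_cast (mul_pos_iff_of_pos_left hn).1 h2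
  · have h0 : (0 : ℝ) < ar (s.zl 1) := ar_pos (s.isLat_zl isUnit_one)
    have h1 : ‖c‖ ^ 2 * τ.im = s.nL L * (Real.sqrt s.dd / 2) := by
      rw [← ar_sp hc, ← e, ← s.ar_one, nL, div_mul_cancel₀ _ h0.ne']
    have h2 : (c * conj c) * τ.im = s.nL L * ((Real.sqrt s.dd : ℝ) / 2) := by
      rw [Complex.mul_conj, Complex.normSq_eq_norm_sq]
      exact_mod_cast h1
    have h3 : ((Real.sqrt s.dd : ℝ) : ℂ) ^ 2 = s.dd := by
      exact_mod_cast Real.sq_sqrt (Nat.cast_nonneg s.dd)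
    have h4 : (τ : ℂ) - conj (τ : ℂ) = 2 * τ.im * I := by
      rw [Complex.sub_conj, coe_im]
      push_cast
      ring
    have h5 : ((2 * a + b : ℂ) ^ 2 - 4 * α * γ) = -s.dd := by
      refine mul_left_cancel₀ (pow_ne_zero 2 hn') ?_
      have h6 : c * conj (c * τ) + conj c * (c * τ) = s.nL L * (2 * a + b) := by
        rw [hδ, hδ']
        ring
      have h7 : (s.nL L : ℂ) ^ 2 * ((2 * a + b : ℂ) ^ 2 - 4 * α * γ) =
          (s.nL L * (2 * a + b)) ^ 2 - 4 * (s.nL L * α) * (s.nL L * γ) := by ring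
      have h8 : (c * conj (c * τ) + conj c * (c * τ)) ^ 2 -
          4 * (c * conj c) * (c * τ * conj (c * τ)) = (c * conj c * (τ - conj (τ : ℂ))) ^ 2 := by
        rw [map_mul]
        ring
      have h9 : c * conj c * (2 * τ.im * I) = 2 * I * (c * conj c * τ.im) := by ring
      rw [h7, ← h6, ← hα, ← hγ, h8, h4, h9, h2]
      linear_combination (s.nL L : ℂ) ^ 2 * ((Real.sqrt s.dd : ℝ) : ℂ) ^ 2 * Complex.I_sq -
        (s.nL L : ℂ) ^ 2 * h3
    exact_mod_cast h5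
  · rw [map_add, map_mul, map_mul (starRingEnd ℂ) (y : ℂ), map_intCast, map_intCast]
    push_cast
    linear_combination (x : ℂ) ^ 2 * hα + (y : ℂ) ^ 2 * hγ + x * y * hδ + x * y * hδ'
  · have h1 : (y : ℂ) * τ + x = 0 := by
      refine mul_left_cancel₀ hc ?_
      linear_combination h
    exact (Pool.Agent.P.MP_20768c_nt.Az.EQ.int_indep_lat τ h1).symm

theorem h1ap_jac {d : ℕ} (hd : Odd d) : jacobiSym (-(s.dd : ℤ)) d = jacobiSym d s.dd := by
  have h1 : s.dd % 4 = 3 := by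
    have := s.dd_mod
    omega
  rw [jacobiSym.neg _ hd]
  have h2 : d % 4 = 1 ∨ d % 4 = 3 := by
    have := Nat.odd_iff.1 hd
    omega
  rcases h2 with h2 | h2
  · rw [ZMod.χ₄_nat_one_mod_four h2, one_mul,
      jacobiSym.quadratic_reciprocity_one_mod_four h2 (Nat.odd_iff.2 (by omega))]
  · rw [ZMod.χ₄_nat_three_mod_four h2, jacobiSym.quadratic_reciprocity_three_mod_four h1 h2]
    ring

theorem gauss_lat (hL : IsUnit L) : ∃ B : ℕ, ∀ d : ℕ, d.Prime → B < d → ∀ (b : ℤ) (R : Finset ℂ),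
    ¬ (d : ℤ) ∣ b → Reps (s.zl (s.sc d * L)) (s.zl L) R →
    ∑ y ∈ R, cexp (2 * π * I * (b * (y * conj y / s.nL L)) / d) = d * (jacobiSym d s.dd : ℂ) := by
  classical
  obtain ⟨ω₁, ω₂, α, β, γ, hα, hD, hQ, hs, hi⟩ := s.exists_form hL
  refine ⟨α.toNat + s.dd + 2, fun d hd hB b R hb hR => ?_⟩
  have hn' : (s.nL L : ℂ) ≠ 0 := Complex.ofReal_ne_zero.2 (s.nL_pos hL).ne'
  have hd0 : (d : ℂ) ≠ 0 := Nat.cast_ne_zero.2 hd.pos.ne'
  have hd1 : (0 : ℤ) < d := Nat.cast_pos.2 hd.pos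
  have hdd : 0 < s.dd := by
    have := s.dd_mod
    omega
  have hm : ∀ z, z ∈ s.zl (s.sc d * L) ↔ ∃ x y : ℤ, z = d * (x * ω₁ + y * ω₂) := fun z => by
    rw [s.mem_zl, s.mem_sc_mul]
    constructor
    · rintro ⟨t, ht, rfl⟩
      obtain ⟨x, y, rfl⟩ := hs t ht
      exact ⟨x, y, rfl⟩
    · rintro ⟨x, y, rfl⟩
      exact ⟨_, (hQ x y).1, rfl⟩
  have hu : ∀ x y x' y' : ℕ, x < d → y < d → x' < d → y' < d →
      ((x : ℂ) * ω₁ + y * ω₂) - (x' * ω₁ + y' * ω₂) ∈ s.zl (s.sc d * L) → x = x' ∧ y = y' := by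
    intro x y x' y' hx hy hx' hy' h
    obtain ⟨p, q, e⟩ := (hm _).1 h
    obtain ⟨h1, h2⟩ := hi (x - x' - d * p) (y - y' - d * q) (by
      push_cast
      linear_combination e)
    have h3 : ∀ (u v : ℕ) (t : ℤ), u < d → v < d → (u : ℤ) - v - d * t = 0 → u = v := by
      intro u v t hu hv h
      have h4 : (u : ℤ) % d = (v : ℤ) % d := by
        rw [show (u : ℤ) = v + d * t by linear_combination h, Int.add_mul_emod_self_left]
      rw [Int.emod_eq_of_lt (Nat.cast_nonneg _) (Nat.cast_lt.2 hu),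
        Int.emod_eq_of_lt (Nat.cast_nonneg _) (Nat.cast_lt.2 hv)] at h4
      exact_mod_cast h4
    exact ⟨h3 x x' p hx hx' h1, h3 y y' q hy hy' h2⟩
  set g : ℕ × ℕ → ℂ := fun p => (p.1 : ℂ) * ω₁ + p.2 * ω₂ with hg
  have hR' : Reps (s.zl (s.sc d * L)) (s.zl L) ((Finset.range d ×ˢ Finset.range d).image g) := by
    refine ⟨hR.1, Finset.mem_image.2 ⟨(0, 0), by simpa using hd.pos, by simp [hg]⟩,
      fun r hr => ?_, fun z hz => ?_⟩
    · obtain ⟨p, -, rfl⟩ := Finset.mem_image.1 hr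
      have h1 := (hQ p.1 p.2).1
      rw [Int.cast_natCast, Int.cast_natCast] at h1
      exact s.mem_zl.2 h1
    · obtain ⟨x, y, rfl⟩ := hs z (s.mem_zl.1 hz)
      have h1 : ∀ t : ℤ, ∃ (u : ℕ) (k : ℤ), u < d ∧ (t : ℂ) = u + d * k := fun t => by
        obtain ⟨u, hu⟩ := Int.eq_ofNat_of_zero_le (Int.emod_nonneg t hd1.ne')
        refine ⟨u, t / d, ?_, ?_⟩
        · have h2 := Int.emod_lt_of_pos t hd1
          rw [hu] at h2
          exact_mod_cast h2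
        · have h2 := Int.emod_add_mul_ediv t d
          rw [hu] at h2
          exact_mod_cast h2.symm
      obtain ⟨u, k, hu1, hu2⟩ := h1 x
      obtain ⟨v, l, hv1, hv2⟩ := h1 y
      have h3 : (x : ℂ) * ω₁ + y * ω₂ - g (u, v) ∈ s.zl (s.sc d * L) :=
        (hm _).2 ⟨k, l, by
          simp only [hg]
          rw [hu2, hv2]
          ring⟩
      refine ⟨g (u, v), ⟨Finset.mem_image_of_mem _ (Finset.mem_product.2
        ⟨Finset.mem_range.2 hu1, Finset.mem_range.2 hv1⟩), h3⟩, fun r hr => ?_⟩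
      obtain ⟨p, hp, rfl⟩ := Finset.mem_image.1 hr.1
      obtain ⟨hp1, hp2⟩ := Finset.mem_product.1 hp
      have h4 := sub_mem h3 hr.2
      rw [sub_sub_sub_cancel_left] at h4
      obtain ⟨h5, h6⟩ := hu _ _ _ _ (Finset.mem_range.1 hp1) (Finset.mem_range.1 hp2) hu1 hv1 h4
      rw [← h5, ← h6]
  have hf : ∀ x y : ℤ, cexp (2 * π * I * (b * (((x : ℂ) * ω₁ + y * ω₂) *
      conj ((x : ℂ) * ω₁ + y * ω₂) / s.nL L)) / d) =
      cexp (2 * π * I * (b * (α * x ^ 2 + β * x * y + γ * y ^ 2)) / d) := fun x y => by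
    rw [(hQ x y).2, mul_div_cancel_left₀ _ hn']
  rw [hR.sum_congr hR' (fun y => cexp (2 * π * I * (b * (y * conj y / s.nL L)) / d)),
    Finset.sum_image, Finset.sum_product]
  · have h1 := gauss_bin hd (by omega) (α := α) (β := β) (γ := γ)
      (fun h => by have := Int.le_of_dvd hα h; omega) hb
      (fun h => by
        rw [hD, dvd_neg] at h
        have := Int.le_of_dvd (Nat.cast_pos.2 hdd) h
        omega)
    rw [hD, s.h1ap_jac (hd.odd_of_ne_two (by omega))] at h1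
    rw [← h1]
    refine Finset.sum_congr rfl fun x _ => Finset.sum_congr rfl fun y _ => ?_
    have h2 := hf x y
    rw [Int.cast_natCast, Int.cast_natCast] at h2
    exact h2
  · intro p hp q hq e
    obtain ⟨hp1, hp2⟩ := Finset.mem_product.1 hp
    obtain ⟨hq1, hq2⟩ := Finset.mem_product.1 hq
    obtain ⟨h1, h2⟩ := hu _ _ _ _ (Finset.mem_range.1 hp1) (Finset.mem_range.1 hp2)
      (Finset.mem_range.1 hq1) (Finset.mem_range.1 hq2) (by
        have e' : (p.1 : ℂ) * ω₁ + p.2 * ω₂ = q.1 * ω₁ + q.2 * ω₂ := e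
        rw [e', sub_self]
        exact zero_mem _)
    exact Prod.ext h1 h2
  · intro a ha l hl
    obtain ⟨x, y, rfl⟩ := hs a (s.mem_zl.1 ha)
    obtain ⟨p, q, rfl⟩ := (hm l).1 hl
    have e : (x : ℂ) * ω₁ + y * ω₂ + d * (p * ω₁ + q * ω₂) =
        ((x + d * p : ℤ) : ℂ) * ω₁ + ((y + d * q : ℤ) : ℂ) * ω₂ := by
      push_cast
      ring
    rw [e, hf, hf]
    refine Complex.exp_eq_exp_iff_exists_int.2 ⟨b * (α * (2 * x * p + d * p ^ 2) +
      β * (x * q + p * y + d * p * q) + γ * (2 * y * q + d * q ^ 2)), ?_⟩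
    push_cast
    field_simp
    ring

end St

end Pool.Agent.P.MP_20768c_nt.Az.Cu

end

-- part Cu.C3
section

set_option autoImplicit false

open Complex NumberField IsDedekindDomain Filter Topology
open UpperHalfPlane hiding I
open scoped ComplexConjugate Real MatrixGroups

namespace Pool.Agent.P.MP_20768c_nt.Az.Cu

open Pool.Agent.P.MP_20768c_nt.Az.EQ (Lt pr sp IsLat jL qN)

theorem c3_bij {β γ : Type} {Φ : β → ℂ} (hs : Summable Φ) (e : γ → β)
    (inj : ∀ x y, Φ (e x) ≠ 0 → e x = e y → x = y) (surj : ∀ b, Φ b ≠ 0 → ∃ x, e x = b) :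
    HasSum (fun x => Φ (e x)) (∑' b, Φ b) := by
  have hi : Function.Injective fun x : Function.support fun x => Φ (e x) => e x.1 :=
    fun x y h => Subtype.ext (inj _ _ x.2 h)
  refine hasSum_subtype_support.1 ((hi.hasSum_iff fun b hb => ?_).2 hs.hasSum)
  by_contra h
  obtain ⟨x, rfl⟩ := surj b h
  exact hb ⟨⟨x, h⟩, rfl⟩

theorem c3_two {β γ : Type} {Φ : β → ℂ} (hs : Summable Φ) (e : γ → β) (ι : γ → γ)
    (h1 : ∀ x, e (ι x) = e x) (h2 : ∀ x, Φ (e x) ≠ 0 → ι x ≠ x)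
    (inj : ∀ x y, Φ (e x) ≠ 0 → e x = e y → y = x ∨ y = ι x)
    (surj : ∀ b, Φ b ≠ 0 → ∃ x, e x = b) : HasSum (fun x => Φ (e x)) (2 * ∑' b, Φ b) := by
  classical
  have h3 : HasSum (Sum.elim Φ Φ) (∑' b, Φ b + ∑' b, Φ b) := HasSum.sum hs.hasSum hs.hasSum
  let r : γ → γ := fun x => Classical.choose (⟨x, rfl⟩ : ∃ z, e z = e x)
  have hr : ∀ x, e (r x) = e x := fun x => Classical.choose_spec (⟨x, rfl⟩ : ∃ z, e z = e x)
  have hr' : ∀ x y, e x = e y → r x = r y := fun x y h => by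
    simp only [r, h]
  let e' : γ → β ⊕ β := fun x => if x = r x then .inl (e x) else .inr (e x)
  have h4 : ∀ x, Sum.elim Φ Φ (e' x) = Φ (e x) := fun x => by
    simp only [e']
    split_ifs <;> rfl
  have h5 := c3_bij h3.summable e' (fun x y hx h => by
      rw [h4] at hx
      simp only [e'] at h
      split_ifs at h with a b b
      · rw [a, b, hr' _ _ (Sum.inl.inj h)]
      · have h6 := Sum.inr.inj h
        rw [(inj _ x (by rwa [hr]) (hr x)).resolve_left a,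
          (inj _ y (by rwa [hr, ← h6]) (hr y)).resolve_left b, hr' _ _ h6])
    (by
      rintro (b | b) hb <;> obtain ⟨x, rfl⟩ := surj b hb
      · exact ⟨r x, by simp only [e', hr' _ _ (hr x), hr, if_true]⟩
      · refine ⟨ι (r x), ?_⟩
        simp only [e', hr' _ x ((h1 _).trans (hr x)), h1, hr]
        exact if_neg (h2 _ (by rwa [hr])))
  simp only [h4] at h5
  rwa [h3.tsum_eq, ← two_mul] at h5

theorem c3_sigma {β : Type} [Finite β] {γ : β → Type} {f : (Σ b, γ b) → ℂ} {a : ℂ}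
    (h : HasSum f a) : a = ∑ᶠ b, ∑' c, f ⟨b, c⟩ := by
  rw [← h.tsum_eq, h.summable.tsum_sigma, tsum_eq_finsum (L := .unconditional _) (Set.toFinite _)]

namespace St

variable (s : St) {n : Ideal s.O}

theorem c3_sc {x y : ℂ} (hx : x ≠ 0) (h : s.sc x = s.sc y) : y = x ∨ y = -x := by
  have h1 : s.sc (x⁻¹ * y) = 1 := by
    rw [sc_mul, ← h, ← sc_mul, inv_mul_cancel₀ hx, sc_one]
  refine (s.sc_eq_one h1).imp (fun e => ?_) fun e => ?_
  · rw [← mul_inv_cancel_left₀ hx y, e, mul_one]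
  · rw [← mul_inv_cancel_left₀ hx y, e, mul_neg_one]

theorem c3_id {L : s.Sub} {x y : ℂ} (hL : IsUnit L) (hx : x ∈ L) (hy : y ∈ L) (h0 : x ≠ 0)
    (h : s.idOf (s.mkP L x) = s.idOf (s.mkP L y)) : y = x ∨ y = -x := by
  have h1 := s.idOf_spec (s.mkP L x)
  have h2 := s.idOf_spec (s.mkP L y)
  rw [s.mkP_L hL hx, s.mkP_ρ hL hx, h] at h1
  rw [s.mkP_L hL hy, s.mkP_ρ hL hy] at h2
  exact s.c3_sc h0 (h1.symm.trans h2)

theorem c3_sim {p q : s.Pair} {t : ℂ} (h1 : q.L = s.sc t * p.L) (h2 : q.ρ = t * p.ρ) :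
    s.idOf q = s.idOf p := by
  have h : s.idl (s.idOf q) = s.idl (s.idOf p) := q.unit.mul_right_cancel (by
    rw [idOf_spec, h1, h2, mul_left_comm, idOf_spec, sc_mul])
  exact le_antisymm (s.idl_le.1 h.le) (s.idl_le.1 h.ge)

theorem c3_neg (L : s.Sub) : L = s.sc (-1) * L := by
  rw [show s.sc (-1) = s.sc 1 from by simp [sc, ← Set.neg_singleton], sc_one, one_mul]

theorem c3_mem {p : s.Pair} {g : Ideal s.O} (h : 2 * p.ρ ∈ s.idl g * p.L) :
    s.idOf p * Ideal.span {2} ≤ g := by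
  rw [← idOf_np, ← idOf_mul, idOf_le, mul_L, mul_ρ, np_L, np_ρ, mul_one, mul_comm p.ρ]
  exact (show s.c 2 = 2 from s.c_nat 2).symm ▸ h

theorem c3_cl (C : s.Pr n) {l : ℂ} (hl : l ∈ s.idl n * (s.out C).L) :
    s.cl n (s.mkP (s.out C).L ((s.out C).ρ + l)) = C :=
  (s.cl_eq.2 ⟨1, s.sim_add _ hl⟩).symm.trans (s.cl_out C)

theorem c3_top (C : s.Pr ⊤) {x : ℂ} (hx : x ∈ (s.out C).L) :
    s.cl ⊤ (s.mkP (s.out C).L x) = C := by
  have h := s.c3_cl C (l := x - (s.out C).ρ) (by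
    rw [idl_top, one_mul]
    exact sub_mem hx (s.out C).mem)
  rwa [add_sub_cancel] at h

theorem c3_eq {p q : s.Pair} (h0 : s.idOf p ≠ ⊥) (h : s.idOf p = s.idOf q) :
    s.cl n p = s.cl n q := by
  rw [← s.cl_ip_idOf n (mt s.idOf_eq_bot.2 h0), h,
    s.cl_ip_idOf n (mt s.idOf_eq_bot.2 (h ▸ h0))]

theorem summable_ideal_exp {y : ℝ} (hy : 0 < y) :
    Summable fun a : Ideal s.O => (Ideal.absNorm a : ℝ) * Real.exp (-y * Ideal.absNorm a) := by
  refine Summable.of_nonneg_of_le (fun a => by positivity) (fun a => ?_)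
    ((summable_norm s.k (t := 2) one_lt_two).mul_left (6 / y ^ 3))
  generalize Ideal.absNorm a = m
  rcases m.eq_zero_or_pos with rfl | hm
  · simp
  have hx : (0 : ℝ) < m := by exact_mod_cast hm
  generalize (m : ℝ) = x at hx
  have h := Real.pow_div_factorial_le_exp (y * x) (by positivity) 3
  rw [neg_mul, Real.exp_neg, Real.rpow_neg hx.le, Real.rpow_two, ← div_eq_mul_inv,
    ← div_eq_mul_inv, div_div, div_le_div_iff₀ (Real.exp_pos _) (by positivity)]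
  norm_num [Nat.factorial] at h
  linarith

theorem tsum_cl (hn : n ≠ ⊥) (h2 : n ≤ s.p2 ^ 2) {Φ : Ideal s.O → ℂ} (hs : Summable Φ)
    (h0 : ∀ a, a ≤ s.p2 → Φ a = 0) : ∑' a, Φ a = ∑ᶠ C : s.Pr n,
      ∑' l : s.zl (s.idl n * (s.out C).L), Φ (s.idOf (s.mkP (s.out C).L ((s.out C).ρ + l))) := by
  have := s.finite_Pr hn
  have hm : ∀ (C : s.Pr n) (l : s.zl (s.idl n * (s.out C).L)), (s.out C).ρ + l ∈ (s.out C).L :=
    fun C l => add_mem (s.out C).mem (s.idl_mul_le n _ l.2)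
  refine c3_sigma (c3_bij hs (fun x : Σ C : s.Pr n, s.zl (s.idl n * (s.out C).L) =>
    s.idOf (s.mkP (s.out x.1).L ((s.out x.1).ρ + x.2))) ?_ fun a ha => ?_)
  · rintro ⟨C, l⟩ ⟨C', l'⟩ hx h
    have h1 := mt (h0 _) hx
    have h3 := mt (fun e => Eq.trans_le e bot_le) h1
    obtain rfl : C = C' := (s.c3_cl C l.2).symm.trans ((s.c3_eq h3 h).trans (s.c3_cl C' l'.2))
    have h4 := mt s.idOf_eq_bot.2 h3
    rw [s.mkP_ρ (s.out C).unit (hm C l)] at h4
    rcases s.c3_id (s.out C).unit (hm C l) (hm C l') h4 h with e | e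
    · rw [Subtype.ext (add_left_cancel e)]
    refine absurd ?_ h1
    have h5 := s.c3_mem (p := s.mkP (s.out C).L ((s.out C).ρ + l)) (g := s.p2 ^ 2) (by
      rw [s.mkP_ρ (s.out C).unit (hm C l), s.mkP_L (s.out C).unit (hm C l),
        show 2 * ((s.out C).ρ + l) = l - l' by linear_combination e]
      exact mul_le_mul_left (s.idl_le.2 h2) _ (sub_mem l.2 l'.2))
    rw [← p1_mul_p2, ← mul_assoc, sq, ← Ideal.dvd_iff_le, mul_dvd_mul_iff_right s.p2_ne,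
      Ideal.dvd_iff_le] at h5
    refine (s.p2_max.isPrime.mul_le.1 h5).resolve_right fun h6 => s.p2_max.ne_top ?_
    exact top_le_iff.1 ((Ideal.isCoprime_iff_sup_eq.1 s.cop12).ge.trans (sup_le h6 le_rfl))
  · have h1 : a ≠ ⊥ := fun e => ha (h0 a (e.trans_le bot_le))
    obtain ⟨t, -, h3, h4⟩ := s.cl_eq.1 (s.cl_out (s.cl n (s.ip a))).symm
    have h5 := hm _ ⟨_, neg_mem h4⟩
    refine ⟨⟨_, _, neg_mem h4⟩, (s.c3_sim (t := t) ?_ ?_).trans (s.idOf_ip h1)⟩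
    · rw [s.mkP_L (s.out _).unit h5, h3]
    · rw [s.mkP_ρ (s.out _).unit h5]
      ring

theorem tsum_half {Φ : Ideal s.O → ℂ} (hs : Summable Φ) (h0 : Φ ⊥ = 0) :
    2 * ∑' a, Φ a = ∑ᶠ D : s.Pr ⊤,
      ∑' α : s.zl (s.out D).L, Φ (s.idOf (s.mkP (s.out D).L α)) := by
  have := s.finite_Pr (n := ⊤) top_ne_bot
  refine c3_sigma (c3_two hs (fun x : Σ D : s.Pr ⊤, s.zl (s.out D).L =>
    s.idOf (s.mkP (s.out x.1).L x.2)) (fun x => ⟨x.1, -x.2⟩) ?_ ?_ ?_ fun a ha => ?_)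
  · rintro ⟨D, α⟩
    refine s.c3_sim (t := -1) ?_ ?_
    · rw [s.mkP_L (s.out D).unit (-α).2, s.mkP_L (s.out D).unit α.2, ← c3_neg]
    · rw [s.mkP_ρ (s.out D).unit (-α).2, s.mkP_ρ (s.out D).unit α.2, neg_one_mul]
      rfl
  · rintro ⟨D, α⟩ hx h
    refine hx (h0 ▸ congrArg Φ (s.idOf_eq_bot.2 ?_))
    have h1 : -(α : ℂ) = α := congrArg Subtype.val (eq_of_heq (Sigma.mk.inj h).2)
    rw [s.mkP_ρ (s.out D).unit α.2]
    linear_combination (-1 / 2 : ℂ) * h1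
  · rintro ⟨D, α⟩ ⟨D', α'⟩ hx h
    have h3 : s.idOf (s.mkP (s.out D).L α) ≠ ⊥ := fun e => hx (h0 ▸ congrArg Φ e)
    obtain rfl : D = D' := (s.c3_top D α.2).symm.trans ((s.c3_eq h3 h).trans (s.c3_top D' α'.2))
    have h4 := mt s.idOf_eq_bot.2 h3
    rw [s.mkP_ρ (s.out D).unit α.2] at h4
    exact (s.c3_id (s.out D).unit α.2 α'.2 h4 h).imp
      (fun e => congrArg (Sigma.mk D) (Subtype.ext e)) fun e => congrArg (Sigma.mk D) (Subtype.ext e)
  · have h1 : a ≠ ⊥ := fun e => ha (e ▸ h0)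
    obtain ⟨t, -, h3, -⟩ := s.cl_eq.1 (s.cl_out (s.cl ⊤ (s.ip a))).symm
    have h5 : t * (s.ip a).ρ ∈ (s.out (s.cl ⊤ (s.ip a))).L :=
      h3 ▸ Submodule.mul_mem_mul (s.mem_sc t) (s.ip a).mem
    refine ⟨⟨_, _, h5⟩, (s.c3_sim (t := t) ?_ ?_).trans (s.idOf_ip h1)⟩
    · rw [s.mkP_L (s.out _).unit h5, h3]
    · rw [s.mkP_ρ (s.out _).unit h5]

theorem sum_units (hn : n ≠ ⊥) {Φ : s.Pair → ℂ} (h0 : s.Supp n Φ) :
    ∑ᶠ C : s.Pr n, Φ (s.out C) = ∑ᶠ C : (s.Pr n)ˣ, Φ (s.out C.1) := by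
  have := s.finite_Pr hn
  rw [← tsum_eq_finsum (L := .unconditional _) (Set.toFinite _), ← tsum_eq_finsum (L := .unconditional _) (Set.toFinite _)]
  refine (c3_bij (Φ := fun C : s.Pr n => Φ (s.out C)) Summable.of_finite Units.val
    (fun _ _ _ h => Units.ext h) fun C hC => ?_).tsum_eq.symm
  exact s.cl_out C ▸ (by_contra fun h => hC (h0 _ h) : IsUnit (s.cl n (s.out C)))

theorem sum_half (hn : n ≠ ⊥) (h2 : (2 : s.O) ∉ n) {Φ : s.Pair → ℂ} (hΦ : s.Inv n Φ)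
    (h0 : s.Supp n Φ) (M : s.Pr ⊤ → s.Sub) (hM : ∀ D, IsUnit (M D))
    (hb : Function.Bijective fun D => s.cl ⊤ (s.mkP (M D) 0)) (R : s.Pr ⊤ → Finset ℂ)
    (hR : ∀ D, Reps (s.zl (s.idl n * M D)) (s.zl (M D)) (R D)) :
    2 * ∑ᶠ C : (s.Pr n)ˣ, Φ (s.out C.1) = ∑ᶠ D, ∑ ρ ∈ R D, Φ (s.mkP (M D) ρ) := by
  have := s.finite_Pr hn
  have := s.finite_Pr (n := ⊤) top_ne_bot
  have hm : ∀ D (ρ : R D), (ρ : ℂ) ∈ M D := fun D ρ => (hR D).2.2.1 ρ ρ.2
  have hu : ∀ D (ρ ρ' : R D) x, x ∈ M D → x - ρ ∈ s.idl n * M D → x - ρ' ∈ s.idl n * M D →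
      ρ = ρ' := fun D ρ ρ' x hx h h' =>
    Subtype.ext (((hR D).2.2.2 x hx).unique ⟨ρ.2, h⟩ ⟨ρ'.2, h'⟩)
  have he : ∀ D x, x ∈ M D → ∃ ρ : R D, x - ρ ∈ s.idl n * M D := fun D x hx => by
    obtain ⟨r, hr⟩ := ((hR D).2.2.2 x hx).exists
    exact ⟨⟨r, hr.1⟩, hr.2⟩
  choose ι hι using fun D (ρ : R D) => he D _ (neg_mem (hm D ρ))
  have hΨ : ∀ p, Φ (s.out (s.cl n p)) = Φ p := fun p => hΦ.of_cl (s.cl_out _)
  have key := c3_sigma (c3_two (Φ := fun C : s.Pr n => Φ (s.out C)) Summable.of_finite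
    (fun x : Σ D : s.Pr ⊤, R D => s.cl n (s.mkP (M x.1) x.2)) (fun x => ⟨x.1, ι x.1 x.2⟩)
    ?_ ?_ ?_ fun C _ => ?_)
  · rw [← s.sum_units hn h0, ← tsum_eq_finsum (L := .unconditional _) (Set.toFinite _), key]
    refine finsum_congr fun D => ?_
    simp only [hΨ]
    exact (R D).tsum_subtype fun ρ => Φ (s.mkP (M D) ρ)
  · rintro ⟨D, ρ⟩
    refine (s.cl_eq.2 ⟨-1, neg_ne_zero.2 one_ne_zero, ?_, ?_⟩).symm
    · rw [s.mkP_L (hM D) (hm D _), s.mkP_L (hM D) (hm D _), ← c3_neg]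
    · rw [s.mkP_L (hM D) (hm D _), s.mkP_ρ (hM D) (hm D _), s.mkP_ρ (hM D) (hm D _), neg_one_mul,
        ← neg_sub]
      exact neg_mem (hι D ρ)
  · rintro ⟨D, ρ⟩ hx h
    have h1 := hι D ρ
    rw [eq_of_heq (Sigma.mk.inj h).2] at h1
    rw [hΨ] at hx
    obtain ⟨i, hi, j, hj, e⟩ := Ideal.isCoprime_iff_exists.1
      ((s.unit_cl hn).1 (by_contra fun h => hx (h0 _ h)))
    have h3 := s.c3_mem (p := s.mkP (M D) ρ) (g := n) (by
      rw [s.mkP_L (hM D) (hm D _), s.mkP_ρ (hM D) (hm D _),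
        show 2 * (ρ : ℂ) = -(-ρ - ρ) by ring]
      exact neg_mem h1)
    refine h2 ?_
    rw [← one_mul (2 : s.O), ← e, add_mul]
    exact add_mem (h3 (Ideal.mul_mem_mul hi (Ideal.mem_span_singleton_self _)))
      (n.mul_mem_right _ hj)
  · rintro ⟨D, ρ⟩ ⟨D', ρ'⟩ - h
    obtain ⟨t, ht, h3, h4⟩ := s.cl_eq.1 h
    rw [s.mkP_L (hM _) (hm _ _), s.mkP_L (hM _) (hm _ _)] at h3
    rw [s.mkP_L (hM _) (hm _ _), s.mkP_ρ (hM _) (hm _ _), s.mkP_ρ (hM _) (hm _ _)] at h4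
    obtain rfl : D = D' := hb.1 (s.cl_eq.2 ⟨t, ht, by
      rw [s.mkP_L (hM _) (zero_mem _), s.mkP_L (hM _) (zero_mem _), h3], by
      rw [s.mkP_ρ (hM _) (zero_mem _), s.mkP_ρ (hM _) (zero_mem _), mul_zero, sub_zero]
      exact zero_mem _⟩)
    rcases s.sc_eq_one ((hM D).mul_right_cancel (h3.symm.trans (one_mul _).symm)) with rfl | rfl
    · rw [one_mul] at h4
      exact Or.inl (congrArg (Sigma.mk D) (hu D ρ' ρ _ (hm D ρ') (by simp) h4))
    · refine Or.inr (congrArg (Sigma.mk D) (hu D ρ' _ _ (neg_mem (hm D ρ)) ?_ (hι D ρ)))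
      rw [neg_one_mul] at h4
      exact neg_sub (ρ' : ℂ) (-ρ) ▸ neg_mem h4
  · obtain ⟨D, hD⟩ := hb.2 (s.cl ⊤ (s.mkP (s.out C).L 0))
    obtain ⟨t, ht, h3, -⟩ := s.cl_eq.1 hD.symm
    rw [s.mkP_L (hM _) (zero_mem _), s.mkP_L (s.out C).unit (zero_mem _)] at h3
    obtain ⟨ρ, hρ⟩ := he D (t * (s.out C).ρ)
      (h3 ▸ Submodule.mul_mem_mul (s.mem_sc t) (s.out C).mem)
    refine ⟨⟨D, ρ⟩, (s.cl_eq.2 ⟨t, ht, ?_, ?_⟩).symm.trans (s.cl_out C)⟩
    · rw [s.mkP_L (hM _) (hm _ _), h3]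
    · rw [s.mkP_L (hM _) (hm _ _), s.mkP_ρ (hM _) (hm _ _), ← neg_sub]
      exact neg_mem hρ

theorem sum_mul {Φ : s.Pair → ℂ} (hΦ : s.Inv n Φ) {q : s.Pair} (hq : IsUnit (s.cl n q)) :
    ∑ᶠ C : s.Pr n, Φ (s.out C * q) = ∑ᶠ C : s.Pr n, Φ (s.out C) := by
  refine finsum_eq_of_bijective _ (Units.mulRight hq.unit).bijective fun C => hΦ.of_cl ?_
  rw [map_mul, cl_out, cl_out]
  rfl

theorem sum_mul' {Φ : s.Pair → ℂ} (hΦ : s.Inv n Φ) {q : s.Pair} (hq : IsUnit (s.cl n q)) :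
    ∑ᶠ C : (s.Pr n)ˣ, Φ (s.out C.1 * q) = ∑ᶠ C : (s.Pr n)ˣ, Φ (s.out C.1) := by
  refine finsum_eq_of_bijective _ (Equiv.mulRight hq.unit).bijective fun C => hΦ.of_cl ?_
  rw [map_mul, cl_out, cl_out]
  rfl

end St

end Pool.Agent.P.MP_20768c_nt.Az.Cu

end

-- part Ex.X9
section

set_option autoImplicit false

open Complex NumberField IsDedekindDomain
open scoped Real

namespace Pool.Agent.P.MP_20768c_nt.Az.Cu

section

variable {Γ : Type} [LinearOrderedCommGroupWithZero Γ]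

theorem x9_con (v : Valuation ℂ Γ) (γ : Γ) : ∃ S : Submonoid (ℂ × ℂ),
    ∀ a b, (a, b) ∈ S ↔ v a ≤ 1 ∧ v b ≤ 1 ∧ v (a - b) ≤ γ := by
  refine ⟨{ carrier := {p | v p.1 ≤ 1 ∧ v p.2 ≤ 1 ∧ v (p.1 - p.2) ≤ γ}
            one_mem' := by simp
            mul_mem' := ?_ }, fun _ _ => Iff.rfl⟩
  rintro ⟨a, b⟩ ⟨a', b'⟩ ⟨h1, h2, h3⟩ ⟨h4, h5, h6⟩
  refine ⟨(v.map_mul _ _).trans_le (mul_le_one' h1 h4),
    (v.map_mul _ _).trans_le (mul_le_one' h2 h5), ?_⟩
  have e : a * a' - b * b' = a * (a' - b') + (a - b) * b' := by ring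
  change v (a * a' - b * b') ≤ γ
  rw [e]
  refine v.map_add_le ?_ ?_ <;> rw [map_mul]
  · exact (mul_le_of_le_one_left' h1).trans h6
  · exact (mul_le_of_le_one_right' h5).trans h3

theorem x9_root (v : Valuation ℂ Γ) {x y : ℂ} {l : ℕ} (hl : 0 < l) (hx : x ^ l = 1)
    (hy : y ^ l = 1) (h : v (x - y) < v l) : x = y := by
  by_contra hn
  obtain ⟨S, hS⟩ := x9_con v (v (x - y))
  have h1 := St.v_root v hl hx
  have h2 := St.v_root v hl hy
  have h3 : ∑ i ∈ Finset.range l, x ^ i * y ^ (l - 1 - i) = 0 := by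
    have h4 := (Commute.all x y).geom_sum₂_mul l
    rw [hx, hy, sub_self] at h4
    exact (mul_eq_zero.1 h4).resolve_right (sub_ne_zero.2 hn)
  have h5 : v (l * x ^ (l - 1)) ≤ v (x - y) := by
    rw [← geom_sum₂_self, ← sub_zero (Finset.sum _ _), ← h3, ← Finset.sum_sub_distrib]
    refine v.map_sum_le fun i _ => ((hS _ _).1 ?_).2.2
    exact S.mul_mem (S.pow_mem ((hS x x).2 ⟨h1.le, h1.le, by simp⟩) i)
      (S.pow_mem ((hS x y).2 ⟨h1.le, h2.le, le_rfl⟩) (l - 1 - i))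
  rw [map_mul, map_pow, h1, one_pow, mul_one] at h5
  exact h.not_ge h5

end

namespace St

variable (s : St) {l c m : ℕ}

theorem x9_fib (hl : l.Prime) {n : Ideal s.O} (hn : n ≠ ⊥) (χ : MulChar (s.Pr n) ℂ) {T : Type}
    [Nonempty T] (β : T → s.O) (hp : ∀ t, Ideal.Quotient.mk n (β t) ^ l = 1)
    (hχ : ∀ t, χ (s.cl n (s.np (β t))) = 1)
    (hi : Function.Injective fun t => Ideal.Quotient.mk n (β t)) :
    Nat.card T ≤ (if l = 2 then 2 else 1) *
      Nat.card {g : (s.Pr n)ˣ // g ^ l = 1 ∧ χ g = 1} := by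
  have := s.finite_Pr hn
  let g : s.O →* s.Pr n :=
    { toFun := fun x => s.cl n (s.np x)
      map_one' := by rw [s.np_one, map_one]
      map_mul' := fun x y => by rw [s.np_mul, map_mul] }
  have h1 : ∀ t, g (β t) ^ l = 1 := fun t => by
    rw [← map_pow]
    refine s.cl_np_eq_one.2 (.inl (Ideal.Quotient.eq.1 ?_))
    rw [map_pow, hp, map_one]
  let F : T → {g : (s.Pr n)ˣ // g ^ l = 1 ∧ χ g = 1} := fun t =>
    ⟨Units.ofPowEqOne _ l (h1 t) hl.ne_zero, Units.pow_ofPowEqOne _ _, hχ t⟩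
  have h2 : ∀ t t', F t = F t' → Ideal.Quotient.mk n (β t) = Ideal.Quotient.mk n (β t') ∨
      Ideal.Quotient.mk n (β t) = -Ideal.Quotient.mk n (β t') := fun t t' h => by
    have h3 : g (β t) = g (β t') := congrArg (fun x => x.1.1) h
    have h4 : g (β t * β t' ^ (l - 1)) = 1 := by
      rw [map_mul, h3, map_pow, mul_pow_sub_one hl.ne_zero, h1]
    have h5 := hp t'
    rw [← mul_pow_sub_one hl.ne_zero] at h5
    refine (s.cl_np_eq_one.1 h4).imp (fun h => ?_) fun h => ?_ <;>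
      have h6 := Ideal.Quotient.eq_zero_iff_mem.2 h
    · rw [map_sub, map_mul, map_pow, map_one] at h6
      linear_combination Ideal.Quotient.mk n (β t') * h6 - Ideal.Quotient.mk n (β t) * h5
    · rw [map_add, map_mul, map_pow, map_one] at h6
      linear_combination Ideal.Quotient.mk n (β t') * h6 - Ideal.Quotient.mk n (β t) * h5
  split_ifs with h
  · have h7 : ∀ t, F (Function.invFun F (F t)) = F t := fun t => Function.invFun_eq ⟨t, rfl⟩
    have h8 := Nat.card_le_card_of_injective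
      (fun t => ((t = Function.invFun F (F t) : Prop), F t)) fun t t' e => by
        obtain ⟨e1, e2⟩ := Prod.mk.inj e
        by_cases h9 : t = Function.invFun F (F t)
        · rw [h9, e2, ← e1.mp h9]
        · have a1 := (h2 _ _ (h7 t).symm).resolve_left fun a => h9 (hi a)
          have a2 := (h2 _ _ (h7 t').symm).resolve_left fun a => h9 (e1.mpr (hi a))
          exact hi (by rw [← e2] at a2; exact a1.trans a2.symm)
    rwa [Nat.card_prod, Nat.card_eq_fintype_card (α := Prop), Fintype.card_prop] at h8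
  · rw [one_mul]
    refine Nat.card_le_card_of_injective F fun t t' e => hi ?_
    refine (h2 t t' e).elim id fun a => ?_
    have a1 := hp t
    rw [a, (hl.odd_of_ne_two h).neg_pow, hp] at a1
    change Ideal.Quotient.mk n (β t) = Ideal.Quotient.mk n (β t')
    linear_combination a + Ideal.Quotient.mk n (β t') * a1

theorem x9_lb (hl : l.Prime) (hc : 0 < c) (hlc : l ∣ c) (hm : m = l * (l * c)) {J : Type}
    [Fintype J] (q : J → Ideal s.O) (hq : ∀ i, (q i).IsMaximal ∧ (m : s.O) ∈ q i)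
    (hi : Function.Injective q) (u : J → s.O) (hu : ∀ i, s.LocR l m (q i) (u i))
    (χ : MulChar (s.Pr (Ideal.span {(m : s.O)})) ℂ)
    (h1 : ∀ x : s.O, χ (s.cl _ (s.np (1 + (l * c : ℕ) * x))) = 1)
    (h2 : ∀ i, χ (s.cl _ (s.np (u i))) = 1) :
    l ^ (2 + Fintype.card J) ≤ (if l = 2 then 2 else 1) *
      Nat.card {g : (s.Pr (Ideal.span {(m : s.O)}))ˣ // g ^ l = 1 ∧ χ g = 1} := by
  classical
  have hm0 : 0 < m := by
    have := hl.pos
    rw [hm]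
    positivity
  have hn : Ideal.span {(m : s.O)} ≠ ⊥ := by
    rw [Ne, Ideal.span_singleton_eq_bot]
    exact Nat.cast_ne_zero.2 hm0.ne'
  have he : ((l * c : ℕ) : s.O) ≠ 0 := Nat.cast_ne_zero.2 (mul_pos hl.pos hc).ne'
  have hm' : (m : s.O) = (l * c : ℕ) * l := by
    rw [hm, Nat.cast_mul, mul_comm]
  choose r hr using Ideal.Quotient.mk_surjective (I := Ideal.span {(l : s.O)})
  have hul : ∀ i, Ideal.Quotient.mk (Ideal.span {(m : s.O)}) (u i) ^ l = 1 := fun i => by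
    rw [← map_pow, ← map_one (Ideal.Quotient.mk _), Ideal.Quotient.eq]
    refine s.x4_dvd hm0 fun V hV => ?_
    obtain ⟨S, hS⟩ := x9_con V.valuation (V.valuation m)
    obtain ⟨η, h3, h4⟩ : ∃ η : ℂ, η ^ l = 1 ∧ V.valuation (s.c (u i) - η) ≤ V.valuation m := by
      by_cases h : ∀ x ∈ q i, V.valuation (s.c x) < 1
      · exact ((hu i V hV).1 h).imp fun η a => ⟨a.1.pow_eq_one, a.2⟩
      · exact ⟨1, one_pow l, (hu i V hV).2 h⟩
    rw [s.c_sub, s.c_pow, s.c_one, ← h3]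
    exact ((hS _ _).1 (S.pow_mem
      ((hS _ _).2 ⟨s.v_c _ _, (v_root _ hl.pos h3).le, h4⟩) l)).2.2
  have hU : ∀ a : J → Fin l,
      Ideal.Quotient.mk (Ideal.span {(m : s.O)}) (∏ i, u i ^ (a i).1) ^ l = 1 := fun a => by
    rw [map_prod, ← Finset.prod_pow]
    refine Finset.prod_eq_one fun i _ => ?_
    rw [map_pow, ← pow_mul, mul_comm, pow_mul, hul, one_pow]
  have : NeZero l := ⟨hl.ne_zero⟩
  have key := s.x9_fib hl hn χ (T := (s.O ⧸ Ideal.span {(l : s.O)}) × (J → Fin l))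
    (fun t => (1 + (l * c : ℕ) * r t.1) * ∏ i, u i ^ (t.2 i).1) (fun t => ?_) (fun t => ?_) ?_
  · rwa [Nat.card_prod, ← Submodule.cardQuot_apply, ← Ideal.absNorm_apply, s.norm_nat,
      Nat.card_fun, Nat.card_fin, Nat.card_eq_fintype_card, ← pow_add] at key
  · rw [map_mul, mul_pow, hU, mul_one, ← map_pow, ← map_one (Ideal.Quotient.mk _),
      Ideal.Quotient.eq, Ideal.mem_span_singleton]
    obtain ⟨y, hy⟩ := sq_dvd_add_pow_sub_sub (((l * c : ℕ) : s.O) * r t.1) 1 l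
    refine ⟨r t.1 + c * r t.1 ^ 2 * y, ?_⟩
    rw [hm']
    push_cast at hy ⊢
    linear_combination hy
  · let g : s.O →* ℂ :=
      { toFun := fun x => χ (s.cl _ (s.np x))
        map_one' := by rw [s.np_one, map_one, map_one]
        map_mul' := fun x y => by rw [s.np_mul, map_mul, map_mul] }
    change g _ = 1
    rw [map_mul, map_prod, show g _ = 1 from h1 _, one_mul]
    exact Finset.prod_eq_one fun i _ => by rw [map_pow, show g _ = 1 from h2 i, one_pow]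
  · rintro ⟨x, a⟩ ⟨x', a'⟩ e
    have ha : a = a' := funext fun i => by
      obtain ⟨V, hV⟩ := s.x4_val (hq i).1
      have v1 : V.valuation m < 1 := by
        rw [← s.c_nat]
        exact (hV _).2 (hq i).2
      have v2 : ∀ k : ℕ, V.valuation k ≤ 1 := fun k => by
        rw [← s.c_nat]
        exact s.v_c _ _
      have v3 : V.valuation c < 1 := by
        refine lt_of_le_of_ne (v2 c) fun h => v1.ne ?_
        rw [hm, Nat.cast_mul, Nat.cast_mul, map_mul, map_mul, h, v_nat_dvd _ hlc h, one_mul,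
          one_mul]
      have v4 : V.valuation (l * c : ℕ) < V.valuation l := by
        rw [Nat.cast_mul, map_mul]
        exact mul_lt_of_lt_one_right
          (V.valuation.pos_iff.2 (Nat.cast_ne_zero.2 hl.ne_zero)) v3
      have v5 : V.valuation m ≤ V.valuation (l * c : ℕ) := by
        rw [hm, Nat.cast_mul l, map_mul]
        exact mul_le_of_le_one_left' (v2 l)
      obtain ⟨S, hS⟩ := x9_con V.valuation (V.valuation (l * c : ℕ))
      obtain ⟨η, h3, h4⟩ := (hu i V v1).1 fun x => (hV x).2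
      have h5 : ∀ j, (s.c (u j), if j = i then η else 1) ∈ S := fun j => by
        split_ifs with h
        · rw [h]
          exact (hS _ _).2 ⟨s.v_c _ _, (v_root _ hl.pos h3.pow_eq_one).le, h4.trans v5⟩
        · refine (hS _ _).2
            ⟨s.v_c _ _, V.valuation.map_one.le, ((hu j V v1).2 fun b => ?_).trans v5⟩
          exact h (hi ((hq j).1.eq_of_le (hq i).1.ne_top fun x hx => (hV x).1 (b x hx)))
      have h6 : ∀ (y : s.O) (b : J → Fin l), V.valuation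
          (s.c ((1 + (l * c : ℕ) * y) * ∏ j, u j ^ (b j).1) - η ^ (b i).1) ≤
            V.valuation (l * c : ℕ) := fun y b => by
        have b1 : (s.c (1 + (l * c : ℕ) * y), (1 : ℂ)) ∈ S := by
          refine (hS _ _).2 ⟨s.v_c _ _, V.valuation.map_one.le, ?_⟩
          rw [s.c_add, s.c_one, add_sub_cancel_left, s.c_mul, s.c_nat, map_mul]
          exact mul_le_of_le_one_right' (s.v_c _ _)
        have b2 := S.mul_mem b1
          (S.prod_mem fun j (_ : j ∈ Finset.univ) => S.pow_mem (h5 j) (b j).1)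
        refine ((hS _ _).1 ?_).2.2
        convert b2 using 1
        refine Prod.ext ?_ ?_
        · simp [St.c, Prod.fst_prod]
        · simp [Prod.snd_prod]
      obtain ⟨z, hz⟩ := Ideal.mem_span_singleton.1 (Ideal.Quotient.eq.1 e)
      have h7 := congrArg (fun y => V.valuation (s.c y)) hz
      simp only [s.c_sub] at h7
      rw [s.c_mul (m : s.O), s.c_nat, map_mul] at h7
      have h8 := (h7.le.trans (mul_le_of_le_one_right' (s.v_c _ _))).trans v5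
      have h9 := V.valuation.map_add_le (V.valuation.map_sub_le h8 (h6 (r x) a)) (h6 (r x') a')
      refine Fin.ext (h3.pow_inj (a i).2 (a' i).2 (x9_root V.valuation hl.pos ?_ ?_
        (lt_of_le_of_lt (le_of_eq_of_le (congrArg _ (by ring)) h9) v4))) <;>
        rw [← pow_mul, mul_comm, pow_mul, h3.pow_eq_one, one_pow]
    subst ha
    refine Prod.ext ?_ rfl
    have h3 := (IsUnit.of_pow_eq_one (hU a) hl.ne_zero).mul_right_cancel
      (by simpa only [map_mul] using e)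
    have h4 := Ideal.mem_span_singleton.1 (Ideal.Quotient.eq.1 h3)
    rw [add_sub_add_left_eq_sub, ← mul_sub, hm', mul_dvd_mul_iff_left he] at h4
    change x = x'
    rw [← hr x, ← hr x', Ideal.Quotient.eq]
    exact Ideal.mem_span_singleton.2 h4

end St


end Pool.Agent.P.MP_20768c_nt.Az.Cu

end

-- part Cu.H1a_q
section

set_option autoImplicit false

open Complex NumberField IsDedekindDomain Filter Topology
open UpperHalfPlane hiding I
open scoped ComplexConjugate Real MatrixGroups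

namespace Pool.Agent.P.MP_20768c_nt.Az.Cu

open Pool.Agent.P.MP_20768c_nt.Az.EQ (Lt pr sp IsLat jL qN)

theorem h1a_q_reps {L L' : Lt} {R : Finset ℂ} {x : ℂ} (hx : x ≠ 0) (hR : Reps L L' R) :
    Reps (pr x * L) (pr x * L') (R.map ⟨fun r => x * r, mul_right_injective₀ hx⟩) := by
  obtain ⟨h1, h2, h3, h4⟩ := hR
  refine ⟨(Pool.Agent.P.MP_20768c_nt.Az.EQ.pr_mul_le_iff hx).2 h1, Finset.mem_map.2 ⟨0, h2, mul_zero x⟩, ?_, ?_⟩
  · intro r hr
    obtain ⟨t, ht, rfl⟩ := Finset.mem_map.1 hr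
    exact (mul_mem_sc hx).2 (h3 t ht)
  · intro y hy
    obtain ⟨w, hw, rfl⟩ := Pool.Agent.P.MP_20768c_nt.Az.EQ.mem_pr_mul.1 hy
    obtain ⟨r, ⟨hr, hr'⟩, hu⟩ := h4 w hw
    refine ⟨x * r, ⟨Finset.mem_map.2 ⟨r, hr, rfl⟩, ?_⟩, ?_⟩
    · rw [← mul_sub]
      exact (mul_mem_sc hx).2 hr'
    · rintro y ⟨hy1, hy2⟩
      obtain ⟨t, ht, rfl⟩ := Finset.mem_map.1 hy1
      have e : x * w - x * t ∈ pr x * L := hy2
      rw [← mul_sub] at e
      exact congrArg (fun r => x * r) (hu t ⟨ht, (mul_mem_sc hx).1 e⟩)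

theorem h1a_q_summ {L : Lt} (h : IsLat L) (z : ℂ) {κ : ℂ} (hκ : 0 < κ.re) :
    Summable fun l : L => conj (l : ℂ) * pa L l z * cexp (-κ * (l * conj (l : ℂ))) := by
  refine Summable.of_norm ((summable_gauss h hκ 1 0 0).congr fun l => ?_)
  rw [norm_mul, norm_mul, norm_pa, Complex.norm_conj, zero_mul, zero_mul, add_zero, add_zero,
    pow_one, mul_one]

theorem h1a_q_u {A : ℝ} (hA : 0 < A) (τ : ℍ) : 0 < (-(2 * π * I * (τ : ℂ)) / (A : ℂ)).re := by
  have e : (-(2 * π * I * (τ : ℂ)) / (A : ℂ)).re = 2 * π * τ.im / A := by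
    rw [Complex.div_ofReal_re]
    simp
  rw [e]
  have := τ.im_pos
  have := Real.pi_pos
  positivity

theorem h1a_q_k {a : ℝ} (ha : 0 < a) {u : ℂ} (hu : 0 < u.re) :
    0 < ((π : ℂ) ^ 2 / ((a : ℂ) ^ 2 * u)).re := by
  have h0 : u ≠ 0 := fun h => by simp [h] at hu
  have e : (π : ℂ) ^ 2 / ((a : ℂ) ^ 2 * u) = ((π ^ 2 / a ^ 2 : ℝ) : ℂ) * u⁻¹ := by
    push_cast
    rw [div_mul_eq_div_div, div_eq_mul_inv]
  rw [e, Complex.re_ofReal_mul, Complex.inv_re]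
  have := Real.pi_pos
  have := Complex.normSq_pos.2 h0
  positivity

theorem h1a_q_e3 (μ μb A s N d c τ : ℂ) (hA : A ≠ 0) (hs : s ≠ 0) (hN : N ≠ 0) (hd : d ≠ 0)
    (hτ : τ ≠ 0) :
    π ^ 2 / (((N * d) ^ 2 * (A * s / 2)) ^ 2 *
        (-(2 * π * I * (τ / (d * (s ^ 2 * N ^ 2 * c * τ + d)))) / A)) * (N * d * μ * (N * d * μb)) =
      π ^ 2 / ((N ^ 2 * (A * s / 2)) ^ 2 * (-(2 * π * I * τ) / A)) * (N * μ * (N * μb)) +
        2 * π * I * (c * (μ * μb / A)) / d := by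
  have hπ : (π : ℂ) ≠ 0 := Complex.ofReal_ne_zero.2 Real.pi_ne_zero
  have hI := Complex.I_ne_zero
  field_simp
  linear_combination (-(μ * μb * N ^ 2 * s ^ 2 * τ * c)) * Complex.I_sq

theorem h1a_q_e2 (μ μb ρ ρb r rb A s N d a b c : ℂ) (hA : A ≠ 0) (hs : s ≠ 0) (hN : N ≠ 0)
    (hd : d ≠ 0) (hdet : a * d - b * (s ^ 2 * N ^ 2 * c) = 1) :
    π * (N * d * μb * (ρ + N * r) - N * d * μ * (ρb + N * rb)) / ((N * d) ^ 2 * (A * s / 2)) =
      π * (N * μb * (a * ρ) - N * μ * (a * ρb)) / (N ^ 2 * (A * s / 2)) +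
        π * (μb * (a * r) - μ * (a * rb)) / (A * s / 2) -
        2 * π * b * s * N * c * (μb * (ρ + N * r) - μ * (ρb + N * rb)) / (A * d) := by
  field_simp
  linear_combination (-(μb * (ρ + N * r) - μ * (ρb + N * rb))) * hdet

theorem h1a_q_e1 (μ μb y yb A s N d a b c : ℂ) (hA : A ≠ 0)
    (hd : d ≠ 0) (hdet : a * d - b * (s ^ 2 * N ^ 2 * c) = 1) :
    2 * π * I * (b * (y * yb / A)) / d - 2 * π * b * s * N * c * (μb * y - μ * yb) / (A * d) -
        2 * π * I * (c * (μ * μb / A)) / d =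
      2 * π * I * (b * ((y - N * c * (I * s) * μ) * (yb + N * c * (I * s) * μb) / A)) / d -
        a * c * (μ * μb / A) * (2 * π * I) := by
  have hπ : (π : ℂ) ≠ 0 := Complex.ofReal_ne_zero.2 Real.pi_ne_zero
  field_simp
  linear_combination (I * c * μ * μb) * hdet +
    (-(b * s * N * c * (μb * y - μ * yb)) + I * b * N ^ 2 * c ^ 2 * s ^ 2 * μ * μb) * Complex.I_sq

theorem h1a_q_term {L0 Λ Λd : Lt} (h0 : IsLat L0) {A s : ℝ} {N d : ℕ} {a b c q : ℤ}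
    {μ ρ r τ : ℂ} (hA : A ≠ 0) (hs : s ≠ 0) (hN : N ≠ 0) (hd : d ≠ 0) (hτ : τ ≠ 0)
    (hdet : (a : ℂ) * d - b * (s ^ 2 * N ^ 2 * c) = 1)
    (a0 : (ar L0 : ℂ) = A * s / 2) (a1 : (ar Λ : ℂ) = N ^ 2 * (A * s / 2))
    (a2 : (ar Λd : ℂ) = (N * d) ^ 2 * (A * s / 2)) (hμ : μ ∈ L0) (hr : r ∈ L0)
    (hq : μ * conj μ / A = q) :
    cexp (2 * π * I * (b * ((ρ + N * r) * conj (ρ + N * r) / A)) / d) *
      (conj (N * d * μ) * pa Λd (N * d * μ) (ρ + N * r) * cexp (-(π ^ 2 / (ar Λd ^ 2 *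
        (-(2 * π * I * (τ / (d * (s ^ 2 * N ^ 2 * c * τ + d)))) / A))) *
          (N * d * μ * conj (N * d * μ)))) =
    cexp (2 * π * I * (b * ((ρ + N * r - N * c * (I * s) * μ) *
        conj (ρ + N * r - N * c * (I * s) * μ) / A)) / d) *
      (d * (conj (N * μ) * pa Λ (N * μ) (a * ρ) *
        cexp (-(π ^ 2 / (ar Λ ^ 2 * (-(2 * π * I * τ) / A))) * (N * μ * conj (N * μ))))) := by
  have hA' : (A : ℂ) ≠ 0 := Complex.ofReal_ne_zero.2 hA
  have hs' : (s : ℂ) ≠ 0 := Complex.ofReal_ne_zero.2 hs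
  have hN' : (N : ℂ) ≠ 0 := Nat.cast_ne_zero.2 hN
  have hd' : (d : ℂ) ≠ 0 := Nat.cast_ne_zero.2 hd
  have har : (a : ℂ) * r ∈ L0 := by simpa using L0.smul_mem a hr
  have p1 := pa_int h0 hμ har
  have p2 : cexp (-(a * c * (μ * conj μ / A) * (2 * π * I))) = 1 := by
    rw [hq]
    have := Complex.exp_int_mul_two_pi_mul_I (-(a * c * q))
    push_cast at this
    rw [← this, neg_mul]
  have c1 : conj (ρ + N * r) = conj ρ + N * conj r := by
    rw [map_add, map_mul, map_natCast]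
  have c2 : conj ((N : ℂ) * d * μ) = N * d * conj μ := by
    rw [map_mul, map_mul, map_natCast, map_natCast]
  have c3 : conj ((N : ℂ) * μ) = N * conj μ := by rw [map_mul, map_natCast]
  have c4 : conj (ρ + N * r - N * c * (I * s) * μ) =
      conj ρ + N * conj r + N * c * (I * s) * conj μ := by
    rw [map_sub, c1, map_mul, map_mul, map_mul, map_mul, map_natCast, map_intCast, Complex.conj_I,
      Complex.conj_ofReal]
    ring
  have c5 : conj ((a : ℂ) * ρ) = a * conj ρ := by rw [map_mul, map_intCast]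
  have c6 : conj ((a : ℂ) * r) = a * conj r := by rw [map_mul, map_intCast]
  unfold pa at p1 ⊢
  rw [c6, a0] at p1
  rw [c1, c2, c3, c4, c5, a1, a2]
  have e1 := h1a_q_e1 μ (conj μ) (ρ + N * r) (conj ρ + N * conj r) A s N d a b c hA' hd' hdet
  have e2 := h1a_q_e2 μ (conj μ) ρ (conj ρ) r (conj r) A s N d a b c hA' hs' hN' hd' hdet
  have e3 := h1a_q_e3 μ (conj μ) A s N d c τ hA' hs' hN' hd' hτ
  have key : ∀ X1 X2 X3 Y1 Y2 Y3 Z1 Z2 : ℂ, cexp Z1 = 1 → cexp Z2 = 1 →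
      X1 + X2 + X3 = Y1 + Y2 + Y3 + Z1 + Z2 →
      cexp X1 * (N * d * conj μ * cexp X2 * cexp X3) =
        cexp Y1 * (d * (N * conj μ * cexp Y2 * cexp Y3)) := by
    intro X1 X2 X3 Y1 Y2 Y3 Z1 Z2 k1 k2 k
    have k' := congrArg cexp k
    simp only [Complex.exp_add, k1, k2] at k'
    linear_combination (N * d * conj μ) * k'
  refine key _ _ _ _ _ _ _ _ p1 p2 ?_
  linear_combination e1 + e2 - e3

namespace St

variable (s : St) {L : s.Sub} {N : ℕ} {ρ : ℂ}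

theorem h1a_q_Q (hL : IsUnit L) {x : ℂ} (hx : x ∈ L) : ∃ q : ℤ, x * conj x / s.nL L = q := by
  obtain ⟨ω₁, ω₂, α, β, γ, -, -, h1, h2, -⟩ := s.exists_form hL
  obtain ⟨u, v, rfl⟩ := h2 x hx
  have hA : (s.nL L : ℂ) ≠ 0 := Complex.ofReal_ne_zero.2 (s.nL_pos hL).ne'
  refine ⟨α * u ^ 2 + β * u * v + γ * v ^ 2, ?_⟩
  rw [(h1 u v).2, mul_div_cancel_left₀ _ hA]
  push_cast
  rfl

theorem h1a_q_per (hL : IsUnit L) {y l : ℂ} (hy : y ∈ L) (hl : l ∈ L) (b : ℤ) {d : ℕ}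
    (hd : d ≠ 0) :
    cexp (2 * π * I * (b * ((y + d * l) * conj (y + d * l) / s.nL L)) / d) =
      cexp (2 * π * I * (b * (y * conj y / s.nL L)) / d) := by
  obtain ⟨q1, h1⟩ := s.h1a_q_Q hL (add_mem hy hl)
  obtain ⟨q2, h2⟩ := s.h1a_q_Q hL hy
  obtain ⟨q3, h3⟩ := s.h1a_q_Q hL hl
  have hd' : (d : ℂ) ≠ 0 := Nat.cast_ne_zero.2 hd
  have e : (y + d * l) * conj (y + d * l) / s.nL L =
      y * conj y / s.nL L + d * (q1 - q2 - q3 + d * q3) := by
    rw [← h1, ← h2, ← h3, map_add, map_add, map_mul, map_natCast]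
    ring
  have e' : 2 * π * I * (b * ((y + d * l) * conj (y + d * l) / s.nL L)) / d =
      2 * π * I * (b * (y * conj y / s.nL L)) / d +
        ((b * (q1 - q2 - q3 + d * q3) : ℤ) : ℂ) * (2 * π * I) := by
    rw [e]
    push_cast
    field_simp
  rw [e', Complex.exp_add, Complex.exp_int_mul_two_pi_mul_I, mul_one]

theorem h1a_q_gauss (hL : IsUnit L) {d : ℕ} (hd : d ≠ 0) {a k b : ℤ} (hak : a * d + k * N = 1)
    {R : Finset ℂ} (hR : Reps (s.zl (s.sc d * L)) (s.zl L) R) {y : ℂ} (hy : y ∈ L) :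
    ∑ r ∈ R, cexp (2 * π * I * (b * ((y + N * r) * conj (y + N * r) / s.nL L)) / d) =
      ∑ r ∈ R, cexp (2 * π * I * (b * (r * conj r / s.nL L)) / d) := by
  have hd' : (d : ℂ) ≠ 0 := Nat.cast_ne_zero.2 hd
  have hN : ∀ (M : s.Sub) (n : ℤ) (x : ℂ), x ∈ M → (n : ℂ) * x ∈ M := fun M n x hx => by
    rw [← s.c_int]
    exact s.c_mul_mem _ hx
  refine hR.sum_bij (fun r => y + N * r) (fun r hr => ?_) (fun r hr t ht => ?_)
    (fun r => cexp (2 * π * I * (b * (r * conj r / s.nL L)) / d)) (fun r hr l hl => ?_)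
  · exact s.mem_zl.2 (add_mem hy (by simpa using hN L N r (s.mem_zl.1 hr)))
  · rw [s.mem_zl, s.mem_zl, add_sub_add_left_eq_sub, ← mul_sub]
    refine ⟨fun h => ?_, fun h => by simpa using hN _ N _ h⟩
    have hak' : (a : ℂ) * d + k * N = 1 := by exact_mod_cast hak
    have e : r - t = d * (a * (r - t)) + k * (N * (r - t)) := by
      linear_combination (-(r - t)) * hak'
    rw [e]
    exact add_mem ((s.mul_mem_sc' hd').2 (hN L a _ (sub_mem (s.mem_zl.1 hr) (s.mem_zl.1 ht))))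
      (hN _ k _ h)
  · obtain ⟨z, hz, rfl⟩ := s.mem_sc_mul.1 (s.mem_zl.1 hl)
    exact s.h1a_q_per hL (s.mem_zl.1 hr) hz b hd

theorem Th_prime (hL : IsUnit L) (hN : 0 < N) : ∃ B : ℕ, ∀ (ρ : ℂ) (γ : SL(2, ℤ)) (d : ℕ) (τ : ℍ),
    ρ ∈ L → d.Prime → B < d → γ 1 1 = d → ((s.dd * N ^ 2 : ℕ) : ℤ) ∣ γ 1 0 →
    Th (s.zl (s.sc N * L)) (s.nL L) ρ (γ • τ) = ((γ 1 0 : ℂ) * τ + γ 1 1) ^ 2 *
      (jacobiSym (γ 1 1) s.dd : ℂ) * Th (s.zl (s.sc N * L)) (s.nL L) (γ 0 0 * ρ) τ := by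
  obtain ⟨B, hB⟩ := s.gauss_lat hL
  refine ⟨B, fun ρ γ d τ hρ hd hBd h11 hc => ?_⟩
  obtain ⟨c, hc⟩ := hc
  have hdet : γ 0 0 * γ 1 1 - γ 0 1 * γ 1 0 = 1 := by
    have := γ.det_coe
    rwa [Matrix.det_fin_two] at this
  have hden := Pool.Agent.P.MP_20768c_nt.Az.EQ.sl_den_ne_lat γ τ
  have hmul := Pool.Agent.P.MP_20768c_nt.Az.EQ.sl_den_mul_lat γ τ
  rw [h11, hc] at hdet hden hmul ⊢
  generalize γ 0 0 = a at hdet hmul ⊢
  generalize γ 0 1 = b at hdet hmul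
  generalize γ • τ = σ at hmul ⊢
  have hd0 : d ≠ 0 := hd.ne_zero
  have hd' : (d : ℂ) ≠ 0 := Nat.cast_ne_zero.2 hd0
  have hN' : (N : ℂ) ≠ 0 := Nat.cast_ne_zero.2 hN.ne'
  have hNd : (N : ℂ) * d ≠ 0 := mul_ne_zero hN' hd'
  have hA := s.nL_pos hL
  have hA' : (s.nL L : ℂ) ≠ 0 := Complex.ofReal_ne_zero.2 hA.ne'
  have hdd : (0 : ℝ) < s.dd := by
    have := s.dd_mod
    exact Nat.cast_pos.2 (by omega)
  have hs : 0 < Real.sqrt s.dd := Real.sqrt_pos.2 hdd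
  have hsq : ((Real.sqrt s.dd : ℝ) : ℂ) ^ 2 = s.dd := by
    rw [← Complex.ofReal_pow, Real.sq_sqrt hdd.le, Complex.ofReal_natCast]
  have hδ := s.sqrt_dd
  have h1 := s.ar_one
  generalize Real.sqrt s.dd = t at hs hsq hδ h1
  have hcc : ((((s.dd * N ^ 2 : ℕ) : ℤ) * c : ℤ) : ℂ) = (t : ℂ) ^ 2 * N ^ 2 * c := by
    rw [hsq]
    push_cast
    rfl
  have hdet' : (a : ℂ) * d - b * ((t : ℂ) ^ 2 * N ^ 2 * c) = 1 := by
    rw [← hcc]
    exact_mod_cast hdet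
  rw [hcc, Int.cast_natCast] at hden hmul ⊢
  have h0 := s.isLat_zl hL
  have hΛ := h0.pr_mul hN'
  have hΛd := h0.pr_mul hNd
  have a0r : ar (s.zl L) = s.nL L * t / 2 := by
    rw [nL, h1]
    field_simp
  have a0 : (ar (s.zl L) : ℂ) = s.nL L * t / 2 := by
    rw [a0r]
    push_cast
    rfl
  have a1 : (ar (pr N * s.zl L) : ℂ) = N ^ 2 * (s.nL L * t / 2) := by
    rw [ar_sc h0 hN', Complex.norm_natCast, Complex.ofReal_mul, a0]
    push_cast
    rfl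
  have a2 : (ar (pr (N * d) * s.zl L) : ℂ) = (N * d) ^ 2 * (s.nL L * t / 2) := by
    rw [ar_sc h0 hNd, norm_mul, Complex.norm_natCast, Complex.norm_natCast, Complex.ofReal_mul, a0]
    push_cast
    rfl
  have hint : ∀ (n : ℤ) (x : ℂ), x ∈ L → (n : ℂ) * x ∈ L := fun n x hx => by
    rw [← s.c_int]
    exact s.c_mul_mem _ hx
  have hnat : ∀ x : ℂ, x ∈ L → (N : ℂ) * x ∈ L := fun x hx => by simpa using hint N x hx
  have hdel : ∀ x : ℂ, x ∈ L → (N : ℂ) * c * (I * t) * x ∈ L := fun x hx => by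
    have e := s.c_mul_mem s.w hx
    have e' : (N : ℂ) * c * (I * t) * x = N * (c * ((2 : ℤ) * (s.c s.w * x) - x)) := by
      rw [← hδ]
      push_cast
      ring
    rw [e']
    exact hnat _ (hint _ _ (sub_mem (hint 2 _ e) hx))
  obtain ⟨R, hR⟩ := exists_reps (s.isLat_zl ((s.isUnit_sc hd').mul hL)) h0 (by
    rw [s.zl_sc]
    simpa using Pool.Agent.P.MP_20768c_nt.Az.EQ.pr_int_le d (s.zl L))
  have hb : ¬ (d : ℤ) ∣ b := fun h => by
    have : (d : ℤ) ∣ 1 := hdet ▸ dvd_sub (dvd_mul_left _ _) (h.mul_right _)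
    exact hd.one_lt.ne' (by exact_mod_cast Int.eq_one_of_dvd_one (Int.natCast_nonneg d) this)
  have hG := hB d hd hBd b R hb hR
  have hak : a * d + (-(b * (s.dd * N * c))) * N = 1 := by
    rw [← hdet]
    push_cast
    ring
  have hR' := h1a_q_reps hN' hR
  rw [s.zl_sc, ← mul_assoc, Pool.Agent.P.MP_20768c_nt.Az.EQ.pr_mul_pr] at hR'
  obtain ⟨τ', hτ'⟩ : ∃ τ' : ℍ, (σ : ℂ) = τ' + b / d :=
    ⟨(-(b / d : ℝ)) +ᵥ σ, by rw [UpperHalfPlane.coe_vadd]; push_cast; ring⟩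
  have hτ2 : (τ' : ℂ) = τ / (d * ((t : ℂ) ^ 2 * N ^ 2 * c * τ + d)) := by
    rw [eq_div_iff (mul_ne_zero hd' hden)]
    have e : (τ' : ℂ) * d = σ * d - b := by
      rw [hτ']
      field_simp
      ring
    linear_combination ((t : ℂ) ^ 2 * N ^ 2 * c * τ + d) * e + d * hmul + τ * hdet'
  have hu := h1a_q_u hA τ
  have hu' := h1a_q_u hA τ'
  have hsh : ∀ r ∈ R, th1 (pr (N * d) * s.zl L) (ρ + N * r) (-(2 * π * I * σ) / s.nL L) =
      cexp (2 * π * I * (b * ((ρ + N * r) * conj (ρ + N * r) / s.nL L)) / d) *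
        th1 (pr (N * d) * s.zl L) (ρ + N * r) (-(2 * π * I * τ') / s.nL L) := fun r hr => by
    refine Th_shift _ _ _ _ _ hτ' fun l hl => ?_
    obtain ⟨z, hz, rfl⟩ := Pool.Agent.P.MP_20768c_nt.Az.EQ.mem_pr_mul.1 hl
    rw [← s.h1a_q_per hL (add_mem hρ (hnat r (s.mem_zl.1 (hR.2.2.1 r hr))))
      (hnat z (s.mem_zl.1 hz)) b hd0, mul_comm (N : ℂ) d, mul_assoc (d : ℂ)]
    refine congrArg cexp ?_
    ring
  rw [s.zl_sc, Th, Th, th1_reps hΛ hR' ρ (h1a_q_u hA σ), Finset.sum_map, poisson1 hΛ _ hu]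
  simp only [Function.Embedding.coeFn_mk]
  rw [Finset.sum_congr rfl hsh]
  simp only [poisson1 hΛd _ hu']
  have hsum : ∑ r ∈ R, cexp (2 * π * I * (b * ((ρ + N * r) * conj (ρ + N * r) / s.nL L)) / d) *
      ∑' l : (pr (N * d) * s.zl L : Lt), conj (l : ℂ) * pa (pr (N * d) * s.zl L) l (ρ + N * r) *
        cexp (-(π ^ 2 / (ar (pr (N * d) * s.zl L) ^ 2 * (-(2 * π * I * τ') / s.nL L))) *
          (l * conj (l : ℂ))) = d * (jacobiSym d s.dd : ℂ) * (d *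
      ∑' l : (pr N * s.zl L : Lt), conj (l : ℂ) * pa (pr N * s.zl L) l (a * ρ) *
        cexp (-(π ^ 2 / (ar (pr N * s.zl L) ^ 2 * (-(2 * π * I * τ) / s.nL L))) *
          (l * conj (l : ℂ)))) := by
    simp only [← tsum_mul_left]
    rw [← Summable.tsum_finsetSum fun r _ =>
      (h1a_q_summ hΛd (ρ + N * r) (h1a_q_k (ar_pos hΛd) hu')).mul_left _]
    rw [tsum_sc _ hNd fun l => ∑ r ∈ R,
      cexp (2 * π * I * (b * ((ρ + N * r) * conj (ρ + N * r) / s.nL L)) / d) *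
        (conj l * pa (pr (N * d) * s.zl L) l (ρ + N * r) *
          cexp (-(π ^ 2 / (ar (pr (N * d) * s.zl L) ^ 2 * (-(2 * π * I * τ') / s.nL L))) *
            (l * conj l))),
      tsum_sc _ hN' fun l => d * (jacobiSym d s.dd : ℂ) * (d *
        (conj l * pa (pr N * s.zl L) l (a * ρ) *
          cexp (-(π ^ 2 / (ar (pr N * s.zl L) ^ 2 * (-(2 * π * I * τ) / s.nL L))) *
            (l * conj l))))]
    refine tsum_congr fun μ => ?_
    obtain ⟨q, hq⟩ := s.h1a_q_Q hL (s.mem_zl.1 μ.2)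
    rw [← hG, ← s.h1a_q_gauss hL hd0 hak hR (sub_mem hρ (hdel μ (s.mem_zl.1 μ.2))), Finset.sum_mul,
      hτ2]
    refine Finset.sum_congr rfl fun r hr => ?_
    rw [h1a_q_term h0 hA.ne' hs.ne' hN.ne' hd0 τ.ne_zero hdet' a0 a1 a2 μ.2 (hR.2.2.1 r hr) hq,
      add_sub_right_comm]
  simp only [mul_left_comm _ (-(π ^ 2 / (ar (pr (N * d) * s.zl L) ^ 2 *
    (-(2 * π * I * τ') / s.nL L) ^ 2)) : ℂ)]
  rw [← Finset.mul_sum, hsum, a1, a2, hτ2]
  have hπ : (π : ℂ) ≠ 0 := Complex.ofReal_ne_zero.2 Real.pi_ne_zero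
  have hI := Complex.I_ne_zero
  have ht : (t : ℂ) ≠ 0 := Complex.ofReal_ne_zero.2 hs.ne'
  have hτ0 := τ.ne_zero
  generalize (∑' l : (pr N * s.zl L : Lt), _ : ℂ) = S
  generalize (t : ℂ) ^ 2 * N ^ 2 * c * τ + d = D at hden ⊢
  field_simp

end St

end Pool.Agent.P.MP_20768c_nt.Az.Cu

end

-- part Cu.H1b
section

set_option autoImplicit false

open Complex NumberField IsDedekindDomain Filter Topology
open UpperHalfPlane hiding I
open scoped ComplexConjugate Real MatrixGroups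

namespace Pool.Agent.P.MP_20768c_nt.Az.Cu

open Pool.Agent.P.MP_20768c_nt.Az.EQ (Lt pr sp IsLat jL qN)

open ModularForm

theorem h1b_norm (y u : ℂ) :
    ‖conj y * cexp (-u * (y * conj y))‖ = ‖y‖ ^ 1 * Real.exp (-u.re * ‖y‖ ^ 2) := by
  rw [norm_mul, Complex.norm_conj, Complex.norm_exp, Complex.mul_conj, pow_one,
    Complex.normSq_eq_norm_sq, Complex.re_mul_ofReal, Complex.neg_re]

theorem h1b_re (A : ℝ) (w : ℂ) : (-(2 * π * I * w) / A).re = 2 * π * w.im / A := by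
  rw [Complex.div_ofReal_re]
  simp

theorem Th_hol {L : Lt} (h : IsLat L) {A : ℝ} (hA : 0 < A) (z : ℂ) :
    MDifferentiable (modelWithCornersSelf ℂ ℂ) (modelWithCornersSelf ℂ ℂ) (Th L A z) := by
  rw [UpperHalfPlane.mdifferentiable_iff]
  intro w hw
  have hw' : 0 < w.im := hw
  have hU : IsOpen {v : ℂ | w.im / 2 < v.im} := isOpen_lt continuous_const Complex.continuous_im
  have hu : 0 < (((2 * π * (w.im / 2) / A : ℝ) : ℂ)).re := by
    rw [Complex.ofReal_re]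
    positivity
  have hd : DifferentiableOn ℂ (fun v : ℂ => ∑' l : L, conj (z + l) *
      cexp (-(-(2 * π * I * v) / A) * ((z + l) * conj (z + l)))) {v : ℂ | w.im / 2 < v.im} := by
    refine differentiableOn_tsum_of_summable_norm (summable_th h hu 1 z) (fun l => ?_) hU
      (fun l v hv => ?_)
    · fun_prop
    · rw [h1b_norm, h1b_re, Complex.ofReal_re]
      have hv' : w.im / 2 < v.im := hv
      have : 2 * π * (w.im / 2) / A ≤ 2 * π * v.im / A := by gcongr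
      gcongr
  have hm : {v : ℂ | w.im / 2 < v.im} ∈ 𝓝 w := hU.mem_nhds (by show w.im / 2 < w.im; linarith)
  refine ((hd.differentiableAt hm).congr_of_eventuallyEq ?_).differentiableWithinAt
  filter_upwards [hm] with v hv
  have hv' : w.im / 2 < v.im := hv
  have hv0 : 0 < v.im := by linarith
  simp only [Function.comp, Th, th1, ofComplex_apply_of_im_pos hv0]

theorem Th_zero {L : Lt} (h : IsLat L) {A : ℝ} (hA : 0 < A) (z : ℂ) : IsZeroAtImInfty (Th L A z) := by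
  obtain ⟨C, δ, hδ, hC⟩ := gauss_decay h 1 z one_pos
  have ht : Tendsto (fun τ : ℍ => 2 * π * τ.im / A) atImInfty atTop := by
    refine Tendsto.atTop_div_const hA (Tendsto.const_mul_atTop (by positivity) ?_)
    exact tendsto_comap
  have h0 : Tendsto (fun τ : ℍ => C * Real.exp (-δ * (2 * π * τ.im / A))) atImInfty (𝓝 0) := by
    have := (Real.tendsto_exp_atBot.comp
      (Tendsto.const_mul_atTop_of_neg (neg_lt_zero.mpr hδ) ht)).const_mul C
    simpa using this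
  refine squeeze_zero_norm' ?_ h0
  filter_upwards [ht.eventually_ge_atTop 1] with τ hτ
  refine le_trans ?_ (hC _ hτ)
  have hu : 0 < (-(2 * π * I * τ) / A : ℂ).re := by
    rw [h1b_re]
    exact lt_of_lt_of_le one_pos hτ
  have hs := summable_th h hu 1 z
  have e : ∀ l : L, ‖conj (z + l) * cexp (-(-(2 * π * I * τ) / A) * ((z + l) * conj (z + l)))‖ =
      ‖z + l‖ ^ 1 * Real.exp (-(-(2 * π * I * τ) / A : ℂ).re * ‖z + l‖ ^ 2) := fun l => h1b_norm _ _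
  refine (norm_tsum_le_tsum_norm (by simpa only [e] using hs)).trans (le_of_eq ?_)
  refine tsum_congr fun l => ?_
  rw [e, h1b_re]
  split_ifs with h0
  · simp [h0]
  · rfl

/-- the dual lattice -/
def h1b_D (L : Lt) (A : ℝ) (z : ℂ) : Prop := ∀ l ∈ L, ∃ j : ℤ, z * conj l + conj z * l = A * j

theorem h1b_T {L : Lt} {A : ℝ} (hA : 0 < A) (hi : ∀ l ∈ L, ∃ j : ℤ, l * conj l = A * j) {z : ℂ}
    (hz : h1b_D L A z) (n : ℤ) :
    Th L A z ∣[(2 : ℤ)] (ModularGroup.T ^ n) =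
      cexp (2 * π * I * n * (z * conj z) / A) • Th L A z := by
  have hA' : (A : ℂ) ≠ 0 := Complex.ofReal_ne_zero.mpr hA.ne'
  funext τ
  have hd : denom (ModularGroup.T ^ n : SL(2, ℤ)) τ = 1 := by
    rw [ModularGroup.denom_apply]
    simp [ModularGroup.coe_T_zpow]
  rw [SL_slash_apply, hd, one_zpow, mul_one, Pi.smul_apply, smul_eq_mul]
  refine Th_shift L A z _ n (ModularGroup.coe_T_zpow_smul_eq τ) fun l hl => ?_
  obtain ⟨j, hj⟩ := hi l hl
  obtain ⟨k, hk⟩ := hz l hl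
  have : 2 * π * I * n * ((z + l) * conj (z + l)) / A =
      2 * π * I * n * (z * conj z) / A + (n * (j + k) : ℤ) * (2 * π * I) := by
    rw [map_add]
    have e : (z + l) * (conj z + conj l) = z * conj z + A * (j + k) := by
      linear_combination hj + hk
    rw [e]
    push_cast
    field_simp
  rw [this, Complex.exp_add, Complex.exp_int_mul_two_pi_mul_I, mul_one]

theorem h1b_pa {L : Lt} (h : IsLat L) {A : ℝ} (hA : 0 < A) (y z : ℂ) :
    pa L (y / (I * A / (2 * ar L))) z = cexp (2 * π * I * (z * conj y + conj z * y) / A) := by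
  have hA' : (A : ℂ) ≠ 0 := Complex.ofReal_ne_zero.mpr hA.ne'
  have ha : (ar L : ℂ) ≠ 0 := Complex.ofReal_ne_zero.mpr (ar_pos h).ne'
  unfold pa
  congr 1
  simp only [map_div₀, map_mul, Complex.conj_I, Complex.conj_ofReal, map_ofNat]
  field_simp
  linear_combination (-(conj y * z) - y * conj z) * Complex.I_mul_I

theorem h1b_pa' {L : Lt} (h : IsLat L) {A : ℝ} (hA : 0 < A) (y z : ℂ) :
    pa L z (y / (I * A / (2 * ar L))) = cexp (-(2 * π * I * (z * conj y + conj z * y) / A)) := by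
  rw [Complex.exp_neg, ← h1b_pa h hA]
  unfold pa
  rw [← Complex.exp_neg]
  congr 1
  ring

theorem h1b_one {A : ℝ} (hA : 0 < A) {x : ℂ} :
    cexp (2 * π * I * x / A) = 1 ↔ ∃ j : ℤ, x = A * j := by
  have hA' : (A : ℂ) ≠ 0 := Complex.ofReal_ne_zero.mpr hA.ne'
  have hp : (2 * π * I : ℂ) ≠ 0 := Complex.two_pi_I_ne_zero
  rw [Complex.exp_eq_one_iff]
  refine exists_congr fun j => ?_
  constructor
  · intro e
    rw [div_eq_iff hA'] at e
    exact mul_left_cancel₀ hp (by linear_combination e)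
  · intro e
    rw [e]
    field_simp

theorem h1b_S {L : Lt} (h : IsLat L) {A : ℝ} (hA : 0 < A)
    (hi : ∀ l ∈ L, ∃ j : ℤ, l * conj l = A * j) {z : ℂ} (hz : h1b_D L A z) :
    ∃ (R : Finset ℂ) (c : ℂ → ℂ), (∀ r ∈ R, h1b_D L A r) ∧
      Th L A z ∣[(2 : ℤ)] ModularGroup.S = ∑ r ∈ R, c r • Th L A r := by
  have hA' : (A : ℂ) ≠ 0 := Complex.ofReal_ne_zero.mpr hA.ne'
  have ha : (ar L : ℂ) ≠ 0 := Complex.ofReal_ne_zero.mpr (ar_pos h).ne'
  obtain ⟨κ, hκ⟩ : ∃ κ : ℂ, κ = I * A / (2 * ar L) := ⟨_, rfl⟩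
  have hκ0 : κ ≠ 0 := by
    rw [hκ]
    exact div_ne_zero (mul_ne_zero I_ne_zero hA') (mul_ne_zero two_ne_zero ha)
  have hmem : ∀ y : ℂ, y ∈ pr κ * L ↔ y / κ ∈ L := fun y => by
    rw [← mul_mem_sc (L := L) (z := y / κ) hκ0, mul_div_cancel₀ _ hκ0]
  have hL' : IsLat (pr κ * L) := h.pr_mul hκ0
  have hle : L ≤ pr κ * L := by
    intro l hl
    rw [hmem, hκ]
    refine pa_dual h fun l' hl' => ?_
    obtain ⟨j, hj⟩ := hi l hl
    obtain ⟨j', hj'⟩ := hi l' hl'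
    obtain ⟨k, hk⟩ := hi _ (L.add_mem hl hl')
    rw [h1b_pa' h hA, Complex.exp_neg, (h1b_one hA).mpr ⟨k - j - j', ?_⟩, inv_one]
    rw [map_add] at hk
    push_cast
    linear_combination hk - hj - hj'
  obtain ⟨R, hR⟩ := exists_reps h hL' hle
  refine ⟨R, fun r => A ^ 2 / (4 * ar L ^ 2) / conj κ * pa L (r / κ) z, fun r hr l hl => ?_, ?_⟩
  · have h1 := pa_int h ((hmem r).mp (hR.2.2.1 r hr)) hl
    rw [hκ, h1b_pa h hA, h1b_one hA] at h1
    obtain ⟨j, hj⟩ := h1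
    exact ⟨j, by linear_combination hj⟩
  funext τ
  have hτ : (τ : ℂ) ≠ 0 := τ.ne_zero
  have hu0 : 0 < (-(2 * π * I * τ) / A : ℂ).re := by
    rw [h1b_re]
    have := τ.im_pos
    rw [UpperHalfPlane.coe_im]
    positivity
  have hu : 0 < (-(2 * π * I * (ModularGroup.S • τ : ℍ)) / A : ℂ).re := by
    rw [h1b_re]
    have := (ModularGroup.S • τ).im_pos
    rw [UpperHalfPlane.coe_im]
    positivity
  have hS : ((ModularGroup.S • τ : ℍ) : ℂ) = (-(τ : ℂ))⁻¹ := by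
    rw [modular_S_smul]
  rw [SL_slash_apply, ModularGroup.denom_S, Finset.sum_apply, Th, poisson1 h z hu, hS]
  obtain ⟨f, hf⟩ : ∃ f : ℂ → ℂ, f = fun y => pa L (y / κ) z *
      (conj y * cexp (-(-(2 * π * I * τ) / A) * (y * conj y))) := ⟨_, rfl⟩
  have hsum : Summable fun l : (pr κ * L : Lt) => f l := by
    refine Summable.of_norm ?_
    have := summable_th hL' hu0 1 0
    simp only [zero_add] at this
    simpa only [hf, norm_mul (pa _ _ _), norm_pa, one_mul, h1b_norm] using this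
  have hck : conj κ ≠ 0 := (map_ne_zero _).mpr hκ0
  have e1 : ∑' l : L, conj (l : ℂ) * pa L l z * cexp (-(π ^ 2 / (ar L ^ 2 *
      (-(2 * π * I * (-(τ : ℂ))⁻¹) / A))) * (l * conj (l : ℂ))) =
      (conj κ)⁻¹ * ∑' l : (pr κ * L : Lt), f l := by
    rw [tsum_sc L hκ0 f, ← tsum_mul_left]
    refine tsum_congr fun l => ?_
    have e : -(π ^ 2 / (ar L ^ 2 * (-(2 * π * I * (-(τ : ℂ))⁻¹) / A))) * (l * conj (l : ℂ)) =
        -(-(2 * π * I * τ) / A) * (κ * l * conj (κ * l)) := by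
      have hp : (π : ℂ) ≠ 0 := Complex.ofReal_ne_zero.mpr Real.pi_ne_zero
      rw [hκ]
      simp only [map_div₀, map_mul, Complex.conj_I, Complex.conj_ofReal, map_ofNat]
      field_simp
      linear_combination ((l : ℂ) * conj (l : ℂ)) * Complex.I_pow_four
    rw [e, hf]
    simp only [mul_div_cancel_left₀ _ hκ0]
    rw [map_mul (starRingEnd ℂ) κ]
    field_simp
  have e2 : ∀ r ∈ R, ∑' l : L, f (r + l) = pa L (r / κ) z * Th L A r τ := fun r _ => by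
    rw [Th, th1, ← tsum_mul_left]
    refine tsum_congr fun l => ?_
    have : pa L (l / κ) z = 1 := by
      rw [hκ, h1b_pa h hA, h1b_one hA]
      exact hz l l.2
    rw [hf]
    simp only [add_div, pa_add', this, mul_one]
  rw [e1, reps_tsum hR hsum, Finset.sum_congr rfl e2, Finset.mul_sum, Finset.mul_sum,
    Finset.sum_mul]
  refine Finset.sum_congr rfl fun r _ => ?_
  have hp : (π : ℂ) ≠ 0 := Complex.ofReal_ne_zero.mpr Real.pi_ne_zero
  simp only [Pi.smul_apply, smul_eq_mul, zpow_neg, zpow_ofNat]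
  field_simp
  linear_combination (-(pa L (r / κ) z * Th L A r τ * 4)) * Complex.I_mul_I

theorem Th_cusp {L : Lt} (h : IsLat L) {A : ℝ} (hA : 0 < A)
    (hi : ∀ l ∈ L, ∃ j : ℤ, l * conj l = A * j) {z : ℂ}
    (hz : ∀ l ∈ L, ∃ j : ℤ, z * conj l + conj z * l = A * j) (g : SL(2, ℤ)) :
    IsZeroAtImInfty (Th L A z ∣[(2 : ℤ)] g) := by
  have hT : ∀ (n : ℤ) (y : SL(2, ℤ)),
      (∀ z, h1b_D L A z → Th L A z ∣[(2 : ℤ)] y ∈ zeroAtImInftySubmodule ℂ) →
      ∀ z, h1b_D L A z → Th L A z ∣[(2 : ℤ)] (ModularGroup.T ^ n * y) ∈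
        zeroAtImInftySubmodule ℂ := fun n y hy z hz => by
    rw [SlashAction.slash_mul, h1b_T hA hi hz, SL_smul_slash]
    exact Submodule.smul_mem _ _ (hy z hz)
  have hS : ∀ y : SL(2, ℤ),
      (∀ z, h1b_D L A z → Th L A z ∣[(2 : ℤ)] y ∈ zeroAtImInftySubmodule ℂ) →
      ∀ z, h1b_D L A z → Th L A z ∣[(2 : ℤ)] (ModularGroup.S * y) ∈
        zeroAtImInftySubmodule ℂ := fun y hy z hz => by
    obtain ⟨R, c, hR, e⟩ := h1b_S h hA hi hz
    rw [SlashAction.slash_mul, e, SlashAction.sum_slash]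
    refine Submodule.sum_mem _ fun r hr => ?_
    rw [SL_smul_slash]
    exact Submodule.smul_mem _ _ (hy r (hR r hr))
  have hg : g ∈ Subgroup.closure {ModularGroup.S, ModularGroup.T} := by
    simp [SpecialLinearGroup.SL2Z_generators]
  have key : ∀ z, h1b_D L A z → Th L A z ∣[(2 : ℤ)] g ∈ zeroAtImInftySubmodule ℂ := by
    induction hg using Subgroup.closure_induction_left with
    | one =>
      intro z _
      rw [SlashAction.slash_one]
      exact Th_zero h hA z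
    | mul_left x hx y _ ih =>
      rcases hx with rfl | rfl
      · exact hS y ih
      · simpa only [zpow_one] using hT 1 y ih
    | inv_mul_cancel x hx y _ ih =>
      rcases hx with rfl | rfl
      · have e : ModularGroup.S⁻¹ * y = ModularGroup.S * (ModularGroup.S * (ModularGroup.S * y)) := by
          have : ModularGroup.S⁻¹ = ModularGroup.S * ModularGroup.S * ModularGroup.S := by decide
          rw [this, mul_assoc, mul_assoc]
        rw [e]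
        exact hS _ (hS _ (hS y ih))
      · simpa only [zpow_neg, zpow_one] using hT (-1) y ih
  exact key z hz

end Pool.Agent.P.MP_20768c_nt.Az.Cu

end

-- part Cu.H2_p
section

set_option autoImplicit false

open Complex NumberField IsDedekindDomain Filter Topology
open UpperHalfPlane hiding I
open scoped ComplexConjugate Real MatrixGroups

namespace Pool.Agent.P.MP_20768c_nt.Az.Cu

open Pool.Agent.P.MP_20768c_nt.Az.EQ (Lt pr sp IsLat jL qN)

open ModularForm CongruenceSubgroup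

namespace St

variable (s : St) {n f : Ideal s.O} {ω : s.Pair → ℂ}

theorem lev_pos (hf : f ≠ ⊥) : 3 ≤ s.lev f ∧ 2 ∣ s.lev f := by
  have h1 : Ideal.absNorm f ≠ 0 := fun h => hf (Ideal.absNorm_eq_zero_iff.1 h)
  have h2 := s.dd_mod
  refine ⟨?_, Dvd.dvd.mul_left (Dvd.dvd.pow (Dvd.dvd.mul_right (by norm_num) _) two_ne_zero) _⟩
  have h3 : 1 ≤ (4 * Ideal.absNorm f) ^ 2 := Nat.one_le_pow _ _ (by omega)
  calc 3 ≤ s.dd * 1 := by omega
    _ ≤ s.lev f := Nat.mul_le_mul_left _ h3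

theorem h2p_rep (hω : s.IsWt n ω) {a : Ideal s.O} (ha : a ≠ ⊥) :
    ∃ (C : s.Pr n) (x : ℂ), x ≠ 0 ∧ ω (s.ip a) = x * ω (s.out C) ∧
      ‖x‖ ^ 2 * s.nL (s.out C).L * Ideal.absNorm a = 1 ∧ x⁻¹ ∈ (s.out C).L := by
  obtain ⟨x, hx⟩ := s.cl_eq.1 (s.cl_out (s.cl n (s.ip a)))
  refine ⟨_, x, hx.1, hω.1 _ _ _ hx, ?_, ?_⟩
  · have h1 := s.nL_idl (s.isUnit_inv ha) ha
    rw [s.idl_inv ha, s.nL_one, ← s.ip_L ha, hx.2.1, s.nL_sc (s.out _).unit hx.1] at h1
    linarith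
  · have h1 := (s.ip a).mem
    rw [hx.2.1, s.ip_ρ, ← mul_inv_cancel₀ hx.1] at h1
    exact (s.mul_mem_sc' hx.1).1 h1

theorem wt_bound (hn : n ≠ ⊥) (hω : s.IsWt n ω) : ∃ B : ℝ, ∀ a, a ≠ ⊥ → ‖ω (s.ip a)‖ ≤ B := by
  have := s.finite_Pr hn
  obtain ⟨B, hB⟩ := (Set.finite_range fun C : s.Pr n =>
    (1 + (s.nL (s.out C).L)⁻¹) * ‖ω (s.out C)‖).bddAbove
  refine ⟨B, fun a ha => ?_⟩
  obtain ⟨C, x, -, h1, h2, -⟩ := s.h2p_rep hω ha
  refine le_trans ?_ (hB ⟨C, rfl⟩)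
  rw [h1, norm_mul]
  refine mul_le_mul_of_nonneg_right ?_ (norm_nonneg _)
  have hp := s.nL_pos (s.out C).unit
  have h3 : (1 : ℝ) ≤ Ideal.absNorm a :=
    Nat.one_le_cast.2 (Nat.pos_of_ne_zero fun h => ha (Ideal.absNorm_eq_zero_iff.1 h))
  have h4 : ‖x‖ ^ 2 ≤ (s.nL (s.out C).L)⁻¹ := by
    rw [← one_div, le_div_iff₀ hp, ← h2]
    exact le_mul_of_one_le_right (by positivity) h3
  nlinarith [sq_nonneg (‖x‖ - 1), norm_nonneg x]

theorem h2p_summable (hn : n ≠ ⊥) (hω : s.IsWt n ω) (τ : ℍ) :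
    Summable fun a : Ideal s.O => ω (s.ip a) * (Ideal.absNorm a : ℂ) *
      cexp (2 * π * I * τ * (Ideal.absNorm a : ℂ)) := by
  obtain ⟨B, hB⟩ := s.wt_bound hn hω
  have hy : 0 < 2 * π * τ.im := by have := τ.im_pos; positivity
  refine Summable.of_norm_bounded ((s.summable_ideal_exp hy).mul_left B) fun a => ?_
  by_cases ha : a = ⊥
  · simp [ha]
  have e : (2 * π * I * τ * (Ideal.absNorm a : ℂ)).re = -(2 * π * τ.im) * Ideal.absNorm a := by
    simp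
  rw [norm_mul, norm_mul, Complex.norm_exp, e, Complex.norm_natCast, mul_assoc]
  exact mul_le_mul_of_nonneg_right (hB a ha) (by positivity)

theorem vth_eq (hn : n ≠ ⊥) (h2 : n ≤ s.p2 ^ 2) (hω : s.IsWt n ω) (τ : ℍ) :
    s.vth ω τ = ∑ᶠ C : s.Pr n, ω (s.out C) / s.nL (s.out C).L *
      Th (s.zl (s.idl n * (s.out C).L)) (s.nL (s.out C).L) (s.out C).ρ τ := by
  rw [vth, s.tsum_cl hn h2 (s.h2p_summable hn hω τ)]
  · refine finsum_congr fun C => ?_
    rw [Th, th1, ← tsum_mul_left]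
    refine tsum_congr fun l => ?_
    generalize s.out C = p at l ⊢
    have hl : (l : ℂ) ∈ s.idl n * p.L := s.mem_zl.1 l.2
    have hm : p.ρ + l ∈ p.L := add_mem p.mem (s.idl_mul_le n p.L hl)
    have e1 := s.mkP_L p.unit hm
    have e2 := s.mkP_ρ p.unit hm
    have e3 := hω.1 _ _ _ (s.sim_add p hl)
    have e4 := s.Qn_eq (s.mkP p.L (p.ρ + l))
    rw [e1, e2, Qn] at e4
    have e5 : (Ideal.absNorm (s.idOf (s.mkP p.L (p.ρ + l))) : ℂ) =
        (p.ρ + l) * conj (p.ρ + l) / s.nL p.L := by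
      rw [Complex.mul_conj, Complex.normSq_eq_norm_sq, ← Complex.ofReal_natCast, e4]
      push_cast
      rfl
    by_cases h0 : p.ρ + l = 0
    · rw [e5, h0]
      simp
    have e6 := hω.1 _ _ _ (s.sim_ip n (p := s.mkP p.L (p.ρ + l)) (by rwa [e2]))
    rw [e2, e3, one_mul] at e6
    rw [e5, e6]
    have e7 : 2 * π * I * τ * ((p.ρ + l) * conj (p.ρ + l) / s.nL p.L) =
        -(-(2 * π * I * τ) / s.nL p.L) * ((p.ρ + l) * conj (p.ρ + l)) := by ring
    rw [e7]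
    ring
  · intro a ha
    by_cases h0 : a = ⊥
    · simp [h0]
    rw [hω.2 _ (s.idOf_le.1 (by rwa [s.idOf_ip h0])), zero_mul, zero_mul]

theorem h2p_co (ω : s.Pair → ℂ) (j : ℕ) : s.co ω j =
    ∑ a ∈ (Ideal.finite_setOfPred_absNorm_eq (S := s.O) j).toFinset,
      ω (s.ip a) * (Ideal.absNorm a : ℂ) := by
  rw [co, finsum_mem_eq_finite_toFinset_sum _ (Ideal.finite_setOfPred_absNorm_eq (S := s.O) j),
    Finset.mul_sum]
  refine Finset.sum_congr rfl fun a ha => ?_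
  rw [show Ideal.absNorm a = j by simpa using ha, mul_comm]

theorem vth_exp (hn : n ≠ ⊥) (hω : s.IsWt n ω) (τ : ℍ) :
    HasSum (fun j : ℕ => s.co ω j * qN 1 τ ^ j) (s.vth ω τ) := by
  have h := (s.h2p_summable hn hω τ).hasSum.tsum_fiberwise fun a => Ideal.absNorm a
  refine (congrArg (HasSum · (s.vth ω τ)) (funext fun j => ?_)).mp h
  have e : (fun a : Ideal s.O => Ideal.absNorm a) ⁻¹' {j} =
      ((Ideal.finite_setOfPred_absNorm_eq (S := s.O) j).toFinset : Set (Ideal s.O)) := by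
    rw [Set.Finite.coe_toFinset]
    rfl
  rw [e, Finset.tsum_subtype' _ fun a : Ideal s.O => ω (s.ip a) * (Ideal.absNorm a : ℂ) *
      cexp (2 * π * I * τ * (Ideal.absNorm a : ℂ)), s.h2p_co, Finset.sum_mul]
  refine Finset.sum_congr rfl fun a ha => ?_
  rw [show Ideal.absNorm a = j by simpa using ha, qN, ← Complex.exp_nat_mul]
  congr 2
  push_cast
  ring

theorem co_fg (hn : n ≠ ⊥) (hω : s.IsWt n ω) :
    ∃ Λ : Submodule ℤ ℂ, Λ.FG ∧ ∀ j, s.co ω j ∈ Λ := by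
  have := s.finite_Pr hn
  let φ : s.Pr n → ℂ →ₗ[ℤ] ℂ := fun C =>
    ((AddMonoidHom.mulLeft (ω (s.out C) / s.nL (s.out C).L)).comp
      (starRingEnd ℂ : ℂ →+* ℂ).toAddMonoidHom).toIntLinearMap
  refine ⟨⨆ C, (s.zl (s.out C).L).map (φ C), Submodule.fg_iSup _ fun C => ?_, fun j => ?_⟩
  · obtain ⟨c, τ, -, h⟩ := s.isLat_zl (s.out C).unit
    rw [h]
    exact (Submodule.fg_span (Set.toFinite _)).map _
  rw [s.h2p_co]
  refine sum_mem fun a _ => ?_
  by_cases ha : a = ⊥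
  · simp [ha]
  obtain ⟨C, x, h0, h1, h2, h3⟩ := s.h2p_rep hω ha
  refine Submodule.mem_iSup_of_mem C ⟨x⁻¹, s.mem_zl.2 h3, ?_⟩
  have hp : (s.nL (s.out C).L : ℂ) ≠ 0 := Complex.ofReal_ne_zero.2 (s.nL_pos (s.out C).unit).ne'
  have h4 : x * conj x * s.nL (s.out C).L * Ideal.absNorm a = 1 := by
    rw [Complex.mul_conj, Complex.normSq_eq_norm_sq]
    exact_mod_cast h2
  have h5 : conj x ≠ 0 := by simpa using h0
  change ω (s.out C) / s.nL (s.out C).L * conj x⁻¹ = _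
  rw [h1, map_inv₀, div_mul_eq_mul_div, div_eq_iff hp, mul_inv_eq_iff_eq_mul₀ h5]
  linear_combination -ω (s.out C) * h4

theorem co_one (ω : s.Pair → ℂ) : s.co ω 1 = ω 1 := by
  have e : {a : Ideal s.O | Ideal.absNorm a = 1} = {⊤} :=
    Set.ext fun a => Ideal.absNorm_eq_one_iff
  rw [co, e, finsum_mem_singleton, s.ip_top, Nat.cast_one, one_mul]

theorem co_sum {ι : Type} (T : Finset ι) (μ : ι → ℂ) (w : ι → s.Pair → ℂ) (j : ℕ) :
    s.co (fun p => ∑ i ∈ T, μ i * w i p) j = ∑ i ∈ T, μ i * s.co (w i) j := by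
  simp only [s.h2p_co, Finset.sum_mul, Finset.mul_sum, mul_assoc]
  exact Finset.sum_comm

end St

end Pool.Agent.P.MP_20768c_nt.Az.Cu

end

-- part Cu.H1a
section

set_option autoImplicit false

open Complex NumberField IsDedekindDomain Filter Topology
open UpperHalfPlane hiding I
open scoped ComplexConjugate Real MatrixGroups

namespace Pool.Agent.P.MP_20768c_nt.Az.Cu

open Pool.Agent.P.MP_20768c_nt.Az.EQ (Lt pr sp IsLat jL qN)

namespace St

variable (s : St) {L : s.Sub} {N : ℕ} {ρ : ℂ}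

theorem h1a_shift (hL : IsUnit L) (hρ : ρ ∈ L) (j : ℤ) {τ τ' : ℍ} (h : (τ' : ℂ) = τ + j) :
    Th (s.zl (s.sc N * L)) (s.nL L) ρ τ' = Th (s.zl (s.sc N * L)) (s.nL L) ρ τ := by
  obtain ⟨ω₁, ω₂, α, β, γ, -, -, h1, h2, -⟩ := s.exists_form hL
  have hA : (s.nL L : ℂ) ≠ 0 := ofReal_ne_zero.2 (s.nL_pos hL).ne'
  rw [Th_shift _ _ _ 1 _ h fun l hl => ?_, one_mul]
  obtain ⟨z, hz, rfl⟩ := s.mem_sc_mul.1 (s.mem_zl.1 hl)
  have h3 : (N : ℂ) * z ∈ L := by
    rw [← nsmul_eq_mul]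
    exact nsmul_mem hz N
  obtain ⟨x, y, e⟩ := h2 _ (add_mem hρ h3)
  rw [e, (h1 x y).2, ← exp_int_mul_two_pi_mul_I
    (j * (α * x ^ 2 + β * x * y + γ * y ^ 2))]
  congr 1
  push_cast
  field_simp

theorem Th_law (hL : IsUnit L) (hN : 0 < N) (hρ : ρ ∈ L) (γ : SL(2, ℤ))
    (hγ : ((s.dd * N ^ 2 : ℕ) : ℤ) ∣ γ 1 0) (τ : ℍ) :
    Th (s.zl (s.sc N * L)) (s.nL L) ρ (γ • τ) = ((γ 1 0 : ℂ) * τ + γ 1 1) ^ 2 *
      (jacobiSym (γ 1 1) s.dd : ℂ) * Th (s.zl (s.sc N * L)) (s.nL L) (γ 0 0 * ρ) τ := by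
  have hdet : γ 0 0 * γ 1 1 - γ 0 1 * γ 1 0 = 1 := by
    have h := γ.det_coe
    rwa [Matrix.det_fin_two] at h
  have haρ : (γ 0 0 : ℂ) * ρ ∈ L := by
    rw [← zsmul_eq_mul]
    exact zsmul_mem hρ _
  by_cases hc : γ 1 0 = 0
  · rw [hc, mul_zero, sub_zero] at hdet
    rcases Int.eq_one_or_neg_one_of_mul_eq_one' hdet with ⟨ha, hd⟩ | ⟨ha, hd⟩
    · rw [s.h1a_shift hL hρ (γ 0 1) (τ := τ) (by
        rw [coe_specialLinearGroup_apply, ha, hc, hd]
        simp), ha, hc, hd, jacobiSym.one_left]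
      simp
    · have h3 : s.dd % 4 = 3 := by
        have := s.dd_mod
        omega
      have h4 : Th (s.zl (s.sc N * L)) (s.nL L) (-ρ) τ = -Th (s.zl (s.sc N * L)) (s.nL L) ρ τ :=
        th1_neg _ _ _
      rw [s.h1a_shift hL hρ (-γ 0 1) (τ := τ) (by
        rw [coe_specialLinearGroup_apply, ha, hc, hd]
        simp [div_neg]
        ring), ha, hc, hd, jacobiSym.at_neg_one (Nat.odd_iff.2 (by omega)),
        ZMod.χ₄_nat_three_mod_four h3]
      push_cast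
      rw [neg_one_mul ρ, h4]
      ring
  · obtain ⟨B, hB⟩ := s.Th_prime hL hN
    obtain ⟨d, hd, hp, hm⟩ := Nat.forall_exists_prime_gt_and_zmodEq B (q := (γ 1 0).natAbs)
      (a := γ 1 1) (Int.natAbs_ne_zero.2 hc) (by
        rw [Int.natCast_natAbs, IsCoprime.abs_right_iff]
        exact ⟨γ 0 0, -γ 0 1, by linear_combination hdet⟩)
    obtain ⟨j, hj⟩ : γ 1 0 ∣ d - γ 1 1 := Int.natAbs_dvd.1 hm.symm.dvd
    let γ' : SL(2, ℤ) := ⟨!![γ 0 0, γ 0 1 + γ 0 0 * j; γ 1 0, d], by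
      rw [Matrix.det_fin_two_of]
      linear_combination hdet + γ 0 0 * hj⟩
    obtain ⟨τ', hτ⟩ : ∃ τ' : ℍ, (τ' : ℂ) = τ + (-j : ℤ) := ⟨_, ModularGroup.coe_T_zpow_smul_eq τ⟩
    have hj' : (d : ℂ) - γ 1 1 = γ 1 0 * j := by exact_mod_cast hj
    have h1 : (γ 1 0 : ℂ) * τ' + d = γ 1 0 * τ + γ 1 1 := by
      rw [hτ]
      push_cast
      linear_combination hj'
    have h2 : γ' • τ' = γ • τ := by
      refine UpperHalfPlane.ext ?_
      rw [coe_specialLinearGroup_apply, coe_specialLinearGroup_apply]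
      change ((((γ 0 0 : ℤ) : ℝ) : ℂ) * τ' + (((γ 0 1 + γ 0 0 * j : ℤ) : ℝ) : ℂ)) /
        ((((γ 1 0 : ℤ) : ℝ) : ℂ) * τ' + ((((d : ℕ) : ℤ) : ℝ) : ℂ)) =
        ((((γ 0 0 : ℤ) : ℝ) : ℂ) * τ + (((γ 0 1 : ℤ) : ℝ) : ℂ)) /
        ((((γ 1 0 : ℤ) : ℝ) : ℂ) * τ + (((γ 1 1 : ℤ) : ℝ) : ℂ))
      push_cast
      rw [h1, hτ]
      push_cast
      congr 1
      ring
    have h3 := hB ρ γ' d τ' hρ hp hd rfl hγ
    have h4 : jacobiSym d s.dd = jacobiSym (γ 1 1) s.dd := jacobiSym.mod_left'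
      (Int.ModEq.symm (Int.modEq_iff_dvd.2 (by
        rw [hj]
        exact ((Int.natCast_dvd_natCast.2 (dvd_mul_right _ _)).trans hγ).mul_right j)))
    rw [h2] at h3
    rw [h3, ← h1, ← h4, ← s.h1a_shift hL haρ (-j) hτ]
    rfl

end St

end Pool.Agent.P.MP_20768c_nt.Az.Cu

end

-- part Cu.H2_q
section

set_option autoImplicit false

open Complex NumberField IsDedekindDomain Filter Topology
open UpperHalfPlane hiding I
open scoped ComplexConjugate Real MatrixGroups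

namespace Pool.Agent.P.MP_20768c_nt.Az.Cu

open Pool.Agent.P.MP_20768c_nt.Az.EQ (Lt pr sp IsLat jL qN)

open ModularForm CongruenceSubgroup

namespace St

variable (s : St) {n f : Ideal s.O} {ω : s.Pair → ℂ}

theorem h2q_inv (hω : s.IsWt n ω) (τ : ℍ) : s.Inv n fun p => ω p / s.nL p.L *
    Th (s.zl (s.idl n * p.L)) (s.nL p.L) p.ρ τ := by
  intro x p q h
  have h0 := (s.nL_pos p.unit).ne'
  have h1 : Th (s.zl (s.idl n * q.L)) (s.nL q.L) q.ρ τ =
      conj x * Th (s.zl (s.idl n * p.L)) (s.nL p.L) p.ρ τ := by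
    unfold Th
    rw [← add_sub_cancel (x * p.ρ) q.ρ, th1_add _ _ _ (s.mem_zl.2 h.2.2), h.2.1, mul_left_comm,
      zl_sc, th1_sc _ h.1, s.nL_sc p.unit h.1, mul_conj']
    have : (‖x‖ : ℂ) ≠ 0 := ofReal_ne_zero.2 (norm_ne_zero_iff.2 h.1)
    congr 2
    push_cast
    field_simp
  have h2 := h.1
  beta_reduce
  rw [h1, hω.1 x p q h, h.2.1, s.nL_sc p.unit h.1]
  push_cast
  rw [← mul_conj']
  have h3 : conj x ≠ 0 := (map_ne_zero _).2 h2
  have h4 : (s.nL p.L : ℂ) ≠ 0 := ofReal_ne_zero.2 h0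
  field_simp

theorem h2q_wt (hω : s.IsWt n ω) (β : s.O) : s.IsWt n fun p => ω (p * s.np β) :=
  ⟨fun x _ _ h => hω.1 x _ _ (h.mul _), fun p h => hω.2 _ (by
    rw [mul_L, mul_ρ, np_L, np_ρ, mul_one, mul_comm p.ρ]
    exact s.c_mul_mem β h)⟩

theorem h2q_one (hω : s.IsWt n ω) {β : s.O} (h : β - 1 ∈ n) (p : s.Pair) :
    ω (p * s.np β) = ω p := by
  rw [hω.1 1 _ _ (s.sim_np h p), one_mul, np_one, mul_one]

theorem h2q_nrm {L : s.Sub} (hL : IsUnit L) {l : ℂ} (hl : l ∈ L) :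
    l * conj l = s.nL L * s.Qn (s.mkP L l) := by
  have h := s.Qn_eq (s.mkP L l)
  rw [s.mkP_L hL hl, s.mkP_ρ hL hl, eq_div_iff (s.nL_pos hL).ne', mul_comm] at h
  rw [mul_conj']
  exact_mod_cast h.symm

theorem vth_slash (hf : f ≠ ⊥) (hω : s.IsWt (s.lv f) ω) {γ : SL(2, ℤ)}
    (hγ : γ ∈ Gamma0 (s.lev f)) : s.vth ω ∣[(2 : ℤ)] γ =
      (jacobiSym (γ 1 1) s.dd : ℂ) • s.vth fun p => ω (p * s.np (γ 1 1 : ℤ)) := by
  obtain ⟨N, hN⟩ : ∃ N, N = 4 * Ideal.absNorm f := ⟨_, rfl⟩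
  have hN0 : 0 < N :=
    hN ▸ Nat.mul_pos four_pos (Nat.pos_of_ne_zero (mt Ideal.absNorm_eq_zero_iff.1 hf))
  have hle : Ideal.span {(N : s.O)} ≤ s.lv f :=
    (Ideal.span_singleton_le_iff_mem _).2 (hN ▸ s.four_mem f)
  have hn : Ideal.span {(N : s.O)} ≠ ⊥ :=
    mt Ideal.span_singleton_eq_bot.1 (Nat.cast_ne_zero.2 hN0.ne')
  have h2 := hle.trans (s.lv_le f).2
  have hω' := hω.mono hle
  have hc : ((s.dd * N ^ 2 : ℕ) : ℤ) ∣ γ 1 0 :=
    (ZMod.intCast_zmod_eq_zero_iff_dvd _ _).1 (hN ▸ Gamma0_mem.1 hγ)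
  have had : ((γ 0 0 : ℤ) : s.O) * (γ 1 1 : ℤ) - 1 ∈ Ideal.span {(N : s.O)} := by
    obtain ⟨t, ht⟩ := hc
    have h := γ.det_coe
    rw [Matrix.det_fin_two, ht] at h
    refine Ideal.mem_span_singleton'.2 ⟨(γ 0 1 * (s.dd * N * t) : ℤ), ?_⟩
    have h1 : γ 0 1 * (s.dd * N * t) * N = γ 0 0 * γ 1 1 - 1 := by
      push_cast at h
      linear_combination -h
    exact_mod_cast congrArg (Int.cast : ℤ → s.O) h1
  have hu : IsUnit (s.cl (Ideal.span {(N : s.O)}) (s.np (γ 0 0 : ℤ))) :=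
    IsUnit.of_mul_eq_one (s.cl _ (s.np (γ 1 1 : ℤ))) (by
      rw [← map_mul, ← np_mul]
      exact s.cl_np_eq_one.2 (Or.inl had))
  have := s.finite_Pr hn
  have := Fintype.ofFinite (s.Pr (Ideal.span {(N : s.O)}))
  funext τ
  have he : denom γ τ = (γ 1 0 : ℂ) * τ + γ 1 1 := by simp [ModularGroup.denom_apply]
  have hd : (γ 1 0 : ℂ) * τ + γ 1 1 ≠ 0 := he ▸ denom_ne_zero γ τ
  rw [SL_slash_apply, Pi.smul_apply, s.vth_eq hn h2 hω', s.vth_eq hn h2 (s.h2q_wt hω' _),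
    ← s.sum_mul (s.h2q_inv (s.h2q_wt hω' _) τ) hu, finsum_eq_sum_of_fintype,
    finsum_eq_sum_of_fintype, smul_eq_mul, Finset.sum_mul, Finset.mul_sum]
  refine Finset.sum_congr rfl fun C _ => ?_
  rw [mul_assoc (s.out C), ← np_mul, s.h2q_one hω' had, mul_L, mul_ρ, np_L, np_ρ, mul_one, idl_span,
    c_nat, c_int, s.Th_law (s.out C).unit hN0 (s.out C).mem γ hc, mul_comm (s.out C).ρ, he]
  field_simp

theorem exists_cusp (hf : f ≠ ⊥) (hω : s.IsWt (s.lv f) ω) :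
    ∃ F : CuspForm (Gamma1 (s.lev f)) 2, ⇑F = s.vth ω := by
  have hl : NeZero (s.lev f) := ⟨by have := (s.lev_pos hf).1; omega⟩
  have hn := s.lv_ne hf
  have := s.finite_Pr hn
  have := Fintype.ofFinite (s.Pr (s.lv f))
  have h : s.vth ω = ∑ C : s.Pr (s.lv f), (ω (s.out C) / s.nL (s.out C).L) •
      Th (s.zl (s.idl (s.lv f) * (s.out C).L)) (s.nL (s.out C).L) (s.out C).ρ := by
    funext τ
    rw [s.vth_eq hn (s.lv_le f).2 hω, finsum_eq_sum_of_fintype, Finset.sum_apply]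
    rfl
  have hL : ∀ C : s.Pr (s.lv f), IsLat (s.zl (s.idl (s.lv f) * (s.out C).L)) := fun C =>
    s.isLat_zl ((s.isUnit_idl hn).mul (s.out C).unit)
  refine ⟨⟨⟨s.vth ω, ?_⟩, ?_, fun {c} hc => ?_⟩, rfl⟩
  · rintro _ ⟨γ, hγ, rfl⟩
    obtain ⟨t, ht⟩ : ((s.lev f : ℕ) : ℤ) ∣ γ 1 1 - 1 :=
      (ZMod.intCast_zmod_eq_zero_iff_dvd _ _).1 (by
        rw [Int.cast_sub, ((Gamma1_mem _ _).1 hγ).2.1, Int.cast_one, sub_self])
    have h1 : jacobiSym (γ 1 1) s.dd = 1 := by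
      refine (jacobiSym.mod_left' ?_).trans (jacobiSym.one_left s.dd)
      refine (Int.modEq_iff_dvd.2 ⟨(4 * Ideal.absNorm f) ^ 2 * t, ?_⟩).symm
      rw [ht, lev]
      push_cast
      ring
    have h2 : ((γ 1 1 : ℤ) : s.O) - 1 ∈ s.lv f := by
      have h3 : ((γ 1 1 : ℤ) : s.O) - 1 = (s.dd * (4 * Ideal.absNorm f : ℕ) * t) *
          (4 * Ideal.absNorm f : ℕ) := by
        have h4 := congrArg (Int.cast : ℤ → s.O) ht
        rw [lev] at h4
        push_cast at h4 ⊢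
        linear_combination h4
      exact h3 ▸ Ideal.mul_mem_left _ _ (s.four_mem f)
    refine (s.vth_slash hf hω (Gamma1_in_Gamma0 _ hγ)).trans ?_
    simp only [h1, s.h2q_one hω h2, Int.cast_one, one_smul]
  · change MDifferentiable _ _ (s.vth ω)
    rw [h]
    exact MDifferentiable.sum fun C _ => (Th_hol (hL C) (s.nL_pos (s.out C).unit) _).const_smul _
  · rw [Subgroup.IsArithmetic.isCusp_iff_isCusp_SL2Z] at hc
    rw [OnePoint.isZeroAt_iff_forall_SL2Z hc]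
    intro g _
    change IsZeroAtImInfty (s.vth ω ∣[(2 : ℤ)] g)
    rw [h, SlashAction.sum_slash]
    refine (zeroAtFilterSubmodule ℂ atImInfty).sum_mem fun C _ => ?_
    rw [SL_smul_slash]
    refine Submodule.smul_mem _ _ (Th_cusp (hL C) (s.nL_pos (s.out C).unit)
      (fun l hl => ⟨_, (s.h2q_nrm (s.out C).unit (s.idl_mul_le _ _ hl)).trans
        (by rw [Int.cast_natCast])⟩) (fun l hl => ?_) g)
    have h1 := s.h2q_nrm (s.out C).unit (s.idl_mul_le _ _ hl)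
    have h2 := s.h2q_nrm (s.out C).unit (s.out C).mem
    have h3 := s.h2q_nrm (s.out C).unit (add_mem (s.out C).mem (s.idl_mul_le _ _ hl))
    rw [map_add] at h3
    refine ⟨(s.Qn (s.mkP (s.out C).L ((s.out C).ρ + l)) : ℤ) - s.Qn (s.mkP (s.out C).L l) -
      s.Qn (s.mkP (s.out C).L (s.out C).ρ), ?_⟩
    push_cast
    linear_combination h3 - h1 - h2

theorem Sy_sum (hf : f ≠ ⊥) {ι : Type} (T : Finset ι) (μ : ι → ℂ) {w : ι → s.Pair → ℂ}
    (hw : ∀ i ∈ T, s.IsWt (s.lv f) (w i)) (r : ℚ) :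
    s.Sy (fun p => ∑ i ∈ T, μ i * w i p) r = ∑ i ∈ T, μ i * s.Sy (w i) r := by
  have hl : NeZero (s.lev f) := ⟨by have := (s.lev_pos hf).1; omega⟩
  have hn := s.lv_ne hf
  have h1 : s.IsWt (s.lv f) fun p => ∑ i ∈ T, μ i * w i p :=
    ⟨fun x p q h => by
      rw [Finset.mul_sum]
      exact Finset.sum_congr rfl fun i hi => by rw [(hw i hi).1 x p q h, mul_left_comm],
    fun p h => Finset.sum_eq_zero fun i hi => by rw [(hw i hi).2 p h, mul_zero]⟩
  have h2 : ∀ τ, s.vth (fun p => ∑ i ∈ T, μ i * w i p) τ = ∑ i ∈ T, μ i * s.vth (w i) τ :=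
    fun τ => (s.vth_exp hn h1 τ).unique (by
      simpa only [co_sum, Finset.sum_mul, mul_assoc] using
        hasSum_sum fun i hi => (s.vth_exp hn (hw i hi) τ).mul_left (μ i))
  unfold Sy sym
  simp only [h2]
  rw [MeasureTheory.integral_finsetSum, Finset.mul_sum]
  · exact Finset.sum_congr rfl fun i _ => by rw [MeasureTheory.integral_const_mul, mul_left_comm]
  · intro i hi
    obtain ⟨F, hF⟩ := s.exists_cusp hf (hw i hi)
    exact (hF ▸ sym_int F r).const_mul _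

end St

end Pool.Agent.P.MP_20768c_nt.Az.Cu

end

-- part Cu.H2
section

set_option autoImplicit false

open Complex NumberField IsDedekindDomain Filter Topology
open UpperHalfPlane hiding I
open scoped ComplexConjugate Real MatrixGroups

namespace Pool.Agent.P.MP_20768c_nt.Az.Cu

open Pool.Agent.P.MP_20768c_nt.Az.EQ (Lt pr sp IsLat jL qN)

open ModularForm CongruenceSubgroup

namespace St

variable (s : St) {n f : Ideal s.O} {ω : s.Pair → ℂ}

/-- one term of the theta series -/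
noncomputable def h2_t (ω : s.Pair → ℂ) (w : ℂ) (a : Ideal s.O) : ℂ :=
  ω (s.ip a) * (Ideal.absNorm a : ℂ) * cexp (2 * π * I * w * (Ideal.absNorm a : ℂ))

theorem h2_of (ω : s.Pair → ℂ) {w : ℂ} (hw : 0 < w.im) :
    s.vth ω (ofComplex w) = ∑' a, s.h2_t ω w a := by
  rw [vth, ofComplex_apply_of_im_pos hw]
  rfl

theorem h2_bot (ω : s.Pair → ℂ) (w : ℂ) : s.h2_t ω w ⊥ = 0 := by
  simp [h2_t]

theorem h2_sum (hn : n ≠ ⊥) (hω : s.IsWt n ω) {w : ℂ} (hw : 0 < w.im) :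
    Summable (s.h2_t ω w) := by
  obtain ⟨B, hB⟩ := s.wt_bound hn hω
  refine Summable.of_norm_bounded
    ((s.summable_ideal_exp (y := 2 * π * w.im) (by positivity)).mul_left B) fun a => ?_
  by_cases ha : a = ⊥
  · rw [ha, h2_bot]
    simp
  · have e : (2 * π * I * w * (Ideal.absNorm a : ℂ)).re = -(2 * π * w.im) * Ideal.absNorm a := by
      simp
    rw [h2_t, norm_mul, norm_mul, Complex.norm_exp, e, Complex.norm_natCast, mul_assoc]
    exact mul_le_mul_of_nonneg_right (hB a ha) (by positivity)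

theorem h2_mem {a q : Ideal s.O} (ha : a ≠ ⊥) :
    (s.ip a).ρ ∈ s.idl q * (s.ip a).L ↔ a ≤ q := by
  rw [← s.idOf_le, s.idOf_ip ha]

theorem h2_mul (hω : s.Eig f ω) (w : ℂ) (a : Ideal s.O) :
    s.h2_t ω w (s.p1 * a) = s.al ω * s.h2_t ω (2 * w) a := by
  by_cases ha : a = ⊥
  · rw [ha, Ideal.mul_bot, h2_bot, h2_bot, mul_zero]
  · have h1 : ω (s.ip s.p1 * s.ip a) = ω (s.ip s.p1) * ω (s.ip a) / ω 1 :=
      eq_div_of_mul_eq hω.2.2.1 (hω.2.2.2 _ _)
    rw [h2_t, h2_t, al, s.ip_mul s.p1_ne ha, h1, map_mul, s.norm_p1, Nat.cast_mul,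
      Nat.cast_ofNat, show 2 * π * I * w * (2 * (Ideal.absNorm a : ℂ)) =
        2 * π * I * (2 * w) * (Ideal.absNorm a : ℂ) by ring]
    ring

theorem h2_p1 (hω : s.Eig f ω) (w : ℂ) {F : Ideal s.O → ℂ}
    (h0 : ∀ a, ¬ a ≤ s.p1 → F a = 0) (h1 : ∀ a, a ≤ s.p1 → F a = s.h2_t ω w a) :
    ∑' a, F a = s.al ω * ∑' a, s.h2_t ω (2 * w) a := by
  have hi : Function.Injective fun a : Ideal s.O => s.p1 * a := fun a b h =>
    mul_left_cancel₀ s.p1_ne h
  have h2 : Function.support F ⊆ Set.range fun a : Ideal s.O => s.p1 * a := fun a ha => by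
    obtain ⟨c, hc⟩ := Ideal.dvd_iff_le.2 (not_not.1 fun k => ha (h0 a k))
    exact ⟨c, hc.symm⟩
  have h3 : ∑' a, F (s.p1 * a) = ∑' a, F a := hi.tsum_eq h2
  have h4 : ∑' a, F (s.p1 * a) = ∑' a, s.al ω * s.h2_t ω (2 * w) a :=
    tsum_congr fun a => (h1 _ Ideal.mul_le_left).trans (s.h2_mul hω w a)
  exact h3.symm.trans (h4.trans tsum_mul_left)

theorem h2_even {a : Ideal s.O} (h1 : ¬ a ≤ s.p1) (h2 : ¬ a ≤ s.p2) : Odd (Ideal.absNorm a) := by
  have k : ∀ q : Ideal s.O, q.IsMaximal → ¬ a ≤ q → IsCoprime a q := fun q hq h => by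
    rw [Ideal.isCoprime_iff_sup_eq, sup_comm]
    exact hq.1.2 _ (left_lt_sup.2 h)
  rw [s.odd_iff, ← s.p1_mul_p2]
  exact (k _ s.p1_max h1).mul_right (k _ s.p2_max h2)

theorem h2_half (ω : s.Pair → ℂ) (w : ℂ) (a : Ideal s.O) :
    s.h2_t ω ((w + 1) / 2) a = (-1) ^ Ideal.absNorm a * s.h2_t ω (w / 2) a := by
  rw [h2_t, h2_t, ← Complex.exp_pi_mul_I, ← Complex.exp_nat_mul,
    show 2 * π * I * ((w + 1) / 2) * (Ideal.absNorm a : ℂ) =
      (Ideal.absNorm a : ℂ) * (π * I) + 2 * π * I * (w / 2) * (Ideal.absNorm a : ℂ) by ring,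
    Complex.exp_add]
  ring

theorem h2_hecke (hf : f ≠ ⊥) (hω : s.Eig f ω) (z : ℍ) :
    2⁻¹ * (s.vth ω (ofComplex ((z : ℂ) / 2)) + s.vth ω (ofComplex (((z : ℂ) + 1) / 2))) =
      s.al ω * s.vth ω z := by
  have hz := z.im_pos
  have i0 : 0 < ((z : ℂ) / 2).im := by simpa using hz
  have i1 : 0 < (((z : ℂ) + 1) / 2).im := by simpa using hz
  rw [s.h2_of ω i0, s.h2_of ω i1,
    ← (s.h2_sum (s.lv_ne hf) hω.1 i0).tsum_add (s.h2_sum (s.lv_ne hf) hω.1 i1), ← tsum_mul_left,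
    s.h2_p1 hω ((z : ℂ) / 2) (fun a ha => ?_) (fun a ha => ?_), mul_div_cancel₀ _ two_ne_zero]
  · rfl
  · rw [h2_half]
    by_cases h2 : a ≤ s.p2
    · have ha' : a ≠ ⊥ := fun k => ha (k ▸ bot_le)
      rw [h2_t, hω.1.2 _ ((s.h2_mem ha').2 h2)]
      ring
    · rw [(s.h2_even ha h2).neg_one_pow]
      ring
  · have h3 : Even (Ideal.absNorm a) := by
      rw [even_iff_two_dvd, ← s.norm_p1]
      exact Ideal.absNorm_dvd_absNorm_of_le ha
    rw [h2_half, h3.neg_one_pow]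
    ring

theorem h2_two (hf : f ≠ ⊥) (ε : DirichletCharacter ℂ (s.lev f)) :
    ε ((2 : ℕ) : ZMod (s.lev f)) = 0 := by
  refine MulChar.map_nonunit _ fun h => ?_
  have h1 := Nat.Coprime.eq_one_of_dvd ((ZMod.isUnit_iff_coprime _ _).1 h) (s.lev_pos hf).2
  omega

theorem h2_cong (hω : s.IsWt (s.lv f) ω) {d e : ℤ} (h : (s.lev f : ℤ) ∣ d - e) :
    (jacobiSym d s.dd : ℂ) * (ω (s.np d) / ω 1) = jacobiSym e s.dd * (ω (s.np e) / ω 1) := by
  obtain ⟨c, hc⟩ := h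
  rw [lev] at hc
  have h1 : jacobiSym d s.dd = jacobiSym e s.dd := by
    refine jacobiSym.mod_left' (Int.modEq_iff_dvd.2 ⟨-((4 * Ideal.absNorm f) ^ 2 * c), ?_⟩)
    push_cast at hc
    linear_combination -hc
  have h2 : (d : s.O) - e ∈ s.lv f := by
    have h3 : (d : s.O) - e = ((s.dd * (4 * Ideal.absNorm f) * c : ℤ) : s.O) *
        ((4 * Ideal.absNorm f : ℕ) : s.O) := by
      rw [← Int.cast_sub, hc]
      push_cast
      ring
    rw [h3]
    exact Ideal.mul_mem_left _ _ (s.four_mem f)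
  have h4 := hω.1 _ _ _ (s.sim_np h2 1)
  rw [one_mul, one_mul, one_mul] at h4
  rw [h1, h4]

theorem laws (hf : Odd (Ideal.absNorm f)) (hω : s.Eig f ω) :
    ∃ ε : DirichletCharacter ℂ (s.lev f),
      TLaw (s.lev f) ε (s.Sy ω) ∧ HLaw 2 (s.lev f) ε (s.al ω) (s.Sy ω) := by
  have hf' := s.odd_ne hf
  have h3 := (s.lev_pos hf').1
  have : NeZero (s.lev f) := ⟨by omega⟩
  obtain ⟨F, hF⟩ := s.exists_cusp hf' hω.1
  let χ : ℤ → ℂ := fun d => (jacobiSym d s.dd : ℂ) * (ω (s.np d) / ω 1)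
  have hc : ∀ d : ℤ, χ (ZMod.cast (d : ZMod (s.lev f))) = χ d := fun d =>
    s.h2_cong hω.1 ((ZMod.intCast_eq_intCast_iff_dvd_sub _ _ _).1 (by simp))
  have hm : ∀ d e : ℤ, χ (d * e) = χ d * χ e := fun d e => by
    have h1 : ω (s.np d * s.np e) = ω (s.np d) * ω (s.np e) / ω 1 :=
      eq_div_of_mul_eq hω.2.2.1 (hω.2.2.2 _ _)
    simp only [χ]
    rw [jacobiSym.mul_left, Int.cast_mul, Int.cast_mul, s.np_mul, h1]
    ring
  let φ : ZMod (s.lev f) →* ℂ :=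
    { toFun := fun x => χ (ZMod.cast x)
      map_one' := by
        rw [← Int.cast_one, hc]
        simp only [χ]
        rw [jacobiSym.one_left, Int.cast_one, Int.cast_one, s.np_one, div_self hω.2.2.1, mul_one]
      map_mul' := fun x y => by
        rw [← hm, ← hc (ZMod.cast x * ZMod.cast y), Int.cast_mul, ZMod.intCast_zmod_cast,
          ZMod.intCast_zmod_cast] }
  have e : s.Sy ω = sym F := by
    rw [hF]
    rfl
  refine ⟨MulChar.ofUnitHom (Units.map φ), e ▸ sym_T _ F fun γ hγ => ?_,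
    e ▸ sym_H two_ne_zero _ F _ fun z => ?_⟩
  · obtain ⟨u, hu⟩ : IsUnit ((γ 1 1 : ℤ) : ZMod (s.lev f)) :=
      (Group.isUnit (⟨γ, hγ⟩ : Gamma0 (s.lev f))).map (Gamma0Map (s.lev f))
    have h1 : (MulChar.ofUnitHom (Units.map φ) : DirichletCharacter ℂ (s.lev f))
        ((γ 1 1 : ℤ) : ZMod (s.lev f)) = χ (γ 1 1) := by
      rw [← hc, ← hu, MulChar.ofUnitHom_coe]
      rfl
    rw [hF, s.vth_slash hf' hω.1 hγ, h1]
    funext τ
    simp only [χ, Pi.smul_apply, smul_eq_mul, vth]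
    rw [mul_assoc (jacobiSym _ _ : ℂ), ← tsum_mul_left (a := ω _ / ω 1)]
    congr 1
    refine tsum_congr fun a => ?_
    rw [eq_div_of_mul_eq hω.2.2.1 (hω.2.2.2 (s.ip a) _)]
    ring
  · rw [s.h2_two hf', hF, ← s.h2_hecke hf' hω z]
    simp [Finset.sum_range_succ]

theorem Sy_hecke (hf : Odd (Ideal.absNorm f)) (hω : s.Eig f ω) (r : ℚ) :
    s.al ω * s.Sy ω r = s.Sy ω (r / 2) + s.Sy ω ((r + 1) / 2) := by
  obtain ⟨ε, -, h⟩ := s.laws hf hω
  rw [h r, s.h2_two (s.odd_ne hf)]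
  simp [Finset.sum_range_succ]

theorem h2_shift (b : ℤ) {d : ℕ} (hd : 0 < d)
    (hnd : n ≤ Ideal.span {(d : s.O)}) (p : s.Pair) {y : ℝ} (hy : 0 < y) :
    Th (s.zl (s.idl n * p.L)) (s.nL p.L) p.ρ
        (ofComplex ((((b : ℚ) / (d : ℚ) : ℚ) : ℂ) + (y : ℂ) * I)) =
      cexp (2 * π * I * (b * s.Qn p) / d) *
        th1 (s.zl (s.idl n * p.L)) p.ρ ((2 * π / s.nL p.L * y : ℝ) : ℂ) := by
  have i0 : 0 < ((y : ℂ) * I).im := by simpa using hy
  have hA : (s.nL p.L : ℂ) ≠ 0 := by exact_mod_cast (s.nL_pos p.unit).ne'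
  have hd' : (d : ℂ) ≠ 0 := by exact_mod_cast hd.ne'
  rw [Th_shift _ _ _ (cexp (2 * π * I * (b * s.Qn p) / d)) ((b : ℂ) / d)
    (τ := ofComplex ((y : ℂ) * I)) ?_ fun l hl => ?_]
  · rw [Th, ofComplex_apply_of_im_pos i0]
    congr 2
    push_cast
    linear_combination (-(2 * π * y) / (s.nL p.L : ℂ)) * I_mul_I
  · rw [an3_coe _ hy, ofComplex_apply_of_im_pos i0]
    push_cast
    ring
  · have hl' : l ∈ s.idl n * p.L := s.mem_zl.1 hl
    have hm : p.ρ + l ∈ p.L := add_mem p.mem (s.idl_mul_le n p.L hl')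
    have h1 := s.Qn_eq (s.mkP p.L (p.ρ + l))
    rw [s.mkP_L p.unit hm, s.mkP_ρ p.unit hm] at h1
    have h2 : (p.ρ + l) * conj (p.ρ + l) = s.Qn (s.mkP p.L (p.ρ + l)) * (s.nL p.L : ℂ) := by
      rw [Complex.mul_conj', ← Complex.ofReal_natCast, h1]
      push_cast
      rw [div_mul_cancel₀ _ hA]
    obtain ⟨c, hc⟩ := (Nat.modEq_iff_dvd.1 (s.Qn_mod hnd (s.cl_eq.2 ⟨1, s.sim_add p hl'⟩)))
    have h3 : (s.Qn (s.mkP p.L (p.ρ + l)) : ℂ) = s.Qn p + d * c := by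
      have := congrArg (Int.cast : ℤ → ℂ) hc
      push_cast at this
      linear_combination this
    rw [h2, h3, ← mul_assoc, mul_div_cancel_right₀ _ hA,
      show 2 * π * I * ((b : ℂ) / d) * (s.Qn p + d * c) =
        2 * π * I * (b * s.Qn p) / d + ((b * c : ℤ) : ℂ) * (2 * π * I) by
          push_cast
          field_simp,
      Complex.exp_add, Complex.exp_int_mul_two_pi_mul_I, mul_one]

theorem Sy_eq (hn : n ≠ ⊥) (h2 : n ≤ s.p2 ^ 2) (hω : s.IsWt n ω) (b : ℤ) {d : ℕ} (hd : 0 < d)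
    (hnd : n ≤ Ideal.span {(d : s.O)}) : s.Sy ω (b / d) = ∑ᶠ C : s.Pr n,
      cexp (2 * π * I * (b * s.Qn (s.out C)) / d) * ω (s.out C) *
        eF (s.zl (s.idl n * (s.out C).L)) (s.out C).ρ := by
  have := s.finite_Pr hn
  have := Fintype.ofFinite (s.Pr n)
  have hp : ∀ C : s.Pr n, 0 < 2 * π / s.nL (s.out C).L := fun C =>
    div_pos (by positivity) (s.nL_pos (s.out C).unit)
  have hi : ∀ C : s.Pr n, MeasureTheory.IntegrableOn (fun y : ℝ =>
      th1 (s.zl (s.idl n * (s.out C).L)) (s.out C).ρ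
        ((2 * π / s.nL (s.out C).L * y : ℝ) : ℂ)) (Set.Ioi 0) := fun C => by
    rw [MeasureTheory.integrableOn_Ioi_comp_mul_left_iff
      (fun u : ℝ => th1 (s.zl (s.idl n * (s.out C).L)) (s.out C).ρ u) 0 (hp C), mul_zero]
    exact int_th1 (s.isLat_zl ((s.isUnit_idl hn).mul (s.out C).unit)) _
  rw [Sy, sym, MeasureTheory.setIntegral_congr_fun measurableSet_Ioi (g := fun y : ℝ =>
      ∑ C : s.Pr n, ω (s.out C) / s.nL (s.out C).L *
        cexp (2 * π * I * (b * s.Qn (s.out C)) / d) *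
        th1 (s.zl (s.idl n * (s.out C).L)) (s.out C).ρ
          ((2 * π / s.nL (s.out C).L * y : ℝ) : ℂ)) fun y hy => ?_,
    MeasureTheory.integral_finsetSum _ fun C _ => (hi C).const_mul _, finsum_eq_sum_of_fintype,
    Finset.mul_sum]
  · refine Finset.sum_congr rfl fun C _ => ?_
    have hA : (s.nL (s.out C).L : ℂ) ≠ 0 := by exact_mod_cast (s.nL_pos (s.out C).unit).ne'
    have hπ : (π : ℂ) ≠ 0 := by exact_mod_cast Real.pi_ne_zero
    rw [MeasureTheory.integral_const_mul, MeasureTheory.integral_comp_mul_left_Ioi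
      (fun u : ℝ => th1 (s.zl (s.idl n * (s.out C).L)) (s.out C).ρ u) 0 (hp C), mul_zero,
      Complex.real_smul, eF]
    push_cast
    field_simp
  · simp only
    rw [s.vth_eq hn h2 hω, finsum_eq_sum_of_fintype]
    refine Finset.sum_congr rfl fun C _ => ?_
    rw [s.h2_shift b hd hnd _ hy, ← mul_assoc]

theorem Sy_dep (hf : Odd (Ideal.absNorm f)) (hω : s.Eig f ω) {ω' : s.Pair → ℂ}
    (h0 : ∀ p : s.Pair, p.ρ ∈ s.idl s.p1 * p.L → ω' p = 0)
    (h1 : ∀ p : s.Pair, p.ρ ∉ s.idl s.p1 * p.L → ω' p = ω p) (r : ℚ) :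
    2 * s.Sy ω' r = 2 * s.Sy ω r - s.al ω * s.Sy ω (2 * r) := by
  classical
  have hf' := s.odd_ne hf
  have h3 := (s.lev_pos hf').1
  have : NeZero (s.lev f) := ⟨by omega⟩
  obtain ⟨F, hF⟩ := s.exists_cusp hf' hω.1
  let g : ℚ → ℝ → ℂ := fun t y => s.vth ω (ofComplex ((t : ℂ) + (y : ℂ) * I))
  have i1 : ∀ t, MeasureTheory.IntegrableOn (g t) (Set.Ioi 0) := fun t => by
    simp only [g, ← hF]
    exact sym_int F t
  have i2 : MeasureTheory.IntegrableOn (fun y => g (2 * r) (2 * y)) (Set.Ioi 0) := by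
    rw [MeasureTheory.integrableOn_Ioi_comp_mul_left_iff (g (2 * r)) 0 two_pos, mul_zero]
    exact i1 _
  have hpt : ∀ y ∈ Set.Ioi (0 : ℝ), s.vth ω' (ofComplex ((r : ℂ) + (y : ℂ) * I)) =
      g r y - s.al ω * g (2 * r) (2 * y) := by
    intro y hy
    have j1 : 0 < ((r : ℂ) + (y : ℂ) * I).im := by rwa [an3_im]
    have e : ((2 * r : ℚ) : ℂ) + ((2 * y : ℝ) : ℂ) * I = 2 * ((r : ℂ) + (y : ℂ) * I) := by
      push_cast
      ring
    have j2 : 0 < (2 * ((r : ℂ) + (y : ℂ) * I)).im := by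
      rw [← e, an3_im]
      exact mul_pos two_pos hy
    simp only [g]
    rw [e, s.h2_of ω' j1, s.h2_of ω j1, s.h2_of ω j2]
    generalize (r : ℂ) + (y : ℂ) * I = w at j1
    have hs := s.h2_sum (s.lv_ne hf') hω.1 j1
    rw [← s.h2_p1 hω w (F := {a | a ≤ s.p1}.indicator (s.h2_t ω w))
      (fun a ha => Set.indicator_of_notMem ha _) (fun a ha => Set.indicator_of_mem ha _),
      ← hs.tsum_sub (hs.indicator _)]
    refine tsum_congr fun a => ?_
    by_cases ha : a = ⊥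
    · rw [Set.indicator_of_mem (show a ∈ {a | a ≤ s.p1} from ha.le.trans bot_le), ha, h2_bot,
        sub_self]
    by_cases k : a ≤ s.p1
    · rw [Set.indicator_of_mem (show a ∈ {a | a ≤ s.p1} from k), sub_self, h2_t,
        h0 _ ((s.h2_mem ha).2 k), zero_mul, zero_mul]
    · rw [Set.indicator_of_notMem (show a ∉ {a | a ≤ s.p1} from k), sub_zero, h2_t, h2_t,
        h1 _ fun k' => k ((s.h2_mem ha).1 k')]
  have e1 : s.Sy ω r = 2 * π * ∫ y in Set.Ioi (0 : ℝ), g r y := rfl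
  have e2 : s.Sy ω (2 * r) = 2 * π * ∫ y in Set.Ioi (0 : ℝ), g (2 * r) y := rfl
  rw [e1, e2, Sy, sym, MeasureTheory.setIntegral_congr_fun measurableSet_Ioi hpt,
    MeasureTheory.integral_sub (i1 r) (i2.const_mul _), MeasureTheory.integral_const_mul,
    MeasureTheory.integral_comp_mul_left_Ioi (g (2 * r)) 0 two_pos, mul_zero, Complex.real_smul]
  push_cast
  ring

end St

end Pool.Agent.P.MP_20768c_nt.Az.Cu

end
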