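import Pool.Agent.P.MP_20768c_nt.Az.Z4
import Pool.Agent.P.MP_20768c_nt.Az.Z7
import Pool.Agent.P.MP_20768c_nt.Az.Z8
import Pool.Agent.P.MP_20768c_nt.Az.Z10
import Pool.Agent.P.MP_20768c_nt.Az.Z12

-- part Cu.B6
section

set_option autoImplicit false

open Complex NumberField IsDedekindDomain Filter Topology
open UpperHalfPlane hiding I
open scoped ComplexConjugate Real MatrixGroups

namespace Pool.Agent.P.MP_20768c_nt.Az.Cu

open Pool.Agent.P.MP_20768c_nt.Az.EQ (Lt pr sp IsLat jL qN)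

variable {Γ : Type} [LinearOrderedCommGroupWithZero Γ] {v : Valuation ℂ Γ} {L L' : Lt}
  {U r Q t z : ℂ} {c : ℕ}

theorem b6_sq {a b : Γ} (h : a ^ 2 = b ^ 2) : a = b :=
  (pow_left_inj₀ zero_le zero_le two_ne_zero).1 h

theorem b6_nat (v : Valuation ℂ Γ) (n : ℕ) : v n ≤ 1 := by
  induction n with
  | zero => simp
  | succ n ih =>
    rw [Nat.cast_succ]
    exact v.map_add_le ih (map_one v).le

theorem b6_two (h2 : v 2 < 1) (n : ℕ) {x : ℂ} (hx : v x ≤ 1) : v (2 * n * x) < 1 := by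
  rw [map_mul, map_mul, mul_assoc]
  exact lt_of_le_of_lt (mul_le_of_le_one_right' (mul_le_one' (b6_nat v n) hx)) h2

theorem b6_unit {x y : ℂ} (hx : v x = 1) (hy : v y < 1) : v (x - y) = 1 := by
  rw [← hx] at hy ⊢
  exact v.map_sub_eq_of_lt_left hy

theorem b6_j (h2 : v 2 < 1) {j : ℂ} (hj : v j = 1) : v (j - 1728) = 1 := by
  refine b6_unit hj ?_
  have := b6_two h2 864 (map_one v).le
  rwa [show (2 : ℂ) * (864 : ℕ) * 1 = 1728 by norm_num] at this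

theorem tht_unit (h : IsLat L) (hG : Good v L U r) (hc : Odd c) (h3 : c % 3 = 1)
    (hz : ¬ E1 v L U r (c * z)) : v (tht L c z) = 1 := by
  have hU : U ≠ 0 := hG.1
  have hc0 : (c : ℂ) ≠ 0 := Nat.cast_ne_zero.2 hc.pos.ne'
  have hci : (c : ℂ)⁻¹ ≠ 0 := inv_ne_zero hc0
  have hmul : ∀ y ∈ L, (c : ℂ) * y ∈ L := fun y hy => by
    have := L.smul_mem (c : ℤ) hy
    rwa [zsmul_eq_mul, Int.cast_natCast] at this
  have hmem : ∀ y : ℂ, y ∈ pr (c : ℂ)⁻¹ * L ↔ (c : ℂ) * y ∈ L := fun y => by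
    rw [← mul_mem_sc (L := L) hci, inv_mul_cancel_left₀ hc0]
  have hle : L ≤ pr (c : ℂ)⁻¹ * L := fun y hy => (hmem y).2 (hmul y hy)
  have h' : IsLat (pr (c : ℂ)⁻¹ * L) := isLat_of_le h hle hc.pos fun y hy => (hmem y).1 hy
  obtain ⟨R, hR⟩ := exists_reps h h' hle
  have e1 := iso_val h h' hR hG (good_sc hci hG)
  have e2 := xs_prod h hc hR fun e => max 1 (v (e / U + r))
  have hf := xs_finite h hc.pos
  have hE : ∀ w : ℂ, (c : ℂ) * w - c * z ∈ L → ¬ E1 v L U r w := fun w hw hE => by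
    have := E1_int h hG hE (c : ℤ)
    rw [Int.cast_natCast] at this
    exact hz ((E1_congr h hw).1 this)
  have e3 : v (∏ᶠ e ∈ XS L c, (wp L z / U - e / U)) = ∏ᶠ e ∈ XS L c, max 1 (v (e / U + r)) := by
    rw [finprod_mem_eq_finite_toFinset_prod _ hf, finprod_mem_eq_finite_toFinset_prod _ hf,
      map_prod]
    refine Finset.prod_congr rfl fun e he => ?_
    obtain ⟨s, hs, hs', rfl⟩ := hf.mem_toFinset.1 he
    have := xm_unit h hG (hE z (by rw [sub_self]; exact L.zero_mem)) hs'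
      (hE (z + s) (by rwa [mul_add, add_sub_cancel_left]))
      (hE (z - s) (by rw [mul_sub, sub_sub_cancel_left]; exact L.neg_mem hs))
    rw [xm, xm, add_sub_add_right_eq_sub] at this
    exact this
  have e4 : v c * ∏ᶠ e ∈ XS L c, max 1 (v (e / U + r)) = 1 := by
    apply b6_sq
    have hvU : v U ≠ 0 := (Valuation.ne_zero_iff v).2 hU
    rw [mul_pow, ← e2, one_pow]
    rw [inv_pow, div_inv_eq_mul, map_mul, map_pow, mul_assoc] at e1
    exact mul_left_cancel₀ hvU (e1.trans (mul_one _).symm)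
  rw [tht_eq h hc h3 hU, map_div₀, map_pow, hG.2.2.2.2.2, one_pow, map_mul, e3, e4, div_one]

theorem b6_c4 (h2 : v 2 < 1) (h : IsLat L) (hj : v (jL L) = 1) :
    g2 L ≠ 0 ∧ v (12 * g2 L / UU L ^ 2 - 1) < 1 := by
  have hk := b6_j h2 hj
  have n1 : jL L ≠ 0 := fun e => by rw [e, map_zero] at hj; exact zero_ne_one hj
  have n2 : jL L - 1728 ≠ 0 := fun e => by rw [e, map_zero] at hk; exact zero_ne_one hk
  obtain ⟨a, b⟩ := (g23_iff h).2 ⟨n1, n2⟩
  refine ⟨a, ?_⟩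
  have e : 12 * g2 L / UU L ^ 2 - 1 = 2 * (864 : ℕ) * (jL L - 1728)⁻¹ := by
    rw [mul_div_assoc, g2_UU h a b]
    field_simp
    push_cast
    ring
  rw [e]
  exact b6_two h2 _ (by rw [map_inv₀, hk, inv_one])

theorem UU_cong (h2 : v 2 < 1) (h : IsLat L) (h' : IsLat L') (hle : L ≤ L') (hj : v (jL L) = 1)
    (hj' : v (jL L') = 1) (hE : ∀ t ∈ L', E1 v L (UU L) (-1 / 12) t → t ∈ L) :
    v (UU L' / UU L - 1) < 1 := by
  obtain ⟨R, hR⟩ := exists_reps h h' hle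
  obtain ⟨-, a⟩ := b6_c4 h2 h hj
  obtain ⟨g, b⟩ := b6_c4 h2 h' hj'
  have hU : UU L ≠ 0 := (good_can h hj (b6_j h2 hj)).1
  have hU' : UU L' ≠ 0 := (good_can h' hj' (b6_j h2 hj')).1
  have e : 12 * g2 L' / UU L ^ 2 - 1 = (12 * g2 L / UU L ^ 2 - 1) +
      ∑ t ∈ R.erase 0, (2 * (360 : ℕ) * xm L (UU L) (-1 / 12) t ^ 2 +
        2 * (60 : ℕ) * xm L (UU L) (-1 / 12) t - (5 : ℕ) * (12 * g2 L / UU L ^ 2 - 1)) := by
    rw [velu_g2 h h' hR, mul_add, add_div, Finset.mul_sum, Finset.sum_div, add_sub_right_comm]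
    congr 1
    refine Finset.sum_congr rfl fun t _ => ?_
    rw [xm]
    push_cast
    field_simp
    ring
  have hA : v (12 * g2 L' / UU L ^ 2 - 1) < 1 := by
    rw [e]
    refine v.map_add_lt a (v.map_sum_lt one_ne_zero fun t ht => ?_)
    obtain ⟨h0, htR⟩ := Finset.mem_erase.1 ht
    have hx : v (xm L (UU L) (-1 / 12) t) ≤ 1 := (xm_le fun hh =>
      h0 (hR.sub_mem htR hR.2.1 (by rw [sub_zero]; exact hE t (hR.2.2.1 t htR) hh))).2
    refine v.map_sub_lt (v.map_add_lt (b6_two h2 _ ?_) (b6_two h2 _ hx)) ?_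
    · rw [map_pow]
      exact pow_le_one' hx 2
    · rw [map_mul]
      exact lt_of_le_of_lt (mul_le_of_le_one_left' (b6_nat v 5)) a
  have hB : v (12 * g2 L' / UU L' ^ 2) = 1 := by
    have := v.map_one_add_of_lt b
    rwa [add_sub_cancel] at this
  refine sq_one h2 ?_
  have e2 : (UU L' / UU L) ^ 2 - 1 = ((12 * g2 L' / UU L ^ 2 - 1) - (12 * g2 L' / UU L' ^ 2 - 1)) /
      (12 * g2 L' / UU L' ^ 2) := by
    field_simp
    ring
  rw [e2, map_div₀, hB, div_one]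
  exact v.map_sub_lt hA b

theorem roots_val (h2 : v 2 < 1) (h : IsLat L) (hj : v (jL L) = 1) {t₁ t₂ : ℂ} (h1 : t₁ ∉ L)
    (k1 : 2 * t₁ ∈ L) (k2 : 2 * t₂ ∈ L) (e2 : ¬ E1 v L (UU L) (-1 / 12) t₂)
    (e3 : ¬ E1 v L (UU L) (-1 / 12) (t₁ + t₂)) :
    Rt v L t₁ t₂ (UU L) ∧ E1 v L (UU L) (-1 / 12) t₁ := by
  have hG := good_can h hj (b6_j h2 hj)
  have hU : UU L ≠ 0 := hG.1
  have hvU : v (UU L) ≠ 0 := (Valuation.ne_zero_iff v).2 hU
  obtain ⟨n2, i2⟩ := xm_le e2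
  obtain ⟨n3, i3⟩ := xm_le e3
  obtain ⟨s0, s2, s3, -⟩ := vieta' h h1 n2 n3 k1 k2
  have hd := hG.2.2.2.2.2
  have w : ∀ s, wp L s = UU L * (xm L (UU L) (-1 / 12) s + 1 / 12) := fun s => by
    rw [xm]
    field_simp
    ring
  rw [dl, s2, s3] at hd
  unfold Rt E1
  rw [w t₁, w t₂, w (t₁ + t₂)] at s0 hd ⊢
  generalize xm L (UU L) (-1 / 12) t₁ = x at s0 hd ⊢
  generalize xm L (UU L) (-1 / 12) t₂ = y at s0 hd i2 ⊢
  generalize xm L (UU L) (-1 / 12) (t₁ + t₂) = u at s0 hd i3 ⊢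
  generalize UU L = W at s0 hd hU hvU ⊢
  have hx : x = -1 / 4 - y - u := by
    have : W * (x + y + u + 1 / 4) = 0 := by linear_combination s0
    have := (mul_eq_zero.1 this).resolve_left hU
    linear_combination this
  have m1 : v (-1) = 1 := by rw [Valuation.map_neg, map_one]
  have key : ∀ a b : ℕ, v (-1 - (2 * a * y + 2 * b * u)) = 1 := fun a b =>
    b6_unit m1 (v.map_add_lt (b6_two h2 a i2) (b6_two h2 b i3))
  have a1 : v (4 * x) = 1 := by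
    rw [← key 2 2, hx]
    congr 1
    push_cast
    ring
  have a2 : v (4 * (x - y)) = 1 := by
    rw [← key 4 2, hx]
    congr 1
    push_cast
    ring
  have a3 : v (4 * (x - u)) = 1 := by
    rw [← key 2 4, hx]
    congr 1
    push_cast
    ring
  have h4 : v 4 < 1 := by
    have := b6_two h2 2 (map_one v).le
    rwa [show (2 : ℂ) * (2 : ℕ) * 1 = 4 by norm_num] at this
  have h40 : v 4 ≠ 0 := (Valuation.ne_zero_iff v).2 (by norm_num)
  have a4 : v ((y - u) / 4) = 1 := by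
    apply b6_sq
    have e : ((-4 * (W * (x + 1 / 12) * (W * (y + 1 / 12)) + W * (x + 1 / 12) * (W * (u + 1 / 12)) +
        W * (y + 1 / 12) * (W * (u + 1 / 12)))) ^ 3 -
        27 * (4 * (W * (x + 1 / 12)) * (W * (y + 1 / 12)) * (W * (u + 1 / 12))) ^ 2) / W ^ 6 =
        (4 * (x - y)) ^ 2 * (4 * (x - u)) ^ 2 * ((y - u) / 4) ^ 2 := by
      rw [div_eq_iff (pow_ne_zero 6 hU), hx]
      ring
    rw [e, map_mul, map_mul, map_pow, map_pow, map_pow, a2, a3, one_pow, one_mul, one_mul] at hd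
    rw [hd, one_pow]
  refine ⟨⟨h1, n2, n3, k1, k2, hU, ?_, ?_⟩, Or.inr ?_⟩
  · rw [show 4 * (W * (x + 1 / 12) - W * (y + 1 / 12)) = W * (4 * (x - y)) by ring, map_mul, a2,
      mul_one]
  · rw [show W * (y + 1 / 12) - W * (u + 1 / 12) = 4 * W * ((y - u) / 4) by ring, map_mul, a4,
      mul_one, map_mul]
  · by_contra hh
    rw [map_mul] at a1
    exact (lt_of_le_of_lt (mul_le_of_le_one_right' (not_lt.1 hh)) h4).ne a1

end Pool.Agent.P.MP_20768c_nt.Az.Cu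

end

-- part Cu.G3
section

set_option autoImplicit false

open Complex NumberField IsDedekindDomain Filter Topology
open UpperHalfPlane hiding I
open scoped ComplexConjugate Real MatrixGroups

namespace Pool.Agent.P.MP_20768c_nt.Az.Cu

open Pool.Agent.P.MP_20768c_nt.Az.EQ (Lt pr sp IsLat jL qN)

theorem g3_pa_ne (L : Lt) (l z : ℂ) : pa L l z ≠ 0 := fun h => by
  have := norm_pa L l z
  rw [h, norm_zero] at this
  exact zero_ne_one this

theorem g3_sum {L : Lt} (hL : IsLat L) (z : ℂ) {t : ℝ} (ht : 1 < t) :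
    Summable fun l : L => pa L l z * (((‖(l : ℂ)‖ ^ 2) ^ (-t) : ℝ) : ℂ) := by
  have h := summable_rpow hL ht
  refine Summable.of_norm_bounded h fun l => ?_
  rw [norm_mul, norm_pa, one_mul, norm_real, Real.norm_of_nonneg (by positivity)]

namespace St

variable (s : St) {n : Ideal s.O} {L : s.Sub} {R R' : Finset ℂ}

theorem g3_norm (hn : n ≠ ⊥) (φ : MulChar (s.Pr n) ℂ) {C : s.Pr n} (h : IsUnit C) :
    ‖φ C‖ = 1 := by
  have := s.finite_Pr hn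
  obtain ⟨u, rfl⟩ := h
  refine norm_eq_one_of_pow_eq_one (n := Nat.card (s.Pr n)ˣ) ?_ Nat.card_pos.ne'
  rw [← map_pow, ← Units.val_pow_eq_pow_val, pow_card_eq_one', Units.val_one, map_one]

theorem g3_le (hn : n ≠ ⊥) (φ : MulChar (s.Pr n) ℂ) (C : s.Pr n) : ‖φ C‖ ≤ 1 := by
  by_cases h : IsUnit C
  · exact (s.g3_norm hn φ h).le
  · rw [φ.map_nonunit h, norm_zero]; exact zero_le_one

theorem g3_conj (hn : n ≠ ⊥) (φ : MulChar (s.Pr n) ℂ) (C : s.Pr n) : conj (φ C) = (φ C)⁻¹ := by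
  by_cases h : IsUnit C
  · exact (inv_eq_conj (s.g3_norm hn φ h)).symm
  · rw [φ.map_nonunit h, map_zero, inv_zero]

theorem g3_idl (hn : n ≠ ⊥) (L : s.Sub) : s.idl n * (L * s.inv n) = L := by
  rw [mul_left_comm, s.idl_inv hn, mul_one]

theorem g3_N (hn : n ≠ ⊥) : ((Ideal.absNorm n : ℕ) : ℂ) ≠ 0 :=
  Nat.cast_ne_zero.2 (by rwa [Ne, Ideal.absNorm_eq_zero_iff])

theorem g3_inv (hn : n ≠ ⊥) {φ : MulChar (s.Pr n) ℂ} (hφ : s.Prim n φ) {T : ℂ}
    (hT : ∀ (L : s.Sub) (R : Finset ℂ) (y : ℂ), IsUnit L →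
      Reps (s.zl (s.idl n * L)) (s.zl L) R → y ∈ s.cj L * s.inv n →
      IsUnit (s.cl n (s.mkP (s.cj L * s.inv n) y)) →
      ∑ α ∈ R, φ (s.cl n (s.mkP L α)) * (pa (s.zl L) α (conj y))⁻¹ =
        (φ (s.cl n (s.mkP (s.cj L * s.inv n) y)))⁻¹ * T)
    (hL : IsUnit L) (hR' : Reps (s.zl (s.cj L)) (s.zl (s.cj L * s.inv n)) R') {α : ℂ}
    (hα : α ∈ L) : φ (s.cl n (s.mkP L α)) = T / Ideal.absNorm n *
      ∑ y ∈ R', (φ (s.cl n (s.mkP (s.cj L * s.inv n) y)))⁻¹ * pa (s.zl L) α (conj y) := by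
  classical
  obtain ⟨R, hR⟩ := exists_reps (s.isLat_zl ((s.isUnit_idl hn).mul hL)) (s.isLat_zl hL)
    (s.zl_le.2 (s.idl_mul_le n L))
  have h1 : ∀ y ∈ R', (φ (s.cl n (s.mkP (s.cj L * s.inv n) y)))⁻¹ * T =
      ∑ β ∈ R, φ (s.cl n (s.mkP L β)) * (pa (s.zl L) β (conj y))⁻¹ := by
    intro y hy
    have hy' : y ∈ s.cj L * s.inv n := s.mem_zl.1 (hR'.2.2.1 y hy)
    by_cases hu : IsUnit (s.cl n (s.mkP (s.cj L * s.inv n) y))
    · exact (hT L R y hL hR hy' hu).symm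
    · rw [s.gauss_zero hn hφ hL hR hy' hu, φ.map_nonunit hu, inv_zero, zero_mul]
  obtain ⟨β₀, ⟨hβ₀, hd⟩, huniq⟩ := hR.2.2.2 α (s.mem_zl.2 hα)
  have hβL : β₀ ∈ L := s.mem_zl.1 (hR.2.2.1 _ hβ₀)
  have h2 : T * ∑ y ∈ R', (φ (s.cl n (s.mkP (s.cj L * s.inv n) y)))⁻¹ * pa (s.zl L) α (conj y) =
      ∑ β ∈ R, φ (s.cl n (s.mkP L β)) * ∑ y ∈ R', pa (s.zl L) (α - β) (conj y) := by
    simp only [Finset.mul_sum]
    rw [Finset.sum_comm]
    refine Finset.sum_congr rfl fun y hy => ?_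
    rw [← mul_assoc, mul_comm T, h1 y hy, Finset.sum_mul]
    refine Finset.sum_congr rfl fun β _ => ?_
    have e := pa_add' (s.zl L) (α - β) β (conj y)
    rw [sub_add_cancel] at e
    rw [e, mul_assoc, mul_comm (pa (s.zl L) (α - β) (conj y)), ← mul_assoc _ (pa _ β _),
      inv_mul_cancel₀ (g3_pa_ne _ _ _), one_mul]
  have h3 : s.cl n (s.mkP L β₀) = s.cl n (s.mkP L α) := by
    have := s.sim_add (n := n) (s.mkP L β₀) (l := α - β₀)
      (by rw [s.mkP_L hL hβL]; exact s.mem_zl.1 hd)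
    rw [s.mkP_L hL hβL, s.mkP_ρ hL hβL, add_sub_cancel] at this
    exact s.cl_eq.2 ⟨1, this⟩
  rw [div_mul_eq_mul_div, h2, Finset.sum_eq_single_of_mem β₀ hβ₀, (s.orth hn hL hR'
    (sub_mem hα hβL)).1 (s.mem_zl.1 hd), h3, mul_div_cancel_right₀ _ (s.g3_N hn)]
  intro β hβ hne
  rw [(s.orth hn hL hR' (sub_mem hα (s.mem_zl.1 (hR.2.2.1 _ hβ)))).2
    fun h => hne (huniq β ⟨hβ, s.mem_zl.2 h⟩), mul_zero]

theorem g3_T (hn : n ≠ ⊥) {φ : MulChar (s.Pr n) ℂ} (hφ : s.Prim n φ) {T : ℂ}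
    (hT : ∀ (L : s.Sub) (R : Finset ℂ) (y : ℂ), IsUnit L →
      Reps (s.zl (s.idl n * L)) (s.zl L) R → y ∈ s.cj L * s.inv n →
      IsUnit (s.cl n (s.mkP (s.cj L * s.inv n) y)) →
      ∑ α ∈ R, φ (s.cl n (s.mkP L α)) * (pa (s.zl L) α (conj y))⁻¹ =
        (φ (s.cl n (s.mkP (s.cj L * s.inv n) y)))⁻¹ * T) :
    ‖T‖ ^ 2 = Ideal.absNorm n := by
  have hN := s.g3_N hn
  have hNr : ((Ideal.absNorm n : ℕ) : ℝ) ≠ 0 := fun h => hN (by exact_mod_cast h)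
  have hM : IsUnit (s.inv n) := s.isUnit_inv hn
  have hc : s.cj 1 * s.inv n = s.inv n := by rw [s.cj_one, one_mul]
  obtain ⟨R', hR'⟩ := exists_reps (s.isLat_zl (s.isUnit_cj isUnit_one))
    (s.isLat_zl ((s.isUnit_cj isUnit_one).mul hM)) (s.zl_le.2 (s.le_mul_inv hn _))
  have h1 := s.g3_inv hn hφ hT isUnit_one hR' (α := 1) (Submodule.one_le.1 le_rfl)
  have e1 : s.mkP 1 1 = 1 := by
    have := s.mkP_self 1
    rwa [s.one_L, s.one_ρ] at this
  rw [e1, map_one, map_one, hc] at h1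
  have hnl : s.nL (s.inv n) = ((Ideal.absNorm n : ℕ) : ℝ)⁻¹ := by
    have := s.nL_idl hM hn
    rw [s.idl_inv hn, s.nL_one] at this
    exact eq_inv_of_mul_eq_one_right this.symm
  have hsc : s.cj (s.inv n) * s.inv n = s.sc ((Ideal.absNorm n : ℕ) : ℂ)⁻¹ := by
    rw [mul_comm, s.mul_cj hM, hnl]
    simp
  have hcl : s.cl n (s.mkP (s.cj (s.inv n) * s.inv n) ((Ideal.absNorm n : ℕ) : ℂ)⁻¹) = 1 := by
    rw [hsc, ← map_one (s.cl n)]
    have hu := s.isUnit_sc (inv_ne_zero hN)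
    refine (s.cl_eq.2 ⟨_, inv_ne_zero hN, ?_, ?_⟩).symm
    · rw [s.mkP_L hu (s.mem_sc _), s.one_L, mul_one]
    · rw [s.mkP_ρ hu (s.mem_sc _), s.one_ρ, mul_one, sub_self]
      exact zero_mem _
  have h2 := hT (s.inv n) R' ((Ideal.absNorm n : ℕ) : ℂ)⁻¹ hM
    (by rw [s.idl_inv hn]; rwa [hc, s.cj_one] at hR') (hsc ▸ s.mem_sc _)
    (hcl ▸ isUnit_one)
  rw [hcl, map_one, inv_one, one_mul] at h2
  have har : ar (s.zl (s.inv n)) = ((Ideal.absNorm n : ℕ) : ℝ)⁻¹ * ar (s.zl 1) := by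
    rw [← hnl, nL, div_mul_cancel₀ _ (ar_pos (s.isLat_zl isUnit_one)).ne']
  have h3 : conj T = ∑ y ∈ R', (φ (s.cl n (s.mkP (s.inv n) y)))⁻¹ * pa (s.zl 1) 1 (conj y) := by
    rw [← h2, map_sum]
    refine Finset.sum_congr rfl fun y _ => ?_
    rw [map_mul, s.g3_conj hn, map_inv₀, ← inv_eq_conj (norm_pa _ _ _), inv_inv]
    congr 1
    have ha : ((ar (s.zl 1) : ℝ) : ℂ) ≠ 0 := ofReal_ne_zero.2 (ar_pos (s.isLat_zl isUnit_one)).ne'
    rw [pa, pa, har]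
    congr 1
    simp only [map_inv₀, map_natCast, map_one, conj_conj, ofReal_mul, ofReal_inv, ofReal_natCast]
    field_simp
  rw [← h3, div_mul_eq_mul_div, mul_conj, eq_div_iff hN, one_mul, normSq_eq_norm_sq] at h1
  exact_mod_cast h1.symm

theorem g3_bij (hn : n ≠ ⊥) : Function.Bijective fun D : s.Pr ⊤ =>
    s.cl ⊤ (s.mkP (s.cj (s.out D).L * s.inv n) 0) := by
  have := s.finite_Pr (n := ⊤) top_ne_bot
  refine Finite.injective_iff_bijective.1 fun D D' h => ?_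
  have hu : ∀ D : s.Pr ⊤, IsUnit (s.cj (s.out D).L * s.inv n) := fun D =>
    (s.isUnit_cj (s.out D).unit).mul (s.isUnit_inv hn)
  obtain ⟨x, hx, h1, -⟩ := s.cl_eq.1 h
  rw [s.mkP_L (hu D) (zero_mem _), s.mkP_L (hu D') (zero_mem _), ← mul_assoc,
    (s.isUnit_inv hn).mul_left_inj] at h1
  have h2 : (s.out D').L = s.sc (conj x) * (s.out D).L := by
    rw [← s.cj_cj (s.out D').L, h1, s.cj_mul, s.cj_sc, s.cj_cj]
  rw [← s.cl_out D, ← s.cl_out D']
  refine s.cl_eq.2 ⟨conj x, by simpa using hx, h2, ?_⟩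
  rw [s.idl_top, one_mul]
  exact sub_mem (s.out D').mem (h2 ▸ Submodule.mul_mem_mul (s.mem_sc _) (s.out D).mem)

theorem g3_term (φ : MulChar (s.Pr n) ℂ) (hL : IsUnit L) {α : ℂ} (hα : α ∈ L) {t : ℝ}
    (ht : 1 < t) : φ (s.cl n (s.ip (s.idOf (s.mkP L α)))) *
      (((Ideal.absNorm (s.idOf (s.mkP L α)) : ℝ) ^ (-t) : ℝ) : ℂ) =
      ((s.nL L ^ t : ℝ) : ℂ) * (φ (s.cl n (s.mkP L α)) * (((‖α‖ ^ 2) ^ (-t) : ℝ) : ℂ)) := by
  have e : ((Ideal.absNorm (s.idOf (s.mkP L α)) : ℕ) : ℝ) ^ (-t) =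
      s.nL L ^ t * (‖α‖ ^ 2) ^ (-t) := by
    have := s.Qn_eq (s.mkP L α)
    rw [s.mkP_L hL hα, s.mkP_ρ hL hα, Qn] at this
    rw [this, Real.div_rpow (sq_nonneg _) (s.nL_pos hL).le, Real.rpow_neg (s.nL_pos hL).le,
      div_inv_eq_mul, mul_comm]
  rw [e, ofReal_mul]
  by_cases h0 : α = 0
  · rw [h0, norm_zero, zero_pow two_ne_zero, Real.zero_rpow (by linarith), ofReal_zero]
    simp
  · rw [s.cl_ip_idOf n (by rwa [s.mkP_ρ hL hα])]
    ring

theorem Lr_lim (hn : n ≠ ⊥) (h2 : (2 : s.O) ∉ n) {φ : MulChar (s.Pr n) ℂ} (hφ : s.Prim n φ) :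
    ∃ y : ℂ, Tendsto (s.Lr n φ) (𝓝[>] 1) (𝓝 y) ∧ ‖y‖ ^ 2 * (s.dd * Ideal.absNorm n) =
      4 * π ^ 2 * ‖∑ᶠ C : (s.Pr n)ˣ, (φ C)⁻¹ * (s.gp n (s.out C.1) : ℂ)‖ ^ 2 := by
  classical
  obtain ⟨T, hT⟩ := s.gauss_unit hn φ
  have hT2 := s.g3_T hn hφ hT
  have := s.finite_Pr (n := ⊤) top_ne_bot
  let _ := Fintype.ofFinite (s.Pr ⊤)
  have hu : ∀ D : s.Pr ⊤, IsUnit (s.cj (s.out D).L * s.inv n) := fun D =>
    (s.isUnit_cj (s.out D).unit).mul (s.isUnit_inv hn)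
  choose R hR using fun D : s.Pr ⊤ => exists_reps (s.isLat_zl (s.isUnit_cj (s.out D).unit))
    (s.isLat_zl (hu D)) (s.zl_le.2 (s.le_mul_inv hn _))
  let ψ : s.Pr ⊤ → ℂ → ℂ := fun D y => (φ (s.cl n (s.mkP (s.cj (s.out D).L * s.inv n) y)))⁻¹
  let S : s.Pr ⊤ → ℂ → ℝ → ℂ := fun D y t => ∑' l : s.zl (s.out D).L,
    pa (s.zl (s.out D).L) l (conj y) * (((‖(l : ℂ)‖ ^ 2) ^ (-t) : ℝ) : ℂ)
  let Z : ℂ := ∑ᶠ C : (s.Pr n)ˣ, (φ C)⁻¹ * (s.gp n (s.out C.1) : ℂ)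
  have hA : ∀ t : ℝ, 1 < t → s.Lr n φ t = 2⁻¹ * (T / Ideal.absNorm n) *
      ∑ D, ∑ y ∈ R D, ((s.nL (s.out D).L ^ t : ℝ) : ℂ) * (ψ D y * S D y t) := by
    intro t ht
    have h1 := s.tsum_half (Φ := fun a => φ (s.cl n (s.ip a)) *
      (((Ideal.absNorm a : ℝ) ^ (-t) : ℝ) : ℂ)) (by
        refine Summable.of_norm_bounded (summable_norm s.k ht) fun a => ?_
        rw [norm_mul, norm_real, Real.norm_of_nonneg (by positivity)]
        exact mul_le_of_le_one_left (by positivity) (s.g3_le hn φ _))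
      (by rw [Ideal.absNorm_bot, Nat.cast_zero, Real.zero_rpow (by linarith), ofReal_zero,
        mul_zero])
    rw [finsum_eq_sum_of_fintype] at h1
    rw [mul_assoc, eq_inv_mul_iff_mul_eq₀ two_ne_zero, Lr, h1, Finset.mul_sum]
    refine Finset.sum_congr rfl fun D _ => ?_
    have hs : ∀ y ∈ R D, Summable fun l : s.zl (s.out D).L =>
        T / Ideal.absNorm n * (((s.nL (s.out D).L ^ t : ℝ) : ℂ) * (ψ D y *
          (pa (s.zl (s.out D).L) l (conj y) * (((‖(l : ℂ)‖ ^ 2) ^ (-t) : ℝ) : ℂ)))) := by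
      intro y _
      exact (((g3_sum (s.isLat_zl (s.out D).unit) (conj y) ht).mul_left _).mul_left _).mul_left _
    simp only [S, ← tsum_mul_left, Finset.mul_sum]
    rw [← Summable.tsum_finsetSum hs]
    refine tsum_congr fun l => ?_
    rw [s.g3_term φ (s.out D).unit (s.mem_zl.1 l.2) ht,
      s.g3_inv hn hφ hT (s.out D).unit (hR D) (s.mem_zl.1 l.2)]
    simp only [Finset.mul_sum, Finset.sum_mul]
    exact Finset.sum_congr rfl fun y _ => by ring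
  have hB : ∀ D, ∀ y ∈ R D, Tendsto (fun t : ℝ => ((s.nL (s.out D).L ^ t : ℝ) : ℂ) *
      (ψ D y * S D y t)) (𝓝[>] 1) (𝓝 (π / ar (s.zl 1) *
        (ψ D y * s.gp n (s.mkP (s.cj (s.out D).L * s.inv n) y)))) := by
    intro D y hy
    have hy' : y ∈ s.cj (s.out D).L * s.inv n := s.mem_zl.1 ((hR D).2.2.1 y hy)
    by_cases hq : IsUnit (s.cl n (s.mkP (s.cj (s.out D).L * s.inv n) y))
    · have h1 := s.unit_not_mem hq le_rfl fun h => h2 (h ▸ Submodule.mem_top)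
      rw [s.mkP_L (hu D) hy', s.mkP_ρ (hu D) hy', s.g3_idl hn, s.mem_cj] at h1
      have h3 := eG_lim (s.isLat_zl (s.out D).unit) fun h => h1 (s.mem_zl.1 h)
      have h4 : Tendsto (fun t : ℝ => ((s.nL (s.out D).L ^ t : ℝ) : ℂ)) (𝓝[>] 1)
          (𝓝 ((s.nL (s.out D).L : ℝ) : ℂ)) := by
        have := ((continuous_ofReal.comp (Real.continuous_const_rpow
          (s.nL_pos (s.out D).unit).ne')).tendsto 1).mono_left (nhdsWithin_le_nhds (s := Set.Ioi 1))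
        simpa [Function.comp_def] using this
      have h5 := h4.mul (h3.const_mul (ψ D y))
      convert h5 using 2
      rw [gp, s.mkP_L (hu D) hy', s.mkP_ρ (hu D) hy', s.g3_idl hn,
        eG_conj (s.isLat_zl (s.isUnit_cj (s.out D).unit)) (M := s.zl (s.out D).L)
          (fun z => by rw [s.mem_zl, s.mem_zl, s.mem_cj, conj_conj]), nL]
      have a1 : ((ar (s.zl 1) : ℝ) : ℂ) ≠ 0 := ofReal_ne_zero.2 (ar_pos (s.isLat_zl isUnit_one)).ne'
      have a2 : ((ar (s.zl (s.out D).L) : ℝ) : ℂ) ≠ 0 :=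
        ofReal_ne_zero.2 (ar_pos (s.isLat_zl (s.out D).unit)).ne'
      push_cast
      field_simp
    · have h0 : ψ D y = 0 := by simp only [ψ, φ.map_nonunit hq, inv_zero]
      simp only [h0, zero_mul, mul_zero]
      exact tendsto_const_nhds
  have hC := s.sum_half hn h2 (Φ := fun p => (φ (s.cl n p))⁻¹ * (s.gp n p : ℂ))
    (fun x p q h => by
      beta_reduce
      rw [s.gp_inv n hn x p q h, s.cl_eq.2 ⟨x, h⟩])
    (fun p h => by
      beta_reduce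
      rw [φ.map_nonunit h, inv_zero, zero_mul])
    (fun D => s.cj (s.out D).L * s.inv n) hu (s.g3_bij hn) R
    fun D => by rw [s.g3_idl hn]; exact hR D
  simp only [s.cl_out] at hC
  rw [finsum_eq_sum_of_fintype (f := fun D : s.Pr ⊤ => _)] at hC
  refine ⟨T / Ideal.absNorm n * (π / ar (s.zl 1)) * Z, ?_, ?_⟩
  · have h1 := (tendsto_finsetSum Finset.univ fun D _ =>
      tendsto_finsetSum (R D) (hB D)).const_mul (2⁻¹ * (T / Ideal.absNorm n))
    simp only [← Finset.mul_sum] at h1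
    have h3 : ∑ D, ∑ y ∈ R D, ψ D y * (s.gp n (s.mkP (s.cj (s.out D).L * s.inv n) y) : ℂ) =
      2 * Z := hC.symm
    rw [h3] at h1
    refine Tendsto.congr' (eventually_nhdsWithin_of_forall fun t ht => ?_)
      (by convert h1 using 2; ring)
    rw [hA t ht]
    simp only [← Finset.mul_sum]
  · have hd : (0 : ℝ) < s.dd := by
      have := s.dd_mod
      exact_mod_cast (by omega : 0 < s.dd)
    have hN : ((Ideal.absNorm n : ℕ) : ℝ) ≠ 0 := fun h => s.g3_N hn (by exact_mod_cast h)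
    show ‖T / Ideal.absNorm n * (π / ar (s.zl 1)) * Z‖ ^ 2 * (s.dd * Ideal.absNorm n) =
      4 * π ^ 2 * ‖Z‖ ^ 2
    generalize Z = z
    rw [norm_mul, norm_mul, norm_div, norm_div, mul_pow, mul_pow, div_pow, div_pow, hT2,
      norm_natCast, norm_real, norm_real, Real.norm_eq_abs, Real.norm_eq_abs, sq_abs, sq_abs,
      s.ar_one, div_pow, Real.sq_sqrt hd.le]
    field_simp
    ring

end St

end Pool.Agent.P.MP_20768c_nt.Az.Cu

end

-- part Cu.B4_p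
section

set_option autoImplicit false

open Complex NumberField IsDedekindDomain Filter Topology
open UpperHalfPlane hiding I
open scoped ComplexConjugate Real MatrixGroups

namespace Pool.Agent.P.MP_20768c_nt.Az.Cu

open Pool.Agent.P.MP_20768c_nt.Az.EQ (Lt pr sp IsLat jL qN)

theorem b4p_nat {F Γ : Type} [Field F] [LinearOrderedCommGroupWithZero Γ] (v : Valuation F Γ)
    (n : ℕ) : v (n : F) ≤ 1 := by
  induction n with
  | zero => simp
  | succ n ih =>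
    rw [Nat.cast_succ]
    exact v.map_add_le ih v.map_one.le

theorem cyc {F Γ : Type} [Field F] [LinearOrderedCommGroupWithZero Γ] (v : Valuation F Γ)
    (a g : ℕ → F) {r : ℕ} (hr : 0 < r) (ha : ∀ i, a (i + r) = a i) (hg : ∀ i, g (i + r) = g i)
    (h0 : (4096 : F) ≠ 0) (h1 : ∀ i, a i * g (i + 1) = 4096)
    (h2 : ∀ i, a i * g i * (a i + g i + 48) = 4096) (i : ℕ) :
    v (a i) ≤ 1 ∧ v (g i) ≤ 1 ∧ v (a i + g i + 48) = 1 := by
  have n1 : v 4096 ≤ 1 := by exact_mod_cast b4p_nat v 4096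
  have n2 : v 48 ≤ 1 := by exact_mod_cast b4p_nat v 48
  have a0 : ∀ i, a i ≠ 0 := fun i e => h0 (by rw [← h1 i, e, zero_mul])
  have g0 : ∀ i, g i ≠ 0 := fun i e => h0 (by rw [← h2 i, e, mul_zero, zero_mul])
  have e1 : ∀ i, a i = a (i + 1) * (a (i + 1) + g (i + 1) + 48) := fun i =>
    mul_right_cancel₀ (g0 (i + 1)) (by linear_combination h1 i - h2 (i + 1))
  have e2 : ∀ i, g (i + 1) = g i * (a i + g i + 48) := fun i =>
    mul_left_cancel₀ (a0 i) (by linear_combination h1 i - h2 i)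
  have sq : ∀ {x y z : F}, z = x * (x + y) → v y ≤ 1 → 1 < v z → 1 < v x ∧ v x < v z := by
    intro x y z e hy hz
    have hx : 1 < v x := by
      by_contra hx
      refine hz.not_ge ?_
      rw [e, map_mul]
      exact mul_le_one' (not_lt.1 hx) (v.map_add_le (not_lt.1 hx) hy)
    refine ⟨hx, ?_⟩
    rw [e, map_mul, v.map_add_eq_of_lt_left (hy.trans_lt hx)]
    exact lt_mul_of_one_lt_right (zero_lt_one.trans hx) hx
  obtain ⟨r, rfl⟩ := Nat.exists_eq_add_of_lt hr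
  rw [zero_add] at ha hg
  have A : ∀ i, v (a i) ≤ 1 := by
    have st : ∀ i, 1 < v (a i) → 1 < v (a (i + 1)) ∧ v (a (i + 1)) < v (a i) := fun i h => by
      refine sq (by rw [← add_assoc]; exact e1 i) (v.map_add_le ?_ n2) h
      by_contra hc
      refine n1.not_gt ?_
      rw [← h1 i, map_mul]
      exact one_lt_mul'' h (not_le.1 hc)
    intro i
    by_contra hc
    have key : ∀ n, 1 < v (a (i + (n + 1))) ∧ v (a (i + (n + 1))) < v (a i) := fun n => by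
      induction n with
      | zero => exact st i (not_le.1 hc)
      | succ n ih => exact ⟨(st _ ih.1).1, (st _ ih.1).2.trans ih.2⟩
    exact (key r).2.ne (by rw [ha])
  have G : ∀ i, v (g i) ≤ 1 := by
    have st : ∀ i, 1 < v (g (i + 1)) → 1 < v (g i) ∧ v (g i) < v (g (i + 1)) := fun i h =>
      sq (y := a i + 48) (by rw [e2 i]; ring) (v.map_add_le (A i) n2) h
    intro i
    by_contra hc
    have key : ∀ n, 1 < v (g (i + (n + 1))) → v (g i) < v (g (i + (n + 1))) := fun n => by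
      induction n with
      | zero => exact fun h => (st i h).2
      | succ n ih => exact fun h => (ih (st _ h).1).trans (st _ h).2
    exact (key r (by rw [hg]; exact not_le.1 hc)).ne (by rw [hg])
  have U : ∀ i, v (a i + g i + 48) ≤ 1 := fun i => v.map_add_le (v.map_add_le (A i) (G i)) n2
  have M : Antitone fun i => v (g i) := antitone_nat_of_succ_le fun i => by
    rw [e2 i, map_mul]
    exact mul_le_of_le_one_right' (U i)
  refine ⟨A i, G i, ?_⟩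
  have h3 : v (g (i + (r + 1))) ≤ v (g (i + 1)) := M (by omega)
  have h4 : v (g (i + 1)) = v (g i) := le_antisymm (M (Nat.le_succ i)) (by rwa [hg] at h3)
  rw [e2 i, map_mul] at h4
  exact mul_left_cancel₀ (v.ne_zero_iff.2 (g0 i)) (h4.trans (mul_one _).symm)

namespace St

variable (s : St) {Γ : Type} [LinearOrderedCommGroupWithZero Γ] (v : Valuation ℂ Γ)
  {L M : s.Sub} {U r z y : ℂ}

theorem b4p_ind (hL : IsUnit L) {q : Ideal s.O} (hq : q = s.p1 ∨ q = s.p2) {t t' : ℂ}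
    (h : t ∈ L * s.inv q) (k : t ∉ L) (h' : t' ∈ L * s.inv q) (k' : t' ∉ L) :
    hpar (s.zl L) t' = hpar (s.zl L) t :=
  hpar_congr (s.isLat_zl hL)
    ((((s.two_of_mem hL hq h k).2.2 t').1 (s.mem_zl.2 h')).resolve_left fun e => k' (s.mem_zl.1 e))

theorem b4p_not (hy : s.Gen2 L y) : y ∉ s.zl L := fun e =>
  hy.2.1 (s.c_mul_mem s.w (s.mem_zl.1 e))

theorem b4p_gen (hL : IsUnit L) : ∃ y, s.Gen2 L y := by
  obtain ⟨t₁, h1, k1⟩ := s.exists_two hL (Or.inl rfl)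
  obtain ⟨t₂, h2, k2⟩ := s.exists_two hL (Or.inr rfl)
  exact ⟨_, s.gen2_add h1 k1 h2 k2⟩

theorem h3_unit (hL : IsUnit L) (hy : s.Gen2 L y) : v (hpar (s.zl L) y) = 1 := by
  have u1 := s.isUnit_inv s.p1_ne
  let Ls : ℕ → s.Sub := fun i => L * s.inv s.p1 ^ i
  have hu : ∀ i, IsUnit (Ls i) := fun i => hL.mul (u1.pow i)
  have hs : ∀ i, Ls (i + 1) = Ls i * s.inv s.p1 := fun i => by
    simp only [Ls, pow_succ, mul_assoc]
  choose t₁ h1 k1 using fun i => s.exists_two (hu i) (Or.inl rfl)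
  choose t₂ h2 k2 using fun i => s.exists_two (hu i) (Or.inr rfl)
  obtain ⟨r, hr, hx⟩ := s.exists_pow
  obtain ⟨x, x0, hx⟩ := hx _ u1
  have per : ∀ {q : Ideal s.O}, q = s.p1 ∨ q = s.p2 → ∀ t : ℕ → ℂ, (∀ i, t i ∈ Ls i * s.inv q) →
      (∀ i, t i ∉ Ls i) → ∀ i, hpar (s.zl (Ls (i + r))) (t (i + r)) = hpar (s.zl (Ls i)) (t i) := by
    intro q hq t h k i
    have e : Ls (i + r) = s.sc x * Ls i := by
      simp only [Ls]
      rw [pow_add, hx, ← mul_assoc, mul_comm]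
    rw [s.b4p_ind (hu (i + r)) hq (t := x * t i)
      (by rw [e, mul_assoc]; exact (s.mul_mem_sc' x0).2 (h i))
      (by rw [e]; exact fun c => k i ((s.mul_mem_sc' x0).1 c)) (h _) (k _), e, s.zl_sc,
      hpar_sc _ x0]
  have rel := fun i => h_rel (s.isLat_zl (hu i)) (fun e => k1 i (s.mem_zl.1 e))
    (fun e => k2 i (s.mem_zl.1 e)) (s.b4p_not (s.gen2_add (h1 i) (k1 i) (h2 i) (k2 i)))
    (s.mem_zl.2 (s.mem_inv_p1.1 (h1 i)).1) (s.mem_zl.2 (s.mem_inv_p2.1 (h2 i)).1)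
  have key := (cyc v (fun i => hpar (s.zl (Ls i)) (t₁ i)) (fun i => hpar (s.zl (Ls i)) (t₂ i)) hr
    (per (Or.inl rfl) t₁ h1 k1) (per (Or.inr rfl) t₂ h2 k2) (by norm_num)
    (fun i => by
      have a := h2 (i + 1)
      have b := k2 (i + 1)
      rw [hs] at a b ⊢
      rw [mul_assoc, ← s.inv_mul s.p1_ne s.p2_ne, s.p1_mul_p2,
        s.mem_mul_inv (by simp)] at a
      have c := a 2 (Ideal.mem_span_singleton_self _)
      rw [show s.c 2 = 2 by exact_mod_cast s.c_nat 2] at c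
      exact h_dual (s.isLat_zl (hu i)) (s.two_of_mem (hu i) (Or.inl rfl) (h1 i) (k1 i))
        (s.mem_zl.2 c) fun e => b (s.mem_zl.1 e))
    (fun i => by linear_combination hpar (s.zl (Ls i)) (t₁ i) * hpar (s.zl (Ls i)) (t₂ i) *
      (rel i).1 - (rel i).2) 0).2.2
  have e0 : Ls 0 = L := by simp only [Ls, pow_zero, mul_one]
  have r0 := (rel 0).1
  have a1 := h1 0
  have a2 := h2 0
  have b1 := k1 0
  have b2 := k2 0
  rw [e0] at key r0 a1 a2 b1 b2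
  have c1 := s.mem_inv_p1.1 a1
  have c2 := s.mem_inv_p2.1 a2
  rcases two_cases (s.isLat_zl hL) (fun e => b1 (s.mem_zl.1 e)) (fun e => b2 (s.mem_zl.1 e))
    (s.b4p_not (s.gen2_add a1 b1 a2 b2)) (s.mem_zl.2 c1.1) (s.mem_zl.2 c2.1) (s.mem_zl.2 hy.1)
    with e | e | e | e
  · exact absurd e (s.b4p_not hy)
  · refine absurd ?_ hy.2.1
    rw [show s.c s.w * y = s.c s.w * (y - t₁ 0) + s.c s.w * t₁ 0 by ring]
    exact add_mem (s.c_mul_mem _ (s.mem_zl.1 e)) c1.2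
  · refine absurd ?_ hy.2.2
    rw [show (1 - s.c s.w) * y = (y - t₂ 0) - s.c s.w * (y - t₂ 0) + (1 - s.c s.w) * t₂ 0 by ring]
    exact add_mem (sub_mem (s.mem_zl.1 e) (s.c_mul_mem _ (s.mem_zl.1 e))) c2.2
  · rw [hpar_congr (s.isLat_zl hL) e, ← key, ← v.map_neg]
    congr 1
    linear_combination -r0

theorem j_int (hL : IsUnit L) : v (jL (s.zl L)) ≤ 1 := by
  obtain ⟨y, hy⟩ := s.b4p_gen hL
  have h := s.h3_unit v hL hy
  have e := congrArg v (h_one (s.isLat_zl hL) (s.b4p_not hy) (s.mem_zl.2 hy.1))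
  rw [map_mul, h, mul_one, map_pow] at e
  rw [e]
  exact pow_le_one' (v.map_add_le h.le (by exact_mod_cast b4p_nat v 16)) 3

theorem j_unit (h2 : v 2 < 1) (hL : IsUnit L) :
    v (jL (s.zl L)) = 1 ∧ v (jL (s.zl L) - 1728) = 1 := by
  obtain ⟨y, hy⟩ := s.b4p_gen hL
  have h := s.h3_unit v hL hy
  have e := congrArg v (h_one (s.isLat_zl hL) (s.b4p_not hy) (s.mem_zl.2 hy.1))
  have ev : ∀ n : ℕ, v (2 * n) < 1 := fun n => by
    rw [map_mul]
    exact (mul_le_of_le_one_right' (b4p_nat v n)).trans_lt h2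
  have a : v 16 < 1 := by simpa only [show (2 : ℂ) * (8 : ℕ) = 16 by norm_num] using ev 8
  have b : v 1728 < 1 := by simpa only [show (2 : ℂ) * (864 : ℕ) = 1728 by norm_num] using ev 864
  rw [map_mul, h, mul_one, map_pow, v.map_add_eq_of_lt_left (h ▸ a), h, one_pow] at e
  exact ⟨e, by rw [v.map_sub_eq_of_lt_left (e ▸ b), e]⟩

theorem g23_ne (hL : IsUnit L) : g2 (s.zl L) ≠ 0 ∧ g3 (s.zl L) ≠ 0 := by
  obtain ⟨a, b⟩ := s.j_unit s.v s.v_two hL
  exact (g23_iff (s.isLat_zl hL)).2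
    ⟨fun e => by simp [e] at a, fun e => by simp [e] at b⟩

theorem UU_ne (hL : IsUnit L) : UU (s.zl L) ≠ 0 := by
  obtain ⟨a, b⟩ := s.g23_ne hL
  exact div_ne_zero (mul_ne_zero (by norm_num) b) a

theorem good_two (h2 : v 2 < 1) (hL : IsUnit L) : Good v (s.zl L) (UU (s.zl L)) (-1 / 12) := by
  obtain ⟨a, b⟩ := s.j_unit v h2 hL
  exact good_can (s.isLat_zl hL) a b

theorem exists_good (hL : IsUnit L) : ∃ U r, Good v (s.zl L) U r := by
  obtain ⟨y, hy⟩ := s.b4p_gen hL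
  have h := s.h3_unit v hL hy
  have l := s.isLat_zl hL
  have n := s.b4p_not hy
  have t := s.mem_zl.2 hy.1
  have a := hB_ne l n t
  have b := h_B l n t
  have c := h_b2 l n t
  have d := wpd_sq l n
  rw [(wpd_eq_zero l n).2 t] at d
  obtain ⟨U, hU⟩ := IsAlgClosed.exists_eq_mul_self (3 * wp (s.zl L) y ^ 2 - g2 (s.zl L) / 4)
  rw [hU] at a b c
  have U0 : U ≠ 0 := left_ne_zero_of_mul a
  have e2 : mb2 (-wp (s.zl L) y / U) ^ 2 = hpar (s.zl L) y + 64 := by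
    rw [mb2]
    field_simp
    linear_combination -c
  have e4 : mb4 (s.zl L) U (-wp (s.zl L) y / U) = 2 := by
    rw [mb4]
    field_simp
    linear_combination 4 * hU
  have e6 : mb6 (s.zl L) U (-wp (s.zl L) y / U) = 0 := by
    rw [mb6]
    field_simp
    linear_combination -d
  have e8 : mb8 (s.zl L) U (-wp (s.zl L) y / U) = -1 := by
    rw [mb8, e4, e6]
    norm_num
  have ed : dl (s.zl L) / U ^ 6 = hpar (s.zl L) y := by
    rw [← b]
    field_simp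
  refine ⟨U, -wp (s.zl L) y / U, U0, ?_, ?_, ?_, ?_, ed ▸ h⟩
  · refine (pow_le_one_iff (n := 2) two_ne_zero).1 ?_
    rw [← map_pow, e2]
    exact v.map_add_le h.le (by exact_mod_cast b4p_nat v 64)
  · rw [e4]
    exact_mod_cast b4p_nat v 2
  · simp [e6]
  · simp [e8]

end St

end Pool.Agent.P.MP_20768c_nt.Az.Cu

end

-- part Cu.G4
section

set_option autoImplicit false

open Complex NumberField IsDedekindDomain Filter Topology
open UpperHalfPlane hiding I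
open scoped ComplexConjugate Real MatrixGroups

namespace Pool.Agent.P.MP_20768c_nt.Az.Cu

open Pool.Agent.P.MP_20768c_nt.Az.EQ (Lt pr sp IsLat jL qN)

namespace St

variable (s : St) {f : Ideal s.O} {c n : ℕ}

theorem g4_md (f : Ideal s.O) (n : ℕ) (L : s.Sub) :
    s.idl (s.md f n) * L = s.sc (2 ^ n) * (s.idl f * L) := by
  have e : s.c (2 ^ n) = 2 ^ n := by
    rw [s.c_pow]
    exact congrArg (· ^ n) (by simpa using s.c_nat 2)
  rw [md, s.idl_mul, s.idl_span, e, mul_comm (s.idl f), mul_assoc]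

theorem g4_mem (f : Ideal s.O) (n : ℕ) (L : s.Sub) {y : ℂ} (h : y ∈ s.idl (s.md f n) * L) :
    y / 2 ^ n ∈ s.idl f * L := by
  have h2 : (2 : ℂ) ^ n ≠ 0 := pow_ne_zero _ two_ne_zero
  rw [g4_md] at h
  rw [← s.mul_mem_sc' h2, mul_div_cancel₀ _ h2]
  exact h

theorem g4_lat (hc : s.Cc f c) (p : s.Pair) : IsLat (s.zl (s.idl f * p.L)) :=
  s.isLat_zl ((s.isUnit_idl (s.odd_ne hc.1)).mul p.unit)

theorem thp_inv (hc : s.Cc f c) (n : ℕ) : s.Inv (s.md f n) (s.thp f c n) := by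
  rintro x p q ⟨h0, h1, h2⟩
  have h3 := s.g4_mem f n q.L h2
  have e : q.ρ / 2 ^ n = x * (p.ρ / 2 ^ n) + (q.ρ - x * p.ρ) / 2 ^ n := by ring
  unfold thp
  rw [e, tht_add (s.g4_lat hc q) c _ (s.mem_zl.2 h3), h1, mul_left_comm, s.zl_sc,
    tht_sc (s.g4_lat hc p) h0 hc.spec.1 hc.spec.2.1]

theorem g4_le (f : Ideal s.O) (hn : 1 ≤ n) {q : Ideal s.O} (h2 : (2 : s.O) ∈ q) :
    s.md f n ≤ q := by
  refine le_trans Ideal.mul_le_right ?_
  rw [Ideal.span_singleton_le_iff_mem]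
  exact q.pow_mem_of_mem h2 n hn

theorem g4_not (hn : 1 ≤ n) {p : s.Pair} (hp : IsUnit (s.cl (s.md f n) p)) {q : Ideal s.O}
    (hq : q.IsMaximal) (h2 : (2 : s.O) ∈ q) {β : s.O} (hβ : β ∉ q) : s.c β * p.ρ / 2 ∉ p.L := by
  intro h
  have h3 := s.mul_mem_idl h2 h
  have e : s.c 2 * (s.c β * p.ρ / 2) = s.c β * p.ρ := by
    rw [show s.c 2 = 2 by simpa using s.c_nat 2]
    ring
  rw [e] at h3
  exact s.unit_not_mem hp (s.g4_le f hn h2) hq.ne_top (s.prime_mem p.unit hq hβ p.mem h3)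

theorem g4_two1 : (2 : s.O) ∈ s.p1 := Ideal.subset_span (by simp)

theorem g4_two2 : (2 : s.O) ∈ s.p2 := Ideal.subset_span (by simp)

theorem g4_odd {q : Ideal s.O} (hq : q.IsMaximal) (h2 : (2 : s.O) ∈ q) {a : ℕ} (ha : Odd a) :
    (a : s.O) ∉ q := by
  obtain ⟨j, rfl⟩ := ha
  intro h
  refine hq.ne_top ((Ideal.eq_top_iff_one q).2 ?_)
  have h3 := q.sub_mem h (q.mul_mem_right (j : s.O) h2)
  push_cast at h3
  simpa using h3

theorem thp_gen (hc : s.Cc f c) (hn : 1 ≤ n) {p : s.Pair} (hp : IsUnit (s.cl (s.md f n) p)) :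
    s.Gen2 (s.idl f * p.L) (Ideal.absNorm f * 2 ^ (n - 1) * (c * (p.ρ / 2 ^ n))) ∧
      c * (p.ρ / 2 ^ n) ∉ s.idl f * p.L := by
  obtain ⟨j, rfl⟩ : ∃ j, n = j + 1 := ⟨n - 1, by omega⟩
  have h2 : (2 : ℂ) ^ j ≠ 0 := pow_ne_zero _ two_ne_zero
  have e : (Ideal.absNorm f : ℂ) * 2 ^ (j + 1 - 1) * (c * (p.ρ / 2 ^ (j + 1))) =
      Ideal.absNorm f * c * p.ρ / 2 := by
    rw [Nat.add_sub_cancel, pow_succ]
    field_simp
  have ho : Odd (Ideal.absNorm f * c) := hc.1.mul hc.spec.1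
  have w2 : s.w ∉ s.p2 := by
    have := (s.mem_p2' 0 1).not.2 (by decide)
    simpa using this
  have w1 : 1 - s.w ∉ s.p1 := by
    have := (s.mem_p1' 1 (-1)).not.2 (by decide)
    simpa [sub_eq_add_neg] using this
  rw [e]
  refine ⟨⟨?_, fun h => ?_, fun h => ?_⟩, fun h => ?_⟩
  · have h3 := s.mul_mem_idl (Ideal.absNorm_mem f) (s.c_mul_mem (c : s.O) p.mem)
    rw [s.c_nat, s.c_nat] at h3
    convert h3 using 1
    ring
  · refine s.g4_not hn hp s.p2_max s.g4_two2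
      (β := s.w * ((Ideal.absNorm f * c : ℕ) : s.O)) (fun k => ?_) ?_
    · exact (s.p2_max.isPrime.mem_or_mem k).elim w2 (s.g4_odd s.p2_max s.g4_two2 ho)
    · rw [s.c_mul, s.c_nat]
      convert s.idl_mul_le f p.L h using 1
      push_cast
      ring
  · refine s.g4_not hn hp s.p1_max s.g4_two1
      (β := (1 - s.w) * ((Ideal.absNorm f * c : ℕ) : s.O)) (fun k => ?_) ?_
    · exact (s.p1_max.isPrime.mem_or_mem k).elim w1 (s.g4_odd s.p1_max s.g4_two1 ho)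
    · rw [s.c_mul, s.c_nat, s.c_sub, s.c_one]
      convert s.idl_mul_le f p.L h using 1
      push_cast
      ring
  · refine s.g4_not hn hp s.p2_max s.g4_two2 (β := (c : s.O))
      (s.g4_odd s.p2_max s.g4_two2 hc.spec.1) ?_
    have h3 := s.c_mul_mem ((2 ^ j : ℕ) : s.O) (s.idl_mul_le f p.L h)
    rw [s.c_nat] at h3
    rw [s.c_nat]
    convert h3 using 1
    push_cast
    rw [pow_succ]
    field_simp

theorem g4_gp (hc : s.Cc f c) (n : ℕ) (p : s.Pair) :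
    s.gp (s.md f n) p = eG (s.zl (s.idl f * p.L)) (p.ρ / 2 ^ n) := by
  have h2 : (2 : ℂ) ^ n ≠ 0 := pow_ne_zero _ two_ne_zero
  rw [← eG_sc (s.g4_lat hc p) h2, mul_div_cancel₀ _ h2, ← s.zl_sc, ← g4_md, gp]

theorem g4_npL (p : s.Pair) (β : s.O) : (p * s.np β).L = p.L := by
  rw [mul_L, s.np_L, mul_one]

theorem g4_gp' (hc : s.Cc f c) (n : ℕ) (p : s.Pair) :
    s.gp (s.md f n) (p * s.np c) = eG (s.zl (s.idl f * p.L)) (c * (p.ρ / 2 ^ n)) := by
  rw [s.g4_gp hc, g4_npL, mul_ρ, s.np_ρ, s.c_nat]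
  congr 1
  ring

/-- the constant of the limit formula -/
noncomputable def g4K (f : Ideal s.O) (c n : ℕ) (p : s.Pair) : ℝ :=
  c ^ 2 * s.gp (s.md f n) p - s.gp (s.md f n) (p * s.np c) + Real.log (‖s.thp f c n p‖ ^ 2)

theorem g4K_eq (hc : s.Cc f c) (hn : 1 ≤ n) {p q : s.Pair} (hp : IsUnit (s.cl (s.md f n) p))
    (hq : IsUnit (s.cl (s.md f n) q)) (h : q.L = p.L) : s.g4K f c n q = s.g4K f c n p := by
  obtain ⟨K, hK⟩ := kron (s.g4_lat hc p) hc.spec.1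
  have h1 := hK _ (s.mem_zl.not.2 (s.thp_gen hc hn hp).2)
  have h2 := hK (q.ρ / 2 ^ n) (s.mem_zl.not.2 (h ▸ (s.thp_gen hc hn hq).2))
  unfold g4K thp
  rw [s.g4_gp' hc, s.g4_gp' hc, s.g4_gp hc, s.g4_gp hc, h, h1, h2]

theorem g4_shift {m : Ideal s.O} (hm : m ≠ ⊥) (φ : MulChar (s.Pr m) ℂ) {F : s.Pair → ℂ}
    (hF : s.Inv m F) {q : s.Pair} (hq : IsUnit (s.cl m q)) :
    ∑ᶠ C : (s.Pr m)ˣ, (φ C)⁻¹ * F (s.out C.1 * q) =
      φ (s.cl m q) * ∑ᶠ C : (s.Pr m)ˣ, (φ C)⁻¹ * F (s.out C.1) := by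
  have := s.finite_Pr hm
  have := Fintype.ofFinite (s.Pr m)ˣ
  have hI : s.Inv m fun p => (φ (s.cl m p))⁻¹ * F p := fun x p q h => by
    beta_reduce
    rw [hF x p q h, s.cl_eq.2 ⟨x, h⟩]
  have h0 : φ (s.cl m q) ≠ 0 := (hq.map φ).ne_zero
  have h := s.sum_mul' hI hq
  simp only [map_mul, s.cl_out] at h
  rw [← h, finsum_eq_sum_of_fintype, finsum_eq_sum_of_fintype, Finset.mul_sum]
  refine Finset.sum_congr rfl fun C _ => ?_
  rw [mul_inv, ← mul_assoc, ← mul_assoc, mul_comm (φ (s.cl m q)), mul_assoc (φ C)⁻¹,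
    mul_inv_cancel₀ h0, mul_one]

theorem log_sum (hc : s.Cc f c) (hn : 2 ≤ n) {φ : MulChar (s.Pr (s.md f n)) ℂ}
    (hφ : s.Prim (s.md f n) φ) :
    ∑ᶠ C : (s.Pr (s.md f n))ˣ, (φ C)⁻¹ * (Real.log (‖s.thp f c n (s.out C.1)‖ ^ 2) : ℂ) =
      -(c ^ 2 - φ (s.cl (s.md f n) (s.np c))) *
        ∑ᶠ C : (s.Pr (s.md f n))ˣ, (φ C)⁻¹ * (s.gp (s.md f n) (s.out C.1) : ℂ) := by
  have hn1 : 1 ≤ n := by omega
  have hm : s.md f n ≠ ⊥ := s.md_ne (s.odd_ne hc.1) n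
  have hg := s.gp_inv (s.md f n) hm
  obtain ⟨β, -, hβ, hβ1⟩ := hφ ⊤
    (lt_of_le_of_lt (s.g4_le f hn1 s.g4_two2) s.p2_max.ne_top.lt_top)
  have hK : s.Inv (s.md f n) fun p => (s.g4K f c n p : ℂ) := fun x p q h => by
    unfold g4K
    beta_reduce
    rw [hg x p q h, hg x _ _ (h.mul (s.np c)), s.thp_inv hc n x p q h]
  have h1 := s.g4_shift hm φ hK hβ
  have e1 : ∀ C : (s.Pr (s.md f n))ˣ,
      s.g4K f c n (s.out C.1 * s.np β) = s.g4K f c n (s.out C.1) := fun C =>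
    s.g4K_eq hc hn1 (s.unit_out C) (by rw [map_mul]; exact (s.unit_out C).mul hβ) (s.g4_npL _ β)
  simp only [e1] at h1
  have h2 : ∑ᶠ C : (s.Pr (s.md f n))ˣ, (φ C)⁻¹ * (s.g4K f c n (s.out C.1) : ℂ) = 0 := by
    by_contra h
    exact hβ1 (mul_right_cancel₀ h (by rw [one_mul]; exact h1.symm))
  have hG : s.Inv (s.md f n) fun p => (s.gp (s.md f n) p : ℂ) := fun x p q h => by
    beta_reduce
    rw [hg x p q h]
  have h3 := s.g4_shift hm φ hG (hc.spec.2.2.2.2 n)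
  have := s.finite_Pr hm
  have := Fintype.ofFinite (s.Pr (s.md f n))ˣ
  simp only [finsum_eq_sum_of_fintype] at h2 h3 ⊢
  have h4 : ∑ C : (s.Pr (s.md f n))ˣ, (φ C)⁻¹ * (s.g4K f c n (s.out C.1) : ℂ) =
      c ^ 2 * ∑ C : (s.Pr (s.md f n))ˣ, (φ C)⁻¹ * (s.gp (s.md f n) (s.out C.1) : ℂ) -
      ∑ C : (s.Pr (s.md f n))ˣ, (φ C)⁻¹ * (s.gp (s.md f n) (s.out C.1 * s.np c) : ℂ) +
      ∑ C : (s.Pr (s.md f n))ˣ, (φ C)⁻¹ * (Real.log (‖s.thp f c n (s.out C.1)‖ ^ 2) : ℂ) := by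
    rw [Finset.mul_sum, ← Finset.sum_sub_distrib, ← Finset.sum_add_distrib]
    refine Finset.sum_congr rfl fun C _ => ?_
    unfold g4K
    push_cast
    ring
  linear_combination h2 - h4 + h3

end St

end Pool.Agent.P.MP_20768c_nt.Az.Cu

end

-- part Cu.B4
section

set_option autoImplicit false

open Complex NumberField IsDedekindDomain Filter Topology
open UpperHalfPlane hiding I
open scoped ComplexConjugate Real MatrixGroups

namespace Pool.Agent.P.MP_20768c_nt.Az.Cu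

open Pool.Agent.P.MP_20768c_nt.Az.EQ (Lt pr sp IsLat jL qN)

theorem b4_lt {F Γ : Type} [Field F] [LinearOrderedCommGroupWithZero Γ] (v : Valuation F Γ)
    {x y : F} (hx : v x < 1) (hy : v y ≤ 1) : v (x * y) < 1 := by
  rw [map_mul]
  exact (mul_le_of_le_one_right' hy).trans_lt hx

theorem b4_nat {F Γ : Type} [Field F] [LinearOrderedCommGroupWithZero Γ] (v : Valuation F Γ)
    (n : ℕ) : v n ≤ 1 := by
  induction n with
  | zero => simp
  | succ n ih =>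
    push_cast
    exact v.map_add_le ih v.map_one.le

theorem b4_even {F Γ : Type} [Field F] [LinearOrderedCommGroupWithZero Γ] (v : Valuation F Γ)
    (n : ℕ) {x y : F} (e : y = 2 * n * x) (hx : v x ≤ 1) : v y ≤ v 2 := by
  rw [e, map_mul, map_mul]
  exact (mul_le_of_le_one_right' hx).trans (mul_le_of_le_one_right' (b4_nat v n))

/-- The two differences of the level two parametrisation. -/
theorem b4_step {F Γ : Type} [Field F] [LinearOrderedCommGroupWithZero Γ] (v : Valuation F Γ)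
    (h2 : v 2 < 1) {g h j k j' k' : F} (hg : v g = 1) (hh : v h = 1)
    (e1 : j * g = (g + 16) ^ 3) (e2 : k * h = (h + 16) ^ 3)
    (e3 : j' * g ^ 2 = (g + 256) ^ 3) (e4 : k' * h ^ 2 = (h + 256) ^ 3) :
    v (j - k) ≤ v (j' - k') * max (v 2) (v (j' - k')) := by
  have a1 : (j' - k') * (g * h) ^ 2 =
      (g - h) * ((g * h) ^ 2 - (196608 * (g * h) + 16777216 * (g + h))) := by
    linear_combination h ^ 2 * e3 - g ^ 2 * e4
  have a2 : (j - k) * (g * h) = (g - h) * ((g - h) * (g * h) + (2 * (h * (g * h)) +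
      (48 * (g * h) - 4096))) := by
    linear_combination h * e1 - g * e2
  have gh : v (g * h) = 1 := by rw [map_mul, hg, hh, one_mul]
  have b1 : v (196608 * (g * h) + 16777216 * (g + h)) < v ((g * h) ^ 2) := by
    rw [map_pow, gh, one_pow]
    refine (v.map_add_le (b4_even v 98304 (x := g * h) (by norm_num) gh.le)
      (b4_even v 8388608 (x := g + h) (by norm_num) (v.map_add_le hg.le hh.le))).trans_lt h2
  have b2 : v (j' - k') = v (g - h) := by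
    have := congrArg v a1
    rwa [map_mul v (j' - k'), map_mul v (g - h), v.map_sub_eq_of_lt_left b1, map_pow, gh, one_pow,
      mul_one, mul_one] at this
  have := congrArg v a2
  rw [map_mul v (j - k), gh, mul_one, map_mul v (g - h)] at this
  rw [this, b2]
  refine mul_le_mul' le_rfl (v.map_add_le ?_ (le_max_of_le_left (v.map_add_le ?_ ?_)))
  · rw [map_mul, gh, mul_one]
    exact le_max_right _ _
  · exact b4_even v 1 (x := h * (g * h)) (by norm_num) (by rw [map_mul, gh, hh, one_mul])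
  · exact v.map_sub_le (b4_even v 24 (x := g * h) (by norm_num) gh.le)
      (b4_even v 2048 (x := 1) (by norm_num) v.map_one.le)

theorem b4_hpar {Γ : Type} [LinearOrderedCommGroupWithZero Γ] {v : Valuation ℂ Γ} {L : Lt}
    (h2 : v 2 < 1) (h : IsLat L) {t₁ t₂ U : ℂ} (hR : Rt v L t₁ t₂ U) : v (hpar L t₂) = 1 := by
  obtain ⟨h1, k1, k3, d1, d2, hU, r1, r2⟩ := hR
  obtain ⟨a1, a2, -⟩ := vieta' h h1 k1 k3 d1 d2
  have hB := hB_ne h k1 d2
  have hB' : 12 * wp L t₂ ^ 2 - g2 L ≠ 0 := fun e => hB (by linear_combination e / 4)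
  have e0 : hpar L t₂ * (12 * wp L t₂ ^ 2 - g2 L) = 64 * (g2 L - 3 * wp L t₂ ^ 2) :=
    div_mul_cancel₀ _ hB'
  generalize wp L t₁ = a, wp L t₂ = b, wp L (t₁ + t₂) = c, hpar L t₂ = p at *
  have e1 : p * (4 * (a - b)) * (b - c) = -(4 * (4 * (a - b) + 4 * (b - c)) ^ 2) := by
    have : b = -a - c := by linear_combination a1
    rw [a2, this] at e0
    rw [this]
    linear_combination -e0
  have vU : 0 < v U := (v.pos_iff).2 hU
  have v4 : v 4 < 1 := (b4_even v 2 (x := 1) (by norm_num) v.map_one.le).trans_lt h2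
  have v4' : 0 < v 4 := (v.pos_iff).2 (by norm_num)
  have e2 : v (4 * (b - c)) < v (4 * (a - b)) := by
    rw [r1, map_mul, r2, ← mul_assoc]
    exact mul_lt_of_lt_one_left vU ((mul_le_of_le_one_right' v4.le).trans_lt v4)
  have := congrArg v e1
  rw [v.map_neg, map_mul v (p * _), map_mul v p, map_mul v 4 (_ ^ 2), map_pow,
    v.map_add_eq_of_lt_left e2, r1, r2] at this
  refine mul_right_cancel₀ (mul_pos v4' (pow_pos vU 2)).ne' ?_
  rw [one_mul]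
  exact Eq.trans (by rw [pow_two, mul_assoc, mul_left_comm (v U)]) this

namespace St

variable (s : St) {Γ : Type} [LinearOrderedCommGroupWithZero Γ] (v : Valuation ℂ Γ)
  {L M : s.Sub} {U r z y : ℂ}

theorem b4_mem {x : ℂ} (hx : x ≠ 0) : z ∈ pr x⁻¹ * s.zl L ↔ x * z ∈ L := by
  have := mul_mem_sc (L := s.zl L) (z := x * z) (inv_ne_zero hx)
  rwa [inv_mul_cancel_left₀ hx] at this

theorem b4_le {β : s.O} (h : s.c β ≠ 0) : s.zl L ≤ pr (s.c β)⁻¹ * s.zl L :=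
  fun _ hy => (s.b4_mem h).2 (s.c_mul_mem β hy)

theorem E1_mul (hL : IsUnit L) (hG : Good v (s.zl L) U r) (β : s.O) (hz : E1 v (s.zl L) U r z) :
    E1 v (s.zl L) U r (s.c β * z) := by
  by_cases h : s.c β = 0
  · rw [h, zero_mul]
    exact Or.inl (zero_mem _)
  have h0 := inv_ne_zero h
  have := iso_E1 (s.isLat_zl hL) ((s.isLat_zl hL).pr_mul h0) (s.b4_le h) hG (good_sc h0 hG) hz
  rw [← E1_sc h0, inv_mul_cancel_left₀ h]
  exact this

theorem b4_prod (hL : IsUnit L) (hG : Good v (s.zl L) U r) {β : s.O} (h : s.c β ≠ 0) :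
    ∃ R, Reps (s.zl L) (pr (s.c β)⁻¹ * s.zl L) R ∧
      v (s.c β) ^ 2 * ∏ t ∈ R.erase 0, max 1 (v (xm (s.zl L) U r t)) = 1 := by
  have h0 := inv_ne_zero h
  have l1 := s.isLat_zl hL
  obtain ⟨R, hR⟩ := exists_reps l1 (l1.pr_mul h0) (s.b4_le h)
  have := iso_val l1 (l1.pr_mul h0) hR hG (good_sc h0 hG)
  rw [inv_pow, div_inv_eq_mul, map_mul, map_pow, mul_assoc] at this
  exact ⟨R, hR, mul_left_cancel₀ ((v.ne_zero_iff).2 hG.1) (this.trans (mul_one _).symm)⟩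

theorem E1_kill (hL : IsUnit L) (hG : Good v (s.zl L) U r) {β : s.O} (hβ : v (s.c β) = 1)
    (hz : E1 v (s.zl L) U r z) (h : s.c β * z ∈ L) : z ∈ L := by
  have h0 : s.c β ≠ 0 := fun e => by simp [e] at hβ
  obtain ⟨R, hR, e⟩ := s.b4_prod v hL hG h0
  rw [hβ, one_pow, one_mul] at e
  obtain ⟨t, ⟨ht, ht'⟩, -⟩ := hR.2.2.2 z ((s.b4_mem h0).2 h)
  by_cases t0 : t = 0
  · rwa [t0, sub_zero] at ht'
  rcases (E1_congr (s.isLat_zl hL) ht').1 hz with h1 | h1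
  · exact (t0 (hR.sub_mem ht hR.2.1 (by rwa [sub_zero]))).elim
  · have := Finset.single_le_prod' (f := fun t => max 1 (v (xm (s.zl L) U r t)))
      (s := R.erase 0) (fun _ _ => le_max_left _ _) (Finset.mem_erase.2 ⟨t0, ht⟩)
    rw [e] at this
    exact absurd (h1.trans_le ((le_max_right _ _).trans this)) (lt_irrefl _)

theorem b4_down (hL : IsUnit L) (hG : Good v (s.zl L) U r) {q : Ideal s.O} (h0 : q ≠ ⊥) (j : ℕ) :
    ∀ t : ℂ, (∀ β ∈ q ^ j, s.c β * t ∈ L) → t ∉ L → E1 v (s.zl L) U r t →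
      ∃ t₀, t₀ ∈ L * s.inv q ∧ t₀ ∉ L ∧ E1 v (s.zl L) U r t₀ := by
  induction j with
  | zero =>
    intro t h1 h2 _
    have := h1 1 (by simp)
    rw [s.c_one, one_mul] at this
    exact (h2 this).elim
  | succ j ih =>
    intro t h1 h2 h3
    by_cases h : ∀ β ∈ q, s.c β * t ∈ L
    · exact ⟨t, (s.mem_mul_inv h0).2 h, h2, h3⟩
    push Not at h
    obtain ⟨γ, hγ, h⟩ := h
    refine ih _ (fun β hβ => ?_) h (s.E1_mul v hL hG γ h3)
    rw [← mul_assoc, ← s.c_mul]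
    exact h1 _ (pow_succ q j ▸ Ideal.mul_mem_mul hβ hγ)

theorem E1_prime (hL : IsUnit L) (hG : Good v (s.zl L) U r) {q : Ideal s.O} (hq : q.IsPrime)
    (h0 : q ≠ ⊥) (hv : ∀ x ∈ q, v (s.c x) < 1) (hz : z ∈ L * s.inv q) : E1 v (s.zl L) U r z := by
  obtain ⟨n, hn, hp⟩ := s.exists_pow
  obtain ⟨x, hx, e⟩ := hp _ (s.isUnit_idl h0)
  rw [← s.idl_pow] at e
  obtain ⟨α, hα, rfl⟩ := s.mem_idl.1 (e ▸ s.mem_sc x : x ∈ s.idl (q ^ n))
  obtain ⟨R, hR, e'⟩ := s.b4_prod v hL hG hx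
  have h1 : v (s.c α) < 1 := hv α (Ideal.pow_le_self hn.ne' hα)
  obtain ⟨t, ht, h2⟩ : ∃ t ∈ R.erase 0, 1 < v (xm (s.zl L) U r t) := by
    by_contra h
    push Not at h
    rw [Finset.prod_eq_one fun t ht => max_eq_left (h t ht), mul_one] at e'
    exact absurd e' (pow_lt_one₀ zero_le h1 two_ne_zero).ne
  obtain ⟨t0, ht⟩ := Finset.mem_erase.1 ht
  obtain ⟨t₀, a1, a2, a3⟩ := s.b4_down v hL hG h0 n t (fun β hβ => by
      obtain ⟨γ, hγ⟩ := Submodule.mem_span_singleton.1 (e ▸ s.c_mem_idl.2 hβ : s.c β ∈ s.sc _)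
      rw [← hγ, s.smul_eq, mul_assoc]
      exact s.c_mul_mem γ ((s.b4_mem hx).1 (hR.2.2.1 t ht)))
    (fun h => t0 (hR.sub_mem ht hR.2.1 (by rwa [sub_zero]))) (Or.inr h2)
  obtain ⟨β, hβ⟩ := s.cyc_sub hL (hq.isMaximal h0) h0 a1 a2 hz
  exact (E1_congr (s.isLat_zl hL) hβ).2 (s.E1_mul v hL hG β a3)

theorem not_E1 (hL : IsUnit L) (hG : Good v (s.zl L) U r) (hy : s.Gen2 L y) :
    ¬ E1 v (s.zl L) U r y := by
  intro h
  obtain ⟨h1, h2, h3⟩ := hy
  obtain ⟨m, hm⟩ := s.m_even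
  have e1 : s.c (1 - s.w) = 1 - s.c s.w := by rw [s.c_sub, s.c_one]
  have e2 : s.c s.w * ((1 - s.c s.w) * y) = s.c m * (2 * y) := by
    have := s.cw_sq
    rw [hm] at this
    push_cast at this
    rw [s.c_nat]
    linear_combination -y * this
  have e3 : s.c s.w * ((1 - s.c s.w) * y) ∈ L := e2 ▸ s.c_mul_mem _ h1
  rcases (s.v_c v s.w).eq_or_lt with hw | hw
  · exact h3 (s.E1_kill v hL hG hw (e1 ▸ s.E1_mul v hL hG (1 - s.w) h) e3)
  · refine h2 (s.E1_kill v hL hG (β := 1 - s.w) ?_ (s.E1_mul v hL hG s.w h) ?_)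
    · rw [e1]
      exact v.map_one_sub_of_lt hw
    · rwa [e1, mul_left_comm]

theorem rt_can (hL : IsUnit L) {t₁ t₂ : ℂ} (h1 : t₁ ∈ L * s.inv s.p1) (k1 : t₁ ∉ L)
    (h2 : t₂ ∈ L * s.inv s.p2) (k2 : t₂ ∉ L) : Rt s.v (s.zl L) t₁ t₂ (UU (s.zl L)) := by
  have hG := s.good_two s.v s.v_two hL
  have e1 : s.c (1 - s.w) = 1 - s.c s.w := by rw [s.c_sub, s.c_one]
  refine (roots_val s.v_two (s.isLat_zl hL) (s.j_unit s.v s.v_two hL).1 k1 (s.mem_inv_p1.1 h1).1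
    (s.mem_inv_p2.1 h2).1 (fun h => k2 ?_) (s.not_E1 s.v hL hG (s.gen2_add h1 k1 h2 k2))).1
  exact s.E1_kill s.v hL hG (β := 1 - s.w) (e1 ▸ s.v_wb) h (e1 ▸ (s.mem_inv_p2.1 h2).2)

theorem b4_par (hL : IsUnit L) : ∃ g : ℂ, s.v g = 1 ∧ jL (s.zl L) * g = (g + 16) ^ 3 ∧
    jL (s.zl (L * s.inv s.p2)) * g ^ 2 = (g + 256) ^ 3 := by
  obtain ⟨t₁, h1, k1⟩ := s.exists_two hL (Or.inl rfl)
  obtain ⟨t₂, h2, k2⟩ := s.exists_two hL (Or.inr rfl)
  have l1 := s.isLat_zl hL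
  exact ⟨_, b4_hpar s.v_two l1 (s.rt_can hL h1 k1 h2 k2), h_one l1 k2 (s.mem_inv_p2.1 h2).1,
    h_two l1 (s.two_of_mem hL (Or.inr rfl) h2 k2)⟩

theorem b4_sep (hL : IsUnit L) (hM : IsUnit M) : s.v (jL (s.zl L) - jL (s.zl M)) ≤
    s.v (jL (s.zl (L * s.inv s.p2)) - jL (s.zl (M * s.inv s.p2))) *
      max (s.v 2) (s.v (jL (s.zl (L * s.inv s.p2)) - jL (s.zl (M * s.inv s.p2)))) := by
  obtain ⟨g, a1, a2, a3⟩ := s.b4_par hL
  obtain ⟨h, b1, b2, b3⟩ := s.b4_par hM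
  exact b4_step s.v s.v_two a1 b1 a2 b2 a3 b3

theorem b4_iter {D : NNReal} (hD : D < 1) (j : ℕ) : ∀ {L M : s.Sub}, IsUnit L → IsUnit M →
    s.v (jL (s.zl (L * s.inv s.p2 ^ j)) - jL (s.zl (M * s.inv s.p2 ^ j))) ≤ D →
      s.v (jL (s.zl L) - jL (s.zl M)) ≤ D := by
  induction j with
  | zero =>
    intro L M _ _ h
    rwa [pow_zero, mul_one, mul_one] at h
  | succ j ih =>
    intro L M hL hM h
    have u := s.isUnit_inv s.p2_ne
    rw [pow_succ', ← mul_assoc, ← mul_assoc] at h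
    have := ih (hL.mul u) (hM.mul u) h
    exact (s.b4_sep hL hM).trans ((mul_le_of_le_one_right'
      (max_le s.v_two.le (this.trans hD.le))).trans this)

theorem j_sep (hL : IsUnit L) (hM : IsUnit M) (h : s.v (jL (s.zl L) - jL (s.zl M)) < 1) :
    jL (s.zl L) = jL (s.zl M) := by
  obtain ⟨n, hn, hp⟩ := s.exists_pow
  have u := s.isUnit_inv s.p2_ne
  obtain ⟨x, hx, e⟩ := hp _ u
  obtain ⟨j, rfl⟩ : ∃ j, n = j + 1 := ⟨n - 1, by omega⟩
  have e1 : ∀ L : s.Sub, IsUnit L →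
      jL (s.zl (L * s.inv s.p2 * s.inv s.p2 ^ j)) = jL (s.zl L) := fun L hL => by
    rw [mul_assoc, ← pow_succ', e, mul_comm, s.zl_sc, Pool.Agent.P.MP_20768c_nt.Az.EQ.jL_pr_mul (s.isLat_zl hL) hx]
  have h1 := s.b4_iter h j (hL.mul u) (hM.mul u) (by rw [e1 L hL, e1 M hM])
  have h2 := (s.b4_sep hL hM).trans (mul_le_mul' h1 (max_le_max le_rfl h1))
  by_contra h3
  have h4 : 0 < s.v (jL (s.zl L) - jL (s.zl M)) := (s.v.pos_iff).2 (sub_ne_zero.2 h3)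
  exact absurd (h2.trans_lt (mul_lt_of_lt_one_right h4 (max_lt s.v_two h))) (lt_irrefl _)

end St

end Pool.Agent.P.MP_20768c_nt.Az.Cu

end

-- part Cu.D1_p
section

set_option autoImplicit false

open Complex NumberField IsDedekindDomain Filter Topology
open UpperHalfPlane hiding I
open scoped ComplexConjugate Real MatrixGroups

namespace Pool.Agent.P.MP_20768c_nt.Az.Cu

open Pool.Agent.P.MP_20768c_nt.Az.EQ (Lt pr sp IsLat jL qN)

theorem d1p_mem {L L' : Lt} {R : Finset ℂ} (hR : Reps L L' R) {t : ℂ} (ht : t ∈ R.erase 0) :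
    t ∈ L' ∧ t ∉ L := by
  obtain ⟨h0, h1⟩ := Finset.mem_erase.1 ht
  exact ⟨hR.2.2.1 t h1, fun h => h0 (hR.sub_mem h1 hR.2.1 (by rwa [sub_zero]))⟩

theorem d1p_rep {L L' : Lt} {R : Finset ℂ} (hR : Reps L L' R) {t : ℂ} (ht : t ∈ L')
    (h0 : t ∉ L) : ∃ r ∈ R.erase 0, t - r ∈ L := by
  obtain ⟨r, ⟨h1, h2⟩, -⟩ := hR.2.2.2 t ht
  refine ⟨r, Finset.mem_erase.2 ⟨?_, h1⟩, h2⟩
  rintro rfl
  exact h0 (by rwa [sub_zero] at h2)

open Classical in
theorem d1p_card {L L' : Lt} {R : Finset ℂ} (h : IsLat L) (hR : Reps L L' R) (a : ℂ → ℂ)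
    (ha : ∀ t u, t ∉ L → u ∉ L → (a t = a u ↔ wp L t = wp L u)) {t : ℂ} (ht : t ∈ R.erase 0) :
    ((R.erase 0).filter fun u => a u = a t).card = if 2 * t ∈ L then 1 else 2 := by
  obtain ⟨h1, h2⟩ := d1p_mem hR ht
  obtain ⟨r, hr, h3⟩ := d1p_rep hR (neg_mem h1) (fun h' => h2 (neg_mem_iff.1 h'))
  have e : ((R.erase 0).filter fun u => a u = a t) = {t, r} := by
    ext u
    rw [Finset.mem_filter, Finset.mem_insert, Finset.mem_singleton]
    constructor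
    · rintro ⟨hu, e⟩
      have h4 := (d1p_mem hR hu).2
      refine (wp_inj h h4 h2 ((ha u t h4 h2).1 e)).imp
        (hR.sub_mem (Finset.mem_of_mem_erase hu) (Finset.mem_of_mem_erase ht)) fun h5 =>
        hR.sub_mem (Finset.mem_of_mem_erase hu) (Finset.mem_of_mem_erase hr) ?_
      rw [show u - r = u + t + (-t - r) by ring]
      exact add_mem h5 h3
    · rintro (rfl | rfl)
      · exact ⟨ht, rfl⟩
      · exact ⟨hr, (ha u t (d1p_mem hR hr).2 h2).2 ((wp_congr h h3).symm.trans (wp_neg h t))⟩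
  rw [e]
  split_ifs with h4
  · have : t = r := hR.sub_mem (Finset.mem_of_mem_erase ht) (Finset.mem_of_mem_erase hr) (by
      rw [show t - r = 2 * t + (-t - r) by ring]
      exact add_mem h4 h3)
    rw [← this, Finset.pair_eq_singleton, Finset.card_singleton]
  · refine Finset.card_pair ?_
    rintro rfl
    exact h4 (by
      rw [show 2 * t = -(-t - t) by ring]
      exact neg_mem h3)

theorem fib_sum {L L' M M' : Lt} {R R' : Finset ℂ} (h : IsLat L) (hM : IsLat M)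
    (hR : Reps L L' R) (hR' : Reps M M' R') (a b : ℂ → ℂ)
    (ha : ∀ t u, t ∉ L → u ∉ L → (a t = a u ↔ wp L t = wp L u))
    (hb : ∀ t u, t ∉ M → u ∉ M → (b t = b u ↔ wp M t = wp M u))
    (h1 : ∀ t ∈ L', t ∉ L → ∃ u ∈ M', u ∉ M ∧ b u = a t)
    (h2 : ∀ u ∈ M', u ∉ M → ∃ t ∈ L', t ∉ L ∧ b u = a t)
    (h3 : ∀ t u, t ∉ L → u ∉ M → b u = a t → (2 * t ∈ L ↔ 2 * u ∈ M)) (φ : ℂ → ℂ) :
    ∑ t ∈ R.erase 0, φ (a t) = ∑ u ∈ R'.erase 0, φ (b u) := by
  classical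
  have k1 : ∀ t ∈ R.erase 0, ∃ u ∈ R'.erase 0, b u = a t := by
    intro t ht
    obtain ⟨u, u1, u2, e⟩ := h1 t (d1p_mem hR ht).1 (d1p_mem hR ht).2
    obtain ⟨r, hr, h4⟩ := d1p_rep hR' u1 u2
    exact ⟨r, hr, ((hb u r u2 (d1p_mem hR' hr).2).2 (wp_congr hM h4)).symm.trans e⟩
  have k2 : ∀ u ∈ R'.erase 0, ∃ t ∈ R.erase 0, a t = b u := by
    intro u hu
    obtain ⟨t, t1, t2, e⟩ := h2 u (d1p_mem hR' hu).1 (d1p_mem hR' hu).2
    obtain ⟨r, hr, h4⟩ := d1p_rep hR t1 t2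
    exact ⟨r, hr, ((ha t r t2 (d1p_mem hR hr).2).2 (wp_congr h h4)).symm.trans e.symm⟩
  have e : (R.erase 0).image a = (R'.erase 0).image b := by
    ext x
    simp only [Finset.mem_image]
    constructor
    · rintro ⟨t, ht, rfl⟩
      exact k1 t ht
    · rintro ⟨u, hu, rfl⟩
      exact k2 u hu
  rw [Finset.sum_comp φ a, Finset.sum_comp φ b, ← e]
  refine Finset.sum_congr rfl fun x hx => ?_
  obtain ⟨t, ht, rfl⟩ := Finset.mem_image.1 hx
  obtain ⟨u, hu, e'⟩ := k1 t ht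
  have c1 := d1p_card h hR a ha ht
  have c2 := d1p_card hM hR' b hb hu
  rw [e'] at c2
  rw [h3 t u (d1p_mem hR ht).2 (d1p_mem hR' hu).2 e'] at c1
  exact congrArg (· • φ (a t)) (c1.trans c2.symm)

namespace St

variable (s : St) {L : s.Sub} {m : ℕ}

theorem j_eq {M : s.Sub} (hL : IsUnit L) (hM : IsUnit M) :
    jL (s.zl L) = jL (s.zl M) ↔ ∃ x : ℂ, x ≠ 0 ∧ M = s.sc x * L := by
  constructor
  · intro e
    obtain ⟨x, hx, h⟩ := Pool.Agent.P.MP_20768c_nt.Az.EQ.jL_inj (s.isLat_zl hL) (s.isLat_zl hM) e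
    rw [← s.zl_sc] at h
    exact ⟨x, hx, le_antisymm (s.zl_le.1 h.le) (s.zl_le.1 h.ge)⟩
  · rintro ⟨x, hx, rfl⟩
    rw [s.zl_sc, Pool.Agent.P.MP_20768c_nt.Az.EQ.jL_pr_mul (s.isLat_zl hL) hx]

theorem XX_inj (hL : IsUnit L) {z w : ℂ} (hz : z ∉ L) (hw : w ∉ L)
    (h : XX (s.zl L) z = XX (s.zl L) w) : z - w ∈ L ∨ z + w ∈ L :=
  (wp_inj (s.isLat_zl hL) (mt s.mem_zl.1 hz) (mt s.mem_zl.1 hw)
    ((div_left_inj' (s.UU_ne hL)).1 h)).imp s.mem_zl.1 s.mem_zl.1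

theorem CM_finite (hm : 0 < m) : (s.CM m).Finite := by
  obtain ⟨T, hT, hT'⟩ := s.exists_fin
  have hm0 : (m : ℂ) ≠ 0 := Nat.cast_ne_zero.2 hm.ne'
  have key : ∀ (Λ : Lt) (z : ℂ), m * z ∈ Λ → z ∈ pr (m : ℂ)⁻¹ * Λ := fun Λ z hz => by
    have := (mul_mem_sc (L := Λ) (inv_ne_zero hm0)).2 hz
    rwa [inv_mul_cancel_left₀ hm0] at this
  have hR : ∀ M : s.Sub, ∃ R : Finset ℂ, IsUnit M → Reps (s.zl M) (pr (m : ℂ)⁻¹ * s.zl M) R := by
    intro M
    by_cases hM : IsUnit M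
    · obtain ⟨R, hR⟩ := exists_reps (s.isLat_zl hM) ((s.isLat_zl hM).pr_mul (inv_ne_zero hm0))
        fun z hz => key _ z (by rw [← nsmul_eq_mul]; exact nsmul_mem hz m)
      exact ⟨R, fun _ => hR⟩
    · exact ⟨∅, fun h => absurd h hM⟩
  choose R hR using hR
  have h1 : {x : ℂ | x ^ m = 1}.Finite :=
    (Polynomial.nthRoots m (1 : ℂ)).toFinset.finite_toSet.subset fun x hx =>
      Multiset.mem_toFinset.2 ((Polynomial.mem_nthRoots hm).2 hx)
  refine (h1.union (T.finite_toSet.biUnion fun M _ =>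
    ((R M).finite_toSet.image (XX (s.zl M))).insert (jL (s.zl M)))).subset ?_
  rintro x (hx | ⟨L, hL, hx⟩)
  · exact Or.inl hx
  obtain ⟨M, hM, y, hy, rfl⟩ := hT' L hL
  have hl := s.isLat_zl (hT M hM)
  refine Or.inr (Set.mem_biUnion hM ?_)
  rcases hx with rfl | ⟨z, h2, -, rfl⟩
  · exact Or.inl (by rw [s.zl_sc, Pool.Agent.P.MP_20768c_nt.Az.EQ.jL_pr_mul hl hy])
  · obtain ⟨z, rfl⟩ : ∃ z', z = y * z' := ⟨y⁻¹ * z, (mul_inv_cancel_left₀ hy z).symm⟩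
    rw [mul_left_comm, s.mul_mem_sc' hy] at h2
    obtain ⟨r, ⟨h3, h4⟩, -⟩ := (hR M (hT M hM)).2.2.2 z (key _ z (s.mem_zl.2 h2))
    refine Or.inr ⟨r, h3, ?_⟩
    rw [s.zl_sc, XX_sc _ hy, XX, XX, wp_congr hl h4]

end St

end Pool.Agent.P.MP_20768c_nt.Az.Cu

end

-- part Cu.D1
section

set_option autoImplicit false

open Complex NumberField IsDedekindDomain Filter Topology
open UpperHalfPlane hiding I
open scoped ComplexConjugate Real MatrixGroups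

namespace Pool.Agent.P.MP_20768c_nt.Az.Cu

open Pool.Agent.P.MP_20768c_nt.Az.EQ (Lt pr sp IsLat jL qN)

theorem d1_UU {L : Lt} (h2 : g2 L ≠ 0) (h3 : g3 L ≠ 0) : UU L ≠ 0 :=
  div_ne_zero (mul_ne_zero (by norm_num) h3) h2

theorem d1_ne {L M : Lt} (h : IsLat L) (hM : IsLat M) (h2 : g2 L ≠ 0) (h3 : g3 L ≠ 0)
    (σ : ℂ →+* ℂ) (e : σ (jL L) = jL M) : g2 M ≠ 0 ∧ g3 M ≠ 0 := by
  obtain ⟨a, b⟩ := (g23_iff h).1 ⟨h2, h3⟩
  refine (g23_iff hM).2 ⟨?_, ?_⟩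
  · rw [← e]
    exact (map_ne_zero σ).2 a
  · have : jL M - 1728 = σ (jL L - 1728) := by rw [map_sub, e, map_ofNat]
    rw [this]
    exact (map_ne_zero σ).2 b

theorem d1_g {L M : Lt} (h : IsLat L) (hM : IsLat M) (h2 : g2 L ≠ 0) (h3 : g3 L ≠ 0)
    (σ : ℂ →+* ℂ) (e : σ (jL L) = jL M) :
    g2 M / UU M ^ 2 = σ (g2 L / UU L ^ 2) ∧ g3 M / UU M ^ 3 = σ (g3 L / UU L ^ 3) := by
  obtain ⟨k2, k3⟩ := d1_ne h hM h2 h3 σ e
  rw [g2_UU h h2 h3, g2_UU hM k2 k3, g3_UU h h2 h3, g3_UU hM k2 k3]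
  simp only [map_neg, map_div₀, map_mul, map_sub, map_ofNat, e, and_self]

theorem d1_mk {L : Lt} {z : ℂ} :
    (QuotientAddGroup.mk z : ℂ ⧸ L.toAddSubgroup) = 0 ↔ z ∈ L :=
  QuotientAddGroup.eq_zero_iff z

theorem d1_tr {L M : Lt} (h : IsLat L) (hM : IsLat M) (h2 : g2 L ≠ 0) (h3 : g3 L ≠ 0)
    (σ : ℂ →+* ℂ) (e : σ (jL L) = jL M) :
    (∀ z u, z ∉ L → u ∉ M → XX M u = σ (XX L z) → ∀ n : ℕ, ((n : ℂ) * z ∈ L ↔ (n : ℂ) * u ∈ M)) ∧
    ∀ z u z' u', z ∉ L → u ∉ M → z' ∉ L → u' ∉ M → XX M u = σ (XX L z) →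
      XX M u' = σ (XX L z') → u + u' ∉ M →
      ∃ T, (T = z + z' ∨ T = z - z') ∧ T ∉ L ∧ XX M (u + u') = σ (XX L T) := by
  obtain ⟨k2, k3⟩ := d1_ne h hM h2 h3 σ e
  obtain ⟨e2, e3⟩ := d1_g h hM h2 h3 σ e
  obtain ⟨X, x0, x2, x4, x6, x8, -⟩ := exists_xg h (d1_UU h2 h3) 0
  obtain ⟨Y, y0, y2, y4, y6, y8, -⟩ := exists_xg hM (d1_UU k2 k3) 0
  have x1 : ∀ z : ℂ, X.x (QuotientAddGroup.mk z) = XX L z := fun z => by
    rw [x0, xm, add_zero, XX]
  have y1 : ∀ z : ℂ, Y.x (QuotientAddGroup.mk z) = XX M z := fun z => by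
    rw [y0, xm, add_zero, XX]
  have b2 : mb2 0 = σ (mb2 0) := by simp [mb2]
  have b4 : mb4 M (UU M) 0 = σ (mb4 L (UU L) 0) := by
    rw [mb4, mb4, e2]
    simp only [map_sub, map_mul, map_pow, map_zero, map_ofNat, map_div₀]
  have b6 : mb6 M (UU M) 0 = σ (mb6 L (UU L) 0) := by
    rw [mb6, mb6, e2, e3]
    simp only [map_sub, map_add, map_neg, map_mul, map_pow, map_zero, map_ofNat]
  have b8 : mb8 M (UU M) 0 = σ (mb8 L (UU L) 0) := by
    rw [mb8, mb8, map_div₀, map_sub, map_mul, map_pow, ← b2, ← b4, ← b6, map_ofNat]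
  have c2 : Y.b2 = σ X.b2 := by rw [y2, x2]; exact b2
  have c4 : Y.b4 = σ X.b4 := by rw [y4, x4]; exact b4
  have c6 : Y.b6 = σ X.b6 := by rw [y6, x6]; exact b6
  have c8 : Y.b8 = σ X.b8 := by rw [y8, x8]; exact b8
  refine ⟨fun z u hz hu hx n => ?_, fun z u z' u' hz hu hz' hu' hx hx' hne => ?_⟩
  · have := (X.transport Y σ c2 c4 c6 c8 (P := QuotientAddGroup.mk z) (Q := QuotientAddGroup.mk u)
      (mt d1_mk.1 hz) (mt d1_mk.1 hu) (by rw [x1, y1, hx]) n).1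
    rwa [← QuotientAddGroup.mk_nsmul, ← QuotientAddGroup.mk_nsmul, d1_mk, d1_mk, nsmul_eq_mul,
      nsmul_eq_mul] at this
  · obtain ⟨T, hT, T0, hx⟩ := X.transport_add Y σ c2 c4 c6 c8 (P := QuotientAddGroup.mk z)
      (Q := QuotientAddGroup.mk u) (P' := QuotientAddGroup.mk z') (Q' := QuotientAddGroup.mk u')
      (mt d1_mk.1 hz) (mt d1_mk.1 hu) (mt d1_mk.1 hz') (mt d1_mk.1 hu') (by rw [x1, y1, hx])
      (by rw [x1, y1, hx']) (by rw [← QuotientAddGroup.mk_add]; exact mt d1_mk.1 hne)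
    rw [← QuotientAddGroup.mk_add, y1] at hx
    rcases hT with rfl | rfl
    · rw [← QuotientAddGroup.mk_add] at T0 hx
      exact ⟨z + z', Or.inl rfl, mt d1_mk.2 T0, by rw [hx, x1]⟩
    · rw [← QuotientAddGroup.mk_sub] at T0 hx
      exact ⟨z - z', Or.inr rfl, mt d1_mk.2 T0, by rw [hx, x1]⟩

theorem d1_surj {M : Lt} (hM : IsLat M) (k : UU M ≠ 0) (x : ℂ) : ∃ u, u ∉ M ∧ XX M u = x := by
  obtain ⟨u, hu, e⟩ := wp_surj hM (x * UU M)
  exact ⟨u, hu, by rw [XX, e, mul_div_cancel_right₀ _ k]⟩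

theorem d1_isog {L L' M : Lt} (h : IsLat L) (h' : IsLat L') (hle : L ≤ L') (hM : IsLat M)
    (h2 : g2 L ≠ 0) (h3 : g3 L ≠ 0) (σ : ℂ →+* ℂ) (e : σ (jL L) = jL M) :
    ∃ M' : Lt, IsLat M' ∧ M ≤ M' ∧ g2 M' / UU M ^ 2 = σ (g2 L' / UU L ^ 2) ∧
      g3 M' / UU M ^ 3 = σ (g3 L' / UU L ^ 3) := by
  obtain ⟨k2, k3⟩ := d1_ne h hM h2 h3 σ e
  obtain ⟨e2, e3⟩ := d1_g h hM h2 h3 σ e
  obtain ⟨t1, t2⟩ := d1_tr h hM h2 h3 σ e
  have hU := d1_UU h2 h3
  have kU := d1_UU k2 k3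
  obtain ⟨R, hR⟩ := exists_reps h h' hle
  have xneg : ∀ u, XX M (-u) = XX M u := fun u => by rw [XX, XX, wp_neg hM]
  have xadd : ∀ u l, l ∈ M → XX M (u + l) = XX M u := fun u l hl => by
    rw [XX, XX, wp_add hM u hl]
  let A : AddSubgroup ℂ :=
    { carrier := {u | u ∈ M ∨ ∃ t ∈ L', t ∉ L ∧ XX M u = σ (XX L t)}
      zero_mem' := Or.inl M.zero_mem
      neg_mem' := fun {u} hu => hu.imp M.neg_mem fun ⟨t, a, b, c⟩ => ⟨t, a, b, by rw [xneg, c]⟩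
      add_mem' := fun {u u'} hu hu' => by
        by_cases hne : u + u' ∈ M
        · exact Or.inl hne
        by_cases m1 : u ∈ M
        · obtain ⟨t, a, b, c⟩ := hu'.resolve_left fun m => hne (M.add_mem m1 m)
          exact Or.inr ⟨t, a, b, by rw [add_comm, xadd _ _ m1, c]⟩
        by_cases m2 : u' ∈ M
        · obtain ⟨t, a, b, c⟩ := hu.resolve_left m1
          exact Or.inr ⟨t, a, b, by rw [xadd _ _ m2, c]⟩
        obtain ⟨t, a, b, c⟩ := hu.resolve_left m1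
        obtain ⟨t', a', b', c'⟩ := hu'.resolve_left m2
        obtain ⟨T, hT, T0, hx⟩ := t2 t u t' u' b m1 b' m2 c c' hne
        refine Or.inr ⟨T, ?_, T0, hx⟩
        rcases hT with rfl | rfl
        · exact L'.add_mem a a'
        · exact L'.sub_mem a a' }
  have mem : ∀ u, u ∈ A.toIntSubmodule ↔ u ∈ M ∨ ∃ t ∈ L', t ∉ L ∧ XX M u = σ (XX L t) :=
    fun u => Iff.rfl
  have le : M ≤ A.toIntSubmodule := fun u hu => (mem u).2 (Or.inl hu)
  have hM' : IsLat A.toIntSubmodule := by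
    refine isLat_of_le hM le (Finset.card_pos.2 ⟨0, hR.2.1⟩) fun u hu => ?_
    by_cases m1 : u ∈ M
    · rw [← nsmul_eq_mul]
      exact M.toAddSubgroup.nsmul_mem m1 _
    · obtain ⟨t, a, b, c⟩ := ((mem u).1 hu).resolve_left m1
      exact (t1 t u b m1 c _).1 (hR.card_mul a)
  obtain ⟨R', hR'⟩ := exists_reps hM hM' le
  have key := fib_sum h hM hR hR' (fun t => σ (XX L t)) (XX M)
    (fun t u _ _ => by rw [σ.injective.eq_iff, XX, XX, div_left_inj' hU])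
    (fun t u _ _ => by rw [XX, XX, div_left_inj' kU])
    (fun t a b => by
      obtain ⟨u, hu, c⟩ := d1_surj hM kU (σ (XX L t))
      exact ⟨u, (mem u).2 (Or.inr ⟨t, a, b, c⟩), hu, c⟩)
    (fun u a b => ((mem u).1 a).resolve_left b)
    (fun t u a b c => by simpa only [Nat.cast_ofNat] using t1 t u a b c 2)
  refine ⟨_, hM', le, ?_, ?_⟩
  · rw [velu_g2 hM hM' hR', velu_g2 h h' hR, add_div, add_div, Finset.sum_div, Finset.sum_div,
      map_add, map_sum, ← e2]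
    refine congrArg _ ?_
    refine (Finset.sum_congr rfl fun u _ => ?_).trans
      ((key fun x => 60 * x ^ 2 - 5 * (g2 M / UU M ^ 2)).symm.trans
        (Finset.sum_congr rfl fun t _ => ?_))
    · rw [XX]
      ring
    · have : (60 * wp L t ^ 2 - 5 * g2 L) / UU L ^ 2 = 60 * XX L t ^ 2 - 5 * (g2 L / UU L ^ 2) := by
        rw [XX]
        ring
      rw [this, e2]
      simp only [map_sub, map_mul, map_pow, map_ofNat]
  · rw [velu_g3 hM hM' hR', velu_g3 h h' hR, add_div, add_div, Finset.sum_div, Finset.sum_div,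
      map_add, map_sum, ← e3]
    refine congrArg _ ?_
    refine (Finset.sum_congr rfl fun u _ => ?_).trans
      ((key fun x => 140 * x ^ 3 - 21 * (g2 M / UU M ^ 2) * x - 14 * (g3 M / UU M ^ 3)).symm.trans
        (Finset.sum_congr rfl fun t _ => ?_))
    · rw [XX]
      ring
    · have : (140 * wp L t ^ 3 - 21 * g2 L * wp L t - 14 * g3 L) / UU L ^ 3 =
          140 * XX L t ^ 3 - 21 * (g2 L / UU L ^ 2) * XX L t - 14 * (g3 L / UU L ^ 3) := by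
        rw [XX]
        ring
      rw [this, e2, e3]
      simp only [map_sub, map_mul, map_pow, map_ofNat]

theorem d1_end {L M : Lt} (h : IsLat L) (hM : IsLat M) (h2 : g2 L ≠ 0) (h3 : g3 L ≠ 0)
    (σ : ℂ →+* ℂ) (e : σ (jL L) = jL M) {w : ℂ} (w0 : w ≠ 0) (hw : σ w = w)
    (hL : ∀ z ∈ L, w * z ∈ L) : ∀ z ∈ M, w * z ∈ M := by
  obtain ⟨k2, k3⟩ := d1_ne h hM h2 h3 σ e
  obtain ⟨e2, e3⟩ := d1_g h hM h2 h3 σ e
  have w1 := inv_ne_zero w0
  have kU := d1_UU k2 k3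
  obtain ⟨M', hM', le, a2, a3⟩ := d1_isog h (h.pr_mul w1)
    (fun z hz => Pool.Agent.P.MP_20768c_nt.Az.EQ.mem_pr_mul.2 ⟨w * z, hL z hz, inv_mul_cancel_left₀ w0 z⟩)
    hM h2 h3 σ e
  rw [g2_sc L w1, div_right_comm, map_div₀, ← e2, map_pow, map_inv₀, hw, div_right_comm,
    div_left_inj' (pow_ne_zero _ kU), ← g2_sc M w1] at a2
  rw [g3_sc L w1, div_right_comm, map_div₀, ← e3, map_pow, map_inv₀, hw, div_right_comm,
    div_left_inj' (pow_ne_zero _ kU), ← g3_sc M w1] at a3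
  have := lat_eq hM' (hM.pr_mul w1) a2 a3
    (by rw [a2, g2_sc M w1]; exact div_ne_zero k2 (pow_ne_zero _ w1))
    (by rw [a3, g3_sc M w1]; exact div_ne_zero k3 (pow_ne_zero _ w1))
  intro z hz
  obtain ⟨y, hy, rfl⟩ := Pool.Agent.P.MP_20768c_nt.Az.EQ.mem_pr_mul.1 (this ▸ le hz)
  rwa [mul_inv_cancel_left₀ w0]

namespace St

variable (s : St) {L : s.Sub} {m : ℕ}

theorem stab (σ : s.Au) (hL : IsUnit L) : ∃ M : s.Sub, IsUnit M ∧
    σ (jL (s.zl L)) = jL (s.zl M) ∧ ∀ (m : ℕ) (z : ℂ), z ∉ L → m * z ∈ L →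
      ∃ z', z' ∉ M ∧ m * z' ∈ M ∧ σ (XX (s.zl L) z) = XX (s.zl M) z' := by
  have h := s.isLat_zl hL
  obtain ⟨h2, h3⟩ := s.g23_ne hL
  obtain ⟨M, hM, e⟩ := Pool.Agent.P.MP_20768c_nt.Az.EQ.jL_surj (σ (jL (s.zl L)))
  have e' : (σ : ℂ →+* ℂ) (jL (s.zl L)) = jL M := e.symm
  have w0 : s.c s.w ≠ 0 := fun h0 => by
    have := s.w_im
    rw [show algebraMap (𝓞 s.k) ℂ s.w = 0 from h0] at this
    exact lt_irrefl _ this
  obtain ⟨N, rfl⟩ := s.exists_sub (d1_end h hM h2 h3 (σ : ℂ →+* ℂ) e' w0 (s.au_c σ s.w)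
    fun z hz => s.mem_zl.2 (s.c_mul_mem s.w (s.mem_zl.1 hz)))
  obtain ⟨k2, k3⟩ := d1_ne h hM h2 h3 _ e'
  refine ⟨N, s.isUnit_of_lat hM, e.symm, fun m z hz hm => ?_⟩
  obtain ⟨u, hu, c⟩ := d1_surj hM (d1_UU k2 k3) (σ (XX (s.zl L) z))
  exact ⟨u, mt s.mem_zl.2 hu, s.mem_zl.1 (((d1_tr h hM h2 h3 _ e').1 z u (mt s.mem_zl.1 hz) hu c
    m).1 (s.mem_zl.2 hm)), c.symm⟩

theorem CM_stab (σ : s.Au) {x : ℂ} (h : x ∈ s.CM m) : σ x ∈ s.CM m := by
  rcases h with h | ⟨L, hL, h⟩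
  · exact Or.inl (by rw [← map_pow, h, map_one])
  obtain ⟨M, hM, e, k⟩ := s.stab σ hL
  refine Or.inr ⟨M, hM, ?_⟩
  rcases h with rfl | ⟨z, a, b, rfl⟩
  · exact Or.inl e
  · obtain ⟨u, c, d, f⟩ := k m z b a
    exact Or.inr ⟨u, d, c, f⟩

theorem CM_alg (hm : 0 < m) {x : ℂ} (h : x ∈ s.CM m) : IsAlgebraic ℚ x := by
  refine s.alg_of_finite ((s.CM_finite hm).subset ?_)
  rintro _ ⟨σ, rfl⟩
  exact s.CM_stab σ h

end St

end Pool.Agent.P.MP_20768c_nt.Az.Cu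

end

-- part Cu.B7
section

set_option autoImplicit false

open Complex NumberField IsDedekindDomain Filter Topology
open UpperHalfPlane hiding I
open scoped ComplexConjugate Real MatrixGroups

namespace Pool.Agent.P.MP_20768c_nt.Az.Cu

open Pool.Agent.P.MP_20768c_nt.Az.EQ (Lt pr sp IsLat jL qN)

section
variable {F Γ : Type} [Field F] [LinearOrderedCommGroupWithZero Γ] {v : Valuation F Γ} {x y : F}

theorem b7_val (h : v (x - 1) < 1) : v x = 1 := by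
  have := v.map_one_add_of_lt h
  rwa [add_sub_cancel] at this

theorem b7_ne (h : v (x - 1) < 1) : x ≠ 0 := fun e => by
  have := b7_val h
  simp [e] at this

theorem b7_mul (h : v (x - 1) < 1) (h' : v (y - 1) < 1) : v (x * y - 1) < 1 := by
  have e : x * y - 1 = (x - 1) * y + (y - 1) := by ring
  rw [e]
  refine v.map_add_lt ?_ h'
  rwa [map_mul, b7_val h', mul_one]

theorem b7_div (h : v (x - 1) < 1) (h' : v (y - 1) < 1) : v (x / y - 1) < 1 := by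
  have e : x / y - 1 = ((x - 1) - (y - 1)) / y := by
    have := b7_ne h'
    field_simp
    ring
  rw [e, map_div₀, b7_val h', div_one]
  exact v.map_sub_lt h h'

end

namespace St

variable (s : St) {L M : s.Sub} {f : Ideal s.O} {p q : s.Pair}

theorem UU_loc (hL : IsUnit L) (hM : IsUnit M) {β β' : s.O} (hβ : s.v (s.c β) = 1)
    (hβ' : s.v (s.c β') = 1) (h : s.sc (s.c β) * L ≤ M) (h' : s.sc (s.c β') * M ≤ L) :
    s.v (UU (s.zl M) / UU (s.zl L) - 1) < 1 := by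
  have h0 : s.c β ≠ 0 := fun e => by simp [e] at hβ
  have u := (s.isUnit_sc h0).mul hL
  have h1 := UU_cong s.v_two (s.isLat_zl u) (s.isLat_zl hM) (s.zl_le.2 h)
    (s.j_unit s.v s.v_two u).1 (s.j_unit s.v s.v_two hM).1 fun t ht hE =>
      s.E1_kill s.v u (s.good_two s.v s.v_two u) (β := β * β')
        (by rw [s.c_mul, map_mul, hβ, hβ', one_mul]) hE (by
          rw [s.c_mul, mul_assoc, s.mul_mem_sc' h0]
          exact h' (Submodule.mul_mem_mul (s.mem_sc _) ht))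
  have h2 := s.v_k_one (s.c_mem β) hβ
  have h3 := b7_div h1 (b7_mul h2 h2)
  rw [s.zl_sc, UU_sc _ h0] at h3
  have e : UU (s.zl M) / (UU (s.zl L) / s.c β ^ 2) / (s.c β * s.c β) =
      UU (s.zl M) / UU (s.zl L) := by
    have := s.UU_ne hL
    field_simp
  rwa [e] at h3

theorem b7_sc {x : ℂ} (hx : x ≠ 0) : UU (s.zl (s.sc x)) = UU (s.zl 1) / x ^ 2 := by
  rw [← UU_sc _ hx, ← s.zl_sc, mul_one]

theorem UU_mul (hL : IsUnit L) (hM : IsUnit M) :
    s.v (UU (s.zl (L * M)) * UU (s.zl 1) / (UU (s.zl L) * UU (s.zl M)) - 1) < 1 := by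
  obtain ⟨x, β, β', hx, a1, a2, a3, a4⟩ := s.exists_loc hL
  obtain ⟨y, γ, γ', hy, b1, b2, b3, b4⟩ := s.exists_loc hM
  have h1 := s.UU_loc hL (s.isUnit_sc hx) a1 a2 a3 a4
  have h2 := s.UU_loc hM (s.isUnit_sc hy) b1 b2 b3 b4
  have h3 := s.UU_loc (hL.mul hM) (s.isUnit_sc (mul_ne_zero hx hy)) (β := β * γ) (β' := β' * γ')
    (by rw [s.c_mul, map_mul, a1, b1, one_mul]) (by rw [s.c_mul, map_mul, a2, b2, one_mul])
    (by rw [s.c_mul, s.sc_mul, s.sc_mul, mul_mul_mul_comm]; exact mul_le_mul' a3 b3)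
    (by rw [s.c_mul, s.sc_mul, s.sc_mul, mul_mul_mul_comm]; exact mul_le_mul' a4 b4)
  have h4 := b7_div (b7_mul h1 h2) h3
  rw [s.b7_sc hx, s.b7_sc hy, s.b7_sc (mul_ne_zero hx hy)] at h4
  have n1 := s.UU_ne hL
  have n2 := s.UU_ne hM
  have n3 := s.UU_ne (hL.mul hM)
  have n4 := s.UU_ne (L := 1) isUnit_one
  generalize UU (s.zl L) = a, UU (s.zl M) = b, UU (s.zl (L * M)) = c, UU (s.zl 1) = u at *
  have e : u / x ^ 2 / a * (u / y ^ 2 / b) / (u / (x * y) ^ 2 / c) = c * u / (a * b) := by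
    field_simp
  rwa [e] at h4

theorem b7_odd (hf : Odd (Ideal.absNorm f)) : s.v (s.c (Ideal.absNorm f : ℕ)) = 1 := by
  have := v_odd s.v s.v_two (n := Ideal.absNorm f) (by exact_mod_cast hf)
  rwa [s.c_nat, ← Int.cast_natCast]

theorem v_UU_odd (hf : Odd (Ideal.absNorm f)) :
    s.v (UU (s.zl (s.idl f * 1))) = s.v (UU (s.zl 1)) := by
  have h := s.UU_loc (L := 1) isUnit_one ((s.isUnit_idl (s.odd_ne hf)).mul isUnit_one)
    (s.b7_odd hf) (β' := 1) (by rw [s.c_one, map_one])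
    (by
      rw [← s.idl_span]
      exact mul_le_mul' (s.idl_le.2 ((Ideal.span_singleton_le_iff_mem _).2 (Ideal.absNorm_mem f)))
        le_rfl)
    (by rw [s.c_one, s.sc_one, one_mul]; exact s.idl_mul_le f 1)
  have := b7_val h
  rw [map_div₀] at this
  exact eq_of_div_eq_one this

theorem eta_spec (hf : Odd (Ideal.absNorm f)) (hp : IsUnit (s.cl (s.lv f) p)) :
    4 * (s.eta f * p.ρ) ∈ s.idl f * p.L ∧ 2 * (s.eta f * p.ρ) ∉ s.idl f * p.L ∧
      ¬ E1 s.v (s.zl (s.idl f * p.L)) (UU (s.zl (s.idl f * p.L))) (-1 / 12) (2 * (s.eta f * p.ρ)) := by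
  have hN := Ideal.absNorm_mem f
  have u := (s.isUnit_idl (s.odd_ne hf)).mul p.unit
  have h2 : 2 * (s.eta f * p.ρ) ∉ s.idl f * p.L := fun h => by
    have h1 := s.mul_mem_idl (a := s.p2) (β := ((2 : ℕ) : s.O))
      (Ideal.subset_span (by simp)) (s.idl_mul_le f _ h)
    have e : s.c ((2 : ℕ) : s.O) * (2 * (s.eta f * p.ρ)) =
        s.c ((Ideal.absNorm f : ℕ) * (s.w * s.w)) * p.ρ := by
      rw [s.c_mul, s.c_mul, s.c_nat, s.c_nat, eta]
      push_cast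
      ring
    rw [e] at h1
    refine s.unit_not_mem hp ((s.lv_le f).2.trans (Ideal.pow_le_self two_ne_zero))
      s.p2_max.ne_top (s.prime_mem p.unit s.p2_max (fun h3 => ?_) p.mem h1)
    have hw : s.w ∉ s.p2 := fun h4 => by
      have := (s.mem_p2' 0 1).1 (by simpa using h4)
      simp at this
    rcases s.p2_max.isPrime.mem_or_mem h3 with h4 | h4
    · have := (s.mem_p2' (Ideal.absNorm f) 0).1 (by simpa using h4)
      rw [add_zero, Int.even_coe_nat] at this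
      exact Nat.not_even_iff_odd.2 hf this
    · exact hw ((s.p2_max.isPrime.mem_or_mem h4).elim id id)
  refine ⟨?_, h2, fun h => h2 ?_⟩
  · have e : 4 * (s.eta f * p.ρ) = s.c (Ideal.absNorm f : ℕ) * (s.c (s.w * s.w) * p.ρ) := by
      rw [s.c_mul, s.c_nat, eta]
      ring
    rw [e]
    exact s.mul_mem_idl hN (s.c_mul_mem _ p.mem)
  · have e1 : s.c (1 - s.w) = 1 - s.c s.w := by rw [s.c_sub, s.c_one]
    obtain ⟨m, hm⟩ := s.m_even
    refine s.E1_kill s.v u (s.good_two s.v s.v_two u) (β := 1 - s.w) (e1 ▸ s.v_wb) h ?_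
    have e : s.c (1 - s.w) * (2 * (s.eta f * p.ρ)) =
        s.c (Ideal.absNorm f : ℕ) * (s.c (s.w * m) * p.ρ) := by
      have := s.cw_sq
      rw [hm] at this
      push_cast at this
      rw [e1, s.c_mul, s.c_nat, s.c_nat, eta]
      linear_combination -(Ideal.absNorm f : ℂ) * s.c s.w * p.ρ / 2 * this
    rw [e]
    exact s.mul_mem_idl hN (s.c_mul_mem _ p.mem)

theorem oms_sq (hf : Odd (Ideal.absNorm f)) (hp : IsUnit (s.cl (s.lv f) p)) :
    s.v (s.oms f p ^ 2 * UU (s.zl (s.idl f * p.L)) - 1) < 1 := by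
  have u := (s.isUnit_idl (s.odd_ne hf)).mul p.unit
  obtain ⟨h1, -, h3⟩ := s.eta_spec hf hp
  have e : mb2 (-1 / 12) = 1 := by norm_num [mb2]
  have := oc_cong (s.isLat_zl u) (s.good_two s.v s.v_two u) s.v_two (by rw [e, map_one]) h1 h3
  rw [e, mul_one] at this
  rw [oms, if_pos hp]
  exact this.trans_lt ((b4_even s.v 2 (x := 1) (by norm_num) s.v.map_one.le).trans_lt s.v_two)

theorem oms_ne (hf : Odd (Ideal.absNorm f)) (hp : IsUnit (s.cl (s.lv f) p)) : s.oms f p ≠ 0 := by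
  intro e
  exact b7_ne (s.oms_sq hf hp) (by rw [e]; ring)

theorem v_oms_one (hf : Odd (Ideal.absNorm f)) : s.v (UU (s.zl 1)) * s.v (s.oms f 1) ^ 2 = 1 := by
  have := b7_val (s.oms_sq hf (p := 1) (by rw [map_one]; exact isUnit_one))
  rwa [map_mul, map_pow, s.one_L, s.v_UU_odd hf, mul_comm] at this

theorem oms_mul (hf : Odd (Ideal.absNorm f)) (hp : IsUnit (s.cl (s.lv f) p))
    (hq : IsUnit (s.cl (s.lv f) q)) :
    s.v (s.oms f (p * q) * s.oms f 1 / (s.oms f p * s.oms f q) - 1) < 1 := by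
  have u := s.isUnit_idl (s.odd_ne hf)
  have h1 := s.oms_sq hf (p := p * q) (by rw [map_mul]; exact hp.mul hq)
  have h2 := s.oms_sq hf (p := 1) (by rw [map_one]; exact isUnit_one)
  have h3 := s.oms_sq hf hp
  have h4 := s.oms_sq hf hq
  have h5 := s.UU_mul (u.mul p.unit) q.unit
  have h6 := s.UU_mul u q.unit
  rw [s.one_L, mul_one] at h2
  rw [s.mul_L, ← mul_assoc] at h1
  have h7 := b7_mul (b7_div (b7_mul h1 h2) (b7_mul h3 h4)) (b7_div h6 h5)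
  have n1 := s.UU_ne u
  have n2 := s.UU_ne (u.mul p.unit)
  have n3 := s.UU_ne (u.mul q.unit)
  have n4 := s.UU_ne ((u.mul p.unit).mul q.unit)
  have n5 := s.UU_ne q.unit
  have n6 := s.UU_ne (L := 1) isUnit_one
  have n7 := s.oms_ne hf hp
  have n8 := s.oms_ne hf hq
  refine sq_one s.v_two ?_
  generalize UU (s.zl (s.idl f)) = a, UU (s.zl (s.idl f * p.L)) = b,
    UU (s.zl (s.idl f * q.L)) = c, UU (s.zl (s.idl f * p.L * q.L)) = d, UU (s.zl q.L) = e,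
    UU (s.zl 1) = g, s.oms f (p * q) = x, s.oms f 1 = y, s.oms f p = z, s.oms f q = w at *
  have e1 : x ^ 2 * d * (y ^ 2 * a) / (z ^ 2 * b * (w ^ 2 * c)) *
      (c * g / (a * e) / (d * g / (b * e))) = (x * y / (z * w)) ^ 2 := by
    field_simp
  rwa [e1] at h7

theorem b7_eta {l : ℂ} (hl : l ∈ s.idl (s.lv f) * L) : s.eta f * l ∈ s.idl f * L := by
  have hw : s.w ∈ s.p1 := Ideal.subset_span (by simp)
  have h1 := s.mul_mem_idl (Ideal.mul_mem_mul hw hw) hl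
  have e : s.p1 * s.p1 * s.lv f = Ideal.span {((4 : ℕ) : s.O)} * f := by
    have : ((4 : ℕ) : s.O) = 2 * 2 := by norm_num
    rw [this, ← Ideal.span_singleton_mul_span_singleton, ← s.p1_mul_p2, lv]
    ring
  rw [← mul_assoc, ← s.idl_mul, e, s.idl_mul, s.idl_span, mul_assoc, s.mem_sc_mul] at h1
  obtain ⟨z, hz, e2⟩ := h1
  rw [s.c_nat, s.c_mul] at e2
  have e3 : s.eta f * l = s.c (Ideal.absNorm f : ℕ) * z := by
    rw [s.c_nat, eta]
    push_cast at e2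
    linear_combination -(Ideal.absNorm f : ℂ) / 4 * e2
  rw [e3]
  exact s.c_mul_mem _ hz

theorem oms_wt (hf : Odd (Ideal.absNorm f)) :
    s.IsWt (s.lv f) (s.oms f) ∧ s.Supp (s.lv f) (s.oms f) := by
  have hS : s.Supp (s.lv f) (s.oms f) := fun p hp => by rw [oms, if_neg hp]
  refine ⟨⟨fun x p q h => ?_, fun p h => hS p fun hp => s.unit_not_mem hp
    ((s.lv_le f).2.trans (Ideal.pow_le_self two_ne_zero)) s.p2_max.ne_top h⟩, hS⟩
  have e := s.cl_eq.2 ⟨x, h⟩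
  by_cases hp : IsUnit (s.cl (s.lv f) p)
  · obtain ⟨hx, h1, h2⟩ := h
    have u := (s.isUnit_idl (s.odd_ne hf)).mul q.unit
    have h3 := oc_add (s.isLat_zl u) (x * (s.eta f * p.ρ)) (s.mem_zl.2 (s.b7_eta h2))
    have e1 : x * (s.eta f * p.ρ) + s.eta f * (q.ρ - x * p.ρ) = s.eta f * q.ρ := by ring
    rw [oms, oms, if_pos hp, if_pos (e ▸ hp), ← e1, h3, h1, mul_left_comm, s.zl_sc, oc_sc _ hx]
  · rw [hS p hp, hS q (e ▸ hp), mul_zero]

end St

end Pool.Agent.P.MP_20768c_nt.Az.Cu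

end

-- part Cu.D2
section

set_option autoImplicit false

open Complex NumberField IsDedekindDomain Filter Topology
open UpperHalfPlane hiding I
open scoped ComplexConjugate Real MatrixGroups

namespace Pool.Agent.P.MP_20768c_nt.Az.Cu

open Pool.Agent.P.MP_20768c_nt.Az.EQ (Lt pr sp IsLat jL qN)

theorem d2_fin {T : Set ℂ} (hT : T.Finite) (h : ∀ x ∈ T, IsAlgebraic ℚ x ∧ x ≠ 0) :
    ∃ C : ℕ, C ≠ 0 ∧ ∀ V : ValuationSubring ℂ, V.valuation C = 1 →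
      ∀ x ∈ T, V.valuation x = 1 := by
  induction T, hT using Set.Finite.induction_on with
  | empty => exact ⟨1, one_ne_zero, fun _ _ _ hx => absurd hx (Set.notMem_empty _)⟩
  | @insert a T _ _ ih =>
    obtain ⟨C, h1, h2⟩ := ih fun x hx => h x (Set.mem_insert_of_mem _ hx)
    obtain ⟨D, k1, k2⟩ := exists_nat_mul (h a (Set.mem_insert _ _)).1 (h a (Set.mem_insert _ _)).2
    refine ⟨C * D, mul_ne_zero h1 k1, fun V hV x hx => ?_⟩
    rcases hx with rfl | hx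
    · exact k2 V (v_nat_dvd _ (dvd_mul_left D C) hV)
    · exact h2 V (v_nat_dvd _ (dvd_mul_right C D) hV) x hx

theorem d2_tri {Γ : Type} [LinearOrderedCommGroupWithZero Γ] {v : Valuation ℂ Γ} {a b c : ℂ}
    (h : v (a - c) < 1) (h' : v (b - c) < 1) : v (a - b) < 1 := by
  rw [show a - b = (a - c) - (b - c) by ring]
  exact v.map_sub_lt h h'

theorem d2_xx {L : Lt} (h : IsLat L) {z w : ℂ} (e : z + w ∈ L ∨ z - w ∈ L) :
    XX L z = XX L w := by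
  rcases e with e | e
  · rw [XX, XX, ← wp_neg h w, wp_congr h (w := -w) (by rwa [sub_neg_eq_add])]
  · rw [XX, XX, wp_congr h e]

theorem d2_xm (L : Lt) (r z : ℂ) : xm L (UU L) r z = XX L z + r := rfl

namespace St

variable (s : St) {Γ : Type} [LinearOrderedCommGroupWithZero Γ] {C m : ℕ} {b g : Ideal s.O}

theorem exists_C0 : ∃ C, s.IsC0 C := by
  have hJ : (s.CM 1 ∪ {0, 6, 1728}).Finite := (s.CM_finite one_pos).union (Set.toFinite _)
  have hA : ∀ x ∈ s.CM 1 ∪ {0, 6, 1728}, IsAlgebraic ℚ x := by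
    rintro x (hx | rfl | rfl | rfl)
    · exact s.CM_alg one_pos hx
    · exact isAlgebraic_zero
    · exact_mod_cast isAlgebraic_natCast (R := ℚ) (A := ℂ) 6
    · exact_mod_cast isAlgebraic_natCast (R := ℚ) (A := ℂ) 1728
  obtain ⟨C, h1, h2⟩ := d2_fin ((hJ.image2 (fun x y : ℂ => x - y) hJ).sdiff (t := {0})) (by
    rintro _ ⟨⟨x, hx, y, hy, rfl⟩, h0⟩
    exact ⟨(hA x hx).sub (hA y hy), h0⟩)
  have hj : ∀ L : s.Sub, IsUnit L → jL (s.zl L) ∈ s.CM 1 ∪ {0, 6, 1728} := fun L hL =>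
    Or.inl (Or.inr ⟨L, hL, Or.inl rfl⟩)
  refine ⟨C, h1, fun V hV => ⟨?_, fun L hL => ?_, fun L M hL hM h => ?_⟩⟩
  · exact h2 V hV 6 ⟨⟨6, by simp, 0, by simp, sub_zero _⟩, by norm_num⟩
  · obtain ⟨k1, k2⟩ := (g23_iff (s.isLat_zl hL)).1 (s.g23_ne hL)
    exact ⟨h2 V hV _ ⟨⟨_, hj L hL, 0, by simp, sub_zero _⟩, k1⟩,
      h2 V hV _ ⟨⟨_, hj L hL, 1728, by simp, rfl⟩, k2⟩⟩
  · by_contra hne
    exact h.ne (h2 V hV _ ⟨⟨_, hj L hL, _, hj M hM, rfl⟩, sub_ne_zero.2 hne⟩)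

theorem art_frob (hC : s.IsC0 C) (V : ValuationSubring ℂ) (hV : V.valuation C = 1)
    (hm : V.valuation m = 1) {q : Ideal s.O} (hq : q.IsPrime) (h0 : q ≠ ⊥)
    (hv : ∀ x ∈ q, V.valuation (s.c x) < 1) (σ : s.Au)
    (hσ : FrobOn V.valuation (Ideal.absNorm q) σ (s.CM m)) : s.Art m σ q := by
  obtain ⟨h6, hj, hsep⟩ := hC.2 V hV
  have hm0 : 0 < m := Nat.pos_of_ne_zero fun e => by simp [e] at hm
  have hcop : IsCoprime q (Ideal.span {(m : s.O)}) := by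
    refine Ideal.isCoprime_iff_sup_eq.2 ((hq.isMaximal h0).1.2 _ (lt_of_le_of_ne le_sup_left
      fun e => ?_))
    have := hv m (e ▸ Ideal.mem_sup_right (Ideal.mem_span_singleton_self _))
    rw [s.c_nat] at this
    exact this.ne hm
  refine ⟨h0, hcop, fun L hL => ?_, fun ζ hζ => ?_⟩
  · have hL' : IsUnit (L * s.inv q) := hL.mul (s.isUnit_inv h0)
    have l1 := s.isLat_zl hL
    have l2 := s.isLat_zl hL'
    have hle := s.le_mul_inv h0 L
    obtain ⟨R, hR⟩ := exists_reps l1 l2 (s.zl_le.2 hle)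
    obtain ⟨l, a, hl, hlq, -, hN⟩ := s.norm_prime hq h0
    have hc := s.reps_card' hL h0 hR
    have G1 := good_zero h6 l1 (hj L hL).1 (hj L hL).2
    have G2 := good_zero h6 l2 (hj _ hL').1 (hj _ hL').2
    obtain ⟨f1, f2⟩ := frob_cong h6 l1 l2 hR (hj L hL).1 (hj L hL).2 (hj _ hL').1 (hj _ hL').2 hl
      (by have := hv l hlq; rwa [s.c_nat] at this) (hc.trans hN)
      fun t ht => s.E1_prime _ hL G1 hq h0 hv (s.mem_zl.1 (hR.2.2.1 t ht))
    rw [hc] at f1 f2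
    obtain ⟨M, hM, e1, e2⟩ := s.stab σ hL
    have e3 : jL (s.zl (L * s.inv q)) = jL (s.zl M) := hsep _ _ hL' hM (d2_tri f1
      (e1 ▸ hσ _ (Or.inr ⟨L, hL, Or.inl rfl⟩) (hj L hL).1.le))
    refine ⟨e1.trans e3.symm, fun z hz hz' => ?_⟩
    obtain ⟨x, hx, rfl⟩ := (s.j_eq hL' hM).1 e3
    obtain ⟨z', k1, k2, k3⟩ := e2 m z hz' hz
    obtain ⟨y, rfl⟩ : ∃ y, z' = x * y := ⟨x⁻¹ * z', (mul_inv_cancel_left₀ hx z').symm⟩
    rw [mul_left_comm (m : ℂ)] at k2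
    rw [s.mul_mem_sc' hx] at k1 k2
    rw [s.zl_sc, XX_sc _ hx] at k3
    have k4 : z ∉ L * s.inv q := fun h => hz' (s.mem_of_cop h0 hcop h fun β hβ => by
      obtain ⟨γ, rfl⟩ := Ideal.mem_span_singleton'.1 hβ
      rw [s.c_mul, s.c_nat, mul_assoc]
      exact s.c_mul_mem γ hz)
    have n1 : ¬ E1 V.valuation (s.zl L) (UU (s.zl L)) 0 z := fun h =>
      hz' (s.mem_zl.1 (E1_tors l1 G1 hm h (s.mem_zl.2 hz)))
    have t2 : ∀ y : ℂ, m * y ∈ L * s.inv q →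
        E1 V.valuation (s.zl (L * s.inv q)) (UU (s.zl (L * s.inv q))) 0 y →
        y ∈ s.zl (L * s.inv q) := fun y hy h => E1_tors l2 G2 hm h (s.mem_zl.2 hy)
    have k5 := (xm_le n1).2
    rw [d2_xm, add_zero] at k5
    have k6 := d2_tri (k3 ▸ hσ _ (Or.inr ⟨L, hL, Or.inr ⟨z, hz, hz', rfl⟩⟩) k5) (f2 z n1)
    rw [k3]
    refine d2_xx l2 ((xm_inj l2 G2 (fun h => k1 (s.mem_zl.1 (t2 y k2 h)))
      (fun h => k4 (s.mem_zl.1 (t2 z (hle hz) h)))
      (by rwa [d2_xm, d2_xm, add_zero, add_zero])).imp (t2 _ ?_) (t2 _ ?_))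
    · rw [mul_add]
      exact add_mem k2 (hle hz)
    · rw [mul_sub]
      exact sub_mem k2 (hle hz)
  · refine root_inj V.valuation hm ?_ ?_ (hσ ζ (Or.inl hζ) (v_root _ hm0 hζ).le)
    · rw [← map_pow, hζ, map_one]
    · rw [← pow_mul, mul_comm, pow_mul, hζ, one_pow]

theorem art_inertG (v : Valuation ℂ Γ) (r : ℚ)
    (hG : ∀ L : s.Sub, IsUnit L → Good v (s.zl L) (UU (s.zl L)) r)
    (hs : ∀ L M : s.Sub, IsUnit L → IsUnit M → v (jL (s.zl L) - jL (s.zl M)) < 1 →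
      jL (s.zl L) = jL (s.zl M)) (hm : 0 < m) {σ : s.Au} (hA : s.Art m σ b) (hI : Inert v σ)
    (hg : (m : s.O) ∈ g) {β : s.O} (hβ : β ∈ g) (hv : v (s.c β) = 1) : s.cl g (s.ip b) = 1 := by
  obtain ⟨hb, hcop, hA, -⟩ := hA
  have hg0 : g ≠ ⊥ := fun e => by
    rw [e, Ideal.mem_bot] at hg
    exact hm.ne' (by exact_mod_cast hg)
  have hL := s.isUnit_idl hg0
  have hL' : IsUnit (s.idl g * s.inv b) := hL.mul (s.isUnit_inv hb)
  have l1 := s.isLat_zl hL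
  obtain ⟨e1, e2⟩ := hA _ hL
  have e3 := hs _ _ hL' hL (e1 ▸ hI _ (s.CM_alg hm (Or.inr ⟨_, hL, Or.inl rfl⟩)) (s.j_int v hL))
  obtain ⟨x, hx, e4⟩ := (s.j_eq hL hL').1 e3.symm
  have e5 : s.inv b = s.sc x := hL.mul_left_cancel (e4.trans (mul_comm _ _))
  have e6 : s.idl b = s.sc x⁻¹ := by
    have := s.idl_inv hb
    rw [e5] at this
    rw [← one_mul (s.sc x⁻¹), ← this, mul_assoc, ← s.sc_mul, mul_inv_cancel₀ hx, s.sc_one, mul_one]
  obtain ⟨β₀, -, e7⟩ := s.mem_idl.1 (e6 ▸ s.mem_sc x⁻¹)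
  have e8 : b = Ideal.span {β₀} := by
    rw [← e7, ← s.idl_span] at e6
    exact le_antisymm (s.idl_le.1 e6.le) (s.idl_le.1 e6.ge)
  have hβ0 : β₀ ≠ 0 := fun e => hb (by rw [e8, e, Ideal.span_singleton_eq_bot])
  rw [e8, s.cl_ip_span g hβ0, s.cl_np_eq_one]
  by_cases ht : g = ⊤
  · exact Or.inl (ht ▸ Submodule.mem_top)
  have kill : ∀ γ : s.O, E1 v (s.zl (s.idl g)) (UU (s.zl (s.idl g))) r (s.c γ) → γ ∈ g :=
    fun γ h => s.c_mem_idl.1 (s.E1_kill v hL (hG _ hL) hv h (by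
      rw [← s.c_mul]
      exact s.c_mem_idl.2 (g.mul_mem_right γ hβ)))
  have n1 : (1 : s.O) ∉ g := fun h => ht ((Ideal.eq_top_iff_one g).2 h)
  have n2 : β₀ ∉ g := fun h => ht (eq_top_iff.2 ((Ideal.isCoprime_iff_sup_eq.1 hcop).ge.trans
    (sup_le (e8 ▸ (Ideal.span_singleton_le_iff_mem g).2 h)
      ((Ideal.span_singleton_le_iff_mem g).2 hg))))
  have k1 : (m : ℂ) * s.c 1 ∈ s.idl g := by
    rw [s.c_one, mul_one, ← s.c_nat]
    exact s.c_mem_idl.2 hg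
  have k2 : s.c 1 ∉ s.idl g := fun h => n1 (s.c_mem_idl.1 h)
  have k3 : σ (XX (s.zl (s.idl g)) (s.c 1)) = XX (s.zl (s.idl g)) (s.c β₀) := by
    rw [e2 _ k1 k2, e4, s.zl_sc, ← XX_sc _ hx (s.c β₀), e7, mul_inv_cancel₀ hx, s.c_one]
  have k4 : IsAlgebraic ℚ (xm (s.zl (s.idl g)) (UU (s.zl (s.idl g))) r (s.c 1)) :=
    (s.CM_alg hm (Or.inr ⟨_, hL, Or.inr ⟨_, k1, k2, rfl⟩⟩)).add (isAlgebraic_ratCast ℚ r)
  have k5 := hI _ k4 (xm_le fun h => n1 (kill 1 h)).2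
  rw [d2_xm, map_add, k3, map_ratCast, ← d2_xm, ← d2_xm] at k5
  refine (xm_inj l1 (hG _ hL) (fun h => n2 (kill _ h)) (fun h => n1 (kill _ h)) k5).symm.imp
    (fun h => kill _ ?_) fun h => kill _ ?_
  · rwa [s.c_sub]
  · rwa [s.c_add]

theorem art_inert (hC : s.IsC0 C) (V : ValuationSubring ℂ) (hV : V.valuation C = 1)
    (hm : V.valuation m = 1) {σ : s.Au} (hA : s.Art m σ b) (hI : Inert V.valuation σ) :
    s.cl (Ideal.span {(m : s.O)}) (s.ip b) = 1 := by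
  obtain ⟨h6, hj, hsep⟩ := hC.2 V hV
  have hm0 : 0 < m := Nat.pos_of_ne_zero fun e => by simp [e] at hm
  refine s.art_inertG V.valuation 0 (fun L hL => ?_) hsep hm0 hA hI
    (Ideal.mem_span_singleton_self _) (Ideal.mem_span_singleton_self _) (by rwa [s.c_nat])
  rw [Rat.cast_zero]
  exact good_zero h6 (s.isLat_zl hL) (hj L hL).1 (hj L hL).2

theorem art_inert2 (hm : 0 < m) {σ : s.Au} (hA : s.Art m σ b) (hI : Inert s.v σ)
    (hg : (m : s.O) ∈ g) (hp : ¬ g ≤ s.p1) : s.cl g (s.ip b) = 1 := by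
  obtain ⟨β, h1, h2⟩ := SetLike.not_le_iff_exists.1 hp
  refine s.art_inertG s.v (-1 / 12) (fun L hL => ?_) (fun L M => s.j_sep) hm hA hI hg h1
    (le_antisymm (s.v_c _ β) (not_lt.1 fun h => h2 ((s.mem_p1 β).2 h)))
  rw [show ((-1 / 12 : ℚ) : ℂ) = -1 / 12 by norm_num]
  exact s.good_two s.v s.v_two hL

end St

end Pool.Agent.P.MP_20768c_nt.Az.Cu

end

-- part Cu.J1_p
section

set_option autoImplicit false

open Complex NumberField IsDedekindDomain Filter Topology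
open UpperHalfPlane hiding I
open scoped ComplexConjugate Real MatrixGroups

namespace Pool.Agent.P.MP_20768c_nt.Az.Cu

open Pool.Agent.P.MP_20768c_nt.Az.EQ (Lt pr sp IsLat jL qN)

theorem one_unit_root {Γ : Type} [LinearOrderedCommGroupWithZero Γ] {v : Valuation ℂ Γ}
    (h2 : v 2 < 1) {u : ℂ} (hu : v (u - 1) < 1) {r : ℕ} (hr : 0 < r) :
    ∃ y : ℂ, y ^ r = u ∧ v (y - 1) < 1 := by
  by_contra hn
  have hm := Polynomial.monic_X_pow_sub_C u hr.ne'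
  have e := (IsAlgClosed.splits (Polynomial.X ^ r - Polynomial.C u)).eval_eq_prod_roots_of_monic
    hm 1
  rw [Polynomial.eval_sub, Polynomial.eval_pow, Polynomial.eval_X, Polynomial.eval_C, one_pow] at e
  rw [v.map_sub_swap, e, map_multiset_prod, Multiset.map_map] at hu
  refine absurd hu (not_lt.2 (Multiset.one_le_prod_of_one_le fun a ha => ?_))
  obtain ⟨z, hz, rfl⟩ := Multiset.mem_map.1 ha
  have hz' := (Polynomial.mem_roots hm.ne_zero).1 hz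
  rw [Polynomial.IsRoot.def, Polynomial.eval_sub, Polynomial.eval_pow, Polynomial.eval_X,
    Polynomial.eval_C, sub_eq_zero] at hz'
  refine not_lt.1 fun h => hn ⟨z, hz', ?_⟩
  rw [v.map_sub_swap]
  exact h

namespace St

variable {s : St} {f : Ideal s.O} {ω : s.Pair → ℂ}

theorem v_chi (hf : f ≠ ⊥) (χ : MulChar (s.Pr f) ℂ) (p : s.Pair) : s.v (χ (s.cl f p)) ≤ 1 := by
  have := s.finite_Pr hf
  by_cases h : IsUnit (s.cl f p)
  · obtain ⟨C, hC⟩ := h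
    refine (v_root s.v (orderOf_pos C) ?_).le
    rw [← hC, ← map_pow, ← Units.val_pow_eq_pow_val, pow_orderOf_eq_one, Units.val_one, map_one]
  · rw [χ.map_nonunit h, map_zero]
    exact zero_le_one

theorem Eig.al (hf : Odd (Ideal.absNorm f)) (h : s.Eig f ω) : s.v (s.al ω) = 1 := by
  obtain ⟨hw, -, h1, hm⟩ := h
  have hn := s.lv_ne (s.odd_ne hf)
  have := s.finite_Pr hn
  have hu : IsUnit (s.cl (s.lv f) (s.ip s.p1)) := by
    rw [s.unit_cl hn, s.idOf_ip s.p1_ne, lv]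
    have c := s.odd_iff.1 hf
    rw [← s.p1_mul_p2] at c
    exact c.of_mul_right_left.symm.mul_right s.cop12.pow_right
  obtain ⟨C, hC⟩ := hu
  have hr := orderOf_pos C
  set r := orderOf C with hr'
  have e1 : s.cl (s.lv f) 1 = s.cl (s.lv f) (s.ip s.p1 ^ r) := by
    rw [map_pow, ← hC, ← Units.val_pow_eq_pow_val, hr', pow_orderOf_eq_one, Units.val_one, map_one]
  obtain ⟨x, hx⟩ := s.cl_eq.1 e1
  have e2 : ∀ j : ℕ, ω (s.ip s.p1 ^ j) = (ω (s.ip s.p1) / ω 1) ^ j * ω 1 := by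
    intro j
    induction j with
    | zero => rw [pow_zero, pow_zero, one_mul]
    | succ j ih =>
      refine mul_right_cancel₀ h1 ?_
      rw [pow_succ, hm, ih, pow_succ, mul_assoc _ (ω (s.ip s.p1) / ω 1), div_mul_cancel₀ _ h1]
      ring
  have e3 : (ω (s.ip s.p1) / ω 1) ^ r = x := by
    refine mul_right_cancel₀ h1 ?_
    rw [← e2, hw.1 x _ _ hx]
  have p0 : s.p1 ^ r ≠ ⊥ := pow_ne_zero r s.p1_ne
  have e4 : s.inv (s.p1 ^ r) = s.sc x := by
    have := hx.2.1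
    rwa [← s.ip_pow s.p1_ne, s.ip_L p0, s.one_L, mul_one] at this
  have c2 : s.c (2 ^ r) = 2 ^ r := by
    rw [s.c_pow]
    exact congrArg (· ^ r) (by exact_mod_cast s.c_nat 2)
  have e5 : s.sc (2 ^ r * x) = s.idl (s.p2 ^ r) := by
    rw [s.sc_mul, ← e4, ← c2, ← s.idl_span, ← Ideal.span_singleton_pow, ← s.p1_mul_p2, mul_pow,
      s.idl_mul, mul_right_comm, s.idl_inv p0, one_mul]
  have l1 : s.v (2 ^ r * x) ≤ 1 := by
    obtain ⟨β, -, hβ⟩ := s.mem_idl.1 (e5 ▸ s.mem_sc (2 ^ r * x))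
    rw [← hβ]
    exact s.v_c s.v β
  have l2 : 1 ≤ s.v (2 ^ r * x) := by
    have m1 : (1 - s.w) ^ r ∈ s.p2 ^ r :=
      Ideal.pow_mem_pow (Ideal.subset_span (by simp)) r
    have m2 := s.c_mem_idl.2 m1
    rw [← e5, ← mul_one (s.sc _)] at m2
    obtain ⟨z, hz, ez⟩ := s.mem_sc_mul.1 m2
    obtain ⟨β, rfl⟩ := s.mem_one.1 hz
    have m3 := congrArg s.v ez
    rw [map_mul, s.c_pow, s.c_sub, s.c_one, map_pow s.v (1 - s.c s.w), s.v_wb, one_pow] at m3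
    rw [← m3]
    exact mul_le_of_le_one_right' (s.v_c s.v β)
  have e6 : s.v (s.al ω) ^ r = 1 := by
    rw [← map_pow, St.al, mul_div_assoc, mul_pow, e3]
    exact le_antisymm l1 l2
  exact (pow_eq_one_iff_of_nonneg zero_le hr.ne').1 e6

end St

end Pool.Agent.P.MP_20768c_nt.Az.Cu

end

-- part Cu.D3
section

set_option autoImplicit false

open Complex NumberField IsDedekindDomain Filter Topology
open UpperHalfPlane hiding I
open scoped ComplexConjugate Real MatrixGroups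

namespace Pool.Agent.P.MP_20768c_nt.Az.Cu

open Pool.Agent.P.MP_20768c_nt.Az.EQ (Lt pr sp IsLat jL qN)

namespace St

variable {s : St} {C m : ℕ} {a b : Ideal s.O}

theorem d3_nat_mem {L : s.Sub} {z : ℂ} (h : z ∈ L) (k : ℕ) : (k : ℂ) * z ∈ L := by
  rw [← s.c_nat]
  exact s.c_mul_mem _ h

theorem d3_not_mem {L : s.Sub} {z : ℂ} (hb : b ≠ ⊥) (hc : IsCoprime b (Ideal.span {(m : s.O)}))
    (h1 : m * z ∈ L) (h2 : z ∉ L) : z ∉ L * s.inv b := fun h => h2 <|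
  s.mem_of_cop hb hc h fun β hβ => by
    obtain ⟨t, rfl⟩ := Ideal.mem_span_singleton'.1 hβ
    rw [c_mul, c_nat, mul_assoc]
    exact s.c_mul_mem _ h1

theorem d3_span_ne (hm : 0 < m) : Ideal.span {(m : s.O)} ≠ ⊥ := by
  rw [Ne, Ideal.span_singleton_eq_bot]
  exact_mod_cast hm.ne'

theorem d3_one_mem (hb : b ≠ ⊥) : (1 : ℂ) ∈ s.inv b := by
  have h := (s.ip b).mem
  rwa [ip_ρ, s.ip_L hb] at h

theorem d3_idl (s : St) (m : ℕ) : s.idl (Ideal.span {(m : s.O)}) = s.sc m := by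
  rw [idl_span, c_nat]

theorem d3_XX {L : s.Sub} {x : ℂ} (hx : x ≠ 0) (z : ℂ) :
    XX (s.zl (s.sc x * L)) (x * z) = XX (s.zl L) z := by
  rw [zl_sc, XX_sc _ hx]

theorem d3_val (F : IntermediateField s.k ℂ) {V : ValuationSubring ℂ} {Q : Ideal (𝓞 F)}
    (hV : ∀ x : 𝓞 F, V.valuation ((x : F) : ℂ) < 1 ↔ x ∈ Q) {n : ℕ} (h : (n : 𝓞 F) ∉ Q) :
    V.valuation n = 1 := by
  have h1 := s.v_c V.valuation n
  rw [c_nat] at h1
  refine h1.antisymm (not_lt.1 fun h2 => h ((hV _).1 ?_))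
  simpa using h2

theorem art_one (s : St) (m : ℕ) : s.Art m (1 : s.Au) ⊤ := by
  refine ⟨top_ne_bot, ?_, fun L _ => ?_, fun ζ _ => ?_⟩
  · rw [← Ideal.one_eq_top]
    exact isCoprime_one_left
  · rw [inv_top, mul_one]
    exact ⟨rfl, fun _ _ _ => rfl⟩
  · rw [Ideal.absNorm_top, pow_one]
    rfl

theorem Art.mul {σ τ : s.Au} (h : s.Art m σ a) (h' : s.Art m τ b) : s.Art m (σ * τ : s.Au) (a * b) := by
  obtain ⟨a0, a1, a2, a3⟩ := h
  obtain ⟨b0, b1, b2, b3⟩ := h'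
  refine ⟨mul_ne_zero a0 b0, a1.mul_left b1, fun L hL => ?_, fun ζ hζ => ?_⟩
  · have e : L * s.inv (a * b) = L * s.inv b * s.inv a := by
      rw [s.inv_mul a0 b0, mul_assoc, mul_comm (s.inv a)]
    obtain ⟨k1, k2⟩ := b2 L hL
    obtain ⟨k3, k4⟩ := a2 _ (hL.mul (s.isUnit_inv b0))
    rw [e]
    refine ⟨by rw [AlgEquiv.mul_apply, k1, k3], fun z z1 z2 => ?_⟩
    rw [AlgEquiv.mul_apply, k2 z z1 z2,
      k4 z (s.le_mul_inv b0 L z1) (d3_not_mem b0 b1 z1 z2)]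
  · rw [AlgEquiv.mul_apply, b3 ζ hζ, map_pow, a3 ζ hζ, map_mul, pow_mul]

theorem Art.mono {σ : ℂ → ℂ} {m' : ℕ} (h : s.Art m' σ a) (hd : m ∣ m') : s.Art m σ a := by
  obtain ⟨k, rfl⟩ := hd
  obtain ⟨a0, a1, a2, a3⟩ := h
  refine ⟨a0, ?_, fun L hL => ⟨(a2 L hL).1, fun z z1 z2 => (a2 L hL).2 z ?_ z2⟩,
    fun ζ hζ => a3 ζ (by rw [pow_mul, hζ, one_pow])⟩
  · rw [Nat.cast_mul, ← Ideal.span_singleton_mul_span_singleton] at a1
    exact a1.of_mul_right_left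
  · rw [Nat.cast_mul, mul_comm (m : ℂ), mul_assoc]
    exact d3_nat_mem z1 k

theorem Art.congr {σ σ' : ℂ → ℂ} (h : s.Art m σ a) (e : ∀ x ∈ s.CM m, σ' x = σ x) : s.Art m σ' a := by
  obtain ⟨a0, a1, a2, a3⟩ := h
  refine ⟨a0, a1, fun L hL => ⟨?_, fun z z1 z2 => ?_⟩, fun ζ hζ => ?_⟩
  · rw [e _ (Or.inr ⟨L, hL, Or.inl rfl⟩), (a2 L hL).1]
  · rw [e _ (Or.inr ⟨L, hL, Or.inr ⟨z, z1, z2, rfl⟩⟩), (a2 L hL).2 z z1 z2]
  · rw [e _ (Or.inl hζ), a3 ζ hζ]

theorem Art.eq_on {σ σ' : ℂ → ℂ} (h : s.Art m σ a) (h' : s.Art m σ' a) {x : ℂ} (hx : x ∈ s.CM m) :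
    σ x = σ' x := by
  rcases hx with hx | ⟨L, hL, rfl | ⟨z, z1, z2, rfl⟩⟩
  · rw [h.2.2.2 x hx, h'.2.2.2 x hx]
  · rw [(h.2.2.1 L hL).1, (h'.2.2.1 L hL).1]
  · rw [(h.2.2.1 L hL).2 z z1 z2, (h'.2.2.1 L hL).2 z z1 z2]

theorem Art.unit {σ : ℂ → ℂ} {n : Ideal s.O} (h : s.Art m σ a) (hm : 0 < m) (hn : (m : s.O) ∈ n) :
    IsUnit (s.cl n (s.ip a)) := by
  have hle : Ideal.span {(m : s.O)} ≤ n := (Ideal.span_singleton_le_iff_mem _).2 hn
  refine s.unit_mono hle ((s.unit_cl (d3_span_ne hm)).2 ?_)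
  rw [s.idOf_ip h.1]
  exact h.2.1

theorem Art.cl_eq {σ : ℂ → ℂ} (hm : 0 < m) (h : s.Art m σ a) (h' : s.Art m σ b) :
    s.cl (Ideal.span {(m : s.O)}) (s.ip a) = s.cl (Ideal.span {(m : s.O)}) (s.ip b) := by
  obtain ⟨a0, a1, a2, -⟩ := h
  obtain ⟨b0, b1, b2, -⟩ := h'
  have hL : IsUnit (s.sc m) := s.isUnit_sc (by exact_mod_cast hm.ne')
  have hA := hL.mul (s.isUnit_inv a0)
  have hB := hL.mul (s.isUnit_inv b0)
  obtain ⟨x, x0, hx⟩ := (s.j_eq hA hB).1 ((a2 _ hL).1.symm.trans (b2 _ hL).1)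
  have e : s.inv b = s.sc x * s.inv a := hL.mul_left_cancel (by rw [hx, mul_left_comm])
  have key : 1 - x ∈ s.sc m * s.inv b ∨ 1 + x ∈ s.sc m * s.inv b := by
    by_cases h1 : (1 : ℂ) ∈ s.sc m
    · left
      have k1 : x * 1 ∈ s.inv b := by
        rw [e]
        exact Submodule.mul_mem_mul (s.mem_sc x) (d3_one_mem a0)
      have k2 := Submodule.mul_mem_mul h1 (sub_mem (d3_one_mem b0) k1)
      rwa [one_mul, mul_one] at k2
    · have m1 : (m : ℂ) * 1 ∈ s.sc m := by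
        rw [mul_one]
        exact s.mem_sc _
      have k1 := ((b2 _ hL).2 1 m1 h1).symm.trans ((a2 _ hL).2 1 m1 h1)
      rw [← d3_XX (L := s.sc m * s.inv a) x0, ← hx] at k1
      have k2 : x * 1 ∉ s.sc m * s.inv b := by
        rw [hx, s.mul_mem_sc' x0]
        exact d3_not_mem a0 a1 m1 h1
      have k3 := s.XX_inj hB (d3_not_mem b0 b1 m1 h1) k2 k1
      rwa [mul_one] at k3
  rw [s.cl_eq]
  rcases key with k | k
  · refine ⟨x, x0, by rw [s.ip_L a0, s.ip_L b0, e], ?_⟩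
    rwa [ip_ρ, ip_ρ, s.ip_L b0, d3_idl, mul_one]
  · have e' : s.sc (-x) = s.sc x := by
      rw [sc, sc, ← Set.neg_singleton, Submodule.span_neg]
    refine ⟨-x, neg_ne_zero.2 x0, by rw [s.ip_L a0, s.ip_L b0, e', e], ?_⟩
    rwa [ip_ρ, ip_ρ, s.ip_L b0, d3_idl, mul_one, sub_neg_eq_add]

theorem Art.of_cl {σ : ℂ → ℂ} (hm : 0 < m) (h : s.Art m σ a) (hb : b ≠ ⊥)
    (e : s.cl (Ideal.span {(m : s.O)}) (s.ip a) = s.cl (Ideal.span {(m : s.O)}) (s.ip b)) :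
    s.Art m σ b := by
  have hu := h.unit hm (Ideal.mem_span_singleton_self _)
  rw [e, s.unit_cl (d3_span_ne hm), s.idOf_ip hb] at hu
  obtain ⟨a0, -, a2, a3⟩ := h
  have hN := s.Qn_mod le_rfl e
  rw [s.Qn_ip a0, s.Qn_ip hb] at hN
  obtain ⟨x, x0, h1, h2⟩ := s.cl_eq.1 e
  rw [s.ip_L a0, s.ip_L hb] at h1
  rw [ip_ρ, ip_ρ, s.ip_L hb, d3_idl, mul_one, mem_sc_mul] at h2
  obtain ⟨y, y1, y2⟩ := h2
  refine ⟨hb, hu, fun L hL => ?_, fun ζ hζ => ?_⟩
  · have e1 : L * s.inv b = s.sc x * (L * s.inv a) := by rw [h1, mul_left_comm]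
    have hA := hL.mul (s.isUnit_inv a0)
    have hB := hL.mul (s.isUnit_inv hb)
    refine ⟨(a2 L hL).1.trans ((s.j_eq hA hB).2 ⟨x, x0, e1⟩), fun z z1 z2 => ?_⟩
    rw [(a2 L hL).2 z z1 z2, ← d3_XX (L := L * s.inv a) x0, ← e1, XX, XX]
    congr 1
    refine (wp_congr (s.isLat_zl hB) ?_).symm
    have e2 : z - x * z = m * z * y := by linear_combination -z * y2
    rw [mem_zl, e2]
    exact Submodule.mul_mem_mul z1 y1
  · rw [a3 ζ hζ, pow_eq_pow_mod _ hζ, hN, ← pow_eq_pow_mod _ hζ]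

theorem frob_art (hC : s.IsC0 C) (hm : 0 < m) (F : IntermediateField s.k ℂ) [NumberField F]
    [IsGalois s.k F] (Q : Ideal (𝓞 F)) (hQ : Q.IsPrime) (h0 : Q ≠ ⊥) (h1 : (C : 𝓞 F) ∉ Q)
    (h2 : (m : 𝓞 F) ∉ Q) : ∃ σ : s.Au, s.Art m σ (Q.under s.O) ∧
      ∀ g : F ≃ₐ[s.k] F, (∀ x : F, ((g x : F) : ℂ) = σ x) → FrobAt g Q := by
  have : FiniteDimensional s.k F := Module.Finite.of_restrictScalars_finite ℚ s.k F
  obtain ⟨α, hα⟩ := Field.exists_primitive_element s.k F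
  obtain ⟨F', i1, i2, hF⟩ := s.exists_gal ((s.CM_finite hm).insert (α : ℂ)) (by
    rintro x (rfl | hx)
    · exact s.alg_of_mem F α.2
    · exact s.CM_alg hm hx)
  have hle : ∀ x : F, (x : ℂ) ∈ F' := fun x => by
    have k : IntermediateField.adjoin s.k {α} ≤ F'.comap F.val :=
      IntermediateField.adjoin_simple_le_iff.2 (hF _ (Set.mem_insert _ _))
    exact k (hα ▸ IntermediateField.mem_top)
  obtain ⟨V, hV⟩ := s.exists_val F Q hQ h0
  have hq : ∀ x, V.valuation (s.c x) < 1 ↔ x ∈ Q.under s.O := fun x => by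
    obtain ⟨y, -, hy⟩ := (s.under_mem F ⊤ x).1 trivial
    rw [s.under_mem F]
    refine ⟨fun h => ⟨y, (hV y).1 (hy ▸ h), hy⟩, ?_⟩
    rintro ⟨z, z1, z2⟩
    exact z2 ▸ (hV z).2 z1
  have q0 : Q.under s.O ≠ ⊥ := fun h => by
    have k1 : ((Ideal.absNorm Q : ℕ) : s.O) ∈ Q.under s.O := by
      rw [Ideal.mem_under, map_natCast]
      exact Ideal.absNorm_mem Q
    rw [h, Ideal.mem_bot, Nat.cast_eq_zero, Ideal.absNorm_eq_zero_iff] at k1
    exact h0 k1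
  obtain ⟨σ, hσ⟩ := s.frobOn F' V.valuation q0 hq
  refine ⟨σ, s.art_frob hC V (d3_val F hV h1) (d3_val F hV h2) inferInstance q0
    (fun x hx => (hq x).2 hx) σ fun x hx => hσ x (hF x (Set.mem_insert_of_mem _ hx)),
    fun g hg x y hy => (hV _).1 ?_⟩
  have k1 : IsIntegral ℤ ((x : F) : ℂ) := x.isIntegral_coe.map (F.val.toRingHom.toIntAlgHom)
  have k2 := hσ _ (hle x) (v_int V.valuation k1)
  rw [← hg, ← hy] at k2
  simpa using k2

theorem exists_art (hm : 0 < m) (σ : s.Au) : ∃ b, s.Art m σ b := by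
  obtain ⟨C, hC⟩ := s.exists_C0
  obtain ⟨F, i1, i2, hF⟩ := s.exists_gal (s.CM_finite hm) fun x hx => s.CM_alg hm hx
  have : NumberField F := NumberField.of_module_finite s.k F
  obtain ⟨ρ, -, hρ⟩ := s.exists_res F
  let M : Submonoid (F ≃ₐ[s.k] F) :=
    { carrier := {g | ∃ (τ : s.Au) (b : Ideal s.O), s.Art m τ b ∧ ρ τ = g}
      one_mem' := ⟨1, ⊤, s.art_one m, map_one ρ⟩
      mul_mem' := by
        rintro _ _ ⟨τ, b, h, rfl⟩ ⟨τ', b', h', rfl⟩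
        exact ⟨τ * τ', b * b', h.mul h', map_mul ρ _ _⟩ }
  let H : Subgroup (F ≃ₐ[s.k] F) :=
    { M with
      inv_mem' := fun {g} hg => by
        obtain ⟨n, hn⟩ : g⁻¹ ∈ Submonoid.powers g :=
          mem_powers_iff_mem_zpowers.2 (inv_mem (Subgroup.mem_zpowers g))
        exact hn ▸ M.pow_mem hg n }
  have hH : H = ⊤ := dens H (mul_ne_zero hC.1 hm.ne') fun Q hQ h0 h1 => by
    rw [Nat.cast_mul] at h1
    obtain ⟨τ, t1, t2⟩ := frob_art hC hm F Q hQ h0 (fun h => h1 (Q.mul_mem_right _ h))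
      fun h => h1 (Q.mul_mem_left _ h)
    exact ⟨ρ τ, ⟨τ, _, t1, rfl⟩, t2 _ (hρ τ)⟩
  obtain ⟨τ, b, h, e⟩ : ρ σ ∈ H := hH ▸ Subgroup.mem_top _
  exact ⟨b, h.congr fun x hx => by rw [← hρ σ ⟨x, hF x hx⟩, ← e, hρ τ]⟩

theorem art_surj (hm : 0 < m) (hb : b ≠ ⊥) (h : IsCoprime b (Ideal.span {(m : s.O)})) :
    ∃ σ : s.Au, s.Art m σ b := by
  obtain ⟨C, hC⟩ := s.exists_C0
  obtain ⟨F, i1, i2, -⟩ := s.exists_gal Set.finite_empty fun _ hx => hx.elim
  have : NumberField F := NumberField.of_module_finite s.k F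
  have key : ∀ a : Ideal s.O, a ≠ ⊥ →
      IsCoprime a (Ideal.span {(m : s.O)} * Ideal.span {(C : s.O)}) → ∃ σ : s.Au, s.Art m σ a := by
    intro a
    induction a using UniqueFactorizationMonoid.induction_on_prime with
    | h₁ => exact fun h => (h rfl).elim
    | h₂ a ha =>
      rw [Ideal.isUnit_iff.1 ha]
      exact fun _ _ => ⟨1, s.art_one m⟩
    | h₃ a p a0 hp ih =>
      intro _ hc
      obtain ⟨τ, hτ⟩ := ih a0 hc.of_mul_left_right
      have p1 : p.IsPrime := Ideal.isPrime_of_prime hp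
      have p2 : p.IsMaximal := p1.isMaximal hp.ne_zero
      obtain ⟨Q, q1, q2⟩ := Ideal.exists_maximal_ideal_liesOver_of_isIntegral (S := 𝓞 F) p
      have e : Q.under s.O = p := q2.over.symm
      have hn : ∀ n : ℕ, IsCoprime p (Ideal.span {(n : s.O)}) → (n : 𝓞 F) ∉ Q := fun n hn h' => by
        have k : (n : s.O) ∈ p := by rwa [← e, Ideal.mem_under, map_natCast]
        rw [Ideal.isCoprime_iff_sup_eq,
          sup_eq_left.2 ((Ideal.span_singleton_le_iff_mem _).2 k)] at hn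
        exact p1.ne_top hn
      obtain ⟨σ, hσ, -⟩ := frob_art hC hm F Q q1.isPrime
        (Ideal.ne_bot_of_liesOver_of_ne_bot hp.ne_zero Q)
        (hn C hc.of_mul_left_left.of_mul_right_right) (hn m hc.of_mul_left_left.of_mul_right_left)
      exact ⟨σ * τ, e ▸ hσ.mul hτ⟩
  have hu : IsUnit (s.cl (Ideal.span {(m : s.O)}) (s.ip b)) := by
    rwa [s.unit_cl (d3_span_ne hm), s.idOf_ip hb]
  obtain ⟨a, a0, a1, a2⟩ := s.exists_rep (d3_span_ne hm) hu (d3_span_ne (Nat.pos_of_ne_zero hC.1))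
  obtain ⟨σ, hσ⟩ := key a a0 a1
  exact ⟨σ, hσ.of_cl hm hb a2⟩

theorem exists_artHom (s : St) (hm : 0 < m) :
    ∃ A : s.Au →* (s.Pr (Ideal.span {(m : s.O)}))ˣ, Function.Surjective A ∧
      ∀ (σ : s.Au) (b : Ideal s.O), s.Art m σ b ↔
        b ≠ ⊥ ∧ (A σ : s.Pr (Ideal.span {(m : s.O)})) = s.cl _ (s.ip b) := by
  choose f hf using fun σ : s.Au => exists_art hm σ
  have hu := fun σ => (hf σ).unit hm (Ideal.mem_span_singleton_self _)
  refine ⟨MonoidHom.mk' (fun σ => (hu σ).unit) fun σ τ => Units.ext ?_, fun u => ?_,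
    fun σ b => ⟨fun h => ⟨h.1, (hf σ).cl_eq hm h⟩, fun h => (hf σ).of_cl hm h.1 h.2⟩⟩
  · rw [Units.val_mul, IsUnit.unit_spec, IsUnit.unit_spec, IsUnit.unit_spec, ← map_mul,
      ← s.ip_mul (hf σ).1 (hf τ).1]
    exact (hf _).cl_eq hm ((hf σ).mul (hf τ))
  · obtain ⟨b, b0, b1, b2⟩ := s.exists_rep (d3_span_ne hm) (s.unit_out u) top_ne_bot
    obtain ⟨σ, hσ⟩ := art_surj hm b0 b1.of_mul_right_left
    exact ⟨σ, Units.ext (((hf σ).cl_eq hm hσ).trans (b2.trans (s.cl_out _)))⟩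

theorem alg_of_art (hm : 0 < m) {x : ℂ} (h : ∀ σ : s.Au, s.Art m σ ⊤ → σ x = x) :
    IsAlgebraic ℚ x := by
  obtain ⟨F, i1, i2, hF⟩ := s.exists_gal (s.CM_finite hm) fun x hx => s.CM_alg hm hx
  exact s.alg_of_mem F (s.mem_of_fixed F fun σ hσ =>
    h σ ((s.art_one m).congr fun y hy => hσ y (hF y hy)))

end St

end Pool.Agent.P.MP_20768c_nt.Az.Cu

end

-- part Cu.U0_p
section

set_option autoImplicit false

open Complex NumberField IsDedekindDomain Filter Topology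
open UpperHalfPlane hiding I
open scoped ComplexConjugate Real MatrixGroups

namespace Pool.Agent.P.MP_20768c_nt.Az.Cu

open Pool.Agent.P.MP_20768c_nt.Az.EQ (Lt pr sp IsLat jL qN)

namespace St

variable {s : St} {f : Ideal s.O} {c n : ℕ} {p : s.Pair} {sb : (ZMod (2 ^ n))ˣ → s.Au}
  {κ : (ZMod (2 ^ n))ˣ →* (s.Pr (s.md f n))ˣ}

theorem u0p_abs {M A B : Type} [CommMonoid M] [Monoid A] [CommMonoid B] (π' : M →* A) (ν : M →* B)
    (hk : ∀ C, π' C = 1 → ν C = 1 → C = 1) {x : M} (u : Mˣ) (h1 : π' x = π' u) (h2 : ν x = ν u) :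
    x = u := by
  rw [← Units.mul_inv_eq_one]
  refine hk _ ?_ ?_
  · rw [map_mul, h1, ← map_mul, Units.mul_inv, map_one]
  · rw [map_mul, h2, ← map_mul, Units.mul_inv, map_one]

theorem u0p_sec {M A B : Type} [CommMonoid M] [Monoid A] [CommMonoid B] (π' : M →* A) (ν : M →* B)
    (hk : ∀ C, π' C = 1 → ν C = 1 → C = 1) (hex : ∀ b, ∃ C, π' C = 1 ∧ ν C = b) :
    ∃ κ : Bˣ →* Mˣ, ∀ b, π' (κ b) = 1 ∧ ν (κ b) = b := by
  choose C h1 h2 using hex
  have hi : ∀ b : Bˣ, C b * C (b⁻¹ : Bˣ) = 1 := fun b =>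
    hk _ (by rw [map_mul, h1, h1, one_mul]) (by rw [map_mul, h2, h2, Units.mul_inv])
  let k : Bˣ → Mˣ := fun b => Units.mkOfMulEqOne _ _ (hi b)
  have hv : ∀ b, (k b : M) = C b := fun _ => rfl
  refine ⟨⟨⟨k, Units.ext (hk _ (h1 _) (h2 _))⟩, fun a b => Units.ext ?_⟩, fun b => ⟨h1 _, h2 _⟩⟩
  refine u0p_abs π' ν hk _ ?_ ?_
  · rw [Units.val_mul, map_mul, hv, hv, hv, h1, h1, h1, one_mul]
  · rw [Units.val_mul, map_mul, hv, hv, hv, h2, h2, h2, Units.val_mul]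

theorem u0p_dvd {N : ℕ} {z : ℤ} (h : (z : s.O) ∈ Ideal.span {(N : s.O)}) : (N : ℤ) ∣ z := by
  obtain ⟨y, hy⟩ := Ideal.mem_span_singleton'.1 h
  obtain ⟨a, b, rfl⟩ := s.span y
  have := s.indep (a := a * N - z) (b := b * N) (by push_cast; linear_combination hy)
  exact ⟨a, by linarith [this.1]⟩

theorem u0p_conj : ∃ e : s.O ≃+* s.O, (∀ j, ∀ x ∈ s.p1 ^ j, e x ∈ s.p2 ^ j) ∧
    (∀ j, ∀ x ∈ s.p2 ^ j, e x ∈ s.p1 ^ j) ∧
    ∀ x, ((Ideal.absNorm (Ideal.span {x}) : ℕ) : s.O) = x * e x := by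
  obtain ⟨e, e1, e2⟩ := s.exists_conj
  have k : ∀ {a b : Ideal s.O}, Ideal.map e a ≤ b → ∀ j, ∀ x ∈ a ^ j, e x ∈ b ^ j := by
    intro a b h j x hx
    have := Ideal.mem_map_of_mem e hx
    rw [Ideal.map_pow] at this
    exact Ideal.pow_right_mono h j this
  refine ⟨e, k ?_, k ?_, fun x => s.c_inj ?_⟩
  · rw [p1, p2, Ideal.map_span, Set.image_pair, map_ofNat, e1]
  · rw [p1, p2, Ideal.map_span, Set.image_pair, map_ofNat, map_sub, map_one, e1, sub_sub_cancel]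
  · rw [c_nat, c_mul, e2, Complex.mul_conj, Complex.normSq_eq_norm_sq, ← s.norm_c]
    norm_cast

theorem u0p_cop (hf : Odd (Ideal.absNorm f)) : IsCoprime (f * s.p2 ^ n) s.p1 := by
  have h := s.odd_iff.1 hf
  rw [← s.p1_mul_p2] at h
  exact h.of_mul_right_left.mul_left s.cop12.symm.pow_left

theorem u0p_two (n : ℕ) : s.p1 ^ n * s.p2 ^ n = Ideal.span {((2 ^ n : ℕ) : s.O)} := by
  rw [← mul_pow, s.p1_mul_p2, Ideal.span_singleton_pow]
  push_cast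
  rfl

theorem u0p_md : f * s.p2 ^ n * s.p1 ^ n = s.md f n := by
  rw [mul_assoc, mul_comm (s.p2 ^ n), u0p_two, md]
  push_cast
  rfl

theorem u0p_ker (hf : Odd (Ideal.absNorm f)) (h1 : s.cl (f * s.p2 ^ n) p = 1)
    (h2 : (s.Qn p : ZMod (2 ^ n)) = 1) : s.cl (s.md f n) p = 1 := by
  obtain ⟨β, hβ, e⟩ := s.ker_proj (s.md f n) h1
  obtain ⟨ν, hν⟩ := s.exists_nm (s.md_le f n).2.1
  rw [← hν, e, hν, Qn_np, ← Nat.cast_one (R := ZMod (2 ^ n)), ZMod.natCast_eq_natCast_iff] at h2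
  obtain ⟨τ, -, t2, t3⟩ := u0p_conj (s := s)
  have a1 : τ β - 1 ∈ s.p1 ^ n := by
    simpa using t2 n _ (Ideal.mul_le_right hβ)
  have a2 : 1 - β * τ β ∈ s.p1 ^ n := by
    obtain ⟨y, hy⟩ := h2.dvd
    have hy' := congrArg (Int.cast : ℤ → s.O) hy
    push_cast at hy'
    rw [← t3, hy']
    refine Ideal.mul_mem_right _ _ (Ideal.mul_le_left (J := s.p2 ^ n) ?_)
    rw [u0p_two]
    exact Ideal.mem_span_singleton.2 ⟨1, by push_cast; ring⟩
  have a3 : β - 1 ∈ s.p1 ^ n := by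
    have := neg_mem (add_mem (Ideal.mul_mem_left _ β a1) a2)
    rwa [show -(β * (τ β - 1) + (1 - β * τ β)) = β - 1 by ring] at this
  rw [e, cl_np_eq_one, ← u0p_md, Ideal.mul_eq_inf_of_isCoprime (u0p_cop hf).pow_right]
  exact Or.inl ⟨hβ, a3⟩

theorem u0p_ex (hf : Odd (Ideal.absNorm f)) (j : ℕ) : ∃ β : s.O,
    s.cl (f * s.p2 ^ n) (s.np β) = 1 ∧ (s.Qn (s.np β) : ZMod (2 ^ n)) = j := by
  obtain ⟨y, hy, x, hx, e⟩ := Ideal.isCoprime_iff_exists.1 ((u0p_cop (n := n) hf).pow_right (n := n))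
  have b1 : j * y + x - 1 ∈ f * s.p2 ^ n := by
    rw [show j * y + x - 1 = (j - 1) * y by linear_combination e]
    exact Ideal.mul_mem_left _ _ hy
  have b2 : j * y + x - j ∈ s.p1 ^ n := by
    rw [show j * y + x - j = (1 - j) * x by linear_combination (j : s.O) * e]
    exact Ideal.mul_mem_left _ _ hx
  generalize j * y + x = β at b1 b2
  refine ⟨β, s.cl_np_eq_one.2 (Or.inl b1), ?_⟩
  obtain ⟨τ, t1, t2, t3⟩ := u0p_conj (s := s)
  have b3 : β - 1 ∈ s.p2 ^ n := Ideal.mul_le_right b1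
  have a1 : τ β - 1 ∈ s.p1 ^ n := by simpa using t2 n _ b3
  have a2 : τ β - j ∈ s.p2 ^ n := by simpa using t1 n _ b2
  have a3 : j - β * τ β ∈ s.p1 ^ n * s.p2 ^ n := by
    rw [Ideal.mul_eq_inf_of_isCoprime s.cop12.pow]
    constructor
    · have := neg_mem (add_mem (Ideal.mul_mem_left _ β a1) b2)
      rwa [show -(β * (τ β - 1) + (β - j)) = j - β * τ β by ring] at this
    · have := neg_mem (add_mem (Ideal.mul_mem_left _ (τ β) b3) a2)
      rwa [show -(τ β * (β - 1) + (τ β - j)) = j - β * τ β by ring] at this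
  rw [u0p_two, ← t3] at a3
  rw [Qn_np, ZMod.natCast_eq_natCast_iff, Nat.modEq_iff_dvd]
  exact u0p_dvd (s := s) (by simpa only [Int.cast_sub, Int.cast_natCast] using a3)

theorem u0p_maps (hf : Odd (Ideal.absNorm f)) (n : ℕ) :
    ∃ (π' : s.Pr (s.md f n) →* s.Pr (f * s.p2 ^ n)) (ν : s.Pr (s.md f n) →* ZMod (2 ^ n)),
      (∀ p, π' (s.cl _ p) = s.cl _ p) ∧ (∀ p, ν (s.cl _ p) = s.Qn p) ∧
      ∀ C, π' C = 1 → ν C = 1 → C = 1 := by
  obtain ⟨π', h1⟩ := s.exists_proj (s.md_le f n).2.2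
  obtain ⟨ν, h2⟩ := s.exists_nm (s.md_le f n).2.1
  refine ⟨π', ν, h1, h2, fun C a b => ?_⟩
  rw [← s.cl_out C] at a b ⊢
  exact u0p_ker hf (h1 _ ▸ a) (h2 _ ▸ b)

theorem kap_unique (hf : Odd (Ideal.absNorm f)) {q : s.Pair} (hp : IsUnit (s.cl (s.md f n) p))
    (hq : IsUnit (s.cl (s.md f n) q)) (h1 : s.cl (f * s.p2 ^ n) p = s.cl (f * s.p2 ^ n) q)
    (h2 : (s.Qn p : ZMod (2 ^ n)) = s.Qn q) : s.cl (s.md f n) p = s.cl (s.md f n) q := by
  obtain ⟨π', ν, k1, k2, k3⟩ := u0p_maps hf n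
  exact u0p_abs π' ν k3 hq.unit (by rw [hq.unit_spec, k1, k1, h1]) (by rw [hq.unit_spec, k2, k2, h2])

theorem exists_kap (hf : Odd (Ideal.absNorm f)) (n : ℕ) : ∃ κ, s.Kap f n κ := by
  obtain ⟨π', ν, k1, k2, k3⟩ := u0p_maps hf n
  obtain ⟨κ, hκ⟩ := u0p_sec π' ν k3 fun b => by
    obtain ⟨β, a1, a2⟩ := u0p_ex (n := n) hf b.val
    exact ⟨s.cl _ (s.np β), by rw [k1, a1], by rw [k2, a2, ZMod.natCast_zmod_val]⟩
  refine ⟨κ, fun b => by rw [← k2, cl_out, (hκ b).2], fun b => by rw [← k1, cl_out, (hκ b).1],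
    fun m σ a b hm hmem hA hI hz => u0p_abs π' ν k3 _ ?_ ?_⟩
  · rw [k1, (hκ b).1]
    refine s.art_inert2 hm hA hI ((s.md_le f n).2.2 hmem) fun h => s.p1_max.ne_top ?_
    have := Ideal.isCoprime_iff_sup_eq.1 (u0p_cop (n := n) hf)
    rwa [sup_eq_right.2 h] at this
  · obtain ⟨y, hy⟩ : 2 ^ n ∣ m := Int.natCast_dvd_natCast.1
      (u0p_dvd (s := s) (by simpa only [Int.cast_natCast] using (s.md_le f n).2.1 hmem))
    have h1 := hA.2.2.2 (zt n) (by rw [hy, pow_mul, zt_pow, one_pow])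
    have h2 : IsPrimitiveRoot (zt n) (2 ^ n) := by
      simpa [zt] using Complex.isPrimitiveRoot_exp (2 ^ n) (by positivity)
    rw [hz, (h2.isOfFinOrder (by positivity)).pow_eq_pow_iff_modEq, ← h2.eq_orderOf,
      ← ZMod.natCast_eq_natCast_iff, ZMod.natCast_zmod_val] at h1
    rw [k2, (hκ b).2, s.Qn_ip hA.1, h1]

theorem kap_cl (hκ : s.Kap f n κ) (C : (s.Pr (s.md f n))ˣ) (b : (ZMod (2 ^ n))ˣ) :
    s.cl (f * s.p2 ^ n) (s.out (C * κ b).1) = s.cl (f * s.p2 ^ n) (s.out C.1) ∧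
      (s.Qn (s.out (C * κ b).1) : ZMod (2 ^ n)) = s.Qn (s.out C.1) * b := by
  obtain ⟨π', h1⟩ := s.exists_proj (s.md_le f n).2.2
  obtain ⟨ν, h2⟩ := s.exists_nm (s.md_le f n).2.1
  have a := hκ.1 b
  have a' := hκ.2.1 b
  rw [← h2, cl_out] at a
  rw [← h1, cl_out] at a'
  constructor
  · rw [← h1, ← h1, cl_out, cl_out, Units.val_mul, map_mul, a', mul_one]
  · rw [← h2, ← h2, cl_out, cl_out, Units.val_mul, map_mul, a]

theorem kap_sum {A : Type} [AddCommMonoid A] (hf : f ≠ ⊥) (hκ : s.Kap f n κ)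
    (b₀ : (ZMod (2 ^ n))ˣ) (Φ : (s.Pr (s.md f n))ˣ → A) : ∑ᶠ C, Φ C =
      ∑ᶠ C ∈ {C : (s.Pr (s.md f n))ˣ | (s.Qn (s.out C.1) : ZMod (2 ^ n)) = b₀}, ∑ b, Φ (C * κ b) := by
  classical
  have := s.finite_Pr (s.md_ne hf n)
  have := Fintype.ofFinite (s.Pr (s.md f n))ˣ
  obtain ⟨ν, h2⟩ := s.exists_nm (s.md_le f n).2.1
  have a : ∀ b, Units.map ν (κ b) = b := fun b => Units.ext (by
    have := hκ.1 b
    rwa [← h2, cl_out] at this)
  have e : {C : (s.Pr (s.md f n))ˣ | (s.Qn (s.out C.1) : ZMod (2 ^ n)) = b₀} =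
      ↑(Finset.univ.filter fun C : (s.Pr (s.md f n))ˣ => Units.map ν C = b₀) := by
    ext C
    rw [Set.mem_ofPred_eq, ← h2, cl_out, Finset.coe_filter, Set.mem_ofPred_eq, Units.ext_iff]
    simp
  rw [e, finsum_mem_coe_finset, finsum_eq_sum_of_fintype, ← Finset.sum_product']
  refine (Finset.sum_nbij' (fun x => x.1 * κ x.2)
    (fun C => (C * (κ (Units.map ν C * b₀⁻¹))⁻¹, Units.map ν C * b₀⁻¹)) (by simp) ?_ ?_ ?_
    fun _ _ => rfl).symm
  · intro C _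
    simp only [Finset.mem_product, Finset.mem_filter, Finset.mem_univ, true_and, and_true, map_mul,
      map_inv, a]
    rw [mul_inv_rev, inv_inv, mul_mul_inv_cancel'_right]
  · rintro ⟨C, b⟩ h
    simp only [Finset.mem_product, Finset.mem_filter, Finset.mem_univ, true_and, and_true] at h
    have k : Units.map ν (C * κ b) * b₀⁻¹ = b := by
      rw [map_mul, h, a, mul_inv_cancel_comm]
    simp only [k, mul_inv_cancel_right]
  · intro C _
    simp only [inv_mul_cancel_right]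

end St

end Pool.Agent.P.MP_20768c_nt.Az.Cu

end

-- part Cu.J1
section

set_option autoImplicit false

open Complex NumberField IsDedekindDomain Filter Topology
open UpperHalfPlane hiding I
open scoped ComplexConjugate Real MatrixGroups

namespace Pool.Agent.P.MP_20768c_nt.Az.Cu

open Pool.Agent.P.MP_20768c_nt.Az.EQ (Lt pr sp IsLat jL qN)

theorem j1_ext {A B C : Type} [CommGroup A] [CommGroup B] [CommGroup C]
    (hC : ∀ n : ℕ, n ≠ 0 → ∀ c : C, ∃ y, y ^ n = c) (i : A →* B) (hi : Function.Injective i)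
    (g : A →* C) : ∃ h : B →* C, ∀ a, h (i a) = g a := by
  let _ : DivisibleBy (Additive C) ℕ := divisibleByOfSMulRightSurj _ _ fun {n} hn c =>
    let ⟨y, hy⟩ := hC n hn c.toMul
    ⟨Additive.ofMul y, congrArg Additive.ofMul hy⟩
  let _ : DivisibleBy (Additive C) ℤ := AddGroup.divisibleByIntOfDivisibleByNat _
  obtain ⟨h, hh⟩ := (Module.Baer.of_divisible (Additive C)).extension_property_addMonoidHom
    (MonoidHom.toAdditive i) hi (MonoidHom.toAdditive g)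
  exact ⟨MonoidHom.toAdditive.symm h, fun a => DFunLike.congr_fun hh (Additive.ofMul a)⟩

theorem j1_abs {M Q A : Type} [CommMonoid M] [CommMonoid Q] [CommGroup A] (U : Subgroup A)
    (hU : ∀ n : ℕ, n ≠ 0 → ∀ c : U, ∃ y, y ^ n = c) (o : M → A) (h1 : o 1 = 1)
    (hm : ∀ p q, o (p * q) / (o p * o q) ∈ U) (c : M →* Q)
    (hc : ∀ p q r, c p = c q → o (q * r) / o (p * r) = o q / o p) :
    ∃ ψ : M →* A, (∀ p, ψ p / o p ∈ U) ∧ ∀ p q, c p = c q → ψ q / ψ p = o q / o p := by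
  obtain ⟨ρ, hρ⟩ := j1_ext hU U.subtype U.subtype_injective (MonoidHom.id U)
  let γ : M →* Algebra.GrothendieckGroup M := Algebra.GrothendieckGroup.of
  let R : Subgroup (Algebra.GrothendieckGroup M × A) :=
    { carrier := {z | ∃ p q, c p = c q ∧ z = (γ q / γ p, o q / o p)}
      one_mem' := ⟨1, 1, rfl, Prod.ext (div_self' _).symm (div_self' _).symm⟩
      mul_mem' := by
        rintro _ _ ⟨p, q, e, rfl⟩ ⟨p', q', e', rfl⟩
        refine ⟨p * p', q * q', by rw [map_mul, map_mul, e, e'], Prod.ext ?_ ?_⟩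
        · simp only [Prod.fst_mul, map_mul, mul_div_mul_comm]
        · show o q / o p * (o q' / o p') = o (q * q') / o (p * p')
          rw [← hc p q p' e, ← hc p' q' q e', mul_comm q' q, mul_comm p' q, mul_comm,
            div_mul_div_cancel]
      inv_mem' := by
        rintro _ ⟨p, q, e, rfl⟩
        exact ⟨q, p, e.symm, by simp⟩ }
  have hi : Function.Injective ((MonoidHom.fst _ _).comp R.subtype) := by
    refine (injective_iff_map_eq_one _).2 ?_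
    rintro ⟨_, p, q, e, rfl⟩ h
    have h2 : γ q = γ p := div_eq_one.1 h
    obtain ⟨r, hr⟩ := ((Localization.monoidOf (⊤ : Submonoid M)).eq_iff_exists).1 h2
    have h3 := hc p q r e
    rw [mul_comm q, mul_comm p, hr, div_self'] at h3
    exact Subtype.ext (Prod.ext h h3.symm)
  obtain ⟨φ, hφ⟩ := j1_ext hU _ hi (ρ.comp ((MonoidHom.snd _ _).comp R.subtype))
  have e1 : ∀ p q, (ρ (o (p * q)) : A) = o (p * q) / (o p * o q) * (ρ (o p) * ρ (o q)) := by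
    intro p q
    have := congrArg Subtype.val (hρ ⟨_, hm p q⟩)
    rw [← Subgroup.coe_mul, ← map_mul]
    exact (congrArg (fun x => (ρ x : A)) (div_mul_cancel _ _).symm).trans (by
      rw [map_mul, Subgroup.coe_mul]
      exact congrArg (· * _) this)
  refine ⟨⟨⟨fun p => o p / ρ (o p) * φ (γ p), by simp [h1]⟩, fun p q => ?_⟩, fun p => ?_,
    fun p q e => ?_⟩
  · show o (p * q) / ρ (o (p * q)) * φ (γ (p * q)) =
      o p / ρ (o p) * φ (γ p) * (o q / ρ (o q) * φ (γ q))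
    rw [e1, map_mul, map_mul, Subgroup.coe_mul]
    refine Additive.ofMul.injective ?_
    simp only [ofMul_mul, ofMul_div]
    abel
  · show o p / ρ (o p) * φ (γ p) / o p ∈ U
    have e : o p / ρ (o p) * φ (γ p) / o p = φ (γ p) / ρ (o p) := by
      refine Additive.ofMul.injective ?_
      simp only [ofMul_mul, ofMul_div]
      abel
    rw [e]
    exact div_mem (φ _).2 (ρ _).2
  · have h : φ (γ q / γ p) = ρ (o q / o p) := hφ ⟨_, p, q, e, rfl⟩
    have h' := congrArg Subtype.val h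
    rw [map_div, map_div, Subgroup.coe_div, Subgroup.coe_div, div_eq_iff_eq_mul] at h'
    show o q / ρ (o q) * φ (γ q) / (o p / ρ (o p) * φ (γ p)) = _
    rw [h']
    refine Additive.ofMul.injective ?_
    simp only [ofMul_mul, ofMul_div]
    abel

/-- the one-units -/
def j1U (v : Valuation ℂ NNReal) : Subgroup ℂˣ where
  carrier := {u | v (u - 1) < 1}
  one_mem' := by simp
  mul_mem' := fun {a b} (ha : v (a - 1) < 1) (hb : v (b - 1) < 1) => by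
    have h : v a = 1 := by simpa using v.map_one_add_of_lt ha
    show v (a * b - 1) < 1
    rw [show (a : ℂ) * b - 1 = a * (b - 1) + (a - 1) by ring]
    exact v.map_add_lt (by rwa [map_mul, h, one_mul]) ha
  inv_mem' := fun {a} (ha : v (a - 1) < 1) => by
    have h : v a = 1 := by simpa using v.map_one_add_of_lt ha
    show v ((a⁻¹ : ℂˣ) - 1) < 1
    rw [← one_mul (v _), ← h, ← map_mul, mul_sub, Units.mul_inv, mul_one, v.map_sub_swap, h]
    exact ha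

namespace St

variable {s : St} {f : Ideal s.O} {ω : s.Pair → ℂ}

theorem exists_psi (hf : Odd (Ideal.absNorm f)) : ∃ ψ : s.Pair → ℂ, s.Eig f ψ ∧ ψ 1 = 1 ∧
    ∀ p, IsUnit (s.cl (s.lv f) p) → s.v (ψ p * s.oms f 1 / s.oms f p - 1) < 1 := by
  classical
  let M : Submonoid s.Pair := (IsUnit.submonoid _).comap (s.cl (s.lv f))
  obtain ⟨⟨w1, w2⟩, w3⟩ := s.oms_wt hf
  have h0 : ∀ p : M, s.oms f p ≠ 0 := fun p => s.oms_ne hf p.2
  have h1 : s.oms f 1 ≠ 0 := h0 1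
  let o : M → ℂˣ := fun p => Units.mk0 (s.oms f p / s.oms f 1) (div_ne_zero (h0 p) h1)
  have ho : ∀ (x : ℂ) (p q : M), s.Sim (s.lv f) x p q → ((o q / o p : ℂˣ) : ℂ) = x := by
    intro x p q h
    have := h0 p
    simp only [o, Units.val_div_eq_div_val, Units.val_mk0, w1 x _ _ h]
    field_simp
  obtain ⟨ψ, a1, a2⟩ := j1_abs (j1U s.v) (fun n hn c => by
      obtain ⟨y, hy, hv⟩ := one_unit_root s.v_two c.2 (Nat.pos_of_ne_zero hn)
      have hy0 : y ≠ 0 := fun e => c.1.ne_zero (by rw [← hy, e, zero_pow hn])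
      exact ⟨⟨Units.mk0 y hy0, hv⟩, Subtype.ext (Units.ext hy)⟩) o
    (Units.ext (div_self h1)) (fun p q => by
      have e : ((o (p * q) / (o p * o q) : ℂˣ) : ℂ) =
          s.oms f (p * q) * s.oms f 1 / (s.oms f p * s.oms f q) := by
        have := h0 p
        have := h0 q
        simp only [o, Units.val_div_eq_div_val, Units.val_mul, Units.val_mk0, Submonoid.coe_mul]
        field_simp
      show s.v (_ - 1) < 1
      rw [e]
      exact s.oms_mul hf p.2 q.2) ((s.cl (s.lv f)).comp M.subtype) fun p q r e => by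
      obtain ⟨x, hx⟩ := s.cl_eq.1 e
      exact Units.ext ((ho x (p * r) (q * r) (hx.mul r)).trans (ho x p q hx).symm)
  obtain ⟨Ψ, e1, e0⟩ : ∃ Ψ : s.Pair → ℂ, (∀ p (h : p ∈ M), Ψ p = ψ ⟨p, h⟩) ∧
      ∀ p, ¬ IsUnit (s.cl (s.lv f) p) → Ψ p = 0 :=
    ⟨fun p => if h : p ∈ M then ψ ⟨p, h⟩ else 0, fun p h => dif_pos h, fun p h => dif_neg h⟩
  have e2 : Ψ 1 = 1 := (e1 1 M.one_mem).trans (congrArg Units.val ψ.map_one)
  refine ⟨Ψ, ⟨⟨fun x p q h => ?_, fun p h => e0 p fun h' => s.oms_ne hf h' (w2 p h)⟩, e0,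
    e2 ▸ one_ne_zero, fun p q => ?_⟩, e2, fun p h => ?_⟩
  · have e := s.cl_eq.2 ⟨x, h⟩
    by_cases hp : IsUnit (s.cl (s.lv f) p)
    · have hq : IsUnit (s.cl (s.lv f) q) := e ▸ hp
      have h4 := (congrArg Units.val (a2 ⟨p, hp⟩ ⟨q, hq⟩ e)).trans (ho x ⟨p, hp⟩ ⟨q, hq⟩ h)
      rw [e1 p hp, e1 q hq, ← h4, ← Units.val_mul, div_mul_cancel]
    · rw [e0 p hp, e0 q (e ▸ hp), mul_zero]
  · rw [e2, mul_one]
    by_cases hp : IsUnit (s.cl (s.lv f) p)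
    · by_cases hq : IsUnit (s.cl (s.lv f) q)
      · rw [e1 p hp, e1 q hq, e1 _ (M.mul_mem hp hq)]
        exact congrArg Units.val (ψ.map_mul ⟨p, hp⟩ ⟨q, hq⟩)
      · rw [e0 q hq, mul_zero]
        refine e0 _ fun h => hq ?_
        rw [map_mul] at h
        exact isUnit_of_mul_isUnit_right h
    · rw [e0 p hp, zero_mul]
      refine e0 _ fun h => hp ?_
      rw [map_mul] at h
      exact isUnit_of_mul_isUnit_left h
  · have h3 : s.v (((ψ ⟨p, h⟩ / o ⟨p, h⟩ : ℂˣ) : ℂ) - 1) < 1 := a1 ⟨p, h⟩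
    rw [Units.val_div_eq_div_val, Units.val_mk0, div_div_eq_mul_div] at h3
    rw [e1 p h]
    exact h3

theorem exists_eig (hf : Odd (Ideal.absNorm f)) (χ : MulChar (s.Pr f) ℂ) :
    ∃ g : s.Pair → ℂ, s.Inv (s.lv f) g ∧ s.Eig f (fun p => g p * s.oms f p) ∧ g 1 = 1 ∧
      ∀ p, IsUnit (s.cl (s.lv f) p) → s.v (g p) ≤ 1 ∧ s.v (g p - χ (s.cl f p)) < 1 := by
  obtain ⟨ψ, ⟨⟨w1, w2⟩, w3, -, w4⟩, w5, w6⟩ := exists_psi hf
  have h1 : s.oms f 1 ≠ 0 := s.oms_ne hf (by rw [map_one]; exact isUnit_one)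
  have hc : ∀ x p q, s.Sim (s.lv f) x p q → s.cl f q = s.cl f p := fun x p q h =>
    (s.cl_eq.2 ⟨x, h.mono (s.lv_le f).1⟩).symm
  have e : (fun p => χ (s.cl f p) * (ψ p * s.oms f 1 / s.oms f p) * s.oms f p) =
      fun p => χ (s.cl f p) * ψ p * s.oms f 1 := funext fun p => by
    by_cases hp : IsUnit (s.cl (s.lv f) p)
    · rw [mul_assoc, div_mul_cancel₀ _ (s.oms_ne hf hp), mul_assoc]
    · simp [w3 p hp]
  refine ⟨fun p => χ (s.cl f p) * (ψ p * s.oms f 1 / s.oms f p), fun x p q h => ?_, ?_,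
    by simp [w5, h1], fun p hp => ?_⟩
  · show χ _ * _ = χ _ * _
    rw [hc x p q h, w1 x p q h, (s.oms_wt hf).1.1 x p q h, mul_assoc x, mul_div_mul_left _ _ h.1]
  · rw [e]
    refine ⟨⟨fun x p q h => ?_, fun p h => by simp [w2 p h]⟩, fun p h => by simp [w3 p h],
      by simp [w5, h1], fun p q => ?_⟩
    · show χ _ * _ * _ = x * (χ _ * _ * _)
      rw [hc x p q h, w1 x p q h]
      ring
    · have h2 := w4 p q
      rw [w5, mul_one] at h2
      simp only [map_mul, map_one, h2, w5]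
      ring
  · have h2 := w6 p hp
    have h3 := v_chi (s.odd_ne hf) χ p
    have h4 : s.v (ψ p * s.oms f 1 / s.oms f p) = 1 := by simpa using s.v.map_one_add_of_lt h2
    refine ⟨by rwa [map_mul, h4, mul_one], ?_⟩
    rw [← mul_sub_one, map_mul]
    exact mul_lt_one_of_nonneg_of_lt_one_right h3 zero_le h2

end St

end Pool.Agent.P.MP_20768c_nt.Az.Cu

end
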