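import Pool.Agent.P.MP_20768c_nt.Az.Z3
import Pool.Agent.P.MP_20768c_nt.Az.Z4
import Pool.Agent.P.MP_20768c_nt.Az.Z5
import Pool.Agent.P.MP_20768c_nt.Az.Z8
import Pool.Agent.P.MP_20768c_nt.Az.Z10
import Pool.Agent.P.MP_20768c_nt.Az.Z11
import Pool.Agent.P.MP_20768c_nt.Az.Z12
import Pool.Agent.P.MP_20768c_nt.Az.Z13

-- part Ab.F4
section

set_option autoImplicit false

open Complex NumberField IsDedekindDomain Filter Topology
open UpperHalfPlane hiding I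
open scoped ComplexConjugate Real MatrixGroups

namespace Pool.Agent.P.MP_20768c_nt.Az.Cu

open Pool.Agent.P.MP_20768c_nt.Az.EQ (Lt pr sp IsLat jL qN)

namespace St

variable (s : St) {f : Ideal s.O} {n r : ℕ}

theorem IsC0.mul {s : St} {C C' : ℕ} (h : s.IsC0 C) (h0 : C' ≠ 0) (hd : C ∣ C') : s.IsC0 C' := by
  exact ⟨h0, fun V hV => h.2 V (v_nat_dvd _ hd hV)⟩

theorem f4_lt {P g : Ideal s.O} (hP : P ≠ ⊤) (h : P * g ≠ ⊥) : P * g < g :=
  lt_of_le_of_ne Ideal.mul_le_right fun e => hP (by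
    rw [← Ideal.one_eq_top]
    exact mul_right_cancel₀ (right_ne_zero_of_mul h) (e.trans (one_mul g).symm))

theorem f4_cop {β : s.O} {a : Ideal s.O} (h : β - 1 ∈ a) : IsCoprime (Ideal.span {β}) a := by
  rw [Ideal.isCoprime_iff_exists]
  exact ⟨β, Ideal.mem_span_singleton_self β, -(β - 1), neg_mem h, by ring⟩

theorem f4_unit {β : s.O} (h : f ≠ ⊥) : IsUnit (s.cl f (s.np β)) ↔ IsCoprime (Ideal.span {β}) f := by
  rw [s.unit_cl h, s.idOf_np]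

theorem f4_odd (hr : Odd r) (h0 : f ≠ ⊥) {χ : MulChar (s.Pr f) ℂ} (h : s.Prim f χ)
    (h3 : ∀ C : (s.Pr f)ˣ, χ C ^ r = 1) : Odd (Ideal.absNorm f) := by
  rw [s.odd_iff, Ideal.isCoprime_iff_sup_eq]
  by_contra hn
  obtain ⟨P, hP, hle⟩ := Ideal.exists_le_maximal _ hn
  have h2 : (2 : s.O) ∈ P := hle (Ideal.mem_sup_right (Ideal.mem_span_singleton_self _))
  have h1 : f ≤ P := le_sup_left.trans hle
  obtain ⟨g, rfl⟩ := Ideal.dvd_iff_le.2 h1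
  obtain ⟨β, b1, b2, b3⟩ := h g (s.f4_lt hP.ne_top h0)
  have b4 : β ∉ P := fun hβ => hP.ne_top (top_le_iff.1 ((Ideal.isCoprime_iff_sup_eq.1
    ((s.f4_unit h0).1 b2)).ge.trans (sup_le ((Ideal.span_singleton_le_iff_mem _).2 hβ) h1)))
  have b5 : β - 1 ∈ P := by
    rcases s.prime_two hP.isPrime h2 with rfl | rfl
    exacts [s.sub_one_p1 b4, s.sub_one_p2 b4]
  have b6 : s.cl (P * g) (s.np (β * β)) = 1 := s.cl_np_eq_one.2 (Or.inl (by
    rw [show β * β - 1 = (β - 1 + 2) * (β - 1) by ring]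
    exact Ideal.mul_mem_mul (add_mem b5 h2) b1))
  have b7 := congrArg χ b6
  have b8 := h3 b2.unit
  rw [s.np_mul, map_mul, map_mul, map_one] at b7
  rw [IsUnit.unit_spec] at b8
  obtain ⟨j, rfl⟩ := hr
  rw [pow_succ, pow_mul, sq, b7, one_pow, one_mul] at b8
  exact b3 b8

theorem exists_cond (hr : Odd r) {g : Ideal s.O} (hg : g ≠ ⊥) (χ : MulChar (s.Pr g) ℂ)
    (h3 : ∀ C : (s.Pr g)ˣ, χ C ^ r = 1) : ∃ (f : Ideal s.O) (χ' : MulChar (s.Pr f) ℂ), g ≤ f ∧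
      Odd (Ideal.absNorm f) ∧ s.Prim f χ' ∧ (∀ C : (s.Pr f)ˣ, χ' C ^ r = 1) ∧
      ∀ p, IsUnit (s.cl g p) → χ' (s.cl f p) = χ (s.cl g p) := by
  obtain ⟨f, ⟨h1, h2⟩, hm⟩ := (wellFounded_gt (α := Ideal s.O)).has_min
    {f | g ≤ f ∧ ∀ β, β - 1 ∈ f → IsUnit (s.cl g (s.np β)) → χ (s.cl g (s.np β)) = 1}
    ⟨g, le_rfl, fun β hβ _ => by rw [s.cl_np_eq_one.2 (Or.inl hβ), map_one]⟩
  have h0 : f ≠ ⊥ := fun e => hg (le_bot_iff.1 (e ▸ h1))
  obtain ⟨π', hπ⟩ := s.exists_proj h1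
  have su : Function.Surjective (Units.map π') := fun D => by
    obtain ⟨q, q1, q2⟩ := s.lift_unit hg h0 (s.unit_out D)
    exact ⟨q1.unit, Units.ext (by rw [Units.coe_map, IsUnit.unit_spec, hπ, q2, s.cl_out])⟩
  have ke : (Units.map π').ker ≤ χ.toUnitHom.ker := fun C hC => by
    have e : s.cl f (s.out C.1) = 1 := by
      rw [← hπ, s.cl_out]
      exact congrArg Units.val (MonoidHom.mem_ker.1 hC)
    obtain ⟨β, b1, b2⟩ := s.ker_proj g e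
    rw [s.cl_out] at b2
    refine MonoidHom.mem_ker.2 (Units.ext ?_)
    rw [MulChar.coe_toUnitHom, b2]
    exact h2 β b1 (b2 ▸ C.isUnit)
  obtain ⟨χ', k⟩ : ∃ χ' : MulChar (s.Pr f) ℂ, ∀ C : (s.Pr g)ˣ, χ' (Units.map π' C) = χ C :=
    ⟨MulChar.ofUnitHom ((Units.map π').liftOfSurjective su ⟨_, ke⟩), fun C => by
      rw [MulChar.ofUnitHom_coe, MonoidHom.liftOfRightInverse_comp_apply, MulChar.coe_toUnitHom]⟩
  have k1 : ∀ p, IsUnit (s.cl g p) → χ' (s.cl f p) = χ (s.cl g p) := fun p hp => by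
    have := k hp.unit
    rwa [Units.coe_map, IsUnit.unit_spec, hπ] at this
  have k2 : s.Prim f χ' := fun g' hg' => by
    by_contra hn
    refine hm g' ⟨h1.trans hg'.le, fun β b1 b2 => ?_⟩ hg'
    by_contra b3
    exact hn ⟨β, b1, s.unit_mono h1 b2, by rwa [k1 _ b2]⟩
  have k3 : ∀ C : (s.Pr f)ˣ, χ' C ^ r = 1 := fun D => by
    obtain ⟨C, rfl⟩ := su D
    rw [k, h3]
  exact ⟨f, χ', h1, s.f4_odd hr h0 k2 k3, k2, k3, k1⟩

theorem exists_ind {g : Ideal s.O} (hle : f ≤ g) (χ : MulChar (s.Pr g) ℂ) :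
    ∃ χ' : MulChar (s.Pr f) ℂ, ∀ p, IsUnit (s.cl f p) → χ' (s.cl f p) = χ (s.cl g p) := by
  obtain ⟨π', hπ⟩ := s.exists_proj hle
  refine ⟨MulChar.ofUnitHom (χ.toUnitHom.comp (Units.map π')), fun p hp => ?_⟩
  rw [← hπ, ← hp.unit_spec, MulChar.ofUnitHom_coe]
  rfl

open Classical in
theorem orth_X {X : Finset (MulChar (s.Pr f) ℂ)} (hX : ∀ χ ∈ X, ∀ χ' ∈ X, χ * χ' ∈ X)
    (C D : (s.Pr f)ˣ) :
    ∑ χ ∈ X, (χ C)⁻¹ * χ D = if ∀ χ ∈ X, χ D = χ C then (X.card : ℂ) else 0 := by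
  have h0 : ∀ χ : MulChar (s.Pr f) ℂ, χ C ≠ 0 := fun χ => (C.isUnit.map χ).ne_zero
  split_ifs with h
  · rw [Finset.sum_congr rfl fun χ hχ => by rw [h χ hχ, inv_mul_cancel₀ (h0 χ)]]
    simp
  · push Not at h
    obtain ⟨χ₀, h1, h2⟩ := h
    have e : ∑ χ ∈ X, ((χ₀ * χ) C)⁻¹ * (χ₀ * χ) D = ∑ χ ∈ X, (χ C)⁻¹ * χ D := by
      refine Finset.sum_nbij (fun χ => χ₀ * χ) (fun χ hχ => hX _ h1 _ hχ)
        (fun _ _ _ _ e => mul_left_cancel e) ?_ fun _ _ => rfl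
      exact Finset.surjOn_of_injOn_of_card_le _ (fun χ hχ => hX _ h1 _ hχ)
        (fun _ _ _ _ e => mul_left_cancel e) le_rfl
    have e' : ∑ χ ∈ X, ((χ₀ * χ) C)⁻¹ * (χ₀ * χ) D =
        (χ₀ C)⁻¹ * χ₀ D * ∑ χ ∈ X, (χ C)⁻¹ * χ D := by
      rw [Finset.mul_sum]
      refine Finset.sum_congr rfl fun χ _ => ?_
      rw [MulChar.mul_apply, MulChar.mul_apply, mul_inv]
      ring
    by_contra h3
    have h4 := mul_right_cancel₀ h3 ((one_mul _).trans (e.symm.trans e'))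
    exact h2 ((inv_mul_eq_one₀ (h0 χ₀)).1 h4.symm).symm

theorem exists_tw (f : Ideal s.O) (n : ℕ) (χ : MulChar (s.Pr f) ℂ)
    (ψ : MulChar (ZMod (2 ^ n)) ℂ) : ∃ φ, s.Tw f n χ ψ φ := by
  obtain ⟨π', hπ⟩ := s.exists_proj (s.md_le f n).1
  obtain ⟨ν, hν⟩ := s.exists_nm (s.md_le f n).2.1
  refine ⟨MulChar.ofUnitHom (χ.toUnitHom.comp (Units.map π') * ψ.toUnitHom.comp (Units.map ν)),
    fun p hp => ?_⟩
  rw [← hπ, ← hν, ← hp.unit_spec, MulChar.ofUnitHom_coe]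
  rfl

theorem f4_two (hf : Odd (Ideal.absNorm f)) (hn : 2 ≤ n) {χ : MulChar (s.Pr f) ℂ}
    {ψ : MulChar (ZMod (2 ^ n)) ℂ} (hψ : ψ (tau n) = -1) {φ : MulChar (s.Pr (s.md f n)) ℂ}
    (hT : s.Tw f n χ ψ φ) {u : s.O} (hu : u = s.w ∨ u = 1 - s.w) :
    IsUnit (s.cl (s.md f n) (s.np (1 + Ideal.absNorm f * u * 2 ^ (n - 1)))) ∧
      φ (s.cl (s.md f n) (s.np (1 + Ideal.absNorm f * u * 2 ^ (n - 1)))) ≠ 1 := by
  obtain ⟨j, rfl⟩ : ∃ j, n = j + 2 := ⟨n - 2, by omega⟩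
  have a1 : 1 + Ideal.absNorm f * u * 2 ^ (j + 2 - 1) - 1 ∈ f := by
    rw [add_sub_cancel_left, mul_assoc]
    exact Ideal.mul_mem_right _ _ (Ideal.absNorm_mem f)
  have a2 : IsUnit (s.cl (s.md f (j + 2)) (s.np (1 + Ideal.absNorm f * u * 2 ^ (j + 2 - 1)))) := by
    rw [s.f4_unit (s.md_ne (s.odd_ne hf) _), md, ← Ideal.span_singleton_pow]
    refine (s.f4_cop a1).mul_right (s.f4_cop ?_).pow_right
    exact Ideal.mem_span_singleton'.2 ⟨Ideal.absNorm f * u * 2 ^ j, by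
      rw [show j + 2 - 1 = j + 1 from rfl]; ring⟩
  refine ⟨a2, ?_⟩
  obtain ⟨T, hT'⟩ : ∃ T : ℤ, T = Ideal.absNorm f * 2 ^ (j + 1) := ⟨_, rfl⟩
  have a3 : (Ideal.absNorm (Ideal.span {1 + Ideal.absNorm f * u * 2 ^ (j + 2 - 1)}) : ℤ) =
      1 + T + s.m * T ^ 2 := by
    rcases hu with rfl | rfl
    · rw [show 1 + Ideal.absNorm f * s.w * 2 ^ (j + 2 - 1) = ((1 : ℤ) : s.O) + T * s.w by
        rw [hT', show j + 2 - 1 = j + 1 from rfl]; push_cast; ring, s.norm_ab]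
      ring
    · rw [show 1 + Ideal.absNorm f * (1 - s.w) * 2 ^ (j + 2 - 1) =
        ((1 + T : ℤ) : s.O) + (-T : ℤ) * s.w by
        rw [hT', show j + 2 - 1 = j + 1 from rfl]; push_cast; ring, s.norm_ab]
      ring
  have a4 := congrArg (Int.cast : ℤ → ZMod (2 ^ (j + 2))) a3
  have a5 : (2 : ZMod (2 ^ (j + 2))) ^ (j + 2) = 0 := by exact_mod_cast ZMod.natCast_self _
  obtain ⟨i, hi⟩ := hf
  rw [hT', hi] at a4
  rw [hT _ a2, s.cl_np_eq_one.2 (Or.inl a1), map_one, one_mul, s.Qn_np, hi]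
  push_cast at a4 ⊢
  rw [a4, show (1 : ZMod (2 ^ (j + 2))) + (2 * i + 1) * 2 ^ (j + 1) +
    s.m * ((2 * i + 1) * 2 ^ (j + 1)) ^ 2 = 2 ^ (j + 2 - 1) + 1 by
      rw [show j + 2 - 1 = j + 1 from rfl]
      linear_combination (i + s.m * (2 * i + 1) ^ 2 * 2 ^ j) * a5, ← tau_val hn, hψ]
  norm_num

theorem prim_tw (hf : Odd (Ideal.absNorm f)) (hn : 2 ≤ n) {χ : MulChar (s.Pr f) ℂ}
    (h : s.Prim f χ) {ψ : MulChar (ZMod (2 ^ n)) ℂ} (hψ : ψ (tau n) = -1)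
    {φ : MulChar (s.Pr (s.md f n)) ℂ} (hT : s.Tw f n χ ψ φ) : s.Prim (s.md f n) φ := by
  intro g hg
  have f0 := s.odd_ne hf
  obtain ⟨r, hr⟩ := Ideal.dvd_iff_le.2 hg.le
  obtain ⟨P, hP, hle⟩ := Ideal.exists_le_maximal r fun e => hg.ne (by rw [hr, e, Ideal.mul_top])
  obtain ⟨r', rfl⟩ := Ideal.dvd_iff_le.2 hle
  have key : ∀ a, s.md f n = P * a → a ≤ g := fun a ha => by
    have P0 : P ≠ 0 := left_ne_zero_of_mul (ha ▸ s.md_ne f0 n)
    rw [mul_left_cancel₀ P0 (ha.symm.trans (hr.trans (mul_left_comm _ _ _)))]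
    exact Ideal.mul_le_left
  have e2 : Ideal.span {(2 : s.O) ^ n} = s.p1 * s.p2 * Ideal.span {2 ^ (n - 1)} := by
    rw [s.p1_mul_p2, Ideal.span_singleton_mul_span_singleton, ← pow_succ',
      Nat.sub_add_cancel (by omega)]
  have h1 : f * Ideal.span {2 ^ n} ≤ P :=
    (hr.trans (mul_left_comm _ _ _)).le.trans Ideal.mul_le_left
  rcases (hP.isPrime.mul_le).1 h1 with h1 | h1
  · obtain ⟨f₁, hf₁⟩ := Ideal.dvd_iff_le.2 h1
    obtain ⟨β, b1, b2, b3⟩ := h f₁ (hf₁.trans_lt (s.f4_lt hP.ne_top (hf₁ ▸ f0)))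
    have c : IsCoprime f (Ideal.span {2 ^ n}) := by
      rw [← Ideal.span_singleton_pow]
      exact (s.odd_iff.1 hf).pow_right
    obtain ⟨a, ha, b, hb, e⟩ := Ideal.isCoprime_iff_exists.1 c
    have c1 : β * b + a - 1 = (β - 1) * b := by linear_combination e
    have c2 : s.cl f (s.np β) = s.cl f (s.np (β * b + a)) := by
      have := s.cl_eq.2 ⟨1, s.sim_np (n := f) (β := β * b + a) (β' := β) (by
        rw [show β * b + a - β = (1 - β) * a by linear_combination β * e]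
        exact Ideal.mul_mem_left _ _ ha) 1⟩
      rwa [one_mul, one_mul] at this
    have c3 : β * b + a - 1 ∈ Ideal.span {(2 : s.O) ^ n} := c1 ▸ Ideal.mul_mem_left _ _ hb
    have c4 : IsUnit (s.cl (s.md f n) (s.np (β * b + a))) :=
      (s.f4_unit (s.md_ne f0 n)).2 (((s.f4_unit f0).1 (c2 ▸ b2)).mul_right (s.f4_cop c3))
    have c5 := s.Qn_mod (n := Ideal.span {(2 : s.O) ^ n}) (N := 2 ^ n) (by push_cast; rfl)
      ((s.cl_np_eq_one.2 (Or.inl c3)).trans (map_one _).symm)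
    refine ⟨β * b + a, key (f₁ * Ideal.span {2 ^ n}) (by rw [md, ← mul_assoc, ← hf₁])
      (c1 ▸ Ideal.mul_mem_mul b1 hb), c4, ?_⟩
    rwa [hT _ c4, (ZMod.natCast_eq_natCast_iff _ _ _).2 c5, s.Qn_one, Nat.cast_one, map_one,
      mul_one, ← c2]
  · rcases s.prime_two hP.isPrime (hP.isPrime.mem_of_pow_mem n
      (h1 (Ideal.mem_span_singleton_self _))) with rfl | rfl
    · refine ⟨_, key (f * s.p2 * Ideal.span {2 ^ (n - 1)}) (by rw [md, e2]; ring) ?_,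
        s.f4_two hf hn hψ hT (Or.inr rfl)⟩
      rw [add_sub_cancel_left]
      exact Ideal.mul_mem_mul (Ideal.mul_mem_mul (Ideal.absNorm_mem f)
        (Ideal.subset_span (by simp))) (Ideal.mem_span_singleton_self _)
    · refine ⟨_, key (f * s.p1 * Ideal.span {2 ^ (n - 1)}) (by rw [md, e2]; ring) ?_,
        s.f4_two hf hn hψ hT (Or.inl rfl)⟩
      rw [add_sub_cancel_left]
      exact Ideal.mul_mem_mul (Ideal.mul_mem_mul (Ideal.absNorm_mem f)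
        (Ideal.subset_span (by simp))) (Ideal.mem_span_singleton_self _)

end St

end Pool.Agent.P.MP_20768c_nt.Az.Cu

end

-- part Ab.U3_p
section

set_option autoImplicit false

open Complex NumberField IsDedekindDomain Filter Topology
open UpperHalfPlane hiding I
open scoped ComplexConjugate Real MatrixGroups

namespace Pool.Agent.P.MP_20768c_nt.Az.Cu

open Pool.Agent.P.MP_20768c_nt.Az.EQ (Lt pr sp IsLat jL qN)

theorem u3p_lift {A B C : Type} [Group A] [Group B] [Group C] (ρ : A →* B)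
    (hs : Function.Surjective ρ) (φ : A →* C) (h : ∀ a, ρ a = 1 → φ a = 1) :
    ∃ ψ : B →* C, ∀ a, ψ (ρ a) = φ a :=
  ⟨ρ.liftOfSurjective hs ⟨φ, h⟩, fun a => ρ.liftOfRightInverse_comp_apply _ _ ⟨φ, h⟩ a⟩

theorem u3p_inj {n : ℕ} {b b' : (ZMod (2 ^ n))ˣ}
    (h : zt n ^ (b : ZMod (2 ^ n)).val = zt n ^ (b' : ZMod (2 ^ n)).val) : b = b' := by
  rw [← zpow_natCast, ← zpow_natCast, zt_congr] at h
  exact Units.ext (by simpa using h)

namespace Ab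

variable {s : Ab} {f : Ideal s.O} {X : Finset (MulChar (s.Pr f) ℂ)} {c n : ℕ}

theorem abu3p_au (hX : s.Cut f X) (n : ℕ) : ∃ (B : s.Au →* (s.Pr (s.md f n))ˣ)
    (p : s.Pr (s.md f n) →* s.Pr f) (q : s.Pr (s.md f n) →* ZMod (2 ^ n)),
    Function.Surjective B ∧ (∀ r, p (s.cl _ r) = s.cl f r) ∧ (∀ r, q (s.cl _ r) = s.Qn r) ∧
    (∀ (m : ℕ) (σ : s.Au) (a : Ideal s.O), 0 < m → (m : s.O) ∈ s.md f n → s.Art m σ a →
      (B σ : s.Pr (s.md f n)) = s.cl _ (s.ip a)) ∧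
    (∀ σ, (∀ χ ∈ X, χ (p (B σ)) = 1) ↔ ∀ x ∈ s.N, σ x = x) ∧
    (∀ σ, σ (zt n) = zt n ^ (q (B σ)).val) ∧
    ∀ σ : s.Au, ∃ (m : ℕ) (a : Ideal s.O), 0 < m ∧ (m : s.O) ∈ s.md f n ∧ s.Art m σ a := by
  obtain ⟨m₀, h0, hm, hd⟩ : ∃ m₀ : ℕ, 0 < m₀ ∧ (m₀ : s.O) ∈ s.md f n ∧ 2 ^ n ∣ m₀ :=
    ⟨_, by have := hX.1.pos; positivity, s.mm_mem f 1 n, dvd_mul_left _ _⟩
  obtain ⟨l1, l2, -⟩ := s.md_le f n
  have le : ∀ m : ℕ, (m : s.O) ∈ s.md f n → Ideal.span {(m : s.O)} ≤ s.md f n := fun m h =>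
    (Ideal.span_singleton_le_iff_mem _).2 h
  have n0 : Ideal.span {(m₀ : s.O)} ≠ ⊥ := by
    rw [Ne, Ideal.span_singleton_eq_bot]
    exact_mod_cast h0.ne'
  have n1 : s.md f n ≠ ⊥ := fun e => n0 (le_bot_iff.1 (e ▸ le _ hm))
  obtain ⟨A, hAs, hA⟩ := s.exists_artHom h0
  obtain ⟨r, hr⟩ := s.exists_proj (le _ hm)
  obtain ⟨p, hp⟩ := s.exists_proj l1
  obtain ⟨q, hq⟩ := s.exists_nm l2
  have P0 : ∀ (m : ℕ) (σ : s.Au) (a : Ideal s.O), 0 < m → (m : s.O) ∈ s.md f n → s.Art m σ a →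
      (((Units.map r).comp A σ : (s.Pr (s.md f n))ˣ) : s.Pr (s.md f n)) = s.cl _ (s.ip a) :=
    fun m σ a h1 h2 h3 => by
      obtain ⟨b, hb⟩ := St.exists_art (Nat.mul_pos h1 h0) σ
      have e := s.cl_mono (le m h2) (St.Art.cl_eq h1 h3 (hb.mono (dvd_mul_right _ _)))
      have e' := ((hA σ b).1 (hb.mono (dvd_mul_left _ _))).2
      rw [MonoidHom.comp_apply, Units.coe_map, e', hr, e]
  refine ⟨(Units.map r).comp A, p, q, fun C => ?_, hp, hq, P0, fun σ => ?_, fun σ => ?_,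
    fun σ => ?_⟩
  · obtain ⟨t, ht, e⟩ := s.lift_unit (p := s.out C.1) n0 n1 (by rw [s.cl_out]; exact C.isUnit)
    obtain ⟨σ, hσ⟩ := hAs ht.unit
    refine ⟨σ, Units.ext ?_⟩
    rw [MonoidHom.comp_apply, Units.coe_map, hσ, IsUnit.unit_spec, hr, e, s.cl_out]
  · obtain ⟨b, hb⟩ := St.exists_art h0 σ
    rw [← hX.2.2.2.2.1 m₀ σ b h0 (l1 hm) hb, P0 m₀ σ b h0 hm hb, hp]
  · obtain ⟨b, hb⟩ := St.exists_art h0 σ
    rw [P0 m₀ σ b h0 hm hb, hq, s.Qn_ip hb.1]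
    obtain ⟨j, rfl⟩ := hd
    rw [hb.2.2.2 (zt n) (by rw [pow_mul, zt_pow, one_pow]), ← zpow_natCast]
    exact (zt_val (Int.cast_natCast _)).symm
  · obtain ⟨b, hb⟩ := St.exists_art h0 σ
    exact ⟨m₀, b, h0, hm, hb⟩

theorem abu3p_nu {G : Type} [Group G] (z : G → ℂ) (ν : G →* (ZMod (2 ^ n))ˣ)
    (h : ∀ σ, z σ = zt n ^ (ν σ : ZMod (2 ^ n)).val) (σ : G) : ν σ = 1 ↔ z σ = z 1 :=
  ⟨fun e => by rw [h, h, e, map_one], fun e => u3p_inj (by rw [← h, e, h, map_one])⟩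

theorem exists_par (hX : s.Cut f X) (n : ℕ) : ∃ θ, s.Par f X n θ := by
  obtain ⟨B, p, q, hB, hp, hq, P0, P1, P2, -⟩ := abu3p_au hX n
  obtain ⟨ρ, hs, hρ⟩ := s.exists_res (s.K n)
  have P4 : ∀ σ : s.Au, Units.map q (B σ) = 1 ↔ σ (zt n) = zt n := fun σ =>
    abu3p_nu (fun τ : s.Au => τ (zt n)) ((Units.map q).comp B) P2 σ
  have K : ∀ σ, ρ σ = 1 ↔ (∀ χ ∈ X, χ.toUnitHom (Units.map p (B σ)) = 1) ∧
      Units.map q (B σ) = 1 := fun σ => by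
    have e : (∀ χ ∈ X, χ.toUnitHom (Units.map p (B σ)) = 1) ↔ ∀ x ∈ s.N, σ x = x := by
      rw [← P1]
      refine forall₂_congr fun χ _ => ?_
      rw [← Units.val_eq_one, MulChar.coe_toUnitHom, Units.coe_map]
    rw [e, P4, ← fix_K]
    exact ⟨fun h x hx => by rw [← hρ σ ⟨x, hx⟩, h, AlgEquiv.one_apply],
      fun h => AlgEquiv.ext fun x => Subtype.ext ((hρ σ x).trans (h x x.2))⟩
  obtain ⟨θ, hθ⟩ := u3p_lift B hB ρ fun σ h => (K σ).2 (by simp [h])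
  refine ⟨θ, fun g => ?_, fun m σ a C h1 h2 h3 h4 x => ?_, fun C D => ?_⟩
  · obtain ⟨σ, rfl⟩ := hs g
    exact ⟨B σ, hθ σ⟩
  · rw [show C = B σ from Units.ext (h4.trans (P0 m σ a h1 h2 h3).symm), hθ, hρ]
  · obtain ⟨σ, rfl⟩ := hB C
    obtain ⟨τ, rfl⟩ := hB D
    rw [hθ, hθ, ← mul_inv_eq_one, ← map_inv, ← map_mul, K, ← hp, ← hp, ← hq, ← hq, s.cl_out,
      s.cl_out]
    simp only [map_mul, map_inv, mul_inv_eq_one, Units.ext_iff, MulChar.coe_toUnitHom,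
      Units.coe_map]

theorem char_dec (hX : s.Cut f X) (hn : 2 ≤ n) {θ : (s.Pr (s.md f n))ˣ →* s.G n}
    (hP : s.Par f X n θ) {φ : s.G n →* ℂˣ} {φ' : MulChar (s.Pr (s.md f n)) ℂ}
    (h : ∀ C : (s.Pr (s.md f n))ˣ, φ' C = φ (θ C)) {τ : s.G n} (hτ : s.IsTau n τ)
    (h1 : φ τ = -1) : ∃ χ ∈ X, ∃ ψ : MulChar (ZMod (2 ^ n)) ℂ,
      ψ (tau n) = -1 ∧ s.Tw f n χ ψ φ' := by
  obtain ⟨B, p, q, hB, hp, hq, P0, P1, P2, P5⟩ := abu3p_au hX n
  obtain ⟨ρ, hs, hρ⟩ := s.exists_res (s.K n)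
  obtain ⟨ρ', -, hρ'⟩ := s.exists_res s.N
  obtain ⟨ν, hν⟩ : ∃ ν : s.Au →* (ZMod (2 ^ n))ˣ, ∀ σ, (ν σ : ZMod (2 ^ n)) = q (B σ) :=
    ⟨(Units.map q).comp B, fun _ => rfl⟩
  have P3 : ∀ σ : s.Au, σ (zt n) = zt n ^ (ν σ : ZMod (2 ^ n)).val := fun σ => by rw [hν, P2]
  have mem : ∀ σ : s.Au, σ ∈ ρ'.ker ↔ ∀ x ∈ s.N, σ x = x := fun σ =>
    ⟨fun h x hx => by rw [← hρ' σ ⟨x, hx⟩, MonoidHom.mem_ker.1 h, AlgEquiv.one_apply],
      fun h => AlgEquiv.ext fun x => Subtype.ext ((hρ' σ x).trans (h x x.2))⟩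
  obtain ⟨ψ, hψ⟩ := u3p_lift (ν.comp ρ'.ker.subtype) (fun b => by
      obtain ⟨σ, b1, b2⟩ := s.exists_inert n b
      exact ⟨⟨σ, (mem σ).2 fun x hx => inert_fix_N s.v_two b1 hx⟩,
        u3p_inj ((P3 σ).symm.trans b2)⟩)
    ((φ.comp ρ).comp ρ'.ker.subtype) fun σ hσ => by
      have e : ρ σ.1 = 1 := AlgEquiv.ext fun x => Subtype.ext ((hρ σ.1 x).trans
        (fix_K.2 ⟨(mem σ.1).1 σ.2,
          (abu3p_nu (fun τ : s.Au => τ (zt n)) ν P3 σ.1).1 hσ⟩ x x.2))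
      show φ (ρ σ.1) = 1
      rw [e, map_one]
  have hψ' : ∀ σ : s.Au, (∀ x ∈ s.N, σ x = x) → ψ (ν σ) = φ (ρ σ) := fun σ hσ =>
    hψ ⟨σ, (mem σ).2 hσ⟩
  obtain ⟨χ, hχ, e⟩ := hX.2.2.2.2.2 (φ.comp ρ / ψ.comp ν) fun σ hσ => by
    rw [MonoidHom.div_apply, MonoidHom.comp_apply, MonoidHom.comp_apply, hψ' σ hσ, div_self']
  refine ⟨χ, hχ, MulChar.ofUnitHom ψ, ?_, fun r hr => ?_⟩
  · obtain ⟨σ, rfl⟩ := hs τ
    have a1 : ∀ x ∈ s.N, σ x = x := fun x hx => by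
      rw [← hρ σ ⟨x, s.N_le n hx⟩, (hτ ⟨x, s.N_le n hx⟩).2 (s.N_le _ hx)]
    have a2 : ν σ = tau n := u3p_inj (by
      rw [← P3, zt_tau hn, ← hρ σ ⟨zt n, s.zt_mem n⟩, (hτ.spec hn).2.2.1 _ rfl]
      rfl)
    rw [MulChar.ofUnitHom_coe, ← a2, hψ' σ a1, h1]
    rfl
  · obtain ⟨σ, hσ⟩ := hB hr.unit
    obtain ⟨m, a, h0, hm, ha⟩ := P5 σ
    have a0 := P0 m σ a h0 hm ha
    have a1 : (B σ : s.Pr (s.md f n)) = s.cl _ r := by rw [hσ, IsUnit.unit_spec]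
    have a2 : θ (B σ) = ρ σ := AlgEquiv.ext fun x => Subtype.ext
      ((hP.2.1 m σ a (B σ) h0 hm ha a0 x).trans (hρ σ x).symm)
    rw [← hp, ← hq, ← a1, h, a2, ← hν, MulChar.ofUnitHom_coe, a0, hp,
      e m σ a h0 ((s.md_le f n).1 hm) ha, MonoidHom.div_apply, MonoidHom.comp_apply,
      MonoidHom.comp_apply, ← Units.val_mul, div_mul_cancel]

end Ab

end Pool.Agent.P.MP_20768c_nt.Az.Cu

end

-- part Cu.D4
section

set_option autoImplicit false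

open Complex NumberField IsDedekindDomain Filter Topology
open UpperHalfPlane hiding I
open scoped ComplexConjugate Real MatrixGroups

namespace Pool.Agent.P.MP_20768c_nt.Az.Cu

open Pool.Agent.P.MP_20768c_nt.Az.EQ (Lt pr sp IsLat jL qN)

theorem d4_wpd_gen {Λ : Lt} {z w : ℂ} (h : IsLat Λ) (hz : z ∉ Λ) (hw : w ∉ Λ)
    (hp : z + w ∉ Λ) (hm : z - w ∉ Λ) : wpd Λ z * wpd Λ w / UU Λ ^ 3 =
      -((XX Λ (z + w) - XX Λ (z - w)) * (XX Λ z - XX Λ w) ^ 2) := by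
  have e := wp_sub_wp h hz hw hp hm
  have e' : wpd Λ z * wpd Λ w =
      -((wp Λ (z + w) - wp Λ (z - w)) * (wp Λ z - wp Λ w) ^ 2) := by linear_combination e
  rw [e', XX, XX, XX, XX, ← sub_div, ← sub_div, div_pow, div_mul_div_comm, neg_div, ← pow_succ']

theorem d4_wpd_sq {Λ : Lt} {z : ℂ} (h : IsLat Λ) (h2 : g2 Λ ≠ 0) (h3 : g3 Λ ≠ 0) (hU : UU Λ ≠ 0)
    (hz : z ∉ Λ) : wpd Λ z * wpd Λ z / UU Λ ^ 3 = 4 * XX Λ z ^ 3 -
      jL Λ / (12 * (jL Λ - 1728)) * XX Λ z + jL Λ / (216 * (jL Λ - 1728)) := by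
  have e3 : jL Λ / (216 * (jL Λ - 1728)) = -(g3 Λ / UU Λ ^ 3) := by
    rw [g3_UU h h2 h3, neg_neg]
  rw [← sq, wpd_sq h hz, e3, ← g2_UU h h2 h3, XX]
  field_simp
  ring

theorem d4_term {A1 A2 d p x e U : ℂ} (hU : U ≠ 0) (hp : p ≠ 0) :
    (A1 - A2) / p * (d / (x - e)) =
      (A1 / U - A2 / U) * (d * p / U ^ 3) / (p * p / U ^ 3 * (x / U - e / U)) := by
  rw [← sub_div, ← sub_div]
  by_cases h : x - e = 0
  · rw [h]; simp
  · field_simp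

theorem d4_oc_ec {Λ : Lt} {z Q : ℂ} {c : ℕ} (h : IsLat Λ) (hU : UU Λ ≠ 0) (hc : 0 < c)
    (hQ : 2 * Q ∉ Λ) : oc Λ Q * ec Λ c z = -∑ᶠ e ∈ XS Λ c, (XX Λ Q - XX Λ (2 * Q)) *
      (wpd Λ z * wpd Λ Q / UU Λ ^ 3) /
        (wpd Λ Q * wpd Λ Q / UU Λ ^ 3 * (XX Λ z - e / UU Λ)) := by
  have hQ0 : Q ∉ Λ := fun k => hQ (by rw [two_mul]; exact add_mem k k)
  have hp : wpd Λ Q ≠ 0 := fun k => hQ ((wpd_eq_zero h hQ0).1 k)
  have hf := xs_finite h hc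
  rw [ec, finsum_mem_eq_finite_toFinset_sum _ hf, finsum_mem_eq_finite_toFinset_sum _ hf, mul_neg,
    Finset.mul_sum]
  refine congrArg Neg.neg (Finset.sum_congr rfl fun e _ => ?_)
  rw [oc, XX, XX, XX]
  exact d4_term hU hp

theorem d4_ec_eF {Λ : Lt} {z : ℂ} {m : ℕ} (h : IsLat Λ) (hz : m * z ∈ Λ) (hz' : z ∉ Λ) :
    ec Λ (2 * m + 1) z = ((2 * m + 1) * (2 * m)) * eF Λ z := by
  have e : ((2 * m + 1 : ℕ) : ℂ) * z = z + (m * z + m * z) := by push_cast; ring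
  have h2 : (m : ℂ) * z + m * z ∈ Λ := add_mem hz hz
  have hn : ((2 * m + 1 : ℕ) : ℂ) * z ∉ Λ := by
    rw [e]
    exact fun k => hz' ((add_mem_cancel_right h2).1 k)
  rw [ec_eq h ⟨m, rfl⟩ hn, e, eF_add Λ z h2]
  push_cast
  ring

namespace St

variable {s : St} {m c : ℕ} {b : Ideal s.O} {σ : s.Au} {L : s.Sub} {z w Q : ℂ}

theorem Art.not_mem (hA : s.Art m σ b) (hz : m * z ∈ L) (hz' : z ∉ L) : z ∉ L * s.inv b := by
  intro h
  refine hz' (s.mem_of_cop hA.1 hA.2.1 h fun β hβ => ?_)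
  obtain ⟨r, rfl⟩ := Ideal.mem_span_singleton'.1 hβ
  rw [s.c_mul, s.c_nat, mul_assoc]
  exact s.c_mul_mem r hz

theorem d4_nat (k : ℕ) (h : z ∈ L) : (k : ℂ) * z ∈ L := by
  rw [← s.c_nat]
  exact s.c_mul_mem _ h

theorem d4_sq (hA : s.Art m σ b) (hL : IsUnit L) (hz : m * z ∈ L) (hz' : z ∉ L) :
    σ (wpd (s.zl L) z * wpd (s.zl L) z / UU (s.zl L) ^ 3) =
      wpd (s.zl (L * s.inv b)) z * wpd (s.zl (L * s.inv b)) z / UU (s.zl (L * s.inv b)) ^ 3 := by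
  have hL' : IsUnit (L * s.inv b) := hL.mul (s.isUnit_inv hA.1)
  obtain ⟨hj, hX⟩ := hA.2.2.1 L hL
  rw [d4_wpd_sq (s.isLat_zl hL) (s.g23_ne hL).1 (s.g23_ne hL).2 (s.UU_ne hL) hz',
    d4_wpd_sq (s.isLat_zl hL') (s.g23_ne hL').1 (s.g23_ne hL').2 (s.UU_ne hL')
      (hA.not_mem hz hz')]
  simp only [map_add, map_sub, map_mul, map_pow, map_div₀, map_ofNat, hj, hX z hz hz']

theorem art_wpd (hA : s.Art m σ b) (hL : IsUnit L) (hz : m * z ∈ L) (hw : m * w ∈ L)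
    (hz' : z ∉ L) (hw' : w ∉ L) : σ (wpd (s.zl L) z * wpd (s.zl L) w / UU (s.zl L) ^ 3) =
      wpd (s.zl (L * s.inv b)) z * wpd (s.zl (L * s.inv b)) w / UU (s.zl (L * s.inv b)) ^ 3 := by
  have hL' : IsUnit (L * s.inv b) := hL.mul (s.isUnit_inv hA.1)
  have hl := s.isLat_zl hL
  have hl' := s.isLat_zl hL'
  have hle := s.le_mul_inv hA.1 L
  by_cases hm : z - w ∈ L
  · rw [← wpd_congr hl hm, ← wpd_congr hl' (hle hm)]
    exact d4_sq hA hL hz hz'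
  by_cases hp : z + w ∈ L
  · have k : w - -z ∈ L := by rw [sub_neg_eq_add, add_comm]; exact hp
    rw [wpd_congr hl k, wpd_congr hl' (hle k), wpd_neg hl, wpd_neg hl', mul_neg, mul_neg, neg_div,
      neg_div, map_neg, d4_sq hA hL hz hz']
  obtain ⟨-, hX⟩ := hA.2.2.1 L hL
  have k1 : m * (z + w) ∈ L := by rw [mul_add]; exact add_mem hz hw
  have k2 : m * (z - w) ∈ L := by rw [mul_sub]; exact sub_mem hz hw
  rw [d4_wpd_gen hl hz' hw' hp hm, d4_wpd_gen hl' (hA.not_mem hz hz')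
    (hA.not_mem hw hw') (hA.not_mem k1 hp) (hA.not_mem k2 hm)]
  simp only [map_neg, map_sub, map_mul, map_pow, hX z hz hz', hX w hw hw', hX _ k1 hp, hX _ k2 hm]

theorem art_xs (hA : s.Art m σ b) (hL : IsUnit L) (hc : Odd c) (hd : c ∣ m) :
    Set.BijOn (fun e => σ (e / UU (s.zl L)) * UU (s.zl (L * s.inv b))) (XS (s.zl L) c)
      (XS (s.zl (L * s.inv b)) c) := by
  have hL' : IsUnit (L * s.inv b) := hL.mul (s.isUnit_inv hA.1)
  have hU := s.UU_ne hL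
  have hU' := s.UU_ne hL'
  obtain ⟨-, hX⟩ := hA.2.2.1 L hL
  have h1 : Set.MapsTo (fun e => σ (e / UU (s.zl L)) * UU (s.zl (L * s.inv b))) (XS (s.zl L) c)
      (XS (s.zl (L * s.inv b)) c) := by
    rintro _ ⟨t, k1, k2, rfl⟩
    obtain ⟨r, rfl⟩ := hd
    have k3 : ((c * r : ℕ) : ℂ) * t ∈ L := by
      rw [Nat.cast_mul, mul_comm (c : ℂ), mul_assoc]
      exact d4_nat r (s.mem_zl.1 k1)
    refine ⟨t, s.le_mul_inv hA.1 L k1, hA.not_mem k3 k2, ?_⟩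
    have := hX t k3 k2
    rw [XX, XX] at this
    simp only [this, div_mul_cancel₀ _ hU']
  have h2 : Set.InjOn (fun e => σ (e / UU (s.zl L)) * UU (s.zl (L * s.inv b))) (XS (s.zl L) c) :=
    fun x _ y _ e => (div_left_inj' hU).1 (σ.injective (mul_right_cancel₀ hU' e))
  refine ⟨h1, h2, ?_⟩
  have c1 := xs_card (s.isLat_zl hL) hc
  have c2 := xs_card (s.isLat_zl hL') hc
  refine (Set.eq_of_subset_of_ncard_le h1.image_subset ?_ (xs_finite (s.isLat_zl hL') hc.pos)).ge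
  rw [h2.ncard_image]
  omega

theorem art_tht (hA : s.Art m σ b) (hL : IsUnit L) (hc : Odd c) (h3 : c % 3 = 1) (hd : c ∣ m)
    (hz : m * z ∈ L) (hz' : z ∉ L) : σ (tht (s.zl L) c z) = tht (s.zl (L * s.inv b)) c z := by
  have hL' : IsUnit (L * s.inv b) := hL.mul (s.isUnit_inv hA.1)
  have hl := s.isLat_zl hL
  have hl' := s.isLat_zl hL'
  have hU := s.UU_ne hL
  have hU' := s.UU_ne hL'
  obtain ⟨hj, hX⟩ := hA.2.2.1 L hL
  have hX' := hX z hz hz'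
  rw [XX, XX] at hX'
  have hf := xs_finite hl hc.pos
  have e : σ (∏ᶠ e ∈ XS (s.zl L) c, (wp (s.zl L) z / UU (s.zl L) - e / UU (s.zl L))) =
      ∏ᶠ e ∈ XS (s.zl (L * s.inv b)) c, (wp (s.zl (L * s.inv b)) z / UU (s.zl (L * s.inv b)) -
        e / UU (s.zl (L * s.inv b))) := by
    rw [finprod_mem_eq_finite_toFinset_prod _ hf, map_prod,
      ← finprod_mem_eq_finite_toFinset_prod _ hf]
    refine finprod_mem_eq_of_bijOn _ (art_xs hA hL hc hd) fun x _ => ?_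
    rw [map_sub, hX', mul_div_cancel_right₀ _ hU']
  rw [tht_eq hl hc h3 hU, tht_eq hl' hc h3 hU', dl_UU hl (s.g23_ne hL).1 (s.g23_ne hL).2,
    dl_UU hl' (s.g23_ne hL').1 (s.g23_ne hL').2, map_div₀, map_mul, e, map_natCast, map_pow,
    map_div₀, map_pow, map_pow, map_sub, map_ofNat, hj]

theorem art_oc_ec (hA : s.Art m σ b) (hL : IsUnit L) (hc : Odd c) (hd : c ∣ m) (hz : m * z ∈ L)
    (hz' : z ∉ L) (hQ : m * Q ∈ L) (hQ' : 2 * Q ∉ L) : σ (oc (s.zl L) Q * ec (s.zl L) c z) =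
      oc (s.zl (L * s.inv b)) Q * ec (s.zl (L * s.inv b)) c z := by
  have hL' : IsUnit (L * s.inv b) := hL.mul (s.isUnit_inv hA.1)
  have hl := s.isLat_zl hL
  have hl' := s.isLat_zl hL'
  have hU := s.UU_ne hL
  have hU' := s.UU_ne hL'
  obtain ⟨-, hX⟩ := hA.2.2.1 L hL
  have hQ0 : Q ∉ L := fun k => hQ' (by rw [two_mul]; exact add_mem k k)
  have h2Q : m * (2 * Q) ∈ L := by rw [two_mul, mul_add]; exact add_mem hQ hQ
  have hf := xs_finite hl hc.pos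
  rw [d4_oc_ec hl hU hc.pos hQ', d4_oc_ec hl' hU' hc.pos (hA.not_mem h2Q hQ'), map_neg,
    finsum_mem_eq_finite_toFinset_sum _ hf, map_sum, ← finsum_mem_eq_finite_toFinset_sum _ hf]
  refine congrArg Neg.neg (finsum_mem_eq_of_bijOn _ (art_xs hA hL hc hd) fun x _ => ?_)
  rw [map_div₀, map_mul, map_mul, art_wpd hA hL hz hQ hz' hQ0, art_wpd hA hL hQ hQ hQ0 hQ0, map_sub,
    map_sub, hX Q hQ hQ0, hX _ h2Q hQ', hX z hz hz', mul_div_cancel_right₀ _ hU']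

theorem art_oc_eF (hm : 0 < m) (hA : s.Art m σ b) (hL : IsUnit L) (hz : m * z ∈ L) (hz' : z ∉ L)
    (hQ : m * Q ∈ L) (hQ' : 2 * Q ∉ L) : σ (oc (s.zl L) Q * eF (s.zl L) z) =
      oc (s.zl (L * s.inv b)) Q * eF (s.zl (L * s.inv b)) z := by
  obtain ⟨a, ha⟩ := exists_art (s := s) (m := (2 * m + 1) * m) (by positivity) σ
  have ha' : s.Art m σ a := ha.mono (Dvd.intro_left _ rfl)
  have hLa : IsUnit (L * s.inv a) := hL.mul (s.isUnit_inv ha.1)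
  have hLb : IsUnit (L * s.inv b) := hL.mul (s.isUnit_inv hA.1)
  have k : ∀ y : ℂ, m * y ∈ L → (((2 * m + 1) * m : ℕ) : ℂ) * y ∈ L := fun y hy => by
    rw [Nat.cast_mul, mul_assoc]
    exact d4_nat _ hy
  have e := art_oc_ec ha hL ⟨m, rfl⟩ (Dvd.intro _ rfl) (k z hz) hz' (k Q hQ) hQ'
  have hN : ((2 * m + 1) * (2 * m) : ℂ) ≠ 0 := by
    have : (((2 * m + 1) * (2 * m) : ℕ) : ℂ) ≠ 0 := Nat.cast_ne_zero.2 (by positivity)
    simpa using this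
  have hσ : σ ((2 * m + 1) * (2 * m) : ℂ) = (2 * m + 1) * (2 * m) := by
    simp only [map_mul, map_add, map_ofNat, map_natCast, map_one]
  rw [d4_ec_eF (s.isLat_zl hL) hz hz', d4_ec_eF (s.isLat_zl hLa) (s.le_mul_inv ha.1 L hz)
    (ha'.not_mem hz hz'), mul_left_comm, map_mul, hσ, mul_left_comm _ ((2 * m + 1) * (2 * m) : ℂ)]
    at e
  rw [mul_left_cancel₀ hN e]
  obtain ⟨x, hx, h1, h2⟩ := (s.cl_eq).1 (ha'.cl_eq hm hA)
  rw [s.ip_L ha.1, s.ip_L hA.1] at h1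
  rw [s.ip_ρ, s.ip_ρ, s.ip_L hA.1, s.idl_span, s.c_nat, mul_one] at h2
  obtain ⟨y, hy, h3⟩ := s.mem_sc_mul.1 h2
  have k2 : ∀ t : ℂ, m * t ∈ L → t - x * t ∈ s.zl (L * s.inv b) := fun t ht => by
    have : t - x * t = m * t * y := by linear_combination (-t) * h3
    rw [this]
    exact s.mem_zl.2 (Submodule.mul_mem_mul ht hy)
  have e1 : s.zl (L * s.inv b) = pr x * s.zl (L * s.inv a) := by
    rw [h1, mul_left_comm, s.zl_sc]
  have e2 : oc (s.zl (L * s.inv b)) Q = x * oc (s.zl (L * s.inv a)) Q := by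
    rw [← oc_sc _ hx, ← e1, ← oc_add (s.isLat_zl hLb) (x * Q) (k2 Q hQ), add_sub_cancel]
  have e3 : eF (s.zl (L * s.inv b)) z = eF (s.zl (L * s.inv a)) z / x := by
    rw [← eF_sc _ hx, ← e1, ← eF_add _ (x * z) (k2 z hz), add_sub_cancel]
  rw [e2, e3]
  field_simp

end St

end Pool.Agent.P.MP_20768c_nt.Az.Cu

end

-- part Ex.X7
section

set_option autoImplicit false

open Complex NumberField IsDedekindDomain
open scoped Real

namespace Pool.Agent.P.MP_20768c_nt.Az.Cu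

namespace St

variable (s : St) {m : ℕ}

theorem x7a_ord {V : ValuationSubring ℂ} {p : HeightOneSpectrum s.O}
    (hq : ∀ x, V.valuation (s.c x) < 1 ↔ x ∈ p.asIdeal) {a b : (s.k)ˣ}
    (h : V.valuation ((a : s.k) : ℂ) = V.valuation ((b : s.k) : ℂ)) :
    f0a_p_ord s.k p a = f0a_p_ord s.k p b := by
  have e := (e1_equiv (algebraMap s.k ℂ) V.valuation p hq).eq_iff.1
    (show (V.valuation.comap (algebraMap s.k ℂ)) a = (V.valuation.comap (algebraMap s.k ℂ)) b from h)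
  rw [f0a_p_val, f0a_p_val] at e
  exact neg_injective (WithZero.exp_injective e)

theorem x7a_sum (p : HeightOneSpectrum s.O) {J : Type} (T : Finset J) (b : J → (s.k)ˣ)
    (c : ℂˣ) : c ^ f0a_p_ord s.k p (∏ j ∈ T, b j) = ∏ j ∈ T, c ^ f0a_p_ord s.k p (b j) := by
  classical
  induction T using Finset.induction_on with
  | empty => rw [Finset.prod_empty, Finset.prod_empty, f0a_p_ord_one, zpow_zero]
  | insert a T ha ih => rw [Finset.prod_insert ha, Finset.prod_insert ha, f0a_p_ord_mul, zpow_add, ih]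

theorem x7_loc (hC : s.IsC0 m) (ψ : s.Au →* ℂˣ) (H : Subgroup s.Au) [H.Normal]
    (hH : ∀ σ ∈ H, ψ σ = 1)
    (hI : ∀ (V : ValuationSubring ℂ) (σ : s.Au), V.valuation m = 1 → Inert V.valuation σ → σ ∈ H)
    {J : Type} [Fintype J] {g : J → s.Au} (hg : Tv H g) {y : ℂ} (hy : ∀ σ ∈ H, σ y = y)
    (ha : IsAlgebraic ℚ y) (β : (s.k)ˣ) (hβ : ((β : s.k) : ℂ) = ∏ j, g j y)
    (p : HeightOneSpectrum s.O) (hp : (m : s.O) ∉ p.asIdeal) :
    ∃ σ : s.Au, s.Art m σ p.asIdeal ∧ ψ σ ^ f0a_p_ord s.k p β = 1 := by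
  have hm : 0 < m := Nat.pos_of_ne_zero hC.1
  obtain ⟨V, hq⟩ := s.x4_val p.isMaximal
  have hV : V.valuation m = 1 := by
    have h1 := s.v_c V.valuation m
    have h2 := (hq m).not.2 hp
    rw [c_nat] at h1 h2
    exact h1.antisymm (not_lt.1 h2)
  have h0 : ∀ j, g j y ≠ 0 := fun j =>
    Finset.prod_ne_zero_iff.1 (hβ ▸ fun h => β.ne_zero (Subtype.ext h)) j (Finset.mem_univ j)
  have hb : ∀ j, ∃ b : (s.k)ˣ, V.valuation (g j y) = V.valuation ((b : s.k) : ℂ) := fun j => by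
    obtain ⟨z, hz, e⟩ := s.val_fixed ⊥ V.valuation (s.au_alg (g j) ha) fun σ h _ => by
      have h1 := hy _ (‹H.Normal›.conj_mem' σ (hI V σ hV h) (g j))
      rw [AlgEquiv.mul_apply, AlgEquiv.mul_apply] at h1
      exact (AlgEquiv.symm_apply_eq _).1 h1
    obtain ⟨b, rfl⟩ := IntermediateField.mem_bot.1 hz
    have b0 : b ≠ 0 := by
      rintro rfl
      rw [map_zero, map_zero] at e
      exact h0 j ((map_eq_zero _).1 e)
    exact ⟨Units.mk0 b b0, e⟩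
  choose b hb using hb
  obtain ⟨F, i1, i2, hF⟩ := s.exists_gal
    ((s.CM_finite hm).union (Set.finite_range fun j => g j y)) (by
      rintro x (hx | ⟨j, rfl⟩)
      · exact s.CM_alg hm hx
      · exact s.au_alg _ ha)
  obtain ⟨σ, hσ⟩ := s.frobOn F V.valuation p.ne_bot hq
  refine ⟨σ, s.art_frob hC V hV hV p.isPrime p.ne_bot (fun x hx => (hq x).2 hx) σ
    fun x hx => hσ x (hF x (Or.inl hx)), ?_⟩
  obtain ⟨e, he⟩ := hg.perm σ
  have h1 : ∀ j, f0a_p_ord s.k p (b (e j)) = f0a_p_ord s.k p (b j) ∧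
      ψ (g (e j)) = ψ σ * ψ (g j) := fun j => by
    obtain ⟨t, ht, h⟩ := he j
    refine ⟨s.x7a_ord hq ?_, by rw [← map_mul, h, map_mul, hH t ht, mul_one]⟩
    have b0 : V.valuation ((b j : s.k) : ℂ) ≠ 0 := hb j ▸ (map_ne_zero _).2 (h0 j)
    have k1 : V.valuation (g j y / ((b j : s.k) : ℂ)) = 1 := by
      rw [map_div₀, hb j, div_self b0]
    have k2 := hσ _ (F.div_mem (hF _ (Or.inr ⟨j, rfl⟩)) (F.algebraMap_mem (b j : s.k))) k1.le
    have k3 : V.valuation ((g j y / ((b j : s.k) : ℂ)) ^ Ideal.absNorm p.asIdeal) = 1 := by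
      rw [map_pow, k1, one_pow]
    have k4 : V.valuation (σ (g j y / ((b j : s.k) : ℂ))) = 1 :=
      (V.valuation.map_eq_of_sub_lt (k3.symm ▸ k2)).trans k3
    have k5 : σ (g j y) = g (e j) y := by
      rw [← AlgEquiv.mul_apply, h, AlgEquiv.mul_apply, hy t ht]
    have k6 : σ ((b j : s.k) : ℂ) = ((b j : s.k) : ℂ) := σ.commutes _
    rw [map_div₀, k5, k6, map_div₀, hb, div_eq_one_iff_eq b0] at k4
    exact k4
  have h2 : f0a_p_ord s.k p β = f0a_p_ord s.k p (∏ j, b j) := s.x7a_ord hq (by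
    rw [hβ, map_prod, Units.coe_prod, IntermediateField.coe_prod, map_prod]
    exact Finset.prod_congr rfl fun j _ => hb j)
  have h3 := Equiv.prod_comp e fun j => ψ (g j) ^ f0a_p_ord s.k p (b j)
  rw [Finset.prod_congr rfl fun j _ => by rw [(h1 j).1, (h1 j).2, mul_zpow],
    Finset.prod_mul_distrib, mul_eq_right] at h3
  rw [h2, s.x7a_sum, h3]

theorem x7b_pow {x : ℂ} {o : ℤ} {c d : ℕ} (h : x ^ o = 1) (e : (c : ℤ) = d + o) :
    x ^ c = x ^ d := by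
  by_cases hx : x = 0
  · rw [hx, zero_zpow_eq_one₀] at h
    rw [h, add_zero, Nat.cast_inj] at e
    rw [e]
  · rw [← zpow_natCast, e, zpow_add₀ hx, h, mul_one, zpow_natCast]

theorem x7b_hom {n : Ideal s.O} (χ : MulChar (s.Pr n) ℂ) :
    ∃ E : Ideal s.O →* ℂ, ∀ a, a ≠ ⊥ → E a = χ (s.cl n (s.ip a)) := by
  classical
  refine ⟨⟨⟨fun a => if a = ⊥ then 0 else χ (s.cl n (s.ip a)), ?_⟩, fun a b => ?_⟩,
    fun a ha => if_neg ha⟩
  · rw [Ideal.one_eq_top, if_neg top_ne_bot, ip_top, map_one, map_one]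
  · dsimp only
    by_cases ha : a = ⊥
    · rw [if_pos ha, if_pos (by rw [ha, Ideal.bot_mul]), zero_mul]
    by_cases hb : b = ⊥
    · rw [if_pos hb, if_pos (by rw [hb, Ideal.mul_bot]), mul_zero]
    rw [if_neg ha, if_neg hb, if_neg (show ¬a * b = ⊥ from mul_ne_zero ha hb), s.ip_mul ha hb,
      map_mul, map_mul]

theorem x7b_fac (E : Ideal s.O →* ℂ) {a b : Ideal s.O} (ha : a ≠ 0) (hb : b ≠ 0)
    (h : ∀ p : HeightOneSpectrum s.O,
      E p.asIdeal ^ (Associates.mk p.asIdeal).count (Associates.mk a).factors =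
        E p.asIdeal ^ (Associates.mk p.asIdeal).count (Associates.mk b).factors) : E a = E b := by
  rw [← Ideal.finprod_heightOneSpectrum_factorization ha,
    ← Ideal.finprod_heightOneSpectrum_factorization hb,
    E.map_finprod (Ideal.hasFiniteMulSupport ha), E.map_finprod (Ideal.hasFiniteMulSupport hb)]
  refine finprod_congr fun p => ?_
  rw [HeightOneSpectrum.maxPowDividing, HeightOneSpectrum.maxPowDividing, map_pow, map_pow, h p]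

theorem x7b_zero {a : s.O} (ha : Ideal.span {a} ≠ 0) (p : HeightOneSpectrum s.O)
    (h : a ∉ p.asIdeal) :
    (Associates.mk p.asIdeal).count (Associates.mk (Ideal.span {a})).factors = 0 := by
  by_contra h0
  exact h (Ideal.le_of_dvd ((Associates.count_ne_zero_iff_dvd ha p.irreducible).1 h0)
    (Ideal.mem_span_singleton_self a))

theorem x7b_ord (β : (s.k)ˣ) {a b : s.O} (ha : Ideal.span {a} ≠ 0) (hb : Ideal.span {b} ≠ 0)
    (e : (b : s.k) * β = a) (p : HeightOneSpectrum s.O) :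
    ((Associates.mk p.asIdeal).count (Associates.mk (Ideal.span {a})).factors : ℤ) =
      (Associates.mk p.asIdeal).count (Associates.mk (Ideal.span {b})).factors +
        f0a_p_ord s.k p β := by
  have e' : algebraMap s.O s.k a = algebraMap s.O s.k b * β := e.symm
  rw [← FractionalIdeal.count_coe s.k p ha, ← FractionalIdeal.count_coe s.k p hb, f0a_p_ord,
    ← FractionalIdeal.count_mul s.k p (FractionalIdeal.coeIdeal_ne_zero.2 hb) (f0a_p_ne s.k β),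
    FractionalIdeal.coeIdeal_span_singleton, FractionalIdeal.coeIdeal_span_singleton,
    FractionalIdeal.spanSingleton_mul_spanSingleton, e']

theorem x7b_den (β : s.k)
    (h : ∀ V : ValuationSubring ℂ, V.valuation m < 1 → V.valuation (β : ℂ) ≤ 1) :
    ∃ a b : s.O, (b : s.k) * β = a ∧ b - 1 ∈ Ideal.span {(m : s.O)} := by
  let D : Ideal s.O :=
    { carrier := {b | ∃ a : s.O, algebraMap s.O s.k b * β = algebraMap s.O s.k a}
      add_mem' := by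
        rintro b b' ⟨a, e⟩ ⟨a', e'⟩
        exact ⟨a + a', by rw [map_add, map_add, add_mul, e, e']⟩
      zero_mem' := ⟨0, by rw [map_zero, zero_mul]⟩
      smul_mem' := by
        rintro c b ⟨a, e⟩
        exact ⟨c * a, by rw [smul_eq_mul, map_mul, map_mul, mul_assoc, e]⟩ }
  have hD : D ⊔ Ideal.span {(m : s.O)} = ⊤ := by
    by_contra h0
    obtain ⟨q, hq, hle⟩ := Ideal.exists_le_maximal _ h0
    obtain ⟨V, hV⟩ := s.x4_val hq
    have h1 : V.valuation m < 1 := by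
      rw [← s.c_nat]
      exact (hV _).2 (hle (Ideal.mem_sup_right (Ideal.mem_span_singleton_self _)))
    obtain ⟨a, b, hb, e⟩ := e1_loc (algebraMap s.k ℂ) V.valuation (x := β) (h V h1)
    exact ((hV b).2 (hle (Ideal.mem_sup_left (show b ∈ D from ⟨a, e⟩)))).ne hb
  obtain ⟨b, ⟨a, e⟩, y, hy, e1⟩ := Submodule.mem_sup.1 ((Ideal.eq_top_iff_one _).1 hD)
  refine ⟨a, b, e, ?_⟩
  rw [← e1, sub_add_cancel_left]
  exact neg_mem hy

theorem x7_glob (hm : 0 < m) (χ : MulChar (s.Pr (Ideal.span {(m : s.O)})) ℂ) (β : (s.k)ˣ)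
    (h : ∀ p : HeightOneSpectrum s.O, (m : s.O) ∉ p.asIdeal →
      χ (s.cl _ (s.ip p.asIdeal)) ^ f0a_p_ord s.k p β = 1) {u : s.O}
    (hu : ∀ V : ValuationSubring ℂ, V.valuation m < 1 → V.valuation (s.c u) = 1 ∧
      V.valuation (((β : s.k) : ℂ) - s.c u) ≤ V.valuation m) :
    χ (s.cl _ (s.np u)) = 1 := by
  obtain ⟨a, b, e, hb⟩ := s.x7b_den (m := m) (β : s.k) fun V hV => by
    have h1 := V.valuation.map_add_le ((hu V hV).2.trans hV.le) (hu V hV).1.le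
    rwa [sub_add_cancel] at h1
  by_cases hb0 : b = 0
  · have h1 : Ideal.span {(m : s.O)} = ⊤ := by
      rw [hb0, zero_sub, neg_mem_iff] at hb
      exact (Ideal.eq_top_iff_one _).2 hb
    rw [s.cl_np_eq_one.2 (Or.inl (by rw [h1]; exact Submodule.mem_top)), map_one]
  have ec : s.c a = s.c b * ((β : s.k) : ℂ) :=
    (congrArg (algebraMap s.k ℂ) e).symm.trans (map_mul _ _ _)
  have ha0 : a ≠ 0 := fun h0 => by
    have h1 : s.c a = 0 := by rw [h0]; exact map_zero _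
    exact mul_ne_zero (s.c_ne hb0) ((map_ne_zero (algebraMap s.k ℂ)).2 β.ne_zero) (ec.symm.trans h1)
  have hau : a - u ∈ Ideal.span {(m : s.O)} := by
    have h1 : a - b * u ∈ Ideal.span {(m : s.O)} := s.x4_dvd hm fun V hV => by
      rw [c_sub, c_mul, ec, ← mul_sub, map_mul]
      exact (mul_le_of_le_one_left' (s.v_c _ b)).trans (hu V hV).2
    have h2 := add_mem h1 (Ideal.mul_mem_right u _ hb)
    rwa [show a - b * u + (b - 1) * u = a - u by ring] at h2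
  have ha' : Ideal.span {a} ≠ 0 := fun h0 => ha0 (Ideal.span_singleton_eq_bot.1 h0)
  have hb' : Ideal.span {b} ≠ 0 := fun h0 => hb0 (Ideal.span_singleton_eq_bot.1 h0)
  obtain ⟨E, hE⟩ := s.x7b_hom χ
  have h1 : E (Ideal.span {a}) = E (Ideal.span {b}) := s.x7b_fac E ha' hb' fun p => by
    by_cases hp : (m : s.O) ∈ p.asIdeal
    · have hle : Ideal.span {(m : s.O)} ≤ p.asIdeal := (Ideal.span_singleton_le_iff_mem _).2 hp
      obtain ⟨V, hV⟩ := s.x4_val p.isMaximal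
      have h2 : V.valuation m < 1 := by
        rw [← s.c_nat]
        exact (hV _).2 hp
      rw [s.x7b_zero ha' p fun h3 => ?_, s.x7b_zero hb' p fun h3 => ?_]
      · have h4 := sub_mem h3 (hle hb)
        rw [sub_sub_cancel] at h4
        exact p.isPrime.ne_top ((Ideal.eq_top_iff_one _).2 h4)
      · have h4 := sub_mem h3 (hle hau)
        rw [sub_sub_cancel] at h4
        exact ((hV u).2 h4).ne (hu V h2).1
    · exact x7b_pow (by rw [hE _ p.ne_bot]; exact h p hp) (s.x7b_ord β ha' hb' e p)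
  have h2 : s.cl (Ideal.span {(m : s.O)}) (1 * s.np u) = s.cl _ (1 * s.np a) :=
    s.cl_eq.2 ⟨1, s.sim_np hau 1⟩
  rw [one_mul, one_mul] at h2
  rw [hE _ ha', hE _ hb', s.cl_ip_span _ ha0, s.cl_ip_span _ hb0, s.cl_np_eq_one.2 (Or.inl hb),
    map_one] at h1
  rw [h2, h1]

end St


end Pool.Agent.P.MP_20768c_nt.Az.Cu

end

-- part Cu.H3
section

set_option autoImplicit false

open Complex NumberField IsDedekindDomain Filter Topology
open UpperHalfPlane hiding I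
open scoped ComplexConjugate Real MatrixGroups

namespace Pool.Agent.P.MP_20768c_nt.Az.Cu

open Pool.Agent.P.MP_20768c_nt.Az.EQ (Lt pr sp IsLat jL qN)

theorem h3_sep {G : Type} [Finite G] (a b : G → ℂ) (h : ∀ C D, a C = a D → b C = b D → C = D) :
    ∃ t : ℕ, Function.Injective fun C => a C + t * b C := by
  obtain ⟨_, ⟨t, rfl⟩, ht⟩ := (Set.infinite_range_of_injective
    (Nat.cast_injective (R := ℂ))).exists_notMem_finite
    (Set.finite_range fun p : G × G => (a p.2 - a p.1) / (b p.1 - b p.2))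
  refine ⟨t, fun C D e => ?_⟩
  have e' : a C + t * b C = a D + t * b D := e
  by_cases hb : b C = b D
  · exact h C D (by rw [hb] at e'; exact add_right_cancel e') hb
  · refine absurd ⟨(C, D), ?_⟩ ht
    rw [div_eq_iff (sub_ne_zero.2 hb)]
    linear_combination -e'

theorem h3_xx {L : Lt} (h : IsLat L) {z w : ℂ} (e : z - w ∈ L) : XX L z = XX L w := by
  rw [XX, XX, wp_congr h e]

namespace St

variable {s : St} {f : Ideal s.O} {ω ω' : s.Pair → ℂ}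

theorem h3_fix (σ : s.Au) {x : ℂ} (hx : x ∈ s.k) : σ x = x := σ.commutes ⟨x, hx⟩

theorem h3_neg (s : St) (x : ℂ) : s.sc (-x) = s.sc x := by
  refine le_antisymm ?_ ?_
  · exact (Submodule.span_singleton_le_iff_mem _ _).2 (neg_mem (s.mem_sc x))
  · exact (Submodule.span_singleton_le_iff_mem _ _).2 (neg_mem_iff.1 (s.mem_sc (-x)))

theorem h3_L {n : Ideal s.O} {x : ℂ} {p q : s.Pair} (h : s.Sim n x p q) (g : Ideal s.O) :
    s.zl (s.idl g * q.L) = pr x * s.zl (s.idl g * p.L) := by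
  rw [h.2.1, mul_left_comm, s.zl_sc]

theorem h3_ipL (p : s.Pair) {a : Ideal s.O} (ha : a ≠ ⊥) (g : Ideal s.O) :
    s.idl g * (p * s.ip a).L = s.idl g * p.L * s.inv a := by
  rw [s.mul_L, s.ip_L ha, mul_assoc]

theorem h3_ipρ (p : s.Pair) (a : Ideal s.O) : (p * s.ip a).ρ = p.ρ := by
  rw [s.mul_ρ, s.ip_ρ, mul_one]

theorem h3_eF {D : ℕ} (hD : 0 < D) (p : s.Pair) :
    eF (s.zl (s.idl (f * Ideal.span {(D : s.O)}) * p.L)) p.ρ =
      eF (s.zl (s.idl f * p.L)) (p.ρ / D) / D := by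
  have h0 : (D : ℂ) ≠ 0 := by exact_mod_cast hD.ne'
  rw [← eF_sc _ h0, mul_div_cancel₀ _ h0, s.idl_mul, s.idl_span, s.c_nat, mul_comm (s.idl f),
    mul_assoc, s.zl_sc]

theorem h3_lv_ne (s : St) (f : Ideal s.O) : s.lv f ≠ ⊤ := fun e =>
  s.p2_max.ne_top (eq_top_iff.2 (e.ge.trans ((s.lv_le f).2.trans
    (Ideal.pow_le_self two_ne_zero))))

theorem h3_act (hf : Odd (Ideal.absNorm f)) {d : ℕ} (hd : 0 < d) {σ : s.Au} {a : Ideal s.O}
    (hA : s.Art (4 * Ideal.absNorm f * (4 * d)) σ a) {p : s.Pair}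
    (hp : IsUnit (s.cl (s.lv f) p)) (hq : IsUnit (s.cl (s.lv f) (p * s.ip a))) :
    σ (s.oms f p * eF (s.zl (s.idl f * p.L)) (p.ρ / (4 * d : ℕ))) =
      s.oms f (p * s.ip a) *
        eF (s.zl (s.idl f * (p * s.ip a).L)) ((p * s.ip a).ρ / (4 * d : ℕ)) := by
  have hN : 0 < Ideal.absNorm f := hf.pos
  have h0 : (d : ℂ) ≠ 0 := by exact_mod_cast hd.ne'
  obtain ⟨e1, e2, -⟩ := s.eta_spec hf hp
  rw [oms, oms, if_pos hp, if_pos hq, h3_ipL p hA.1, h3_ipρ]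
  refine art_oc_eF (by positivity) hA ((s.isUnit_idl (s.odd_ne hf)).mul p.unit) ?_ ?_ ?_ e2
  · have := s.mul_mem_idl (f.mul_mem_left 4 f.absNorm_mem) p.mem
    rw [show (4 : s.O) * (Ideal.absNorm f : ℕ) = ((4 * Ideal.absNorm f : ℕ) : s.O) by push_cast; rfl,
      s.c_nat] at this
    refine (congrArg (· ∈ s.idl f * p.L) ?_).mp this
    push_cast
    field_simp
  · intro h
    have := s.c_mul_mem (((2 * d * Ideal.absNorm f : ℕ) : s.O) * s.w ^ 2) h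
    rw [s.c_mul, s.c_nat, s.c_pow] at this
    refine e2 ((congrArg (· ∈ s.idl f * p.L) ?_).mp this)
    rw [eta]
    push_cast
    field_simp
  · have := s.c_mul_mem ((Ideal.absNorm f * (4 * d) : ℕ) : s.O) e1
    rw [s.c_nat] at this
    refine (congrArg (· ∈ s.idl f * p.L) ?_).mp this
    push_cast
    ring

theorem h3_exp {D : ℕ} (hD : 0 < D) (B : ℤ) {a b : ℕ} (h : a ≡ b [MOD D]) :
    cexp (2 * π * I * (B * a) / D) = cexp (2 * π * I * (B * b) / D) := by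
  have h0 : (D : ℂ) ≠ 0 := by exact_mod_cast hD.ne'
  obtain ⟨t, ht⟩ := (Nat.modEq_iff_dvd.1 h)
  have e : (b : ℂ) = a + D * t := by
    have : ((b : ℤ) : ℂ) - (a : ℤ) = D * t := by exact_mod_cast congrArg (Int.cast : ℤ → ℂ) ht
    push_cast at this
    linear_combination this
  refine Complex.exp_eq_exp_iff_exists_int.2 ⟨-(B * t), ?_⟩
  rw [e]
  push_cast
  field_simp
  ring

/-- The two coordinates of a ray class. -/
noncomputable def h3y (s : St) (n : Ideal s.O) (t : ℕ) (p : s.Pair) : ℂ :=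
  jL (s.zl (s.idl n * p.L)) + t * XX (s.zl (s.idl n * p.L)) p.ρ

theorem h3_inv {n : Ideal s.O} (hn : n ≠ ⊥) (t : ℕ) : s.Inv n (s.h3y n t) := by
  intro x p q h
  have u1 := (s.isUnit_idl hn).mul p.unit
  have u2 := (s.isUnit_idl hn).mul q.unit
  have e1 : jL (s.zl (s.idl n * p.L)) = jL (s.zl (s.idl n * q.L)) :=
    (s.j_eq u1 u2).2 ⟨x, h.1, by rw [h.2.1, mul_left_comm]⟩
  have e2 : XX (s.zl (s.idl n * q.L)) q.ρ = XX (s.zl (s.idl n * p.L)) p.ρ := by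
    rw [h3_xx (s.isLat_zl u2) (s.mem_zl.2 h.2.2), h3_L h, XX_sc _ h.1]
  rw [h3y, h3y, e1, e2]

theorem h3_inj {n : Ideal s.O} (hn : n ≠ ⊥) (hn' : n ≠ ⊤) {p q : s.Pair}
    (hp : IsUnit (s.cl n p)) (hq : IsUnit (s.cl n q))
    (e1 : jL (s.zl (s.idl n * p.L)) = jL (s.zl (s.idl n * q.L)))
    (e2 : XX (s.zl (s.idl n * p.L)) p.ρ = XX (s.zl (s.idl n * q.L)) q.ρ) :
    s.cl n p = s.cl n q := by
  have u0 := s.isUnit_idl hn
  have u2 := u0.mul q.unit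
  obtain ⟨x, hx, e⟩ := (s.j_eq (u0.mul p.unit) u2).1 e1
  have e3 : q.L = s.sc x * p.L := u0.mul_left_cancel (e.trans (mul_left_comm _ _ _))
  have k1 := s.unit_not_mem hq le_rfl hn'
  have k2 : x * p.ρ ∉ s.idl n * q.L := by
    rw [e, s.mul_mem_sc' hx]
    exact s.unit_not_mem hp le_rfl hn'
  have e4 : XX (s.zl (s.idl n * q.L)) q.ρ = XX (s.zl (s.idl n * q.L)) (x * p.ρ) := by
    rw [← e2, e, s.zl_sc, XX_sc _ hx]
  rcases s.XX_inj u2 k1 k2 e4 with h | h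
  · exact s.cl_eq.2 ⟨x, hx, e3, h⟩
  · exact s.cl_eq.2 ⟨-x, neg_ne_zero.2 hx, by rw [h3_neg, e3], by rwa [neg_mul, sub_neg_eq_add]⟩

theorem Rat.wt (hf : Odd (Ideal.absNorm f)) (h : s.Rat f ω) :
    s.IsWt (s.lv f) ω ∧ s.Supp (s.lv f) ω := by
  obtain ⟨g, h1, h2, -⟩ := h
  obtain ⟨⟨k1, k2⟩, k3⟩ := s.oms_wt hf
  refine ⟨⟨fun x p q e => ?_, fun p hp => ?_⟩, fun p hp => ?_⟩
  · rw [h2, h2, h1 x p q e, k1 x p q e, mul_left_comm]
  · rw [h2, k2 p hp, mul_zero]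
  · rw [h2, k3 p hp, mul_zero]

theorem rat_zero (s : St) (f : Ideal s.O) : s.Rat f fun _ => 0 := by
  exact ⟨fun _ => 0, fun _ _ _ _ => rfl, fun _ => (zero_mul _).symm, fun σ _ _ _ _ => map_zero σ⟩

theorem Rat.add (h : s.Rat f ω) (h' : s.Rat f ω') : s.Rat f fun p => ω p + ω' p := by
  obtain ⟨g, h1, h2, h3⟩ := h
  obtain ⟨g', k1, k2, k3⟩ := h'
  refine ⟨fun p => g p + g' p, fun x p q e => ?_, fun p => ?_, fun σ b hA p hp => ?_⟩
  · simp only [h1 x p q e, k1 x p q e]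
  · simp only [h2, k2, add_mul]
  · simp only [map_add, h3 σ b hA p hp, k3 σ b hA p hp]

theorem Rat.smul (h : s.Rat f ω) {x : ℂ} (hx : x ∈ s.k) : s.Rat f fun p => x * ω p := by
  obtain ⟨g, h1, h2, h3⟩ := h
  refine ⟨fun p => x * g p, fun y p q e => ?_, fun p => ?_, fun σ b hA p hp => ?_⟩
  · simp only [h1 y p q e]
  · simp only [h2, mul_assoc]
  · simp only [map_mul, h3 σ b hA p hp, h3_fix σ hx]

/-- The summand of the modular symbol. -/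
noncomputable def h3T (s : St) (n : Ideal s.O) (ω : s.Pair → ℂ) (B : ℤ) (D : ℕ) (p : s.Pair) : ℂ :=
  cexp (2 * π * I * (B * s.Qn p) / D) * ω p * eF (s.zl (s.idl n * p.L)) p.ρ

theorem h3_Tinv {n : Ideal s.O} (hw : s.IsWt n ω) (B : ℤ) {D : ℕ} (hD : 0 < D)
    (hn : n ≤ Ideal.span {(D : s.O)}) : s.Inv n (s.h3T n ω B D) := fun x p q e => by
  have e1 : eF (s.zl (s.idl n * q.L)) q.ρ = eF (s.zl (s.idl n * p.L)) p.ρ / x := by
    rw [← eF_sc _ e.1, ← h3_L e, ← eF_add _ (x * p.ρ) (s.mem_zl.2 e.2.2), add_sub_cancel]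
  rw [h3T, h3T, e1, hw.1 x p q e, h3_exp hD _ (s.Qn_mod hn (s.cl_eq.2 ⟨x, e⟩))]
  generalize cexp _ = A
  have hx := e.1
  field_simp

theorem h3_root {m D : ℕ} (hD : 0 < D) (hm : D ∣ m) {σ : s.Au} {a : Ideal s.O}
    (hA : s.Art m σ a) (B : ℤ) (p : s.Pair) : σ (cexp (2 * π * I * (B * s.Qn p) / D)) =
      cexp (2 * π * I * (B * s.Qn (p * s.ip a)) / D) := by
  have h0 : (D : ℂ) ≠ 0 := by exact_mod_cast hD.ne'
  obtain ⟨t, rfl⟩ := hm
  rw [hA.2.2.2, ← Complex.exp_nat_mul, s.Qn_mul, s.Qn_ip hA.1, Nat.cast_mul (s.Qn p)]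
  · congr 1
    ring
  · rw [← Complex.exp_nat_mul]
    refine Complex.exp_eq_one_iff.2 ⟨t * (B * s.Qn p), ?_⟩
    push_cast
    field_simp

theorem h3_Tact (hf : Odd (Ideal.absNorm f)) (h : s.Rat f ω) (B : ℤ) {d : ℕ} (hd : 0 < d)
    {σ : s.Au} {a : Ideal s.O} (hA : s.Art (4 * Ideal.absNorm f * (4 * d)) σ a)
    (hu : IsUnit (s.cl (s.lv f) (s.ip a))) (p : s.Pair) :
    σ (s.h3T (f * Ideal.span {((4 * d : ℕ) : s.O)}) ω B (4 * d) p) =
      s.h3T (f * Ideal.span {((4 * d : ℕ) : s.O)}) ω B (4 * d) (p * s.ip a) := by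
  have hs := (h.wt hf).2
  obtain ⟨g, -, h2, h3⟩ := h
  have hD : 0 < 4 * d := by positivity
  by_cases hp : IsUnit (s.cl (s.lv f) p)
  · have hq : IsUnit (s.cl (s.lv f) (p * s.ip a)) := by
      rw [map_mul]
      exact hp.mul hu
    have e1 := h3_root hD (dvd_mul_left _ _) hA B p
    have e2 := h3_act hf hd hA hp hq
    have e3 := h3 σ a (hA.mono (dvd_mul_right _ _)) p hp
    rw [map_mul] at e2
    rw [h3T, h3T, h2, h2, h3_eF hD, h3_eF hD, map_mul, map_mul, map_mul, map_div₀, map_natCast,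
      e1, e3]
    linear_combination cexp (2 * π * I * (B * s.Qn (p * s.ip a)) / (4 * d : ℕ)) *
      g (p * s.ip a) / (4 * d : ℕ) * e2
  · rw [h3T, h3T, hs p hp, hs _ fun h => hp (isUnit_of_mul_isUnit_left (by rwa [map_mul] at h)),
      mul_zero, zero_mul, map_zero, mul_zero, zero_mul]

theorem Sy_rat (hf : Odd (Ideal.absNorm f)) (h : s.Rat f ω) (r : ℚ) : s.Sy ω r ∈ s.k := by
  obtain ⟨B, d, hd, rfl⟩ : ∃ (B : ℤ) (d : ℕ), 0 < d ∧ r = (B : ℚ) / ((4 * d : ℕ) : ℚ) :=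
    ⟨4 * r.num, r.den, r.den_pos, by
      push_cast
      rw [mul_div_mul_left _ _ (by norm_num : (4 : ℚ) ≠ 0), Rat.num_div_den]⟩
  have hw := (h.wt hf).1
  have hD : 0 < 4 * d := by positivity
  have hN : 0 < Ideal.absNorm f := hf.pos
  have hm : 0 < 4 * Ideal.absNorm f * (4 * d) := by positivity
  have h4 : Ideal.span {((4 * d : ℕ) : s.O)} ≤ s.p2 ^ 2 := by
    have h2 : (2 : s.O) ∈ s.p2 := Ideal.subset_span (Set.mem_insert _ _)
    rw [Ideal.span_singleton_le_iff_mem, show ((4 * d : ℕ) : s.O) = 2 ^ 2 * d by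
      push_cast; ring]
    exact Ideal.mul_mem_right _ _ (Ideal.pow_mem_pow h2 2)
  have hle : f * Ideal.span {((4 * d : ℕ) : s.O)} ≤ s.lv f := Ideal.mul_mono_right h4
  have hn0 : f * Ideal.span {((4 * d : ℕ) : s.O)} ≠ ⊥ := mul_ne_zero (s.odd_ne hf) fun e => by
    have : ((4 * d : ℕ) : s.O) = 0 := Ideal.span_singleton_eq_bot.1 e
    exact hD.ne' (by exact_mod_cast this)
  have e : s.Sy ω (B / (4 * d : ℕ)) = ∑ᶠ C : s.Pr (f * Ideal.span {((4 * d : ℕ) : s.O)}),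
      s.h3T (f * Ideal.span {((4 * d : ℕ) : s.O)}) ω B (4 * d) (s.out C) :=
    s.Sy_eq hn0 (Ideal.mul_le_right.trans h4) (hw.mono hle) B hD Ideal.mul_le_right
  rw [e]
  refine s.mem_k_of_fixed fun σ => ?_
  obtain ⟨a, hA⟩ := exists_art hm σ
  have hu : IsUnit (s.cl (f * Ideal.span {((4 * d : ℕ) : s.O)}) (s.ip a)) := hA.unit hm (by
    rw [Nat.cast_mul (4 * Ideal.absNorm f), Nat.cast_mul 4 (Ideal.absNorm f)]
    exact Ideal.mul_mem_mul (f.mul_mem_left _ f.absNorm_mem) (Ideal.mem_span_singleton_self _))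
  have := s.finite_Pr hn0
  rw [map_finsum σ (Set.toFinite _), ← s.sum_mul (h3_Tinv (hw.mono hle) B hD Ideal.mul_le_right) hu]
  exact finsum_congr fun C => h3_Tact hf h B hd hA (s.unit_mono hle hu) _

theorem rat_span (hf : Odd (Ideal.absNorm f)) (h : s.IsWt (s.lv f) ω) (h0 : s.Supp (s.lv f) ω) :
    ∃ (N : ℕ) (μ : ℕ → ℂ) (w : ℕ → s.Pair → ℂ), (∀ i, s.Rat f (w i)) ∧
      ω = fun p => ∑ i ∈ Finset.range N, μ i * w i p := by
  classical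
  have hn0 := s.lv_ne (s.odd_ne hf)
  have := s.finite_Pr hn0
  have := Fintype.ofFinite (s.Pr (s.lv f))ˣ
  obtain ⟨⟨k1, -⟩, k3⟩ := s.oms_wt hf
  obtain ⟨t, ht⟩ := h3_sep (fun C : (s.Pr (s.lv f))ˣ => jL (s.zl (s.idl (s.lv f) * (s.out C.1).L)))
    (fun C => XX (s.zl (s.idl (s.lv f) * (s.out C.1).L)) (s.out C.1).ρ) fun C D e1 e2 => by
      have := h3_inj hn0 (s.h3_lv_ne f) (s.unit_out C) (s.unit_out D) e1 e2
      rw [s.cl_out, s.cl_out] at this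
      exact Units.ext this
  let P := Lagrange.interpolate Finset.univ
    (fun C : (s.Pr (s.lv f))ˣ => s.h3y (s.lv f) t (s.out C.1))
    fun C => ω (s.out C.1) / s.oms f (s.out C.1)
  have hP : ∀ C : (s.Pr (s.lv f))ˣ, P.eval (s.h3y (s.lv f) t (s.out C.1)) =
      ω (s.out C.1) / s.oms f (s.out C.1) := fun C =>
    Lagrange.eval_interpolate_at_node _ ht.injOn (Finset.mem_univ C)
  refine ⟨P.natDegree + 1, P.coeff, fun i p => s.h3y (s.lv f) t p ^ i * s.oms f p,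
    fun i => ⟨fun p => s.h3y (s.lv f) t p ^ i, fun x p q e => ?_, fun _ => rfl,
      fun σ b hA p hp => ?_⟩, funext fun p => ?_⟩
  · simp only [h3_inv hn0 t x p q e]
  · obtain ⟨e1, e2⟩ := hA.2.2.1 _ ((s.isUnit_idl hn0).mul p.unit)
    have e3 := e2 p.ρ (by
      rw [← s.c_nat]
      exact s.mul_mem_idl (s.four_mem f) p.mem) (s.unit_not_mem hp le_rfl (s.h3_lv_ne f))
    simp only [h3y, map_pow, map_add, map_mul, map_natCast, e1, e3, h3_ipL p hA.1, h3_ipρ]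
  · simp only [← mul_assoc, ← Finset.sum_mul]
    rw [← Polynomial.eval_eq_sum_range]
    by_cases hp : IsUnit (s.cl (s.lv f) p)
    · obtain ⟨C, hC⟩ := hp
      obtain ⟨x, hx⟩ := s.cl_eq.1 ((s.cl_out C.1).trans hC)
      have := s.oms_ne hf (s.unit_out C)
      rw [h3_inv hn0 t x _ _ hx, hP, h.1 x _ _ hx, k1 x _ _ hx]
      field_simp
    · rw [h0 p hp, k3 p hp, mul_zero]

end St

end Pool.Agent.P.MP_20768c_nt.Az.Cu

end

-- part Cu.U0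
section

set_option autoImplicit false

open Complex NumberField IsDedekindDomain Filter Topology
open UpperHalfPlane hiding I
open scoped ComplexConjugate Real MatrixGroups

namespace Pool.Agent.P.MP_20768c_nt.Az.Cu

open Pool.Agent.P.MP_20768c_nt.Az.EQ (Lt pr sp IsLat jL qN)

namespace St

variable {s : St} {f : Ideal s.O} {c n : ℕ} {p : s.Pair} {sb : (ZMod (2 ^ n))ˣ → s.Au}
  {κ : (ZMod (2 ^ n))ˣ →* (s.Pr (s.md f n))ˣ}

theorem u0_div {L : s.Sub} {y : ℂ} (h : y ∈ s.idl (s.md f n) * L) : y / 2 ^ n ∈ s.idl f * L := by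
  rw [md, s.idl_mul, s.idl_span, mul_comm (s.idl f), mul_assoc, s.mem_sc_mul] at h
  obtain ⟨z, hz, rfl⟩ := h
  have e : s.c 2 = 2 := by simpa using s.c_nat 2
  rwa [s.c_pow, e, mul_div_cancel_left₀ _ (pow_ne_zero _ two_ne_zero)]

theorem u0_unit (hc : s.Cc f c) (p : s.Pair) : IsUnit (s.idl f * p.L) :=
  (s.isUnit_idl (s.odd_ne hc.1)).mul p.unit

theorem u0_pos (hc : s.Cc f c) (n : ℕ) : 0 < c * Ideal.absNorm f * 2 ^ n :=
  Nat.mul_pos (Nat.mul_pos hc.spec.1.pos hc.1.pos) (by positivity)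

theorem u0_nat {L : s.Sub} {y : ℂ} (h : y ∈ L) (j : ℕ) : (j : ℂ) * y ∈ L := by
  rw [← s.c_nat]
  exact s.c_mul_mem _ h

theorem u0_nf (f : Ideal s.O) (p : s.Pair) : (Ideal.absNorm f : ℂ) * p.ρ ∈ s.idl f * p.L := by
  rw [← s.c_nat]
  exact s.mul_mem_idl (Ideal.absNorm_mem f) p.mem

theorem u0_oms (hp : IsUnit (s.cl (s.lv f) p)) :
    s.oms f p = oc (s.zl (s.idl f * p.L)) (s.eta f * p.ρ) := by
  rw [oms, if_pos hp]

theorem oe_inv (hc : s.Cc f c) (hn : 2 ≤ n) :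
    s.Inv (s.md f n) fun p => s.oms f p * s.ecp f c n p := by
  intro x p q h
  have h1 := ((s.oms_wt hc.1).1.mono (s.md_le_lv f hn)).1 x p q h
  obtain ⟨h0, hL, hρ⟩ := h
  have e : q.ρ / 2 ^ n = x * (p.ρ / 2 ^ n) + (q.ρ - x * p.ρ) / 2 ^ n := by ring
  have h2 : s.ecp f c n q = s.ecp f c n p / x := by
    rw [ecp, ecp, e, ec_add (s.isLat_zl (u0_unit hc q)) c _ (s.mem_zl.2 (u0_div hρ)), hL,
      mul_left_comm, s.zl_sc, ec_sc (s.isLat_zl (u0_unit hc p)) h0 hc.spec.1.pos]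
  beta_reduce
  rw [h1, h2]
  field_simp

theorem art_thp (hc : s.Cc f c) (hn : 2 ≤ n) {σ : s.Au} {a : Ideal s.O}
    (hA : s.Art (c * Ideal.absNorm f * 2 ^ n) σ a) (hp : IsUnit (s.cl (s.md f n) p)) :
    σ (s.thp f c n p) = s.thp f c n (p * s.ip a) ∧
      σ (s.oms f p * s.ecp f c n p) = s.oms f (p * s.ip a) * s.ecp f c n (p * s.ip a) := by
  have hL := u0_unit hc p
  have hd : c ∣ c * Ideal.absNorm f * 2 ^ n := (dvd_mul_right c _).mul_right _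
  have hz : ((c * Ideal.absNorm f * 2 ^ n : ℕ) : ℂ) * (p.ρ / 2 ^ n) ∈ s.idl f * p.L := by
    have e : ((c * Ideal.absNorm f * 2 ^ n : ℕ) : ℂ) * (p.ρ / 2 ^ n) =
        c * (Ideal.absNorm f * p.ρ) := by
      push_cast
      field_simp
    rw [e]
    exact u0_nat (u0_nf f p) c
  have hz' : p.ρ / 2 ^ n ∉ s.idl f * p.L := fun h =>
    (s.thp_gen hc (by omega) hp).2 (u0_nat h c)
  have hp' := s.unit_mono (s.md_le_lv f hn) hp
  have hq : IsUnit (s.cl (s.lv f) (p * s.ip a)) := by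
    rw [map_mul]
    exact hp'.mul (hA.unit (u0_pos hc n) (s.md_le_lv f hn (s.mm_mem f c n)))
  obtain ⟨e1, e2, -⟩ := s.eta_spec hc.1 hp'
  have hQ : ((c * Ideal.absNorm f * 2 ^ n : ℕ) : ℂ) * (s.eta f * p.ρ) ∈ s.idl f * p.L := by
    obtain ⟨j, rfl⟩ := Nat.exists_eq_add_of_le hn
    have e : ((c * Ideal.absNorm f * 2 ^ (2 + j) : ℕ) : ℂ) * (s.eta f * p.ρ) =
        ((c * Ideal.absNorm f * 2 ^ j : ℕ) : ℂ) * (4 * (s.eta f * p.ρ)) := by
      push_cast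
      ring
    rw [e]
    exact u0_nat e1 _
  have k1 : s.idl f * (p * s.ip a).L = s.idl f * p.L * s.inv a := by
    rw [mul_L, s.ip_L hA.1, mul_assoc]
  have k2 : (p * s.ip a).ρ = p.ρ := by rw [mul_ρ, s.ip_ρ, mul_one]
  rw [u0_oms hp', u0_oms hq, thp, thp, ecp, ecp, k1, k2]
  exact ⟨art_tht hA hL hc.spec.1 hc.spec.2.1 hd hz hz',
    art_oc_ec hA hL hc.spec.1 hd hz hz' hQ e2⟩

theorem u0_act (hc : s.Cc f c) (hn : 2 ≤ n) (hκ : s.Kap f n κ) {σ : s.Au} (hI : Inert s.v σ)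
    {b : (ZMod (2 ^ n))ˣ} (hb : σ (zt n) = zt n ^ (b : ZMod (2 ^ n)).val)
    (hp : IsUnit (s.cl (s.md f n) p)) {q : s.Pair}
    (hq : s.cl (s.md f n) q = s.cl (s.md f n) p * κ b) : σ (s.thp f c n p) = s.thp f c n q ∧
      σ (s.oms f p * s.ecp f c n p) = s.oms f q * s.ecp f c n q := by
  obtain ⟨a, hA⟩ := exists_art (u0_pos hc n) σ
  have h1 := hκ.2.2 _ σ a b (u0_pos hc n) (s.mm_mem f c n) hA hI hb
  have h2 : s.cl (s.md f n) (p * s.ip a) = s.cl (s.md f n) q := by rw [map_mul, h1, hq]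
  obtain ⟨k1, k2⟩ := art_thp hc hn hA hp
  exact ⟨k1.trans ((s.thp_inv hc n).of_cl h2), k2.trans ((oe_inv hc hn).of_cl h2)⟩

theorem kap_act (hc : s.Cc f c) (hn : 2 ≤ n) (hκ : s.Kap f n κ) {σ : s.Au} (hI : Inert s.v σ)
    {b : (ZMod (2 ^ n))ˣ} (hb : σ (zt n) = zt n ^ (b : ZMod (2 ^ n)).val)
    (C : (s.Pr (s.md f n))ˣ) : σ (s.thp f c n (s.out C.1)) = s.thp f c n (s.out (C * κ b).1) ∧
      σ (s.oms f (s.out C.1) * s.ecp f c n (s.out C.1)) =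
        s.oms f (s.out (C * κ b).1) * s.ecp f c n (s.out (C * κ b).1) :=
  u0_act hc hn hκ hI hb (s.unit_out C) (by rw [s.cl_out, s.cl_out, Units.val_mul])

theorem u0_not_E1 {Γ : Type} [LinearOrderedCommGroupWithZero Γ] {v : Valuation ℂ Γ}
    (hc : s.Cc f c) (hn : 1 ≤ n) (hp : IsUnit (s.cl (s.md f n) p)) {U r : ℂ}
    (hG : Good v (s.zl (s.idl f * p.L)) U r) :
    ¬ E1 v (s.zl (s.idl f * p.L)) U r (c * (p.ρ / 2 ^ n)) := fun h => by
  have h1 := E1_int (s.isLat_zl (u0_unit hc p)) hG h (Ideal.absNorm f * 2 ^ (n - 1) : ℕ)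
  refine s.not_E1 v (u0_unit hc p) hG (s.thp_gen hc hn hp).1 ?_
  exact_mod_cast h1

theorem thp_unit {Γ : Type} [LinearOrderedCommGroupWithZero Γ] (v : Valuation ℂ Γ)
    (hc : s.Cc f c) (hn : 1 ≤ n) (hp : IsUnit (s.cl (s.md f n) p)) : v (s.thp f c n p) = 1 := by
  obtain ⟨U, r, hG⟩ := s.exists_good v (u0_unit hc p)
  exact tht_unit (s.isLat_zl (u0_unit hc p)) hG hc.spec.1 hc.spec.2.1 (u0_not_E1 hc hn hp hG)

theorem thp_fx (hc : s.Cc f c) (hn : 2 ≤ n) (hp : IsUnit (s.cl (s.md f n) p)) :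
    s.thp f c n p ∈ s.Fx n ∧ s.oms f p * s.ecp f c n p ∈ s.Fx n := by
  obtain ⟨κ, hκ⟩ := exists_kap hc.1 n
  have h1 : ∀ σ : s.Au, s.Art (c * Ideal.absNorm f * 2 ^ n) σ ⊤ →
      σ (s.thp f c n p) = s.thp f c n p ∧
        σ (s.oms f p * s.ecp f c n p) = s.oms f p * s.ecp f c n p := fun σ hA => by
    simpa only [s.ip_top, mul_one] using art_thp hc hn hA hp
  have h2 : ∀ σ : s.Au, Inert s.v σ → σ (zt n) = zt n →
      σ (s.thp f c n p) = s.thp f c n p ∧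
        σ (s.oms f p * s.ecp f c n p) = s.oms f p * s.ecp f c n p := fun σ hI hz =>
    u0_act hc hn hκ hI (b := 1)
      (by rw [hz, zt_val (a := 1) (by simp), zpow_one]) hp (by simp)
  exact ⟨⟨alg_of_art (u0_pos hc n) fun σ hA => (h1 σ hA).1, fun σ hI hz => (h2 σ hI hz).1⟩,
    alg_of_art (u0_pos hc n) fun σ hA => (h1 σ hA).2, fun σ hI hz => (h2 σ hI hz).2⟩

theorem u0_tau (hf : Odd (Ideal.absNorm f)) (hn : 2 ≤ n) (hκ : s.Kap f n κ) :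
    s.cl (s.md f n) (s.np (1 + Ideal.absNorm f * 2 ^ (n - 1) * (1 - s.w))) = κ (tau n) := by
  obtain ⟨j, rfl⟩ : ∃ j, n = j + 2 := ⟨n - 2, by omega⟩
  have e0 : j + 2 - 1 = j + 1 := rfl
  have e : (1 + Ideal.absNorm f * 2 ^ (j + 1) * (1 - s.w) : s.O) =
      ((1 + Ideal.absNorm f * 2 ^ (j + 1) : ℤ) : s.O) +
        ((-(Ideal.absNorm f * 2 ^ (j + 1)) : ℤ) : s.O) * s.w := by
    push_cast
    ring
  have h1 : s.cl (f * s.p2 ^ (j + 2))
      (s.np (1 + Ideal.absNorm f * 2 ^ (j + 1) * (1 - s.w))) = 1 := by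
    refine s.cl_np_eq_one.2 (Or.inl ?_)
    rw [add_sub_cancel_left, mul_assoc, pow_succ s.p2]
    exact Ideal.mul_mem_mul (Ideal.absNorm_mem f) (Ideal.mul_mem_mul
      (Ideal.pow_mem_pow (Ideal.subset_span (by simp)) _) (Ideal.subset_span (by simp)))
  rw [e0, ← s.cl_out (κ (tau (j + 2))).1]
  refine kap_unique hf ?_ (s.unit_out _) (by rw [h1, hκ.2.1]) ?_
  · refine (s.unit_md (s.odd_ne hf) (by omega)).2 ⟨s.unit_mono (n := f * s.p2 ^ (j + 2))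
      (Ideal.mul_mono_right (Ideal.pow_le_pow_right (by omega))) (h1 ▸ isUnit_one), ?_⟩
    rw [s.np_ρ, s.np_L, mul_one, s.c_mem_idl, e, s.mem_p1', Int.not_even_iff_odd]
    exact ⟨Ideal.absNorm f * 2 ^ j, by ring⟩
  · rw [hκ.1, tau_val hn, s.Qn_np, e, ← Int.cast_natCast, s.norm_ab, e0]
    obtain ⟨i, hi⟩ := hf
    have h2 : (2 : ZMod (2 ^ (j + 2))) ^ (j + 2) = 0 := by
      exact_mod_cast ZMod.natCast_self (2 ^ (j + 2))
    rw [hi]
    push_cast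
    linear_combination (i + s.m * (2 * i + 1) ^ 2 * 2 ^ j : ZMod (2 ^ (j + 2))) * h2

theorem thp_dl (hc : s.Cc f c) (hn : 2 ≤ n) (hs : s.IsSec n sb)
    (hp : IsUnit (s.cl (s.md f n) p)) :
    s.v (s.Dl n sb (s.thp f c n p) - s.oms f p * s.ecp f c n p) ≤ s.v 2 ∧
      s.v (s.oms f p * s.ecp f c n p) ≤ 1 := by
  obtain ⟨κ, hκ⟩ := exists_kap hc.1 n
  have hL := u0_unit hc p
  have hG := s.good_two s.v s.v_two hL
  have hp' := s.unit_mono (s.md_le_lv f hn) hp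
  obtain ⟨e1, -, e3⟩ := s.eta_spec hc.1 hp'
  have h1 := (u0_act hc hn hκ (hs (tau n)).1 (hs (tau n)).2 hp
    (q := p * s.np (1 + Ideal.absNorm f * 2 ^ (n - 1) * (1 - s.w)))
    (by rw [map_mul, u0_tau hc.1 hn hκ])).1
  have hg := (s.thp_gen hc (by omega) hp).1
  obtain ⟨j, rfl⟩ : ∃ j, n = j + 1 := ⟨n - 1, by omega⟩
  have e2 : s.c 2 = 2 := by simpa using s.c_nat 2
  have h2 : s.thp f c (j + 1) (p * s.np (1 + Ideal.absNorm f * 2 ^ (j + 1 - 1) * (1 - s.w))) =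
      tht (s.zl (s.idl f * p.L)) c
        (p.ρ / 2 ^ (j + 1) + (1 - s.c s.w) * (Ideal.absNorm f * p.ρ) / 2) := by
    rw [thp, mul_L, mul_ρ, s.np_L, s.np_ρ, mul_one, s.c_add, s.c_mul, s.c_mul, s.c_sub, s.c_one,
      s.c_nat, s.c_pow, e2, Nat.add_sub_cancel]
    congr 1
    field_simp
    ring
  have t2 : 2 * ((1 - s.c s.w) * (Ideal.absNorm f * p.ρ) / 2) ∈ s.idl f * p.L := by
    rw [mul_div_cancel₀ _ two_ne_zero, ← s.c_one, ← s.c_sub]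
    exact s.c_mul_mem _ (u0_nf f p)
  have t1 : (1 - s.c s.w) * (Ideal.absNorm f * p.ρ) / 2 ∉ s.idl f * p.L := fun h => hg.2.2 (by
    have e : (1 - s.c s.w) * (Ideal.absNorm f * 2 ^ (j + 1 - 1) * (c * (p.ρ / 2 ^ (j + 1)))) =
        c * ((1 - s.c s.w) * (Ideal.absNorm f * p.ρ) / 2) := by
      rw [Nat.add_sub_cancel]
      field_simp
      ring
    rw [e]
    exact u0_nat h c)
  have t3 : s.c s.w * ((1 - s.c s.w) * (Ideal.absNorm f * p.ρ) / 2) ∈ s.idl f * p.L := by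
    obtain ⟨i, hi⟩ := s.m_even
    have hw := s.cw_sq
    rw [hi] at hw
    push_cast at hw
    have e : s.c s.w * ((1 - s.c s.w) * (Ideal.absNorm f * p.ρ) / 2) =
        i * (Ideal.absNorm f * p.ρ) := by
      linear_combination (-(Ideal.absNorm f * p.ρ) / 2 : ℂ) * hw
    rw [e]
    exact u0_nat (u0_nf f p) i
  have h3 := dlog (s.isLat_zl hL) hG s.v_two (by norm_num [mb2]) (s.mem_zl.2 e1) e3
    (fun h => t1 (s.mem_zl.1 h)) (s.mem_zl.2 t2)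
    (s.E1_prime s.v hL hG s.p1_max.isPrime s.p1_ne (fun x hx => (s.mem_p1 x).1 hx)
      (s.mem_inv_p1.2 ⟨t2, t3⟩)) hc.spec.1 (u0_not_E1 hc (by omega) hp hG)
  rw [Dl, h1, h2, u0_oms hp']
  exact h3

end St

end Pool.Agent.P.MP_20768c_nt.Az.Cu

end

-- part Ex.X8
section

set_option autoImplicit false

open Complex NumberField IsDedekindDomain
open scoped Real

namespace Pool.Agent.P.MP_20768c_nt.Az.Cu

theorem x8_ne {G : Type} [Group G] {l r : ℕ} (hl : l.Prime) {u : G} (hu : u ^ l ^ r = 1)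
    (h : orderOf (u ^ l) ≠ 1) : u ^ orderOf (u ^ l) ≠ 1 := by
  intro h1
  have h2 : orderOf (u ^ l) ∣ l ^ r :=
    orderOf_dvd_of_pow_eq_one (by rw [← pow_mul, mul_comm, pow_mul, hu, one_pow])
  obtain ⟨j, -, hj⟩ := (Nat.dvd_prime_pow hl).1 h2
  rcases j with _ | j
  · exact h (by simpa using hj)
  · have h3 : orderOf (u ^ l) ∣ l ^ j :=
      orderOf_dvd_of_pow_eq_one (by rw [← pow_mul, ← pow_succ', ← hj, h1])
    rw [hj] at h3
    have h4 := Nat.le_of_dvd (pow_pos hl.pos j) h3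
    exact absurd h4 (not_le.2 (Nat.pow_lt_pow_right hl.one_lt (Nat.lt_succ_self j)))

theorem x8_val {Γ : Type} [LinearOrderedCommGroupWithZero Γ] (v : Valuation ℂ Γ) {x : ℂ} {n : ℕ}
    (hn : n ≠ 0) (h : x ^ n = 1) : v x = 1 := by
  have h1 : v x ^ n = 1 := by rw [← map_pow, h, map_one]
  exact (pow_eq_one_iff_of_nonneg zero_le hn).1 h1

namespace St

variable (s : St) {l m r : ℕ}

theorem x8_tel (τ : s.Au) {α : ℂ} (h0 : α ≠ 0) (n : ℕ) :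
    ∏ i : Fin n, (τ ^ i.1) (τ α / α) = (τ ^ n) α / α := by
  induction n with
  | zero => simp [h0]
  | succ n ih =>
    have h1 : (τ ^ n) α ≠ 0 := (map_ne_zero _).2 h0
    rw [Fin.prod_univ_castSucc]
    simp only [Fin.val_castSucc, Fin.val_last]
    rw [ih, map_div₀, pow_succ, AlgEquiv.mul_apply]
    field_simp

theorem x8_gen (hl : l.Prime) {φ : s.Au →* ℂˣ} (hr : ∀ σ, φ σ ^ l ^ r = 1) :
    ∃ τ ∈ s.Hz l, ∀ σ, ∃! i : Fin (orderOf (φ τ ^ l)), φ σ ^ l = (φ τ ^ l) ^ i.1 := by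
  have hp : ∀ σ, (φ σ ^ l) ^ l ^ r = 1 := fun σ => by
    rw [← pow_mul, mul_comm, pow_mul, hr, one_pow]
  have : NeZero (l ^ r) := ⟨pow_ne_zero r hl.ne_zero⟩
  let S : Subgroup ℂˣ := (s.Hz l).map (φ ^ l)
  have hS : S ≤ rootsOfUnity (l ^ r) ℂ := by
    rintro _ ⟨σ, -, rfl⟩
    exact (_root_.mem_rootsOfUnity _ _).2 (hp σ)
  have : Finite S := Finite.of_injective _ (Subgroup.inclusion_injective hS)
  obtain ⟨⟨_, τ, hτ, rfl⟩, hg⟩ := IsCyclic.exists_generator (α := S)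
  refine ⟨τ, hτ, fun σ => ?_⟩
  have hm : φ σ ^ l ∈ S := by
    obtain ⟨c, hc⟩ : l - 1 ∣ l ^ r - 1 := Nat.sub_one_dvd_pow_sub_one l r
    refine ⟨(σ ^ (l ^ r - 1))⁻¹, inv_mem ?_, ?_⟩
    · rw [hc, pow_mul]
      exact pow_mem (s.x4_pow hl σ) c
    · rw [map_inv, map_pow, MonoidHom.pow_apply, inv_eq_iff_mul_eq_one, ← pow_succ,
        Nat.sub_add_cancel (pow_pos hl.pos r), hp]
  obtain ⟨z, hz⟩ := hg ⟨_, hm⟩
  have hz' : (φ τ ^ l) ^ z = φ σ ^ l := congrArg Subtype.val hz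
  have hf : IsOfFinOrder (φ τ ^ l) := isOfFinOrder_iff_pow_eq_one.2 ⟨_, pow_pos hl.pos r, hp τ⟩
  obtain ⟨i, hi⟩ := hf.mem_powers_iff_mem_zpowers.2 ⟨z, hz'⟩
  refine ⟨⟨i % orderOf (φ τ ^ l), Nat.mod_lt _ hf.orderOf_pos⟩, ?_, fun j hj => Fin.ext ?_⟩
  · change φ σ ^ l = (φ τ ^ l) ^ (i % orderOf (φ τ ^ l))
    rw [pow_mod_orderOf]
    exact hi.symm
  · refine pow_injOn_Iio_orderOf j.2 (Nat.mod_lt _ hf.orderOf_pos) ?_
    change (φ τ ^ l) ^ j.1 = (φ τ ^ l) ^ (i % orderOf (φ τ ^ l))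
    rw [pow_mod_orderOf, ← hj]
    exact hi.symm

theorem x8_fix (hl : l.Prime) {σ : s.Au} (h : σ ∈ s.Hz l) {u : ℂˣ} (hu : u ^ l = 1) :
    σ (u : ℂ) = u :=
  s.x4_fix h (s.x4_root hl.ne_zero (by rw [← Units.val_pow_eq_pow_val, hu, Units.val_one]))

theorem x8_alb (hl : l.Prime) {φ : s.Au →* ℂˣ} (hφ : s.Cts φ) (hr : ∀ σ, φ σ ^ l ^ r = 1) :
    ∃ (τ : s.Au) (n : ℕ) (y η : ℂ), τ ∈ s.Hz l ∧
      (∀ σ, ∃! i : Fin n, φ σ ^ l = (φ τ ^ l) ^ i.1) ∧ IsPrimitiveRoot η l ∧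
      (∀ σ ∈ s.Hz l, φ σ ^ l = 1 → σ y = y) ∧ ∏ i : Fin n, (τ ^ i.1) y = η := by
  obtain ⟨τ, hτ, hg⟩ := s.x8_gen hl hr
  by_cases h1 : orderOf (φ τ ^ l) = 1
  · refine ⟨τ, _, xz l, xz l, hτ, hg, xz_prim hl.ne_zero, fun σ h _ => h, ?_⟩
    rw [h1]
    simp
  have : Fact l.Prime := ⟨hl⟩
  obtain ⟨α, h0, hα⟩ := s.x4_res (s.Hz l ⊓ (φ ^ l).ker) hφ
    fun σ hσ t ht => s.x8_fix hl hσ.1 ht.2
  have hn : (φ τ ^ orderOf (φ τ ^ l)) ^ l = 1 := by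
    rw [← pow_mul, mul_comm, pow_mul, pow_orderOf_eq_one]
  refine ⟨τ, _, τ α / α, (φ τ ^ orderOf (φ τ ^ l) : ℂˣ), hτ, hg, ?_, fun σ h h' => ?_, ?_⟩
  · rw [IsPrimitiveRoot.coe_units_iff]
    have h2 := IsPrimitiveRoot.orderOf (φ τ ^ orderOf (φ τ ^ l))
    rwa [orderOf_eq_prime hn (x8_ne hl (hr τ) h1)] at h2
  · have e : φ (τ⁻¹ * σ * τ) = φ σ := by
      rw [map_mul, map_mul, map_inv, mul_right_comm, inv_mul_cancel, one_mul]
    have h5 : τ⁻¹ * σ * τ ∈ s.Hz l := mul_mem (mul_mem (inv_mem hτ) h) hτ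
    have h2 := hα (τ⁻¹ * σ * τ) ⟨h5, by
      change φ (τ⁻¹ * σ * τ) ^ l = 1
      rw [e, h']⟩
    have h3 : σ (τ α) = φ σ * τ α := by
      have h4 : σ * τ = τ * (τ⁻¹ * σ * τ) := by group
      rw [← AlgEquiv.mul_apply, h4, AlgEquiv.mul_apply, h2, e, map_mul, s.x8_fix hl hτ h']
    rw [map_div₀, h3, hα σ ⟨h, h'⟩, mul_div_mul_left _ _ (φ σ).ne_zero]
  · rw [s.x8_tel τ h0, hα _ ⟨pow_mem hτ _, by
      change φ (τ ^ orderOf (φ τ ^ l)) ^ l = 1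
      rw [map_pow, hn]⟩, mul_div_cancel_right₀ _ h0, map_pow]

theorem x8_alg {J : Type} [Finite J] {H : Subgroup s.Au} {g : J → s.Au} (h : Tv H g) {y : ℂ}
    (hy : ∀ σ ∈ H, σ y = y) : IsAlgebraic ℚ y := by
  refine s.alg_of_finite ((Set.finite_range fun j => g j y).subset ?_)
  rintro _ ⟨σ, rfl⟩
  obtain ⟨j, hj, -⟩ := h σ
  refine ⟨j, ?_⟩
  change g j y = σ y
  conv_lhs => rw [← hy _ hj, ← AlgEquiv.mul_apply, mul_inv_cancel_left]

theorem x8_kill (hl : l.Prime) {φ : s.Au →* ℂˣ} (hφ : s.Cts φ) (hr : ∀ σ, φ σ ^ l ^ r = 1)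
    (hC : s.IsC0 m) (hU : s.Unram m φ) (hm : l ∣ m)
    (χ : MulChar (s.Pr (Ideal.span {(m : s.O)})) ℂ)
    (hχ : ∀ (σ : s.Au) (b : Ideal s.O), s.Art m σ b → χ (s.cl _ (s.ip b)) = (φ σ : ℂ) ^ l)
    (Q : HeightOneSpectrum (𝓞 (s.Fz l))) (hQ : (m : 𝓞 (s.Fz l)) ∈ Q.asIdeal)
    (hF : Fre s.k Q.asIdeal) :
    ∃ u : s.O, s.LocR l m (Q.asIdeal.under s.O) u ∧ χ (s.cl _ (s.np u)) = 1 := by
  have hm0 : 0 < m := Nat.pos_of_ne_zero hC.1
  obtain ⟨τ, n, y, η, hτ, hg, hη, hy, hN⟩ := s.x8_alb hl hφ hr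
  obtain ⟨δ, a, d, -, -, -, -, hδ⟩ := s.x4_gen hl r
  obtain ⟨ν, hν, -⟩ := s.x4_cy hl
  have : (s.Hz l).Normal := hν ▸ ν.normal_ker
  have hδ1 : φ (δ ^ l ^ r) = 1 := by rw [map_pow, hr]
  have hT : Tv (s.Hz l ⊓ (φ ^ l).ker)
      fun p : Fin d × Fin n => (δ ^ l ^ r) ^ p.1.1 * τ ^ p.2.1 := by
    intro σ
    have key : ∀ p : Fin d × Fin n,
        ((δ ^ l ^ r) ^ p.1.1 * τ ^ p.2.1)⁻¹ * σ ∈ s.Hz l ⊓ (φ ^ l).ker ↔
          ((δ ^ l ^ r) ^ p.1.1)⁻¹ * σ ∈ s.Hz l ∧ φ σ ^ l = (φ τ ^ l) ^ p.2.1 := fun p => by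
      rw [Subgroup.mem_inf, mul_inv_rev, mul_assoc,
        Subgroup.mul_mem_cancel_left _ (inv_mem (pow_mem hτ _)), MonoidHom.mem_ker,
        MonoidHom.pow_apply, map_mul, map_mul, map_inv, map_inv, map_pow, map_pow, hδ1, one_pow,
        inv_one, one_mul, mul_pow, inv_pow, inv_mul_eq_one, pow_right_comm (φ τ), eq_comm]
    obtain ⟨j, hj, hj'⟩ := hδ σ
    obtain ⟨i, hi, hi'⟩ := hg σ
    refine ⟨(j, i), (key _).2 ⟨hj, hi⟩, fun p hp => ?_⟩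
    have h := (key p).1 hp
    exact Prod.ext (hj' _ h.1) (hi' _ h.2)
  have hy1 : ∀ σ ∈ s.Hz l ⊓ (φ ^ l).ker, σ y = y := fun σ h => hy σ h.1 h.2
  obtain ⟨ε, hε, u, hu, hap⟩ := s.x6_apx hl hm0 Q hQ hF hδ hτ (s.x8_alg hT hy1) hη hN
  have hy2 : ∀ σ ∈ s.Hz l ⊓ (φ ^ l).ker, σ (1 + ε * (y - 1)) = 1 + ε * (y - 1) := fun σ h => by
    rw [map_add, map_mul, map_sub, map_one, hy1 σ h, s.x4_fix h.1 hε]
  have hv : ∀ V : ValuationSubring ℂ, V.valuation m < 1 → V.valuation (s.c u) = 1 := by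
    intro V hV
    obtain ⟨e, he, he'⟩ : ∃ e : ℂ, V.valuation e = 1 ∧ V.valuation (s.c u - e) < 1 := by
      by_cases h : ∀ x ∈ Q.asIdeal.under s.O, V.valuation (s.c x) < 1
      · obtain ⟨e, h1, h2⟩ := (hu V hV).1 h
        exact ⟨e, x8_val _ hl.ne_zero h1.pow_eq_one, h2.trans_lt hV⟩
      · exact ⟨1, map_one _, ((hu V hV).2 h).trans_lt hV⟩
    rw [← he] at he' ⊢
    exact Valuation.map_eq_of_sub_lt _ he'
  have hk := s.x4_norm hT hy2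
  have h0 : (⟨_, hk⟩ : s.k) ≠ 0 := by
    intro h
    have h1 := congrArg Subtype.val h
    have : Q.asIdeal.IsMaximal := Q.isMaximal
    obtain ⟨V, hV⟩ := s.x4_val (q := Q.asIdeal.under s.O) inferInstance
    have h2 : V.valuation m < 1 := by
      have h3 := (hV (m : s.O)).2 (by
        rw [Ideal.under_def, Ideal.mem_comap, map_natCast]
        exact hQ)
      rwa [c, map_natCast] at h3
    have h4 := (hap V h2).trans_lt h2
    change ∏ p : Fin d × Fin n, _ = (0 : ℂ) at h1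
    rw [h1, zero_sub, Valuation.map_neg, hv V h2] at h4
    exact lt_irrefl _ h4
  refine ⟨u, hu, s.x7_glob hm0 χ (Units.mk0 _ h0) (fun p hp => ?_) fun V hV => ⟨hv V hV, hap V hV⟩⟩
  have hI : ∀ (V : ValuationSubring ℂ) (σ : s.Au), V.valuation m = 1 → Inert V.valuation σ →
      σ ∈ s.Hz l ⊓ (φ ^ l).ker := by
    refine fun V σ hV hI => ⟨?_, ?_⟩
    · have h2 : xz l ^ m = 1 := (xz_prim hl.ne_zero).pow_eq_one_iff_dvd m |>.2 hm
      refine root_inj V.valuation hV ?_ h2 (hI _ ?_ (x8_val _ hC.1 h2).le)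
      · rw [← smul_pow', h2, smul_one]
      · exact IsIntegral.isAlgebraic (xz_int l).tower_top
    · change φ σ ^ l = 1
      rw [hU V σ hV hI, one_pow]
  obtain ⟨σ, hσ, h1⟩ := s.x7_loc hC (φ ^ l) (s.Hz l ⊓ (φ ^ l).ker) (fun σ h => h.2)
    hI hT hy2 (s.x8_alg hT hy2) (Units.mk0 _ h0) rfl p hp
  rw [hχ σ _ hσ, ← Units.val_pow_eq_pow_val, ← Units.val_zpow_eq_zpow_val,
    ← MonoidHom.pow_apply, h1, Units.val_one]

end St


end Pool.Agent.P.MP_20768c_nt.Az.Cu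

end

-- part Ab.G5
section

set_option autoImplicit false

open Complex NumberField IsDedekindDomain Filter Topology
open UpperHalfPlane hiding I
open scoped ComplexConjugate Real MatrixGroups

namespace Pool.Agent.P.MP_20768c_nt.Az.Cu

open Pool.Agent.P.MP_20768c_nt.Az.EQ (Lt pr sp IsLat jL qN)

theorem eG_reps {L L' : Lt} {R : Finset ℂ} {z : ℂ} (h : IsLat L) (h' : IsLat L')
    (hR : Reps L L' R) (hz : z ∉ L') : eG L' z = ∑ r ∈ R, eG L (z + r) := by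
  have hi : ∀ r ∈ R, MeasureTheory.IntegrableOn
      (fun u : ℝ => ((th0 L (z + r) u).re - π / (ar L * u)) / u) (Set.Ioi 0) := fun r hr =>
    int_th0 h fun k => hz (by simpa using L'.sub_mem (hR.1 k) (hR.2.2.1 r hr))
  unfold eG
  rw [← MeasureTheory.integral_finsetSum R hi]
  refine MeasureTheory.setIntegral_congr_fun measurableSet_Ioi fun u hu => ?_
  have hu0 : (0 : ℝ) < u := hu
  have e : th0 L' z u = ∑ r ∈ R, th0 L (z + r) u := by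
    unfold th0
    rw [reps_tsum hR (f := fun l => cexp (-u * ((z + l) * conj (z + l))))
      (Summable.of_norm ((summable_th h' (u := u) (by rwa [ofReal_re]) 0 z).congr fun l => by
        rw [g2b_exp, pow_zero, one_mul, ofReal_re, norm_real,
          Real.norm_of_nonneg (Real.exp_pos _).le]))]
    simp only [add_assoc]
  have hc : (R.card : ℝ) ≠ 0 := Nat.cast_ne_zero.2 (Finset.card_ne_zero.2 ⟨0, hR.2.1⟩)
  have ha := (ar_pos h').ne'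
  rw [← Finset.sum_div, Finset.sum_sub_distrib, ← re_sum, ← e, Finset.sum_const, nsmul_eq_mul,
    ar_reps h h' hR]
  congr 2
  field_simp

theorem abg5_tower {A B L : Lt} {R R₁ R₂ : Finset ℂ} (hR : Reps A L R) (h1 : Reps B L R₁)
    (h2 : Reps A B R₂) (f : ℂ → ℂ) (hf : ∀ a ∈ L, ∀ l ∈ A, f (a + l) = f a) :
    ∑ r ∈ R, f r = ∑ r ∈ R₁, ∑ r' ∈ R₂, f (r + r') := by
  classical
  have inj : ∀ p ∈ R₁ ×ˢ R₂, ∀ p' ∈ R₁ ×ˢ R₂, p.1 + p.2 - (p'.1 + p'.2) ∈ A → p = p' := by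
    rintro ⟨a, b⟩ hp ⟨a', b'⟩ hp' k
    obtain ⟨ha, hb⟩ := Finset.mem_product.1 hp
    obtain ⟨ha', hb'⟩ := Finset.mem_product.1 hp'
    have k1 : a = a' := h1.sub_mem ha ha' (by
      have := B.add_mem (B.sub_mem (h2.1 k) (h2.2.2.1 b hb)) (h2.2.2.1 b' hb')
      rwa [show a + b - (a' + b') - b + b' = a - a' by ring] at this)
    subst k1
    exact Prod.ext rfl (h2.sub_mem hb hb' (by simpa using k))
  have hR' : Reps A L ((R₁ ×ˢ R₂).image fun p => p.1 + p.2) := by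
    refine ⟨hR.1, Finset.mem_image.2 ⟨(0, 0), Finset.mem_product.2 ⟨h1.2.1, h2.2.1⟩, add_zero 0⟩,
      fun r hr => ?_, fun x hx => ?_⟩
    · obtain ⟨p, hp, rfl⟩ := Finset.mem_image.1 hr
      obtain ⟨ha, hb⟩ := Finset.mem_product.1 hp
      exact L.add_mem (h1.2.2.1 _ ha) (h1.1 (h2.2.2.1 _ hb))
    · obtain ⟨a, ⟨ha, ka⟩, -⟩ := h1.2.2.2 x hx
      obtain ⟨b, ⟨hb, kb⟩, -⟩ := h2.2.2.2 _ ka
      have hab : (a, b) ∈ R₁ ×ˢ R₂ := Finset.mem_product.2 ⟨ha, hb⟩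
      refine ⟨a + b, ⟨Finset.mem_image.2 ⟨(a, b), hab, rfl⟩, by rwa [← sub_sub]⟩, ?_⟩
      rintro y ⟨hy, ky⟩
      obtain ⟨p, hp, rfl⟩ := Finset.mem_image.1 hy
      rw [inj p hp (a, b) hab (by
        have := A.sub_mem kb ky
        rwa [show x - a - b - (x - (p.1 + p.2)) = p.1 + p.2 - (a + b) by ring] at this)]
  rw [hR.sum_congr hR' f hf, Finset.sum_image fun p hp p' hp' e =>
    inj p hp p' hp' (by rw [show p.1 + p.2 = p'.1 + p'.2 from e, sub_self]; exact A.zero_mem),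
    Finset.sum_product]

open Classical in
theorem abg5_filter {A Q L : Lt} {R : Finset ℂ} (hR : Reps A L R) (h1 : A ≤ Q) (h2 : Q ≤ L) :
    Reps A Q (R.filter (· ∈ Q)) := by
  refine ⟨h1, Finset.mem_filter.2 ⟨hR.2.1, Q.zero_mem⟩, fun r hr => (Finset.mem_filter.1 hr).2,
    fun x hx => ?_⟩
  obtain ⟨r, ⟨hr, k⟩, hu⟩ := hR.2.2.2 x (h2 hx)
  exact ⟨r, ⟨Finset.mem_filter.2 ⟨hr, by simpa using Q.sub_mem hx (h1 k)⟩, k⟩,
    fun y hy => hu y ⟨(Finset.mem_filter.1 hy.1).1, hy.2⟩⟩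

namespace St

variable (s : St) {n m : Ideal s.O}

theorem abg5_bij {K : s.Sub} (hK : IsUnit K) : Function.Bijective fun D : s.Pr ⊤ =>
    s.cl ⊤ (s.mkP (K * (s.out D).L) 0) := by
  have := s.finite_Pr (n := ⊤) top_ne_bot
  refine Finite.injective_iff_bijective.1 fun D D' h => ?_
  have hu : ∀ D : s.Pr ⊤, IsUnit (K * (s.out D).L) := fun D => hK.mul (s.out D).unit
  obtain ⟨x, hx, h1, -⟩ := s.cl_eq.1 h
  rw [s.mkP_L (hu D) (zero_mem _), s.mkP_L (hu D') (zero_mem _), mul_left_comm,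
    hK.mul_right_inj] at h1
  rw [← s.cl_out D, ← s.cl_out D']
  refine s.cl_eq.2 ⟨x, hx, h1, ?_⟩
  rw [s.idl_top, one_mul]
  exact sub_mem (s.out D').mem (h1 ▸ Submodule.mul_mem_mul (s.mem_sc _) (s.out D).mem)

theorem abg5_half (hn : n ≠ ⊥) (h2 : (2 : s.O) ∉ n) (φ : MulChar (s.Pr n) ℂ) {K : s.Sub}
    (hK : IsUnit K) (R : s.Pr ⊤ → Finset ℂ)
    (hR : ∀ D, Reps (s.zl (s.idl n * (K * (s.out D).L))) (s.zl (K * (s.out D).L)) (R D)) :
    2 * s.Zg n φ = ∑ᶠ D, ∑ ρ ∈ R D, (φ (s.cl n (s.mkP (K * (s.out D).L) ρ)))⁻¹ *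
      (eG (s.zl (s.idl n * (K * (s.out D).L))) ρ : ℂ) := by
  have hC := s.sum_half hn h2 (Φ := fun p => (φ (s.cl n p))⁻¹ * (s.gp n p : ℂ))
    (fun x p q h => by
      beta_reduce
      rw [s.gp_inv n hn x p q h, s.cl_eq.2 ⟨x, h⟩])
    (fun p h => by
      beta_reduce
      rw [φ.map_nonunit h, inv_zero, zero_mul])
    (fun D => K * (s.out D).L) (fun D => hK.mul (s.out D).unit) (s.abg5_bij hK) R hR
  simp only [s.cl_out] at hC
  rw [Zg, hC]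
  refine finsum_congr fun D => Finset.sum_congr rfl fun ρ hρ => ?_
  have k := s.mem_zl.1 ((hR D).2.2.1 ρ hρ)
  rw [gp, s.mkP_L (hK.mul (s.out D).unit) k, s.mkP_ρ (hK.mul (s.out D).unit) k]

open Classical in
theorem abg5_lat (hn : n ≠ ⊥) (h2 : (2 : s.O) ∉ n) (q : HeightOneSpectrum s.O)
    {φ₀ : MulChar (s.Pr n) ℂ} {φ : MulChar (s.Pr (n * q.asIdeal)) ℂ}
    (h : ∀ p, IsUnit (s.cl (n * q.asIdeal) p) → φ (s.cl (n * q.asIdeal) p) = φ₀ (s.cl n p))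
    {M : s.Sub} (hM : IsUnit M) {R R₁ : Finset ℂ}
    (hR : Reps (s.zl (s.idl (n * q.asIdeal) * M)) (s.zl M) R)
    (h1 : Reps (s.zl (s.idl n * M)) (s.zl M) R₁) :
    ∑ ρ ∈ R, (φ (s.cl _ (s.mkP M ρ)))⁻¹ * (eG (s.zl (s.idl (n * q.asIdeal) * M)) ρ : ℂ) =
      ∑ ρ ∈ R₁, (φ₀ (s.cl n (s.mkP M ρ)))⁻¹ * (eG (s.zl (s.idl n * M)) ρ : ℂ) -
        (φ₀ (s.cl n (s.ip q.asIdeal)))⁻¹ *
          ∑ ρ ∈ R.filter (· ∈ s.zl (s.idl q.asIdeal * M)),
            (φ₀ (s.cl n (s.mkP (s.idl q.asIdeal * M) ρ)))⁻¹ *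
              (eG (s.zl (s.idl n * (s.idl q.asIdeal * M))) ρ : ℂ) := by
  have hm : n * q.asIdeal ≠ ⊥ := mul_ne_zero hn q.ne_bot
  have hA := s.isLat_zl ((s.isUnit_idl hm).mul hM)
  have hB := s.isLat_zl ((s.isUnit_idl hn).mul hM)
  have hAB : s.idl (n * q.asIdeal) * M ≤ s.idl n * M :=
    (s.mul_le_mul_unit hM).2 (s.idl_le.2 Ideal.mul_le_left)
  obtain ⟨R₂, hR₂⟩ := exists_reps hA hB (s.zl_le.2 hAB)
  have e1 : ∑ ρ ∈ R, (φ₀ (s.cl n (s.mkP M ρ)))⁻¹ * (eG (s.zl (s.idl (n * q.asIdeal) * M)) ρ : ℂ) =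
      ∑ ρ ∈ R₁, (φ₀ (s.cl n (s.mkP M ρ)))⁻¹ * (eG (s.zl (s.idl n * M)) ρ : ℂ) := by
    rw [abg5_tower hR h1 hR₂ _ fun a ha l hl => by
      rw [s.g3p_per hM (s.mem_zl.1 ha) (hAB (s.mem_zl.1 hl)), eG_add _ _ hl]]
    refine Finset.sum_congr rfl fun r hr => ?_
    have kr := s.mem_zl.1 (h1.2.2.1 r hr)
    rw [Finset.sum_congr rfl fun r' hr' => by
      rw [s.g3p_per hM kr (s.mem_zl.1 (hR₂.2.2.1 r' hr'))], ← Finset.mul_sum]
    by_cases hu : IsUnit (s.cl n (s.mkP M r))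
    · have k := s.unit_not_mem hu le_rfl fun e => h2 (e ▸ Submodule.mem_top)
      rw [s.mkP_L hM kr, s.mkP_ρ hM kr] at k
      rw [eG_reps hA hB hR₂ fun e => k (s.mem_zl.1 e), ofReal_sum]
    · rw [φ₀.map_nonunit hu, inv_zero, zero_mul, zero_mul]
  rw [← e1, Finset.mul_sum, Finset.sum_filter, ← Finset.sum_sub_distrib]
  refine Finset.sum_congr rfl fun ρ hρ => ?_
  have kρ := s.mem_zl.1 (hR.2.2.1 ρ hρ)
  split_ifs with k
  · have k' := s.mem_zl.1 k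
    have hq := (s.isUnit_idl q.ne_bot).mul hM
    have e2 : s.mkP M ρ = s.mkP (s.idl q.asIdeal * M) ρ * s.ip q.asIdeal := Pair.ext
      (by rw [s.mul_L, s.mkP_L hM kρ, s.mkP_L hq k', s.ip_L q.ne_bot, mul_right_comm,
        s.idl_inv q.ne_bot, one_mul])
      (by rw [s.mul_ρ, s.mkP_ρ hM kρ, s.mkP_ρ hq k', s.ip_ρ, mul_one])
    rw [φ.map_nonunit fun hu => s.unit_not_mem hu Ideal.mul_le_right q.isPrime.ne_top
      (by rwa [s.mkP_L hM kρ, s.mkP_ρ hM kρ]), e2, map_mul, map_mul, s.idl_mul, mul_assoc]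
    ring
  · rw [sub_zero]
    by_cases hu : IsUnit (s.cl (n * q.asIdeal) (s.mkP M ρ))
    · rw [h _ hu]
    · rw [φ.map_nonunit hu, φ₀.map_nonunit fun hu' => hu ?_]
      rw [s.unit_cl hm]
      refine ((s.unit_cl hn).1 hu').mul_right ?_
      rw [Ideal.isCoprime_iff_sup_eq, sup_comm]
      refine q.isMaximal.out.2 _ (lt_of_le_of_ne le_sup_left fun e => k (s.mem_zl.2 ?_))
      have := s.idOf_le.1 (e ▸ le_sup_right : s.idOf (s.mkP M ρ) ≤ q.asIdeal)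
      rwa [s.mkP_L hM kρ, s.mkP_ρ hM kρ] at this

theorem gp_step (hn : n ≠ ⊥) (h2 : (2 : s.O) ∉ n) (q : HeightOneSpectrum s.O)
    (hm : m = n * q.asIdeal) {φ₀ : MulChar (s.Pr n) ℂ} {φ : MulChar (s.Pr m) ℂ}
    (h : ∀ p, IsUnit (s.cl m p) → φ (s.cl m p) = φ₀ (s.cl n p)) :
    s.Zg m φ = (1 - (φ₀ (s.cl n (s.ip q.asIdeal)))⁻¹) * s.Zg n φ₀ := by
  classical
  subst hm
  have hm : n * q.asIdeal ≠ ⊥ := mul_ne_zero hn q.ne_bot
  have hu : ∀ D : s.Pr ⊤, IsUnit (1 * (s.out D).L) := fun D => isUnit_one.mul (s.out D).unit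
  choose R hR using fun D : s.Pr ⊤ => exists_reps (s.isLat_zl ((s.isUnit_idl hm).mul (hu D)))
    (s.isLat_zl (hu D)) (s.zl_le.2 (s.idl_mul_le _ _))
  choose R₁ h1 using fun D : s.Pr ⊤ => exists_reps (s.isLat_zl ((s.isUnit_idl hn).mul (hu D)))
    (s.isLat_zl (hu D)) (s.zl_le.2 (s.idl_mul_le _ _))
  have a1 := s.abg5_half hm (fun k => h2 (Ideal.mul_le_left k)) φ isUnit_one R hR
  have a2 := s.abg5_half hn h2 φ₀ isUnit_one R₁ h1
  simp only [one_mul] at hR h1 a1 a2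
  have a3 := s.abg5_half hn h2 φ₀ (s.isUnit_idl q.ne_bot)
    (fun D => (R D).filter (· ∈ s.zl (s.idl q.asIdeal * (s.out D).L))) fun D => by
      rw [← mul_assoc, ← s.idl_mul]
      exact abg5_filter (hR D) (s.zl_le.2 ((s.mul_le_mul_unit (s.out D).unit).2
        (s.idl_le.2 Ideal.mul_le_right))) (s.zl_le.2 (s.idl_mul_le _ _))
  have := s.finite_Pr (n := ⊤) top_ne_bot
  have := Fintype.ofFinite (s.Pr ⊤)
  rw [finsum_eq_sum_of_fintype] at a1 a2 a3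
  rw [Finset.sum_congr rfl fun D _ => s.abg5_lat hn h2 q h (s.out D).unit (hR D) (h1 D),
    Finset.sum_sub_distrib, ← Finset.mul_sum, ← a2, ← a3] at a1
  linear_combination a1 / 2

end St

end Pool.Agent.P.MP_20768c_nt.Az.Cu

end

-- part Ab.U4_p
section

set_option autoImplicit false

open Complex NumberField IsDedekindDomain Filter Topology
open UpperHalfPlane hiding I
open scoped ComplexConjugate Real MatrixGroups

namespace Pool.Agent.P.MP_20768c_nt.Az.Cu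

open Pool.Agent.P.MP_20768c_nt.Az.EQ (Lt pr sp IsLat jL qN)

theorem W_bound (v : Valuation ℂ NNReal) (h0 : v 2 ≠ 0) (h2 : v 2 < 1) {x : ℕ} (hx : Odd x)
    (h1 : x ≠ 1) {r : ℕ} (hr0 : Odd r) : ∃ R n₀ : ℕ, ∀ n, n₀ ≤ n → ∀ (ψ : MulChar (ZMod (2 ^ n)) ℂ) (ω : ℂ),
      ψ (tau n) = -1 → ω ^ r = 1 → v 2 ^ R ≤ v (x - ω * ψ x) ^ 2 ^ n := by
  have hu4 : ((x : ℤ) ^ 2) ≡ 1 [ZMOD 4] := by
    obtain ⟨k, rfl⟩ := hx
    refine (Int.modEq_iff_dvd.2 ⟨-(k ^ 2 + k), ?_⟩)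
    push_cast
    ring
  have hu1 : (x : ℤ) ^ 2 ≠ 1 := by
    intro h
    have h' : x ^ 2 = 1 := by exact_mod_cast h
    exact h1 ((Nat.pow_eq_one.1 h').resolve_right two_ne_zero)
  obtain ⟨e, he, hu⟩ := exists_exp hu4 hu1
  refine ⟨2 ^ e, e + 1, fun n hn ψ ω hψ hω => ?_⟩
  obtain ⟨i, rfl⟩ : ∃ i, n = e + i + 1 := ⟨n - (e + 1), by omega⟩
  have hs := (ZMod.intCast_eq_intCast_iff _ _ (2 ^ (e + i + 1))).2
    (by simpa using sq_step he hu i)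
  have ht : ((x : ZMod (2 ^ (e + i + 1)))) ^ 2 ^ (i + 1) = tau (e + i + 1) := by
    rw [tau_val (by omega), Nat.add_sub_cancel, pow_succ' 2 i, pow_mul]
    push_cast at hs
    exact hs.trans (add_comm _ _)
  have hp : ψ x ^ 2 ^ (i + 1) = -1 := by rw [← map_pow, ht, hψ]
  have vψ : v (ψ x) = 1 := St.v_root v (n := 2 ^ (i + 1) * 2) (by positivity)
    (by rw [pow_mul, hp]; norm_num)
  have vω : v ω = 1 := St.v_root v hr0.pos hω
  have vx : v (x : ℂ) = 1 := by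
    have := St.v_odd v h2 (n := x) (by exact_mod_cast hx)
    simpa using this
  have hab : v (((x : ℂ) ^ r) ^ 2 ^ (i + 1) - (ψ x ^ r) ^ 2 ^ (i + 1)) = v 2 := by
    obtain ⟨k, hk⟩ : Odd (x ^ (r * 2 ^ i)) := hx.pow
    have hk' : (x : ℂ) ^ (r * 2 ^ i) = 2 * k + 1 := by exact_mod_cast hk
    have e1 : ((x : ℂ) ^ r) ^ 2 ^ (i + 1) = (2 * k + 1) ^ 2 := by
      rw [← hk', ← pow_mul, ← pow_mul, pow_succ 2 i, mul_assoc]
    have e2 : (ψ x ^ r) ^ 2 ^ (i + 1) = -1 := by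
      rw [← pow_mul, mul_comm r, pow_mul, hp, hr0.neg_one_pow]
    have e3 : v (((2 * (k ^ 2 + k) + 1 : ℤ)) : ℂ) = 1 := St.v_odd v h2 (odd_two_mul_add_one _)
    rw [e1, e2, show (2 * (k : ℂ) + 1) ^ 2 - -1 = 2 * (((2 * (k ^ 2 + k) + 1 : ℤ)) : ℂ) by
      push_cast; ring, map_mul, e3, mul_one]
  have hr := val_root v h0 (by rw [map_pow, vx, one_pow]) (by rw [map_pow, vψ, one_pow]) _ hab
  have hle : v ((x : ℂ) ^ r - ψ x ^ r) ≤ v (x - ω * ψ x) := by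
    have e4 : (x : ℂ) ^ r - ψ x ^ r = (x : ℂ) ^ r - (ω * ψ x) ^ r := by
      rw [mul_pow, hω, one_mul]
    rw [e4, ← (Commute.all _ _).geom_sum₂_mul, map_mul]
    refine mul_le_of_le_one_left' (v.map_sum_le fun j _ => ?_)
    simp only [map_pow, map_mul, vx, vω, vψ, one_pow, mul_one, le_refl]
  calc v 2 ^ 2 ^ e ≤ (v ((x : ℂ) ^ r - ψ x ^ r) ^ 2 ^ (i + 1)) ^ 2 ^ e := pow_le_pow_left' hr _
    _ = v ((x : ℂ) ^ r - ψ x ^ r) ^ 2 ^ (e + i + 1) := by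
      rw [← pow_mul, ← pow_add, show i + 1 + e = e + i + 1 by omega]
    _ ≤ _ := pow_le_pow_left' hle _

theorem u4p_root {M : Type} [CommMonoid M] [Finite M] (φ : MulChar M ℂ) (x : M) :
    φ x = 0 ∨ ∃ k, 0 < k ∧ φ x ^ k = 1 := by
  by_cases h : IsUnit x
  · obtain ⟨u, rfl⟩ := h
    refine Or.inr ⟨Nat.card Mˣ, Nat.card_pos, ?_⟩
    rw [← map_pow, ← Units.val_pow_eq_pow_val, pow_card_eq_one', Units.val_one, map_one]
  · exact Or.inl (φ.map_nonunit h)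

theorem u4p_norm {M : Type} [CommMonoid M] [Finite M] (φ : MulChar M ℂ) (x : M) : ‖φ x‖ ≤ 1 := by
  rcases u4p_root φ x with h | ⟨k, hk, h⟩
  · rw [h, norm_zero]; exact zero_le_one
  · exact (Complex.norm_eq_one_of_pow_eq_one h hk.ne').le

theorem u4p_val {M : Type} [CommMonoid M] [Finite M] (v : Valuation ℂ NNReal) (φ : MulChar M ℂ)
    (x : M) : v (φ x) ≤ 1 ∧ v (conj (φ x)) ≤ 1 := by
  rcases u4p_root φ x with h | ⟨k, hk, h⟩
  · simp [h]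
  · exact ⟨(St.v_root v hk h).le, (St.v_root v hk (by rw [← map_pow, h, map_one])).le⟩

theorem u4p_nat (v : Valuation ℂ NNReal) (k : ℕ) : v k ≤ 1 := by
  induction k with
  | zero => simp
  | succ k ih =>
    rw [Nat.cast_succ]
    exact v.map_add_le ih v.map_one.le

theorem u4p_two {s : St} (f : Ideal s.O) {n : ℕ} (hn : 2 ≤ n) : (2 : s.O) ∉ s.md f n := by
  intro h
  have h1 : Ideal.span {((2 : ℕ) : s.O)} ≤ Ideal.span {((2 ^ n : ℕ) : s.O)} := by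
    rw [Ideal.span_singleton_le_iff_mem]
    exact (s.md_le f n).2.1 (by exact_mod_cast h)
  have h2 := Ideal.absNorm_dvd_absNorm_of_le h1
  rw [s.norm_nat, s.norm_nat] at h2
  have h3 := Nat.le_of_dvd (by norm_num) h2
  have h4 : 2 ^ 2 ≤ 2 ^ n := Nat.pow_le_pow_right (by norm_num) hn
  nlinarith

theorem u4p_v0 (s : St) : s.v 2 ≠ 0 := by
  rw [Ne, Valuation.zero_iff]
  exact two_ne_zero

theorem u4p_fac {s : St} {f : Ideal s.O} {χ : MulChar (s.Pr f) ℂ} {r : ℕ} (hr : Odd r)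
    (h3 : ∀ D : (s.Pr f)ˣ, χ D ^ r = 1) (Q : HeightOneSpectrum (𝓞 s.k)) :
    ∃ R n₀ : ℕ, ∀ n, n₀ ≤ n → ∀ (ψ : MulChar (ZMod (2 ^ n)) ℂ) (φ : MulChar (s.Pr (s.md f n)) ℂ),
      ψ (tau n) = -1 → s.Tw f n χ ψ φ →
      s.v 2 ^ R ≤ s.v ((‖1 - φ (s.cl _ (s.ip Q.asIdeal)) *
        (((Ideal.absNorm Q.asIdeal : ℝ) ^ (-(1 : ℝ)) : ℝ) : ℂ)‖ ^ 2 : ℝ) : ℂ) ^ 2 ^ n := by
  have hone : ∀ (R n : ℕ) (φ : MulChar (s.Pr (s.md f n)) ℂ),
      ¬ IsUnit (s.cl (s.md f n) (s.ip Q.asIdeal)) →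
      s.v 2 ^ R ≤ s.v ((‖1 - φ (s.cl _ (s.ip Q.asIdeal)) *
        (((Ideal.absNorm Q.asIdeal : ℝ) ^ (-(1 : ℝ)) : ℝ) : ℂ)‖ ^ 2 : ℝ) : ℂ) ^ 2 ^ n := by
    intro R n φ hu
    rw [φ.map_nonunit hu, zero_mul, sub_zero, norm_one, one_pow, ofReal_one, map_one, one_pow]
    exact pow_le_one' s.v_two.le _
  have hodd : ∀ n, 1 ≤ n → IsUnit (s.cl (s.md f n) (s.ip Q.asIdeal)) →
      Odd (Ideal.absNorm Q.asIdeal) := by
    intro n hn hu
    have h := s.Qn_cop (s.md_le f n).2.1 hu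
    rw [s.Qn_ip Q.ne_bot] at h
    exact Nat.coprime_two_right.1 (h.coprime_dvd_right (dvd_pow_self 2 (by omega)))
  by_cases hx : Odd (Ideal.absNorm Q.asIdeal)
  swap
  · exact ⟨0, 1, fun n hn ψ φ _ _ => hone 0 n φ fun hu => hx (hodd n hn hu)⟩
  have h1 : Ideal.absNorm Q.asIdeal ≠ 1 := fun h =>
    Q.isPrime.ne_top (Ideal.absNorm_eq_one_iff.1 h)
  obtain ⟨R, n₀, hR⟩ := W_bound s.v (u4p_v0 s) s.v_two hx h1 hr
  refine ⟨R + R, n₀, fun n hn ψ φ hψ hT => ?_⟩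
  by_cases hu : IsUnit (s.cl (s.md f n) (s.ip Q.asIdeal))
  swap
  · exact hone _ n φ hu
  have hω : χ (s.cl f (s.ip Q.asIdeal)) ^ r = 1 := by
    obtain ⟨D, hD⟩ := s.unit_mono (s.md_le f n).1 hu
    rw [← hD]
    exact h3 D
  rw [hT _ hu, s.Qn_ip Q.ne_bot]
  generalize χ (s.cl f (s.ip Q.asIdeal)) = ω at hω
  generalize Ideal.absNorm Q.asIdeal = x at hx hR
  have b1 := hR n hn ψ ω hψ hω
  have b2 := hR n hn (ψ.ringHomComp (starRingEnd ℂ)) (conj ω)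
    (by rw [MulChar.ringHomComp_apply, hψ, map_neg, map_one]) (by rw [← map_pow, hω, map_one])
  rw [MulChar.ringHomComp_apply] at b2
  have vx : s.v (x : ℂ) = 1 := by
    have := St.v_odd s.v s.v_two (n := x) (by exact_mod_cast hx)
    simpa using this
  have x0 : (x : ℂ) ≠ 0 := by exact_mod_cast hx.pos.ne'
  have e : ((‖1 - ω * ψ x * (((x : ℝ) ^ (-(1 : ℝ)) : ℝ) : ℂ)‖ ^ 2 : ℝ) : ℂ) =
      (x - ω * ψ x) * (x - conj ω * conj (ψ x)) / x ^ 2 := by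
    rw [ofReal_pow, ← Complex.mul_conj', Real.rpow_neg_one]
    simp only [map_sub, map_mul, map_one, ofReal_inv, ofReal_natCast, map_inv₀, map_natCast]
    field_simp
  rw [e, map_div₀, map_pow, vx, one_pow, div_one, map_mul, mul_pow, pow_add]
  exact mul_le_mul' b1 b2

end Pool.Agent.P.MP_20768c_nt.Az.Cu

end

-- part Ex.X10
section

set_option autoImplicit false

open Complex NumberField IsDedekindDomain
open scoped Real

namespace Pool.Agent.P.MP_20768c_nt.Az.Cu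

theorem x10_card (G : Type) [CommGroup G] [Finite G] (l : ℕ) :
    Nat.card {g : G // g ^ l = 1} = Nat.card {χ : G →* ℂˣ // ∀ g, χ g ^ l = 1} := by
  let H := (powMonoidHom l : G →* G).range
  have h1 : H.index = Nat.card {g : G // g ^ l = 1} := Subgroup.index_range
  rw [← h1, Subgroup.index_eq_card, ← CommGroup.card_domRestrictHom_ker ℂ H]
  refine Nat.card_congr (Equiv.subtypeEquivRight fun χ => ?_)
  rw [MonoidHom.mem_ker, MonoidHom.ext_iff]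
  constructor
  · intro h g
    rw [← map_pow]
    exact h ⟨_, g, rfl⟩
  · rintro h ⟨_, g, rfl⟩
    exact (map_pow χ g l).trans (h g)

theorem x10_lift {A G M : Type} [Group A] [Group G] [Group M] (f : A →* G)
    (hf : Function.Surjective f) (ψ : A →* M) (h : ∀ a, f a = 1 → ψ a = 1) :
    ∃ χ : G →* M, ∀ a, χ (f a) = ψ a :=
  ⟨f.liftOfSurjective hf ⟨ψ, h⟩, fun a => f.liftOfRightInverse_comp_apply _ _ ⟨ψ, h⟩ a⟩

theorem x10_root {G : Type} [CommGroup G] [Finite G] {l : ℕ} (χ : G →* ℂˣ)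
    (h : ∀ g, g ^ l = 1 → χ g = 1) : ∃ χ' : G →* ℂˣ, ∀ g, χ' g ^ l = χ g := by
  obtain ⟨ψ, hψ⟩ := x10_lift (powMonoidHom l : G →* G).rangeRestrict
    (MonoidHom.rangeRestrict_surjective _) χ fun g hg => h g (congrArg Subtype.val hg)
  obtain ⟨χ', hχ'⟩ := MonoidHom.domRestrict_surjective ℂ (powMonoidHom l : G →* G).range ψ
  refine ⟨χ', fun g => ?_⟩
  rw [← map_pow, ← hψ g, ← hχ']
  rfl

namespace St

variable (s : St) {l r : ℕ}

theorem x10_mem {m : ℕ} (hm : 0 < m) (hc : s.IsC0 m)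
    {A : s.Au →* (s.Pr (Ideal.span {(m : s.O)}))ˣ}
    (hA : ∀ (σ : s.Au) (b : Ideal s.O), s.Art m σ b ↔
      b ≠ ⊥ ∧ (A σ : s.Pr (Ideal.span {(m : s.O)})) = s.cl _ (s.ip b))
    (χ : (s.Pr (Ideal.span {(m : s.O)}))ˣ →* ℂˣ) : s.Cts (χ.comp A) ∧ s.Unram m (χ.comp A) := by
  refine ⟨⟨(s.CM_finite hm).toFinset, fun x hx =>
    s.CM_alg hm ((Set.Finite.mem_toFinset _).1 hx), fun σ hσ => ?_⟩, fun V σ hV hI => ?_⟩
  · have h1 := ((hA σ ⊤).1 ((s.art_one _).congr fun x hx =>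
      hσ x ((Set.Finite.mem_toFinset _).2 hx))).2
    rw [s.ip_top, map_one] at h1
    rw [MonoidHom.comp_apply, Units.val_eq_one.1 h1, map_one]
  · obtain ⟨b, hb⟩ := exists_art hm σ
    have h1 := ((hA σ b).1 hb).2
    rw [s.art_inert hc V hV hV hb hI] at h1
    rw [MonoidHom.comp_apply, Units.val_eq_one.1 h1, map_one]

theorem x10_div {φ ψ : s.Au →* ℂˣ} (hφ : s.Cts φ) (hψ : s.Cts ψ) : s.Cts (φ / ψ) := by
  classical
  obtain ⟨T, h1, h2⟩ := hφ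
  obtain ⟨T', k1, k2⟩ := hψ
  refine ⟨T ∪ T', fun x hx => (Finset.mem_union.1 hx).elim (h1 x) (k1 x), fun σ hσ => ?_⟩
  rw [MonoidHom.div_apply, h2 σ fun x hx => hσ x (Finset.mem_union_left _ hx),
    k2 σ fun x hx => hσ x (Finset.mem_union_right _ hx), div_one]

theorem x10_primes (l : ℕ) {m : ℕ} (hm : 0 < m) :
    {q : Ideal s.O | ∃ Q : HeightOneSpectrum (𝓞 (s.Fz l)), (m : 𝓞 (s.Fz l)) ∈ Q.asIdeal ∧
      Fre s.k Q.asIdeal ∧ Q.asIdeal.under s.O = q}.Finite := by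
  have h0 : Ideal.span {(m : 𝓞 (s.Fz l))} ≠ 0 := by
    rw [Ne, Ideal.zero_eq_bot, Ideal.span_singleton_eq_bot]
    exact Nat.cast_ne_zero.2 hm.ne'
  refine ((Ideal.finite_factors h0).image fun Q => Q.asIdeal.under s.O).subset ?_
  rintro _ ⟨Q, h1, -, rfl⟩
  exact ⟨Q, Ideal.dvd_span_singleton.2 h1, rfl⟩

theorem x10_step (hl : l.Prime) {φ : s.Au →* ℂˣ} (hφ : s.Cts φ) (hr : ∀ σ, φ σ ^ l ^ r = 1)
    (h : s.Ray (φ ^ l)) : s.Ray φ := by
  classical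
  obtain ⟨m0, hm0, h⟩ := h
  obtain ⟨C0, h0⟩ := s.exists_C0
  obtain ⟨C1, hC1, hU1⟩ := s.x4_unr hφ
  obtain ⟨C2, hC2, hB⟩ := x2_selB (s.Fz l)
  obtain ⟨c, hc, d0, d1, d2, d3, d4⟩ : ∃ c : ℕ, 0 < c ∧ l ∣ c ∧ C0 ∣ c ∧ C1 ∣ c ∧ C2 ∣ c ∧ m0 ∣ c :=
    ⟨l * C0 * C1 * C2 * m0, Nat.pos_of_ne_zero (mul_ne_zero (mul_ne_zero (mul_ne_zero
      (mul_ne_zero hl.ne_zero h0.1) hC1) hC2) hm0.ne'), ⟨C0 * C1 * C2 * m0, by ring⟩,
      ⟨l * C1 * C2 * m0, by ring⟩, ⟨l * C0 * C2 * m0, by ring⟩, ⟨l * C0 * C1 * m0, by ring⟩,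
      ⟨l * C0 * C1 * C2, by ring⟩⟩
  obtain ⟨m, hme⟩ : ∃ m, m = l * (l * c) := ⟨_, rfl⟩
  have hm : 0 < m := hme ▸ mul_pos hl.pos (mul_pos hl.pos hc)
  have dc : c ∣ m := hme ▸ (dvd_mul_left c l).mul_left l
  have hC : s.IsC0 m := ⟨hm.ne', fun V hV => h0.2 V (v_nat_dvd _ (d1.trans dc) hV)⟩
  have hU : s.Unram m φ := fun V σ hV => hU1 V σ (v_nat_dvd _ (d2.trans dc) hV)
  have hn : Ideal.span {(m : s.O)} ≠ ⊥ := by
    rw [Ne, Ideal.span_singleton_eq_bot]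
    exact Nat.cast_ne_zero.2 hm.ne'
  have := s.finite_Pr hn
  obtain ⟨A, hA, hA'⟩ := s.exists_artHom hm
  have hA1 : ∀ σ : s.Au, s.Art m σ ⊤ ↔ A σ = 1 := fun σ => by
    rw [hA', s.ip_top, map_one, Units.val_eq_one]
    exact and_iff_right top_ne_bot
  obtain ⟨χ0, hχ0⟩ := x10_lift A hA (φ ^ l) fun σ hσ => h σ (((hA1 σ).2 hσ).mono (d4.trans dc))
  have hχ : ∀ (σ : s.Au) (b : Ideal s.O), s.Art m σ b →
      MulChar.ofUnitHom χ0 (s.cl _ (s.ip b)) = (φ σ : ℂ) ^ l := fun σ b hb => by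
    rw [← ((hA' σ b).1 hb).2, MulChar.ofUnitHom_coe, hχ0, MonoidHom.pow_apply,
      Units.val_pow_eq_pow_val]
  have h1 : ∀ x : s.O, MulChar.ofUnitHom χ0 (s.cl _ (s.np (1 + (l * c : ℕ) * x))) = 1 := by
    intro x
    have hu : IsUnit (s.cl (Ideal.span {(m : s.O)}) (s.np (1 + (l * c : ℕ) * x))) := by
      refine IsUnit.of_mul_eq_one (s.cl _ (s.np (1 - (l * c : ℕ) * x))) ?_
      rw [← map_mul, ← s.np_mul]
      obtain ⟨e, rfl⟩ := d0
      refine s.cl_np_eq_one.2 (Or.inl (Ideal.mem_span_singleton'.2 ⟨-(e * x ^ 2 * l), ?_⟩))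
      rw [hme]
      push_cast
      ring
    obtain ⟨σ, hσ⟩ := hA hu.unit
    obtain ⟨b, hb⟩ := exists_art hm σ
    have e1 : s.cl (Ideal.span {(m : s.O)}) (s.ip b) = s.cl _ (s.np (1 + (l * c : ℕ) * x)) := by
      rw [← ((hA' σ b).1 hb).2, hσ, IsUnit.unit_spec]
    have e2 := s.cl_mono (g := Ideal.span {(m0 : s.O)})
      (Ideal.span_singleton_le_span_singleton.2 (Nat.cast_dvd_cast (d4.trans dc))) e1
    have e3 : s.cl (Ideal.span {(m0 : s.O)}) (s.np (1 + (l * c : ℕ) * x)) = 1 := by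
      obtain ⟨e, rfl⟩ := d4
      refine s.cl_np_eq_one.2 (Or.inl (Ideal.mem_span_singleton'.2 ⟨l * e * x, ?_⟩))
      push_cast
      ring
    have e4 := h σ ((hb.mono (d4.trans dc)).of_cl hm0 top_ne_bot
      (by rw [e2, e3, s.ip_top, map_one]))
    rw [← e1, hχ σ b hb, ← Units.val_pow_eq_pow_val, ← MonoidHom.pow_apply, e4, Units.val_one]
  have hJ := s.x10_primes l hm
  set J := {q : Ideal s.O | ∃ Q : HeightOneSpectrum (𝓞 (s.Fz l)),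
    (m : 𝓞 (s.Fz l)) ∈ Q.asIdeal ∧ Fre s.k Q.asIdeal ∧ Q.asIdeal.under s.O = q}
  have : Fintype J := hJ.fintype
  choose Qf q1 q2 q3 using fun q : J => q.2
  choose u hu1 hu2 using fun q : J =>
    s.x8_kill hl hφ hr hC hU (d0.trans dc) (MulChar.ofUnitHom χ0) hχ (Qf q) (q1 q) (q2 q)
  have lb := s.x9_lb hl hc d0 hme (fun q : J => q.1) (fun q => by
    rw [← q3 q]
    have := (Qf q).isMaximal
    refine ⟨inferInstance, ?_⟩
    rw [Ideal.under_def, Ideal.mem_comap, map_natCast]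
    exact q1 q) Subtype.val_injective u (fun q => q3 q ▸ hu1 q) _ h1 hu2
  obtain ⟨hfin, ub⟩ := s.x5_up hl hm.ne' (hB m l (d3.trans dc)) (Finset.univ.image Qf)
    fun Q a1 a2 => ⟨Qf ⟨_, Q, a1, a2, rfl⟩, Finset.mem_image_of_mem _ (Finset.mem_univ _), q3 _⟩
  have : Finite (s.Chx l m) := hfin
  have hmem : ∀ χ : {χ : (s.Pr (Ideal.span {(m : s.O)}))ˣ →* ℂˣ // ∀ g, χ g ^ l = 1},
      χ.1.comp A ∈ s.Chx l m := fun χ => ⟨fun σ => χ.2 _, s.x10_mem hm hC hA' χ.1⟩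
  have hinj : Function.Injective fun χ => (⟨_, hmem χ⟩ : s.Chx l m) :=
    fun χ χ' h => Subtype.ext (MonoidHom.ext fun g => by
      obtain ⟨σ, rfl⟩ := hA g
      exact DFunLike.congr_fun (congrArg Subtype.val h) σ)
  have a1 : Nat.card (s.Chx l m) ≤ Nat.card {g : (s.Pr (Ideal.span {(m : s.O)}))ˣ //
      g ^ l = 1 ∧ MulChar.ofUnitHom χ0 g = 1} := by
    refine Nat.le_of_mul_le_mul_left (ub.trans (le_trans ?_ lb)) (by split_ifs <;> norm_num)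
    exact Nat.pow_le_pow_right hl.pos (Nat.add_le_add_left Finset.card_image_le 2)
  have hinj' : Function.Injective fun g : {g : (s.Pr (Ideal.span {(m : s.O)}))ˣ //
      g ^ l = 1 ∧ MulChar.ofUnitHom χ0 g = 1} =>
      (⟨g.1, g.2.1⟩ : {g : (s.Pr (Ideal.span {(m : s.O)}))ˣ // g ^ l = 1}) :=
    fun g g' h => Subtype.ext (Subtype.mk.inj h)
  have b1 := hinj'.bijective_of_nat_card_le
    ((x10_card _ l).le.trans ((Nat.card_le_card_of_injective _ hinj).trans a1))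
  have b2 := hinj.bijective_of_nat_card_le
    (a1.trans ((Nat.card_le_card_of_injective _ hinj').trans (x10_card _ l).le))
  obtain ⟨χ1, hχ1⟩ := x10_root (l := l) χ0 fun g hg => by
    obtain ⟨g', hg'⟩ := b1.2 ⟨g, hg⟩
    have e := g'.2.2
    rw [show g'.1 = g from congrArg Subtype.val hg', MulChar.ofUnitHom_coe] at e
    exact Units.val_eq_one.1 e
  have k := s.x10_mem hm hC hA' χ1
  obtain ⟨χ2, hχ2⟩ := b2.2 ⟨φ / χ1.comp A, fun σ => by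
    rw [MonoidHom.div_apply, div_pow, MonoidHom.comp_apply, hχ1, hχ0, MonoidHom.pow_apply,
      div_self'], s.x10_div hφ k.1, fun V σ hV hI => by
    rw [MonoidHom.div_apply, hU V σ hV hI, k.2 V σ hV hI, div_one]⟩
  refine ⟨m, hm, fun σ hσ => ?_⟩
  have e := DFunLike.congr_fun (congrArg Subtype.val hχ2) σ
  simp only [MonoidHom.div_apply, MonoidHom.comp_apply, (hA1 σ).1 hσ, map_one, div_one] at e
  exact e.symm

end St


end Pool.Agent.P.MP_20768c_nt.Az.Cu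

end

-- part Ab.G6
section

set_option autoImplicit false

open Complex NumberField IsDedekindDomain Filter Topology
open UpperHalfPlane hiding I
open scoped ComplexConjugate Real MatrixGroups

namespace Pool.Agent.P.MP_20768c_nt.Az.Cu

open Pool.Agent.P.MP_20768c_nt.Az.EQ (Lt pr sp IsLat jL qN)

namespace St

variable (s : St)

theorem gp_lev {n m a : Ideal s.O} (hn : n ≠ ⊥) (h2 : (2 : s.O) ∉ n) (ha : a ≠ ⊥)
    (hm : m = n * a) {φ₀ : MulChar (s.Pr n) ℂ} {φ : MulChar (s.Pr m) ℂ}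
    (h : ∀ p, IsUnit (s.cl m p) → φ (s.cl m p) = φ₀ (s.cl n p)) :
    s.Zg m φ = (∏ᶠ Q ∈ {Q : HeightOneSpectrum s.O | a ≤ Q.asIdeal},
      (1 - (φ₀ (s.cl n (s.ip Q.asIdeal)))⁻¹)) * s.Zg n φ₀ := by
  induction a using UniqueFactorizationMonoid.induction_on_prime generalizing m φ with
  | h₁ => exact absurd rfl ha
  | h₂ a hu =>
    obtain rfl : a = ⊤ := Ideal.isUnit_iff.1 hu
    obtain rfl : m = n := by rw [hm, Ideal.mul_top]
    obtain rfl : φ = φ₀ := MulChar.ext fun C => by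
      have e := h (s.out C.1) (s.unit_out C)
      rwa [s.cl_out] at e
    have e : {Q : HeightOneSpectrum s.O | ⊤ ≤ Q.asIdeal} = ∅ :=
      Set.eq_empty_of_forall_notMem fun Q hQ => Q.isPrime.ne_top (top_le_iff.1 hQ)
    rw [e, finprod_mem_empty, one_mul]
  | h₃ a q ha' hq ih =>
    have ha0 : a ≠ ⊥ := ha'
    have hna : n * a ≠ ⊥ := mul_ne_zero hn ha'
    obtain ⟨Q, rfl⟩ : ∃ Q : HeightOneSpectrum s.O, Q.asIdeal = q :=
      ⟨⟨q, Ideal.isPrime_of_prime hq, hq.ne_zero⟩, rfl⟩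
    obtain ⟨φ₁, h₁⟩ := s.exists_ind (f := n * a) Ideal.mul_le_left φ₀
    have hm' : m = n * a * Q.asIdeal := by rw [hm]; ring
    have hle : m ≤ n * a := hm' ▸ Ideal.mul_le_left
    rw [s.gp_step hna (fun h3 => h2 (Ideal.mul_le_left h3)) Q hm' (φ₀ := φ₁)
      (fun p hp => by rw [h p hp, h₁ p (s.unit_mono hle hp)]), ih ha0 rfl h₁, ← mul_assoc]
    refine congrArg (· * s.Zg n φ₀) ?_
    have hU : ∀ {g : Ideal s.O}, g ≠ ⊥ →
        (IsUnit (s.cl g (s.ip Q.asIdeal)) ↔ ¬ g ≤ Q.asIdeal) := fun {g} hg => by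
      rw [s.unit_cl hg, s.idOf_ip Q.ne_bot, Ideal.isCoprime_iff_sup_eq]
      refine ⟨fun e hl => Q.isPrime.ne_top (by rw [← e, sup_eq_left.2 hl]), fun hl => ?_⟩
      exact Q.isMaximal.out.2 _ (left_lt_sup.2 hl)
    have hS : ∀ P : HeightOneSpectrum s.O,
        Q.asIdeal * a ≤ P.asIdeal ↔ P = Q ∨ a ≤ P.asIdeal := fun P => by
      rw [P.isPrime.mul_le]
      refine or_congr_left ⟨fun hl => ?_, fun e => e ▸ le_rfl⟩
      exact HeightOneSpectrum.ext (Q.isMaximal.eq_of_le P.isPrime.ne_top hl).symm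
    by_cases hc : a ≤ Q.asIdeal
    · have e : {P : HeightOneSpectrum s.O | Q.asIdeal * a ≤ P.asIdeal} =
          {P : HeightOneSpectrum s.O | a ≤ P.asIdeal} := Set.ext fun P => by
        simp only [Set.mem_ofPred_eq, hS]
        exact ⟨fun h3 => h3.elim (fun e => e ▸ hc) id, Or.inr⟩
      rw [e, φ₁.map_nonunit (fun hu => (hU hna).1 hu (Ideal.mul_le_right.trans hc)), inv_zero,
        sub_zero, one_mul]
    · have e : {P : HeightOneSpectrum s.O | Q.asIdeal * a ≤ P.asIdeal} =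
          insert Q {P : HeightOneSpectrum s.O | a ≤ P.asIdeal} := Set.ext fun P => by
        simp only [Set.mem_ofPred_eq, hS, Set.mem_insert_iff]
      have hf : {P : HeightOneSpectrum s.O | a ≤ P.asIdeal}.Finite :=
        (Ideal.finite_factors ha').subset fun P hP => Ideal.dvd_iff_le.2 hP
      rw [e, finprod_mem_insert _ hc hf]
      refine congrArg (fun x => (1 - x⁻¹) * _) ?_
      by_cases hu : IsUnit (s.cl (n * a) (s.ip Q.asIdeal))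
      · exact h₁ _ hu
      · rw [φ₁.map_nonunit hu, φ₀.map_nonunit fun hu' => hu ((hU hna).2 fun hl =>
          (Q.isPrime.mul_le.1 hl).elim ((hU hn).1 hu') hc)]

theorem log_sum' {f : Ideal s.O} {c n : ℕ} (hc : s.Cc f c) (hn : 2 ≤ n) {φ : MulChar (s.Pr (s.md f n)) ℂ}
    {β : s.O} (hβ : IsUnit (s.cl (s.md f n) (s.np β)))
    (hβ1 : φ (s.cl (s.md f n) (s.np β)) ≠ 1) :
    ∑ᶠ C : (s.Pr (s.md f n))ˣ, (φ C)⁻¹ * (Real.log (‖s.thp f c n (s.out C.1)‖ ^ 2) : ℂ) =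
      -(c ^ 2 - φ (s.cl (s.md f n) (s.np c))) * s.Zg (s.md f n) φ := by
  unfold Zg
  have hn1 : 1 ≤ n := by omega
  have hm : s.md f n ≠ ⊥ := s.md_ne (s.odd_ne hc.1) n
  have hg := s.gp_inv (s.md f n) hm
  have hK : s.Inv (s.md f n) fun p => (s.g4K f c n p : ℂ) := fun x p q h => by
    unfold g4K
    beta_reduce
    rw [hg x p q h, hg x _ _ (h.mul (s.np c)), s.thp_inv hc n x p q h]
  have h1 := s.g4_shift hm φ hK hβ
  have e1 : ∀ C : (s.Pr (s.md f n))ˣ,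
      s.g4K f c n (s.out C.1 * s.np β) = s.g4K f c n (s.out C.1) := fun C =>
    s.g4K_eq hc hn1 (s.unit_out C) (by rw [map_mul]; exact (s.unit_out C).mul hβ) (s.g4_npL _ β)
  simp only [e1] at h1
  have h2 : ∑ᶠ C : (s.Pr (s.md f n))ˣ, (φ C)⁻¹ * (s.g4K f c n (s.out C.1) : ℂ) = 0 := by
    by_contra h
    exact hβ1 (mul_right_cancel₀ h (by rw [one_mul]; exact h1.symm))
  have hG : s.Inv (s.md f n) fun p => (s.gp (s.md f n) p : ℂ) := fun x p q h => by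
    beta_reduce
    rw [hg x p q h]
  have h3 := s.g4_shift hm φ hG (hc.spec.2.2.2.2 n)
  have := s.finite_Pr hm
  have := Fintype.ofFinite (s.Pr (s.md f n))ˣ
  simp only [finsum_eq_sum_of_fintype] at h2 h3 ⊢
  have h4 : ∑ C : (s.Pr (s.md f n))ˣ, (φ C)⁻¹ * (s.g4K f c n (s.out C.1) : ℂ) =
      c ^ 2 * ∑ C : (s.Pr (s.md f n))ˣ, (φ C)⁻¹ * (s.gp (s.md f n) (s.out C.1) : ℂ) -
      ∑ C : (s.Pr (s.md f n))ˣ, (φ C)⁻¹ * (s.gp (s.md f n) (s.out C.1 * s.np c) : ℂ) +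
      ∑ C : (s.Pr (s.md f n))ˣ, (φ C)⁻¹ * (Real.log (‖s.thp f c n (s.out C.1)‖ ^ 2) : ℂ) := by
    rw [Finset.mul_sum, ← Finset.sum_sub_distrib, ← Finset.sum_add_distrib]
    refine Finset.sum_congr rfl fun C _ => ?_
    unfold g4K
    push_cast
    ring
  linear_combination h2 - h4 + h3

end St

end Pool.Agent.P.MP_20768c_nt.Az.Cu

end

-- part Ab.U1_p
section

set_option autoImplicit false

open Complex NumberField IsDedekindDomain Filter Topology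
open UpperHalfPlane hiding I
open scoped ComplexConjugate Real MatrixGroups

namespace Pool.Agent.P.MP_20768c_nt.Az.Cu

open Pool.Agent.P.MP_20768c_nt.Az.EQ (Lt pr sp IsLat jL qN)

namespace St

variable {s : St} {f : Ideal s.O} {c n : ℕ} {X : Finset (MulChar (s.Pr f) ℂ)}
  {sb : (ZMod (2 ^ n))ˣ → s.Au}

theorem u1_p_pos (hc : s.Cc f c) (n : ℕ) : 0 < c * Ideal.absNorm f * 2 ^ n := by
  have h1 : 0 < c := lt_trans one_pos hc.2.1
  have h2 : 0 < Ideal.absNorm f := hc.1.pos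
  positivity

theorem uq_congr {a a' : s.Pr f} (h : ∀ χ ∈ X, χ a = χ a') (b : ZMod (2 ^ n)) :
    s.uq f X c n a b = s.uq f X c n a' b := by
  unfold uq
  refine finprod_mem_congr (Set.ext fun C => and_congr_left' (forall₂_congr fun χ hχ => ?_))
    fun _ _ => rfl
  rw [h χ hχ]

theorem art_uq (hc : s.Cc f c) (hn : 2 ≤ n) {σ : s.Au} {a : Ideal s.O}
    (hA : s.Art (c * Ideal.absNorm f * 2 ^ n) σ a) (a₀ : s.Pr f) (b₀ : ZMod (2 ^ n)) :
    σ (s.uq f X c n a₀ b₀) =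
      s.uq f X c n (a₀ * s.cl f (s.ip a)) (b₀ * Ideal.absNorm a) := by
  have hf : f ≠ ⊥ := s.odd_ne hc.1
  have := s.finite_Pr (s.md_ne hf n)
  have hu := hA.unit (u1_p_pos hc n) (s.mm_mem f c n)
  have hle := s.md_le f n
  have hχ : ∀ χ : MulChar (s.Pr f) ℂ, χ (s.cl f (s.ip a)) ≠ 0 := fun χ =>
    ((s.unit_mono hle.1 hu).map χ).ne_zero
  have hN : IsUnit ((Ideal.absNorm a : ℕ) : ZMod (2 ^ n)) := by
    rw [ZMod.isUnit_iff_coprime, ← s.Qn_ip hA.1]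
    exact s.Qn_cop hle.2.1 hu
  have key : ∀ C : (s.Pr (s.md f n))ˣ,
      s.cl (s.md f n) (s.out C.1 * s.ip a) = s.cl (s.md f n) (s.out (C * hu.unit).1) := fun C => by
    rw [map_mul, s.cl_out, s.cl_out, Units.val_mul, hu.unit_spec]
  have k1 : ∀ C : (s.Pr (s.md f n))ˣ, s.cl f (s.out (C * hu.unit).1) =
      s.cl f (s.out C.1) * s.cl f (s.ip a) := fun C => by
    rw [← s.cl_mono hle.1 (key C), map_mul]
  have k2 : ∀ C : (s.Pr (s.md f n))ˣ, (s.Qn (s.out (C * hu.unit).1) : ZMod (2 ^ n)) =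
      s.Qn (s.out C.1) * Ideal.absNorm a := fun C => by
    rw [← (ZMod.natCast_eq_natCast_iff _ _ _).2 (s.Qn_mod hle.2.1 (key C)), s.Qn_mul, s.Qn_ip hA.1,
      Nat.cast_mul]
  unfold uq
  have e := MonoidHom.map_finprod_mem (fun C : (s.Pr (s.md f n))ˣ => s.thp f c n (s.out C.1))
    (σ : ℂ →* ℂ) (Set.toFinite {C : (s.Pr (s.md f n))ˣ |
      (∀ χ ∈ X, χ (s.cl f (s.out C.1)) = χ a₀) ∧ (s.Qn (s.out C.1) : ZMod (2 ^ n)) = b₀})
  refine e.trans (finprod_mem_eq_of_bijOn (fun C => C * hu.unit) ?_ fun C _ => ?_)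
  · refine (Equiv.mulRight hu.unit).bijOn fun C => ?_
    simp only [Equiv.coe_mulRight, Set.mem_ofPred_eq, k1, k2, map_mul, mul_left_inj' (hχ _),
      hN.mul_left_inj]
  · exact ((art_thp hc hn hA (s.unit_out C)).1).trans ((s.thp_inv hc n).of_cl (key C))

theorem uq_unit {Γ : Type} [LinearOrderedCommGroupWithZero Γ] (v : Valuation ℂ Γ)
    (hc : s.Cc f c) (hn : 1 ≤ n) (a₀ : s.Pr f) (b₀ : ZMod (2 ^ n)) :
    v (s.uq f X c n a₀ b₀) = 1 :=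
  finprod_mem_induction (fun x => v x = 1) (map_one v)
    (fun x y hx hy => by rw [map_mul, hx, hy, one_mul])
    fun C _ => thp_unit v hc hn (s.unit_out C)

theorem uq_fx (hc : s.Cc f c) (hn : 2 ≤ n) (a₀ : s.Pr f) (b₀ : ZMod (2 ^ n)) :
    s.uq f X c n a₀ b₀ ∈ s.Fx n := by
  obtain ⟨T, hT⟩ := s.exists_fx n
  exact (hT _).1 (finprod_mem_induction (fun x => x ∈ T) (one_mem T) (fun _ _ => mul_mem)
    fun C _ => (hT _).2 (thp_fx hc hn (s.unit_out C)).1)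

end St

theorem Ab.exists_u {s : Ab} {f : Ideal s.O} {X : Finset (MulChar (s.Pr f) ℂ)} {c n : ℕ}
    (hX : s.Cut f X) (hc : s.Cc f c) (hn : 2 ≤ n) :
    ∃ u : (𝓞 (s.K n))ˣ, s.uc u = s.uq f X c n 1 1 := by
  refine s.unit_of_val (s.K n) (s.mem_of_fixed (s.K n) fun σ hσ => ?_)
    fun V => St.uq_unit V.valuation hc (by omega) 1 1
  have hm := St.u1_p_pos hc n
  obtain ⟨a, hA⟩ := St.exists_art hm σ
  obtain ⟨h1, h2⟩ := Ab.fix_K.1 hσ
  have k1 := (hX.2.2.2.2.1 _ σ a hm ((s.md_le f n).1 (s.mm_mem f c n)) hA).2 h1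
  have k2 : ((Ideal.absNorm a : ℕ) : ZMod (2 ^ n)) = 1 := by
    have e := hA.2.2.2 (zt n) (by rw [mul_comm, pow_mul, zt_pow, one_pow])
    have e' : zt n ^ ((Ideal.absNorm a : ℕ) : ℤ) = zt n ^ (1 : ℤ) := by
      rw [zpow_natCast, zpow_one, ← e, h2]
    simpa using zt_congr.1 e'
  rw [St.art_uq hc hn hA, k2, mul_one]
  exact St.uq_congr (fun χ hχ => by rw [one_mul, k1 χ hχ, map_one]) 1

end Pool.Agent.P.MP_20768c_nt.Az.Cu

end

-- part Cu.H4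
section

set_option autoImplicit false

open Complex NumberField IsDedekindDomain Filter Topology
open UpperHalfPlane hiding I
open scoped ComplexConjugate Real MatrixGroups

namespace Pool.Agent.P.MP_20768c_nt.Az.Cu

open Pool.Agent.P.MP_20768c_nt.Az.EQ (Lt pr sp IsLat jL qN)

namespace St

variable {s : St} {f : Ideal s.O} {c n : ℕ} {ω : s.Pair → ℂ}

theorem h4_md (f : Ideal s.O) (n : ℕ) (L : s.Sub) :
    s.idl (s.md f n) * L = s.sc (2 ^ n) * (s.idl f * L) := by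
  have e : s.c (2 ^ n) = 2 ^ n := by
    rw [c_pow, c, map_ofNat]
  rw [md, idl_mul, idl_span, e, mul_comm (s.idl f), mul_assoc]

theorem h4_p1 (f : Ideal s.O) (hn : 1 ≤ n) : s.md f n ≤ s.p1 := by
  refine le_trans (b := Ideal.span {2 ^ n}) (Ideal.mul_le_inf.trans inf_le_right) ?_
  rw [Ideal.span_le, Set.singleton_subset_iff]
  exact Ideal.pow_mem_of_mem _ (Ideal.subset_span (by simp)) n hn

theorem h4_zt {a b : ℤ} {x y : ℕ} (h : a * x ≡ b * y [ZMOD 2 ^ n]) :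
    zt n ^ (a * x) = zt n ^ (b * y) := by
  rw [zt_congr, ZMod.intCast_eq_intCast_iff]
  exact_mod_cast h

theorem DD_eq (hf : Odd (Ideal.absNorm f)) (hn : 2 ≤ n) (hω : s.Eig f ω) (b : ℤ) :
    s.DD ω n b = (∑ᶠ C : (s.Pr (s.md f n))ˣ, zt n ^ (b * s.Qn (s.out C.1)) * ω (s.out C.1) *
      eF (s.zl (s.idl f * (s.out C.1).L)) ((s.out C.1).ρ / 2 ^ n)) / 2 ^ (n - 1) := by
  classical
  have f0 := s.odd_ne hf
  have m0 := s.md_ne f0 n
  have := s.finite_Pr m0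
  have := Fintype.ofFinite (s.Pr (s.md f n))ˣ
  let ω' : s.Pair → ℂ := fun p => if p.ρ ∈ s.idl s.p1 * p.L then 0 else ω p
  have w := hω.1.mono (s.md_le_lv f hn)
  have hw : s.IsWt (s.md f n) ω' := by
    refine ⟨fun x p q h => ?_, fun p hp => ?_⟩
    · have h1 : q.ρ - x * p.ρ ∈ s.idl s.p1 * q.L :=
        mul_le_mul_left (s.idl_le.2 (h4_p1 f (by omega))) q.L h.2.2
      have h2 : x * p.ρ ∈ s.idl s.p1 * q.L ↔ p.ρ ∈ s.idl s.p1 * p.L := by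
        rw [h.2.1, mul_left_comm, s.mul_mem_sc' h.1]
      have h3 : q.ρ ∈ s.idl s.p1 * q.L ↔ p.ρ ∈ s.idl s.p1 * p.L := by
        rw [← h2, ← Submodule.add_mem_iff_right (y := x * p.ρ) _ h1, sub_add_cancel]
      simp only [ω', h3]
      split_ifs
      · rw [mul_zero]
      · exact w.1 x p q h
    · simp only [ω', w.2 p hp, ite_self]
  have e1 := s.Sy_dep hf hω (ω' := ω') (fun p hp => if_pos hp) (fun p hp => if_neg hp) (b / 2 ^ n)
  have e2 := s.Sy_eq m0 ((s.md_le_lv f hn).trans (s.lv_le f).2) hw b (d := 2 ^ n) (by positivity)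
    (s.md_le f n).2.1
  obtain ⟨k, rfl⟩ : ∃ k, n = k + 1 := ⟨n - 1, by omega⟩
  have e3 : (2 * (b / 2 ^ (k + 1)) : ℚ) = b / 2 ^ k := by
    rw [pow_succ]
    field_simp
  rw [s.sum_units m0 (Φ := fun p => cexp (2 * π * I * (b * s.Qn p) / ((2 ^ (k + 1) : ℕ) : ℂ)) *
    ω' p * eF (s.zl (s.idl (s.md f (k + 1)) * p.L)) p.ρ) (fun p hp => by
      rw [s.unit_md f0 (by omega), not_and_or, not_not] at hp
      have : ω' p = 0 := by
        rcases hp with hp | hp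
        · simp only [ω', hω.2.1 p hp, ite_self]
        · exact if_pos hp
      simp only [this, mul_zero, zero_mul])] at e2
  rw [Nat.cast_pow, Nat.cast_ofNat] at e2
  rw [DD, Nat.add_sub_cancel, ← e3, ← e1, e2, finsum_eq_sum_of_fintype, finsum_eq_sum_of_fintype,
    Finset.mul_sum, Finset.sum_div]
  refine Finset.sum_congr rfl fun C _ => ?_
  have u := ((s.unit_md f0 (by omega)).1 (s.unit_out C)).2
  have e4 : ω' (s.out C.1) = ω (s.out C.1) := if_neg u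
  have e5 := eF_sc (s.zl (s.idl f * (s.out C.1).L)) (x := 2 ^ (k + 1)) (pow_ne_zero _ two_ne_zero)
    ((s.out C.1).ρ / 2 ^ (k + 1))
  rw [mul_div_cancel₀ _ (pow_ne_zero _ two_ne_zero)] at e5
  rw [e4, h4_md, zl_sc, e5, zt_zpow]
  push_cast
  rw [pow_succ (2 : ℂ) k]
  field_simp

theorem h4_inv (hn : 2 ≤ n) (hω : s.IsWt (s.lv f) ω) (b : ℤ) : s.Inv (s.md f n) fun p =>
    zt n ^ (b * s.Qn p) * ω p * eF (s.zl (s.idl f * p.L)) (p.ρ / 2 ^ n) := by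
  intro x p q h
  have h1 := s.Qn_mod (s.md_le f n).2.1 (s.cl_eq.2 ⟨x, h⟩)
  have h2 : zt n ^ (b * s.Qn q) = zt n ^ (b * s.Qn p) :=
    h4_zt (Int.ModEq.mul_left _ (by exact_mod_cast h1.symm))
  have h3 := h.2.2
  rw [h4_md, s.mem_sc_mul] at h3
  obtain ⟨l, hl, e⟩ := h3
  have e2 : q.ρ / 2 ^ n = x * (p.ρ / 2 ^ n) + l := by
    have : (2 : ℂ) ^ n ≠ 0 := pow_ne_zero _ two_ne_zero
    field_simp
    linear_combination -e
  have h0 := h.1
  simp only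
  rw [h2, (hω.mono (s.md_le_lv f hn)).1 x p q h, e2, eF_add _ _ (s.mem_zl.2 hl), h.2.1,
    mul_left_comm (s.idl f), zl_sc, eF_sc _ h.1]
  field_simp

theorem BB_eq (hc : s.Cc f c) (hn : 2 ≤ n) (hω : s.Eig f ω) {b b' : ℤ}
    (h : b' * c ^ 2 ≡ b [ZMOD 2 ^ n]) : s.BB f c n ω b = c ^ 2 * s.DD ω n b - c * s.DD ω n b' := by
  have f0 := s.odd_ne hc.1
  have := s.finite_Pr (s.md_ne f0 n)
  have := Fintype.ofFinite (s.Pr (s.md f n))ˣ
  obtain ⟨c1, -, c2, -, c3⟩ := hc.spec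
  rw [DD_eq hc.1 hn hω, DD_eq hc.1 hn hω, ← s.sum_mul' (h4_inv hn hω.1 b') (c3 n), BB,
    finsum_eq_sum_of_fintype, finsum_eq_sum_of_fintype, finsum_eq_sum_of_fintype, ← mul_div_assoc,
    ← mul_div_assoc, ← sub_div, Finset.mul_sum, Finset.mul_sum, ← Finset.sum_sub_distrib]
  congr 1
  refine Finset.sum_congr rfl fun C _ => ?_
  have u := s.unit_out C
  generalize s.out C.1 = p at u
  have e1 : ω (p * s.np c) = ω p := by
    rw [hω.1.1 1 _ _ (s.sim_np c2 p), np_one, mul_one, one_mul]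
  have e2 : zt n ^ (b' * s.Qn (p * s.np c)) = zt n ^ (b * s.Qn p) := by
    refine h4_zt ?_
    rw [Qn_mul, Qn_np, norm_nat]
    push_cast
    rw [mul_comm (s.Qn p : ℤ), ← mul_assoc]
    exact h.mul_right _
  have e3 : (p * s.np c).ρ / 2 ^ n = c * (p.ρ / 2 ^ n) := by
    rw [mul_ρ, np_ρ, c_nat]
    ring
  rw [e1, e2, e3, mul_L, np_L, mul_one, ecp, ec_eq (s.isLat_zl ((s.isUnit_idl f0).mul p.unit)) c1
    (fun h => (s.thp_gen hc (by omega) u).2 (s.mem_zl.1 h))]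
  ring

theorem BB_congr (f : Ideal s.O) (c : ℕ) (ω : s.Pair → ℂ) {b b' : ℤ}
    (h : (b : ZMod (2 ^ n)) = b') : s.BB f c n ω b = s.BB f c n ω b' := by
  unfold BB
  congr 1
  refine finsum_congr fun C => ?_
  rw [zt_congr (b := b' * s.Qn (s.out C.1)) |>.2 (by rw [Int.cast_mul, Int.cast_mul, h])]

theorem BB_add (hf : f ≠ ⊥) (c n : ℕ) (ω ω' : s.Pair → ℂ) (b : ℤ) :
    s.BB f c n (fun p => ω p + ω' p) b = s.BB f c n ω b + s.BB f c n ω' b := by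
  have := s.finite_Pr (s.md_ne hf n)
  have := Fintype.ofFinite (s.Pr (s.md f n))ˣ
  simp only [BB, finsum_eq_sum_of_fintype, mul_add, add_mul, Finset.sum_add_distrib, add_div]

theorem BB_smul (hf : f ≠ ⊥) (c n : ℕ) (x : ℂ) (ω : s.Pair → ℂ) (b : ℤ) :
    s.BB f c n (fun p => x * ω p) b = x * s.BB f c n ω b := by
  have := s.finite_Pr (s.md_ne hf n)
  have := Fintype.ofFinite (s.Pr (s.md f n))ˣ
  simp only [BB, finsum_eq_sum_of_fintype, ← mul_div_assoc, Finset.mul_sum]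
  congr 1
  exact Finset.sum_congr rfl fun C _ => by ring

theorem BB_le (hc : s.Cc f c) (hn : 2 ≤ n) {g : s.Pair → ℂ} (hg : s.Inv (s.lv f) g) {t : NNReal}
    (ht : ∀ p, IsUnit (s.cl (s.lv f) p) → s.v (g p) ≤ t) (b : ℤ) :
    s.v (s.BB f c n (fun p => g p * s.oms f p) b) ≤ t := by
  have f0 := s.odd_ne hc.1
  have := s.finite_Pr (s.md_ne f0 n)
  obtain ⟨κ, hκ⟩ := exists_kap hc.1 n
  obtain ⟨sb, hs⟩ := s.exists_sec n
  obtain ⟨T, hT⟩ := s.exists_fx n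
  have hle : f * s.p2 ^ n ≤ s.lv f := Ideal.mul_mono_right (Ideal.pow_le_pow_right hn)
  rw [BB, kap_sum f0 hκ 1, finsum_mem_eq_finite_toFinset_sum _ (Set.toFinite _), Finset.sum_div]
  refine Valuation.map_sum_le _ fun C hC => ?_
  have hC' : (s.Qn (s.out C.1) : ZMod (2 ^ n)) = 1 := by simpa using hC
  have u := s.unit_out C
  have e : (∑ b' : (ZMod (2 ^ n))ˣ, zt n ^ (b * s.Qn (s.out (C * κ b').1)) *
      (g (s.out (C * κ b').1) * s.oms f (s.out (C * κ b').1)) * s.ecp f c n (s.out (C * κ b').1)) /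
      2 ^ (n - 1) = g (s.out C.1) *
        s.tr n sb (zt n ^ b * (s.oms f (s.out C.1) * s.ecp f c n (s.out C.1))) := by
    rw [tr, ← mul_div_assoc, Finset.mul_sum]
    congr 1
    refine Finset.sum_congr rfl fun b' _ => ?_
    obtain ⟨k1, k2⟩ := kap_cl hκ C b'
    have e1 : zt n ^ (b * s.Qn (s.out (C * κ b').1)) = sb b' (zt n ^ b) := by
      rw [map_zpow₀, (hs b').2, ← zpow_natCast, ← zpow_mul, zt_congr]
      rw [Int.cast_mul, Int.cast_mul, Int.cast_natCast, Int.cast_natCast, k2, hC', one_mul,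
        ZMod.natCast_zmod_val, mul_comm]
    rw [e1, (hg.mono hle).of_cl k1, map_mul (sb b'), (kap_act hc hn hκ (hs b').1 (hs b').2 C).2]
    ring
  rw [e, map_mul]
  have v1 : s.v (zt n ^ b * (s.oms f (s.out C.1) * s.ecp f c n (s.out C.1))) ≤ 1 := by
    rw [map_mul, map_zpow₀, v_root s.v (by positivity) (zt_pow n), one_zpow, one_mul]
    exact (thp_dl hc hn hs u).2
  have v2 := tr_int (by omega) hs ((hT _).1 (mul_mem (zpow_mem ((hT _).2 (s.fx_zt n)) b)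
    ((hT _).2 (thp_fx hc hn u).2))) v1
  exact (mul_le_of_le_one_right zero_le v2).trans (ht _ (s.unit_mono (s.md_le_lv f hn) u))

end St

end Pool.Agent.P.MP_20768c_nt.Az.Cu

end

-- part Cu.J3
section

set_option autoImplicit false

open Complex NumberField IsDedekindDomain Filter Topology
open UpperHalfPlane hiding I
open scoped ComplexConjugate Real MatrixGroups

namespace Pool.Agent.P.MP_20768c_nt.Az.Cu

open Pool.Agent.P.MP_20768c_nt.Az.EQ (Lt pr sp IsLat jL qN)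

open CongruenceSubgroup

theorem j3_eng {K : Type} [NormedField K] [IsUltrametricDist K] {M : ℕ} [NeZero M]
    (h2 : ‖((2 : ℕ) : K)‖ < 1) (hM : 2 ∣ M) {ε : DirichletCharacter K M} {S : ℚ → K} {α : K}
    {c : ℝ} (hT : TLaw M ε S) (hH : HLaw 2 M ε α S) (hα : ‖α‖ = 1) (hc : 0 < c)
    (hμ : ∀ (n : ℕ) (a : ℤ), Odd a → ‖S (a / 2 ^ (n + 1))‖ < c) {γ : SL(2, ℤ)}
    (hγ : γ ∈ Gamma1 M) : ‖Fv S (γ 0 0 : ℚ) (γ 1 0 : ℚ)‖ < c := by
  obtain ⟨-, h11, h10⟩ := (Gamma1_mem M γ).1 hγ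
  have hd : γ 0 0 * γ 1 1 - γ 0 1 * γ 1 0 = 1 := by
    have := γ.det_coe
    rwa [Matrix.det_fin_two] at this
  have hc' : (M : ℤ) ∣ γ 1 0 := (ZMod.intCast_zmod_eq_zero_iff_dvd _ _).1 h10
  have hd' : (M : ℤ) ∣ γ 1 1 - 1 := by
    refine (ZMod.intCast_zmod_eq_zero_iff_dvd _ _).1 ?_
    push_cast
    rw [h11, sub_self]
  have e := hT _ _ _ _ hd hc' 0 1 (Or.inr one_ne_zero)
  rw [char_one ε hd', Fv_of_ne S 0 one_ne_zero] at e
  simp only [mul_zero, mul_one, zero_add, one_mul, zero_div] at e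
  have := engB Nat.prime_two h2 hM hT hH hα hc (b := γ 0 1) (d := γ 1 1)
    (fun n a ha => by
      have := hμ n a (Int.not_even_iff_odd.1 fun h => ha (by exact_mod_cast h.two_dvd))
      exact_mod_cast this)
    ⟨-γ 1 0, γ 0 0, by linear_combination hd⟩ hd'
  rwa [e, add_sub_cancel_right] at this

namespace St

variable {s : St} {f : Ideal s.O} {ω : s.Pair → ℂ}

theorem j3_k (hf : Odd (Ideal.absNorm f)) (h : s.Rat f ω) (γ : SL(2, ℤ)) :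
    Pe (s.vth ω) γ ∈ s.k := by
  unfold Pe Fv
  split_ifs
  · exact zero_mem _
  · exact Sy_rat hf h _

theorem j3_den {Λ : Submodule ℤ ℂ} (hΛ : Λ.FG) : (∀ x ∈ Λ, x ∈ s.k ∧ s.v x ≤ 1) →
    ∃ β : s.O, s.v (s.c β) = 1 ∧ ∀ x ∈ Λ, ∃ a : s.O, s.c β * x = s.c a := by
  refine Submodule.fg_induction (motive := fun Λ _ => (∀ x ∈ Λ, x ∈ s.k ∧ s.v x ≤ 1) →
    ∃ β : s.O, s.v (s.c β) = 1 ∧ ∀ x ∈ Λ, ∃ a : s.O, s.c β * x = s.c a) ?_ ?_ Λ hΛ
  · intro x hx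
    obtain ⟨h1, h2⟩ := hx x (Submodule.mem_span_singleton_self x)
    obtain ⟨a, β, hβ, e⟩ := s.v_k_den h1 h2
    refine ⟨β, hβ, fun y hy => ?_⟩
    obtain ⟨n, rfl⟩ := Submodule.mem_span_singleton.1 hy
    refine ⟨n * a, ?_⟩
    rw [s.c_mul, s.c_int, ← e, zsmul_eq_mul]
    ring
  · intro A B _ _ hA hB hx
    obtain ⟨β, hβ, e⟩ := hA fun x h => hx x (Submodule.mem_sup_left h)
    obtain ⟨β', hβ', e'⟩ := hB fun x h => hx x (Submodule.mem_sup_right h)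
    refine ⟨β * β', by rw [s.c_mul, map_mul, hβ, hβ', one_mul], fun y hy => ?_⟩
    obtain ⟨u, hu, u', hu', rfl⟩ := Submodule.mem_sup.1 hy
    obtain ⟨a, ha⟩ := e u hu
    obtain ⟨a', ha'⟩ := e' u' hu'
    refine ⟨β' * a + β * a', ?_⟩
    rw [s.c_add, s.c_mul, s.c_mul, s.c_mul, ← ha, ← ha']
    ring

theorem j3_lat {Λ : Submodule ℤ ℂ} (hΛ : Λ.FG) {T : Set ℂ} (hT : ∀ x ∈ T, x ∈ Λ)
    (hk : ∀ x ∈ T, x ∈ s.k ∧ s.v x ≤ 1) : ∃ L : s.Sub, IsUnit L ∧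
      s.v (UU (s.zl L)) = s.v (UU (s.zl 1)) ∧ (∀ x ∈ T, x ∈ L) ∧
      ∀ x ∈ L, s.v x < 1 → x ∈ s.idl s.p1 * L := by
  have hle : Submodule.span ℤ T ≤ Λ := Submodule.span_le.2 hT
  obtain ⟨β, hβ, hb⟩ := j3_den (s := s) (hΛ.of_le hle) fun x hx => by
    induction hx using Submodule.span_induction with
    | mem x h => exact hk x h
    | zero => exact ⟨zero_mem _, by simp⟩
    | add x y _ _ hx hy => exact ⟨add_mem hx.1 hy.1, s.v.map_add_le hx.2 hy.2⟩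
    | smul n x _ hx =>
      refine ⟨zsmul_mem hx.1 n, ?_⟩
      rw [zsmul_eq_mul, map_mul, ← s.c_int]
      exact mul_le_one' (s.v_c s.v _) hx.2
  have h0 : s.c β ≠ 0 := fun h => by simp [h] at hβ
  have hi := inv_ne_zero h0
  refine ⟨s.sc (s.c β)⁻¹ * 1, (s.isUnit_sc hi).mul isUnit_one, ?_, fun x hx => ?_, fun x hx hv => ?_⟩
  · rw [s.zl_sc, UU_sc _ hi, map_div₀, map_pow, map_inv₀, hβ]
    simp
  · obtain ⟨a, ha⟩ := hb x (Submodule.subset_span hx)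
    refine s.mem_sc_mul.2 ⟨s.c a, s.mem_one.2 ⟨a, rfl⟩, ?_⟩
    rw [← ha, inv_mul_cancel_left₀ h0]
  · obtain ⟨z, hz, rfl⟩ := s.mem_sc_mul.1 hx
    obtain ⟨a, rfl⟩ := s.mem_one.1 hz
    rw [map_mul, map_inv₀, hβ, inv_one, one_mul] at hv
    rw [mul_comm (s.c β)⁻¹]
    refine s.mul_mem_idl ((s.mem_p1 a).2 hv) (s.mem_sc_mul.2 ⟨1, s.mem_one.2 ⟨1, s.c_one⟩, ?_⟩)
    rw [mul_one]

theorem rat_manin (hf : Odd (Ideal.absNorm f)) (h : s.Rat f ω)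
    (h1 : ∀ γ ∈ Gamma1 (s.lev f), s.v (Pe (s.vth ω) γ) ≤ 1) (j : ℕ) :
    s.v (s.co ω j / s.oms f 1) ≤ 1 ∧
      ((∀ γ ∈ Gamma1 (s.lev f), s.v (Pe (s.vth ω) γ - Pe (s.vth ω) (posC γ)) < 1) →
        s.v (s.co ω j / s.oms f 1) < 1) := by
  have hf0 := s.odd_ne hf
  obtain ⟨hM, -⟩ := s.lev_pos hf0
  have : NeZero (s.lev f) := ⟨by omega⟩
  have hw := (h.wt hf).1
  obtain ⟨F, hF⟩ := s.exists_cusp hf0 hw
  obtain ⟨Λ, hΛ, hP⟩ := per_fg F
  obtain ⟨Λ', hΛ', ha⟩ := s.co_fg (s.lv_ne hf0) hw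
  have hs := s.vth_exp (s.lv_ne hf0) hw
  have hk := j3_k hf h
  rw [← hF] at h1 hs hk ⊢
  obtain ⟨L, hL, hU, hm, hp⟩ := j3_lat (s := s) hΛ
    (T := {x | ∃ γ ∈ Gamma1 (s.lev f), Pe F γ = x})
    (by rintro _ ⟨γ, hγ, rfl⟩; exact hP γ hγ) (by rintro _ ⟨γ, hγ, rfl⟩; exact ⟨hk γ, h1 γ hγ⟩)
  have hm' : ∀ γ ∈ Gamma1 (s.lev f), Pe F γ ∈ L := fun γ hγ => hm _ ⟨γ, hγ, rfl⟩
  obtain ⟨t₁, h₁, k₁⟩ := s.exists_two hL (Or.inl rfl)
  obtain ⟨t₂, h₂, k₂⟩ := s.exists_two hL (Or.inr rfl)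
  have hR := s.rt_can hL h₁ k₁ h₂ k₂
  have key : s.v (UU (s.zl L) * s.co ω j ^ 2) = s.v (s.co ω j / s.oms f 1) ^ 2 := by
    rw [map_mul, map_pow, hU, eq_inv_of_mul_eq_one_left (s.v_oms_one hf), map_div₀, div_pow,
      div_eq_inv_mul]
  refine ⟨?_, fun h2 => ?_⟩
  · have : s.v (UU (s.zl L) * s.co ω j ^ 2) ≤ 1 :=
      manin_a hM s.ι F hΛ' ha hs (s.isLat_zl hL) (fun γ hγ => s.mem_zl.2 (hm' γ hγ)) hR j
    rw [key] at this
    exact (pow_le_one_iff two_ne_zero).1 this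
  · have hL₀ : IsUnit (s.idl s.p1 * L) := (s.isUnit_idl s.p1_ne).mul hL
    obtain ⟨t, ht, kt⟩ := s.exists_two hL₀ (Or.inl rfl)
    have hT := s.two_of_mem hL₀ (Or.inl rfl) ht kt
    rw [mul_right_comm, s.idl_inv s.p1_ne, one_mul] at hT
    have h2t : 2 * t₂ ∈ s.idl s.p1 * L := by
      have := s.mul_mem_idl (a := s.p1 * s.p2) (β := 2)
        (by rw [s.p1_mul_p2]; exact Ideal.mem_span_singleton_self _) h₂
      rwa [s.idl_mul, mul_comm L, mul_assoc, ← mul_assoc (s.idl s.p2), s.idl_inv s.p2_ne, one_mul,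
        show s.c 2 = 2 from map_ofNat (algebraMap s.O ℂ) 2] at this
    have c2 : conj (2 : ℂ) = 2 := map_ofNat _ 2
    have hR' := s.rt_can (s.isUnit_cj hL) (t₁ := conj t₂) (t₂ := conj t₁)
      (by
        rw [s.mem_inv_p1, s.mem_cj, s.mem_cj, map_mul, map_mul, conj_conj, c2, s.conj_w]
        exact s.mem_inv_p2.1 h₂)
      (by rwa [s.mem_cj, conj_conj])
      (by
        rw [s.mem_inv_p2, s.mem_cj, s.mem_cj, map_mul, map_mul, conj_conj, c2, ← s.conj_w,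
          conj_conj]
        exact s.mem_inv_p1.1 h₁)
      (by rwa [s.mem_cj, conj_conj])
    have : s.v (UU (s.zl L) * s.co ω j ^ 2) < 1 :=
      manin_b hM s.ι F hΛ' ha hs (s.isLat_zl hL₀) hT (s.mem_zl.2 h2t)
        (fun y => by rw [s.mem_zl, s.mem_zl, s.mem_cj])
        (fun γ hγ => ⟨s.mem_zl.2 (hm' γ hγ), s.mem_zl.2
          (hp _ (sub_mem (hm' γ hγ) (hm' _ (posC_mem hγ))) (h2 γ hγ))⟩) hR hR' j
    rw [key] at this
    exact (pow_lt_one_iff two_ne_zero).1 this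

theorem j3_sum (hf : f ≠ ⊥) {ι : Type} (T : Finset ι) (μ : ι → ℂ) {w : ι → s.Pair → ℂ}
    (hw : ∀ i ∈ T, s.IsWt (s.lv f) (w i)) (γ : SL(2, ℤ)) :
    Pe (s.vth fun p => ∑ i ∈ T, μ i * w i p) γ = ∑ i ∈ T, μ i * Pe (s.vth (w i)) γ := by
  unfold Pe Fv
  split_ifs
  · simp
  · exact s.Sy_sum hf T μ hw _

theorem j3_map (x y : ℚ) : Fv (fun r => s.ι (s.Sy ω r)) x y = s.ι (Fv (sym (s.vth ω)) x y) := by
  unfold Fv
  split_ifs
  · simp
  · rfl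

theorem j3_sym (γ : SL(2, ℤ)) :
    Fv (fun r => s.ι (s.Sy ω r) + 1 * s.ι (s.Sy ω (-r))) (γ 0 0 : ℚ) (γ 1 0 : ℚ) =
      s.ι (Pe (s.vth ω) γ + Pe (s.vth ω) (posC γ)) := by
  have e0 : posC γ 0 0 = γ 0 0 := rfl
  have e1 : posC γ 1 0 = -γ 1 0 := rfl
  unfold Pe Fv
  rw [e0, e1]
  by_cases h : (γ 1 0 : ℚ) = 0
  · simp [h]
  · rw [if_neg h, if_neg h, if_neg (by simpa using h), map_add, Int.cast_neg, div_neg]
    simp only [one_mul]
    rfl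

theorem nv (hf : Odd (Ideal.absNorm f)) (h : s.Eig f ω) (h1 : ω 1 = s.oms f 1)
    (hi : ∀ (n : ℕ) (a : ℤ), Odd a → s.v (s.Sy ω (a / 2 ^ (n + 1))) ≤ 1) :
    ∃ (n : ℕ) (a : ℤ), Odd a ∧ s.v (s.Sy ω (a / 2 ^ (n + 1)) + s.Sy ω (-a / 2 ^ (n + 1))) = 1 := by
  by_contra hn
  have hf0 := s.odd_ne hf
  obtain ⟨hM, hM2⟩ := s.lev_pos hf0
  have : NeZero (s.lev f) := ⟨by omega⟩
  have hlt : ∀ x, s.v x < 1 ↔ ‖s.ι x‖ < 1 := fun x => by
    rw [← s.v_eq]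
    exact_mod_cast Iff.rfl
  have hle : ∀ x y, s.v x ≤ s.v y ↔ ‖s.ι x‖ ≤ ‖s.ι y‖ := fun x y => by
    rw [← s.v_eq, ← s.v_eq]
    exact_mod_cast Iff.rfl
  obtain ⟨ε, hT, hH⟩ := s.laws hf h
  have hT' := hT.map s.ι
  have hH' := hH.map s.ι
  have h2 : ‖((2 : ℕ) : ℂ_[2])‖ < 1 := by
    have := (hlt 2).1 s.v_two
    rwa [map_ofNat] at this
  have hα : ‖s.ι (s.al ω)‖ = 1 := by
    rw [← s.v_eq, h.al hf]
    rfl
  have p1 : ∀ γ ∈ Gamma1 (s.lev f), s.v (Pe (s.vth ω) γ) ≤ 1 := fun γ hγ => by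
    have : ‖s.ι (Pe (s.vth ω) γ)‖ ≤ 1 := le_of_forall_gt_imp_ge_of_dense fun c hc => by
      have := j3_eng h2 hM2 hT' hH' hα (one_pos.trans hc) (fun n a ha => lt_of_le_of_lt (by
        rw [← s.v_eq]
        exact_mod_cast hi n a ha) hc) hγ
      rw [j3_map] at this
      exact this.le
    rw [← s.v_eq] at this
    exact_mod_cast this
  have p2 : ∀ γ ∈ Gamma1 (s.lev f), s.v (Pe (s.vth ω) γ - Pe (s.vth ω) (posC γ)) < 1 :=
    fun γ hγ => by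
    have := j3_eng h2 hM2 (hT'.symm 1) (hH'.symm two_ne_zero 1 hT') hα one_pos (fun n a ha => by
      rw [one_mul, ← map_add, ← hlt, ← neg_div]
      refine lt_of_le_of_ne (s.v.map_add_le (hi n a ha) ?_) fun e => hn ⟨n, a, ha, e⟩
      exact_mod_cast hi n (-a) ha.neg) hγ
    rw [j3_sym, ← hlt] at this
    rw [show Pe (s.vth ω) γ - Pe (s.vth ω) (posC γ) = Pe (s.vth ω) γ + Pe (s.vth ω) (posC γ) -
      2 * Pe (s.vth ω) (posC γ) by ring]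
    refine s.v.map_sub_lt this ?_
    rw [map_mul]
    exact mul_lt_one_of_lt_of_le s.v_two (p1 _ (posC_mem hγ))
  let Φ : (s.Pair → ℂ) → (Gamma1 (s.lev f) → ℂ) × (ℕ → ℂ) := fun u =>
    (fun γ => Pe (s.vth u) γ, fun j => s.co u j / s.oms f 1)
  have hΦ : ∀ {ι : Type} (T : Finset ι) (μ : ι → ℂ) (w : ι → s.Pair → ℂ),
      (∀ i, s.Rat f (w i)) → Φ (fun p => ∑ i ∈ T, μ i * w i p) = ∑ i ∈ T, μ i • Φ (w i) := by
    intro ι T μ w hw
    ext x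
    · simp only [Φ, Prod.fst_sum, Finset.sum_apply, Prod.smul_fst, Pi.smul_apply, smul_eq_mul]
      exact j3_sum hf0 T μ (fun i _ => ((hw i).wt hf).1) _
    · simp only [Φ, Prod.snd_sum, Finset.sum_apply, Prod.smul_snd, Pi.smul_apply, smul_eq_mul]
      rw [s.co_sum, Finset.sum_div]
      simp only [mul_div_assoc]
  have hx : Φ ω ∈ Submodule.span ℂ (Φ '' {u | s.Rat f u}) := by
    obtain ⟨N, μ, w, hw, e⟩ := rat_span hf h.1 h.2.1
    rw [e, hΦ _ _ _ hw]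
    exact sum_mem fun i _ => Submodule.smul_mem _ _ (Submodule.subset_span ⟨w i, hw i, rfl⟩)
  have := la_lemma s.k s.v s.v_two (fun x => s.v_k_one) (Φ '' {u | s.Rat f u}) ?_ ?_
    (fun γ => ⟨posC γ, posC_mem γ.2⟩) ?_ ?_ ?_ ?_ hx (fun γ => p1 γ γ.2) (fun γ => p2 γ γ.2) 1
  · simp only [Φ] at this
    rw [s.co_one, h1, div_self (h1 ▸ h.2.2.1), map_one] at this
    exact lt_irrefl _ this
  · rintro _ ⟨u, hu, rfl⟩ _ ⟨u', hu', rfl⟩
    refine ⟨_, Rat.add hu hu', ?_⟩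
    have := hΦ (Finset.univ : Finset Bool) (fun _ => 1) (fun b => cond b u u')
      (fun b => by cases b; exacts [hu', hu])
    simpa using this
  · rintro _ ⟨u, hu, rfl⟩ t ht
    refine ⟨_, Rat.smul hu ht, ?_⟩
    have := hΦ (Finset.univ : Finset Unit) (fun _ => t) (fun _ => u) fun _ => hu
    simpa using this
  · rintro _ ⟨u, hu, rfl⟩ γ
    exact j3_k hf hu _
  · rintro _ ⟨u, hu, rfl⟩
    obtain ⟨F, hF⟩ := s.exists_cusp hf0 (Rat.wt hf hu).1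
    obtain ⟨Λ, hΛ, hP⟩ := per_fg F
    rw [hF] at hP
    obtain ⟨_, ⟨γ, rfl⟩, hγ⟩ := fg_max (hΛ.map s.ι.toAddMonoidHom.toIntLinearMap)
      (T := Set.range fun γ : Gamma1 (s.lev f) => s.ι (Pe (s.vth u) γ))
      (by rintro _ ⟨γ, rfl⟩; exact ⟨_, hP γ γ.2, rfl⟩) (Set.range_nonempty _)
    exact ⟨γ, fun γ' => (hle _ _).2 (hγ _ ⟨γ', rfl⟩)⟩
  · rintro _ ⟨u, hu, rfl⟩ hb j
    exact (rat_manin hf hu (fun γ hγ => hb ⟨γ, hγ⟩) j).1
  · rintro _ ⟨u, hu, rfl⟩ hb hb' j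
    exact (rat_manin hf hu (fun γ hγ => hb ⟨γ, hγ⟩) j).2 fun γ hγ => hb' ⟨γ, hγ⟩

end St

end Pool.Agent.P.MP_20768c_nt.Az.Cu

end

-- part Ab.U3
section

set_option autoImplicit false

open Complex NumberField IsDedekindDomain Filter Topology
open UpperHalfPlane hiding I
open scoped ComplexConjugate Real MatrixGroups

namespace Pool.Agent.P.MP_20768c_nt.Az.Cu

open Pool.Agent.P.MP_20768c_nt.Az.EQ (Lt pr sp IsLat jL qN)

noncomputable def u3_l (x : ℂ) : ℂ := (Real.log (‖x‖ ^ 2) : ℂ)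

theorem u3_l_one : u3_l 1 = 0 := by
  rw [u3_l, norm_one, one_pow, Real.log_one, ofReal_zero]

theorem u3_l_mul {x y : ℂ} (hx : x ≠ 0) (hy : y ≠ 0) : u3_l (x * y) = u3_l x + u3_l y := by
  rw [u3_l, u3_l, u3_l, norm_mul, mul_pow,
    Real.log_mul (pow_ne_zero _ (norm_ne_zero_iff.2 hx)) (pow_ne_zero _ (norm_ne_zero_iff.2 hy)),
    ofReal_add]

theorem u3_l_prod {ι : Type} {S : Set ι} (hS : S.Finite) {g : ι → ℂ} (hg : ∀ i, g i ≠ 0) :
    u3_l (∏ᶠ i ∈ S, g i) = ∑ᶠ i ∈ S, u3_l (g i) := by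
  classical
  rw [finprod_mem_eq_finite_toFinset_prod _ hS, finsum_mem_eq_finite_toFinset_sum _ hS]
  induction hS.toFinset using Finset.induction_on with
  | empty => rw [Finset.prod_empty, Finset.sum_empty, u3_l_one]
  | insert a T ha ih =>
    rw [Finset.prod_insert ha, Finset.sum_insert ha,
      u3_l_mul (hg a) (Finset.prod_ne_zero_iff.2 fun i _ => hg i), ih]

theorem St.u3_thp {s : St} {f : Ideal s.O} {c n : ℕ} (hc : s.Cc f c) (hn : 2 ≤ n)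
    (C : (s.Pr (s.md f n))ˣ) : s.thp f c n (s.out C.1) ≠ 0 := fun h => by
  have e := St.thp_unit s.v hc (by omega) (s.unit_out C)
  rw [h, map_zero] at e
  exact zero_ne_one e

theorem Ab.Zs_eq {s : Ab} {f : Ideal s.O} {X : Finset (MulChar (s.Pr f) ℂ)} {c n : ℕ}
    (hc : s.Cc f c) (hn : 2 ≤ n) {θ : (s.Pr (s.md f n))ˣ →* s.G n}
    (hP : s.Par f X n θ) {x : s.K n} (hx : (x : ℂ) = s.uq f X c n 1 1) {φ : s.G n →* ℂˣ}
    {φ' : MulChar (s.Pr (s.md f n)) ℂ} (h : ∀ C : (s.Pr (s.md f n))ˣ, φ' C = φ (θ C)) :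
    s.Zs x φ = ∑ᶠ C : (s.Pr (s.md f n))ˣ,
      (φ' C)⁻¹ * (Real.log (‖s.thp f c n (s.out C.1)‖ ^ 2) : ℂ) := by
  classical
  have hf : f ≠ ⊥ := s.odd_ne hc.1
  have := s.finite_Pr (s.md_ne hf n)
  have := Fintype.ofFinite (s.Pr (s.md f n))ˣ
  have hm := St.u1_p_pos hc n
  obtain ⟨l1, l2, -⟩ := s.md_le f n
  have h0 : Ideal.span {((c * Ideal.absNorm f * 2 ^ n : ℕ) : s.O)} ≠ ⊥ := by
    rw [Ne, Ideal.span_singleton_eq_bot]
    exact_mod_cast hm.ne'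
  have act : ∀ g : s.G n, ((g x : s.K n) : ℂ) =
      ∏ᶠ C ∈ {C : (s.Pr (s.md f n))ˣ | θ C = g}, s.thp f c n (s.out C.1) := fun g => by
    obtain ⟨D, rfl⟩ := hP.1 g
    obtain ⟨a, a0, a1, a2⟩ := s.exists_rep (s.md_ne hf n) (s.unit_out D) h0
    obtain ⟨σ, hσ⟩ := St.art_surj hm a0 a1.of_mul_right_right
    rw [hP.2.1 _ σ a D hm (s.mm_mem f c n) hσ (a2.trans (s.cl_out _)).symm x, hx,
      St.art_uq hc hn hσ, one_mul, one_mul, St.uq]
    refine finprod_mem_congr (Set.ext fun C => ?_) fun _ _ => rfl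
    rw [Set.mem_ofPred_eq, Set.mem_ofPred_eq, hP.2.2, s.cl_mono l1 a2, ← s.Qn_ip a0,
      (ZMod.natCast_eq_natCast_iff _ _ _).2 (s.Qn_mod l2 a2)]
  rw [Ab.Zs, finsum_eq_sum_of_fintype, finsum_eq_sum_of_fintype,
    ← Finset.sum_fiberwise (s := Finset.univ) (g := θ)]
  refine Finset.sum_congr rfl fun g _ => ?_
  have e : {C : (s.Pr (s.md f n))ˣ | θ C = g} =
      (Finset.univ.filter fun C : (s.Pr (s.md f n))ˣ => θ C = g : Finset _) := by simp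
  have e' := u3_l_prod (S := {C : (s.Pr (s.md f n))ˣ | θ C = g}) (Set.toFinite _)
    (St.u3_thp hc hn)
  rw [← act, e, finsum_mem_coe_finset] at e'
  rw [show (Real.log (‖((g x : s.K n) : ℂ)‖ ^ 2) : ℂ) = _ from e', Finset.mul_sum]
  refine Finset.sum_congr rfl fun C hC => ?_
  rw [h, (Finset.mem_filter.1 hC).2, Units.val_inv_eq_inv_val]
  rfl

end Pool.Agent.P.MP_20768c_nt.Az.Cu

end

-- part Ab.U4_q
section

set_option autoImplicit false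

open Complex NumberField IsDedekindDomain Filter Topology
open UpperHalfPlane hiding I
open scoped ComplexConjugate Real MatrixGroups

namespace Pool.Agent.P.MP_20768c_nt.Az.Cu

open Pool.Agent.P.MP_20768c_nt.Az.EQ (Lt pr sp IsLat jL qN)

theorem eul_ne {x r : ℕ} (hx : Odd x) (h1 : x ≠ 1) (hr : Odd r) : ∃ n₀ : ℕ, ∀ n, n₀ ≤ n →
    ∀ (ψ : MulChar (ZMod (2 ^ n)) ℂ) (ω : ℂ), ψ (tau n) = -1 → ω ^ r = 1 → ω * ψ x ≠ 1 := by
  have hu4 : ((x : ℤ) ^ 2) ≡ 1 [ZMOD 4] := by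
    obtain ⟨k, rfl⟩ := hx
    refine (Int.modEq_iff_dvd.2 ⟨-(k ^ 2 + k), ?_⟩)
    push_cast
    ring
  have hu1 : (x : ℤ) ^ 2 ≠ 1 := by
    intro h
    have h' : x ^ 2 = 1 := by exact_mod_cast h
    exact h1 ((Nat.pow_eq_one.1 h').resolve_right two_ne_zero)
  obtain ⟨e, he, hu⟩ := exists_exp hu4 hu1
  refine ⟨e + 1, fun n hn ψ ω hψ hω h => ?_⟩
  obtain ⟨i, rfl⟩ : ∃ i, n = e + i + 1 := ⟨n - (e + 1), by omega⟩
  have hs := (ZMod.intCast_eq_intCast_iff _ _ (2 ^ (e + i + 1))).2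
    (by simpa using sq_step he hu i)
  have ht : ((x : ZMod (2 ^ (e + i + 1)))) ^ 2 ^ (i + 1) = tau (e + i + 1) := by
    rw [tau_val (by omega), Nat.add_sub_cancel, pow_succ' 2 i, pow_mul]
    push_cast at hs
    exact hs.trans (add_comm _ _)
  have hp : ψ x ^ 2 ^ (i + 1) = -1 := by rw [← map_pow, ht, hψ]
  have e1 : ψ x ^ r = 1 := by
    have e2 := congrArg (· ^ r) h
    simpa only [mul_pow, hω, one_mul, one_pow] using e2
  have e3 : (ψ x ^ 2 ^ (i + 1)) ^ r = 1 := by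
    rw [← pow_mul, mul_comm, pow_mul, e1, one_pow]
  rw [hp, hr.neg_one_pow] at e3
  norm_num at e3

theorem abu4q_fac {s : St} {f : Ideal s.O} {χ : MulChar (s.Pr f) ℂ} {r : ℕ} (hr : Odd r)
    (h3 : ∀ D : (s.Pr f)ˣ, χ D ^ r = 1) (Q : HeightOneSpectrum (𝓞 s.k)) :
    ∃ n₀ : ℕ, ∀ n, n₀ ≤ n → ∀ (ψ : MulChar (ZMod (2 ^ n)) ℂ) (φ : MulChar (s.Pr (s.md f n)) ℂ),
      ψ (tau n) = -1 → s.Tw f n χ ψ φ → 1 - (φ (s.cl _ (s.ip Q.asIdeal)))⁻¹ ≠ 0 := by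
  have hone : ∀ (n : ℕ) (φ : MulChar (s.Pr (s.md f n)) ℂ),
      ¬ IsUnit (s.cl (s.md f n) (s.ip Q.asIdeal)) → 1 - (φ (s.cl _ (s.ip Q.asIdeal)))⁻¹ ≠ 0 := by
    intro n φ hu
    rw [φ.map_nonunit hu, inv_zero, sub_zero]
    exact one_ne_zero
  have hodd : ∀ n, 1 ≤ n → IsUnit (s.cl (s.md f n) (s.ip Q.asIdeal)) →
      Odd (Ideal.absNorm Q.asIdeal) := by
    intro n hn hu
    have h := s.Qn_cop (s.md_le f n).2.1 hu
    rw [s.Qn_ip Q.ne_bot] at h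
    exact Nat.coprime_two_right.1 (h.coprime_dvd_right (dvd_pow_self 2 (by omega)))
  by_cases hx : Odd (Ideal.absNorm Q.asIdeal)
  swap
  · exact ⟨1, fun n hn ψ φ _ _ => hone n φ fun hu => hx (hodd n hn hu)⟩
  have h1 : Ideal.absNorm Q.asIdeal ≠ 1 := fun h =>
    Q.isPrime.ne_top (Ideal.absNorm_eq_one_iff.1 h)
  obtain ⟨n₀, hR⟩ := eul_ne hx h1 hr
  refine ⟨n₀, fun n hn ψ φ hψ hT => ?_⟩
  by_cases hu : IsUnit (s.cl (s.md f n) (s.ip Q.asIdeal))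
  swap
  · exact hone n φ hu
  have hω : χ (s.cl f (s.ip Q.asIdeal)) ^ r = 1 := by
    obtain ⟨D, hD⟩ := s.unit_mono (s.md_le f n).1 hu
    rw [← hD]
    exact h3 D
  rw [hT _ hu, s.Qn_ip Q.ne_bot]
  exact fun h => hR n hn ψ _ hψ hω (inv_eq_one.1 (sub_eq_zero.1 h).symm)

theorem St.ana_one {s : St} {f : Ideal s.O} {c C r : ℕ} (hc : s.Cc f c) (hC : C ≠ 0)
    (hf : (C : s.O) ∈ f) (hr : Odd r) {χ : MulChar (s.Pr f) ℂ} (h3 : ∀ D : (s.Pr f)ˣ, χ D ^ r = 1) :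
    ∃ R n₀ : ℕ, ∀ n, n₀ ≤ n → ∀ (ψ : MulChar (ZMod (2 ^ n)) ℂ) (φ : MulChar (s.Pr (s.md f n)) ℂ),
      ψ (tau n) = -1 → s.Tw f n χ ψ φ → ∃ (a : Ideal s.O → ℂ) (y : ℂ) (A B : ℝ), Mult s.k a ∧
        (∀ q : Ideal s.O, q.IsPrime → q ≠ ⊥ → ((C : s.O) ∈ q → a q = 0) ∧
          ((C : s.O) ∉ q → a q = φ (s.cl _ (s.ip q)))) ∧
        Tendsto (DS s.k a) (𝓝[>] 1) (𝓝 y) ∧ ‖y‖ ^ 2 * A = 4 * π ^ 2 *
          ‖∑ᶠ D : (s.Pr (s.md f n))ˣ,
            (φ D)⁻¹ * (Real.log (‖s.thp f c n (s.out D.1)‖ ^ 2) : ℂ)‖ ^ 2 * B ∧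
        A ≠ 0 ∧ s.v A ≤ s.v 2 ^ (2 * n) ∧ s.v 2 ^ R ≤ s.v B ^ 2 ^ n := by
  classical
  have f0 : f ≠ ⊥ := s.odd_ne hc.1
  obtain ⟨g, χ₀, hle, hg, hχ, h3', k⟩ := s.exists_cond hr f0 χ h3
  obtain ⟨b, hb⟩ := Ideal.dvd_iff_le.2 hle
  have b0 : b ≠ ⊥ := fun e => f0 (by rw [hb, e, Ideal.mul_bot])
  have hCb : (C : s.O) ∈ b := (hb.le.trans Ideal.mul_le_right : f ≤ b) hf
  choose R n₀ hR using u4p_fac (s := s) hr h3'
  choose n₁ hE using abu4q_fac (s := s) hr h3'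
  have hfin := fin_primes s.k hC
  have hfb : {Q : HeightOneSpectrum s.O | b ≤ Q.asIdeal}.Finite :=
    hfin.subset fun Q hQ => hQ hCb
  refine ⟨∑ Q ∈ hfin.toFinset, R Q, 2 + ∑ Q ∈ hfin.toFinset, n₀ Q + ∑ Q ∈ hfb.toFinset, n₁ Q,
    fun n hn ψ φ hψ hT => ?_⟩
  have hn2 : 2 ≤ n := by omega
  have hm : s.md f n ≠ ⊥ := s.md_ne f0 n
  have hm₀ : s.md g n ≠ ⊥ := s.md_ne (s.odd_ne hg) n
  have em : s.md f n = s.md g n * b := by
    unfold St.md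
    rw [hb, mul_right_comm]
  have := s.finite_Pr hm
  have := s.finite_Pr hm₀
  obtain ⟨φ₀, hT₀⟩ := s.exists_tw g n χ₀ ψ
  have hφ : ∀ p, IsUnit (s.cl (s.md f n) p) → φ (s.cl (s.md f n) p) = φ₀ (s.cl (s.md g n) p) :=
    fun p hp => by
      rw [hT p hp, hT₀ p (s.unit_mono (em.le.trans Ideal.mul_le_left) hp),
        k p (s.unit_mono (s.md_le f n).1 hp)]
  have hP := s.prim_tw hg hn2 hχ hψ hT₀
  obtain ⟨L, hL, hL2⟩ := s.Lr_lim hm₀ (u4p_two g hn2) hP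
  have hZ := s.gp_lev hm₀ (u4p_two g hn2) b0 em hφ
  rw [finprod_mem_eq_finite_toFinset_prod _ hfb] at hZ
  obtain ⟨u1, u2⟩ := s.f4_two hc.1 hn2 hψ hT (Or.inl rfl)
  have ha : Mult s.k fun J => φ₀ (s.cl (s.md g n) (s.ip J)) :=
    ⟨by simp only [s.ip_top, map_one], fun I J hI hJ => by simp only [s.ip_mul hI hJ, map_mul],
      fun I => u4p_norm φ₀ _⟩
  obtain ⟨E, hE'⟩ : ∃ E : ℂ, E = ∏ Q ∈ hfb.toFinset,
    (1 - (φ₀ (s.cl (s.md g n) (s.ip Q.asIdeal)))⁻¹) := ⟨_, rfl⟩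
  rw [← hE'] at hZ
  have E0 : E ≠ 0 := by
    rw [hE']
    refine Finset.prod_ne_zero_iff.2 fun Q hQ => hE Q n ?_ ψ φ₀ hψ hT₀
    exact ((Finset.single_le_sum (f := n₁) (fun _ _ => Nat.zero_le _) hQ).trans
      (Nat.le_add_left _ _)).trans hn
  have E1 : s.v E ≤ 1 ∧ s.v (conj E) ≤ 1 := by
    rw [hE', map_prod, map_prod, map_prod]
    refine ⟨Finset.prod_le_one' fun Q _ => ?_, Finset.prod_le_one' fun Q _ => ?_⟩
    · rw [← MulChar.inv_apply_eq_inv']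
      exact s.v.map_sub_le s.v.map_one.le (u4p_val s.v _ _).1
    · rw [← MulChar.inv_apply_eq_inv', map_sub, map_one]
      exact s.v.map_sub_le s.v.map_one.le (u4p_val s.v _ _).2
  set W : ℂ := ∏ Q ∈ hfin.toFinset, (1 - φ₀ (s.cl (s.md g n) (s.ip Q.asIdeal)) *
    (((Ideal.absNorm Q.asIdeal : ℝ) ^ (-(1 : ℝ)) : ℝ) : ℂ)) with hW
  refine ⟨fun J => oneC s.k C J * φ₀ (s.cl (s.md g n) (s.ip J)), L * W,
    (s.dd * Ideal.absNorm (s.md g n)) * ‖(c : ℂ) ^ 2 - φ (s.cl (s.md f n) (s.np c))‖ ^ 2 * ‖E‖ ^ 2,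
    ‖W‖ ^ 2, mult_oneC s.k ha C, fun q hq h0 => ?_, ?_, ?_, ?_, ?_, ?_⟩
  · obtain ⟨k1, k2⟩ := oneC_prime s.k (C := C) hq h0
    refine ⟨fun h => by simp only [k1 h, zero_mul], fun h => ?_⟩
    simp only [k2 h, one_mul]
    by_cases hu : IsUnit (s.cl (s.md f n) (s.ip q))
    · exact (hφ _ hu).symm
    rw [φ.map_nonunit hu]
    refine φ₀.map_nonunit fun hu₀ => hu ?_
    rw [s.unit_cl hm₀, s.idOf_ip h0] at hu₀
    rw [s.unit_cl hm, s.idOf_ip h0, em]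
    refine hu₀.mul_right ?_
    rw [Ideal.isCoprime_iff_sup_eq]
    refine (hq.isMaximal h0).out.2 _ (lt_of_le_of_ne le_sup_left fun e => h ?_)
    rw [e]
    exact Ideal.mem_sup_right hCb
  · have t1 : Tendsto (fun t : ℝ => ∏ Q ∈ hfin.toFinset,
        (1 - φ₀ (s.cl (s.md g n) (s.ip Q.asIdeal)) *
          (((Ideal.absNorm Q.asIdeal : ℝ) ^ (-t) : ℝ) : ℂ))) (𝓝[>] 1) (𝓝 W) := by
      refine tendsto_finsetProd _ fun Q _ => ?_
      have h0 : (Ideal.absNorm Q.asIdeal : ℝ) ≠ 0 := by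
        rw [Nat.cast_ne_zero, Ne, Ideal.absNorm_eq_zero_iff]
        exact Q.ne_bot
      have c1 : ContinuousAt (fun t : ℝ => (Ideal.absNorm Q.asIdeal : ℝ) ^ (-t)) 1 :=
        (Real.continuousAt_const_rpow h0).comp continuous_neg.continuousAt
      exact ((((continuous_ofReal.continuousAt.comp c1).tendsto.mono_left
        nhdsWithin_le_nhds).const_mul _).const_sub _)
    refine (hL.mul t1).congr' ?_
    filter_upwards [self_mem_nhdsWithin] with t ht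
    rw [DS_sieve s.k ha hC ht, finprod_mem_eq_finite_toFinset_prod _ hfin]
    rfl
  · rw [s.log_sum' hc hn2 u1 u2, hZ, norm_mul, norm_mul, norm_mul, norm_neg]
    unfold St.Zg
    linear_combination (‖W‖ ^ 2 * ‖(c : ℂ) ^ 2 - φ (s.cl (s.md f n) (s.np c))‖ ^ 2 * ‖E‖ ^ 2) * hL2
  · have d0 : s.dd ≠ 0 := by have := s.dd_mod; omega
    have m0 : Ideal.absNorm (s.md g n) ≠ 0 := by rwa [Ne, Ideal.absNorm_eq_zero_iff]
    have c0 : (c : ℂ) ^ 2 - φ (s.cl (s.md f n) (s.np c)) ≠ 0 := by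
      intro h
      have h1 := u4p_norm φ (s.cl (s.md f n) (s.np c))
      rw [← sub_eq_zero.1 h, norm_pow, Complex.norm_natCast] at h1
      have h2 : (1 : ℝ) < c := by exact_mod_cast hc.2.1
      nlinarith
    positivity
  · obtain ⟨k1, k2⟩ := u4p_val s.v φ (s.cl (s.md f n) (s.np c))
    generalize φ (s.cl (s.md f n) (s.np c)) = ζ at k1 k2
    have e : (((s.dd * Ideal.absNorm (s.md g n)) * ‖(c : ℂ) ^ 2 - ζ‖ ^ 2 * ‖E‖ ^ 2 : ℝ) : ℂ) =
        2 ^ (2 * n) * (((s.dd * Ideal.absNorm g : ℕ) : ℂ) *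
          ((((c ^ 2 : ℕ) : ℂ) - ζ) * (((c ^ 2 : ℕ) : ℂ) - conj ζ)) * (E * conj E)) := by
      rw [s.norm_md, ofReal_mul, ofReal_mul, ofReal_pow, ofReal_pow, ← Complex.mul_conj',
        ← Complex.mul_conj', map_sub, map_pow, map_natCast, pow_mul]
      push_cast
      ring
    rw [e, map_mul, map_pow, map_mul, map_mul, map_mul, map_mul]
    exact mul_le_of_le_one_right' (mul_le_one' (mul_le_one' (u4p_nat _ _)
      (mul_le_one' (s.v.map_sub_le (u4p_nat _ _) k1) (s.v.map_sub_le (u4p_nat _ _) k2)))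
      (mul_le_one' E1.1 E1.2))
  · rw [hW, norm_prod, ← Finset.prod_pow, ofReal_prod, map_prod, ← Finset.prod_pow,
      ← Finset.prod_pow_eq_pow_sum]
    refine Finset.prod_le_prod' fun Q hQ => hR Q n ?_ ψ φ₀ hψ hT₀
    have := Finset.single_le_sum (f := n₀) (fun _ _ => Nat.zero_le _) hQ
    omega

end Pool.Agent.P.MP_20768c_nt.Az.Cu

end

-- part Ex.X11
section

set_option autoImplicit false

open Complex NumberField IsDedekindDomain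
open scoped Real

namespace Pool.Agent.P.MP_20768c_nt.Az.Cu

namespace St

variable (s : St)

theorem x11_pow {φ : s.Au →* ℂˣ} (hφ : s.Cts φ) (n : ℕ) : s.Cts (φ ^ n) := by
  obtain ⟨T, h1, h2⟩ := hφ
  exact ⟨T, h1, fun σ hσ => by rw [MonoidHom.pow_apply, h2 σ hσ, one_pow]⟩

theorem x11_one {φ : s.Au →* ℂˣ} (h : ∀ σ, φ σ ^ 1 = 1) : s.Ray φ :=
  ⟨1, one_pos, fun σ _ => (pow_one _).symm.trans (h σ)⟩

theorem x11_chr {n : ℕ} (hn : n ≠ 0) {φ : s.Au →* ℂˣ} (hφ : s.Cts φ) (h : ∀ σ, φ σ ^ n = 1) :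
    s.Ray φ := by
  induction n using Nat.recOnPosPrimePosCoprime generalizing φ with
  | zero => exact (hn rfl).elim
  | one => exact s.x11_one h
  | prime_pow p r hp hr =>
    clear hr hn
    induction r generalizing φ with
    | zero => exact s.x11_one h
    | succ r ih =>
      refine s.x10_step hp hφ h (ih (s.x11_pow hφ p) fun σ => ?_)
      rw [MonoidHom.pow_apply, ← pow_mul, ← pow_succ', h]
  | coprime a b ha hb hab iha ihb =>
    obtain ⟨m, hm, h1⟩ := iha (by omega) (s.x11_pow hφ b) fun σ => by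
      rw [MonoidHom.pow_apply, ← pow_mul, mul_comm, h]
    obtain ⟨m', hm', h2⟩ := ihb (by omega) (s.x11_pow hφ a) fun σ => by
      rw [MonoidHom.pow_apply, ← pow_mul, h]
    exact ⟨m * m', mul_pos hm hm', fun σ hσ => (pow_eq_one_iff_of_coprime hab).1
      ⟨h2 σ (hσ.mono (dvd_mul_left _ _)), h1 σ (hσ.mono (dvd_mul_right _ _))⟩⟩

/-- every finite abelian extension lies in a ray class field -/
theorem ex_ray (N : IntermediateField s.k ℂ) [FiniteDimensional s.k N] [IsGalois s.k N]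
    (hN : ∀ g h : N ≃ₐ[s.k] N, g * h = h * g) :
    ∃ m : ℕ, 0 < m ∧ ∀ σ : s.Au, s.Art m σ ⊤ → ∀ x ∈ N, σ x = x := by
  classical
  obtain ⟨ρ, -, hρ⟩ := s.exists_res N
  let _ : CommGroup (N ≃ₐ[s.k] N) := { (inferInstance : Group (N ≃ₐ[s.k] N)) with mul_comm := hN }
  have key : ∀ g : N ≃ₐ[s.k] N, ∃ m : ℕ, 0 < m ∧
      ∀ σ : s.Au, s.Art m σ ⊤ → ρ σ = g → g = 1 := by
    intro g
    by_cases hg : g = 1
    · exact ⟨1, one_pos, fun _ _ _ => hg⟩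
    obtain ⟨χ, hχ⟩ := CommGroup.exists_apply_ne_one_of_hasEnoughRootsOfUnity _ ℂ hg
    have hc : s.Cts (χ.comp ρ) := by
      let b := Module.finBasis s.k N
      refine ⟨Finset.univ.image fun i => (b i : ℂ), fun x hx => ?_, fun σ hσ => ?_⟩
      · obtain ⟨i, -, rfl⟩ := Finset.mem_image.1 hx
        exact s.alg_of_mem N (b i).2
      · have e : ρ σ = 1 := AlgEquiv.toLinearMap_injective (b.ext fun i => Subtype.ext
          ((hρ σ _).trans (hσ _ (Finset.mem_image_of_mem _ (Finset.mem_univ i)))))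
        rw [MonoidHom.comp_apply, e, map_one]
    obtain ⟨m, hm, h⟩ := s.x11_chr (n := Nat.card (N ≃ₐ[s.k] N)) Nat.card_pos.ne' hc fun σ => by
      rw [MonoidHom.comp_apply, ← map_pow, pow_card_eq_one', map_one]
    exact ⟨m, hm, fun σ hσ e => (hχ (e ▸ h σ hσ)).elim⟩
  choose m hm h using key
  refine ⟨∏ g, m g, Finset.prod_pos fun g _ => hm g, fun σ hσ x hx => ?_⟩
  rw [← hρ σ ⟨x, hx⟩, h _ σ (hσ.mono (Finset.dvd_prod_of_mem _ (Finset.mem_univ _))) rfl]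
  rfl

end St


end Pool.Agent.P.MP_20768c_nt.Az.Cu

end

-- part Ab.U1
section

set_option autoImplicit false

open Complex NumberField IsDedekindDomain Filter Topology
open UpperHalfPlane hiding I
open scoped ComplexConjugate Real MatrixGroups

namespace Pool.Agent.P.MP_20768c_nt.Az.Cu

open Pool.Agent.P.MP_20768c_nt.Az.EQ (Lt pr sp IsLat jL qN)

namespace St

variable {s : St} {f : Ideal s.O} {c n : ℕ} {X : Finset (MulChar (s.Pr f) ℂ)}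
  {sb : (ZMod (2 ^ n))ˣ → s.Au}

theorem u1_ext {ω ω' : s.Pair → ℂ} (h : ∀ p, IsUnit (s.cl (s.md f n) p) → ω p = ω' p) (b : ℤ) :
    s.BB f c n ω b = s.BB f c n ω' b := by
  rw [BB, BB]
  congr 1
  exact finsum_congr fun C => by rw [h _ (s.unit_out C)]

theorem u1_sum (hf : f ≠ ⊥) {ι : Type} (T : Finset ι) (ω : ι → s.Pair → ℂ) (b : ℤ) :
    s.BB f c n (fun p => ∑ i ∈ T, ω i p) b = ∑ i ∈ T, s.BB f c n (ω i) b := by
  classical
  induction T using Finset.induction_on with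
  | empty => simpa using BB_smul hf c n 0 (fun _ => 0) b
  | insert i T hi ih =>
    simp only [Finset.sum_insert hi]
    rw [BB_add hf, ih]

theorem u1_le (hc : s.Cc f c) (hn : 2 ≤ n) (g : s.Pr f → ℂ) (hg : ∀ p, s.v (g (s.cl f p)) ≤ 1)
    (b : ℤ) : s.v (s.BB f c n (fun p => g (s.cl f p) * s.oms f p) b) ≤ 1 :=
  BB_le hc hn (g := fun p => g (s.cl f p))
    (fun x p q h => by
      show g _ = g _
      rw [s.cl_eq.2 ⟨x, h.mono (s.lv_le f).1⟩]) (fun p _ => hg p) b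

theorem u1_tr (hn : 2 ≤ n) (hs : s.IsSec n sb) {y : ℂ} (hy : y ∈ s.Fx n) (hv : s.v y ≤ 1) :
    s.v (s.tr n sb ((zt n)⁻¹ * y)) ≤ 1 := by
  obtain ⟨T, hT⟩ := s.exists_fx n
  refine tr_int (by omega) hs ((hT _).1 (mul_mem (inv_mem ((hT _).2 (s.fx_zt n))) ((hT _).2 hy))) ?_
  rwa [map_mul, map_inv₀, v_root s.v (by positivity) (zt_pow n), inv_one, one_mul]

open Classical in
theorem abu1_del (hc : s.Cc f c) (hn : 2 ≤ n) (hs : s.IsSec n sb) (a₀ : s.Pr f)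
    (b₀ : (ZMod (2 ^ n))ˣ) {b : ℤ} (hb : (b : ZMod (2 ^ n)) * b₀ = -1) :
    s.del n sb (s.uq f X c n a₀ b₀) = s.rs (s.BB f c n
      (fun p => (if ∀ χ ∈ X, χ (s.cl f p) = χ a₀ then 1 else 0) * s.oms f p) b) := by
  have hf : f ≠ ⊥ := s.odd_ne hc.1
  have := s.finite_Pr (s.md_ne hf n)
  have := Fintype.ofFinite (s.Pr (s.md f n))ˣ
  obtain ⟨κ, hκ⟩ := exists_kap hc.1 n
  have e1 : s.uq f X c n a₀ b₀ = ∏ C ∈ Finset.univ.filter fun C : (s.Pr (s.md f n))ˣ =>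
      (∀ χ ∈ X, χ (s.cl f (s.out C.1)) = χ a₀) ∧ (s.Qn (s.out C.1) : ZMod (2 ^ n)) = b₀,
      s.thp f c n (s.out C.1) := by
    rw [uq, ← finprod_mem_coe_finset]
    simp
  rw [e1, del_prod hn hs _ fun C _ =>
    ⟨(thp_fx hc hn (s.unit_out C)).1, thp_unit s.v hc (by omega) (s.unit_out C)⟩,
    Finset.sum_congr rfl fun C _ => del_cong hn hs (thp_fx hc hn (s.unit_out C)).1
      (thp_fx hc hn (s.unit_out C)).2 (thp_dl hc hn hs (s.unit_out C)).2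
      (thp_dl hc hn hs (s.unit_out C)).1,
    ← rs_sum _ fun C _ => u1_tr hn hs (thp_fx hc hn (s.unit_out C)).2
      (thp_dl hc hn hs (s.unit_out C)).2]
  refine congrArg s.rs ?_
  have e2 : {C : (s.Pr (s.md f n))ˣ | (s.Qn (s.out C.1) : ZMod (2 ^ n)) = b₀} =
      (Finset.univ.filter fun C : (s.Pr (s.md f n))ˣ =>
        (s.Qn (s.out C.1) : ZMod (2 ^ n)) = b₀ : Finset _) := by simp
  rw [BB, kap_sum hf hκ b₀, e2, finsum_mem_coe_finset, Finset.sum_div, ← Finset.filter_filter,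
    Finset.filter_comm, Finset.sum_filter]
  refine Finset.sum_congr rfl fun C hC => ?_
  have hQ := (Finset.mem_filter.1 hC).2
  have e3 : ∀ b' : (ZMod (2 ^ n))ˣ, s.cl f (s.out (C * κ b').1) = s.cl f (s.out C.1) := fun b' =>
    s.cl_mono (n := f * s.p2 ^ n) Ideal.mul_le_left (kap_cl hκ C b').1
  simp only [e3]
  split_ifs with h
  · rw [tr]
    refine congrArg (· / _) (Finset.sum_congr rfl fun b' _ => ?_)
    have e4 : zt n ^ (b * s.Qn (s.out (C * κ b').1)) = (zt n ^ (b' : ZMod (2 ^ n)).val)⁻¹ := by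
      rw [← zpow_natCast, ← zpow_neg, zt_congr, Int.cast_mul, Int.cast_neg, Int.cast_natCast,
        Int.cast_natCast, (kap_cl hκ C b').2, hQ, ← mul_assoc, hb, ZMod.natCast_zmod_val,
        neg_one_mul]
    rw [map_mul, map_inv₀, (hs b').2, (kap_act hc hn hκ (hs b').1 (hs b').2 C).2, e4, one_mul,
      mul_assoc]
  · simp

theorem del_uq (hc : s.Cc f c) (hn : 2 ≤ n) (hX : ∀ χ ∈ X, ∀ χ' ∈ X, χ * χ' ∈ X)
    (ho : Odd X.card) (hs : s.IsSec n sb) (a₀ : (s.Pr f)ˣ) (b₀ : (ZMod (2 ^ n))ˣ) {b : ℤ}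
    (hb : (b : ZMod (2 ^ n)) * b₀ = -1) : s.del n sb (s.uq f X c n a₀ b₀) =
      ∑ χ ∈ X, s.rs (χ a₀)⁻¹ * s.rs (s.BB f c n (fun p => χ (s.cl f p) * s.oms f p) b) := by
  classical
  have hf : f ≠ ⊥ := s.odd_ne hc.1
  have i1 := u1_le hc hn (fun C => if ∀ χ ∈ X, χ C = χ a₀ then 1 else 0)
    (fun p => by split_ifs <;> simp) b
  have i2 : ∀ χ : MulChar (s.Pr f) ℂ, s.v (χ a₀)⁻¹ ≤ 1 := fun χ => by
    have e := v_chi hf χ (s.out (a₀⁻¹).1)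
    rwa [s.cl_out, map_units_inv] at e
  have i3 : ∀ χ : MulChar (s.Pr f) ℂ,
      s.v (s.BB f c n (fun p => χ (s.cl f p) * s.oms f p) b) ≤ 1 := fun χ =>
    u1_le hc hn χ (v_chi hf χ) b
  have o : Odd (X.card : ℤ) := by exact_mod_cast ho
  have k : ((X.card : ℤ) : ℂ) * s.BB f c n
      (fun p => (if ∀ χ ∈ X, χ (s.cl f p) = χ a₀ then 1 else 0) * s.oms f p) b =
      ∑ χ ∈ X, (χ a₀)⁻¹ * s.BB f c n (fun p => χ (s.cl f p) * s.oms f p) b := by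
    simp only [← BB_smul hf]
    rw [← u1_sum hf]
    refine u1_ext (fun p hp => ?_) b
    have e := s.orth_X hX a₀ (s.unit_mono (s.md_le f n).1 hp).unit
    rw [IsUnit.unit_spec] at e
    simp only [← mul_assoc]
    rw [← Finset.sum_mul, e, Int.cast_natCast]
    split_ifs <;> simp
  have k' := congrArg s.rs k
  rw [rs_mul (v_odd s.v s.v_two o).le i1, rs_odd o, one_mul, rs_sum _ fun χ _ => by
    rw [map_mul]
    exact mul_le_one' (i2 χ) (i3 χ)] at k'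
  rw [abu1_del hc hn hs a₀ b₀ hb]
  exact k'.trans (Finset.sum_congr rfl fun χ _ => rs_mul (i2 χ) (i3 χ))

end St

end Pool.Agent.P.MP_20768c_nt.Az.Cu

end

-- part Ab.F5
section

set_option autoImplicit false

open Complex NumberField IsDedekindDomain Filter Topology
open UpperHalfPlane hiding I
open scoped ComplexConjugate Real MatrixGroups

namespace Pool.Agent.P.MP_20768c_nt.Az.Cu

open Pool.Agent.P.MP_20768c_nt.Az.EQ (Lt pr sp IsLat jL qN)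

theorem St.exists_lev (s : St) (F : IntermediateField s.k ℂ) [FiniteDimensional s.k F]
    [IsGalois s.k F] (ho : Odd (Module.finrank s.k F)) {φ : s.Au →* ℂˣ}
    (h : ∀ σ : s.Au, (∀ x ∈ F, σ x = x) → φ σ = 1) : ∃ M, 0 < M ∧ s.Lev M φ := by
  classical
  obtain ⟨ρ, -, h2⟩ := s.exists_res F
  have hk : ∀ σ, ρ σ = 1 → φ σ = 1 := fun σ hσ => h σ fun x hx => by
    have := h2 σ ⟨x, hx⟩
    rw [hσ] at this
    exact this.symm
  refine s.x11_chr ho.pos.ne' ?_ fun σ => ?_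
  · let B := Module.finBasis s.k F
    refine ⟨Finset.univ.image fun i => (B i : ℂ), fun x hx => ?_, fun σ hσ => hk σ ?_⟩
    · obtain ⟨i, -, rfl⟩ := Finset.mem_image.1 hx
      exact s.alg_of_mem F (B i).2
    · have e : (ρ σ).toLinearMap = LinearMap.id := B.ext fun i =>
        Subtype.ext ((h2 σ _).trans (hσ _ (Finset.mem_image_of_mem _ (Finset.mem_univ i))))
      exact AlgEquiv.ext fun x => LinearMap.congr_fun e x
  · rw [← map_pow]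
    refine hk _ ?_
    rw [map_pow, ← IsGalois.card_aut_eq_finrank, pow_card_eq_one']

theorem St.lev_odd (s : St) {r M : ℕ} (hr : Odd r) (hM : 0 < M) {φ : s.Au →* ℂˣ}
    (h : ∀ σ, φ σ ^ r = 1) (hL : s.Lev M φ) : ∃ g : Ideal s.O, Odd (Ideal.absNorm g) ∧
      ∀ f : Ideal s.O, f ≠ ⊥ → f ≤ g → ∃ χ : MulChar (s.Pr f) ℂ,
        ∀ (m : ℕ) (σ : s.Au) (b : Ideal s.O), 0 < m → (m : s.O) ∈ f → s.Art m σ b →
          χ (s.cl f (s.ip b)) = φ σ := by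
  obtain ⟨A, hA, hA'⟩ := s.exists_artHom hM
  have ke : A.ker ≤ φ.ker := fun σ hσ => hL σ ((hA' σ ⊤).2 ⟨top_ne_bot, by
    rw [MonoidHom.mem_ker.1 hσ, s.ip_top, map_one, Units.val_one]⟩)
  obtain ⟨χ, k⟩ : ∃ χ : MulChar (s.Pr (Ideal.span {(M : s.O)})) ℂ, ∀ σ, χ (A σ) = φ σ :=
    ⟨MulChar.ofUnitHom (A.liftOfSurjective hA ⟨_, ke⟩), fun σ => by
      rw [MulChar.ofUnitHom_coe, MonoidHom.liftOfRightInverse_comp_apply]⟩
  obtain ⟨g, χ', -, k2, -, -, k5⟩ := s.exists_cond hr (g := Ideal.span {(M : s.O)})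
    (mt Ideal.span_singleton_eq_bot.1 (Nat.cast_ne_zero.2 hM.ne')) χ fun C => by
      obtain ⟨σ, rfl⟩ := hA C
      rw [k, ← Units.val_pow_eq_pow_val, h, Units.val_one]
  refine ⟨g, k2, fun f _ hle => ?_⟩
  obtain ⟨χ'', k6⟩ := s.exists_ind hle χ'
  refine ⟨χ'', fun m σ b hm hf hb => ?_⟩
  obtain ⟨a, ha⟩ := St.exists_art (mul_pos hm hM) σ
  have a1 := ha.mono (dvd_mul_left M m)
  have a2 := ha.mono (dvd_mul_right m M)
  rw [s.cl_mono ((Ideal.span_singleton_le_iff_mem _).2 hf) (hb.cl_eq hm a2), k6 _ (a2.unit hm hf),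
    k5 _ (a1.unit hM (Ideal.mem_span_singleton_self _)), ← ((hA' σ a).1 a1).2, k]

theorem St.abf5_rep (s : St) {f : Ideal s.O} (hf : f ≠ ⊥) (C : (s.Pr f)ˣ) :
    ∃ (σ : s.Au) (b : Ideal s.O), s.Art (Ideal.absNorm f) σ b ∧
      (C : s.Pr f) = s.cl f (s.ip b) := by
  have hN : Ideal.absNorm f ≠ 0 := mt Ideal.absNorm_eq_zero_iff.1 hf
  obtain ⟨b, b0, b1, b2⟩ := s.exists_rep hf (s.unit_out C)
    (a := Ideal.span {((Ideal.absNorm f : ℕ) : s.O)})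
    (mt Ideal.span_singleton_eq_bot.1 (Nat.cast_ne_zero.2 hN))
  obtain ⟨σ, hσ⟩ := St.art_surj (Nat.pos_of_ne_zero hN) b0 b1.of_mul_right_right
  exact ⟨σ, b, hσ, by rw [b2, s.cl_out]⟩

theorem St.abf5_cut (s : St) {Γ : Type} [CommGroup Γ] [Finite Γ] (ho : Odd (Nat.card Γ))
    {ρ : s.Au →* Γ} (hρ : Function.Surjective ρ)
    (hL : ∀ ψ : Γ →* ℂˣ, ∃ M, 0 < M ∧ s.Lev M (ψ.comp ρ)) :
    ∃ (f : Ideal s.O) (X : Finset (MulChar (s.Pr f) ℂ)), Odd (Ideal.absNorm f) ∧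
      X.card = Nat.card Γ ∧ (∀ χ ∈ X, ∀ C : (s.Pr f)ˣ, χ C ^ Nat.card Γ = 1) ∧
      (∀ χ ∈ X, ∀ χ' ∈ X, χ * χ' ∈ X) ∧
      (∀ (m : ℕ) (σ : s.Au) (b : Ideal s.O), 0 < m → (m : s.O) ∈ f → s.Art m σ b →
        ((∀ χ ∈ X, χ (s.cl f (s.ip b)) = 1) ↔ ρ σ = 1)) ∧
      ∀ ψ : Γ →* ℂˣ, ∃ χ ∈ X, ∀ (m : ℕ) (σ : s.Au) (b : Ideal s.O), 0 < m → (m : s.O) ∈ f →
        s.Art m σ b → χ (s.cl f (s.ip b)) = ψ (ρ σ) := by
  classical
  have hc := CommGroup.card_monoidHom_of_hasEnoughRootsOfUnity Γ ℂ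
  have : Finite (Γ →* ℂˣ) := Nat.finite_of_card_ne_zero (by rw [hc]; exact Nat.card_pos.ne')
  have := Fintype.ofFinite (Γ →* ℂˣ)
  have hp : ∀ (ψ : Γ →* ℂˣ) (x : Γ), ψ x ^ Nat.card Γ = 1 := fun ψ x => by
    rw [← map_pow, pow_card_eq_one', map_one]
  choose M hM hM' using hL
  choose g hg hg' using fun ψ : Γ →* ℂˣ => s.lev_odd ho (hM ψ) (fun σ => hp ψ (ρ σ)) (hM' ψ)
  obtain ⟨f, hf⟩ : ∃ f, f = ∏ ψ, g ψ := ⟨_, rfl⟩
  have ho' : Odd (Ideal.absNorm f) := by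
    rw [hf, map_prod]
    exact Finset.prod_induction _ Odd (fun _ _ => Odd.mul) odd_one fun ψ _ => hg ψ
  have h0 := s.odd_ne ho'
  have hN : 0 < Ideal.absNorm f := ho'.pos
  choose χ hχ using fun ψ => hg' ψ f h0
    (Ideal.le_of_dvd (hf ▸ Finset.dvd_prod_of_mem g (Finset.mem_univ ψ)))
  have hi : Function.Injective χ := fun ψ ψ' e => MonoidHom.ext fun x => by
    obtain ⟨σ, rfl⟩ := hρ x
    obtain ⟨b, hb⟩ := St.exists_art hN σ
    have e1 := hχ ψ _ σ b hN f.absNorm_mem hb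
    rw [e, hχ ψ' _ σ b hN f.absNorm_mem hb] at e1
    exact Units.ext e1.symm
  refine ⟨f, Finset.univ.image χ, ho', ?_, ?_, ?_, fun m σ b hm hmf hb => ⟨fun h => ?_, ?_⟩,
    fun ψ => ⟨χ ψ, Finset.mem_image_of_mem _ (Finset.mem_univ _), hχ ψ⟩⟩
  · rw [Finset.card_image_of_injective _ hi, Finset.card_univ, ← hc, Nat.card_eq_fintype_card]
  · intro _ h C
    obtain ⟨ψ, -, rfl⟩ := Finset.mem_image.1 h
    obtain ⟨σ, b, hb, e⟩ := s.abf5_rep h0 C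
    rw [e, hχ ψ _ σ b hN f.absNorm_mem hb, ← Units.val_pow_eq_pow_val, MonoidHom.comp_apply, hp,
      Units.val_one]
  · intro _ h _ h'
    obtain ⟨ψ, -, rfl⟩ := Finset.mem_image.1 h
    obtain ⟨ψ', -, rfl⟩ := Finset.mem_image.1 h'
    refine Finset.mem_image.2 ⟨ψ * ψ', Finset.mem_univ _, MulChar.ext fun C => ?_⟩
    obtain ⟨σ, b, hb, e⟩ := s.abf5_rep h0 C
    rw [MulChar.mul_apply, e, hχ ψ _ σ b hN f.absNorm_mem hb, hχ ψ' _ σ b hN f.absNorm_mem hb,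
      hχ _ _ σ b hN f.absNorm_mem hb]
    rfl
  · by_contra hne
    obtain ⟨ψ, hψ⟩ := CommGroup.exists_apply_ne_one_of_hasEnoughRootsOfUnity Γ ℂ hne
    have e := h _ (Finset.mem_image_of_mem χ (Finset.mem_univ ψ))
    rw [hχ ψ m σ b hm hmf hb] at e
    exact hψ (Units.val_eq_one.1 e)
  · intro h _ h'
    obtain ⟨ψ, -, rfl⟩ := Finset.mem_image.1 h'
    rw [hχ ψ m σ b hm hmf hb, MonoidHom.comp_apply, h, map_one, Units.val_one]

theorem Ab.exists_cut (s : Ab) : ∃ f X, s.Cut f X := by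
  obtain ⟨ρ, h1, h2⟩ := s.exists_res s.N
  have hk : ∀ σ, ρ σ = 1 ↔ ∀ x ∈ s.N, σ x = x := fun σ =>
    ⟨fun hσ x hx => by
      have := h2 σ ⟨x, hx⟩
      rw [hσ] at this
      exact this.symm, fun hσ => AlgEquiv.ext fun x => Subtype.ext ((h2 σ x).trans (hσ _ x.2))⟩
  let _ : CommGroup (s.N ≃ₐ[s.k] s.N) := { (inferInstance : Group _) with mul_comm := s.comm }
  obtain ⟨f, X, k1, k2, k3, k4, k5, k6⟩ := s.toSt.abf5_cut (Γ := s.N ≃ₐ[s.k] s.N)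
    (s.e5p_card ▸ s.g_odd) h1 fun ψ => s.toSt.exists_lev s.N s.odd fun σ hσ => by
      rw [MonoidHom.comp_apply, (hk σ).2 hσ, map_one]
  rw [s.e5p_card] at k2 k3
  refine ⟨f, X, k1, k2, k3, k4, fun m σ b hm hf hb => (k5 m σ b hm hf hb).trans (hk σ),
    fun φ hφ => ?_⟩
  have ke : ρ.ker ≤ φ.ker := fun σ hσ => hφ σ ((hk σ).1 hσ)
  obtain ⟨χ, c1, c2⟩ := k6 (ρ.liftOfSurjective h1 ⟨φ, ke⟩)
  refine ⟨χ, c1, fun m σ b hm hf hb => ?_⟩
  rw [c2 m σ b hm hf hb, MonoidHom.liftOfRightInverse_comp_apply]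

end Pool.Agent.P.MP_20768c_nt.Az.Cu

end

-- part Ab.U4
section

set_option autoImplicit false

open Complex NumberField IsDedekindDomain Filter Topology
open UpperHalfPlane hiding I
open scoped ComplexConjugate Real MatrixGroups

namespace Pool.Agent.P.MP_20768c_nt.Az.Cu

open Pool.Agent.P.MP_20768c_nt.Az.EQ (Lt pr sp IsLat jL qN)

theorem u4_not {A : Type} [CommRing A] {Q : Ideal A} (hQ : Q.IsPrime) {a C j : ℕ}
    (hd : a ∣ C ^ j) (h : (C : A) ∉ Q) : (a : A) ∉ Q := fun ha => by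
  obtain ⟨b, hb⟩ := hd
  refine h (hQ.mem_of_pow_mem j ?_)
  rw [← Nat.cast_pow, hb, Nat.cast_mul]
  exact Q.mul_mem_right _ ha

theorem Ab.U_ana {s : Ab} {f : Ideal s.O} {X : Finset (MulChar (s.Pr f) ℂ)} {c : ℕ}
    (hX : s.Cut f X) (hc : s.Cc f c) : ∃ C R n₀ : ℕ, C ≠ 0 ∧ (∀ j, Unr s.k (s.K j) C) ∧
      ∀ n, n₀ ≤ n → ∀ x : s.K n, (x : ℂ) = s.uq f X c n 1 1 → s.Ana C R n x := by
  classical
  obtain ⟨C₀, hC₀⟩ := s.exists_C0
  obtain ⟨C₁, hC₁, hU⟩ := s.exists_unr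
  have hf0 : Ideal.absNorm f ≠ 0 := fun e => by simpa [e] using hc.1
  have hfb : f ≠ ⊥ := fun e => hf0 (Ideal.absNorm_eq_zero_iff.2 e)
  have hc0 : c ≠ 0 := by have := hc.2.1; omega
  obtain ⟨C, hC⟩ : ∃ C, C = 2 * (c * Ideal.absNorm f) * C₀ * C₁ := ⟨_, rfl⟩
  have hC0 : C ≠ 0 := by
    rw [hC]
    exact mul_ne_zero (mul_ne_zero (mul_ne_zero two_ne_zero (mul_ne_zero hc0 hf0)) hC₀.1) hC₁
  have d0 : C₀ ∣ C ^ 1 := ⟨2 * (c * Ideal.absNorm f) * C₁, by rw [hC]; ring⟩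
  have d1 : C₁ ∣ C ^ 1 := ⟨2 * (c * Ideal.absNorm f) * C₀, by rw [hC]; ring⟩
  have dm : ∀ n, c * Ideal.absNorm f * 2 ^ n ∣ C ^ (n + 1) := fun n => by
    rw [pow_succ']
    exact mul_dvd_mul ⟨2 * C₀ * C₁, by rw [hC]; ring⟩
      (pow_dvd_pow_of_dvd ⟨c * Ideal.absNorm f * C₀ * C₁, by rw [hC]; ring⟩ n)
  have hCf : (C : s.O) ∈ f := by
    have e : C = 2 * c * C₀ * C₁ * Ideal.absNorm f := by rw [hC]; ring
    rw [e, Nat.cast_mul]
    exact Ideal.mul_mem_left _ _ (Ideal.absNorm_mem f)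
  have H := fun χ : X => St.ana_one hc hC0 hCf (r := s.g) s.odd (hX.2.2.1 χ.1 χ.2)
  choose R n₀ H using H
  have v2 : s.v 2 ≤ 1 := s.v_two.le
  refine ⟨C, ∑ χ, R χ, ∑ χ, n₀ χ + 2, hC0,
    fun j Q hQ h => hU j Q hQ (u4_not hQ d1 h), fun n hn x hx => ?_⟩
  obtain ⟨θ, hP⟩ := Ab.exists_par hX n
  have hm : 0 < c * Ideal.absNorm f * 2 ^ n := by positivity
  have hmm := s.mm_mem f c n
  have dn := dm n
  generalize c * Ideal.absNorm f * 2 ^ n = m at hm hmm dn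
  obtain ⟨Fr, hFr⟩ : ∃ Fr : Ideal s.O → s.G n,
      ∀ q (h : IsUnit (s.cl (s.md f n) (s.ip q))), Fr q = θ h.unit :=
    ⟨fun q => if h : IsUnit (s.cl (s.md f n) (s.ip q)) then θ h.unit else 1,
      fun q h => dif_pos h⟩
  refine ⟨Fr, fun Q hQ h0 h => ?_, fun τ φ hτ hφ => ?_⟩
  · obtain ⟨σ, h1, h2⟩ := St.frob_art hC₀ hm (s.K n) Q hQ h0 (u4_not hQ d0 h) (u4_not hQ dn h)
    have hu := h1.unit hm hmm
    rw [hFr _ hu]
    exact h2 _ (hP.2.1 m σ _ hu.unit hm hmm h1 hu.unit_spec)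
  obtain ⟨φ', hφ'⟩ : ∃ φ' : MulChar (s.Pr (s.md f n)) ℂ,
      ∀ D : (s.Pr (s.md f n))ˣ, φ' D = φ (θ D) :=
    ⟨MulChar.ofUnitHom (φ.comp θ), fun D => MulChar.ofUnitHom_coe _ D⟩
  obtain ⟨χ, hχ, ψ, hψ, hT⟩ := Ab.char_dec hX (by omega) hP hφ' hτ hφ
  have k1 := Finset.single_le_sum (f := n₀) (fun _ _ => Nat.zero_le _) (Finset.mem_univ ⟨χ, hχ⟩)
  have k2 := Finset.single_le_sum (f := R) (fun _ _ => Nat.zero_le _) (Finset.mem_univ ⟨χ, hχ⟩)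
  obtain ⟨a, y, A, B, b1, b2, b3, b4, b5, b6, b7⟩ := H ⟨χ, hχ⟩ n (by omega) ψ φ' hψ hT
  refine ⟨a, y, A, B, b1, fun q hq q0 => ⟨(b2 q hq q0).1, fun h => ?_⟩, b3,
    by rw [Ab.Zs_eq hc (by omega) hP hx hφ']; exact b4, b5, b6,
    (pow_le_pow_right_of_le_one' v2 k2).trans b7⟩
  have c1 : IsCoprime q (Ideal.span {(m : s.O)}) := by
    rw [Ideal.isCoprime_iff_sup_eq]
    refine (hq.isMaximal q0).out.2 _ (lt_of_le_of_ne le_sup_left fun e => u4_not hq dn h ?_)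
    rw [e]
    exact Ideal.mem_sup_right (Ideal.mem_span_singleton_self _)
  have hu : IsUnit (s.cl (s.md f n) (s.ip q)) := by
    refine (s.unit_cl (s.md_ne hfb n)).2 ?_
    rw [s.idOf_ip q0]
    exact c1.of_isCoprime_of_dvd_right
      (Ideal.dvd_iff_le.2 ((Ideal.span_singleton_le_iff_mem _).2 hmm))
  rw [(b2 q hq q0).2 h, hFr q hu, ← hφ', hu.unit_spec]

end Pool.Agent.P.MP_20768c_nt.Az.Cu

end

-- part Cu.J5
section

set_option autoImplicit false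

open Complex NumberField IsDedekindDomain Filter Topology
open UpperHalfPlane hiding I
open scoped ComplexConjugate Real MatrixGroups

namespace Pool.Agent.P.MP_20768c_nt.Az.Cu

open Pool.Agent.P.MP_20768c_nt.Az.EQ (Lt pr sp IsLat jL qN)

theorem St.j5_le (s : St) {x : ℂ} : s.v x ≤ 1 ↔ ‖s.ι x‖ ≤ 1 := by
  rw [← s.v_eq, NNReal.coe_le_one]

theorem St.j5_max {s : St} {n : Ideal s.O} (hn : n ≠ ⊥) {g : s.Pair → ℂ} (hg : s.Inv n g)
    (h : ∀ p, IsUnit (s.cl n p) → s.v (g p) < 1) :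
    ∃ t : NNReal, t < 1 ∧ ∀ p, IsUnit (s.cl n p) → s.v (g p) ≤ t := by
  have := s.finite_Pr hn
  obtain ⟨C, hC⟩ := Finite.exists_max fun C : (s.Pr n)ˣ => s.v (g (s.out C.1))
  refine ⟨_, h _ (s.unit_out C), fun p hp => ?_⟩
  have := hC hp.unit
  rwa [hg.of_cl (p := s.out hp.unit.1) (q := p) (by rw [s.cl_out]; rfl)] at this

theorem St.j5_int {s : St} {f : Ideal s.O} {c : ℕ} (hc : s.Cc f c) {g : s.Pair → ℂ}
    (hg : s.Inv (s.lv f) g) (hE : s.Eig f fun p => g p * s.oms f p)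
    (hv : ∀ p, IsUnit (s.cl (s.lv f) p) → s.v (g p) ≤ 1) (n : ℕ) {a : ℤ} (ha : Odd a) :
    s.v (s.Sy (fun p => g p * s.oms f p) (a / 2 ^ (n + 1))) ≤ 1 := by
  obtain ⟨ε, hT, -⟩ := s.laws hc.1 hE
  have : NeZero (s.lev f) := ⟨by have := (s.lev_pos (s.odd_ne hc.1)).1; omega⟩
  obtain ⟨Λ, hΛ, hS⟩ := sd_fg hT
  rw [s.j5_le]
  refine int_abs s.ι _ hΛ hS hT.per ?_ (s.Sy_hecke hc.1 hE) hc.2.2.1 ?_ n ha
  · rw [← s.v_eq, hE.al hc.1, NNReal.coe_one]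
  · intro m b b' hm hb
    have h1 := St.BB_le hc hm hg hv b
    rw [St.BB_eq hc hm hE hb, s.j5_le] at h1
    exact h1

theorem St.rank_BB {s : St} {f : Ideal s.O} {c : ℕ} (hc : s.Cc f c) (χ : MulChar (s.Pr f) ℂ) :
    ∃ l : ℕ, ∀ n, 3 ≤ n → 2 ^ (n - 2) ≤ l + tk fun b : (ZMod (2 ^ n))ˣ =>
      s.rs (s.BB f c n (fun p => χ (s.cl f p) * s.oms f p) (b : ZMod (2 ^ n)).val) := by
  have hf := hc.1
  have hf0 := s.odd_ne hf
  obtain ⟨g, hg, hE, hg1, hv⟩ := St.exists_eig hf χ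
  set ω : s.Pair → ℂ := fun p => g p * s.oms f p with hω
  have hi : ∀ (n : ℕ) (a : ℤ), Odd a → s.v (s.Sy ω (a / 2 ^ (n + 1))) ≤ 1 :=
    fun n a ha => St.j5_int hc hg hE (fun p hp => (hv p hp).1) n ha
  have hi' : ∀ (n : ℕ) (a : ℤ), 1 ≤ n → Odd a → s.v (s.Sy ω (a / 2 ^ n)) ≤ 1 := by
    intro n a hn ha
    obtain ⟨m, rfl⟩ := Nat.exists_eq_add_of_le' hn
    exact hi m a ha
  obtain ⟨n₀, a₀, ha₀, h0⟩ := St.nv hf hE (by simp only [hω, hg1, one_mul]) hi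
  obtain ⟨ε, hT, -⟩ := s.laws hf hE
  have hal := hE.al hf
  have hα : s.rs (s.al ω) ≠ 0 := by
    rw [Ne, St.rs_eq_zero hal.le, hal]
    exact lt_irrefl _
  obtain ⟨l, hl⟩ := tk_meas s.two_κ (fun n a => s.rs (s.Sy ω (a / 2 ^ n))) hα (n₀ := n₀ + 1)
    (a₀ := a₀) (c := c) (by
      intro n a b hab
      obtain ⟨z, hz⟩ := hab.dvd
      have e : (b : ℚ) / 2 ^ n = a / 2 ^ n + z := by
        have : (b : ℚ) = a + 2 ^ n * z := by
          have : b = a + 2 ^ n * z := by linarith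
          exact_mod_cast this
        rw [this]
        field_simp
      simp only [e, hT.per]) (by
      intro n a hn ha
      have h1 := s.Sy_hecke hf hE (a / 2 ^ n)
      have e1 : (a : ℚ) / 2 ^ n / 2 = a / 2 ^ (n + 1) := by
        rw [pow_succ, div_div]
      have e2 : ((a : ℚ) / 2 ^ n + 1) / 2 = ((a + 2 ^ n : ℤ) : ℚ) / 2 ^ (n + 1) := by
        push_cast
        field_simp
        ring
      have ho : Odd (a + 2 ^ n) := ha.add_even (Int.even_pow.2 ⟨even_two, by omega⟩)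
      rw [e1, e2] at h1
      rw [← St.rs_mul hal.le (hi' n a hn ha), h1, St.rs_add (hi n a ha) (hi n _ ho)])
    (by omega) ha₀ (by
      have h2 := hi n₀ (-a₀) ha₀.neg
      rw [← St.rs_add (hi n₀ a₀ ha₀) h2, Ne, St.rs_eq_zero, Int.cast_neg, h0]
      · exact lt_irrefl _
      · rw [Int.cast_neg, h0]) hc.2.2.1
  refine ⟨l, fun n hn => hl n hn _ ?_⟩
  intro b a a' hab ha'
  have hn2 : 2 ≤ n := by omega
  have hco : Odd (c : ℤ) := by exact_mod_cast hc.spec.1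
  have hao : Odd a := (unit_odd (n := n) (by omega)).1 (hab ▸ b.isUnit)
  have hao' : Odd a' := by
    have h2 : (2 : ℤ) ∣ 2 ^ n := dvd_pow_self 2 (by omega)
    have h3 := (ha'.of_dvd h2)
    have h4 : Odd (a' * c ^ 2) := by
      rw [Int.odd_iff] at hao ⊢
      exact Eq.trans h3 hao
    exact (Int.odd_mul.1 h4).1
  have e0 : s.BB f c n (fun p => χ (s.cl f p) * s.oms f p) (b : ZMod (2 ^ n)).val =
      s.BB f c n (fun p => χ (s.cl f p) * s.oms f p) a :=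
    St.BB_congr f c _ (by rw [hab, Int.cast_natCast, ZMod.natCast_zmod_val])
  have hd : s.Inv (s.lv f) fun p => χ (s.cl f p) - g p := by
    intro x p q h
    have h1 : s.cl f p = s.cl f q := s.cl_eq.2 ⟨x, h.mono (s.lv_le f).1⟩
    simp only [h1, hg x p q h]
  obtain ⟨t, ht, ht'⟩ := St.j5_max (s.lv_ne hf0) hd fun p hp => by
    rw [← Valuation.map_neg, neg_sub]
    exact (hv p hp).2
  have e1 : s.BB f c n (fun p => χ (s.cl f p) * s.oms f p) a =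
      s.BB f c n ω a + s.BB f c n (fun p => (χ (s.cl f p) - g p) * s.oms f p) a := by
    rw [← St.BB_add hf0]
    congr 1
    funext p
    simp only [hω]
    ring
  have b1 : s.v (s.BB f c n ω a) ≤ 1 := St.BB_le hc hn2 hg (fun p hp => (hv p hp).1) a
  have b2 := (St.BB_le hc hn2 hd ht' a).trans_lt ht
  have hD : ∀ x : ℤ, Odd x → s.v (s.DD ω n x) ≤ 1 ∧
      s.rs (s.DD ω n x) = s.rs (s.al ω) * s.rs (s.Sy ω (x / 2 ^ (n - 1))) := by
    intro x hx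
    have x1 := hi' n x (by omega) hx
    have x2 := hi' (n - 1) x (by omega) hx
    have y1 : s.v (2 * s.Sy ω (x / 2 ^ n)) < 1 := by
      rw [map_mul]
      exact mul_lt_one_of_nonneg_of_lt_one_left zero_le s.v_two x1
    have y2 : s.v (s.al ω * s.Sy ω (x / 2 ^ (n - 1))) ≤ 1 := by
      rw [map_mul, hal, one_mul]
      exact x2
    refine ⟨s.v.map_sub_le y1.le y2, ?_⟩
    rw [St.DD, St.rs_sub y1.le y2, (St.rs_eq_zero y1.le).2 y1, zero_add, St.rs_mul hal.le x2]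
  have vc : s.v c = 1 := by exact_mod_cast St.v_odd s.v s.v_two hco
  have rc : s.rs c = 1 := by exact_mod_cast St.rs_odd (s := s) hco
  have vc2 : s.v ((c : ℂ) ^ 2) = 1 := by rw [map_pow, vc, one_pow]
  have rc2 : s.rs ((c : ℂ) ^ 2) = 1 := by rw [sq, St.rs_mul vc.le vc.le, rc, one_mul]
  rw [e0, e1, St.rs_add b1 b2.le, (St.rs_eq_zero b2.le).2 b2, add_zero, St.BB_eq hc hn2 hE ha',
    St.rs_sub, St.rs_mul vc2.le (hD a hao).1, St.rs_mul vc.le (hD a' hao').1, rc, rc2, one_mul,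
    one_mul, (hD a hao).2, (hD a' hao').2, mul_add]
  · rw [map_mul, vc2, one_mul]
    exact (hD a hao).1
  · rw [map_mul, vc, one_mul]
    exact (hD a' hao').1

end Pool.Agent.P.MP_20768c_nt.Az.Cu

end

-- part Ab.U2
section

set_option autoImplicit false

open Complex NumberField IsDedekindDomain Filter Topology
open UpperHalfPlane hiding I
open scoped ComplexConjugate Real MatrixGroups

namespace Pool.Agent.P.MP_20768c_nt.Az.Cu

open Pool.Agent.P.MP_20768c_nt.Az.EQ (Lt pr sp IsLat jL qN)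

theorem St.u2_nu (s : St) {n : ℕ} : ∃ ν : s.Au →* (ZMod (2 ^ n))ˣ,
    ∀ σ : s.Au, σ (zt n) = zt n ^ (ν σ : ZMod (2 ^ n)).val := by
  choose ν hν using fun σ : s.Au => hom_zt (σ : ℂ →+* ℂ) n
  have hν' : ∀ σ : s.Au, σ (zt n) = zt n ^ (ν σ : ZMod (2 ^ n)).val := hν
  have key : ∀ (σ : s.Au) (a : ℕ), σ (zt n) = zt n ^ a → (ν σ : ZMod (2 ^ n)) = a := by
    intro σ a h
    rw [hν', ← zpow_natCast, ← zpow_natCast, zt_congr] at h
    simpa using h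
  refine ⟨MonoidHom.mk' ν fun σ τ => Units.ext ?_, hν'⟩
  rw [key (σ * τ) ((ν σ : ZMod (2 ^ n)).val * (ν τ : ZMod (2 ^ n)).val)]
  · simp
  · rw [AlgEquiv.mul_apply, hν' τ, map_pow, hν' σ, pow_mul]

theorem St.u2_art {s : St} {n m : ℕ} {ν : s.Au →* (ZMod (2 ^ n))ˣ}
    (hν : ∀ σ : s.Au, σ (zt n) = zt n ^ (ν σ : ZMod (2 ^ n)).val) (hm : 2 ^ n ∣ m) {σ : s.Au}
    {a : Ideal s.O} (h : s.Art m σ a) : (ν σ : ZMod (2 ^ n)) = Ideal.absNorm a := by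
  have h1 := h.2.2.2 (zt n) (by obtain ⟨j, rfl⟩ := hm; rw [pow_mul, zt_pow, one_pow])
  rw [hν, ← zpow_natCast, ← zpow_natCast, zt_congr] at h1
  simpa using h1

theorem St.u2_eta {s : St} {f : Ideal s.O} (χ : MulChar (s.Pr f) ℂ) {m : ℕ} (hm : 0 < m)
    (hf : (m : s.O) ∈ f) : ∃ η : s.Au →* ℂ, ∀ (σ : s.Au) (a : Ideal s.O), s.Art m σ a →
      η σ = χ (s.cl f (s.ip a)) := by
  obtain ⟨A, -, hA⟩ := s.exists_artHom hm
  obtain ⟨π', hπ⟩ := s.exists_proj ((Ideal.span_singleton_le_iff_mem f).2 hf)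
  refine ⟨(χ.toMonoidHom.comp π').comp ((Units.coeHom _).comp A), fun σ a h => ?_⟩
  simp only [MonoidHom.comp_apply, Units.coeHom_apply, ((hA σ a).1 h).2, hπ]
  rfl

theorem Ab.U_rank {s : Ab} {f : Ideal s.O} {X : Finset (MulChar (s.Pr f) ℂ)} {c : ℕ}
    (hX : s.Cut f X) (hc : s.Cc f c) : ∃ l : ℕ, ∀ n, 3 ≤ n → ∀ sb, s.IsSec n sb →
      s.g * 2 ^ (n - 2) ≤ l + s.rk' n sb (s.uq f X c n 1 1) := by
  choose l hl using fun χ : MulChar (s.Pr f) ℂ => St.rank_BB hc χ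
  refine ⟨∑ χ ∈ X, l χ, fun n hn sb hs => ?_⟩
  have hm := St.u1_p_pos hc n
  have hmf : ((c * Ideal.absNorm f * 2 ^ n : ℕ) : s.O) ∈ f := (s.md_le f n).1 (s.mm_mem f c n)
  obtain ⟨ν, hν⟩ := s.u2_nu (n := n)
  choose η₀ hη₀ using fun χ : MulChar (s.Pr f) ℂ => St.u2_eta χ hm hmf
  have h3 : ∀ χ ∈ X, ∀ σ, (η₀ χ σ)⁻¹ ^ s.g = 1 := by
    intro χ hχ σ
    obtain ⟨a, ha⟩ := St.exists_art hm σ
    rw [hη₀ χ σ a ha, inv_pow, inv_eq_one]
    exact hX.2.2.1 χ hχ (ha.unit hm hmf).unit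
  have hv : ∀ χ ∈ X, ∀ σ, s.v (η₀ χ σ)⁻¹ = 1 := fun χ hχ σ =>
    St.v_root s.v s.g_pos (h3 χ hχ σ)
  have hex : ∀ χ, ∃ η : s.Au →* s.κˣ, χ ∈ X → ∀ σ, (η σ : s.κ) = s.rs (η₀ χ σ)⁻¹ := by
    intro χ
    by_cases hχ : χ ∈ X
    · let η₁ : s.Au →* s.κ :=
        { toFun := fun σ => s.rs (η₀ χ σ)⁻¹
          map_one' := by rw [map_one, inv_one, s.rs_one]
          map_mul' := fun σ τ => by
            rw [map_mul, mul_inv, St.rs_mul (hv χ hχ σ).le (hv χ hχ τ).le] }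
      exact ⟨η₁.toHomUnits, fun _ _ => rfl⟩
    · exact ⟨1, fun h => absurd h hχ⟩
  choose η hη using hex
  have hin : ∀ b, ∃ σ : s.Au, Inert s.v σ ∧ ν σ = b := by
    intro b
    obtain ⟨σ, h0, hσ⟩ := s.exists_inert n b
    refine ⟨σ, h0, Units.ext ?_⟩
    rw [hν, ← zpow_natCast, ← zpow_natCast, zt_congr] at hσ
    simpa using hσ
  have hsurj : Function.Surjective ν := fun b => (hin b).imp fun _ h => h.2
  have hd : ∀ χ ∈ X, ∀ χ' ∈ X, χ ≠ χ' → ∃ g, ν g = 1 ∧ η χ g ≠ η χ' g := by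
    intro χ hχ χ' hχ' hne
    by_contra hcon
    refine hne (MulChar.ext fun D => ?_)
    obtain ⟨b, hb0, hb1, hb2⟩ := s.exists_rep (s.odd_ne hc.1) (s.unit_out D)
      (a := Ideal.span {((c * Ideal.absNorm f * 2 ^ n : ℕ) : s.O)})
      (by rw [Ne, Ideal.span_singleton_eq_bot, Nat.cast_eq_zero]; exact hm.ne')
    obtain ⟨σ, hσ⟩ := St.art_surj hm hb0 hb1.of_mul_right_right
    obtain ⟨τ, hτ, hτ'⟩ := hin (ν σ)⁻¹
    obtain ⟨a, ha⟩ := St.exists_art hm τ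
    have k1 := (hX.2.2.2.2.1 _ τ a hm hmf ha).2 fun x hx => inert_fix_N s.v_two hτ hx
    have k2 : η χ (σ * τ) = η χ' (σ * τ) := by
      by_contra h
      exact hcon ⟨σ * τ, by rw [map_mul, hτ', mul_inv_cancel], h⟩
    have k3 : s.rs ((η₀ χ (σ * τ))⁻¹ - (η₀ χ' (σ * τ))⁻¹) = 0 := by
      rw [St.rs_sub (hv χ hχ _).le (hv χ' hχ' _).le, ← hη χ hχ, ← hη χ' hχ', k2, ← two_mul,
        s.two_κ, zero_mul]
    have k4 : s.v (s.g : ℕ) = 1 := by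
      exact_mod_cast St.v_odd s.v s.v_two (n := (s.g : ℕ)) (by exact_mod_cast s.g_odd)
    have k5 := St.root_inj s.v k4 (h3 χ hχ _) (h3 χ' hχ' _)
      ((St.rs_eq_zero (s.v.map_sub_le (hv χ hχ _).le (hv χ' hχ' _).le)).1 k3)
    rwa [inv_inj, map_mul, map_mul, hη₀ χ σ b hσ, hη₀ χ' σ b hσ, hη₀ χ τ a ha, hη₀ χ' τ a ha,
      k1 χ hχ, k1 χ' hχ', mul_one, mul_one, hb2, s.cl_out] at k5
  have a0 := fun χ => (hl χ n hn).trans_eq (congrArg _ (tk_inv _ (-1)).symm)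
  have a1 := Finset.sum_le_sum fun χ (_ : χ ∈ X) => a0 χ
  rw [Finset.sum_const, Finset.sum_add_distrib, hX.2.1, smul_eq_mul] at a1
  refine a1.trans (Nat.add_le_add_left ((tk_many X η ν hsurj hd _).trans_eq ?_) _)
  unfold Ab.rk'
  congr 1
  funext σ
  obtain ⟨a, ha⟩ := St.exists_art hm σ
  have e := St.del_uq hc (by omega) hX.2.2.2.1 (hX.2.1 ▸ s.g_odd) hs (ha.unit hm hmf).unit (ν σ)
    (b := (((-1 * (ν σ)⁻¹ : (ZMod (2 ^ n))ˣ) : ZMod (2 ^ n)).val : ℕ)) (by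
      rw [Int.cast_natCast, ZMod.natCast_zmod_val, ← Units.val_mul, inv_mul_cancel_right]
      rfl)
  rw [IsUnit.unit_spec] at e
  rw [St.art_uq hc (by omega) ha, one_mul, one_mul, ← St.u2_art hν (Dvd.intro_left _ rfl) ha, e]
  exact Finset.sum_congr rfl fun χ hχ => by rw [hη χ hχ, hη₀ χ σ a ha]

end Pool.Agent.P.MP_20768c_nt.Az.Cu

end
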