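import Pool.Agent.P.MP_20768c_nt.Az.Z5

-- part Cu.M3
section

set_option autoImplicit false

open Complex NumberField IsDedekindDomain Filter Topology
open UpperHalfPlane hiding I
open scoped ComplexConjugate Real MatrixGroups

namespace Pool.Agent.P.MP_20768c_nt.Az.Cu

open Pool.Agent.P.MP_20768c_nt.Az.EQ (Lt pr sp IsLat jL qN)

theorem m3_fin {A B : Type} [AddGroup A] {Z Z0 : Set A} (r : A → B) {Y : Set B} (hY : Y.Finite)
    (hr : ∀ x ∈ Z, r x ∈ Y) (h0 : Z0.Finite)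
    (hk : ∀ x ∈ Z, ∀ y ∈ Z, r x = r y → x - y ∈ Z0) : Z.Finite := by
  have h1 : (r '' Z).Finite := hY.subset (by rintro _ ⟨x, hx, rfl⟩; exact hr x hx)
  refine (h1.biUnion (t := fun b => {x | x ∈ Z ∧ r x = b}) ?_).subset
    fun x hx => Set.mem_biUnion (Set.mem_image_of_mem r hx) ⟨hx, rfl⟩
  rintro _ ⟨y, hy, rfl⟩
  exact (h0.image (· + y)).subset fun x hx => ⟨x - y, hk x hx.1 y hy hx.2, sub_add_cancel x y⟩

theorem m3_char {T : Type} [AddCommGroup T] (P : T) : ∃ l : T → ℤˣ,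
    (∀ x y, x + x = 0 → y + y = 0 → l (x + y) = l x * l y) ∧ (P + P = 0 → P ≠ 0 → l P ≠ 1) := by
  classical
  by_cases h : P + P = 0 ∧ P ≠ 0
  swap
  · exact ⟨fun _ => 1, fun _ _ _ _ => (one_mul 1).symm, fun h1 h2 => absurd ⟨h1, h2⟩ h⟩
  let T2 : AddSubgroup T :=
    { carrier := {x | x + x = 0}
      zero_mem' := add_zero 0
      add_mem' := fun {x y} hx hy => by
        have hx' : x + x = 0 := hx
        have hy' : y + y = 0 := hy
        show x + y + (x + y) = 0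
        rw [add_add_add_comm, hx', hy', add_zero]
      neg_mem' := fun {x} hx => by
        have hx' : x + x = 0 := hx
        show -x + -x = 0
        rw [← neg_add, hx', neg_zero] }
  let _ : Module (ZMod 2) T2 := AddCommGroup.zmodModule fun x => by
    rw [two_nsmul]; exact Subtype.ext x.2
  have hP : (⟨P, h.1⟩ : T2) ≠ 0 := fun e => h.2 (congrArg Subtype.val e)
  obtain ⟨f, hf⟩ : ∃ f : Module.Dual (ZMod 2) T2, f ⟨P, h.1⟩ ≠ 0 := by
    by_contra hc
    push Not at hc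
    exact hP ((Module.forall_dual_apply_eq_zero_iff (ZMod 2) _).1 hc)
  have key : ∀ a b : ZMod 2, (if a + b = 0 then (1 : ℤˣ) else -1) =
      (if a = 0 then 1 else -1) * (if b = 0 then 1 else -1) := by decide
  refine ⟨fun x => if hx : x ∈ T2 then (if f ⟨x, hx⟩ = 0 then 1 else -1) else 1,
    fun x y hx hy => ?_, fun _ _ => ?_⟩
  · have hx' : x ∈ T2 := hx
    have hy' : y ∈ T2 := hy
    simp only [dif_pos hx', dif_pos hy', dif_pos (add_mem hx' hy')]
    rw [← key, ← map_add]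
    rfl
  · have hP' : P ∈ T2 := h.1
    simp only [dif_pos hP', if_neg hf]
    decide

variable {K : Type} [Field K] [NumberField K] (E : WeierstrassCurve K)
  (S : Set (HeightOneSpectrum (𝓞 K))) (F : IntermediateField K (AlgebraicClosure K))

/-- locally constant cocycles killed by two -/
def m3Z (z : F.fixingSubgroup → Tor E) : Prop :=
  IsLocallyConstant z ∧ (∀ g h, z (g * h) = z g + act E g.1 (z h)) ∧ ∀ g, z g + z g = 0

theorem m3_sub {z w : F.fixingSubgroup → Tor E} (hz : m3Z E F z) (hw : m3Z E F w) :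
    m3Z E F (z - w) := by
  refine ⟨hz.1.sub hw.1, fun g h => ?_, fun g => ?_⟩
  · simp only [Pi.sub_apply, hz.2.1, hw.2.1, act_sub]
    abel
  · rw [Pi.sub_apply, ← add_sub_add_comm, hz.2.2, hw.2.2, sub_zero]

theorem m3_ker [E.IsElliptic] (N : Set (AlgebraicClosure K))
    (hN : ∀ (g : Gal K) (P : Tor E), (∀ x ∈ N, g x = x) → P + P = 0 → act E g P = P)
    (hle : Hs N ≤ F.fixingSubgroup) {C : ℕ} {A : Set (ValuationSubring (AlgebraicClosure K))}
    (hH : (HH N C A).Finite) :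
    {w | m3Z E F w ∧ (∀ q : F.fixingSubgroup ⧸ (Hs N).subgroupOf F.fixingSubgroup, w q.out = 0) ∧
      ∀ V : ValuationSubring (AlgebraicClosure K), (V.valuation C = 1 ∨ V ∈ A) →
        ∀ g, InI V g.1 → w g = 0}.Finite := by
  choose l hl hl' using fun P : Tor E => m3_char P
  have h0 : ∀ P, l P 0 = 1 := fun P => by
    have := hl P 0 0 (add_zero 0) (add_zero 0)
    rw [add_zero] at this
    exact left_eq_mul.1 this
  have := hH.to_subtype
  have := (card2 E).to_subtype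
  rw [← Set.finite_coe_iff]
  refine Finite.of_injective (β := {P : Tor E | P + P = 0} → HH N C A)
    (fun w P => ⟨MonoidHom.mk' (fun g => l P (w.1 ⟨g.1, hle g.2⟩)) fun g h => ?_, ?_,
      fun V hV g hg => ?_⟩) fun w w' e => ?_
  · have := w.2.1.2.1 ⟨g.1, hle g.2⟩ ⟨h.1, hle h.2⟩
    rw [hN g.1 _ g.2.1 (w.2.1.2.2 _)] at this
    rw [← hl P _ _ (w.2.1.2.2 _) (w.2.1.2.2 _), ← this]
    rfl
  · exact (w.2.1.1.comp_continuous (continuous_subtype_val.subtype_mk _)).comp (l P)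
  · show l P (w.1 ⟨g.1, hle g.2⟩) = 1
    rw [w.2.2.2 V hV _ hg, h0]
  · have e1 : ∀ g : Hs N, w.1 ⟨g.1, hle g.2⟩ = w'.1 ⟨g.1, hle g.2⟩ := fun g => by
      by_contra hne
      have h2 := (m3_sub E F w.2.1 w'.2.1).2.2 ⟨g.1, hle g.2⟩
      rw [Pi.sub_apply] at h2
      have e2 : l (w.1 ⟨g.1, hle g.2⟩ - w'.1 ⟨g.1, hle g.2⟩) (w.1 ⟨g.1, hle g.2⟩) =
          l (w.1 ⟨g.1, hle g.2⟩ - w'.1 ⟨g.1, hle g.2⟩) (w'.1 ⟨g.1, hle g.2⟩) :=
        DFunLike.congr_fun (congrArg Subtype.val (congrFun e ⟨_, h2⟩)) g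
      have e3 := hl (w.1 ⟨g.1, hle g.2⟩ - w'.1 ⟨g.1, hle g.2⟩) _ _ h2 (w'.2.1.2.2 ⟨g.1, hle g.2⟩)
      rw [sub_add_cancel, e2] at e3
      exact hl' _ h2 (sub_ne_zero.2 hne) (right_eq_mul.1 e3)
    refine Subtype.ext (funext fun g => ?_)
    obtain ⟨h, hh⟩ := QuotientGroup.mk_out_eq_mul ((Hs N).subgroupOf F.fixingSubgroup) g
    have a1 := w.2.2.1 (g : F.fixingSubgroup ⧸ (Hs N).subgroupOf F.fixingSubgroup)
    have a2 := w'.2.2.1 (g : F.fixingSubgroup ⧸ (Hs N).subgroupOf F.fixingSubgroup)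
    rw [hh, w.2.1.2.1] at a1
    rw [hh, w'.2.1.2.1] at a2
    have a3 : w.1 h.1 = w'.1 h.1 := e1 ⟨h.1.1, h.2⟩
    rw [a3] at a1
    exact add_right_cancel (a1.trans a2.symm)

theorem m3_Z [E.IsElliptic] (hS : S.Finite) (N : Set (AlgebraicClosure K))
    (hN : ∀ (g : Gal K) (P : Tor E), (∀ x ∈ N, g x = x) → P + P = 0 → act E g P = P)
    (hle : Hs N ≤ F.fixingSubgroup) (hf : (Hs N).relIndex F.fixingSubgroup ≠ 0)
    (hH : ∀ C : ℕ, C ≠ 0 → Even C → ∃ A, A.Finite ∧ (HH N C A).Finite) :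
    {z | m3Z E F z ∧ (∃ b, ∀ g, g.1 ∈ (KS S).fixingSubgroup → z g = act E g.1 b - b) ∧
      ∀ V, ∃ b, ∀ g, InI V g.1 → z g = act E g.1 b - b}.Finite := by
  obtain ⟨C, hC, hC', hCS⟩ := exists_CS S hS
  obtain ⟨A, hA, hA'⟩ := hH C hC hC'
  have := hA.to_subtype
  have : Finite (F.fixingSubgroup ⧸ (Hs N).subgroupOf F.fixingSubgroup) :=
    Subgroup.index_ne_zero_iff_finite.1 hf
  refine m3_fin (fun z => ((fun q : F.fixingSubgroup ⧸ (Hs N).subgroupOf F.fixingSubgroup =>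
      z q.out), (fun g : {g | g ∈ F.fixingSubgroup ∧ g ∈ (KS S).fixingSubgroup} => z ⟨g.1, g.2.1⟩),
      fun (V : A) (g : {g | g ∈ F.fixingSubgroup ∧ InI V.1 g}) => z ⟨g.1, g.2.1⟩))
    ((Set.Finite.pi' fun _ => card2 E).prod ((cob_fin E _).prod
      (Set.Finite.pi' fun V => cob_fin E _))) (fun z hz => ?_) (m3_ker E F N hN hle hA')
    fun z hz w hw e => ?_
  · obtain ⟨h1, ⟨b, hb⟩, h3⟩ := hz
    refine ⟨fun q => h1.2.2 _, ⟨⟨b, fun g => hb _ g.2.2⟩, fun g => h1.2.2 _⟩, fun V => ?_⟩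
    obtain ⟨b', hb'⟩ := h3 V.1
    exact ⟨⟨b', fun g => hb' _ g.2.2⟩, fun g => h1.2.2 _⟩
  · simp only [Prod.mk.injEq] at e
    refine ⟨m3_sub E F hz.1 hw.1, fun q => sub_eq_zero.2 (congrFun e.1 q), fun V hV g hg => ?_⟩
    rcases hV with hV | hV
    · exact sub_eq_zero.2 (congrFun e.2.1 ⟨g.1, g.2, (inI_mem S hg).2 (hCS V hV)⟩)
    · exact sub_eq_zero.2 (congrFun (congrFun e.2.2 ⟨V, hV⟩) ⟨g.1, g.2, hg⟩)

theorem m3_clo {c : F.fixingSubgroup → Tor E} (h : c ∈ AddSubgroup.closure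
    (Set.range fun (a : Tor E) (g : F.fixingSubgroup) => act E g.1 a - a)) :
    ∃ a, ∀ g, c g = act E g.1 a - a := by
  have h0 : ∀ g, act E g 0 = 0 := fun g => by
    have := act_sub E g 0 0
    rwa [sub_self, sub_self] at this
  induction h using AddSubgroup.closure_induction with
  | mem x hx => obtain ⟨a, rfl⟩ := hx; exact ⟨a, fun _ => rfl⟩
  | zero => exact ⟨0, fun g => by rw [h0, sub_self]; rfl⟩
  | add x y _ _ hx hy =>
    obtain ⟨a, ha⟩ := hx
    obtain ⟨b, hb⟩ := hy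
    exact ⟨a + b, fun g => by rw [Pi.add_apply, ha, hb, act_add]; abel⟩
  | neg x _ hx =>
    obtain ⟨a, ha⟩ := hx
    exact ⟨0 - a, fun g => by rw [Pi.neg_apply, ha, act_sub, h0]; abel⟩

theorem sel_two [E.IsElliptic] (hS : S.Finite) (N : Set (AlgebraicClosure K))
    (hN : ∀ (g : Gal K) (P : Tor E), (∀ x ∈ N, g x = x) → P + P = 0 → act E g P = P)
    (hle : Hs N ≤ F.fixingSubgroup) (hf : (Hs N).relIndex F.fixingSubgroup ≠ 0)
    (hH : ∀ C : ℕ, C ≠ 0 → Even C → ∃ A, A.Finite ∧ (HH N C A).Finite) :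
    {x : Sel E S F | x + x = 0}.Finite := by
  refine ((m3_Z E S F hS N hN hle hf hH).biUnion (t := fun z => {x : Sel E S F |
    ∃ (c : Coc E S F) (a : Tor E), x = QuotientAddGroup.mk c ∧
      ∀ g, z g = c.1 g - (act E g.1 a - a)}) fun z _ => Set.Subsingleton.finite ?_).subset ?_
  · rintro _ ⟨c, a, rfl, h⟩ _ ⟨c', a', rfl, h'⟩
    refine QuotientAddGroup.eq.2 (AddSubgroup.mem_addSubgroupOf.2
      (AddSubgroup.subset_closure ⟨a' - a, funext fun g => ?_⟩))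
    have e : c'.1 g = z g + (act E g.1 a' - a') := by rw [h', sub_add_cancel]
    show act E g.1 (a' - a) - (a' - a) = -c.1 g + c'.1 g
    rw [e, h, act_sub]
    abel
  · intro x hx
    obtain ⟨c, rfl⟩ := QuotientAddGroup.mk_surjective x
    have h1 : ((c + c : Coc E S F) : Sel E S F) = 0 := hx
    obtain ⟨a0, ha0⟩ := m3_clo E F
      (AddSubgroup.mem_addSubgroupOf.1 ((QuotientAddGroup.eq_zero_iff _).1 h1))
    obtain ⟨a, rfl⟩ := div2 E a0
    obtain ⟨c1, c2, c3, c4⟩ := c.2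
    have h0 : ∀ g : F.fixingSubgroup, g.1 ∈ (KS S).fixingSubgroup →
        c.1 g - (act E g.1 a - a) = act E g.1 (a - a - a) - (a - a - a) := fun g hg => by
      rw [c3 g hg, act_sub, act_sub]
      abel
    refine Set.mem_biUnion (x := fun g => c.1 g - (act E g.1 a - a))
      ⟨⟨c1.sub (((act_lc E a).comp_continuous continuous_subtype_val).sub
        (IsLocallyConstant.const a)), fun g h => ?_, fun g => ?_⟩, ⟨_, h0⟩, fun V => ?_⟩
      ⟨c, a, rfl, fun _ => rfl⟩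
    · simp only [c2, act_sub, Subgroup.coe_mul, act_mul]
      abel
    · have e : c.1 g + c.1 g = act E g.1 (a + a) - (a + a) := ha0 g
      rw [← add_sub_add_comm, e, act_add]
      abel
    · by_cases hV : Above S V
      · obtain ⟨b, hb⟩ := c4 V hV
        refine ⟨b - a, fun g hg => ?_⟩
        show c.1 g - (act E g.1 a - a) = _
        rw [hb g (inI_mem S hg).1, act_sub]
        abel
      · exact ⟨_, fun g hg => h0 g ((inI_mem S hg).2 hV)⟩

end Pool.Agent.P.MP_20768c_nt.Az.Cu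

end
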