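import Pool.Agent.P.MP_20768c_nt.Az.Z0

-- part 20768c_nt.Eng0
section

namespace Pool.Agent.P.MP_20768c_nt.Az
open M2

/-- the open ball of radius `c` as an additive subgroup -/
def eng0_ball (K : Type*) [NormedField K] [IsUltrametricDist K] {c : ℝ} (hc : 0 < c) :
    AddSubgroup K where
  carrier := {x | ‖x‖ < c}
  zero_mem' := by simpa using hc
  add_mem' := fun {x y} hx hy =>
    (IsUltrametricDist.norm_add_le_max x y).trans_lt (max_lt hx hy)
  neg_mem' := fun {x} hx => by simpa using hx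

/-- application of `core` to `h ↦ F(b,d) - Q(b,d)` modulo the open ball of radius `c` -/
theorem eng0 {K : Type*} [NormedField K] [IsUltrametricDist K] {p : ℕ} (hp : p.Prime)
    (hpn : ‖(p : K)‖ < 1) {M : ℕ} [NeZero M] {N : ℤ} {r : ℕ} (hN : IsCoprime N (p : ℤ))
    (hM : (M : ℤ) = N * (p : ℤ) ^ r) {ε : DirichletCharacter K M} {S : ℚ → K} (hT : TLaw M ε S)
    {c : ℝ} (hc : 0 < c) (Q : ℚ → ℚ → K)
    (q0 : Q 0 1 = S 0)
    (q1 : ∃ B : ℝ, ∀ h ∈ Gam p N 1, ‖Q h.b h.d‖ ≤ B)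
    (q2 : ∀ g, Int1 (M : ℤ) g → ∀ h ∈ Gam p N 1, Q (g * h).b (g * h).d = Q h.b h.d)
    (q3 : ∀ h ∈ Gam p N 1, ∀ h' ∈ Gam p N 1, h.a = h'.a → h.c = h'.c →
      ‖(Fv S h.b h.d - Q h.b h.d) - (Fv S h'.b h'.d - Q h'.b h'.d)‖ < c)
    (q4 : ∃ m : ℕ, 0 < m ∧ RM p N ((p : ℚ) ^ m - 1) ∧ ∀ h ∈ Gam p N 1,
      ‖Q (h.b * ((p : ℚ) ^ m)⁻¹) (h.d * ((p : ℚ) ^ m)⁻¹) - Q h.b h.d‖ < c)
    {b d : ℤ} (hbd : IsCoprime b d) (hd : (M : ℤ) ∣ d - 1) : ‖Fv S b d - S 0‖ < c := by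
  obtain ⟨B1, hB1⟩ := sd_bdd hT
  obtain ⟨B2, hB2⟩ := q1
  obtain ⟨m, hm, hm1, hm2⟩ := q4
  have hp0 : (p : ℚ) ≠ 0 := by exact_mod_cast hp.ne_zero
  have hu : (p : ℚ) ^ m ≠ 0 := pow_ne_zero _ hp0
  have hB0 : 0 ≤ B1 := (norm_nonneg _).trans (hB1 0)
  have hF : ∀ x y : ℚ, ‖Fv S x y‖ ≤ B1 := by
    intro x y
    unfold Fv
    split_ifs
    · simpa using hB0
    · exact hB1 _
  have hB20 : 0 ≤ B2 := (norm_nonneg _).trans (hB2 1 (Gam p N 1).one_mem)
  obtain ⟨k, hk⟩ := exists_pow_lt_of_lt_one (show 0 < c / (B1 + B2 + 1) by positivity) hpn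
  have hQ : ∀ g, Int1 (M : ℤ) g → Q g.b g.d = S 0 := by
    intro g hg
    have := q2 g hg 1 (Gam p N 1).one_mem
    rw [mul_one] at this
    rw [this]
    exact q0
  have hmk : ∀ x y : K, ‖x - y‖ < c →
      (QuotientAddGroup.mk x : K ⧸ eng0_ball K hc) = QuotientAddGroup.mk y := by
    intro x y h
    rw [QuotientAddGroup.eq]
    show ‖-x + y‖ < c
    rwa [neg_add_eq_sub, norm_sub_rev]
  have key := core (A := K ⧸ eng0_ball K hc) (k := k) hp hN r hm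
    (fun h => QuotientAddGroup.mk (Fv S h.b h.d - Q h.b h.d)) ?_ ?_ ?_ hu ?_ ?_ ?_
  · have hcop : IsCoprime d (b * (M : ℤ)) := by
      refine IsCoprime.mul_right hbd.symm ?_
      obtain ⟨w, hw⟩ := hd
      exact ⟨1, -w, by linear_combination hw⟩
    obtain ⟨u, v, huv⟩ := hcop
    have hdet : (u : ℚ) * d - b * ((-(v * M) : ℤ) : ℚ) = 1 := by
      have : u * d - b * (-(v * M)) = 1 := by linear_combination huv
      exact_mod_cast this
    have hg : Int1 (M : ℤ) ⟨u, b, ((-(v * M) : ℤ) : ℚ), d, hdet⟩ :=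
      ⟨u, b, -(v * M), d, rfl, rfl, rfl, rfl, (Dvd.intro_left v rfl).neg_right, hd⟩
    have h1 := key _ (hg.mem (p := p) (N := N) ⟨_, hM⟩)
    have h2 := hQ _ hg
    simp only at h1 h2
    rw [h2, QuotientAddGroup.eq_zero_iff] at h1
    exact h1
  · intro g hg
    rw [← QuotientAddGroup.mk_nsmul, QuotientAddGroup.eq_zero_iff]
    show ‖p ^ k • (Fv S g.b g.d - Q g.b g.d)‖ < c
    rw [nsmul_eq_mul, norm_mul, Nat.cast_pow, norm_pow]
    have h1 : ‖Fv S g.b g.d - Q g.b g.d‖ ≤ B1 + B2 + 1 :=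
      (norm_sub_le _ _).trans (by linarith [hF g.b g.d, hB2 g hg])
    rw [lt_div_iff₀ (by positivity)] at hk
    exact lt_of_le_of_lt (mul_le_mul_of_nonneg_left h1 (by positivity)) hk
  · intro h hh t ht
    exact hmk _ _ (q3 _ ((Gam p N 1).mul_mem hh (e_mem ht)) h hh (by simp) (by simp))
  · intro h _ t _
    simp
  · refine ⟨hm1, RM.zero _ _, RM.zero _ _, ?_⟩
    have : (D ((p : ℚ) ^ m) hu).d - 1 = -(((p : ℚ) ^ m - 1) * ((p : ℚ) ^ m)⁻¹) := by
      rw [D_d]; field_simp; ring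
    rw [this]
    exact (hm1.mul_r (RM.inv_pow hp.ne_zero m)).neg
  · intro h hh
    have e1 : (h * D ((p : ℚ) ^ m) hu).b = h.b * ((p : ℚ) ^ m)⁻¹ := by simp
    have e2 : (h * D ((p : ℚ) ^ m) hu).d = h.d * ((p : ℚ) ^ m)⁻¹ := by simp
    have e3 : Fv S (h.b * ((p : ℚ) ^ m)⁻¹) (h.d * ((p : ℚ) ^ m)⁻¹) = Fv S h.b h.d := by
      rw [mul_comm h.b, mul_comm h.d]
      exact Fv_smul S _ _ (inv_ne_zero hu)
    refine hmk _ _ ?_
    rw [e1, e2, e3, sub_sub_sub_cancel_left, norm_sub_rev]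
    exact hm2 h hh
  · intro g hg h hh
    rw [← hM] at hg
    rw [← QuotientAddGroup.mk_add, q2 g hg h hh, hQ g hg]
    obtain ⟨a', b', c', d', ha, hb, hc', hd', h1, h2⟩ := hg
    have hdet := g.det
    rw [ha, hb, hc', hd'] at hdet
    have hdet' : a' * d' - b' * c' = 1 := by exact_mod_cast hdet
    have hne : h.b ≠ 0 ∨ h.d ≠ 0 := by
      by_contra hcon
      push Not at hcon
      have := h.det
      rw [hcon.1, hcon.2] at this
      simp at this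
    have t1 := hT a' b' c' d' hdet' h1 h.b h.d hne
    have t2 := hT a' b' c' d' hdet' h1 0 1 (Or.inr one_ne_zero)
    rw [char_one ε h2, one_mul] at t1 t2
    have t3 : Fv S 0 1 = S 0 := by simp [Fv]
    rw [mul_zero, mul_zero, mul_one, mul_one, zero_add, zero_add, t3] at t2
    rw [mul_b, mul_d, ha, hb, hc', hd', t1, t2]
    congr 1
    ring

open Classical in
/-- the exponent and the primitive vector of `(x, y)` -/
noncomputable def prim (p : ℕ) (x y : ℚ) : ℤ × ℤ × ℤ :=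
  if h : ∃ v : ℤ × ℤ × ℤ, Prim p x y v.1 v.2.1 v.2.2 then h.choose else 0

lemma prim_eq {p : ℕ} (hp : p.Prime) {x y : ℚ} {j x' y' : ℤ} (h : Prim p x y j x' y') :
    prim p x y = (j, x', y') := by
  unfold prim
  have hex : ∃ v : ℤ × ℤ × ℤ, Prim p x y v.1 v.2.1 v.2.2 := ⟨(j, x', y'), h⟩
  rw [dif_pos hex]
  obtain ⟨h1, h2, h3⟩ := Prim.unique hp hex.choose_spec h
  exact Prod.ext h1 (Prod.ext h2 h3)

lemma prim_col1 {p : ℕ} (hp : p.Prime) {N : ℤ} (hN : IsCoprime N (p : ℤ)) {h : M2}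
    (hh : h ∈ Gam p N 1) : ∃ j a c, Prim p h.a h.c j a c ∧ N ∣ c := by
  obtain ⟨ha, hb, hc, hd⟩ := hh
  obtain ⟨j, a, c, hP⟩ := Prim.exists hp ha.of_sub_one hc.to_one hd.of_sub_one hb.neg
    (by linear_combination h.det)
  refine ⟨j, a, c, hP, RM.dvd_of_int hN ?_⟩
  have hp0 : (p : ℚ) ≠ 0 := by exact_mod_cast hp.ne_zero
  have : (c : ℚ) = (p : ℚ) ^ (-j) * h.c := by
    rw [hP.2.2, ← mul_assoc, ← zpow_add₀ hp0]; simp
  rw [this]
  exact (RM.zpow hp.ne_zero _).mul_l hc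

lemma prim_col2 {p : ℕ} (hp : p.Prime) {N : ℤ} {h : M2}
    (hh : h ∈ Gam p N 1) : ∃ j b d, Prim p h.b h.d j b d := by
  obtain ⟨ha, hb, hc, hd⟩ := hh
  exact Prim.exists hp hb hd.of_sub_one hc.to_one.neg ha.of_sub_one
    (by linear_combination h.det)

/-- the determinant of the two primitive columns is a power of `p` -/
lemma prim_det {p : ℕ} (hp : p.Prime) {h : M2} {j a c j' b d : ℤ}
    (h1 : Prim p h.a h.c j a c) (h2 : Prim p h.b h.d j' b d) :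
    ∃ n : ℕ, j + j' = -(n : ℤ) ∧ a * d - b * c = (p : ℤ) ^ n := by
  have hp0 : (p : ℚ) ≠ 0 := by exact_mod_cast hp.ne_zero
  have hdet := h.det
  rw [h1.2.1, h1.2.2, h2.2.1, h2.2.2] at hdet
  have key : (p : ℚ) ^ (j + j') * ((a * d - b * c : ℤ) : ℚ) = 1 := by
    rw [zpow_add₀ hp0]; push_cast; linear_combination hdet
  obtain ⟨n, hn | hn⟩ := (j + j').eq_nat_or_neg
  · rw [hn, zpow_natCast] at key
    have k2 : (p : ℤ) ^ n * (a * d - b * c) = 1 := by exact_mod_cast key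
    have hn0 : n = 0 := by
      by_contra h0
      have : (p : ℤ) ∣ 1 := k2 ▸ (dvd_pow_self _ h0).mul_right _
      have := Int.natCast_dvd_natCast.1 (show (p : ℤ) ∣ ((1 : ℕ) : ℤ) by simpa using this)
      exact hp.one_lt.ne' (Nat.dvd_one.1 this)
    subst hn0
    exact ⟨0, by simpa using hn, by simpa using k2⟩
  · refine ⟨n, hn, ?_⟩
    rw [hn, zpow_neg, zpow_natCast, inv_mul_eq_iff_eq_mul₀ (pow_ne_zero _ hp0), mul_one] at key
    exact_mod_cast key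

lemma prim_mul {p : ℕ} {M : ℤ} {g h : M2} (hg : Int1 M g) {j b d : ℤ}
    (h2 : Prim p h.b h.d j b d) :
    ∃ b' d', Prim p (g * h).b (g * h).d j b' d' ∧ M ∣ d' - d := by
  obtain ⟨a', b', c', d', ha, hb, hc, hd, h1, h3⟩ := hg
  have hdet := g.det
  rw [ha, hb, hc, hd] at hdet
  have hdet' : a' * d' - b' * c' = 1 := by exact_mod_cast hdet
  obtain ⟨⟨u, v, huv⟩, e1, e2⟩ := h2
  refine ⟨a' * b + b' * d, c' * b + d' * d, ⟨⟨u * d' - v * c', v * a' - u * b', ?_⟩, ?_, ?_⟩, ?_⟩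
  · linear_combination (u * b + v * d) * hdet' + huv
  · rw [mul_b, ha, hb, e1, e2]; push_cast; ring
  · rw [mul_d, hc, hd, e1, e2]; push_cast; ring
  · have : c' * b + d' * d - d = c' * b + (d' - 1) * d := by ring
    rw [this]
    exact (h1.mul_right b).add (h3.mul_right d)

lemma prim_scale {p : ℕ} (hp : p.Prime) {x y : ℚ} {j x' y' : ℤ} (h : Prim p x y j x' y') (m : ℕ) :
    Prim p (x * ((p : ℚ) ^ m)⁻¹) (y * ((p : ℚ) ^ m)⁻¹) (j - m) x' y' := by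
  have hp0 : (p : ℚ) ≠ 0 := by exact_mod_cast hp.ne_zero
  refine ⟨h.1, ?_, ?_⟩
  · rw [zpow_sub₀ hp0, zpow_natCast, h.2.1]; ring
  · rw [zpow_sub₀ hp0, zpow_natCast, h.2.2]; ring

lemma Fv_prim {K : Type*} [Zero K] (S : ℚ → K) {p : ℕ} (hp : p.Prime) {x y : ℚ} {j x' y' : ℤ}
    (h : Prim p x y j x' y') : Fv S x y = Fv S x' y' := by
  have hp0 : (p : ℚ) ≠ 0 := by exact_mod_cast hp.ne_zero
  rw [h.2.1, h.2.2]
  exact Fv_smul S _ _ (zpow_ne_zero _ hp0)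

end Pool.Agent.P.MP_20768c_nt.Az

end

-- part 20768c_nt.EngA
section

namespace Pool.Agent.P.MP_20768c_nt.Az
open M2

lemma enga_norm_e {K : Type*} [NormedField K] {p M : ℕ} (hM : IsCoprime (M : ℤ) (p : ℤ))
    (ε : DirichletCharacter K M) : ‖ε (p : ZMod M)‖ = 1 := by
  apply char_norm_unit
  have := (ZMod.coe_int_isUnit_iff_isCoprime (p : ℤ) M).2 hM
  simpa using this

lemma enga_lt {K : Type*} [NormedField K] [IsUltrametricDist K] {x y : K} {c : ℝ}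
    (hx : ‖x‖ < c) (hy : ‖y‖ < c) : ‖x + y‖ < c :=
  (IsUltrametricDist.norm_add_le_max x y).trans_lt (max_lt hx hy)

lemma enga_prod {K : Type*} [NormedField K] [IsUltrametricDist K] {α u L : K} {c : ℝ}
    (hα : ‖α‖ = 1) (hu : ‖u‖ = 1) (h : ‖(α - 1) * (u - 1) * L‖ < c) (i j : ℤ) :
    ‖(α ^ i - 1) * (u ^ j - 1) * L‖ < c := by
  refine lt_of_le_of_lt ?_ h
  simp only [norm_mul]
  have h1 := norm_zpow_sub_one hα i
  have h2 := norm_zpow_sub_one hu j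
  gcongr

lemma enga_eps {K : Type*} [Field K] {p M : ℕ} (hM : IsCoprime (M : ℤ) (p : ℤ))
    (hp : p ≠ 0) (ε : DirichletCharacter K M) (he : ε (p : ZMod M) ≠ 0) {j a : ℤ}
    (h : RM p M ((p : ℚ) ^ j * a - 1)) : ε (p : ZMod M) ^ j * ε (a : ZMod M) = 1 := by
  have hp' : (p : ℚ) ≠ 0 := by exact_mod_cast hp
  obtain ⟨k, rfl | rfl⟩ := j.eq_nat_or_neg
  · have h1 : (M : ℤ) ∣ (p : ℤ) ^ k * a - 1 := by
      apply RM.dvd_of_int hM
      push_cast
      simpa using h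
    have h2 := char_one ε h1
    push_cast at h2
    rw [map_mul, map_pow] at h2
    rw [zpow_natCast]
    exact h2
  · have h1 : (M : ℤ) ∣ a - (p : ℤ) ^ k := by
      apply RM.dvd_of_int hM
      have h3 := (RM.pow p k).mul_l h
      have e : (p : ℚ) ^ k * ((p : ℚ) ^ (-(k : ℤ)) * a - 1) = ((a - (p : ℤ) ^ k : ℤ) : ℚ) := by
        rw [zpow_neg, zpow_natCast]
        push_cast
        field_simp
      rwa [e] at h3
    have h2 := char_cong ε h1
    push_cast at h2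
    rw [map_pow] at h2
    rw [h2, zpow_neg, zpow_natCast]
    exact inv_mul_cancel₀ (pow_ne_zero _ he)

/-- case `p ∤ M`: `F(b,d) - u ^ j' L` depends only on the first column -/
lemma engA_col {K : Type*} [NormedField K] [IsUltrametricDist K] {p M : ℕ} (hp : p.Prime)
    (hM : IsCoprime (M : ℤ) (p : ℤ)) {ε : DirichletCharacter K M} {S : ℚ → K} {α : K} {c : ℝ}
    (hT : TLaw M ε S) (hα1 : ‖α‖ = 1)
    (hval : ∀ (n : ℕ) (a : ℤ), (n = 0 ∨ ¬ (p : ℤ) ∣ a) →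
      ‖S (a / (p : ℚ) ^ n) - (α / ε (p : ZMod M)) ^ (-(n : ℤ)) * S 0‖ < c)
    (hrel : ‖(α - 1) * (α / ε (p : ZMod M) - 1) * S 0‖ < c)
    {h : M2} (hh : h ∈ Gam p M 1) {j a' c' j' b' d' : ℤ}
    (h1 : Prim p h.a h.c j a' c') (h2 : Prim p h.b h.d j' b' d') :
    ‖(Fv S h.b h.d - (α / ε (p : ZMod M)) ^ j' * S 0) - (Fv S a' c' + (α ^ j - 1) * S 0)‖ < c := by
  have hp' : (p : ℚ) ≠ 0 := by exact_mod_cast hp.ne_zero
  have he1 := enga_norm_e hM ε
  have he0 : ε (p : ZMod M) ≠ 0 := by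
    intro h0; rw [h0, norm_zero] at he1; exact zero_ne_one he1
  have hα0 : α ≠ 0 := by
    intro h0; rw [h0, norm_zero] at hα1; exact zero_ne_one hα1
  have hu1 : ‖α / ε (p : ZMod M)‖ = 1 := by rw [norm_div, hα1, he1, div_one]
  obtain ⟨n, hn, hdet⟩ := prim_det hp h1 h2
  obtain ⟨ha, -, hc, -⟩ := mem_Gam.1 hh
  have hc' : (M : ℤ) ∣ c' := by
    apply RM.dvd_of_int hM
    have h3 := (RM.zpow hp.ne_zero (-j)).mul_l hc
    have e : (p : ℚ) ^ (-j) * h.c = c' := by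
      rw [h1.2.2, zpow_neg]
      field_simp
    rwa [e] at h3
  obtain ⟨y, x', hxy⟩ := h1.1
  have hγ : a' * y - (-x') * c' = 1 := by linear_combination hxy
  set x : ℤ := -x' with hx
  set t : ℤ := y * b' - x * d' with ht
  have hb : b' = a' * t + x * (p : ℤ) ^ n := by
    rw [ht, ← hdet]; linear_combination (-b') * hγ
  have hd : d' = c' * t + y * (p : ℤ) ^ n := by
    rw [ht, ← hdet]; linear_combination (-d') * hγ
  have hlow : n = 0 ∨ ¬ (p : ℤ) ∣ t := by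
    by_cases h0 : n = 0
    · exact Or.inl h0
    · refine Or.inr fun hpt => ?_
      have hpn : (p : ℤ) ∣ (p : ℤ) ^ n := dvd_pow_self _ h0
      have d1 : (p : ℤ) ∣ b' := by rw [hb]; exact (hpt.mul_left _).add (hpn.mul_left _)
      have d2 : (p : ℤ) ∣ d' := by rw [hd]; exact (hpt.mul_left _).add (hpn.mul_left _)
      have := h2.1.isUnit_of_dvd' d1 d2
      rw [Int.isUnit_iff_natAbs_eq] at this
      exact hp.one_lt.ne' (by simpa using this)
  have hpn0 : (p : ℚ) ^ n ≠ 0 := pow_ne_zero _ hp'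
  have hF := hT a' x c' y hγ hc' t ((p : ℚ) ^ n) (Or.inr hpn0)
  have eb : (a' : ℚ) * t + x * (p : ℚ) ^ n = b' := by rw [hb]; push_cast; ring
  have ed : (c' : ℚ) * t + y * (p : ℚ) ^ n = d' := by rw [hd]; push_cast; ring
  rw [eb, ed, Fv_of_ne S _ hpn0] at hF
  have e1 : ε (p : ZMod M) ^ j * ε (a' : ZMod M) = 1 := by
    apply enga_eps hM hp.ne_zero ε he0
    rw [← h1.2.1]; exact ha
  have e2 : ε (a' : ZMod M) * ε (y : ZMod M) = 1 := by
    have h3 : (M : ℤ) ∣ a' * y - 1 := by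
      have : a' * y - 1 = x * c' := by linear_combination hγ
      rw [this]; exact hc'.mul_left _
    have h4 := char_one ε h3
    push_cast at h4
    rwa [map_mul] at h4
  have e3 : ε (y : ZMod M) = ε (p : ZMod M) ^ j := by
    linear_combination (-ε (y : ZMod M)) * e1 + ε (p : ZMod M) ^ j * e2
  have e4 : ε (p : ZMod M) ^ j * (α / ε (p : ZMod M)) ^ (-(n : ℤ)) =
      α ^ j * (α / ε (p : ZMod M)) ^ j' := by
    rw [← hn, zpow_add₀ (div_ne_zero hα0 he0), div_zpow, ← mul_assoc,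
      mul_div_cancel₀ _ (zpow_ne_zero j he0)]
  rw [Fv_prim S hp h2, hF, e3]
  have key : Fv S a' c' + ε (p : ZMod M) ^ j * S (t / (p : ℚ) ^ n) -
      (α / ε (p : ZMod M)) ^ j' * S 0 - (Fv S a' c' + (α ^ j - 1) * S 0) =
      ε (p : ZMod M) ^ j * (S (t / (p : ℚ) ^ n) - (α / ε (p : ZMod M)) ^ (-(n : ℤ)) * S 0) +
        (α ^ j - 1) * ((α / ε (p : ZMod M)) ^ j' - 1) * S 0 := by
    linear_combination (S 0) * e4
  rw [key]
  refine enga_lt ?_ (enga_prod hα1 hu1 hrel j j')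
  rw [norm_mul, norm_zpow, he1, one_zpow, one_mul]
  exact hval n t hlow

theorem engA {K : Type*} [NormedField K] [IsUltrametricDist K] {p M : ℕ} [NeZero M]
    (hp : p.Prime) (hpn : ‖(p : K)‖ < 1) (hM : ¬ p ∣ M) {ε : DirichletCharacter K M}
    {S : ℚ → K} {A α : K} {c : ℝ} (hT : TLaw M ε S) (hH : HLaw p M ε A S)
    (hα : α ^ 2 - A * α + ε (p : ZMod M) * p = 0) (hα1 : ‖α‖ = 1) (hc : 0 < c)
    (hμ : ∀ (n : ℕ) (a : ℤ), ¬ (p : ℤ) ∣ a →
      ‖α * S (a / (p : ℚ) ^ (n + 1)) - ε (p : ZMod M) * S (a / (p : ℚ) ^ n)‖ < c)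
    {b d : ℤ} (hbd : IsCoprime b d) (hd : (M : ℤ) ∣ d - 1) : ‖Fv S b d - S 0‖ < c := by
  have hcop : Nat.Coprime p M := (Nat.Prime.coprime_iff_not_dvd hp).2 hM
  have hM' : IsCoprime (M : ℤ) (p : ℤ) := Nat.isCoprime_iff_coprime.2 hcop.symm
  have he1 := enga_norm_e hM' ε
  have he0 : ε (p : ZMod M) ≠ 0 := by
    intro h0; rw [h0, norm_zero] at he1; exact zero_ne_one he1
  have hα0 : α ≠ 0 := by
    intro h0; rw [h0, norm_zero] at hα1; exact zero_ne_one hα1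
  have hu1 : ‖α / ε (p : ZMod M)‖ = 1 := by rw [norm_div, hα1, he1, div_one]
  have hu0 : α / ε (p : ZMod M) ≠ 0 := div_ne_zero hα0 he0
  have hval := engA_val hp hT hα1 he1 hc hμ
  have hrel := engA_rel hp hT hH hα hα1 he1 hc hμ
  refine eng0 hp hpn (N := M) (r := 0) hM' (by simp) hT hc
    (fun x y => (α / ε (p : ZMod M)) ^ (prim p x y).1 * S 0) ?_ ?_ ?_ ?_ ?_ hbd hd
  · have h0 : Prim p 0 1 0 0 1 := ⟨isCoprime_one_right, by simp, by simp⟩
    simp only [prim_eq hp h0, zpow_zero, one_mul]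
  · refine ⟨‖S 0‖, fun h _ => ?_⟩
    rw [norm_mul, norm_zpow, hu1, one_zpow, one_mul]
  · intro g hg h hh
    obtain ⟨j, b1, d1, h2⟩ := prim_col2 hp hh
    obtain ⟨b2, d2, h3, -⟩ := prim_mul hg h2
    simp only [prim_eq hp h2, prim_eq hp h3]
  · intro h hh h' hh' ea ec
    obtain ⟨j, a1, c1, h1, -⟩ := prim_col1 hp hM' hh
    have h1' : Prim p h'.a h'.c j a1 c1 := by rw [← ea, ← ec]; exact h1
    obtain ⟨j1, b1, d1, h2⟩ := prim_col2 hp hh
    obtain ⟨j2, b2, d2, h2'⟩ := prim_col2 hp hh'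
    have k1 := engA_col hp hM' hT hα1 hval hrel hh h1 h2
    have k2 := engA_col hp hM' hT hα1 hval hrel hh' h1' h2'
    rw [← norm_neg] at k2
    have k3 := enga_lt k1 k2
    simp only [prim_eq hp h2, prim_eq hp h2']
    refine lt_of_eq_of_lt ?_ k3
    congr 1
    ring
  · have hφ : (M : ℤ) ∣ (p : ℤ) ^ (Nat.totient M) - 1 := by
      have h1 := (Nat.ModEq.pow_totient hcop).symm.dvd
      push_cast at h1
      exact h1
    have heφ : ε (p : ZMod M) ^ (Nat.totient M) = 1 := by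
      have h1 := char_one ε hφ
      push_cast at h1
      rwa [map_pow] at h1
    have hw : (α / ε (p : ZMod M)) ^ (Nat.totient M) = α ^ (Nat.totient M) := by
      rw [div_pow, heφ, div_one]
    have hsq : ‖((α / ε (p : ZMod M)) ^ (Nat.totient M) - 1) *
        ((α / ε (p : ZMod M)) ^ (Nat.totient M) - 1) * S 0‖ < c := by
      have h1 := enga_prod hα1 hu1 hrel (Nat.totient M : ℤ) (Nat.totient M : ℤ)
      rw [zpow_natCast, zpow_natCast, ← hw] at h1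
      exact h1
    obtain ⟨k, hk⟩ := unip_pow hpn (by rw [norm_pow, hu1, one_pow]) hsq
    rw [← pow_mul] at hk
    refine ⟨Nat.totient M * p ^ k,
      Nat.mul_pos (Nat.totient_pos.2 (Nat.pos_of_ne_zero (NeZero.ne M))) (pow_pos hp.pos k),
      ?_, fun h hh => ?_⟩
    · have h1 : (M : ℤ) ∣ (p : ℤ) ^ (Nat.totient M * p ^ k) - 1 := by
        rw [pow_mul]
        exact hφ.trans (by simpa using sub_dvd_pow_sub_pow ((p : ℤ) ^ (Nat.totient M)) 1 (p ^ k))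
      have h2 := RM.of_dvd p h1
      push_cast at h2
      exact h2
    · obtain ⟨j, b1, d1, h2⟩ := prim_col2 hp hh
      have h3 := prim_scale hp h2 (Nat.totient M * p ^ k)
      simp only [prim_eq hp h2, prim_eq hp h3]
      generalize Nat.totient M * p ^ k = m at hk ⊢
      have e : (α / ε (p : ZMod M)) ^ (j - (m : ℤ)) * S 0 - (α / ε (p : ZMod M)) ^ j * S 0 =
          -(α / ε (p : ZMod M)) ^ (j - (m : ℤ)) * (((α / ε (p : ZMod M)) ^ m - 1) * S 0) := by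
        have e1 : (α / ε (p : ZMod M)) ^ j =
            (α / ε (p : ZMod M)) ^ (j - (m : ℤ)) * (α / ε (p : ZMod M)) ^ m := by
          rw [← zpow_natCast, ← zpow_add₀ hu0, sub_add_cancel]
        rw [e1]
        generalize (α / ε (p : ZMod M)) ^ (j - (m : ℤ)) = v
        ring
      rw [e, norm_mul, norm_neg, norm_zpow, hu1, one_zpow, one_mul]
      exact hk

end Pool.Agent.P.MP_20768c_nt.Az

end

-- part 20768c_nt.EngB
section

namespace Pool.Agent.P.MP_20768c_nt.Az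
open M2

theorem engB {K : Type*} [NormedField K] [IsUltrametricDist K] {p M : ℕ} [NeZero M]
    (hp : p.Prime) (hpn : ‖(p : K)‖ < 1) (hM : p ∣ M) {ε : DirichletCharacter K M}
    {S : ℚ → K} {α : K} {c : ℝ} (hT : TLaw M ε S) (hH : HLaw p M ε α S)
    (hα1 : ‖α‖ = 1) (hc : 0 < c)
    (hμ : ∀ (n : ℕ) (a : ℤ), ¬ (p : ℤ) ∣ a → ‖S (a / (p : ℚ) ^ (n + 1))‖ < c)
    {b d : ℤ} (hbd : IsCoprime b d) (hd : (M : ℤ) ∣ d - 1) : ‖Fv S b d - S 0‖ < c := by
  obtain ⟨r, N, hN0, hMN0⟩ := Nat.exists_eq_pow_mul_and_not_dvd (NeZero.ne M) p hp.one_lt.ne'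
  have hN : IsCoprime (N : ℤ) (p : ℤ) :=
    Nat.isCoprime_iff_coprime.2 ((Nat.Prime.coprime_iff_not_dvd hp).2 hN0).symm
  have hMN : (M : ℤ) = (N : ℤ) * (p : ℤ) ^ r := by rw [hMN0]; push_cast; ring
  have hNne : ((N : ℤ) : ℚ) ≠ 0 := by
    have : N ≠ 0 := by rintro rfl; exact hN0 (dvd_zero p)
    exact_mod_cast this
  refine eng0 hp hpn hN hMN hT hc (fun x y => ε (((prim p x y).2.2 : ℤ) : ZMod M) * S 0)
    ?_ ?_ ?_ ?_ ?_ hbd hd
  · have h0 : Prim p 0 1 0 0 1 := ⟨isCoprime_one_right, by simp, by simp⟩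
    simp [prim_eq hp h0]
  · refine ⟨‖S 0‖, fun h _ => ?_⟩
    rw [norm_mul]
    exact mul_le_of_le_one_left (norm_nonneg _) (char_norm_le ε _)
  · intro g hg h hh
    obtain ⟨j, b1, d1, h1⟩ := prim_col2 hp hh
    obtain ⟨b2, d2, h2, h3⟩ := prim_mul hg h1
    simp only [prim_eq hp h1, prim_eq hp h2]
    rw [char_cong ε h3]
  · intro h hh h' hh' ea ec
    obtain ⟨j, a', c', h0, hc'⟩ := prim_col1 hp hN hh
    have h0' : Prim p h'.a h'.c j a' c' := by rw [← ea, ← ec]; exact h0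
    obtain ⟨j1, b1, d1, h1⟩ := prim_col2 hp hh
    obtain ⟨j2, b2, d2, h2⟩ := prim_col2 hp hh'
    obtain ⟨n1, -, e1⟩ := prim_det hp h0 h1
    obtain ⟨n2, -, e2⟩ := prim_det hp h0' h2
    simp only [prim_eq hp h1, prim_eq hp h2]
    rw [Fv_prim S hp h1, Fv_prim S hp h2]
    change ‖Hv ε S b1 d1 - Hv ε S b2 d2‖ < c
    by_cases hpc : (p : ℤ) ∣ c'
    · have k1 := engB_E2 hp hM hN hMN hT hH hα1 hc hμ h0.1 h1.1 hc' hpc e1
      have k2 := engB_E2 hp hM hN hMN hT hH hα1 hc hμ h0.1 h2.1 hc' hpc e2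
      have e : Hv ε S b1 d1 - Hv ε S b2 d2 =
          (Hv ε S b1 d1 - Fv S a' c') + -(Hv ε S b2 d2 - Fv S a' c') := by ring
      rw [e]
      refine (IsUltrametricDist.norm_add_le_max _ _).trans_lt (max_lt k1 ?_)
      rwa [norm_neg]
    · exact engB_E3 hp hM hN hMN hT hH hα1 hc hμ h0.1 h1.1 h2.1 hc' hpc e1 e2
  · obtain ⟨i, hi, h1⟩ := RM.pow_one_mod hp hNne (RM.int p N) 1
    refine ⟨i, hi, ?_, fun h hh => ?_⟩
    · have h2 := (RM.of_dvd p (dvd_refl (N : ℤ))).mul_r h1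
      rwa [pow_one, mul_div_cancel₀ _ hNne] at h2
    · obtain ⟨j, b1, d1, h2⟩ := prim_col2 hp hh
      simp only [prim_eq hp h2, prim_eq hp (prim_scale hp h2 i)]
      simpa using hc

/-- both cases -/
theorem engine {K : Type*} [NormedField K] [IsUltrametricDist K] {p M : ℕ} [NeZero M]
    (hp : p.Prime) (hpn : ‖(p : K)‖ < 1) {ε : DirichletCharacter K M}
    {S : ℚ → K} {A α : K} {c : ℝ} (hT : TLaw M ε S) (hH : HLaw p M ε A S)
    (hα : α ^ 2 - A * α + ε (p : ZMod M) * p = 0) (hα1 : ‖α‖ = 1) (hc : 0 < c)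
    (hμ : ∀ (n : ℕ) (a : ℤ), ¬ (p : ℤ) ∣ a →
      ‖α * S (a / (p : ℚ) ^ (n + 1)) - ε (p : ZMod M) * S (a / (p : ℚ) ^ n)‖ < c)
    {b d : ℤ} (hbd : IsCoprime b d) (hd : (M : ℤ) ∣ d - 1) : ‖Fv S b d - S 0‖ < c := by
  by_cases hM : p ∣ M
  · have h0 : ε (p : ZMod M) = 0 := by
      simpa using char_zero ε hp hM (dvd_refl (p : ℤ))
    have hα0 : α ≠ 0 := by
      rintro rfl
      simp at hα1
    have hA : A = α := by
      rw [h0] at hα
      apply mul_right_cancel₀ hα0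
      linear_combination -hα
    subst hA
    refine engB hp hpn hM hT hH hα1 hc (fun n a ha => ?_) hbd hd
    have := hμ n a ha
    rwa [h0, zero_mul, sub_zero, norm_mul, hα1, one_mul] at this
  · exact engA hp hpn hM hT hH hα hα1 hc hμ hbd hd

end Pool.Agent.P.MP_20768c_nt.Az

end
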